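import Pool.Agent.Lib.MP_48c8f3_co.BTa0
import Pool.Agent.Lib.MP_48c8f3_co.BTa1
import Pool.Agent.Lib.MP_48c8f3_co.BTa2
import Pool.Agent.Lib.MP_48c8f3_co.BTa3
import Pool.Agent.Lib.MP_48c8f3_co.BTa4
import Pool.Agent.Lib.MP_48c8f3_co.BTa5
import Pool.Agent.Lib.MP_48c8f3_co.BTa6
import Pool.Agent.Lib.MP_48c8f3_co.BTa7
import Pool.Agent.Lib.MP_48c8f3_co.BTa8
import Pool.Agent.Lib.MP_48c8f3_co.BTa9
import Pool.Agent.Lib.MP_48c8f3_co.BTa10
import Pool.Agent.Lib.MP_48c8f3_co.BTa11

set_option autoImplicit false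
set_option maxRecDepth 100000

/-! MP_48c8f3_co: the array B, finite volume (machine made). -/

namespace Pool.Agent.EdgeIso.Cell

/-- the array B -/
def BT (i b : ℕ) : ℕ :=
  bif Nat.ble b 0 then 0 else bif Nat.ble 34 b then 0 else (bif Nat.ble b 17 then (bif Nat.ble b
    9 then (bif Nat.ble b 5 then (bif Nat.ble b 3 then (bif Nat.ble b 2 then (bif Nat.ble b 1
    then (BT1 i) else (BT2 i)) else (BT3 i)) else (bif Nat.ble b 4 then (BT4 i) else (BT5 i)))
    else (bif Nat.ble b 7 then (bif Nat.ble b 6 then (BT6 i) else (BT7 i)) else (bif Nat.ble b 8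
    then (BT8 i) else (BT9 i)))) else (bif Nat.ble b 13 then (bif Nat.ble b 11 then (bif Nat.ble
    b 10 then (BT10 i) else (BT11 i)) else (bif Nat.ble b 12 then (BT12 i) else (BT13 i))) else
    (bif Nat.ble b 15 then (bif Nat.ble b 14 then (BT14 i) else (BT15 i)) else (bif Nat.ble b 16
    then (BT16 i) else (BT17 i))))) else (bif Nat.ble b 25 then (bif Nat.ble b 21 then (bif
    Nat.ble b 19 then (bif Nat.ble b 18 then (BT18 i) else (BT19 i)) else (bif Nat.ble b 20 then
    (BT20 i) else (BT21 i))) else (bif Nat.ble b 23 then (bif Nat.ble b 22 then (BT22 i) else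
    (BT23 i)) else (bif Nat.ble b 24 then (BT24 i) else (BT25 i)))) else (bif Nat.ble b 29 then
    (bif Nat.ble b 27 then (bif Nat.ble b 26 then (BT26 i) else (BT27 i)) else (bif Nat.ble b 28
    then (BT28 i) else (BT29 i))) else (bif Nat.ble b 31 then (bif Nat.ble b 30 then (BT30 i)
    else (BT31 i)) else (bif Nat.ble b 32 then (BT32 i) else (BT33 i))))))

theorem BT_zero {i b : ℕ} (h : b = 0 ∨ 34 ≤ b) : BT i b = 0 := by
  unfold BT
  rcases h with h | h
  · subst h
    rfl
  · rw [Nat.ble_eq_true_of_le h]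
    cases Nat.ble b 0 <;> rfl

/-- all rows of the array B are valid -/
theorem BT_rows (b : ℕ) : RowB 7 16 4 TKbr (fun t i β => ((TKb t i β : ℕ) : ℤ)) b
    (fun i => ((BT i b : ℕ) : ℤ)) := by
  rcases Nat.eq_zero_or_pos b with h0 | h0
  · exact rowB_zero (t := 1) (by decide) (fun i => BT_zero (Or.inl h0))
  rcases Nat.lt_or_ge 33 b with h1 | h1
  · exact rowB_zero (t := 1) (by decide) (fun i => BT_zero (Or.inr h1))
  interval_cases b
  · exact BT1_row
  · exact BT2_row
  · exact BT3_row
  · exact BT4_row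
  · exact BT5_row
  · exact BT6_row
  · exact BT7_row
  · exact BT8_row
  · exact BT9_row
  · exact BT10_row
  · exact BT11_row
  · exact BT12_row
  · exact BT13_row
  · exact BT14_row
  · exact BT15_row
  · exact BT16_row
  · exact BT17_row
  · exact BT18_row
  · exact BT19_row
  · exact BT20_row
  · exact BT21_row
  · exact BT22_row
  · exact BT23_row
  · exact BT24_row
  · exact BT25_row
  · exact BT26_row
  · exact BT27_row
  · exact BT28_row
  · exact BT29_row
  · exact BT30_row
  · exact BT31_row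
  · exact BT32_row
  · exact BT33_row

end Pool.Agent.EdgeIso.Cell
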