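import Mathlib.Algebra.BigOperators.Group.Finset.Powerset
import Mathlib.Algebra.Order.Chebyshev
import Mathlib.Combinatorics.SetFamily.Compression.Down
import Mathlib.Data.Fin.Tuple.Sort
import Mathlib.Data.Int.ConditionallyCompleteOrder
import Mathlib.Data.Int.SuccPred
import Mathlib.Data.Nat.Bitwise
import Mathlib.Tactic.FieldSimp
import Mathlib.Tactic.FinCases
import Mathlib.Tactic.IntervalCases
import Mathlib.Tactic.Linarith
import Mathlib.Tactic.LinearCombination
import Mathlib.Tactic.NthRewrite
import Mathlib.Tactic.Set
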