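import Pool.Agent.Lib.MP_48c8f3_co.Bas

set_option autoImplicit false

/-!
MP_48c8f3_co: the function `g m` (maximal number of edges of an induced subgraph of the cube with
`m` vertices), its superadditivity, and a piecewise linear upper bound.
-/

namespace Pool.Agent.EdgeIso

/-- `g m = ∑_{i<m} s₂(i)` defined by the halving recursion. -/
def g (m : ℕ) : ℕ :=
  if h : m ≤ 1 then 0 else g (m / 2) + g ((m + 1) / 2) + m / 2
  termination_by m
  decreasing_by all_goals omega

theorem g_zero : g 0 = 0 := by rw [g]; simp
theorem g_one : g 1 = 0 := by rw [g]; simp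

theorem g_even (m : ℕ) : g (2 * m) = 2 * g m + m := by
  rcases Nat.eq_zero_or_pos m with h | h
  · subst h; simp [g_zero]
  · rw [g, dif_neg (by omega)]
    have h1 : 2 * m / 2 = m := by omega
    have h2 : (2 * m + 1) / 2 = m := by omega
    rw [h1, h2]; ring

theorem g_odd (m : ℕ) : g (2 * m + 1) = g m + g (m + 1) + m := by
  rcases Nat.eq_zero_or_pos m with h | h
  · subst h; simp [g_zero, g_one]
  · rw [g, dif_neg (by omega)]
    have h1 : (2 * m + 1) / 2 = m := by omega
    have h2 : (2 * m + 1 + 1) / 2 = m + 1 := by omega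
    rw [h1, h2]

theorem g_super (n : ℕ) : ∀ a b : ℕ, a + b = n → g a + g b + min a b ≤ g (a + b) := by
  induction n using Nat.strong_induction_on with
  | _ n ih =>
    intro a b hab
    rcases Nat.eq_zero_or_pos a with ha | ha
    · subst ha; simp [g_zero]
    rcases Nat.eq_zero_or_pos b with hb | hb
    · subst hb; simp [g_zero]
    rcases Nat.even_or_odd' a with ⟨a', ha' | ha'⟩ <;> rcases Nat.even_or_odd' b with ⟨b', hb' | hb'⟩
    · subst ha' hb'
      have h1 := ih (a' + b') (by omega) a' b' rfl
      rw [← Nat.mul_add, g_even, g_even, g_even]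
      omega
    · subst ha' hb'
      have e : 2 * a' + (2 * b' + 1) = 2 * (a' + b') + 1 := by ring
      have h1 := ih (a' + b') (by omega) a' b' rfl
      have h2 := ih (a' + (b' + 1)) (by omega) a' (b' + 1) rfl
      have e2 : a' + (b' + 1) = a' + b' + 1 := by ring
      rw [e2] at h2
      rw [e, g_odd, g_even, g_odd]
      omega
    · subst ha' hb'
      have e : 2 * a' + 1 + 2 * b' = 2 * (a' + b') + 1 := by ring
      have h1 := ih (a' + b') (by omega) a' b' rfl
      have h2 := ih ((a' + 1) + b') (by omega) (a' + 1) b' rfl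
      have e2 : (a' + 1) + b' = a' + b' + 1 := by ring
      rw [e2] at h2
      rw [e, g_odd, g_even, g_odd]
      omega
    · subst ha' hb'
      have e : 2 * a' + 1 + (2 * b' + 1) = 2 * (a' + b' + 1) := by ring
      have h1 := ih ((a' + 1) + b') (by omega) (a' + 1) b' rfl
      have h2 := ih (a' + (b' + 1)) (by omega) a' (b' + 1) rfl
      have e1 : (a' + 1) + b' = a' + b' + 1 := by ring
      have e2 : a' + (b' + 1) = a' + b' + 1 := by ring
      rw [e1] at h1
      rw [e2] at h2
      rw [e, g_even, g_odd, g_odd]
      omega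

theorem g_add (a b : ℕ) : g a + g b + min a b ≤ g (a + b) := g_super (a + b) a b rfl

end Pool.Agent.EdgeIso
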