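import Pool.Agent.Lib.MP_48c8f3_co.Bas
import Pool.Agent.Lib.MP_48c8f3_co.G

set_option autoImplicit false

/-!
MP_48c8f3_co: families of subsets of `s`, number of (ordered) inner edges, subcubes, and the
edge-isoperimetric inequality.
-/

namespace Pool.Agent.EdgeIso

open Finset

variable {α : Type*} [DecidableEq α]

/-- twice the number of edges of the cube on `s` inside `F` -/
def e2 (s : Finset α) (F : Finset (Finset α)) : ℕ :=
  ∑ x ∈ F, (s.filter (fun i => symmDiff x {i} ∈ F)).card

theorem symmDiff_singleton_of_notMem {x : Finset α} {i : α} (h : i ∉ x) :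
    symmDiff x {i} = insert i x := by
  ext j
  simp only [mem_symmDiff, mem_singleton, mem_insert]
  constructor
  · rintro (⟨h1, h2⟩ | ⟨h1, h2⟩)
    · exact Or.inr h1
    · exact Or.inl h1
  · rintro (h1 | h1)
    · subst h1; exact Or.inr ⟨rfl, h⟩
    · left; refine ⟨h1, ?_⟩; rintro rfl; exact h h1

theorem symmDiff_singleton_of_mem {x : Finset α} {i : α} (h : i ∈ x) :
    symmDiff x {i} = x.erase i := by
  ext j
  simp only [mem_symmDiff, mem_singleton, mem_erase]
  constructor
  · rintro (⟨h1, h2⟩ | ⟨h1, h2⟩)
    · exact ⟨h2, h1⟩
    · subst h1; exact absurd h h2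
  · rintro ⟨h1, h2⟩
    exact Or.inl ⟨h2, h1⟩

theorem e2_split {s : Finset α} {a : α} (ha : a ∉ s) (F : Finset (Finset α)) :
    e2 (insert a s) F ≤ e2 s (F.nonMemberSubfamily a) + e2 s (F.memberSubfamily a) +
      2 * (F.nonMemberSubfamily a ∩ F.memberSubfamily a).card := by
  classical
  set A := F.nonMemberSubfamily a with hA
  set B := F.memberSubfamily a with hB
  have hAF : A = F.filter (fun x => a ∉ x) := by
    ext x; simp [hA, mem_nonMemberSubfamily]
  have hBF : B = (F.filter (fun x => a ∈ x)).image (fun x => x.erase a) := by
    rw [hB, memberSubfamily]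
  have hinj : Set.InjOn (fun x : Finset α => x.erase a) (F.filter (fun x => a ∈ x)) := by
    intro x hx y hy hxy
    simp only [coe_filter, Set.mem_ofPred_eq] at hx hy
    have h1 := congrArg (insert a) hxy
    simpa [insert_erase hx.2, insert_erase hy.2] using h1
  have hsplit : e2 (insert a s) F =
      ∑ x ∈ F.filter (fun x => a ∈ x), ((insert a s).filter (fun i => symmDiff x {i} ∈ F)).card +
      ∑ x ∈ F.filter (fun x => ¬ a ∈ x), ((insert a s).filter (fun i => symmDiff x {i} ∈ F)).card := by
    unfold e2
    rw [sum_filter_add_sum_filter_not]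
  -- non-member part
  have h1 : ∑ x ∈ F.filter (fun x => ¬ a ∈ x),
      ((insert a s).filter (fun i => symmDiff x {i} ∈ F)).card ≤ e2 s A + (A ∩ B).card := by
    have : (A ∩ B).card = ∑ x ∈ A, (if x ∈ B then 1 else 0) := by
      rw [sum_ite_mem, card_eq_sum_ones]
    rw [this, e2, ← sum_add_distrib, hAF]
    apply sum_le_sum
    intro x hx
    rw [mem_filter] at hx
    have hsub : (insert a s).filter (fun i => symmDiff x {i} ∈ F) ⊆
        (s.filter (fun i => symmDiff x {i} ∈ F.filter (fun x => a ∉ x))) ∪
          (if x ∈ B then {a} else ∅) := by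
      intro i hi
      rw [mem_filter, mem_insert] at hi
      rw [mem_union]
      rcases hi.1 with h | h
      · right
        subst h
        have hxB : x ∈ B := by
          rw [hB, mem_memberSubfamily]
          rw [symmDiff_singleton_of_notMem hx.2] at hi
          exact ⟨hi.2, hx.2⟩
        rw [if_pos hxB]; exact mem_singleton_self _
      · left
        rw [mem_filter, mem_filter]
        refine ⟨h, hi.2, ?_⟩
        rw [mem_symmDiff]
        rintro (h' | h')
        · exact hx.2 h'.1
        · rw [mem_singleton] at h'
          have := h'.1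
          subst this
          exact ha h
    refine (card_le_card hsub).trans ((card_union_le _ _).trans ?_)
    apply Nat.add_le_add_left
    split_ifs <;> simp
  have h2 : ∑ x ∈ F.filter (fun x => a ∈ x),
      ((insert a s).filter (fun i => symmDiff x {i} ∈ F)).card ≤ e2 s B + (A ∩ B).card := by
    have : (A ∩ B).card = ∑ x ∈ B, (if x ∈ A then 1 else 0) := by
      rw [sum_ite_mem, card_eq_sum_ones, inter_comm]
    rw [this, e2, ← sum_add_distrib]
    have e : ∑ y ∈ B, ((s.filter (fun i => symmDiff y {i} ∈ B)).card + (if y ∈ A then 1 else 0)) =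
        ∑ x ∈ F.filter (fun x => a ∈ x), ((s.filter (fun i => symmDiff (x.erase a) {i} ∈ B)).card +
          (if x.erase a ∈ A then 1 else 0)) := by
      conv_lhs => rw [hBF]
      rw [sum_image hinj, ← hBF]
    rw [e]
    apply sum_le_sum
    intro x hx
    rw [mem_filter] at hx
    have hsub : (insert a s).filter (fun i => symmDiff x {i} ∈ F) ⊆
        (s.filter (fun i => symmDiff (x.erase a) {i} ∈ B)) ∪
          (if x.erase a ∈ A then {a} else ∅) := by
      intro i hi
      rw [mem_filter, mem_insert] at hi
      rw [mem_union]
      rcases hi.1 with h | h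
      · right
        subst h
        have hxA : x.erase i ∈ A := by
          rw [hA, mem_nonMemberSubfamily]
          rw [symmDiff_singleton_of_mem hx.2] at hi
          exact ⟨hi.2, notMem_erase _ _⟩
        rw [if_pos hxA]; exact mem_singleton_self _
      · left
        have hia : i ≠ a := by rintro rfl; exact ha h
        rw [mem_filter]
        refine ⟨h, ?_⟩
        rw [hB, mem_memberSubfamily]
        have h3 : a ∉ symmDiff (x.erase a) {i} := by
          rw [mem_symmDiff]
          rintro (h' | h')
          · exact notMem_erase _ _ h'.1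
          · rw [mem_singleton] at h'
            exact hia h'.1.symm
        refine ⟨?_, h3⟩
        have h4 : insert a (symmDiff (x.erase a) {i}) = symmDiff x {i} := by
          ext j
          simp only [mem_insert, mem_symmDiff, mem_erase, mem_singleton]
          constructor
          · rintro (h' | h' | h')
            · subst h'; exact Or.inl ⟨hx.2, fun h => hia h.symm⟩
            · exact Or.inl ⟨h'.1.2, h'.2⟩
            · right
              refine ⟨h'.1, fun h5 => h'.2 ⟨?_, h5⟩⟩
              rw [h'.1]; exact hia
          · rintro (h' | h')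
            · by_cases hja : j = a
              · exact Or.inl hja
              · exact Or.inr (Or.inl ⟨⟨hja, h'.1⟩, h'.2⟩)
            · right; right
              exact ⟨h'.1, fun h5 => h'.2 h5.2⟩
        rw [h4]; exact hi.2
    refine (card_le_card hsub).trans ((card_union_le _ _).trans ?_)
    apply Nat.add_le_add_left
    split_ifs <;> simp
  rw [hsplit]
  omega

theorem sub_nonMember {s : Finset α} {a : α} {F : Finset (Finset α)}
    (hF : ∀ x ∈ F, x ⊆ insert a s) : ∀ x ∈ F.nonMemberSubfamily a, x ⊆ s := by
  intro x hx i hi
  rw [mem_nonMemberSubfamily] at hx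
  have := hF x hx.1 hi
  rw [mem_insert] at this
  rcases this with h | h
  · subst h; exact absurd hi hx.2
  · exact h

theorem sub_member {s : Finset α} {a : α} {F : Finset (Finset α)}
    (hF : ∀ x ∈ F, x ⊆ insert a s) : ∀ x ∈ F.memberSubfamily a, x ⊆ s := by
  intro x hx i hi
  rw [mem_memberSubfamily] at hx
  have := hF _ hx.1 (mem_insert_of_mem hi)
  rw [mem_insert] at this
  rcases this with h | h
  · subst h; exact absurd hi hx.2
  · exact h

/-- the edge-isoperimetric inequality -/
theorem iso (s : Finset α) : ∀ F : Finset (Finset α), (∀ x ∈ F, x ⊆ s) → e2 s F ≤ 2 * g F.card := by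
  induction s using Finset.induction_on with
  | empty =>
    intro F _
    simp [e2]
  | insert a s ha ih =>
    intro F hF
    have h1 := e2_split ha F
    have h2 := ih _ (sub_nonMember hF)
    have h3 := ih _ (sub_member hF)
    have h4 := card_memberSubfamily_add_card_nonMemberSubfamily a F
    have h5 := g_add (F.memberSubfamily a).card (F.nonMemberSubfamily a).card
    rw [h4] at h5
    have h6 : (F.nonMemberSubfamily a ∩ F.memberSubfamily a).card ≤
        min (F.memberSubfamily a).card (F.nonMemberSubfamily a).card :=
      le_min (card_le_card inter_subset_right) (card_le_card inter_subset_left)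
    omega

/-! ### subcubes -/

end Pool.Agent.EdgeIso
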