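import Pool.Agent.Lib.MP_48c8f3_co.Bas
import Pool.Agent.Lib.MP_48c8f3_co.Cube

set_option autoImplicit false
set_option linter.unusedSectionVars false
set_option linter.unusedSimpArgs false

/-!
MP_48c8f3_co, framework for size recursions, part A: half-families and copies of the initial
segments.
-/

namespace Pool.Agent.EdgeIso.Frame

open Finset

variable {α : Type*} [DecidableEq α]

/-- the half of the family `F` on the side `b` of the direction `a` -/
def half (a : α) (b : Bool) (F : Finset (Finset α)) : Finset (Finset α) :=
  if b then F.memberSubfamily a else F.nonMemberSubfamily a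

theorem mem_half {a : α} {b : Bool} {F : Finset (Finset α)} {x : Finset α} :
    x ∈ half a b F ↔ (if b then insert a x else x) ∈ F ∧ a ∉ x := by
  unfold half
  cases b <;> simp [mem_nonMemberSubfamily, mem_memberSubfamily]

theorem mem_half_false {a : α} {F : Finset (Finset α)} {x : Finset α} :
    x ∈ half a false F ↔ x ∈ F ∧ a ∉ x := by simp [mem_half]

theorem mem_half_true {a : α} {F : Finset (Finset α)} {x : Finset α} :
    x ∈ half a true F ↔ insert a x ∈ F ∧ a ∉ x := by simp [mem_half]

theorem card_half_add (a : α) (F : Finset (Finset α)) :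
    (half a false F).card + (half a true F).card = F.card := by
  have := card_memberSubfamily_add_card_nonMemberSubfamily a F
  unfold half
  simp only [Bool.false_eq_true, if_false, if_true]
  omega

theorem card_half_add' (a : α) (b : Bool) (F : Finset (Finset α)) :
    (half a b F).card + (half a (!b) F).card = F.card := by
  have := card_half_add a F
  cases b
  · simpa using this
  · rw [Nat.add_comm]; simpa using this

theorem half_sdiff (a : α) (b : Bool) (F G : Finset (Finset α)) :
    half a b (F \ G) = half a b F \ half a b G := by
  ext x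
  rw [mem_sdiff, mem_half, mem_half, mem_half, mem_sdiff]
  tauto

theorem half_inter (a : α) (b : Bool) (F G : Finset (Finset α)) :
    half a b (F ∩ G) = half a b F ∩ half a b G := by
  ext x
  rw [mem_inter, mem_half, mem_half, mem_half, mem_inter]
  tauto

theorem half_empty (a : α) (b : Bool) : half a b (∅ : Finset (Finset α)) = ∅ := by
  ext x
  rw [mem_half]
  simp

theorem half_mono {a : α} {b : Bool} {F G : Finset (Finset α)} (h : F ⊆ G) :
    half a b F ⊆ half a b G := by
  intro x hx
  rw [mem_half] at hx ⊢
  exact ⟨h hx.1, hx.2⟩

theorem ins_comm (a c : α) (s : Finset α) : insert a (insert c s) = insert c (insert a s) := by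
  ext x
  simp only [mem_insert]
  tauto

theorem half_comm {a c : α} (hac : a ≠ c) (b d : Bool) (F : Finset (Finset α)) :
    half a b (half c d F) = half c d (half a b F) := by
  ext x
  rw [mem_half, mem_half, mem_half, mem_half]
  cases b <;> cases d
  · simp; tauto
  · simp [mem_insert, hac]; tauto
  · simp [mem_insert, hac, Ne.symm hac]; tauto
  · simp only [if_true, mem_insert]
    rw [ins_comm]
    have h1 : ¬ c = a := fun h => hac h.symm
    tauto

theorem half_ext {a : α} {F G : Finset (Finset α)} (h0 : half a false F = half a false G)
    (h1 : half a true F = half a true G) : F = G := by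
  ext x
  by_cases hx : a ∈ x
  · have h := Finset.ext_iff.mp h1 (x.erase a)
    rw [mem_half_true, mem_half_true, insert_erase hx] at h
    simpa using h
  · have h := Finset.ext_iff.mp h0 x
    rw [mem_half_false, mem_half_false] at h
    simpa [hx] using h

/-- families of subsets of `s` -/
def Sub (s : Finset α) (F : Finset (Finset α)) : Prop := F ⊆ s.powerset

theorem Sub.half {s : Finset α} {F : Finset (Finset α)} (hF : Sub s F) (a : α) (b : Bool) :
    Sub (s.erase a) (half a b F) := by
  intro x hx
  rw [mem_half] at hx
  rw [mem_powerset]
  intro y hy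
  have hya : y ≠ a := by rintro rfl; exact hx.2 hy
  have h1 := mem_powerset.mp (hF hx.1)
  refine mem_erase.mpr ⟨hya, h1 ?_⟩
  cases b
  · simpa using hy
  · simp [hy]

theorem Sub.mono {s : Finset α} {F G : Finset (Finset α)} (hG : Sub s G) (h : F ⊆ G) : Sub s F :=
  h.trans hG

theorem Sub.card_le {s : Finset α} {F : Finset (Finset α)} (hF : Sub s F) :
    F.card ≤ 2 ^ s.card := by
  rw [← card_powerset]
  exact Finset.card_le_card hF

theorem half_powerset {s : Finset α} {a : α} (ha : a ∈ s) (b : Bool) :
    half a b s.powerset = (s.erase a).powerset := by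
  ext x
  rw [mem_half, mem_powerset, mem_powerset]
  constructor
  · rintro ⟨h1, h2⟩
    intro y hy
    have hya : y ≠ a := by rintro rfl; exact h2 hy
    refine mem_erase.mpr ⟨hya, ?_⟩
    cases b
    · simp only [Bool.false_eq_true, if_false] at h1
      exact h1 hy
    · simp only [if_true] at h1
      exact h1 (mem_insert_of_mem hy)
  · intro h
    have hax : a ∉ x := fun h' => by simpa using h h'
    refine ⟨?_, hax⟩
    have hxs : x ⊆ s := h.trans (erase_subset _ _)
    cases b
    · simpa using hxs
    · simp only [if_true]
      exact insert_subset ha hxs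

/-- the family with the given halves -/
def join (a : α) (A B : Finset (Finset α)) : Finset (Finset α) := A ∪ B.image (insert a)

theorem half_join_false {s : Finset α} {a : α} (ha : a ∉ s) {A B : Finset (Finset α)}
    (hA : Sub s A) : half a false (join a A B) = A := by
  ext x
  rw [mem_half_false, join, mem_union, mem_image]
  constructor
  · rintro ⟨h1 | ⟨y, _, rfl⟩, h2⟩
    · exact h1
    · exact absurd (mem_insert_self a y) h2
  · intro h
    exact ⟨Or.inl h, fun h' => ha (mem_powerset.mp (hA h) h')⟩

theorem half_join_true {s : Finset α} {a : α} (ha : a ∉ s) {A B : Finset (Finset α)}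
    (hA : Sub s A) (hB : Sub s B) : half a true (join a A B) = B := by
  ext x
  rw [mem_half_true, join, mem_union, mem_image]
  constructor
  · rintro ⟨h1 | ⟨y, hy, hyx⟩, h2⟩
    · exact absurd (mem_powerset.mp (hA h1) (mem_insert_self a x)) ha
    · have hay : a ∉ y := fun h' => ha (mem_powerset.mp (hB hy) h')
      have : y = x := by
        have h3 := congrArg (fun z => z.erase a) hyx
        simpa [erase_insert hay, erase_insert h2] using h3
      rwa [← this]
  · intro h
    exact ⟨Or.inr ⟨x, h, rfl⟩, fun h' => ha (mem_powerset.mp (hB h) h')⟩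

theorem Sub.join {s : Finset α} {a : α} {A B : Finset (Finset α)} (hA : Sub s A) (hB : Sub s B) :
    Sub (insert a s) (join a A B) := by
  intro x hx
  rw [Frame.join, mem_union, mem_image] at hx
  rw [mem_powerset]
  rcases hx with h | ⟨y, hy, rfl⟩
  · exact (mem_powerset.mp (hA h)).trans (subset_insert _ _)
  · exact insert_subset_insert _ (mem_powerset.mp (hB hy))

/-- `A` on the side `b`, `B` on the other side -/
def joinb (a : α) (b : Bool) (A B : Finset (Finset α)) : Finset (Finset α) :=
  if b then join a B A else join a A B

theorem half_joinb {s : Finset α} {a : α} (ha : a ∉ s) (b : Bool) {A B : Finset (Finset α)}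
    (hA : Sub s A) (hB : Sub s B) : half a b (joinb a b A B) = A := by
  cases b
  · simpa [joinb] using half_join_false ha hA
  · simpa [joinb] using half_join_true ha hB hA

theorem half_joinb_not {s : Finset α} {a : α} (ha : a ∉ s) (b : Bool) {A B : Finset (Finset α)}
    (hA : Sub s A) (hB : Sub s B) : half a (!b) (joinb a b A B) = B := by
  cases b
  · simpa [joinb] using half_join_true ha hA hB
  · simpa [joinb] using half_join_false ha hB

theorem Sub.joinb {s : Finset α} {a : α} (b : Bool) {A B : Finset (Finset α)} (hA : Sub s A)
    (hB : Sub s B) : Sub (insert a s) (joinb a b A B) := by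
  cases b
  · simpa [Frame.joinb] using hA.join hB
  · simpa [Frame.joinb] using hB.join hA

theorem half_ext' {a : α} (b : Bool) {F G : Finset (Finset α)} (h0 : half a b F = half a b G)
    (h1 : half a (!b) F = half a (!b) G) : F = G := by
  cases b
  · exact half_ext h0 (by simpa using h1)
  · exact half_ext (by simpa using h1) h0

theorem sub_empty (s : Finset α) : Sub s ∅ := empty_subset _

theorem sub_powerset (s : Finset α) : Sub s s.powerset := Subset.refl _

theorem card_joinb {s : Finset α} {a : α} (ha : a ∉ s) (b : Bool) {A B : Finset (Finset α)}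
    (hA : Sub s A) (hB : Sub s B) : (joinb a b A B).card = A.card + B.card := by
  rw [← card_half_add' a b, half_joinb ha b hA hB, half_joinb_not ha b hA hB]

theorem joinb_mono {s : Finset α} {a : α} (ha : a ∉ s) (b : Bool) {A B A' B' : Finset (Finset α)}
    (hA : A ⊆ A') (hB : B ⊆ B') (hA' : Sub s A') (hB' : Sub s B') :
    joinb a b A B ⊆ joinb a b A' B' := by
  rw [← sdiff_eq_empty_iff_subset]
  apply half_ext' (a := a) b
  · rw [half_sdiff, half_joinb ha b (hA'.mono hA) (hB'.mono hB), half_joinb ha b hA' hB', half_empty,
      sdiff_eq_empty_iff_subset]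
    exact hA
  · rw [half_sdiff, half_joinb_not ha b (hA'.mono hA) (hB'.mono hB), half_joinb_not ha b hA' hB',
      half_empty, sdiff_eq_empty_iff_subset]
    exact hB

/-! ### copies of the initial segments -/

/-- `Copy s t G`: `G` is an isomorphic copy of the initial segment of size `t` in the cube on `s`. -/
inductive Copy : Finset α → ℕ → Finset (Finset α) → Prop
  | empty (s : Finset α) : Copy s 0 ∅
  | full (s : Finset α) : Copy s (2 ^ s.card) s.powerset
  | low (s : Finset α) (a : α) (b : Bool) (t : ℕ) (G : Finset (Finset α)) (ha : a ∉ s)
      (h : Copy s t G) : Copy (insert a s) t (joinb a b G ∅)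
  | high (s : Finset α) (a : α) (b : Bool) (t : ℕ) (G : Finset (Finset α)) (ha : a ∉ s)
      (h : Copy s t G) : Copy (insert a s) (2 ^ s.card + t) (joinb a b s.powerset G)

theorem Copy.sub {s : Finset α} {t : ℕ} {G : Finset (Finset α)} (h : Copy s t G) : Sub s G := by
  induction h with
  | empty s => exact sub_empty s
  | full s => exact sub_powerset s
  | low s a b t G ha h ih => exact Sub.joinb b ih (sub_empty s)
  | high s a b t G ha h ih => exact Sub.joinb b (sub_powerset s) ih

theorem Copy.card {s : Finset α} {t : ℕ} {G : Finset (Finset α)} (h : Copy s t G) :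
    G.card = t := by
  induction h with
  | empty s => simp
  | full s => rw [card_powerset]
  | low s a b t G ha h ih => rw [card_joinb ha b h.sub (sub_empty s), ih]; simp
  | high s a b t G ha h ih =>
    rw [card_joinb ha b (sub_powerset s) h.sub, ih, card_powerset]

theorem Copy.le {s : Finset α} {t : ℕ} {G : Finset (Finset α)} (h : Copy s t G) :
    t ≤ 2 ^ s.card := by
  rw [← h.card]
  exact h.sub.card_le

theorem powerset_insert_joinb {s : Finset α} {a : α} (ha : a ∉ s) (b : Bool) :
    (insert a s).powerset = joinb a b s.powerset s.powerset := by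
  apply half_ext' (a := a) b
  · rw [half_joinb ha b (sub_powerset s) (sub_powerset s), half_powerset (mem_insert_self a s),
      erase_insert ha]
  · rw [half_joinb_not ha b (sub_powerset s) (sub_powerset s),
      half_powerset (mem_insert_self a s), erase_insert ha]

/-- every size occurs -/
theorem Copy.exists (s : Finset α) : ∀ t ≤ 2 ^ s.card, ∃ G, Copy s t G := by
  induction s using Finset.induction_on with
  | empty =>
    intro t ht
    rcases Nat.eq_zero_or_pos t with h | h
    · subst h; exact ⟨_, Copy.empty _⟩
    · have : t = 2 ^ (∅ : Finset α).card := by simp at ht ⊢; omega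
      rw [this]
      exact ⟨_, Copy.full _⟩
  | insert a s ha ih =>
    intro t ht
    rw [card_insert_of_notMem ha, pow_succ] at ht
    rcases le_total t (2 ^ s.card) with h | h
    · obtain ⟨G, hG⟩ := ih t h
      exact ⟨_, Copy.low s a true t G ha hG⟩
    · obtain ⟨G, hG⟩ := ih (t - 2 ^ s.card) (by omega)
      have := Copy.high s a true _ G ha hG
      rw [Nat.add_sub_cancel' h] at this
      exact ⟨_, this⟩

/-- a copy can be enlarged to a copy of any larger size -/
theorem Copy.extend {s : Finset α} {t : ℕ} {G : Finset (Finset α)} (h : Copy s t G) :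
    ∀ t', t ≤ t' → t' ≤ 2 ^ s.card → ∃ G', Copy s t' G' ∧ G ⊆ G' := by
  induction h with
  | empty s =>
    intro t' _ h'
    obtain ⟨G', hG'⟩ := Copy.exists s t' h'
    exact ⟨G', hG', empty_subset _⟩
  | full s =>
    intro t' h1 h2
    have : t' = 2 ^ s.card := le_antisymm h2 h1
    subst this
    exact ⟨_, Copy.full s, Subset.refl _⟩
  | low s a b t G ha h ih =>
    intro t' h1 h2
    rw [card_insert_of_notMem ha, pow_succ] at h2
    rcases le_total t' (2 ^ s.card) with h3 | h3
    · obtain ⟨G', hG', hGG'⟩ := ih t' h1 h3
      exact ⟨_, Copy.low s a b t' G' ha hG', joinb_mono ha b hGG' (Subset.refl _) hG'.sub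
        (sub_empty s)⟩
    · obtain ⟨G', hG'⟩ := Copy.exists s (t' - 2 ^ s.card) (by omega)
      have h4 := Copy.high s a b _ G' ha hG'
      rw [Nat.add_sub_cancel' h3] at h4
      exact ⟨_, h4, joinb_mono ha b h.sub (empty_subset _) (sub_powerset s) hG'.sub⟩
  | high s a b t G ha h ih =>
    intro t' h1 h2
    rw [card_insert_of_notMem ha, pow_succ] at h2
    obtain ⟨G', hG', hGG'⟩ := ih (t' - 2 ^ s.card) (by omega) (by omega)
    have h4 := Copy.high s a b _ G' ha hG'
    rw [Nat.add_sub_cancel' (by omega)] at h4
    exact ⟨_, h4, joinb_mono ha b (Subset.refl _) hGG' (sub_powerset s) hG'.sub⟩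

/-- a copy contains copies of any smaller size -/
theorem Copy.shrink {s : Finset α} {t : ℕ} {G : Finset (Finset α)} (h : Copy s t G) :
    ∀ t', t' ≤ t → ∃ G', Copy s t' G' ∧ G' ⊆ G := by
  induction h with
  | empty s =>
    intro t' h'
    have : t' = 0 := by omega
    subst this
    exact ⟨_, Copy.empty s, Subset.refl _⟩
  | full s =>
    intro t' h1
    obtain ⟨G', hG'⟩ := Copy.exists s t' h1
    exact ⟨G', hG', hG'.sub⟩
  | low s a b t G ha h ih =>
    intro t' h1
    obtain ⟨G', hG', hGG'⟩ := ih t' h1
    exact ⟨_, Copy.low s a b t' G' ha hG', joinb_mono ha b hGG' (Subset.refl _) h.sub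
      (sub_empty s)⟩
  | high s a b t G ha h ih =>
    intro t' h1
    rcases le_total t' (2 ^ s.card) with h3 | h3
    · obtain ⟨G', hG'⟩ := Copy.exists s t' h3
      exact ⟨_, Copy.low s a b t' G' ha hG', joinb_mono ha b hG'.sub (empty_subset _)
        (sub_powerset s) h.sub⟩
    · obtain ⟨G', hG', hGG'⟩ := ih (t' - 2 ^ s.card) (by omega)
      have h4 := Copy.high s a b _ G' ha hG'
      rw [Nat.add_sub_cancel' h3] at h4
      exact ⟨_, h4, joinb_mono ha b (Subset.refl _) hGG' (sub_powerset s) h.sub⟩

/-- complement -/
theorem Copy.compl {s : Finset α} {t : ℕ} {G : Finset (Finset α)} (h : Copy s t G) :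
    Copy s (2 ^ s.card - t) (s.powerset \ G) := by
  induction h with
  | empty s => simpa using Copy.full s
  | full s => simpa using Copy.empty s
  | low s a b t G ha h ih =>
    have h1 := Copy.high s a (!b) _ _ ha ih
    have h2 : joinb a (!b) s.powerset (s.powerset \ G) = (insert a s).powerset \ joinb a b G ∅ := by
      apply half_ext' (a := a) (!b)
      · rw [half_joinb ha (!b) (sub_powerset s) ih.sub, half_sdiff,
          half_powerset (mem_insert_self a s), erase_insert ha, half_joinb_not ha b h.sub (sub_empty s)]
        simp
      · rw [half_joinb_not ha (!b) (sub_powerset s) ih.sub, half_sdiff,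
          half_powerset (mem_insert_self a s), erase_insert ha, Bool.not_not,
          half_joinb ha b h.sub (sub_empty s)]
    rw [h2] at h1
    have h3 : 2 ^ s.card + (2 ^ s.card - t) = 2 ^ (insert a s).card - t := by
      rw [card_insert_of_notMem ha, pow_succ]
      have := h.le
      omega
    rwa [h3] at h1
  | high s a b t G ha h ih =>
    have h1 := Copy.low s a (!b) _ _ ha ih
    have h2 : joinb a (!b) (s.powerset \ G) ∅ =
        (insert a s).powerset \ joinb a b s.powerset G := by
      apply half_ext' (a := a) (!b)
      · rw [half_joinb ha (!b) ih.sub (sub_empty s), half_sdiff,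
          half_powerset (mem_insert_self a s), erase_insert ha,
          half_joinb_not ha b (sub_powerset s) h.sub]
      · rw [half_joinb_not ha (!b) ih.sub (sub_empty s), half_sdiff,
          half_powerset (mem_insert_self a s), erase_insert ha, Bool.not_not,
          half_joinb ha b (sub_powerset s) h.sub]
        simp
    rw [h2] at h1
    have h3 : 2 ^ s.card - t = 2 ^ (insert a s).card - (2 ^ s.card + t) := by
      rw [card_insert_of_notMem ha, pow_succ]
      have := h.le
      omega
    rwa [h3] at h1

/-- doubling in a new direction -/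
theorem Copy.double {s : Finset α} {t : ℕ} {G : Finset (Finset α)} (h : Copy s t G) :
    ∀ c, c ∉ s → Copy (insert c s) (2 * t) (join c G G) := by
  induction h with
  | empty s =>
    intro c hc
    have : join c (∅ : Finset (Finset α)) ∅ = ∅ := by simp [join]
    rw [this]
    exact Copy.empty _
  | full s =>
    intro c hc
    have h1 := Copy.full (insert c s)
    rw [powerset_insert_joinb hc false, card_insert_of_notMem hc, pow_succ, Nat.mul_comm] at h1
    simpa [joinb] using h1
  | low s a b t G ha h ih =>
    intro c hc
    rw [mem_insert, not_or] at hc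
    have h1 := ih c hc.2
    have ha' : a ∉ insert c s := by
      rw [mem_insert, not_or]
      exact ⟨fun h => hc.1 h.symm, ha⟩
    have h2 := Copy.low (insert c s) a b _ _ ha' h1
    rw [ins_comm] at h2
    have h3 : joinb a b (join c G G) ∅ = join c (joinb a b G ∅) (joinb a b G ∅) := by
      have hc' : c ∉ insert a s := by
        rw [mem_insert, not_or]
        exact hc
      have hs1 : Sub (insert a s) (joinb a b G ∅) := Sub.joinb b h.sub (sub_empty s)
      have hs2 : Sub (insert c s) (join c G G) := h.sub.join h.sub
      apply half_ext' (a := a) b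
      · rw [half_joinb ha' b hs2 (sub_empty _)]
        apply half_ext (a := c)
        · rw [half_join_false hc.2 h.sub, half_comm hc.1, half_join_false hc' hs1,
            half_joinb ha b h.sub (sub_empty s)]
        · rw [half_join_true hc.2 h.sub h.sub, half_comm hc.1, half_join_true hc' hs1 hs1,
            half_joinb ha b h.sub (sub_empty s)]
      · rw [half_joinb_not ha' b hs2 (sub_empty _)]
        apply half_ext (a := c)
        · rw [half_comm hc.1, half_join_false hc' hs1, half_joinb_not ha b h.sub (sub_empty s),
            half_empty]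
        · rw [half_comm hc.1, half_join_true hc' hs1 hs1, half_joinb_not ha b h.sub (sub_empty s),
            half_empty]
    rwa [h3] at h2
  | high s a b t G ha h ih =>
    intro c hc
    rw [mem_insert, not_or] at hc
    have h1 := ih c hc.2
    have ha' : a ∉ insert c s := by
      rw [mem_insert, not_or]
      exact ⟨fun h => hc.1 h.symm, ha⟩
    have h2 := Copy.high (insert c s) a b _ _ ha' h1
    rw [ins_comm] at h2
    have h3 : joinb a b (insert c s).powerset (join c G G) =
        join c (joinb a b s.powerset G) (joinb a b s.powerset G) := by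
      have hc' : c ∉ insert a s := by
        rw [mem_insert, not_or]
        exact hc
      have hs1 : Sub (insert a s) (joinb a b s.powerset G) := Sub.joinb b (sub_powerset s) h.sub
      have hs2 : Sub (insert c s) (join c G G) := h.sub.join h.sub
      have hs3 := sub_powerset (insert c s)
      apply half_ext' (a := a) b
      · rw [half_joinb ha' b hs3 hs2]
        apply half_ext (a := c)
        · rw [half_powerset (mem_insert_self c s), erase_insert hc.2, half_comm hc.1,
            half_join_false hc' hs1, half_joinb ha b (sub_powerset s) h.sub]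
        · rw [half_powerset (mem_insert_self c s), erase_insert hc.2, half_comm hc.1,
            half_join_true hc' hs1 hs1, half_joinb ha b (sub_powerset s) h.sub]
      · rw [half_joinb_not ha' b hs3 hs2]
        apply half_ext (a := c)
        · rw [half_join_false hc.2 h.sub, half_comm hc.1, half_join_false hc' hs1,
            half_joinb_not ha b (sub_powerset s) h.sub]
        · rw [half_join_true hc.2 h.sub h.sub, half_comm hc.1, half_join_true hc' hs1 hs1,
            half_joinb_not ha b (sub_powerset s) h.sub]
    rw [h3] at h2
    have h4 : 2 ^ (insert c s).card + 2 * t = 2 * (2 ^ s.card + t) := by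
      rw [card_insert_of_notMem hc.2, pow_succ]
      ring
    rwa [h4] at h2

end Pool.Agent.EdgeIso.Frame
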