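import Pool.Agent.Lib.MP_48c8f3_co.Bas
import Pool.Agent.Lib.MP_48c8f3_co.FA

set_option autoImplicit false
set_option linter.unusedSectionVars false

/-!
MP_48c8f3_co, framework for size recursions, part B: loss, duality, distance to the copies.
-/

namespace Pool.Agent.EdgeIso.Frame

open Finset

variable {α : Type*} [DecidableEq α]

/-! ### arithmetic of `g` -/

/-- the defect of a splitting -/
def dg (p q : ℕ) : ℤ := (g (p + q) : ℤ) - g p - g q - min (p : ℤ) q

theorem dg_nonneg (p q : ℕ) : 0 ≤ dg p q := by
  have h := g_add p q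
  unfold dg
  have h1 : ((min p q : ℕ) : ℤ) = min (p : ℤ) q := by push_cast; rfl
  rw [← h1]
  have h2 : ((g p + g q + min p q : ℕ) : ℤ) ≤ ((g (p + q) : ℕ) : ℤ) := by exact_mod_cast h
  push_cast at h2 ⊢
  linarith

theorem dg_comm (p q : ℕ) : dg p q = dg q p := by
  unfold dg
  rw [Nat.add_comm, min_comm]
  ring

theorem dg_even_even (a b : ℕ) : dg (2 * a) (2 * b) = 2 * dg a b := by
  unfold dg
  rw [← Nat.mul_add, g_even, g_even, g_even]
  push_cast
  rcases le_total (a : ℤ) b with h | h
  · rw [min_eq_left h, min_eq_left (by linarith)]; ring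
  · rw [min_eq_right h, min_eq_right (by linarith)]; ring

theorem dg_odd_even (a b : ℕ) : dg (2 * a + 1) (2 * b) = dg a b + dg (a + 1) b := by
  unfold dg
  have h1 : 2 * a + 1 + 2 * b = 2 * (a + b) + 1 := by ring
  have h2 : a + 1 + b = a + b + 1 := by ring
  rw [h1, g_odd, g_odd, g_even, h2]
  push_cast
  rcases lt_or_ge (a : ℤ) b with h | h
  · rw [min_eq_left h.le, min_eq_left (by linarith), min_eq_left (by linarith)]; ring
  · rw [min_eq_right h, min_eq_right (by linarith), min_eq_right (by linarith)]; ring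

theorem dg_even_odd (a b : ℕ) : dg (2 * a) (2 * b + 1) = dg a b + dg a (b + 1) := by
  rw [dg_comm, dg_odd_even, dg_comm b a, dg_comm (b + 1) a]

theorem dg_odd_odd (a b : ℕ) :
    dg a (b + 1) + dg (a + 1) b ≤ dg (2 * a + 1) (2 * b + 1) := by
  unfold dg
  have h1 : 2 * a + 1 + (2 * b + 1) = 2 * (a + b + 1) := by ring
  have h2 : a + 1 + b = a + b + 1 := by ring
  have h3 : a + (b + 1) = a + b + 1 := by ring
  rw [h1, g_odd, g_odd, g_even, h2, h3]
  push_cast
  rcases lt_trichotomy (a : ℤ) b with h | h | h
  · rw [min_eq_left (by linarith), min_eq_left (by linarith), min_eq_left (by linarith)]; linarith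
  · rw [min_eq_left (by linarith), min_eq_right (by linarith), min_eq_left (by linarith)]; linarith
  · rw [min_eq_right (by linarith), min_eq_right (by linarith), min_eq_right (by linarith)]
    linarith

/-- duality -/
theorem g_compl (n : ℕ) : ∀ m ≤ 2 ^ n, 2 * (g (2 ^ n - m) : ℤ) = 2 * g m + n * (2 ^ n - 2 * m) := by
  induction n with
  | zero =>
    intro m hm
    have : m = 0 ∨ m = 1 := by
      rw [pow_zero] at hm
      omega
    rcases this with h | h <;> subst h <;> simp [g_zero, g_one]
  | succ n ih =>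
    intro m hm
    have hp : (2 : ℕ) ^ (n + 1) = 2 * 2 ^ n := by ring
    have hpz : (2 : ℤ) ^ (n + 1) = 2 * 2 ^ n := by ring
    rcases Nat.even_or_odd' m with ⟨k, h | h⟩
    · subst h
      have hk : k ≤ 2 ^ n := by omega
      have h1 : 2 ^ (n + 1) - 2 * k = 2 * (2 ^ n - k) := by omega
      rw [h1, g_even, g_even, hpz]
      have h2 := ih k hk
      have h3 : ((2 ^ n - k : ℕ) : ℤ) = 2 ^ n - k := by
        push_cast [hk]
        rfl
      push_cast [h3] at h2 ⊢
      linarith
    · subst h
      have hk : k + 1 ≤ 2 ^ n := by omega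
      have h1 : 2 ^ (n + 1) - (2 * k + 1) = 2 * (2 ^ n - (k + 1)) + 1 := by omega
      have h2 : 2 ^ n - (k + 1) + 1 = 2 ^ n - k := by omega
      rw [h1, g_odd, g_odd, hpz, h2]
      have h3 := ih k (by omega)
      have h4 := ih (k + 1) hk
      have h5 : ((2 ^ n - (k + 1) : ℕ) : ℤ) = 2 ^ n - (k + 1) := by
        push_cast [hk]
        rfl
      push_cast [h5] at h3 h4 ⊢
      linarith

/-! ### loss -/

/-- twice the loss -/
def L2 (s : Finset α) (F : Finset (Finset α)) : ℤ := 2 * g F.card - e2 s F

theorem L2_nonneg {s : Finset α} {F : Finset (Finset α)} (hF : Sub s F) : 0 ≤ L2 s F := by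
  have h := iso s F (fun x hx => mem_powerset.mp (hF hx))
  unfold L2
  have : (e2 s F : ℤ) ≤ ((2 * g F.card : ℕ) : ℤ) := by exact_mod_cast h
  push_cast at this
  linarith

theorem e2_half {s : Finset α} {a : α} (ha : a ∈ s) (b : Bool) (F : Finset (Finset α)) :
    e2 s F ≤ e2 (s.erase a) (half a b F) + e2 (s.erase a) (half a (!b) F) +
      2 * (half a b F ∩ half a (!b) F).card := by
  have h := e2_split (notMem_erase a s) F
  rw [insert_erase ha] at h
  cases b
  · exact h
  · rw [inter_comm, Nat.add_comm (e2 (s.erase a) (half a true F))]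
    exact h

/-- the loss in terms of the halves -/
theorem L2_half {s : Finset α} {a : α} (ha : a ∈ s) (b : Bool) (F : Finset (Finset α)) :
    2 * dg (half a b F).card (half a (!b) F).card +
      2 * (min ((half a b F).card : ℤ) (half a (!b) F).card - (half a b F ∩ half a (!b) F).card) +
      L2 (s.erase a) (half a b F) + L2 (s.erase a) (half a (!b) F) ≤ L2 s F := by
  have h := e2_half ha b F
  have h2 := card_half_add' a b F
  unfold L2 dg
  rw [← h2]
  push_cast
  have h3 : (e2 s F : ℤ) ≤ e2 (s.erase a) (half a b F) + e2 (s.erase a) (half a (!b) F) +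
      2 * (half a b F ∩ half a (!b) F).card := by exact_mod_cast h
  linarith

theorem card_inter_sdiff (K W : Finset (Finset α)) :
    (K ∩ W).card + (W \ K).card = W.card := by
  rw [inter_comm]
  exact card_inter_add_card_sdiff W K

/-- the loss in terms of the halves, minority form -/
theorem L2_half' {s : Finset α} {a : α} (ha : a ∈ s) (b : Bool) (F : Finset (Finset α))
    (hqp : (half a (!b) F).card ≤ (half a b F).card) :
    2 * dg (half a b F).card (half a (!b) F).card +
      2 * ((half a (!b) F \ half a b F).card : ℤ) +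
      L2 (s.erase a) (half a b F) + L2 (s.erase a) (half a (!b) F) ≤ L2 s F := by
  have h := L2_half ha b F
  have h1 := card_inter_sdiff (half a b F) (half a (!b) F)
  have h2 : min ((half a b F).card : ℤ) (half a (!b) F).card = (half a (!b) F).card := by
    apply min_eq_right
    exact_mod_cast hqp
  rw [h2] at h
  have h3 : ((half a b F ∩ half a (!b) F).card : ℤ) + (half a (!b) F \ half a b F).card =
    (half a (!b) F).card := by exact_mod_cast h1
  linarith

/-! ### complement -/

/-- the boundary -/
def bd (s : Finset α) (F : Finset (Finset α)) : ℕ :=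
  ∑ x ∈ F, (s.filter (fun i => symmDiff x {i} ∉ F)).card

theorem bd_add_e2 (s : Finset α) (F : Finset (Finset α)) : bd s F + e2 s F = s.card * F.card := by
  unfold bd e2
  rw [← sum_add_distrib]
  rw [sum_congr rfl (g := fun _ => s.card)]
  · rw [sum_const, smul_eq_mul, Nat.mul_comm]
  · intro x _
    rw [Nat.add_comm, card_filter_add_card_filter_not]

theorem bd_eq_pairs (s : Finset α) (F : Finset (Finset α)) :
    bd s F = ((F ×ˢ s).filter (fun p => symmDiff p.1 {p.2} ∉ F)).card := by
  rw [bd, card_filter, sum_product]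
  apply sum_congr rfl
  intro x _
  rw [card_filter]

theorem bd_compl_le {s : Finset α} {F : Finset (Finset α)} :
    bd s (s.powerset \ F) ≤ bd s F := by
  rw [bd_eq_pairs, bd_eq_pairs]
  apply card_le_card_of_injOn (fun p => (symmDiff p.1 {p.2}, p.2))
  · rintro ⟨x, i⟩ hp
    rw [mem_coe, mem_filter, mem_product, mem_sdiff, mem_sdiff, mem_powerset] at hp
    obtain ⟨⟨⟨h1, h2⟩, h3⟩, h4⟩ := hp
    rw [mem_coe, mem_filter, mem_product]
    have h5 : symmDiff x {i} ∈ s.powerset := by
      rw [mem_powerset]
      intro y hy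
      rw [mem_symmDiff, mem_singleton] at hy
      rcases hy with h | h
      · exact h1 h.1
      · rw [h.1]; exact h3
    have h6 : symmDiff x {i} ∈ F := by
      by_contra h
      exact h4 ⟨h5, h⟩
    refine ⟨⟨h6, h3⟩, ?_⟩
    simp only [symmDiff_symmDiff_cancel_right]
    exact h2
  · rintro ⟨x, i⟩ _ ⟨y, j⟩ _ hxy
    simp only [Prod.mk.injEq] at hxy
    obtain ⟨h1, h2⟩ := hxy
    subst h2
    rw [symmDiff_left_inj] at h1
    rw [h1]

theorem sub_compl (s : Finset α) (F : Finset (Finset α)) : Sub s (s.powerset \ F) := sdiff_subset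

theorem card_compl_family {s : Finset α} {F : Finset (Finset α)} (hF : Sub s F) :
    (s.powerset \ F).card = 2 ^ s.card - F.card := by
  rw [card_sdiff_of_subset hF, card_powerset]

theorem compl_compl_family {s : Finset α} {F : Finset (Finset α)} (hF : Sub s F) :
    s.powerset \ (s.powerset \ F) = F := by
  rw [sdiff_sdiff_right_self]
  exact inter_eq_right.mpr hF

theorem bd_compl_eq {s : Finset α} {F : Finset (Finset α)} (hF : Sub s F) :
    bd s (s.powerset \ F) = bd s F := by
  apply le_antisymm bd_compl_le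
  conv_lhs => rw [← compl_compl_family hF]
  exact bd_compl_le

theorem L2_compl {s : Finset α} {F : Finset (Finset α)} (hF : Sub s F) :
    L2 s (s.powerset \ F) = L2 s F := by
  have h1 := bd_add_e2 s (s.powerset \ F)
  have h2 := bd_add_e2 s F
  rw [bd_compl_eq hF, card_compl_family hF] at h1
  have h3 := g_compl s.card F.card hF.card_le
  unfold L2
  rw [card_compl_family hF]
  have h4 : ((2 ^ s.card - F.card : ℕ) : ℤ) = 2 ^ s.card - F.card := by
    push_cast [hF.card_le]
    rfl
  have h5 : ((bd s F : ℤ) + e2 s (s.powerset \ F)) = s.card * (2 ^ s.card - F.card) := by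
    rw [← h4]
    exact_mod_cast h1
  have h6 : ((bd s F : ℤ) + e2 s F) = s.card * F.card := by exact_mod_cast h2
  linarith

/-! ### distance to the copies -/

/-- some copy `G` of the initial segment of size `t` misses at most `d` members of `F` -/
def Near (s : Finset α) (F : Finset (Finset α)) (t d : ℕ) : Prop :=
  ∃ G, Copy s t G ∧ (F \ G).card ≤ d

theorem Near.mono {s : Finset α} {F : Finset (Finset α)} {t d d' : ℕ} (h : Near s F t d)
    (hd : d ≤ d') : Near s F t d' := by
  obtain ⟨G, hG, h1⟩ := h
  exact ⟨G, hG, h1.trans hd⟩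

theorem near_triv (s : Finset α) (F : Finset (Finset α)) (t : ℕ) (ht : t ≤ 2 ^ s.card) :
    Near s F t F.card := by
  obtain ⟨G, hG⟩ := Copy.exists s t ht
  exact ⟨G, hG, Finset.card_le_card sdiff_subset⟩

theorem Near.extend {s : Finset α} {F : Finset (Finset α)} {t d t' : ℕ} (h : Near s F t d)
    (h1 : t ≤ t') (h2 : t' ≤ 2 ^ s.card) : Near s F t' d := by
  obtain ⟨G, hG, h3⟩ := h
  obtain ⟨G', hG', h4⟩ := hG.extend t' h1 h2
  exact ⟨G', hG', (Finset.card_le_card (sdiff_subset_sdiff (Subset.refl _) h4)).trans h3⟩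

theorem card_sdiff_le_add {F G H : Finset (Finset α)} :
    (F \ H).card ≤ (F \ G).card + (G \ H).card := by
  refine le_trans (Finset.card_le_card ?_) (card_union_le _ _)
  intro x hx
  rw [mem_union, mem_sdiff, mem_sdiff]
  rw [mem_sdiff] at hx
  by_cases h : x ∈ G
  · exact Or.inr ⟨h, hx.2⟩
  · exact Or.inl ⟨hx.1, h⟩

theorem Near.shrink {s : Finset α} {F : Finset (Finset α)} {t d t' : ℕ} (h : Near s F t d)
    (h1 : t' ≤ t) : Near s F t' (d + (t - t')) := by
  obtain ⟨G, hG, h3⟩ := h
  obtain ⟨G', hG', h4⟩ := hG.shrink t' h1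
  refine ⟨G', hG', card_sdiff_le_add.trans (Nat.add_le_add h3 ?_)⟩
  rw [card_sdiff_of_subset h4, hG.card, hG'.card]

/-- deletion of a half -/
theorem Near.del {s : Finset α} {a : α} (ha : a ∈ s) (b : Bool) {F : Finset (Finset α)} {t d : ℕ}
    (h : Near (s.erase a) (half a b F) t d) : Near s F t (d + (half a (!b) F).card) := by
  obtain ⟨G, hG, h1⟩ := h
  have h2 := Copy.low (s.erase a) a b t G (notMem_erase a s) hG
  rw [insert_erase ha] at h2
  refine ⟨_, h2, ?_⟩
  rw [← card_half_add' a b, half_sdiff, half_sdiff,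
    half_joinb (notMem_erase a s) b hG.sub (sub_empty _),
    half_joinb_not (notMem_erase a s) b hG.sub (sub_empty _), sdiff_empty]
  omega

/-- one half is full -/
theorem Near.up {s : Finset α} {a : α} (ha : a ∈ s) (b : Bool) {F : Finset (Finset α)} {t d : ℕ}
    (hF : Sub s F) (h : Near (s.erase a) (half a (!b) F) t d) :
    Near s F (2 ^ (s.erase a).card + t) d := by
  obtain ⟨G, hG, h1⟩ := h
  have h2 := Copy.high (s.erase a) a b t G (notMem_erase a s) hG
  rw [insert_erase ha] at h2
  refine ⟨_, h2, ?_⟩
  rw [← card_half_add' a b, half_sdiff, half_sdiff,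
    half_joinb (notMem_erase a s) b (sub_powerset _) hG.sub,
    half_joinb_not (notMem_erase a s) b (sub_powerset _) hG.sub,
    sdiff_eq_empty_iff_subset.mpr (hF.half a b)]
  simpa using h1

/-- doubling, general form -/
theorem near_double {s : Finset α} {a : α} (ha : a ∈ s) (b : Bool) {F G : Finset (Finset α)}
    {t : ℕ} (hG : Copy (s.erase a) t G) :
    Near s F (2 * t) ((half a b F \ G).card + (half a (!b) F \ G).card) := by
  have h2 := hG.double a (notMem_erase a s)
  rw [insert_erase ha] at h2
  refine ⟨_, h2, ?_⟩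
  rw [← card_half_add' a b, half_sdiff, half_sdiff]
  have h3 : half a b (join a G G) = G := by
    cases b
    · exact half_join_false (notMem_erase a s) hG.sub
    · exact half_join_true (notMem_erase a s) hG.sub hG.sub
  have h4 : half a (!b) (join a G G) = G := by
    cases b
    · exact half_join_true (notMem_erase a s) hG.sub hG.sub
    · exact half_join_false (notMem_erase a s) hG.sub
  rw [h3, h4]

/-- doubling, with a copy near the half on the side `b` -/
theorem Near.double {s : Finset α} {a : α} (ha : a ∈ s) (b : Bool) {F : Finset (Finset α)}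
    {t d : ℕ} (h : Near (s.erase a) (half a b F) t d) :
    Near s F (2 * t) (2 * d + (half a (!b) F \ half a b F).card) := by
  obtain ⟨G, hG, h1⟩ := h
  refine (near_double ha b hG).mono ?_
  have h2 := card_sdiff_le_add (F := half a (!b) F) (G := half a b F) (H := G)
  omega

/-- complement -/
theorem Near.compl {s : Finset α} {F : Finset (Finset α)} {t d : ℕ} (h : Near s F t d)
    (hF : Sub s F) (ht : F.card ≤ t + d) :
    Near s (s.powerset \ F) (2 ^ s.card - t) (t + d - F.card) := by
  obtain ⟨G, hG, h1⟩ := h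
  refine ⟨_, hG.compl, ?_⟩
  have h2 : (s.powerset \ F) \ (s.powerset \ G) ⊆ G \ F := by
    intro x hx
    rw [mem_sdiff, mem_sdiff, mem_sdiff] at hx
    rw [mem_sdiff]
    refine ⟨?_, hx.1.2⟩
    by_contra h
    exact hx.2 ⟨hx.1.1, h⟩
  have h3 := Finset.card_le_card h2
  have h4 := card_inter_add_card_sdiff G F
  have h5 := card_inter_add_card_sdiff F G
  rw [inter_comm, hG.card] at h4
  omega

end Pool.Agent.EdgeIso.Frame
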