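import Pool.Agent.Lib.MP_48c8f3_co.Bas
import Pool.Agent.Lib.MP_48c8f3_co.FB

set_option autoImplicit false

/-!
MP_48c8f3_co, all scales certificates, part A: the cell lemma.

A point is a monotone sequence `S : ℕ → ℕ` of prefix sums; the sizes are the differences
`S j - S i`.  It is halved by `S ↦ (S / 2, (S + 1) / 2)`; all differences are then halved with an
error of at most one, simultaneously.  The defect `dg` of consecutive differences is superadditive
for this halving.  So an inequality `0 ≤ φ k S`, where `φ` is a sum of defects, linear terms,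
minima of linear terms, and a multiple of `2 ^ k`, holds in a cell `2 ^ k • C` as soon as it holds at
the lattice points of `C`.
-/

namespace Pool.Agent.EdgeIso.Cell

open Pool.Agent.EdgeIso.Frame

/-- the lower half of a point -/
def lo (S : ℕ → ℕ) (j : ℕ) : ℕ := S j / 2

/-- the upper half of a point -/
def hi (S : ℕ → ℕ) (j : ℕ) : ℕ := (S j + 1) / 2

theorem lo_add_hi (S : ℕ → ℕ) (j : ℕ) : lo S j + hi S j = S j := by
  unfold lo hi
  omega

theorem lo_mono {S : ℕ → ℕ} (h : Monotone S) : Monotone (lo S) := by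
  intro i j hij
  have := h hij
  unfold lo
  omega

theorem hi_mono {S : ℕ → ℕ} (h : Monotone S) : Monotone (hi S) := by
  intro i j hij
  have := h hij
  unfold hi
  omega

/-- superadditivity of the defect under halving -/
theorem dg_halve (x y z : ℕ) (hxy : x ≤ y) (hyz : y ≤ z) :
    dg (y / 2 - x / 2) (z / 2 - y / 2) +
      dg ((y + 1) / 2 - (x + 1) / 2) ((z + 1) / 2 - (y + 1) / 2) ≤ dg (y - x) (z - y) := by
  obtain ⟨x', hx | hx⟩ := Nat.even_or_odd' x <;> obtain ⟨y', hy | hy⟩ := Nat.even_or_odd' y <;>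
    obtain ⟨z', hz | hz⟩ := Nat.even_or_odd' z
  · -- EEE
    have e1 : y / 2 - x / 2 = y' - x' := by omega
    have e2 : z / 2 - y / 2 = z' - y' := by omega
    have e3 : (y + 1) / 2 - (x + 1) / 2 = y' - x' := by omega
    have e4 : (z + 1) / 2 - (y + 1) / 2 = z' - y' := by omega
    have e5 : y - x = 2 * (y' - x') := by omega
    have e6 : z - y = 2 * (z' - y') := by omega
    rw [e1, e2, e3, e4, e5, e6, dg_even_even]
    linarith
  · -- EEO
    have e1 : y / 2 - x / 2 = y' - x' := by omega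
    have e2 : z / 2 - y / 2 = z' - y' := by omega
    have e3 : (y + 1) / 2 - (x + 1) / 2 = y' - x' := by omega
    have e4 : (z + 1) / 2 - (y + 1) / 2 = z' - y' + 1 := by omega
    have e5 : y - x = 2 * (y' - x') := by omega
    have e6 : z - y = 2 * (z' - y') + 1 := by omega
    rw [e1, e2, e3, e4, e5, e6, dg_even_odd]
  · -- EOE
    have e1 : y / 2 - x / 2 = y' - x' := by omega
    have e2 : z / 2 - y / 2 = z' - y' - 1 + 1 := by omega
    have e3 : (y + 1) / 2 - (x + 1) / 2 = y' - x' + 1 := by omega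
    have e4 : (z + 1) / 2 - (y + 1) / 2 = z' - y' - 1 := by omega
    have e5 : y - x = 2 * (y' - x') + 1 := by omega
    have e6 : z - y = 2 * (z' - y' - 1) + 1 := by omega
    rw [e1, e2, e3, e4, e5, e6]
    exact dg_odd_odd _ _
  · -- EOO
    have e1 : y / 2 - x / 2 = y' - x' := by omega
    have e2 : z / 2 - y / 2 = z' - y' := by omega
    have e3 : (y + 1) / 2 - (x + 1) / 2 = y' - x' + 1 := by omega
    have e4 : (z + 1) / 2 - (y + 1) / 2 = z' - y' := by omega
    have e5 : y - x = 2 * (y' - x') + 1 := by omega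
    have e6 : z - y = 2 * (z' - y') := by omega
    rw [e1, e2, e3, e4, e5, e6, dg_odd_even]
  · -- OEE
    have e1 : y / 2 - x / 2 = y' - x' - 1 + 1 := by omega
    have e2 : z / 2 - y / 2 = z' - y' := by omega
    have e3 : (y + 1) / 2 - (x + 1) / 2 = y' - x' - 1 := by omega
    have e4 : (z + 1) / 2 - (y + 1) / 2 = z' - y' := by omega
    have e5 : y - x = 2 * (y' - x' - 1) + 1 := by omega
    have e6 : z - y = 2 * (z' - y') := by omega
    rw [e1, e2, e3, e4, e5, e6, dg_odd_even, add_comm]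
  · -- OEO
    have e1 : y / 2 - x / 2 = y' - x' - 1 + 1 := by omega
    have e2 : z / 2 - y / 2 = z' - y' := by omega
    have e3 : (y + 1) / 2 - (x + 1) / 2 = y' - x' - 1 := by omega
    have e4 : (z + 1) / 2 - (y + 1) / 2 = z' - y' + 1 := by omega
    have e5 : y - x = 2 * (y' - x' - 1) + 1 := by omega
    have e6 : z - y = 2 * (z' - y') + 1 := by omega
    rw [e1, e2, e3, e4, e5, e6, add_comm]
    exact dg_odd_odd _ _
  · -- OOE
    have e1 : y / 2 - x / 2 = y' - x' := by omega
    have e2 : z / 2 - y / 2 = z' - y' - 1 + 1 := by omega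
    have e3 : (y + 1) / 2 - (x + 1) / 2 = y' - x' := by omega
    have e4 : (z + 1) / 2 - (y + 1) / 2 = z' - y' - 1 := by omega
    have e5 : y - x = 2 * (y' - x') := by omega
    have e6 : z - y = 2 * (z' - y' - 1) + 1 := by omega
    rw [e1, e2, e3, e4, e5, e6, dg_even_odd, add_comm]
  · -- OOO
    have e1 : y / 2 - x / 2 = y' - x' := by omega
    have e2 : z / 2 - y / 2 = z' - y' := by omega
    have e3 : (y + 1) / 2 - (x + 1) / 2 = y' - x' := by omega
    have e4 : (z + 1) / 2 - (y + 1) / 2 = z' - y' := by omega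
    have e5 : y - x = 2 * (y' - x') := by omega
    have e6 : z - y = 2 * (z' - y') := by omega
    rw [e1, e2, e3, e4, e5, e6, dg_even_even]
    linarith

/-- superadditive functionals -/
def SA (φ : ℕ → (ℕ → ℕ) → ℤ) : Prop :=
  ∀ k S, Monotone S → φ k (lo S) + φ k (hi S) ≤ φ (k + 1) S

theorem SA.add {φ ψ : ℕ → (ℕ → ℕ) → ℤ} (h : SA φ) (h' : SA ψ) : SA (fun k S => φ k S + ψ k S) := by
  intro k S hS
  have h1 := h k S hS
  have h2 := h' k S hS
  simp only
  linarith

theorem SA.mul {φ : ℕ → (ℕ → ℕ) → ℤ} (h : SA φ) {c : ℤ} (hc : 0 ≤ c) :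
    SA (fun k S => c * φ k S) := by
  intro k S hS
  have h1 := mul_le_mul_of_nonneg_left (h k S hS) hc
  simp only
  linarith

theorem SA.dg (i j l : ℕ) (hij : i ≤ j) (hjl : j ≤ l) :
    SA (fun _ S => dg (S j - S i) (S l - S j)) := by
  intro k S hS
  exact dg_halve (S i) (S j) (S l) (hS hij) (hS hjl)

/-- every linear term is allowed -/
theorem SA.coord (j : ℕ) (c : ℤ) : SA (fun _ S => c * (S j : ℤ)) := by
  intro k S _
  have h : ((lo S j : ℕ) : ℤ) + (hi S j : ℕ) = S j := by exact_mod_cast lo_add_hi S j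
  simp only
  rw [← mul_add, h]

theorem SA.const (c : ℤ) : SA (fun k _ => c * 2 ^ k) := by
  intro k S _
  simp only
  rw [pow_succ]
  linarith

/-- predicates which are stable by halving -/
def Cl (P : ℕ → (ℕ → ℕ) → Prop) : Prop :=
  ∀ k S, P (k + 1) S → P k (lo S) ∧ P k (hi S)

theorem Cl.and {P Q : ℕ → (ℕ → ℕ) → Prop} (h : Cl P) (h' : Cl Q) :
    Cl (fun k S => P k S ∧ Q k S) := by
  intro k S hS
  exact ⟨⟨(h k S hS.1).1, (h' k S hS.2).1⟩, ⟨(h k S hS.1).2, (h' k S hS.2).2⟩⟩

/-- `S j ≥ S i + c 2 ^ k`, `c` an integer -/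
theorem Cl.ge (i j : ℕ) (c : ℤ) : Cl (fun k S => (S i : ℤ) + c * 2 ^ k ≤ S j) := by
  intro k S hS
  simp only at hS ⊢
  unfold lo hi
  rw [pow_succ] at hS
  set A : ℤ := c * 2 ^ k with hA
  have h1 : (S i : ℤ) + 2 * A ≤ S j := by rw [hA]; linarith
  constructor
  · have h3 := Nat.div_add_mod (S i) 2
    push_cast
    omega
  · push_cast
    omega

/-- the cell lemma -/
theorem cell {φ : ℕ → (ℕ → ℕ) → ℤ} (hφ : SA φ) {P : ℕ → (ℕ → ℕ) → Prop} (hP : Cl P)
    (base : ∀ S, Monotone S → P 0 S → 0 ≤ φ 0 S) :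
    ∀ k S, Monotone S → P k S → 0 ≤ φ k S := by
  intro k
  induction k with
  | zero => exact base
  | succ k ih =>
    intro S hS hPS
    have h := hP k S hPS
    have h1 := ih (lo S) (lo_mono hS) h.1
    have h2 := ih (hi S) (hi_mono hS) h.2
    have h3 := hφ k S hS
    linarith

/-- homogeneity of the defect -/
theorem dg_pow_mul (c p q : ℕ) : dg (2 ^ c * p) (2 ^ c * q) = 2 ^ c * dg p q := by
  induction c with
  | zero => simp
  | succ c ih =>
    rw [pow_succ, Nat.mul_comm (2 ^ c) 2, Nat.mul_assoc, Nat.mul_assoc, dg_even_even, ih, pow_succ]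
    ring

end Pool.Agent.EdgeIso.Cell
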