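import Pool.Agent.Lib.MP_48c8f3_co.Bas
import Pool.Agent.Lib.MP_48c8f3_co.CellA

set_option autoImplicit false

/-!
MP_48c8f3_co, all scales certificates, part B: lower bounds of the loss by an array.
-/

namespace Pool.Agent.EdgeIso.Cell

open Finset Pool.Agent.EdgeIso.Frame

variable {α : Type*} [DecidableEq α]

/-- all half-families have at least `U / 2` members -/
def Hf (s : Finset α) (F : Finset (Finset α)) (U : ℕ) : Prop :=
  ∀ a ∈ s, ∀ b, U ≤ 2 * (half a b F).card

/-- the direction of the smallest half -/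
theorem exists_min_dir {s : Finset α} (hs : s.Nonempty) (F : Finset (Finset α)) :
    ∃ a ∈ s, ∃ b, ∀ c ∈ s, ∀ d, (half a (!b) F).card ≤ (half c d F).card := by
  obtain ⟨x, hx, hmin⟩ := exists_min_image (s ×ˢ (univ : Finset Bool))
    (fun x => (half x.1 x.2 F).card) (hs.product univ_nonempty)
  rw [mem_product] at hx
  refine ⟨x.1, hx.1, !x.2, fun a ha b => ?_⟩
  rw [Bool.not_not]
  exact hmin (a, b) (mem_product.mpr ⟨ha, mem_univ _⟩)

theorem card_half_half {a c : α} (hac : a ≠ c) (b d : Bool) (F : Finset (Finset α)) :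
    (half c d (half a b F)).card + (half c d (half a (!b) F)).card = (half c d F).card := by
  rw [half_comm (Ne.symm hac), half_comm (Ne.symm hac)]
  exact card_half_add' a b (half c d F)

theorem card_half_le (c : α) (d : Bool) (K W : Finset (Finset α)) :
    (half c d W).card ≤ (half c d K).card + (W \ K).card := by
  have h1 : half c d W ⊆ half c d K ∪ half c d (W \ K) := by
    intro x hx
    rw [mem_union, half_sdiff, mem_sdiff]
    by_cases h : x ∈ half c d K
    · exact Or.inl h
    · exact Or.inr ⟨hx, h⟩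
  have h2 := (Finset.card_le_card h1).trans (card_union_le _ _)
  have h3 : (half c d (W \ K)).card ≤ (W \ K).card := by
    have := card_half_add' c d (W \ K)
    omega
  omega

/-- all halves of the majority half are not small -/
theorem hf_K {s : Finset α} {a : α} {b : Bool} {F : Finset (Finset α)} {Q : ℕ}
    (hQ : ∀ c ∈ s, ∀ d, Q ≤ (half c d F).card) {c : α} (hc : c ∈ s.erase a) (d : Bool) :
    Q ≤ 2 * (half c d (half a b F)).card + (half a (!b) F \ half a b F).card := by
  have h1 := hQ c (mem_of_mem_erase hc) d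
  have h2 := card_half_half (ne_of_mem_erase hc).symm b d F
  have h3 := card_half_le c d (half a b F) (half a (!b) F)
  omega

/-- all halves of the minority half are not small -/
theorem hf_W {s : Finset α} {a : α} {b : Bool} {F : Finset (Finset α)} {Q : ℕ}
    (hQ : ∀ c ∈ s, ∀ d, Q ≤ (half c d F).card) {c : α} (hc : c ∈ s.erase a) (d : Bool) :
    Q + (half a (!b) F).card ≤ 2 * (half c d (half a (!b) F)).card + (half a b F).card +
      (half a (!b) F \ half a b F).card := by
  have h1 := hQ c (mem_of_mem_erase hc) d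
  have h2 := card_half_half (ne_of_mem_erase hc).symm b d F
  have h3' := card_half_le c (!d) (half a b F) (half a (!b) F)
  have h4 := card_half_add' c d (half a b F)
  have h5 := card_half_add' c d (half a (!b) F)
  omega

/-- interpolation of a sequence, scaled by `M` -/
def ev (T : ℕ → ℤ) (M V : ℕ) : ℤ := M * T (V / M) + (T (V / M + 1) - T (V / M)) * (V % M : ℕ)

theorem ev_eq {T : ℕ → ℤ} {M V i : ℕ} (h1 : M * i ≤ V) (h2 : V ≤ M * (i + 1)) (hM : 0 < M) :
    ev T M V = M * T i + (T (i + 1) - T i) * ((V : ℤ) - M * i) := by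
  unfold ev
  rcases h2.lt_or_eq with h | h
  · have h3 : V / M = i := by
      apply Nat.div_eq_of_lt_le
      · rw [Nat.mul_comm]; exact h1
      · rw [Nat.mul_comm]; exact h
    have h4 := Nat.div_add_mod V M
    rw [h3] at h4 ⊢
    have h5 : ((V % M : ℕ) : ℤ) = (V : ℤ) - M * i := by
      have : ((M * i + V % M : ℕ) : ℤ) = V := by exact_mod_cast h4
      push_cast at this ⊢
      linarith
    rw [h5]
  · have h3 : V / M = i + 1 := by rw [h]; exact Nat.mul_div_cancel_left _ hM
    have h4 : V % M = 0 := by rw [h]; exact Nat.mul_mod_right _ _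
    rw [h3, h4, h]
    push_cast
    ring

/-- the cell of a value -/
theorem exists_cell {γ N P : ℕ} (hP : P ≤ 2 ^ N) :
    ∃ i, i < 2 ^ γ ∧ 2 ^ N * i ≤ 2 ^ γ * P ∧ 2 ^ γ * P ≤ 2 ^ N * (i + 1) := by
  rcases hP.lt_or_eq with h | h
  · refine ⟨2 ^ γ * P / 2 ^ N, ?_, Nat.mul_div_le _ _, ?_⟩
    · rw [Nat.div_lt_iff_lt_mul (by positivity)]
      exact Nat.mul_lt_mul_of_pos_left h (by positivity)
    · exact (Nat.lt_mul_div_succ _ (by positivity)).le
  · refine ⟨2 ^ γ - 1, ?_, ?_, ?_⟩
    · have : 0 < 2 ^ γ := by positivity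
      omega
    · rw [h, Nat.mul_comm]
      exact Nat.mul_le_mul_right _ (Nat.sub_le _ _)
    · have : 0 < 2 ^ γ := by positivity
      rw [h, Nat.sub_add_cancel this, Nat.mul_comm]

theorem halves_cast (S : ℕ → ℕ) (j : ℕ) : (S j : ℤ) = (lo S j : ℕ) + (hi S j : ℕ) := by
  exact_mod_cast (lo_add_hi S j).symm

theorem exists_carry {M A B iK iW : ℕ} (hK1 : M * iK ≤ A) (hK2 : A ≤ M * (iK + 1))
    (hW1 : M * iW ≤ B) (hW2 : B ≤ M * (iW + 1)) :
    ∃ cy, cy ≤ 1 ∧ M * (iK + iW + cy) ≤ A + B ∧ A + B ≤ M * (iK + iW + cy + 1) := by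
  rcases le_total (A + B) (M * (iK + iW + 1)) with h1 | h1
  · refine ⟨0, by norm_num, ?_, h1⟩
    rw [Nat.add_zero, Nat.mul_add]
    exact Nat.add_le_add hK1 hW1
  · refine ⟨1, le_rfl, h1, ?_⟩
    have : M * (iK + iW + 1 + 1) = M * (iK + 1) + M * (iW + 1) := by ring
    rw [this]
    exact Nat.add_le_add hK2 hW2

theorem ev_mono {T T' : ℕ → ℤ} {M V I : ℕ} (hM : 0 < M) (hV : V ≤ M * I)
    (h : ∀ i ≤ I, T i ≤ T' i) : ev T M V ≤ ev T' M V := by
  have h1 : V / M ≤ I := by
    rw [Nat.div_le_iff_le_mul_add_pred hM]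
    omega
  have h2 := Nat.div_add_mod V M
  have h3 := Nat.mod_lt V hM
  have e : ∀ T : ℕ → ℤ, ev T M V =
      ((M : ℤ) - (V % M : ℕ)) * T (V / M) + (V % M : ℕ) * T (V / M + 1) := by
    intro T
    unfold ev
    ring
  rw [e, e]
  have h5 : (0 : ℤ) ≤ (M : ℤ) - (V % M : ℕ) := by
    have : ((V % M : ℕ) : ℤ) < M := by exact_mod_cast h3
    linarith
  have a1 := mul_le_mul_of_nonneg_left (h _ h1) h5
  rcases Nat.eq_zero_or_pos (V % M) with h4 | h4
  · rw [h4] at a1 ⊢
    push_cast at a1 ⊢
    linarith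
  · have h6 : V / M + 1 ≤ I := by
      by_contra h7
      have h8 : V / M = I := by omega
      rw [h8] at h2
      omega
    have a2 := mul_le_mul_of_nonneg_left (h _ h6) (by positivity : (0 : ℤ) ≤ (V % M : ℕ))
    linarith

end Pool.Agent.EdgeIso.Cell
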