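import Pool.Agent.Lib.MP_48c8f3_co.Bas
import Pool.Agent.Lib.MP_48c8f3_co.CellB

set_option autoImplicit false

/-!
MP_48c8f3_co, all scales certificates, part C: a checker which is evaluated by the kernel.
-/

namespace Pool.Agent.EdgeIso.Cell

open Pool.Agent.EdgeIso.Frame

/-- bounded universal quantifier -/
def allB (f : ℕ → Bool) : ℕ → Bool
  | 0 => true
  | n + 1 => f n && allB f n

theorem allB_iff {f : ℕ → Bool} {n : ℕ} : allB f n = true ↔ ∀ i < n, f i = true := by
  induction n with
  | zero => simp [allB]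
  | succ n ih =>
    rw [allB, Bool.and_eq_true, ih]
    constructor
    · rintro ⟨h1, h2⟩ i hi
      rcases Nat.lt_succ_iff_lt_or_eq.mp hi with h | h
      · exact h2 i h
      · rw [h]; exact h1
    · intro h
      exact ⟨h n (Nat.lt_succ_self n), fun i hi => h i (Nat.lt_succ_of_lt hi)⟩

/-- read the entry `i` of a packed array -/
def rd (d w i : ℕ) : ℕ := Nat.land (Nat.shiftRight d (w * i)) (2 ^ w - 1)

/-- `G` computes `g` up to `2 n` -/
def gCheck (G : ℕ → ℕ) (n : ℕ) : Bool :=
  (Nat.beq (G 0) 0 && Nat.beq (G 1) 0) && allB (fun i =>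
    Nat.beq (G (2 * i)) (2 * G i + i) && Nat.beq (G (2 * i + 1)) (G i + G (i + 1) + i)) n

theorem gCheck_sound {G : ℕ → ℕ} {n : ℕ} (h : gCheck G n = true) :
    ∀ m, m < 2 * n → G m = EdgeIso.g m := by
  unfold gCheck at h
  rw [Bool.and_eq_true, Bool.and_eq_true, allB_iff] at h
  obtain ⟨⟨h0, h1⟩, h2⟩ := h
  have h0' := Nat.eq_of_beq_eq_true h0
  have h1' := Nat.eq_of_beq_eq_true h1
  intro m
  induction m using Nat.strong_induction_on with
  | _ m ih =>
    intro hm
    rcases Nat.eq_zero_or_pos m with h3 | h3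
    · rw [h3, h0', g_zero]
    rcases Nat.even_or_odd' m with ⟨k, h4 | h4⟩
    · have h5 := h2 k (by omega)
      rw [Bool.and_eq_true] at h5
      have h6 := Nat.eq_of_beq_eq_true h5.1
      rw [h4, h6, g_even, ih k (by omega) (by omega)]
    · rcases Nat.eq_zero_or_pos k with h5 | h5
      · rw [h4, h5, Nat.mul_zero, Nat.zero_add, h1', g_one]
      have h5 := h2 k (by omega)
      rw [Bool.and_eq_true] at h5
      have h6 := Nat.eq_of_beq_eq_true h5.2
      rw [h4, h6, g_odd, ih k (by omega) (by omega), ih (k + 1) (by omega) (by omega)]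

end Pool.Agent.EdgeIso.Cell
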