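import Pool.Agent.Lib.MP_48c8f3_co.Bas
import Pool.Agent.Lib.MP_48c8f3_co.CellB

set_option autoImplicit false

/-!
MP_48c8f3_co, all scales certificates, part F: lower bounds of the loss by an array, with the exact
number `f = |W \ K|` and with slopes `r`.

The array `T` has index `(i, β)`: size `i / 2 ^ γ` of the cube, all halves at least
`β / 2 ^ γ` of the cube. The values are twice the loss, in units `1 / c`.  The slope in `β` is at most
`2 r c` (a penalty `r c` for each unit of `2 β - U`).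
-/

namespace Pool.Agent.EdgeIso.Cell

open Finset Pool.Agent.EdgeIso.Frame

variable {α : Type*} [DecidableEq α]

/-- no penalty for index `0` -/
def cP (r c b : ℕ) : ℤ := if b = 0 then 0 else r * c

theorem cP_nonneg (r c b : ℕ) : 0 ≤ cP r c b := by
  unfold cP
  split_ifs
  · exact le_rfl
  · positivity

/-- the zero table -/
def ZT : ℕ → ℕ → ℤ := fun _ _ => 0

/-- convexity of `max 0 (a + x)` between two points -/
theorem max_conv (a x x1 x2 : ℤ) (h1 : x1 ≤ x) (h2 : x ≤ x2) :
    (x2 - x1) * max 0 (a + x) ≤ (x2 - x) * max 0 (a + x1) + (x - x1) * max 0 (a + x2) := by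
  have n1 := mul_nonneg (sub_nonneg.mpr h2) (le_max_left 0 (a + x1))
  have n2 := mul_nonneg (sub_nonneg.mpr h1) (le_max_left 0 (a + x2))
  have m1 := mul_le_mul_of_nonneg_left (le_max_right 0 (a + x1)) (sub_nonneg.mpr h2)
  have m2 := mul_le_mul_of_nonneg_left (le_max_right 0 (a + x2)) (sub_nonneg.mpr h1)
  rcases max_cases 0 (a + x) with h | h
  · rw [h.1]
    linarith
  · rw [h.1]
    nlinarith

/-- a concave function of this form is nonnegative between two points -/
theorem conc_nonneg {A B c1 c2 a1 a2 x x1 x2 : ℤ} (hc1 : 0 ≤ c1) (hc2 : 0 ≤ c2) (h1 : x1 ≤ x)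
    (h2 : x ≤ x2) (e1 : 0 ≤ A + B * x1 - c1 * max 0 (a1 + x1) - c2 * max 0 (a2 + x1))
    (e2 : 0 ≤ A + B * x2 - c1 * max 0 (a1 + x2) - c2 * max 0 (a2 + x2)) :
    0 ≤ A + B * x - c1 * max 0 (a1 + x) - c2 * max 0 (a2 + x) := by
  rcases (h1.trans h2).eq_or_lt with h | h
  · have : x = x1 := le_antisymm (h ▸ h2) h1
    rw [this]
    exact e1
  · have m1 := mul_le_mul_of_nonneg_left (max_conv a1 x x1 x2 h1 h2) hc1
    have m2 := mul_le_mul_of_nonneg_left (max_conv a2 x x1 x2 h1 h2) hc2
    have f1 := mul_nonneg (sub_nonneg.mpr h2) e1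
    have f2 := mul_nonneg (sub_nonneg.mpr h1) e2
    refine nonneg_of_mul_nonneg_right (a := x2 - x1) ?_ (by linarith)
    linarith

end Pool.Agent.EdgeIso.Cell
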