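import Pool.Agent.Lib.MP_48c8f3_co.Bas
import Pool.Agent.Lib.MP_48c8f3_co.CellF

set_option autoImplicit false

/-!
MP_48c8f3_co, all scales certificates, part J: as part F, with several arrays `C σ` with slopes
`rs σ`. The children may use any of the arrays.
-/

namespace Pool.Agent.EdgeIso.Cell

open Finset Pool.Agent.EdgeIso.Frame

variable {α : Type*} [DecidableEq α]

/-- the corner condition of one cell `iK ≤ p ≤ iK + 1`, `iW ≤ q ≤ iW + 1` with carry `cy`, for the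
number `φ` of unmatched points. -/
def CornJ (ρ c r rK rW : ℕ) (T TK TW : ℕ → ℕ → ℤ) (iK iW cy β bK bW φ : ℕ) (ε : ℤ) : Prop :=
  ∀ p q, iK ≤ p → p ≤ iK + 1 → iW ≤ q → q ≤ iW + 1 → iK + iW + cy ≤ p + q →
    p + q ≤ iK + iW + cy + 1 →
    ρ * T ((iK + iW + cy) / ρ) β + (T ((iK + iW + cy) / ρ + 1) β - T ((iK + iW + cy) / ρ) β) *
        ((p : ℤ) + q - ρ * ((iK + iW + cy) / ρ : ℕ)) ≤
      2 * c * dg p q + 2 * c * φ + TK p bK - cP rK c bK * max 0 (2 * (bK : ℤ) + φ - q) + TW q bW -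
        cP rW c bW * max 0 (2 * (bW : ℤ) + φ - (2 * (q : ℤ) - p)) +
        ε * (2 * r * c * (ρ * (β : ℤ) - q))

/-- the numbers `φ ≥ x` are covered by intervals; on the last one the tables are not used -/
inductive CovJ (ρ c r : ℕ) (T : ℕ → ℕ → ℤ) (rs : ℕ → ℕ) (C : ℕ → ℕ → ℕ → ℤ)
    (iK iW cy β : ℕ) : ℕ → Prop
  | last (x : ℕ) (ε : ℤ) (hε : ε = 0 ∨ ε = 1)
      (h : CornJ ρ c r 0 0 T ZT ZT iK iW cy β 0 0 x ε) : CovJ ρ c r T rs C iK iW cy β x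
  | next (x y σK bK σW bW : ℕ) (ε : ℤ) (hε : ε = 0 ∨ ε = 1)
      (h1 : CornJ ρ c r (rs σK) (rs σW) T (C σK) (C σW) iK iW cy β bK bW x ε)
      (h2 : CornJ ρ c r (rs σK) (rs σW) T (C σK) (C σW) iK iW cy β bK bW y ε)
      (h : CovJ ρ c r T rs C iK iW cy β y) : CovJ ρ c r T rs C iK iW cy β x

/-- the functional of the step -/
def phiJ (ρ c r rK rW : ℕ) (T TK TW : ℕ → ℕ → ℤ) (iK iW i β bK bW φ : ℕ) (ε : ℤ) (k : ℕ)
    (S : ℕ → ℕ) : ℤ :=
  2 * c * dg (S 1 - S 0) (S 2 - S 1) + 2 * c * φ * 2 ^ k +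
    (2 ^ k * TK iK bK + (TK (iK + 1) bK - TK iK bK) * ((S 1 : ℤ) - S 0 - 2 ^ k * iK)) -
    cP rK c bK * max 0 (2 ^ k * (2 * bK + φ) - ((S 2 : ℤ) - S 1)) +
    (2 ^ k * TW iW bW + (TW (iW + 1) bW - TW iW bW) * ((S 2 : ℤ) - S 1 - 2 ^ k * iW)) -
    cP rW c bW * max 0 (2 ^ k * (2 * bW + φ) - (2 * ((S 2 : ℤ) - S 1) - ((S 1 : ℤ) - S 0))) +
    ε * (2 * r * c * (2 ^ k * (ρ * β) - ((S 2 : ℤ) - S 1))) -
    (2 ^ k * (ρ * T i β) + (T (i + 1) β - T i β) * ((S 2 : ℤ) - S 0 - 2 ^ k * (ρ * i)))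

theorem phiJ_SA (ρ c r rK rW : ℕ) (T TK TW : ℕ → ℕ → ℤ) (iK iW i β bK bW φ : ℕ) (ε : ℤ) :
    SA (phiJ ρ c r rK rW T TK TW iK iW i β bK bW φ ε) := by
  intro k S hS
  have h0 := halves_cast S 0
  have h1 := halves_cast S 1
  have h2 := halves_cast S 2
  have hd := dg_halve (S 0) (S 1) (S 2) (hS (by norm_num)) (hS (by norm_num))
  have hc : (0 : ℤ) ≤ c := by positivity
  have hmax : ∀ c x y : ℤ, 0 ≤ c → c * max 0 (x + y) ≤ c * max 0 x + c * max 0 y := by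
    intro c x y hc
    rw [← mul_add]
    apply mul_le_mul_of_nonneg_left _ hc
    apply max_le
    · have := le_max_left 0 x
      have := le_max_left 0 y
      linarith
    · have := le_max_right 0 x
      have := le_max_right 0 y
      linarith
  have m1 := hmax (cP rK c bK) (2 ^ k * (2 * bK + φ) - (((lo S 2 : ℕ) : ℤ) - (lo S 1 : ℕ)))
    (2 ^ k * (2 * bK + φ) - (((hi S 2 : ℕ) : ℤ) - (hi S 1 : ℕ))) (cP_nonneg rK c bK)
  have m2 := hmax (cP rW c bW)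
    (2 ^ k * (2 * bW + φ) - (2 * (((lo S 2 : ℕ) : ℤ) - (lo S 1 : ℕ)) -
      (((lo S 1 : ℕ) : ℤ) - (lo S 0 : ℕ))))
    (2 ^ k * (2 * bW + φ) - (2 * (((hi S 2 : ℕ) : ℤ) - (hi S 1 : ℕ)) -
      (((hi S 1 : ℕ) : ℤ) - (hi S 0 : ℕ))))
    (cP_nonneg rW c bW)
  have e1 : (2 : ℤ) ^ (k + 1) * (2 * bK + φ) - ((S 2 : ℤ) - S 1) =
      (2 ^ k * (2 * bK + φ) - (((lo S 2 : ℕ) : ℤ) - (lo S 1 : ℕ))) +
      (2 ^ k * (2 * bK + φ) - (((hi S 2 : ℕ) : ℤ) - (hi S 1 : ℕ))) := by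
    rw [h1, h2, pow_succ]; ring
  have e2 : (2 : ℤ) ^ (k + 1) * (2 * bW + φ) - (2 * ((S 2 : ℤ) - S 1) - ((S 1 : ℤ) - S 0)) =
      (2 ^ k * (2 * bW + φ) - (2 * (((lo S 2 : ℕ) : ℤ) - (lo S 1 : ℕ)) -
        (((lo S 1 : ℕ) : ℤ) - (lo S 0 : ℕ)))) +
      (2 ^ k * (2 * bW + φ) - (2 * (((hi S 2 : ℕ) : ℤ) - (hi S 1 : ℕ)) -
        (((hi S 1 : ℕ) : ℤ) - (hi S 0 : ℕ)))) := by
    rw [h0, h1, h2, pow_succ]; ring
  rw [← e1] at m1
  rw [← e2] at m2
  have hd2 : 2 * (c : ℤ) * dg (lo S 1 - lo S 0) (lo S 2 - lo S 1) +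
      2 * c * dg (hi S 1 - hi S 0) (hi S 2 - hi S 1) ≤ 2 * c * dg (S 1 - S 0) (S 2 - S 1) := by
    have : dg (lo S 1 - lo S 0) (lo S 2 - lo S 1) + dg (hi S 1 - hi S 0) (hi S 2 - hi S 1) ≤
      dg (S 1 - S 0) (S 2 - S 1) := hd
    rw [← mul_add]
    exact mul_le_mul_of_nonneg_left this (by positivity)
  unfold phiJ
  have l0 : 2 * (c : ℤ) * φ * 2 ^ (k + 1) = 2 * c * φ * 2 ^ k + 2 * c * φ * 2 ^ k := by
    rw [pow_succ]; ring
  have l1 : (2 : ℤ) ^ (k + 1) * TK iK bK + (TK (iK + 1) bK - TK iK bK) * ((S 1 : ℤ) - S 0 - 2 ^ (k + 1) * iK) =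
      (2 ^ k * TK iK bK + (TK (iK + 1) bK - TK iK bK) * (((lo S 1 : ℕ) : ℤ) - (lo S 0 : ℕ) - 2 ^ k * iK)) +
      (2 ^ k * TK iK bK + (TK (iK + 1) bK - TK iK bK) * (((hi S 1 : ℕ) : ℤ) - (hi S 0 : ℕ) - 2 ^ k * iK)) := by
    rw [h0, h1, pow_succ]; ring
  have l2 : (2 : ℤ) ^ (k + 1) * TW iW bW + (TW (iW + 1) bW - TW iW bW) * ((S 2 : ℤ) - S 1 - 2 ^ (k + 1) * iW) =
      (2 ^ k * TW iW bW + (TW (iW + 1) bW - TW iW bW) * (((lo S 2 : ℕ) : ℤ) - (lo S 1 : ℕ) - 2 ^ k * iW)) +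
      (2 ^ k * TW iW bW + (TW (iW + 1) bW - TW iW bW) * (((hi S 2 : ℕ) : ℤ) - (hi S 1 : ℕ) - 2 ^ k * iW)) := by
    rw [h1, h2, pow_succ]; ring
  have l3 : ε * (2 * r * c * (2 ^ (k + 1) * (ρ * β) - ((S 2 : ℤ) - S 1))) =
      ε * (2 * r * c * (2 ^ k * (ρ * β) - (((lo S 2 : ℕ) : ℤ) - (lo S 1 : ℕ)))) +
      ε * (2 * r * c * (2 ^ k * (ρ * β) - (((hi S 2 : ℕ) : ℤ) - (hi S 1 : ℕ)))) := by
    rw [h1, h2, pow_succ]; ring
  have l4 : (2 : ℤ) ^ (k + 1) * (ρ * T i β) + (T (i + 1) β - T i β) * ((S 2 : ℤ) - S 0 - 2 ^ (k + 1) * (ρ * i)) =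
      (2 ^ k * (ρ * T i β) + (T (i + 1) β - T i β) * (((lo S 2 : ℕ) : ℤ) - (lo S 0 : ℕ) - 2 ^ k * (ρ * i))) +
      (2 ^ k * (ρ * T i β) + (T (i + 1) β - T i β) * (((hi S 2 : ℕ) : ℤ) - (hi S 0 : ℕ) - 2 ^ k * (ρ * i))) := by
    rw [h0, h2, pow_succ]; ring
  rw [l0, l1, l2, l3, l4]
  linarith

/-- the fine inequality of one cell -/
theorem stepJ_fine {ρ c r rK rW : ℕ} {T TK TW : ℕ → ℕ → ℤ} {iK iW β bK bW φ : ℕ} {ε : ℤ} {cy : ℕ}
    (hcor : CornJ ρ c r rK rW T TK TW iK iW cy β bK bW φ ε)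
    (k p q : ℕ) (h1 : 2 ^ k * iK ≤ p) (h2 : p ≤ 2 ^ k * (iK + 1)) (h3 : 2 ^ k * iW ≤ q)
    (h4 : q ≤ 2 ^ k * (iW + 1)) (h5 : 2 ^ k * (iK + iW + cy) ≤ p + q)
    (h6 : p + q ≤ 2 ^ k * (iK + iW + cy + 1)) :
    (2 ^ k * (ρ * T ((iK + iW + cy) / ρ) β) +
      (T ((iK + iW + cy) / ρ + 1) β - T ((iK + iW + cy) / ρ) β) *
        ((p : ℤ) + q - 2 ^ k * (ρ * ((iK + iW + cy) / ρ : ℕ)))) ≤
    2 * c * dg p q + 2 * c * φ * 2 ^ k +
    (2 ^ k * TK iK bK + (TK (iK + 1) bK - TK iK bK) * ((p : ℤ) - 2 ^ k * iK)) -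
    cP rK c bK * max 0 (2 ^ k * (2 * bK + φ) - (q : ℤ)) +
    (2 ^ k * TW iW bW + (TW (iW + 1) bW - TW iW bW) * ((q : ℤ) - 2 ^ k * iW)) -
    cP rW c bW * max 0 (2 ^ k * (2 * bW + φ) - (2 * (q : ℤ) - p)) +
    ε * (2 * r * c * (2 ^ k * (ρ * β) - (q : ℤ))) := by
  unfold CornJ at hcor
  generalize (iK + iW + cy) / ρ = i at hcor ⊢
  have key := cell (phiJ_SA ρ c r rK rW T TK TW iK iW i β bK bW φ ε)
    (P := fun k S => (((S 0 : ℤ) + iK * 2 ^ k ≤ S 1 ∧ (S 1 : ℤ) + (-(iK + 1 : ℤ)) * 2 ^ k ≤ S 0) ∧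
      ((S 1 : ℤ) + iW * 2 ^ k ≤ S 2 ∧ (S 2 : ℤ) + (-(iW + 1 : ℤ)) * 2 ^ k ≤ S 1)) ∧
      ((S 0 : ℤ) + (iK + iW + cy : ℕ) * 2 ^ k ≤ S 2 ∧
        (S 2 : ℤ) + (-((iK + iW + cy + 1 : ℕ) : ℤ)) * 2 ^ k ≤ S 0))
    ((((Cl.ge 0 1 _).and (Cl.ge 1 0 _)).and ((Cl.ge 1 2 _).and (Cl.ge 2 1 _))).and
      ((Cl.ge 0 2 _).and (Cl.ge 2 0 _)))
    (by
      intro S hS hP0
      obtain ⟨⟨⟨a1, a2⟩, a3, a4⟩, a5, a6⟩ := hP0
      simp only [pow_zero, mul_one] at a1 a2 a3 a4 a5 a6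
      have s01 : S 0 ≤ S 1 := hS (by norm_num)
      have s12 : S 1 ≤ S 2 := hS (by norm_num)
      have hh := hcor (S 1 - S 0) (S 2 - S 1) (by omega) (by omega) (by omega) (by omega)
        (by omega) (by omega)
      have c1 : ((S 1 - S 0 : ℕ) : ℤ) = S 1 - S 0 := by push_cast [s01]; rfl
      have c2 : ((S 2 - S 1 : ℕ) : ℤ) = S 2 - S 1 := by push_cast [s12]; rfl
      rw [c1, c2] at hh
      have hT : ∀ (T : ℕ → ℕ → ℤ) (x z B : ℕ), z ≤ x → x ≤ z + 1 →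
          T x B = T z B + (T (z + 1) B - T z B) * ((x : ℤ) - z) := by
        intro T x z B h1 h2
        have : x = z ∨ x = z + 1 := by omega
        rcases this with h3 | h3
        · rw [h3]; ring
        · rw [h3]; push_cast; ring
      rw [hT TK (S 1 - S 0) iK bK (by omega) (by omega),
        hT TW (S 2 - S 1) iW bW (by omega) (by omega), c1, c2] at hh
      unfold phiJ
      simp only [pow_zero, one_mul, mul_one]
      linarith)
    k (fun j => if j = 0 then 0 else if j = 1 then p else p + q)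
    (by
      intro x y hxy
      simp only
      split_ifs <;> omega)
    (by
      simp only [if_true, one_ne_zero, if_false, OfNat.ofNat_ne_zero, OfNat.ofNat_ne_one]
      have q1 : ((2 ^ k * iK : ℕ) : ℤ) ≤ ((p : ℕ) : ℤ) := by exact_mod_cast h1
      have q2 : ((p : ℕ) : ℤ) ≤ ((2 ^ k * (iK + 1) : ℕ) : ℤ) := by exact_mod_cast h2
      have q3 : ((2 ^ k * iW : ℕ) : ℤ) ≤ ((q : ℕ) : ℤ) := by exact_mod_cast h3
      have q4 : ((q : ℕ) : ℤ) ≤ ((2 ^ k * (iW + 1) : ℕ) : ℤ) := by exact_mod_cast h4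
      have q5 : ((2 ^ k * (iK + iW + cy) : ℕ) : ℤ) ≤ ((p + q : ℕ) : ℤ) := by
        exact_mod_cast h5
      have q6 : ((p + q : ℕ) : ℤ) ≤ ((2 ^ k * (iK + iW + cy + 1) : ℕ) : ℤ) := by
        exact_mod_cast h6
      push_cast at q1 q2 q3 q4 q5 q6 ⊢
      refine ⟨⟨⟨?_, ?_⟩, ?_, ?_⟩, ?_, ?_⟩ <;> linarith)
  simp only [if_true, one_ne_zero, if_false, OfNat.ofNat_ne_zero, OfNat.ofNat_ne_one, phiJ,
    Nat.sub_zero, Nat.add_sub_cancel_left] at key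
  push_cast at key
  have e1 : (p : ℤ) + q - p = q := by ring
  have e2 : (2 : ℤ) * q - (p - 0) = 2 * q - p := by ring
  rw [e1, e2] at key
  linarith

/-- the step for families: from the halves to the family -/
theorem stepJ_family {s : Finset α} {F : Finset (Finset α)} {a : α} {b : Bool} (ha : a ∈ s)
    (hF : Sub s F) (hQP : (half a (!b) F).card ≤ (half a b F).card)
    {γ ρ c r M k : ℕ} (hM : M = 2 ^ k) (hρ : 0 < ρ) {T : ℕ → ℕ → ℤ} {rs : ℕ → ℕ}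
    {C : ℕ → ℕ → ℕ → ℤ} {iK iW cy β U : ℕ}
    (hU : U ≤ 2 * (half a (!b) F).card)
    (hK1 : M * iK ≤ 2 ^ γ * (half a b F).card) (hK2 : 2 ^ γ * (half a b F).card ≤ M * (iK + 1))
    (hW1 : M * iW ≤ 2 ^ γ * (half a (!b) F).card)
    (hW2 : 2 ^ γ * (half a (!b) F).card ≤ M * (iW + 1))
    (hX1 : M * (iK + iW + cy) ≤ 2 ^ γ * F.card) (hX2 : 2 ^ γ * F.card ≤ M * (iK + iW + cy + 1))
    (hstep : CovJ ρ c r T rs C iK iW cy β 0)
    (hKb : ∀ σ β, ev (fun i => C σ i β) M (2 ^ γ * (half a b F).card) ≤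
      c * 2 ^ γ * L2 (s.erase a) (half a b F) + rs σ * c * max 0 ((M : ℤ) * (2 * β) -
        2 ^ γ * ((half a (!b) F).card - (half a (!b) F \ half a b F).card : ℕ)))
    (hWb : ∀ σ β, ev (fun i => C σ i β) M (2 ^ γ * (half a (!b) F).card) ≤
      c * 2 ^ γ * L2 (s.erase a) (half a (!b) F) + rs σ * c * max 0 ((M : ℤ) * (2 * β) -
        2 ^ γ * (2 * (half a (!b) F).card -
          ((half a b F).card + (half a (!b) F \ half a b F).card) : ℕ))) :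
    ev (fun i => T i β) (ρ * M) (2 ^ γ * F.card) ≤
      c * 2 ^ γ * L2 s F + r * c * max 0 (((ρ * M : ℕ) : ℤ) * (2 * β) - 2 ^ γ * U) := by
  have hsK := hF.half a b
  have hsW := hF.half a (!b)
  set K := half a b F with hK
  set W := half a (!b) F with hW
  set P := K.card with hP
  set Q := W.card with hQc
  set f := (W \ K).card with hf
  have hPQ : P + Q = F.card := card_half_add' a b F
  have hM0 : 0 < M := by rw [hM]; positivity
  rw [← hPQ, Nat.mul_add (2 ^ γ) P Q] at hX1 hX2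
  have hi0 : ρ * ((iK + iW + cy) / ρ) ≤ iK + iW + cy := Nat.mul_div_le _ _
  have hi3 : iK + iW + cy + 1 ≤ ρ * ((iK + iW + cy) / ρ + 1) := Nat.lt_mul_div_succ _ hρ
  have hi1 : ρ * M * ((iK + iW + cy) / ρ) ≤ 2 ^ γ * F.card := by
    rw [← hPQ, Nat.mul_add]
    have : ρ * M * ((iK + iW + cy) / ρ) = M * (ρ * ((iK + iW + cy) / ρ)) := by ring
    rw [this]
    exact (Nat.mul_le_mul_left _ hi0).trans hX1
  have hi2 : 2 ^ γ * F.card ≤ ρ * M * ((iK + iW + cy) / ρ + 1) := by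
    rw [← hPQ, Nat.mul_add]
    have : ρ * M * ((iK + iW + cy) / ρ + 1) = M * (ρ * ((iK + iW + cy) / ρ + 1)) := by ring
    rw [this]
    exact hX2.trans (Nat.mul_le_mul_left _ hi3)
  rw [ev_eq hi1 hi2 (by positivity), ← hPQ]
  have hL := L2_half' ha b F (by rw [← hK, ← hW]; exact hQP)
  rw [← hK, ← hW, ← hP, ← hQc, ← hf] at hL
  have hLK := L2_nonneg hsK
  have hLW := L2_nonneg hsW
  have hc0 : (0 : ℤ) ≤ c := by positivity
  have hγ0 : (0 : ℤ) ≤ 2 ^ γ := by positivity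
  have hLc := mul_le_mul_of_nonneg_left hL (by positivity : (0 : ℤ) ≤ c * 2 ^ γ)
  have hMz : (M : ℤ) = 2 ^ k := by rw [hM]; push_cast; rfl
  have pF : ∀ ε : ℤ, (ε = 0 ∨ ε = 1) → ε * (2 * r * c * (M * (ρ * β) - 2 ^ γ * (Q : ℤ))) ≤
      r * c * max 0 (((ρ * M : ℕ) : ℤ) * (2 * β) - 2 ^ γ * U) := by
    intro ε hε
    have hrc : (0 : ℤ) ≤ r * c := by positivity
    have h1 : 2 * ((M : ℤ) * (ρ * β) - 2 ^ γ * (Q : ℤ)) ≤
        ((ρ * M : ℕ) : ℤ) * (2 * β) - 2 ^ γ * U := by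
      have h2 : (U : ℤ) ≤ 2 * Q := by exact_mod_cast hU
      have h3 := mul_le_mul_of_nonneg_left h2 hγ0
      push_cast
      linarith
    have h4 := le_max_left (0 : ℤ) (((ρ * M : ℕ) : ℤ) * (2 * β) - 2 ^ γ * U)
    have h5 := le_max_right (0 : ℤ) (((ρ * M : ℕ) : ℤ) * (2 * β) - 2 ^ γ * U)
    have h6 := mul_le_mul_of_nonneg_left h4 hrc
    have h7 := mul_le_mul_of_nonneg_left (h1.trans h5) hrc
    rcases hε with h8 | h8
    · rw [h8]; linarith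
    · rw [h8]; linarith
  refine CovJ.rec (motive := fun x _ => M * x ≤ 2 ^ γ * f → _) ?_ ?_ hstep (by simp)
  rotate_left
  · -- one of the intervals
    intro x y σK bK σW bW ε hε c1 c2 _ ih hj1
    rcases le_or_gt (2 ^ γ * f) (M * y) with hj2 | hj2
    swap
    · exact ih hj2.le
    have k1 := stepJ_fine c1 k (2 ^ γ * P) (2 ^ γ * Q) (by rw [← hM]; exact hK1)
      (by rw [← hM]; exact hK2) (by rw [← hM]; exact hW1) (by rw [← hM]; exact hW2)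
      (by rw [← hM]; exact hX1) (by rw [← hM]; exact hX2)
    have k2 := stepJ_fine c2 k (2 ^ γ * P) (2 ^ γ * Q) (by rw [← hM]; exact hK1)
      (by rw [← hM]; exact hK2) (by rw [← hM]; exact hW1) (by rw [← hM]; exact hW2)
      (by rw [← hM]; exact hX1) (by rw [← hM]; exact hX2)
    have bK' := hKb σK bK
    have bW' := hWb σW bW
    rw [ev_eq hK1 hK2 hM0] at bK'
    rw [ev_eq hW1 hW2 hM0] at bW'
    have pf := pF ε hε
    rw [dg_pow_mul, ← hMz] at k1 k2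
    generalize (iK + iW + cy) / ρ = i at k1 k2 ⊢
    -- penalties
    have pK : (rs σK : ℤ) * c * max 0 ((M : ℤ) * (2 * bK) - 2 ^ γ * (Q - f : ℕ)) ≤
        cP (rs σK) c bK * max 0 ((M : ℤ) * (2 * bK) - 2 ^ γ * Q + 2 ^ γ * f) := by
      unfold cP
      split_ifs with hb
      · have h1 : max 0 ((M : ℤ) * (2 * bK) - 2 ^ γ * (Q - f : ℕ)) ≤ 0 := by
          apply max_le le_rfl
          rw [hb]
          have : (0 : ℤ) ≤ 2 ^ γ * (Q - f : ℕ) := by positivity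
          push_cast
          linarith
        have := mul_le_mul_of_nonneg_left h1 (by positivity : (0 : ℤ) ≤ rs σK * c)
        linarith
      · apply mul_le_mul_of_nonneg_left _ (by positivity)
        apply max_le_max_left
        have h2 : (Q : ℤ) - f ≤ (Q - f : ℕ) := by omega
        have h3 := mul_le_mul_of_nonneg_left h2 hγ0
        linarith
    have pW : (rs σW : ℤ) * c * max 0 ((M : ℤ) * (2 * bW) - 2 ^ γ * (2 * Q - (P + f) : ℕ)) ≤
        cP (rs σW) c bW * max 0 ((M : ℤ) * (2 * bW) - 2 ^ γ * (2 * Q - P) + 2 ^ γ * f) := by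
      unfold cP
      split_ifs with hb
      · have h1 : max 0 ((M : ℤ) * (2 * bW) - 2 ^ γ * (2 * Q - (P + f) : ℕ)) ≤ 0 := by
          apply max_le le_rfl
          rw [hb]
          have : (0 : ℤ) ≤ 2 ^ γ * (2 * Q - (P + f) : ℕ) := by positivity
          push_cast
          linarith
        have := mul_le_mul_of_nonneg_left h1 (by positivity : (0 : ℤ) ≤ rs σW * c)
        linarith
      · apply mul_le_mul_of_nonneg_left _ (by positivity)
        apply max_le_max_left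
        have h2 : 2 * (Q : ℤ) - P - f ≤ (2 * Q - (P + f) : ℕ) := by omega
        have h3 := mul_le_mul_of_nonneg_left h2 hγ0
        linarith
    have j1 : (M : ℤ) * x ≤ 2 ^ γ * f := by exact_mod_cast hj1
    have j2 : (2 : ℤ) ^ γ * f ≤ M * y := by exact_mod_cast hj2
    have key := conc_nonneg (A := 2 * c * (2 ^ γ * dg P Q) +
        (M * C σK iK bK + (C σK (iK + 1) bK - C σK iK bK) * ((2 ^ γ * P : ℕ) - (M : ℤ) * iK)) +
        (M * C σW iW bW + (C σW (iW + 1) bW - C σW iW bW) * ((2 ^ γ * Q : ℕ) - (M : ℤ) * iW)) +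
        ε * (2 * r * c * (M * (ρ * β) - (2 ^ γ * Q : ℕ))) -
        (M * (ρ * T i β) + (T (i + 1) β - T i β) *
          (((2 ^ γ * P : ℕ) : ℤ) + (2 ^ γ * Q : ℕ) - M * (ρ * i))))
      (B := 2 * c) (a1 := (M : ℤ) * (2 * bK) - 2 ^ γ * Q)
      (a2 := (M : ℤ) * (2 * bW) - 2 ^ γ * (2 * Q - P))
      (cP_nonneg (rs σK) c bK) (cP_nonneg (rs σW) c bW) j1 j2
      (by
        have z1 : (M : ℤ) * (2 * bK) - 2 ^ γ * Q + M * x =
          M * (2 * bK + x) - (2 ^ γ * Q : ℕ) := by push_cast; ring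
        have z2 : (M : ℤ) * (2 * bW) - 2 ^ γ * (2 * Q - P) + M * x =
          M * (2 * bW + x) - (2 * (2 ^ γ * Q : ℕ) - (2 ^ γ * P : ℕ)) := by push_cast; ring
        rw [z1, z2]
        have z3 : 2 * (c : ℤ) * (M * x) = 2 * c * x * M := by ring
        rw [z3]
        linarith)
      (by
        have z1 : (M : ℤ) * (2 * bK) - 2 ^ γ * Q + M * y =
          M * (2 * bK + y) - (2 ^ γ * Q : ℕ) := by push_cast; ring
        have z2 : (M : ℤ) * (2 * bW) - 2 ^ γ * (2 * Q - P) + M * y =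
          M * (2 * bW + y) - (2 * (2 ^ γ * Q : ℕ) - (2 ^ γ * P : ℕ)) := by
            push_cast; ring
        rw [z1, z2]
        have z3 : 2 * (c : ℤ) * (M * y) = 2 * c * y * M := by
          ring
        rw [z3]
        linarith)
    push_cast at key bK' bW' pf ⊢
    linarith
  · -- many unmatched points
    intro x εZ hεZ hZ hfJ
    have k1 := stepJ_fine hZ k (2 ^ γ * P) (2 ^ γ * Q) (by rw [← hM]; exact hK1)
      (by rw [← hM]; exact hK2) (by rw [← hM]; exact hW1) (by rw [← hM]; exact hW2)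
      (by rw [← hM]; exact hX1) (by rw [← hM]; exact hX2)
    have pf := pF εZ hεZ
    rw [dg_pow_mul, ← hMz] at k1
    generalize (iK + iW + cy) / ρ = i at k1 ⊢
    have hfJ' : (M : ℤ) * x ≤ 2 ^ γ * f := by exact_mod_cast hfJ
    have h1 := mul_le_mul_of_nonneg_left hfJ' (by positivity : (0 : ℤ) ≤ 2 * c)
    have h2 := mul_nonneg (by positivity : (0 : ℤ) ≤ c * 2 ^ γ) hLK
    have h3 := mul_nonneg (by positivity : (0 : ℤ) ≤ c * 2 ^ γ) hLW
    have hcP : cP 0 c 0 = 0 := by simp [cP]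
    simp only [ZT, hcP, sub_self, zero_mul, mul_zero, add_zero, sub_zero] at k1
    push_cast at k1 pf ⊢
    linarith

/-- the conditions on the arrays (finite volume) -/
structure TabJ (γ c : ℕ) (rs : ℕ → ℕ) (T : ℕ → ℕ → ℕ → ℤ) : Prop where
  zero : ∀ σ β, T σ 0 β ≤ 2 * rs σ * c * β
  full : ∀ σ, ∀ β : ℕ, T σ (2 ^ γ) β ≤ rs σ * c * max 0 (2 * (β : ℤ) - 2 ^ γ)
  step : ∀ σ iK iW cy β, iK < 2 ^ γ → iW ≤ iK → cy ≤ 1 →
    CovJ 2 c (rs σ) (T σ) rs T iK iW cy β 0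

/-- the lower bound of the loss, at all scales, finite volume -/
theorem TabJ.bound {γ c : ℕ} {rs : ℕ → ℕ} {T : ℕ → ℕ → ℕ → ℤ} (h : TabJ γ c rs T) (N : ℕ) :
    ∀ (s : Finset α) (F : Finset (Finset α)), s.card = N → Sub s F → ∀ U, Hf s F U →
      U ≤ F.card → ∀ σ β, ev (fun i => T σ i β) (2 ^ N) (2 ^ γ * F.card) ≤
        c * 2 ^ γ * L2 s F + rs σ * c * max 0 (((2 ^ N : ℕ) : ℤ) * (2 * β) - 2 ^ γ * U) := by
  induction N with
  | zero =>
    intro s F hs hF U hU h2U σ β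
    have h1 := hF.card_le
    rw [hs, pow_zero] at h1
    have hL := L2_nonneg hF
    have hL' : 0 ≤ (c : ℤ) * 2 ^ γ * L2 s F := by positivity
    have h2 : F.card = 0 ∨ F.card = 1 := by omega
    rcases h2 with h2 | h2
    · have hU0 : U = 0 := by omega
      have hmx : (rs σ : ℤ) * c * (2 * β) ≤
          rs σ * c * max 0 (((2 ^ 0 : ℕ) : ℤ) * (2 * β) - 2 ^ γ * U) := by
        apply mul_le_mul_of_nonneg_left _ (by positivity)
        rw [hU0]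
        simp
      rw [h2]
      have := h.zero σ β
      unfold ev
      simp only [pow_zero, Nat.mul_zero, Nat.zero_div, Nat.zero_mod] at hmx ⊢
      push_cast at hmx ⊢
      linarith
    · have hmx : (rs σ : ℤ) * c * max 0 (2 * (β : ℤ) - 2 ^ γ) ≤
          rs σ * c * max 0 (((2 ^ 0 : ℕ) : ℤ) * (2 * β) - 2 ^ γ * U) := by
        apply mul_le_mul_of_nonneg_left _ (by positivity)
        apply max_le_max_left
        have hU1 : (U : ℤ) ≤ 1 := by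
          have : U ≤ 1 := by omega
          exact_mod_cast this
        have : (2 : ℤ) ^ γ * U ≤ 2 ^ γ * 1 := mul_le_mul_of_nonneg_left hU1 (by positivity)
        rw [pow_zero]
        push_cast
        linarith
      rw [h2]
      have := h.full σ β
      unfold ev
      simp only [pow_zero, Nat.mul_one, Nat.div_one, Nat.mod_one] at hmx ⊢
      push_cast at hmx ⊢
      linarith
  | succ N ih =>
    intro s F hs hF U hU h2U σ β
    have hne : s.Nonempty := by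
      rw [← card_pos, hs]
      exact Nat.succ_pos N
    obtain ⟨a, ha, b, hQ⟩ := exists_min_dir hne F
    have hsN : (s.erase a).card = N := by rw [card_erase_of_mem ha, hs]; rfl
    have hQP : (half a (!b) F).card ≤ (half a b F).card := hQ a ha b
    have hPN : (half a b F).card ≤ 2 ^ N := by rw [← hsN]; exact (hF.half a b).card_le
    obtain ⟨iK, hiK, hK1, hK2⟩ := exists_cell (γ := γ) hPN
    obtain ⟨iW, hiW, hW1, hW2, hWK⟩ : ∃ iW, iW < 2 ^ γ ∧ 2 ^ N * iW ≤ 2 ^ γ * (half a (!b) F).card ∧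
        2 ^ γ * (half a (!b) F).card ≤ 2 ^ N * (iW + 1) ∧ iW ≤ iK := by
      obtain ⟨iW, h1, h2, h3⟩ := exists_cell (γ := γ) (hQP.trans hPN)
      rcases le_or_gt iW iK with h4 | h4
      · exact ⟨iW, h1, h2, h3, h4⟩
      · refine ⟨iK, hiK, ?_, ?_, le_rfl⟩
        · exact (Nat.mul_le_mul_left _ h4.le).trans h2
        · exact (Nat.mul_le_mul_left _ hQP).trans hK2
    obtain ⟨cy, hcy, hX1, hX2⟩ := exists_carry hK1 hK2 hW1 hW2
    rw [← Nat.mul_add, card_half_add' a b F] at hX1 hX2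
    have hpow : 2 ^ (N + 1) = 2 * 2 ^ N := by ring
    rw [hpow]
    refine stepJ_family ha hF hQP rfl (by norm_num) (hU a ha (!b)) hK1 hK2 hW1 hW2 hX1 hX2
      (h.step σ iK iW cy β hiK hWK hcy) ?_ ?_
    · intro σ' β'
      refine ih (s.erase a) _ hsN (hF.half a b) _ ?_ (by omega) σ' β'
      intro c' hc' d
      have := hf_K (b := b) hQ hc' d
      omega
    · intro σ' β'
      refine ih (s.erase a) _ hsN (hF.half a (!b)) _ ?_ (by omega) σ' β'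
      intro c' hc' d
      have := hf_W (b := b) hQ hc' d
      omega

end Pool.Agent.EdgeIso.Cell
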