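import Pool.Agent.Lib.MP_48c8f3_co.Bas
import Pool.Agent.Lib.MP_48c8f3_co.CellJ
import Pool.Agent.Lib.MP_48c8f3_co.CellC

set_option autoImplicit false

/-!
MP_48c8f3_co, all scales certificates, part K: a checker for the step condition `CovJ`, evaluated by
the kernel.  The choices of the intervals and of the arrays are read from a packed number (hints).
-/

namespace Pool.Agent.EdgeIso.Cell

open Pool.Agent.EdgeIso.Frame

theorem and_rec {a b : Bool} : (Bool.rec (motive := fun _ => Bool) false (b)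
      (a)) = true ↔ a = true ∧ b = true := by
  cases a <;> simp

theorem imp_rec {a b : Bool} : (Bool.rec (motive := fun _ => Bool) true (b)
      (a)) = true ↔ (a = true → b = true) := by
  cases a <;> simp

/-- bounded universal quantifier -/
noncomputable def allR (f : ℕ → Bool) (n : ℕ) : Bool :=
  Nat.rec (motive := fun _ => Bool) true (fun n ih => Bool.rec (motive := fun _ => Bool) false (ih)
      (f n)) n

theorem allR_iff {f : ℕ → Bool} {n : ℕ} : allR f n = true ↔ ∀ i < n, f i = true := by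
  induction n with
  | zero => simp [allR]
  | succ n ih =>
    have h1 : allR f (n + 1) = (Bool.rec (motive := fun _ => Bool) false (allR f n)
      (f n)) := rfl
    rw [h1, and_rec, ih]
    constructor
    · rintro ⟨h1, h2⟩ i hi
      rcases Nat.lt_succ_iff_lt_or_eq.mp hi with h | h
      · exact h2 i h
      · rw [h]; exact h1
    · intro h
      exact ⟨h n (Nat.lt_succ_self n), fun i hi => h i (Nat.lt_succ_of_lt hi)⟩

/-- evaluate the argument first -/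
noncomputable def fz (f : ℕ → Bool) (n : ℕ) : Bool :=
  Nat.rec (motive := fun _ => Bool) (f 0) (fun m _ => f (Nat.succ m)) n

theorem fz_eq (f : ℕ → Bool) (n : ℕ) : fz f n = f n := by
  cases n <;> rfl

/-- offset, such that the differences are natural numbers -/
def off : ℕ := 1048576

/-- one corner -/
noncomputable def cn (A rK rW X q Y Q E k w : ℕ) : Bool :=
  Nat.ble (Nat.add A (Nat.add (Nat.mul rK (Nat.sub X q)) (Nat.mul rW (Nat.sub Y Q))))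
    (Nat.add E (Nat.add k w))

/-- all corners -/
noncomputable def cor4 (iK iW c2 : ℕ) (z0 z1 : Bool) (A0 A1 A2 A3 rK rW bK bW φ k0 k1 w0 w1 : ℕ) :
    Bool :=
  (fun X Y E Q => Bool.rec (motive := fun _ => Bool) false (Bool.rec (motive := fun _ => Bool) false (Bool.rec (motive := fun _ => Bool) false ((Bool.rec (motive := fun _ => Bool) true (cn A3 rK rW X (Nat.succ iW) (Nat.succ Y) (Nat.add Q 2) E k1 w1)
      (z1)))
      ((Bool.rec (motive := fun _ => Bool) true (cn A0 rK rW X iW Y Q E k0 w0)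
      (z0))))
      (cn A2 rK rW X (Nat.succ iW) Y (Nat.add Q 2) E k0 w1))
      (cn A1 rK rW X iW (Nat.succ Y) Q E k1 w0))
  (Nat.add (Nat.mul 2 bK) φ) (Nat.add (Nat.add (Nat.mul 2 bW) φ) iK) (Nat.add off (Nat.mul c2 φ))
  (Nat.mul 2 iW)

/-- one interval -/
noncomputable def intK (c2 : ℕ) (rc : ℕ → ℕ) (C : ℕ → ℕ → ℕ → ℕ) (iK iW : ℕ) (z0 z1 : Bool)
    (A0 A1 A2 A3 x y σK bK σW bW : ℕ) : Bool :=
  (fun k0 k1 w0 w1 rK rW => Bool.rec (motive := fun _ => Bool) false (cor4 iK iW c2 z0 z1 A0 A1 A2 A3 rK rW bK bW y k0 k1 w0 w1)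
      (cor4 iK iW c2 z0 z1 A0 A1 A2 A3 rK rW bK bW x k0 k1 w0 w1))
  (C σK iK bK) (C σK (Nat.succ iK) bK) (C σW iW bW) (C σW (Nat.succ iW) bW)
  (Nat.rec (motive := fun _ => ℕ) 0 (fun _ _ => rc σK) bK)
  (Nat.rec (motive := fun _ => ℕ) 0 (fun _ _ => rc σW) bW)

/-- the tables are not needed -/
noncomputable def zer (z0 z1 : Bool) (A0 A1 A2 A3 E : ℕ) : Bool :=
  Bool.rec (motive := fun _ => Bool) false (Bool.rec (motive := fun _ => Bool) false (Bool.rec (motive := fun _ => Bool) false ((Bool.rec (motive := fun _ => Bool) true (Nat.ble A3 E)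
      (z1)))
      ((Bool.rec (motive := fun _ => Bool) true (Nat.ble A0 E)
      (z0))))
      (Nat.ble A2 E))
      (Nat.ble A1 E)

/-- the intervals from `x` on, with hints `h` -/
noncomputable def runK (c2 : ℕ) (rc : ℕ → ℕ) (C : ℕ → ℕ → ℕ → ℕ) (iK iW : ℕ) (z0 z1 : Bool)
    (A0 A1 A2 A3 : ℕ) (k : ℕ → Bool) (fuel : ℕ) : ℕ → ℕ → Bool :=
  Nat.rec (motive := fun _ => ℕ → ℕ → Bool) (fun _ _ => false)
    (fun _ ih x h => Bool.rec (motive := fun _ => Bool)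
      ((fun y => Bool.rec (motive := fun _ => Bool) false (ih y (Nat.shiftRight h 32))
      (intK c2 rc C iK iW z0 z1 A0 A1 A2 A3 x y
        (Nat.land (Nat.shiftRight h 16) 15) (Nat.land (Nat.shiftRight h 8) 255)
        (Nat.land (Nat.shiftRight h 28) 15) (Nat.land (Nat.shiftRight h 20) 255))) (Nat.add x (Nat.land h 255)))
      (k h) (zer z0 z1 A0 A1 A2 A3 (Nat.add off (Nat.mul c2 x)))) fuel

/-- the corner inequality with left side `A` -/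
def CorA (c rK rW : ℕ) (TK TW : ℕ → ℕ → ℤ) (A : ℤ) (p q bK bW φ : ℕ) : Prop :=
  A + cP rK c bK * max 0 (2 * (bK : ℤ) + φ - q) +
    cP rW c bW * max 0 (2 * (bW : ℤ) + φ - (2 * (q : ℤ) - p)) ≤
    2 * c * φ + TK p bK + TW q bW

/-- cover by intervals, for given left sides -/
inductive CovA (c : ℕ) (rs : ℕ → ℕ) (C : ℕ → ℕ → ℕ → ℤ) (P : ℕ → ℕ → Prop) (A : ℕ → ℕ → ℤ) :
    ℕ → Prop
  | last (x : ℕ) (h : ∀ p q, P p q → A p q ≤ 2 * c * x) : CovA c rs C P A x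
  | next (x y σK bK σW bW : ℕ)
      (h1 : ∀ p q, P p q → CorA c (rs σK) (rs σW) (C σK) (C σW) (A p q) p q bK bW x)
      (h2 : ∀ p q, P p q → CorA c (rs σK) (rs σW) (C σK) (C σW) (A p q) p q bK bW y)
      (h : CovA c rs C P A y) : CovA c rs C P A x

theorem CovA.mono {c : ℕ} {rs : ℕ → ℕ} {C : ℕ → ℕ → ℕ → ℤ} {P P' : ℕ → ℕ → Prop}
    {A : ℕ → ℕ → ℤ} {x : ℕ} (h : CovA c rs C P A x) (hP : ∀ p q, P' p q → P p q) :
    CovA c rs C P' A x := by
  induction h with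
  | last x h => exact .last x fun p q hp => h p q (hP p q hp)
  | next x y σK bK σW bW h1 h2 _ ih =>
    exact .next x y σK bK σW bW (fun p q hp => h1 p q (hP p q hp))
      (fun p q hp => h2 p q (hP p q hp)) ih

/-- the corners of the cell `iK, iW` with carry `cy` -/
def Cr (iK iW cy p q : ℕ) : Prop :=
  iK ≤ p ∧ p ≤ iK + 1 ∧ iW ≤ q ∧ q ≤ iW + 1 ∧ iK + iW + cy ≤ p + q ∧ p + q ≤ iK + iW + cy + 1

theorem covJ_of_covA {ρ c r : ℕ} {T : ℕ → ℕ → ℤ} {rs : ℕ → ℕ} {C : ℕ → ℕ → ℕ → ℤ}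
    {iK iW cy β x : ℕ} {A : ℕ → ℕ → ℤ} (ε : ℤ) (hε : ε = 0 ∨ ε = 1)
    (hA : ∀ p q, Cr iK iW cy p q →
      ρ * T ((iK + iW + cy) / ρ) β + (T ((iK + iW + cy) / ρ + 1) β - T ((iK + iW + cy) / ρ) β) *
        ((p : ℤ) + q - ρ * ((iK + iW + cy) / ρ : ℕ)) ≤
        A p q + 2 * c * dg p q + ε * (2 * r * c * (ρ * (β : ℤ) - q)))
    (h : CovA c rs C (Cr iK iW cy) A x) : CovJ ρ c r T rs C iK iW cy β x := by
  induction h with
  | last x h =>
    refine .last x ε hε fun p q a1 a2 a3 a4 a5 a6 => ?_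
    have h1 := hA p q ⟨a1, a2, a3, a4, a5, a6⟩
    have h2 := h p q ⟨a1, a2, a3, a4, a5, a6⟩
    have hcP : cP 0 c 0 = 0 := by simp [cP]
    rw [hcP]
    simp only [ZT, zero_mul, sub_zero, add_zero]
    linarith
  | next x y σK bK σW bW h1 h2 _ ih =>
    refine .next x y σK bK σW bW ε hε (fun p q a1 a2 a3 a4 a5 a6 => ?_)
      (fun p q a1 a2 a3 a4 a5 a6 => ?_) ih
    · have g1 := hA p q ⟨a1, a2, a3, a4, a5, a6⟩
      have g2 := h1 p q ⟨a1, a2, a3, a4, a5, a6⟩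
      unfold CorA at g2
      linarith
    · have g1 := hA p q ⟨a1, a2, a3, a4, a5, a6⟩
      have g2 := h2 p q ⟨a1, a2, a3, a4, a5, a6⟩
      unfold CorA at g2
      linarith

/-- the corners in use -/
def PK (iK iW : ℕ) (z0 z1 : Bool) (p q : ℕ) : Prop :=
  (p = iK + 1 ∧ q = iW) ∨ (p = iK ∧ q = iW + 1) ∨ (z0 = true ∧ p = iK ∧ q = iW) ∨
    (z1 = true ∧ p = iK + 1 ∧ q = iW + 1)

/-- the left sides -/
def AK (iK iW A0 A1 A2 A3 : ℕ) (p q : ℕ) : ℤ :=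
  ((if p = iK then (if q = iW then A0 else A2) else (if q = iW then A1 else A3) : ℕ) : ℤ) - off

theorem cn_sound {c rK rW bK bW φ p q A k w : ℕ} {X Y Q E rcK rcW : ℕ}
    (hX : X = 2 * bK + φ) (hY : Y = 2 * bW + φ + p) (hQ : Q = 2 * q) (hE : E = off + 2 * c * φ)
    (hrK : (rcK : ℤ) = cP rK c bK) (hrW : (rcW : ℤ) = cP rW c bW)
    (h : cn A rcK rcW X q Y Q E k w = true) (TK TW : ℕ → ℕ → ℤ) (hk : TK p bK = k)
    (hw : TW q bW = w) : CorA c rK rW TK TW ((A : ℤ) - off) p q bK bW φ := by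
  have h' : A + (rcK * (X - q) + rcW * (Y - Q)) ≤ E + (k + w) := Nat.le_of_ble_eq_true h
  have h3 := Int.ofNat_le.mpr h'
  have e3 : ((X - q : ℕ) : ℤ) = max 0 (2 * (bK : ℤ) + φ - q) := by omega
  have e4 : ((Y - Q : ℕ) : ℤ) = max 0 (2 * (bW : ℤ) + φ - (2 * (q : ℤ) - p)) := by omega
  unfold CorA
  rw [hk, hw, ← hrK, ← hrW, ← e3, ← e4, ← add_assoc] at *
  rw [hE] at h3
  push_cast at h3 ⊢
  linarith

theorem cor4_sound {c rK rW bK bW φ iK iW A0 A1 A2 A3 k0 k1 w0 w1 rcK rcW : ℕ} {z0 z1 : Bool}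
    (hrK : (rcK : ℤ) = cP rK c bK) (hrW : (rcW : ℤ) = cP rW c bW)
    (h : cor4 iK iW (2 * c) z0 z1 A0 A1 A2 A3 rcK rcW bK bW φ k0 k1 w0 w1 = true)
    (TK TW : ℕ → ℕ → ℤ) (hk0 : TK iK bK = k0) (hk1 : TK (iK + 1) bK = k1)
    (hw0 : TW iW bW = w0) (hw1 : TW (iW + 1) bW = w1) (p q : ℕ) (hP : PK iK iW z0 z1 p q) :
    CorA c rK rW TK TW (AK iK iW A0 A1 A2 A3 p q) p q bK bW φ := by
  unfold cor4 at h
  simp only [and_rec, imp_rec] at h
  obtain ⟨h1, h2, h0, h3⟩ := h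
  have ne : iK + 1 ≠ iK := by omega
  have ne' : iW + 1 ≠ iW := by omega
  rcases hP with ⟨hp, hq⟩ | ⟨hp, hq⟩ | ⟨hz, hp, hq⟩ | ⟨hz, hp, hq⟩
  · subst hp hq
    unfold AK
    rw [if_neg ne, if_pos rfl]
    exact cn_sound (by rfl) (by simp only [Nat.add_eq, Nat.mul_eq, Nat.succ_eq_add_one]; ring)
      (by rfl) (by rfl) hrK hrW h1 TK TW hk1 hw0
  · subst hp hq
    unfold AK
    rw [if_pos rfl, if_neg ne']
    exact cn_sound (by rfl) (by rfl) (by simp only [Nat.add_eq, Nat.mul_eq, Nat.succ_eq_add_one]; ring)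
      (by rfl) hrK hrW h2 TK TW hk0 hw1
  · subst hp hq
    unfold AK
    rw [if_pos rfl, if_pos rfl]
    exact cn_sound (by rfl) (by rfl) (by rfl) (by rfl) hrK hrW (h0 hz) TK TW hk0 hw0
  · subst hp hq
    unfold AK
    rw [if_neg ne, if_neg ne']
    exact cn_sound (by rfl) (by simp only [Nat.add_eq, Nat.mul_eq, Nat.succ_eq_add_one]; ring)
      (by simp only [Nat.add_eq, Nat.mul_eq, Nat.succ_eq_add_one]; ring) (by rfl) hrK hrW (h3 hz) TK TW hk1 hw1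

theorem rec_cP {c b : ℕ} {rs rc : ℕ → ℕ} (hrc : ∀ σ, rc σ = rs σ * c) (σ : ℕ) :
    ((Nat.rec (motive := fun _ => ℕ) 0 (fun _ _ => rc σ) b : ℕ) : ℤ) = cP (rs σ) c b := by
  cases b with
  | zero => simp [cP]
  | succ b =>
    unfold cP
    rw [if_neg (Nat.succ_ne_zero b)]
    show ((rc σ : ℕ) : ℤ) = _
    rw [hrc]
    push_cast
    rfl

theorem intK_sound {c : ℕ} {rs rc : ℕ → ℕ} (hrc : ∀ σ, rc σ = rs σ * c) {C : ℕ → ℕ → ℕ → ℕ}
    {iK iW A0 A1 A2 A3 x y σK bK σW bW : ℕ} {z0 z1 : Bool}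
    (h : intK (2 * c) rc C iK iW z0 z1 A0 A1 A2 A3 x y σK bK σW bW = true) :
    (∀ p q, PK iK iW z0 z1 p q → CorA c (rs σK) (rs σW) (fun i β => (C σK i β : ℤ))
      (fun i β => (C σW i β : ℤ)) (AK iK iW A0 A1 A2 A3 p q) p q bK bW x) ∧
    (∀ p q, PK iK iW z0 z1 p q → CorA c (rs σK) (rs σW) (fun i β => (C σK i β : ℤ))
      (fun i β => (C σW i β : ℤ)) (AK iK iW A0 A1 A2 A3 p q) p q bK bW y) := by
  unfold intK at h
  simp only [and_rec] at h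
  exact ⟨fun p q hP => cor4_sound (rec_cP hrc σK) (rec_cP hrc σW) h.1 _ _ rfl rfl rfl rfl p q hP,
    fun p q hP => cor4_sound (rec_cP hrc σK) (rec_cP hrc σW) h.2 _ _ rfl rfl rfl rfl p q hP⟩

theorem runK_sound {c : ℕ} {rs rc : ℕ → ℕ} (hrc : ∀ σ, rc σ = rs σ * c) {C : ℕ → ℕ → ℕ → ℕ}
    {iK iW A0 A1 A2 A3 : ℕ} {z0 z1 : Bool} {k : ℕ → Bool} (fuel : ℕ) : ∀ x h,
    runK (2 * c) rc C iK iW z0 z1 A0 A1 A2 A3 k fuel x h = true →
    CovA c rs (fun σ i β => (C σ i β : ℤ)) (PK iK iW z0 z1) (AK iK iW A0 A1 A2 A3) x ∧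
      ∃ h', k h' = true := by
  induction fuel with
  | zero =>
    intro x h hr
    exact absurd hr (by simp [runK])
  | succ n ih =>
    intro x h hr
    have e : runK (2 * c) rc C iK iW z0 z1 A0 A1 A2 A3 k (n + 1) x h =
      Bool.rec (motive := fun _ => Bool)
      ((fun y => Bool.rec (motive := fun _ => Bool) false (runK (2 * c) rc C iK iW z0 z1 A0 A1 A2 A3 k n y (Nat.shiftRight h 32))
      (intK (2 * c) rc C iK iW z0 z1 A0 A1 A2 A3 x y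
        (Nat.land (Nat.shiftRight h 16) 15) (Nat.land (Nat.shiftRight h 8) 255)
        (Nat.land (Nat.shiftRight h 28) 15) (Nat.land (Nat.shiftRight h 20) 255)))
          (Nat.add x (Nat.land h 255)))
      (k h) (zer z0 z1 A0 A1 A2 A3 (Nat.add off (Nat.mul (2 * c) x))) := rfl
    rw [e] at hr
    rcases hz : zer z0 z1 A0 A1 A2 A3 (Nat.add off (Nat.mul (2 * c) x)) with _ | _
    · rw [hz] at hr
      simp only [and_rec] at hr
      obtain ⟨h1, h2⟩ := hr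
      obtain ⟨g1, g2⟩ := intK_sound hrc h1
      obtain ⟨g3, g4⟩ := ih _ _ h2
      exact ⟨.next _ _ _ _ _ _ g1 g2 g3, g4⟩
    · rw [hz] at hr
      refine ⟨.last x ?_, h, hr⟩
      unfold zer at hz
      simp only [and_rec, imp_rec] at hz
      obtain ⟨h1, h2, h0, h3⟩ := hz
      have k1 : A1 ≤ off + 2 * c * x := Nat.le_of_ble_eq_true h1
      have k2 : A2 ≤ off + 2 * c * x := Nat.le_of_ble_eq_true h2
      have kk : ∀ {A : ℕ}, A ≤ off + 2 * c * x → (A : ℤ) - off ≤ 2 * c * x := by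
        intro A hA
        have : (A : ℤ) ≤ ((off + 2 * c * x : ℕ) : ℤ) := by exact_mod_cast hA
        rw [Nat.cast_add] at this
        push_cast at this ⊢
        linarith
      have ne : iK + 1 ≠ iK := by omega
      have ne' : iW + 1 ≠ iW := by omega
      intro p q hP
      rcases hP with ⟨hp, hq⟩ | ⟨hp, hq⟩ | ⟨hz, hp, hq⟩ | ⟨hz, hp, hq⟩
      · subst hp hq
        unfold AK
        rw [if_neg ne, if_pos rfl]
        exact kk k1
      · subst hp hq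
        unfold AK
        rw [if_pos rfl, if_neg ne']
        exact kk k2
      · subst hp hq
        unfold AK
        rw [if_pos rfl, if_pos rfl]
        exact kk (Nat.le_of_ble_eq_true (h0 hz))
      · subst hp hq
        unfold AK
        rw [if_neg ne, if_neg ne']
        exact kk (Nat.le_of_ble_eq_true (h3 hz))

/-- the value of the interpolation at the lattice point `x` -/
def LI (ρ : ℕ) (T : ℕ → ℕ) (x : ℕ) : ℕ := (ρ - x % ρ) * T (x / ρ) + (x % ρ) * T (x / ρ + 1)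

/-- the interpolation formula of `CornJ` -/
theorem li_eq {ρ i x : ℕ} (hρ : 0 < ρ) (T : ℕ → ℕ) (h1 : ρ * i ≤ x) (h2 : x ≤ ρ * (i + 1)) :
    (ρ : ℤ) * T i + ((T (i + 1) : ℤ) - T i) * ((x : ℤ) - ρ * (i : ℕ)) = (LI ρ T x : ℕ) := by
  unfold LI
  rcases h2.lt_or_eq with h3 | h3
  · have e1 : x / ρ = i := by
      apply Nat.div_eq_of_lt_le
      · rw [Nat.mul_comm]; exact h1
      · rw [Nat.mul_comm]; exact h3
    have e2 : x % ρ = x - ρ * i := by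
      have := Nat.div_add_mod x ρ
      rw [e1] at this
      omega
    rw [e1, e2]
    have e3 : ρ - (x - ρ * i) = ρ * (i + 1) - x := by
      have : ρ * (i + 1) = ρ * i + ρ := by ring
      omega
    rw [e3]
    have e4 : ((ρ * (i + 1) - x : ℕ) : ℤ) = ρ * (i + 1) - x := by push_cast [h2]; rfl
    have e5 : ((x - ρ * i : ℕ) : ℤ) = x - ρ * i := by push_cast [h1]; rfl
    rw [Nat.cast_add, Nat.cast_mul, Nat.cast_mul, e4, e5]
    ring
  · have e1 : x / ρ = i + 1 := by rw [h3]; exact Nat.mul_div_cancel_left _ hρ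
    have e2 : x % ρ = 0 := by rw [h3]; exact Nat.mul_mod_right _ _
    rw [e1, e2, h3, Nat.sub_zero]
    push_cast
    ring

/-- the value at a lattice point from three entries -/
theorem li_three {ρ x d : ℕ} (hρ : 0 < ρ) (T : ℕ → ℕ) (hd : d ≤ 2) :
    (ρ - (x % ρ + d)) * T (x / ρ) +
      ((ρ - (ρ - (x % ρ + d)) - ((x % ρ + d) - ρ)) * T (x / ρ + 1) +
      ((x % ρ + d) - ρ) * T (x / ρ + 2)) = LI ρ T (x + d) := by
  have hs : x % ρ < ρ := Nat.mod_lt _ hρ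
  have hx : ρ * (x / ρ) + x % ρ = x := Nat.div_add_mod x ρ
  generalize x / ρ = i at *
  generalize x % ρ = s at *
  subst hx
  unfold LI
  rcases lt_or_ge (s + d) ρ with h1 | h1
  · have e1 : (ρ * i + s + d) / ρ = i := by
      apply Nat.div_eq_of_lt_le
      · rw [Nat.mul_comm]; omega
      · have : (i + 1) * ρ = ρ * i + ρ := by ring
        omega
    have e2 : (ρ * i + s + d) % ρ = s + d := by
      have := Nat.div_add_mod (ρ * i + s + d) ρ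
      rw [e1] at this
      omega
    rw [e1, e2]
    have e3 : ρ - (ρ - (s + d)) - ((s + d) - ρ) = s + d := by omega
    have e4 : (s + d) - ρ = 0 := by omega
    rw [e3, e4]
    ring
  · rcases lt_or_ge (s + d) (2 * ρ) with h2 | h2
    · have e1 : (ρ * i + s + d) / ρ = i + 1 := by
        apply Nat.div_eq_of_lt_le
        · have : (i + 1) * ρ = ρ * i + ρ := by ring
          omega
        · have : (i + 1 + 1) * ρ = ρ * i + 2 * ρ := by ring
          omega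
      have e2 : (ρ * i + s + d) % ρ = s + d - ρ := by
        have := Nat.div_add_mod (ρ * i + s + d) ρ
        rw [e1, Nat.mul_add] at this
        omega
      rw [e1, e2]
      have e3 : ρ - (ρ - (s + d)) - ((s + d) - ρ) = ρ - (s + d - ρ) := by omega
      have e4 : ρ - (s + d) = 0 := by omega
      rw [e3, e4]
      ring
    · have e1 : (ρ * i + s + d) / ρ = i + 2 := by
        apply Nat.div_eq_of_lt_le
        · have : (i + 2) * ρ = ρ * i + 2 * ρ := by ring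
          omega
        · have : (i + 2 + 1) * ρ = ρ * i + 3 * ρ := by ring
          omega
      have e2 : (ρ * i + s + d) % ρ = 0 := by
        have := Nat.div_add_mod (ρ * i + s + d) ρ
        rw [e1, Nat.mul_add] at this
        omega
      rw [e1, e2]
      have e3 : ρ - (ρ - (s + d)) - ((s + d) - ρ) = 0 := by omega
      have e4 : ρ - (s + d) = 0 := by omega
      have e5 : (s + d) - ρ = ρ := by omega
      rw [e3, e4, e5, Nat.sub_zero]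
      ring

/-- three entries, for the kernel; `e = x % ρ + d` -/
noncomputable def l3 (ρ e t0 t1 t2 : ℕ) : ℕ :=
  (fun a b => Nat.add (Nat.mul a t0) (Nat.add (Nat.mul (Nat.sub (Nat.sub ρ a) b) t1) (Nat.mul b t2)))
  (Nat.sub ρ e) (Nat.sub e ρ)

/-- the left side at one corner: `M` is the value of the table, `gp`, `gq`, `gx` the values of `g` -/
noncomputable def aK (c2 M p q gp gq gx : ℕ) : ℕ :=
  Nat.sub (Nat.add M (Nat.mul c2 (Nat.add gp (Nat.add gq (Nat.sub q (Nat.sub q p))))))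
    (Nat.mul c2 gx)

theorem aK_sound {c M p q gp gq gx : ℕ} (h1 : gp = EdgeIso.g p) (h2 : gq = EdgeIso.g q)
    (h3 : gx = EdgeIso.g (p + q)) :
    (M : ℤ) - off ≤ ((aK (2 * c) M p q gp gq gx : ℕ) : ℤ) - off + 2 * c * dg p q := by
  unfold aK
  simp only [Nat.add_eq, Nat.mul_eq, Nat.sub_eq]
  have h4 : q - (q - p) = min p q := by omega
  rw [h4]
  have h5 : M + 2 * c * (gp + (gq + min p q)) ≤
      (M + 2 * c * (gp + (gq + min p q)) - 2 * c * gx) + 2 * c * gx := by omega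
  have h6 : ((M + 2 * c * (gp + (gq + min p q)) : ℕ) : ℤ) ≤
      (((M + 2 * c * (gp + (gq + min p q)) - 2 * c * gx) + 2 * c * gx : ℕ) : ℤ) := by
    exact_mod_cast h5
  rw [Nat.cast_add (M + 2 * c * (gp + (gq + min p q)) - 2 * c * gx)] at h6
  generalize (M + 2 * c * (gp + (gq + min p q)) - 2 * c * gx) = A at *
  unfold dg
  rw [h1, h2, h3] at h6
  push_cast at h6 ⊢
  linarith

/-- the maximum -/
noncomputable def mx (a b : ℕ) : ℕ := Nat.add a (Nat.sub b a)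

theorem mx_le (a b : ℕ) : a ≤ mx a b ∧ b ≤ mx a b := by
  unfold mx
  simp only [Nat.add_eq, Nat.sub_eq]
  omega

/-- one run -/
noncomputable def r4 (c2 : ℕ) (rc : ℕ → ℕ) (C : ℕ → ℕ → ℕ → ℕ)
    (iK iW gp gp' gq gq' gx gx' gx'' : ℕ) (z0 z1 : Bool) (M0 M1 M2 M3 : ℕ) (k : ℕ → Bool)
    (h : ℕ) : Bool :=
  runK c2 rc C iK iW z0 z1 (aK c2 M0 iK iW gp gq gx) (aK c2 M1 (Nat.succ iK) iW gp' gq gx')
    (aK c2 M2 iK (Nat.succ iW) gp gq' gx') (aK c2 M3 (Nat.succ iK) (Nat.succ iW) gp' gq' gx'')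
    k 64 0 h

/-- the left sides before the subtraction of `dg` -/
def MK (iK iW M0 M1 M2 M3 : ℕ) (p q : ℕ) : ℕ :=
  if p = iK then (if q = iW then M0 else M2) else (if q = iW then M1 else M3)

/-- the four corners -/
def P4 (iK iW p q : ℕ) : Prop := iK ≤ p ∧ p ≤ iK + 1 ∧ iW ≤ q ∧ q ≤ iW + 1

theorem r4_sound {c : ℕ} {rs rc : ℕ → ℕ} (hrc : ∀ σ, rc σ = rs σ * c) {C : ℕ → ℕ → ℕ → ℕ}
    {G : ℕ → ℕ} {iK iW : ℕ} (hG : ∀ m, m ≤ iK + iW + 2 → G m = EdgeIso.g m)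
    {z0 z1 : Bool} {M0 M1 M2 M3 : ℕ} {k : ℕ → Bool} {h : ℕ}
    (hr : r4 (2 * c) rc C iK iW (G iK) (G (Nat.succ iK)) (G iW) (G (Nat.succ iW)) (G (iK + iW))
      (G (Nat.succ (iK + iW))) (G (Nat.succ (Nat.succ (iK + iW)))) z0 z1 M0 M1 M2 M3 k h = true) :
    (∃ A : ℕ → ℕ → ℤ, (∀ p q, P4 iK iW p q →
      (MK iK iW M0 M1 M2 M3 p q : ℤ) - off ≤ A p q + 2 * c * dg p q) ∧
      CovA c rs (fun σ i β => (C σ i β : ℤ)) (PK iK iW z0 z1) A 0) ∧ ∃ h', k h' = true := by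
  unfold r4 at hr
  obtain ⟨h1, h2⟩ := runK_sound hrc 64 0 h hr
  refine ⟨⟨_, ?_, h1⟩, h2⟩
  rintro p q ⟨a1, a2, a3, a4⟩
  have ne : iK + 1 ≠ iK := by omega
  have ne' : iW + 1 ≠ iW := by omega
  have hp : p = iK ∨ p = iK + 1 := by omega
  have hq : q = iW ∨ q = iW + 1 := by omega
  unfold MK AK
  rcases hp with hp | hp <;> rcases hq with hq | hq <;> subst hp hq
  · rw [if_pos rfl, if_pos rfl, if_pos rfl, if_pos rfl]
    exact aK_sound (hG _ (by omega)) (hG _ (by omega)) (hG _ (by omega))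
  · rw [if_pos rfl, if_neg ne', if_pos rfl, if_neg ne']
    exact aK_sound (hG _ (by omega)) (hG _ (by omega)) (hG _ (by omega))
  · rw [if_neg ne, if_pos rfl, if_neg ne, if_pos rfl]
    refine aK_sound (hG _ (by omega)) (hG _ (by omega)) ?_
    rw [hG _ (by omega)]
    congr 1
    omega
  · rw [if_neg ne, if_neg ne', if_neg ne, if_neg ne']
    refine aK_sound (hG _ (by omega)) (hG _ (by omega)) ?_
    rw [hG _ (by omega)]
    congr 1
    omega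

theorem cov_of_M {ρ c r : ℕ} (hρ : 0 < ρ) {rs : ℕ → ℕ} {C : ℕ → ℕ → ℕ → ℤ} {iK iW cy β x : ℕ}
    (ε : ℤ) (hε : ε = 0 ∨ ε = 1) {M : ℕ → ℕ → ℕ} {A : ℕ → ℕ → ℤ} {T : ℕ → ℕ → ℕ}
    {z0 z1 : Bool} (hz : cy ≤ 1) (hz0 : cy = 0 → z0 = true) (hz1 : cy = 1 → z1 = true)
    (hMA : ∀ p q, P4 iK iW p q → (M p q : ℤ) - off ≤ A p q + 2 * c * dg p q)
    (hT : ∀ p q, P4 iK iW p q → iK + iW + cy ≤ p + q → p + q ≤ iK + iW + cy + 1 →
      ((LI ρ (fun i => T i β) (p + q) : ℕ) : ℤ) ≤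
        M p q - off + ε * (2 * r * c * (ρ * (β : ℤ) - q)))
    (h : CovA c rs C (PK iK iW z0 z1) A x) :
    CovJ ρ c r (fun i β => (T i β : ℤ)) rs C iK iW cy β x := by
  refine covJ_of_covA ε hε (A := A) ?_ (h.mono ?_)
  · rintro p q ⟨a1, a2, a3, a4, a5, a6⟩
    have hi0 : ρ * ((iK + iW + cy) / ρ) ≤ iK + iW + cy := Nat.mul_div_le _ _
    have hi1 : iK + iW + cy + 1 ≤ ρ * ((iK + iW + cy) / ρ + 1) := Nat.lt_mul_div_succ _ hρ
    have h1 := li_eq hρ (fun i => T i β) (i := (iK + iW + cy) / ρ) (x := p + q) (by omega)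
      (by omega)
    have h2 := hMA p q ⟨a1, a2, a3, a4⟩
    have h3 := hT p q ⟨a1, a2, a3, a4⟩ a5 a6
    push_cast at h1 ⊢
    rw [h1]
    linarith
  · rintro p q ⟨a1, a2, a3, a4, a5, a6⟩
    unfold PK
    have hcy : cy = 0 ∨ cy = 1 := by omega
    rcases hcy with h5 | h5
    · have := hz0 h5
      have h6 : (p = iK ∧ q = iW) ∨ (p = iK + 1 ∧ q = iW) ∨ (p = iK ∧ q = iW + 1) := by omega
      rcases h6 with h6 | h6 | h6
      · exact Or.inr (Or.inr (Or.inl ⟨this, h6⟩))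
      · exact Or.inl h6
      · exact Or.inr (Or.inl h6)
    · have := hz1 h5
      have h6 : (p = iK + 1 ∧ q = iW + 1) ∨ (p = iK + 1 ∧ q = iW) ∨ (p = iK ∧ q = iW + 1) := by
        omega
      rcases h6 with h6 | h6 | h6
      · exact Or.inr (Or.inr (Or.inr ⟨this, h6⟩))
      · exact Or.inl h6
      · exact Or.inr (Or.inl h6)

/-- what a run proves -/
def Gd (c : ℕ) (rs : ℕ → ℕ) (C : ℕ → ℕ → ℕ → ℤ) (iK iW m0 m1 m2 m3 cy : ℕ) : Prop :=
  ∃ (z0 z1 : Bool) (A : ℕ → ℕ → ℤ), (cy = 0 → z0 = true) ∧ (cy = 1 → z1 = true) ∧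
    (∀ p q, P4 iK iW p q →
      (MK iK iW m0 m1 m2 m3 p q : ℤ) - off ≤ A p q + 2 * c * dg p q) ∧
    CovA c rs C (PK iK iW z0 z1) A 0

theorem Gd.mono {c : ℕ} {rs : ℕ → ℕ} {C : ℕ → ℕ → ℕ → ℤ} {iK iW m0 m1 m2 m3 M0 M1 M2 M3 cy : ℕ}
    (h : Gd c rs C iK iW M0 M1 M2 M3 cy) (h0 : m0 ≤ M0) (h1 : m1 ≤ M1) (h2 : m2 ≤ M2)
    (h3 : m3 ≤ M3) : Gd c rs C iK iW m0 m1 m2 m3 cy := by
  obtain ⟨z0, z1, A, a0, a1, a2, a3⟩ := h
  refine ⟨z0, z1, A, a0, a1, fun p q hp => le_trans ?_ (a2 p q hp), a3⟩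
  have : MK iK iW m0 m1 m2 m3 p q ≤ MK iK iW M0 M1 M2 M3 p q := by
    unfold MK
    split_ifs
    · exact h0
    · exact h2
    · exact h1
    · exact h3
  have h5 : (MK iK iW m0 m1 m2 m3 p q : ℤ) ≤ MK iK iW M0 M1 M2 M3 p q := by exact_mod_cast this
  linarith

/-- the modes -/
noncomputable def modes (R : Bool → Bool → ℕ → ℕ → ℕ → ℕ → (ℕ → Bool) → ℕ → Bool) (z0 z1 : Bool)
    (m0 m1 m3 n0 n1 n2 n3 : ℕ) (k : ℕ → Bool) (h : ℕ) : Bool :=
  (fun h' => Nat.rec (motive := fun _ => Bool)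
    (R z0 z1 (mx m0 n0) (mx m1 n1) (mx m1 n2) (mx m3 n3) k h')
    (fun n _ => Nat.rec (motive := fun _ => Bool)
      (R z0 z1 m0 m1 m1 m3 (R z0 z1 n0 n1 n2 n3 k) h')
      (fun _ _ => R z0 false m0 m1 m1 m3 (R false z1 m0 m1 m1 m3
        (R z0 false n0 n1 n2 n3 (R false z1 n0 n1 n2 n3 k))) h') n)
    (Nat.land h 3)) (Nat.shiftRight h 2)

theorem modes_sound {c : ℕ} {rs : ℕ → ℕ} {C : ℕ → ℕ → ℕ → ℤ} {iK iW : ℕ}
    {R : Bool → Bool → ℕ → ℕ → ℕ → ℕ → (ℕ → Bool) → ℕ → Bool}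
    (hR : ∀ z0 z1 M0 M1 M2 M3 k h, R z0 z1 M0 M1 M2 M3 k h = true →
      (∃ A : ℕ → ℕ → ℤ, (∀ p q, P4 iK iW p q →
      (MK iK iW M0 M1 M2 M3 p q : ℤ) - off ≤ A p q + 2 * c * dg p q) ∧
      CovA c rs C (PK iK iW z0 z1) A 0) ∧ ∃ h', k h' = true)
    {z0 z1 : Bool} {m0 m1 m3 n0 n1 n2 n3 : ℕ} {k : ℕ → Bool} {h : ℕ}
    (hm : modes R z0 z1 m0 m1 m3 n0 n1 n2 n3 k h = true) :
    (∀ cy, (cy = 0 → z0 = true) → (cy = 1 → z1 = true) → cy ≤ 1 →
      Gd c rs C iK iW m0 m1 m1 m3 cy ∧ Gd c rs C iK iW n0 n1 n2 n3 cy) ∧ ∃ h', k h' = true := by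
  unfold modes at hm
  simp only at hm
  rcases hd : Nat.land h 3 with _ | n
  · rw [hd] at hm
    obtain ⟨⟨A, h1, h2⟩, h3⟩ := hR _ _ _ _ _ _ _ _ hm
    refine ⟨fun cy c0 c1 _ => ?_, h3⟩
    have hg : Gd c rs C iK iW (mx m0 n0) (mx m1 n1) (mx m1 n2) (mx m3 n3) cy :=
      ⟨z0, z1, A, c0, c1, h1, h2⟩
    exact ⟨hg.mono (mx_le _ _).1 (mx_le _ _).1 (mx_le _ _).1 (mx_le _ _).1,
      hg.mono (mx_le _ _).2 (mx_le _ _).2 (mx_le _ _).2 (mx_le _ _).2⟩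
  · rw [hd] at hm
    rcases n with _ | n
    · obtain ⟨⟨A, h1, h2⟩, h', hm'⟩ := hR _ _ _ _ _ _ _ _ hm
      obtain ⟨⟨A', h1', h2'⟩, h3⟩ := hR _ _ _ _ _ _ _ _ hm'
      exact ⟨fun cy c0 c1 _ => ⟨⟨z0, z1, A, c0, c1, h1, h2⟩, ⟨z0, z1, A', c0, c1, h1', h2'⟩⟩, h3⟩
    · obtain ⟨⟨A1, a1, b1⟩, h1, hm1⟩ := hR _ _ _ _ _ _ _ _ hm
      obtain ⟨⟨A2, a2, b2⟩, h2, hm2⟩ := hR _ _ _ _ _ _ _ _ hm1
      obtain ⟨⟨A3, a3, b3⟩, h3, hm3⟩ := hR _ _ _ _ _ _ _ _ hm2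
      obtain ⟨⟨A4, a4, b4⟩, h4⟩ := hR _ _ _ _ _ _ _ _ hm3
      refine ⟨fun cy c0 c1 hcy => ?_, h4⟩
      have : cy = 0 ∨ cy = 1 := by omega
      rcases this with h5 | h5
      · exact ⟨⟨z0, false, A1, c0, fun h6 => absurd (h5.symm.trans h6) (by norm_num), a1, b1⟩,
          ⟨z0, false, A3, c0, fun h6 => absurd (h5.symm.trans h6) (by norm_num), a3, b3⟩⟩
      · exact ⟨⟨false, z1, A2, fun h6 => absurd (h5.symm.trans h6) (by norm_num), c1, a2, b2⟩,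
          ⟨false, z1, A4, fun h6 => absurd (h5.symm.trans h6) (by norm_num), c1, a4, b4⟩⟩

theorem li_mono {ρ n x D : ℕ} (hρ : 0 < ρ) {T T' : ℕ → ℕ} (h : ∀ i ≤ n, T i ≤ T' i + D)
    (hx : x ≤ ρ * n) : LI ρ T x ≤ LI ρ T' x + ρ * D := by
  have hs : x % ρ < ρ := Nat.mod_lt _ hρ
  have hx' : ρ * (x / ρ) + x % ρ = x := Nat.div_add_mod x ρ
  unfold LI
  generalize x / ρ = i at *
  generalize x % ρ = s at *
  rcases lt_or_ge i n with h1 | h1
  · have h2 := Nat.mul_le_mul_left (ρ - s) (h i h1.le)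
    have h3 := Nat.mul_le_mul_left s (h (i + 1) h1)
    have h4 : (ρ - s) * D + s * D = ρ * D := by
      rw [← Nat.add_mul]
      congr 1
      omega
    nlinarith
  · have h2 : i = n := by
      have h3 : ρ * i ≤ ρ * n := by omega
      exact le_antisymm (Nat.le_of_mul_le_mul_left h3 hρ) h1
    subst h2
    have h3 : s = 0 := by omega
    subst h3
    have h2 := Nat.mul_le_mul_left ρ (h i le_rfl)
    rw [Nat.mul_add] at h2
    simpa using h2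

theorem mk_low {ρ iK iW p q : ℕ} (T : ℕ → ℕ) (hp : P4 iK iW p q) {m0 m1 m3 : ℕ}
    (h0 : off + LI ρ T (iK + iW) ≤ m0) (h1 : off + LI ρ T (iK + iW + 1) ≤ m1)
    (h3 : off + LI ρ T (iK + iW + 2) ≤ m3) : off + LI ρ T (p + q) ≤ MK iK iW m0 m1 m1 m3 p q := by
  obtain ⟨p1, p2, q1, q2⟩ := hp
  have ne : iK + 1 ≠ iK := by omega
  have ne' : iW + 1 ≠ iW := by omega
  have hp : p = iK ∨ p = iK + 1 := by omega
  have hq : q = iW ∨ q = iW + 1 := by omega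
  unfold MK
  rcases hp with hp | hp <;> rcases hq with hq | hq <;> subst hp hq
  · rw [if_pos rfl, if_pos rfl]
    exact h0
  · rw [if_pos rfl, if_neg ne']
    exact h1
  · rw [if_neg ne, if_pos rfl]
    have e : iK + 1 + q = iK + q + 1 := by omega
    rw [e]
    exact h1
  · rw [if_neg ne, if_neg ne']
    have e : iK + 1 + (iW + 1) = iK + iW + 2 := by omega
    rw [e]
    exact h3

theorem mk_up {ρ iK iW p q : ℕ} (T e : ℕ → ℕ) (hp : P4 iK iW p q) {n0 n1 n2 n3 : ℕ}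
    (h0 : off + LI ρ T (iK + iW) ≤ n0 + e iW) (h1 : off + LI ρ T (iK + iW + 1) ≤ n1 + e iW)
    (h2 : off + LI ρ T (iK + iW + 1) ≤ n2 + e (iW + 1))
    (h3 : off + LI ρ T (iK + iW + 2) ≤ n3 + e (iW + 1)) :
    off + LI ρ T (p + q) ≤ MK iK iW n0 n1 n2 n3 p q + e q := by
  obtain ⟨p1, p2, q1, q2⟩ := hp
  have ne : iK + 1 ≠ iK := by omega
  have ne' : iW + 1 ≠ iW := by omega
  have hp : p = iK ∨ p = iK + 1 := by omega
  have hq : q = iW ∨ q = iW + 1 := by omega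
  unfold MK
  rcases hp with hp | hp <;> rcases hq with hq | hq <;> subst hp hq
  · rw [if_pos rfl, if_pos rfl]
    exact h0
  · rw [if_pos rfl, if_neg ne']
    exact h2
  · rw [if_neg ne, if_pos rfl]
    have e : iK + 1 + q = iK + q + 1 := by omega
    rw [e]
    exact h1
  · rw [if_neg ne, if_neg ne']
    have e : iK + 1 + (iW + 1) = iK + iW + 2 := by omega
    rw [e]
    exact h3

/-- the check of one cell, inner part -/
noncomputable def cellI (ρ c2 rp : ℕ) (rc : ℕ → ℕ) (G : ℕ → ℕ) (C : ℕ → ℕ → ℕ → ℕ)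
    (T : ℕ → ℕ → ℕ) (iK iW x0 b0 : ℕ) (z0 z1 : Bool) (k : ℕ → Bool) (h : ℕ) : Bool :=
  fz (fun i => (fun s b1 => (fun t0 t1 t2 u0 u1 u2 e0 e1 =>
    modes (r4 c2 rc C iK iW (G iK) (G (Nat.succ iK)) (G iW) (G (Nat.succ iW)) (G x0)
      (G (Nat.succ x0)) (G (Nat.succ (Nat.succ x0)))) z0 z1
      (Nat.add off (l3 ρ s t0 t1 t2)) (Nat.add off (l3 ρ (Nat.succ s) t0 t1 t2))
      (Nat.add off (l3 ρ (Nat.succ (Nat.succ s)) t0 t1 t2))
      (Nat.sub (Nat.add off (l3 ρ s u0 u1 u2)) e0)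
      (Nat.sub (Nat.add off (l3 ρ (Nat.succ s) u0 u1 u2)) e0)
      (Nat.sub (Nat.add off (l3 ρ (Nat.succ s) u0 u1 u2)) e1)
      (Nat.sub (Nat.add off (l3 ρ (Nat.succ (Nat.succ s)) u0 u1 u2)) e1) k h)
    (T i b0) (T (Nat.succ i) b0) (T (Nat.succ (Nat.succ i)) b0)
    (T i b1) (T (Nat.succ i) b1) (T (Nat.succ (Nat.succ i)) b1)
    (Nat.mul rp (Nat.sub (Nat.mul ρ b1) iW)) (Nat.mul rp (Nat.sub (Nat.mul ρ b1) (Nat.succ iW))))
    (Nat.mod x0 ρ) (Nat.succ b0)) (Nat.div x0 ρ)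

/-- the check of one cell (both carries) -/
noncomputable def cellK (ρ c2 rp : ℕ) (rc : ℕ → ℕ) (G : ℕ → ℕ) (C : ℕ → ℕ → ℕ → ℕ)
    (T : ℕ → ℕ → ℕ) (lo hi iK iW : ℕ) (k : ℕ → Bool) (h : ℕ) : Bool :=
  (fun x0 => (fun z0 z1 => Bool.rec (motive := fun _ => Bool)
    (Bool.rec (motive := fun _ => Bool) (k h)
      (cellI ρ c2 rp rc G C T iK iW x0 (Nat.div iW ρ) z0 z1 k h) z1)
    (cellI ρ c2 rp rc G C T iK iW x0 (Nat.div iW ρ) z0 z1 k h) z0)
    (Bool.rec (motive := fun _ => Bool) false (Nat.ble (Nat.succ x0) hi)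
      (Nat.ble lo x0))
    (Bool.rec (motive := fun _ => Bool) false (Nat.ble (Nat.succ (Nat.succ x0)) hi)
      (Nat.ble lo (Nat.succ x0)))) (Nat.add iK iW)

theorem cellI_sound {ρ c r rp n : ℕ} (hρ : 0 < ρ) {rs rc : ℕ → ℕ} (hrc : ∀ σ, rc σ = rs σ * c)
    (hrp : rp = 2 * r * c) {G : ℕ → ℕ} {C : ℕ → ℕ → ℕ → ℕ} {T : ℕ → ℕ → ℕ} {iK iW : ℕ}
    (hG : ∀ m, m ≤ iK + iW + 2 → G m = EdgeIso.g m)
    (hmono : ∀ i β β', i ≤ n → β ≤ β' → T i β ≤ T i β' ∧ T i β' ≤ T i β + rp * (β' - β))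
    {z0 z1 : Bool} {k : ℕ → Bool} {h : ℕ}
    (hc : cellI ρ (2 * c) rp rc G C T iK iW (iK + iW) (iW / ρ) z0 z1 k h = true) :
    (∀ cy, (cy = 0 → z0 = true) → (cy = 1 → z1 = true) → cy ≤ 1 → iK + iW + cy < ρ * n →
      ∀ β, CovJ ρ c r (fun i β => (T i β : ℤ)) rs (fun σ i β => (C σ i β : ℤ)) iK iW cy β 0) ∧
      ∃ h', k h' = true := by
  unfold cellI at hc
  rw [fz_eq] at hc
  simp only at hc
  obtain ⟨h1, h2⟩ := modes_sound (c := c) (rs := rs) (C := fun σ i β => (C σ i β : ℤ))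
    (iK := iK) (iW := iW) (fun z0 z1 M0 M1 M2 M3 k h hr => r4_sound hrc hG hr) hc
  refine ⟨fun cy c0 c1 hcy hn β => ?_, h2⟩
  obtain ⟨g0, g1⟩ := h1 cy c0 c1 hcy
  have hb : ρ * (iW / ρ) ≤ iW := Nat.mul_div_le _ _
  have hb1 : iW + 1 ≤ ρ * (iW / ρ + 1) := Nat.lt_mul_div_succ _ hρ
  have l3e : ∀ (T : ℕ → ℕ) (d : ℕ), d ≤ 2 →
      l3 ρ ((iK + iW) % ρ + d) (T ((iK + iW) / ρ)) (T ((iK + iW) / ρ + 1))
        (T ((iK + iW) / ρ + 2)) = LI ρ T (iK + iW + d) := fun T d hd => li_three hρ T hd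
  have sub_ge : ∀ {a b e : ℕ}, b = a → off + a ≤ Nat.sub (Nat.add off b) e + e := by
    intro a b e hab
    rw [Nat.sub_eq, Nat.add_eq, hab]
    omega
  have add_ge : ∀ {a b : ℕ}, b = a → off + a ≤ Nat.add off b := by
    intro a b hab
    rw [Nat.add_eq, hab]
  rcases le_or_gt β (iW / ρ) with hβ | hβ
  · obtain ⟨y0, y1, A, a0, a1, a2, a3⟩ := g0
    refine cov_of_M hρ 0 (Or.inl rfl) hcy a0 a1 a2 ?_ a3
    rintro p q ⟨p1, p2, q1, q2⟩ x1 x2
    rw [zero_mul, add_zero]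
    have hm := li_mono (D := 0) (x := p + q) hρ (T := fun i => T i β)
      (T' := fun i => T i (iW / ρ)) (n := n)
      (fun i hi => (hmono i β (iW / ρ) hi hβ).1) (by omega)
    rw [Nat.mul_zero, Nat.add_zero] at hm
    have h5 := Int.ofNat_le.mpr ((Nat.add_le_add_left hm off).trans
      (mk_low (fun i => T i (iW / ρ)) ⟨p1, p2, q1, q2⟩
      (add_ge (l3e (fun i => T i (iW / ρ)) 0 (by norm_num)))
      (add_ge (l3e (fun i => T i (iW / ρ)) 1 (by norm_num)))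
      (add_ge (l3e (fun i => T i (iW / ρ)) 2 (by norm_num)))))
    rw [Nat.cast_add] at h5
    generalize MK iK iW _ _ _ _ p q = mm at h5 ⊢
    linarith
  · obtain ⟨y0, y1, A, a0, a1, a2, a3⟩ := g1
    refine cov_of_M hρ 1 (Or.inr rfl) hcy a0 a1 a2 ?_ a3
    rintro p q ⟨p1, p2, q1, q2⟩ x1 x2
    have hm := li_mono (D := rp * (β - (iW / ρ + 1))) (x := p + q) hρ (T := fun i => T i β)
      (T' := fun i => T i (iW / ρ + 1)) (n := n)
      (fun i hi => (hmono i (iW / ρ + 1) β hi hβ).2) (by omega)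
    have key := mk_up (fun i => T i (iW / ρ + 1)) (fun q => Nat.mul rp
      (Nat.sub (Nat.mul ρ (Nat.succ (iW / ρ))) q)) ⟨p1, p2, q1, q2⟩
      (sub_ge (l3e (fun i => T i (iW / ρ + 1)) 0 (by norm_num)))
      (sub_ge (l3e (fun i => T i (iW / ρ + 1)) 1 (by norm_num)))
      (sub_ge (l3e (fun i => T i (iW / ρ + 1)) 1 (by norm_num)))
      (sub_ge (l3e (fun i => T i (iW / ρ + 1)) 2 (by norm_num)))
    have h5 := Int.ofNat_le.mpr ((Nat.add_le_add_left hm off).trans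
      ((Nat.add_assoc _ _ _).symm.le.trans (Nat.add_le_add_right key _)))
    have hq3 : q ≤ ρ * (iW / ρ + 1) := by omega
    have e4 : ((Nat.sub (Nat.mul ρ (Nat.succ (iW / ρ))) q : ℕ) : ℤ) =
        ρ * ((iW / ρ : ℕ) + 1) - q := by
      rw [Nat.sub_eq, Nat.mul_eq, Nat.succ_eq_add_one, Nat.cast_sub hq3]
      push_cast
      rfl
    have e5 : ((β - (iW / ρ + 1) : ℕ) : ℤ) = (β : ℤ) - ((iW / ρ : ℕ) + 1) := by
      have : iW / ρ + 1 ≤ β := hβ
      rw [Nat.cast_sub this]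
      push_cast
      rfl
    have e6 : ((Nat.mul rp (Nat.sub (Nat.mul ρ (Nat.succ (iW / ρ))) q) : ℕ) : ℤ) =
        rp * (ρ * ((iW / ρ : ℕ) + 1) - q) := by
      rw [← e4]
      exact Nat.cast_mul rp _
    have e7 : 2 * (r : ℤ) * c = rp := by
      rw [hrp]
      push_cast
      ring
    rw [Nat.cast_add off, Nat.cast_add, Nat.cast_add, e6, Nat.cast_mul ρ, Nat.cast_mul rp,
      e5] at h5
    rw [e7]
    generalize MK iK iW _ _ _ _ p q = mm at h5 ⊢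
    push_cast at h5 ⊢
    linarith

theorem cellK_sound {ρ c r rp n : ℕ} (hρ : 0 < ρ) {rs rc : ℕ → ℕ} (hrc : ∀ σ, rc σ = rs σ * c)
    (hrp : rp = 2 * r * c) {G : ℕ → ℕ} {C : ℕ → ℕ → ℕ → ℕ} {T : ℕ → ℕ → ℕ} {lo hi iK iW : ℕ}
    (hG : ∀ m, m ≤ iK + iW + 2 → G m = EdgeIso.g m) (hn : hi ≤ ρ * n)
    (hmono : ∀ i β β', i ≤ n → β ≤ β' → T i β ≤ T i β' ∧ T i β' ≤ T i β + rp * (β' - β))
    {k : ℕ → Bool} {h : ℕ} (hc : cellK ρ (2 * c) rp rc G C T lo hi iK iW k h = true) :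
    (∀ cy, cy ≤ 1 → lo ≤ iK + iW + cy → iK + iW + cy < hi →
      ∀ β, CovJ ρ c r (fun i β => (T i β : ℤ)) rs (fun σ i β => (C σ i β : ℤ)) iK iW cy β 0) ∧
      ∃ h', k h' = true := by
  unfold cellK at hc
  simp only at hc
  have hI : ∀ z0 z1, (z0 = (Bool.rec (motive := fun _ => Bool) false (Nat.ble (Nat.succ (Nat.add iK iW)) hi)
      (Nat.ble lo (Nat.add iK iW)))) →
      (z1 = (Bool.rec (motive := fun _ => Bool) false (Nat.ble (Nat.succ (Nat.succ (Nat.add iK iW))) hi)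
      (Nat.ble lo (Nat.succ (Nat.add iK iW))))) →
      cellI ρ (2 * c) rp rc G C T iK iW (Nat.add iK iW) (Nat.div iW ρ) z0 z1 k h = true →
      (∀ cy, cy ≤ 1 → lo ≤ iK + iW + cy → iK + iW + cy < hi →
      ∀ β, CovJ ρ c r (fun i β => (T i β : ℤ)) rs (fun σ i β => (C σ i β : ℤ)) iK iW cy β 0) ∧
      ∃ h', k h' = true := by
    intro z0 z1 e0 e1 hci
    obtain ⟨g1, g2⟩ := cellI_sound hρ hrc hrp hG hmono hci
    refine ⟨fun cy hcy hlo hhi => g1 cy ?_ ?_ hcy (lt_of_lt_of_le hhi hn), g2⟩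
    · intro h0
      rw [e0, and_rec]
      subst h0
      exact ⟨Nat.ble_eq_true_of_le hlo, Nat.ble_eq_true_of_le hhi⟩
    · intro h0
      rw [e1, and_rec]
      subst h0
      exact ⟨Nat.ble_eq_true_of_le hlo, Nat.ble_eq_true_of_le hhi⟩
  rcases e0 : (Bool.rec (motive := fun _ => Bool) false (Nat.ble (Nat.succ (Nat.add iK iW)) hi)
      (Nat.ble lo (Nat.add iK iW))) with _ | _
  · rcases e1 : (Bool.rec (motive := fun _ => Bool) false (Nat.ble (Nat.succ (Nat.succ (Nat.add iK iW))) hi)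
      (Nat.ble lo (Nat.succ (Nat.add iK iW)))) with _ | _
    · rw [e0, e1] at hc
      refine ⟨fun cy hcy hlo hhi => ?_, h, hc⟩
      exfalso
      have hcy' : cy = 0 ∨ cy = 1 := by omega
      rcases hcy' with h0 | h0
      · subst h0
        have := and_rec.mpr ⟨Nat.ble_eq_true_of_le hlo, Nat.ble_eq_true_of_le hhi⟩
        exact absurd (e0.symm.trans this) (by decide)
      · subst h0
        have := and_rec.mpr ⟨Nat.ble_eq_true_of_le hlo, Nat.ble_eq_true_of_le hhi⟩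
        exact absurd (e1.symm.trans this) (by decide)
    · rw [e0, e1] at hc
      exact hI _ _ e0.symm e1.symm hc
  · rw [e0] at hc
    exact hI _ _ e0.symm rfl hc

/-- the check of one row -/
noncomputable def rowK (ρ c2 rp : ℕ) (rc : ℕ → ℕ) (G : ℕ → ℕ) (C : ℕ → ℕ → ℕ → ℕ)
    (T : ℕ → ℕ → ℕ) (lo hi iK : ℕ) (n : ℕ) : ℕ → Bool :=
  Nat.rec (motive := fun _ => ℕ → Bool) (fun _ => true)
    (fun iW ih h => cellK ρ c2 rp rc G C T lo hi iK iW ih h) n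

theorem rowK_sound {ρ c r rp n : ℕ} (hρ : 0 < ρ) {rs rc : ℕ → ℕ} (hrc : ∀ σ, rc σ = rs σ * c)
    (hrp : rp = 2 * r * c) {G : ℕ → ℕ} {C : ℕ → ℕ → ℕ → ℕ} {T : ℕ → ℕ → ℕ} {lo hi iK : ℕ}
    (hn : hi ≤ ρ * n)
    (hmono : ∀ i β β', i ≤ n → β ≤ β' → T i β ≤ T i β' ∧ T i β' ≤ T i β + rp * (β' - β))
    (m : ℕ) (hG : ∀ j, j ≤ iK + m + 1 → G j = EdgeIso.g j) : ∀ h,
    rowK ρ (2 * c) rp rc G C T lo hi iK m h = true → ∀ iW < m, ∀ cy, cy ≤ 1 →
      lo ≤ iK + iW + cy → iK + iW + cy < hi →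
      ∀ β, CovJ ρ c r (fun i β => (T i β : ℤ)) rs (fun σ i β => (C σ i β : ℤ)) iK iW cy β 0 := by
  induction m with
  | zero => intro h _ iW hiW; omega
  | succ m ih =>
    intro h hr iW hiW
    have e : rowK ρ (2 * c) rp rc G C T lo hi iK (m + 1) h =
      cellK ρ (2 * c) rp rc G C T lo hi iK m (rowK ρ (2 * c) rp rc G C T lo hi iK m) h := rfl
    rw [e] at hr
    obtain ⟨h1, h', h2⟩ := cellK_sound hρ hrc hrp (fun j hj => hG j (by omega)) hn hmono hr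
    rcases Nat.lt_succ_iff_lt_or_eq.mp hiW with h3 | h3
    · exact ih (fun j hj => hG j (by omega)) h' h2 iW h3
    · rw [h3]; exact h1

/-- the element of a list -/
noncomputable def nth (H : List ℕ) : ℕ → ℕ :=
  List.rec (motive := fun _ => ℕ → ℕ) (fun _ => 0)
    (fun h _ ih n => Nat.rec (motive := fun _ => ℕ) h (fun m _ => ih m) n) H

/-- the check of the rows `a, ..., a + n - 1` -/
noncomputable def rowsK (ρ c2 rp : ℕ) (rc : ℕ → ℕ) (G : ℕ → ℕ) (C : ℕ → ℕ → ℕ → ℕ)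
    (T : ℕ → ℕ → ℕ) (lo hi a n : ℕ) (H : List ℕ) : Bool :=
  allR (fun i => fz (fun iK => rowK ρ c2 rp rc G C T lo hi iK (Nat.succ iK) (nth H i))
    (Nat.add a i)) n

theorem rowsK_sound {ρ c r rp n : ℕ} (hρ : 0 < ρ) {rs rc : ℕ → ℕ} (hrc : ∀ σ, rc σ = rs σ * c)
    (hrp : rp = 2 * r * c) {G : ℕ → ℕ} {C : ℕ → ℕ → ℕ → ℕ} {T : ℕ → ℕ → ℕ} {lo hi a m : ℕ}
    (hn : hi ≤ ρ * n)
    (hmono : ∀ i β β', i ≤ n → β ≤ β' → T i β ≤ T i β' ∧ T i β' ≤ T i β + rp * (β' - β))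
    (hG : ∀ j, j ≤ 2 * (a + m) → G j = EdgeIso.g j) {H : List ℕ}
    (h : rowsK ρ (2 * c) rp rc G C T lo hi a m H = true) : ∀ iK iW cy, a ≤ iK → iK < a + m →
      iW ≤ iK → cy ≤ 1 → lo ≤ iK + iW + cy → iK + iW + cy < hi →
      ∀ β, CovJ ρ c r (fun i β => (T i β : ℤ)) rs (fun σ i β => (C σ i β : ℤ)) iK iW cy β 0 := by
  intro iK iW cy h1 h2 h3 h4
  unfold rowsK at h
  rw [allR_iff] at h
  have h5 := h (iK - a) (by omega)
  rw [fz_eq] at h5
  have e : Nat.add a (iK - a) = iK := by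
    show a + (iK - a) = iK
    omega
  rw [e] at h5
  exact rowK_sound hρ hrc hrp hn hmono (iK + 1) (fun j hj => hG j (by omega)) _ h5 iW (by omega)
    cy h4

/-- the monotonicity check, one row -/
noncomputable def monoR (rp : ℕ) (T : ℕ → ℕ → ℕ) (B n : ℕ) : Bool :=
  allR (fun i => allR (fun β => Bool.rec (motive := fun _ => Bool) false (Nat.ble (T i (Nat.succ β)) (Nat.add (T i β) rp))
      (Nat.ble (T i β) (T i (Nat.succ β)))) B) n

theorem monoR_sound {rp : ℕ} {T : ℕ → ℕ → ℕ} {n B : ℕ} (h : monoR rp T B (n + 1) = true)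
    (hB : ∀ i β, B ≤ β → T i β = T i B) :
    ∀ i β β', i ≤ n → β ≤ β' → T i β ≤ T i β' ∧ T i β' ≤ T i β + rp * (β' - β) := by
  unfold monoR at h
  rw [allR_iff] at h
  intro i β β' hi hβ
  have h1 := h i (by omega)
  rw [allR_iff] at h1
  have step : ∀ β, T i β ≤ T i (β + 1) ∧ T i (β + 1) ≤ T i β + rp := by
    intro β
    rcases lt_or_ge β B with h2 | h2
    · have h3 := h1 β h2
      rw [and_rec] at h3
      exact ⟨Nat.le_of_ble_eq_true h3.1, Nat.le_of_ble_eq_true h3.2⟩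
    · rw [hB i β h2, hB i (β + 1) (by omega)]
      omega
  induction β', hβ using Nat.le_induction with
  | base => simp
  | succ k hk ih =>
    have h4 := step k
    have h5 : rp * (k + 1 - β) = rp * (k - β) + rp := by
      have : k + 1 - β = (k - β) + 1 := by omega
      rw [this]; ring
    rw [h5]
    omega

/-- the arrays are valid if all rows pass -/
theorem tabJ_of_step {γ c : ℕ} {rs : ℕ → ℕ} {T : ℕ → ℕ → ℕ → ℕ}
    (h0 : ∀ σ, T σ 0 0 = 0) (hf : ∀ σ β, T σ (2 ^ γ) β = 0)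
    (hmono : ∀ σ i β β', i ≤ 2 ^ γ → β ≤ β' →
      T σ i β ≤ T σ i β' ∧ T σ i β' ≤ T σ i β + 2 * rs σ * c * (β' - β))
    (hs : ∀ σ iK iW cy, iK < 2 ^ γ → iW ≤ iK → cy ≤ 1 → ∀ β,
      CovJ 2 c (rs σ) (fun i β => (T σ i β : ℤ)) rs (fun σ i β => (T σ i β : ℤ)) iK iW cy β 0) :
    TabJ γ c rs (fun σ i β => (T σ i β : ℤ)) := by
  refine ⟨fun σ β => ?_, fun σ β => ?_, fun σ iK iW cy β h1 h2 h3 => hs σ iK iW cy h1 h2 h3 β⟩
  · have h1 := (hmono σ 0 0 β (Nat.zero_le _) (Nat.zero_le _)).2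
    rw [h0] at h1
    have h2 : ((T σ 0 β : ℕ) : ℤ) ≤ ((0 + 2 * rs σ * c * (β - 0) : ℕ) : ℤ) := by exact_mod_cast h1
    push_cast at h2
    simpa using h2
  · rw [hf]
    push_cast
    have := le_max_left (0 : ℤ) (2 * (β : ℤ) - 2 ^ γ)
    positivity

end Pool.Agent.EdgeIso.Cell
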