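import Pool.Agent.Lib.MP_48c8f3_co.Bas
import Pool.Agent.Lib.MP_48c8f3_co.CellF

set_option autoImplicit false

/-!
MP_48c8f3_co, cells, part V: the general cell lemma for two sizes with two concave penalties.
-/

namespace Pool.Agent.EdgeIso.Cell

open Finset Pool.Agent.EdgeIso.Frame

/-- the general functional: defect, constant, two linear terms, two penalties -/
def phiG (D A B C c1 a1 b1 d1 c2 a2 b2 d2 : ℤ) (k : ℕ) (S : ℕ → ℕ) : ℤ :=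
  D * dg (S 1 - S 0) (S 2 - S 1) + A * 2 ^ k + B * ((S 1 : ℤ) - S 0) + C * ((S 2 : ℤ) - S 1) -
    c1 * max 0 (a1 * 2 ^ k + b1 * ((S 1 : ℤ) - S 0) + d1 * ((S 2 : ℤ) - S 1)) -
    c2 * max 0 (a2 * 2 ^ k + b2 * ((S 1 : ℤ) - S 0) + d2 * ((S 2 : ℤ) - S 1))

theorem pen_add (c x y : ℤ) (hc : 0 ≤ c) : c * max 0 (x + y) ≤ c * max 0 x + c * max 0 y := by
  rw [← mul_add]
  apply mul_le_mul_of_nonneg_left _ hc
  apply max_le
  · have := le_max_left 0 x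
    have := le_max_left 0 y
    linarith
  · have := le_max_right 0 x
    have := le_max_right 0 y
    linarith

theorem phiG_SA {D A B C c1 a1 b1 d1 c2 a2 b2 d2 : ℤ} (hD : 0 ≤ D) (hc1 : 0 ≤ c1) (hc2 : 0 ≤ c2) :
    SA (phiG D A B C c1 a1 b1 d1 c2 a2 b2 d2) := by
  intro k S hS
  have h0 := halves_cast S 0
  have h1 := halves_cast S 1
  have h2 := halves_cast S 2
  have hd := mul_le_mul_of_nonneg_left
    (dg_halve (S 0) (S 1) (S 2) (hS (by norm_num)) (hS (by norm_num))) hD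
  have hd' : D * dg (lo S 1 - lo S 0) (lo S 2 - lo S 1) +
      D * dg (hi S 1 - hi S 0) (hi S 2 - hi S 1) ≤ D * dg (S 1 - S 0) (S 2 - S 1) := by
    rw [← mul_add]
    exact hd
  have m1 := pen_add c1
    (a1 * 2 ^ k + b1 * (((lo S 1 : ℕ) : ℤ) - (lo S 0 : ℕ)) + d1 * (((lo S 2 : ℕ) : ℤ) - (lo S 1 : ℕ)))
    (a1 * 2 ^ k + b1 * (((hi S 1 : ℕ) : ℤ) - (hi S 0 : ℕ)) + d1 * (((hi S 2 : ℕ) : ℤ) - (hi S 1 : ℕ)))
    hc1
  have m2 := pen_add c2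
    (a2 * 2 ^ k + b2 * (((lo S 1 : ℕ) : ℤ) - (lo S 0 : ℕ)) + d2 * (((lo S 2 : ℕ) : ℤ) - (lo S 1 : ℕ)))
    (a2 * 2 ^ k + b2 * (((hi S 1 : ℕ) : ℤ) - (hi S 0 : ℕ)) + d2 * (((hi S 2 : ℕ) : ℤ) - (hi S 1 : ℕ)))
    hc2
  have e1 : ∀ a b d : ℤ, a * 2 ^ (k + 1) + b * ((S 1 : ℤ) - S 0) + d * ((S 2 : ℤ) - S 1) =
      (a * 2 ^ k + b * (((lo S 1 : ℕ) : ℤ) - (lo S 0 : ℕ)) +
        d * (((lo S 2 : ℕ) : ℤ) - (lo S 1 : ℕ))) +
      (a * 2 ^ k + b * (((hi S 1 : ℕ) : ℤ) - (hi S 0 : ℕ)) +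
        d * (((hi S 2 : ℕ) : ℤ) - (hi S 1 : ℕ))) := by
    intro a b d
    rw [h0, h1, h2, pow_succ]
    ring
  rw [← e1] at m1 m2
  have e2 : A * 2 ^ (k + 1) + B * ((S 1 : ℤ) - S 0) + C * ((S 2 : ℤ) - S 1) =
      (A * 2 ^ k + B * (((lo S 1 : ℕ) : ℤ) - (lo S 0 : ℕ)) +
        C * (((lo S 2 : ℕ) : ℤ) - (lo S 1 : ℕ))) +
      (A * 2 ^ k + B * (((hi S 1 : ℕ) : ℤ) - (hi S 0 : ℕ)) +
        C * (((hi S 2 : ℕ) : ℤ) - (hi S 1 : ℕ))) := e1 A B C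
  unfold phiG
  linarith

/-- **the general cell lemma** for two sizes: the inequality holds in the fine cell as soon as it holds
at the lattice points of the cell `iK ≤ p ≤ iK + 1`, `iW ≤ q ≤ iW + 1`,
`iK + iW + cy ≤ p + q ≤ iK + iW + cy + 1`. -/
theorem gen_fine {D A B C c1 a1 b1 d1 c2 a2 b2 d2 : ℤ} (hD : 0 ≤ D) (hc1 : 0 ≤ c1) (hc2 : 0 ≤ c2)
    {iK iW cy : ℕ}
    (hcor : ∀ p q : ℕ, iK ≤ p → p ≤ iK + 1 → iW ≤ q → q ≤ iW + 1 → iK + iW + cy ≤ p + q →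
      p + q ≤ iK + iW + cy + 1 →
      0 ≤ D * dg p q + A + B * p + C * q - c1 * max 0 (a1 + b1 * p + d1 * q) -
        c2 * max 0 (a2 + b2 * p + d2 * q))
    (k p q : ℕ) (h1 : 2 ^ k * iK ≤ p) (h2 : p ≤ 2 ^ k * (iK + 1)) (h3 : 2 ^ k * iW ≤ q)
    (h4 : q ≤ 2 ^ k * (iW + 1)) (h5 : 2 ^ k * (iK + iW + cy) ≤ p + q)
    (h6 : p + q ≤ 2 ^ k * (iK + iW + cy + 1)) :
    0 ≤ D * dg p q + A * 2 ^ k + B * p + C * q - c1 * max 0 (a1 * 2 ^ k + b1 * p + d1 * q) -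
        c2 * max 0 (a2 * 2 ^ k + b2 * p + d2 * q) := by
  have key := cell (phiG_SA (A := A) (B := B) (C := C) (a1 := a1) (b1 := b1) (d1 := d1)
    (a2 := a2) (b2 := b2) (d2 := d2) hD hc1 hc2)
    (P := fun k S => (((S 0 : ℤ) + iK * 2 ^ k ≤ S 1 ∧ (S 1 : ℤ) + (-(iK + 1 : ℤ)) * 2 ^ k ≤ S 0) ∧
      ((S 1 : ℤ) + iW * 2 ^ k ≤ S 2 ∧ (S 2 : ℤ) + (-(iW + 1 : ℤ)) * 2 ^ k ≤ S 1)) ∧
      ((S 0 : ℤ) + (iK + iW + cy : ℕ) * 2 ^ k ≤ S 2 ∧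
        (S 2 : ℤ) + (-((iK + iW + cy + 1 : ℕ) : ℤ)) * 2 ^ k ≤ S 0))
    ((((Cl.ge 0 1 _).and (Cl.ge 1 0 _)).and ((Cl.ge 1 2 _).and (Cl.ge 2 1 _))).and
      ((Cl.ge 0 2 _).and (Cl.ge 2 0 _)))
    (by
      intro S hS hP0
      obtain ⟨⟨⟨x1, x2⟩, x3, x4⟩, x5, x6⟩ := hP0
      simp only [pow_zero, mul_one] at x1 x2 x3 x4 x5 x6
      have s01 : S 0 ≤ S 1 := hS (by norm_num)
      have s12 : S 1 ≤ S 2 := hS (by norm_num)
      have hh := hcor (S 1 - S 0) (S 2 - S 1) (by omega) (by omega) (by omega) (by omega)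
        (by omega) (by omega)
      have c1 : ((S 1 - S 0 : ℕ) : ℤ) = S 1 - S 0 := by push_cast [s01]; rfl
      have c2 : ((S 2 - S 1 : ℕ) : ℤ) = S 2 - S 1 := by push_cast [s12]; rfl
      rw [c1, c2] at hh
      unfold phiG
      simp only [pow_zero, mul_one]
      exact hh)
    k (fun j => if j = 0 then 0 else if j = 1 then p else p + q)
    (by
      intro x y hxy
      simp only
      split_ifs <;> omega)
    (by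
      simp only [if_true, one_ne_zero, if_false, OfNat.ofNat_ne_zero, OfNat.ofNat_ne_one]
      have q1 : ((2 ^ k * iK : ℕ) : ℤ) ≤ ((p : ℕ) : ℤ) := by exact_mod_cast h1
      have q2 : ((p : ℕ) : ℤ) ≤ ((2 ^ k * (iK + 1) : ℕ) : ℤ) := by exact_mod_cast h2
      have q3 : ((2 ^ k * iW : ℕ) : ℤ) ≤ ((q : ℕ) : ℤ) := by exact_mod_cast h3
      have q4 : ((q : ℕ) : ℤ) ≤ ((2 ^ k * (iW + 1) : ℕ) : ℤ) := by exact_mod_cast h4
      have q5 : ((2 ^ k * (iK + iW + cy) : ℕ) : ℤ) ≤ ((p + q : ℕ) : ℤ) := by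
        exact_mod_cast h5
      have q6 : ((p + q : ℕ) : ℤ) ≤ ((2 ^ k * (iK + iW + cy + 1) : ℕ) : ℤ) := by
        exact_mod_cast h6
      push_cast at q1 q2 q3 q4 q5 q6 ⊢
      refine ⟨⟨⟨?_, ?_⟩, ?_, ?_⟩, ?_, ?_⟩ <;> linarith)
  simp only [if_true, one_ne_zero, if_false, OfNat.ofNat_ne_zero, OfNat.ofNat_ne_one, phiG,
    Nat.sub_zero, Nat.add_sub_cancel_left] at key
  push_cast at key
  have e1 : (p : ℤ) + q - p = q := by ring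
  have e2 : (p : ℤ) - 0 = p := by ring
  rw [e1, e2] at key
  exact key

end Pool.Agent.EdgeIso.Cell
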