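import Pool.Agent.Lib.MP_48c8f3_co.Bas
import Pool.Agent.Lib.MP_48c8f3_co.CellV

set_option autoImplicit false

/-!
MP_48c8f3_co, cells, part W: the array `B`.  It is a lower bound of the loss of a family `F` if all
directions but one (the direction `a`) have both halves at least `v`, obtained by one step from the
arrays `T` (split in the direction `a`).
-/

namespace Pool.Agent.EdgeIso.Cell

open Finset Pool.Agent.EdgeIso.Frame

variable {α : Type*} [DecidableEq α] {ι : Type*}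

/-- the argument of the penalty of the majority half -/
def argK (κ : Bool) (X q φ : ℤ) : ℤ := if κ then 2 * (X - q) else X - φ

/-- the corner condition for `B` in the cell `iK, iW, cy` with `φ` unmatched points: `κ` selects the
bound `v - f` or `2 (v - q)` for the halves of the majority half -/
def CornB (ρ c rK rW : ℕ) (TK TW B : ℕ → ℕ → ℤ) (κ : Bool) (iK iW cy β bK bW φ : ℕ) : Prop :=
  ∀ p q : ℕ, iK ≤ p → p ≤ iK + 1 → iW ≤ q → q ≤ iW + 1 → iK + iW + cy ≤ p + q →
    p + q ≤ iK + iW + cy + 1 →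
    ρ * B ((iK + iW + cy) / ρ) β + (B ((iK + iW + cy) / ρ + 1) β - B ((iK + iW + cy) / ρ) β) *
        ((p : ℤ) + q - ρ * ((iK + iW + cy) / ρ : ℕ)) ≤
      2 * c * dg p q + 2 * c * φ + TK p bK -
        cP rK c bK * max 0 (2 * (bK : ℤ) - argK κ (ρ * β) q φ) + TW q bW -
        cP rW c bW * max 0 (2 * (bW : ℤ) - ((ρ : ℤ) * β + q - p - φ))

/-- the condition for one interval `[x1, x2]` of numbers of unmatched points -/
def IntB (ρ c rB : ℕ) (R : ι → ℕ) (TK TW : ι → ℕ → ℕ → ℤ) (B : ℕ → ℕ → ℤ)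
    (iK iW cy β x1 x2 : ℕ) : Prop :=
  ∃ (tK tW : ι) (κ : Bool) (bK bW : ℕ),
    (if κ then 2 else 1) * cP (R tK) c bK + cP (R tW) c bW ≤ 2 * rB * c ∧
    CornB ρ c (R tK) (R tW) (TK tK) (TW tW) B κ iK iW cy β bK bW x1 ∧
    CornB ρ c (R tK) (R tW) (TK tK) (TW tW) B κ iK iW cy β bK bW x2

/-- the step condition for `B` -/
def StepB (ρ c rB : ℕ) (R : ι → ℕ) (TK TW : ι → ℕ → ℕ → ℤ) (B : ℕ → ℕ → ℤ)
    (iK iW cy β : ℕ) : Prop :=
  ∃ w J : ℕ, (∀ j < J, IntB ρ c rB R TK TW B iK iW cy β (w * j) (w * (j + 1))) ∧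
    CornB ρ c 0 0 ZT ZT B false iK iW cy β 0 0 (w * J)

/-- the fine inequality for one `φ` -/
theorem cornB_fine {ρ c rK rW : ℕ} {TK TW B : ℕ → ℕ → ℤ} {κ : Bool} {iK iW cy β bK bW φ : ℕ}
    (hcor : CornB ρ c rK rW TK TW B κ iK iW cy β bK bW φ)
    (k p q : ℕ) (h1 : 2 ^ k * iK ≤ p) (h2 : p ≤ 2 ^ k * (iK + 1)) (h3 : 2 ^ k * iW ≤ q)
    (h4 : q ≤ 2 ^ k * (iW + 1)) (h5 : 2 ^ k * (iK + iW + cy) ≤ p + q)
    (h6 : p + q ≤ 2 ^ k * (iK + iW + cy + 1)) :
    2 ^ k * (ρ * B ((iK + iW + cy) / ρ) β) +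
      (B ((iK + iW + cy) / ρ + 1) β - B ((iK + iW + cy) / ρ) β) *
        ((p : ℤ) + q - 2 ^ k * (ρ * ((iK + iW + cy) / ρ : ℕ))) ≤
    2 * c * dg p q + 2 * c * (φ * 2 ^ k) +
      (2 ^ k * TK iK bK + (TK (iK + 1) bK - TK iK bK) * ((p : ℤ) - 2 ^ k * iK)) -
      cP rK c bK * max 0 (2 ^ k * (2 * (bK : ℤ)) - argK κ (2 ^ k * (ρ * β)) q (φ * 2 ^ k)) +
      (2 ^ k * TW iW bW + (TW (iW + 1) bW - TW iW bW) * ((q : ℤ) - 2 ^ k * iW)) -
      cP rW c bW * max 0 (2 ^ k * (2 * (bW : ℤ)) - (2 ^ k * (ρ * β) + q - p - φ * 2 ^ k)) := by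
  unfold CornB at hcor
  generalize (iK + iW + cy) / ρ = i at hcor ⊢
  have hT : ∀ (T : ℕ → ℕ → ℤ) (x z B : ℕ), z ≤ x → x ≤ z + 1 →
      T x B = T z B + (T (z + 1) B - T z B) * ((x : ℤ) - z) := by
    intro T x z B h1 h2
    have : x = z ∨ x = z + 1 := by omega
    rcases this with h3 | h3
    · rw [h3]; ring
    · rw [h3]; push_cast; ring
  cases κ
  · -- the bound `v - f`
    have key := gen_fine (D := 2 * c)
      (A := 2 * c * φ + TK iK bK - (TK (iK + 1) bK - TK iK bK) * iK + TW iW bW -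
        (TW (iW + 1) bW - TW iW bW) * iW - ρ * B i β + (B (i + 1) β - B i β) * (ρ * i))
      (B := (TK (iK + 1) bK - TK iK bK) - (B (i + 1) β - B i β))
      (C := (TW (iW + 1) bW - TW iW bW) - (B (i + 1) β - B i β))
      (c1 := cP rK c bK) (a1 := 2 * bK + φ - ρ * β) (b1 := 0) (d1 := 0)
      (c2 := cP rW c bW) (a2 := 2 * bW + φ - ρ * β) (b2 := 1) (d2 := -1)
      (by positivity) (cP_nonneg _ _ _) (cP_nonneg _ _ _) (iK := iK) (iW := iW) (cy := cy)
      (by
        intro p q g1 g2 g3 g4 g5 g6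
        have hh := hcor p q g1 g2 g3 g4 g5 g6
        rw [hT TK p iK bK g1 g2, hT TW q iW bW g3 g4] at hh
        have z1 : 2 * (bK : ℤ) - argK false (ρ * β) q φ = 2 * bK + φ - ρ * β + 0 * p + 0 * q := by
          simp only [argK, Bool.false_eq_true, if_false]
          ring
        have z2 : 2 * (bW : ℤ) - ((ρ : ℤ) * β + q - p - φ) =
            2 * bW + φ - ρ * β + 1 * p + (-1) * q := by ring
        rw [z1, z2] at hh
        linarith)
      k p q h1 h2 h3 h4 h5 h6
    have z1 : 2 ^ k * (2 * (bK : ℤ)) - argK false (2 ^ k * (ρ * β)) q (φ * 2 ^ k) =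
        (2 * bK + φ - ρ * β) * 2 ^ k + 0 * p + 0 * q := by
      simp only [argK, Bool.false_eq_true, if_false]
      ring
    have z2 : 2 ^ k * (2 * (bW : ℤ)) - (2 ^ k * (ρ * β) + q - p - φ * 2 ^ k) =
        (2 * bW + φ - ρ * β) * 2 ^ k + 1 * p + (-1) * q := by ring
    rw [z1, z2]
    linarith
  · -- the bound `2 (v - q)`
    have key := gen_fine (D := 2 * c)
      (A := 2 * c * φ + TK iK bK - (TK (iK + 1) bK - TK iK bK) * iK + TW iW bW -
        (TW (iW + 1) bW - TW iW bW) * iW - ρ * B i β + (B (i + 1) β - B i β) * (ρ * i))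
      (B := (TK (iK + 1) bK - TK iK bK) - (B (i + 1) β - B i β))
      (C := (TW (iW + 1) bW - TW iW bW) - (B (i + 1) β - B i β))
      (c1 := cP rK c bK) (a1 := 2 * bK - 2 * (ρ * β)) (b1 := 0) (d1 := 2)
      (c2 := cP rW c bW) (a2 := 2 * bW + φ - ρ * β) (b2 := 1) (d2 := -1)
      (by positivity) (cP_nonneg _ _ _) (cP_nonneg _ _ _) (iK := iK) (iW := iW) (cy := cy)
      (by
        intro p q g1 g2 g3 g4 g5 g6
        have hh := hcor p q g1 g2 g3 g4 g5 g6
        rw [hT TK p iK bK g1 g2, hT TW q iW bW g3 g4] at hh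
        have z1 : 2 * (bK : ℤ) - argK true (ρ * β) q φ =
            2 * bK - 2 * (ρ * β) + 0 * p + 2 * q := by
          simp only [argK, if_true]
          ring
        have z2 : 2 * (bW : ℤ) - ((ρ : ℤ) * β + q - p - φ) =
            2 * bW + φ - ρ * β + 1 * p + (-1) * q := by ring
        rw [z1, z2] at hh
        linarith)
      k p q h1 h2 h3 h4 h5 h6
    have z1 : 2 ^ k * (2 * (bK : ℤ)) - argK true (2 ^ k * (ρ * β)) q (φ * 2 ^ k) =
        (2 * bK - 2 * (ρ * β)) * 2 ^ k + 0 * p + 2 * q := by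
      simp only [argK, if_true]
      ring
    have z2 : 2 ^ k * (2 * (bW : ℤ)) - (2 ^ k * (ρ * β) + q - p - φ * 2 ^ k) =
        (2 * bW + φ - ρ * β) * 2 ^ k + 1 * p + (-1) * q := by ring
    rw [z1, z2]
    linarith

/-- the halves of the majority half, first bound -/
theorem hB_K1 {s : Finset α} {a : α} {b : Bool} {F : Finset (Finset α)} {v : ℕ}
    (hv : ∀ e ∈ s.erase a, ∀ d, v ≤ (half e d F).card) :
    Hf (s.erase a) (half a b F) (v - (half a (!b) F \ half a b F).card) := by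
  intro e he d
  have h1 := hv e he d
  have h2 := card_half_half (ne_of_mem_erase he).symm b d F
  have h3 := card_half_le e d (half a b F) (half a (!b) F)
  omega

/-- the halves of the majority half, second bound -/
theorem hB_K2 {s : Finset α} {a : α} {b : Bool} {F : Finset (Finset α)} {v : ℕ}
    (hv : ∀ e ∈ s.erase a, ∀ d, v ≤ (half e d F).card) :
    Hf (s.erase a) (half a b F) (2 * (v - (half a (!b) F).card)) := by
  intro e he d
  have h1 := hv e he d
  have h2 := card_half_half (ne_of_mem_erase he).symm b d F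
  have h3 := card_half_add' e d (half a (!b) F)
  omega

/-- the halves of the minority half -/
theorem hB_W {s : Finset α} {a : α} {b : Bool} {F : Finset (Finset α)} {v : ℕ}
    (hv : ∀ e ∈ s.erase a, ∀ d, v ≤ (half e d F).card) :
    Hf (s.erase a) (half a (!b) F) (v + (half a (!b) F).card -
      ((half a b F).card + (half a (!b) F \ half a b F).card)) := by
  intro e he d
  have h1 := hv e he d
  have h2 := card_half_half (ne_of_mem_erase he).symm b d F
  have h3' := card_half_le e (!d) (half a b F) (half a (!b) F)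
  have h4 := card_half_add' e d (half a b F)
  have h5 := card_half_add' e d (half a (!b) F)
  omega

theorem hf_le_card {s : Finset α} {F : Finset (Finset α)} {U : ℕ} (hs : s.Nonempty)
    (h : Hf s F U) : U ≤ F.card := by
  obtain ⟨e, he⟩ := hs
  have h1 := h e he true
  have h2 := h e he false
  have h3 := card_half_add' e true F
  simp only [Bool.not_true] at h3
  omega

/-- the penalty of a child -/
theorem pen_cP {r c b : ℕ} {A Y X : ℤ} (hb : b = 0 → A ≤ 0) (hA : A ≤ Y + X) :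
    (r : ℤ) * c * max 0 A ≤ cP r c b * max 0 Y + cP r c b * max 0 X := by
  unfold cP
  split_ifs with h
  · rw [max_eq_left (hb h)]
    simp
  · refine le_trans ?_ (pen_add (r * c) Y X (by positivity))
    exact mul_le_mul_of_nonneg_left (max_le_max_left 0 hA) (by positivity)

/-- **the step for `B`** -/
theorem stepB_family {s : Finset α} {F : Finset (Finset α)} {a : α} {b : Bool} (ha : a ∈ s)
    (hF : Sub s F) (hQP : (half a (!b) F).card ≤ (half a b F).card) (hne : (s.erase a).Nonempty)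
    {γ ρ rB c M k v : ℕ} (hM : M = 2 ^ k) (hρ : 0 < ρ) {R : ι → ℕ} {TK TW : ι → ℕ → ℕ → ℤ}
    {B : ℕ → ℕ → ℤ} {iK iW cy β : ℕ}
    (hv : ∀ e ∈ s.erase a, ∀ d, v ≤ (half e d F).card)
    (hK1 : M * iK ≤ 2 ^ γ * (half a b F).card) (hK2 : 2 ^ γ * (half a b F).card ≤ M * (iK + 1))
    (hW1 : M * iW ≤ 2 ^ γ * (half a (!b) F).card)
    (hW2 : 2 ^ γ * (half a (!b) F).card ≤ M * (iW + 1))
    (hX1 : M * (iK + iW + cy) ≤ 2 ^ γ * F.card) (hX2 : 2 ^ γ * F.card ≤ M * (iK + iW + cy + 1))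
    (hstep : StepB ρ c rB R TK TW B iK iW cy β)
    (hKb : ∀ t β U, Hf (s.erase a) (half a b F) U → U ≤ (half a b F).card →
      ev (fun i => TK t i β) M (2 ^ γ * (half a b F).card) ≤
      c * 2 ^ γ * L2 (s.erase a) (half a b F) + R t * c * max 0 ((M : ℤ) * (2 * β) - 2 ^ γ * U))
    (hWb : ∀ t β U, Hf (s.erase a) (half a (!b) F) U → U ≤ (half a (!b) F).card →
      ev (fun i => TW t i β) M (2 ^ γ * (half a (!b) F).card) ≤
      c * 2 ^ γ * L2 (s.erase a) (half a (!b) F) + R t * c * max 0 ((M : ℤ) * (2 * β) -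
        2 ^ γ * U)) :
    ev (fun i => B i β) (ρ * M) (2 ^ γ * F.card) ≤
      c * 2 ^ γ * L2 s F + rB * c * max 0 (((ρ * M : ℕ) : ℤ) * (2 * β) - 2 ^ γ * (2 * v)) := by
  obtain ⟨w, J, hint, hZ⟩ := hstep
  have hsK := hF.half a b
  have hsW := hF.half a (!b)
  have hU1 := hB_K1 (b := b) hv
  have hU2 := hB_K2 (b := b) hv
  have hUW := hB_W (b := b) hv
  have hU1c := hf_le_card hne hU1
  have hU2c := hf_le_card hne hU2
  have hUWc := hf_le_card hne hUW
  set K := half a b F with hK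
  set W := half a (!b) F with hW
  set P := K.card with hP
  set Q := W.card with hQc
  set f := (W \ K).card with hf
  have hPQ : P + Q = F.card := card_half_add' a b F
  have hM0 : 0 < M := by rw [hM]; positivity
  rw [← hPQ, Nat.mul_add (2 ^ γ) P Q] at hX1 hX2
  have hi0 : ρ * ((iK + iW + cy) / ρ) ≤ iK + iW + cy := Nat.mul_div_le _ _
  have hi3 : iK + iW + cy + 1 ≤ ρ * ((iK + iW + cy) / ρ + 1) := Nat.lt_mul_div_succ _ hρ
  have hi1 : ρ * M * ((iK + iW + cy) / ρ) ≤ 2 ^ γ * F.card := by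
    rw [← hPQ, Nat.mul_add]
    have : ρ * M * ((iK + iW + cy) / ρ) = M * (ρ * ((iK + iW + cy) / ρ)) := by ring
    rw [this]
    exact (Nat.mul_le_mul_left _ hi0).trans hX1
  have hi2 : 2 ^ γ * F.card ≤ ρ * M * ((iK + iW + cy) / ρ + 1) := by
    rw [← hPQ, Nat.mul_add]
    have : ρ * M * ((iK + iW + cy) / ρ + 1) = M * (ρ * ((iK + iW + cy) / ρ + 1)) := by ring
    rw [this]
    exact hX2.trans (Nat.mul_le_mul_left _ hi3)
  rw [ev_eq hi1 hi2 (by positivity), ← hPQ]
  have hL := L2_half' ha b F (by rw [← hK, ← hW]; exact hQP)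
  rw [← hK, ← hW, ← hP, ← hQc, ← hf] at hL
  have hLK := L2_nonneg hsK
  have hLW := L2_nonneg hsW
  have hc0 : (0 : ℤ) ≤ c := by positivity
  have hγ0 : (0 : ℤ) ≤ 2 ^ γ := by positivity
  have hLc := mul_le_mul_of_nonneg_left hL (by positivity : (0 : ℤ) ≤ c * 2 ^ γ)
  have hMz : (M : ℤ) = 2 ^ k := by rw [hM]; push_cast; rfl
  -- the final penalty
  set X : ℤ := (M : ℤ) * (ρ * β) - 2 ^ γ * v with hX
  have hXe : ((ρ * M : ℕ) : ℤ) * (2 * β) - 2 ^ γ * (2 * v) = 2 * X := by
    rw [hX]; push_cast; ring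
  have hX2' : max 0 (2 * X) = 2 * max 0 X := by
    rcases max_cases 0 X with h | h
    · rw [h.1, mul_zero, max_eq_left]; linarith
    · rw [h.1, max_eq_right]; linarith
  rw [hXe, hX2']
  have hX0 : 0 ≤ max 0 X := le_max_left _ _
  have hXm : X ≤ max 0 X := le_max_right _ _
  rcases lt_or_ge (2 ^ γ * f) (M * (w * J)) with hfJ | hfJ
  · -- one of the intervals
    obtain ⟨j, hj, hj1, hj2⟩ : ∃ j < J, M * (w * j) ≤ 2 ^ γ * f ∧ 2 ^ γ * f ≤ M * (w * (j + 1)) := by
      have hw : 0 < M * w := by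
        rcases Nat.eq_zero_or_pos (M * w) with h | h
        · rw [← Nat.mul_assoc, h, Nat.zero_mul] at hfJ
          omega
        · exact h
      refine ⟨2 ^ γ * f / (M * w), ?_, ?_, ?_⟩
      · rw [Nat.div_lt_iff_lt_mul hw, Nat.mul_comm J, Nat.mul_assoc]
        exact hfJ
      · rw [← Nat.mul_assoc]
        exact Nat.mul_div_le _ _
      · rw [← Nat.mul_assoc]
        exact (Nat.lt_mul_div_succ _ hw).le
    obtain ⟨tK, tW, κ, bK, bW, hslope, c1, c2⟩ := hint j hj
    have k1 := cornB_fine c1 k (2 ^ γ * P) (2 ^ γ * Q) (by rw [← hM]; exact hK1)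
      (by rw [← hM]; exact hK2) (by rw [← hM]; exact hW1) (by rw [← hM]; exact hW2)
      (by rw [← hM]; exact hX1) (by rw [← hM]; exact hX2)
    have k2 := cornB_fine c2 k (2 ^ γ * P) (2 ^ γ * Q) (by rw [← hM]; exact hK1)
      (by rw [← hM]; exact hK2) (by rw [← hM]; exact hW1) (by rw [← hM]; exact hW2)
      (by rw [← hM]; exact hX1) (by rw [← hM]; exact hX2)
    have bW' := hWb tW bW _ hUW hUWc
    rw [ev_eq hW1 hW2 hM0] at bW'
    rw [dg_pow_mul, ← hMz] at k1 k2
    generalize (iK + iW + cy) / ρ = i at k1 k2 ⊢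
    have hcK := cP_nonneg (R tK) c bK
    have hcW := cP_nonneg (R tW) c bW
    -- the penalty of the minority half
    have pW : (R tW : ℤ) * c * max 0 ((M : ℤ) * (2 * bW) - 2 ^ γ * (v + Q - (P + f) : ℕ)) ≤
        cP (R tW) c bW * max 0 ((M : ℤ) * (2 * bW) - (M * (ρ * β) + 2 ^ γ * Q - 2 ^ γ * P) +
          2 ^ γ * f) + cP (R tW) c bW * max 0 X := by
      apply pen_cP
      · intro hb
        have : (0 : ℤ) ≤ 2 ^ γ * (v + Q - (P + f) : ℕ) := by positivity
        rw [hb]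
        push_cast
        linarith
      · have h2 : (v : ℤ) + Q - P - f ≤ (v + Q - (P + f) : ℕ) := by omega
        have h3 := mul_le_mul_of_nonneg_left h2 hγ0
        rw [hX]
        linarith
    have j1 : (M : ℤ) * (w * j) ≤ 2 ^ γ * f := by exact_mod_cast hj1
    have j2 : (2 : ℤ) ^ γ * f ≤ M * (w * (j + 1)) := by exact_mod_cast hj2
    have hsl := mul_le_mul_of_nonneg_right hslope hX0
    cases κ
    · -- first form
      simp only [Bool.false_eq_true, if_false, one_mul] at hsl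
      simp only [argK, Bool.false_eq_true, if_false] at k1 k2
      have bK' := hKb tK bK _ hU1 hU1c
      rw [ev_eq hK1 hK2 hM0] at bK'
      have pK : (R tK : ℤ) * c * max 0 ((M : ℤ) * (2 * bK) - 2 ^ γ * (v - f : ℕ)) ≤
          cP (R tK) c bK * max 0 ((M : ℤ) * (2 * bK) - M * (ρ * β) + 2 ^ γ * f) +
            cP (R tK) c bK * max 0 X := by
        apply pen_cP
        · intro hb
          have : (0 : ℤ) ≤ 2 ^ γ * (v - f : ℕ) := by positivity
          rw [hb]
          push_cast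
          linarith
        · have h2 : (v : ℤ) - f ≤ (v - f : ℕ) := by omega
          have h3 := mul_le_mul_of_nonneg_left h2 hγ0
          rw [hX]
          linarith
      have key := conc_nonneg (A := 2 * c * (2 ^ γ * dg P Q) +
          (M * TK tK iK bK + (TK tK (iK + 1) bK - TK tK iK bK) * ((2 ^ γ * P : ℕ) - (M : ℤ) * iK)) +
          (M * TW tW iW bW + (TW tW (iW + 1) bW - TW tW iW bW) * ((2 ^ γ * Q : ℕ) - (M : ℤ) * iW)) -
          (M * (ρ * B i β) + (B (i + 1) β - B i β) *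
            (((2 ^ γ * P : ℕ) : ℤ) + (2 ^ γ * Q : ℕ) - M * (ρ * i))))
        (B := 2 * c) (a1 := (M : ℤ) * (2 * bK) - M * (ρ * β))
        (a2 := (M : ℤ) * (2 * bW) - (M * (ρ * β) + 2 ^ γ * Q - 2 ^ γ * P))
        hcK hcW j1 j2
        (by
          have z1 : (M : ℤ) * (2 * bK) - M * (ρ * β) + M * (w * j) =
            M * (2 * bK) - (M * (ρ * β) - (w * j : ℕ) * M) := by push_cast; ring
          have z2 : (M : ℤ) * (2 * bW) - (M * (ρ * β) + 2 ^ γ * Q - 2 ^ γ * P) + M * (w * j) =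
            M * (2 * bW) - (M * (ρ * β) + (2 ^ γ * Q : ℕ) - (2 ^ γ * P : ℕ) - (w * j : ℕ) * M) := by
              push_cast; ring
          rw [z1, z2]
          have z3 : 2 * (c : ℤ) * (M * (w * j)) = 2 * c * ((w * j : ℕ) * M) := by push_cast; ring
          rw [z3]
          linarith)
        (by
          have z1 : (M : ℤ) * (2 * bK) - M * (ρ * β) + M * (w * (j + 1)) =
            M * (2 * bK) - (M * (ρ * β) - (w * (j + 1) : ℕ) * M) := by push_cast; ring
          have z2 : (M : ℤ) * (2 * bW) - (M * (ρ * β) + 2 ^ γ * Q - 2 ^ γ * P) + M * (w * (j + 1)) =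
            M * (2 * bW) - (M * (ρ * β) + (2 ^ γ * Q : ℕ) - (2 ^ γ * P : ℕ) -
              (w * (j + 1) : ℕ) * M) := by push_cast; ring
          rw [z1, z2]
          have z3 : 2 * (c : ℤ) * (M * (w * (j + 1))) = 2 * c * ((w * (j + 1) : ℕ) * M) := by
            push_cast; ring
          rw [z3]
          linarith)
      push_cast at key bK' bW' ⊢
      linarith
    · -- second form
      simp only [if_true] at hsl
      simp only [argK, if_true] at k1 k2
      have bK' := hKb tK bK _ hU2 hU2c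
      rw [ev_eq hK1 hK2 hM0] at bK'
      have pK : (R tK : ℤ) * c * max 0 ((M : ℤ) * (2 * bK) - 2 ^ γ * (2 * (v - Q) : ℕ)) ≤
          cP (R tK) c bK * max 0 ((M : ℤ) * (2 * bK) - 2 * (M * (ρ * β) - (2 ^ γ * Q : ℕ))) +
            cP (R tK) c bK * max 0 (2 * X) := by
        apply pen_cP
        · intro hb
          have : (0 : ℤ) ≤ 2 ^ γ * (2 * (v - Q) : ℕ) := by positivity
          rw [hb]
          generalize 2 * (v - Q) = U2 at this ⊢
          push_cast
          linarith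
        · have h2 : 2 * ((v : ℤ) - Q) ≤ (2 * (v - Q) : ℕ) := by omega
          have h3 := mul_le_mul_of_nonneg_left h2 hγ0
          rw [hX]
          generalize 2 * (v - Q) = U2 at h3 ⊢
          push_cast at h3 ⊢
          linarith
      rw [hX2'] at pK
      have key := conc_nonneg (A := 2 * c * (2 ^ γ * dg P Q) +
          (M * TK tK iK bK + (TK tK (iK + 1) bK - TK tK iK bK) * ((2 ^ γ * P : ℕ) - (M : ℤ) * iK)) -
          cP (R tK) c bK * max 0 ((M : ℤ) * (2 * bK) - 2 * (M * (ρ * β) - (2 ^ γ * Q : ℕ))) +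
          (M * TW tW iW bW + (TW tW (iW + 1) bW - TW tW iW bW) * ((2 ^ γ * Q : ℕ) - (M : ℤ) * iW)) -
          (M * (ρ * B i β) + (B (i + 1) β - B i β) *
            (((2 ^ γ * P : ℕ) : ℤ) + (2 ^ γ * Q : ℕ) - M * (ρ * i))))
        (B := 2 * c) (a1 := 0)
        (a2 := (M : ℤ) * (2 * bW) - (M * (ρ * β) + 2 ^ γ * Q - 2 ^ γ * P))
        (le_refl 0) hcW j1 j2
        (by
          have z2 : (M : ℤ) * (2 * bW) - (M * (ρ * β) + 2 ^ γ * Q - 2 ^ γ * P) + M * (w * j) =
            M * (2 * bW) - (M * (ρ * β) + (2 ^ γ * Q : ℕ) - (2 ^ γ * P : ℕ) - (w * j : ℕ) * M) := by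
              push_cast; ring
          rw [z2]
          have z3 : 2 * (c : ℤ) * (M * (w * j)) = 2 * c * ((w * j : ℕ) * M) := by push_cast; ring
          rw [z3]
          linarith)
        (by
          have z2 : (M : ℤ) * (2 * bW) - (M * (ρ * β) + 2 ^ γ * Q - 2 ^ γ * P) + M * (w * (j + 1)) =
            M * (2 * bW) - (M * (ρ * β) + (2 ^ γ * Q : ℕ) - (2 ^ γ * P : ℕ) -
              (w * (j + 1) : ℕ) * M) := by push_cast; ring
          rw [z2]
          have z3 : 2 * (c : ℤ) * (M * (w * (j + 1))) = 2 * c * ((w * (j + 1) : ℕ) * M) := by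
            push_cast; ring
          rw [z3]
          linarith)
      push_cast at key bK' bW' pK ⊢
      linarith
  · -- many unmatched points
    have k1 := cornB_fine hZ k (2 ^ γ * P) (2 ^ γ * Q) (by rw [← hM]; exact hK1)
      (by rw [← hM]; exact hK2) (by rw [← hM]; exact hW1) (by rw [← hM]; exact hW2)
      (by rw [← hM]; exact hX1) (by rw [← hM]; exact hX2)
    rw [dg_pow_mul, ← hMz] at k1
    generalize (iK + iW + cy) / ρ = i at k1 ⊢
    have hfJ' : (M : ℤ) * (w * J) ≤ 2 ^ γ * f := by exact_mod_cast hfJ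
    have h1 := mul_le_mul_of_nonneg_left hfJ' (by positivity : (0 : ℤ) ≤ 2 * c)
    have h2 := mul_nonneg (by positivity : (0 : ℤ) ≤ c * 2 ^ γ) hLK
    have h3 := mul_nonneg (by positivity : (0 : ℤ) ≤ c * 2 ^ γ) hLW
    have h4 : (0 : ℤ) ≤ rB * c * (2 * max 0 X) := by positivity
    have hcP : cP 0 c 0 = 0 := by simp [cP]
    simp only [ZT, hcP, sub_self, zero_mul, mul_zero, add_zero, sub_zero] at k1
    push_cast at k1 ⊢
    linarith

end Pool.Agent.EdgeIso.Cell
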