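import Pool.Agent.Lib.MP_48c8f3_co.Bas
import Pool.Agent.Lib.MP_48c8f3_co.CellW
import Pool.Agent.Lib.MP_48c8f3_co.CellF

set_option autoImplicit false

/-!
MP_48c8f3_co, cells, part X: the array `B` (all directions but one have halves of size at least `v`),
finite volume and octaves.
-/

namespace Pool.Agent.EdgeIso.Cell

open Finset Pool.Agent.EdgeIso.Frame

variable {α : Type*} [DecidableEq α] {ι : Type*}

/-- `T` is a lower bound of the loss, finite volume (the conclusion of `TabF.bound`) -/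
def FinBd (α : Type*) [DecidableEq α] (γ r c : ℕ) (T : ℕ → ℕ → ℤ) : Prop :=
  ∀ (s : Finset α) (F : Finset (Finset α)), Sub s F → ∀ U, Hf s F U → U ≤ F.card →
    ∀ β, ev (fun i => T i β) (2 ^ s.card) (2 ^ γ * F.card) ≤
      c * 2 ^ γ * L2 s F + r * c * max 0 (((2 ^ s.card : ℕ) : ℤ) * (2 * β) - 2 ^ γ * U)

/-- the easy case: the direction `a` has large halves, too -/
theorem easyB {s : Finset α} {F : Finset (Finset α)} {a : α} {b : Bool}
    (hQP : (half a (!b) F).card ≤ (half a b F).card) {v Q : ℕ} (hQ : Q = (half a (!b) F).card)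
    (hv : ∀ e ∈ s.erase a, ∀ d, v ≤ (half e d F).card) : Hf s F (2 * min v Q) := by
  intro e he d
  by_cases hea : e = a
  · subst hea
    have h1 : (half e (!b) F).card ≤ (half e d F).card := by
      cases b <;> cases d <;> simp only [Bool.not_true, Bool.not_false] at hQP ⊢ <;> omega
    omega
  · have := hv e (mem_erase.mpr ⟨hea, he⟩) d
    omega

/-- the penalty in the easy case -/
theorem easy_pen {r rB c M β γ v Q : ℕ} (hr : r ≤ rB) (h : v ≤ Q ∨ M * β ≤ 2 ^ γ * Q) :
    (r : ℤ) * c * max 0 ((M : ℤ) * (2 * β) - 2 ^ γ * ((2 * min v Q : ℕ) : ℤ)) ≤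
      rB * c * max 0 ((M : ℤ) * (2 * β) - 2 ^ γ * (2 * v)) := by
  have hr' : (r : ℤ) * c ≤ rB * c := by
    have : (r : ℤ) ≤ rB := by exact_mod_cast hr
    exact mul_le_mul_of_nonneg_right this (by positivity)
  have h0 : (0 : ℤ) ≤ max 0 ((M : ℤ) * (2 * β) - 2 ^ γ * (2 * v)) := le_max_left _ _
  rcases le_or_gt v Q with h1 | h1
  · rw [min_eq_left h1]
    push_cast
    exact mul_le_mul_of_nonneg_right hr' h0
  · rw [min_eq_right h1.le]
    have h2 : M * β ≤ 2 ^ γ * Q := by
      rcases h with h | h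
      · omega
      · exact h
    have h3 : (M : ℤ) * β ≤ 2 ^ γ * Q := by exact_mod_cast h2
    rw [max_eq_left (by push_cast; linarith)]
    rw [mul_zero]
    positivity

/-- if the direction `a` is the only one -/
theorem only_dir {s : Finset α} {F : Finset (Finset α)} {a : α} {b : Bool} (hF : Sub s F)
    (hQP : (half a (!b) F).card ≤ (half a b F).card) (hne : ¬ (s.erase a).Nonempty) {v : ℕ}
    (h2v : 2 * v ≤ F.card) : v ≤ (half a (!b) F).card := by
  rw [not_nonempty_iff_eq_empty] at hne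
  have h1 := (hF.half a b).card_le
  rw [hne, card_empty, pow_zero] at h1
  have h2 := card_half_add' a b F
  omega

/-- the conditions for one row `b` (index `β`) of the array `B`, finite volume -/
structure RowB (γ c rB : ℕ) (R : ι → ℕ) (T : ι → ℕ → ℕ → ℤ) (β : ℕ) (b : ℕ → ℤ) : Prop where
  le : ∃ t, R t ≤ rB ∧ ∀ i ≤ 2 ^ γ, b i ≤ T t i β
  step : ∀ iK iW cy, iK < 2 ^ γ → iW ≤ iK → iW < 2 * β → cy ≤ 1 →
    StepB 2 c rB R T T (fun i _ => b i) iK iW cy β

/-- **one row of the array `B`, finite volume**: a lower bound of the loss of a family `F` of which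
all directions but `a` have halves with at least `v` members -/
theorem RowB.bound {γ c rB : ℕ} {R : ι → ℕ} {T : ι → ℕ → ℕ → ℤ} {β : ℕ} {B : ℕ → ℤ}
    (h : RowB γ c rB R T β B) (hT : ∀ t, FinBd α γ (R t) c (T t)) {s : Finset α}
    {F : Finset (Finset α)} (hF : Sub s F) {a : α} (ha : a ∈ s) {v : ℕ}
    (hv : ∀ e ∈ s.erase a, ∀ d, v ≤ (half e d F).card) (h2v : 2 * v ≤ F.card) :
    ev B (2 ^ s.card) (2 ^ γ * F.card) ≤
      c * 2 ^ γ * L2 s F + rB * c * max 0 (((2 ^ s.card : ℕ) : ℤ) * (2 * β) -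
        2 ^ γ * (2 * v)) := by
  obtain ⟨b, hQP⟩ : ∃ b, (half a (!b) F).card ≤ (half a b F).card := by
    rcases le_total (half a false F).card (half a true F).card with h1 | h1
    · exact ⟨true, h1⟩
    · exact ⟨false, h1⟩
  by_cases hcase : v ≤ (half a (!b) F).card ∨ 2 ^ s.card * β ≤ 2 ^ γ * (half a (!b) F).card
  · -- the array `T` suffices
    obtain ⟨t, ht, hle⟩ := h.le
    have hsz : 2 ^ γ * F.card ≤ 2 ^ s.card * 2 ^ γ := by
      rw [Nat.mul_comm]
      exact Nat.mul_le_mul_right _ hF.card_le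
    refine (ev_mono (by positivity) hsz hle).trans ?_
    have h1 := hT t s F hF _ (easyB hQP rfl hv) (by
      have := Nat.min_le_left v (half a (!b) F).card
      omega) β
    have h2 := easy_pen (c := c) (M := 2 ^ s.card) (β := β) (γ := γ) ht hcase
    linarith
  · push Not at hcase
    have hne : (s.erase a).Nonempty := by
      by_contra h0
      have := only_dir hF hQP h0 h2v
      omega
    obtain ⟨N, hN⟩ : ∃ N, s.card = N + 1 := ⟨s.card - 1, by
      have := card_pos.mpr ⟨a, ha⟩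
      omega⟩
    have hsN : (s.erase a).card = N := by rw [card_erase_of_mem ha, hN]; rfl
    have hPN : (half a b F).card ≤ 2 ^ N := by rw [← hsN]; exact (hF.half a b).card_le
    obtain ⟨iK, hiK, hK1, hK2⟩ := exists_cell (γ := γ) hPN
    obtain ⟨iW, hiW, hW1, hW2, hWK⟩ : ∃ iW, iW < 2 ^ γ ∧ 2 ^ N * iW ≤ 2 ^ γ * (half a (!b) F).card ∧
        2 ^ γ * (half a (!b) F).card ≤ 2 ^ N * (iW + 1) ∧ iW ≤ iK := by
      obtain ⟨iW, h1, h2, h3⟩ := exists_cell (γ := γ) (hQP.trans hPN)
      rcases le_or_gt iW iK with h4 | h4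
      · exact ⟨iW, h1, h2, h3, h4⟩
      · refine ⟨iK, hiK, ?_, ?_, le_rfl⟩
        · exact (Nat.mul_le_mul_left _ h4.le).trans h2
        · exact (Nat.mul_le_mul_left _ hQP).trans hK2
    obtain ⟨cy, hcy, hX1, hX2⟩ := exists_carry hK1 hK2 hW1 hW2
    rw [← Nat.mul_add, card_half_add' a b F] at hX1 hX2
    have hpow : 2 ^ s.card = 2 * 2 ^ N := by rw [hN]; ring
    have hiWβ : iW < 2 * β := by
      have h1 := hcase.2
      rw [hpow] at h1
      have h2 : 2 ^ N * iW < 2 ^ N * (2 * β) := by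
        refine hW1.trans_lt (h1.trans_le (le_of_eq (by ring)))
      exact Nat.lt_of_mul_lt_mul_left h2
    rw [hpow]
    refine stepB_family ha hF hQP hne rfl (by norm_num) hv hK1 hK2 hW1 hW2 hX1 hX2
      (h.step iK iW cy hiK hWK hiWβ hcy) ?_ ?_
    · intro t β' U hU hU2
      have h1 := hT t (s.erase a) _ (hF.half a b) U hU hU2 β'
      rw [hsN] at h1
      exact h1
    · intro t β' U hU hU2
      have h1 := hT t (s.erase a) _ (hF.half a (!b)) U hU hU2 β'
      rw [hsN] at h1
      exact h1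

end Pool.Agent.EdgeIso.Cell
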