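import Pool.Agent.Lib.MP_48c8f3_co.Bas
import Pool.Agent.Lib.MP_48c8f3_co.FB

set_option autoImplicit false
set_option linter.unusedSectionVars false

/-!
MP_48c8f3_co, framework for size recursions, part D: the direction with the smallest half, the
constraints which it gives, and moves with two directions.
-/

namespace Pool.Agent.EdgeIso.Frame

open Finset

variable {α : Type*} [DecidableEq α]

/-- every half has at least `u` members -/
def MinHalf (s : Finset α) (F : Finset (Finset α)) (u : ℕ) : Prop :=
  ∀ j ∈ s, ∀ c : Bool, u ≤ (half j c F).card

theorem card_half_le_add (a : α) (b : Bool) (W K : Finset (Finset α)) :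
    (half a b W).card ≤ (half a b K).card + (half a b (W \ K)).card := by
  rw [half_sdiff]
  have h1 := card_inter_add_card_sdiff (half a b W) (half a b K)
  have h2 : (half a b W ∩ half a b K).card ≤ (half a b K).card :=
    Finset.card_le_card inter_subset_right
  omega

/-- constraints on the halves of a family whose halves all have at least `q` members -/
theorem child_constraints {s : Finset α} {F : Finset (Finset α)} {q : ℕ} (h : MinHalf s F q)
    {a : α} (b : Bool) {j : α} (hj : j ∈ s) (hja : j ≠ a) (c : Bool) :
    q ≤ 2 * (half j c (half a b F)).card + (half a (!b) F \ half a b F).card ∧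
    q + (half a (!b) F).card ≤ (half a b F).card + 2 * (half j c (half a (!b) F)).card +
      (half a (!b) F \ half a b F).card := by
  set K := half a b F with hK
  set W := half a (!b) F with hW
  have hcomm : ∀ (d : Bool) (e : Bool), half j d (half a e F) = half a e (half j d F) :=
    fun d e => half_comm hja d e F
  have e1 : ∀ d : Bool, (half j d K).card + (half j d W).card = (half j d F).card := by
    intro d
    rw [hK, hW, hcomm, hcomm]
    exact card_half_add' a b _
  have g1 := h j hj c
  have g2 := h j hj (!c)
  rw [← e1] at g1 g2
  have k1 := card_half_add' j c K
  have w0 := card_half_add' j c W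
  have w1 := card_half_add' j c (W \ K)
  have a1 := card_half_le_add j c W K
  have a2 := card_half_le_add j (!c) W K
  constructor
  · omega
  · omega

/-- the direction with the smallest half -/
theorem exists_min (s : Finset α) (hs : s.Nonempty) (F : Finset (Finset α)) :
    ∃ a ∈ s, ∃ b : Bool, (half a (!b) F).card ≤ (half a b F).card ∧
      MinHalf s F (half a (!b) F).card := by
  obtain ⟨a, ha, hmin⟩ := exists_min_image s
    (fun j => min (half j false F).card (half j true F).card) hs
  rcases le_total (half a false F).card (half a true F).card with h | h
  · refine ⟨a, ha, true, by simpa using h, ?_⟩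
    intro j hj c
    have h1 := hmin j hj
    rw [min_eq_left h] at h1
    simp only [Bool.not_true]
    cases c
    · exact h1.trans (min_le_left _ _)
    · exact h1.trans (min_le_right _ _)
  · refine ⟨a, ha, false, by simpa using h, ?_⟩
    intro j hj c
    have h1 := hmin j hj
    rw [min_eq_right h] at h1
    simp only [Bool.not_false]
    cases c
    · exact h1.trans (min_le_left _ _)
    · exact h1.trans (min_le_right _ _)

/-! ### moves with two directions -/

/-! ### averages -/

end Pool.Agent.EdgeIso.Frame
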