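import Pool.Agent.Lib.MP_48c8f3_co.Bas
import Pool.Agent.Lib.MP_48c8f3_co.FD

set_option autoImplicit false
set_option linter.unusedSectionVars false

/-!
MP_48c8f3_co, framework for size recursions, part E: lower bounds of the loss from a recursion in
the sizes, and the skeleton of the induction.
-/

namespace Pool.Agent.EdgeIso.Frame

open Finset

variable {α : Type*} [DecidableEq α]

/-- `v` is at most twice the size of every half -/
def Half2 (s : Finset α) (F : Finset (Finset α)) (v : ℤ) : Prop :=
  ∀ j ∈ s, ∀ c : Bool, v ≤ 2 * (half j c F).card

theorem Half2.le_card {s : Finset α} {F : Finset (Finset α)} {v : ℤ} (h : Half2 s F v)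
    (hs : s.Nonempty) : v ≤ F.card := by
  obtain ⟨j, hj⟩ := hs
  have h1 := h j hj true
  have h2 := h j hj false
  have h3 := card_half_add' j true F
  simp only [Bool.not_true] at h3
  have h4 : ((half j true F).card : ℤ) + (half j false F).card = F.card := by exact_mod_cast h3
  linarith

/-- the statement with the constant `C` for the family `F` -/
def TC (C : ℤ) (s : Finset α) (F : Finset (Finset α)) : Prop :=
  ∃ d, Near s F F.card d ∧ 2 * (d : ℤ) ≤ C * L2 s F

theorem TC.compl {C : ℤ} {s : Finset α} {F : Finset (Finset α)} (hF : Sub s F)
    (h : TC C s (s.powerset \ F)) : TC C s F := by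
  obtain ⟨d, h1, h2⟩ := h
  have h3 := h1.compl (sub_compl s F) (by omega)
  rw [compl_compl_family hF, card_compl_family hF] at h3
  have h4 := hF.card_le
  have h5 : 2 ^ s.card - (2 ^ s.card - F.card) = F.card := by omega
  have h6 : 2 ^ s.card - F.card + d - (2 ^ s.card - F.card) = d := by omega
  rw [h5, h6] at h3
  exact ⟨d, h3, by rwa [L2_compl hF] at h2⟩

/-- skeleton: it suffices to prove the statement for nonempty families with at most half of the
points, assuming it in all smaller dimensions -/
theorem TC_induction {C : ℤ} (hC : 0 ≤ C)
    (H : ∀ (s : Finset α) (F : Finset (Finset α)), Sub s F → F.Nonempty →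
      2 * F.card ≤ 2 ^ s.card →
      (∀ (s' : Finset α) (F' : Finset (Finset α)), s'.card < s.card → Sub s' F' → TC C s' F') →
      TC C s F) :
    ∀ (s : Finset α) (F : Finset (Finset α)), Sub s F → TC C s F := by
  have main : ∀ (n : ℕ) (s : Finset α) (F : Finset (Finset α)), s.card = n → Sub s F →
      TC C s F := by
    intro n
    induction n using Nat.strong_induction_on with
    | _ n ih =>
      have key : ∀ (s : Finset α) (F : Finset (Finset α)), s.card = n → Sub s F →
          2 * F.card ≤ 2 ^ s.card → TC C s F := by
        intro s F hs hF hle
        rcases F.eq_empty_or_nonempty with h | h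
        · subst h
          refine ⟨0, near_triv _ _ _ (by simp), ?_⟩
          have := L2_nonneg (sub_empty s)
          simp only [Nat.cast_zero, mul_zero]
          positivity
        · exact H s F hF h hle (fun s' F' h1 h2 => ih s'.card (by omega) s' F' rfl h2)
      intro s F hs hF
      by_cases hle : 2 * F.card ≤ 2 ^ s.card
      · exact key s F hs hF hle
      · apply TC.compl hF
        apply key s _ hs (sub_compl s F)
        rw [card_compl_family hF]
        generalize 2 ^ s.card = P at hle ⊢
        omega
  intro s F hF
  exact main s.card s F rfl hF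

end Pool.Agent.EdgeIso.Frame
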