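import Pool.Agent.Lib.MP_48c8f3_co.Bas
import Pool.Agent.Lib.MP_48c8f3_co.FE

set_option autoImplicit false
set_option linter.unusedSectionVars false

/-!
MP_48c8f3_co, framework for size recursions, part F: the defect `dg` lies above its linear
interpolation on the triangles of the dyadic lattices, at all scales.
-/

namespace Pool.Agent.EdgeIso.Frame

theorem dg_pow (k a b : ℕ) : dg (2 ^ k * a) (2 ^ k * b) = 2 ^ k * dg a b := by
  induction k with
  | zero => simp
  | succ k ih =>
    rw [pow_succ, Nat.mul_comm (2 ^ k) 2, Nat.mul_assoc, Nat.mul_assoc, dg_even_even, ih, pow_succ]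
    ring

/-- lower triangles -/
theorem dg_tri_low (i j : ℕ) : ∀ (k p q : ℕ), i * 2 ^ k ≤ p → j * 2 ^ k ≤ q →
    p + q ≤ (i + j + 1) * 2 ^ k →
    (((i + j + 1 : ℕ) : ℤ) * 2 ^ k - p - q) * dg i j + ((p : ℤ) - i * 2 ^ k) * dg (i + 1) j +
      ((q : ℤ) - j * 2 ^ k) * dg i (j + 1) ≤ dg p q := by
  intro k
  induction k with
  | zero =>
    intro p q hp hq hpq
    rw [pow_zero, Nat.mul_one] at hp hq hpq
    have h : (p = i ∧ q = j) ∨ (p = i + 1 ∧ q = j) ∨ (p = i ∧ q = j + 1) := by omega
    rcases h with ⟨h1, h2⟩ | ⟨h1, h2⟩ | ⟨h1, h2⟩ <;> subst h1 <;> subst h2 <;> push_cast <;>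
      ring_nf <;> simp
  | succ k ih =>
    intro p q hp hq hpq
    obtain ⟨N, hN⟩ : ∃ N, N = 2 ^ k := ⟨_, rfl⟩
    have hNz : ((2 : ℤ) ^ k) = N := by rw [hN]; push_cast; rfl
    have hpow : (2 : ℕ) ^ (k + 1) = 2 * N := by rw [hN]; ring
    have hpowz : (2 : ℤ) ^ (k + 1) = 2 * N := by rw [← hNz]; ring
    rw [hpow] at hp hq hpq
    rw [hpowz]
    rw [← hN, hNz] at ih
    have e1 : i * (2 * N) = 2 * (i * N) := by ring
    have e2 : j * (2 * N) = 2 * (j * N) := by ring
    have e3 : (i + j + 1) * (2 * N) = 2 * ((i + j + 1) * N) := by ring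
    rw [e1] at hp
    rw [e2] at hq
    rw [e3] at hpq
    rcases Nat.even_or_odd' p with ⟨a, ha | ha⟩ <;> rcases Nat.even_or_odd' q with ⟨b, hb | hb⟩
    · subst ha; subst hb
      rw [dg_even_even]
      have h1 := ih a b (by omega) (by omega) (by omega)
      push_cast at h1 ⊢
      linarith
    · subst ha; subst hb
      rw [dg_even_odd]
      have h1 := ih a b (by omega) (by omega) (by omega)
      have h2 := ih a (b + 1) (by omega) (by omega) (by omega)
      push_cast at h1 h2 ⊢
      linarith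
    · subst ha; subst hb
      rw [dg_odd_even]
      have h1 := ih a b (by omega) (by omega) (by omega)
      have h2 := ih (a + 1) b (by omega) (by omega) (by omega)
      push_cast at h1 h2 ⊢
      linarith
    · subst ha; subst hb
      refine le_trans ?_ (dg_odd_odd a b)
      have h1 := ih a (b + 1) (by omega) (by omega) (by omega)
      have h2 := ih (a + 1) b (by omega) (by omega) (by omega)
      push_cast at h1 h2 ⊢
      linarith

/-- upper triangles -/
theorem dg_tri_up (i j : ℕ) : ∀ (k p q : ℕ), p ≤ (i + 1) * 2 ^ k → q ≤ (j + 1) * 2 ^ k →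
    (i + j + 1) * 2 ^ k ≤ p + q →
    ((p : ℤ) + q - ((i + j + 1 : ℕ) : ℤ) * 2 ^ k) * dg (i + 1) (j + 1) +
      (((i + 1 : ℕ) : ℤ) * 2 ^ k - p) * dg i (j + 1) +
      (((j + 1 : ℕ) : ℤ) * 2 ^ k - q) * dg (i + 1) j ≤ dg p q := by
  intro k
  induction k with
  | zero =>
    intro p q hp hq hpq
    rw [pow_zero, Nat.mul_one] at hp hq hpq
    have h : (p = i + 1 ∧ q = j + 1) ∨ (p = i + 1 ∧ q = j) ∨ (p = i ∧ q = j + 1) := by omega
    rcases h with ⟨h1, h2⟩ | ⟨h1, h2⟩ | ⟨h1, h2⟩ <;> subst h1 <;> subst h2 <;> push_cast <;>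
      ring_nf <;> simp
  | succ k ih =>
    intro p q hp hq hpq
    obtain ⟨N, hN⟩ : ∃ N, N = 2 ^ k := ⟨_, rfl⟩
    have hNz : ((2 : ℤ) ^ k) = N := by rw [hN]; push_cast; rfl
    have hpow : (2 : ℕ) ^ (k + 1) = 2 * N := by rw [hN]; ring
    have hpowz : (2 : ℤ) ^ (k + 1) = 2 * N := by rw [← hNz]; ring
    rw [hpow] at hp hq hpq
    rw [hpowz]
    rw [← hN, hNz] at ih
    have e1 : (i + 1) * (2 * N) = 2 * ((i + 1) * N) := by ring
    have e2 : (j + 1) * (2 * N) = 2 * ((j + 1) * N) := by ring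
    have e3 : (i + j + 1) * (2 * N) = 2 * ((i + j + 1) * N) := by ring
    rw [e1] at hp
    rw [e2] at hq
    rw [e3] at hpq
    rcases Nat.even_or_odd' p with ⟨a, ha | ha⟩ <;> rcases Nat.even_or_odd' q with ⟨b, hb | hb⟩
    · subst ha; subst hb
      rw [dg_even_even]
      have h1 := ih a b (by omega) (by omega) (by omega)
      push_cast at h1 ⊢
      linarith
    · subst ha; subst hb
      rw [dg_even_odd]
      have h1 := ih a b (by omega) (by omega) (by omega)
      have h2 := ih a (b + 1) (by omega) (by omega) (by omega)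
      push_cast at h1 h2 ⊢
      linarith
    · subst ha; subst hb
      rw [dg_odd_even]
      have h1 := ih a b (by omega) (by omega) (by omega)
      have h2 := ih (a + 1) b (by omega) (by omega) (by omega)
      push_cast at h1 h2 ⊢
      linarith
    · subst ha; subst hb
      refine le_trans ?_ (dg_odd_odd a b)
      have h1 := ih a (b + 1) (by omega) (by omega) (by omega)
      have h2 := ih (a + 1) b (by omega) (by omega) (by omega)
      push_cast at h1 h2 ⊢
      linarith

end Pool.Agent.EdgeIso.Frame
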