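import Pool.Agent.Lib.MP_48c8f3_co.Bas
import Pool.Agent.Lib.MP_48c8f3_co.FF

set_option autoImplicit false

/-!
MP_48c8f3_co, generic checker, part A: packed linear forms.

A linear form with integer coefficients is stored as one natural number: the digits in base `2^64`
are the coefficients plus an offset, and the last digit is a weight, which bounds the offsets.
`Acc n x A v`: the number `A` packs a linear form whose value at the point `x` is `v`.
-/

namespace Pool.Agent.EdgeIso.Chk

open Finset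

/-- digit base -/
abbrev BB : ℕ := 18446744073709551616
/-- digit offset -/
abbrev OO : ℕ := 65536

theorem dig_sum {b : ℕ} (hb : 0 < b) : ∀ (K : ℕ) (S : ℕ → ℕ) (j : ℕ), (∀ k, k < K → S k < b) →
    j < K → (∑ k ∈ range K, S k * b ^ k) / b ^ j % b = S j := by
  intro K
  induction K with
  | zero => intro S j _ hj; omega
  | succ K ih =>
    intro S j hS hj
    rw [Finset.sum_range_succ']
    have e : ∑ k ∈ range K, S (k + 1) * b ^ (k + 1) =
        b * ∑ k ∈ range K, S (k + 1) * b ^ k := by
      rw [Finset.mul_sum]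
      apply sum_congr rfl
      intro k _
      ring
    rw [e, pow_zero, Nat.mul_one]
    have h0 := hS 0 (by omega)
    cases j with
    | zero => rw [pow_zero, Nat.div_one, Nat.mul_add_mod, Nat.mod_eq_of_lt h0]
    | succ j =>
      rw [pow_succ, Nat.mul_comm (b ^ j) b, ← Nat.div_div_eq_div_mul]
      have e2 : (b * ∑ k ∈ range K, S (k + 1) * b ^ k + S 0) / b =
          ∑ k ∈ range K, S (k + 1) * b ^ k := by
        rw [Nat.mul_add_div hb, Nat.div_eq_of_lt h0, Nat.add_zero]
      rw [e2]
      exact ih (fun k => S (k + 1)) j (fun k hk => hS (k + 1) (by omega)) (by omega)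

/-- expansion of a number in base `b` -/
theorem dig_expand (b : ℕ) : ∀ (n X : ℕ),
    X % b ^ n = ∑ d ∈ range n, (X / b ^ d % b) * b ^ d := by
  intro n
  induction n with
  | zero => intro X; simp [Nat.mod_one]
  | succ n ih =>
    intro X
    rw [Finset.sum_range_succ, ← ih X, Nat.pow_succ, Nat.mod_mul]
    ring

theorem sum_lt_pow {b : ℕ} : ∀ (n : ℕ) (S : ℕ → ℕ), (∀ k, k < n → S k < b) →
    ∑ k ∈ range n, S k * b ^ k < b ^ n := by
  intro n
  induction n with
  | zero => intro S _; simp
  | succ n ih =>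
    intro S hS
    rw [Finset.sum_range_succ, Nat.pow_succ]
    have h1 := ih S (fun k hk => hS k (by omega))
    have h2 : S n + 1 ≤ b := hS n (by omega)
    have h3 : (S n + 1) * b ^ n ≤ b * b ^ n := Nat.mul_le_mul_right _ h2
    have h4 : (S n + 1) * b ^ n = S n * b ^ n + b ^ n := by ring
    rw [Nat.mul_comm (b ^ n) b]
    omega

/-- packed comparison: if the sign bits of all digits are set, all digits are large -/
theorem sign_bits {w n : ℕ} {Z : ℕ → ℕ} (hZ : ∀ d, d < n → Z d < 2 ^ (w + 1))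
    (h : Nat.land (∑ d ∈ range n, Z d * (2 ^ (w + 1)) ^ d)
      (∑ d ∈ range n, 2 ^ w * (2 ^ (w + 1)) ^ d) = ∑ d ∈ range n, 2 ^ w * (2 ^ (w + 1)) ^ d) :
    ∀ d, d < n → 2 ^ w ≤ Z d := by
  intro i hi
  have hb : (0 : ℕ) < 2 ^ (w + 1) := by positivity
  have hw : (2 : ℕ) ^ w < 2 ^ (w + 1) := Nat.pow_lt_pow_right (by norm_num) (by omega)
  have d1 := dig_sum hb n Z i hZ hi
  have d2 := dig_sum hb n (fun _ => 2 ^ w) i (fun _ _ => hw) hi
  have eB : ((2 : ℕ) ^ (w + 1)) ^ i = 2 ^ ((w + 1) * i) := by rw [pow_mul]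
  set H := ∑ d ∈ range n, 2 ^ w * (2 ^ (w + 1)) ^ d with hH
  set Y := ∑ d ∈ range n, Z d * (2 ^ (w + 1)) ^ d with hY
  have t2 : H.testBit (w + (w + 1) * i) = true := by
    have : (H / 2 ^ ((w + 1) * i) % 2 ^ (w + 1)).testBit w = true := by
      rw [← eB, d2]
      exact Nat.testBit_two_pow_self
    rw [Nat.testBit_mod_two_pow, Nat.testBit_div_two_pow] at this
    simpa using this
  have t1 : (Y / 2 ^ ((w + 1) * i) % 2 ^ (w + 1)).testBit w = true := by
    rw [Nat.testBit_mod_two_pow, Nat.testBit_div_two_pow]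
    have h3 : (Nat.land Y H).testBit (w + (w + 1) * i) = true := by rw [h]; exact t2
    have h4 := Nat.testBit_land Y H (w + (w + 1) * i)
    change (Nat.land _ _).testBit _ = _ at h4
    rw [h3] at h4
    have h5 := (Bool.and_eq_true _ _ ▸ h4.symm : _ ∧ _).1
    simpa using h5
  rw [← eB, d1] at t1
  exact Nat.ge_two_pow_of_testBit t1

theorem land_mask (a : ℕ) {k m : ℕ} (h : m + 1 = 2 ^ k) : Nat.land a m = a % 2 ^ k := by
  have e : m = 2 ^ k - 1 := by omega
  rw [e]
  exact Nat.and_two_pow_sub_one_eq_mod a k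

theorem land4095 (a : ℕ) : Nat.land a 4095 = a % 4096 := land_mask a (k := 12) (by norm_num)

/-- `A` packs a linear form with value `v` -/
def Acc (n : ℕ) (x : ℕ → ℤ) (A : ℕ) (v : ℤ) : Prop :=
  ∃ (L : ℕ → ℕ) (M : ℕ), A = ∑ i ∈ range n, L i * BB ^ i + M * BB ^ n ∧
    (∀ i, i < n → L i ≤ 2 * OO * M) ∧ v = ∑ i ∈ range n, ((L i : ℤ) - OO * M) * x i

theorem Acc.zero (n : ℕ) (x : ℕ → ℤ) : Acc n x 0 0 :=
  ⟨fun _ => 0, 0, by simp, by simp, by simp⟩

theorem Acc.add {n : ℕ} {x : ℕ → ℤ} {A A' : ℕ} {v v' : ℤ} (h : Acc n x A v)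
    (h' : Acc n x A' v') : Acc n x (A + A') (v + v') := by
  obtain ⟨L, M, h1, h2, h3⟩ := h
  obtain ⟨L', M', h1', h2', h3'⟩ := h'
  refine ⟨fun i => L i + L' i, M + M', ?_, ?_, ?_⟩
  · rw [h1, h1']
    have : ∑ i ∈ range n, (L i + L' i) * BB ^ i =
        ∑ i ∈ range n, L i * BB ^ i + ∑ i ∈ range n, L' i * BB ^ i := by
      rw [← Finset.sum_add_distrib]
      apply sum_congr rfl
      intro i _
      ring
    rw [this]
    ring
  · intro i hi
    have := h2 i hi
    have := h2' i hi
    rw [Nat.mul_add]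
    show L i + L' i ≤ _
    omega
  · rw [h3, h3', ← Finset.sum_add_distrib]
    apply sum_congr rfl
    intro i _
    push_cast
    ring

theorem Acc.smul {n : ℕ} {x : ℕ → ℤ} {A : ℕ} {v : ℤ} (h : Acc n x A v) (c : ℕ) :
    Acc n x (c * A) (c * v) := by
  obtain ⟨L, M, h1, h2, h3⟩ := h
  refine ⟨fun i => c * L i, c * M, ?_, ?_, ?_⟩
  · rw [h1, Nat.mul_add, Finset.mul_sum]
    congr 1
    · apply sum_congr rfl
      intro i _
      ring
    · ring
  · intro i hi
    have := Nat.mul_le_mul_left c (h2 i hi)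
    calc c * L i ≤ c * (2 * OO * M) := this
      _ = 2 * OO * (c * M) := by ring
  · rw [h3, Finset.mul_sum]
    apply sum_congr rfl
    intro i _
    push_cast
    ring

theorem Acc.cast {n : ℕ} {x : ℕ → ℤ} {A A' : ℕ} {v v' : ℤ} (h : Acc n x A v)
    (hA : A' = A) (hv : v' = v) : Acc n x A' v' := by
  rw [hA, hv]
  exact h

/-- final test: all coefficients are nonpositive.  `ones = ∑ BB^i`, `hones = 2^63 * ones`,
`nb = BB^n`, `M = A / BB^n` -/
def finC (ones hones nb A M : ℕ) : Bool :=
  @Bool.rec (fun _ => Bool) false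
    (Nat.beq (Nat.land (Nat.sub (Nat.mul (Nat.add 9223372036854775808 (Nat.mul 65536 M)) ones)
      (Nat.mod A nb)) hones) hones)
    (Nat.ble M 35184372088832)

theorem finC_sound {n : ℕ} {x : ℕ → ℤ} (hx : ∀ i, 0 ≤ x i) {ones hones nb n64 A : ℕ} {v : ℤ}
    (h1 : ones = ∑ i ∈ range n, BB ^ i) (h2 : hones = ∑ i ∈ range n, 9223372036854775808 * BB ^ i)
    (h3 : nb = BB ^ n) (h4 : n64 = 64 * n)
    (h : Acc n x A v) (hf : finC ones hones nb A (Nat.shiftRight A n64) = true) : v ≤ 0 := by
  unfold finC at hf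
  obtain ⟨L, M, e1, e2, e3⟩ := h
  have hb : (0 : ℕ) < BB := by norm_num
  have hBn : (0 : ℕ) < BB ^ n := by positivity
  have hsh : Nat.shiftRight A n64 = A / BB ^ n := by
    have eB : (2 : ℕ) ^ 64 = BB := by norm_num
    show A >>> n64 = _
    rw [Nat.shiftRight_eq_div_pow, h4, pow_mul, eB]
  rw [hsh] at hf
  cases hM : Nat.ble (A / BB ^ n) 35184372088832 with
  | false => rw [hM] at hf; exact absurd hf (by simp)
  | true =>
    rw [hM] at hf
    have hM' : A / BB ^ n ≤ 35184372088832 := Nat.le_of_ble_eq_true hM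
    have hMle : M ≤ A / BB ^ n := by
      rw [Nat.le_div_iff_mul_le hBn, e1]
      omega
    have hM1 : M ≤ 35184372088832 := hMle.trans hM'
    have hS : ∑ i ∈ range n, L i * BB ^ i < BB ^ n := by
      apply sum_lt_pow
      intro k hk
      have := e2 k hk
      simp only [OO, BB] at this ⊢
      omega
    have hdiv : A / BB ^ n = M := by
      rw [e1, Nat.add_mul_div_right _ _ hBn, Nat.div_eq_of_lt hS, Nat.zero_add]
    have hmod : A % BB ^ n = ∑ i ∈ range n, L i * BB ^ i := by
      rw [e1, Nat.add_mul_mod_self_right, Nat.mod_eq_of_lt hS]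
    rw [hdiv] at hf
    have hf' : Nat.land (Nat.sub (Nat.mul (Nat.add 9223372036854775808 (Nat.mul 65536 M)) ones)
      (Nat.mod A nb)) hones = hones := Nat.eq_of_beq_eq_true hf
    have hX : Nat.sub (Nat.mul (Nat.add 9223372036854775808 (Nat.mul 65536 M)) ones)
        (Nat.mod A nb) =
        ∑ i ∈ range n, (9223372036854775808 + OO * M - L i) * BB ^ i := by
      show (9223372036854775808 + 65536 * M) * ones - A % nb = _
      rw [h3, hmod, h1, Finset.mul_sum]
      rw [← Finset.sum_tsub_distrib _ (fun i hi => ?_)]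
      · apply sum_congr rfl
        intro i _
        rw [Nat.sub_mul]
      · have := e2 i (mem_range.mp hi)
        apply Nat.mul_le_mul_right
        simp only [OO] at this ⊢
        omega
    rw [hX] at hf'
    have key := sign_bits (w := 63) (n := n) (Z := fun i => 9223372036854775808 + OO * M - L i)
      (by
        intro d hd
        have := e2 d hd
        show 9223372036854775808 + OO * M - L d < 2 ^ 64
        simp only [OO] at this ⊢
        omega)
      (by
        have eB : ((2 : ℕ) ^ (63 + 1)) = BB := by norm_num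
        have e63 : (2 : ℕ) ^ 63 = 9223372036854775808 := by norm_num
        rw [eB, e63]
        rw [h2] at hf'
        exact hf')
    rw [e3]
    apply Finset.sum_nonpos
    intro i hi
    have := key i (mem_range.mp hi)
    have h6 := e2 i (mem_range.mp hi)
    have h8 : L i ≤ OO * M := by
      have e63 : (2 : ℕ) ^ 63 = 9223372036854775808 := by norm_num
      rw [e63] at this
      simp only [OO] at this h6 ⊢
      omega
    have h7 : ((L i : ℤ) - OO * M) ≤ 0 := by
      have : (L i : ℤ) ≤ ((OO * M : ℕ) : ℤ) := by exact_mod_cast h8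
      rw [Nat.cast_mul] at this
      linarith
    exact mul_nonpos_of_nonpos_of_nonneg h7 (hx i)

/-! ### lines below a row of a table with digits of 24 bits -/

/-- packed comparison of a line with a segment of the table -/
def lineT (m u v seg ones ramp : ℕ) : Bool :=
  Nat.beq (Nat.land (Nat.sub (Nat.add (Nat.mul m (Nat.land seg (Nat.mul 4095 ones)))
    (Nat.mul 8388608 ones))
    (Nat.add (Nat.mul u (Nat.sub (Nat.mul m ones) ramp)) (Nat.mul v ramp)))
      (Nat.mul 8388608 ones)) (Nat.mul 8388608 ones)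

theorem sum_sub_pow {b : ℕ} (n : ℕ) (P Q : ℕ → ℕ) (h : ∀ d, d < n → Q d ≤ P d) :
    ∑ d ∈ range n, P d * b ^ d - ∑ d ∈ range n, Q d * b ^ d =
      ∑ d ∈ range n, (P d - Q d) * b ^ d := by
  rw [← Finset.sum_tsub_distrib _ (fun i hi => Nat.mul_le_mul_right _ (h i (mem_range.mp hi)))]
  apply sum_congr rfl
  intro i _
  rw [Nat.sub_mul]

theorem lineT_spec {m u v : ℕ} {t : ℕ → ℕ} (hm : m ≤ 2048) (hu : u < 4096) (hv : v < 4096)
    {seg ones ramp : ℕ} (hs : ∀ d, d < m + 1 → seg / 16777216 ^ d % 16777216 = t d)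
    (ho : ones = ∑ d ∈ range (m + 1), 1 * 16777216 ^ d)
    (hr : ramp = ∑ d ∈ range (m + 1), d * 16777216 ^ d)
    (h : lineT m u v seg ones ramp = true) : ∀ d, d ≤ m → (m - d) * u + d * v ≤ m * t d := by
  have hb : (0 : ℕ) < 16777216 := by norm_num
  have e24 : (16777216 : ℕ) = 2 ^ (23 + 1) := by norm_num
  have e23 : (8388608 : ℕ) = 2 ^ 23 := by norm_num
  have h' : Nat.land (Nat.sub (Nat.add (Nat.mul m (Nat.land seg (Nat.mul 4095 ones)))
    (Nat.mul 8388608 ones))
    (Nat.add (Nat.mul u (Nat.sub (Nat.mul m ones) ramp)) (Nat.mul v ramp)))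
      (Nat.mul 8388608 ones) = Nat.mul 8388608 ones := Nat.eq_of_beq_eq_true h
  -- the masked segment
  set y := Nat.land seg (Nat.mul 4095 ones) with hy
  have hmask : Nat.mul 4095 ones = ∑ d ∈ range (m + 1), 4095 * 16777216 ^ d := by
    show 4095 * ones = _
    rw [ho, Finset.mul_sum]
    apply sum_congr rfl
    intro i _
    ring
  have hylt : y < 16777216 ^ (m + 1) := by
    have h1 : y ≤ Nat.mul 4095 ones := Nat.and_le_right
    have h2 : Nat.mul 4095 ones < 16777216 ^ (m + 1) := by
      rw [hmask]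
      exact sum_lt_pow _ _ (fun _ _ => by norm_num)
    omega
  have hyd : ∀ d, d < m + 1 → y / 16777216 ^ d % 16777216 = t d &&& 4095 := by
    intro d hd
    have e : (2 : ℕ) ^ (24 * d) = 16777216 ^ d := by rw [pow_mul]; norm_num
    have e1 : (2 : ℕ) ^ 24 = 16777216 := by norm_num
    have step : ((seg &&& (Nat.mul 4095 ones)) >>> (24 * d)) % 2 ^ 24 =
        ((seg >>> (24 * d)) % 2 ^ 24) &&& ((Nat.mul 4095 ones >>> (24 * d)) % 2 ^ 24) := by
      rw [Nat.shiftRight_and_distrib, Nat.and_mod_two_pow]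
    rw [Nat.shiftRight_eq_div_pow, Nat.shiftRight_eq_div_pow, Nat.shiftRight_eq_div_pow, e, e1,
      hs d hd, hmask,
      dig_sum hb _ (fun _ => 4095) d (fun _ _ => by norm_num) hd] at step
    have h1 : y = seg &&& (Nat.mul 4095 ones) := rfl
    rw [h1, hmask]
    exact step
  have hyexp : y = ∑ d ∈ range (m + 1), (t d &&& 4095) * 16777216 ^ d := by
    have := dig_expand 16777216 (m + 1) y
    rw [Nat.mod_eq_of_lt hylt] at this
    rw [this]
    apply sum_congr rfl
    intro d hd
    rw [hyd d (mem_range.mp hd)]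
  have hyl : ∀ d, t d &&& 4095 ≤ 4095 := fun d => Nat.and_le_right
  have hyt : ∀ d, t d &&& 4095 ≤ t d := fun d => Nat.and_le_left
  have hH : Nat.mul 8388608 ones = ∑ d ∈ range (m + 1), 8388608 * 16777216 ^ d := by
    show 8388608 * ones = _
    rw [ho, Finset.mul_sum]
    apply sum_congr rfl
    intro i _
    ring
  have hline : Nat.add (Nat.mul u (Nat.sub (Nat.mul m ones) ramp)) (Nat.mul v ramp) =
      ∑ d ∈ range (m + 1), ((m - d) * u + d * v) * 16777216 ^ d := by
    show u * (m * ones - ramp) + v * ramp = _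
    have e1 : m * ones = ∑ d ∈ range (m + 1), m * 16777216 ^ d := by
      rw [ho, Finset.mul_sum]
      apply sum_congr rfl
      intro i _
      ring
    rw [e1, hr, sum_sub_pow (b := 16777216) (m + 1) (fun _ => m) (fun d => d)
      (fun d hd => by show d ≤ m; omega), Finset.mul_sum, Finset.mul_sum,
      ← Finset.sum_add_distrib]
    apply sum_congr rfl
    intro d _
    ring
  have hleft : Nat.add (Nat.mul m y) (Nat.mul 8388608 ones) =
      ∑ d ∈ range (m + 1), (m * (t d &&& 4095) + 8388608) * 16777216 ^ d := by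
    show m * y + 8388608 * ones = _
    rw [show 8388608 * ones = Nat.mul 8388608 ones from rfl, hH, hyexp, Finset.mul_sum,
      ← Finset.sum_add_distrib]
    apply sum_congr rfl
    intro d _
    ring
  have hbound : ∀ d, d < m + 1 → (m - d) * u + d * v ≤ m * (t d &&& 4095) + 8388608 := by
    intro d hd
    have h1 : (m - d) * u ≤ (m - d) * 4095 := Nat.mul_le_mul_left _ (by omega)
    have h2 : d * v ≤ d * 4095 := Nat.mul_le_mul_left _ (by omega)
    omega
  have key := sign_bits (w := 23) (n := m + 1)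
    (Z := fun d => m * (t d &&& 4095) + 8388608 - ((m - d) * u + d * v))
    (by
      intro d hd
      have h1 : m * (t d &&& 4095) ≤ m * 4095 := Nat.mul_le_mul_left _ (hyl d)
      show m * (t d &&& 4095) + 8388608 - ((m - d) * u + d * v) < 2 ^ 24
      have : (2 : ℕ) ^ 24 = 16777216 := by norm_num
      omega)
    (by
      rw [← e24, ← e23, ← hH]
      rw [← sum_sub_pow (b := 16777216) (m + 1) _ _ hbound, ← hleft, ← hline]
      exact h')
  intro d hd
  have h1 := key d (by omega)
  have h2 := hbound d (by omega)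
  have h3 : m * (t d &&& 4095) ≤ m * t d := Nat.mul_le_mul_left _ (hyt d)
  rw [← e23] at h1
  have h4 : 8388608 ≤ m * (t d &&& 4095) + 8388608 - ((m - d) * u + d * v) := h1
  omega

end Pool.Agent.EdgeIso.Chk
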