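import Pool.Agent.Lib.MP_48c8f3_co.Bas
import Pool.Agent.Lib.MP_48c8f3_co.FJ

set_option autoImplicit false

/-!
MP_48c8f3_co, generic checker, part B: the evaluator (version 6, few kernel reductions).
-/

noncomputable section

namespace Pool.Agent.EdgeIso.Chk

open Finset

/-- constants of a system -/
structure Cst where
  PV : ℕ
  NV : ℕ
  FV : ℕ
  GG : ℕ
  KG : ℕ
  ones : ℕ
  hones : ℕ
  n64 : ℕ
  nb : ℕ
  W : ℕ
  TW : ℕ
  GT : ℕ
  PT : ℕ
  EF : ℕ

/-- continuations -/
abbrev K := ℕ → ℕ → Bool
/-- functions which process one item: state, code, accumulator, continuation -/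
abbrev F := ℕ → ℕ → ℕ → K → Bool

/-- decision trees of items -/
inductive FT where
  | lf (f : F)
  | nd (c : ℕ) (l r : FT)

def FT.get (t : FT) : ℕ → F :=
  @FT.rec (fun _ => ℕ → F) (fun f _ => f)
    (fun c _ _ gl gr i => @Bool.rec (fun _ => F) (gr i) (gl i) (Nat.ble i c)) t

/-- decision trees of rules -/
inductive RT where
  | lf (f : ℕ → ℕ)
  | nd (c : ℕ) (l r : RT)

def RT.get (t : RT) : ℕ → ℕ → ℕ :=
  @RT.rec (fun _ => ℕ → ℕ → ℕ) (fun f _ => f)
    (fun c _ _ gl gr i => @Bool.rec (fun _ => ℕ → ℕ) (gr i) (gl i) (Nat.ble i c)) t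

/-- entries of the packed table of `g` -/
def gt (GT m : ℕ) : ℕ := Nat.land (Nat.shiftRight GT (Nat.mul 16 m)) 65535

/-- the defect, computed from the table of `g` -/
def dgt (GT i j : ℕ) : ℕ :=
  Nat.sub (gt GT (Nat.add i j)) (Nat.add (Nat.add (gt GT i) (gt GT j))
    (@Bool.rec (fun _ => ℕ) j i (Nat.ble i j)))

/-- entries of a table: row `b`, column `i` (digits of 24 bits) -/
def tab (T W b i : ℕ) : ℕ :=
  Nat.mod (Nat.shiftRight T (Nat.mul 24 (Nat.add (Nat.mul b W) i))) 16777216

/-- a field of the state -/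
def fld (st sh : ℕ) : ℕ := Nat.land (Nat.shiftRight st sh) 4095

/-- section 1 of a leaf: linear items -/
def linLoop (C : Cst) (fuel : ℕ) : ℕ → ℕ → K → Bool :=
  @Nat.rec (fun _ => ℕ → ℕ → K → Bool) (fun _ _ _ => false)
    (fun _ ih code A k => @Bool.rec (fun _ => Bool)
      (ih (Nat.shiftRight code 25) (Nat.add A (Nat.mul (Nat.land (Nat.shiftRight code 9) 65535)
        (Nat.land (Nat.shiftRight C.PT (Nat.mul C.W (Nat.land code 511))) C.TW))) k)
      (k (Nat.shiftRight code 9) A)
      (Nat.beq (Nat.land code 511) 511)) fuel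

/-- section 2 of a leaf: bounds of the cell -/
def bndLoop (C : Cst) (st fuel : ℕ) : ℕ → ℕ → K → Bool :=
  @Nat.rec (fun _ => ℕ → ℕ → K → Bool) (fun _ _ _ => false)
    (fun _ ih code A k => @Bool.rec (fun _ => Bool)
      (ih (Nat.shiftRight code 23) (Nat.add A (Nat.mul (Nat.land (Nat.shiftRight code 7) 65535)
        (Nat.add (Nat.land (Nat.shiftRight C.EF (Nat.mul C.W (Nat.land code 127))) C.TW)
          (Nat.mul (Nat.mul C.KG (Nat.land (Nat.shiftRight st (Nat.mul 12 (Nat.land code 127))) 4095))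
            (@Bool.rec (fun _ => ℕ) C.PV C.NV (Nat.beq (Nat.land code 1) 0)))))) k)
      (k (Nat.shiftRight code 7) A)
      (Nat.beq (Nat.land code 127) 127)) fuel

/-- section 3 of a leaf: all other items -/
def itLoop (T : FT) (st fuel : ℕ) : ℕ → ℕ → K → Bool :=
  @Nat.rec (fun _ => ℕ → ℕ → K → Bool) (fun _ _ _ => false)
    (fun _ ih code A k => @Bool.rec (fun _ => Bool)
      (T.get (Nat.land code 511) st (Nat.shiftRight code 9) A (fun c' A' => ih c' A' k))
      (k (Nat.shiftRight code 9) A)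
      (Nat.beq (Nat.land code 511) 511)) fuel

def leaf (C : Cst) (T : FT) (st code : ℕ) (k : ℕ → Bool) : Bool :=
  linLoop C 64 code C.FV (fun c1 A1 => bndLoop C st 64 c1 A1 (fun c2 A2 => itLoop T st 64 c2 A2
    (fun c3 A3 => @Bool.rec (fun _ => Bool) false (k c3)
      (finC C.ones C.hones C.nb A3 (Nat.shiftRight A3 C.n64)))))

/-! ### the items -/

def lowK (C : Cst) (PD Ps Np Nq h i j mu code A d00 d10 d01 : ℕ) (k : K) : Bool :=
  k code (Nat.add A (Nat.mul mu (Nat.add
        (Nat.add PD (Nat.add (Nat.mul d00 Ps) (Nat.add (Nat.mul d10 Np) (Nat.mul d01 Nq))))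
        (Nat.mul (Nat.mul C.KG h) (Nat.add
          (Nat.mul (Nat.add (Nat.mul i d10) (Nat.mul j d01)) C.PV)
          (Nat.mul (Nat.mul (Nat.succ (Nat.add i j)) d00) C.NV))))))

def pLow (C : Cst) (ks1 PD Ps Np Nq st h i j mu code A : ℕ) (k : K) : Bool :=
  @Bool.rec (fun _ => Bool) false
    (lowK C PD Ps Np Nq h i j mu code A (dgt C.GT i j) (dgt C.GT (Nat.succ i) j)
      (dgt C.GT i (Nat.succ j)) k)
    (Nat.ble (Nat.land (Nat.shiftRight st ks1) 4095) (Nat.mul (Nat.succ (Nat.add i j)) h))

def upK (C : Cst) (PD Ns Pp Pq h i j mu code A d11 d01 d10 : ℕ) (k : K) : Bool :=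
  k code (Nat.add A (Nat.mul mu (Nat.add
        (Nat.add PD (Nat.add (Nat.mul d11 Ns) (Nat.add (Nat.mul d01 Pp) (Nat.mul d10 Pq))))
        (Nat.mul (Nat.mul C.KG h) (Nat.add
          (Nat.mul (Nat.mul (Nat.succ (Nat.add i j)) d11) C.PV)
          (Nat.mul (Nat.add (Nat.mul (Nat.succ i) d01) (Nat.mul (Nat.succ j) d10)) C.NV))))))

def pUp (C : Cst) (ks PD Ns Pp Pq st h i j mu code A : ℕ) (k : K) : Bool :=
  @Bool.rec (fun _ => Bool) false
    (upK C PD Ns Pp Pq h i j mu code A (dgt C.GT (Nat.succ i) (Nat.succ j))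
      (dgt C.GT i (Nat.succ j)) (dgt C.GT (Nat.succ i) j) k)
    (Nat.ble (Nat.mul (Nat.succ (Nat.add i j)) h) (Nat.land (Nat.shiftRight st ks) 4095))

/-- `⌈a / 2^r⌉ - 1` -/
def cdiv (a r : ℕ) : ℕ :=
  Nat.pred (Nat.shiftRight (Nat.add a (Nat.pred (Nat.shiftLeft 1 r))) r)

/-- a defect term; data: `mu` 16 bits, type 1 bit, `r` 4 bits -/
def pDT (C : Cst) (kp kp1 kq kq1 ks ks1 PD Ps Np Nq Ns Pp Pq : ℕ) : F := fun st code A k =>
  @Bool.rec (fun _ => Bool)
    (pUp C ks PD Ns Pp Pq st (Nat.shiftLeft 1 (Nat.land (Nat.shiftRight code 17) 15))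
      (cdiv (Nat.land (Nat.shiftRight st kp1) 4095) (Nat.land (Nat.shiftRight code 17) 15))
      (cdiv (Nat.land (Nat.shiftRight st kq1) 4095) (Nat.land (Nat.shiftRight code 17) 15))
      (Nat.land code 65535) (Nat.shiftRight code 21) A k)
    (pLow C ks1 PD Ps Np Nq st (Nat.shiftLeft 1 (Nat.land (Nat.shiftRight code 17) 15))
      (Nat.shiftRight (Nat.land (Nat.shiftRight st kp) 4095)
        (Nat.land (Nat.shiftRight code 17) 15))
      (Nat.shiftRight (Nat.land (Nat.shiftRight st kq) 4095)
        (Nat.land (Nat.shiftRight code 17) 15))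
      (Nat.land code 65535) (Nat.shiftRight code 21) A k)
    (Nat.beq (Nat.land (Nat.shiftRight code 16) 1) 0)

/-- `∑ 2^(24 d)`, `d < 256` -/
def LO : ℕ := 0x1000001000001000001000001000001000001000001000001000001000001000001000001000001000001000001000001000001000001000001000001000001000001000001000001000001000001000001000001000001000001000001000001000001000001000001000001000001000001000001000001000001000001000001000001000001000001000001000001000001000001000001000001000001000001000001000001000001000001000001000001000001000001000001000001000001000001000001000001000001000001000001000001000001000001000001000001000001000001000001000001000001000001000001000001000001000001000001000001000001000001000001000001000001000001000001000001000001000001000001000001000001000001000001000001000001000001000001000001000001000001000001000001000001000001000001000001000001000001000001000001000001000001000001000001000001000001000001000001000001000001000001000001000001000001000001000001000001000001000001000001000001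000001000001000001000001000001000001000001000001000001000001000001000001000001000001000001000001000001000001000001000001000001000001000001000001000001000001000001000001000001000001000001000001000001000001000001000001000001000001000001000001000001000001000001000001000001000001000001000001000001000001000001000001000001000001000001000001000001000001000001000001000001000001000001000001000001000001000001000001000001000001000001000001000001000001000001000001000001000001000001000001000001000001000001000001000001000001000001000001000001000001000001000001000001000001000001000001000001000001000001000001000001000001000001000001000001000001000001000001000001000001000001000001000001000001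

/-- `∑ d 2^(24 d)`, `d < 256` -/
def LR : ℕ := 0xff0000fe0000fd0000fc0000fb0000fa0000f90000f80000f70000f60000f50000f40000f30000f20000f10000f00000ef0000ee0000ed0000ec0000eb0000ea0000e90000e80000e70000e60000e50000e40000e30000e20000e10000e00000df0000de0000dd0000dc0000db0000da0000d90000d80000d70000d60000d50000d40000d30000d20000d10000d00000cf0000ce0000cd0000cc0000cb0000ca0000c90000c80000c70000c60000c50000c40000c30000c20000c10000c00000bf0000be0000bd0000bc0000bb0000ba0000b90000b80000b70000b60000b50000b40000b30000b20000b10000b00000af0000ae0000ad0000ac0000ab0000aa0000a90000a80000a70000a60000a50000a40000a30000a20000a10000a000009f00009e00009d00009c00009b00009a00009900009800009700009600009500009400009300009200009100009000008f00008e00008d00008c00008b00008a00008900008800008700008600008500008400008300008200008100008000007f00007e00007d00007c00007b00007a00007900007800007700007600007500007400007300007200007100007000006f00006e00006d00006c00006b00006a0000690000680000670000660000650000640000630000620000610000600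0005f00005e00005d00005c00005b00005a00005900005800005700005600005500005400005300005200005100005000004f00004e00004d00004c00004b00004a00004900004800004700004600004500004400004300004200004100004000003f00003e00003d00003c00003b00003a00003900003800003700003600003500003400003300003200003100003000002f00002e00002d00002c00002b00002a00002900002800002700002600002500002400002300002200002100002000001f00001e00001d00001c00001b00001a00001900001800001700001600001500001400001300001200001100001000000f00000e00000d00000c00000b00000a000009000008000007000006000005000004000003000002000001000000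

def lineC (T o m u v q : ℕ) : Bool :=
  @Bool.rec (fun _ => Bool) false
    (lineT m u v (Nat.shiftRight T o) (Nat.mod LO q) (Nat.mod LR q)) (Nat.ble m 255)

def ttK (PLU Px Nx FP FN cb T W i m j b u v mu code A : ℕ) (k : K) : Bool :=
  @Bool.rec (fun _ => Bool) false
    (k code (Nat.add A (Nat.mul mu (Nat.add
      (Nat.add (Nat.mul m PLU) (Nat.add (Nat.mul u Px) (Nat.mul v Nx)))
      (Nat.add (Nat.mul (Nat.add (Nat.mul m (Nat.mul cb b)) (Nat.mul i v)) FP)
        (Nat.mul (Nat.mul j u) FN))))))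
    (lineC T (Nat.mul 24 (Nat.add (Nat.mul b W) i)) m u v
      (Nat.shiftLeft 1 (Nat.mul 24 (Nat.succ m))))

/-- table term, penalty form; data: `mu` 16 bits, `u` 12 bits, `v` 12 bits -/
def pTT (kx kx1 kg1 hx hx' cg cg' PLU Px Nx FP FN cb T W : ℕ) : F := fun st code A k =>
  ttK PLU Px Nx FP FN cb T W (Nat.div (Nat.land (Nat.shiftRight st kx) 4095) hx)
    (Nat.sub (Nat.div (Nat.add (Nat.land (Nat.shiftRight st kx1) 4095) hx') hx)
      (Nat.div (Nat.land (Nat.shiftRight st kx) 4095) hx))
    (Nat.div (Nat.add (Nat.land (Nat.shiftRight st kx1) 4095) hx') hx)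
    (Nat.div (Nat.add (Nat.land (Nat.shiftRight st kg1) 4095) cg') cg)
    (Nat.land (Nat.shiftRight code 16) 4095) (Nat.land (Nat.shiftRight code 28) 4095)
    (Nat.land code 65535) (Nat.shiftRight code 40) A k

def tlK (PL Px Nx FP FN T W i m j b u v mu code A : ℕ) (k : K) : Bool :=
  @Bool.rec (fun _ => Bool) false
    (k code (Nat.add A (Nat.mul mu (Nat.add
      (Nat.add (Nat.mul m PL) (Nat.add (Nat.mul u Px) (Nat.mul v Nx)))
      (Nat.add (Nat.mul (Nat.mul i v) FP) (Nat.mul (Nat.mul j u) FN))))))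
    (lineC T (Nat.mul 24 (Nat.add (Nat.mul b W) i)) m u v
      (Nat.shiftLeft 1 (Nat.mul 24 (Nat.succ m))))

/-- table term, plain form; data: `mu` 16 bits, `u` 12 bits, `v` 12 bits -/
def pTL (kx kx1 kg hx hx' cg PL Px Nx FP FN T W : ℕ) : F := fun st code A k =>
  tlK PL Px Nx FP FN T W (Nat.div (Nat.land (Nat.shiftRight st kx) 4095) hx)
    (Nat.sub (Nat.div (Nat.add (Nat.land (Nat.shiftRight st kx1) 4095) hx') hx)
      (Nat.div (Nat.land (Nat.shiftRight st kx) 4095) hx))
    (Nat.div (Nat.add (Nat.land (Nat.shiftRight st kx1) 4095) hx') hx)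
    (Nat.div (Nat.land (Nat.shiftRight st kg) 4095) cg)
    (Nat.land (Nat.shiftRight code 16) 4095) (Nat.land (Nat.shiftRight code 28) 4095)
    (Nat.land code 65535) (Nat.shiftRight code 40) A k

/-- a linear item valid above a value of an expression -/
def pCge (sh c P : ℕ) : F := fun st code A k =>
  @Bool.rec (fun _ => Bool) false
    (k (Nat.shiftRight code 16) (Nat.add A (Nat.mul (Nat.land code 65535) P)))
    (Nat.ble c (Nat.land (Nat.shiftRight st sh) 4095))

/-- a linear item valid below a value of an expression -/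
def pCle (sh c P : ℕ) : F := fun st code A k =>
  @Bool.rec (fun _ => Bool) false
    (k (Nat.shiftRight code 16) (Nat.add A (Nat.mul (Nat.land code 65535) P)))
    (Nat.ble (Nat.land (Nat.shiftRight st sh) 4095) c)

def mcK (C : Cst) (P1 P2 NZ l h mu code A : ℕ) (k : K) : Bool :=
  k code (Nat.add A (Nat.mul mu (Nat.add (Nat.add NZ (Nat.mul (Nat.mul l h) C.NV))
      (Nat.add (Nat.mul h P1) (Nat.mul l P2)))))

/-- a product term; data: `mu` 16 bits, type 1 bit -/
def pMc (C : Cst) (k1 k1' k2 k2' P1 P2 NZ : ℕ) : F := fun st code A k =>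
  @Bool.rec (fun _ => Bool)
    (mcK C P2 P1 NZ (Nat.land (Nat.shiftRight st k2) 4095) (Nat.land (Nat.shiftRight st k1') 4095)
      (Nat.land code 65535) (Nat.shiftRight code 17) A k)
    (mcK C P1 P2 NZ (Nat.land (Nat.shiftRight st k1) 4095) (Nat.land (Nat.shiftRight st k2') 4095)
      (Nat.land code 65535) (Nat.shiftRight code 17) A k)
    (Nat.beq (Nat.land (Nat.shiftRight code 16) 1) 0)

/-- a hinge of the item `ts`: fields of the expression `E_g`, coefficients, packed form `-E_g` -/
structure Hin where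
  kg : ℕ
  kg1 : ℕ
  S : ℕ
  D : ℕ
  H : ℕ
  Ng : ℕ

def maxN (a b : ℕ) : ℕ := @Bool.rec (fun _ => ℕ) a b (Nat.ble a b)

/-- the constant of the line with slope `l / 8` above the hinge, in units `V / (8 s8)`,
`RN' = RN - 1` -/
def hinNu (RN RN' Sv D l lx hx lg hg : ℕ) : ℕ :=
  Nat.div (Nat.add (maxN (Nat.mul (Nat.sub 8 l) (Nat.sub (Nat.mul Sv hx) (Nat.mul D lg)))
    (Nat.mul l (Nat.sub (Nat.mul D hg) (Nat.mul Sv lx)))) RN') RN

/-- one hinge: `w = m * H * al`, `Sv = S * v` -/
def hinK (C : Cst) (Qx s8 RN RN' Sv D Ng w l lx hx lg hg code A : ℕ) (k : K) : Bool :=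
  @Bool.rec (fun _ => Bool) false
    (k code (Nat.add A (Nat.mul w (Nat.add
      (Nat.mul (Nat.mul s8 l) (Nat.add (Nat.mul Sv Qx) (Nat.mul D Ng)))
      (Nat.mul (hinNu RN RN' Sv D l lx hx lg hg) C.PV)))))
    (Nat.ble l 8)

def hinLoop (C : Cst) (st kx kx1 Qx s8 RN RN' TA WA b m : ℕ) (hs : List Hin) :
    ℕ → ℕ → ℕ → K → Bool :=
  @List.rec Hin (fun _ => ℕ → ℕ → ℕ → K → Bool)
    (fun _ code A k => k code A)
    (fun h _ ih n code A k =>
      hinK C Qx s8 RN RN' (Nat.mul h.S (tab TA WA b (Nat.succ n))) h.D h.Ng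
        (Nat.mul m (Nat.mul h.H (tab TA WA b n))) (Nat.land code 15)
        (Nat.land (Nat.shiftRight st kx) 4095) (Nat.land (Nat.shiftRight st kx1) 4095)
        (Nat.land (Nat.shiftRight st h.kg) 4095) (Nat.land (Nat.shiftRight st h.kg1) 4095)
        (Nat.shiftRight code 4) A
        (fun c' A' => ih (Nat.add n 2) c' A' k)) hs

def tsK (C : Cst) (kx kx1 PL Px Nx FP FN T W Qx s8 RN RN' : ℕ) (hs : List Hin) (TA WA st i m j b
    u v mu code A : ℕ) (k : K) : Bool :=
  @Bool.rec (fun _ => Bool) false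
    (hinLoop C st kx kx1 Qx s8 RN RN' TA WA b (Nat.mul mu m) hs 0 code
      (Nat.add A (Nat.mul mu (Nat.add
        (Nat.add (Nat.mul m PL) (Nat.add (Nat.mul u Px) (Nat.mul v Nx)))
        (Nat.add (Nat.mul (Nat.mul i v) FP) (Nat.mul (Nat.mul j u) FN))))) k)
    (lineC T (Nat.mul 24 (Nat.add (Nat.mul b W) i)) m u v
      (Nat.shiftLeft 1 (Nat.mul 24 (Nat.succ m))))

/-- facet item; data: `mu` 16 bits, `b` 10 bits, `u` 12 bits, `v` 12 bits, then 4 bits for every
hinge -/
def pTS (C : Cst) (kx kx1 hx hx' PL Px Nx FP FN T W Qx s8 RN RN' : ℕ) (hs : List Hin)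
    (TA WA : ℕ) : F := fun st code A k =>
  tsK C kx kx1 PL Px Nx FP FN T W Qx s8 RN RN' hs TA WA st
    (Nat.div (Nat.land (Nat.shiftRight st kx) 4095) hx)
    (Nat.sub (Nat.div (Nat.add (Nat.land (Nat.shiftRight st kx1) 4095) hx') hx)
      (Nat.div (Nat.land (Nat.shiftRight st kx) 4095) hx))
    (Nat.div (Nat.add (Nat.land (Nat.shiftRight st kx1) 4095) hx') hx)
    (Nat.land (Nat.shiftRight code 16) 1023)
    (Nat.land (Nat.shiftRight code 26) 4095) (Nat.land (Nat.shiftRight code 38) 4095)
    (Nat.land code 65535) (Nat.shiftRight code 50) A k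

/-- the item `f`, usable if the bounds of an expression lie between `a` and `b` -/
def pGate (k0 k1 a b : ℕ) (f : F) : F := fun st code A k =>
  @Bool.rec (fun _ => Bool) false
    (@Bool.rec (fun _ => Bool) false (f st code A k)
      (Nat.ble (Nat.land (Nat.shiftRight st k1) 4095) b))
    (Nat.ble a (Nat.land (Nat.shiftRight st k0) 4095))

/-! ### rules -/

/-- replace a field of the state -/
def upd (st sh c : ℕ) : ℕ :=
  Nat.add (Nat.sub st (Nat.shiftLeft (Nat.land (Nat.shiftRight st sh) 4095) sh))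
    (Nat.shiftLeft c sh)

/-- sums of fields: constant -/
def rs0 (c : ℕ) : ℕ → ℕ := fun _ => c

/-- sums of fields: one more field -/
def rs1 (a f : ℕ) (g : ℕ → ℕ) : ℕ → ℕ := fun st =>
  Nat.add (Nat.mul a (Nat.land (Nat.shiftRight st f) 4095)) (g st)

def updH (st t v : ℕ) : ℕ :=
  @Bool.rec (fun _ => ℕ) st (upd st t v) (Nat.ble v (Nat.land (Nat.shiftRight st t) 4095))

def updL (st t v : ℕ) : ℕ :=
  @Bool.rec (fun _ => ℕ) st (@Bool.rec (fun _ => ℕ) st (upd st t v) (Nat.ble v 4095))
    (Nat.ble (Nat.land (Nat.shiftRight st t) 4095) v)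

/-- a rule for an upper bound, `d' = d - 1` -/
def ruH (t d d' : ℕ) (g h : ℕ → ℕ) : ℕ → ℕ := fun st =>
  updH st t (Nat.div (Nat.add (Nat.sub (g st) (h st)) d') d)

/-- a rule for a lower bound -/
def ruL (t d : ℕ) (g h : ℕ → ℕ) : ℕ → ℕ := fun st =>
  updL st t (Nat.div (Nat.sub (g st) (h st)) d)

/-- composition of rules: first `g`, then `h` -/
def ruC (g h : ℕ → ℕ) : ℕ → ℕ := fun st => h (g st)

/-! ### trees -/

def spl (ih : ℕ → ℕ → (ℕ → Bool) → Bool) (st sh c code : ℕ) (k : ℕ → Bool) : Bool :=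
  ih (upd st (Nat.add sh 12) c) code (fun code' => ih (upd st sh c) code' k)

/-- Trees: bit `0`: leaf.  Bit `1`, six bits `e`, twelve bits `c`: if `e = 63`, the rule number `c` is
applied to the state and one subtree follows; otherwise the cell is cut at the value `c` of the
expression `e` and two subtrees follow. -/
def run (C : Cst) (T : FT) (R : RT) (fuel : ℕ) : ℕ → ℕ → (ℕ → Bool) → Bool :=
  @Nat.rec (fun _ => ℕ → ℕ → (ℕ → Bool) → Bool)
    (fun _ _ _ => false)
    (fun _ ih st code k =>
      @Bool.rec (fun _ => Bool)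
        (@Bool.rec (fun _ => Bool)
          (spl ih st (Nat.mul 24 (Nat.land (Nat.shiftRight code 1) 63))
            (Nat.land (Nat.shiftRight code 7) 4095) (Nat.shiftRight code 19) k)
          (ih (R.get (Nat.land (Nat.shiftRight code 7) 4095) st) (Nat.shiftRight code 19) k)
          (Nat.beq (Nat.land (Nat.shiftRight code 1) 63) 63))
        (leaf C T st (Nat.shiftRight code 1) k)
        (Nat.beq (Nat.land code 1) 0)) fuel

/-! ### semantics -/

/-- the state `st` holds bounds of the expressions `E e` in units `V / GG` -/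
def Cell (GG V : ℤ) (E : ℕ → ℤ) (st : ℕ) : Prop :=
  ∃ S : ℕ → ℕ, st = ∑ k ∈ range 128, S k * 4096 ^ k ∧ (∀ k, k < 128 → S k < 4096) ∧
    ∀ e, e < 64 → (S (2 * e) : ℤ) * V ≤ GG * E e ∧ GG * E e ≤ (S (2 * e + 1) : ℤ) * V

/-- sums with nonnegative values -/
def Good (n : ℕ) (x : ℕ → ℤ) (A : ℕ) : Prop := ∃ v, 0 ≤ v ∧ Acc n x A v

theorem Good.smul {n : ℕ} {x : ℕ → ℤ} {A : ℕ} (h : Good n x A) (c : ℕ) : Good n x (c * A) := by
  obtain ⟨v, h1, h2⟩ := h
  exact ⟨c * v, by positivity, h2.smul c⟩

theorem Good.of {n : ℕ} {x : ℕ → ℤ} {A : ℕ} {v : ℤ} (h : Acc n x A v) (hv : 0 ≤ v)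
    {A' : ℕ} (hA : A' = A) : Good n x A' := by
  rw [hA]
  exact ⟨v, hv, h⟩

/-- sums with positive values -/
def Pos (n : ℕ) (x : ℕ → ℤ) (A : ℕ) : Prop := ∃ v, 0 < v ∧ Acc n x A v

theorem Pos.add {n : ℕ} {x : ℕ → ℤ} {A A' : ℕ} (h : Pos n x A) (h' : Good n x A') :
    Pos n x (A + A') := by
  obtain ⟨v, h1, h2⟩ := h
  obtain ⟨v', h1', h2'⟩ := h'
  exact ⟨v + v', by linarith, h2.add h2'⟩

/-- sound item functions -/
def Snd (GG : ℕ) (n : ℕ) (x : ℕ → ℤ) (V : ℤ) (E : ℕ → ℤ) (f : F) : Prop :=
  ∀ (st code A : ℕ) (k : K), f st code A k = true → ∃ c' A', k c' A' = true ∧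
    (Cell GG V E st → Pos n x A → Pos n x A')

theorem fld_lo {GG V : ℤ} {E : ℕ → ℤ} {st e : ℕ} (h : Cell GG V E st) (he : e < 64) :
    (fld st (24 * e) : ℤ) * V ≤ GG * E e := by
  obtain ⟨S, h1, h2, h3⟩ := h
  have : fld st (24 * e) = S (2 * e) := by
    show Nat.land (st >>> (24 * e)) 4095 = _
    rw [land4095]
    rw [Nat.shiftRight_eq_div_pow, h1]
    have : (2 : ℕ) ^ (24 * e) = 4096 ^ (2 * e) := by
      rw [show 24 * e = 12 * (2 * e) by ring, pow_mul]; norm_num
    rw [this]
    exact dig_sum (by norm_num) 128 S (2 * e) h2 (by omega)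
  rw [this]
  exact (h3 e he).1

theorem fld_hi {GG V : ℤ} {E : ℕ → ℤ} {st e : ℕ} (h : Cell GG V E st) (he : e < 64) :
    GG * E e ≤ (fld st (24 * e + 12) : ℤ) * V := by
  obtain ⟨S, h1, h2, h3⟩ := h
  have : fld st (24 * e + 12) = S (2 * e + 1) := by
    show Nat.land (st >>> (24 * e + 12)) 4095 = _
    rw [land4095]
    rw [Nat.shiftRight_eq_div_pow, h1]
    have : (2 : ℕ) ^ (24 * e + 12) = 4096 ^ (2 * e + 1) := by
      rw [show 24 * e + 12 = 12 * (2 * e + 1) by ring, pow_mul]; norm_num
    rw [this]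
    exact dig_sum (by norm_num) 128 S (2 * e + 1) h2 (by omega)
  rw [this]
  exact (h3 e he).2

theorem upd_digit {st : ℕ} {S : ℕ → ℕ} (h1 : st = ∑ k ∈ range 128, S k * 4096 ^ k)
    (h2 : ∀ k, k < 128 → S k < 4096) {t : ℕ} (ht : t < 128) (c : ℕ) :
    upd st (12 * t) c = ∑ k ∈ range 128, Function.update S t c k * 4096 ^ k := by
  have hf : Nat.land (Nat.shiftRight st (12 * t)) 4095 = S t := by
    rw [land4095]
    show (st >>> (12 * t)) % 4096 = _
    rw [Nat.shiftRight_eq_div_pow, h1]
    have : (2 : ℕ) ^ (12 * t) = 4096 ^ t := by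
      rw [pow_mul]; norm_num
    rw [this]
    exact dig_sum (by norm_num) 128 S t h2 ht
  unfold upd
  rw [hf]
  show st - (S t) <<< (12 * t) + c <<< (12 * t) = _
  rw [Nat.shiftLeft_eq, Nat.shiftLeft_eq]
  have hp : (2 : ℕ) ^ (12 * t) = 4096 ^ t := by
    rw [pow_mul]; norm_num
  rw [hp, h1]
  have htm : t ∈ range 128 := mem_range.mpr ht
  rw [← Finset.add_sum_erase _ _ htm, ← Finset.add_sum_erase (range 128)
    (fun k => Function.update S t c k * 4096 ^ k) htm]
  simp only [Function.update_self]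
  have : ∑ k ∈ (range 128).erase t, Function.update S t c k * 4096 ^ k =
      ∑ k ∈ (range 128).erase t, S k * 4096 ^ k := by
    apply sum_congr rfl
    intro k hk
    rw [Function.update_of_ne (ne_of_mem_erase hk)]
  rw [this]
  omega

theorem cell_upd_hi {GG V : ℤ} {E : ℕ → ℤ} {st e c : ℕ} (h : Cell GG V E st) (he : e < 64)
    (hc : c < 4096) (hE : GG * E e ≤ c * V) : Cell GG V E (upd st (24 * e + 12) c) := by
  obtain ⟨S, h1, h2, h3⟩ := h
  have hsh : 24 * e + 12 = 12 * (2 * e + 1) := by ring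
  refine ⟨Function.update S (2 * e + 1) c, ?_, ?_, ?_⟩
  · rw [hsh]
    exact upd_digit h1 h2 (by omega) c
  · intro k hk
    by_cases hk2 : k = 2 * e + 1
    · rw [hk2, Function.update_self]; exact hc
    · rw [Function.update_of_ne hk2]; exact h2 k hk
  · intro e' he'
    rw [Function.update_of_ne (by omega)]
    refine ⟨(h3 e' he').1, ?_⟩
    by_cases hee : e' = e
    · subst hee
      rw [Function.update_self]
      exact hE
    · rw [Function.update_of_ne (by omega)]
      exact (h3 e' he').2

theorem cell_upd_lo {GG V : ℤ} {E : ℕ → ℤ} {st e c : ℕ} (h : Cell GG V E st) (he : e < 64)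
    (hc : c < 4096) (hE : c * V ≤ GG * E e) : Cell GG V E (upd st (24 * e) c) := by
  obtain ⟨S, h1, h2, h3⟩ := h
  have hsh : 24 * e = 12 * (2 * e) := by ring
  refine ⟨Function.update S (2 * e) c, ?_, ?_, ?_⟩
  · rw [hsh]
    exact upd_digit h1 h2 (by omega) c
  · intro k hk
    by_cases hk2 : k = 2 * e
    · rw [hk2, Function.update_self]; exact hc
    · rw [Function.update_of_ne hk2]; exact h2 k hk
  · intro e' he'
    rw [Function.update_of_ne (a := 2 * e' + 1) (by omega)]
    refine ⟨?_, (h3 e' he').2⟩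
    by_cases hee : e' = e
    · subst hee
      rw [Function.update_self]
      exact hE
    · rw [Function.update_of_ne (by omega)]
      exact (h3 e' he').1

end Pool.Agent.EdgeIso.Chk
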