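import Pool.Agent.Lib.MP_48c8f3_co.Bas
import Pool.Agent.Lib.MP_48c8f3_co.FK

set_option autoImplicit false

/-!
MP_48c8f3_co, generic checker, part C: soundness.
-/

namespace Pool.Agent.EdgeIso.Chk

open Finset

/-- bounded quantifier -/
def allB : ℕ → (ℕ → Bool) → Bool
  | 0, _ => true
  | n + 1, f => f n && allB n f

theorem allB_spec : ∀ (n : ℕ) (f : ℕ → Bool), allB n f = true → ∀ m, m < n → f m = true := by
  intro n
  induction n with
  | zero => intro f _ m hm; omega
  | succ n ih =>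
    intro f h m hm
    simp only [allB, Bool.and_eq_true] at h
    rcases Nat.lt_succ_iff_lt_or_eq.mp hm with h1 | h1
    · exact ih f h.2 m h1
    · rw [h1]; exact h.1

theorem brec_true {c a : Bool} (h : @Bool.rec (fun _ => Bool) false a c = true) :
    c = true ∧ a = true := by
  cases c with
  | false => exact absurd h (by simp)
  | true => exact ⟨rfl, h⟩

theorem LO_dig : ∀ d, d < 256 → LO / 16777216 ^ d % 16777216 = 1 := by
  have h : allB 256 (fun d => Nat.beq (Nat.mod (Nat.shiftRight LO (24 * d)) 16777216) 1) = true := by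
    decide +kernel
  intro d hd
  have h1 := Nat.eq_of_beq_eq_true (allB_spec _ _ h d hd)
  have e : (16777216 : ℕ) ^ d = 2 ^ (24 * d) := by rw [pow_mul]; norm_num
  rw [e, ← Nat.shiftRight_eq_div_pow]
  exact h1

theorem LR_dig : ∀ d, d < 256 → LR / 16777216 ^ d % 16777216 = d := by
  have h : allB 256 (fun d => Nat.beq (Nat.mod (Nat.shiftRight LR (24 * d)) 16777216) d) = true := by
    decide +kernel
  intro d hd
  have h1 := Nat.eq_of_beq_eq_true (allB_spec _ _ h d hd)
  have e : (16777216 : ℕ) ^ d = 2 ^ (24 * d) := by rw [pow_mul]; norm_num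
  rw [e, ← Nat.shiftRight_eq_div_pow]
  exact h1

theorem lineC_spec {T W b i m u v : ℕ} (hu : u < 4096) (hv : v < 4096)
    (h : lineC T (Nat.mul 24 (Nat.add (Nat.mul b W) i)) m u v
      (Nat.shiftLeft 1 (Nat.mul 24 (Nat.succ m))) = true) :
    ∀ d, d ≤ m → (m - d) * u + d * v ≤ m * tab T W b (i + d) := by
  have hq : Nat.shiftLeft 1 (Nat.mul 24 (Nat.succ m)) = 16777216 ^ (m + 1) := by
    show 1 <<< (24 * (m + 1)) = _
    rw [Nat.shiftLeft_eq, Nat.one_mul, pow_mul]
    norm_num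
  unfold lineC at h
  obtain ⟨hm', h⟩ := brec_true h
  have hm : m ≤ 255 := Nat.le_of_ble_eq_true hm'
  rw [hq] at h
  set t : ℕ → ℕ := fun d => tab T W b (i + d) with ht
  have hb : (0 : ℕ) < 16777216 := by norm_num
  refine lineT_spec (t := t) (by omega) hu hv ?_ ?_ ?_ h
  · intro d _
    show (T >>> (24 * (b * W + i))) / 16777216 ^ d % 16777216 =
      (T >>> (24 * (b * W + (i + d)))) % 16777216
    have e : (16777216 : ℕ) ^ d = 2 ^ (24 * d) := by rw [pow_mul]; norm_num
    rw [e, ← Nat.shiftRight_eq_div_pow, ← Nat.shiftRight_add]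
    congr 2
    ring
  · show LO % 16777216 ^ (m + 1) = _
    rw [dig_expand]
    apply sum_congr rfl
    intro d hd
    have := mem_range.mp hd
    rw [LO_dig d (by omega)]
  · show LR % 16777216 ^ (m + 1) = _
    rw [dig_expand]
    apply sum_congr rfl
    intro d hd
    have := mem_range.mp hd
    rw [LR_dig d (by omega)]

theorem fld_lt (st sh : ℕ) : fld st sh < 4096 := by
  unfold fld
  rw [land4095]
  exact Nat.mod_lt _ (by norm_num)

theorem land4095_lt (a : ℕ) : Nat.land a 4095 < 4096 := by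
  rw [land4095]
  exact Nat.mod_lt _ (by norm_num)

theorem land15_lt (a : ℕ) : Nat.land a 15 < 16 := by
  rw [land_mask a (k := 4) (by norm_num)]
  exact Nat.mod_lt _ (by norm_num)

theorem land63_lt (a : ℕ) : Nat.land a 63 < 64 := by
  rw [land_mask a (k := 6) (by norm_num)]
  exact Nat.mod_lt _ (by norm_num)

theorem exists_cell {hx V y : ℤ} : ∀ (m i : ℕ), 0 < m → (i : ℤ) * hx * V ≤ y →
    y ≤ ((i + m : ℕ) : ℤ) * hx * V → ∃ k : ℕ, i ≤ k ∧ k < i + m ∧ (k : ℤ) * hx * V ≤ y ∧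
      y ≤ ((k + 1 : ℕ) : ℤ) * hx * V := by
  intro m
  induction m with
  | zero => intro i h; omega
  | succ m ih =>
    intro i _ h1 h2
    rcases Nat.eq_zero_or_pos m with hm | hm
    · subst hm
      exact ⟨i, le_refl _, by omega, h1, h2⟩
    · rcases le_total y (((i + m : ℕ) : ℤ) * hx * V) with h3 | h3
      · obtain ⟨k, a, b, c, d⟩ := ih i hm h1 h3
        exact ⟨k, a, by omega, c, d⟩
      · exact ⟨i + m, by omega, by omega, h3, h2⟩

theorem chord_key {t : ℕ → ℕ} {i j u v hx : ℕ} {f vx y V r : ℤ} (hij : i < j) (hhx : 0 < hx)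
    (hf : 0 ≤ f) (hvx : hx * vx = f * y)
    (h1 : (i * hx : ℤ) * V ≤ y) (h2 : y ≤ (j * hx : ℤ) * V)
    (hch : ∀ d, d < (j - i) + 1 → (j - (i + d)) * u + d * v ≤ (j - i) * t (i + d))
    (hc : ∀ k : ℕ, i ≤ k → k < j → (k * hx : ℤ) * V ≤ y → y ≤ ((k + 1) * hx : ℤ) * V →
      0 ≤ r + t k * vx - t (k + 1) * vx + f * (k * t (k + 1) * V - (k + 1) * t k * V)) :
    0 ≤ ((j - i : ℕ) : ℤ) * r + u * vx - v * vx + f * (i * v * V - j * u * V) := by
  obtain ⟨m, rfl⟩ : ∃ m, j = i + m := ⟨j - i, by omega⟩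
  have hm : 0 < m := by omega
  obtain ⟨k, a, b, c, d⟩ := exists_cell (hx := (hx : ℤ)) (V := V) (y := y) m i hm (by linarith)
    (by push_cast at h2 ⊢; linarith)
  have hk := hc k a b c (by push_cast at d; linarith)
  have hhxz : (0 : ℤ) < hx := by exact_mod_cast hhx
  -- weights
  have w0 : 0 ≤ f * (k + 1) * V - vx := by
    have : 0 ≤ (hx : ℤ) * (f * (k + 1) * V - vx) := by
      have e : (hx : ℤ) * (f * (k + 1) * V - vx) = f * (((k + 1 : ℕ) : ℤ) * hx * V - y) := by
        rw [mul_sub, hvx]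
        push_cast
        ring
      rw [e]
      exact mul_nonneg hf (by linarith)
    exact nonneg_of_mul_nonneg_right this hhxz
  have w1 : 0 ≤ vx - f * k * V := by
    have : 0 ≤ (hx : ℤ) * (vx - f * k * V) := by
      have e : (hx : ℤ) * (vx - f * k * V) = f * (y - (k : ℤ) * hx * V) := by
        rw [mul_sub, hvx]
        ring
      rw [e]
      exact mul_nonneg hf (by linarith)
    exact nonneg_of_mul_nonneg_right this hhxz
  -- chord values
  have ch : ∀ l : ℕ, i ≤ l → l ≤ i + m → (((i + m : ℕ) : ℤ) - l) * u + ((l : ℤ) - i) * v ≤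
      m * t l := by
    intro l hl1 hl2
    have hd := hch (l - i) (by omega)
    have e2 : i + (l - i) = l := by omega
    have e3 : i + m - i = m := by omega
    rw [e2, e3] at hd
    have hd' : (((i + m - l : ℕ) : ℤ)) * u + ((l - i : ℕ) : ℤ) * v ≤ m * t l := by
      exact_mod_cast hd
    have e4 : (((i + m - l : ℕ) : ℤ)) = ((i + m : ℕ) : ℤ) - l := by omega
    have e5 : ((l - i : ℕ) : ℤ) = (l : ℤ) - i := by omega
    rw [e4, e5] at hd'
    exact hd'
  have c0 := ch k a (by omega)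
  have c1 := ch (k + 1) (by omega) (by omega)
  have m0 := mul_le_mul_of_nonneg_right c0 w0
  have m1 := mul_le_mul_of_nonneg_right c1 w1
  have hmz : (0 : ℤ) ≤ m := by positivity
  have hkm := mul_nonneg hmz hk
  have e6 : ((i + m - i : ℕ) : ℤ) = m := by omega
  rw [e6]
  push_cast at m0 m1 ⊢
  nlinarith

section
variable {GG n : ℕ} {x : ℕ → ℤ} {V : ℤ} {E : ℕ → ℤ}

/-- the common core of the table items -/
theorem line_val (hV : 0 < V) {lo hi hx i j u v : ℕ} {f vx y r : ℤ} {t : ℕ → ℕ}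
    (hhx : 0 < hx) (hf : 0 ≤ f) (hvx : hx * vx = f * y)
    (hlo : (lo : ℤ) * V ≤ y) (hhi : y ≤ (hi : ℤ) * V)
    (hi1 : i = lo / hx) (hj1 : j = (hi + (hx - 1)) / hx)
    (hch : ∀ d, d ≤ j - i → ((j - i) - d) * u + d * v ≤ (j - i) * t (i + d))
    (hc : ∀ k : ℕ, i ≤ k → k < j → (k * hx : ℤ) * V ≤ y → y ≤ ((k + 1) * hx : ℤ) * V →
      0 ≤ r + t k * vx - t (k + 1) * vx + f * (k * t (k + 1) * V - (k + 1) * t k * V)) :
    0 ≤ ((j - i : ℕ) : ℤ) * r + u * vx - v * vx + f * (i * v * V - j * u * V) := by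
  have h1 : ((i * hx : ℕ) : ℤ) * V ≤ y := by
    have : i * hx ≤ lo := by rw [hi1]; exact Nat.div_mul_le_self _ _
    have : ((i * hx : ℕ) : ℤ) ≤ lo := by exact_mod_cast this
    nlinarith
  have h2 : y ≤ ((j * hx : ℕ) : ℤ) * V := by
    have : hi ≤ j * hx := by
      rw [hj1]
      have h3 := Nat.div_add_mod (hi + (hx - 1)) hx
      have h4 := Nat.mod_lt (hi + (hx - 1)) hhx
      have h5 : hx * ((hi + (hx - 1)) / hx) = (hi + (hx - 1)) / hx * hx := Nat.mul_comm _ _
      omega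
    have : (hi : ℤ) ≤ ((j * hx : ℕ) : ℤ) := by exact_mod_cast this
    nlinarith
  have hhxz : (0 : ℤ) < hx := by exact_mod_cast hhx
  rcases Nat.lt_trichotomy i j with hij | hij | hij
  · refine chord_key (t := t) hij hhx hf hvx (by push_cast at h1; exact h1)
      (by push_cast at h2; exact h2) ?_ hc
    intro d hd
    have := hch d (by omega)
    have e : j - (i + d) = (j - i) - d := by omega
    rw [e]
    exact this
  · subst hij
    have hy : y = ((i * hx : ℕ) : ℤ) * V := le_antisymm h2 h1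
    have hvx2 : vx = f * (i * V) := by
      have : (hx : ℤ) * vx = hx * (f * (i * V)) := by
        rw [hvx, hy]
        push_cast
        ring
      exact mul_left_cancel₀ hhxz.ne' this
    rw [hvx2, Nat.sub_self]
    have : ((0 : ℕ) : ℤ) * r + u * (f * (i * V)) - v * (f * (i * V)) +
        f * (i * v * V - i * u * V) = 0 := by push_cast; ring
    exact this.ge
  · exfalso
    have h3 : (i * hx : ℤ) * V ≤ (j * hx : ℤ) * V := by push_cast at h1 h2; linarith
    have h4 : (i * hx : ℤ) ≤ j * hx := le_of_mul_le_mul_right h3 hV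
    have h5 : (i : ℤ) ≤ j := le_of_mul_le_mul_right h4 hhxz
    omega

theorem pTT_snd (hV : 0 < V) {ex eg hx cg PLU Px Nx FP FN cb T W : ℕ} {vLU vx : ℤ} {FT : ℕ}
    (hex : ex < 64) (heg : eg < 64) (hhx : 0 < hx) (hcg : 0 < cg)
    (aL : Acc n x PLU vLU) (aPx : Acc n x Px vx) (aNx : Acc n x Nx (-vx))
    (aFP : Acc n x FP (FT * V)) (aFN : Acc n x FN (-(FT * V)))
    (hrel : (hx : ℤ) * vx = FT * (GG * E ex))
    (hT : ∀ i b : ℕ, i < 4096 → b < 4096 → (i * hx : ℤ) * V ≤ GG * E ex →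
        GG * E ex ≤ ((i + 1) * hx : ℤ) * V → GG * E eg ≤ (cg * b : ℤ) * V →
        0 ≤ vLU + tab T W b i * vx - tab T W b (i + 1) * vx +
          FT * ((cb * b + i * tab T W b (i + 1)) * V - (i + 1) * tab T W b i * V)) :
    Snd GG n x V E (pTT (24 * ex) (24 * ex + 12) (24 * eg + 12) hx (hx - 1) cg (cg - 1)
      PLU Px Nx FP FN cb T W) := by
  intro st code A k h
  obtain ⟨hl, h⟩ := brec_true h
  refine ⟨_, _, h, fun hcell hpos => hpos.add ?_⟩
  have lx := fld_lo hcell hex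
  have ux := fld_hi hcell hex
  have ug := fld_hi hcell heg
  set lo := fld st (24 * ex) with hlo
  set hi := fld st (24 * ex + 12) with hhi
  set hg := fld st (24 * eg + 12) with hhg
  have l1 : lo < 4096 := fld_lt _ _
  have l2 : hi < 4096 := fld_lt _ _
  have l3 : hg < 4096 := fld_lt _ _
  set i := lo / hx with hi1
  set j := (hi + (hx - 1)) / hx with hj1
  set b := (hg + (cg - 1)) / cg with hb1
  set u := Nat.land (Nat.shiftRight code 16) 4095 with hu
  set v := Nat.land (Nat.shiftRight code 28) 4095 with hv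
  have hu1 : u < 4096 := land4095_lt _
  have hv1 : v < 4096 := land4095_lt _
  have hj2 : j ≤ 4096 := by
    rw [hj1, Nat.div_le_iff_le_mul_add_pred (by omega)]
    have : hx ≤ 4096 * hx := Nat.le_mul_of_pos_left _ (by norm_num)
    omega
  have hb2 : hg ≤ cg * b := by
    have h3 := Nat.div_add_mod (hg + (cg - 1)) cg
    have h4 := Nat.mod_lt (hg + (cg - 1)) hcg
    rw [← hb1] at h3
    omega
  have hb3 : b < 4096 := by
    rw [hb1, Nat.div_lt_iff_lt_mul hcg]
    omega
  have k3 : GG * E eg ≤ (cg * b : ℤ) * V := by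
    have : ((hg : ℕ) : ℤ) ≤ ((cg * b : ℕ) : ℤ) := by exact_mod_cast hb2
    push_cast at this
    nlinarith
  have hch := lineC_spec (T := T) (W := W) (b := b) (i := i) (m := j - i) hu1 hv1 hl
  have hv0 := line_val (t := fun k => tab T W b k) (r := vLU + FT * (cb * b * V))
    (f := (FT : ℤ)) hV (by omega) (by positivity) hrel lx ux hi1 hj1 hch (by
      intro k hk1 hk2 q1 q2
      refine (hT k b (lt_of_lt_of_le hk2 hj2) hb3 q1 q2 k3).trans (le_of_eq ?_)
      ring)
  have hacc := (((aL.smul (j - i)).add ((aPx.smul u).add (aNx.smul v))).add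
    ((aFP.smul ((j - i) * (cb * b) + i * v)).add (aFN.smul (j * u)))).smul (Nat.land code 65535)
  refine Good.of hacc ?_ rfl
  apply mul_nonneg (by positivity)
  refine hv0.trans (le_of_eq ?_)
  push_cast
  ring

theorem pTL_snd (hV : 0 < V) {ex eg hx cg PL Px Nx FP FN T W : ℕ} {vL vx : ℤ} {FT : ℕ}
    (hex : ex < 64) (heg : eg < 64) (hhx : 0 < hx) (hcg : 0 < cg)
    (aL : Acc n x PL vL) (aPx : Acc n x Px vx) (aNx : Acc n x Nx (-vx))
    (aFP : Acc n x FP (FT * V)) (aFN : Acc n x FN (-(FT * V)))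
    (hrel : (hx : ℤ) * vx = FT * (GG * E ex))
    (hT : ∀ i b : ℕ, i < 4096 → b < 4096 → (i * hx : ℤ) * V ≤ GG * E ex →
        GG * E ex ≤ ((i + 1) * hx : ℤ) * V → (cg * b : ℤ) * V ≤ GG * E eg →
        0 ≤ vL + tab T W b i * vx - tab T W b (i + 1) * vx +
          FT * (i * tab T W b (i + 1) * V - (i + 1) * tab T W b i * V)) :
    Snd GG n x V E (pTL (24 * ex) (24 * ex + 12) (24 * eg) hx (hx - 1) cg
      PL Px Nx FP FN T W) := by
  intro st code A k h
  obtain ⟨hl, h⟩ := brec_true h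
  refine ⟨_, _, h, fun hcell hpos => hpos.add ?_⟩
  have lx := fld_lo hcell hex
  have ux := fld_hi hcell hex
  have lg := fld_lo hcell heg
  set lo := fld st (24 * ex) with hlo
  set hi := fld st (24 * ex + 12) with hhi
  set hg := fld st (24 * eg) with hhg
  have l1 : lo < 4096 := fld_lt _ _
  have l2 : hi < 4096 := fld_lt _ _
  have l3 : hg < 4096 := fld_lt _ _
  set i := lo / hx with hi1
  set j := (hi + (hx - 1)) / hx with hj1
  set b := hg / cg with hb1
  set u := Nat.land (Nat.shiftRight code 16) 4095 with hu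
  set v := Nat.land (Nat.shiftRight code 28) 4095 with hv
  have hu1 : u < 4096 := land4095_lt _
  have hv1 : v < 4096 := land4095_lt _
  have hj2 : j ≤ 4096 := by
    rw [hj1, Nat.div_le_iff_le_mul_add_pred (by omega)]
    have : hx ≤ 4096 * hx := Nat.le_mul_of_pos_left _ (by norm_num)
    omega
  have hb2 : cg * b ≤ hg := Nat.mul_div_le _ _
  have hb3 : b < 4096 := lt_of_le_of_lt (Nat.div_le_self _ _) l3
  have k3 : (cg * b : ℤ) * V ≤ GG * E eg := by
    have : ((cg * b : ℕ) : ℤ) ≤ ((hg : ℕ) : ℤ) := by exact_mod_cast hb2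
    push_cast at this
    nlinarith
  have hch := lineC_spec (T := T) (W := W) (b := b) (i := i) (m := j - i) hu1 hv1 hl
  have hv0 := line_val (t := fun k => tab T W b k) (r := vL)
    (f := (FT : ℤ)) hV (by omega) (by positivity) hrel lx ux hi1 hj1 hch (by
      intro k hk1 hk2 q1 q2
      refine (hT k b (lt_of_lt_of_le hk2 hj2) hb3 q1 q2 k3).trans (le_of_eq ?_)
      ring)
  have hacc := (((aL.smul (j - i)).add ((aPx.smul u).add (aNx.smul v))).add
    ((aFP.smul (i * v)).add (aFN.smul (j * u)))).smul (Nat.land code 65535)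
  refine Good.of hacc ?_ rfl
  apply mul_nonneg (by positivity)
  refine hv0.trans (le_of_eq ?_)
  push_cast
  ring

theorem pCge_snd (hV : 0 < V) {e c P : ℕ} (he : e < 64) {v : ℤ} (hP : Acc n x P v)
    (hv : (c : ℤ) * V ≤ GG * E e → 0 ≤ v) : Snd GG n x V E (pCge (24 * e) c P) := by
  intro st code A k h
  obtain ⟨c1, h⟩ := brec_true h
  refine ⟨_, _, h, fun hcell hpos => hpos.add (Good.smul ⟨v, hv ?_, hP⟩ _)⟩
  have lo := fld_lo hcell he
  have : (c : ℤ) ≤ (fld st (24 * e) : ℕ) := by exact_mod_cast Nat.le_of_ble_eq_true c1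
  nlinarith

theorem pCle_snd (hV : 0 < V) {e c P : ℕ} (he : e < 64) {v : ℤ} (hP : Acc n x P v)
    (hv : GG * E e ≤ (c : ℤ) * V → 0 ≤ v) : Snd GG n x V E (pCle (24 * e + 12) c P) := by
  intro st code A k h
  obtain ⟨c1, h⟩ := brec_true h
  refine ⟨_, _, h, fun hcell hpos => hpos.add (Good.smul ⟨v, hv ?_, hP⟩ _)⟩
  have hi := fld_hi hcell he
  have : ((fld st (24 * e + 12) : ℕ) : ℤ) ≤ c := by exact_mod_cast Nat.le_of_ble_eq_true c1
  nlinarith

end

/-- the constants are correct at the point -/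
structure CstOK (C : Cst) (n : ℕ) (x : ℕ → ℤ) (V : ℤ) (E : ℕ → ℤ) : Prop where
  pos : 0 < V
  nonneg : ∀ i, 0 ≤ x i
  PV : Acc n x C.PV V
  NV : Acc n x C.NV (-V)
  FV : Pos n x C.FV
  ones : C.ones = ∑ i ∈ range n, BB ^ i
  hones : C.hones = ∑ i ∈ range n, 9223372036854775808 * BB ^ i
  nb : C.nb = BB ^ n
  n64 : C.n64 = 64 * n
  PT : ∀ i : ℕ, Good n x (Nat.land (Nat.shiftRight C.PT (Nat.mul C.W i)) C.TW)
  EL : ∀ e, e < 64 → Acc n x (Nat.land (Nat.shiftRight C.EF (Nat.mul C.W (2 * e))) C.TW)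
    (C.KG * C.GG * E e)
  EH : ∀ e, e < 64 → Acc n x (Nat.land (Nat.shiftRight C.EF (Nat.mul C.W (2 * e + 1))) C.TW)
    (-(C.KG * C.GG * E e))

section
variable {C : Cst} {n : ℕ} {x : ℕ → ℤ} {V : ℤ} {E : ℕ → ℤ}

theorem pMc_aux (hC : CstOK C n x V E) {e1 e2 P1 P2 NZ : ℕ} {z : ℤ}
    (he1 : e1 < 64) (he2 : e2 < 64)
    (a1 : Acc n x P1 (C.GG * E e1)) (a2 : Acc n x P2 (C.GG * E e2))
    (az : Acc n x NZ (-(C.GG * C.GG * z))) (hz : V * z ≤ E e1 * E e2)
    {st mu code A : ℕ} {k : K}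
    (h : mcK C P1 P2 NZ (fld st (24 * e1)) (fld st (24 * e2 + 12)) mu code A k = true) :
    ∃ c' A', k c' A' = true ∧ (Cell C.GG V E st → Pos n x A → Pos n x A') := by
  refine ⟨_, _, h, fun hcell hg => ?_⟩
  have l1 := fld_lo hcell he1
  have u2 := fld_hi hcell he2
  set l := fld st (24 * e1)
  set r := fld st (24 * e2 + 12)
  have hacc := ((az.add (hC.NV.smul (l * r))).add ((a1.smul r).add (a2.smul l))).smul mu
  refine Pos.add hg (Good.of hacc ?_ rfl)
  apply mul_nonneg (by positivity)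
  have hprod := mul_nonneg (sub_nonneg.mpr l1) (sub_nonneg.mpr u2)
  have hV := hC.pos
  have hz2 := mul_le_mul_of_nonneg_left hz (mul_nonneg (Int.natCast_nonneg C.GG)
    (Int.natCast_nonneg C.GG))
  have key : 0 ≤ V * (-(C.GG * C.GG * z) + ((l * r : ℕ) : ℤ) * (-V) +
      ((r : ℤ) * (C.GG * E e1) + l * (C.GG * E e2))) := by
    push_cast
    nlinarith
  exact nonneg_of_mul_nonneg_right key hV

theorem pMc_snd (hC : CstOK C n x V E) {e1 e2 P1 P2 NZ : ℕ} {z : ℤ}
    (he1 : e1 < 64) (he2 : e2 < 64)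
    (a1 : Acc n x P1 (C.GG * E e1)) (a2 : Acc n x P2 (C.GG * E e2))
    (az : Acc n x NZ (-(C.GG * C.GG * z))) (hz : V * z ≤ E e1 * E e2) :
    Snd C.GG n x V E (pMc C (24 * e1) (24 * e1 + 12) (24 * e2) (24 * e2 + 12) P1 P2 NZ) := by
  intro st code A k h
  change @Bool.rec (fun _ => Bool)
    (mcK C P2 P1 NZ (fld st (24 * e2)) (fld st (24 * e1 + 12))
      (Nat.land code 65535) (Nat.shiftRight code 17) A k)
    (mcK C P1 P2 NZ (fld st (24 * e1)) (fld st (24 * e2 + 12))
      (Nat.land code 65535) (Nat.shiftRight code 17) A k)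
    (Nat.beq (Nat.land (Nat.shiftRight code 16) 1) 0) = true at h
  cases hc : Nat.beq (Nat.land (Nat.shiftRight code 16) 1) 0 with
  | true =>
    rw [hc] at h
    exact pMc_aux hC he1 he2 a1 a2 az hz h
  | false =>
    rw [hc] at h
    exact pMc_aux hC he2 he1 a2 a1 az (by rw [mul_comm (E e2)]; exact hz) h

theorem cdiv_spec (a r : ℕ) : a ≤ (cdiv a r + 1) * 2 ^ r := by
  have h2 : (0 : ℕ) < 2 ^ r := by positivity
  have e : cdiv a r = (a + (2 ^ r - 1)) / 2 ^ r - 1 := by
    show Nat.pred ((a + Nat.pred (1 <<< r)) >>> r) = _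
    rw [Nat.shiftRight_eq_div_pow, Nat.shiftLeft_eq, Nat.one_mul]
    rfl
  rw [e]
  have h3 := Nat.div_add_mod (a + (2 ^ r - 1)) (2 ^ r)
  have h4 := Nat.mod_lt (a + (2 ^ r - 1)) h2
  have h5 : a ≤ 2 ^ r * ((a + (2 ^ r - 1)) / 2 ^ r) := by omega
  have h6 : (a + (2 ^ r - 1)) / 2 ^ r ≤ (a + (2 ^ r - 1)) / 2 ^ r - 1 + 1 := by omega
  have h7 := Nat.mul_le_mul_left (2 ^ r) h6
  rw [Nat.mul_comm] at h7
  calc a ≤ 2 ^ r * ((a + (2 ^ r - 1)) / 2 ^ r) := h5
    _ = (a + (2 ^ r - 1)) / 2 ^ r * 2 ^ r := Nat.mul_comm _ _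
    _ ≤ _ := by rw [Nat.mul_comm (_ + 1)]; exact h7

theorem cdiv_lt {a r : ℕ} (ha : a < 4096) : cdiv a r < 4096 := by
  have h2 : (0 : ℕ) < 2 ^ r := by positivity
  have e : cdiv a r = (a + (2 ^ r - 1)) / 2 ^ r - 1 := by
    show Nat.pred ((a + Nat.pred (1 <<< r)) >>> r) = _
    rw [Nat.shiftRight_eq_div_pow, Nat.shiftLeft_eq, Nat.one_mul]
    rfl
  rw [e]
  have : (a + (2 ^ r - 1)) / 2 ^ r < 4097 := by
    rw [Nat.div_lt_iff_lt_mul h2]
    omega
  omega

theorem pDT_snd (hC : CstOK C n x V E) {ep eq es PD Ps Np Nq Ns Pp Pq : ℕ}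
    (hep : ep < 64) (heq : eq < 64) (hes : es < 64)
    (aPs : Acc n x Ps (C.KG * C.GG * E es)) (aNs : Acc n x Ns (-(C.KG * C.GG * E es)))
    (aPp : Acc n x Pp (C.KG * C.GG * E ep)) (aNp : Acc n x Np (-(C.KG * C.GG * E ep)))
    (aPq : Acc n x Pq (C.KG * C.GG * E eq)) (aNq : Acc n x Nq (-(C.KG * C.GG * E eq)))
    {D : ℤ} (aD : Acc n x PD (C.KG * C.GG * D))
    (hlow : ∀ r i j : ℕ, r < 16 → i < 4096 → j < 4096 →
          (i * 2 ^ r : ℤ) * V ≤ C.GG * E ep → (j * 2 ^ r : ℤ) * V ≤ C.GG * E eq →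
          C.GG * E es ≤ ((i + j + 1) * 2 ^ r : ℤ) * V →
          (((i + j + 1) * 2 ^ r : ℤ) * V - C.GG * E es) * dgt C.GT i j +
            (C.GG * E ep - (i * 2 ^ r : ℤ) * V) * dgt C.GT (i + 1) j +
            (C.GG * E eq - (j * 2 ^ r : ℤ) * V) * dgt C.GT i (j + 1) ≤ C.GG * D)
    (hup : ∀ r i j : ℕ, r < 16 → i < 4096 → j < 4096 →
          C.GG * E ep ≤ ((i + 1) * 2 ^ r : ℤ) * V → C.GG * E eq ≤ ((j + 1) * 2 ^ r : ℤ) * V →
          ((i + j + 1) * 2 ^ r : ℤ) * V ≤ C.GG * E es →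
          (C.GG * E es - ((i + j + 1) * 2 ^ r : ℤ) * V) * dgt C.GT (i + 1) (j + 1) +
            (((i + 1) * 2 ^ r : ℤ) * V - C.GG * E ep) * dgt C.GT i (j + 1) +
            (((j + 1) * 2 ^ r : ℤ) * V - C.GG * E eq) * dgt C.GT (i + 1) j ≤ C.GG * D) :
    Snd C.GG n x V E (pDT C (24 * ep) (24 * ep + 12) (24 * eq) (24 * eq + 12) (24 * es)
      (24 * es + 12) PD Ps Np Nq Ns Pp Pq) := by
  intro st code A k h
  have hr : Nat.land (Nat.shiftRight code 17) 15 < 16 := land15_lt _
  set r := Nat.land (Nat.shiftRight code 17) 15 with hrdef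
  have hh : Nat.shiftLeft 1 r = 2 ^ r := by
    show 1 <<< r = 2 ^ r
    rw [Nat.shiftLeft_eq, Nat.one_mul]
  have V0 : (0 : ℤ) ≤ V := hC.pos.le
  change @Bool.rec (fun _ => Bool)
    (pUp C (24 * es) PD Ns Pp Pq st (Nat.shiftLeft 1 r)
      (cdiv (fld st (24 * ep + 12)) r) (cdiv (fld st (24 * eq + 12)) r)
      (Nat.land code 65535) (Nat.shiftRight code 21) A k)
    (pLow C (24 * es + 12) PD Ps Np Nq st (Nat.shiftLeft 1 r)
      (Nat.shiftRight (fld st (24 * ep)) r) (Nat.shiftRight (fld st (24 * eq)) r)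
      (Nat.land code 65535) (Nat.shiftRight code 21) A k)
    (Nat.beq (Nat.land (Nat.shiftRight code 16) 1) 0) = true at h
  cases hc : Nat.beq (Nat.land (Nat.shiftRight code 16) 1) 0 with
  | true =>
    rw [hc] at h
    obtain ⟨c3, h⟩ := brec_true h
    refine ⟨_, _, h, fun hcell hpos => hpos.add ?_⟩
    have lp := fld_lo hcell hep
    have lq := fld_lo hcell heq
    have us := fld_hi hcell hes
    set i := Nat.shiftRight (fld st (24 * ep)) r with hi
    set j := Nat.shiftRight (fld st (24 * eq)) r with hj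
    have ei : i = fld st (24 * ep) / 2 ^ r := Nat.shiftRight_eq_div_pow _ _
    have ej : j = fld st (24 * eq) / 2 ^ r := Nat.shiftRight_eq_div_pow _ _
    have i1 : i * 2 ^ r ≤ fld st (24 * ep) := by rw [ei]; exact Nat.div_mul_le_self _ _
    have j1 : j * 2 ^ r ≤ fld st (24 * eq) := by rw [ej]; exact Nat.div_mul_le_self _ _
    have i2 : i < 4096 := lt_of_le_of_lt (by rw [ei]; exact Nat.div_le_self _ _) (fld_lt st (24 * ep))
    have j2 : j < 4096 := lt_of_le_of_lt (by rw [ej]; exact Nat.div_le_self _ _) (fld_lt st (24 * eq))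
    rw [hh] at c3 ⊢
    have k1 : ((i * 2 ^ r : ℕ) : ℤ) * V ≤ C.GG * E ep := by
      have : ((i * 2 ^ r : ℕ) : ℤ) ≤ (fld st (24 * ep) : ℕ) := by exact_mod_cast i1
      nlinarith
    have k2 : ((j * 2 ^ r : ℕ) : ℤ) * V ≤ C.GG * E eq := by
      have : ((j * 2 ^ r : ℕ) : ℤ) ≤ (fld st (24 * eq) : ℕ) := by exact_mod_cast j1
      nlinarith
    have k3 : C.GG * E es ≤ (((i + j + 1) * 2 ^ r : ℕ) : ℤ) * V := by
      have : ((fld st (24 * es + 12) : ℕ) : ℤ) ≤ (((i + j + 1) * 2 ^ r : ℕ) : ℤ) := by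
        exact_mod_cast Nat.le_of_ble_eq_true c3
      nlinarith
    push_cast at k1 k2 k3
    have hv := hlow r i j hr i2 j2 k1 k2 k3
    have hacc := ((aD.add ((aPs.smul (dgt C.GT i j)).add ((aNp.smul (dgt C.GT (i + 1) j)).add
      (aNq.smul (dgt C.GT i (j + 1)))))).add
      (((hC.PV.smul (i * dgt C.GT (i + 1) j + j * dgt C.GT i (j + 1))).add
        (hC.NV.smul ((i + j + 1) * dgt C.GT i j))).smul (C.KG * 2 ^ r))).smul (Nat.land code 65535)
    refine Good.of hacc ?_ rfl
    apply mul_nonneg (by positivity)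
    have h3 : (0 : ℤ) ≤ C.KG * (C.GG * D - ((((i + j + 1) * 2 ^ r : ℤ) * V - C.GG * E es) * dgt C.GT i j +
            (C.GG * E ep - (i * 2 ^ r : ℤ) * V) * dgt C.GT (i + 1) j +
            (C.GG * E eq - (j * 2 ^ r : ℤ) * V) * dgt C.GT i (j + 1))) :=
      mul_nonneg (by positivity) (by linarith)
    refine h3.trans (le_of_eq ?_)
    push_cast
    have hsum : (0 : ℤ) = 0 := rfl
    ring
  | false =>
    rw [hc] at h
    obtain ⟨c3, h⟩ := brec_true h
    refine ⟨_, _, h, fun hcell hpos => hpos.add ?_⟩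
    have ls := fld_lo hcell hes
    have up := fld_hi hcell hep
    have uq := fld_hi hcell heq
    set i := cdiv (fld st (24 * ep + 12)) r with hi
    set j := cdiv (fld st (24 * eq + 12)) r with hj
    have i1 : fld st (24 * ep + 12) ≤ (i + 1) * 2 ^ r := cdiv_spec _ _
    have j1 : fld st (24 * eq + 12) ≤ (j + 1) * 2 ^ r := cdiv_spec _ _
    have i2 : i < 4096 := cdiv_lt (fld_lt st (24 * ep + 12))
    have j2 : j < 4096 := cdiv_lt (fld_lt st (24 * eq + 12))
    rw [hh] at c3 ⊢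
    have k1 : C.GG * E ep ≤ (((i + 1) * 2 ^ r : ℕ) : ℤ) * V := by
      have : ((fld st (24 * ep + 12) : ℕ) : ℤ) ≤ (((i + 1) * 2 ^ r : ℕ) : ℤ) := by
        exact_mod_cast i1
      nlinarith
    have k2 : C.GG * E eq ≤ (((j + 1) * 2 ^ r : ℕ) : ℤ) * V := by
      have : ((fld st (24 * eq + 12) : ℕ) : ℤ) ≤ (((j + 1) * 2 ^ r : ℕ) : ℤ) := by
        exact_mod_cast j1
      nlinarith
    have k3 : (((i + j + 1) * 2 ^ r : ℕ) : ℤ) * V ≤ C.GG * E es := by
      have : (((i + j + 1) * 2 ^ r : ℕ) : ℤ) ≤ ((fld st (24 * es) : ℕ) : ℤ) := by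
        exact_mod_cast Nat.le_of_ble_eq_true c3
      nlinarith
    push_cast at k1 k2 k3
    have hv := hup r i j hr i2 j2 k1 k2 k3
    have hacc := ((aD.add ((aNs.smul (dgt C.GT (i + 1) (j + 1))).add
      ((aPp.smul (dgt C.GT i (j + 1))).add (aPq.smul (dgt C.GT (i + 1) j))))).add
      (((hC.PV.smul ((i + j + 1) * dgt C.GT (i + 1) (j + 1))).add
        (hC.NV.smul ((i + 1) * dgt C.GT i (j + 1) + (j + 1) * dgt C.GT (i + 1) j))).smul
          (C.KG * 2 ^ r))).smul (Nat.land code 65535)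
    refine Good.of hacc ?_ rfl
    apply mul_nonneg (by positivity)
    have h3 : (0 : ℤ) ≤ C.KG * (C.GG * D -
          ((C.GG * E es - ((i + j + 1) * 2 ^ r : ℤ) * V) * dgt C.GT (i + 1) (j + 1) +
            (((i + 1) * 2 ^ r : ℤ) * V - C.GG * E ep) * dgt C.GT i (j + 1) +
            (((j + 1) * 2 ^ r : ℤ) * V - C.GG * E eq) * dgt C.GT (i + 1) j)) :=
      mul_nonneg (by positivity) (by linarith)
    refine h3.trans (le_of_eq ?_)
    push_cast
    ring

/-- the line with slope `l / 8` lies above the hinge on the cell -/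
theorem hinge_key {GG RN s8 Sv D l lx hx lg hg : ℕ} {V ex eg : ℤ} (hV : 0 ≤ V)
    (hRN : 0 < RN) (hs : s8 * RN = GG) (hl : l ≤ 8)
    (h1 : (lx : ℤ) * V ≤ GG * ex) (h2 : GG * ex ≤ (hx : ℤ) * V)
    (h3 : (lg : ℤ) * V ≤ GG * eg) (h4 : GG * eg ≤ (hg : ℤ) * V) :
    8 * (s8 : ℤ) * max 0 ((Sv : ℤ) * ex - D * eg) ≤
      (s8 * l : ℕ) * ((Sv : ℤ) * ex - D * eg) + (hinNu RN (RN - 1) Sv D l lx hx lg hg : ℕ) * V := by
  have hRNz : (0 : ℤ) < RN := by exact_mod_cast hRN
  have hsz : (s8 : ℤ) * RN = GG := by exact_mod_cast hs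
  set m1 := (8 - l) * (Sv * hx - D * lg) with hm1
  set m2 := l * (D * hg - Sv * lx) with hm2
  have hmax1 : m1 ≤ maxN m1 m2 := by
    unfold maxN
    cases h : Nat.ble m1 m2 with
    | true => exact Nat.le_of_ble_eq_true h
    | false => exact le_refl _
  have hmax2 : m2 ≤ maxN m1 m2 := by
    unfold maxN
    cases h : Nat.ble m1 m2 with
    | true => exact le_refl _
    | false =>
      have : ¬ m1 ≤ m2 := fun hle => by rw [Nat.ble_eq_true_of_le hle] at h; exact absurd h (by simp)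
      exact (not_le.mp this).le
  have hnu : maxN m1 m2 ≤ RN * hinNu RN (RN - 1) Sv D l lx hx lg hg := by
    show maxN m1 m2 ≤ RN * ((maxN m1 m2 + (RN - 1)) / RN)
    have h5 := Nat.div_add_mod (maxN m1 m2 + (RN - 1)) RN
    have h6 := Nat.mod_lt (maxN m1 m2 + (RN - 1)) hRN
    omega
  have n1 : (m1 : ℤ) ≤ RN * (hinNu RN (RN - 1) Sv D l lx hx lg hg : ℕ) := by
    exact_mod_cast hmax1.trans hnu
  have n2 : (m2 : ℤ) ≤ RN * (hinNu RN (RN - 1) Sv D l lx hx lg hg : ℕ) := by
    exact_mod_cast hmax2.trans hnu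
  have n1V := mul_le_mul_of_nonneg_right n1 hV
  have n2V := mul_le_mul_of_nonneg_right n2 hV
  have sub1 : (Sv * hx : ℤ) - D * lg ≤ ((Sv * hx - D * lg : ℕ) : ℤ) := by
    have : ((Sv * hx : ℕ) : ℤ) - (D * lg : ℕ) ≤ ((Sv * hx - D * lg : ℕ) : ℤ) := by omega
    push_cast at this
    exact this
  have sub2 : (D * hg : ℤ) - Sv * lx ≤ ((D * hg - Sv * lx : ℕ) : ℤ) := by
    have : ((D * hg : ℕ) : ℤ) - (Sv * lx : ℕ) ≤ ((D * hg - Sv * lx : ℕ) : ℤ) := by omega
    push_cast at this
    exact this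
  have e8 : ((8 - l : ℕ) : ℤ) = 8 - l := by omega
  have Sv0 : (0 : ℤ) ≤ Sv := by positivity
  have D0 : (0 : ℤ) ≤ D := by positivity
  have l0 : (0 : ℤ) ≤ l := by positivity
  have l8 : (0 : ℤ) ≤ 8 - l := by omega
  -- it is enough after multiplication with `RN`
  have key : (RN : ℤ) * (8 * (s8 : ℤ) * max 0 ((Sv : ℤ) * ex - D * eg)) ≤
      RN * ((s8 * l : ℕ) * ((Sv : ℤ) * ex - D * eg) +
        (hinNu RN (RN - 1) Sv D l lx hx lg hg : ℕ) * V) := by
    have eL : (RN : ℤ) * (8 * (s8 : ℤ) * max 0 ((Sv : ℤ) * ex - D * eg)) =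
        8 * GG * max 0 ((Sv : ℤ) * ex - D * eg) := by
      rw [← hsz]; ring
    have eR : (RN : ℤ) * ((s8 * l : ℕ) * ((Sv : ℤ) * ex - D * eg) +
        (hinNu RN (RN - 1) Sv D l lx hx lg hg : ℕ) * V) =
        l * (GG * ((Sv : ℤ) * ex - D * eg)) + RN * (hinNu RN (RN - 1) Sv D l lx hx lg hg : ℕ) * V := by
      rw [← hsz]; push_cast; ring
    rw [eL, eR]
    have a1 := mul_le_mul_of_nonneg_left h2 Sv0
    have a2 := mul_le_mul_of_nonneg_left h3 D0
    have b1 := mul_le_mul_of_nonneg_left h1 Sv0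
    have b2 := mul_le_mul_of_nonneg_left h4 D0
    rcases le_total 0 ((Sv : ℤ) * ex - D * eg) with hz | hz
    · rw [max_eq_right hz]
      have c1 : GG * ((Sv : ℤ) * ex - D * eg) ≤ ((Sv * hx - D * lg : ℕ) : ℤ) * V := by
        have := mul_le_mul_of_nonneg_right sub1 hV
        nlinarith
      have c2 := mul_le_mul_of_nonneg_left c1 l8
      have c3 : (m1 : ℤ) * V = (8 - l) * (((Sv * hx - D * lg : ℕ) : ℤ) * V) := by
        rw [hm1, Nat.cast_mul, e8]; ring
      linarith
    · rw [max_eq_left hz]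
      have c1 : -(GG * ((Sv : ℤ) * ex - D * eg)) ≤ ((D * hg - Sv * lx : ℕ) : ℤ) * V := by
        have := mul_le_mul_of_nonneg_right sub2 hV
        nlinarith
      have c2 := mul_le_mul_of_nonneg_left c1 l0
      have c3 : (m2 : ℤ) * V = l * (((D * hg - Sv * lx : ℕ) : ℤ) * V) := by
        rw [hm2, Nat.cast_mul]; ring
      linarith
  exact le_of_mul_le_mul_left key hRNz

/-- the sum of the hinges of row `b`, for the expressions `E`, `EX = E_x` -/
def hinSum (E : ℕ → ℤ) (EX : ℤ) (s8 TA WA b : ℕ) : ℕ → List Hin → ℤ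
  | _, [] => 0
  | n, h :: t => 8 * (s8 * (h.H * tab TA WA b n)) *
      max 0 ((h.S * tab TA WA b (n + 1) : ℕ) * EX - h.D * E (h.kg / 24)) +
      hinSum E EX s8 TA WA b (n + 2) t

theorem hinK_sound (hC : CstOK C n x V E)
    {st ex eg Qx s8 RN Sv D Ng w l code A : ℕ} {k : K}
    (h : hinK C Qx s8 RN (RN - 1) Sv D Ng w l (fld st (24 * ex)) (fld st (24 * ex + 12))
      (fld st (24 * eg)) (fld st (24 * eg + 12)) code A k = true) :
    ∃ c' A', k c' A' = true ∧
      (Cell C.GG V E st → ex < 64 → eg < 64 → s8 * RN = C.GG → 0 < RN →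
        Acc n x Qx (E ex) → Acc n x Ng (-E eg) → ∀ v, Acc n x A v →
        ∃ q, (w : ℤ) * (8 * (s8 : ℤ) * max 0 ((Sv : ℤ) * E ex - D * E eg)) ≤ q ∧
          Acc n x A' (v + q)) := by
  obtain ⟨c1, h⟩ := brec_true h
  refine ⟨_, _, h, ?_⟩
  intro hcell hex heg hs hRN aQ aN v hv
  have hl : l ≤ 8 := Nat.le_of_ble_eq_true c1
  have lx := fld_lo hcell hex
  have ux := fld_hi hcell hex
  have lg := fld_lo hcell heg
  have ug := fld_hi hcell heg
  have key := hinge_key (Sv := Sv) (D := D) hC.pos.le hRN hs hl lx ux lg ug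
  have hw : (0 : ℤ) ≤ w := by positivity
  refine ⟨_, mul_le_mul_of_nonneg_left key hw, ?_⟩
  have hacc := (((aQ.smul Sv).add (aN.smul D)).smul (s8 * l)).add
    (hC.PV.smul (hinNu RN (RN - 1) Sv D l (fld st (24 * ex)) (fld st (24 * ex + 12))
      (fld st (24 * eg)) (fld st (24 * eg + 12))))
  exact (hv.add (hacc.smul w)).cast rfl (by ring)

theorem hinLoop_sound (hC : CstOK C n x V E)
    {st ex Qx s8 RN TA WA b m : ℕ} : ∀ (hs : List Hin) (d code A : ℕ) (k : K),
    (∀ h ∈ hs, ∃ e, e < 64 ∧ h.kg = 24 * e ∧ h.kg1 = 24 * e + 12 ∧ Acc n x h.Ng (-E e)) →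
    hinLoop C st (24 * ex) (24 * ex + 12) Qx s8 RN (RN - 1) TA WA b m hs d code A k = true →
    ∃ c' A', k c' A' = true ∧
      (Cell C.GG V E st → ex < 64 → s8 * RN = C.GG → 0 < RN → Acc n x Qx (E ex) →
        ∀ v, Acc n x A v → ∃ q, (m : ℤ) * hinSum E (E ex) s8 TA WA b d hs ≤ q ∧
          Acc n x A' (v + q)) := by
  intro hs
  induction hs with
  | nil =>
    intro d code A k _ h
    refine ⟨code, A, h, fun _ _ _ _ _ v hv => ⟨0, ?_, by simpa using hv⟩⟩
    simp [hinSum]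
  | cons a hs ih =>
    intro d code A k hE h
    obtain ⟨e, he, hkg, hkg1, hacc⟩ := hE a List.mem_cons_self
    change hinK C Qx s8 RN (RN - 1) (Nat.mul a.S (tab TA WA b (Nat.succ d))) a.D a.Ng
      (Nat.mul m (Nat.mul a.H (tab TA WA b d))) (Nat.land code 15)
        (fld st (24 * ex)) (fld st (24 * ex + 12)) (fld st a.kg) (fld st a.kg1)
        (Nat.shiftRight code 4) A
        (fun c' A' => hinLoop C st (24 * ex) (24 * ex + 12) Qx s8 RN (RN - 1) TA WA b m hs
          (Nat.add d 2) c' A' k) = true at h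
    rw [hkg, hkg1] at h
    obtain ⟨c1, A1, h1, g1⟩ := hinK_sound (E := E) hC h
    obtain ⟨c2, A2, h2, g2⟩ := ih _ _ _ _ (fun b hb => hE b (List.mem_cons_of_mem _ hb)) h1
    refine ⟨c2, A2, h2, ?_⟩
    intro hcell hex hs' hRN aQ v hv
    obtain ⟨q1, l1, a1⟩ := g1 hcell hex he hs' hRN aQ hacc v hv
    obtain ⟨q2, l2, a2⟩ := g2 hcell hex hs' hRN aQ _ a1
    refine ⟨q1 + q2, ?_, by rw [← add_assoc]; exact a2⟩
    have hk : a.kg / 24 = e := by omega
    show (m : ℤ) * (8 * (s8 * (a.H * tab TA WA b d)) *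
      max 0 ((a.S * tab TA WA b (d + 1) : ℕ) * E ex - a.D * E (a.kg / 24)) +
      hinSum E (E ex) s8 TA WA b (d + 2) hs) ≤ q1 + q2
    rw [hk, mul_add]
    have l2' : (m : ℤ) * hinSum E (E ex) s8 TA WA b (d + 2) hs ≤ q2 := l2
    refine add_le_add (le_trans (le_of_eq ?_) l1) l2'
    show (m : ℤ) * (8 * (s8 * (a.H * tab TA WA b d)) *
      max 0 ((a.S * tab TA WA b (d + 1) : ℕ) * E ex - a.D * E e)) =
      ((m * (a.H * tab TA WA b d) : ℕ) : ℤ) * (8 * (s8 : ℤ) *
        max 0 (((a.S * tab TA WA b (d + 1) : ℕ) : ℤ) * E ex - a.D * E e))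
    push_cast
    ring

theorem pTS_snd (hC : CstOK C n x V E) {ex hx PL Px Nx FP FN T W Qx s8 RN TA WA FT : ℕ}
    {hs : List Hin} {vL vx : ℤ} (hex : ex < 64) (hhx : 0 < hx) (hsRN : s8 * RN = C.GG)
    (hRN : 0 < RN)
    (hhs : ∀ h ∈ hs, ∃ e, e < 64 ∧ h.kg = 24 * e ∧ h.kg1 = 24 * e + 12 ∧ Acc n x h.Ng (-E e))
    (aL : Acc n x PL vL) (aQ : Acc n x Qx (E ex)) (aPx : Acc n x Px vx) (aNx : Acc n x Nx (-vx))
    (aFP : Acc n x FP (FT * V)) (aFN : Acc n x FN (-(FT * V)))
    (hrel : (hx : ℤ) * vx = FT * (C.GG * E ex))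
    (hT : ∀ i b : ℕ, i < 4096 → b < 1024 → (i * hx : ℤ) * V ≤ C.GG * E ex →
        C.GG * E ex ≤ ((i + 1) * hx : ℤ) * V →
        0 ≤ vL + tab T W b i * vx - tab T W b (i + 1) * vx +
          FT * (i * tab T W b (i + 1) * V - (i + 1) * tab T W b i * V) +
          hinSum E (E ex) s8 TA WA b 0 hs) :
    Snd C.GG n x V E (pTS C (24 * ex) (24 * ex + 12) hx (hx - 1) PL Px Nx FP FN T W Qx s8 RN
      (RN - 1) hs TA WA) := by
  intro st code A k h
  obtain ⟨hl, h⟩ := brec_true h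
  obtain ⟨c', A', hk, g⟩ := hinLoop_sound (E := E) hC hs 0 _ _ k hhs h
  refine ⟨c', A', hk, ?_⟩
  intro hcell hpos
  have lx := fld_lo hcell hex
  have ux := fld_hi hcell hex
  set lo := fld st (24 * ex) with hlo
  set hi := fld st (24 * ex + 12) with hhi
  have l1 : lo < 4096 := fld_lt _ _
  have l2 : hi < 4096 := fld_lt _ _
  set i := lo / hx with hi1
  set j := (hi + (hx - 1)) / hx with hj1
  set b := Nat.land (Nat.shiftRight code 16) 1023 with hb1
  set u := Nat.land (Nat.shiftRight code 26) 4095 with hu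
  set v := Nat.land (Nat.shiftRight code 38) 4095 with hv
  have hu1 : u < 4096 := land4095_lt _
  have hv1 : v < 4096 := land4095_lt _
  have hb3 : b < 1024 := by
    rw [hb1, land_mask _ (k := 10) (by norm_num)]
    exact Nat.mod_lt _ (by norm_num)
  have hj2 : j ≤ 4096 := by
    rw [hj1, Nat.div_le_iff_le_mul_add_pred (by omega)]
    have : hx ≤ 4096 * hx := Nat.le_mul_of_pos_left _ (by norm_num)
    omega
  have hch := lineC_spec (T := T) (W := W) (b := b) (i := i) (m := j - i) hu1 hv1 hl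
  have hv0 := line_val (t := fun k => tab T W b k) (r := vL + hinSum E (E ex) s8 TA WA b 0 hs)
    (f := (FT : ℤ)) hC.pos (by omega) (by positivity) hrel lx ux hi1 hj1 hch (by
      intro k hk1 hk2 q1 q2
      refine (hT k b (lt_of_lt_of_le hk2 hj2) hb3 q1 q2).trans (le_of_eq ?_)
      ring)
  have hacc := (((aL.smul (j - i)).add ((aPx.smul u).add (aNx.smul v))).add
    ((aFP.smul (i * v)).add (aFN.smul (j * u)))).smul (Nat.land code 65535)
  obtain ⟨v0, hv0p, a0⟩ := hpos
  obtain ⟨q, hq, a3⟩ := g hcell hex hsRN hRN aQ _ (a0.add hacc)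
  refine ⟨_, ?_, a3⟩
  set mu := Nat.land code 65535 with hmu
  have hm : (0 : ℤ) ≤ mu := by positivity
  have h5 := mul_nonneg hm hv0
  have hq' : ((mu * (j - i) : ℕ) : ℤ) * hinSum E (E ex) s8 TA WA b 0 hs ≤ q := hq
  have e : (mu : ℤ) * (((j - i : ℕ) : ℤ) * (vL + hinSum E (E ex) s8 TA WA b 0 hs) + u * vx -
      v * vx + FT * (i * v * V - j * u * V)) =
      (mu : ℤ) * (((j - i : ℕ) : ℤ) * vL + ((u : ℤ) * vx + (v : ℤ) * -vx) +
        (((i * v : ℕ) : ℤ) * ((FT : ℤ) * V) + ((j * u : ℕ) : ℤ) * -((FT : ℤ) * V))) +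
      ((mu * (j - i) : ℕ) : ℤ) * hinSum E (E ex) s8 TA WA b 0 hs := by
    push_cast
    ring
  rw [e] at h5
  linarith

/-! ### gates -/

/-- item functions whose success needs the success of the continuation -/
def Call (f : F) : Prop :=
  ∀ (st code A : ℕ) (k : K), f st code A k = true → ∃ c' A', k c' A' = true

theorem pCge_call (sh c P : ℕ) : Call (pCge sh c P) := by
  intro st code A k h
  obtain ⟨_, h⟩ := brec_true h
  exact ⟨_, _, h⟩

theorem pCle_call (sh c P : ℕ) : Call (pCle sh c P) := by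
  intro st code A k h
  obtain ⟨_, h⟩ := brec_true h
  exact ⟨_, _, h⟩

theorem pDT_call (C : Cst) (kp kp1 kq kq1 ks ks1 PD Ps Np Nq Ns Pp Pq : ℕ) :
    Call (pDT C kp kp1 kq kq1 ks ks1 PD Ps Np Nq Ns Pp Pq) := by
  intro st code A k h
  unfold pDT at h
  cases hb : Nat.beq (Nat.land (Nat.shiftRight code 16) 1) 0 with
  | true =>
    rw [hb] at h
    obtain ⟨_, h⟩ := brec_true h
    exact ⟨_, _, h⟩
  | false =>
    rw [hb] at h
    obtain ⟨_, h⟩ := brec_true h
    exact ⟨_, _, h⟩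

theorem pMc_call (C : Cst) (k1 k1' k2 k2' P1 P2 NZ : ℕ) : Call (pMc C k1 k1' k2 k2' P1 P2 NZ) := by
  intro st code A k h
  unfold pMc at h
  cases hb : Nat.beq (Nat.land (Nat.shiftRight code 16) 1) 0 with
  | true =>
    rw [hb] at h
    exact ⟨_, _, h⟩
  | false =>
    rw [hb] at h
    exact ⟨_, _, h⟩

theorem pTT_call (kx kx1 kg1 hx hx' cg cg' PLU Px Nx FP FN cb T W : ℕ) :
    Call (pTT kx kx1 kg1 hx hx' cg cg' PLU Px Nx FP FN cb T W) := by
  intro st code A k h
  obtain ⟨_, h⟩ := brec_true h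
  exact ⟨_, _, h⟩

theorem pTL_call (kx kx1 kg hx hx' cg PL Px Nx FP FN T W : ℕ) :
    Call (pTL kx kx1 kg hx hx' cg PL Px Nx FP FN T W) := by
  intro st code A k h
  obtain ⟨_, h⟩ := brec_true h
  exact ⟨_, _, h⟩

theorem hinLoop_call (C : Cst) (st kx kx1 Qx s8 RN RN' TA WA b m : ℕ) : ∀ (hs : List Hin)
    (n code A : ℕ) (k : K), hinLoop C st kx kx1 Qx s8 RN RN' TA WA b m hs n code A k = true →
    ∃ c' A', k c' A' = true := by
  intro hs
  induction hs with
  | nil => intro n code A k h; exact ⟨_, _, h⟩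
  | cons a hs ih =>
    intro n code A k h
    obtain ⟨_, h⟩ := brec_true h
    exact ih _ _ _ _ h

theorem pTS_call (C : Cst) (kx kx1 hx hx' PL Px Nx FP FN T W Qx s8 RN RN' : ℕ) (hs : List Hin)
    (TA WA : ℕ) : Call (pTS C kx kx1 hx hx' PL Px Nx FP FN T W Qx s8 RN RN' hs TA WA) := by
  intro st code A k h
  obtain ⟨_, h⟩ := brec_true h
  exact hinLoop_call _ _ _ _ _ _ _ _ _ _ _ _ _ _ _ _ _ h

theorem pGate_call (k0 k1 a b : ℕ) {f : F} (hf : Call f) : Call (pGate k0 k1 a b f) := by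
  intro st code A k h
  obtain ⟨_, h⟩ := brec_true h
  obtain ⟨_, h⟩ := brec_true h
  exact hf _ _ _ _ h

theorem pGate_snd {GG : ℕ} (hV : 0 ≤ V) {e a b : ℕ} (he : e < 64) {f : F} (hc : Call f)
    (hf : (a : ℤ) * V ≤ GG * E e → GG * E e ≤ (b : ℤ) * V → Snd GG n x V E f) :
    Snd GG n x V E (pGate (24 * e) (24 * e + 12) a b f) := by
  intro st code A k h
  obtain ⟨c1, h⟩ := brec_true h
  obtain ⟨c2, h⟩ := brec_true h
  by_cases hg : (a : ℤ) * V ≤ GG * E e ∧ GG * E e ≤ (b : ℤ) * V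
  · exact hf hg.1 hg.2 _ _ _ _ h
  · obtain ⟨c', A', h'⟩ := hc _ _ _ _ h
    refine ⟨c', A', h', fun hcell _ => absurd ?_ hg⟩
    have lo := fld_lo hcell he
    have hi := fld_hi hcell he
    have k1 : (a : ℤ) ≤ (fld st (24 * e) : ℕ) := by exact_mod_cast Nat.le_of_ble_eq_true c1
    have k2 : ((fld st (24 * e + 12) : ℕ) : ℤ) ≤ b := by exact_mod_cast Nat.le_of_ble_eq_true c2
    have k3 := mul_le_mul_of_nonneg_right k1 hV
    have k4 := mul_le_mul_of_nonneg_right k2 hV
    exact ⟨by linarith, by linarith⟩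

theorem linLoop_sound (hC : CstOK C n x V E) : ∀ (fuel code A : ℕ) (k : K),
    linLoop C fuel code A k = true → ∃ c' A', k c' A' = true ∧ (Pos n x A → Pos n x A') := by
  intro fuel
  induction fuel with
  | zero => intro code A k h; exact absurd h (by simp [linLoop])
  | succ fuel ih =>
    intro code A k h
    change @Bool.rec (fun _ => Bool)
      (linLoop C fuel (Nat.shiftRight code 25) (Nat.add A (Nat.mul (Nat.land (Nat.shiftRight code 9) 65535)
        (Nat.land (Nat.shiftRight C.PT (Nat.mul C.W (Nat.land code 511))) C.TW))) k)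
      (k (Nat.shiftRight code 9) A)
      (Nat.beq (Nat.land code 511) 511) = true at h
    cases hc : Nat.beq (Nat.land code 511) 511 with
    | true =>
      rw [hc] at h
      exact ⟨_, _, h, id⟩
    | false =>
      rw [hc] at h
      obtain ⟨c', A', h1, h2⟩ := ih _ _ _ h
      exact ⟨c', A', h1, fun hA => h2 (hA.add ((hC.PT _).smul _))⟩

theorem bndLoop_sound (hC : CstOK C n x V E) {st : ℕ} : ∀ (fuel code A : ℕ) (k : K),
    bndLoop C st fuel code A k = true → ∃ c' A', k c' A' = true ∧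
      (Cell C.GG V E st → Pos n x A → Pos n x A') := by
  intro fuel
  induction fuel with
  | zero => intro code A k h; exact absurd h (by simp [bndLoop])
  | succ fuel ih =>
    intro code A k h
    change @Bool.rec (fun _ => Bool)
      (bndLoop C st fuel (Nat.shiftRight code 23)
        (Nat.add A (Nat.mul (Nat.land (Nat.shiftRight code 7) 65535)
        (Nat.add (Nat.land (Nat.shiftRight C.EF (Nat.mul C.W (Nat.land code 127))) C.TW)
          (Nat.mul (Nat.mul C.KG (fld st (Nat.mul 12 (Nat.land code 127))))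
            (@Bool.rec (fun _ => ℕ) C.PV C.NV (Nat.beq (Nat.land code 1) 0)))))) k)
      (k (Nat.shiftRight code 7) A)
      (Nat.beq (Nat.land code 127) 127) = true at h
    cases hc : Nat.beq (Nat.land code 127) 127 with
    | true =>
      rw [hc] at h
      exact ⟨_, _, h, fun _ => id⟩
    | false =>
      rw [hc] at h
      obtain ⟨c', A', h1, h2⟩ := ih _ _ _ h
      refine ⟨c', A', h1, fun hcell hA => h2 hcell (hA.add (Good.smul ?_ _))⟩
      have hlt : code % 128 < 128 := Nat.mod_lt _ (by norm_num)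
      have hmod : code % 2 = code % 128 % 2 := by omega
      have e128 : Nat.land code 127 = code % 128 := land_mask code (k := 7) (by norm_num)
      have e2 : Nat.land code 1 = code % 2 := land_mask code (k := 1) (by norm_num)
      rw [e128, e2, hmod]
      show Good n x (Nat.add (Nat.land (Nat.shiftRight C.EF (Nat.mul C.W (code % 128))) C.TW)
          (Nat.mul (Nat.mul C.KG (fld st (12 * (code % 128))))
            (@Bool.rec (fun _ => ℕ) C.PV C.NV (Nat.beq (code % 128 % 2) 0))))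
      generalize code % 128 = t at hlt
      rcases Nat.even_or_odd' t with ⟨e, he | he⟩
      · subst he
        have e1 : Nat.beq (2 * e % 2) 0 = true := by
          rw [Nat.mul_mod_right]
          rfl
        rw [e1]
        have lo := fld_lo hcell (e := e) (by omega)
        have e2 : 12 * (2 * e) = 24 * e := by ring
        rw [e2]
        refine Good.of ((hC.EL e (by omega)).add (hC.NV.smul (C.KG * fld st (24 * e)))) ?_ rfl
        have hk := mul_le_mul_of_nonneg_left lo (Int.natCast_nonneg C.KG)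
        push_cast
        linarith
      · subst he
        have e1 : Nat.beq ((2 * e + 1) % 2) 0 = false := by
          have : (2 * e + 1) % 2 = 1 := by omega
          rw [this]
          rfl
        rw [e1]
        have hi := fld_hi hcell (e := e) (by omega)
        have e2 : 12 * (2 * e + 1) = 24 * e + 12 := by ring
        rw [e2]
        refine Good.of ((hC.EH e (by omega)).add (hC.PV.smul (C.KG * fld st (24 * e + 12)))) ?_ rfl
        have hk := mul_le_mul_of_nonneg_left hi (Int.natCast_nonneg C.KG)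
        push_cast
        linarith

theorem itLoop_sound {GG : ℕ} {T : FT} (hT : ∀ i, Snd GG n x V E (T.get i)) {st : ℕ} :
    ∀ (fuel code A : ℕ) (k : K), itLoop T st fuel code A k = true → ∃ c' A', k c' A' = true ∧
      (Cell GG V E st → Pos n x A → Pos n x A') := by
  intro fuel
  induction fuel with
  | zero => intro code A k h; exact absurd h (by simp [itLoop])
  | succ fuel ih =>
    intro code A k h
    change @Bool.rec (fun _ => Bool)
      (T.get (Nat.land code 511) st (Nat.shiftRight code 9) A (fun c' A' => itLoop T st fuel c' A' k))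
      (k (Nat.shiftRight code 9) A)
      (Nat.beq (Nat.land code 511) 511) = true at h
    cases hc : Nat.beq (Nat.land code 511) 511 with
    | true =>
      rw [hc] at h
      exact ⟨_, _, h, fun _ => id⟩
    | false =>
      rw [hc] at h
      obtain ⟨c1, A1, h1, g1⟩ := hT _ _ _ _ _ h
      obtain ⟨c', A', h2, g2⟩ := ih _ _ _ h1
      exact ⟨c', A', h2, fun hcell hA => g2 hcell (g1 hcell hA)⟩

theorem leaf_sound (hC : CstOK C n x V E) {T : FT} (hT : ∀ i, Snd C.GG n x V E (T.get i))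
    {st code : ℕ} {k : ℕ → Bool} (h : leaf C T st code k = true) :
    (¬ Cell C.GG V E st) ∧ ∃ c', k c' = true := by
  obtain ⟨c1, A1, h1, g1⟩ := linLoop_sound hC _ _ _ _ h
  obtain ⟨c2, A2, h2, g2⟩ := bndLoop_sound hC _ _ _ _ h1
  obtain ⟨c3, A3, h3, g3⟩ := itLoop_sound hT _ _ _ _ h2
  obtain ⟨h4, h5⟩ := brec_true h3
  refine ⟨fun hcell => ?_, c3, h5⟩
  obtain ⟨v, hv, hacc⟩ := g3 hcell (g2 hcell (g1 hC.FV))
  have := finC_sound hC.nonneg hC.ones hC.hones hC.nb hC.n64 hacc h4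
  linarith

/-- sound rules -/
def SndR (GG : ℕ) (V : ℤ) (E : ℕ → ℤ) (r : ℕ → ℕ) : Prop := ∀ st, Cell GG V E st → Cell GG V E (r st)

theorem run_sound (hC : CstOK C n x V E) {T : FT} (hT : ∀ i, Snd C.GG n x V E (T.get i))
    {R : RT} (hR : ∀ i, SndR C.GG V E (R.get i)) : ∀ (fuel st code : ℕ) (k : ℕ → Bool),
    run C T R fuel st code k = true → (¬ Cell C.GG V E st) ∧ ∃ c', k c' = true := by
  intro fuel
  induction fuel with
  | zero => intro st code k h; exact absurd h (by simp [run])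
  | succ fuel ih =>
    intro st code k h
    change @Bool.rec (fun _ => Bool)
        (@Bool.rec (fun _ => Bool)
          (run C T R fuel (upd st (24 * (Nat.land (Nat.shiftRight code 1) 63) + 12)
                (Nat.land (Nat.shiftRight code 7) 4095)) (Nat.shiftRight code 19)
            (fun code' => run C T R fuel (upd st (24 * (Nat.land (Nat.shiftRight code 1) 63))
                (Nat.land (Nat.shiftRight code 7) 4095)) code' k))
          (run C T R fuel (R.get (Nat.land (Nat.shiftRight code 7) 4095) st)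
            (Nat.shiftRight code 19) k)
          (Nat.beq (Nat.land (Nat.shiftRight code 1) 63) 63))
        (leaf C T st (Nat.shiftRight code 1) k)
        (Nat.beq (Nat.land code 1) 0) = true at h
    cases hc : Nat.beq (Nat.land code 1) 0 with
    | true =>
      rw [hc] at h
      exact leaf_sound hC hT h
    | false =>
      rw [hc] at h
      cases hc2 : Nat.beq (Nat.land (Nat.shiftRight code 1) 63) 63 with
      | true =>
        rw [hc2] at h
        obtain ⟨n1, c1, h1⟩ := ih _ _ _ h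
        exact ⟨fun hcell => n1 (hR _ _ hcell), c1, h1⟩
      | false =>
        rw [hc2] at h
        have l1 : Nat.land (Nat.shiftRight code 1) 63 < 64 := land63_lt _
        have l2 : Nat.land (Nat.shiftRight code 7) 4095 < 4096 := land4095_lt _
        obtain ⟨n1, c1, h1⟩ := ih _ _ _ h
        obtain ⟨n2, c2, h2⟩ := ih _ _ _ h1
        refine ⟨fun hcell => ?_, c2, h2⟩
        rcases le_total ((C.GG : ℤ) * E (Nat.land (Nat.shiftRight code 1) 63))
          ((Nat.land (Nat.shiftRight code 7) 4095 : ℕ) * V) with hle | hle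
        · exact n1 (cell_upd_hi hcell l1 l2 hle)
        · exact n2 (cell_upd_lo hcell l1 l2 hle)

end

/-! ### rules -/

section
variable {GG : ℕ} {V : ℤ} {E : ℕ → ℤ}

/-- `g` bounds the form `y` from above on all cells that contain the point -/
def SUp (GG : ℕ) (V : ℤ) (E : ℕ → ℤ) (g : ℕ → ℕ) (y : ℤ) : Prop :=
  ∀ st, Cell GG V E st → y ≤ (g st : ℤ) * V

/-- `g` bounds the form `y` from below -/
def SLo (GG : ℕ) (V : ℤ) (E : ℕ → ℤ) (g : ℕ → ℕ) (y : ℤ) : Prop :=
  ∀ st, Cell GG V E st → (g st : ℤ) * V ≤ y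

theorem rs0_up (c : ℕ) : SUp GG V E (rs0 c) (c * V) := fun _ _ => le_refl _

theorem rs0_lo (c : ℕ) : SLo GG V E (rs0 c) (c * V) := fun _ _ => le_refl _

theorem rs1_up {a e : ℕ} (he : e < 64) {g : ℕ → ℕ} {y : ℤ} (hg : SUp GG V E g y) :
    SUp GG V E (rs1 a (24 * e + 12) g) (a * (GG * E e) + y) := by
  intro st h
  have h1 := fld_hi h he
  have h2 := hg st h
  have h4 := mul_le_mul_of_nonneg_left h1 (by positivity : (0 : ℤ) ≤ a)
  show _ ≤ ((a * fld st (24 * e + 12) + g st : ℕ) : ℤ) * V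
  push_cast
  linarith

theorem rs1_lo {a e : ℕ} (he : e < 64) {g : ℕ → ℕ} {y : ℤ} (hg : SLo GG V E g y) :
    SLo GG V E (rs1 a (24 * e) g) (a * (GG * E e) + y) := by
  intro st h
  have h1 := fld_lo h he
  have h2 := hg st h
  have h4 := mul_le_mul_of_nonneg_left h1 (by positivity : (0 : ℤ) ≤ a)
  show ((a * fld st (24 * e) + g st : ℕ) : ℤ) * V ≤ _
  push_cast
  linarith

theorem ruH_snd (hV : 0 < V) {t d : ℕ} (ht : t < 64) (hd : 0 < d) {g h : ℕ → ℕ} {y z : ℤ}
    (hg : SUp GG V E g y) (hh : SLo GG V E h z)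
    (hy : d * (GG * E t) ≤ max 0 (y - z)) :
    SndR GG V E (ruH (24 * t + 12) d (d - 1) g h) := by
  intro st hcell
  show Cell GG V E (@Bool.rec (fun _ => ℕ) st (upd st (24 * t + 12) ((g st - h st + (d - 1)) / d))
    (Nat.ble ((g st - h st + (d - 1)) / d) (fld st (24 * t + 12))))
  cases hb : Nat.ble ((g st - h st + (d - 1)) / d) (fld st (24 * t + 12)) with
  | false => exact hcell
  | true =>
    have hb' := Nat.le_of_ble_eq_true hb
    show Cell GG V E (upd st (24 * t + 12) ((g st - h st + (d - 1)) / d))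
    refine cell_upd_hi hcell ht (lt_of_le_of_lt hb' (fld_lt _ _)) ?_
    have g1 := hg st hcell
    have g2 := hh st hcell
    have hv : d * (GG * E t) ≤ ((g st - h st : ℕ) : ℤ) * V := by
      refine hy.trans (max_le (by positivity) ?_)
      have g3 : ((g st : ℕ) : ℤ) - (h st : ℕ) ≤ ((g st - h st : ℕ) : ℤ) := by omega
      nlinarith
    have hq : g st - h st ≤ d * ((g st - h st + (d - 1)) / d) := by
      have := Nat.div_add_mod (g st - h st + (d - 1)) d
      have h5 := Nat.mod_lt (g st - h st + (d - 1)) hd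
      omega
    have hqz : ((g st - h st : ℕ) : ℤ) ≤ (d : ℤ) * (((g st - h st + (d - 1)) / d : ℕ) : ℤ) := by
      exact_mod_cast hq
    have hdz : (0 : ℤ) < d := by exact_mod_cast hd
    have : (d : ℤ) * (GG * E t) ≤
        (d : ℤ) * ((((g st - h st + (d - 1)) / d : ℕ) : ℤ) * V) := by
      refine hv.trans ?_
      rw [← mul_assoc]
      exact mul_le_mul_of_nonneg_right hqz hV.le
    exact le_of_mul_le_mul_left this hdz

theorem ruL_snd (hV : 0 < V) {t d : ℕ} (ht : t < 64) (hd : 0 < d) {g h : ℕ → ℕ} {y z : ℤ}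
    (hg : SLo GG V E g y) (hh : SUp GG V E h z)
    (hy : y - z ≤ d * (GG * E t)) :
    SndR GG V E (ruL (24 * t) d g h) := by
  intro st hcell
  show Cell GG V E (@Bool.rec (fun _ => ℕ) st (@Bool.rec (fun _ => ℕ) st
    (upd st (24 * t) ((g st - h st) / d)) (Nat.ble ((g st - h st) / d) 4095))
    (Nat.ble (fld st (24 * t)) ((g st - h st) / d)))
  cases hb : Nat.ble (fld st (24 * t)) ((g st - h st) / d) with
  | false => exact hcell
  | true =>
    cases hb2 : Nat.ble ((g st - h st) / d) 4095 with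
    | false => exact hcell
    | true =>
      have hb3 : (g st - h st) / d ≤ 4095 := Nat.le_of_ble_eq_true hb2
      show Cell GG V E (upd st (24 * t) ((g st - h st) / d))
      have hE : (0 : ℤ) ≤ GG * E t := by
        have := fld_lo hcell ht
        have h0 : (0 : ℤ) ≤ (fld st (24 * t) : ℕ) * V := by positivity
        linarith
      refine cell_upd_lo hcell ht (by omega) ?_
      have hdz : (0 : ℤ) < d := by exact_mod_cast hd
      have hv : ((g st - h st : ℕ) : ℤ) * V ≤ d * (GG * E t) := by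
        have g1 := hg st hcell
        have g2 := hh st hcell
        rcases le_total (g st) (h st) with hle | hle
        · rw [Nat.sub_eq_zero_of_le hle]
          push_cast
          nlinarith
        · have g3 : ((g st - h st : ℕ) : ℤ) = (g st : ℤ) - (h st : ℕ) := by omega
          rw [g3]
          linarith
      have hq : d * ((g st - h st) / d) ≤ g st - h st := Nat.mul_div_le _ _
      have hqz : (d : ℤ) * (((g st - h st) / d : ℕ) : ℤ) ≤ ((g st - h st : ℕ) : ℤ) := by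
        exact_mod_cast hq
      have : (d : ℤ) * ((((g st - h st) / d : ℕ) : ℤ) * V) ≤ (d : ℤ) * (GG * E t) := by
        refine le_trans ?_ hv
        rw [← mul_assoc]
        exact mul_le_mul_of_nonneg_right hqz hV.le
      exact le_of_mul_le_mul_left this hdz

theorem ruC_snd {g h : ℕ → ℕ} (hg : SndR GG V E g) (hh : SndR GG V E h) :
    SndR GG V E (ruC g h) := fun st hcell => hh _ (hg st hcell)

theorem id_snd : SndR GG V E (fun st => st) := fun _ h => h

end

end Pool.Agent.EdgeIso.Chk
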