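import Pool.Agent.Lib.MP_48c8f3_co.Bas
import Pool.Agent.Lib.MP_48c8f3_co.FL

set_option autoImplicit false

/-!
MP_48c8f3_co, generic checker, part D: systems given by lists of integers, their compilation to
packed items, and trees of chunks.
-/

noncomputable section

namespace Pool.Agent.EdgeIso.Chk

open Finset

/-- packing of a list of coefficients, with the weight `1` -/
def pkw : List ℤ → ℕ
  | [] => 1
  | c :: L => (c + 65536).toNat + BB * pkw L

/-- value of a form -/
def dot : List ℤ → (ℕ → ℤ) → ℤ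
  | [], _ => 0
  | c :: L, x => c * x 0 + dot L (fun i => x (i + 1))

def neg (L : List ℤ) : List ℤ := L.map (fun c => -c)

/-- admissible coefficient lists of length `n` -/
def okL : ℕ → List ℤ → Bool
  | 0, [] => true
  | n + 1, c :: L => decide (-65536 ≤ c) && decide (c ≤ 65536) && okL n L
  | _, _ => false

theorem dot_neg : ∀ (L : List ℤ) (x : ℕ → ℤ), dot (neg L) x = -dot L x := by
  intro L
  induction L with
  | nil => intro x; simp [neg, dot]
  | cons c L ih =>
    intro x
    show -c * x 0 + dot (neg L) _ = -(c * x 0 + dot L _)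
    rw [ih]
    ring

theorem okL_neg : ∀ (n : ℕ) (L : List ℤ), okL n L = true → okL n (neg L) = true := by
  intro n
  induction n with
  | zero =>
    intro L h
    cases L with
    | nil => exact h
    | cons c L => exact absurd h (by simp [okL])
  | succ n ih =>
    intro L h
    cases L with
    | nil => exact absurd h (by simp [okL])
    | cons c L =>
      simp only [okL, Bool.and_eq_true, decide_eq_true_eq] at h
      show okL (n + 1) (-c :: neg L) = true
      simp only [okL, Bool.and_eq_true, decide_eq_true_eq]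
      exact ⟨⟨by omega, by omega⟩, ih L h.2⟩

/-- sparse forms: list of pairs (variable, coefficient) -/
def sp (n : ℕ) (l : List (ℕ × ℤ)) : List ℤ :=
  (List.range n).map (fun i => l.foldr (fun a s => if a.1 = i then a.2 + s else s) 0)

theorem dot_map : ∀ (n : ℕ) (f : ℕ → ℤ) (x : ℕ → ℤ),
    dot ((List.range n).map f) x = ∑ i ∈ range n, f i * x i := by
  intro n
  induction n with
  | zero => intro f x; simp [dot]
  | succ n ih =>
    intro f x
    rw [List.range_succ_eq_map, List.map_cons, List.map_map, Finset.sum_range_succ']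
    show f 0 * x 0 + dot _ _ = _
    rw [ih (f ∘ Nat.succ) (fun i => x (i + 1))]
    simp only [Function.comp]
    rw [add_comm]

theorem dot_sp (n : ℕ) (l : List (ℕ × ℤ)) (x : ℕ → ℤ) (h : ∀ a ∈ l, a.1 < n) :
    dot (sp n l) x = (l.map (fun a => a.2 * x a.1)).sum := by
  unfold sp
  rw [dot_map]
  induction l with
  | nil => simp
  | cons a l ih =>
    have h1 := h a List.mem_cons_self
    have h2 := ih (fun b hb => h b (List.mem_cons_of_mem _ hb))
    rw [List.map_cons, List.sum_cons, ← h2]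
    have e : ∀ i ∈ range n, (List.foldr (fun a s => if a.1 = i then a.2 + s else s) 0 (a :: l)) *
        x i = (if i = a.1 then a.2 * x i else 0) +
          List.foldr (fun a s => if a.1 = i then a.2 + s else s) 0 l * x i := by
      intro i _
      rw [List.foldr_cons]
      by_cases hi : a.1 = i
      · rw [if_pos hi, if_pos hi.symm]
        ring
      · rw [if_neg hi, if_neg (fun h => hi h.symm)]
        ring
    rw [Finset.sum_congr rfl e, Finset.sum_add_distrib, Finset.sum_ite_eq' (range n) a.1]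
    rw [if_pos (mem_range.mpr h1)]

theorem acc_pk : ∀ (n : ℕ) (L : List ℤ) (x : ℕ → ℤ), okL n L = true →
    Acc n x (pkw L) (dot L x) := by
  have gen : ∀ (n : ℕ) (L : List ℤ) (x : ℕ → ℤ), okL n L = true →
      ∃ S : ℕ → ℕ, pkw L = ∑ i ∈ range n, S i * BB ^ i + 1 * BB ^ n ∧
        (∀ i, i < n → S i ≤ 2 * OO * 1) ∧
        dot L x = ∑ i ∈ range n, ((S i : ℤ) - OO * (1 : ℕ)) * x i := by
    intro n
    induction n with
    | zero =>
      intro L x h
      cases L with
      | nil => exact ⟨fun _ => 0, by simp [pkw], by simp, by simp [dot]⟩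
      | cons c L => exact absurd h (by simp [okL])
    | succ n ih =>
      intro L x h
      cases L with
      | nil => exact absurd h (by simp [okL])
      | cons c L =>
        simp only [okL, Bool.and_eq_true, decide_eq_true_eq] at h
        obtain ⟨S, h1, h2, h3⟩ := ih L (fun i => x (i + 1)) h.2
        refine ⟨fun i => Nat.casesOn i (c + 65536).toNat S, ?_, ?_, ?_⟩
        · rw [Finset.sum_range_succ']
          show (c + 65536).toNat + BB * pkw L = _
          have e : ∑ i ∈ range n, S i * BB ^ (i + 1) = BB * ∑ i ∈ range n, S i * BB ^ i := by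
            rw [Finset.mul_sum]
            apply sum_congr rfl
            intro i _
            ring
          show _ = ∑ i ∈ range n, S i * BB ^ (i + 1) + (c + 65536).toNat * BB ^ 0 +
            1 * BB ^ (n + 1)
          rw [h1, e, pow_succ]
          ring
        · intro i hi
          cases i with
          | zero =>
            show (c + 65536).toNat ≤ 2 * OO * 1
            simp only [OO]
            omega
          | succ i => exact h2 i (by omega)
        · rw [Finset.sum_range_succ']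
          show c * x 0 + dot L _ = _
          rw [h3]
          have : (((c + 65536).toNat : ℕ) : ℤ) = c + 65536 := by omega
          show _ = ∑ i ∈ range n, ((S i : ℤ) - OO * (1 : ℕ)) * x (i + 1) +
            ((((c + 65536).toNat : ℕ) : ℤ) - OO * (1 : ℕ)) * x 0
          rw [this]
          push_cast
          ring
  intro n L x h
  obtain ⟨S, h1, h2, h3⟩ := gen n L x h
  exact ⟨S, 1, h1, h2, h3⟩

theorem pkw_lt : ∀ (n : ℕ) (L : List ℤ), okL n L = true → 4096 * pkw L < BB ^ (n + 1) := by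
  have gen : ∀ (n : ℕ) (L : List ℤ), okL n L = true → pkw L < 2 * BB ^ n := by
    intro n
    induction n with
    | zero =>
      intro L h
      cases L with
      | nil => simp [pkw]
      | cons c L => exact absurd h (by simp [okL])
    | succ n ih =>
      intro L h
      cases L with
      | nil => exact absurd h (by simp [okL])
      | cons c L =>
        simp only [okL, Bool.and_eq_true, decide_eq_true_eq] at h
        have h1 := ih L h.2
        have h2 : (c + 65536).toNat ≤ 131072 := by omega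
        have h3 : pkw L + 1 ≤ 2 * BB ^ n := h1
        have h4 := Nat.mul_le_mul_left BB h3
        show (c + 65536).toNat + BB * pkw L < 2 * BB ^ (n + 1)
        have h5 : 2 * BB ^ (n + 1) = BB * (2 * BB ^ n) := by rw [pow_succ]; ring
        rw [h5]
        have h6 : BB * (pkw L + 1) = BB * pkw L + BB := by ring
        rw [h6] at h4
        have h7 : 131072 < BB := by norm_num
        omega
  intro n L h
  have h1 := gen n L h
  rw [pow_succ]
  have h2 : (0 : ℕ) < BB ^ n := by positivity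
  have h3 : BB ^ n * 8192 ≤ BB ^ n * BB := Nat.mul_le_mul_left _ (by norm_num)
  omega

/-- packing of rows of `W` bits, `B = 2 ^ W` -/
def pkRow (B : ℕ) : List ℕ → ℕ
  | [] => 0
  | a :: l => a + B * pkRow B l

theorem pkRow_get {W : ℕ} : ∀ (l : List ℕ), (∀ a ∈ l, a < 2 ^ W) → ∀ i,
    Nat.land (Nat.shiftRight (pkRow (2 ^ W) l) (Nat.mul W i)) (2 ^ W - 1) = l.getD i 0 := by
  have hm : ∀ a, Nat.land a (2 ^ W - 1) = a % 2 ^ W := fun a =>
    Nat.and_two_pow_sub_one_eq_mod a W
  intro l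
  induction l with
  | nil =>
    intro _ i
    rw [hm]
    show (0 >>> (W * i)) % 2 ^ W = 0
    simp
  | cons a l ih =>
    intro h i
    have ha := h a List.mem_cons_self
    have hB : (0 : ℕ) < 2 ^ W := by positivity
    rw [hm]
    show ((a + 2 ^ W * pkRow (2 ^ W) l) >>> (W * i)) % 2 ^ W = _
    rw [Nat.shiftRight_eq_div_pow]
    cases i with
    | zero =>
      rw [Nat.mul_zero, pow_zero, Nat.div_one, Nat.add_mul_mod_self_left, Nat.mod_eq_of_lt ha]
      rfl
    | succ i =>
      have e : (2 : ℕ) ^ (W * (i + 1)) = 2 ^ W * 2 ^ (W * i) := by rw [← pow_add]; congr 1; ring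
      have e2 : (a + 2 ^ W * pkRow (2 ^ W) l) / 2 ^ W = pkRow (2 ^ W) l := by
        rw [Nat.add_mul_div_left _ _ hB, Nat.div_eq_of_lt ha, Nat.zero_add]
      rw [e, ← Nat.div_div_eq_div_mul, e2]
      have := ih (fun b hb => h b (List.mem_cons_of_mem _ hb)) i
      rw [hm] at this
      change (pkRow (2 ^ W) l >>> (W * i)) % 2 ^ W = _ at this
      rw [Nat.shiftRight_eq_div_pow] at this
      rw [this]
      rfl

/-- items on the level of lists -/
inductive ItemL where
  | cge (e c : ℕ) (L : List ℤ)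
  | cle (e c : ℕ) (L : List ℤ)
  | dt (ep eq es : ℕ) (d : List ℤ)
  | tt (ex eg hx cg : ℕ) (L U : List ℤ) (FL FU Fx FT cb T W : ℕ)
  | tl (ex eg hx cg : ℕ) (L : List ℤ) (FL Fx FT T W : ℕ)
  | mc (e1 e2 : ℕ) (Z : List ℤ)
  | ts (ex hx : ℕ) (L : List ℤ) (FL Fx FT T W s8 RN : ℕ) (hs : List (ℕ × ℕ × ℕ × ℕ)) (TA WA : ℕ)
  | gate (e a b : ℕ) (it : ItemL)

/-- a system: number of variables, `GG = 2^G`, expressions, linear items -/
structure SysL where
  n : ℕ
  GG : ℕ
  KG : ℕ
  ex : List (List ℤ)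
  GT : ℕ
  fin : List ℤ
  lin : List (List ℤ)

def SysL.fe (S : SysL) (e : ℕ) : List ℤ := S.ex.getD e (List.replicate S.n 0)

/-- the unit form: the variable `0` -/
def SysL.unit (S : SysL) : List ℤ := 1 :: List.replicate (S.n - 1) 0

def SysL.cst (S : SysL) : Cst where
  PV := pkw S.unit
  NV := pkw (neg S.unit)
  FV := pkw S.fin
  GG := S.GG
  KG := S.KG
  ones := (List.range S.n).foldr (fun _ a => 1 + BB * a) 0
  hones := (List.range S.n).foldr (fun _ a => 9223372036854775808 + BB * a) 0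
  n64 := 64 * S.n
  nb := 2 ^ (64 * S.n)
  W := 64 * (S.n + 1)
  TW := 2 ^ (64 * (S.n + 1)) - 1
  GT := S.GT
  PT := pkRow (2 ^ (64 * (S.n + 1))) (S.lin.map (fun L => 4096 * pkw L))
  EF := pkRow (2 ^ (64 * (S.n + 1))) ((List.range 128).map (fun t =>
    4096 * pkw (if t % 2 = 0 then S.fe (t / 2) else neg (S.fe (t / 2)))))

/-- a hinge `(eg, S, D, H)` -/
def SysL.hin (S : SysL) (h : ℕ × ℕ × ℕ × ℕ) : Hin :=
  ⟨24 * h.1, 24 * h.1 + 12, h.2.1, h.2.2.1, h.2.2.2, pkw (neg (S.fe h.1))⟩

/-- `∑_h 8 s8 H_h al_(b,h) max(0, S_h v_(b,h) E_x - D_h E_(g_h))` -/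
def hsum (S : SysL) (x : ℕ → ℤ) (EX : ℤ) (s8 TA WA b : ℕ) : ℕ → List (ℕ × ℕ × ℕ × ℕ) → ℤ
  | _, [] => 0
  | n, h :: t => 8 * (s8 * (h.2.2.2 * tab TA WA b n)) *
      max 0 ((h.2.1 * tab TA WA b (n + 1) : ℕ) * EX - h.2.2.1 * dot (S.fe h.1) x) +
      hsum S x EX s8 TA WA b (n + 2) t

def ItemL.run (S : SysL) (C : Cst) : ItemL → F
  | .cge e c L => pCge (24 * e) c (4096 * pkw L)
  | .cle e c L => pCle (24 * e + 12) c (4096 * pkw L)
  | .dt ep eq es d => pDT C (24 * ep) (24 * ep + 12) (24 * eq) (24 * eq + 12) (24 * es)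
      (24 * es + 12) (4096 * pkw d)
      (4096 * pkw (S.fe es)) (4096 * pkw (neg (S.fe ep)))
      (4096 * pkw (neg (S.fe eq))) (4096 * pkw (neg (S.fe es)))
      (4096 * pkw (S.fe ep)) (4096 * pkw (S.fe eq))
  | .tt ex eg hx cg L U FL FU Fx FT cb T W => pTT (24 * ex) (24 * ex + 12) (24 * eg + 12)
      hx (hx - 1) cg (cg - 1) (FL * pkw L + FU * pkw (neg U)) (Fx * pkw (S.fe ex))
      (Fx * pkw (neg (S.fe ex))) (FT * pkw S.unit) (FT * pkw (neg S.unit)) cb T W
  | .tl ex eg hx cg L FL Fx FT T W => pTL (24 * ex) (24 * ex + 12) (24 * eg)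
      hx (hx - 1) cg (FL * pkw L) (Fx * pkw (S.fe ex))
      (Fx * pkw (neg (S.fe ex))) (FT * pkw S.unit) (FT * pkw (neg S.unit)) T W
  | .mc e1 e2 Z => pMc C (24 * e1) (24 * e1 + 12) (24 * e2) (24 * e2 + 12)
      (S.GG * pkw (S.fe e1)) (S.GG * pkw (S.fe e2)) (S.GG * S.GG * pkw (neg Z))
  | .ts ex hx L FL Fx FT T W s8 RN hs TA WA => pTS C (24 * ex) (24 * ex + 12) hx (hx - 1)
      (FL * pkw L) (Fx * pkw (S.fe ex)) (Fx * pkw (neg (S.fe ex))) (FT * pkw S.unit)
      (FT * pkw (neg S.unit)) T W (pkw (S.fe ex)) s8 RN (RN - 1) (hs.map S.hin) TA WA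
  | .gate e a b it => pGate (24 * e) (24 * e + 12) a b (it.run S C)

def ItemL.wf (S : SysL) : ItemL → Bool
  | .cge e _ L => decide (e < 64) && okL S.n L
  | .cle e _ L => decide (e < 64) && okL S.n L
  | .dt ep eq es d => decide (ep < 64) && decide (eq < 64) && decide (es < 64) && okL S.n d
  | .tt ex eg hx cg L U _ _ Fx FT _ _ _ => decide (ex < 64) && decide (eg < 64) && okL S.n L &&
      okL S.n U && decide (0 < hx) && decide (0 < cg) && decide (hx * Fx = FT * S.GG)
  | .tl ex eg hx cg L _ Fx FT _ _ => decide (ex < 64) && decide (eg < 64) && okL S.n L &&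
      decide (0 < hx) && decide (0 < cg) && decide (hx * Fx = FT * S.GG)
  | .mc e1 e2 Z => decide (e1 < 64) && decide (e2 < 64) && okL S.n Z
  | .ts ex hx L _ Fx FT _ _ s8 RN hs _ _ => decide (ex < 64) && okL S.n L &&
      decide (0 < hx) && decide (hx * Fx = FT * S.GG) && decide (s8 * RN = S.GG) &&
      decide (0 < RN) && hs.all (fun h => decide (h.1 < 64))
  | .gate e _ _ it => decide (e < 64) && it.wf S

/-- meaning of an item of a system -/
def ItemL.Sem (S : SysL) (x : ℕ → ℤ) : ItemL → Prop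
  | .cge e c L => (c : ℤ) * x 0 ≤ S.GG * dot (S.fe e) x → 0 ≤ dot L x
  | .cle e c L => S.GG * dot (S.fe e) x ≤ (c : ℤ) * x 0 → 0 ≤ dot L x
  | .dt ep eq es d => dot (S.fe es) x = dot (S.fe ep) x + dot (S.fe eq) x ∧
        (∀ r i j : ℕ, r < 16 → i < 4096 → j < 4096 →
          (i * 2 ^ r : ℤ) * x 0 ≤ S.GG * dot (S.fe ep) x →
          (j * 2 ^ r : ℤ) * x 0 ≤ S.GG * dot (S.fe eq) x →
          S.GG * dot (S.fe es) x ≤ ((i + j + 1) * 2 ^ r : ℤ) * x 0 →
          (((i + j + 1) * 2 ^ r : ℤ) * x 0 - S.GG * dot (S.fe es) x) * dgt S.GT i j +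
            (S.GG * dot (S.fe ep) x - (i * 2 ^ r : ℤ) * x 0) * dgt S.GT (i + 1) j +
            (S.GG * dot (S.fe eq) x - (j * 2 ^ r : ℤ) * x 0) * dgt S.GT i (j + 1) ≤
              S.GG * dot d x) ∧
        (∀ r i j : ℕ, r < 16 → i < 4096 → j < 4096 →
          S.GG * dot (S.fe ep) x ≤ ((i + 1) * 2 ^ r : ℤ) * x 0 →
          S.GG * dot (S.fe eq) x ≤ ((j + 1) * 2 ^ r : ℤ) * x 0 →
          ((i + j + 1) * 2 ^ r : ℤ) * x 0 ≤ S.GG * dot (S.fe es) x →
          (S.GG * dot (S.fe es) x - ((i + j + 1) * 2 ^ r : ℤ) * x 0) *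
              dgt S.GT (i + 1) (j + 1) +
            (((i + 1) * 2 ^ r : ℤ) * x 0 - S.GG * dot (S.fe ep) x) * dgt S.GT i (j + 1) +
            (((j + 1) * 2 ^ r : ℤ) * x 0 - S.GG * dot (S.fe eq) x) * dgt S.GT (i + 1) j ≤
              S.GG * dot d x)
  | .tt ex eg hx cg L U FL FU Fx FT cb T W =>
      ∀ i b : ℕ, i < 4096 → b < 4096 → (i * hx : ℤ) * x 0 ≤ S.GG * dot (S.fe ex) x →
        S.GG * dot (S.fe ex) x ≤ ((i + 1) * hx : ℤ) * x 0 →
        S.GG * dot (S.fe eg) x ≤ (cg * b : ℤ) * x 0 →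
        0 ≤ FL * dot L x - FU * dot U x +
          ((tab T W b i : ℤ) - tab T W b (i + 1)) * (Fx * dot (S.fe ex) x) +
          FT * ((cb * b + i * tab T W b (i + 1)) * x 0 - (i + 1) * tab T W b i * x 0)
  | .tl ex eg hx cg L FL Fx FT T W =>
      ∀ i b : ℕ, i < 4096 → b < 4096 → (i * hx : ℤ) * x 0 ≤ S.GG * dot (S.fe ex) x →
        S.GG * dot (S.fe ex) x ≤ ((i + 1) * hx : ℤ) * x 0 →
        (cg * b : ℤ) * x 0 ≤ S.GG * dot (S.fe eg) x →
        0 ≤ FL * dot L x +
          ((tab T W b i : ℤ) - tab T W b (i + 1)) * (Fx * dot (S.fe ex) x) +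
          FT * (i * tab T W b (i + 1) * x 0 - (i + 1) * tab T W b i * x 0)
  | .mc e1 e2 Z => x 0 * dot Z x ≤ dot (S.fe e1) x * dot (S.fe e2) x
  | .ts ex hx L FL Fx FT T W s8 _ hs TA WA =>
      ∀ i b : ℕ, i < 4096 → b < 1024 → (i * hx : ℤ) * x 0 ≤ S.GG * dot (S.fe ex) x →
        S.GG * dot (S.fe ex) x ≤ ((i + 1) * hx : ℤ) * x 0 →
        0 ≤ FL * dot L x +
          ((tab T W b i : ℤ) - tab T W b (i + 1)) * (Fx * dot (S.fe ex) x) +
          FT * (i * tab T W b (i + 1) * x 0 - (i + 1) * tab T W b i * x 0) +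
          hsum S x (dot (S.fe ex) x) s8 TA WA b 0 hs
  | .gate e a b it => (a : ℤ) * x 0 ≤ S.GG * dot (S.fe e) x →
      S.GG * dot (S.fe e) x ≤ (b : ℤ) * x 0 → it.Sem S x

theorem fe_ok {S : SysL} (hex : ∀ L ∈ S.ex, okL S.n L = true) (e : ℕ) :
    okL S.n (S.fe e) = true := by
  unfold SysL.fe
  by_cases he : e < S.ex.length
  · rw [List.getD_eq_getElem _ _ he]
    exact hex _ (List.getElem_mem he)
  · rw [List.getD_eq_default _ _ (by omega)]
    generalize S.n = n
    induction n with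
    | zero => rfl
    | succ n ih =>
      rw [List.replicate_succ]
      simp only [okL, Bool.and_eq_true, decide_eq_true_eq]
      exact ⟨⟨by norm_num, by norm_num⟩, ih⟩

theorem foldr_ones (n c : ℕ) : (List.range n).foldr (fun _ a => c + BB * a) 0 =
    ∑ i ∈ range n, c * BB ^ i := by
  have gen : ∀ (m : ℕ) (L : List ℕ), L.length = m → L.foldr (fun _ a => c + BB * a) 0 =
      ∑ i ∈ range m, c * BB ^ i := by
    intro m
    induction m with
    | zero =>
      intro L hL
      rw [List.length_eq_zero_iff.mp hL]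
      simp
    | succ m ih =>
      intro L hL
      cases L with
      | nil => exact absurd hL (by simp)
      | cons a L =>
        rw [List.foldr_cons, ih L (by simpa using hL), Finset.sum_range_succ', Finset.mul_sum,
          pow_zero, Nat.mul_one, Nat.add_comm]
        congr 1
        apply sum_congr rfl
        intro i _
        ring
  exact gen n _ List.length_range

theorem dot_replicate_zero : ∀ (m : ℕ) (x : ℕ → ℤ), dot (List.replicate m 0) x = 0 := by
  intro m
  induction m with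
  | zero => intro x; rfl
  | succ m ih =>
    intro x
    rw [List.replicate_succ]
    show 0 * x 0 + dot (List.replicate m 0) _ = 0
    rw [ih]
    ring

theorem okL_replicate_zero : ∀ (m : ℕ), okL m (List.replicate m 0) = true := by
  intro m
  induction m with
  | zero => rfl
  | succ m ih =>
    rw [List.replicate_succ]
    simp only [okL, Bool.and_eq_true, decide_eq_true_eq]
    exact ⟨⟨by norm_num, by norm_num⟩, ih⟩

theorem unit_ok {S : SysL} (hn : 0 < S.n) : okL S.n S.unit = true := by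
  obtain ⟨m, hm⟩ : ∃ m, S.n = m + 1 := ⟨S.n - 1, by omega⟩
  unfold SysL.unit
  rw [hm]
  simp only [okL, Bool.and_eq_true, decide_eq_true_eq]
  exact ⟨⟨by norm_num, by norm_num⟩, okL_replicate_zero m⟩

theorem dot_unit {S : SysL} (x : ℕ → ℤ) : dot S.unit x = x 0 := by
  show 1 * x 0 + dot (List.replicate _ 0) _ = x 0
  rw [dot_replicate_zero]
  ring

theorem cst_ok {S : SysL} (hn : 0 < S.n) (hex : ∀ L ∈ S.ex, okL S.n L = true)
    (hKG : S.KG * S.GG = 4096)
    (hfin : okL S.n S.fin = true) (hlin : ∀ L ∈ S.lin, okL S.n L = true) {x : ℕ → ℤ}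
    (hx : ∀ i, 0 ≤ x i) (h0 : 0 < x 0) (hf : 0 < dot S.fin x)
    (hl : ∀ L ∈ S.lin, 0 ≤ dot L x) :
    CstOK S.cst S.n x (x 0) (fun e => dot (S.fe e) x) := by
  have hu := unit_ok hn
  have hd := dot_unit (S := S) x
  have eB1 : (2 : ℕ) ^ 64 = BB := by norm_num
  have eW : (2 : ℕ) ^ (64 * (S.n + 1)) = BB ^ (S.n + 1) := by rw [pow_mul, eB1]
  have hKGz : (S.KG : ℤ) * S.GG = 4096 := by exact_mod_cast hKG
  have hEF : ∀ t, t < 128 → Nat.land (Nat.shiftRight S.cst.EF (Nat.mul S.cst.W t)) S.cst.TW =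
      4096 * pkw (if t % 2 = 0 then S.fe (t / 2) else neg (S.fe (t / 2))) := by
    intro t ht
    have h1 := pkRow_get (W := 64 * (S.n + 1)) ((List.range 128).map (fun t =>
      4096 * pkw (if t % 2 = 0 then S.fe (t / 2) else neg (S.fe (t / 2))))) (by
        intro a ha
        rw [List.mem_map] at ha
        obtain ⟨s, _, rfl⟩ := ha
        rw [eW]
        split_ifs
        · exact pkw_lt _ _ (fe_ok hex _)
        · exact pkw_lt _ _ (okL_neg _ _ (fe_ok hex _))) t
    refine h1.trans ?_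
    rw [List.getD_eq_getElem _ _ (by simpa using ht)]
    simp
  refine ⟨h0, hx, ?_, ?_, ?_, ?_, ?_, ?_, rfl, ?_, ?_, ?_⟩
  · exact (acc_pk S.n _ x hu).cast rfl hd.symm
  · exact (acc_pk S.n _ x (okL_neg _ _ hu)).cast rfl (by rw [dot_neg, hd])
  · exact ⟨_, hf, acc_pk S.n _ x hfin⟩
  · show (List.range S.n).foldr (fun _ a => 1 + BB * a) 0 = _
    rw [foldr_ones]
    simp
  · exact foldr_ones S.n 9223372036854775808
  · show 2 ^ (64 * S.n) = BB ^ S.n
    rw [pow_mul, eB1]
  · intro i
    have h1 := pkRow_get (W := 64 * (S.n + 1)) (S.lin.map (fun L => 4096 * pkw L)) (by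
      intro a ha
      rw [List.mem_map] at ha
      obtain ⟨L, hL, rfl⟩ := ha
      rw [eW]
      exact pkw_lt _ _ (hlin L hL)) i
    show Good S.n x (Nat.land (Nat.shiftRight (pkRow (2 ^ (64 * (S.n + 1)))
      (S.lin.map (fun L => 4096 * pkw L))) (Nat.mul (64 * (S.n + 1)) i))
        (2 ^ (64 * (S.n + 1)) - 1))
    rw [h1]
    by_cases hi : i < S.lin.length
    · rw [List.getD_eq_getElem _ _ (by simpa using hi), List.getElem_map]
      exact Good.smul ⟨_, hl _ (List.getElem_mem hi),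
        acc_pk S.n _ x (hlin _ (List.getElem_mem hi))⟩ 4096
    · rw [List.getD_eq_default _ _ (by simpa using hi)]
      exact ⟨0, le_refl _, Acc.zero _ _⟩
  · intro e he
    have h1 := hEF (2 * e) (by omega)
    rw [h1, if_pos (by omega), show 2 * e / 2 = e by omega]
    refine ((acc_pk S.n _ x (fe_ok hex e)).smul 4096).cast rfl ?_
    show (S.KG : ℤ) * S.GG * dot (S.fe e) x = _
    rw [hKGz]
    push_cast
    ring
  · intro e he
    have h1 := hEF (2 * e + 1) (by omega)
    rw [h1, if_neg (by omega), show (2 * e + 1) / 2 = e by omega]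
    refine ((acc_pk S.n _ x (okL_neg _ _ (fe_ok hex e))).smul 4096).cast rfl ?_
    show -((S.KG : ℤ) * S.GG * dot (S.fe e) x) = _
    rw [hKGz, dot_neg]
    push_cast
    ring

theorem hinSum_map (S : SysL) (x : ℕ → ℤ) (EX : ℤ) (s8 TA WA b : ℕ) :
    ∀ (hs : List (ℕ × ℕ × ℕ × ℕ)) (d : ℕ),
    hinSum (fun e => dot (S.fe e) x) EX s8 TA WA b d (hs.map S.hin) =
      hsum S x EX s8 TA WA b d hs := by
  intro hs
  induction hs with
  | nil => intro d; rfl
  | cons a hs ih =>
    intro d
    show 8 * (s8 * (a.2.2.2 * tab TA WA b d)) *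
      max 0 ((a.2.1 * tab TA WA b (d + 1) : ℕ) * EX - a.2.2.1 * dot (S.fe (24 * a.1 / 24)) x) +
      hinSum (fun e => dot (S.fe e) x) EX s8 TA WA b (d + 2) (hs.map S.hin) = _
    have e : 24 * a.1 / 24 = a.1 := by omega
    rw [e, ih]
    rfl

theorem run_call (S : SysL) (C : Cst) (it : ItemL) : Call (it.run S C) := by
  induction it with
  | cge e c L => exact pCge_call _ _ _
  | cle e c L => exact pCle_call _ _ _
  | dt ep eq es d => exact pDT_call _ _ _ _ _ _ _ _ _ _ _ _ _ _
  | tt ex eg hx cg L U FL FU Fx FT cb T W => exact pTT_call _ _ _ _ _ _ _ _ _ _ _ _ _ _ _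
  | tl ex eg hx cg L FL Fx FT T W => exact pTL_call _ _ _ _ _ _ _ _ _ _ _ _ _
  | mc e1 e2 Z => exact pMc_call _ _ _ _ _ _ _ _
  | ts ex hx L FL Fx FT T W s8 RN hs TA WA =>
    exact pTS_call _ _ _ _ _ _ _ _ _ _ _ _ _ _ _ _ _ _ _
  | gate e a b it ih => exact pGate_call _ _ _ _ ih

theorem run_snd {S : SysL} {x : ℕ → ℤ} (hn : 0 < S.n) (hex : ∀ L ∈ S.ex, okL S.n L = true)
    (hKG : S.KG * S.GG = 4096)
    (hC : CstOK S.cst S.n x (x 0) (fun e => dot (S.fe e) x))
    {it : ItemL} (hwf : it.wf S = true) (h : it.Sem S x) :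
    Snd S.GG S.n x (x 0) (fun e => dot (S.fe e) x) (it.run S S.cst) := by
  have hu := unit_ok hn
  have hd := dot_unit (S := S) x
  have hKGz : (S.KG : ℤ) * S.GG = 4096 := by exact_mod_cast hKG
  have aF : ∀ c : ℕ, Acc S.n x (c * pkw S.unit) (c * x 0) := fun c =>
    ((acc_pk S.n _ x hu).smul c).cast rfl (by rw [hd])
  have aFn : ∀ c : ℕ, Acc S.n x (c * pkw (neg S.unit)) (-(c * x 0)) := fun c =>
    ((acc_pk S.n _ x (okL_neg _ _ hu)).smul c).cast rfl (by rw [dot_neg, hd]; ring)
  induction it with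
  | gate e a b it ih =>
    simp only [ItemL.wf, Bool.and_eq_true, decide_eq_true_eq] at hwf
    exact pGate_snd hC.pos.le hwf.1 (run_call S S.cst it)
      (fun h1 h2 => ih hwf.2 (h h1 h2))
  | cge e c L =>
    simp only [ItemL.wf, Bool.and_eq_true, decide_eq_true_eq] at hwf
    exact pCge_snd hC.pos hwf.1 (v := 4096 * dot L x)
      (((acc_pk S.n L x hwf.2).smul 4096).cast rfl (by push_cast; ring))
      (fun hc => mul_nonneg (by norm_num) (h hc))
  | cle e c L =>
    simp only [ItemL.wf, Bool.and_eq_true, decide_eq_true_eq] at hwf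
    exact pCle_snd hC.pos hwf.1 (v := 4096 * dot L x)
      (((acc_pk S.n L x hwf.2).smul 4096).cast rfl (by push_cast; ring))
      (fun hc => mul_nonneg (by norm_num) (h hc))
  | dt ep eq es d =>
    simp only [ItemL.wf, Bool.and_eq_true, decide_eq_true_eq] at hwf
    have a1 : ∀ e, Acc S.n x (4096 * pkw (S.fe e))
        (S.cst.KG * S.cst.GG * dot (S.fe e) x) := fun e =>
      ((acc_pk S.n _ x (fe_ok hex e)).smul 4096).cast rfl
        (by show (S.KG : ℤ) * S.GG * _ = _; rw [hKGz]; push_cast; ring)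
    have a2 : ∀ e, Acc S.n x (4096 * pkw (neg (S.fe e)))
        (-(S.cst.KG * S.cst.GG * dot (S.fe e) x)) := fun e =>
      ((acc_pk S.n _ x (okL_neg _ _ (fe_ok hex e))).smul 4096).cast rfl
        (by show -((S.KG : ℤ) * S.GG * _) = _; rw [hKGz, dot_neg]; push_cast; ring)
    exact pDT_snd hC hwf.1.1.1 hwf.1.1.2 hwf.1.2 (a1 es) (a2 es) (a1 ep)
      (a2 ep) (a1 eq) (a2 eq) (D := dot d x)
      (((acc_pk S.n _ x hwf.2).smul 4096).cast rfl
        (by show (S.KG : ℤ) * S.GG * _ = _; rw [hKGz]; push_cast; ring)) h.2.1 h.2.2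
  | tt ex eg hx cg L U FL FU Fx FT cb T W =>
    simp only [ItemL.wf, Bool.and_eq_true, decide_eq_true_eq] at hwf
    obtain ⟨⟨⟨⟨⟨⟨w1, w2⟩, w3⟩, w4⟩, w5⟩, w7⟩, w6⟩ := hwf
    have w6z : (hx : ℤ) * Fx = FT * S.GG := by exact_mod_cast w6
    refine pTT_snd hC.pos (vLU := FL * dot L x - FU * dot U x) (vx := Fx * dot (S.fe ex) x)
      (FT := FT) w1 w2 w5 w7
      ((((acc_pk S.n _ x w3).smul FL).add ((acc_pk S.n _ x (okL_neg _ _ w4)).smul FU)).cast rfl
        (by rw [dot_neg]; ring))
      ((acc_pk S.n _ x (fe_ok hex ex)).smul Fx)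
      (((acc_pk S.n _ x (okL_neg _ _ (fe_ok hex ex))).smul Fx).cast rfl
        (by rw [dot_neg]; ring)) (aF FT) (aFn FT) (by
          rw [← mul_assoc, w6z]
          ring) ?_
    intro i b hi hb k1 k2 k3
    refine (h i b hi hb k1 k2 k3).trans (le_of_eq ?_)
    ring
  | tl ex eg hx cg L FL Fx FT T W =>
    simp only [ItemL.wf, Bool.and_eq_true, decide_eq_true_eq] at hwf
    obtain ⟨⟨⟨⟨⟨w1, w2⟩, w3⟩, w5⟩, w7⟩, w6⟩ := hwf
    have w6z : (hx : ℤ) * Fx = FT * S.GG := by exact_mod_cast w6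
    refine pTL_snd hC.pos (vL := FL * dot L x) (vx := Fx * dot (S.fe ex) x)
      (FT := FT) w1 w2 w5 w7
      ((acc_pk S.n _ x w3).smul FL)
      ((acc_pk S.n _ x (fe_ok hex ex)).smul Fx)
      (((acc_pk S.n _ x (okL_neg _ _ (fe_ok hex ex))).smul Fx).cast rfl
        (by rw [dot_neg]; ring)) (aF FT) (aFn FT) (by
          rw [← mul_assoc, w6z]
          ring) ?_
    intro i b hi hb k1 k2 k3
    refine (h i b hi hb k1 k2 k3).trans (le_of_eq ?_)
    ring
  | mc e1 e2 Z =>
    simp only [ItemL.wf, Bool.and_eq_true, decide_eq_true_eq] at hwf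
    exact pMc_snd hC hwf.1.1 hwf.1.2
      ((acc_pk S.n _ x (fe_ok hex e1)).smul S.GG)
      ((acc_pk S.n _ x (fe_ok hex e2)).smul S.GG) (z := dot Z x)
      (((acc_pk S.n _ x (okL_neg _ _ hwf.2)).smul (S.GG * S.GG)).cast rfl
        (by rw [dot_neg]; simp [SysL.cst])) h
  | ts ex hx L FL Fx FT T W s8 RN hs TA WA =>
    simp only [ItemL.wf, Bool.and_eq_true, decide_eq_true_eq] at hwf
    obtain ⟨⟨⟨⟨⟨⟨w1, w3⟩, w5⟩, w6⟩, w7⟩, w8⟩, w9⟩ := hwf
    have w6z : (hx : ℤ) * Fx = FT * S.GG := by exact_mod_cast w6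
    refine pTS_snd hC (FT := FT) (vL := FL * dot L x) (vx := Fx * dot (S.fe ex) x) w1 w5 w7 w8 ?_
      ((acc_pk S.n _ x w3).smul FL) (acc_pk S.n _ x (fe_ok hex ex))
      ((acc_pk S.n _ x (fe_ok hex ex)).smul Fx)
      (((acc_pk S.n _ x (okL_neg _ _ (fe_ok hex ex))).smul Fx).cast rfl
        (by rw [dot_neg]; ring)) (aF FT) (aFn FT) (by
          show (hx : ℤ) * (Fx * dot (S.fe ex) x) = FT * (S.GG * dot (S.fe ex) x)
          rw [← mul_assoc, w6z]
          ring) ?_
    · intro h hh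
      rw [List.mem_map] at hh
      obtain ⟨a, ha, rfl⟩ := hh
      have ha' := of_decide_eq_true (List.all_eq_true.mp w9 a ha)
      refine ⟨a.1, ha', rfl, rfl, ?_⟩
      show Acc S.n x (pkw (neg (S.fe a.1))) (-dot (S.fe a.1) x)
      rw [← dot_neg]
      exact acc_pk S.n _ x (okL_neg _ _ (fe_ok hex a.1))
    · intro i b hi hb k1 k2
      rw [hinSum_map]
      refine (h i b hi hb k1 k2).trans (le_of_eq ?_)
      ring

/-- trees of indices -/
inductive IT where
  | lf (i : ℕ)
  | nd (c : ℕ) (l r : IT)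

def IT.run (fs : List F) : IT → FT
  | .lf i => .lf (fs.getD i (fun _ _ _ _ => false))
  | .nd c l r => .nd c (l.run fs) (r.run fs)

def IT.runR (gs : List (ℕ → ℕ)) : IT → RT
  | .lf i => .lf (gs.getD i (fun st => st))
  | .nd c l r => .nd c (l.runR gs) (r.runR gs)

theorem IT.run_snd {P : F → Prop} {fs : List F} (h : ∀ f ∈ fs, P f)
    (h0 : P (fun _ _ _ _ => false)) : ∀ (t : IT) (i : ℕ), P ((t.run fs).get i) := by
  intro t
  induction t with
  | lf j =>
    intro i
    show P (fs.getD j (fun _ _ _ _ => false))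
    by_cases hj : j < fs.length
    · rw [List.getD_eq_getElem _ _ hj]
      exact h _ (List.getElem_mem hj)
    · rw [List.getD_eq_default _ _ (by omega)]
      exact h0
  | nd c l r ihl ihr =>
    intro i
    show P (@Bool.rec (fun _ => F) ((r.run fs).get i) ((l.run fs).get i) (Nat.ble i c))
    cases Nat.ble i c with
    | false => exact ihr i
    | true => exact ihl i

theorem IT.runR_snd {P : (ℕ → ℕ) → Prop} {fs : List (ℕ → ℕ)} (h : ∀ f ∈ fs, P f)
    (h0 : P (fun st => st)) : ∀ (t : IT) (i : ℕ), P ((t.runR fs).get i) := by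
  intro t
  induction t with
  | lf j =>
    intro i
    show P (fs.getD j (fun st => st))
    by_cases hj : j < fs.length
    · rw [List.getD_eq_getElem _ _ hj]
      exact h _ (List.getElem_mem hj)
    · rw [List.getD_eq_default _ _ (by omega)]
      exact h0
  | nd c l r ihl ihr =>
    intro i
    show P (@Bool.rec (fun _ => ℕ → ℕ) ((r.runR fs).get i) ((l.runR fs).get i) (Nat.ble i c))
    cases Nat.ble i c with
    | false => exact ihr i
    | true => exact ihl i

/-- A propagation rule on the level of expressions: with `hi = true` it says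
`d E_t ≤ max 0 (∑ pos + cp U/GG - ∑ neg - cn U/GG)`, with `hi = false` it says
`∑ pos + cp U/GG - ∑ neg - cn U/GG ≤ d E_t`. -/
structure RuleL where
  hi : Bool
  t : ℕ
  d : ℕ
  pos : List (ℕ × ℕ)
  cp : ℕ
  neg : List (ℕ × ℕ)
  cn : ℕ

def fsum (S : SysL) (x : ℕ → ℤ) (l : List (ℕ × ℕ)) : ℤ :=
  (l.map (fun a => (a.1 : ℤ) * (S.GG * dot (S.fe a.2) x))).sum

def RuleL.Sem (S : SysL) (x : ℕ → ℤ) (r : RuleL) : Prop :=
  bif r.hi then r.d * (S.GG * dot (S.fe r.t) x) ≤
      max 0 (fsum S x r.pos + r.cp * x 0 - (fsum S x r.neg + r.cn * x 0))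
  else fsum S x r.pos + r.cp * x 0 - (fsum S x r.neg + r.cn * x 0) ≤
    r.d * (S.GG * dot (S.fe r.t) x)

def RuleL.wf (r : RuleL) : Bool :=
  decide (0 < r.d) && decide (r.t < 64) && r.pos.all (fun a => decide (a.2 < 64)) &&
    r.neg.all (fun a => decide (a.2 < 64))

/-- the sum of fields as a function of the state; `o = 12` for upper bounds, `o = 0` for lower -/
def rsL (o c : ℕ) : List (ℕ × ℕ) → (ℕ → ℕ)
  | [] => rs0 c
  | a :: l => rs1 a.1 (24 * a.2 + o) (rsL o c l)

def RuleL.run (r : RuleL) : ℕ → ℕ :=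
  bif r.hi then ruH (24 * r.t + 12) r.d (r.d - 1) (rsL 12 r.cp r.pos) (rsL 0 r.cn r.neg)
  else ruL (24 * r.t) r.d (rsL 0 r.cp r.pos) (rsL 12 r.cn r.neg)

theorem rsL_up (S : SysL) (x : ℕ → ℤ) (c : ℕ) : ∀ (l : List (ℕ × ℕ)),
    l.all (fun a => decide (a.2 < 64)) = true →
    SUp S.GG (x 0) (fun e => dot (S.fe e) x) (rsL 12 c l) (fsum S x l + c * x 0) := by
  intro l
  induction l with
  | nil =>
    intro _
    have : fsum S x [] + c * x 0 = c * x 0 := by simp [fsum]
    rw [this]
    exact rs0_up c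
  | cons a l ih =>
    intro h
    rw [List.all_cons, Bool.and_eq_true] at h
    have h1 : a.2 < 64 := of_decide_eq_true h.1
    have : fsum S x (a :: l) + c * x 0 =
        (a.1 : ℤ) * (S.GG * dot (S.fe a.2) x) + (fsum S x l + c * x 0) := by
      simp only [fsum, List.map_cons, List.sum_cons]
      ring
    rw [this]
    exact rs1_up (E := fun e => dot (S.fe e) x) h1 (ih h.2)

theorem rsL_lo (S : SysL) (x : ℕ → ℤ) (c : ℕ) : ∀ (l : List (ℕ × ℕ)),
    l.all (fun a => decide (a.2 < 64)) = true →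
    SLo S.GG (x 0) (fun e => dot (S.fe e) x) (rsL 0 c l) (fsum S x l + c * x 0) := by
  intro l
  induction l with
  | nil =>
    intro _
    have : fsum S x [] + c * x 0 = c * x 0 := by simp [fsum]
    rw [this]
    exact rs0_lo c
  | cons a l ih =>
    intro h
    rw [List.all_cons, Bool.and_eq_true] at h
    have h1 : a.2 < 64 := of_decide_eq_true h.1
    have : fsum S x (a :: l) + c * x 0 =
        (a.1 : ℤ) * (S.GG * dot (S.fe a.2) x) + (fsum S x l + c * x 0) := by
      simp only [fsum, List.map_cons, List.sum_cons]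
      ring
    rw [this]
    exact rs1_lo (E := fun e => dot (S.fe e) x) h1 (ih h.2)

theorem rule_snd {S : SysL} {x : ℕ → ℤ} (h0 : 0 < x 0) {r : RuleL} (hwf : r.wf = true)
    (h : r.Sem S x) : SndR S.GG (x 0) (fun e => dot (S.fe e) x) r.run := by
  simp only [RuleL.wf, Bool.and_eq_true, decide_eq_true_eq] at hwf
  obtain ⟨⟨⟨w1, w2⟩, w3⟩, w4⟩ := hwf
  obtain ⟨hi, t, d, pos, cp, neg, cn⟩ := r
  cases hi with
  | true => exact ruH_snd h0 w2 w1 (rsL_up S x cp pos w3) (rsL_lo S x cn neg w4) h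
  | false => exact ruL_snd h0 w2 w1 (rsL_lo S x cp pos w3) (rsL_up S x cn neg w4) h

/-- groups of rules -/
def grp (rs : List (ℕ → ℕ)) : List ℕ → (ℕ → ℕ)
  | [] => fun st => st
  | [i] => rs.getD i (fun st => st)
  | i :: l => ruC (rs.getD i (fun st => st)) (grp rs l)

theorem grp_snd {GG : ℕ} {V : ℤ} {E : ℕ → ℤ} {rs : List (ℕ → ℕ)}
    (h : ∀ r ∈ rs, SndR GG V E r) : ∀ l : List ℕ, SndR GG V E (grp rs l) := by
  have hg : ∀ i, SndR GG V E (rs.getD i (fun st => st)) := by
    intro i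
    by_cases hj : i < rs.length
    · rw [List.getD_eq_getElem _ _ hj]
      exact h _ (List.getElem_mem hj)
    · rw [List.getD_eq_default _ _ (by omega)]
      exact id_snd
  intro l
  induction l with
  | nil => exact id_snd
  | cons i l ih =>
    cases l with
    | nil => exact hg i
    | cons j l => exact ruC_snd (hg i) ih

/-- trees of chunks -/
inductive MT where
  | ch (fuel code : ℕ)
  | nd (e c : ℕ) (l r : MT)
  | ru (i : ℕ) (t : MT)

def MT.chk (C : Cst) (T : FT) (R : RT) : MT → ℕ → Bool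
  | .ch fuel code, st => run C T R fuel st code (fun _ => true)
  | .nd e c l r, st => Nat.ble e 63 && Nat.ble c 4095 &&
      MT.chk C T R l (upd st (24 * e + 12) c) && MT.chk C T R r (upd st (24 * e) c)
  | .ru i t, st => MT.chk C T R t (R.get i st)

/-- the cell with the state `st` is closed -/
inductive Cl (C : Cst) (T : FT) (R : RT) : ℕ → Prop
  | ch {st : ℕ} (fuel code : ℕ) (h : run C T R fuel st code (fun _ => true) = true) : Cl C T R st
  | nd {st : ℕ} (e c : ℕ) (he : e < 64) (hc : c < 4096) (hl : Cl C T R (upd st (24 * e + 12) c))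
      (hr : Cl C T R (upd st (24 * e) c)) : Cl C T R st
  | ru {st : ℕ} (i : ℕ) (h : Cl C T R (R.get i st)) : Cl C T R st

theorem MT.cl {C : Cst} {T : FT} {R : RT} : ∀ (t : MT) {st : ℕ}, t.chk C T R st = true →
    Cl C T R st := by
  intro t
  induction t with
  | ch fuel code => exact fun h => Cl.ch fuel code h
  | nd e c l r ihl ihr =>
    intro st h
    simp only [MT.chk, Bool.and_eq_true] at h
    obtain ⟨⟨⟨h1, h2⟩, h3⟩, h4⟩ := h
    have := Nat.le_of_ble_eq_true h1
    have := Nat.le_of_ble_eq_true h2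
    exact Cl.nd e c (by omega) (by omega) (ihl h3) (ihr h4)
  | ru i t ih => exact fun h => Cl.ru i (ih h)

theorem Cl.sound {C : Cst} {n : ℕ} {x : ℕ → ℤ} {V : ℤ} {E : ℕ → ℤ} (hC : CstOK C n x V E)
    {T : FT} (hT : ∀ i, Snd C.GG n x V E (T.get i)) {R : RT} (hR : ∀ i, SndR C.GG V E (R.get i))
    {st : ℕ} (h : Cl C T R st) : ¬ Cell C.GG V E st := by
  induction h with
  | ch fuel code h => exact (run_sound hC hT hR fuel _ code _ h).1
  | nd e c he hc _ _ ihl ihr =>
    intro hcell
    rcases le_total ((C.GG : ℤ) * E e) ((c : ℕ) * V) with hle | hle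
    · exact ihl (cell_upd_hi hcell he hc hle)
    · exact ihr (cell_upd_lo hcell he hc hle)
  | ru i _ ih => exact fun hcell => ih (hR i _ hcell)

/-- the state with given bounds -/
def mkst : List (ℕ × ℕ) → ℕ
  | [] => 0
  | (a, b) :: L => a + 4096 * b + 16777216 * mkst L

def okst : ℕ → List (ℕ × ℕ) → Bool
  | 0, [] => true
  | n + 1, (a, b) :: L => decide (a < 4096) && decide (b < 4096) && okst n L
  | _, _ => false

theorem cell_mkst {GG V : ℤ} : ∀ (n : ℕ) (L : List (ℕ × ℕ)) (E : ℕ → ℤ), okst n L = true →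
    (∀ e, e < n → (((L.getD e (0, 0)).1 : ℕ) : ℤ) * V ≤ GG * E e ∧
      GG * E e ≤ (((L.getD e (0, 0)).2 : ℕ) : ℤ) * V) →
    ∃ S : ℕ → ℕ, mkst L = ∑ k ∈ range (2 * n), S k * 4096 ^ k ∧ (∀ k, k < 2 * n → S k < 4096) ∧
    ∀ e, e < n → (S (2 * e) : ℤ) * V ≤ GG * E e ∧ GG * E e ≤ (S (2 * e + 1) : ℤ) * V := by
  intro n
  induction n with
  | zero =>
    intro L E h _
    cases L with
    | nil => exact ⟨fun _ => 0, by simp [mkst], by simp, by intro e he; omega⟩
    | cons a L => exact absurd h (by simp [okst])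
  | succ n ih =>
    intro L E h hE
    cases L with
    | nil => exact absurd h (by simp [okst])
    | cons ab L =>
      obtain ⟨a, b⟩ := ab
      simp only [okst, Bool.and_eq_true, decide_eq_true_eq] at h
      obtain ⟨S, h1, h2, h3⟩ := ih L (fun e => E (e + 1)) h.2 (fun e he => by
        have := hE (e + 1) (by omega)
        simpa using this)
      refine ⟨fun k => Nat.casesOn k a (fun k' => Nat.casesOn k' b S), ?_, ?_, ?_⟩
      · rw [show 2 * (n + 1) = 2 * n + 1 + 1 by ring, Finset.sum_range_succ',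
          Finset.sum_range_succ']
        show a + 4096 * b + 16777216 * mkst L = _
        rw [h1, Finset.mul_sum]
        show _ = ∑ k ∈ range (2 * n), S k * 4096 ^ (k + 1 + 1) + b * 4096 ^ (0 + 1) + a * 4096 ^ 0
        have : ∑ k ∈ range (2 * n), S k * 4096 ^ (k + 1 + 1) =
            ∑ k ∈ range (2 * n), 16777216 * (S k * 4096 ^ k) := by
          apply sum_congr rfl
          intro k _
          ring
        rw [this]
        ring
      · intro k hk
        match k with
        | 0 => exact h.1.1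
        | 1 => exact h.1.2
        | k + 2 => exact h2 k (by omega)
      · intro e he
        cases e with
        | zero =>
          have := hE 0 (by omega)
          simpa using this
        | succ e =>
          have := h3 e (by omega)
          simpa [show 2 * (e + 1) = 2 * e + 2 by ring, show 2 * e + 2 + 1 = 2 * e + 1 + 2 by ring]
            using this

/-- main theorem of the checker -/
theorem sys_sound {S : SysL} (hn : 0 < S.n) (hex : S.ex.all (fun L => okL S.n L) = true)
    (hKG : S.KG * S.GG = 4096) (hfin : okL S.n S.fin = true)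
    (hlin : S.lin.all (fun L => okL S.n L) = true)
    {its : List ItemL} (hwf : its.all (fun it => it.wf S) = true) {C : Cst} (hC : C = S.cst)
    {tr : IT} {T : FT} (hT : T = tr.run (its.map (ItemL.run S C)))
    {rls : List RuleL} (hrwf : rls.all RuleL.wf = true) {grps : List (List ℕ)}
    {trr : IT} {R : RT} (hR : R = trr.runR (grps.map (grp (rls.map RuleL.run))))
    {bds : List (ℕ × ℕ)} (hb : okst 64 bds = true) {st : ℕ} (hst : st = mkst bds)
    (ht : Cl C T R st)
    {x : ℕ → ℤ} (hx : ∀ i, 0 ≤ x i) (h0 : 0 < x 0) (hf : 0 < dot S.fin x)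
    (hl : ∀ L ∈ S.lin, 0 ≤ dot L x)
    (hsem : ∀ it ∈ its, it.Sem S x) (hrsem : ∀ r ∈ rls, r.Sem S x)
    (hbd : ∀ e, e < 64 → (((bds.getD e (0, 0)).1 : ℕ) : ℤ) * x 0 ≤ S.GG * dot (S.fe e) x ∧
      S.GG * dot (S.fe e) x ≤ (((bds.getD e (0, 0)).2 : ℕ) : ℤ) * x 0) : False := by
  subst hC
  have hex' : ∀ L ∈ S.ex, okL S.n L = true := fun L hL => List.all_eq_true.mp hex L hL
  have hCK := cst_ok hn hex' hKG hfin (fun L hL => List.all_eq_true.mp hlin L hL) hx h0 hf hl
  have hTs : ∀ i, Snd S.cst.GG S.n x (x 0) (fun e => dot (S.fe e) x) (T.get i) := by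
    rw [hT]
    refine IT.run_snd ?_ ?_ tr
    · intro f hf
      rw [List.mem_map] at hf
      obtain ⟨it, hit, rfl⟩ := hf
      exact run_snd hn hex' hKG hCK (List.all_eq_true.mp hwf it hit) (hsem it hit)
    · intro st code A k h
      exact absurd h (by simp)
  have hRs : ∀ i, SndR S.cst.GG (x 0) (fun e => dot (S.fe e) x) (R.get i) := by
    rw [hR]
    refine IT.runR_snd ?_ id_snd trr
    intro f hf
    rw [List.mem_map] at hf
    obtain ⟨g, _, rfl⟩ := hf
    refine grp_snd ?_ g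
    intro r hr
    rw [List.mem_map] at hr
    obtain ⟨r', hr', rfl⟩ := hr
    exact rule_snd h0 (List.all_eq_true.mp hrwf r' hr') (hrsem r' hr')
  apply Cl.sound hCK hTs hRs ht
  obtain ⟨St, h1, h2, h3⟩ := cell_mkst (GG := (S.GG : ℤ)) (V := x 0) 64 bds
    (fun e => dot (S.fe e) x) hb hbd
  exact ⟨St, hst.trans h1, h2, h3⟩

end Pool.Agent.EdgeIso.Chk
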