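import Pool.Agent.Lib.MP_48c8f3_co.Bas
import Pool.Agent.Lib.MP_48c8f3_co.FM

set_option autoImplicit false

/-!
MP_48c8f3_co, generic checker, part E: linking the items with the defect function and with tables.
-/

namespace Pool.Agent.EdgeIso.Chk

open Finset Pool.Agent.EdgeIso.Frame

def gtOK (GT M : ℕ) : Bool :=
  Nat.beq (Nat.shiftRight GT (Nat.mul 16 (Nat.mul 2 M))) 0 &&
  Nat.beq (gt GT 0) 0 && Nat.beq (gt GT 1) 0 &&
  allB M (fun m => Nat.beq (gt GT (Nat.mul 2 m)) (Nat.add (Nat.mul 2 (gt GT m)) m) &&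
    Nat.beq (gt GT (Nat.succ (Nat.mul 2 m))) (Nat.add (Nat.add (gt GT m) (gt GT (Nat.succ m))) m))

theorem gt_eq {GT M : ℕ} (h : gtOK GT M = true) : ∀ m, m < 2 * M → gt GT m = g m := by
  simp only [gtOK, Bool.and_eq_true] at h
  obtain ⟨⟨⟨_, h0⟩, h1⟩, h2⟩ := h
  have H := allB_spec _ _ h2
  intro m
  induction m using Nat.strong_induction_on with
  | _ m ih =>
    intro hm
    rcases Nat.lt_or_ge m 2 with hm2 | hm2
    · interval_cases m
      · rw [g_zero]; exact Nat.eq_of_beq_eq_true h0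
      · rw [g_one]; exact Nat.eq_of_beq_eq_true h1
    · rcases Nat.even_or_odd' m with ⟨a, ha | ha⟩
      · have := H a (by omega)
        simp only [Bool.and_eq_true] at this
        have e := Nat.eq_of_beq_eq_true this.1
        have e' : gt GT (2 * a) = 2 * gt GT a + a := e
        rw [ha, e', g_even, ih a (by omega) (by omega)]
      · have := H a (by omega)
        simp only [Bool.and_eq_true] at this
        have e := Nat.eq_of_beq_eq_true this.2
        have e' : gt GT (2 * a + 1) = gt GT a + gt GT (a + 1) + a := e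
        rw [ha, e', g_odd, ih a (by omega) (by omega), ih (a + 1) (by omega) (by omega)]

theorem gt_zero {GT M : ℕ} (h : gtOK GT M = true) : ∀ m, 2 * M ≤ m → gt GT m = 0 := by
  simp only [gtOK, Bool.and_eq_true] at h
  obtain ⟨⟨⟨h3, _⟩, _⟩, _⟩ := h
  have h3' : GT >>> (16 * (2 * M)) = 0 := Nat.eq_of_beq_eq_true h3
  intro m hm
  obtain ⟨k, rfl⟩ : ∃ k, m = 2 * M + k := ⟨m - 2 * M, by omega⟩
  show Nat.land (GT >>> (16 * (2 * M + k))) 65535 = 0
  rw [land_mask _ (k := 16) (by norm_num), Nat.mul_add, Nat.shiftRight_add, h3']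
  simp

theorem dgt_le {GT M : ℕ} (h1 : gtOK GT M = true) (i j : ℕ) : (dgt GT i j : ℤ) ≤ dg i j := by
  rcases Nat.lt_or_ge (i + j) (2 * M) with hij | hij
  · unfold dgt
    have e1 : gt GT (Nat.add i j) = g (i + j) := gt_eq h1 (i + j) hij
    have e2 := gt_eq h1 i (by omega)
    have e3 := gt_eq h1 j (by omega)
    rw [e1, e2, e3]
    have hmin : (@Bool.rec (fun _ => ℕ) j i (Nat.ble i j)) = min i j := by
      cases hb : Nat.ble i j with
      | true =>
        have := Nat.le_of_ble_eq_true hb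
        show i = min i j
        omega
      | false =>
        have : ¬ i ≤ j := fun h => by
          rw [Nat.ble_eq_true_of_le h] at hb
          exact absurd hb (by simp)
        show j = min i j
        omega
    rw [hmin]
    have h4 := g_add i j
    show ((g (i + j) - (g i + g j + min i j) : ℕ) : ℤ) ≤ _
    unfold dg
    omega
  · have e1 : gt GT (Nat.add i j) = 0 := gt_zero h1 (i + j) hij
    have e2 : dgt GT i j = 0 := by
      unfold dgt
      rw [e1]
      exact Nat.zero_sub _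
    rw [e2]
    have h4 := g_add i j
    unfold dg
    omega

/-- the D-item from an actual defect -/
theorem dt_sem {S : SysL} {x : ℕ → ℤ} {G N p q ep eq es : ℕ} {d : List ℤ} (hG : S.GG = 2 ^ G)
    (hN : G ≤ N) (hx : x 0 = 2 ^ N) (hT : ∀ i j, (dgt S.GT i j : ℤ) ≤ dg i j)
    (hp : dot (S.fe ep) x = p) (hq : dot (S.fe eq) x = q) (hs : dot (S.fe es) x = p + q)
    (hd : dg p q ≤ dot d x) : (ItemL.dt ep eq es d).Sem S x := by
  obtain ⟨k, rfl⟩ : ∃ k, N = G + k := ⟨N - G, by omega⟩
  have hG0 : (0 : ℤ) < 2 ^ G := by positivity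
  have hcast : ((2 ^ G : ℕ) : ℤ) = 2 ^ G := by push_cast; rfl
  refine ⟨by rw [hs, hp, hq], ?_, ?_⟩
  · intro r i j _ hi' hj' h1 h2 h3
    rw [hp, hx, hG, pow_add, hcast] at h1
    rw [hq, hx, hG, pow_add, hcast] at h2
    rw [hs, hx, hG, pow_add, hcast] at h3
    have e1 : ((i * 2 ^ (r + k) : ℕ) : ℤ) ≤ p := by
      apply le_of_mul_le_mul_left _ hG0
      push_cast
      rw [pow_add]
      linarith
    have e2 : ((j * 2 ^ (r + k) : ℕ) : ℤ) ≤ q := by
      apply le_of_mul_le_mul_left _ hG0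
      push_cast
      rw [pow_add]
      linarith
    have e3 : ((p + q : ℕ) : ℤ) ≤ ((i + j + 1) * 2 ^ (r + k) : ℕ) := by
      apply le_of_mul_le_mul_left _ hG0
      push_cast
      rw [pow_add]
      linarith
    have e1' : i * 2 ^ (r + k) ≤ p := by exact_mod_cast e1
    have e2' : j * 2 ^ (r + k) ≤ q := by exact_mod_cast e2
    have e3' : p + q ≤ (i + j + 1) * 2 ^ (r + k) := by exact_mod_cast e3
    have tri := dg_tri_low i j (r + k) p q e1' e2' e3'
    have t00 := hT i j
    have t10 := hT (i + 1) j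
    have t01 := hT i (j + 1)
    rw [hp, hq, hs, hx, hG, pow_add, hcast]
    have w0 : (0 : ℤ) ≤ ((i + j + 1 : ℕ) : ℤ) * 2 ^ (r + k) - p - q := by
      have : ((p + q : ℕ) : ℤ) ≤ (((i + j + 1) * 2 ^ (r + k) : ℕ) : ℤ) := e3
      push_cast at this ⊢
      linarith
    have w1 : (0 : ℤ) ≤ (p : ℤ) - i * 2 ^ (r + k) := by push_cast at e1; linarith
    have w2 : (0 : ℤ) ≤ (q : ℤ) - j * 2 ^ (r + k) := by push_cast at e2; linarith
    have m0 := mul_le_mul_of_nonneg_left t00 w0
    have m1 := mul_le_mul_of_nonneg_left t10 w1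
    have m2 := mul_le_mul_of_nonneg_left t01 w2
    have fin := mul_le_mul_of_nonneg_left ((add_le_add (add_le_add m0 m1) m2).trans
      (tri.trans hd)) hG0.le
    refine le_trans (le_of_eq ?_) fin
    push_cast
    rw [pow_add]
    ring
  · intro r i j _ hi' hj' h1 h2 h3
    rw [hp, hx, hG, pow_add, hcast] at h1
    rw [hq, hx, hG, pow_add, hcast] at h2
    rw [hs, hx, hG, pow_add, hcast] at h3
    have e1 : (p : ℤ) ≤ (((i + 1) * 2 ^ (r + k) : ℕ) : ℤ) := by
      apply le_of_mul_le_mul_left _ hG0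
      push_cast
      rw [pow_add]
      linarith
    have e2 : (q : ℤ) ≤ (((j + 1) * 2 ^ (r + k) : ℕ) : ℤ) := by
      apply le_of_mul_le_mul_left _ hG0
      push_cast
      rw [pow_add]
      linarith
    have e3 : (((i + j + 1) * 2 ^ (r + k) : ℕ) : ℤ) ≤ ((p + q : ℕ) : ℤ) := by
      apply le_of_mul_le_mul_left _ hG0
      push_cast
      rw [pow_add]
      linarith
    have e1' : p ≤ (i + 1) * 2 ^ (r + k) := by exact_mod_cast e1
    have e2' : q ≤ (j + 1) * 2 ^ (r + k) := by exact_mod_cast e2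
    have e3' : (i + j + 1) * 2 ^ (r + k) ≤ p + q := by exact_mod_cast e3
    have tri := dg_tri_up i j (r + k) p q e1' e2' e3'
    have t11 := hT (i + 1) (j + 1)
    have t10 := hT (i + 1) j
    have t01 := hT i (j + 1)
    rw [hp, hq, hs, hx, hG, pow_add, hcast]
    have w0 : (0 : ℤ) ≤ (p : ℤ) + q - ((i + j + 1 : ℕ) : ℤ) * 2 ^ (r + k) := by
      have : (((i + j + 1) * 2 ^ (r + k) : ℕ) : ℤ) ≤ ((p + q : ℕ) : ℤ) := e3
      push_cast at this ⊢
      linarith
    have w1 : (0 : ℤ) ≤ ((i + 1 : ℕ) : ℤ) * 2 ^ (r + k) - p := by push_cast at e1 ⊢; linarith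
    have w2 : (0 : ℤ) ≤ ((j + 1 : ℕ) : ℤ) * 2 ^ (r + k) - q := by push_cast at e2 ⊢; linarith
    have m0 := mul_le_mul_of_nonneg_left t11 w0
    have m1 := mul_le_mul_of_nonneg_left t01 w1
    have m2 := mul_le_mul_of_nonneg_left t10 w2
    have fin := mul_le_mul_of_nonneg_left ((add_le_add (add_le_add m0 m1) m2).trans
      (tri.trans hd)) hG0.le
    refine le_trans (le_of_eq ?_) fin
    push_cast
    rw [pow_add]
    ring

end Pool.Agent.EdgeIso.Chk
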