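import Pool.Agent.Lib.MP_48c8f3_co.Bas
import Pool.Agent.Lib.MP_48c8f3_co.FE

set_option autoImplicit false
set_option linter.unusedSectionVars false

/-!
MP_48c8f3_co, framework for size recursions, part G: nested pairs of copies, products with an odd
number of members, and the list of moves with integer costs (all costs are doubled).
-/

namespace Pool.Agent.EdgeIso.Frame

open Finset

variable {α : Type*} [DecidableEq α]

theorem joinb_joinb {s : Finset α} {a c : α} (hac : a ≠ c) (ha : a ∉ s) (hc : c ∉ s) (b d : Bool)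
    {X Y Z T : Finset (Finset α)} (hX : Sub s X) (hY : Sub s Y) (hZ : Sub s Z) (hT : Sub s T) :
    joinb c d (joinb a b X Y) (joinb a b Z T) = joinb a b (joinb c d X Z) (joinb c d Y T) := by
  have ha' : a ∉ insert c s := by
    rw [mem_insert, not_or]
    exact ⟨hac, ha⟩
  have hc' : c ∉ insert a s := by
    rw [mem_insert, not_or]
    exact ⟨hac.symm, hc⟩
  have s1 : Sub (insert a s) (joinb a b X Y) := Sub.joinb b hX hY
  have s2 : Sub (insert a s) (joinb a b Z T) := Sub.joinb b hZ hT
  have s3 : Sub (insert c s) (joinb c d X Z) := Sub.joinb d hX hZ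
  have s4 : Sub (insert c s) (joinb c d Y T) := Sub.joinb d hY hT
  apply half_ext' (a := a) b
  · rw [half_joinb ha' b s3 s4]
    apply half_ext' (a := c) d
    · rw [half_joinb hc d hX hZ, half_comm hac.symm, half_joinb hc' d s1 s2,
        half_joinb ha b hX hY]
    · rw [half_joinb_not hc d hX hZ, half_comm hac.symm, half_joinb_not hc' d s1 s2,
        half_joinb ha b hZ hT]
  · rw [half_joinb_not ha' b s3 s4]
    apply half_ext' (a := c) d
    · rw [half_joinb hc d hY hT, half_comm hac.symm, half_joinb hc' d s1 s2,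
        half_joinb_not ha b hX hY]
    · rw [half_joinb_not hc d hY hT, half_comm hac.symm, half_joinb_not hc' d s1 s2,
        half_joinb_not ha b hZ hT]

theorem joinb_empty (a : α) (b : Bool) : joinb a b (∅ : Finset (Finset α)) ∅ = ∅ := by
  cases b <;> simp [joinb, join]

theorem full_pred (s : Finset α) : ∃ G0, Copy s (2 ^ s.card - 1) G0 ∧
    ∀ c, c ∉ s → ∀ d : Bool, Copy (insert c s) (2 * 2 ^ s.card - 1) (joinb c d s.powerset G0) := by
  induction s using Finset.induction_on with
  | empty =>
    refine ⟨∅, ?_, ?_⟩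
    · simpa using Copy.empty (∅ : Finset α)
    · intro c hc d
      have h1 := Copy.low ∅ c d _ _ hc (Copy.full (∅ : Finset α))
      simpa using h1
  | insert a s ha ih =>
    obtain ⟨G0, h1, h2⟩ := ih
    have hp : 0 < 2 ^ s.card := Nat.pow_pos (by omega)
    refine ⟨joinb a true s.powerset G0, ?_, ?_⟩
    · have h3 := Copy.high s a true _ _ ha h1
      have h4 : 2 ^ s.card + (2 ^ s.card - 1) = 2 ^ (insert a s).card - 1 := by
        rw [card_insert_of_notMem ha, pow_succ]
        omega
      rwa [h4] at h3
    · intro c hc d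
      rw [mem_insert, not_or] at hc
      have hac : a ≠ c := fun h => hc.1 h.symm
      have ha' : a ∉ insert c s := by
        rw [mem_insert, not_or]
        exact ⟨hac, ha⟩
      rw [powerset_insert_joinb ha true, joinb_joinb hac ha hc.2 true d (sub_powerset s)
        (sub_powerset s) (sub_powerset s) h1.sub, ← powerset_insert_joinb hc.2 d]
      have h3 := Copy.high (insert c s) a true _ _ ha' (h2 c hc.2 d)
      rw [ins_comm] at h3
      have h4 : 2 ^ (insert c s).card + (2 * 2 ^ s.card - 1) = 2 * 2 ^ (insert a s).card - 1 := by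
        rw [card_insert_of_notMem ha, card_insert_of_notMem hc.2, pow_succ]
        omega
      rwa [h4] at h3

/-- a copy `G` of size `t` contains a copy `G0` of size `t - 1` such that the pair `(G, G0)` is a copy
of size `2 * t - 1` in one more direction -/
theorem Copy.pred {s : Finset α} {t : ℕ} {G : Finset (Finset α)} (h : Copy s t G) : 0 < t →
    ∃ G0, G0 ⊆ G ∧ Copy s (t - 1) G0 ∧
      ∀ c, c ∉ s → ∀ d : Bool, Copy (insert c s) (2 * t - 1) (joinb c d G G0) := by
  induction h with
  | empty s => intro h; omega
  | full s =>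
    intro _
    obtain ⟨G0, h1, h2⟩ := full_pred s
    exact ⟨G0, h1.sub, h1, h2⟩
  | low s a b t G ha h ih =>
    intro ht
    obtain ⟨G0, h0, h1, h2⟩ := ih ht
    refine ⟨joinb a b G0 ∅, joinb_mono ha b h0 (Subset.refl _) h.sub (sub_empty s),
      Copy.low s a b _ _ ha h1, ?_⟩
    intro c hc d
    rw [mem_insert, not_or] at hc
    have hac : a ≠ c := fun h => hc.1 h.symm
    have ha' : a ∉ insert c s := by
      rw [mem_insert, not_or]
      exact ⟨hac, ha⟩
    rw [joinb_joinb hac ha hc.2 b d h.sub (sub_empty s) h1.sub (sub_empty s), joinb_empty, ins_comm]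
    exact Copy.low (insert c s) a b _ _ ha' (h2 c hc.2 d)
  | high s a b t G ha h ih =>
    intro _
    rcases Nat.eq_zero_or_pos t with ht | ht
    · subst ht
      have hG : G = ∅ := by
        rw [← card_eq_zero]
        exact h.card
      subst hG
      obtain ⟨G0, h1, h2⟩ := full_pred s
      refine ⟨joinb a b G0 ∅, joinb_mono ha b h1.sub (Subset.refl _) (sub_powerset s)
        (sub_empty s), ?_, ?_⟩
      · rw [Nat.add_zero]
        exact Copy.low s a b _ _ ha h1
      · intro c hc d
        rw [mem_insert, not_or] at hc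
        have hac : a ≠ c := fun h => hc.1 h.symm
        have ha' : a ∉ insert c s := by
          rw [mem_insert, not_or]
          exact ⟨hac, ha⟩
        rw [joinb_joinb hac ha hc.2 b d (sub_powerset s) (sub_empty s) h1.sub (sub_empty s),
          joinb_empty, ins_comm, Nat.add_zero]
        exact Copy.low (insert c s) a b _ _ ha' (h2 c hc.2 d)
    · obtain ⟨G0, h0, h1, h2⟩ := ih ht
      refine ⟨joinb a b s.powerset G0, joinb_mono ha b (Subset.refl _) h0 (sub_powerset s) h.sub,
        ?_, ?_⟩
      · have h3 := Copy.high s a b _ _ ha h1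
        have h4 : 2 ^ s.card + (t - 1) = 2 ^ s.card + t - 1 := by omega
        rwa [h4] at h3
      · intro c hc d
        rw [mem_insert, not_or] at hc
        have hac : a ≠ c := fun h => hc.1 h.symm
        have ha' : a ∉ insert c s := by
          rw [mem_insert, not_or]
          exact ⟨hac, ha⟩
        rw [joinb_joinb hac ha hc.2 b d (sub_powerset s) h.sub (sub_powerset s) h1.sub,
          ← powerset_insert_joinb hc.2 d, ins_comm]
        have h3 := Copy.high (insert c s) a b _ _ ha' (h2 c hc.2 d)
        have h4 : 2 ^ (insert c s).card + (2 * t - 1) = 2 * (2 ^ s.card + t) - 1 := by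
          rw [card_insert_of_notMem hc.2, pow_succ]
          omega
        rwa [h4] at h3

/-- doubling with an odd number of members -/
theorem near_double_odd {s : Finset α} {a : α} (ha : a ∈ s) (b : Bool) {F G : Finset (Finset α)}
    {t : ℕ} (hG : Copy (s.erase a) (t + 1) G) :
    Near s F (2 * t + 1) ((half a b F \ G).card + (half a (!b) F \ G).card + 1) := by
  obtain ⟨G0, h0, h1, h2⟩ := hG.pred (by omega)
  have h3 := h2 a (notMem_erase a s) b
  rw [insert_erase ha] at h3
  have h4 : 2 * (t + 1) - 1 = 2 * t + 1 := by omega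
  rw [h4] at h3
  refine ⟨_, h3, ?_⟩
  rw [← card_half_add' a b, half_sdiff, half_sdiff, half_joinb (notMem_erase a s) b hG.sub h1.sub,
    half_joinb_not (notMem_erase a s) b hG.sub h1.sub]
  have h5 := card_sdiff_le_add (F := half a (!b) F) (G := G) (H := G0)
  have h6 : (G \ G0).card = 1 := by
    rw [card_sdiff_of_subset h0, hG.card, h1.card]
    omega
  omega

/-! ### moves with doubled integer costs -/

/-- some copy of size `t` misses at most `c / 2` members of `F` -/
def NZ (s : Finset α) (F : Finset (Finset α)) (t : ℕ) (c : ℤ) : Prop :=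
  ∃ d, Near s F t d ∧ 2 * (d : ℤ) ≤ c

theorem NZ.mono {s : Finset α} {F : Finset (Finset α)} {t : ℕ} {c c' : ℤ} (h : NZ s F t c)
    (hc : c ≤ c') : NZ s F t c' := by
  obtain ⟨d, h1, h2⟩ := h
  exact ⟨d, h1, h2.trans hc⟩

/-- the induction hypothesis for an arbitrary size of the copy -/
theorem TC.nz {C : ℤ} {s : Finset α} {F : Finset (Finset α)} (h : TC C s F) {t : ℕ}
    (ht : t ≤ 2 ^ s.card) : NZ s F t (C * L2 s F + 2 * max 0 ((F.card : ℤ) - t)) := by
  obtain ⟨d, h1, h2⟩ := h
  rcases le_total F.card t with h3 | h3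
  · refine ⟨d, h1.extend h3 ht, h2.trans ?_⟩
    have := le_max_left 0 ((F.card : ℤ) - t)
    linarith
  · refine ⟨d + (F.card - t), h1.shrink h3, ?_⟩
    have h4 := le_max_right 0 ((F.card : ℤ) - t)
    have h5 : ((F.card - t : ℕ) : ℤ) = F.card - t := by
      push_cast [h3]
      rfl
    push_cast
    rw [h5]
    linarith

/-- deletion of a half -/
theorem NZ.del {s : Finset α} {a : α} (ha : a ∈ s) (b : Bool) {F : Finset (Finset α)} {t : ℕ}
    {c : ℤ} (h : NZ (s.erase a) (half a b F) t c) : NZ s F t (c + 2 * (half a (!b) F).card) := by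
  obtain ⟨d, h1, h2⟩ := h
  refine ⟨_, h1.del ha b, ?_⟩
  push_cast
  linarith

/-- one half is full -/
theorem NZ.up {s : Finset α} {a : α} (ha : a ∈ s) (b : Bool) {F : Finset (Finset α)} {t : ℕ}
    {c : ℤ} (hF : Sub s F) (h : NZ (s.erase a) (half a (!b) F) t c) :
    NZ s F (2 ^ (s.erase a).card + t) c := by
  obtain ⟨d, h1, h2⟩ := h
  exact ⟨_, h1.up ha b hF, h2⟩

/-- product with a copy near the half on the side `b` -/
theorem NZ.prod {s : Finset α} {a : α} (ha : a ∈ s) (b : Bool) {F : Finset (Finset α)} {t t' : ℕ}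
    {c : ℤ} (h : NZ (s.erase a) (half a b F) t c) (h1 : 2 * t ≤ t') (h2 : t' ≤ 2 ^ s.card) :
    NZ s F t' (2 * c + 2 * (half a (!b) F \ half a b F).card) := by
  obtain ⟨d, h3, h4⟩ := h
  refine ⟨_, (h3.double ha b).extend h1 h2, ?_⟩
  push_cast
  linarith

/-- product with a copy near the half on the side `b`, odd size -/
theorem NZ.prod_odd {s : Finset α} {a : α} (ha : a ∈ s) (b : Bool) {F : Finset (Finset α)} {t : ℕ}
    {c : ℤ} (h : NZ (s.erase a) (half a b F) (t + 1) c) :
    NZ s F (2 * t + 1) (2 * c + 2 * (half a (!b) F \ half a b F).card + 2) := by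
  obtain ⟨d, ⟨G, hG, h3⟩, h4⟩ := h
  refine ⟨_, near_double_odd ha b hG, ?_⟩
  have h2 := card_sdiff_le_add (F := half a (!b) F) (G := half a b F) (H := G)
  have h5 : (half a b F \ G).card + (half a (!b) F \ G).card + 1 ≤
      2 * d + (half a (!b) F \ half a b F).card + 1 := by omega
  have h6 : (((half a b F \ G).card + (half a (!b) F \ G).card + 1 : ℕ) : ℤ) ≤
      ((2 * d + (half a (!b) F \ half a b F).card + 1 : ℕ) : ℤ) := by exact_mod_cast h5
  push_cast at h6 ⊢
  linarith

/-- product, from the induction hypothesis for the half on the side `b`, for a copy of any size: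
no loss from the parity -/
theorem NZ.prod_TC {C : ℤ} {s : Finset α} {a : α} (ha : a ∈ s) (b : Bool) {F : Finset (Finset α)}
    (h : TC C (s.erase a) (half a b F)) {t : ℕ} (ht : t ≤ 2 ^ s.card) :
    NZ s F t (2 * C * L2 (s.erase a) (half a b F) +
      2 * (half a (!b) F \ half a b F).card + 2 * max 0 (2 * ((half a b F).card : ℤ) - t)) := by
  have hs : s.card = (s.erase a).card + 1 := (card_erase_add_one ha).symm
  rw [hs, pow_succ] at ht
  rcases Nat.even_or_odd' t with ⟨r, hr | hr⟩
  · subst hr
    have h1 := (h.nz (t := r) (by omega)).prod ha b (le_refl (2 * r)) (by rw [hs, pow_succ]; omega)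
    refine h1.mono ?_
    have h2 : 2 * ((half a b F).card : ℤ) - ((2 * r : ℕ) : ℤ) = 2 * (((half a b F).card : ℤ) - r) := by
      push_cast; ring
    rw [h2]
    have h3 : 2 * max 0 (((half a b F).card : ℤ) - r) = max 0 (2 * (((half a b F).card : ℤ) - r)) := by
      rcases le_total 0 (((half a b F).card : ℤ) - r) with h4 | h4
      · rw [max_eq_right h4, max_eq_right (by linarith)]
      · rw [max_eq_left h4, max_eq_left (by linarith)]; ring
    rw [← h3]
    linarith
  · subst hr
    rcases le_or_gt (half a b F).card r with h1 | h1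
    · -- a copy of size `r` in both halves
      have h2 := (h.nz (t := r) (by omega)).prod ha b (t' := 2 * r + 1) (by omega)
        (by rw [hs, pow_succ]; omega)
      refine h2.mono ?_
      have h3 : max 0 (((half a b F).card : ℤ) - r) = 0 := by
        apply max_eq_left
        have : ((half a b F).card : ℤ) ≤ r := by exact_mod_cast h1
        linarith
      rw [h3]
      have h4 := le_max_left 0 (2 * ((half a b F).card : ℤ) - ((2 * r + 1 : ℕ) : ℤ))
      linarith
    · have h2 := (h.nz (t := r + 1) (by omega)).prod_odd ha b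
      refine h2.mono ?_
      have h0 : ((r + 1 : ℕ) : ℤ) ≤ (half a b F).card := by exact_mod_cast h1
      push_cast at h0
      have h3 : max 0 (((half a b F).card : ℤ) - ((r + 1 : ℕ) : ℤ)) =
          ((half a b F).card : ℤ) - (r + 1) := by
        push_cast
        apply max_eq_right
        linarith
      rw [h3]
      have h4 : max 0 (2 * ((half a b F).card : ℤ) - ((2 * r + 1 : ℕ) : ℤ)) =
          2 * ((half a b F).card : ℤ) - (2 * r + 1) := by
        push_cast
        apply max_eq_right
        linarith
      rw [h4]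
      linarith

/-- the number of members of the larger half which are not in the smaller half -/
theorem card_sdiff_swap (K W : Finset (Finset α)) :
    ((K \ W).card : ℤ) = K.card - W.card + (W \ K).card := by
  have h1 := card_inter_add_card_sdiff K W
  have h2 := card_inter_sdiff K W
  have h3 : ((K ∩ W).card : ℤ) + (K \ W).card = K.card := by exact_mod_cast h1
  have h4 : ((K ∩ W).card : ℤ) + (W \ K).card = W.card := by exact_mod_cast h2
  linarith

end Pool.Agent.EdgeIso.Frame
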