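import Pool.Agent.Lib.MP_48c8f3_co.Bas
import Pool.Agent.Lib.MP_48c8f3_co.FG

set_option autoImplicit false
set_option linter.unusedSectionVars false

/-!
MP_48c8f3_co, framework for size recursions, part H: small copies lie in subcubes; consequences of
the induction hypothesis for the sizes of halves and quarters.
-/

namespace Pool.Agent.EdgeIso.Frame

open Finset

variable {α : Type*} [DecidableEq α]

/-- the halves of `F` in the direction `j` in terms of the halves `K`, `W` in the direction `a` -/
theorem card_half_two {a j : α} (hja : j ≠ a) (b c : Bool) (F : Finset (Finset α)) :
    (half j c (half a b F)).card + (half j c (half a (!b) F)).card = (half j c F).card := by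
  rw [half_comm hja, half_comm hja]
  exact card_half_add' a b _

end Pool.Agent.EdgeIso.Frame
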