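import Pool.Agent.Lib.MP_48c8f3_co.Bas
import Pool.Agent.Lib.MP_48c8f3_co.FH
import Pool.Agent.Lib.MP_48c8f3_co.FE

set_option autoImplicit false
set_option linter.unusedSectionVars false

/-!
MP_48c8f3_co, the Fourier bound for the boundary, by induction on the dimension:
`4 x (V - x) ≤ V |bd| + 2 ∑ β_j²`, and `(V + 2x - 4u) |bd| ≥ 4 x (V - x)` if all halves have at
least `u` members.
-/

namespace Pool.Agent.EdgeIso.Frame

open Finset

variable {α : Type*} [DecidableEq α]

/-- Bessel's inequality for the constant and the characters of degree one -/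
theorem bessel (s : Finset α) : ∀ h : Finset α → ℤ,
    (∑ x ∈ s.powerset, h x) ^ 2 + ∑ j ∈ s, (∑ x ∈ s.powerset, if j ∈ x then h x else -h x) ^ 2 ≤
      2 ^ s.card * ∑ x ∈ s.powerset, (h x) ^ 2 := by
  induction s using Finset.induction_on with
  | empty =>
    intro h
    simp
  | insert a s ha ih =>
    intro h
    have i0 := ih h
    have i1 := ih (fun t => h (insert a t))
    have e00 : ∑ x ∈ (insert a s).powerset, h x = ∑ x ∈ s.powerset, h x +
        ∑ x ∈ s.powerset, h (insert a x) := Finset.sum_powerset_insert ha _
    have e22 : ∑ x ∈ (insert a s).powerset, (h x) ^ 2 = ∑ x ∈ s.powerset, (h x) ^ 2 +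
        ∑ x ∈ s.powerset, (h (insert a x)) ^ 2 := Finset.sum_powerset_insert ha _
    have eaa : ∑ x ∈ (insert a s).powerset, (if a ∈ x then h x else -h x) =
        ∑ x ∈ s.powerset, (if a ∈ x then h x else -h x) +
        ∑ x ∈ s.powerset, (if a ∈ insert a x then h (insert a x) else -h (insert a x)) :=
      Finset.sum_powerset_insert ha _
    have hp : (2 : ℤ) ^ (insert a s).card = 2 * 2 ^ s.card := by
      rw [card_insert_of_notMem ha, pow_succ]
      ring
    have ea0 : ∑ x ∈ s.powerset, (if a ∈ x then h x else -h x) = -∑ x ∈ s.powerset, h x := by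
      rw [← Finset.sum_neg_distrib]
      apply sum_congr rfl
      intro x hx
      have : a ∉ x := fun h1 => ha (mem_powerset.mp hx h1)
      rw [if_neg this]
    have ea1 : ∑ x ∈ s.powerset, (if a ∈ insert a x then h (insert a x) else -h (insert a x)) =
        ∑ x ∈ s.powerset, h (insert a x) := by
      apply sum_congr rfl
      intro x _
      rw [if_pos (mem_insert_self a x)]
    have ej : ∀ j ∈ s, (∑ x ∈ (insert a s).powerset, if j ∈ x then h x else -h x) =
        (∑ x ∈ s.powerset, if j ∈ x then h x else -h x) +
        ∑ x ∈ s.powerset, if j ∈ x then h (insert a x) else -h (insert a x) := by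
      intro j hj
      rw [Finset.sum_powerset_insert ha]
      congr 1
      apply sum_congr rfl
      intro x _
      have hja : j ≠ a := fun h1 => ha (h1 ▸ hj)
      have : (j ∈ insert a x) ↔ j ∈ x := by
        rw [mem_insert]
        tauto
      simp only [this]
    have ejs : ∑ j ∈ s, (∑ x ∈ (insert a s).powerset, if j ∈ x then h x else -h x) ^ 2 =
        ∑ j ∈ s, ((∑ x ∈ s.powerset, if j ∈ x then h x else -h x) +
        ∑ x ∈ s.powerset, if j ∈ x then h (insert a x) else -h (insert a x)) ^ 2 :=
      Finset.sum_congr rfl (fun j hj => by rw [ej j hj])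
    rw [Finset.sum_insert ha, eaa, ea0, ea1, ejs, e00, e22, hp]
    have hs : ∑ j ∈ s, ((∑ x ∈ s.powerset, if j ∈ x then h x else -h x) +
        ∑ x ∈ s.powerset, if j ∈ x then h (insert a x) else -h (insert a x)) ^ 2 ≤
        2 * ∑ j ∈ s, (∑ x ∈ s.powerset, if j ∈ x then h x else -h x) ^ 2 +
        2 * ∑ j ∈ s, (∑ x ∈ s.powerset, if j ∈ x then h (insert a x) else -h (insert a x)) ^ 2 := by
      rw [Finset.mul_sum, Finset.mul_sum, ← Finset.sum_add_distrib]
      apply sum_le_sum
      intro j _
      nlinarith [sq_nonneg ((∑ x ∈ s.powerset, if j ∈ x then h x else -h x) -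
        ∑ x ∈ s.powerset, if j ∈ x then h (insert a x) else -h (insert a x))]
    nlinarith

/-- difference of the two halves in the direction `j` -/
def beta (j : α) (F : Finset (Finset α)) : ℤ := (half j true F).card - (half j false F).card

theorem beta_sum (j : α) (F : Finset (Finset α)) :
    ∑ x ∈ F, (if j ∈ x then (1 : ℤ) else -1) = beta j F := by
  have h1 := card_half_add j F
  have h2 : (half j false F).card = (F.filter (fun x => ¬ j ∈ x)).card := by
    congr 1
  have h3 := card_filter_add_card_filter_not (s := F) (fun x => j ∈ x)
  unfold beta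
  rw [Finset.sum_ite, Finset.sum_const, Finset.sum_const, nsmul_eq_mul, nsmul_eq_mul]
  have h4 : ((half j false F).card : ℤ) + (half j true F).card = F.card := by exact_mod_cast h1
  have h5 : (((F.filter (fun x => j ∈ x)).card : ℤ) + (F.filter (fun x => ¬ j ∈ x)).card) =
    F.card := by exact_mod_cast h3
  rw [h2] at h4 ⊢
  linarith

theorem bessel_pair {s : Finset α} {K W : Finset (Finset α)} (hK : Sub s K) (hW : Sub s W) :
    ((K.card : ℤ) - W.card) ^ 2 + ∑ j ∈ s, (beta j K - beta j W) ^ 2 ≤
      2 ^ s.card * ((K \ W).card + (W \ K).card) := by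
  have hb := bessel s (fun x => (if x ∈ K then (1 : ℤ) else 0) - (if x ∈ W then 1 else 0))
  have hsum : ∀ (c : Finset α → ℤ) (X : Finset (Finset α)), Sub s X →
      ∑ x ∈ s.powerset, (if x ∈ X then c x else 0) = ∑ x ∈ X, c x := by
    intro c X hX
    rw [← Finset.sum_filter]
    congr 1
    ext x
    rw [mem_filter]
    exact ⟨fun h => h.2, fun h => ⟨hX h, h⟩⟩
  have e1 : ∑ x ∈ s.powerset, ((if x ∈ K then (1 : ℤ) else 0) - (if x ∈ W then 1 else 0)) =
      (K.card : ℤ) - W.card := by
    rw [Finset.sum_sub_distrib, hsum (fun _ => 1) K hK, hsum (fun _ => 1) W hW]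
    simp
  have e2 : ∀ j ∈ s, ∑ x ∈ s.powerset, (if j ∈ x then
      ((if x ∈ K then (1 : ℤ) else 0) - (if x ∈ W then 1 else 0)) else
      -((if x ∈ K then (1 : ℤ) else 0) - (if x ∈ W then 1 else 0))) = beta j K - beta j W := by
    intro j _
    rw [← beta_sum, ← beta_sum, ← hsum _ K hK, ← hsum _ W hW, ← Finset.sum_sub_distrib]
    apply sum_congr rfl
    intro x _
    by_cases h1 : j ∈ x <;> by_cases h2 : x ∈ K <;> by_cases h3 : x ∈ W <;> simp [h1, h2, h3]
  have e3 : ∑ x ∈ s.powerset, ((if x ∈ K then (1 : ℤ) else 0) - (if x ∈ W then 1 else 0)) ^ 2 =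
      ((K \ W).card : ℤ) + (W \ K).card := by
    have hKW : Sub s (K \ W) := sdiff_subset.trans hK
    have hWK : Sub s (W \ K) := sdiff_subset.trans hW
    have a1 := hsum (fun _ => 1) _ hKW
    have a2 := hsum (fun _ => 1) _ hWK
    rw [Finset.sum_const, nsmul_eq_mul, mul_one] at a1 a2
    rw [← a1, ← a2, ← Finset.sum_add_distrib]
    apply sum_congr rfl
    intro x _
    by_cases h2 : x ∈ K <;> by_cases h3 : x ∈ W <;> simp [h2, h3]
  rw [e1, e3, Finset.sum_congr rfl (fun j hj => by rw [e2 j hj])] at hb
  exact hb

/-- the boundary is at least the sum of the boundaries of the halves and the mismatch -/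
theorem bdz_half {s : Finset α} {a : α} (ha : a ∈ s) (F : Finset (Finset α)) :
    ((s.erase a).card * (half a true F).card - e2 (s.erase a) (half a true F) : ℤ) +
      ((s.erase a).card * (half a false F).card - e2 (s.erase a) (half a false F)) +
      ((half a true F \ half a false F).card + (half a false F \ half a true F).card) ≤
      (s.card : ℤ) * F.card - e2 s F := by
  have h := e2_half ha true F
  have h1 := card_half_add a F
  have h2 := card_inter_sdiff (half a true F) (half a false F)
  have h3 := card_inter_sdiff (half a false F) (half a true F)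
  rw [inter_comm] at h3
  have h4 : s.card = (s.erase a).card + 1 := by
    rw [card_erase_of_mem ha]
    have := card_pos.mpr ⟨a, ha⟩
    omega
  have hz : (e2 s F : ℤ) ≤ e2 (s.erase a) (half a true F) + e2 (s.erase a) (half a false F) +
      2 * (half a true F ∩ half a false F).card := by exact_mod_cast h
  have h1z : ((half a false F).card : ℤ) + (half a true F).card = F.card := by exact_mod_cast h1
  have h2z : ((half a true F ∩ half a false F).card : ℤ) + (half a false F \ half a true F).card =
    (half a false F).card := by exact_mod_cast h2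
  have h3z : ((half a true F ∩ half a false F).card : ℤ) + (half a true F \ half a false F).card =
    (half a true F).card := by exact_mod_cast h3
  rw [h4, ← h1z]
  push_cast
  nlinarith

theorem beta_split {a j : α} (hja : j ≠ a) (F : Finset (Finset α)) :
    beta j F = beta j (half a true F) + beta j (half a false F) := by
  have h1 := card_half_two hja true true F
  have h2 := card_half_two hja true false F
  have h1z : ((half j true (half a true F)).card : ℤ) + (half j true (half a false F)).card =
    (half j true F).card := by exact_mod_cast h1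
  have h2z : ((half j false (half a true F)).card : ℤ) + (half j false (half a false F)).card =
    (half j false F).card := by exact_mod_cast h2
  unfold beta
  linarith

/-- the Fourier bound -/
theorem fourier (s : Finset α) : ∀ F : Finset (Finset α), Sub s F →
    4 * (F.card : ℤ) * (2 ^ s.card - F.card) ≤
      2 ^ s.card * ((s.card : ℤ) * F.card - e2 s F) + 2 * ∑ j ∈ s, beta j F ^ 2 := by
  induction s using Finset.induction_on with
  | empty =>
    intro F hF
    have h1 := hF.card_le
    rw [card_empty, pow_zero] at h1
    have h2 : e2 (∅ : Finset α) F = 0 := by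
      unfold e2
      simp
    rw [h2]
    have h3 : F.card = 0 ∨ F.card = 1 := by omega
    rcases h3 with h | h <;> rw [h] <;> simp
  | insert a s ha ih =>
    intro F hF
    have has : a ∈ insert a s := mem_insert_self a s
    have her : (insert a s).erase a = s := erase_insert ha
    have hK : Sub s (half a true F) := by
      have := hF.half a true
      rwa [her] at this
    have hW : Sub s (half a false F) := by
      have := hF.half a false
      rwa [her] at this
    have i1 := ih _ hK
    have i2 := ih _ hW
    have hb := bessel_pair hK hW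
    have hbd := bdz_half has F
    rw [her] at hbd
    have hc := card_half_add a F
    have hcz : ((half a false F).card : ℤ) + (half a true F).card = F.card := by exact_mod_cast hc
    rw [Finset.sum_insert ha, card_insert_of_notMem ha, pow_succ]
    rw [card_insert_of_notMem ha] at hbd
    have hβ : ∀ j ∈ s, beta j F ^ 2 = 2 * beta j (half a true F) ^ 2 +
        2 * beta j (half a false F) ^ 2 - (beta j (half a true F) - beta j (half a false F)) ^ 2 := by
      intro j hj
      have hja : j ≠ a := fun h1 => ha (h1 ▸ hj)
      rw [beta_split hja F]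
      ring
    rw [Finset.sum_congr rfl hβ, Finset.sum_sub_distrib, Finset.sum_add_distrib, ← Finset.mul_sum,
      ← Finset.mul_sum]
    have hβa : beta a F = (half a true F).card - (half a false F).card := rfl
    rw [hβa, ← hcz]
    rw [← hcz] at hbd
    have hV : (0 : ℤ) < 2 ^ s.card := by positivity
    have hm := mul_le_mul_of_nonneg_left hbd hV.le
    set p : ℤ := ((half a true F).card : ℤ) with hp
    set q : ℤ := ((half a false F).card : ℤ) with hq
    set V : ℤ := 2 ^ s.card with hVd
    set S1 : ℤ := ∑ j ∈ s, beta j (half a true F) ^ 2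
    set S2 : ℤ := ∑ j ∈ s, beta j (half a false F) ^ 2
    set S3 : ℤ := ∑ j ∈ s, (beta j (half a true F) - beta j (half a false F)) ^ 2
    set X : ℤ := (((s.card + 1 : ℕ) : ℤ) * (q + p) - e2 (insert a s) F)
    nlinarith

/-- every direction contributes at least `|β_j|` to the boundary -/
theorem bdz_ge_beta (s : Finset α) : ∀ F : Finset (Finset α), Sub s F →
    ∑ j ∈ s, |beta j F| ≤ (s.card : ℤ) * F.card - e2 s F := by
  induction s using Finset.induction_on with
  | empty =>
    intro F hF
    have h2 : e2 (∅ : Finset α) F = 0 := by
      unfold e2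
      simp
    simp [h2]
  | insert a s ha ih =>
    intro F hF
    have has : a ∈ insert a s := mem_insert_self a s
    have her : (insert a s).erase a = s := erase_insert ha
    have hK : Sub s (half a true F) := by
      have := hF.half a true
      rwa [her] at this
    have hW : Sub s (half a false F) := by
      have := hF.half a false
      rwa [her] at this
    have i1 := ih _ hK
    have i2 := ih _ hW
    have hbd := bdz_half has F
    rw [her] at hbd
    rw [Finset.sum_insert ha]
    have hsum : ∑ j ∈ s, |beta j F| ≤ ∑ j ∈ s, |beta j (half a true F)| +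
        ∑ j ∈ s, |beta j (half a false F)| := by
      rw [← Finset.sum_add_distrib]
      apply sum_le_sum
      intro j hj
      have hja : j ≠ a := fun h1 => ha (h1 ▸ hj)
      rw [beta_split hja F]
      exact abs_add_le _ _
    have h2 := card_inter_sdiff (half a true F) (half a false F)
    have h3 := card_inter_sdiff (half a false F) (half a true F)
    rw [inter_comm] at h3
    have h2z : ((half a true F ∩ half a false F).card : ℤ) + (half a false F \ half a true F).card =
      (half a false F).card := by exact_mod_cast h2
    have h3z : ((half a true F ∩ half a false F).card : ℤ) + (half a true F \ half a false F).card =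
      (half a true F).card := by exact_mod_cast h3
    have hβa : |beta a F| ≤ ((half a true F \ half a false F).card : ℤ) +
        (half a false F \ half a true F).card := by
      unfold beta
      rw [abs_le]
      constructor <;> omega
    linarith

/-- Fourier bound with the smallest half -/
theorem fourier_min {s : Finset α} {F : Finset (Finset α)} (hF : Sub s F) {v : ℤ}
    (h : Half2 s F v) (hv : v ≤ F.card) :
    4 * (F.card : ℤ) * (2 ^ s.card - F.card) ≤
      (2 ^ s.card + 2 * (F.card - v)) * ((s.card : ℤ) * F.card - e2 s F) := by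
  have h1 := fourier s F hF
  have h2 := bdz_ge_beta s F hF
  have h3 : ∑ j ∈ s, beta j F ^ 2 ≤ (F.card - v) * ∑ j ∈ s, |beta j F| := by
    rw [Finset.mul_sum]
    apply sum_le_sum
    intro j hj
    have a1 := h j hj true
    have a2 := h j hj false
    have a3 : ((half j false F).card : ℤ) + (half j true F).card = F.card := by
      exact_mod_cast card_half_add j F
    have a4 : |beta j F| ≤ F.card - v := by
      unfold beta
      rw [abs_le]
      constructor <;> linarith
    calc beta j F ^ 2 = |beta j F| * |beta j F| := by rw [← sq, sq_abs]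
      _ ≤ (F.card - v) * |beta j F| := mul_le_mul_of_nonneg_right a4 (abs_nonneg _)
  have h4 : (F.card - v) * ∑ j ∈ s, |beta j F| ≤
      (F.card - v) * ((s.card : ℤ) * F.card - e2 s F) :=
    mul_le_mul_of_nonneg_left h2 (by linarith)
  linarith

/-- Fourier bound for the loss -/
theorem fourier_L2 {s : Finset α} {F : Finset (Finset α)} (hF : Sub s F) {v : ℤ}
    (h : Half2 s F v) (hv : v ≤ F.card) :
    4 * (F.card : ℤ) * (2 ^ s.card - F.card) ≤
      (2 ^ s.card + 2 * (F.card - v)) *
        (L2 s F + ((s.card : ℤ) * F.card - 2 * g F.card)) := by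
  have h1 := fourier_min hF h hv
  unfold L2
  have e : (2 * (g F.card : ℤ) - e2 s F + ((s.card : ℤ) * F.card - 2 * g F.card)) =
      (s.card : ℤ) * F.card - e2 s F := by ring
  rw [e]
  exact h1

end Pool.Agent.EdgeIso.Frame
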