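import Pool.Agent.Lib.MP_48c8f3_co.Bas
import Pool.Agent.Lib.MP_48c8f3_co.FB

set_option autoImplicit false
set_option linter.unusedSectionVars false

/-!
MP_48c8f3_co, framework for size recursions, part C: inner edges and halves.
-/

namespace Pool.Agent.EdgeIso.Frame

open Finset

variable {α : Type*} [DecidableEq α]

/-- members of `F` whose neighbour in the direction `i` is a member -/
def fl (i : α) (F : Finset (Finset α)) : Finset (Finset α) := F.filter (fun x => symmDiff x {i} ∈ F)

theorem e2_eq_sum (s : Finset α) (F : Finset (Finset α)) : e2 s F = ∑ i ∈ s, (fl i F).card := by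
  unfold e2 fl
  simp_rw [card_filter]
  exact sum_comm

theorem symmDiff_insert_of_ne {a i : α} (h : i ≠ a) (x : Finset α) :
    symmDiff (insert a x) {i} = insert a (symmDiff x {i}) := by
  ext y
  simp only [mem_symmDiff, mem_insert, mem_singleton]
  by_cases h1 : y = a
  · subst h1
    simp [Ne.symm h]
  · simp [h1]

theorem notMem_symmDiff_singleton {a i : α} (h : i ≠ a) (x : Finset α) :
    a ∉ symmDiff x {i} ↔ a ∉ x := by
  simp only [mem_symmDiff, mem_singleton]
  have : ¬ a = i := fun h' => h h'.symm
  tauto

theorem half_fl_ne {a i : α} (h : i ≠ a) (b : Bool) (F : Finset (Finset α)) :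
    half a b (fl i F) = fl i (half a b F) := by
  ext x
  unfold fl
  rw [mem_half, mem_filter, mem_filter, mem_half, mem_half, notMem_symmDiff_singleton h]
  cases b
  · simp only [Bool.false_eq_true, if_false]
    tauto
  · simp only [if_true]
    rw [symmDiff_insert_of_ne h]
    tauto

theorem half_fl_self (a : α) (b : Bool) (F : Finset (Finset α)) :
    half a b (fl a F) = half a false F ∩ half a true F := by
  ext x
  unfold fl
  rw [mem_half, mem_filter, mem_inter, mem_half_false, mem_half_true]
  cases b
  · simp only [Bool.false_eq_true, if_false]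
    by_cases hx : a ∈ x
    · simp [hx]
    · rw [symmDiff_singleton_of_notMem hx]
      tauto
  · simp only [if_true]
    by_cases hx : a ∈ x
    · simp [hx]
    · rw [symmDiff_singleton_of_mem (mem_insert_self a x), erase_insert hx]
      tauto

theorem e2_half_eq {s : Finset α} {a : α} (ha : a ∈ s) (F : Finset (Finset α)) :
    e2 s F = e2 (s.erase a) (half a false F) + e2 (s.erase a) (half a true F) +
      2 * (half a false F ∩ half a true F).card := by
  rw [e2_eq_sum, e2_eq_sum, e2_eq_sum, ← add_sum_erase _ _ ha, ← sum_add_distrib]
  have h1 : (fl a F).card = 2 * (half a false F ∩ half a true F).card := by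
    rw [← card_half_add a, half_fl_self, half_fl_self]
    ring
  have h2 : ∀ i ∈ s.erase a, (fl i F).card =
      (fl i (half a false F)).card + (fl i (half a true F)).card := by
    intro i hi
    have hne : i ≠ a := ne_of_mem_erase hi
    rw [← card_half_add a, half_fl_ne hne, half_fl_ne hne]
  rw [h1, sum_congr rfl h2]
  ring

theorem e2_half_eq' {s : Finset α} {a : α} (ha : a ∈ s) (b : Bool) (F : Finset (Finset α)) :
    e2 s F = e2 (s.erase a) (half a b F) + e2 (s.erase a) (half a (!b) F) +
      2 * (half a b F ∩ half a (!b) F).card := by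
  have h := e2_half_eq ha F
  cases b
  · exact h
  · rw [h, inter_comm]
    simp only [Bool.not_true]
    ring

theorem e2_empty (s : Finset α) : e2 s (∅ : Finset (Finset α)) = 0 := by
  unfold e2
  simp

theorem two_g_pow (k : ℕ) : 2 * g (2 ^ k) = k * 2 ^ k := by
  induction k with
  | zero => simp [g_one]
  | succ k ih =>
    rw [pow_succ, Nat.mul_comm (2 ^ k) 2, g_even, Nat.mul_add, ← Nat.mul_assoc, Nat.mul_assoc 2 2,
      ih]
    ring

theorem e2_powerset (s : Finset α) : e2 s s.powerset = s.card * 2 ^ s.card := by
  have h := bd_add_e2 s s.powerset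
  have h1 : bd s s.powerset = 0 := by
    unfold bd
    apply sum_eq_zero
    intro x hx
    rw [card_eq_zero, filter_eq_empty_iff]
    intro i hi
    rw [not_not, mem_powerset]
    rw [mem_powerset] at hx
    intro y hy
    rw [mem_symmDiff, mem_singleton] at hy
    rcases hy with h | h
    · exact hx h.1
    · rw [h.1]; exact hi
  rw [h1, card_powerset] at h
  omega

end Pool.Agent.EdgeIso.Frame
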