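import Pool.Agent.Lib.MP_48c8f3_co.Bas
import Pool.Agent.Lib.MP_48c8f3_co.FCa
import Pool.Agent.Lib.MP_48c8f3_co.CellA

set_option autoImplicit false

/-!
MP_48c8f3_co, Lemma P (one quarter of the cube at least three quarters full), part A: the finite
check in the cells of the lattice with eight points per unit.
-/

namespace Pool.Agent.EdgeIso.LemmaP

open Pool.Agent.EdgeIso.Frame Pool.Agent.EdgeIso.Cell

/-- table of `g` -/
def gl : List ℕ := [0, 0, 1, 2, 4, 5, 7, 9, 12, 13, 15, 17, 20, 22, 25, 28, 32, 33, 35, 37, 40]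

/-- table of `g` -/
def gN (i : ℕ) : ℕ := gl.getD i 0

theorem g2 : g 2 = 1 := by have := g_even 1; rw [g_one] at this; simpa using this
theorem g3 : g 3 = 2 := by have := g_odd 1; rw [g_one, g2] at this; simpa using this
theorem g4 : g 4 = 4 := by have := g_even 2; rw [g2] at this; simpa using this
theorem g5 : g 5 = 5 := by have := g_odd 2; rw [g2, g3] at this; simpa using this
theorem g6 : g 6 = 7 := by have := g_even 3; rw [g3] at this; simpa using this
theorem g7 : g 7 = 9 := by have := g_odd 3; rw [g3, g4] at this; simpa using this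
theorem g8 : g 8 = 12 := by have := g_even 4; rw [g4] at this; simpa using this
theorem g9 : g 9 = 13 := by have := g_odd 4; rw [g4, g5] at this; simpa using this
theorem g10 : g 10 = 15 := by have := g_even 5; rw [g5] at this; simpa using this

theorem gN_eq (i : ℕ) (hi : i < 21) : gN i = g i := by
  have h11 : g 11 = 17 := by have := g_odd 5; rw [g5, g6] at this; simpa using this
  have h12 : g 12 = 20 := by have := g_even 6; rw [g6] at this; simpa using this
  have h13 : g 13 = 22 := by have := g_odd 6; rw [g6, g7] at this; simpa using this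
  have h14 : g 14 = 25 := by have := g_even 7; rw [g7] at this; simpa using this
  have h15 : g 15 = 28 := by have := g_odd 7; rw [g7, g8] at this; simpa using this
  have h16 : g 16 = 32 := by have := g_even 8; rw [g8] at this; simpa using this
  have h17 : g 17 = 33 := by have := g_odd 8; rw [g8, g9] at this; simpa using this
  have h18 : g 18 = 35 := by have := g_even 9; rw [g9] at this; simpa using this
  have h19 : g 19 = 37 := by have := g_odd 9; rw [g9, g10] at this; simpa using this
  have h20 : g 20 = 40 := by have := g_even 10; rw [g10] at this; simpa using this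
  interval_cases i
  · rw [g_zero]; rfl
  · rw [g_one]; rfl
  · rw [g2]; rfl
  · rw [g3]; rfl
  · rw [g4]; rfl
  · rw [g5]; rfl
  · rw [g6]; rfl
  · rw [g7]; rfl
  · rw [g8]; rfl
  · rw [g9]; rfl
  · rw [g10]; rfl
  · rw [h11]; rfl
  · rw [h12]; rfl
  · rw [h13]; rfl
  · rw [h14]; rfl
  · rw [h15]; rfl
  · rw [h16]; rfl
  · rw [h17]; rfl
  · rw [h18]; rfl
  · rw [h19]; rfl
  · rw [h20]; rfl

/-- the defect, from the table -/
def dgN (p q : ℕ) : ℕ := gN (p + q) - gN p - gN q - min p q

theorem dgN_eq (p q : ℕ) (h : p + q < 21) : (dgN p q : ℤ) = dg p q := by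
  have h1 := g_add p q
  unfold dgN dg
  rw [gN_eq _ h, gN_eq p (by omega), gN_eq q (by omega)]
  omega

/-- first criterion (deletion), multiplier `l / 2` -/
def ok0 (l P a q : ℕ) : Bool := Nat.ble (2 * q + 2 * l * a) (4 * dgN (P + a) q + l * q)

/-- second criterion -/
def ok1 (l P a q : ℕ) : Bool :=
  Nat.ble (2 * q + 2 * l * a) (4 * (dgN (P + a) q + dgN P a) + l * q)

/-- third criterion -/
def ok2 (l P a q : ℕ) : Bool :=
  Nat.ble (16 + 2 * l * a) (4 * (dgN (P + a) q + dgN P a) + l * q + 2 * P)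

/-- the corner conditions -/
def cnr (n1 n2 n3 c d s x1 x2 x3 : ℕ) : Bool :=
  Nat.ble (n1 + n2 + c) (x1 + x2) && Nat.ble (x1 + x2) (n1 + n2 + c + 1) &&
  Nat.ble (n2 + n3 + d) (x2 + x3) && Nat.ble (x2 + x3) (n2 + n3 + d + 1) &&
  Nat.ble s (x1 + x2 + x3) && Nat.ble (x1 + x2 + x3) (s + 1)

/-- all corners of the cell satisfy `f` -/
def all8 (n1 n2 n3 c d s : ℕ) (f : ℕ → ℕ → ℕ → Bool) : Bool :=
  [n1, n1 + 1].all fun x1 => [n2, n2 + 1].all fun x2 => [n3, n3 + 1].all fun x3 =>
    !cnr n1 n2 n3 c d s x1 x2 x3 || f x1 x2 x3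

/-- the check of one cell -/
def cellOK (n1 n2 n3 c d s : ℕ) : Bool :=
  ([0, 1, 2, 3, 4].any fun l => all8 n1 n2 n3 c d s (ok0 l)) ||
    (([0, 1, 2, 3, 4].any fun l => all8 n1 n2 n3 c d s (ok1 l)) &&
      ([0, 1, 2, 3, 4].any fun l => all8 n1 n2 n3 c d s (ok2 l)))

/-- the cells which are treated in another way -/
def excl (n1 n2 n3 c s : ℕ) : Bool :=
  (Nat.ble 7 n1 && Nat.ble s 11 && Nat.ble n2 3 && Nat.ble n3 3) ||
    (Nat.beq n1 6 && Nat.beq n2 2 && Nat.beq n3 4 && Nat.beq c 0)

/-- the check of all cells -/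
def chk : Bool :=
  [6, 7, 8].all fun n1 => [0, 1, 2, 3, 4, 5, 6, 7, 8].all fun n2 =>
    [0, 1, 2, 3, 4, 5, 6, 7, 8].all fun n3 => [0, 1].all fun c => [0, 1].all fun d =>
      [8, 9, 10, 11, 12, 13, 14, 15].all fun s =>
        !(Nat.ble (n1 + n2 + n3) (s + 1) && Nat.ble s (n1 + n2 + n3 + 3)) ||
          excl n1 n2 n3 c s || cellOK n1 n2 n3 c d s

theorem chk_true : chk = true := by decide +kernel

end Pool.Agent.EdgeIso.LemmaP
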