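import Pool.Agent.Lib.MP_48c8f3_co.Bas
import Pool.Agent.Lib.MP_48c8f3_co.LPa

set_option autoImplicit false

/-!
MP_48c8f3_co, Lemma P, part B: from the corners of a cell to all its points, the neighbourhood of
the point (3/4, 1/4, 1/2), and the reduction of the scale.
-/

namespace Pool.Agent.EdgeIso.LemmaP

open Pool.Agent.EdgeIso.Frame Pool.Agent.EdgeIso.Cell

/-! ### values of `g` -/

theorem g_pow_succ (n : ℕ) : g (2 ^ (n + 1)) = 2 * g (2 ^ n) + 2 ^ n := by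
  have h : (2 : ℕ) ^ (n + 1) = 2 * 2 ^ n := by ring
  rw [h, g_even]

theorem g_pow_add (n x : ℕ) (hx : x ≤ 2 ^ n) : g (2 ^ n + x) = g (2 ^ n) + g x + x := by
  have h1 := g_compl (n + 1) (2 ^ n - x) (by rw [pow_succ]; omega)
  have h2 := g_compl n x hx
  have e1 : 2 ^ (n + 1) - (2 ^ n - x) = 2 ^ n + x := by rw [pow_succ]; omega
  rw [e1] at h1
  have h3 := two_g_pow n
  have e2 : ((2 ^ n - x : ℕ) : ℤ) = 2 ^ n - x := by push_cast [hx]; rfl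
  rw [e2] at h1
  have h4 : 2 * (g (2 ^ n) : ℤ) = n * 2 ^ n := by exact_mod_cast h3
  have h5 : (2 : ℤ) ^ (n + 1) = 2 * 2 ^ n := by ring
  rw [h5] at h1
  push_cast at h1
  have h6 : 2 * (g (2 ^ n + x) : ℤ) = 2 * (g (2 ^ n) + g x + x) := by
    nlinarith
  have h7 : (g (2 ^ n + x) : ℤ) = ((g (2 ^ n) + g x + x : ℕ) : ℤ) := by
    push_cast
    linarith
  exact_mod_cast h7

/-! ### the cells -/

theorem all8_spec {n1 n2 n3 c d s : ℕ} {f : ℕ → ℕ → ℕ → Bool} (h : all8 n1 n2 n3 c d s f = true)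
    {x1 x2 x3 : ℕ} (h1 : n1 ≤ x1) (h1' : x1 ≤ n1 + 1) (h2 : n2 ≤ x2) (h2' : x2 ≤ n2 + 1)
    (h3 : n3 ≤ x3) (h3' : x3 ≤ n3 + 1) (h4 : n1 + n2 + c ≤ x1 + x2)
    (h4' : x1 + x2 ≤ n1 + n2 + c + 1) (h5 : n2 + n3 + d ≤ x2 + x3)
    (h5' : x2 + x3 ≤ n2 + n3 + d + 1) (h6 : s ≤ x1 + x2 + x3) (h6' : x1 + x2 + x3 ≤ s + 1) :
    f x1 x2 x3 = true := by
  have hc : cnr n1 n2 n3 c d s x1 x2 x3 = true := by
    unfold cnr
    simp only [Bool.and_eq_true, Nat.ble_eq]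
    exact ⟨⟨⟨⟨⟨h4, h4'⟩, h5⟩, h5'⟩, h6⟩, h6'⟩
  unfold all8 at h
  have m1 : x1 ∈ [n1, n1 + 1] := by
    have : x1 = n1 ∨ x1 = n1 + 1 := by omega
    simp [this]
  have m2 : x2 ∈ [n2, n2 + 1] := by
    have : x2 = n2 ∨ x2 = n2 + 1 := by omega
    simp [this]
  have m3 : x3 ∈ [n3, n3 + 1] := by
    have : x3 = n3 ∨ x3 = n3 + 1 := by omega
    simp [this]
  have h7 := List.all_eq_true.mp h x1 m1
  have h8 := List.all_eq_true.mp h7 x2 m2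
  have h9 := List.all_eq_true.mp h8 x3 m3
  rw [hc] at h9
  simpa using h9

/-- the prefix sums of the point `(P, a, q)` -/
def pt (P a q : ℕ) (j : ℕ) : ℕ :=
  if j = 0 then 0 else if j = 1 then P else if j = 2 then P + a else P + a + q

theorem pt_mono (P a q : ℕ) : Monotone (pt P a q) := by
  apply monotone_nat_of_le_succ
  intro j
  unfold pt
  rcases j with _ | _ | _ | j
  · simp
  · simp
  · simp
  · simp

/-- the cell with the floors `n1, n2, n3, n1 + n2 + c, n2 + n3 + d, s` -/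
def InCell (n1 n2 n3 c d s : ℕ) (k : ℕ) (S : ℕ → ℕ) : Prop :=
  (((((((S 0 : ℤ) + (n1 : ℤ) * 2 ^ k ≤ S 1 ∧ (S 1 : ℤ) + (-(n1 + 1) : ℤ) * 2 ^ k ≤ S 0) ∧
    ((S 1 : ℤ) + (n2 : ℤ) * 2 ^ k ≤ S 2 ∧ (S 2 : ℤ) + (-(n2 + 1) : ℤ) * 2 ^ k ≤ S 1)) ∧
    ((S 2 : ℤ) + (n3 : ℤ) * 2 ^ k ≤ S 3 ∧ (S 3 : ℤ) + (-(n3 + 1) : ℤ) * 2 ^ k ≤ S 2)) ∧
    ((S 0 : ℤ) + (n1 + n2 + c : ℤ) * 2 ^ k ≤ S 2 ∧
      (S 2 : ℤ) + (-(n1 + n2 + c + 1) : ℤ) * 2 ^ k ≤ S 0)) ∧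
    ((S 1 : ℤ) + (n2 + n3 + d : ℤ) * 2 ^ k ≤ S 3 ∧
      (S 3 : ℤ) + (-(n2 + n3 + d + 1) : ℤ) * 2 ^ k ≤ S 1)) ∧
    ((S 0 : ℤ) + (s : ℤ) * 2 ^ k ≤ S 3 ∧ (S 3 : ℤ) + (-(s + 1) : ℤ) * 2 ^ k ≤ S 0))

theorem inCell_cl (n1 n2 n3 c d s : ℕ) : Cl (InCell n1 n2 n3 c d s) := by
  have h := (((((Cl.and (Cl.ge 0 1 (n1 : ℤ)) (Cl.ge 1 0 (-(n1 + 1) : ℤ))).and
    (Cl.and (Cl.ge 1 2 (n2 : ℤ)) (Cl.ge 2 1 (-(n2 + 1) : ℤ)))).and
    (Cl.and (Cl.ge 2 3 (n3 : ℤ)) (Cl.ge 3 2 (-(n3 + 1) : ℤ)))).and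
    (Cl.and (Cl.ge 0 2 (n1 + n2 + c : ℤ)) (Cl.ge 2 0 (-(n1 + n2 + c + 1) : ℤ)))).and
    (Cl.and (Cl.ge 1 3 (n2 + n3 + d : ℤ)) (Cl.ge 3 1 (-(n2 + n3 + d + 1) : ℤ)))).and
    (Cl.and (Cl.ge 0 3 (s : ℤ)) (Cl.ge 3 0 (-(s + 1) : ℤ)))
  exact h

/-- the three functionals: `t = 0`: deletion, `t = 1, 2`: fill -/
def phi0 (l : ℕ) (_ : ℕ) (S : ℕ → ℕ) : ℤ :=
  4 * dg (S 2 - S 0) (S 3 - S 2) +
    (((l : ℤ) - 2) * (S 3 : ℤ) + ((2 - 3 * (l : ℤ)) * (S 2 : ℤ) + (2 * (l : ℤ)) * (S 1 : ℤ)))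

def phi1 (l : ℕ) (_ : ℕ) (S : ℕ → ℕ) : ℤ :=
  4 * dg (S 2 - S 0) (S 3 - S 2) + (4 * dg (S 1 - S 0) (S 2 - S 1) +
    (((l : ℤ) - 2) * (S 3 : ℤ) + ((2 - 3 * (l : ℤ)) * (S 2 : ℤ) + (2 * (l : ℤ)) * (S 1 : ℤ))))

def phi2 (l : ℕ) (k : ℕ) (S : ℕ → ℕ) : ℤ :=
  4 * dg (S 2 - S 0) (S 3 - S 2) + (4 * dg (S 1 - S 0) (S 2 - S 1) +
    ((l : ℤ) * (S 3 : ℤ) + ((-3 * (l : ℤ)) * (S 2 : ℤ) + ((2 * (l : ℤ) + 2) * (S 1 : ℤ) +
      ((-2 : ℤ) * (S 0 : ℤ) + (-16 : ℤ) * 2 ^ k)))))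

theorem phi0_sa (l : ℕ) : SA (phi0 l) := by
  have h := ((SA.dg 0 2 3 (by norm_num) (by norm_num)).mul (c := 4) (by norm_num)).add
    ((SA.coord 3 ((l : ℤ) - 2)).add ((SA.coord 2 (2 - 3 * (l : ℤ))).add (SA.coord 1 (2 * (l : ℤ)))))
  exact h

theorem phi1_sa (l : ℕ) : SA (phi1 l) := by
  have h := ((SA.dg 0 2 3 (by norm_num) (by norm_num)).mul (c := 4) (by norm_num)).add
    (((SA.dg 0 1 2 (by norm_num) (by norm_num)).mul (c := 4) (by norm_num)).add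
    ((SA.coord 3 ((l : ℤ) - 2)).add ((SA.coord 2 (2 - 3 * (l : ℤ))).add (SA.coord 1 (2 * (l : ℤ))))))
  exact h

theorem phi2_sa (l : ℕ) : SA (phi2 l) := by
  have h := ((SA.dg 0 2 3 (by norm_num) (by norm_num)).mul (c := 4) (by norm_num)).add
    (((SA.dg 0 1 2 (by norm_num) (by norm_num)).mul (c := 4) (by norm_num)).add
    ((SA.coord 3 (l : ℤ)).add ((SA.coord 2 (-3 * (l : ℤ))).add ((SA.coord 1 (2 * (l : ℤ) + 2)).add
      ((SA.coord 0 (-2 : ℤ)).add (SA.const (-16 : ℤ)))))))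
  exact h

/-- the lattice point of a cell at scale zero -/
theorem base_pt {n1 n2 n3 c d s : ℕ} {S : ℕ → ℕ} (hS : Monotone S)
    (h : InCell n1 n2 n3 c d s 0 S) :
    ∃ x1 x2 x3 : ℕ, S 1 = S 0 + x1 ∧ S 2 = S 0 + x1 + x2 ∧ S 3 = S 0 + x1 + x2 + x3 ∧
      n1 ≤ x1 ∧ x1 ≤ n1 + 1 ∧ n2 ≤ x2 ∧ x2 ≤ n2 + 1 ∧ n3 ≤ x3 ∧ x3 ≤ n3 + 1 ∧
      n1 + n2 + c ≤ x1 + x2 ∧ x1 + x2 ≤ n1 + n2 + c + 1 ∧
      n2 + n3 + d ≤ x2 + x3 ∧ x2 + x3 ≤ n2 + n3 + d + 1 ∧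
      s ≤ x1 + x2 + x3 ∧ x1 + x2 + x3 ≤ s + 1 := by
  have h01 := hS (Nat.zero_le 1)
  have h12 := hS (Nat.le_succ 1)
  have h23 := hS (Nat.le_succ 2)
  unfold InCell at h
  simp only [pow_zero, mul_one] at h
  refine ⟨S 1 - S 0, S 2 - S 1, S 3 - S 2, ?_⟩
  change S 1 ≤ S 2 at h12
  change S 2 ≤ S 3 at h23
  omega

theorem all_cell0 {n1 n2 n3 c d s l : ℕ} (hn : n1 ≤ 8) (hs : s ≤ 15)
    (h : all8 n1 n2 n3 c d s (ok0 l) = true) :
    ∀ k S, Monotone S → InCell n1 n2 n3 c d s k S → 0 ≤ phi0 l k S := by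
  apply cell (phi0_sa l) (inCell_cl n1 n2 n3 c d s)
  intro S hS hk
  obtain ⟨x1, x2, x3, e1, e2, e3, h1, h1', h2, h2', h3, h3', h4, h4', h5, h5', h6, h6'⟩ :=
    base_pt hS hk
  have h7 := all8_spec h h1 h1' h2 h2' h3 h3' h4 h4' h5 h5' h6 h6'
  unfold ok0 at h7
  rw [Nat.ble_eq] at h7
  have h8 := dgN_eq (x1 + x2) x3 (by omega)
  unfold phi0
  have f1 : S 2 - S 0 = x1 + x2 := by omega
  have f2 : S 3 - S 2 = x3 := by omega
  rw [f1, f2, ← h8, e1, e2, e3]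
  have h9 : ((2 * x3 + 2 * l * x2 : ℕ) : ℤ) ≤ ((4 * dgN (x1 + x2) x3 + l * x3 : ℕ) : ℤ) := by
    exact_mod_cast h7
  push_cast at h9 ⊢
  linarith

theorem all_cell1 {n1 n2 n3 c d s l : ℕ} (hn : n1 ≤ 8) (hs : s ≤ 15)
    (h : all8 n1 n2 n3 c d s (ok1 l) = true) :
    ∀ k S, Monotone S → InCell n1 n2 n3 c d s k S → 0 ≤ phi1 l k S := by
  apply cell (phi1_sa l) (inCell_cl n1 n2 n3 c d s)
  intro S hS hk
  obtain ⟨x1, x2, x3, e1, e2, e3, h1, h1', h2, h2', h3, h3', h4, h4', h5, h5', h6, h6'⟩ :=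
    base_pt hS hk
  have h7 := all8_spec h h1 h1' h2 h2' h3 h3' h4 h4' h5 h5' h6 h6'
  unfold ok1 at h7
  rw [Nat.ble_eq] at h7
  have h8 := dgN_eq (x1 + x2) x3 (by omega)
  have h8' := dgN_eq x1 x2 (by omega)
  unfold phi1
  have f1 : S 2 - S 0 = x1 + x2 := by omega
  have f2 : S 3 - S 2 = x3 := by omega
  have f3 : S 1 - S 0 = x1 := by omega
  have f4 : S 2 - S 1 = x2 := by omega
  rw [f1, f2, f3, f4, ← h8, ← h8', e1, e2, e3]
  have h9 : ((2 * x3 + 2 * l * x2 : ℕ) : ℤ) ≤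
      ((4 * (dgN (x1 + x2) x3 + dgN x1 x2) + l * x3 : ℕ) : ℤ) := by
    exact_mod_cast h7
  push_cast at h9 ⊢
  linarith

theorem all_cell2 {n1 n2 n3 c d s l : ℕ} (hn : n1 ≤ 8) (hs : s ≤ 15)
    (h : all8 n1 n2 n3 c d s (ok2 l) = true) :
    ∀ k S, Monotone S → InCell n1 n2 n3 c d s k S → 0 ≤ phi2 l k S := by
  apply cell (phi2_sa l) (inCell_cl n1 n2 n3 c d s)
  intro S hS hk
  obtain ⟨x1, x2, x3, e1, e2, e3, h1, h1', h2, h2', h3, h3', h4, h4', h5, h5', h6, h6'⟩ :=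
    base_pt hS hk
  have h7 := all8_spec h h1 h1' h2 h2' h3 h3' h4 h4' h5 h5' h6 h6'
  unfold ok2 at h7
  rw [Nat.ble_eq] at h7
  have h8 := dgN_eq (x1 + x2) x3 (by omega)
  have h8' := dgN_eq x1 x2 (by omega)
  unfold phi2
  have f1 : S 2 - S 0 = x1 + x2 := by omega
  have f2 : S 3 - S 2 = x3 := by omega
  have f3 : S 1 - S 0 = x1 := by omega
  have f4 : S 2 - S 1 = x2 := by omega
  rw [f1, f2, f3, f4, ← h8, ← h8', e1, e2, e3]
  have h9 : ((16 + 2 * l * x2 : ℕ) : ℤ) ≤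
      ((4 * (dgN (x1 + x2) x3 + dgN x1 x2) + l * x3 + 2 * x1 : ℕ) : ℤ) := by
    exact_mod_cast h7
  push_cast at h9 ⊢
  linarith

/-- the conclusion of Lemma P -/
def Good (B P a q f : ℕ) : Prop :=
  (q : ℤ) ≤ 2 * dg (P + a) q + 2 * f ∨
    ((q : ℤ) ≤ 2 * dg (P + a) q + 2 * dg P a + 2 * f ∧
      (B : ℤ) - P ≤ 2 * dg (P + a) q + 2 * dg P a + 2 * f)

theorem pt0 (P a q : ℕ) : pt P a q 0 = 0 := rfl
theorem pt1 (P a q : ℕ) : pt P a q 1 = P := rfl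
theorem pt2 (P a q : ℕ) : pt P a q 2 = P + a := rfl
theorem pt3 (P a q : ℕ) : pt P a q 3 = P + a + q := rfl

/-- a cell which passes the check -/
theorem good_of_cellOK {n1 n2 n3 c d s : ℕ} (hn : n1 ≤ 8) (hs : s ≤ 15)
    (h : cellOK n1 n2 n3 c d s = true) (k P a q f : ℕ) (hc : InCell n1 n2 n3 c d s k (pt P a q))
    (hf : q ≤ 2 * a + f) : Good (8 * 2 ^ k) P a q f := by
  have hl : ∀ l ∈ [0, 1, 2, 3, 4], l ≤ 4 := by decide
  have hfz : (q : ℤ) ≤ 2 * a + f := by exact_mod_cast hf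
  have hf0 : (0 : ℤ) ≤ f := by positivity
  have key : ∀ l : ℕ, l ≤ 4 → (l : ℤ) * ((q : ℤ) - 2 * a) ≤ 4 * f := by
    intro l hl
    have hlz : (l : ℤ) ≤ 4 := by exact_mod_cast hl
    have hl0 : (0 : ℤ) ≤ l := by positivity
    nlinarith
  have e1 : P + a - 0 = P + a := rfl
  have e2 : P + a + q - (P + a) = q := by omega
  have e3 : P - 0 = P := rfl
  have e4 : P + a - P = a := by omega
  unfold cellOK at h
  rw [Bool.or_eq_true, Bool.and_eq_true] at h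
  rcases h with h | ⟨h, h'⟩
  · obtain ⟨l, hl1, hl2⟩ := List.any_eq_true.mp h
    have h1 := all_cell0 hn hs hl2 k _ (pt_mono P a q) hc
    unfold phi0 at h1
    rw [pt0, pt1, pt2, pt3, e1, e2] at h1
    have h2 := key l (hl l hl1)
    left
    push_cast at h1
    linarith
  · obtain ⟨l, hl1, hl2⟩ := List.any_eq_true.mp h
    obtain ⟨l', hl1', hl2'⟩ := List.any_eq_true.mp h'
    have h1 := all_cell1 hn hs hl2 k _ (pt_mono P a q) hc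
    have h1' := all_cell2 hn hs hl2' k _ (pt_mono P a q) hc
    unfold phi1 at h1
    unfold phi2 at h1'
    rw [pt0, pt1, pt2, pt3, e1, e2, e3, e4] at h1 h1'
    have h2 := key l (hl l hl1)
    have h2' := key l' (hl l' hl1')
    right
    push_cast at h1 h1' ⊢
    constructor
    · linarith
    · linarith

/-! ### the neighbourhood of (3/4, 1/4, 1/2) -/

theorem good_local_aux (N u β γ f G : ℕ) (hf : γ ≤ 2 * β + f)
    (a1 : g (3 * N + u) = g (N + N) + (g N + g u + u) + (N + u))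
    (a3 : g (4 * N + (u + β)) = g (4 * N) + g (u + β) + (u + β))
    (a4 : g (N + β) = g N + g β + β)
    (a5 : g (2 * N + γ) = g (N + N) + g γ + γ)
    (a7 : g (4 * N + (2 * N + (u + β + γ))) = g (4 * N) +
      (g (N + N) + g (u + β + γ) + (u + β + γ)) + (2 * N + (u + β + γ)))
    (g1 : g (N + N) = 2 * G + N) (g2 : g (4 * N) = 2 * (2 * G + N) + 2 * N) (g0 : g N = G) :
    Good (4 * N) (3 * N + u) (N + β) (2 * N + γ) f := by
  have s1 := g_add u (β + γ)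
  have s2 := g_add β γ
  have i1 : 3 * N + u + (N + β) = 4 * N + (u + β) := by omega
  have i2 : 4 * N + (u + β) + (2 * N + γ) = 4 * N + (2 * N + (u + β + γ)) := by omega
  have i4 : u + (β + γ) = u + β + γ := by omega
  rw [i4] at s1
  have m1 : min ((4 * N + (u + β) : ℕ) : ℤ) ((2 * N + γ : ℕ) : ℤ) ≤ (2 * N + γ : ℕ) :=
    min_le_right _ _
  have m2 : min ((3 * N + u : ℕ) : ℤ) ((N + β : ℕ) : ℤ) ≤ (N + β : ℕ) := min_le_right _ _
  have s3 : g u + g β + g γ + min β γ ≤ g (u + β + γ) := by omega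
  have s4 : γ ≤ 2 * min β γ + 2 * f := by omega
  have s3' : (g u : ℤ) + g β + g γ + min β γ ≤ g (u + β + γ) := by exact_mod_cast s3
  have s4' : (γ : ℤ) ≤ 2 * min β γ + 2 * f := by exact_mod_cast s4
  have hmin : (0 : ℤ) ≤ min β γ := by positivity
  have hpow : (0 : ℤ) ≤ N := by positivity
  have hu : (0 : ℤ) ≤ u := by positivity
  have hf' : (0 : ℤ) ≤ f := by positivity
  have hγ' : (0 : ℤ) ≤ γ := by positivity
  unfold Good dg
  rw [i1, i2, a7, a3, a1, a4, a5, g2, g1, g0]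
  right
  push_cast at m1 m2 ⊢
  constructor
  · linarith
  · linarith

theorem good_local (n u v w f : ℕ) (huv : u ≤ v) (hvw : v ≤ w) (hw : w ≤ 2 ^ n)
    (hf : w + 2 * u ≤ 3 * v + f) :
    Good (4 * 2 ^ n) (3 * 2 ^ n + u) (2 ^ n + (v - u)) (2 * 2 ^ n + (w - v)) f := by
  obtain ⟨β, hβ⟩ : ∃ β, v = u + β := ⟨v - u, by omega⟩
  obtain ⟨γ, hγ⟩ : ∃ γ, w = v + γ := ⟨w - v, by omega⟩
  have e1 : v - u = β := by omega
  have e2 : w - v = γ := by omega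
  rw [e1, e2]
  have g1 := g_pow_succ n
  have g2 := g_pow_succ (n + 1)
  have p1 : 2 ^ (n + 1) = 2 * 2 ^ n := by ring
  have p1' : 2 ^ (n + 1) = 2 ^ n + 2 ^ n := by ring
  have p2 : 2 ^ (n + 1 + 1) = 4 * 2 ^ n := by ring
  -- values of `g`
  have a1 := g_pow_add n u (by omega)
  have a2 := g_pow_add (n + 1) (2 ^ n + u) (by omega)
  have a3 := g_pow_add (n + 1 + 1) v (by omega)
  have a4 := g_pow_add n β (by omega)
  have a5 := g_pow_add (n + 1) γ (by omega)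
  have a6 := g_pow_add (n + 1) w (by omega)
  have a7 := g_pow_add (n + 1 + 1) (2 ^ (n + 1) + w) (by omega)
  have i3 : 2 ^ n + 2 ^ n + (2 ^ n + u) = 3 * 2 ^ n + u := by omega
  rw [p1', i3, a1] at a2
  rw [a6, p1', p2] at a7
  rw [p1'] at a5 a6
  rw [p2] at a3
  rw [p1'] at g1 g2
  rw [← p1', p1', p2] at g2
  have hw' : w = u + β + γ := by omega
  rw [hw'] at a6 a7
  rw [hβ] at a3
  have i5 : 2 ^ n + 2 ^ n + γ = 2 * 2 ^ n + γ := by omega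
  have i6 : 2 ^ n + 2 ^ n + (u + β + γ) = 2 * 2 ^ n + (u + β + γ) := by omega
  rw [i5] at a5
  rw [i6] at a7
  have g1' : g (2 ^ n + 2 ^ n) = 2 * g (2 ^ n) + 2 ^ n := g1
  have g2' : g (4 * 2 ^ n) = 2 * (2 * g (2 ^ n) + 2 ^ n) + 2 * 2 ^ n := by
    rw [g2, g1']; ring
  exact good_local_aux (2 ^ n) u β γ f (g (2 ^ n)) (by omega) a2 a3 a4 a5 a7 g1' g2' rfl

/-! ### the reduction of the scale -/

/-- `g (2 N + y)` and `g (N + y)` -/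
theorem g_scale (n y : ℕ) (hy : y ≤ 2 ^ n) :
    g (2 ^ n + (2 ^ n + y)) = g (2 ^ n + y) + g (2 ^ n) + 2 ^ n := by
  have h1 := g_pow_add n y hy
  have h2 := g_pow_add (n + 1) y (by rw [pow_succ]; omega)
  have h3 := g_pow_succ n
  have h4 : (2 : ℕ) ^ (n + 1) = 2 ^ n + 2 ^ n := by ring
  rw [h4, Nat.add_assoc] at h2
  rw [h4] at h3
  rw [h2, h3, h1]
  omega

/-- the reduction of the scale: from `N = 2 ^ n` to `2 ^ (n + 1)`; the point `P` is shifted by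
`N`, and `a` and `q` are unchanged -/
theorem good_scale (n P a q f : ℕ) (hP : P ≤ 2 ^ n) (ha : a ≤ 2 ^ n) (hq : q ≤ 2 ^ n)
    (hm : 2 ^ n ≤ P + a + q) (hm2 : P + a + q ≤ 2 * 2 ^ n) (h : Good (2 ^ n) P a q f) :
    Good (2 ^ (n + 1)) (2 ^ n + P) a q f := by
  have b1 := g_pow_add n P hP
  obtain ⟨y, hy⟩ : ∃ y, P + a + q = 2 ^ n + y := ⟨P + a + q - 2 ^ n, by omega⟩
  have b2 := g_scale n y (by omega)
  have e1 : 2 ^ n + P + a + q = 2 ^ n + (2 ^ n + y) := by omega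
  have m1 : min ((2 ^ n + P + a : ℕ) : ℤ) (q : ℤ) ≤ q := min_le_right _ _
  have m2 : min ((2 ^ n + P : ℕ) : ℤ) (a : ℤ) ≤ a := min_le_right _ _
  have hPz : (P : ℤ) ≤ 2 ^ n := by exact_mod_cast hP
  have haz : (a : ℤ) ≤ 2 ^ n := by exact_mod_cast ha
  have hqz : (q : ℤ) ≤ 2 ^ n := by exact_mod_cast hq
  have hmz : (2 : ℤ) ^ n ≤ P + a + q := by exact_mod_cast hm
  have hyz : (P : ℤ) + a + q = 2 ^ n + y := by exact_mod_cast hy
  have key1 : dg (P + a) q ≤ dg (2 ^ n + P + a) q := by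
    unfold dg
    rw [e1, hy, b2]
    rcases le_total (P + a) (2 ^ n) with h1 | h1
    · have b3 := g_pow_add n (P + a) h1
      rw [← Nat.add_assoc] at b3
      rw [b3]
      have h1z : (P : ℤ) + a ≤ 2 ^ n := by exact_mod_cast h1
      push_cast at m1 ⊢
      rcases le_total ((P : ℤ) + a) q with h2 | h2
      · rw [min_eq_left h2]; linarith
      · rw [min_eq_right h2]; linarith
    · obtain ⟨x, hx⟩ : ∃ x, P + a = 2 ^ n + x := ⟨P + a - 2 ^ n, by omega⟩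
      have b3 := g_scale n x (by omega)
      rw [← hx, ← Nat.add_assoc] at b3
      rw [b3]
      have h2 : (q : ℤ) ≤ P + a := by
        have : (2 : ℤ) ^ n ≤ P + a := by exact_mod_cast h1
        linarith
      push_cast at m1 ⊢
      rw [min_eq_right h2]
      linarith
  have key2 : dg (P + a) q + dg P a ≤ dg (2 ^ n + P + a) q + dg (2 ^ n + P) a := by
    unfold dg
    rw [e1, hy, b2, b1]
    push_cast at m1 m2 ⊢
    rcases le_total ((P : ℤ) + a) q with h2 | h2 <;> rcases le_total (P : ℤ) a with h3 | h3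
    · rw [min_eq_left h2, min_eq_left h3]; linarith
    · rw [min_eq_left h2, min_eq_right h3]; linarith
    · rw [min_eq_right h2, min_eq_left h3]; linarith
    · rw [min_eq_right h2, min_eq_right h3]; linarith
  have p1 : (((2 : ℕ) ^ (n + 1) : ℕ) : ℤ) = 2 ^ n + 2 ^ n := by push_cast; ring
  unfold Good at h ⊢
  rw [p1]
  push_cast at h ⊢
  rcases h with h | ⟨h, h'⟩
  · left; linarith
  · right
    constructor
    · linarith
    · linarith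

/-! ### small scales -/

/-- the check at a small scale -/
def sm (B P a q : ℕ) : Bool :=
  !(Nat.ble P B && Nat.ble a B && Nat.ble q B && Nat.ble (3 * B) (4 * P) &&
    Nat.ble B (P + a + q) && Nat.ble (P + a + q) (2 * B)) ||
  Nat.ble q (2 * dgN (P + a) q + 2 * (q - 2 * a)) ||
  (Nat.ble q (2 * dgN (P + a) q + 2 * dgN P a + 2 * (q - 2 * a)) &&
    Nat.ble B (P + 2 * dgN (P + a) q + 2 * dgN P a + 2 * (q - 2 * a)))

theorem sm1 : ∀ P < 5, ∀ a < 5, ∀ q < 5, sm 1 P a q = true := by decide +kernel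
theorem sm2 : ∀ P < 5, ∀ a < 5, ∀ q < 5, sm 2 P a q = true := by decide +kernel
theorem sm4 : ∀ P < 5, ∀ a < 5, ∀ q < 5, sm 4 P a q = true := by decide +kernel

theorem good_small (B P a q f : ℕ) (hB : B = 1 ∨ B = 2 ∨ B = 4) (hP : P ≤ B) (ha : a ≤ B) (hq : q ≤ B)
    (h1 : 3 * B ≤ 4 * P) (hm : B ≤ P + a + q) (hm2 : P + a + q ≤ 2 * B) (hf : q ≤ 2 * a + f) :
    Good B P a q f := by
  have hB4 : B ≤ 4 := by omega
  have h : sm B P a q = true := by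
    rcases hB with h | h | h
    · subst h; exact sm1 P (by omega) a (by omega) q (by omega)
    · subst h; exact sm2 P (by omega) a (by omega) q (by omega)
    · subst h; exact sm4 P (by omega) a (by omega) q (by omega)
  unfold sm at h
  simp only [Bool.or_eq_true, Bool.not_eq_true', Bool.and_eq_false_iff, Bool.and_eq_true,
    Nat.ble_eq, ← Bool.not_eq_true] at h
  have d1 := dgN_eq (P + a) q (by omega)
  have d2 := dgN_eq P a (by omega)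
  unfold Good
  rw [← d1, ← d2]
  omega

end Pool.Agent.EdgeIso.LemmaP
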