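import Pool.Agent.Lib.MP_48c8f3_co.Bas
import Pool.Agent.Lib.MP_48c8f3_co.FH

set_option autoImplicit false
set_option linter.unusedSectionVars false

/-!
MP_48c8f3_co, framework for size recursions, part I: the loss in terms of quarters and eighths.
-/

namespace Pool.Agent.EdgeIso.Frame

open Finset

variable {α : Type*} [DecidableEq α]

theorem card_inter_le_min (A B : Finset (Finset α)) : (A ∩ B).card ≤ min A.card B.card :=
  le_min (Finset.card_le_card inter_subset_left) (Finset.card_le_card inter_subset_right)

theorem card_inter_le2 (j : α) (c : Bool) (A B : Finset (Finset α)) :
    (A ∩ B).card ≤ min (half j c A).card (half j c B).card +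
      min (half j (!c) A).card (half j (!c) B).card := by
  have h := card_half_add' j c (A ∩ B)
  rw [half_inter, half_inter] at h
  have h1 := card_inter_le_min (half j c A) (half j c B)
  have h2 := card_inter_le_min (half j (!c) A) (half j (!c) B)
  omega

/-- the same, with the refined mismatch in the second direction: the four adjacent pairs -/
theorem e2_quarter {s : Finset α} {a j : α} (ha : a ∈ s) (hj : j ∈ s.erase a) (b c : Bool)
    (F : Finset (Finset α)) :
    e2 s F ≤ e2 ((s.erase a).erase j) (half j c (half a b F)) +
      e2 ((s.erase a).erase j) (half j (!c) (half a b F)) +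
      e2 ((s.erase a).erase j) (half j c (half a (!b) F)) +
      e2 ((s.erase a).erase j) (half j (!c) (half a (!b) F)) +
      2 * (min (half j c (half a b F)).card (half j c (half a (!b) F)).card +
        min (half j (!c) (half a b F)).card (half j (!c) (half a (!b) F)).card +
        min (half j c (half a b F)).card (half j (!c) (half a b F)).card +
        min (half j c (half a (!b) F)).card (half j (!c) (half a (!b) F)).card) := by
  have h1 := e2_half ha b F
  have h2 := e2_half hj c (half a b F)
  have h3 := e2_half hj c (half a (!b) F)
  have h4 := card_inter_le2 j c (half a b F) (half a (!b) F)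
  have h5 := card_inter_le_min (half j c (half a b F)) (half j (!c) (half a b F))
  have h6 := card_inter_le_min (half j c (half a (!b) F)) (half j (!c) (half a (!b) F))
  omega

end Pool.Agent.EdgeIso.Frame
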