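import Pool.Agent.Lib.MP_48c8f3_co.Bas
import Pool.Agent.Lib.MP_48c8f3_co.FI

set_option autoImplicit false
set_option linter.unusedSectionVars false

/-!
MP_48c8f3_co, framework for size recursions, part R: nodes, cells, and the chain of three nodes for
the roomy levels.
-/

namespace Pool.Agent.EdgeIso.Frame

open Finset

variable {α : Type*} [DecidableEq α]

/-! ### nodes -/

/-- `F` is split in the direction `a` with the smallest half, which is the half on the side `!b` -/
structure Node (s : Finset α) (F : Finset (Finset α)) (a : α) (b : Bool) : Prop where
  sub : Sub s F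
  mem : a ∈ s
  le : (half a (!b) F).card ≤ (half a b F).card
  minh : MinHalf s F (half a (!b) F).card

theorem Node.exists {s : Finset α} (hs : s.Nonempty) {F : Finset (Finset α)} (hF : Sub s F) :
    ∃ a b, Node s F a b := by
  obtain ⟨a, ha, b, h1, h2⟩ := exists_min s hs F
  exact ⟨a, b, hF, ha, h1, h2⟩

namespace Node

variable {s : Finset α} {F : Finset (Finset α)} {a : α} {b : Bool}

theorem card_eq (_h : Node s F a b) : (half a b F).card + (half a (!b) F).card = F.card :=
  card_half_add' a b F

theorem card_s (h : Node s F a b) : s.card = (s.erase a).card + 1 :=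
  (card_erase_add_one h.mem).symm

theorem f_le (_h : Node s F a b) : (half a (!b) F \ half a b F).card ≤ (half a (!b) F).card :=
  Finset.card_le_card sdiff_subset

theorem half2_K (h : Node s F a b) : Half2 (s.erase a) (half a b F)
    ((half a (!b) F).card - (half a (!b) F \ half a b F).card) := by
  intro j hj c
  have := (child_constraints h.minh b (mem_of_mem_erase hj) (ne_of_mem_erase hj) c).1
  have h2 : ((half a (!b) F).card : ℤ) ≤ 2 * (half j c (half a b F)).card +
    (half a (!b) F \ half a b F).card := by exact_mod_cast this
  linarith

theorem half2_W (h : Node s F a b) : Half2 (s.erase a) (half a (!b) F)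
    (2 * (half a (!b) F).card - (half a b F).card - (half a (!b) F \ half a b F).card) := by
  intro j hj c
  have := (child_constraints h.minh b (mem_of_mem_erase hj) (ne_of_mem_erase hj) c).2
  have h2 : ((half a (!b) F).card : ℤ) + (half a (!b) F).card ≤ (half a b F).card +
    2 * (half j c (half a (!b) F)).card + (half a (!b) F \ half a b F).card := by
    exact_mod_cast this
  linarith

theorem L2_le (h : Node s F a b) :
    2 * dg (half a b F).card (half a (!b) F).card + 2 * ((half a (!b) F \ half a b F).card : ℤ) +
      L2 (s.erase a) (half a b F) + L2 (s.erase a) (half a (!b) F) ≤ L2 s F :=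
  L2_half' h.mem b F h.le

theorem sub_K (h : Node s F a b) : Sub (s.erase a) (half a b F) := h.sub.half a b

theorem sub_W (h : Node s F a b) : Sub (s.erase a) (half a (!b) F) := h.sub.half a (!b)

/-- deletion of the minority half -/
theorem del (h : Node s F a b) {t : ℕ} {c : ℤ} (hN : NZ (s.erase a) (half a b F) t c) :
    NZ s F t (c + 2 * (half a (!b) F).card) := hN.del h.mem b

end Node

/-! ### four cells -/

/-- the cells of two directions, counted from the given sides: `false` is the given side -/
def cells4 (i j : α) (b c : Bool) (K : Finset (Finset α)) (β γ : Bool) : ℕ :=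
  (half j (xor γ c) (half i (xor β b) K)).card

def sum4 (x : Bool → Bool → ℕ) : ℕ :=
  (x false false + x false true) + (x true false + x true true)

def adj4 (x : Bool → Bool → ℕ) : ℕ :=
  min (x false false) (x true false) + min (x false true) (x true true) +
    (min (x false false) (x false true) + min (x true false) (x true true))

def g4 (x : Bool → Bool → ℕ) : ℕ :=
  g (x false false) + g (x false true) + (g (x true false) + g (x true true))

theorem sum4_cells (i j : α) (b c : Bool) (K : Finset (Finset α)) :
    sum4 (cells4 i j b c K) = K.card := by
  unfold sum4 cells4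
  simp only [Bool.false_xor, Bool.true_xor]
  have h1 := card_half_add' i b K
  have h2 := card_half_add' j c (half i b K)
  have h3 := card_half_add' j c (half i (!b) K)
  omega

theorem side4_i (i j : α) (b c : Bool) (K : Finset (Finset α)) (β : Bool) :
    cells4 i j b c K β false + cells4 i j b c K β true = (half i (xor β b) K).card := by
  unfold cells4
  simp only [Bool.false_xor, Bool.true_xor]
  exact card_half_add' j c (half i (xor β b) K)

theorem side4_j {i j : α} (hij : j ≠ i) (b c : Bool) (K : Finset (Finset α)) (γ : Bool) :
    cells4 i j b c K false γ + cells4 i j b c K true γ = (half j (xor γ c) K).card := by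
  unfold cells4
  simp only [Bool.false_xor, Bool.true_xor]
  exact card_half_two hij b (xor γ c) K

theorem e2_cells4 {s : Finset α} {i j : α} (hi : i ∈ s) (hj : j ∈ s.erase i) (b c : Bool)
    {K : Finset (Finset α)} (hK : Sub s K) :
    e2 s K ≤ 2 * (g4 (cells4 i j b c K) + adj4 (cells4 i j b c K)) := by
  unfold g4 adj4 cells4
  simp only [Bool.false_xor, Bool.true_xor]
  have h1 := e2_quarter hi hj b c K
  have hsub : ∀ β γ : Bool, e2 ((s.erase i).erase j) (half j γ (half i β K)) ≤
      2 * g (half j γ (half i β K)).card := by
    intro β γ
    apply iso
    intro x hx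
    exact mem_powerset.mp (((hK.half i β).half j γ) hx)
  have a1 := hsub b c
  have a2 := hsub b (!c)
  have a3 := hsub (!b) c
  have a4 := hsub (!b) (!c)
  omega

theorem L2_cells4 {s : Finset α} {i j : α} (hi : i ∈ s) (hj : j ∈ s.erase i) (b c : Bool)
    {K : Finset (Finset α)} (hK : Sub s K) :
    2 * ((g K.card : ℤ) - g4 (cells4 i j b c K) - adj4 (cells4 i j b c K)) ≤ L2 s K := by
  have h := e2_cells4 hi hj b c hK
  unfold L2
  have h2 : (e2 s K : ℤ) ≤ 2 * ((g4 (cells4 i j b c K) : ℤ) + adj4 (cells4 i j b c K)) := by
    exact_mod_cast h
  linarith

/-- the loss of four cells in terms of the defects -/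
theorem merge4 (x : Bool → Bool → ℕ) :
    (g (sum4 x) : ℤ) - g4 x - adj4 x =
      dg (x false false + x false true) (x true false + x true true) +
      dg (x false false) (x false true) + dg (x true false) (x true true) +
      (min ((x false false + x false true : ℕ) : ℤ) (x true false + x true true : ℕ) -
        min (x false false : ℤ) (x true false) - min (x false true : ℤ) (x true true)) := by
  unfold dg g4 adj4 sum4
  push_cast
  ring

/-! ### eight cells -/

def g8 (x : Bool → Bool → Bool → ℕ) : ℕ :=
  (g (x false false false) + g (x false false true) + g (x false true false) +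
    g (x false true true)) +
  (g (x true false false) + g (x true false true) + g (x true true false) + g (x true true true))

end Pool.Agent.EdgeIso.Frame
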