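import Pool.Agent.Lib.MP_48c8f3_co.Bas
import Pool.Agent.Lib.MP_48c8f3_co.FR

set_option autoImplicit false
set_option linter.unusedSectionVars false

/-!
MP_48c8f3_co, framework for size recursions, part S: numbers of members of the cells at a node
(the constraints of type Lam), and the chain of three nodes for the roomy levels.
-/

namespace Pool.Agent.EdgeIso.Frame

open Finset

variable {α : Type*} [DecidableEq α]

theorem cells4_le_add (i j : α) (b c : Bool) (K W : Finset (Finset α)) (β γ : Bool) :
    cells4 i j b c W β γ ≤ cells4 i j b c K β γ + cells4 i j b c (W \ K) β γ := by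
  unfold cells4
  have h1 := card_half_le_add j (xor γ c) (half i (xor β b) W) (half i (xor β b) K)
  rwa [← half_sdiff] at h1

theorem cells4_sdiff_le (i j : α) (b c : Bool) (K W : Finset (Finset α)) (β γ : Bool) :
    cells4 i j b c (W \ K) β γ ≤ cells4 i j b c W β γ := by
  unfold cells4
  exact Finset.card_le_card (half_mono (half_mono sdiff_subset))

/-! ### the chain of three nodes -/

/-- `P n x v L` is a valid lower bound for twice the loss `L` of a family with `x` members in
dimension `n` all whose halves have at least `v / 2` members -/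
def LBnd (α : Type*) [DecidableEq α] (P : ℕ → ℕ → ℤ → ℤ → Prop) : Prop :=
  ∀ (s : Finset α) (X : Finset (Finset α)), Sub s X → ∀ v : ℤ, Half2 s X v → v ≤ X.card →
    P s.card X.card v (L2 s X)

theorem Node.lb_K {s : Finset α} {F : Finset (Finset α)} {a : α} {b : Bool} (h : Node s F a b)
    {P : ℕ → ℕ → ℤ → ℤ → Prop} (hP : LBnd α P) {n : ℕ} (hn : (s.erase a).card = n) :
    P n (half a b F).card ((half a (!b) F).card - (half a (!b) F \ half a b F).card)
      (Frame.L2 (s.erase a) (half a b F)) := by
  rw [← hn]
  apply hP _ _ h.sub_K _ h.half2_K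
  have h1 : ((half a (!b) F).card : ℤ) ≤ (half a b F).card := by exact_mod_cast h.le
  have h2 : (0 : ℤ) ≤ (half a (!b) F \ half a b F).card := by positivity
  linarith

theorem Node.lb_F {s : Finset α} {F : Finset (Finset α)} {a : α} {b : Bool} (h : Node s F a b)
    {P : ℕ → ℕ → ℤ → ℤ → Prop} (hP : LBnd α P) {n : ℕ} (hn : s.card = n) :
    P n F.card (2 * (half a (!b) F).card) (Frame.L2 s F) := by
  rw [← hn]
  apply hP _ _ h.sub
  · intro j hj c
    have h1 := h.minh j hj c
    have h2 : ((half a (!b) F).card : ℤ) ≤ (half j c F).card := by exact_mod_cast h1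
    linarith
  · have h1 := h.card_eq
    have h2 := h.le
    have h3 : 2 * (half a (!b) F).card ≤ F.card := by omega
    exact_mod_cast h3

end Pool.Agent.EdgeIso.Frame
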