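import Pool.Agent.Lib.MP_48c8f3_co.Bas
import Pool.Agent.Lib.MP_48c8f3_co.FS

set_option autoImplicit false
set_option linter.unusedSectionVars false

/-!
MP_48c8f3_co, framework for size recursions, part T: the product criterion (P1) in an arbitrary
direction, and its consequences for a counterexample.
-/

namespace Pool.Agent.EdgeIso.Frame

open Finset

variable {α : Type*} [DecidableEq α]

/-- in a counterexample all directions satisfy `f < p - q - 2 D(p, q)`; moreover the losses of the
two halves differ by less than `p - q - 2 D - f` (here with doubled losses) -/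
theorem counterexample_dir {s : Finset α} {F : Finset (Finset α)} (hF : Sub s F)
    (IH : ∀ (s' : Finset α) (F' : Finset (Finset α)), s'.card < s.card → Sub s' F' → TC 2 s' F')
    (hneg : ¬ TC 2 s F) {a : α} {b : Bool} (ha : a ∈ s)
    (hqp : (half a (!b) F).card ≤ (half a b F).card) :
    2 * dg (half a b F).card (half a (!b) F).card + (half a (!b) F \ half a b F).card +
      |L2 (s.erase a) (half a b F) - L2 (s.erase a) (half a (!b) F)| <
      ((half a b F).card : ℤ) - (half a (!b) F).card := by
  have hlt : (s.erase a).card < s.card := card_lt_card (erase_ssubset ha)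
  have TK := IH _ (half a b F) hlt (hF.half a b)
  have TW := IH _ (half a (!b) F) hlt (hF.half a (!b))
  have ht : F.card ≤ 2 ^ s.card := hF.card_le
  have h0 := card_half_add' a b F
  have h0z : ((half a b F).card : ℤ) + (half a (!b) F).card = F.card := by exact_mod_cast h0
  have hL := L2_half' ha b F hqp
  have hqz : ((half a (!b) F).card : ℤ) ≤ (half a b F).card := by exact_mod_cast hqp
  have h1 := NZ.prod_TC ha b TK ht
  have h2 := NZ.prod_TC ha (!b) TW ht
  rw [Bool.not_not, card_sdiff_swap] at h2
  rw [max_eq_right (by linarith)] at h1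
  rw [max_eq_left (by linarith)] at h2
  by_contra hcon
  push Not at hcon
  apply hneg
  rcases le_total (L2 (s.erase a) (half a b F)) (L2 (s.erase a) (half a (!b) F)) with hle | hle
  · obtain ⟨d, hd1, hd2⟩ := h1
    rw [abs_of_nonpos (by linarith)] at hcon
    exact ⟨d, hd1, by linarith⟩
  · obtain ⟨d, hd1, hd2⟩ := h2
    rw [abs_of_nonneg (by linarith)] at hcon
    exact ⟨d, hd1, by linarith⟩

/-- the deletion criterion in an arbitrary direction: in a counterexample
`q > 2 D(p, q) + 2 f + L2 W` (`|F| ≤ 2 ^ (dimension - 1)`) -/
theorem counterexample_del {s : Finset α} {F : Finset (Finset α)} (hF : Sub s F)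
    (IH : ∀ (s' : Finset α) (F' : Finset (Finset α)), s'.card < s.card → Sub s' F' → TC 2 s' F')
    (hneg : ¬ TC 2 s F) {a : α} {b : Bool} (ha : a ∈ s) (hm : F.card ≤ 2 ^ (s.erase a).card)
    (hqp : (half a (!b) F).card ≤ (half a b F).card) :
    2 * dg (half a b F).card (half a (!b) F).card + 2 * (half a (!b) F \ half a b F).card +
      L2 (s.erase a) (half a (!b) F) < ((half a (!b) F).card : ℤ) := by
  have hlt : (s.erase a).card < s.card := card_lt_card (erase_ssubset ha)
  have TK := IH _ (half a b F) hlt (hF.half a b)
  have h0 := card_half_add' a b F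
  have h0z : ((half a b F).card : ℤ) + (half a (!b) F).card = F.card := by exact_mod_cast h0
  have hL := L2_half' ha b F hqp
  have hq0 : (0 : ℤ) ≤ (half a (!b) F).card := by positivity
  have h1 := (TK.nz hm).del ha b
  rw [max_eq_left (by linarith)] at h1
  by_contra hcon
  push Not at hcon
  apply hneg
  obtain ⟨d, hd1, hd2⟩ := h1
  exact ⟨d, hd1, by linarith⟩

end Pool.Agent.EdgeIso.Frame
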