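import Pool.Agent.Lib.MP_48c8f3_co.Bas
import Pool.Agent.Lib.MP_48c8f3_co.FB

set_option autoImplicit false
set_option linter.unusedSectionVars false

/-!
MP_48c8f3_co, Walsh functions on the cube, part A: Parseval, moments of linear forms.
-/

namespace Pool.Agent.EdgeIso.Walsh

open Finset Pool.Agent.EdgeIso.Frame

variable {α : Type*} [DecidableEq α]

/-- the coordinate functions -/
def e (x : Finset α) (i : α) : ℤ := if i ∈ x then -1 else 1

theorem e_sq (x : Finset α) (i : α) : e x i * e x i = 1 := by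
  unfold e
  split_ifs <;> norm_num

/-- Walsh functions -/
def chi (T x : Finset α) : ℤ := ∏ i ∈ T, e x i

/-- the transform (not normalised) -/
def fh (φ : Finset α → ℤ) (s T : Finset α) : ℤ := ∑ x ∈ s.powerset, φ x * chi T x

theorem orth {s x y : Finset α} (hx : x ⊆ s) (hy : y ⊆ s) :
    ∑ T ∈ s.powerset, chi T x * chi T y = if x = y then 2 ^ s.card else 0 := by
  have h1 : ∀ T ∈ s.powerset, chi T x * chi T y = ∏ i ∈ T, (e x i * e y i) := by
    intro T _
    unfold chi
    rw [prod_mul_distrib]
  rw [sum_congr rfl h1, ← prod_one_add]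
  split_ifs with h
  · subst h
    rw [prod_congr rfl (fun i _ => by rw [e_sq]; norm_num : ∀ i ∈ s, 1 + e x i * e x i = 2)]
    rw [prod_const]
  · have h2 : ∃ i ∈ s, e x i * e y i = -1 := by
      by_contra hne
      apply h
      ext i
      by_contra hi
      apply hne
      by_cases h3 : i ∈ x
      · by_cases h4 : i ∈ y
        · exact absurd (iff_of_true h3 h4) hi
        · exact ⟨i, hx h3, by simp [e, h3, h4]⟩
      · by_cases h4 : i ∈ y
        · exact ⟨i, hy h4, by simp [e, h3, h4]⟩
        · exact absurd (iff_of_false h3 h4) hi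
    obtain ⟨i, hi, h3⟩ := h2
    apply prod_eq_zero hi
    rw [h3]; norm_num

theorem parseval (φ : Finset α → ℤ) (s : Finset α) :
    ∑ T ∈ s.powerset, fh φ s T ^ 2 = 2 ^ s.card * ∑ x ∈ s.powerset, φ x ^ 2 := by
  have h1 : ∀ T ∈ s.powerset, fh φ s T ^ 2 =
      ∑ x ∈ s.powerset, ∑ y ∈ s.powerset, φ x * φ y * (chi T x * chi T y) := by
    intro T _
    unfold fh
    rw [sq, sum_mul_sum]
    apply sum_congr rfl
    intro x _
    apply sum_congr rfl
    intro y _
    ring
  rw [sum_congr rfl h1, sum_comm]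
  rw [mul_sum]
  apply sum_congr rfl
  intro x hx
  rw [sum_comm]
  have h2 : ∀ y ∈ s.powerset, ∑ T ∈ s.powerset, φ x * φ y * (chi T x * chi T y) =
      if x = y then φ x * φ y * 2 ^ s.card else 0 := by
    intro y hy
    rw [← mul_sum, orth (mem_powerset.mp hx) (mem_powerset.mp hy)]
    split_ifs <;> simp
  rw [sum_congr rfl h2, sum_ite_eq, if_pos hx]
  ring

/-! ### flipping a coordinate -/

/-- flip -/
def flip (j : α) (x : Finset α) : Finset α := symmDiff x {j}

theorem flip_flip (j : α) (x : Finset α) : flip j (flip j x) = x := by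
  unfold flip
  exact symmDiff_symmDiff_cancel_right {j} x

theorem mem_flip_self (j : α) (x : Finset α) : j ∈ flip j x ↔ j ∉ x := by
  unfold flip
  rw [mem_symmDiff, mem_singleton]
  tauto

theorem mem_flip_ne {j i : α} (h : i ≠ j) (x : Finset α) : i ∈ flip j x ↔ i ∈ x := by
  unfold flip
  rw [mem_symmDiff, mem_singleton]
  tauto

theorem flip_ne (j : α) (x : Finset α) : flip j x ≠ x := by
  intro h
  have h1 := mem_flip_self j x
  rw [h] at h1
  tauto

theorem flip_mem {s : Finset α} {j : α} (hj : j ∈ s) {x : Finset α} (hx : x ∈ s.powerset) :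
    flip j x ∈ s.powerset := by
  rw [mem_powerset] at hx ⊢
  intro i hi
  by_cases h : i = j
  · rw [h]; exact hj
  · exact hx ((mem_flip_ne h x).mp hi)

theorem e_flip_self (j : α) (x : Finset α) : e (flip j x) j = -e x j := by
  unfold e
  have h := mem_flip_self j x
  by_cases hx : j ∈ x
  · simp [h, hx]
  · simp [h, hx]

theorem e_flip_ne {j i : α} (h : i ≠ j) (x : Finset α) : e (flip j x) i = e x i := by
  simp only [e, mem_flip_ne h x]

theorem chi_flip_mem {j : α} {T : Finset α} (hj : j ∈ T) (x : Finset α) :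
    chi T (flip j x) = -chi T x := by
  unfold chi
  rw [← mul_prod_erase T _ hj, ← mul_prod_erase T (fun i => e x i) hj, e_flip_self]
  rw [prod_congr rfl (fun i hi => e_flip_ne (ne_of_mem_erase hi) x)]
  ring

theorem chi_flip_notMem {j : α} {T : Finset α} (hj : j ∉ T) (x : Finset α) :
    chi T (flip j x) = chi T x := by
  unfold chi
  apply prod_congr rfl
  intro i hi
  exact e_flip_ne (fun h => hj (by rw [← h]; exact hi)) x

theorem sum_flip {s : Finset α} {j : α} (hj : j ∈ s) (G : Finset α → ℤ) :
    ∑ x ∈ s.powerset, G (flip j x) = ∑ x ∈ s.powerset, G x := by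
  apply sum_nbij' (flip j) (flip j)
  · intro x hx; exact flip_mem hj hx
  · intro x hx; exact flip_mem hj hx
  · intro x _; exact flip_flip j x
  · intro x _; exact flip_flip j x
  · intro x _; rfl

/-- the transform of the difference in direction `j` -/
theorem fh_diff {s : Finset α} {j : α} (hj : j ∈ s) (φ : Finset α → ℤ) (T : Finset α) :
    fh (fun x => φ x - φ (flip j x)) s T = if j ∈ T then 2 * fh φ s T else 0 := by
  unfold fh
  have h1 : ∑ x ∈ s.powerset, φ (flip j x) * chi T x =
      ∑ x ∈ s.powerset, φ x * chi T (flip j x) := by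
    rw [← sum_flip hj (fun x => φ x * chi T (flip j x))]
    apply sum_congr rfl
    intro x _
    rw [flip_flip]
  simp only [sub_mul]
  rw [sum_sub_distrib, h1]
  split_ifs with h
  · rw [sum_congr rfl (fun x _ => by rw [chi_flip_mem h x] :
      ∀ x ∈ s.powerset, φ x * chi T (flip j x) = φ x * (-chi T x))]
    rw [sum_congr rfl (fun x _ => by ring : ∀ x ∈ s.powerset, φ x * (-chi T x) =
      -(φ x * chi T x))]
    rw [sum_neg_distrib]
    ring
  · rw [sum_congr rfl (fun x _ => by rw [chi_flip_notMem h x] :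
      ∀ x ∈ s.powerset, φ x * chi T (flip j x) = φ x * chi T x)]
    ring

/-! ### moments of linear forms -/

/-- linear form -/
def lf (t : Finset α) (a : α → ℤ) (x : Finset α) : ℤ := ∑ k ∈ t, a k * e x k

theorem lf_insert {i : α} {t : Finset α} (hi : i ∉ t) (a : α → ℤ) {y : Finset α}
    (hy : y ∈ t.powerset) : lf (insert i t) a y = a i + lf t a y ∧
      lf (insert i t) a (insert i y) = -a i + lf t a y := by
  have hiy : i ∉ y := fun h => hi (mem_powerset.mp hy h)
  unfold lf
  rw [sum_insert hi, sum_insert hi]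
  constructor
  · congr 1
    simp [e, hiy]
  · congr 1
    · simp [e]
    · apply sum_congr rfl
      intro k hk
      have hki : k ≠ i := fun h => hi (h ▸ hk)
      simp [e, hki]

theorem moment2 (t : Finset α) (a : α → ℤ) :
    ∑ y ∈ t.powerset, lf t a y ^ 2 = 2 ^ t.card * ∑ k ∈ t, a k ^ 2 := by
  induction t using Finset.induction_on with
  | empty => simp [lf]
  | insert i t hi ih =>
    rw [sum_powerset_insert hi, ← sum_add_distrib]
    rw [sum_congr rfl (g := fun y => 2 * lf t a y ^ 2 + 2 * a i ^ 2)]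
    · rw [sum_add_distrib, ← mul_sum, ih, sum_const, card_powerset, card_insert_of_notMem hi,
        sum_insert hi, nsmul_eq_mul]
      push_cast
      ring
    · intro y hy
      obtain ⟨h1, h2⟩ := lf_insert hi a hy
      rw [h1, h2]
      ring

theorem moment4 (t : Finset α) (a : α → ℤ) :
    ∑ y ∈ t.powerset, lf t a y ^ 4 ≤ 3 * 2 ^ t.card * (∑ k ∈ t, a k ^ 2) ^ 2 := by
  induction t using Finset.induction_on with
  | empty => simp [lf]
  | insert i t hi ih =>
    rw [sum_powerset_insert hi, ← sum_add_distrib]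
    rw [sum_congr rfl (g := fun y => 2 * lf t a y ^ 4 + 12 * a i ^ 2 * lf t a y ^ 2 +
      2 * a i ^ 4)]
    · rw [sum_add_distrib, sum_add_distrib, ← mul_sum, ← mul_sum, moment2, sum_const,
        card_powerset, card_insert_of_notMem hi, sum_insert hi, nsmul_eq_mul]
      push_cast
      have h1 : (0 : ℤ) ≤ ∑ k ∈ t, a k ^ 2 := sum_nonneg (fun k _ => sq_nonneg _)
      have h2 : (0 : ℤ) < 2 ^ t.card := by positivity
      set A := ∑ k ∈ t, a k ^ 2
      set V : ℤ := 2 ^ t.card
      have h3 : (0 : ℤ) ≤ V * a i ^ 4 := by positivity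
      have h4 : (2 : ℤ) ^ (t.card + 1) = 2 * V := by rw [pow_succ]; ring
      rw [h4]
      have h5 : 3 * (2 * V) * (a i ^ 2 + A) ^ 2 =
        6 * (V * a i ^ 4) + 12 * a i ^ 2 * (V * A) + 2 * (3 * V * A ^ 2) := by ring
      rw [h5]
      linarith
    · intro y hy
      obtain ⟨h1, h2⟩ := lf_insert hi a hy
      rw [h1, h2]
      ring

end Pool.Agent.EdgeIso.Walsh
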