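import Pool.Agent.Lib.MP_48c8f3_co.Bas
import Pool.Agent.Lib.MP_48c8f3_co.WFa

set_option autoImplicit false
set_option linter.unusedSectionVars false

/-!
MP_48c8f3_co, Walsh functions on the cube, part B: families. The inequality of level two, and the
lower bound for the boundary.
-/

namespace Pool.Agent.EdgeIso.Walsh

open Finset Pool.Agent.EdgeIso.Frame

variable {α : Type*} [DecidableEq α]

/-- indicator function -/
def ind (F : Finset (Finset α)) (x : Finset α) : ℤ := if x ∈ F then 1 else 0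

/-- the members of `F` whose neighbour in the direction `j` is not in `F` -/
def dF (F : Finset (Finset α)) (j : α) : Finset (Finset α) :=
  F.filter (fun x => symmDiff x {j} ∉ F)

theorem mem_dF {F : Finset (Finset α)} {j : α} {x : Finset α} :
    x ∈ dF F j ↔ x ∈ F ∧ flip j x ∉ F := by
  unfold dF flip
  rw [mem_filter]

/-- the boundary is the sum over the directions -/
theorem bd_eq_sum (s : Finset α) (F : Finset (Finset α)) : bd s F = ∑ j ∈ s, (dF F j).card := by
  unfold bd dF
  have h1 : ∀ x ∈ F, (s.filter (fun i => symmDiff x {i} ∉ F)).card =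
      ∑ i ∈ s, if symmDiff x {i} ∉ F then 1 else 0 := by
    intro x _
    rw [card_filter]
  rw [sum_congr rfl h1, sum_comm]
  apply sum_congr rfl
  intro j _
  rw [card_filter]

theorem sum_ind {s : Finset α} {F : Finset (Finset α)} (hF : Sub s F) (G : Finset α → ℤ) :
    ∑ x ∈ s.powerset, ind F x * G x = ∑ x ∈ F, G x := by
  have h1 : ∀ x ∈ s.powerset, ind F x * G x = if x ∈ F then G x else 0 := by
    intro x _
    unfold ind
    split_ifs <;> simp
  rw [sum_congr rfl h1, ← sum_filter]
  congr 1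
  ext x
  rw [mem_filter]
  exact ⟨fun h => h.2, fun h => ⟨hF h, h⟩⟩

theorem fh_ind {s : Finset α} {F : Finset (Finset α)} (hF : Sub s F) (T : Finset α) :
    fh (ind F) s T = ∑ x ∈ F, chi T x := sum_ind hF _

theorem parseval_F {s : Finset α} {F : Finset (Finset α)} (hF : Sub s F) :
    ∑ T ∈ s.powerset, fh (ind F) s T ^ 2 = 2 ^ s.card * F.card := by
  rw [parseval]
  congr 1
  have h1 : ∀ x ∈ s.powerset, ind F x ^ 2 = ind F x * 1 := by
    intro x _
    unfold ind
    split_ifs <;> simp
  rw [sum_congr rfl h1, sum_ind hF]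
  simp

theorem fh_empty {s : Finset α} {F : Finset (Finset α)} (hF : Sub s F) :
    fh (ind F) s ∅ = F.card := by
  rw [fh_ind hF]
  simp [chi]

/-- the influence in the direction `j` -/
theorem influence {s : Finset α} {F : Finset (Finset α)} (hF : Sub s F) {j : α} (hj : j ∈ s) :
    2 * ∑ T ∈ s.powerset.filter (fun T => j ∈ T), fh (ind F) s T ^ 2 =
      2 ^ s.card * (dF F j).card := by
  have h1 := parseval (fun x => ind F x - ind F (flip j x)) s
  have h2 : ∑ T ∈ s.powerset, fh (fun x => ind F x - ind F (flip j x)) s T ^ 2 =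
      4 * ∑ T ∈ s.powerset.filter (fun T => j ∈ T), fh (ind F) s T ^ 2 := by
    rw [mul_sum, sum_filter]
    apply sum_congr rfl
    intro T _
    rw [fh_diff hj]
    split_ifs <;> ring
  rw [h2] at h1
  set D : Finset α → ℤ := fun x => if x ∈ F ∧ flip j x ∉ F then 1 else 0 with hD
  have h3 : ∀ x ∈ s.powerset, (ind F x - ind F (flip j x)) ^ 2 = D x + D (flip j x) := by
    intro x _
    simp only [hD, flip_flip, ind]
    by_cases h4 : x ∈ F <;> by_cases h5 : flip j x ∈ F <;> simp [h4, h5]
  have h4 : ∑ x ∈ s.powerset, D x = (dF F j).card := by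
    have h5 : ∀ x ∈ s.powerset, D x = ind F x * (if flip j x ∉ F then 1 else 0) := by
      intro x _
      simp only [hD, ind]
      by_cases h4 : x ∈ F <;> by_cases h5 : flip j x ∈ F <;> simp [h4, h5]
    rw [sum_congr rfl h5, sum_ind hF, dF, card_filter]
    push_cast
    apply sum_congr rfl
    intro x _
    rfl
  rw [sum_congr rfl h3, sum_add_distrib, sum_flip hj D, h4] at h1
  linarith

/-- level one -/
theorem level_one {s : Finset α} {F : Finset (Finset α)} (hF : Sub s F) (j : α) :
    fh (ind F) s {j} = (half j false F).card - (half j true F).card := by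
  rw [fh_ind hF]
  have h0 : ∀ x ∈ F, chi {j} x = (if j ∈ x then 0 else 2) - 1 := by
    intro x _
    simp only [chi, prod_singleton, e]
    split_ifs <;> norm_num
  rw [sum_congr rfl h0, sum_sub_distrib]
  have h1 : ∑ x ∈ F, (if j ∈ x then (0 : ℤ) else 2) = 2 * (half j false F).card := by
    have h2 : half j false F = F.filter (fun x => j ∉ x) := by
      unfold half
      rw [if_neg (by simp)]
      rfl
    rw [h2, card_filter]
    push_cast
    rw [mul_sum]
    apply sum_congr rfl
    intro x _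
    by_cases h : j ∈ x <;> simp [h]
  have h3 := card_half_add j F
  rw [h1]
  simp only [sum_const, nsmul_eq_mul, mul_one]
  rw [← h3]
  push_cast
  ring

/-- the sum of the squares of the coefficients of level two with the index `j` -/
def A2 (s : Finset α) (F : Finset (Finset α)) (j : α) : ℤ :=
  ∑ k ∈ s.erase j, fh (ind F) s {j, k} ^ 2

theorem A2_nonneg (s : Finset α) (F : Finset (Finset α)) (j : α) : 0 ≤ A2 s F j :=
  sum_nonneg (fun _ _ => sq_nonneg _)

/-- the level two inequality -/
theorem level_two {s : Finset α} {F : Finset (Finset α)} (hF : Sub s F) {j : α} (hj : j ∈ s) :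
    2 * A2 s F j ^ 2 ≤ 3 * 2 ^ s.card * ((dF F j).card : ℤ) ^ 3 := by
  set t := s.erase j with ht
  set a : α → ℤ := fun k => fh (ind F) s {j, k} with ha
  -- the linear form does not depend on the coordinate `j`
  have hL : ∀ x, lf t a (flip j x) = lf t a x := by
    intro x
    unfold lf
    apply sum_congr rfl
    intro k hk
    rw [e_flip_ne (ne_of_mem_erase hk)]
  have h1 : A2 s F j = ∑ x ∈ F, e x j * lf t a x := by
    unfold A2
    have h2 : ∀ k ∈ t, fh (ind F) s {j, k} ^ 2 = ∑ x ∈ F, a k * (e x j * e x k) := by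
      intro k hk
      have hjk : j ≠ k := (ne_of_mem_erase hk).symm
      rw [← mul_sum, sq]
      congr 1
      rw [fh_ind hF]
      apply sum_congr rfl
      intro x _
      unfold chi
      rw [prod_pair hjk]
    rw [sum_congr rfl h2, sum_comm]
    apply sum_congr rfl
    intro x _
    unfold lf
    rw [mul_sum]
    apply sum_congr rfl
    intro k _
    ring
  have h2 : ∑ x ∈ F, e x j * lf t a x = ∑ x ∈ dF F j, e x j * lf t a x := by
    rw [← sum_filter_add_sum_filter_not F (fun x => symmDiff x {j} ∉ F)]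
    have h3 : ∑ x ∈ F.filter (fun x => ¬ (symmDiff x {j} ∉ F)), e x j * lf t a x = 0 := by
      apply sum_involution (fun x _ => flip j x)
      · intro x _
        rw [e_flip_self, hL]
        ring
      · intro x _ _
        exact flip_ne j x
      · intro x hx
        rw [mem_filter, not_not] at hx ⊢
        refine ⟨hx.2, ?_⟩
        have : symmDiff (flip j x) {j} = x := flip_flip j x
        rw [this]
        exact hx.1
      · intro x _
        exact flip_flip j x
    rw [h3, add_zero]
    rfl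
  set b : ℤ := ((dF F j).card : ℤ) with hb
  have hb0 : 0 ≤ b := by positivity
  -- Cauchy-Schwarz twice
  have h3 : A2 s F j ^ 2 ≤ b * ∑ x ∈ dF F j, (e x j * lf t a x) ^ 2 := by
    rw [h1, h2]
    exact sq_sum_le_card_mul_sum_sq
  have h4 : ∀ x ∈ dF F j, (e x j * lf t a x) ^ 2 = lf t a x ^ 2 := by
    intro x _
    have := e_sq x j
    rw [mul_pow, sq (e x j), this, one_mul]
  rw [sum_congr rfl h4] at h3
  have h5 : (∑ x ∈ dF F j, lf t a x ^ 2) ^ 2 ≤ b * ∑ x ∈ dF F j, lf t a x ^ 4 := by
    have := sq_sum_le_card_mul_sum_sq (s := dF F j) (f := fun x => lf t a x ^ 2)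
    refine this.trans_eq ?_
    congr 1
    apply sum_congr rfl
    intro x _
    ring
  -- the fourth moment
  have h6 : ∑ x ∈ dF F j, lf t a x ^ 4 ≤ ∑ y ∈ t.powerset, lf t a y ^ 4 := by
    have h7 : ∀ x ∈ dF F j, lf t a x ^ 4 = lf t a (x.erase j) ^ 4 := by
      intro x _
      congr 1
      unfold lf
      apply sum_congr rfl
      intro k hk
      have hkj := ne_of_mem_erase hk
      simp [e, hkj]
    rw [sum_congr rfl h7]
    have hinj : Set.InjOn (fun x : Finset α => x.erase j) (dF F j) := by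
      intro x hx y hy hxy
      rw [mem_coe, mem_dF] at hx hy
      have key : ∀ i, i ≠ j → (i ∈ x ↔ i ∈ y) := by
        intro i hi
        have h8 : i ∈ x.erase j ↔ i ∈ y.erase j := by
          simp only at hxy
          rw [hxy]
        rw [mem_erase, mem_erase] at h8
        tauto
      by_cases h9 : (j ∈ x ↔ j ∈ y)
      · ext i
        by_cases hi : i = j
        · rw [hi]; exact h9
        · exact key i hi
      · exfalso
        apply hx.2
        have : flip j x = y := by
          ext i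
          by_cases hi : i = j
          · rw [hi, mem_flip_self]; tauto
          · rw [mem_flip_ne hi]; exact key i hi
        rw [this]
        exact hy.1
    rw [← sum_image (f := fun y => lf t a y ^ 4) hinj]
    apply sum_le_sum_of_subset_of_nonneg
    · intro y hy
      rw [mem_image] at hy
      obtain ⟨x, hx, rfl⟩ := hy
      rw [mem_dF] at hx
      rw [mem_powerset, ht]
      exact erase_subset_erase j (mem_powerset.mp (hF hx.1))
    · intro y _ _
      positivity
  have h7 := moment4 t a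
  have h8 : ∑ k ∈ t, a k ^ 2 = A2 s F j := rfl
  rw [h8] at h7
  have h9 : (2 : ℤ) ^ s.card = 2 * 2 ^ t.card := by
    rw [ht, ← card_erase_add_one hj, pow_succ]
    ring
  rw [h9]
  set V : ℤ := 2 ^ t.card with hV
  have hV0 : 0 < V := by positivity
  set S2 := ∑ x ∈ dF F j, lf t a x ^ 2 with hS2
  set S4 := ∑ x ∈ dF F j, lf t a x ^ 4 with hS4
  set A := A2 s F j with hA
  have hS20 : 0 ≤ S2 := sum_nonneg (fun _ _ => sq_nonneg _)
  have hA0 : 0 ≤ A := A2_nonneg s F j
  -- `A ^ 4 ≤ b ^ 2 S2 ^ 2 ≤ b ^ 3 S4 ≤ 3 V b ^ 3 A ^ 2`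
  have k1 : A ^ 4 ≤ 3 * V * b ^ 3 * A ^ 2 := by
    have i1 : (A ^ 2) ^ 2 ≤ (b * S2) ^ 2 := by
      apply pow_le_pow_left₀ (sq_nonneg _) h3
    have i2 : b ^ 2 * S2 ^ 2 ≤ b ^ 2 * (b * S4) := mul_le_mul_of_nonneg_left h5 (sq_nonneg _)
    have i3 : b ^ 3 * S4 ≤ b ^ 3 * (3 * V * A ^ 2) :=
      mul_le_mul_of_nonneg_left (h6.trans h7) (by positivity)
    calc A ^ 4 = (A ^ 2) ^ 2 := by ring
      _ ≤ (b * S2) ^ 2 := i1
      _ = b ^ 2 * S2 ^ 2 := by ring
      _ ≤ b ^ 2 * (b * S4) := i2
      _ = b ^ 3 * S4 := by ring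
      _ ≤ b ^ 3 * (3 * V * A ^ 2) := i3
      _ = 3 * V * b ^ 3 * A ^ 2 := by ring
  rcases hA0.eq_or_lt with h | h
  · rw [← h]
    have : (0 : ℤ) ≤ 3 * (2 * V) * b ^ 3 := by positivity
    linarith
  · have k2 : A ^ 2 ≤ 3 * V * b ^ 3 := by
      have k3 : 0 < A ^ 2 := by positivity
      have k4 : A ^ 2 * A ^ 2 ≤ (3 * V * b ^ 3) * A ^ 2 := by
        calc A ^ 2 * A ^ 2 = A ^ 4 := by ring
          _ ≤ _ := k1
      exact le_of_mul_le_mul_right k4 k3
    linarith

/-! ### the combined inequality -/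

/-- the difference of the halves -/
def beta (F : Finset (Finset α)) (j : α) : ℤ := (half j false F).card - (half j true F).card

/-- weights -/
def wt (T : Finset α) : ℤ := 4 + (if T.card = 1 then 8 else 0) + (if T.card = 2 then 2 else 0)

theorem wt_ge {T : Finset α} (hT : T ≠ ∅) : 12 ≤ (T.card : ℤ) * wt T := by
  have h1 : T.card ≠ 0 := fun h => hT (card_eq_zero.mp h)
  unfold wt
  by_cases h2 : T.card = 1
  · simp [h2]
  · by_cases h3 : T.card = 2
    · simp [h3]
    · simp only [h2, h3, if_false, add_zero]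
      have h4 : (3 : ℤ) ≤ T.card := by exact_mod_cast (by omega : 3 ≤ T.card)
      linarith

theorem sum_two {s : Finset α} {j : α} (hj : j ∈ s) (G : Finset α → ℤ) :
    ∑ T ∈ (s.powerset.filter (fun T => j ∈ T)).filter (fun T => T.card = 2), G T =
      ∑ k ∈ s.erase j, G {j, k} := by
  symm
  apply sum_bij (fun k _ => ({j, k} : Finset α))
  · intro k hk
    rw [mem_filter, mem_filter, mem_powerset]
    refine ⟨⟨?_, by simp⟩, card_pair (ne_of_mem_erase hk).symm⟩
    intro i hi
    rw [mem_insert, mem_singleton] at hi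
    rcases hi with h | h
    · rw [h]; exact hj
    · rw [h]; exact mem_of_mem_erase hk
  · intro k hk k' hk' h
    have h1 : k ∈ ({j, k'} : Finset α) := by rw [← h]; simp
    rw [mem_insert, mem_singleton] at h1
    rcases h1 with h1 | h1
    · exact absurd h1 (ne_of_mem_erase hk)
    · exact h1
  · intro T hT
    rw [mem_filter, mem_filter, mem_powerset] at hT
    obtain ⟨⟨h1, h2⟩, h3⟩ := hT
    obtain ⟨x, y, hxy, rfl⟩ := card_eq_two.mp h3
    rw [mem_insert, mem_singleton] at h2
    rcases h2 with h2 | h2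
    · subst h2
      exact ⟨y, mem_erase.mpr ⟨hxy.symm, h1 (by simp)⟩, rfl⟩
    · subst h2
      exact ⟨x, mem_erase.mpr ⟨hxy, h1 (by simp)⟩, pair_comm _ _⟩
  · intro k _
    rfl

theorem sum_one {s : Finset α} {j : α} (hj : j ∈ s) (G : Finset α → ℤ) :
    ∑ T ∈ (s.powerset.filter (fun T => j ∈ T)).filter (fun T => T.card = 1), G T = G {j} := by
  have h1 : (s.powerset.filter (fun T => j ∈ T)).filter (fun T => T.card = 1) = {{j}} := by
    ext T
    rw [mem_filter, mem_filter, mem_powerset, mem_singleton, card_eq_one]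
    constructor
    · rintro ⟨⟨_, h2⟩, x, rfl⟩
      rw [mem_singleton] at h2
      rw [h2]
    · rintro rfl
      exact ⟨⟨singleton_subset_iff.mpr hj, mem_singleton_self j⟩, j, rfl⟩
  rw [h1, sum_singleton]

/-- the master inequality: total variance against influences and the levels one and two -/
theorem master {s : Finset α} {F : Finset (Finset α)} (hF : Sub s F) :
    12 * (F.card : ℤ) * (2 ^ s.card - F.card) ≤
      ∑ j ∈ s, (2 * 2 ^ s.card * ((dF F j).card : ℤ) + 8 * beta F j ^ 2 + 2 * A2 s F j) := by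
  set φ : Finset α → ℤ := fun T => fh (ind F) s T ^ 2 with hφ
  have h0 : ∀ T, 0 ≤ φ T := fun T => sq_nonneg _
  -- the left side
  have h1 : 12 * (F.card : ℤ) * (2 ^ s.card - F.card) = ∑ T ∈ s.powerset.erase ∅, 12 * φ T := by
    have h2 := parseval_F hF
    rw [← add_sum_erase _ _ (empty_mem_powerset s), fh_empty hF] at h2
    rw [← mul_sum]
    have h3 : ∑ T ∈ s.powerset.erase ∅, φ T = 2 ^ s.card * F.card - (F.card : ℤ) ^ 2 := by
      linarith
    rw [h3]
    ring
  have h2 : ∑ T ∈ s.powerset.erase ∅, 12 * φ T ≤ ∑ T ∈ s.powerset, (T.card : ℤ) * wt T * φ T := by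
    rw [← add_sum_erase _ (fun T => (T.card : ℤ) * wt T * φ T) (empty_mem_powerset s)]
    simp only [card_empty, Nat.cast_zero, zero_mul, zero_add]
    apply sum_le_sum
    intro T hT
    exact mul_le_mul_of_nonneg_right (wt_ge (ne_of_mem_erase hT)) (h0 T)
  -- double counting
  have h3 : ∑ T ∈ s.powerset, (T.card : ℤ) * wt T * φ T =
      ∑ j ∈ s, ∑ T ∈ s.powerset.filter (fun T => j ∈ T), wt T * φ T := by
    have h4 : ∀ T ∈ s.powerset, (T.card : ℤ) * wt T * φ T =
        ∑ j ∈ s, if j ∈ T then wt T * φ T else 0 := by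
      intro T hT
      rw [← sum_filter, sum_const, nsmul_eq_mul]
      have h5 : s.filter (fun j => j ∈ T) = T := by
        ext j
        rw [mem_filter]
        exact ⟨fun h => h.2, fun h => ⟨mem_powerset.mp hT h, h⟩⟩
      rw [h5]
      ring
    rw [sum_congr rfl h4, sum_comm]
    apply sum_congr rfl
    intro j _
    rw [sum_filter]
  rw [h1]
  refine h2.trans (h3.le.trans (sum_le_sum ?_))
  intro j hj
  have h4 : ∑ T ∈ s.powerset.filter (fun T => j ∈ T), wt T * φ T =
      4 * ∑ T ∈ s.powerset.filter (fun T => j ∈ T), φ T +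
      8 * ∑ T ∈ (s.powerset.filter (fun T => j ∈ T)).filter (fun T => T.card = 1), φ T +
      2 * ∑ T ∈ (s.powerset.filter (fun T => j ∈ T)).filter (fun T => T.card = 2), φ T := by
    rw [mul_sum, mul_sum, mul_sum, sum_filter (fun T : Finset α => T.card = 1),
      sum_filter (fun T : Finset α => T.card = 2), ← sum_add_distrib, ← sum_add_distrib]
    apply sum_congr rfl
    intro T _
    unfold wt
    by_cases g1 : T.card = 1 <;> by_cases g2 : T.card = 2
    · rw [if_pos g1, if_pos g1, if_pos g2, if_pos g2]; ring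
    · rw [if_pos g1, if_pos g1, if_neg g2, if_neg g2]; ring
    · rw [if_neg g1, if_neg g1, if_pos g2, if_pos g2]; ring
    · rw [if_neg g1, if_neg g1, if_neg g2, if_neg g2]; ring
  rw [h4, sum_one hj, sum_two hj]
  have h5 := influence hF hj
  have h6 : φ {j} = beta F j ^ 2 := by
    simp only [hφ, level_one hF]
    rfl
  have h7 : ∑ k ∈ s.erase j, φ {j, k} = A2 s F j := rfl
  rw [h6, h7]
  have h8 : ∑ T ∈ s.powerset.filter (fun T => j ∈ T), φ T =
      ∑ T ∈ s.powerset.filter (fun T => j ∈ T), fh (ind F) s T ^ 2 := rfl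
  rw [h8]
  linarith

/-! ### the boundary in one direction -/

theorem flip_of_notMem {j : α} {x : Finset α} (h : j ∉ x) : flip j x = insert j x := by
  ext i
  by_cases hi : i = j
  · rw [hi, mem_flip_self]
    simp [h]
  · rw [mem_flip_ne hi]
    simp [hi]

theorem flip_of_mem {j : α} {x : Finset α} (h : j ∈ x) : flip j x = x.erase j := by
  ext i
  by_cases hi : i = j
  · rw [hi, mem_flip_self]
    simp [h]
  · rw [mem_flip_ne hi]
    simp [hi]

theorem card_dF (F : Finset (Finset α)) (j : α) : (dF F j).card =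
    (half j false F \ half j true F).card + (half j true F \ half j false F).card := by
  rw [← card_filter_add_card_filter_not (s := dF F j) (fun x => j ∉ x)]
  congr 1
  · congr 1
    ext x
    rw [mem_filter, mem_dF, mem_sdiff, mem_half, mem_half]
    by_cases h : j ∈ x
    · simp [h]
    · rw [flip_of_notMem h]
      simp [h]
  · apply card_bij (fun x _ => x.erase j)
    · intro x hx
      rw [mem_filter, mem_dF, not_not] at hx
      obtain ⟨⟨h1, h2⟩, h3⟩ := hx
      rw [flip_of_mem h3] at h2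
      rw [mem_sdiff, mem_half, mem_half]
      simp [insert_erase h3, h1, h2]
    · intro x hx y hy hxy
      rw [mem_filter, not_not] at hx hy
      rw [← insert_erase hx.2, hxy, insert_erase hy.2]
    · intro y hy
      rw [mem_sdiff, mem_half, mem_half] at hy
      obtain ⟨⟨h1, h2⟩, h3⟩ := hy
      simp only [if_true] at h1
      refine ⟨insert j y, ?_, erase_insert h2⟩
      rw [mem_filter, mem_dF, not_not]
      refine ⟨⟨h1, ?_⟩, mem_insert_self j y⟩
      rw [flip_of_mem (mem_insert_self j y), erase_insert h2]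
      intro h4
      apply h3
      simp [h4, h2]

theorem card_dF_b (F : Finset (Finset α)) (j : α) (b : Bool) : ((dF F j).card : ℤ) =
    (half j b F).card - (half j (!b) F).card + 2 * (half j (!b) F \ half j b F).card := by
  have h1 := card_dF F j
  have h2 := card_inter_add_card_sdiff (half j false F) (half j true F)
  have h3 := card_inter_add_card_sdiff (half j true F) (half j false F)
  rw [inter_comm] at h3
  cases b
  · simp only [Bool.not_false]
    omega
  · simp only [Bool.not_true]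
    omega

theorem abs_beta_le (F : Finset (Finset α)) (j : α) : |beta F j| ≤ (dF F j).card := by
  have h1 := card_dF_b F j false
  have h2 := card_dF_b F j true
  simp only [Bool.not_false, Bool.not_true] at h1 h2
  unfold beta
  rw [abs_le]
  constructor
  · have : (0 : ℤ) ≤ (half j false F \ half j true F).card := by positivity
    linarith
  · have : (0 : ℤ) ≤ (half j true F \ half j false F).card := by positivity
    linarith

/-! ### final forms -/

/-- the grid condition on `κ`, with `G` points per unit `M` -/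
def Kap (G : ℕ) (V M κ : ℤ) : Prop :=
  ∀ i : ℕ, i < 2 * G → 8 * (G : ℤ) * M ≤ κ * (G + i) ∧
    6 * ((G : ℤ) + i) ^ 2 * (G + i + 1) * V * M ≤ G * (κ * (G + i) - 8 * G * M) ^ 2

/-- one direction -/
theorem dir_bound {G : ℕ} (hG : 0 < G) {V M κ b β A : ℤ} (hV : 0 ≤ V) (hb : 0 ≤ b) (hM : 0 ≤ M)
    (hA : 0 ≤ A) (hA2 : 2 * A ^ 2 ≤ 3 * V * b ^ 3) (hβ : |β| ≤ M) (hβb : |β| ≤ b)
    (hbM : b ≤ 3 * M) (hκ : Kap G V M κ) : 8 * β ^ 2 + 2 * A ≤ κ * b := by
  have hG' : (0 : ℤ) < G := by exact_mod_cast hG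
  have hβ2 : β ^ 2 ≤ M ^ 2 := sq_le_sq' (by linarith [neg_abs_le β]) (by linarith [le_abs_self β])
  rcases le_total b M with h | h
  · -- small `b`
    obtain ⟨k1, k2⟩ := hκ 0 (by omega)
    push_cast at k1 k2
    rw [add_zero] at k1 k2
    have hβ3 : β ^ 2 ≤ b ^ 2 :=
      sq_le_sq' (by linarith [neg_abs_le β]) (by linarith [le_abs_self β])
    have h1 : b ^ 2 ≤ M * b := by nlinarith
    have k3 : 0 ≤ κ - 8 * M := by
      have : G * (8 * M) ≤ G * κ := by linarith
      have := le_of_mul_le_mul_left this hG'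
      linarith
    have k4 : 6 * V * M ≤ (κ - 8 * M) ^ 2 := by
      have h0 : 0 ≤ V * M := by positivity
      have h2 : (G : ℤ) ^ 3 * (6 * V * M) ≤ (G : ℤ) ^ 3 * (κ - 8 * M) ^ 2 := by
        have h3 : 0 ≤ 6 * (G : ℤ) ^ 2 * (V * M) := by positivity
        calc (G : ℤ) ^ 3 * (6 * V * M) ≤ 6 * (G : ℤ) ^ 2 * (G + 1) * V * M := by linarith
          _ ≤ G * (κ * G - 8 * G * M) ^ 2 := k2
          _ = (G : ℤ) ^ 3 * (κ - 8 * M) ^ 2 := by ring
      exact le_of_mul_le_mul_left h2 (by positivity)
    have h2 : (2 * A) ^ 2 ≤ (b * (κ - 8 * M)) ^ 2 := by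
      have i1 : V * b ^ 3 ≤ V * M * b ^ 2 := by
        have : 0 ≤ V * b ^ 2 := by positivity
        nlinarith
      have i2 : b ^ 2 * (6 * V * M) ≤ b ^ 2 * (κ - 8 * M) ^ 2 :=
        mul_le_mul_of_nonneg_left k4 (sq_nonneg b)
      calc (2 * A) ^ 2 = 2 * (2 * A ^ 2) := by ring
        _ ≤ 2 * (3 * V * b ^ 3) := by linarith
        _ ≤ b ^ 2 * (6 * V * M) := by linarith
        _ ≤ b ^ 2 * (κ - 8 * M) ^ 2 := i2
        _ = (b * (κ - 8 * M)) ^ 2 := by ring
    have h3 : 2 * A ≤ b * (κ - 8 * M) :=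
      (pow_le_pow_iff_left₀ (by positivity) (mul_nonneg hb k3) (by norm_num)).mp h2
    nlinarith
  rcases hM.eq_or_lt with hM0 | hM0
  · -- `M = 0`
    rw [← hM0] at hbM hβ
    have hb0 : b = 0 := by linarith
    have hβ0 : β = 0 := by
      have := abs_nonneg β
      exact abs_eq_zero.mp (by linarith)
    rw [hb0] at hA2
    have hA0 : A ^ 2 ≤ 0 := by linarith
    have hA1 : A = 0 := by nlinarith
    rw [hb0, hβ0, hA1]
    norm_num
  · -- the piece of `b`
    have hex : ∃ i : ℕ, i < 2 * G ∧ ((G : ℤ) + i) * M ≤ G * b ∧ G * b ≤ ((G : ℤ) + i + 1) * M := by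
      obtain ⟨r, hr⟩ : ∃ r : ℤ, r = (G * b) / M := ⟨_, rfl⟩
      have h1 : r * M ≤ G * b := by
        rw [hr]
        exact Int.ediv_mul_le _ (by linarith)
      have h2 : G * b < (r + 1) * M := by
        rw [hr]
        have := Int.lt_ediv_add_one_mul_self (G * b) hM0
        exact this
      have h3 : (G : ℤ) ≤ r := by
        rw [hr]
        apply Int.le_ediv_of_mul_le hM0
        exact mul_le_mul_of_nonneg_left h hG'.le
      rcases lt_or_ge r (3 * G) with h4 | h4
      · refine ⟨(r - G).toNat, ?_, ?_, ?_⟩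
        · omega
        · have : (((r - G).toNat : ℕ) : ℤ) = r - G := Int.toNat_of_nonneg (by linarith)
          rw [this]
          linarith
        · have : (((r - G).toNat : ℕ) : ℤ) = r - G := Int.toNat_of_nonneg (by linarith)
          rw [this]
          linarith
      · refine ⟨2 * G - 1, by omega, ?_, ?_⟩
        · have h5 : ((2 * G - 1 : ℕ) : ℤ) = 2 * G - 1 := by
            have : 1 ≤ 2 * G := by omega
            push_cast [this]
            ring
          rw [h5]
          have h6 : 3 * (G : ℤ) * M ≤ r * M := mul_le_mul_of_nonneg_right h4 hM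
          nlinarith
        · have h5 : ((2 * G - 1 : ℕ) : ℤ) = 2 * G - 1 := by
            have : 1 ≤ 2 * G := by omega
            push_cast [this]
            ring
          rw [h5]
          have h6 : (G : ℤ) * b ≤ G * (3 * M) := mul_le_mul_of_nonneg_left hbM hG'.le
          linarith
    obtain ⟨i, hi, h1, h2⟩ := hex
    obtain ⟨k1, k2⟩ := hκ i hi
    obtain ⟨t, ht⟩ : ∃ t : ℤ, t = (G : ℤ) + i := ⟨_, rfl⟩
    have ht0 : 0 < t := by rw [ht]; positivity
    rw [← ht] at h1 h2 k1 k2
    have k3 : 0 ≤ t * κ - 8 * G * M := by linarith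
    have h3 : (2 * (t * A)) ^ 2 ≤ (b * (t * κ - 8 * G * M)) ^ 2 := by
      have i1 : G * (t ^ 2 * (6 * V * b ^ 3)) ≤ G * (b ^ 2 * (t * κ - 8 * G * M) ^ 2) := by
        have j1 : b ^ 2 * (6 * t ^ 2 * (t + 1) * V * M) ≤
            b ^ 2 * (G * (κ * t - 8 * G * M) ^ 2) :=
          mul_le_mul_of_nonneg_left k2 (sq_nonneg b)
        have j2 : (6 * t ^ 2 * V * b ^ 2) * (G * b) ≤ (6 * t ^ 2 * V * b ^ 2) * ((t + 1) * M) :=
          mul_le_mul_of_nonneg_left h2 (by positivity)
        calc G * (t ^ 2 * (6 * V * b ^ 3)) = (6 * t ^ 2 * V * b ^ 2) * (G * b) := by ring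
          _ ≤ (6 * t ^ 2 * V * b ^ 2) * ((t + 1) * M) := j2
          _ = b ^ 2 * (6 * t ^ 2 * (t + 1) * V * M) := by ring
          _ ≤ b ^ 2 * (G * (κ * t - 8 * G * M) ^ 2) := j1
          _ = G * (b ^ 2 * (t * κ - 8 * G * M) ^ 2) := by ring
      have i1' := le_of_mul_le_mul_left i1 hG'
      have i2 : t ^ 2 * (2 * (2 * A ^ 2)) ≤ t ^ 2 * (2 * (3 * V * b ^ 3)) :=
        mul_le_mul_of_nonneg_left (by linarith) (sq_nonneg t)
      calc (2 * (t * A)) ^ 2 = t ^ 2 * (2 * (2 * A ^ 2)) := by ring
        _ ≤ t ^ 2 * (2 * (3 * V * b ^ 3)) := i2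
        _ = t ^ 2 * (6 * V * b ^ 3) := by ring
        _ ≤ b ^ 2 * (t * κ - 8 * G * M) ^ 2 := i1'
        _ = (b * (t * κ - 8 * G * M)) ^ 2 := by ring
    have h4 : 2 * (t * A) ≤ b * (t * κ - 8 * G * M) :=
      (pow_le_pow_iff_left₀ (by positivity) (mul_nonneg hb k3) (by norm_num)).mp h3
    have h5 : t * β ^ 2 ≤ M * (G * b) := by
      have j1 : t * β ^ 2 ≤ t * M ^ 2 := mul_le_mul_of_nonneg_left hβ2 ht0.le
      have j2 : M * (t * M) ≤ M * (G * b) := mul_le_mul_of_nonneg_left h1 hM
      linarith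
    have h6 : t * (8 * β ^ 2 + 2 * A) ≤ t * (κ * b) := by linarith
    exact le_of_mul_le_mul_left h6 ht0

end Pool.Agent.EdgeIso.Walsh
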