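import Pool.Agent.Lib.MP_48c8f3_co.Bas
import Pool.Agent.Lib.MP_48c8f3_co.WFb
import Pool.Agent.Lib.MP_48c8f3_co.FT

set_option autoImplicit false
set_option linter.unusedSectionVars false

/-!
MP_48c8f3_co, Walsh functions on the cube, part C: the lower bound for the loss of a
counterexample.
-/

namespace Pool.Agent.EdgeIso.Walsh

open Finset Pool.Agent.EdgeIso.Frame

variable {α : Type*} [DecidableEq α]

theorem beta_le {s : Finset α} {F : Finset (Finset α)} {u : ℕ} (hu : MinHalf s F u) {j : α}
    (hj : j ∈ s) : |beta F j| ≤ F.card - 2 * u := by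
  have h1 := hu j hj false
  have h2 := hu j hj true
  have h3 := card_half_add j F
  unfold beta
  rw [abs_le]
  constructor <;> omega

/-- In a counterexample, the boundary in every direction is at most three times the difference of
the halves. -/
theorem counterexample_dF {s : Finset α} {F : Finset (Finset α)} (hF : Sub s F)
    (IH : ∀ (s' : Finset α) (F' : Finset (Finset α)), s'.card < s.card → Sub s' F' → TC 2 s' F')
    (hneg : ¬ TC 2 s F) {j : α} (hj : j ∈ s) : ((dF F j).card : ℤ) ≤ 3 * |beta F j| := by
  have key : ∀ b : Bool, (half j (!b) F).card ≤ (half j b F).card →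
      ((dF F j).card : ℤ) ≤ 3 * (((half j b F).card : ℤ) - (half j (!b) F).card) := by
    intro b hb
    have h1 := counterexample_dir hF IH hneg hj hb
    have h2 := card_dF_b F j b
    have h3 := dg_nonneg (half j b F).card (half j (!b) F).card
    have h4 := abs_nonneg (L2 (s.erase j) (half j b F) - L2 (s.erase j) (half j (!b) F))
    linarith
  rcases le_total (half j true F).card (half j false F).card with h | h
  · have h1 := key false (by simpa using h)
    have h2 : |beta F j| = (half j false F).card - (half j true F).card := by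
      unfold beta
      apply abs_of_nonneg
      have : ((half j true F).card : ℤ) ≤ (half j false F).card := by exact_mod_cast h
      linarith
    rw [h2]
    simpa using h1
  · have h1 := key true (by simpa using h)
    have h2 : |beta F j| = (half j true F).card - (half j false F).card := by
      unfold beta
      rw [abs_of_nonpos]
      · ring
      · have : ((half j false F).card : ℤ) ≤ (half j true F).card := by exact_mod_cast h
        linarith
    rw [h2]
    simpa using h1

/-- homogeneity of the condition on `κ` -/
theorem Kap.scale {G : ℕ} {V M κ : ℤ} (h : Kap G V M κ) {c : ℤ} (hc : 0 ≤ c) :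
    Kap G (c * V) (c * M) (c * κ) := by
  intro i hi
  obtain ⟨h1, h2⟩ := h i hi
  constructor
  · have := mul_le_mul_of_nonneg_left h1 hc
    linarith
  · have := mul_le_mul_of_nonneg_left h2 (sq_nonneg c)
    nlinarith

/-- decidable form -/
def kapB (G V M κ : ℕ) : Bool :=
  (List.range (2 * G)).all fun i => Nat.ble (8 * G * M) (κ * (G + i)) &&
    Nat.ble (6 * (G + i) ^ 2 * (G + i + 1) * V * M) (G * (κ * (G + i) - 8 * G * M) ^ 2)

theorem kap_of_kapB {G V M κ : ℕ} (h : kapB G V M κ = true) : Kap G V M κ := by
  intro i hi
  unfold kapB at h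
  have h1 := List.all_eq_true.mp h i (List.mem_range.mpr hi)
  rw [Bool.and_eq_true, Nat.ble_eq, Nat.ble_eq] at h1
  obtain ⟨h2, h3⟩ := h1
  constructor
  · exact_mod_cast h2
  · have h4 : ((6 * (G + i) ^ 2 * (G + i + 1) * V * M : ℕ) : ℤ) ≤
        ((G * (κ * (G + i) - 8 * G * M) ^ 2 : ℕ) : ℤ) := by exact_mod_cast h3
    rw [Nat.cast_mul G, Nat.cast_pow, Nat.cast_sub h2] at h4
    push_cast at h4 ⊢
    exact h4

end Pool.Agent.EdgeIso.Walsh
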