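import Pool.Agent.Lib.MP_48c8f3_co.Bas
import Pool.Agent.Lib.MP_48c8f3_co.WFc
import Pool.Agent.Lib.MP_48c8f3_co.LPb

set_option autoImplicit false
set_option linter.unusedSectionVars false

/-!
MP_48c8f3_co, Walsh functions on the cube, part D: the lower bound for the loss of a
counterexample as a linear inequality on a mesh interval, at all scales.
-/

namespace Pool.Agent.EdgeIso.Walsh

open Finset Pool.Agent.EdgeIso.Frame Pool.Agent.EdgeIso.LemmaP

variable {α : Type*} [DecidableEq α]

/-- the boundary of the initial segment of size `x` of the cube of dimension `n` -/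
def tk (n x : ℕ) : ℤ := n * x - 2 * g x

theorem tk_succ (n x : ℕ) : tk (n + 1) x = tk n x + x := by
  unfold tk
  push_cast
  ring

theorem tk_compl (n x : ℕ) (hx : x ≤ 2 ^ n) : tk n (2 ^ n - x) = tk n x := by
  have h := g_compl n x hx
  unfold tk
  have h3 : ((2 ^ n - x : ℕ) : ℤ) = 2 ^ n - x := by
    push_cast [hx]
    rfl
  rw [h3]
  linarith

theorem tk_even (n x : ℕ) : tk (n + 1) (2 * x) = 2 * tk n x := by
  unfold tk
  rw [g_even]
  push_cast
  ring

theorem tk_nonneg (n : ℕ) : ∀ x ≤ 2 ^ n, 0 ≤ tk n x := by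
  induction n with
  | zero =>
    intro x hx
    have : x = 0 ∨ x = 1 := by
      rw [pow_zero] at hx
      omega
    rcases this with h | h <;> subst h <;> simp [tk, g_zero, g_one]
  | succ n ih =>
    intro x hx
    rcases le_total x (2 ^ n) with h | h
    · rw [tk_succ]
      have := ih x h
      positivity
    · rw [← tk_compl (n + 1) x hx, tk_succ]
      have := ih (2 ^ (n + 1) - x) (by rw [pow_succ]; omega)
      positivity

/-- the maximum of the Takagi function is at most 2/3 -/
theorem tk_le (n : ℕ) : ∀ x ≤ 2 ^ n, 3 * tk n x ≤ 2 * 2 ^ n := by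
  induction n using Nat.strong_induction_on with
  | _ n ih =>
    -- it suffices to treat the lower half
    have key : ∀ x ≤ 2 ^ n, 2 * x ≤ 2 ^ n → 3 * tk n x ≤ 2 * 2 ^ n := by
      intro x hx hx2
      rcases n with _ | _ | n
      · have : x = 0 := by
          rw [pow_zero] at hx2
          omega
        subst this
        simp [tk, g_zero]
      · have : x = 0 ∨ x = 1 := by
          rw [zero_add, pow_one] at hx2
          omega
        rcases this with h | h <;> subst h <;> simp [tk, g_zero, g_one]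
      · have p1 : 2 ^ (n + 1 + 1) = 4 * 2 ^ n := by ring
        have p1z : (2 : ℤ) ^ (n + 1 + 1) = 4 * 2 ^ n := by ring
        have p2 : 2 ^ (n + 1) = 2 * 2 ^ n := by ring
        rw [p1] at hx2
        rw [p1z]
        rcases le_total x (2 ^ n) with h | h
        · have h1 := ih n (by omega) x h
          rw [tk_succ, tk_succ]
          have h2 : (x : ℤ) ≤ 2 ^ n := by exact_mod_cast h
          linarith
        · have h3 : x ≤ 2 ^ (n + 1) := by omega
          have h1 := ih n (by omega) (2 ^ (n + 1) - x) (by omega)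
          rw [tk_succ, ← tk_compl (n + 1) x h3, tk_succ]
          have h4 : ((2 ^ (n + 1) - x : ℕ) : ℤ) = 2 * 2 ^ n - x := by
            push_cast [h3]
            ring
          rw [h4]
          linarith
    intro x hx
    rcases le_total (2 * x) (2 ^ n) with h | h
    · exact key x hx h
    · rw [← tk_compl n x hx]
      exact key _ (Nat.sub_le _ _) (by omega)

/-- `g` on a mesh interval -/
theorem g_mesh (k : ℕ) : ∀ i r : ℕ, r ≤ 2 ^ k →
    (g (2 ^ k * i + r) : ℤ) = g (2 ^ k * i) + r * ((g (i + 1) : ℤ) - g i) + g r := by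
  induction k with
  | zero =>
    intro i r hr
    have : r = 0 ∨ r = 1 := by
      rw [pow_zero] at hr
      omega
    rcases this with h | h
    · subst h; simp [g_zero]
    · subst h; simp [g_one]
  | succ k ih =>
    intro i r hr
    have hp : 2 ^ (k + 1) = 2 * 2 ^ k := by ring
    rw [hp] at hr ⊢
    obtain ⟨r', h | h⟩ := Nat.even_or_odd' r
    · subst h
      have h1 := ih i r' (by omega)
      have e1 : 2 * 2 ^ k * i + 2 * r' = 2 * (2 ^ k * i + r') := by ring
      have e2 : 2 * 2 ^ k * i = 2 * (2 ^ k * i) := by ring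
      rw [e1, e2, g_even, g_even, g_even]
      push_cast at h1 ⊢
      rw [h1]
      ring
    · subst h
      have h1 := ih i r' (by omega)
      have h2 := ih i (r' + 1) (by omega)
      have e1 : 2 * 2 ^ k * i + (2 * r' + 1) = 2 * (2 ^ k * i + r') + 1 := by ring
      have e2 : 2 * 2 ^ k * i = 2 * (2 ^ k * i) := by ring
      have e3 : 2 ^ k * i + r' + 1 = 2 ^ k * i + (r' + 1) := by ring
      rw [e1, e2, g_even, g_odd, g_odd, e3]
      push_cast at h1 h2 ⊢
      rw [h1, h2]
      ring

theorem tk_pow_mul (k n i : ℕ) : tk (n + k) (2 ^ k * i) = 2 ^ k * tk n i := by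
  induction k with
  | zero => simp
  | succ k ih =>
    have e1 : 2 ^ (k + 1) * i = 2 * (2 ^ k * i) := by ring
    rw [e1, ← Nat.add_assoc, tk_even, ih, pow_succ]
    ring

/-- exact formula on a mesh interval -/
theorem tk_mesh (k n i r : ℕ) (hr : r ≤ 2 ^ k) :
    tk (n + k) (2 ^ k * i + r) = 2 ^ k * tk n i + r * (tk n (i + 1) - tk n i) + tk k r := by
  have h1 := g_mesh k i r hr
  rw [← tk_pow_mul k n i]
  unfold tk
  rw [h1]
  push_cast
  ring

/-- upper bound of `n x - 2 g x` on a mesh interval -/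
theorem tk_upper {k n i x : ℕ} (h1 : 2 ^ k * i ≤ x) (h2 : x ≤ 2 ^ k * (i + 1)) :
    3 * tk (n + k) x ≤ 3 * (2 ^ k * tk n i + ((x : ℤ) - 2 ^ k * i) * (tk n (i + 1) - tk n i)) +
      2 * 2 ^ k := by
  obtain ⟨r, rfl⟩ : ∃ r, x = 2 ^ k * i + r := ⟨x - 2 ^ k * i, by omega⟩
  have hr : r ≤ 2 ^ k := by
    rw [Nat.mul_add, Nat.mul_one] at h2
    omega
  have h3 := tk_le k r hr
  rw [tk_mesh k n i r hr]
  push_cast
  have e1 : (2 ^ k * (i : ℤ) + r - 2 ^ k * i) = r := by ring
  rw [e1]
  linarith

/-- lower bound on a mesh interval -/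
theorem tk_lower {k n i x : ℕ} (h1 : 2 ^ k * i ≤ x) (h2 : x ≤ 2 ^ k * (i + 1)) :
    2 ^ k * tk n i + ((x : ℤ) - 2 ^ k * i) * (tk n (i + 1) - tk n i) ≤ tk (n + k) x := by
  obtain ⟨r, rfl⟩ : ∃ r, x = 2 ^ k * i + r := ⟨x - 2 ^ k * i, by omega⟩
  have hr : r ≤ 2 ^ k := by
    rw [Nat.mul_add, Nat.mul_one] at h2
    omega
  have h3 := tk_nonneg k r hr
  rw [tk_mesh k n i r hr]
  push_cast
  have e1 : (2 ^ k * (i : ℤ) + r - 2 ^ k * i) = r := by ring
  rw [e1]
  linarith

end Pool.Agent.EdgeIso.Walsh
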