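import Pool.Agent.Lib.MP_48c8f3_co.Bas
import Pool.Agent.Lib.MP_48c8f3_co.FP
import Pool.Agent.Lib.MP_48c8f3_co.FN
import Pool.Agent.Lib.MP_48c8f3_co.WFd

set_option autoImplicit false
set_option linter.unusedSectionVars false

/-!
MP_48c8f3_co: rows of tables from the Fourier bound, at all scales (also below the mesh).
-/

namespace Pool.Agent.EdgeIso.Walsh

open Finset Pool.Agent.EdgeIso.Frame Pool.Agent.EdgeIso.LemmaP Pool.Agent.EdgeIso.Chk

variable {α : Type*} [DecidableEq α]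

/-- the boundary of the initial segment, between two lattice points, for all dimensions `N`: the
lattice has `2 ^ γ` intervals, all numbers are multiplied by `2 ^ γ`. -/
theorem tk_interp {γ N i x : ℕ} (h1 : 2 ^ N * i ≤ 2 ^ γ * x) (h2 : 2 ^ γ * x ≤ 2 ^ N * (i + 1)) :
    3 * (2 ^ γ * tk N x) ≤ 3 * ((2 ^ N * ((i : ℤ) + 1) - 2 ^ γ * x) * tk γ i +
      (2 ^ γ * (x : ℤ) - 2 ^ N * i) * tk γ (i + 1)) + 2 * 2 ^ N := by
  rcases le_total γ N with h | h
  · obtain ⟨k, rfl⟩ := Nat.exists_eq_add_of_le h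
    have hg : 0 < 2 ^ γ := Nat.pow_pos (by omega)
    rw [pow_add, Nat.mul_assoc] at h1 h2
    have h1' := Nat.le_of_mul_le_mul_left h1 hg
    have h2' := Nat.le_of_mul_le_mul_left h2 hg
    have h3 := tk_upper (n := γ) h1' h2'
    have h4 := mul_le_mul_of_nonneg_left h3 (by positivity : (0 : ℤ) ≤ 2 ^ γ)
    rw [pow_add]
    linarith
  · -- the point is a lattice point
    obtain ⟨k, rfl⟩ := Nat.exists_eq_add_of_le h
    have hN : 0 < 2 ^ N := Nat.pow_pos (by omega)
    rw [pow_add, Nat.mul_assoc] at h1 h2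
    have h1' := Nat.le_of_mul_le_mul_left h1 hN
    have h2' := Nat.le_of_mul_le_mul_left h2 hN
    have h3 := tk_pow_mul k N x
    have hp : (0 : ℤ) ≤ 2 ^ N := by positivity
    have hcase : 2 ^ k * x = i ∨ 2 ^ k * x = i + 1 := by omega
    rcases hcase with hc | hc
    · rw [hc] at h3
      have hz : (2 : ℤ) ^ k * x = i := by exact_mod_cast hc
      have e1 : (2 : ℤ) ^ (N + k) * x = 2 ^ N * i := by rw [pow_add, mul_assoc, hz]
      rw [e1, h3, pow_add]
      linarith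
    · rw [hc] at h3
      have hz : (2 : ℤ) ^ k * x = i + 1 := by exact_mod_cast hc
      have e1 : (2 : ℤ) ^ (N + k) * x = 2 ^ N * (i + 1) := by rw [pow_add, mul_assoc, hz]
      rw [e1, h3, pow_add]
      linarith

/-- a quadratic form in Bernstein form -/
theorem bern {a b f0 f1 f2 : ℤ} (ha : 0 ≤ a) (hb : 0 ≤ b) (h0 : 0 ≤ f0) (h1 : 0 ≤ f1)
    (h2 : 0 ≤ f2) : 0 ≤ a ^ 2 * f0 + a * b * f1 + b ^ 2 * f2 := by positivity

/-! ### the boolean check -/

/-- `tk γ i` from the table of `g`, shifted by `0` (it is nonnegative) -/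
def tkt (GT γ i : ℕ) : ℕ := γ * i - 2 * gt GT i

theorem tkt_eq {GT M γ i : ℕ} (h : gtOK GT M = true) (hi : i < 2 * M) (hγ : i ≤ 2 ^ γ) :
    ((tkt GT γ i : ℕ) : ℤ) = tk γ i := by
  have h1 := gt_eq h i hi
  have h2 := tk_nonneg γ i hγ
  unfold tk at h2
  unfold tkt tk
  rw [h1]
  have h3 : 2 * g i ≤ γ * i := by
    have : ((2 * g i : ℕ) : ℤ) ≤ ((γ * i : ℕ) : ℤ) := by
      push_cast
      linarith
    exact_mod_cast this
  push_cast [h3]
  ring

end Pool.Agent.EdgeIso.Walsh
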