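import Pool.Agent.Lib.MP_48c8f3_co.Bas
import Pool.Agent.Lib.MP_48c8f3_co.FT

set_option autoImplicit false
set_option linter.unusedSectionVars false

/-!
MP_48c8f3_co, framework for size recursions, part U: the pair constraint at a node (the two
directions with the smallest halves of `W`).
-/

namespace Pool.Agent.EdgeIso.Frame

open Finset

variable {α : Type*} [DecidableEq α]

/-- the halves in the direction `i` have at least `u` members, all other halves at least `v` -/
def HalfB (s : Finset α) (X : Finset (Finset α)) (i : α) (u v : ℕ) : Prop :=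
  (∀ e : Bool, u ≤ (half i e X).card) ∧ ∀ k ∈ s, k ≠ i → ∀ e : Bool, v ≤ (half k e X).card

theorem HalfB.minHalf {s : Finset α} {X : Finset (Finset α)} {i : α} {u v : ℕ}
    (h : HalfB s X i u v) (huv : u ≤ v) : MinHalf s X u := by
  intro k hk e
  by_cases hki : k = i
  · rw [hki]; exact h.1 e
  · exact huv.trans (h.2 k hk hki e)

/-- the smallest and the second smallest half -/
theorem exists_min2 (s : Finset α) (hs : 2 ≤ s.card) (X : Finset (Finset α)) :
    ∃ i ∈ s, ∃ j ∈ s, j ≠ i ∧ ∃ b c : Bool,
      (half i (!b) X).card ≤ (half i b X).card ∧ (half j (!c) X).card ≤ (half j c X).card ∧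
      (half i (!b) X).card ≤ (half j (!c) X).card ∧
      HalfB s X i (half i (!b) X).card (half j (!c) X).card := by
  have hne : s.Nonempty := by
    rw [← card_pos]
    omega
  obtain ⟨i, hi, b, h1, h2⟩ := exists_min s hne X
  have hne2 : (s.erase i).Nonempty := by
    rw [← card_pos, card_erase_of_mem hi]
    omega
  obtain ⟨j, hj, c, h3, h4⟩ := exists_min (s.erase i) hne2 X
  refine ⟨i, hi, j, mem_of_mem_erase hj, ne_of_mem_erase hj, b, c, h1, h3,
    h2 j (mem_of_mem_erase hj) _, ?_, ?_⟩
  · intro e
    rcases Bool.eq_or_eq_not e b with h | h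
    · rw [h]; exact h1
    · rw [h]
  · intro k hk hki e
    exact h4 k (mem_erase.mpr ⟨hki, hk⟩) e

/-- The pair constraint at a node: `x`, `y`, `φ` count the members of `K`, `W`, `W \ K` in the cells
of the two directions in which `W` has its smallest halves; `false` is the side of the majority of
`W`; `v1 ≤ v2` are the sizes of the two minorities; `u` is at most the size of every half of
`K`. -/
structure Pair4 (p q f u v1 v2 : ℕ) (LK LW : ℤ) (cap : ℕ) where
  x : Bool → Bool → ℕ
  y : Bool → Bool → ℕ
  φ : Bool → Bool → ℕ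
  sum_x : sum4 x = p
  sum_y : sum4 y = q
  sum_φ : sum4 φ = f
  φ_le : ∀ β γ, φ β γ ≤ y β γ
  y_le : ∀ β γ, y β γ ≤ x β γ + φ β γ
  x_cap : ∀ β γ, x β γ ≤ cap
  min_i : y true false + y true true = v1
  min_j : y false true + y true true = v2
  side_i : ∀ β, q ≤ (x β false + x β true) + (y β false + y β true)
  side_j : ∀ γ, q ≤ (x false γ + x true γ) + (y false γ + y true γ)
  u_i : ∀ β, u ≤ x β false + x β true
  u_j : ∀ γ, u ≤ x false γ + x true γ
  lossK : 2 * ((g (sum4 x) : ℤ) - g4 x - adj4 x) ≤ LK
  lossW : 2 * ((g (sum4 y) : ℤ) - g4 y - adj4 y) ≤ LW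

/-- the consequences which are used most: the far sides of `K`, the near corner and the far corner -/
theorem Pair4.far {p q f u v1 v2 : ℕ} {LK LW : ℤ} {cap : ℕ}
    (h : Pair4 p q f u v1 v2 LK LW cap) :
    q ≤ h.x true false + h.x true true + v1 ∧ q ≤ h.x false true + h.x true true + v2 ∧
      q ≤ h.x false false + v1 + v2 + f ∧
      3 * q ≤ p + h.x true true + 2 * v1 + 2 * v2 + f ∧
      p ≤ h.x false false + h.x true true + h.x true false + h.x false true := by
  have e1 := h.side_i true
  have e2 := h.side_j true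
  have e3 := h.min_i
  have e4 := h.min_j
  have e5 := h.sum_y
  have e6 := h.sum_φ
  have e7 := h.y_le false false
  have e8 := h.sum_x
  unfold sum4 at e5 e6 e8
  have e9 := h.side_i false
  have e10 := h.side_j false
  refine ⟨by omega, by omega, by omega, ?_, by omega⟩
  omega

/-- the pair constraint at a node -/
theorem Node.pair {s : Finset α} {F : Finset (Finset α)} {a : α} {b₀ : Bool}
    (h : Node s F a b₀) {r : ℕ} (hr : (s.erase a).card = r + 2) {u : ℕ}
    (hu : MinHalf (s.erase a) (half a b₀ F) u) :
    ∃ (i : α) (v1 v2 : ℕ), i ∈ s.erase a ∧ v1 ≤ v2 ∧ 2 * v2 ≤ (half a (!b₀) F).card ∧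
      HalfB (s.erase a) (half a (!b₀) F) i v1 v2 ∧
      Nonempty (Pair4 (half a b₀ F).card (half a (!b₀) F).card
        (half a (!b₀) F \ half a b₀ F).card u v1 v2 (L2 (s.erase a) (half a b₀ F))
        (L2 (s.erase a) (half a (!b₀) F)) (2 ^ r)) := by
  have hKs := h.sub_K
  have hWs := h.sub_W
  have hside := h.minh
  set K := half a b₀ F with hK
  set W := half a (!b₀) F with hW
  set s' := s.erase a with hs'
  obtain ⟨i, hi, j, hjs', hji, b, c, m1, m2, m3, m4⟩ := exists_min2 s' (by omega) W
  have hj : j ∈ s'.erase i := mem_erase.mpr ⟨hji, hjs'⟩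
  have c1 : (s'.erase i).card = r + 1 := by
    rw [card_erase_of_mem hi, hr]
    omega
  have c2 : ((s'.erase i).erase j).card = r := by
    rw [card_erase_of_mem hj, c1]
    omega
  have his : i ∈ s := mem_of_mem_erase hi
  have hia : i ≠ a := ne_of_mem_erase hi
  have hjs : j ∈ s := mem_of_mem_erase hjs'
  have hja : j ≠ a := ne_of_mem_erase hjs'
  have hFi : ∀ e : Bool, W.card ≤ (half i e K).card + (half i e W).card := by
    intro e
    have t1 := hside i his e
    have t2 := card_half_two hia b₀ e F
    rw [← hK, ← hW] at t2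
    omega
  have hFj : ∀ e : Bool, W.card ≤ (half j e K).card + (half j e W).card := by
    intro e
    have t1 := hside j hjs e
    have t2 := card_half_two hja b₀ e F
    rw [← hK, ← hW] at t2
    omega
  refine ⟨i, (half i (!b) W).card, (half j (!c) W).card, hi, m3, ?_, m4,
    ⟨⟨Frame.cells4 i j b c K, Frame.cells4 i j b c W, Frame.cells4 i j b c (W \ K),
    sum4_cells i j b c K, sum4_cells i j b c W, sum4_cells i j b c (W \ K),
    cells4_sdiff_le i j b c K W, cells4_le_add i j b c K W, ?_, ?_, ?_, ?_, ?_, ?_, ?_, ?_, ?_⟩⟩⟩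
  · have := card_half_add' j c W
    omega
  · intro β γ
    have t := ((hKs.half i (xor β b)).half j (xor γ c)).card_le
    rw [c2] at t
    exact t
  · have := side4_i i j b c W true
    rw [Bool.true_xor] at this
    exact this
  · have := side4_j hji b c W true
    rw [Bool.true_xor] at this
    exact this
  · intro β
    rw [side4_i, side4_i]
    exact hFi _
  · intro γ
    rw [side4_j hji, side4_j hji]
    exact hFj _
  · intro β
    rw [side4_i]
    exact hu i hi _
  · intro γ
    rw [side4_j hji]
    exact hu j hjs' _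
  · rw [sum4_cells]
    exact L2_cells4 hi hj b c hKs
  · rw [sum4_cells]
    exact L2_cells4 hi hj b c hWs

end Pool.Agent.EdgeIso.Frame
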