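import Pool.Agent.Lib.MP_48c8f3_co.Bas
import Pool.Agent.Lib.MP_48c8f3_co.FU

set_option autoImplicit false
set_option linter.unusedSectionVars false

/-!
MP_48c8f3_co: the linear form of the pair constraint at a node.
-/

namespace Pool.Agent.EdgeIso.Frame

open Finset

variable {α : Type*} [DecidableEq α]

/-- four cells: twice the smaller one of the two differences is a lower bound for the loss -/
theorem min_diff_le (x : Bool → Bool → ℕ) :
    min ((x true true : ℤ) - x false true) ((x false false : ℤ) - x true false) ≤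
      (g (sum4 x) : ℤ) - g4 x - adj4 x := by
  rw [merge4]
  have h1 := dg_nonneg (x false false + x false true) (x true false + x true true)
  have h2 := dg_nonneg (x false false) (x false true)
  have h3 := dg_nonneg (x true false) (x true true)
  push_cast
  omega

/-- The linear pair constraint. -/
theorem Pair4.lin {p q f u v1 v2 : ℕ} {LK LW : ℤ} {cap : ℕ}
    (h : Pair4 p q f u v1 v2 LK LW cap) (hv : 2 * q ≤ p + 2 * v1 + f) :
    2 * (5 * (q : ℤ) - 2 * p - 4 * v1 - 3 * v2 - 3 * f) ≤ LK := by
  have h1 := min_diff_le h.x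
  have h2 := h.lossK
  obtain ⟨f1, f2, f3, f4, f5⟩ := h.far
  have f6 := h.sum_x
  unfold sum4 at f6
  have key : 5 * (q : ℤ) - 2 * p - 4 * v1 - 3 * v2 - 3 * f ≤
      min ((h.x true true : ℤ) - h.x false true) ((h.x false false : ℤ) - h.x true false) := by
    rw [le_min_iff]
    constructor <;> omega
  linarith

/-- The linear pair constraint at a node, with the two directions in which the minority half has
its smallest halves. -/
theorem Node.pair_lin {s : Finset α} {F : Finset (Finset α)} {a : α} {b₀ : Bool}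
    (h : Node s F a b₀) {r : ℕ} (hr : (s.erase a).card = r + 2) {u : ℕ}
    (hu : MinHalf (s.erase a) (half a b₀ F) u) :
    ∃ (i : α) (v1 v2 : ℕ), i ∈ s.erase a ∧ v1 ≤ v2 ∧ 2 * v2 ≤ (half a (!b₀) F).card ∧
      HalfB (s.erase a) (half a (!b₀) F) i v1 v2 ∧
      Nonempty (Pair4 (half a b₀ F).card (half a (!b₀) F).card
        (half a (!b₀) F \ half a b₀ F).card u v1 v2 (L2 (s.erase a) (half a b₀ F))
        (L2 (s.erase a) (half a (!b₀) F)) (2 ^ r)) ∧
      2 * (half a (!b₀) F).card ≤ (half a b₀ F).card + 2 * v1 +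
        (half a (!b₀) F \ half a b₀ F).card ∧
      2 * (5 * ((half a (!b₀) F).card : ℤ) - 2 * (half a b₀ F).card - 4 * v1 - 3 * v2 -
        3 * (half a (!b₀) F \ half a b₀ F).card) ≤ L2 (s.erase a) (half a b₀ F) := by
  obtain ⟨i, v1, v2, hi, h12, h2q, hB, ⟨P⟩⟩ := h.pair hr hu
  have hv : 2 * (half a (!b₀) F).card ≤ (half a b₀ F).card + 2 * v1 +
      (half a (!b₀) F \ half a b₀ F).card := by
    have e1 := P.side_i true
    have e2 := P.side_i false
    have e3 := P.min_i
    have e4 := P.sum_x
    have e5 := P.sum_y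
    have e6 := P.sum_φ
    have e7 := P.y_le true false
    have e8 := P.y_le true true
    have e9 := P.y_le false false
    have e10 := P.y_le false true
    unfold sum4 at e4 e5 e6
    omega
  exact ⟨i, v1, v2, hi, h12, h2q, hB, ⟨P⟩, hv, P.lin hv⟩

end Pool.Agent.EdgeIso.Frame
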