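import Pool.Agent.Lib.MP_48c8f3_co.Bas
import Pool.Agent.Lib.MP_48c8f3_co.FR

set_option autoImplicit false
set_option linter.unusedSectionVars false

/-!
MP_48c8f3_co, framework for size recursions, part W: moves with a variable distance, and the
induction with gains.
-/

namespace Pool.Agent.EdgeIso.Frame

open Finset

variable {α : Type*} [DecidableEq α]

/-- `d` is at least twice the distance of `X` to the best copy of its size -/
def Dst (s : Finset α) (X : Finset (Finset α)) (d : ℤ) : Prop := NZ s X X.card d

theorem TC.dst {C : ℤ} {s : Finset α} {X : Finset (Finset α)} (h : TC C s X) :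
    Dst s X (C * L2 s X) := h

namespace Node

variable {s : Finset α} {F : Finset (Finset α)} {a : α} {b : Bool}

end Node

/-! ### the complement -/

/-! ### the induction with gains -/

end Pool.Agent.EdgeIso.Frame
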