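import Pool.Agent.Lib.MP_48c8f3_co.Bas
import Pool.Agent.Lib.MP_48c8f3_co.KWa

set_option autoImplicit false
set_option linter.unusedSectionVars false

/-!
MP_48c8f3_co: full flags of nested copies of the initial segments, and targets whose size is an
integer divided by a power of two (for composed strategies, without loss from rounding).
-/

namespace Pool.Agent.EdgeIso.Frame

open Finset

variable {α : Type*} [DecidableEq α]

/-! ### flags -/

/-- `Flag s G`: the sets `G t` are nested copies of the initial segments of all sizes `t`; beyond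
the size of the cube `G t` is the cube. -/
inductive Flag : Finset α → (ℕ → Finset (Finset α)) → Prop
  | nil (G : ℕ → Finset (Finset α)) (h0 : G 0 = ∅) (h1 : ∀ t, 0 < t → G t = {∅}) : Flag ∅ G
  | cons (s : Finset α) (a : α) (b : Bool) (G H P : ℕ → Finset (Finset α)) (ha : a ∉ s)
      (hG : Flag s G) (hH : Flag s H) (hP : ∀ t, P t = joinb a b (G t) (H (t - 2 ^ s.card))) :
      Flag (insert a s) P

theorem Flag.sub {s : Finset α} {G : ℕ → Finset (Finset α)} (h : Flag s G) : ∀ t, Sub s (G t) := by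
  induction h with
  | nil G h0 h1 =>
    intro t
    rcases Nat.eq_zero_or_pos t with h | h
    · subst h; rw [h0]; exact sub_empty _
    · rw [h1 t h]
      intro x hx
      rw [mem_singleton] at hx
      rw [hx]
      exact mem_powerset.mpr (Subset.refl _)
  | cons s a b G H P ha hG hH hP ih1 ih2 =>
    intro t
    rw [hP]
    exact Sub.joinb b (ih1 t) (ih2 _)

theorem Flag.zero {s : Finset α} {G : ℕ → Finset (Finset α)} (h : Flag s G) : G 0 = ∅ := by
  induction h with
  | nil G h0 h1 => exact h0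
  | cons s a b G H P ha hG hH hP ih1 ih2 =>
    rw [hP, ih1, Nat.zero_sub, ih2, joinb_empty]

theorem Flag.full {s : Finset α} {G : ℕ → Finset (Finset α)} (h : Flag s G) :
    ∀ t, 2 ^ s.card ≤ t → G t = s.powerset := by
  induction h with
  | nil G h0 h1 =>
    intro t ht
    rw [card_empty, pow_zero] at ht
    rw [h1 t (by omega)]
    simp
  | cons s a b G H P ha hG hH hP ih1 ih2 =>
    intro t ht
    rw [card_insert_of_notMem ha, pow_succ] at ht
    rw [hP, ih1 t (by omega), ih2 _ (by omega), powerset_insert_joinb ha b]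

theorem Flag.copy {s : Finset α} {G : ℕ → Finset (Finset α)} (h : Flag s G) :
    ∀ t, t ≤ 2 ^ s.card → Copy s t (G t) := by
  induction h with
  | nil G h0 h1 =>
    intro t ht
    rcases Nat.eq_zero_or_pos t with h | h
    · subst h; rw [h0]; exact Copy.empty _
    · have h2 : t = 2 ^ (∅ : Finset α).card := by simp at ht ⊢; omega
      rw [h1 t h, h2]
      have := Copy.full (∅ : Finset α)
      simpa using this
  | cons s a b G H P ha hG hH hP ih1 ih2 =>
    intro t ht
    rw [card_insert_of_notMem ha, pow_succ] at ht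
    rw [hP]
    rcases le_total t (2 ^ s.card) with h | h
    · rw [Nat.sub_eq_zero_of_le h, hH.zero]
      exact Copy.low s a b t _ ha (ih1 t h)
    · rw [hG.full t h]
      have h2 := Copy.high s a b _ _ ha (ih2 (t - 2 ^ s.card) (by omega))
      rwa [Nat.add_sub_cancel' h] at h2

theorem Flag.mono {s : Finset α} {G : ℕ → Finset (Finset α)} (h : Flag s G) :
    ∀ t t', t ≤ t' → G t ⊆ G t' := by
  induction h with
  | nil G h0 h1 =>
    intro t t' htt
    rcases Nat.eq_zero_or_pos t with h | h
    · subst h; rw [h0]; exact empty_subset _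
    · rw [h1 t h, h1 t' (by omega)]
  | cons s a b G H P ha hG hH hP ih1 ih2 =>
    intro t t' htt
    rw [hP, hP]
    exact joinb_mono ha b (ih1 _ _ htt) (ih2 _ _ (by omega)) (hG.sub _) (hH.sub _)

/-- doubling in a new direction -/
theorem Flag.double {s : Finset α} {G : ℕ → Finset (Finset α)} (h : Flag s G) :
    ∀ (c : α) (d : Bool) (Q : ℕ → Finset (Finset α)), c ∉ s →
      (∀ t, Q t = joinb c d (G ((t + 1) / 2)) (G (t / 2))) → Flag (insert c s) Q := by
  induction h with
  | nil G h0 h1 =>
    intro c d Q hc hQ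
    have hG : Flag ∅ G := Flag.nil G h0 h1
    refine Flag.cons ∅ c d G G Q hc hG hG ?_
    intro t
    rw [hQ]
    have hp : 2 ^ (∅ : Finset α).card = 1 := by simp
    rw [hp]
    rcases Nat.eq_zero_or_pos t with h | h
    · subst h; rfl
    · rcases Nat.eq_or_lt_of_le h with h' | h'
      · rw [← h']
      · rw [h1 ((t + 1) / 2) (by omega), h1 (t / 2) (by omega), h1 t h, h1 (t - 1) (by omega)]
  | cons s a b G H P ha hG hH hP ih1 ih2 =>
    intro c d Q hc hQ
    rw [mem_insert, not_or] at hc
    have hcs : c ∉ s := hc.2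
    have hac : a ≠ c := fun h => hc.1 h.symm
    have ha' : a ∉ insert c s := by
      rw [mem_insert, not_or]
      exact ⟨hac, ha⟩
    have f1 := ih1 c d (fun t => joinb c d (G ((t + 1) / 2)) (G (t / 2))) hcs (fun t => rfl)
    have f2 := ih2 c d (fun t => joinb c d (H ((t + 1) / 2)) (H (t / 2))) hcs (fun t => rfl)
    rw [insert_comm c a s]
    refine Flag.cons (insert c s) a b _ _ Q ha' f1 f2 ?_
    intro t
    rw [hQ, hP, hP, joinb_joinb hac ha hcs b d (hG.sub _) (hH.sub _) (hG.sub _) (hH.sub _),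
      card_insert_of_notMem hcs, pow_succ]
    have e1 : (t - 2 ^ s.card * 2 + 1) / 2 = (t + 1) / 2 - 2 ^ s.card := by omega
    have e2 : (t - 2 ^ s.card * 2) / 2 = t / 2 - 2 ^ s.card := by omega
    rw [e1, e2]

theorem Flag.exists (s : Finset α) : ∃ G : ℕ → Finset (Finset α), Flag s G := by
  induction s using Finset.induction_on with
  | empty => exact ⟨fun t => if t = 0 then ∅ else {∅}, Flag.nil _ (by simp) (fun t ht => by
      simp [Nat.pos_iff_ne_zero.mp ht])⟩
  | insert a s ha ih =>
    obtain ⟨G, hG⟩ := ih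
    exact ⟨_, Flag.cons s a true G G _ ha hG hG (fun t => rfl)⟩

/-- every copy is a member of a flag -/
theorem Copy.flag {s : Finset α} {t : ℕ} {K : Finset (Finset α)} (h : Copy s t K) :
    ∃ G, Flag s G ∧ G t = K := by
  induction h with
  | empty s =>
    obtain ⟨G, hG⟩ := Flag.exists s
    exact ⟨G, hG, hG.zero⟩
  | full s =>
    obtain ⟨G, hG⟩ := Flag.exists s
    exact ⟨G, hG, hG.full _ le_rfl⟩
  | low s a b t K ha h ih =>
    obtain ⟨G, hG, h1⟩ := ih
    refine ⟨_, Flag.cons s a b G G _ ha hG hG (fun t => rfl), ?_⟩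
    rw [h1, Nat.sub_eq_zero_of_le h.le, hG.zero]
  | high s a b t K ha h ih =>
    obtain ⟨G, hG, h1⟩ := ih
    refine ⟨_, Flag.cons s a b G G _ ha hG hG (fun t => rfl), ?_⟩
    rw [Nat.add_sub_cancel_left, h1, hG.full _ (Nat.le_add_right _ _)]

theorem Flag.sdiff_mono {s : Finset α} {G : ℕ → Finset (Finset α)} (h : Flag s G)
    (X : Finset (Finset α)) {t t' : ℕ} (htt : t ≤ t') : (X \ G t').card ≤ (X \ G t).card :=
  Finset.card_le_card (sdiff_subset_sdiff (Subset.refl _) (h.mono _ _ htt))

theorem Flag.card_le {s : Finset α} {G : ℕ → Finset (Finset α)} (h : Flag s G) (t : ℕ) :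
    (G t).card = min t (2 ^ s.card) := by
  rcases le_total t (2 ^ s.card) with h1 | h1
  · rw [(h.copy t h1).card, min_eq_left h1]
  · rw [h.full t h1, card_powerset, min_eq_right h1]

theorem Flag.sdiff_lip {s : Finset α} {G : ℕ → Finset (Finset α)} (h : Flag s G)
    (X : Finset (Finset α)) {t t' : ℕ} (htt : t ≤ t') :
    (X \ G t).card ≤ (X \ G t').card + (t' - t) := by
  refine card_sdiff_le_add.trans (Nat.add_le_add le_rfl ?_)
  rw [card_sdiff_of_subset (h.mono _ _ htt), h.card_le, h.card_le]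
  omega

/-! ### sums over a block -/

theorem sum_div (n : ℕ) (hn : 0 < n) (t : ℕ) : ∑ i ∈ range n, (t + i) / n = t := by
  induction t with
  | zero =>
    apply sum_eq_zero
    intro i hi
    rw [mem_range] at hi
    rw [Nat.zero_add]
    exact Nat.div_eq_of_lt hi
  | succ t ih =>
    have h1 : ∑ i ∈ range n, (t + 1 + i) / n + t / n = ∑ i ∈ range (n + 1), (t + i) / n := by
      rw [sum_range_succ']
      congr 1
      apply sum_congr rfl
      intro i _
      rw [add_right_comm, add_assoc]
    rw [sum_range_succ, ih] at h1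
    have h2 : (t + n) / n = t / n + 1 := Nat.add_div_right t hn
    omega

/-- the sum of a function over the targets `⌊(t + i) / 2 ^ (j + 1)⌋` -/
theorem sum_split (j : ℕ) (φ : ℕ → ℕ) (t : ℕ) :
    ∑ i ∈ range (2 ^ (j + 1)), φ ((t + i) / 2 ^ (j + 1)) =
      ∑ i ∈ range (2 ^ j), (φ (((t + i) / 2 ^ j + 1) / 2) + φ ((t + i) / 2 ^ j / 2)) := by
  have hp : 2 ^ (j + 1) = 2 ^ j + 2 ^ j := by rw [pow_succ]; ring
  rw [sum_add_distrib, hp, sum_range_add, add_comm, ← hp]
  congr 1
  · apply sum_congr rfl
    intro i _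
    congr 1
    have h1 : (t + i) / 2 ^ j + 1 = (t + (2 ^ j + i)) / 2 ^ j := by
      rw [← add_assoc, add_right_comm, Nat.add_div_right _ (Nat.pow_pos (by omega))]
    rw [h1, Nat.div_div_eq_div_mul, pow_succ]
  · apply sum_congr rfl
    intro i _
    congr 1
    rw [Nat.div_div_eq_div_mul, pow_succ]

/-! ### targets of size `t / 2 ^ j` -/

/-- the total distance to the members `⌊(t + i) / 2 ^ j⌋`, `i < 2 ^ j`, of a flag -/
def qd (X : Finset (Finset α)) (G : ℕ → Finset (Finset α)) (j t : ℕ) : ℕ :=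
  ∑ i ∈ range (2 ^ j), (X \ G ((t + i) / 2 ^ j)).card

/-- `2 ^ j` times the distance to a copy of size `t / 2 ^ j` is at most `c / 2` -/
def NQ (j : ℕ) (s : Finset α) (X : Finset (Finset α)) (t : ℕ) (c : ℤ) : Prop :=
  ∃ G, Flag s G ∧ 2 * (qd X G j t : ℤ) ≤ c

theorem NQ.nz {s : Finset α} {X : Finset (Finset α)} {t : ℕ} {c : ℤ} (h : NQ 0 s X t c)
    (ht : t ≤ 2 ^ s.card) : NZ s X t c := by
  obtain ⟨G, h1, h2⟩ := h
  refine ⟨(X \ G t).card, ⟨G t, h1.copy t ht, le_rfl⟩, ?_⟩
  unfold qd at h2
  simpa using h2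

theorem NQ.triv (j : ℕ) (s : Finset α) (X : Finset (Finset α)) (t : ℕ) :
    NQ j s X t (2 * (2 ^ j * X.card)) := by
  obtain ⟨G, hG⟩ := Flag.exists s
  refine ⟨G, hG, ?_⟩
  have h1 : qd X G j t ≤ 2 ^ j * X.card := by
    unfold qd
    refine (sum_le_card_nsmul _ _ X.card (fun i _ => card_le_card sdiff_subset)).trans ?_
    rw [card_range, smul_eq_mul]
  have h2 : ((qd X G j t : ℕ) : ℤ) ≤ ((2 ^ j * X.card : ℕ) : ℤ) := by exact_mod_cast h1
  push_cast at h2
  linarith

/-- the whole cube -/
theorem NQ.cube (j : ℕ) {s : Finset α} {X : Finset (Finset α)} (hX : Sub s X) {t : ℕ}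
    (ht : 2 ^ j * 2 ^ s.card ≤ t) : NQ j s X t 0 := by
  obtain ⟨G, hG⟩ := Flag.exists s
  refine ⟨G, hG, ?_⟩
  have h1 : qd X G j t = 0 := by
    unfold qd
    apply sum_eq_zero
    intro i _
    have h2 : 2 ^ s.card ≤ (t + i) / 2 ^ j := by
      rw [Nat.le_div_iff_mul_le (Nat.pow_pos (by omega)), mul_comm]
      omega
    rw [hG.full _ h2, sdiff_eq_empty_iff_subset.mpr hX, card_empty]
  rw [h1]
  simp

theorem cardF_sdiff_cons {s : Finset α} {a : α} (b : Bool) {F : Finset (Finset α)}
    {A B : Finset (Finset α)} (hA : Sub (s.erase a) A) (hB : Sub (s.erase a) B) :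
    (F \ joinb a b A B).card = (half a b F \ A).card + (half a (!b) F \ B).card := by
  rw [← card_half_add' a b, half_sdiff, half_sdiff, half_joinb (notMem_erase a s) b hA hB,
    half_joinb_not (notMem_erase a s) b hA hB]

/-- product -/
theorem NQ.prod {j : ℕ} {s : Finset α} {a : α} (ha : a ∈ s) (b : Bool) {F : Finset (Finset α)}
    {t : ℕ} {c : ℤ} (h : NQ (j + 1) (s.erase a) (half a b F) t c) :
    NQ j s F t (c + 2 * (2 ^ j * (half a (!b) F \ half a b F).card)) := by
  obtain ⟨G, hG, h1⟩ := h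
  have hD := hG.double a b (fun t => joinb a b (G ((t + 1) / 2)) (G (t / 2))) (notMem_erase a s)
    (fun t => rfl)
  rw [insert_erase ha] at hD
  refine ⟨_, hD, ?_⟩
  have h2 : qd F (fun t => joinb a b (G ((t + 1) / 2)) (G (t / 2))) j t ≤
      qd (half a b F) G (j + 1) t + 2 ^ j * (half a (!b) F \ half a b F).card := by
    unfold qd
    rw [sum_split j (fun t => (half a b F \ G t).card) t]
    have h3 : 2 ^ j * (half a (!b) F \ half a b F).card =
        ∑ i ∈ range (2 ^ j), (half a (!b) F \ half a b F).card := by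
      rw [sum_const, card_range, smul_eq_mul]
    rw [h3, ← sum_add_distrib]
    apply sum_le_sum
    intro i _
    simp only
    rw [cardF_sdiff_cons b (hG.sub _) (hG.sub _)]
    have h4 := card_sdiff_le_add (F := half a (!b) F) (G := half a b F)
      (H := G ((t + i) / 2 ^ j / 2))
    omega
  have h3 : ((qd F (fun t => joinb a b (G ((t + 1) / 2)) (G (t / 2))) j t : ℕ) : ℤ) ≤
      ((qd (half a b F) G (j + 1) t + 2 ^ j * (half a (!b) F \ half a b F).card : ℕ) : ℤ) := by
    exact_mod_cast h2
  push_cast at h3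
  linarith

/-- deletion -/
theorem NQ.del {j : ℕ} {s : Finset α} {a : α} (ha : a ∈ s) (b : Bool) {F : Finset (Finset α)}
    {t : ℕ} {c : ℤ} (h : NQ j (s.erase a) (half a b F) t c) :
    NQ j s F t (c + 2 * (2 ^ j * (half a (!b) F).card)) := by
  obtain ⟨G, hG, h1⟩ := h
  have hD := Flag.cons (s.erase a) a b G G _ (notMem_erase a s) hG hG (fun t => rfl)
  rw [insert_erase ha] at hD
  refine ⟨_, hD, ?_⟩
  have h2 : qd F (fun t => joinb a b (G t) (G (t - 2 ^ (s.erase a).card))) j t ≤
      qd (half a b F) G j t + 2 ^ j * (half a (!b) F).card := by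
    unfold qd
    have h3 : 2 ^ j * (half a (!b) F).card = ∑ i ∈ range (2 ^ j), (half a (!b) F).card := by
      rw [sum_const, card_range, smul_eq_mul]
    rw [h3, ← sum_add_distrib]
    apply sum_le_sum
    intro i _
    simp only
    rw [cardF_sdiff_cons b (hG.sub _) (hG.sub _)]
    exact Nat.add_le_add le_rfl (card_le_card sdiff_subset)
  have h3 : ((qd F (fun t => joinb a b (G t) (G (t - 2 ^ (s.erase a).card))) j t : ℕ) : ℤ) ≤
      ((qd (half a b F) G j t + 2 ^ j * (half a (!b) F).card : ℕ) : ℤ) := by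
    exact_mod_cast h2
  push_cast at h3
  linarith

/-- the side `b` is full -/
theorem NQ.up {j : ℕ} {s : Finset α} {a : α} (ha : a ∈ s) (b : Bool) {F : Finset (Finset α)}
    (hF : Sub s F) {t : ℕ} {c : ℤ} (h : NQ j (s.erase a) (half a (!b) F) t c) :
    NQ j s F (2 ^ j * 2 ^ (s.erase a).card + t) c := by
  obtain ⟨G, hG, h1⟩ := h
  have hD := Flag.cons (s.erase a) a b G G _ (notMem_erase a s) hG hG (fun t => rfl)
  rw [insert_erase ha] at hD
  refine ⟨_, hD, ?_⟩
  have h2 : qd F (fun t => joinb a b (G t) (G (t - 2 ^ (s.erase a).card))) j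
      (2 ^ j * 2 ^ (s.erase a).card + t) = qd (half a (!b) F) G j t := by
    unfold qd
    apply sum_congr rfl
    intro i _
    simp only
    have h4 : (2 ^ j * 2 ^ (s.erase a).card + t + i) / 2 ^ j =
        2 ^ (s.erase a).card + (t + i) / 2 ^ j := by
      rw [add_assoc, Nat.mul_add_div (Nat.pow_pos (by omega))]
    rw [h4, cardF_sdiff_cons b (hG.sub _) (hG.sub _), hG.full _ (Nat.le_add_right _ _),
      sdiff_eq_empty_iff_subset.mpr (hF.half a b), card_empty, Nat.zero_add,
      Nat.add_sub_cancel_left]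
  rw [h2]
  exact h1

/-- a leaf: any target -/
theorem Dst.nq {s : Finset α} {X : Finset (Finset α)} {d : ℤ} (h : Dst s X d) (j t : ℕ) :
    NQ j s X t (2 ^ j * d + 2 * max 0 (2 ^ j * (X.card : ℤ) - t)) := by
  obtain ⟨e, ⟨K, hK, h1⟩, h2⟩ := h
  obtain ⟨G, hG, h3⟩ := hK.flag
  refine ⟨G, hG, ?_⟩
  have hp : 0 < 2 ^ j := Nat.pow_pos (by omega)
  rw [← h3] at h1
  rcases le_total (2 ^ j * X.card) t with h4 | h4
  · have h5 : qd X G j t ≤ 2 ^ j * e := by
      unfold qd
      refine (sum_le_card_nsmul _ _ e (fun i _ => ?_)).trans (by rw [card_range, smul_eq_mul])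
      refine (hG.sdiff_mono X ?_).trans h1
      rw [Nat.le_div_iff_mul_le hp, mul_comm]
      omega
    have h6 : ((qd X G j t : ℕ) : ℤ) ≤ ((2 ^ j * e : ℕ) : ℤ) := by exact_mod_cast h5
    push_cast at h6
    have h7 := le_max_left 0 (2 ^ j * (X.card : ℤ) - t)
    have h8 : (2 ^ j : ℤ) * (2 * (e : ℤ)) ≤ 2 ^ j * d :=
      mul_le_mul_of_nonneg_left h2 (by positivity)
    linarith
  · have h5 : qd X G j t + t ≤ 2 ^ j * e + 2 ^ j * X.card := by
      unfold qd
      have h9 : ∑ i ∈ range (2 ^ j), ((X \ G ((t + i) / 2 ^ j)).card + (t + i) / 2 ^ j) ≤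
          (range (2 ^ j)).card • (e + X.card) := by
        apply sum_le_card_nsmul
        intro i hi
        rw [mem_range] at hi
        have h10 : (t + i) / 2 ^ j ≤ X.card := by
          have : (t + i) / 2 ^ j < X.card + 1 := by
            rw [Nat.div_lt_iff_lt_mul hp]
            nlinarith
          omega
        have h11 := hG.sdiff_lip X h10
        omega
      rw [sum_add_distrib, sum_div _ hp, card_range, smul_eq_mul, mul_add] at h9
      exact h9
    have h6 : ((qd X G j t + t : ℕ) : ℤ) ≤ ((2 ^ j * e + 2 ^ j * X.card : ℕ) : ℤ) := by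
      exact_mod_cast h5
    push_cast at h6
    have h7 := le_max_right 0 (2 ^ j * (X.card : ℤ) - t)
    have h8 : (2 ^ j : ℤ) * (2 * (e : ℤ)) ≤ 2 ^ j * d :=
      mul_le_mul_of_nonneg_left h2 (by positivity)
    linarith

theorem TC.nq {C : ℤ} {s : Finset α} {X : Finset (Finset α)} (h : TC C s X) (j t : ℕ) :
    NQ j s X t (2 ^ j * (C * L2 s X) + 2 * max 0 (2 ^ j * (X.card : ℤ) - t)) :=
  h.dst.nq j t

/-- the average -/
theorem NQ.avg (j : ℕ) (s : Finset α) : ∀ (X : Finset (Finset α)) (t : ℕ), Sub s X →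
    t ≤ 2 ^ j * 2 ^ s.card →
    ∃ c, NQ j s X t c ∧ (2 : ℤ) ^ s.card * c ≤ 2 * X.card * (2 ^ j * 2 ^ s.card - t) := by
  induction s using Finset.induction_on with
  | empty =>
    intro X t hX ht
    rw [card_empty, pow_zero, mul_one] at ht
    obtain ⟨G, hG⟩ := Flag.exists (∅ : Finset α)
    refine ⟨2 * (qd X G j t : ℤ), ⟨G, hG, le_rfl⟩, ?_⟩
    have hp : 0 < 2 ^ j := Nat.pow_pos (by omega)
    have h1 : qd X G j t + X.card * t ≤ X.card * 2 ^ j := by
      unfold qd
      have h9 : ∑ i ∈ range (2 ^ j), ((X \ G ((t + i) / 2 ^ j)).card +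
          X.card * ((t + i) / 2 ^ j)) ≤ (range (2 ^ j)).card • X.card := by
        apply sum_le_card_nsmul
        intro i hi
        rw [mem_range] at hi
        have h10 : (t + i) / 2 ^ j ≤ 1 := by
          have : (t + i) / 2 ^ j < 2 := by
            rw [Nat.div_lt_iff_lt_mul hp]
            omega
          omega
        rcases Nat.eq_zero_or_pos ((t + i) / 2 ^ j) with h | h
        · rw [h, hG.zero]
          simp
        · have h2 : (t + i) / 2 ^ j = 1 := by omega
          rw [h2, hG.full 1 (by simp), sdiff_eq_empty_iff_subset.mpr hX]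
          simp
      rw [sum_add_distrib, ← mul_sum, sum_div _ hp, card_range, smul_eq_mul] at h9
      rw [mul_comm X.card (2 ^ j)]
      exact h9
    have h2 : ((qd X G j t + X.card * t : ℕ) : ℤ) ≤ ((X.card * 2 ^ j : ℕ) : ℤ) := by
      exact_mod_cast h1
    push_cast at h2
    rw [card_empty, pow_zero]
    linarith
  | insert a s ha ih =>
    intro F t hF ht
    have hp : 2 ^ (insert a s).card = 2 * 2 ^ s.card := by
      rw [card_insert_of_notMem ha, pow_succ]; ring
    have hpz : (2 : ℤ) ^ (insert a s).card = 2 * 2 ^ s.card := by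
      rw [card_insert_of_notMem ha, pow_succ]; ring
    rw [hp] at ht
    rw [hpz]
    have he : (insert a s).erase a = s := erase_insert ha
    have hm : a ∈ insert a s := mem_insert_self a s
    have hsum := card_half_add a F
    have hAs : Sub s (half a false F) := by
      have := hF.half a false
      rwa [he] at this
    have hBs : Sub s (half a true F) := by
      have := hF.half a true
      rwa [he] at this
    have hcz : ((half a false F).card : ℤ) + (half a true F).card = F.card := by
      exact_mod_cast hsum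
    obtain ⟨V, hV⟩ : ∃ V, V = 2 ^ s.card := ⟨_, rfl⟩
    have hVz : (2 : ℤ) ^ s.card = (V : ℤ) := by rw [hV]; push_cast; rfl
    have hVpos : (0 : ℤ) < V := by rw [← hVz]; positivity
    obtain ⟨J, hJ⟩ : ∃ J, J = 2 ^ j := ⟨_, rfl⟩
    have hJz : (2 : ℤ) ^ j = (J : ℤ) := by rw [hJ]; push_cast; rfl
    rcases le_total t (2 ^ j * 2 ^ s.card) with h | h
    · obtain ⟨c0, n0, e0⟩ := ih _ t hAs h
      obtain ⟨c1, n1, e1⟩ := ih _ t hBs h
      have m0 : NQ j (insert a s) F t (c0 + 2 * (2 ^ j * (half a true F).card)) := by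
        have n0' : NQ j ((insert a s).erase a) (half a false F) t c0 := by rw [he]; exact n0
        have := n0'.del hm false
        simpa using this
      have m1 : NQ j (insert a s) F t (c1 + 2 * (2 ^ j * (half a false F).card)) := by
        have n1' : NQ j ((insert a s).erase a) (half a true F) t c1 := by rw [he]; exact n1
        have := n1'.del hm true
        simpa using this
      rw [hVz, hJz] at *
      generalize ((half a false F).card : ℤ) = A at *
      generalize ((half a true F).card : ℤ) = B at *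
      rw [← hcz]
      rcases le_total (c0 + 2 * ((J : ℤ) * B)) (c1 + 2 * ((J : ℤ) * A)) with hle | hle
      · refine ⟨_, m0, ?_⟩
        have := mul_le_mul_of_nonneg_left hle hVpos.le
        linarith
      · refine ⟨_, m1, ?_⟩
        have := mul_le_mul_of_nonneg_left hle hVpos.le
        linarith
    · obtain ⟨u, rfl⟩ : ∃ u, t = 2 ^ j * 2 ^ s.card + u := ⟨t - 2 ^ j * 2 ^ s.card, by omega⟩
      have hu : u ≤ 2 ^ j * 2 ^ s.card := by
        have : 2 ^ j * (2 * 2 ^ s.card) = 2 ^ j * 2 ^ s.card + 2 ^ j * 2 ^ s.card := by ring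
        omega
      obtain ⟨c0, n0, e0⟩ := ih _ u hAs hu
      obtain ⟨c1, n1, e1⟩ := ih _ u hBs hu
      have m0 : NQ j (insert a s) F (2 ^ j * 2 ^ s.card + u) c0 := by
        have n0' : NQ j ((insert a s).erase a) (half a (!true) F) u c0 := by rw [he]; exact n0
        have := n0'.up hm true hF
        rwa [he] at this
      have m1 : NQ j (insert a s) F (2 ^ j * 2 ^ s.card + u) c1 := by
        have n1' : NQ j ((insert a s).erase a) (half a (!false) F) u c1 := by rw [he]; exact n1
        have := n1'.up hm false hF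
        rwa [he] at this
      have hut : ((2 ^ j * 2 ^ s.card + u : ℕ) : ℤ) = (J : ℤ) * V + u := by
        push_cast
        rw [hVz, hJz]
      rw [hut]
      rw [hVz, hJz] at e0 e1 ⊢
      generalize ((half a false F).card : ℤ) = A at *
      generalize ((half a true F).card : ℤ) = B at *
      rw [← hcz]
      rcases le_total c0 c1 with hle | hle
      · refine ⟨_, m0, ?_⟩
        have := mul_le_mul_of_nonneg_left hle hVpos.le
        linarith
      · refine ⟨_, m1, ?_⟩
        have := mul_le_mul_of_nonneg_left hle hVpos.le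
        linarith

end Pool.Agent.EdgeIso.Frame
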