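import Pool.Agent.Lib.MP_48c8f3_co.Bas
import Pool.Agent.Lib.MP_48c8f3_co.KXa

set_option autoImplicit false
set_option linter.unusedSectionVars false

/-!
MP_48c8f3_co: distance variables.  `DQ j s X t` is twice `2 ^ j` times the distance of `X` to the
copies of size `t / 2 ^ j`; every strategy is an inequality between two such numbers.
-/

namespace Pool.Agent.EdgeIso.Frame

open Finset

variable {α : Type*} [DecidableEq α]

theorem NQ.nonneg {j : ℕ} {s : Finset α} {X : Finset (Finset α)} {t : ℕ} {c : ℤ}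
    (h : NQ j s X t c) : 0 ≤ c := by
  obtain ⟨G, _, h2⟩ := h
  exact le_trans (by positivity) h2

theorem exists_DQ (j : ℕ) (s : Finset α) (X : Finset (Finset α)) (t : ℕ) :
    ∃ n : ℕ, NQ j s X t (n : ℤ) :=
  ⟨2 * (2 ^ j * X.card), by
    have := NQ.triv j s X t
    push_cast
    exact this⟩

open Classical in
/-- twice `2 ^ j` times the distance of `X` to the copies of size `t / 2 ^ j` -/
noncomputable def DQ (j : ℕ) (s : Finset α) (X : Finset (Finset α)) (t : ℕ) : ℕ :=
  Nat.find (exists_DQ j s X t)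

theorem DQ_spec (j : ℕ) (s : Finset α) (X : Finset (Finset α)) (t : ℕ) :
    NQ j s X t (DQ j s X t : ℤ) := by
  classical
  unfold DQ
  exact Nat.find_spec (exists_DQ j s X t)

theorem NQ.le {j : ℕ} {s : Finset α} {X : Finset (Finset α)} {t : ℕ} {c : ℤ}
    (h : NQ j s X t c) : (DQ j s X t : ℤ) ≤ c := by
  classical
  have h0 := h.nonneg
  obtain ⟨n, rfl⟩ := Int.eq_ofNat_of_zero_le h0
  have : DQ j s X t ≤ n := by
    unfold DQ
    exact Nat.find_min' (exists_DQ j s X t) h
  exact_mod_cast this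

/-! ### monotonicity in the target -/

theorem qd_mono {s : Finset α} {G : ℕ → Finset (Finset α)} (hG : Flag s G)
    (X : Finset (Finset α)) (j : ℕ) {t t' : ℕ} (h : t ≤ t') : qd X G j t' ≤ qd X G j t := by
  unfold qd
  apply sum_le_sum
  intro i _
  exact hG.sdiff_mono X (Nat.div_le_div_right (by omega))

theorem qd_lip {s : Finset α} {G : ℕ → Finset (Finset α)} (hG : Flag s G)
    (X : Finset (Finset α)) (j : ℕ) {t t' : ℕ} (h : t ≤ t') :
    qd X G j t ≤ qd X G j t' + (t' - t) := by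
  have hp : 0 < 2 ^ j := Nat.pow_pos (by omega)
  have h1 : qd X G j t + t ≤ qd X G j t' + t' := by
    unfold qd
    have e0 : ∑ i ∈ range (2 ^ j), ((X \ G ((t + i) / 2 ^ j)).card + (t + i) / 2 ^ j) ≤
        ∑ i ∈ range (2 ^ j), ((X \ G ((t' + i) / 2 ^ j)).card + (t' + i) / 2 ^ j) := by
      apply sum_le_sum
      intro i _
      have h2 : (t + i) / 2 ^ j ≤ (t' + i) / 2 ^ j := Nat.div_le_div_right (by omega)
      have h3 := hG.sdiff_lip X h2
      omega
    rw [sum_add_distrib, sum_add_distrib, sum_div (2 ^ j) hp t, sum_div (2 ^ j) hp t'] at e0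
    exact e0
  omega

theorem NQ.extend {j : ℕ} {s : Finset α} {X : Finset (Finset α)} {t t' : ℕ} {c : ℤ}
    (h : NQ j s X t c) (htt : t ≤ t') : NQ j s X t' c := by
  obtain ⟨G, h1, h2⟩ := h
  refine ⟨G, h1, le_trans ?_ h2⟩
  have := qd_mono h1 X j htt
  have h3 : (qd X G j t' : ℤ) ≤ qd X G j t := by exact_mod_cast this
  linarith

theorem NQ.shrink {j : ℕ} {s : Finset α} {X : Finset (Finset α)} {t t' : ℕ} {c : ℤ}
    (h : NQ j s X t' c) (htt : t ≤ t') : NQ j s X t (c + 2 * ((t' : ℤ) - t)) := by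
  obtain ⟨G, h1, h2⟩ := h
  refine ⟨G, h1, ?_⟩
  have := qd_lip h1 X j htt
  have h3 : (qd X G j t : ℤ) + t ≤ qd X G j t' + t' := by
    have : qd X G j t + t ≤ qd X G j t' + t' := by omega
    exact_mod_cast this
  linarith

theorem DQ_anti (j : ℕ) (s : Finset α) (X : Finset (Finset α)) {t t' : ℕ} (h : t ≤ t') :
    (DQ j s X t' : ℤ) ≤ DQ j s X t := ((DQ_spec j s X t).extend h).le

theorem DQ_lip (j : ℕ) (s : Finset α) (X : Finset (Finset α)) {t t' : ℕ} (h : t ≤ t') :
    (DQ j s X t : ℤ) ≤ DQ j s X t' + 2 * ((t' : ℤ) - t) := ((DQ_spec j s X t').shrink h).le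

/-! ### doubling of the scale -/

theorem qd_succ {s : Finset α} {G : ℕ → Finset (Finset α)} (_hG : Flag s G)
    (X : Finset (Finset α)) (j t : ℕ) : qd X G (j + 1) (2 * t) = 2 * qd X G j t := by
  unfold qd
  rw [pow_succ, mul_comm (2 ^ j) 2]
  have h1 : ∀ n : ℕ, ∑ i ∈ range (2 * n), (X \ G ((2 * t + i) / (2 * 2 ^ j))).card =
      ∑ i ∈ range n, 2 * (X \ G ((t + i) / 2 ^ j)).card := by
    intro n
    induction n with
    | zero => simp
    | succ n ih =>
      rw [show 2 * (n + 1) = 2 * n + 1 + 1 by ring, sum_range_succ, sum_range_succ, ih,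
        sum_range_succ]
      have e1 : (2 * t + 2 * n) / (2 * 2 ^ j) = (t + n) / 2 ^ j := by
        rw [← Nat.mul_add, Nat.mul_div_mul_left _ _ (by omega)]
      have e2 : (2 * t + (2 * n + 1)) / (2 * 2 ^ j) = (t + n) / 2 ^ j := by
        rw [← Nat.div_div_eq_div_mul]
        congr 1
        omega
      rw [e1, e2]
      ring
  rw [h1, mul_sum]

/-- the target `2 t / 2 ^ (j + 1)` is the target `t / 2 ^ j` -/
theorem DQ_succ (j : ℕ) (s : Finset α) (X : Finset (Finset α)) (t : ℕ) :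
    (DQ (j + 1) s X (2 * t) : ℤ) ≤ 2 * DQ j s X t := by
  obtain ⟨G, h1, h2⟩ := DQ_spec j s X t
  apply NQ.le
  refine ⟨G, h1, ?_⟩
  rw [qd_succ h1]
  push_cast
  linarith

/-- interpolation: the scaled distance at `t / 2 ^ (j + 1)` is the mean of its values at
`t₁ / 2 ^ j` and `t₂ / 2 ^ j` if these are in the same unit interval; the general estimate -/
theorem DQ_le_card (j : ℕ) (s : Finset α) (X : Finset (Finset α)) (t : ℕ) :
    (DQ j s X t : ℤ) ≤ 2 * (2 ^ j * X.card) := (NQ.triv j s X t).le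

theorem DQ_cube (j : ℕ) {s : Finset α} {X : Finset (Finset α)} (hX : Sub s X) {t : ℕ}
    (ht : 2 ^ j * 2 ^ s.card ≤ t) : (DQ j s X t : ℤ) ≤ 0 := (NQ.cube j hX ht).le

theorem DQ_avg (j : ℕ) {s : Finset α} {X : Finset (Finset α)} (hX : Sub s X) {t : ℕ}
    (ht : t ≤ 2 ^ j * 2 ^ s.card) :
    (2 : ℤ) ^ s.card * DQ j s X t ≤ 2 * X.card * (2 ^ j * 2 ^ s.card - t) := by
  obtain ⟨c, h1, h2⟩ := NQ.avg j s X t hX ht
  have h3 := h1.le
  have h4 : (2 : ℤ) ^ s.card * DQ j s X t ≤ 2 ^ s.card * c :=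
    mul_le_mul_of_nonneg_left h3 (by positivity)
  linarith

theorem Dst.DQ_le {s : Finset α} {X : Finset (Finset α)} {d : ℤ} (h : Dst s X d) (j t : ℕ) :
    (DQ j s X t : ℤ) ≤ 2 ^ j * d + 2 * max 0 (2 ^ j * (X.card : ℤ) - t) := (h.nq j t).le

namespace Node

variable {s : Finset α} {F : Finset (Finset α)} {a : α} {b : Bool}

theorem DQ_del (h : Node s F a b) (j t : ℕ) :
    (DQ j s F t : ℤ) ≤ DQ j (s.erase a) (half a b F) t + 2 * (2 ^ j * (half a (!b) F).card) :=
  ((DQ_spec j (s.erase a) (half a b F) t).del h.mem b).le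

theorem DQ_delW (h : Node s F a b) (j t : ℕ) :
    (DQ j s F t : ℤ) ≤ DQ j (s.erase a) (half a (!b) F) t + 2 * (2 ^ j * (half a b F).card) := by
  have h1 := (DQ_spec j (s.erase a) (half a (!b) F) t).del h.mem (!b)
  rw [Bool.not_not] at h1
  exact h1.le

/-- the majority half is full -/
theorem DQ_up (h : Node s F a b) (j t : ℕ) :
    (DQ j s F (2 ^ j * 2 ^ (s.erase a).card + t) : ℤ) ≤
      DQ j (s.erase a) (half a (!b) F) t :=
  ((DQ_spec j (s.erase a) (half a (!b) F) t).up h.mem b h.sub).le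

/-- the minority half is full -/
theorem DQ_upW (h : Node s F a b) (j t : ℕ) :
    (DQ j s F (2 ^ j * 2 ^ (s.erase a).card + t) : ℤ) ≤
      DQ j (s.erase a) (half a b F) t := by
  have h1 : NQ j (s.erase a) (half a (!(!b)) F) t (DQ j (s.erase a) (half a b F) t) := by
    rw [Bool.not_not]
    exact DQ_spec j (s.erase a) (half a b F) t
  exact (h1.up h.mem (!b) h.sub).le

theorem DQ_prodK (h : Node s F a b) (j t : ℕ) :
    (DQ j s F t : ℤ) ≤ DQ (j + 1) (s.erase a) (half a b F) t +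
      2 * (2 ^ j * (half a (!b) F \ half a b F).card) :=
  ((DQ_spec (j + 1) (s.erase a) (half a b F) t).prod h.mem b).le

theorem DQ_prodW (h : Node s F a b) (j t : ℕ) :
    (DQ j s F t : ℤ) ≤ DQ (j + 1) (s.erase a) (half a (!b) F) t +
      2 * (2 ^ j * (((half a b F).card : ℤ) - (half a (!b) F).card +
        (half a (!b) F \ half a b F).card)) := by
  have h1 := (DQ_spec (j + 1) (s.erase a) (half a (!b) F) t).prod h.mem (!b)
  rw [Bool.not_not] at h1
  have h2 := h1.le
  rw [card_sdiff_swap] at h2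
  exact h2

end Node

/-- what has to be shown for `F`, in terms of the distance variable -/
theorem DQ_TC {C : ℤ} {s : Finset α} {F : Finset (Finset α)} (hF : Sub s F)
    (h : (DQ 0 s F F.card : ℤ) ≤ C * L2 s F) : TC C s F :=
  NZ.mono ((DQ_spec 0 s F F.card).nz hF.card_le) h

theorem DQ_dst {s : Finset α} {X : Finset (Finset α)} (hX : Sub s X) :
    Dst s X (DQ 0 s X X.card) := (DQ_spec 0 s X X.card).nz hX.card_le

end Pool.Agent.EdgeIso.Frame
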