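import Pool.Agent.Lib.MP_48c8f3_co.Bas
import Pool.Agent.Lib.MP_48c8f3_co.LPb
import Pool.Agent.Lib.MP_48c8f3_co.FG
import Pool.Agent.Lib.MP_48c8f3_co.FE

set_option autoImplicit false
set_option linter.unusedSectionVars false

/-!
MP_48c8f3_co, Lemma P, part C: the lemma at all scales, and its consequence for families with a
quarter of the cube which is at least three quarters full.
-/

namespace Pool.Agent.EdgeIso.LemmaP

open Pool.Agent.EdgeIso.Frame Pool.Agent.EdgeIso.Cell

theorem fl_le (u x : ℕ) : u * (x / u) ≤ x := Nat.mul_div_le x u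

theorem lt_fl (u x : ℕ) (hu : 0 < u) : x < u * (x / u) + u := by
  have h1 := Nat.div_add_mod x u
  have h2 := Nat.mod_lt x hu
  omega

theorem le_fl {u x n : ℕ} (hu : 0 < u) (h : u * n ≤ x) : n ≤ x / u := by
  rw [Nat.le_div_iff_mul_le hu, Nat.mul_comm]
  exact h

theorem fl_lt {u x n : ℕ} (hu : 0 < u) (h : x < u * n) : x / u < n := by
  rw [Nat.div_lt_iff_lt_mul hu, Nat.mul_comm]
  exact h

theorem fl_le' {u x n : ℕ} (hu : 0 < u) (h : x ≤ u * n) : x / u ≤ n := by
  have h2 : x / u ≤ u * n / u := Nat.div_le_div_right h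
  rwa [Nat.mul_div_cancel_left _ hu] at h2

theorem chk_spec {n1 n2 n3 c d s : ℕ} (h1 : n1 = 6 ∨ n1 = 7 ∨ n1 = 8) (h2 : n2 ≤ 8) (h3 : n3 ≤ 8)
    (hc : c ≤ 1) (hd : d ≤ 1) (hs : 8 ≤ s) (hs' : s ≤ 15) (e1 : n1 + n2 + n3 ≤ s + 1)
    (e2 : s ≤ n1 + n2 + n3 + 3) (hx : excl n1 n2 n3 c s = false) :
    cellOK n1 n2 n3 c d s = true := by
  have h := chk_true
  unfold chk at h
  have m1 : n1 ∈ [6, 7, 8] := by simp [h1]
  have m2 : n2 ∈ [0, 1, 2, 3, 4, 5, 6, 7, 8] := by
    have : n2 = 0 ∨ n2 = 1 ∨ n2 = 2 ∨ n2 = 3 ∨ n2 = 4 ∨ n2 = 5 ∨ n2 = 6 ∨ n2 = 7 ∨ n2 = 8 := by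
      omega
    simp [this]
  have m3 : n3 ∈ [0, 1, 2, 3, 4, 5, 6, 7, 8] := by
    have : n3 = 0 ∨ n3 = 1 ∨ n3 = 2 ∨ n3 = 3 ∨ n3 = 4 ∨ n3 = 5 ∨ n3 = 6 ∨ n3 = 7 ∨ n3 = 8 := by
      omega
    simp [this]
  have mc : c ∈ [0, 1] := by
    have : c = 0 ∨ c = 1 := by omega
    simp [this]
  have md : d ∈ [0, 1] := by
    have : d = 0 ∨ d = 1 := by omega
    simp [this]
  have ms : s ∈ [8, 9, 10, 11, 12, 13, 14, 15] := by
    have : s = 8 ∨ s = 9 ∨ s = 10 ∨ s = 11 ∨ s = 12 ∨ s = 13 ∨ s = 14 ∨ s = 15 := by omega
    simp [this]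
  have a1 := List.all_eq_true.mp h n1 m1
  have a2 := List.all_eq_true.mp a1 n2 m2
  have a3 := List.all_eq_true.mp a2 n3 m3
  have a4 := List.all_eq_true.mp a3 c mc
  have a5 := List.all_eq_true.mp a4 d md
  have a6 := List.all_eq_true.mp a5 s ms
  have b1 : Nat.ble (n1 + n2 + n3) (s + 1) = true := by rw [Nat.ble_eq]; exact e1
  have b2 : Nat.ble s (n1 + n2 + n3 + 3) = true := by rw [Nat.ble_eq]; exact e2
  rw [b1, b2, hx] at a6
  simpa using a6

/-- Lemma P. The sizes are in a cube of volume `4 B`: `P`, `a` are the sizes of the two halves of the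
larger half, `q` is the size of the smaller half, `B - P ≤ B / 4`. Deletion of the smaller half, or
filling of the quarter with `P` members, is good. -/
theorem lemmaP (R : ℕ) : ∀ P a q f : ℕ, P ≤ 2 ^ R → a ≤ 2 ^ R → q ≤ 2 ^ R → 3 * 2 ^ R ≤ 4 * P →
    2 ^ R ≤ P + a + q → P + a + q ≤ 2 * 2 ^ R → q ≤ 2 * a + f → Good (2 ^ R) P a q f := by
  induction R with
  | zero =>
    intro P a q f hP ha hq h1 hm hm2 hf
    exact good_small _ P a q f (by norm_num) hP ha hq h1 hm hm2 hf
  | succ R ih =>
    intro P a q f hP ha hq h1 hm hm2 hf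
    rcases R with _ | _ | k
    · exact good_small _ P a q f (by norm_num) hP ha hq h1 hm hm2 hf
    · exact good_small _ P a q f (by norm_num) hP ha hq h1 hm hm2 hf
    · -- the scale is at least 8
      obtain ⟨u, hu⟩ : ∃ u, u = 2 ^ k := ⟨_, rfl⟩
      have hu0 : 0 < u := by rw [hu]; positivity
      have e3 : 2 ^ (k + 1 + 1 + 1) = 8 * u := by rw [hu]; ring
      have e2 : 2 ^ (k + 1 + 1) = 4 * u := by rw [hu]; ring
      have e1 : 2 ^ (k + 1) = 2 * u := by rw [hu]; ring
      rw [e3] at hP ha hq h1 hm hm2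
      by_cases hreg : 7 * u ≤ P ∧ P + a + q ≤ 12 * u ∧ a ≤ 4 * u ∧ q ≤ 4 * u
      · obtain ⟨r1, r2, r3, r4⟩ := hreg
        have h2 := ih (P - 4 * u) a q f (by rw [e2]; omega) (by rw [e2]; omega)
          (by rw [e2]; omega) (by rw [e2]; omega) (by rw [e2]; omega) (by rw [e2]; omega) hf
        have h3 := good_scale (k + 1 + 1) (P - 4 * u) a q f (by rw [e2]; omega) (by rw [e2]; omega)
          (by rw [e2]; omega) (by rw [e2]; omega) (by rw [e2]; omega) h2
        have h4 : 2 ^ (k + 1 + 1) + (P - 4 * u) = P := by rw [e2]; omega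
        rw [h4] at h3
        exact h3
      by_cases hspec : P < 7 * u ∧ 2 * u ≤ a ∧ a < 3 * u ∧ 4 * u ≤ q ∧ q < 5 * u ∧ P + a < 9 * u
      · obtain ⟨r1, r2, r3, r4, r5, r6⟩ := hspec
        have h2 := good_local (k + 1) (P - 6 * u) (P + a - 8 * u) (P + a + q - 12 * u) f
          (by omega) (by omega) (by rw [e1]; omega) (by omega)
        rw [e1] at h2
        have f1 : 4 * (2 * u) = 8 * u := by ring
        have f2 : 3 * (2 * u) + (P - 6 * u) = P := by omega
        have f3 : 2 * u + (P + a - 8 * u - (P - 6 * u)) = a := by omega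
        have f4 : 2 * (2 * u) + (P + a + q - 12 * u - (P + a - 8 * u)) = q := by omega
        rw [f1, f2, f3, f4] at h2
        rw [e3]
        exact h2
      · -- the cells
        set n1 := P / u with hn1
        set n2 := a / u with hn2
        set n3 := q / u with hn3
        set n12 := (P + a) / u with hn12
        set n23 := (a + q) / u with hn23
        set n4 := (P + a + q) / u with hn4
        have l1 := fl_le u P
        have l1' := lt_fl u P hu0
        have l2 := fl_le u a
        have l2' := lt_fl u a hu0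
        have l3 := fl_le u q
        have l3' := lt_fl u q hu0
        have l12 := fl_le u (P + a)
        have l12' := lt_fl u (P + a) hu0
        have l23 := fl_le u (a + q)
        have l23' := lt_fl u (a + q) hu0
        have l4 := fl_le u (P + a + q)
        have l4' := lt_fl u (P + a + q) hu0
        rw [← hn1] at l1 l1'
        rw [← hn2] at l2 l2'
        rw [← hn3] at l3 l3'
        rw [← hn12] at l12 l12'
        rw [← hn23] at l23 l23'
        rw [← hn4] at l4 l4'
        -- bounds of the floors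
        have b1 : 6 ≤ n1 := le_fl hu0 (by omega)
        have b1' : n1 ≤ 8 := fl_le' hu0 (by omega)
        have b2 : n2 ≤ 8 := fl_le' hu0 (by omega)
        have b3 : n3 ≤ 8 := fl_le' hu0 (by omega)
        have b12 : n1 + n2 ≤ n12 := le_fl hu0 (by rw [Nat.mul_add]; omega)
        have b12' : n12 < n1 + n2 + 2 := fl_lt hu0 (by rw [Nat.mul_add, Nat.mul_add]; omega)
        have b23 : n2 + n3 ≤ n23 := le_fl hu0 (by rw [Nat.mul_add]; omega)
        have b23' : n23 < n2 + n3 + 2 := fl_lt hu0 (by rw [Nat.mul_add, Nat.mul_add]; omega)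
        have b4 : n1 + n2 + n3 ≤ n4 := le_fl hu0 (by rw [Nat.mul_add, Nat.mul_add]; omega)
        have b4' : n4 < n1 + n2 + n3 + 3 :=
          fl_lt hu0 (by rw [Nat.mul_add, Nat.mul_add, Nat.mul_add]; omega)
        have b5 : 8 ≤ n4 := le_fl hu0 (by omega)
        have b6 : n4 ≤ 16 := fl_le' hu0 (by omega)
        obtain ⟨c, hc⟩ : ∃ c, n12 = n1 + n2 + c := ⟨n12 - (n1 + n2), by omega⟩
        obtain ⟨d, hd⟩ : ∃ d, n23 = n2 + n3 + d := ⟨n23 - (n2 + n3), by omega⟩
        obtain ⟨s, hs⟩ : ∃ s, s = min 15 n4 := ⟨_, rfl⟩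
        have s1 : u * s ≤ P + a + q := by
          have : u * s ≤ u * n4 := Nat.mul_le_mul_left u (by omega)
          omega
        have s2 : P + a + q ≤ u * s + u := by
          rcases le_or_gt n4 15 with h | h
          · have : s = n4 := by omega
            rw [this]; omega
          · have : s = 15 := by omega
            rw [this]; omega
        have hex : excl n1 n2 n3 c s = false := by
          by_contra hne
          rw [Bool.not_eq_false] at hne
          unfold excl at hne
          simp only [Bool.or_eq_true, Bool.and_eq_true, Nat.ble_eq, Nat.beq_eq] at hne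
          rcases hne with ⟨⟨⟨x1, x2⟩, x3⟩, x4⟩ | ⟨⟨⟨x1, x2⟩, x3⟩, x4⟩
          · apply hreg
            have y1 : u * 7 ≤ u * n1 := Nat.mul_le_mul_left u x1
            have y2 : u * n4 ≤ u * 11 := Nat.mul_le_mul_left u (by omega)
            have y3 : u * n2 ≤ u * 3 := Nat.mul_le_mul_left u x3
            have y4 : u * n3 ≤ u * 3 := Nat.mul_le_mul_left u x4
            omega
          · apply hspec
            rw [x4, x1, x2] at hc
            rw [x1] at l1 l1'
            rw [x2] at l2 l2'
            rw [x3] at l3 l3'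
            rw [hc] at l12 l12'
            omega
        have hok := chk_spec (c := c) (d := d) (s := s) (by omega) b2 b3 (by omega) (by omega)
          (by omega) (by omega) (by omega) (by omega) hex
        have hcell : InCell n1 n2 n3 c d s k (pt P a q) := by
          unfold InCell
          rw [pt0, pt1, pt2, pt3]
          have hk : ((2 : ℤ) ^ k) = (u : ℤ) := by rw [hu]; push_cast; rfl
          rw [hk]
          rw [hc, Nat.mul_add, Nat.mul_add] at l12 l12'
          rw [hd, Nat.mul_add, Nat.mul_add] at l23 l23'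
          zify at l1 l1' l2 l2' l3 l3' l12 l12' l23 l23' s1 s2
          push_cast
          refine ⟨⟨⟨⟨⟨⟨?_, ?_⟩, ⟨?_, ?_⟩⟩, ⟨?_, ?_⟩⟩, ⟨?_, ?_⟩⟩, ⟨?_, ?_⟩⟩, ⟨?_, ?_⟩⟩ <;> linarith
        rw [e3, hu]
        exact good_of_cellOK b1' (by omega) hok k P a q f hcell hf

open Finset

variable {α : Type*} [DecidableEq α]

/-- the deletion of the smaller half is good enough -/
theorem TC_of_del {s : Finset α} {F : Finset (Finset α)} {a : α} (ha : a ∈ s) (b : Bool)
    (hqp : (half a (!b) F).card ≤ (half a b F).card) (hF : Sub s F)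
    (hle : 2 * F.card ≤ 2 ^ s.card)
    (IH : TC 2 (s.erase a) (half a b F))
    (hg : ((half a (!b) F).card : ℤ) ≤ 2 * dg (half a b F).card (half a (!b) F).card +
      2 * ((half a (!b) F \ half a b F).card : ℤ) + L2 (s.erase a) (half a (!b) F)) :
    TC 2 s F := by
  have hs : s.card = (s.erase a).card + 1 := (card_erase_add_one ha).symm
  have hle' : F.card ≤ 2 ^ (s.erase a).card := by
    rw [hs, pow_succ] at hle
    omega
  have h1 := (IH.nz hle').del ha b
  have h2 := L2_half' ha b F hqp
  have h3 := card_half_add' a b F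
  have h4 : max 0 (((half a b F).card : ℤ) - F.card) = 0 := by
    apply max_eq_left
    have : ((half a b F).card : ℤ) ≤ F.card := by exact_mod_cast (by omega)
    linarith
  rw [h4] at h1
  obtain ⟨d, h5, h6⟩ := h1
  exact ⟨d, h5, by linarith⟩

/-- the filling of a quarter, with a copy near the neighbouring quarter, is good enough -/
theorem TC_of_fill {R : ℕ} {s : Finset α} (hs : s.card = R + 2) {F : Finset (Finset α)}
    (hF : Sub s F) (hlo : 2 ^ R ≤ F.card) (hhi : F.card ≤ 2 * 2 ^ R) {a : α} (ha : a ∈ s) (b : Bool)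
    (hqp : (half a (!b) F).card ≤ (half a b F).card) {c : α} (hc : c ∈ s.erase a) (d : Bool)
    (IH : TC 2 ((s.erase a).erase c) (half c (!d) (half a b F)))
    (hg : (max ((half a (!b) F).card : ℤ) (2 ^ R - (half c d (half a b F)).card)) ≤
      2 * dg (half a b F).card (half a (!b) F).card +
      2 * dg (half c d (half a b F)).card (half c (!d) (half a b F)).card +
      2 * ((half a (!b) F \ half a b F).card : ℤ) + L2 (s.erase a) (half a (!b) F) +
      L2 ((s.erase a).erase c) (half c d (half a b F))) :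
    TC 2 s F := by
  have hs1 : (s.erase a).card = R + 1 := by rw [card_erase_of_mem ha, hs]; rfl
  have hs2 : ((s.erase a).erase c).card = R := by rw [card_erase_of_mem hc, hs1]; rfl
  obtain ⟨y, hy⟩ : ∃ y, F.card = 2 ^ R + y := ⟨F.card - 2 ^ R, by omega⟩
  have h1 := IH.nz (t := y) (by rw [hs2]; omega)
  have h2 := h1.up hc d (hF.half a b)
  rw [hs2, ← hy] at h2
  have h3 := h2.del ha b
  obtain ⟨e, h4, h5⟩ := h3
  refine ⟨e, h4, ?_⟩
  have l1 := L2_half' ha b F hqp
  have l2 := L2_half hc d (half a b F)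
  have l3 : (0 : ℤ) ≤ min ((half c d (half a b F)).card : ℤ) (half c (!d) (half a b F)).card -
      (half c d (half a b F) ∩ half c (!d) (half a b F)).card := by
    have i1 : (half c d (half a b F) ∩ half c (!d) (half a b F)).card ≤
      (half c d (half a b F)).card := Finset.card_le_card inter_subset_left
    have i2 : (half c d (half a b F) ∩ half c (!d) (half a b F)).card ≤
      (half c (!d) (half a b F)).card := Finset.card_le_card inter_subset_right
    have : ((half c d (half a b F) ∩ half c (!d) (half a b F)).card : ℤ) ≤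
      min ((half c d (half a b F)).card : ℤ) (half c (!d) (half a b F)).card :=
      le_min (by exact_mod_cast i1) (by exact_mod_cast i2)
    linarith
  have c1 := card_half_add' a b F
  have c2 := card_half_add' c d (half a b F)
  have c3 : ((half a b F).card : ℤ) + (half a (!b) F).card = 2 ^ R + y := by
    rw [hy] at c1
    exact_mod_cast c1
  have c4 : ((half c d (half a b F)).card : ℤ) + (half c (!d) (half a b F)).card =
    (half a b F).card := by exact_mod_cast c2
  have m1 := le_max_left ((half a (!b) F).card : ℤ) (2 ^ R - (half c d (half a b F)).card)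
  have m2 := le_max_right ((half a (!b) F).card : ℤ) (2 ^ R - (half c d (half a b F)).card)
  rcases le_total 0 (((half c (!d) (half a b F)).card : ℤ) - y) with h6 | h6
  · rw [max_eq_right h6] at h5
    linarith
  · rw [max_eq_left h6] at h5
    linarith

/-- **Near case**: the statement with the constant 2 for a family whose larger half (in a direction
`a`) has a half (in a direction `c`) which fills at least three quarters of its cube. The last
condition on the sizes holds if `a` is the direction with the smallest half. -/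
theorem TC_near {R : ℕ} {s : Finset α} (hs : s.card = R + 2) {F : Finset (Finset α)}
    (hF : Sub s F) (hlo : 2 ^ R ≤ F.card) (hhi : F.card ≤ 2 * 2 ^ R) {a : α} (ha : a ∈ s) (b : Bool)
    (hqp : (half a (!b) F).card ≤ (half a b F).card) {c : α} (hc : c ∈ s.erase a) (d : Bool)
    (IH : ∀ (s' : Finset α) (F' : Finset (Finset α)), s'.card < s.card → Sub s' F' → TC 2 s' F')
    (hP : 3 * 2 ^ R ≤ 4 * (half c d (half a b F)).card)
    (hmin : (half a (!b) F).card ≤ 2 * (half c (!d) (half a b F)).card +
      (half a (!b) F \ half a b F).card) :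
    TC 2 s F := by
  have hs1 : (s.erase a).card = R + 1 := by rw [card_erase_of_mem ha, hs]; rfl
  have hs2 : ((s.erase a).erase c).card = R := by rw [card_erase_of_mem hc, hs1]; rfl
  have c1 := card_half_add' a b F
  have c2 := card_half_add' c d (half a b F)
  have p1 := ((hF.half a b).half c d).card_le
  have p2 := ((hF.half a b).half c (!d)).card_le
  rw [hs2] at p1 p2
  have h := lemmaP R (half c d (half a b F)).card (half c (!d) (half a b F)).card
    (half a (!b) F).card (half a (!b) F \ half a b F).card p1 p2 (by omega) hP (by omega)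
    (by omega) hmin
  have hLW := L2_nonneg (hF.half a (!b))
  have hLP := L2_nonneg ((hF.half a b).half c d)
  unfold Good at h
  rw [c2] at h
  push_cast at h
  rcases h with h | ⟨h, h'⟩
  · refine TC_of_del ha b hqp hF ?_ (IH _ _ (by omega) (hF.half a b)) (by linarith)
    rw [hs, pow_succ, pow_succ]
    omega
  · refine TC_of_fill hs hF hlo hhi ha b hqp hc d (IH _ _ (by omega)
      ((hF.half a b).half c (!d))) ?_
    apply max_le
    · linarith
    · linarith

end Pool.Agent.EdgeIso.LemmaP
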