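import Pool.Agent.Lib.MP_48c8f3_co.Bas
import Pool.Agent.Lib.MP_48c8f3_co.KPa
import Pool.Agent.Lib.MP_48c8f3_co.KXb
import Pool.Agent.Lib.MP_48c8f3_co.FS
import Pool.Agent.Lib.MP_48c8f3_co.LPc

set_option autoImplicit false
set_option linter.unusedSectionVars false

/-!
MP_48c8f3_co: the core level.  All numbers belonging to a counterexample `F` in dimension `R + 2`
with `2 ^ R ≤ |F| ≤ 2 * 2 ^ R`, a chain of three nodes `F`, `K`, `P`, and distance variables.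
-/

namespace Pool.Agent.EdgeIso.Frame

open Finset

variable {α : Type*} [DecidableEq α]

/-- `P` holds for all families all of whose halves but those in one direction have at least `v`
members -/
def BBnd (α : Type*) [DecidableEq α] (P : ℕ → ℕ → ℕ → ℤ → Prop) : Prop :=
  ∀ (s : Finset α) (X : Finset (Finset α)) (i : α) (v : ℕ), Sub s X → i ∈ s →
    (∀ e ∈ s.erase i, ∀ d : Bool, v ≤ (half e d X).card) → 2 * v ≤ X.card →
    P s.card X.card v (L2 s X)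

/-- `P` holds for all minimal counterexamples -/
def CBnd (α : Type*) [DecidableEq α] (C : ℤ) (P : ℕ → ℕ → ℕ → ℤ → Prop) : Prop :=
  ∀ (s : Finset α) (X : Finset (Finset α)) (u : ℕ), Sub s X → MinHalf s X u →
    (∀ (s' : Finset α) (F' : Finset (Finset α)), s'.card < s.card → Sub s' F' → TC C s' F') →
    ¬ TC C s X → P s.card X.card u (L2 s X)

/-- The numbers of a counterexample in the core.  Sizes: `m = |F|`, `p = |K|`, `q = |W|`,
`P = |P|`, `a = |A|`, `P2`, `a2`.  The numbers `D..` are the numbers `DQ j X t`, that is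
`2 * 2 ^ j` times the distance of `X` to a copy of size `t / 2 ^ j`. -/
structure Core2 (α : Type*) [DecidableEq α] (R m : ℕ) (LF : ℤ) where
  (y p q P a P2 a2 f fK f3 : ℕ)
  (LK LW LP LA LP2 LA2 : ℤ)
  (dK dW dP dA dP2 dA2 : ℕ)
  (Km Kh Ph Pq Ay Aq P2q A2q P2r A2r : ℕ)
  (w1 w2 : ℕ)
  R1 : 1 ≤ R
  m_eq : 2 ^ R + y = m
  y_le : y ≤ 2 ^ R
  s1 : p + q = m
  s2 : P + a = p
  s3 : P2 + a2 = P
  le1 : q ≤ p
  le2 : a ≤ P
  le3 : a2 ≤ P2
  fle1 : f ≤ q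
  fle2 : fK ≤ a
  fle3 : f3 ≤ a2
  cap1 : p + f ≤ 2 * 2 ^ R
  cap2 : P + fK ≤ 2 ^ R
  cap3 : 2 * (P2 + f3) ≤ 2 ^ R
  h1 : q ≤ 2 * a + f
  h2 : a ≤ 2 * a2 + fK
  region : 4 * P < 3 * 2 ^ R
  LF0 : 0 ≤ LF
  LK0 : 0 ≤ LK
  LW0 : 0 ≤ LW
  LP0 : 0 ≤ LP
  LA0 : 0 ≤ LA
  LP20 : 0 ≤ LP2
  LA20 : 0 ≤ LA2
  L1 : 2 * dg p q + 2 * (f : ℤ) + LK + LW ≤ LF
  L2 : 2 * dg P a + 2 * (fK : ℤ) + LP + LA ≤ LK
  L3 : 2 * dg P2 a2 + 2 * (f3 : ℤ) + LP2 + LA2 ≤ LP
  /-- tables -/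
  tF : ∀ Q : ℕ → ℕ → ℤ → ℤ → Prop, LBnd α Q → Q (R + 2) m (2 * q) LF
  tK : ∀ Q : ℕ → ℕ → ℤ → ℤ → Prop, LBnd α Q → Q (R + 1) p ((q : ℤ) - f) LK
  tK' : ∀ Q : ℕ → ℕ → ℤ → ℤ → Prop, LBnd α Q → Q (R + 1) p (2 * a) LK
  tW : ∀ Q : ℕ → ℕ → ℤ → ℤ → Prop, LBnd α Q → Q (R + 1) q (max 0 (2 * (q : ℤ) - p - f)) LW
  tP : ∀ Q : ℕ → ℕ → ℤ → ℤ → Prop, LBnd α Q → Q R P ((a : ℤ) - fK) LP
  tP' : ∀ Q : ℕ → ℕ → ℤ → ℤ → Prop, LBnd α Q → Q R P (2 * a2) LP
  tA : ∀ Q : ℕ → ℕ → ℤ → ℤ → Prop, LBnd α Q → Q R a (max 0 (2 * (a : ℤ) - P - fK)) LA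
  tP2 : ∀ Q : ℕ → ℕ → ℤ → ℤ → Prop, LBnd α Q → Q (R - 1) P2 ((a2 : ℤ) - f3) LP2
  tA2 : ∀ Q : ℕ → ℕ → ℤ → ℤ → Prop, LBnd α Q →
    Q (R - 1) a2 (max 0 (2 * (a2 : ℤ) - P2 - f3)) LA2
  t4 : ∀ Q : ℕ → ℕ → ℕ → ℤ → Prop, CBnd α 2 Q → Q (R + 2) m q LF
  /-- the pair constraint -/
  w12 : w1 ≤ w2
  w2q : 2 * w2 ≤ q
  w1q : 2 * q ≤ p + 2 * w1 + f
  pair : 2 * (5 * (q : ℤ) - 2 * p - 4 * w1 - 3 * w2 - 3 * f) ≤ LK
  tW1 : ∀ Q : ℕ → ℕ → ℤ → ℤ → Prop, LBnd α Q → Q (R + 1) q (2 * w1) LW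
  tW2 : ∀ Q : ℕ → ℕ → ℕ → ℤ → Prop, BBnd α Q → Q (R + 1) q w2 LW
  /-- the statement for the parts -/
  dK_le : (dK : ℤ) ≤ 2 * LK
  dW_le : (dW : ℤ) ≤ 2 * LW
  dP_le : (dP : ℤ) ≤ 2 * LP
  dA_le : (dA : ℤ) ≤ 2 * LA
  dP2_le : (dP2 : ℤ) ≤ 2 * LP2
  dA2_le : (dA2 : ℤ) ≤ 2 * LA2
  dK_tr : (dK : ℤ) ≤ 2 * p
  dW_tr : (dW : ℤ) ≤ 2 * q
  dP_tr : (dP : ℤ) ≤ 2 * P
  dA_tr : (dA : ℤ) ≤ 2 * a
  dP2_tr : (dP2 : ℤ) ≤ 2 * P2
  dA2_tr : (dA2 : ℤ) ≤ 2 * a2
  /-- distances -/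
  Km1 : (Km : ℤ) ≤ 2 * p
  Km2 : (Km : ℤ) ≤ dK
  Km3 : (Km : ℤ) ≤ Ay
  Km4 : (Km : ℤ) ≤ Ph + 2 * fK
  Km5 : (Km : ℤ) ≤ 2 * dA + 2 * ((P : ℤ) - a + fK)
  Kh1 : (Kh : ℤ) ≤ 4 * p
  Kh2 : (Kh : ℤ) ≤ 2 * dK + 2 * ((p : ℤ) - q)
  Kh3 : (Kh : ℤ) ≤ Ph + 4 * a
  Kh4 : (Kh : ℤ) ≤ 2 * dA + 4 * P
  Kh5 : (Kh : ℤ) ≤ Pq + 4 * fK
  Kh6 : (Kh : ℤ) ≤ Aq + 4 * ((P : ℤ) - a + fK)
  Ph1 : (Ph : ℤ) ≤ 4 * P
  Ph2 : (Ph : ℤ) ≤ 2 * dP + 2 * max 0 (2 * (P : ℤ) - m)
  Ph3 : (Ph : ℤ) ≤ A2r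
  Ph4 : (Ph : ℤ) ≤ P2r
  Ph5 : (Ph : ℤ) ≤ P2q + 4 * f3
  Ph6 : (Ph : ℤ) ≤ A2q + 4 * ((P2 : ℤ) - a2 + f3)
  Pq1 : (Pq : ℤ) ≤ 8 * P
  Pq2 : (Pq : ℤ) ≤ 4 * dP + 2 * max 0 (4 * (P : ℤ) - m)
  Pq3 : (Pq : ℤ) ≤ P2q + 8 * a2
  Pq4 : (Pq : ℤ) ≤ A2q + 8 * P2
  Aq1 : (Aq : ℤ) ≤ 8 * a
  Aq2 : (Aq : ℤ) ≤ 4 * dA + 2 * max 0 (4 * (a : ℤ) - m)
  Ay1 : (Ay : ℤ) ≤ 2 * a
  Ay2 : (Ay : ℤ) ≤ dA + 2 * max 0 ((a : ℤ) - y)
  Ay3 : 2 ^ R * (Ay : ℤ) ≤ 2 * a * (2 ^ R - y)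
  P2q1 : (P2q : ℤ) ≤ 8 * P2
  P2q2 : (P2q : ℤ) ≤ 4 * dP2 + 2 * max 0 (4 * (P2 : ℤ) - m)
  A2q1 : (A2q : ℤ) ≤ 8 * a2
  A2q2 : (A2q : ℤ) ≤ 4 * dA2 + 2 * max 0 (4 * (a2 : ℤ) - m)
  A2r1 : (A2r : ℤ) ≤ 4 * a2
  A2r2 : (A2r : ℤ) ≤ 2 * dA2 + 2 * max 0 (2 * (a2 : ℤ) - y)
  P2r1 : (P2r : ℤ) ≤ 4 * P2
  P2r2 : (P2r : ℤ) ≤ 2 * dP2 + 2 * max 0 (2 * (P2 : ℤ) - y)
  /-- further distances, products and averages -/
  Aya : 2 ^ R * (Aq : ℤ) ≤ 2 * a * (4 * 2 ^ R - m)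
  A2ra : 2 ^ R * (A2r : ℤ) ≤ 2 * 2 * a2 * (2 ^ R - y)
  P2ra : 2 ^ R * (P2r : ℤ) ≤ 2 * 2 * P2 * (2 ^ R - y)
  avK : 2 * 2 ^ R * (dK : ℤ) ≤ 2 * p * (2 * 2 ^ R - p)
  avW : 2 * 2 ^ R * (dW : ℤ) ≤ 2 * q * (2 * 2 ^ R - q)
  avP : 2 ^ R * (dP : ℤ) ≤ 2 * P * (2 ^ R - P)
  avA : 2 ^ R * (dA : ℤ) ≤ 2 * a * (2 ^ R - a)
  /-- negated costs -/
  cost1 : 2 * LF + 1 ≤ Km + 2 * q
  cost2 : 2 * LF + 1 ≤ Kh + 2 * f
  cost3 : 2 * LF + 1 ≤ 2 * dW + 2 * ((p : ℤ) - q + f)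
  cost4 : 2 * LF + 1 ≤ dW + 2 * p

theorem half2_max {s : Finset α} {X : Finset (Finset α)} {v : ℤ} (h : Half2 s X v) :
    Half2 s X (max 0 v) := by
  intro j hj c
  have h1 := h j hj c
  have h2 : (0 : ℤ) ≤ 2 * (half j c X).card := by positivity
  exact max_le h2 h1

theorem MinHalf.half2 {s : Finset α} {X : Finset (Finset α)} {u : ℕ} (h : MinHalf s X u) :
    Half2 s X (2 * u) := by
  intro j hj c
  have h1 := h j hj c
  have h2 : (u : ℤ) ≤ (half j c X).card := by exact_mod_cast h1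
  linarith

/-- the numbers of a counterexample in the core -/
theorem core2_exists {s : Finset α} {F : Finset (Finset α)} {R : ℕ} (hR : 1 ≤ R)
    (hs : s.card = R + 2) (hF : Sub s F) (hlo : 2 ^ R ≤ F.card) (hhi : F.card ≤ 2 * 2 ^ R)
    (IH : ∀ (s' : Finset α) (F' : Finset (Finset α)), s'.card < s.card → Sub s' F' → TC 2 s' F')
    (hneg : ¬ TC 2 s F) : Nonempty (Core2 α R F.card (Frame.L2 s F)) := by
  have hneg' : ∀ c : ℤ, NZ s F F.card c → 2 * Frame.L2 s F + 1 ≤ c := by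
    intro c ⟨d, h1, h2⟩
    by_contra h3
    exact hneg ⟨d, h1, by linarith [Int.lt_iff_add_one_le.mp (not_le.mp h3)]⟩
  have hne1 : s.Nonempty := by
    rw [← card_pos, hs]
    omega
  obtain ⟨a1, b1, n1⟩ := Node.exists hne1 hF
  have c1 : (s.erase a1).card = R + 1 := by
    have := n1.card_s
    omega
  have hne2 : (s.erase a1).Nonempty := by
    rw [← card_pos, c1]
    omega
  obtain ⟨a2, b2, n2⟩ := Node.exists hne2 n1.sub_K
  have c2 : ((s.erase a1).erase a2).card = R := by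
    have := n2.card_s
    omega
  have hne3 : ((s.erase a1).erase a2).Nonempty := by
    rw [← card_pos, c2]
    omega
  obtain ⟨a3, b3, n3⟩ := Node.exists hne3 n2.sub_K
  have c3 : (((s.erase a1).erase a2).erase a3).card = R - 1 := by
    have := n3.card_s
    omega
  have e1 := n1.card_eq
  have e2 := n2.card_eq
  have e3 := n3.card_eq
  have l1 := n1.le
  have l2 := n2.le
  have l3 := n3.le
  have hp1 : 2 ^ (R + 1) = 2 * 2 ^ R := by ring
  have hp2 : 2 ^ (R + 2) = 4 * 2 ^ R := by ring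
  have hp3 : 2 ^ R = 2 * 2 ^ (R - 1) := by
    rw [← pow_succ']
    congr 1
    omega
  -- the statement for the parts
  have TK := IH _ _ (by omega) n1.sub_K
  have TW := IH _ _ (by omega) n1.sub_W
  have TP := IH _ _ (by omega) n2.sub_K
  have TA := IH _ _ (by omega) n2.sub_W
  have TP2 := IH _ _ (by omega) n3.sub_K
  have TA2 := IH _ _ (by omega) n3.sub_W
  -- Lemma P
  have hreg : 4 * (half a2 b2 (half a1 b1 F)).card < 3 * 2 ^ R := by
    by_contra hc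
    have hmin := n1.half2_K a2 n2.mem (!b2)
    apply hneg
    refine LemmaP.TC_near hs hF hlo hhi n1.mem b1 l1 n2.mem b2 IH (by omega) ?_
    have : ((half a1 (!b1) F).card : ℤ) ≤ 2 * (half a2 (!b2) (half a1 b1 F)).card +
        (half a1 (!b1) F \ half a1 b1 F).card := by linarith
    exact_mod_cast this
  -- the pair constraint
  obtain ⟨r, hr⟩ : ∃ r, R = r + 1 := ⟨R - 1, by omega⟩
  obtain ⟨i, v1, v2, hi, h12, h2q, hB, _, hv, hlin⟩ :=
    n1.pair_lin (r := r) (by rw [c1, hr]) n2.minh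
  -- capacities
  have capf : ∀ (t : Finset α) (K W : Finset (Finset α)), Sub t K → Sub t W →
      K.card + (W \ K).card ≤ 2 ^ t.card := by
    intro t K W hK hW
    have h1 : (K ∪ W).card ≤ 2 ^ t.card := Sub.card_le (union_subset hK hW)
    rw [← card_union_of_disjoint (disjoint_sdiff), union_sdiff_self_eq_union]
    exact h1
  have k1 := capf _ _ _ n1.sub_K n1.sub_W
  have k2 := capf _ _ _ n2.sub_K n2.sub_W
  have k3 := capf _ _ _ n3.sub_K n3.sub_W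
  rw [c1] at k1
  rw [c2] at k2
  rw [c3] at k3
  have hh2 := n1.half2_K a2 n2.mem (!b2)
  have hh3 := n2.half2_K a3 n3.mem (!b3)
  have fle1 := n1.f_le
  have fle2 := n2.f_le
  have fle3 := n3.f_le
  have hm1 : F.card ≤ 2 ^ (s.erase a1).card := by rw [c1]; omega
  have hm0 : F.card ≤ 2 ^ s.card := hF.card_le
  obtain ⟨y, hy⟩ := Nat.exists_eq_add_of_le hlo
  have hyU : y ≤ 2 ^ R := by omega
  -- abbreviations
  set K := half a1 b1 F with hK
  set W := half a1 (!b1) F with hW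
  set P := half a2 b2 K with hP
  set A := half a2 (!b2) K with hA
  set P2 := half a3 b3 P with hP2
  set A2 := half a3 (!b3) P with hA2
  set t1 := s.erase a1 with ht1
  set t2 := t1.erase a2 with ht2
  set t3 := t2.erase a3 with ht3
  have z1 : ((K.card : ℤ)) + W.card = F.card := by exact_mod_cast e1
  have z2 : ((P.card : ℤ)) + A.card = K.card := by exact_mod_cast e2
  have z3 : ((P2.card : ℤ)) + A2.card = P.card := by exact_mod_cast e3
  have zl1 : (W.card : ℤ) ≤ K.card := by exact_mod_cast l1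
  have zl2 : (A.card : ℤ) ≤ P.card := by exact_mod_cast l2
  have zl3 : (A2.card : ℤ) ≤ P2.card := by exact_mod_cast l3
  have y1 : (0 : ℤ) ≤ W.card := by positivity
  have y2 : (0 : ℤ) ≤ A.card := by positivity
  have y3 : (0 : ℤ) ≤ A2.card := by positivity
  have zf1 : (0 : ℤ) ≤ (W \ K).card := by positivity
  have zf2 : (0 : ℤ) ≤ (A \ P).card := by positivity
  have zf3 : (0 : ℤ) ≤ (A2 \ P2).card := by positivity
  have mz : ∀ x : ℤ, x ≤ 0 → max 0 x = 0 := fun x hx => max_eq_left hx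
  -- distances
  have gen : ∀ (t : Finset α) (X : Finset (Finset α)), Sub t X → ∀ (j τ : ℕ),
      (DQ j t X τ : ℤ) ≤ 2 ^ j * (DQ 0 t X X.card : ℤ) + 2 * max 0 (2 ^ j * (X.card : ℤ) - τ) :=
    fun t X hX j τ => (DQ_dst hX).DQ_le j τ
  have tot : ∀ (t : Finset α) (X : Finset (Finset α)), Sub t X → TC 2 t X →
      (DQ 0 t X X.card : ℤ) ≤ 2 * Frame.L2 t X := by
    intro t X hX hT
    have := (hT.nq 0 X.card).le
    simpa using this
  have gK0 := gen t1 K n1.sub_K 0 F.card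
  have gK1 := gen t1 K n1.sub_K 1 F.card
  have gW0 := gen t1 W n1.sub_W 0 F.card
  have gW1 := gen t1 W n1.sub_W 1 F.card
  have gA1 := gen t2 A n2.sub_W 1 F.card
  have gP1 := gen t2 P n2.sub_K 1 F.card
  have gP2' := gen t2 P n2.sub_K 2 F.card
  have gA2' := gen t2 A n2.sub_W 2 F.card
  have gAy := gen t2 A n2.sub_W 0 y
  have gP2q := gen t3 P2 n3.sub_K 2 F.card
  have gA2q := gen t3 A2 n3.sub_W 2 F.card
  have gP2r := gen t3 P2 n3.sub_K 1 y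
  have gA2r := gen t3 A2 n3.sub_W 1 y
  rw [mz _ (by linarith only [z1, y1])] at gK0
  rw [mz _ (by linarith only [z1, y1, zl1])] at gW0
  rw [mz _ (by linarith only [z1, zl1])] at gW1
  rw [mz _ (by linarith only [z1, z2, zl2, y1])] at gA1
  have e2K : (2 : ℤ) ^ 1 * (K.card : ℤ) - F.card = K.card - W.card := by linarith only [z1]
  rw [e2K, max_eq_right (by linarith only [zl1])] at gK1
  have d1 := n2.DQ_up 0 y
  rw [c2] at d1
  have e4 : 2 ^ 0 * 2 ^ R + y = F.card := by rw [hy]; ring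
  rw [e4] at d1
  have d2 := n2.DQ_prodK 0 F.card
  have d3 := n2.DQ_prodW 0 F.card
  have d4 := n2.DQ_del 1 F.card
  have d5 := n2.DQ_delW 1 F.card
  have d6 := n2.DQ_prodK 1 F.card
  have d7 := n2.DQ_prodW 1 F.card
  have d8 := n3.DQ_up 1 y
  have d9 := n3.DQ_upW 1 y
  rw [c3] at d8 d9
  have e5 : 2 ^ 1 * 2 ^ (R - 1) + y = F.card := by rw [hy, hp3]; ring
  rw [e5] at d8 d9
  have d10 := n3.DQ_prodK 1 F.card
  have d11 := n3.DQ_prodW 1 F.card
  have d12 := n3.DQ_del 2 F.card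
  have d13 := n3.DQ_delW 2 F.card
  -- averages
  have av1 := DQ_avg 0 n2.sub_W (t := y) (by rw [c2]; omega)
  have av2 := DQ_avg 2 n2.sub_W (t := F.card) (by rw [c2]; omega)
  have av3 := DQ_avg 1 n3.sub_W (t := y) (by rw [c3]; omega)
  have av4 := DQ_avg 1 n3.sub_K (t := y) (by rw [c3]; omega)
  have av5 := DQ_avg 0 n1.sub_K (t := K.card) (by rw [c1]; omega)
  have av6 := DQ_avg 0 n1.sub_W (t := W.card) (by rw [c1]; omega)
  have av7 := DQ_avg 0 n2.sub_K (t := P.card) (by rw [c2]; omega)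
  have av8 := DQ_avg 0 n2.sub_W (t := A.card) (by rw [c2]; omega)
  rw [c1] at av5 av6
  rw [c2] at av1 av2 av7 av8
  rw [c3] at av3 av4
  have hp3z : (2 : ℤ) ^ R = 2 * 2 ^ (R - 1) := by exact_mod_cast hp3
  -- costs
  have D0 := hneg' _ ((DQ_spec 0 s F F.card).nz hm0)
  have k1' := n1.DQ_del 0 F.card
  have k2' := n1.DQ_prodK 0 F.card
  have k3' := n1.DQ_prodW 0 F.card
  have k4' := n1.DQ_delW 0 F.card
  refine ⟨{
    y := y, p := K.card, q := W.card, P := P.card, a := A.card, P2 := P2.card, a2 := A2.card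
    f := (W \ K).card, fK := (A \ P).card, f3 := (A2 \ P2).card
    LK := Frame.L2 t1 K, LW := Frame.L2 t1 W, LP := Frame.L2 t2 P, LA := Frame.L2 t2 A
    LP2 := Frame.L2 t3 P2, LA2 := Frame.L2 t3 A2
    dK := DQ 0 t1 K K.card, dW := DQ 0 t1 W W.card, dP := DQ 0 t2 P P.card
    dA := DQ 0 t2 A A.card, dP2 := DQ 0 t3 P2 P2.card, dA2 := DQ 0 t3 A2 A2.card
    Km := DQ 0 t1 K F.card, Kh := DQ 1 t1 K F.card, Ph := DQ 1 t2 P F.card
    Pq := DQ 2 t2 P F.card, Ay := DQ 0 t2 A y, Aq := DQ 2 t2 A F.card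
    P2q := DQ 2 t3 P2 F.card, A2q := DQ 2 t3 A2 F.card, P2r := DQ 1 t3 P2 y
    A2r := DQ 1 t3 A2 y
    w1 := v1, w2 := v2
    R1 := hR
    m_eq := hy.symm
    y_le := hyU
    s1 := e1, s2 := e2, s3 := e3
    le1 := l1, le2 := l2, le3 := l3
    fle1 := fle1, fle2 := fle2, fle3 := fle3
    cap1 := by omega
    cap2 := by omega
    cap3 := by omega
    h1 := ?_, h2 := ?_
    region := hreg
    LF0 := L2_nonneg hF
    LK0 := L2_nonneg n1.sub_K
    LW0 := L2_nonneg n1.sub_W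
    LP0 := L2_nonneg n2.sub_K
    LA0 := L2_nonneg n2.sub_W
    LP20 := L2_nonneg n3.sub_K
    LA20 := L2_nonneg n3.sub_W
    L1 := n1.L2_le, L2 := n2.L2_le, L3 := n3.L2_le
    tF := fun Q hQ => n1.lb_F hQ hs
    tK := fun Q hQ => n1.lb_K hQ c1
    tK' := fun Q hQ => n2.lb_F hQ c1
    tW := ?_
    tP := fun Q hQ => n2.lb_K hQ c2
    tP' := fun Q hQ => n3.lb_F hQ c2
    tA := ?_
    tP2 := fun Q hQ => n3.lb_K hQ c3
    tA2 := ?_
    t4 := ?_
    w12 := h12, w2q := h2q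
    w1q := hv
    pair := hlin
    tW1 := ?_
    tW2 := ?_
    dK_le := tot _ _ n1.sub_K TK
    dW_le := tot _ _ n1.sub_W TW
    dP_le := tot _ _ n2.sub_K TP
    dA_le := tot _ _ n2.sub_W TA
    dP2_le := tot _ _ n3.sub_K TP2
    dA2_le := tot _ _ n3.sub_W TA2
    dK_tr := by
      have := DQ_le_card 0 t1 K K.card
      linarith only [this]
    dW_tr := by
      have := DQ_le_card 0 t1 W W.card
      linarith only [this]
    dP_tr := by
      have := DQ_le_card 0 t2 P P.card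
      linarith only [this]
    dA_tr := by
      have := DQ_le_card 0 t2 A A.card
      linarith only [this]
    dP2_tr := by
      have := DQ_le_card 0 t3 P2 P2.card
      linarith only [this]
    dA2_tr := by
      have := DQ_le_card 0 t3 A2 A2.card
      linarith only [this]
    Km1 := by
      have := DQ_le_card 0 t1 K F.card
      linarith only [this]
    Km2 := by linarith only [gK0]
    Km3 := d1
    Km4 := by linarith only [d2]
    Km5 := by linarith only [d3, gA1]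
    Kh1 := by
      have := DQ_le_card 1 t1 K F.card
      linarith only [this]
    Kh2 := by linarith only [gK1]
    Kh3 := by linarith only [d4]
    Kh4 := by linarith only [d5, gA1]
    Kh5 := by linarith only [d6]
    Kh6 := by linarith only [d7]
    Ph1 := by
      have := DQ_le_card 1 t2 P F.card
      linarith only [this]
    Ph2 := by
      have e : (2 : ℤ) ^ 1 * (P.card : ℤ) = 2 * P.card := by ring
      rw [e] at gP1
      linarith only [gP1]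
    Ph3 := d8
    Ph4 := d9
    Ph5 := by linarith only [d10]
    Ph6 := by linarith only [d11]
    Pq1 := by
      have := DQ_le_card 2 t2 P F.card
      linarith only [this]
    Pq2 := by
      have e : (2 : ℤ) ^ 2 * (P.card : ℤ) = 4 * P.card := by ring
      rw [e] at gP2'
      linarith only [gP2']
    Pq3 := by linarith only [d12]
    Pq4 := by linarith only [d13]
    Aq1 := by
      have := DQ_le_card 2 t2 A F.card
      linarith only [this]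
    Aq2 := by
      have e : (2 : ℤ) ^ 2 * (A.card : ℤ) = 4 * A.card := by ring
      rw [e] at gA2'
      linarith only [gA2']
    Ay1 := by
      have := DQ_le_card 0 t2 A y
      linarith only [this]
    Ay2 := by
      have e : (2 : ℤ) ^ 0 * (A.card : ℤ) = A.card := by ring
      rw [e] at gAy
      linarith only [gAy]
    Ay3 := by
      have e : (2 : ℤ) ^ 0 * 2 ^ R = 2 ^ R := by ring
      rw [e] at av1
      exact av1
    P2q1 := by
      have := DQ_le_card 2 t3 P2 F.card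
      linarith only [this]
    P2q2 := by
      have e : (2 : ℤ) ^ 2 * (P2.card : ℤ) = 4 * P2.card := by ring
      rw [e] at gP2q
      linarith only [gP2q]
    A2q1 := by
      have := DQ_le_card 2 t3 A2 F.card
      linarith only [this]
    A2q2 := by
      have e : (2 : ℤ) ^ 2 * (A2.card : ℤ) = 4 * A2.card := by ring
      rw [e] at gA2q
      linarith only [gA2q]
    A2r1 := by
      have := DQ_le_card 1 t3 A2 y
      linarith only [this]
    A2r2 := by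
      have e : (2 : ℤ) ^ 1 * (A2.card : ℤ) = 2 * A2.card := by ring
      rw [e] at gA2r
      linarith only [gA2r]
    P2r1 := by
      have := DQ_le_card 1 t3 P2 y
      linarith only [this]
    P2r2 := by
      have e : (2 : ℤ) ^ 1 * (P2.card : ℤ) = 2 * P2.card := by ring
      rw [e] at gP2r
      linarith only [gP2r]
    Aya := by
      have e : (2 : ℤ) ^ 2 * 2 ^ R = 4 * 2 ^ R := by ring
      rw [e] at av2
      exact av2
    A2ra := by
      have e : (2 : ℤ) ^ 1 * 2 ^ (R - 1) = 2 ^ R := by rw [hp3z]; ring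
      rw [e] at av3
      rw [hp3z] at av3 ⊢
      linarith only [av3]
    P2ra := by
      have e : (2 : ℤ) ^ 1 * 2 ^ (R - 1) = 2 ^ R := by rw [hp3z]; ring
      rw [e] at av4
      rw [hp3z] at av4 ⊢
      linarith only [av4]
    avK := by
      have e : (2 : ℤ) ^ (R + 1) = 2 * 2 ^ R := by ring
      rw [pow_zero, one_mul, e] at av5
      exact av5
    avW := by
      have e : (2 : ℤ) ^ (R + 1) = 2 * 2 ^ R := by ring
      rw [pow_zero, one_mul, e] at av6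
      exact av6
    avP := by
      rw [pow_zero, one_mul] at av7
      exact av7
    avA := by
      rw [pow_zero, one_mul] at av8
      exact av8
    cost1 := by linarith only [D0, k1']
    cost2 := by linarith only [D0, k2']
    cost3 := by linarith only [D0, k3', gW1]
    cost4 := by linarith only [D0, k4', gW0] }⟩
  · have : (W.card : ℤ) ≤ 2 * A.card + (W \ K).card := by linarith
    exact_mod_cast this
  · have : (A.card : ℤ) ≤ 2 * A2.card + (A \ P).card := by linarith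
    exact_mod_cast this
  · intro Q hQ
    rw [← c1]
    refine hQ _ _ n1.sub_W _ (half2_max n1.half2_W) (max_le y1 ?_)
    linarith
  · intro Q hQ
    rw [← c2]
    refine hQ _ _ n2.sub_W _ (half2_max n2.half2_W) (max_le y2 ?_)
    linarith
  · intro Q hQ
    rw [← c3]
    refine hQ _ _ n3.sub_W _ (half2_max n3.half2_W) (max_le y3 ?_)
    linarith
  · intro Q hQ
    rw [← hs]
    exact hQ _ _ _ hF n1.minh IH hneg
  · intro Q hQ
    rw [← c1]
    refine hQ _ _ n1.sub_W _ (hB.minHalf h12).half2 ?_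
    have h1 : ((2 * v2 : ℕ) : ℤ) ≤ W.card := by exact_mod_cast h2q
    have h2 : (v1 : ℤ) ≤ v2 := by exact_mod_cast h12
    push_cast at h1
    linarith
  · intro Q hQ
    rw [← c1]
    refine hQ _ _ i v2 n1.sub_W hi ?_ h2q
    intro e he d
    exact hB.2 e (mem_of_mem_erase he) (ne_of_mem_erase he) d

end Pool.Agent.EdgeIso.Frame
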