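import Pool.Agent.Lib.MP_48c8f3_co.Bas
import Pool.Agent.Lib.MP_48c8f3_co.KGa
import Pool.Agent.Lib.MP_48c8f3_co.KZa

set_option autoImplicit false
set_option linter.unusedSectionVars false

/-!
MP_48c8f3_co: rows of the tables from arrays, from the Fourier bound and from the rows `B`; the
items of the checker at a scaled point.
-/

namespace Pool.Agent.EdgeIso.Chk

open Finset Pool.Agent.EdgeIso.Frame Pool.Agent.EdgeIso.Cell Pool.Agent.EdgeIso.Walsh
  Pool.Agent.EdgeIso.LemmaP

variable {α : Type*} [DecidableEq α]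

/-- the D-item at a scaled point -/
theorem dt_scaled {S : SysL} {x : ℕ → ℤ} {G c R p q ep eq es : ℕ} {d : List ℤ} {δ : ℤ}
    (hG : S.GG = 2 ^ G) (hN : G ≤ c + R) (hx : x 0 = 2 ^ c * 2 ^ R)
    (hT : ∀ i j, (dgt S.GT i j : ℤ) ≤ dg i j)
    (hp : dot (S.fe ep) x = 2 ^ c * p) (hq : dot (S.fe eq) x = 2 ^ c * q)
    (hs : dot (S.fe es) x = 2 ^ c * ((p : ℤ) + q)) (hd : dot d x = 2 ^ c * δ) (hδ : dg p q ≤ δ) :
    (ItemL.dt ep eq es d).Sem S x := by
  refine dt_sem (p := 2 ^ c * p) (q := 2 ^ c * q) hG hN (by rw [hx, pow_add]) hT ?_ ?_ ?_ ?_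
  · rw [hp]; push_cast; ring
  · rw [hq]; push_cast; ring
  · rw [hs]; push_cast; ring
  · rw [dg_pow, hd]
    exact mul_le_mul_of_nonneg_left hδ (by positivity)

theorem tab_zero {T W b i B : ℕ} (h : T < 2 ^ (24 * (B * W))) (hb : B ≤ b) : tab T W b i = 0 := by
  unfold tab
  have h1 : Nat.shiftRight T (Nat.mul 24 (Nat.add (Nat.mul b W) i)) = 0 := by
    show T >>> (24 * (b * W + i)) = 0
    rw [Nat.shiftRight_eq_div_pow]
    apply Nat.div_eq_of_lt
    refine h.trans_le (Nat.pow_le_pow_right (by norm_num) ?_)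
    have : B * W ≤ b * W := Nat.mul_le_mul_right _ hb
    omega
  rw [h1]

/-- `r` times the table lies below an array -/
def linkB (r T W B I : ℕ) (A : ℕ → ℕ → ℕ) : Bool :=
  Nat.blt T (2 ^ (24 * (B * W))) &&
    allB B (fun b => allB (I + 1) (fun i => Nat.ble (r * tab T W b i) (A i b)))

theorem linkB_lt {r T W B I : ℕ} {A : ℕ → ℕ → ℕ} (h : linkB r T W B I A = true) :
    T < 2 ^ (24 * (B * W)) := by
  unfold linkB at h
  rw [Bool.and_eq_true] at h
  have := h.1
  unfold Nat.blt at this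
  exact Nat.le_of_ble_eq_true this

theorem linkB_spec {r T W B I : ℕ} {A : ℕ → ℕ → ℕ} (h : linkB r T W B I A = true) (b i : ℕ)
    (hi : i ≤ I) : r * tab T W b i ≤ A i b := by
  have h1' := linkB_lt h
  unfold linkB at h
  rw [Bool.and_eq_true] at h
  obtain ⟨h1, h2⟩ := h
  rcases Nat.lt_or_ge b B with hb | hb
  · have h3 := allB_spec _ _ h2 b hb
    have h4 := allB_spec _ _ h3 i (by omega)
    exact Nat.le_of_ble_eq_true h4
  · rw [tab_zero h1' hb, Nat.mul_zero]
    exact Nat.zero_le _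

/-- all rows of the table hold for a family -/
def Rows (c rc γ T W N x : ℕ) (v L : ℤ) : Prop :=
  ∀ b : ℕ, IRow c rc γ b (fun i => tab T W b i) N x v L

theorem irow_div {r c rc γ b N x : ℕ} {T : ℕ → ℤ} {v L : ℤ} (hr : 0 < r)
    (h : IRow (r * c) (r * rc) γ b (fun i => r * T i) N x v L) : IRow c rc γ b T N x v L := by
  intro i h1 h2
  have h3 := h i h1 h2
  have hr' : (0 : ℤ) < r := by exact_mod_cast hr
  apply le_of_mul_le_mul_left _ hr'
  push_cast at h3
  linarith

/-- rows from an array -/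
theorem rows_of_fin {γ ρ r c T W B I : ℕ} {A : ℕ → ℕ → ℕ} (hr : 0 < r)
    (hA : FinBd α γ ρ (r * c) (fun i β => ((A i β : ℕ) : ℤ))) (hl : linkB r T W B I A = true) :
    LBnd α (fun N x v L => 0 ≤ v → 2 ^ γ * x ≤ 2 ^ N * I → Rows c (ρ * c) γ T W N x v L) := by
  intro s X hX v hv hvx h0 hx b
  obtain ⟨U, rfl⟩ := Int.eq_ofNat_of_zero_le h0
  have hH : Hf s X U := by
    intro a ha b'
    have := hv a ha b'
    exact_mod_cast this
  have h1 := hA s X hX U hH (by exact_mod_cast hvx) b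
  have h2 : IRow (r * c) (r * (ρ * c)) γ b (fun i => ((A i b : ℕ) : ℤ)) s.card X.card U
      (L2 s X) := by
    apply irow_of_ev
    push_cast at h1 ⊢
    refine h1.trans (le_of_eq ?_)
    ring
  apply irow_div hr
  exact h2.mono hx (fun i hi => by exact_mod_cast linkB_spec hl b i hi)

/-- a row with zero entries -/
theorem irow_zero {c rc γ b : ℕ} {T : ℕ → ℤ} {N x : ℕ} {v L : ℤ} (hL : 0 ≤ L)
    (hT : ∀ i, T i = 0) : IRow c rc γ b T N x v L := by
  intro i _ _
  rw [hT, hT]
  have h1 := le_max_left (0 : ℤ) (2 ^ N * (2 * b) - 2 ^ γ * v)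
  have h2 : (0 : ℤ) ≤ c * (2 ^ γ * L) + rc * max 0 (2 ^ N * (2 * b) - 2 ^ γ * v) := by
    positivity
  linarith

/-- the rows of a table of type `B` hold for a family -/
theorem rows_of_B {ι : Type*} {γ r c rB T W B I : ℕ} {R : ι → ℕ} {A : ι → ℕ → ℕ → ℤ}
    {Bt : ℕ → ℕ → ℕ} (hr : 0 < r) (hA : ∀ t, FinBd α γ (R t) (r * c) (A t))
    (hB : ∀ b, b < B → RowB γ (r * c) rB R A b (fun i => ((Bt i b : ℕ) : ℤ)))
    (hl : linkB r T W B I (fun i b => Bt i b) = true) :
    BBnd α (fun N x v L => 2 ^ γ * x ≤ 2 ^ N * I →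
      Rows c (rB * c) γ T W N x (2 * (v : ℤ)) L) := by
  intro s X a v hX ha hv h2v hx b
  rcases Nat.lt_or_ge b B with hb | hb
  · have h1 := (hB b hb).bound hA hX ha hv h2v
    have h2 : IRow (r * c) (r * (rB * c)) γ b (fun i => ((Bt i b : ℕ) : ℤ)) s.card X.card
        (2 * (v : ℤ)) (L2 s X) := by
      apply irow_of_ev
      push_cast at h1 ⊢
      refine h1.trans (le_of_eq ?_)
      ring
    apply irow_div hr
    exact h2.mono hx (fun i hi => by exact_mod_cast linkB_spec hl b i hi)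
  · exact irow_zero (L2_nonneg hX) (fun i => by rw [tab_zero (linkB_lt hl) hb]; rfl)

/-! ### values given by a list -/

/-- scalar product of two lists -/
def dotV : List ℤ → List ℤ → ℤ
  | c :: L, v :: vs => c * v + dotV L vs
  | _, _ => 0

/-- the point with the coordinates in a list -/
def ptV (vs : List ℤ) : ℕ → ℤ := fun i => vs.getD i 0

theorem dot_ptV : ∀ (L vs : List ℤ), dot L (ptV vs) = dotV L vs := by
  intro L
  induction L with
  | nil => intro vs; cases vs <;> rfl
  | cons c L ih =>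
    intro vs
    cases vs with
    | nil =>
      show c * ptV [] 0 + dot L (fun i => ptV [] (i + 1)) = 0
      have h1 : ∀ (L : List ℤ) (x : ℕ → ℤ), (∀ i, x i = 0) → dot L x = 0 := by
        intro L
        induction L with
        | nil => intro x _; rfl
        | cons c L ih2 =>
          intro x hx
          show c * x 0 + dot L _ = 0
          rw [hx 0, ih2 _ (fun i => hx (i + 1))]
          ring
      have h2 : ∀ i, ptV [] i = 0 := by
        intro i
        simp [ptV]
      rw [h1 L _ (fun i => h2 (i + 1)), h2 0]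
      ring
    | cons v vs =>
      show c * ptV (v :: vs) 0 + dot L (fun i => ptV (v :: vs) (i + 1)) = c * v + dotV L vs
      rw [← ih vs]
      rfl

end Pool.Agent.EdgeIso.Chk
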