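import Pool.Agent.Lib.MP_48c8f3_co.Bas
import Pool.Agent.Lib.MP_48c8f3_co.KGb

set_option autoImplicit false
set_option linter.unusedSectionVars false

/-!
MP_48c8f3_co: tables from the Fourier bound with shifted entries.
-/

namespace Pool.Agent.EdgeIso.Chk

open Finset Pool.Agent.EdgeIso.Frame Pool.Agent.EdgeIso.Cell Pool.Agent.EdgeIso.Walsh
  Pool.Agent.EdgeIso.LemmaP

variable {α : Type*} [DecidableEq α]

/-- the condition for one interval, the denominator goes from `D0` to `D1` -/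
def FC (G c i : ℕ) (t0 t1 T0 T1 D0 D1 : ℤ) : Prop :=
  0 ≤ 12 * c * (i * ((G : ℤ) - i)) - D0 * (c * (3 * t0 + 2) + 3 * T0) ∧
  0 ≤ 12 * c * (i * ((G : ℤ) - i - 1) + (i + 1) * (G - i)) -
    (D0 * (c * (3 * t1 + 2) + 3 * T1) + D1 * (c * (3 * t0 + 2) + 3 * T0)) ∧
  0 ≤ 12 * c * ((i + 1) * ((G : ℤ) - i - 1)) - D1 * (c * (3 * t1 + 2) + 3 * T1)

theorem fc_bound {γ c i N : ℕ} {x L t T0 T1 D0 D1 δ D : ℤ}
    (h : FC (2 ^ γ) c i (tk γ i) (tk γ (i + 1)) T0 T1 D0 D1)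
    (h1 : (2 : ℤ) ^ N * i ≤ 2 ^ γ * x) (h2 : 2 ^ γ * x ≤ (2 : ℤ) ^ N * ((i : ℤ) + 1))
    (htk : 3 * (2 ^ γ * t) ≤ 3 * ((2 ^ N * ((i : ℤ) + 1) - 2 ^ γ * x) * tk γ i +
      (2 ^ γ * x - 2 ^ N * i) * tk γ (i + 1)) + 2 * 2 ^ N)
    (hD : D = (2 ^ N * ((i : ℤ) + 1) - 2 ^ γ * x) * D0 + (2 ^ γ * x - 2 ^ N * i) * D1)
    (hDpos : 0 < D)
    (hS : 4 * (2 ^ γ * x) * (2 ^ γ * 2 ^ N - 2 ^ γ * x) ≤ D * (2 ^ γ * L + 2 ^ γ * t + 2 * δ)) :
    (2 ^ N * ((i : ℤ) + 1) - 2 ^ γ * x) * T0 + (2 ^ γ * x - 2 ^ N * i) * T1 ≤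
      c * (2 ^ γ * L) + 2 * c * δ := by
  obtain ⟨p0, p1, p2⟩ := h
  have hGc : ((2 ^ γ : ℕ) : ℤ) = 2 ^ γ := by push_cast; rfl
  rw [hGc] at p0 p1 p2
  have hc : (0 : ℤ) ≤ c := by positivity
  obtain ⟨A, hA⟩ : ∃ A, A = (2 : ℤ) ^ N * ((i : ℤ) + 1) - 2 ^ γ * x := ⟨_, rfl⟩
  obtain ⟨B, hB⟩ : ∃ B, B = 2 ^ γ * x - (2 : ℤ) ^ N * i := ⟨_, rfl⟩
  have hAB : A + B = 2 ^ N := by rw [hA, hB]; ring
  have hA0 : 0 ≤ A := by rw [hA]; linarith
  have hB0 : 0 ≤ B := by rw [hB]; linarith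
  rw [← hA, ← hB] at htk hD ⊢
  have hGx : 2 ^ γ * x = 2 ^ N * i + B := by rw [hB]; ring
  set M : ℤ := 2 ^ N with hMd
  set G : ℤ := 2 ^ γ with hGd
  set t0 : ℤ := tk γ i with ht0
  set t1 : ℤ := tk γ (i + 1) with ht1
  have hbern := bern hA0 hB0 p0 p1 p2
  have key : A ^ 2 * (12 * c * (i * (G - i)) - D0 * (c * (3 * t0 + 2) + 3 * T0)) +
      A * B * (12 * c * (i * (G - i - 1) + (i + 1) * (G - i)) -
        (D0 * (c * (3 * t1 + 2) + 3 * T1) + D1 * (c * (3 * t0 + 2) + 3 * T0))) +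
      B ^ 2 * (12 * c * ((i + 1) * (G - i - 1)) - D1 * (c * (3 * t1 + 2) + 3 * T1)) =
      3 * c * (4 * (G * x) * (G * M - G * x)) -
        D * (c * (3 * (A * t0 + B * t1) + 2 * M) + 3 * (A * T0 + B * T1)) := by
    rw [hD, hGx, ← hAB]
    ring
  rw [key] at hbern
  have h5 := mul_le_mul_of_nonneg_left hS (by positivity : (0 : ℤ) ≤ 3 * c)
  have h6 : D * (c * (3 * (A * t0 + B * t1) + 2 * M) + 3 * (A * T0 + B * T1)) ≤
      D * (3 * c * (G * L + G * t + 2 * δ)) := by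
    have e1 : D * (3 * c * (G * L + G * t + 2 * δ)) =
      3 * c * (D * (G * L + G * t + 2 * δ)) := by ring
    rw [e1]
    linarith
  have h7 := le_of_mul_le_mul_left h6 hDpos
  have h8 := mul_le_mul_of_nonneg_left htk hc
  linarith

theorem half2_big {s : Finset α} {X : Finset (Finset α)} (hX : Sub s X) :
    Half2 s X (2 * (X.card : ℤ) - 2 ^ s.card) := by
  intro j hj c
  have h1 := (hX.half j (!c)).card_le
  have h2 := card_half_add' j c X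
  have h3 : s.card = (s.erase j).card + 1 := (card_erase_add_one hj).symm
  have h4 : (2 : ℤ) ^ s.card = 2 * 2 ^ (s.erase j).card := by rw [h3, pow_succ]; ring
  have h1z : ((half j (!c) X).card : ℤ) ≤ 2 ^ (s.erase j).card := by exact_mod_cast h1
  have h2z : ((half j c X).card : ℤ) + (half j (!c) X).card = X.card := by exact_mod_cast h2
  rw [h4]
  linarith

/-- from the Fourier bound to the form with the denominator `D` -/
theorem four_D {X Y D Dt S δ : ℤ} (h : 4 * X * Y ≤ Dt * S) (hD : Dt ≤ D + 2 * δ) (hδ : 0 ≤ δ)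
    (hS : 0 ≤ S) (hsq : 4 * X * Y ≤ D ^ 2) (hDpos : 0 < D) : 4 * X * Y ≤ D * (S + 2 * δ) := by
  have h3 : 4 * X * Y ≤ (D + 2 * δ) * S := h.trans (mul_le_mul_of_nonneg_right hD hS)
  rcases le_total D S with hDS | hDS
  · have q3 : D ^ 2 ≤ D * S := by
      rw [pow_two]
      exact mul_le_mul_of_nonneg_left hDS hDpos.le
    have q4 : 0 ≤ D * (2 * δ) := by positivity
    linarith
  · have q5 : δ * S ≤ δ * D := mul_le_mul_of_nonneg_left hDS hδ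
    linarith

/-- the Fourier bound as a row of a table, three forms -/
theorem fc_row {γ c b i N : ℕ} {T0 T1 : ℤ} {s : Finset α} (hs : s.card = N)
    {X : Finset (Finset α)} (hX : Sub s X) {v : ℤ} (hv : Half2 s X v) (hvx : v ≤ X.card)
    (hi : i < 2 ^ γ)
    (h : (2 * b ≤ i ∧ FC (2 ^ γ) c i (tk γ i) (tk γ (i + 1)) T0 T1 (2 ^ γ + 2 * i - 4 * b)
        (2 ^ γ + 2 * i - 4 * b + 2)) ∨
      (i + 1 ≤ 2 * b ∧ FC (2 ^ γ) c i (tk γ i) (tk γ (i + 1)) T0 T1 (2 ^ γ) (2 ^ γ)) ∨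
      FC (2 ^ γ) c i (tk γ i) (tk γ (i + 1)) T0 T1 (3 * 2 ^ γ - 2 * i) (3 * 2 ^ γ - 2 * i - 2))
    (h1 : 2 ^ N * i ≤ 2 ^ γ * X.card) (h2 : 2 ^ γ * X.card ≤ 2 ^ N * (i + 1)) :
    (2 ^ N * ((i : ℤ) + 1) - 2 ^ γ * X.card) * T0 + (2 ^ γ * (X.card : ℤ) - 2 ^ N * i) * T1 ≤
      c * (2 ^ γ * L2 s X) + 2 * c * max 0 (2 ^ N * (2 * b) - 2 ^ γ * v) := by
  have hL := L2_nonneg hX
  have z1 : (2 : ℤ) ^ N * i ≤ 2 ^ γ * X.card := by exact_mod_cast h1
  have z2 : (2 : ℤ) ^ γ * X.card ≤ 2 ^ N * ((i : ℤ) + 1) := by exact_mod_cast h2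
  have hγ : (0 : ℤ) < 2 ^ γ := by positivity
  have hM : (0 : ℤ) < 2 ^ N := by positivity
  have hm0 := le_max_left (0 : ℤ) (2 ^ N * (2 * b) - 2 ^ γ * v)
  have hm1 := le_max_right (0 : ℤ) (2 ^ N * (2 * b) - 2 ^ γ * v)
  have htk := tk_interp h1 h2
  have hF := fourier_L2 hX hv hvx
  have hF' := fourier_L2 hX (half2_big hX) (by
    have := hX.card_le
    have h3 : (X.card : ℤ) ≤ 2 ^ s.card := by exact_mod_cast this
    linarith)
  rw [hs] at hF hF'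
  have e0 : (N : ℤ) * X.card - 2 * g X.card = tk N X.card := rfl
  rw [e0] at hF hF'
  have hxle : (X.card : ℤ) ≤ 2 ^ N := by
    have := hX.card_le
    rw [hs] at this
    exact_mod_cast this
  have hx0 : (0 : ℤ) ≤ X.card := by positivity
  have ht0' : 0 ≤ tk N X.card := tk_nonneg N _ (by rw [← hs]; exact hX.card_le)
  have hS0 : 0 ≤ 2 ^ γ * L2 s X + 2 ^ γ * tk N X.card := by positivity
  have hGM : (0 : ℤ) < 2 ^ γ * 2 ^ N := mul_pos hγ hM
  have hiz : (i : ℤ) + 1 ≤ 2 ^ γ := by exact_mod_cast hi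
  -- squares
  have hsq : ∀ D : ℤ, 2 ^ γ * 2 ^ N ≤ D →
      4 * (2 ^ γ * (X.card : ℤ)) * (2 ^ γ * 2 ^ N - 2 ^ γ * X.card) ≤ D ^ 2 := by
    intro D hD
    have q1 : 4 * (2 ^ γ * (X.card : ℤ)) * (2 ^ γ * 2 ^ N - 2 ^ γ * X.card) ≤
        ((2 : ℤ) ^ γ * 2 ^ N) ^ 2 := by
      nlinarith [sq_nonneg ((2 : ℤ) ^ γ * 2 ^ N - 2 * (2 ^ γ * (X.card : ℤ)))]
    exact q1.trans (pow_le_pow_left₀ hGM.le hD 2)
  have hbase : ∀ w : ℤ, 4 * (X.card : ℤ) * (2 ^ N - X.card) ≤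
      (2 ^ N + 2 * (X.card - w)) * (L2 s X + tk N X.card) →
      4 * (2 ^ γ * (X.card : ℤ)) * (2 ^ γ * 2 ^ N - 2 ^ γ * X.card) ≤
      (2 ^ γ * 2 ^ N + 2 * (2 ^ γ * X.card - 2 ^ γ * w)) *
        (2 ^ γ * L2 s X + 2 ^ γ * tk N X.card) := by
    intro w hw
    have := mul_le_mul_of_nonneg_left hw (by positivity : (0 : ℤ) ≤ (2 ^ γ) ^ 2)
    refine le_trans (le_of_eq (by ring)) (this.trans (le_of_eq (by ring)))
  rcases h with ⟨hb, h⟩ | ⟨hb, h⟩ | h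
  · have hbz : (2 * (b : ℤ)) ≤ i := by exact_mod_cast hb
    have hMb : (2 : ℤ) ^ N * (2 * b) ≤ 2 ^ N * i := mul_le_mul_of_nonneg_left hbz hM.le
    refine fc_bound h z1 z2 htk (D := 2 ^ γ * 2 ^ N + 2 * (2 ^ γ * X.card - 2 ^ N * (2 * b)))
      (by ring) (by linarith) ?_
    exact four_D (hbase v hF) (by linarith) hm0 hS0 (hsq _ (by linarith)) (by linarith)
  · have hbz : ((i : ℤ) + 1) ≤ 2 * b := by exact_mod_cast hb
    have hMb : (2 : ℤ) ^ N * (i + 1) ≤ 2 ^ N * (2 * b) := mul_le_mul_of_nonneg_left hbz hM.le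
    refine fc_bound h z1 z2 htk (D := 2 ^ γ * 2 ^ N) (by ring) hGM ?_
    exact four_D (hbase v hF) (by linarith) hm0 hS0 (hsq _ le_rfl) hGM
  · have hxM : (2 : ℤ) ^ γ * X.card ≤ 2 ^ γ * 2 ^ N := mul_le_mul_of_nonneg_left hxle hγ.le
    refine fc_bound h z1 z2 htk (D := 3 * (2 ^ γ * 2 ^ N) - 2 * (2 ^ γ * X.card)) (by ring)
      (by linarith) ?_
    refine four_D (hbase _ hF') ?_ hm0 hS0 (hsq _ (by linarith)) (by linarith)
    have : (2 : ℤ) ^ γ * (2 * X.card - 2 ^ N) = 2 * (2 ^ γ * X.card) - 2 ^ γ * 2 ^ N := by ring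
    rw [this]
    linarith

/-- boolean form of the condition, entries shifted by `c * sh` -/
def fcB (G c sh i t0 t1 a0 a1 D0 D1 : ℕ) : Bool :=
  Nat.ble (D0 * (c * (3 * t0 + 2) + 3 * a0)) (12 * c * (i * (G - i)) + D0 * (3 * (c * sh))) &&
  Nat.ble (D0 * (c * (3 * t1 + 2) + 3 * a1) + D1 * (c * (3 * t0 + 2) + 3 * a0))
    (12 * c * (i * (G - i - 1) + (i + 1) * (G - i)) + (D0 + D1) * (3 * (c * sh))) &&
  Nat.ble (D1 * (c * (3 * t1 + 2) + 3 * a1))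
    (12 * c * ((i + 1) * (G - i - 1)) + D1 * (3 * (c * sh)))

theorem fcB_spec {G c sh i t0 t1 a0 a1 D0 D1 : ℕ} (hi : i < G)
    (h : fcB G c sh i t0 t1 a0 a1 D0 D1 = true) :
    FC G c i t0 t1 ((a0 : ℤ) - c * sh) ((a1 : ℤ) - c * sh) D0 D1 := by
  unfold fcB at h
  simp only [Bool.and_eq_true, Nat.ble_eq] at h
  obtain ⟨⟨h0, h1⟩, h2⟩ := h
  obtain ⟨r, hr⟩ := Nat.exists_eq_add_of_lt hi
  have a2 : G - i = r + 1 := by omega
  have a3 : G - i - 1 = r := by omega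
  rw [a2] at h0
  rw [a3, a2] at h1
  rw [a3] at h2
  have b1 : (G : ℤ) = i + r + 1 := by exact_mod_cast hr
  zify at h0 h1 h2
  unfold FC
  rw [b1]
  have e1 : (i : ℤ) + r + 1 - i = r + 1 := by ring
  have e2 : (i : ℤ) + r + 1 - i - 1 = r := by ring
  rw [e1, show (r : ℤ) + 1 - 1 = r by ring]
  refine ⟨?_, ?_, ?_⟩
  · linarith
  · linarith
  · linarith

/-- check of the row `b` -/
def rowFD (GT γ c sh T W b : ℕ) : Bool :=
  Nat.ble (tab T W b (2 ^ γ)) (c * sh) &&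
  allB (2 ^ γ) (fun i =>
    (Nat.ble (2 * b) i && fcB (2 ^ γ) c sh i (tkt GT γ i) (tkt GT γ (i + 1)) (tab T W b i)
      (tab T W b (i + 1)) (2 ^ γ + 2 * i - 4 * b) (2 ^ γ + 2 * i - 4 * b + 2)) ||
    ((Nat.ble (i + 1) (2 * b) && fcB (2 ^ γ) c sh i (tkt GT γ i) (tkt GT γ (i + 1)) (tab T W b i)
      (tab T W b (i + 1)) (2 ^ γ) (2 ^ γ)) ||
    fcB (2 ^ γ) c sh i (tkt GT γ i) (tkt GT γ (i + 1)) (tab T W b i)
      (tab T W b (i + 1)) (3 * 2 ^ γ - 2 * i) (3 * 2 ^ γ - 2 * i - 2)))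

/-- check of a table with `B` rows -/
def tabFD (GT γ c sh T W B : ℕ) : Bool :=
  Nat.blt T (2 ^ (24 * (B * W))) && allB B (fun b => rowFD GT γ c sh T W b)

/-- shift of a row -/
theorem irow_shift {c rc γ b sh N x : ℕ} {T : ℕ → ℤ} {v L S : ℤ}
    (h : IRow c rc γ b (fun i => T i - c * sh) N x v L) (hS : (2 : ℤ) ^ N * sh = 2 ^ γ * S) :
    IRow c rc γ b T N x v (L + S) := by
  intro i h1 h2
  have h3 := h i h1 h2
  have h4 : (c : ℤ) * (2 ^ N * sh) = c * (2 ^ γ * S) := by rw [hS]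
  linarith

/-- rows from the Fourier bound -/
theorem rows_of_fourierS {GT MM γ c sh T W B : ℕ} (hGT : gtOK GT MM = true)
    (hM : 2 ^ γ + 1 < 2 * MM) (hl : tabFD GT γ c sh T W B = true) :
    LBnd α (fun N x v L => ∀ S : ℤ, (2 : ℤ) ^ N * sh = 2 ^ γ * S →
      Rows c (2 * c) γ T W N x v (L + S)) := by
  intro s X hX v hv hvx S hS b
  unfold tabFD at hl
  rw [Bool.and_eq_true] at hl
  obtain ⟨h1, h2⟩ := hl
  have h1' : T < 2 ^ (24 * (B * W)) := by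
    unfold Nat.blt at h1
    exact Nat.le_of_ble_eq_true h1
  have hγ : (0 : ℤ) < 2 ^ γ := by positivity
  have hS0 : 0 ≤ S := by
    have : (0 : ℤ) ≤ 2 ^ γ * S := by rw [← hS]; positivity
    exact nonneg_of_mul_nonneg_right this hγ
  have hL := L2_nonneg hX
  rcases Nat.lt_or_ge b B with hb | hb
  · apply irow_shift _ hS
    intro i g1 g2
    have hxle : (X.card : ℤ) ≤ 2 ^ s.card := by exact_mod_cast hX.card_le
    have h3 := allB_spec _ _ h2 b hb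
    unfold rowFD at h3
    rw [Bool.and_eq_true] at h3
    obtain ⟨h4, h5⟩ := h3
    have h4' : tab T W b (2 ^ γ) ≤ c * sh := Nat.le_of_ble_eq_true h4
    have hm0 := le_max_left (0 : ℤ) (2 ^ s.card * (2 * b) - 2 ^ γ * v)
    rcases Nat.lt_or_ge i (2 ^ γ) with hi | hi
    · have h6 := allB_spec _ _ h5 i hi
      have t0 := tkt_eq (γ := γ) (i := i) hGT (by omega) (by omega)
      have t1 := tkt_eq (γ := γ) (i := i + 1) hGT (by omega) (by omega)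
      have key : (2 * b ≤ i ∧ FC (2 ^ γ) c i (tk γ i) (tk γ (i + 1))
          ((tab T W b i : ℤ) - c * sh) ((tab T W b (i + 1) : ℤ) - c * sh) (2 ^ γ + 2 * i - 4 * b)
          (2 ^ γ + 2 * i - 4 * b + 2)) ∨
        (i + 1 ≤ 2 * b ∧ FC (2 ^ γ) c i (tk γ i) (tk γ (i + 1))
          ((tab T W b i : ℤ) - c * sh) ((tab T W b (i + 1) : ℤ) - c * sh) (2 ^ γ) (2 ^ γ)) ∨
        FC (2 ^ γ) c i (tk γ i) (tk γ (i + 1)) ((tab T W b i : ℤ) - c * sh)
          ((tab T W b (i + 1) : ℤ) - c * sh) (3 * 2 ^ γ - 2 * i) (3 * 2 ^ γ - 2 * i - 2) := by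
        rw [← t0, ← t1]
        simp only [Bool.or_eq_true, Bool.and_eq_true] at h6
        rcases h6 with ⟨c1, c2⟩ | ⟨c1, c2⟩ | c2
        · left
          have c1' : 2 * b ≤ i := Nat.le_of_ble_eq_true c1
          refine ⟨c1', ?_⟩
          have := fcB_spec hi c2
          have e1 : (((2 ^ γ + 2 * i - 4 * b : ℕ)) : ℤ) = 2 ^ γ + 2 * i - 4 * b := by
            have : 4 * b ≤ 2 ^ γ + 2 * i := by omega
            push_cast [this]
            ring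
          rw [Nat.cast_add, e1] at this
          exact_mod_cast this
        · right
          left
          have c1' : i + 1 ≤ 2 * b := Nat.le_of_ble_eq_true c1
          refine ⟨c1', ?_⟩
          have := fcB_spec hi c2
          have e1 : (((2 ^ γ : ℕ)) : ℤ) = 2 ^ γ := by push_cast; rfl
          rw [e1] at this
          exact this
        · right
          right
          have := fcB_spec hi c2
          have e1 : (((3 * 2 ^ γ - 2 * i : ℕ)) : ℤ) = 3 * 2 ^ γ - 2 * i := by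
            have : 2 * i ≤ 3 * 2 ^ γ := by omega
            push_cast [this]
            ring
          have e2 : (((3 * 2 ^ γ - 2 * i - 2 : ℕ)) : ℤ) = 3 * 2 ^ γ - 2 * i - 2 := by
            have h8 : 2 ≤ 3 * 2 ^ γ - 2 * i := by omega
            rw [Nat.cast_sub h8, e1]
            rfl
          rw [e1, e2] at this
          exact this
      have h5 := fc_row rfl hX hv hvx hi key g1 g2
      push_cast at h5 ⊢
      linarith
    · -- the full cube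
      have hiz : (2 : ℤ) ^ γ ≤ i := by exact_mod_cast hi
      have g1z : (2 : ℤ) ^ s.card * i ≤ 2 ^ γ * X.card := by exact_mod_cast g1
      have k1 : (2 : ℤ) ^ γ * X.card ≤ 2 ^ γ * 2 ^ s.card := mul_le_mul_of_nonneg_left hxle hγ.le
      have hp : (0 : ℤ) < 2 ^ s.card := by positivity
      have k2 : (2 : ℤ) ^ s.card * 2 ^ γ ≤ 2 ^ s.card * i := mul_le_mul_of_nonneg_left hiz hp.le
      have k3 : 2 ^ γ * (X.card : ℤ) - 2 ^ s.card * i = 0 := by linarith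
      have k4 : (i : ℤ) = 2 ^ γ := by
        have : (2 : ℤ) ^ s.card * i ≤ 2 ^ s.card * 2 ^ γ := by linarith
        exact le_antisymm (le_of_mul_le_mul_left this hp) hiz
      have k5 : i = 2 ^ γ := by exact_mod_cast k4
      have h4z : ((tab T W b i : ℕ) : ℤ) ≤ c * sh := by rw [k5]; exact_mod_cast h4'
      have k6 : 2 ^ s.card * ((i : ℤ) + 1) - 2 ^ γ * (X.card : ℤ) = 2 ^ s.card := by linarith
      show (2 ^ s.card * ((i : ℤ) + 1) - 2 ^ γ * (X.card : ℤ)) * ((tab T W b i : ℤ) - c * sh) +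
        (2 ^ γ * (X.card : ℤ) - 2 ^ s.card * i) * ((tab T W b (i + 1) : ℤ) - c * sh) ≤ _
      rw [k3, k6]
      have k7 : (2 : ℤ) ^ s.card * ((tab T W b i : ℤ) - c * sh) ≤ 0 :=
        mul_nonpos_of_nonneg_of_nonpos hp.le (by linarith)
      have k8 : (0 : ℤ) ≤ c * (2 ^ γ * L2 s X) + ((2 * c : ℕ) : ℤ) *
        max 0 (2 ^ s.card * (2 * b) - 2 ^ γ * v) := by positivity
      linarith
  · exact irow_zero (by linarith) (fun i => by rw [tab_zero h1' hb]; rfl)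

end Pool.Agent.EdgeIso.Chk
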