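import Pool.Agent.Lib.MP_48c8f3_co.Bas
import Pool.Agent.Lib.MP_48c8f3_co.KRb

set_option autoImplicit false
set_option linter.unusedSectionVars false

/-!
MP_48c8f3_co: the items of the checker at a point whose coordinates are a list times a power of
two.
-/

namespace Pool.Agent.EdgeIso.Chk

open Finset Pool.Agent.EdgeIso.Frame Pool.Agent.EdgeIso.Cell Pool.Agent.EdgeIso.Walsh
  Pool.Agent.EdgeIso.LemmaP

/-- the scaled point -/
def ptS (k : ℕ) (vs : List ℤ) : ℕ → ℤ := ptV (vs.map (fun v => 2 ^ k * v))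

theorem dotV_map (κ : ℤ) : ∀ (L vs : List ℤ), dotV L (vs.map (fun v => κ * v)) = κ * dotV L vs := by
  intro L
  induction L with
  | nil => intro vs; cases vs <;> simp [dotV]
  | cons c L ih =>
    intro vs
    cases vs with
    | nil => simp [dotV]
    | cons v vs =>
      show c * (κ * v) + dotV L (vs.map (fun v => κ * v)) = κ * (c * v + dotV L vs)
      rw [ih]
      ring

theorem dot_ptS (k : ℕ) (L vs : List ℤ) : dot L (ptS k vs) = 2 ^ k * dotV L vs := by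
  unfold ptS
  rw [dot_ptV, dotV_map]

theorem ptS_nonneg {k : ℕ} {vs : List ℤ} (h : ∀ v ∈ vs, 0 ≤ v) (i : ℕ) : 0 ≤ ptS k vs i := by
  unfold ptS ptV
  rcases Nat.lt_or_ge i (vs.map (fun v => (2 : ℤ) ^ k * v)).length with hi | hi
  · rw [List.getD_eq_getElem _ _ hi, List.getElem_map]
    rw [List.length_map] at hi
    exact mul_nonneg (by positivity) (h _ (List.getElem_mem hi))
  · rw [List.getD_eq_default _ _ hi]

/-! ### sparse evaluation -/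

/-- the value of a form given as a list of pairs (variable, coefficient) -/
def sdS : List (ℕ × ℤ) → (ℕ → ℤ) → ℤ
  | [], _ => 0
  | a :: l, x => a.2 * x a.1 + sdS l x

theorem sdS_eq (l : List (ℕ × ℤ)) (x : ℕ → ℤ) : sdS l x = (l.map (fun a => a.2 * x a.1)).sum := by
  induction l with
  | nil => rfl
  | cons a l ih =>
    rw [List.map_cons, List.sum_cons, ← ih]
    rfl

theorem dotV_of_sd (n : ℕ) (l : List (ℕ × ℤ)) (vs : List ℤ) (v : ℤ)
    (hl : l.all (fun a => decide (a.1 < n)) = true) (h : sdS l (ptV vs) = v) :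
    dotV (sp n l) vs = v := by
  rw [← h, ← dot_ptV, dot_sp n l _ (fun a ha => of_decide_eq_true (List.all_eq_true.mp hl a ha)),
    sdS_eq]

section
variable {S : SysL} {k : ℕ} {w : ℤ} {vs : List ℤ}

theorem pt0 : ptS k (w :: vs) 0 = 2 ^ k * w := rfl

theorem lin_s {L : List ℤ} (h : 0 ≤ dotV L (w :: vs)) : 0 ≤ dot L (ptS k (w :: vs)) := by
  rw [dot_ptS]
  exact mul_nonneg (by positivity) h

theorem cge_s {e c : ℕ} {L : List ℤ}
    (h : (c : ℤ) * w ≤ S.GG * dotV (S.fe e) (w :: vs) → 0 ≤ dotV L (w :: vs)) :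
    (ItemL.cge e c L).Sem S (ptS k (w :: vs)) := by
  show (c : ℤ) * ptS k (w :: vs) 0 ≤ S.GG * dot (S.fe e) (ptS k (w :: vs)) →
    0 ≤ dot L (ptS k (w :: vs))
  rw [dot_ptS, dot_ptS, pt0]
  intro h1
  apply mul_nonneg (by positivity) (h _)
  have hp : (0 : ℤ) < 2 ^ k := by positivity
  apply le_of_mul_le_mul_left _ hp
  linarith

theorem cle_s {e c : ℕ} {L : List ℤ}
    (h : S.GG * dotV (S.fe e) (w :: vs) ≤ (c : ℤ) * w → 0 ≤ dotV L (w :: vs)) :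
    (ItemL.cle e c L).Sem S (ptS k (w :: vs)) := by
  show S.GG * dot (S.fe e) (ptS k (w :: vs)) ≤ (c : ℤ) * ptS k (w :: vs) 0 →
    0 ≤ dot L (ptS k (w :: vs))
  rw [dot_ptS, dot_ptS, pt0]
  intro h1
  apply mul_nonneg (by positivity) (h _)
  have hp : (0 : ℤ) < 2 ^ k := by positivity
  apply le_of_mul_le_mul_left _ hp
  linarith

theorem mc_s {e1 e2 : ℕ} {Z : List ℤ}
    (h : w * dotV Z (w :: vs) ≤ dotV (S.fe e1) (w :: vs) * dotV (S.fe e2) (w :: vs)) :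
    (ItemL.mc e1 e2 Z).Sem S (ptS k (w :: vs)) := by
  show ptS k (w :: vs) 0 * dot Z (ptS k (w :: vs)) ≤
    dot (S.fe e1) (ptS k (w :: vs)) * dot (S.fe e2) (ptS k (w :: vs))
  rw [dot_ptS, dot_ptS, dot_ptS, pt0]
  have hp : (0 : ℤ) ≤ (2 ^ k) ^ 2 := by positivity
  have := mul_le_mul_of_nonneg_left h hp
  linarith

theorem dt_s {G R p q ep eq es : ℕ} {d : List ℤ} {δ : ℤ}
    (hG : S.GG = 2 ^ G) (hN : G ≤ k + 3 + R) (hw : w = 8 * 2 ^ R)
    (hT : ∀ i j, (dgt S.GT i j : ℤ) ≤ dg i j)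
    (hp : dotV (S.fe ep) (w :: vs) = 8 * p) (hq : dotV (S.fe eq) (w :: vs) = 8 * q)
    (hs : dotV (S.fe es) (w :: vs) = 8 * ((p : ℤ) + q)) (hd : dotV d (w :: vs) = 8 * δ)
    (hδ : dg p q ≤ δ) : (ItemL.dt ep eq es d).Sem S (ptS k (w :: vs)) := by
  have e8 : (2 : ℤ) ^ (k + 3) = 2 ^ k * 8 := by rw [pow_add]; norm_num
  refine dt_scaled (c := k + 3) (R := R) hG hN ?_ hT ?_ ?_ ?_ ?_ hδ
  · rw [pt0, hw, e8]; ring
  · rw [dot_ptS, hp, e8]; ring
  · rw [dot_ptS, hq, e8]; ring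
  · rw [dot_ptS, hs, e8]; ring
  · rw [dot_ptS, hd, e8]; ring

theorem tt_s {ex eg hx cg g' c rc FL FU Fx FT cb T W : ℕ} {L U : List ℤ} {N R γ X : ℕ} {v l : ℤ}
    (hhx : 0 < hx) (hGG : S.GG = hx * g') (hcg : cg = 2 * hx)
    (hFL : FL = FT * (c * g')) (hFU : FU = FT * (rc * g')) (hFx : Fx = FT * g')
    (hcb : cb = 2 * rc) (hg : 2 ^ N * g' = 2 ^ R * 2 ^ γ) (hw : w = 8 * 2 ^ R)
    (hU : U = S.fe eg) (hX : dotV (S.fe ex) (w :: vs) = 8 * X) (hL : dotV L (w :: vs) = 8 * l)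
    (hv : dotV U (w :: vs) = 8 * v) (h : Rows c rc γ T W N X v l) :
    (ItemL.tt ex eg hx cg L U FL FU Fx FT cb T W).Sem S (ptS k (w :: vs)) := by
  have e8 : (2 : ℤ) ^ (k + 3) = 2 ^ k * 8 := by rw [pow_add]; norm_num
  refine tt_of_irow (κ := 2 ^ (k + 3)) (N := N) (R := R) (γ := γ) (X := X) (v := v) (l := l)
    hhx hGG hcg hFL hFU hFx hcb hg (by positivity) ?_ ?_ ?_ ?_ ?_ (fun b _ => h b)
  · rw [pt0, hw, e8]; ring
  · rw [hU]
  · rw [dot_ptS, hX, e8]; ring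
  · rw [dot_ptS, hL, e8]; ring
  · rw [dot_ptS, hv, e8]; ring

theorem tl_s {ex eg hx cg g' c rc FL Fx FT T W : ℕ} {L : List ℤ} {N R γ X : ℕ} {v l : ℤ}
    (hhx : 0 < hx) (hGG : S.GG = hx * g') (hcg : cg = 2 * hx)
    (hFL : FL = FT * (c * g')) (hFx : Fx = FT * g')
    (hg : 2 ^ N * g' = 2 ^ R * 2 ^ γ) (hw : w = 8 * 2 ^ R)
    (hX : dotV (S.fe ex) (w :: vs) = 8 * X) (hL : dotV L (w :: vs) = 8 * l)
    (hv : dotV (S.fe eg) (w :: vs) = 8 * v) (h : Rows c rc γ T W N X v l) :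
    (ItemL.tl ex eg hx cg L FL Fx FT T W).Sem S (ptS k (w :: vs)) := by
  have e8 : (2 : ℤ) ^ (k + 3) = 2 ^ k * 8 := by rw [pow_add]; norm_num
  refine tl_of_irow (κ := 2 ^ (k + 3)) (N := N) (R := R) (γ := γ) (X := X) (v := v) (l := l)
    hhx hGG hcg hFL hFx hg (by positivity) ?_ ?_ ?_ ?_ (fun b _ => h b)
  · rw [pt0, hw, e8]; ring
  · rw [dot_ptS, hv, e8]; exact le_of_eq (by ring)
  · rw [dot_ptS, hX, e8]; ring
  · rw [dot_ptS, hL, e8]; ring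

/-- the bounds of the expressions -/
theorem bd_s {e a b : ℕ} (h : (a : ℤ) * w ≤ S.GG * dotV (S.fe e) (w :: vs) ∧
      S.GG * dotV (S.fe e) (w :: vs) ≤ (b : ℤ) * w) :
    (a : ℤ) * ptS k (w :: vs) 0 ≤ S.GG * dot (S.fe e) (ptS k (w :: vs)) ∧
      S.GG * dot (S.fe e) (ptS k (w :: vs)) ≤ (b : ℤ) * ptS k (w :: vs) 0 := by
  rw [dot_ptS, pt0]
  have hp : (0 : ℤ) ≤ 2 ^ k := by positivity
  have h1 := mul_le_mul_of_nonneg_left h.1 hp
  have h2 := mul_le_mul_of_nonneg_left h.2 hp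
  constructor <;> linarith

theorem lin_p {n : ℕ} {l : List (ℕ × ℤ)} (v : ℤ)
    (hl : l.all (fun a => decide (a.1 < n)) = true)
    (h1 : sdS l (ptV (w :: vs)) = v) (h : 0 ≤ v) :
    0 ≤ dot (sp n l) (ptS k (w :: vs)) :=
  lin_s (by rw [dotV_of_sd n l (w :: vs) v hl h1]; exact h)

theorem cge_p {e c n : ℕ} {l : List (ℕ × ℤ)} {γ : ℤ} (v₀ v : ℤ) (hG : (S.GG : ℤ) = γ)
    (h0 : dotV (S.fe e) (w :: vs) = v₀)
    (hl : l.all (fun a => decide (a.1 < n)) = true)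
    (h1 : sdS l (ptV (w :: vs)) = v) (h : (c : ℤ) * w ≤ γ * v₀ → 0 ≤ v) :
    (ItemL.cge e c (sp n l)).Sem S (ptS k (w :: vs)) := by
  apply cge_s
  rw [h0, hG, dotV_of_sd n l (w :: vs) v hl h1]
  exact h

theorem cle_p {e c n : ℕ} {l : List (ℕ × ℤ)} {γ : ℤ} (v₀ v : ℤ) (hG : (S.GG : ℤ) = γ)
    (h0 : dotV (S.fe e) (w :: vs) = v₀)
    (hl : l.all (fun a => decide (a.1 < n)) = true)
    (h1 : sdS l (ptV (w :: vs)) = v) (h : γ * v₀ ≤ (c : ℤ) * w → 0 ≤ v) :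
    (ItemL.cle e c (sp n l)).Sem S (ptS k (w :: vs)) := by
  apply cle_s
  rw [h0, hG, dotV_of_sd n l (w :: vs) v hl h1]
  exact h

/-! ### propagation rules -/

/-- the value of a list of (coefficient, expression) -/
def fsV (S : SysL) (vs : List ℤ) (l : List (ℕ × ℕ)) : ℤ :=
  (l.map (fun a => (a.1 : ℤ) * (S.GG * dotV (S.fe a.2) vs))).sum

theorem fsum_pt (l : List (ℕ × ℕ)) : fsum S (ptS k vs) l = 2 ^ k * fsV S vs l := by
  unfold fsum fsV
  induction l with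
  | nil => simp
  | cons a l ih =>
    rw [List.map_cons, List.sum_cons, List.map_cons, List.sum_cons, ih, dot_ptS]
    ring

theorem rule_hi_s {t d cp cn : ℕ} {pos neg : List (ℕ × ℕ)}
    (h : (d : ℤ) * (S.GG * dotV (S.fe t) (w :: vs)) ≤
      max 0 (fsV S (w :: vs) pos + cp * w - (fsV S (w :: vs) neg + cn * w))) :
    RuleL.Sem S (ptS k (w :: vs)) ⟨true, t, d, pos, cp, neg, cn⟩ := by
  show (d : ℤ) * (S.GG * dot (S.fe t) (ptS k (w :: vs))) ≤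
      max 0 (fsum S (ptS k (w :: vs)) pos + cp * ptS k (w :: vs) 0 -
        (fsum S (ptS k (w :: vs)) neg + cn * ptS k (w :: vs) 0))
  rw [fsum_pt, fsum_pt, dot_ptS, pt0]
  have e1 : (2 : ℤ) ^ k * fsV S (w :: vs) pos + cp * (2 ^ k * w) -
      (2 ^ k * fsV S (w :: vs) neg + cn * (2 ^ k * w)) =
      2 ^ k * (fsV S (w :: vs) pos + cp * w - (fsV S (w :: vs) neg + cn * w)) := by ring
  have e2 : (d : ℤ) * (S.GG * (2 ^ k * dotV (S.fe t) (w :: vs))) =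
      2 ^ k * (d * (S.GG * dotV (S.fe t) (w :: vs))) := by ring
  have e3 : ∀ x : ℤ, max 0 (2 ^ k * x) = 2 ^ k * max 0 x := by
    intro x
    rw [mul_max_of_nonneg _ _ (by positivity : (0 : ℤ) ≤ 2 ^ k), mul_zero]
  rw [e1, e2, e3]
  exact mul_le_mul_of_nonneg_left h (by positivity)

theorem rule_lo_s {t d cp cn : ℕ} {pos neg : List (ℕ × ℕ)}
    (h : fsV S (w :: vs) pos + cp * w - (fsV S (w :: vs) neg + cn * w) ≤
      (d : ℤ) * (S.GG * dotV (S.fe t) (w :: vs))) :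
    RuleL.Sem S (ptS k (w :: vs)) ⟨false, t, d, pos, cp, neg, cn⟩ := by
  show fsum S (ptS k (w :: vs)) pos + cp * ptS k (w :: vs) 0 -
        (fsum S (ptS k (w :: vs)) neg + cn * ptS k (w :: vs) 0) ≤
      (d : ℤ) * (S.GG * dot (S.fe t) (ptS k (w :: vs)))
  rw [fsum_pt, fsum_pt, dot_ptS, pt0]
  have e1 : (2 : ℤ) ^ k * fsV S (w :: vs) pos + cp * (2 ^ k * w) -
      (2 ^ k * fsV S (w :: vs) neg + cn * (2 ^ k * w)) =
      2 ^ k * (fsV S (w :: vs) pos + cp * w - (fsV S (w :: vs) neg + cn * w)) := by ring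
  have e2 : (d : ℤ) * (S.GG * (2 ^ k * dotV (S.fe t) (w :: vs))) =
      2 ^ k * (d * (S.GG * dotV (S.fe t) (w :: vs))) := by ring
  rw [e1, e2]
  exact mul_le_mul_of_nonneg_left h (by positivity)

end

end Pool.Agent.EdgeIso.Chk
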