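import Pool.Agent.Lib.MP_48c8f3_co.Bas
import Pool.Agent.Lib.MP_48c8f3_co.KZa

set_option autoImplicit false
set_option linter.unusedSectionVars false

/-!
MP_48c8f3_co: the numbers of the core as integers.
-/

namespace Pool.Agent.EdgeIso.Frame

open Finset

variable {α : Type*} [DecidableEq α] {R m : ℕ} {LF : ℤ}

/-- integer forms of the conditions on the sizes -/
structure Core2Z (C : Core2 α R m LF) : Prop where
  ep : (C.p : ℤ) = C.P2 + C.a2 + C.a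
  eP : (C.P : ℤ) = C.P2 + C.a2
  ey : (C.q : ℤ) + C.p = m
  em : (m : ℤ) = 2 ^ R + C.y
  U0 : (0 : ℤ) ≤ 2 ^ R
  y_le : (C.y : ℤ) ≤ 2 ^ R
  y0 : (2 : ℤ) ^ R ≤ m
  y00 : (0 : ℤ) ≤ C.y
  q0 : (0 : ℤ) ≤ C.q
  a0 : (0 : ℤ) ≤ C.a
  P20 : (0 : ℤ) ≤ C.P2
  a20 : (0 : ℤ) ≤ C.a2
  f0 : (0 : ℤ) ≤ C.f
  fK0 : (0 : ℤ) ≤ C.fK
  f30 : (0 : ℤ) ≤ C.f3
  w10 : (0 : ℤ) ≤ C.w1
  w20 : (0 : ℤ) ≤ C.w2
  h1 : (C.q : ℤ) ≤ 2 * C.a + C.f
  h2 : (C.a : ℤ) ≤ 2 * C.a2 + C.fK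
  fle1 : (C.f : ℤ) ≤ C.q
  fle2 : (C.fK : ℤ) ≤ C.a
  fle3 : (C.f3 : ℤ) ≤ C.a2
  le1 : (C.q : ℤ) ≤ C.p
  le2 : (C.a : ℤ) ≤ C.P
  le3 : (C.a2 : ℤ) ≤ C.P2
  cap1 : (C.p : ℤ) + C.f ≤ 2 * 2 ^ R
  cap2 : (C.P : ℤ) + C.fK ≤ 2 ^ R
  cap3 : 2 * ((C.P2 : ℤ) + C.f3) ≤ 2 ^ R
  region : 4 * (C.P : ℤ) ≤ 3 * 2 ^ R
  w12 : (C.w1 : ℤ) ≤ C.w2
  w2q : 2 * (C.w2 : ℤ) ≤ C.q
  w1q : 2 * (C.q : ℤ) ≤ C.p + 2 * C.w1 + C.f
  uq : (C.q : ℤ) ≤ 2 ^ R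
  ua : (C.a : ℤ) ≤ 2 ^ R
  uP2 : 2 * (C.P2 : ℤ) ≤ 2 ^ R
  ua2 : 2 * (C.a2 : ℤ) ≤ 2 ^ R
  up : (C.p : ℤ) ≤ 2 * 2 ^ R
  uP : (C.P : ℤ) ≤ 2 ^ R
  uLF : LF ≤ 2 * 2 ^ R
  uLK : C.LK ≤ LF
  uLW : C.LW ≤ LF
  uLP : C.LP ≤ C.LK
  uLA : C.LA ≤ C.LK
  uLP2 : C.LP2 ≤ C.LP
  uLA2 : C.LA2 ≤ C.LP
  ud1 : 2 * dg C.p C.q ≤ LF
  ud2 : 2 * dg C.P C.a ≤ C.LK
  ud3 : 2 * dg C.P2 C.a2 ≤ C.LP
  uzA : max 0 (2 * (C.a : ℤ) - C.P - C.fK) ≤ C.a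
  uzA2 : max 0 (2 * (C.a2 : ℤ) - C.P2 - C.f3) ≤ C.a2
  g1 : (0 : ℤ) ≤ (C.q : ℤ) - C.f
  g2 : (0 : ℤ) ≤ 2 * (C.a : ℤ)
  g3 : (0 : ℤ) ≤ (C.a : ℤ) - C.fK
  g4 : (0 : ℤ) ≤ 2 * (C.a2 : ℤ)
  g5 : (0 : ℤ) ≤ (C.a2 : ℤ) - C.f3
  g6 : (0 : ℤ) ≤ 2 * (C.w1 : ℤ)
  np : C.p ≤ 2 ^ (R + 1)
  nq : C.q ≤ 2 ^ (R + 1)
  nP : C.P ≤ 2 ^ R
  na : C.a ≤ 2 ^ R
  nP2 : C.P2 ≤ 2 ^ (R - 1)
  na2 : C.a2 ≤ 2 ^ (R - 1)
  pm : (2 : ℤ) ^ (R - 1) * 256 = 2 ^ 7 * 2 ^ R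
  pmn : 2 ^ (R - 1) * 256 = 2 ^ R * 2 ^ 7
  q1 : (1 : ℤ) ≤ C.q
  U1 : (1 : ℤ) ≤ 2 ^ R

theorem Core2.zz (C : Core2 α R m LF) : Core2Z C := by
  have hp3 : 2 ^ R = 2 * 2 ^ (R - 1) := by
    rw [← pow_succ']
    congr 1
    have := C.R1
    omega
  have hp3z : (2 : ℤ) ^ R = 2 * 2 ^ (R - 1) := by exact_mod_cast hp3
  have s1 : (C.p : ℤ) + C.q = m := by exact_mod_cast C.s1
  have s2 : (C.P : ℤ) + C.a = C.p := by exact_mod_cast C.s2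
  have s3 : (C.P2 : ℤ) + C.a2 = C.P := by exact_mod_cast C.s3
  have me : (2 : ℤ) ^ R + C.y = m := by exact_mod_cast C.m_eq
  have yl : (C.y : ℤ) ≤ 2 ^ R := by exact_mod_cast C.y_le
  have l1 : (C.q : ℤ) ≤ C.p := by exact_mod_cast C.le1
  have l2 : (C.a : ℤ) ≤ C.P := by exact_mod_cast C.le2
  have l3 : (C.a2 : ℤ) ≤ C.P2 := by exact_mod_cast C.le3
  have f1 : (C.f : ℤ) ≤ C.q := by exact_mod_cast C.fle1
  have f2 : (C.fK : ℤ) ≤ C.a := by exact_mod_cast C.fle2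
  have f3 : (C.f3 : ℤ) ≤ C.a2 := by exact_mod_cast C.fle3
  have c1 : (C.p : ℤ) + C.f ≤ 2 * 2 ^ R := by exact_mod_cast C.cap1
  have c2 : (C.P : ℤ) + C.fK ≤ 2 ^ R := by exact_mod_cast C.cap2
  have c3 : 2 * ((C.P2 : ℤ) + C.f3) ≤ 2 ^ R := by exact_mod_cast C.cap3
  have hh1 : (C.q : ℤ) ≤ 2 * C.a + C.f := by exact_mod_cast C.h1
  have hh2 : (C.a : ℤ) ≤ 2 * C.a2 + C.fK := by exact_mod_cast C.h2
  have rg : 4 * (C.P : ℤ) < 3 * 2 ^ R := by exact_mod_cast C.region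
  have w12 : (C.w1 : ℤ) ≤ C.w2 := by exact_mod_cast C.w12
  have w2q : 2 * (C.w2 : ℤ) ≤ C.q := by exact_mod_cast C.w2q
  have w1q : 2 * (C.q : ℤ) ≤ C.p + 2 * C.w1 + C.f := by exact_mod_cast C.w1q
  have L1 := C.L1
  have L2 := C.L2
  have L3 := C.L3
  have dg1 := dg_nonneg C.p C.q
  have dg2 := dg_nonneg C.P C.a
  have dg3 := dg_nonneg C.P2 C.a2
  have i1 := C.LK0
  have i2 := C.LW0
  have i3 := C.LP0
  have i4 := C.LA0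
  have i5 := C.LP20
  have i6 := C.LA20
  have ct := C.cost4
  have dw := C.dW_tr
  have n0 : (0 : ℤ) ≤ C.q := by positivity
  have n1 : (0 : ℤ) ≤ C.a := by positivity
  have n2 : (0 : ℤ) ≤ C.P2 := by positivity
  have n3 : (0 : ℤ) ≤ C.a2 := by positivity
  have n4 : (0 : ℤ) ≤ C.f := by positivity
  have n5 : (0 : ℤ) ≤ C.fK := by positivity
  have n6 : (0 : ℤ) ≤ C.f3 := by positivity
  have n7 : (0 : ℤ) ≤ C.w1 := by positivity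
  have n8 : (0 : ℤ) ≤ C.w2 := by positivity
  have n9 : (0 : ℤ) ≤ C.y := by positivity
  have nU : (0 : ℤ) ≤ 2 ^ R := by positivity
  have b1 : (C.p : ℤ) ≤ 2 ^ (R + 1) := by
    rw [pow_succ]
    linarith only [c1, n4]
  have b2 : (C.q : ℤ) ≤ 2 ^ (R + 1) := by linarith only [b1, l1]
  have b3 : (C.P : ℤ) ≤ 2 ^ R := by linarith only [c2, n5]
  have b4 : (C.a : ℤ) ≤ 2 ^ R := by linarith only [b3, l2]
  have b5 : (C.P2 : ℤ) ≤ 2 ^ (R - 1) := by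
    rw [hp3z] at c3
    linarith only [c3, n6]
  have b6 : (C.a2 : ℤ) ≤ 2 ^ (R - 1) := by linarith only [b5, l3]
  exact {
    ep := by linarith only [s2, s3]
    eP := by linarith only [s3]
    ey := by linarith only [s1]
    em := by linarith only [me]
    U0 := nU
    y_le := yl
    y0 := by linarith only [me, n9]
    y00 := n9
    q0 := n0, a0 := n1, P20 := n2, a20 := n3, f0 := n4, fK0 := n5, f30 := n6, w10 := n7, w20 := n8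
    h1 := hh1, h2 := hh2, fle1 := f1, fle2 := f2, fle3 := f3, le1 := l1, le2 := l2, le3 := l3
    cap1 := c1, cap2 := c2, cap3 := c3
    region := rg.le
    w12 := w12, w2q := w2q, w1q := w1q
    uq := by linarith only [s1, me, yl, l1]
    ua := b4
    uP2 := by linarith only [c3, n6]
    ua2 := by linarith only [c3, n6, l3]
    up := by linarith only [c1, n4]
    uP := b3
    uLF := by linarith only [ct, dw, s1, me, yl]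
    uLK := by linarith only [L1, dg1, n4, i2]
    uLW := by linarith only [L1, dg1, n4, i1]
    uLP := by linarith only [L2, dg2, n5, i4]
    uLA := by linarith only [L2, dg2, n5, i3]
    uLP2 := by linarith only [L3, dg3, n6, i6]
    uLA2 := by linarith only [L3, dg3, n6, i5]
    ud1 := by linarith only [L1, n4, i1, i2]
    ud2 := by linarith only [L2, n5, i3, i4]
    ud3 := by linarith only [L3, n6, i5, i6]
    uzA := max_le n1 (by linarith only [l2, n5])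
    uzA2 := max_le n3 (by linarith only [l3, n6])
    g1 := by linarith only [f1]
    g2 := by linarith only [n1]
    g3 := by linarith only [f2]
    g4 := by linarith only [n3]
    g5 := by linarith only [f3]
    g6 := by linarith only [n7]
    np := by exact_mod_cast b1
    nq := by exact_mod_cast b2
    nP := by exact_mod_cast b3
    na := by exact_mod_cast b4
    nP2 := by exact_mod_cast b5
    na2 := by exact_mod_cast b6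
    pm := by
      rw [hp3z]
      ring
    pmn := by
      rw [hp3]
      ring
    q1 := by
      have k1 := C.cost1
      have k2 := C.Km2
      have k3 := C.dK_le
      by_contra hcon
      have h0 : (C.q : ℤ) ≤ 0 := by omega
      linarith only [k1, k2, k3, h0, L1, dg1, n4, i2, i1]
    U1 := by
      have : (0 : ℤ) < 2 ^ R := by positivity
      linarith only [this] }

/-- the rows for `F` -/
theorem Core2.rowG (C : Core2 α R m LF) {Q : ℕ → ℕ → ℤ → ℤ → Prop}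
    (h : CBnd α 2 (fun N x u L => ∀ R : ℕ, N = R + 2 → 2 ^ R ≤ x → x ≤ 2 * 2 ^ R →
      Q R (x - 2 ^ R) (2 * 2 ^ R - (x - 2 * u)) (L + 2 ^ R))) :
    Q R C.y (2 * 2 ^ R - ((m : ℤ) - 2 * C.q)) (LF + 2 ^ R) := by
  have h1 := C.t4 _ h R rfl (by have := C.m_eq; omega) (by have := C.m_eq; have := C.y_le; omega)
  have h2 : m - 2 ^ R = C.y := by have := C.m_eq; omega
  rw [h2] at h1
  exact h1

end Pool.Agent.EdgeIso.Frame
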