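import Pool.Agent.Lib.MP_48c8f3_co.Bas
import Pool.Agent.Lib.MP_48c8f3_co.KGc
import Pool.Agent.Lib.MP_48c8f3_co.KGz
import Pool.Agent.Lib.MP_48c8f3_co.C6D

set_option autoImplicit false
set_option linter.unusedSectionVars false
set_option linter.unusedVariables false

/-!
MP_48c8f3_co: the point of the core (machine made).
-/

namespace Pool.Agent.EdgeIso.Chk.Core2K

open Finset Pool.Agent.EdgeIso.Frame Pool.Agent.EdgeIso.Cell Pool.Agent.EdgeIso.Walsh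
  Pool.Agent.EdgeIso.LemmaP

variable {α : Type*} [DecidableEq α] {R m : ℕ} {LF : ℤ}

/-- the coordinates but the first one -/
abbrev vt (C : Core2 α R m LF) : List ℤ := [
    8 * (C.q : ℤ),
    8 * (C.a : ℤ),
    8 * (C.P2 : ℤ),
    8 * (C.a2 : ℤ),
    8 * (C.f : ℤ),
    8 * (C.fK : ℤ),
    8 * (C.f3 : ℤ),
    8 * LF,
    8 * C.LK,
    8 * C.LW,
    8 * C.LP,
    8 * C.LA,
    8 * C.LP2,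
    8 * C.LA2,
    8 * dg C.p C.q,
    8 * dg C.P C.a,
    8 * dg C.P2 C.a2,
    4 * (C.dK : ℤ),
    4 * (C.dW : ℤ),
    4 * (C.dP : ℤ),
    4 * (C.dA : ℤ),
    4 * (C.dP2 : ℤ),
    4 * (C.dA2 : ℤ),
    4 * (C.Km : ℤ),
    2 * (C.Kh : ℤ),
    2 * (C.Ph : ℤ),
    (C.Pq : ℤ),
    4 * (C.Ay : ℤ),
    (C.Aq : ℤ),
    (C.P2q : ℤ),
    (C.A2q : ℤ),
    2 * (C.P2r : ℤ),
    2 * (C.A2r : ℤ),
    8 * max 0 (2 * (C.a : ℤ) - C.P - C.fK),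
    8 * max 0 (2 * (C.a2 : ℤ) - C.P2 - C.f3),
    8 * (C.w1 : ℤ),
    8 * (C.w2 : ℤ),
    4]

/-- the facts about the tables -/
structure Tabs (α : Type*) [DecidableEq α] : Prop where
  dgt : ∀ i j, (dgt GT0 i j : ℤ) ≤ dg i j
  t0 : LBnd α (fun N x v L => 0 ≤ v → x ≤ 2 ^ N → Rows 16 32 7 tbT0 129 N x v L)
  t1 : LBnd α (fun N x v L => 0 ≤ v → x ≤ 2 ^ N → Rows 8 32 7 tbT1 129 N x v L)
  f64 : LBnd α (fun N x v L => ∀ S : ℤ, (2 : ℤ) ^ N * 64 = 2 ^ 7 * S →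
    Rows 16 32 7 tbF64 129 N x v (L + S))
  f128 : LBnd α (fun N x v L => ∀ S : ℤ, (2 : ℤ) ^ N * 128 = 2 ^ 7 * S →
    Rows 16 32 7 tbF128 129 N x v (L + S))
  f256 : LBnd α (fun N x v L => ∀ S : ℤ, (2 : ℤ) ^ N * 256 = 2 ^ 7 * S →
    Rows 8 16 7 tbF256 129 N x v (L + S))
  b : BBnd α (fun N x v L => x ≤ 2 ^ N → Rows 8 32 7 tbB 129 N x (2 * (v : ℤ)) L)
  g4 : CBnd α 2 (fun N x u L => ∀ R : ℕ, N = R + 2 → 2 ^ R ≤ x → x ≤ 2 * 2 ^ R →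
    Rows 4 16 7 tbG4 129 R (x - 2 ^ R) (2 * 2 ^ R - (x - 2 * u)) (L + 2 ^ R))
  g16 : CBnd α 2 (fun N x u L => ∀ R : ℕ, N = R + 2 → 2 ^ R ≤ x → x ≤ 2 * 2 ^ R →
    Rows 4 64 7 tbG16 129 R (x - 2 ^ R) (2 * 2 ^ R - (x - 2 * u)) (L + 2 ^ R))

theorem sysGG : (sys.GG : ℤ) = 256 := rfl

theorem fv0 (C : Core2 α R m LF) : dotV (sys.fe 0) (8 * 2 ^ R :: vt C) =
    ((1 * (8 * (C.q : ℤ)) + (0) : ℤ)) :=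
  dotV_of_sd 39 _ _ _ rfl rfl

theorem fv1 (C : Core2 α R m LF) : dotV (sys.fe 1) (8 * 2 ^ R :: vt C) =
    ((1 * (8 * (C.a : ℤ)) + (0) : ℤ)) :=
  dotV_of_sd 39 _ _ _ rfl rfl

theorem fv2 (C : Core2 α R m LF) : dotV (sys.fe 2) (8 * 2 ^ R :: vt C) =
    ((1 * (8 * (C.P2 : ℤ)) + (1 * (8 * (C.a2 : ℤ)) + (0)) : ℤ)) :=
  dotV_of_sd 39 _ _ _ rfl rfl

theorem fv3 (C : Core2 α R m LF) : dotV (sys.fe 3) (8 * 2 ^ R :: vt C) =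
    ((1 * (8 * (C.a : ℤ)) + (1 * (8 * (C.P2 : ℤ)) + (1 * (8 * (C.a2 : ℤ)) + (0))) : ℤ)) :=
  dotV_of_sd 39 _ _ _ rfl rfl

theorem fv4 (C : Core2 α R m LF) : dotV (sys.fe 4) (8 * 2 ^ R :: vt C) =
    ((1 * (8 * (C.q : ℤ)) + (1 * (8 * (C.a : ℤ)) + (1 * (8 * (C.P2 : ℤ)) + (1 * (8 * (C.a2 : ℤ)) + (0)))) : ℤ)) :=
  dotV_of_sd 39 _ _ _ rfl rfl

theorem fv5 (C : Core2 α R m LF) : dotV (sys.fe 5) (8 * 2 ^ R :: vt C) =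
    ((1 * (8 * (C.a2 : ℤ)) + (0) : ℤ)) :=
  dotV_of_sd 39 _ _ _ rfl rfl

theorem fv6 (C : Core2 α R m LF) : dotV (sys.fe 6) (8 * 2 ^ R :: vt C) =
    ((1 * (8 * (C.P2 : ℤ)) + (0) : ℤ)) :=
  dotV_of_sd 39 _ _ _ rfl rfl

theorem fv7 (C : Core2 α R m LF) : dotV (sys.fe 7) (8 * 2 ^ R :: vt C) =
    ((2 * (8 * 2 ^ R) + ((-1) * (8 * (C.q : ℤ)) + ((-1) * (8 * (C.a : ℤ)) + (1 * (8 * (C.P2 : ℤ)) + (1 * (8 * (C.a2 : ℤ)) + (0))))) : ℤ)) :=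
  dotV_of_sd 39 _ _ _ rfl rfl

theorem fv8 (C : Core2 α R m LF) : dotV (sys.fe 8) (8 * 2 ^ R :: vt C) =
    ((2 * (8 * 2 ^ R) + ((-1) * (8 * (C.q : ℤ)) + ((-1) * (8 * (C.a : ℤ)) + (3 * (8 * (C.P2 : ℤ)) + (3 * (8 * (C.a2 : ℤ)) + (0))))) : ℤ)) :=
  dotV_of_sd 39 _ _ _ rfl rfl

theorem fv9 (C : Core2 α R m LF) : dotV (sys.fe 9) (8 * 2 ^ R :: vt C) =
    ((2 * (8 * 2 ^ R) + ((-1) * (8 * (C.q : ℤ)) + (3 * (8 * (C.a : ℤ)) + ((-1) * (8 * (C.P2 : ℤ)) + ((-1) * (8 * (C.a2 : ℤ)) + (0))))) : ℤ)) :=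
  dotV_of_sd 39 _ _ _ rfl rfl

theorem fv10 (C : Core2 α R m LF) : dotV (sys.fe 10) (8 * 2 ^ R :: vt C) =
    ((2 * (8 * 2 ^ R) + ((-1) * (8 * (C.q : ℤ)) + ((-1) * (8 * (C.P2 : ℤ)) + ((-1) * (8 * (C.a2 : ℤ)) + (0)))) : ℤ)) :=
  dotV_of_sd 39 _ _ _ rfl rfl

theorem fv11 (C : Core2 α R m LF) : dotV (sys.fe 11) (8 * 2 ^ R :: vt C) =
    ((2 * (8 * 2 ^ R) + ((-1) * (8 * (C.q : ℤ)) + ((-1) * (8 * (C.a : ℤ)) + (3 * (8 * (C.P2 : ℤ)) + ((-1) * (8 * (C.a2 : ℤ)) + (0))))) : ℤ)) :=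
  dotV_of_sd 39 _ _ _ rfl rfl

theorem fv12 (C : Core2 α R m LF) : dotV (sys.fe 12) (8 * 2 ^ R :: vt C) =
    ((2 * (8 * 2 ^ R) + ((-1) * (8 * (C.q : ℤ)) + ((-1) * (8 * (C.a : ℤ)) + ((-1) * (8 * (C.P2 : ℤ)) + (3 * (8 * (C.a2 : ℤ)) + (0))))) : ℤ)) :=
  dotV_of_sd 39 _ _ _ rfl rfl

theorem fv13 (C : Core2 α R m LF) : dotV (sys.fe 13) (8 * 2 ^ R :: vt C) =
    ((2 * (8 * 2 ^ R) + ((-1) * (8 * (C.q : ℤ)) + ((-1) * (8 * (C.a : ℤ)) + ((-1) * (8 * (C.P2 : ℤ)) + (1 * (8 * (C.a2 : ℤ)) + (0))))) : ℤ)) :=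
  dotV_of_sd 39 _ _ _ rfl rfl

theorem fv14 (C : Core2 α R m LF) : dotV (sys.fe 14) (8 * 2 ^ R :: vt C) =
    ((2 * (8 * 2 ^ R) + ((-1) * (8 * (C.q : ℤ)) + ((-1) * (8 * (C.a : ℤ)) + (1 * (8 * (C.P2 : ℤ)) + ((-1) * (8 * (C.a2 : ℤ)) + (0))))) : ℤ)) :=
  dotV_of_sd 39 _ _ _ rfl rfl

theorem fv15 (C : Core2 α R m LF) : dotV (sys.fe 15) (8 * 2 ^ R :: vt C) =
    ((2 * (8 * 2 ^ R) + ((-1) * (8 * (C.q : ℤ)) + ((-1) * (8 * (C.a : ℤ)) + ((-1) * (8 * (C.P2 : ℤ)) + ((-1) * (8 * (C.a2 : ℤ)) + (0))))) : ℤ)) :=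
  dotV_of_sd 39 _ _ _ rfl rfl

theorem fv16 (C : Core2 α R m LF) : dotV (sys.fe 16) (8 * 2 ^ R :: vt C) =
    ((2 * (8 * 2 ^ R) + ((-1) * (8 * (C.a : ℤ)) + ((-1) * (8 * (C.P2 : ℤ)) + ((-1) * (8 * (C.a2 : ℤ)) + (0)))) : ℤ)) :=
  dotV_of_sd 39 _ _ _ rfl rfl

theorem fv17 (C : Core2 α R m LF) : dotV (sys.fe 17) (8 * 2 ^ R :: vt C) =
    ((2 * (8 * 2 ^ R) + ((-1) * (8 * (C.q : ℤ)) + (0)) : ℤ)) :=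
  dotV_of_sd 39 _ _ _ rfl rfl

theorem fv18 (C : Core2 α R m LF) : dotV (sys.fe 18) (8 * 2 ^ R :: vt C) =
    ((1 * (8 * 2 ^ R) + ((-1) * (8 * (C.P2 : ℤ)) + ((-1) * (8 * (C.a2 : ℤ)) + (0))) : ℤ)) :=
  dotV_of_sd 39 _ _ _ rfl rfl

theorem fv19 (C : Core2 α R m LF) : dotV (sys.fe 19) (8 * 2 ^ R :: vt C) =
    ((1 * (8 * 2 ^ R) + ((-1) * (8 * (C.a : ℤ)) + (0)) : ℤ)) :=
  dotV_of_sd 39 _ _ _ rfl rfl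

theorem fv20 (C : Core2 α R m LF) : dotV (sys.fe 20) (8 * 2 ^ R :: vt C) =
    ((1 * (8 * max 0 (2 * (C.a : ℤ) - C.P - C.fK)) + (0) : ℤ)) :=
  dotV_of_sd 39 _ _ _ rfl rfl

theorem fv21 (C : Core2 α R m LF) : dotV (sys.fe 21) (8 * 2 ^ R :: vt C) =
    ((1 * (8 * max 0 (2 * (C.a2 : ℤ) - C.P2 - C.f3)) + (0) : ℤ)) :=
  dotV_of_sd 39 _ _ _ rfl rfl

theorem fv22 (C : Core2 α R m LF) : dotV (sys.fe 22) (8 * 2 ^ R :: vt C) =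
    ((1 * (8 * (C.q : ℤ)) + ((-1) * (8 * (C.f : ℤ)) + (0)) : ℤ)) :=
  dotV_of_sd 39 _ _ _ rfl rfl

theorem fv23 (C : Core2 α R m LF) : dotV (sys.fe 23) (8 * 2 ^ R :: vt C) =
    ((2 * (8 * (C.a : ℤ)) + (0) : ℤ)) :=
  dotV_of_sd 39 _ _ _ rfl rfl

theorem fv24 (C : Core2 α R m LF) : dotV (sys.fe 24) (8 * 2 ^ R :: vt C) =
    ((1 * (8 * (C.a : ℤ)) + ((-1) * (8 * (C.fK : ℤ)) + (0)) : ℤ)) :=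
  dotV_of_sd 39 _ _ _ rfl rfl

theorem fv25 (C : Core2 α R m LF) : dotV (sys.fe 25) (8 * 2 ^ R :: vt C) =
    ((2 * (8 * (C.a2 : ℤ)) + (0) : ℤ)) :=
  dotV_of_sd 39 _ _ _ rfl rfl

theorem fv26 (C : Core2 α R m LF) : dotV (sys.fe 26) (8 * 2 ^ R :: vt C) =
    ((1 * (8 * (C.a2 : ℤ)) + ((-1) * (8 * (C.f3 : ℤ)) + (0)) : ℤ)) :=
  dotV_of_sd 39 _ _ _ rfl rfl

theorem fv27 (C : Core2 α R m LF) : dotV (sys.fe 27) (8 * 2 ^ R :: vt C) =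
    ((2 * (8 * (C.w1 : ℤ)) + (0) : ℤ)) :=
  dotV_of_sd 39 _ _ _ rfl rfl

theorem fv28 (C : Core2 α R m LF) : dotV (sys.fe 28) (8 * 2 ^ R :: vt C) =
    ((2 * (8 * (C.w2 : ℤ)) + (0) : ℤ)) :=
  dotV_of_sd 39 _ _ _ rfl rfl

theorem fv29 (C : Core2 α R m LF) : dotV (sys.fe 29) (8 * 2 ^ R :: vt C) =
    ((2 * (8 * 2 ^ R) + (1 * (8 * (C.q : ℤ)) + ((-1) * (8 * (C.a : ℤ)) + ((-1) * (8 * (C.P2 : ℤ)) + ((-1) * (8 * (C.a2 : ℤ)) + (0))))) : ℤ)) :=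
  dotV_of_sd 39 _ _ _ rfl rfl

theorem fv30 (C : Core2 α R m LF) : dotV (sys.fe 30) (8 * 2 ^ R :: vt C) =
    (((-1) * (8 * 2 ^ R) + (1 * (8 * (C.q : ℤ)) + (1 * (8 * (C.a : ℤ)) + (1 * (8 * (C.P2 : ℤ)) + (1 * (8 * (C.a2 : ℤ)) + (0))))) : ℤ)) :=
  dotV_of_sd 39 _ _ _ rfl rfl

end Pool.Agent.EdgeIso.Chk.Core2K
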