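import Pool.Agent.Lib.MP_48c8f3_co.Bas
import Pool.Agent.Lib.MP_48c8f3_co.C6H

set_option autoImplicit false
set_option linter.unusedSectionVars false
set_option linter.unusedVariables false

/-!
MP_48c8f3_co: the bounds of the expressions (machine made).
-/

namespace Pool.Agent.EdgeIso.Chk.Core2K

open Finset Pool.Agent.EdgeIso.Frame Pool.Agent.EdgeIso.Cell Pool.Agent.EdgeIso.Walsh
  Pool.Agent.EdgeIso.LemmaP

variable {α : Type*} [DecidableEq α] {R m : ℕ} {LF : ℤ}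

/-- the bounds of the whole region -/
def bds0 : List (ℕ × ℕ) := [(0, 256), (0, 256), (0, 256), (0, 512), (256, 512), (0, 128), (0, 128), (0, 768), (0, 1280), (0, 1280), (0, 512), (0, 768), (0, 768), (0, 512), (0, 512), (0, 256), (0, 512), (0, 512), (0, 256), (0, 256), (0, 256), (0, 128), (0, 256), (0, 512), (0, 256), (0, 256), (0, 128), (0, 256), (0, 256), (0, 512), (0, 256), (0, 0), (0, 0), (0, 0), (0, 0), (0, 0), (0, 0), (0, 0), (0, 0), (0, 0), (0, 0), (0, 0), (0, 0), (0, 0), (0, 0), (0, 0), (0, 0), (0, 0), (0, 0), (0, 0), (0, 0), (0, 0), (0, 0), (0, 0), (0, 0), (0, 0), (0, 0), (0, 0), (0, 0), (0, 0), (0, 0), (0, 0), (0, 0), (0, 0)]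

theorem bd0 (C : Core2 α R m LF) (k : ℕ) :
    ((0 : ℕ) : ℤ) * ptS k (8 * 2 ^ R :: vt C) 0 ≤ sys.GG * dot (sys.fe 0) (ptS k (8 * 2 ^ R :: vt C)) ∧
    sys.GG * dot (sys.fe 0) (ptS k (8 * 2 ^ R :: vt C)) ≤ ((256 : ℕ) : ℤ) * ptS k (8 * 2 ^ R :: vt C) 0 := by
  have z := C.zz
  apply bd_s
  rw [fv0 C, sysGG]
  constructor
  · push_cast
    linarith only [z.ep, z.eP, z.ey, z.em, z.q0]
  · push_cast
    linarith only [z.ep, z.eP, z.ey, z.em, z.le1, z.y_le]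

theorem bd1 (C : Core2 α R m LF) (k : ℕ) :
    ((0 : ℕ) : ℤ) * ptS k (8 * 2 ^ R :: vt C) 0 ≤ sys.GG * dot (sys.fe 1) (ptS k (8 * 2 ^ R :: vt C)) ∧
    sys.GG * dot (sys.fe 1) (ptS k (8 * 2 ^ R :: vt C)) ≤ ((256 : ℕ) : ℤ) * ptS k (8 * 2 ^ R :: vt C) 0 := by
  have z := C.zz
  apply bd_s
  rw [fv1 C, sysGG]
  constructor
  · push_cast
    linarith only [z.ep, z.eP, z.ey, z.em, z.h1, z.fle1]
  · push_cast
    linarith only [z.ep, z.eP, z.ey, z.em, z.h1, z.le2, z.region, z.fle1]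

theorem bd2 (C : Core2 α R m LF) (k : ℕ) :
    ((0 : ℕ) : ℤ) * ptS k (8 * 2 ^ R :: vt C) 0 ≤ sys.GG * dot (sys.fe 2) (ptS k (8 * 2 ^ R :: vt C)) ∧
    sys.GG * dot (sys.fe 2) (ptS k (8 * 2 ^ R :: vt C)) ≤ ((256 : ℕ) : ℤ) * ptS k (8 * 2 ^ R :: vt C) 0 := by
  have z := C.zz
  apply bd_s
  rw [fv2 C, sysGG]
  constructor
  · push_cast
    linarith only [z.ep, z.eP, z.ey, z.em, z.h1, z.fle1, z.le2]
  · push_cast
    linarith only [z.ep, z.eP, z.ey, z.em, z.region, z.h1, z.le3, z.h2, z.fle1, z.cap2]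

theorem bd3 (C : Core2 α R m LF) (k : ℕ) :
    ((0 : ℕ) : ℤ) * ptS k (8 * 2 ^ R :: vt C) 0 ≤ sys.GG * dot (sys.fe 3) (ptS k (8 * 2 ^ R :: vt C)) ∧
    sys.GG * dot (sys.fe 3) (ptS k (8 * 2 ^ R :: vt C)) ≤ ((512 : ℕ) : ℤ) * ptS k (8 * 2 ^ R :: vt C) 0 := by
  have z := C.zz
  apply bd_s
  rw [fv3 C, sysGG]
  constructor
  · push_cast
    linarith only [z.ep, z.eP, z.ey, z.em, z.le1, z.cap2, z.region, z.h2, z.le3, z.y00]
  · push_cast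
    linarith only [z.ep, z.eP, z.ey, z.em, z.region, z.h1, z.cap2, z.le3, z.h2, z.fle1]

theorem bd4 (C : Core2 α R m LF) (k : ℕ) :
    ((256 : ℕ) : ℤ) * ptS k (8 * 2 ^ R :: vt C) 0 ≤ sys.GG * dot (sys.fe 4) (ptS k (8 * 2 ^ R :: vt C)) ∧
    sys.GG * dot (sys.fe 4) (ptS k (8 * 2 ^ R :: vt C)) ≤ ((512 : ℕ) : ℤ) * ptS k (8 * 2 ^ R :: vt C) 0 := by
  have z := C.zz
  apply bd_s
  rw [fv4 C, sysGG]
  constructor
  · push_cast
    linarith only [z.ep, z.eP, z.ey, z.em, z.y00]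
  · push_cast
    linarith only [z.ep, z.eP, z.ey, z.em, z.y_le]

theorem bd5 (C : Core2 α R m LF) (k : ℕ) :
    ((0 : ℕ) : ℤ) * ptS k (8 * 2 ^ R :: vt C) 0 ≤ sys.GG * dot (sys.fe 5) (ptS k (8 * 2 ^ R :: vt C)) ∧
    sys.GG * dot (sys.fe 5) (ptS k (8 * 2 ^ R :: vt C)) ≤ ((128 : ℕ) : ℤ) * ptS k (8 * 2 ^ R :: vt C) 0 := by
  have z := C.zz
  apply bd_s
  rw [fv5 C, sysGG]
  constructor
  · push_cast
    linarith only [z.ep, z.eP, z.ey, z.em, z.fle2, z.h2]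
  · push_cast
    linarith only [z.ep, z.eP, z.ey, z.em, z.h1, z.region, z.le3, z.h2, z.fle1, z.cap2]

theorem bd6 (C : Core2 α R m LF) (k : ℕ) :
    ((0 : ℕ) : ℤ) * ptS k (8 * 2 ^ R :: vt C) 0 ≤ sys.GG * dot (sys.fe 6) (ptS k (8 * 2 ^ R :: vt C)) ∧
    sys.GG * dot (sys.fe 6) (ptS k (8 * 2 ^ R :: vt C)) ≤ ((128 : ℕ) : ℤ) * ptS k (8 * 2 ^ R :: vt C) 0 := by
  have z := C.zz
  apply bd_s
  rw [fv6 C, sysGG]
  constructor
  · push_cast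
    linarith only [z.ep, z.eP, z.ey, z.em, z.h1, z.le3, z.fle1, z.le2]
  · push_cast
    linarith only [z.ep, z.eP, z.ey, z.em, z.cap3, z.f30]

theorem bd7 (C : Core2 α R m LF) (k : ℕ) :
    ((0 : ℕ) : ℤ) * ptS k (8 * 2 ^ R :: vt C) 0 ≤ sys.GG * dot (sys.fe 7) (ptS k (8 * 2 ^ R :: vt C)) ∧
    sys.GG * dot (sys.fe 7) (ptS k (8 * 2 ^ R :: vt C)) ≤ ((768 : ℕ) : ℤ) * ptS k (8 * 2 ^ R :: vt C) 0 := by
  have z := C.zz
  apply bd_s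
  rw [fv7 C, sysGG]
  constructor
  · push_cast
    linarith only [z.ep, z.eP, z.ey, z.em, z.le2, z.h1, z.cap1]
  · push_cast
    linarith only [z.ep, z.eP, z.ey, z.em, z.region, z.U0, z.y00]

theorem bd8 (C : Core2 α R m LF) (k : ℕ) :
    ((0 : ℕ) : ℤ) * ptS k (8 * 2 ^ R :: vt C) 0 ≤ sys.GG * dot (sys.fe 8) (ptS k (8 * 2 ^ R :: vt C)) ∧
    sys.GG * dot (sys.fe 8) (ptS k (8 * 2 ^ R :: vt C)) ≤ ((1280 : ℕ) : ℤ) * ptS k (8 * 2 ^ R :: vt C) 0 := by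
  have z := C.zz
  apply bd_s
  rw [fv8 C, sysGG]
  constructor
  · push_cast
    linarith only [z.ep, z.eP, z.ey, z.em, z.le1, z.y00, z.le2, z.region]
  · push_cast
    linarith only [z.ep, z.eP, z.ey, z.em, z.region, z.U0, z.y00]

theorem bd9 (C : Core2 α R m LF) (k : ℕ) :
    ((0 : ℕ) : ℤ) * ptS k (8 * 2 ^ R :: vt C) 0 ≤ sys.GG * dot (sys.fe 9) (ptS k (8 * 2 ^ R :: vt C)) ∧
    sys.GG * dot (sys.fe 9) (ptS k (8 * 2 ^ R :: vt C)) ≤ ((1280 : ℕ) : ℤ) * ptS k (8 * 2 ^ R :: vt C) 0 := by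
  have z := C.zz
  apply bd_s
  rw [fv9 C, sysGG]
  constructor
  · push_cast
    linarith only [z.ep, z.eP, z.ey, z.em, z.h1, z.fle1, z.cap1]
  · push_cast
    linarith only [z.ep, z.eP, z.ey, z.em, z.le2, z.h1, z.region, z.y00, z.fle1]

theorem bd10 (C : Core2 α R m LF) (k : ℕ) :
    ((0 : ℕ) : ℤ) * ptS k (8 * 2 ^ R :: vt C) 0 ≤ sys.GG * dot (sys.fe 10) (ptS k (8 * 2 ^ R :: vt C)) ∧
    sys.GG * dot (sys.fe 10) (ptS k (8 * 2 ^ R :: vt C)) ≤ ((512 : ℕ) : ℤ) * ptS k (8 * 2 ^ R :: vt C) 0 := by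
  have z := C.zz
  apply bd_s
  rw [fv10 C, sysGG]
  constructor
  · push_cast
    linarith only [z.ep, z.eP, z.ey, z.em, z.h1, z.y_le, z.fle1]
  · push_cast
    linarith only [z.ep, z.eP, z.ey, z.em, z.h1, z.y00, z.fle1, z.region, z.le2]

theorem bd11 (C : Core2 α R m LF) (k : ℕ) :
    ((0 : ℕ) : ℤ) * ptS k (8 * 2 ^ R :: vt C) 0 ≤ sys.GG * dot (sys.fe 11) (ptS k (8 * 2 ^ R :: vt C)) ∧
    sys.GG * dot (sys.fe 11) (ptS k (8 * 2 ^ R :: vt C)) ≤ ((768 : ℕ) : ℤ) * ptS k (8 * 2 ^ R :: vt C) 0 := by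
  have z := C.zz
  apply bd_s
  rw [fv11 C, sysGG]
  constructor
  · push_cast
    linarith only [z.ep, z.eP, z.ey, z.em, z.h1, z.y_le, z.le3, z.fle1, z.le2]
  · push_cast
    linarith only [z.ep, z.eP, z.ey, z.em, z.y00, z.f30, z.cap3]

theorem bd12 (C : Core2 α R m LF) (k : ℕ) :
    ((0 : ℕ) : ℤ) * ptS k (8 * 2 ^ R :: vt C) 0 ≤ sys.GG * dot (sys.fe 12) (ptS k (8 * 2 ^ R :: vt C)) ∧
    sys.GG * dot (sys.fe 12) (ptS k (8 * 2 ^ R :: vt C)) ≤ ((768 : ℕ) : ℤ) * ptS k (8 * 2 ^ R :: vt C) 0 := by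
  have z := C.zz
  apply bd_s
  rw [fv12 C, sysGG]
  constructor
  · push_cast
    linarith only [z.ep, z.eP, z.ey, z.em, z.cap2, z.le1, z.h2]
  · push_cast
    linarith only [z.ep, z.eP, z.ey, z.em, z.U0, z.region, z.le3, z.y00]

theorem bd13 (C : Core2 α R m LF) (k : ℕ) :
    ((0 : ℕ) : ℤ) * ptS k (8 * 2 ^ R :: vt C) 0 ≤ sys.GG * dot (sys.fe 13) (ptS k (8 * 2 ^ R :: vt C)) ∧
    sys.GG * dot (sys.fe 13) (ptS k (8 * 2 ^ R :: vt C)) ≤ ((512 : ℕ) : ℤ) * ptS k (8 * 2 ^ R :: vt C) 0 := by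
  have z := C.zz
  apply bd_s
  rw [fv13 C, sysGG]
  constructor
  · push_cast
    linarith only [z.ep, z.eP, z.ey, z.em, z.cap2, z.le1, z.y_le, z.h2]
  · push_cast
    linarith only [z.ep, z.eP, z.ey, z.em, z.le3, z.region, z.y00, z.U0]

theorem bd14 (C : Core2 α R m LF) (k : ℕ) :
    ((0 : ℕ) : ℤ) * ptS k (8 * 2 ^ R :: vt C) 0 ≤ sys.GG * dot (sys.fe 14) (ptS k (8 * 2 ^ R :: vt C)) ∧
    sys.GG * dot (sys.fe 14) (ptS k (8 * 2 ^ R :: vt C)) ≤ ((512 : ℕ) : ℤ) * ptS k (8 * 2 ^ R :: vt C) 0 := by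
  have z := C.zz
  apply bd_s
  rw [fv14 C, sysGG]
  constructor
  · push_cast
    linarith only [z.ep, z.eP, z.ey, z.em, z.h1, z.y_le, z.le3, z.fle1, z.le2]
  · push_cast
    linarith only [z.ep, z.eP, z.ey, z.em, z.y00, z.f30, z.cap3]

theorem bd15 (C : Core2 α R m LF) (k : ℕ) :
    ((0 : ℕ) : ℤ) * ptS k (8 * 2 ^ R :: vt C) 0 ≤ sys.GG * dot (sys.fe 15) (ptS k (8 * 2 ^ R :: vt C)) ∧
    sys.GG * dot (sys.fe 15) (ptS k (8 * 2 ^ R :: vt C)) ≤ ((256 : ℕ) : ℤ) * ptS k (8 * 2 ^ R :: vt C) 0 := by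
  have z := C.zz
  apply bd_s
  rw [fv15 C, sysGG]
  constructor
  · push_cast
    linarith only [z.ep, z.eP, z.ey, z.em, z.y_le]
  · push_cast
    linarith only [z.ep, z.eP, z.ey, z.em, z.y00]

theorem bd16 (C : Core2 α R m LF) (k : ℕ) :
    ((0 : ℕ) : ℤ) * ptS k (8 * 2 ^ R :: vt C) 0 ≤ sys.GG * dot (sys.fe 16) (ptS k (8 * 2 ^ R :: vt C)) ∧
    sys.GG * dot (sys.fe 16) (ptS k (8 * 2 ^ R :: vt C)) ≤ ((512 : ℕ) : ℤ) * ptS k (8 * 2 ^ R :: vt C) 0 := by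
  have z := C.zz
  apply bd_s
  rw [fv16 C, sysGG]
  constructor
  · push_cast
    linarith only [z.ep, z.eP, z.ey, z.em, z.region, z.h1, z.cap2, z.le3, z.h2, z.fle1]
  · push_cast
    linarith only [z.ep, z.eP, z.ey, z.em, z.le1, z.cap2, z.region, z.h2, z.le3, z.y00]

theorem bd17 (C : Core2 α R m LF) (k : ℕ) :
    ((0 : ℕ) : ℤ) * ptS k (8 * 2 ^ R :: vt C) 0 ≤ sys.GG * dot (sys.fe 17) (ptS k (8 * 2 ^ R :: vt C)) ∧
    sys.GG * dot (sys.fe 17) (ptS k (8 * 2 ^ R :: vt C)) ≤ ((512 : ℕ) : ℤ) * ptS k (8 * 2 ^ R :: vt C) 0 := by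
  have z := C.zz
  apply bd_s
  rw [fv17 C, sysGG]
  constructor
  · push_cast
    linarith only [z.ep, z.eP, z.ey, z.em, z.U0, z.y_le, z.le1]
  · push_cast
    linarith only [z.ep, z.eP, z.ey, z.em, z.q0]

theorem bd18 (C : Core2 α R m LF) (k : ℕ) :
    ((0 : ℕ) : ℤ) * ptS k (8 * 2 ^ R :: vt C) 0 ≤ sys.GG * dot (sys.fe 18) (ptS k (8 * 2 ^ R :: vt C)) ∧
    sys.GG * dot (sys.fe 18) (ptS k (8 * 2 ^ R :: vt C)) ≤ ((256 : ℕ) : ℤ) * ptS k (8 * 2 ^ R :: vt C) 0 := by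
  have z := C.zz
  apply bd_s
  rw [fv18 C, sysGG]
  constructor
  · push_cast
    linarith only [z.ep, z.eP, z.ey, z.em, z.region, z.h1, z.le3, z.h2, z.fle1, z.cap2]
  · push_cast
    linarith only [z.ep, z.eP, z.ey, z.em, z.h1, z.fle1, z.le2]

theorem bd19 (C : Core2 α R m LF) (k : ℕ) :
    ((0 : ℕ) : ℤ) * ptS k (8 * 2 ^ R :: vt C) 0 ≤ sys.GG * dot (sys.fe 19) (ptS k (8 * 2 ^ R :: vt C)) ∧
    sys.GG * dot (sys.fe 19) (ptS k (8 * 2 ^ R :: vt C)) ≤ ((256 : ℕ) : ℤ) * ptS k (8 * 2 ^ R :: vt C) 0 := by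
  have z := C.zz
  apply bd_s
  rw [fv19 C, sysGG]
  constructor
  · push_cast
    linarith only [z.ep, z.eP, z.ey, z.em, z.h1, z.le2, z.region, z.fle1]
  · push_cast
    linarith only [z.ep, z.eP, z.ey, z.em, z.h1, z.fle1]

theorem bd20 (C : Core2 α R m LF) (k : ℕ) :
    ((0 : ℕ) : ℤ) * ptS k (8 * 2 ^ R :: vt C) 0 ≤ sys.GG * dot (sys.fe 20) (ptS k (8 * 2 ^ R :: vt C)) ∧
    sys.GG * dot (sys.fe 20) (ptS k (8 * 2 ^ R :: vt C)) ≤ ((256 : ℕ) : ℤ) * ptS k (8 * 2 ^ R :: vt C) 0 := by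
  have z := C.zz
  apply bd_s
  rw [fv20 C, sysGG]
  constructor
  · push_cast
    linarith only [z.ep, z.eP, z.ey, z.em, le_max_left (0 : ℤ) (2 * (C.a : ℤ) - C.P - C.fK)]
  · push_cast
    linarith only [z.ep, z.eP, z.ey, z.em, z.uzA, z.h2, z.le3, z.cap2]

theorem bd21 (C : Core2 α R m LF) (k : ℕ) :
    ((0 : ℕ) : ℤ) * ptS k (8 * 2 ^ R :: vt C) 0 ≤ sys.GG * dot (sys.fe 21) (ptS k (8 * 2 ^ R :: vt C)) ∧
    sys.GG * dot (sys.fe 21) (ptS k (8 * 2 ^ R :: vt C)) ≤ ((128 : ℕ) : ℤ) * ptS k (8 * 2 ^ R :: vt C) 0 := by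
  have z := C.zz
  apply bd_s
  rw [fv21 C, sysGG]
  constructor
  · push_cast
    linarith only [z.ep, z.eP, z.ey, z.em, le_max_left (0 : ℤ) (2 * (C.a2 : ℤ) - C.P2 - C.f3)]
  · push_cast
    linarith only [z.ep, z.eP, z.ey, z.em, z.h1, z.uzA2, z.region, z.h2, z.le3, z.fle1, z.cap2]

theorem bd22 (C : Core2 α R m LF) (k : ℕ) :
    ((0 : ℕ) : ℤ) * ptS k (8 * 2 ^ R :: vt C) 0 ≤ sys.GG * dot (sys.fe 22) (ptS k (8 * 2 ^ R :: vt C)) ∧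
    sys.GG * dot (sys.fe 22) (ptS k (8 * 2 ^ R :: vt C)) ≤ ((256 : ℕ) : ℤ) * ptS k (8 * 2 ^ R :: vt C) 0 := by
  have z := C.zz
  apply bd_s
  rw [fv22 C, sysGG]
  constructor
  · push_cast
    linarith only [z.ep, z.eP, z.ey, z.em, z.fle1]
  · push_cast
    linarith only [z.ep, z.eP, z.ey, z.em, z.le2, z.h1, z.f0, z.y_le]

theorem bd23 (C : Core2 α R m LF) (k : ℕ) :
    ((0 : ℕ) : ℤ) * ptS k (8 * 2 ^ R :: vt C) 0 ≤ sys.GG * dot (sys.fe 23) (ptS k (8 * 2 ^ R :: vt C)) ∧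
    sys.GG * dot (sys.fe 23) (ptS k (8 * 2 ^ R :: vt C)) ≤ ((512 : ℕ) : ℤ) * ptS k (8 * 2 ^ R :: vt C) 0 := by
  have z := C.zz
  apply bd_s
  rw [fv23 C, sysGG]
  constructor
  · push_cast
    linarith only [z.ep, z.eP, z.ey, z.em, z.h1, z.fle1]
  · push_cast
    linarith only [z.ep, z.eP, z.ey, z.em, z.h1, z.le2, z.region, z.fle1]

theorem bd24 (C : Core2 α R m LF) (k : ℕ) :
    ((0 : ℕ) : ℤ) * ptS k (8 * 2 ^ R :: vt C) 0 ≤ sys.GG * dot (sys.fe 24) (ptS k (8 * 2 ^ R :: vt C)) ∧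
    sys.GG * dot (sys.fe 24) (ptS k (8 * 2 ^ R :: vt C)) ≤ ((256 : ℕ) : ℤ) * ptS k (8 * 2 ^ R :: vt C) 0 := by
  have z := C.zz
  apply bd_s
  rw [fv24 C, sysGG]
  constructor
  · push_cast
    linarith only [z.ep, z.eP, z.ey, z.em, z.fle2]
  · push_cast
    linarith only [z.ep, z.eP, z.ey, z.em, z.h1, z.region, z.le3, z.h2, z.fle1, z.cap2]

theorem bd25 (C : Core2 α R m LF) (k : ℕ) :
    ((0 : ℕ) : ℤ) * ptS k (8 * 2 ^ R :: vt C) 0 ≤ sys.GG * dot (sys.fe 25) (ptS k (8 * 2 ^ R :: vt C)) ∧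
    sys.GG * dot (sys.fe 25) (ptS k (8 * 2 ^ R :: vt C)) ≤ ((256 : ℕ) : ℤ) * ptS k (8 * 2 ^ R :: vt C) 0 := by
  have z := C.zz
  apply bd_s
  rw [fv25 C, sysGG]
  constructor
  · push_cast
    linarith only [z.ep, z.eP, z.ey, z.em, z.fle2, z.h2]
  · push_cast
    linarith only [z.ep, z.eP, z.ey, z.em, z.h1, z.region, z.le3, z.h2, z.fle1, z.cap2]

theorem bd26 (C : Core2 α R m LF) (k : ℕ) :
    ((0 : ℕ) : ℤ) * ptS k (8 * 2 ^ R :: vt C) 0 ≤ sys.GG * dot (sys.fe 26) (ptS k (8 * 2 ^ R :: vt C)) ∧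
    sys.GG * dot (sys.fe 26) (ptS k (8 * 2 ^ R :: vt C)) ≤ ((128 : ℕ) : ℤ) * ptS k (8 * 2 ^ R :: vt C) 0 := by
  have z := C.zz
  apply bd_s
  rw [fv26 C, sysGG]
  constructor
  · push_cast
    linarith only [z.ep, z.eP, z.ey, z.em, z.fle3]
  · push_cast
    linarith only [z.ep, z.eP, z.ey, z.em, z.h1, z.region, z.le3, z.h2, z.f30, z.fle1, z.cap2]

theorem bd27 (C : Core2 α R m LF) (k : ℕ) :
    ((0 : ℕ) : ℤ) * ptS k (8 * 2 ^ R :: vt C) 0 ≤ sys.GG * dot (sys.fe 27) (ptS k (8 * 2 ^ R :: vt C)) ∧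
    sys.GG * dot (sys.fe 27) (ptS k (8 * 2 ^ R :: vt C)) ≤ ((256 : ℕ) : ℤ) * ptS k (8 * 2 ^ R :: vt C) 0 := by
  have z := C.zz
  apply bd_s
  rw [fv27 C, sysGG]
  constructor
  · push_cast
    linarith only [z.ep, z.eP, z.ey, z.em, z.w10]
  · push_cast
    linarith only [z.ep, z.eP, z.ey, z.em, z.le1, z.y_le, z.w2q, z.w12]

theorem bd28 (C : Core2 α R m LF) (k : ℕ) :
    ((0 : ℕ) : ℤ) * ptS k (8 * 2 ^ R :: vt C) 0 ≤ sys.GG * dot (sys.fe 28) (ptS k (8 * 2 ^ R :: vt C)) ∧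
    sys.GG * dot (sys.fe 28) (ptS k (8 * 2 ^ R :: vt C)) ≤ ((256 : ℕ) : ℤ) * ptS k (8 * 2 ^ R :: vt C) 0 := by
  have z := C.zz
  apply bd_s
  rw [fv28 C, sysGG]
  constructor
  · push_cast
    linarith only [z.ep, z.eP, z.ey, z.em, z.w20]
  · push_cast
    linarith only [z.ep, z.eP, z.ey, z.em, z.le1, z.y_le, z.w2q]

theorem bd29 (C : Core2 α R m LF) (k : ℕ) :
    ((0 : ℕ) : ℤ) * ptS k (8 * 2 ^ R :: vt C) 0 ≤ sys.GG * dot (sys.fe 29) (ptS k (8 * 2 ^ R :: vt C)) ∧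
    sys.GG * dot (sys.fe 29) (ptS k (8 * 2 ^ R :: vt C)) ≤ ((512 : ℕ) : ℤ) * ptS k (8 * 2 ^ R :: vt C) 0 := by
  have z := C.zz
  apply bd_s
  rw [fv29 C, sysGG]
  constructor
  · push_cast
    linarith only [z.ep, z.eP, z.ey, z.em, z.region, z.y00, z.cap2, z.le3, z.f0, z.h2, z.fle1]
  · push_cast
    linarith only [z.ep, z.eP, z.ey, z.em, z.le1]

theorem bd30 (C : Core2 α R m LF) (k : ℕ) :
    ((0 : ℕ) : ℤ) * ptS k (8 * 2 ^ R :: vt C) 0 ≤ sys.GG * dot (sys.fe 30) (ptS k (8 * 2 ^ R :: vt C)) ∧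
    sys.GG * dot (sys.fe 30) (ptS k (8 * 2 ^ R :: vt C)) ≤ ((256 : ℕ) : ℤ) * ptS k (8 * 2 ^ R :: vt C) 0 := by
  have z := C.zz
  apply bd_s
  rw [fv30 C, sysGG]
  constructor
  · push_cast
    linarith only [z.ep, z.eP, z.ey, z.em, z.y00]
  · push_cast
    linarith only [z.ep, z.eP, z.ey, z.em, z.y_le]

theorem bdz (C : Core2 α R m LF) (k e : ℕ) (h1 : 31 ≤ e) (h2 : e < 64) :
    (((bds0.getD e (0, 0)).1 : ℕ) : ℤ) * ptS k (8 * 2 ^ R :: vt C) 0 ≤ sys.GG * dot (sys.fe e) (ptS k (8 * 2 ^ R :: vt C)) ∧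
    sys.GG * dot (sys.fe e) (ptS k (8 * 2 ^ R :: vt C)) ≤ (((bds0.getD e (0, 0)).2 : ℕ) : ℤ) * ptS k (8 * 2 ^ R :: vt C) 0 := by
  have hfe : sys.fe e = List.replicate 39 0 := by
    interval_cases e <;> rfl
  have hb : bds0.getD e (0, 0) = (0, 0) := by
    interval_cases e <;> rfl
  rw [hfe, hb, dot_replicate_zero]
  simp

/-- all bounds hold -/
theorem bds_ok (C : Core2 α R m LF) (k : ℕ) : ∀ e, e < 64 →
    (((bds0.getD e (0, 0)).1 : ℕ) : ℤ) * ptS k (8 * 2 ^ R :: vt C) 0 ≤ sys.GG * dot (sys.fe e) (ptS k (8 * 2 ^ R :: vt C)) ∧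
    sys.GG * dot (sys.fe e) (ptS k (8 * 2 ^ R :: vt C)) ≤ (((bds0.getD e (0, 0)).2 : ℕ) : ℤ) * ptS k (8 * 2 ^ R :: vt C) 0 := by
  intro e he
  rcases Nat.lt_or_ge e 31 with h | h
  · interval_cases e
    · exact bd0 C k
    · exact bd1 C k
    · exact bd2 C k
    · exact bd3 C k
    · exact bd4 C k
    · exact bd5 C k
    · exact bd6 C k
    · exact bd7 C k
    · exact bd8 C k
    · exact bd9 C k
    · exact bd10 C k
    · exact bd11 C k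
    · exact bd12 C k
    · exact bd13 C k
    · exact bd14 C k
    · exact bd15 C k
    · exact bd16 C k
    · exact bd17 C k
    · exact bd18 C k
    · exact bd19 C k
    · exact bd20 C k
    · exact bd21 C k
    · exact bd22 C k
    · exact bd23 C k
    · exact bd24 C k
    · exact bd25 C k
    · exact bd26 C k
    · exact bd27 C k
    · exact bd28 C k
    · exact bd29 C k
    · exact bd30 C k
  · exact bdz C k e h he

end Pool.Agent.EdgeIso.Chk.Core2K
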