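import Pool.Agent.Lib.MP_48c8f3_co.Bas
import Pool.Agent.Lib.MP_48c8f3_co.C6H

set_option autoImplicit false
set_option linter.unusedSectionVars false
set_option linter.unusedVariables false

/-!
MP_48c8f3_co: the numbers of the core satisfy the system, part 2 (machine made).
-/

namespace Pool.Agent.EdgeIso.Chk.Core2K

open Finset Pool.Agent.EdgeIso.Frame Pool.Agent.EdgeIso.Cell Pool.Agent.EdgeIso.Walsh
  Pool.Agent.EdgeIso.LemmaP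

variable {α : Type*} [DecidableEq α] {R m : ℕ} {LF : ℤ}

theorem li1 (C : Core2 α R m LF) (k : ℕ) :
    0 ≤ dot (f [(6, -2), (9, 1), (11, -1), (12, -1), (16, -2)]) (ptS k (8 * 2 ^ R :: vt C)) := by
  have z := C.zz
  refine lin_p (((-2) * (8 * (C.fK : ℤ)) + (1 * (8 * C.LK) + ((-1) * (8 * C.LP) + ((-1) * (8 * C.LA) + ((-2) * (8 * dg C.P C.a) + (0))))) : ℤ)) rfl rfl ?_
  linarith only [z.ep, z.eP, z.ey, z.em, C.L2]

theorem li5 (C : Core2 α R m LF) (k : ℕ) :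
    0 ≤ dot (f [(1, 1), (5, -1)]) (ptS k (8 * 2 ^ R :: vt C)) := by
  have z := C.zz
  refine lin_p ((1 * (8 * (C.q : ℤ)) + ((-1) * (8 * (C.f : ℤ)) + (0)) : ℤ)) rfl rfl ?_
  linarith only [z.ep, z.eP, z.ey, z.em, z.fle1]

theorem li9 (C : Core2 α R m LF) (k : ℕ) :
    0 ≤ dot (f [(3, 1), (4, -1)]) (ptS k (8 * 2 ^ R :: vt C)) := by
  have z := C.zz
  refine lin_p ((1 * (8 * (C.P2 : ℤ)) + ((-1) * (8 * (C.a2 : ℤ)) + (0)) : ℤ)) rfl rfl ?_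
  linarith only [z.ep, z.eP, z.ey, z.em, z.le3]

theorem li13 (C : Core2 α R m LF) (k : ℕ) :
    0 ≤ dot (f [(0, 1), (3, -2), (7, -2)]) (ptS k (8 * 2 ^ R :: vt C)) := by
  have z := C.zz
  refine lin_p ((1 * (8 * 2 ^ R) + ((-2) * (8 * (C.P2 : ℤ)) + ((-2) * (8 * (C.f3 : ℤ)) + (0))) : ℤ)) rfl rfl ?_
  linarith only [z.ep, z.eP, z.ey, z.em, z.cap3]

theorem li17 (C : Core2 α R m LF) (k : ℕ) :
    0 ≤ dot (f [(2, 1), (3, 1), (4, 1), (24, -1)]) (ptS k (8 * 2 ^ R :: vt C)) := by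
  have z := C.zz
  refine lin_p ((1 * (8 * (C.a : ℤ)) + (1 * (8 * (C.P2 : ℤ)) + (1 * (8 * (C.a2 : ℤ)) + ((-1) * (4 * (C.Km : ℤ)) + (0)))) : ℤ)) rfl rfl ?_
  linarith only [z.ep, z.eP, z.ey, z.em, C.Km1]

theorem li21 (C : Core2 α R m LF) (k : ℕ) :
    0 ≤ dot (f [(2, -1), (3, 1), (4, 1), (6, 1), (21, 2), (24, -1)]) (ptS k (8 * 2 ^ R :: vt C)) := by
  have z := C.zz
  refine lin_p (((-1) * (8 * (C.a : ℤ)) + (1 * (8 * (C.P2 : ℤ)) + (1 * (8 * (C.a2 : ℤ)) + (1 * (8 * (C.fK : ℤ)) + (2 * (4 * (C.dA : ℤ)) + ((-1) * (4 * (C.Km : ℤ)) + (0)))))) : ℤ)) rfl rfl ?_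
  linarith only [z.ep, z.eP, z.ey, z.em, C.Km5]

theorem li25 (C : Core2 α R m LF) (k : ℕ) :
    0 ≤ dot (f [(3, 1), (4, 1), (21, 1), (25, -1)]) (ptS k (8 * 2 ^ R :: vt C)) := by
  have z := C.zz
  refine lin_p ((1 * (8 * (C.P2 : ℤ)) + (1 * (8 * (C.a2 : ℤ)) + (1 * (4 * (C.dA : ℤ)) + ((-1) * (2 * (C.Kh : ℤ)) + (0)))) : ℤ)) rfl rfl ?_
  linarith only [z.ep, z.eP, z.ey, z.em, C.Kh4]

theorem li29 (C : Core2 α R m LF) (k : ℕ) :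
    0 ≤ dot (f [(26, -1), (33, 1)]) (ptS k (8 * 2 ^ R :: vt C)) := by
  have z := C.zz
  refine lin_p (((-1) * (2 * (C.Ph : ℤ)) + (1 * (2 * (C.A2r : ℤ)) + (0)) : ℤ)) rfl rfl ?_
  linarith only [z.ep, z.eP, z.ey, z.em, C.Ph3]

theorem li33 (C : Core2 α R m LF) (k : ℕ) :
    0 ≤ dot (f [(3, 1), (4, 1), (27, -1)]) (ptS k (8 * 2 ^ R :: vt C)) := by
  have z := C.zz
  refine lin_p ((1 * (8 * (C.P2 : ℤ)) + (1 * (8 * (C.a2 : ℤ)) + ((-1) * ((C.Pq : ℤ)) + (0))) : ℤ)) rfl rfl ?_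
  linarith only [z.ep, z.eP, z.ey, z.em, C.Pq1]

theorem li37 (C : Core2 α R m LF) (k : ℕ) :
    0 ≤ dot (f [(2, 1), (28, -1)]) (ptS k (8 * 2 ^ R :: vt C)) := by
  have z := C.zz
  refine lin_p ((1 * (8 * (C.a : ℤ)) + ((-1) * (4 * (C.Ay : ℤ)) + (0)) : ℤ)) rfl rfl ?_
  linarith only [z.ep, z.eP, z.ey, z.em, C.Ay1]

theorem li41 (C : Core2 α R m LF) (k : ℕ) :
    0 ≤ dot (f [(3, 1), (32, -1)]) (ptS k (8 * 2 ^ R :: vt C)) := by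
  have z := C.zz
  refine lin_p ((1 * (8 * (C.P2 : ℤ)) + ((-1) * (2 * (C.P2r : ℤ)) + (0)) : ℤ)) rfl rfl ?_
  linarith only [z.ep, z.eP, z.ey, z.em, C.P2r1]

theorem li45 (C : Core2 α R m LF) (k : ℕ) :
    0 ≤ dot (f [(2, 1), (3, 1), (4, 1), (8, -1), (19, 1), (38, -1)]) (ptS k (8 * 2 ^ R :: vt C)) := by
  have z := C.zz
  refine lin_p ((1 * (8 * (C.a : ℤ)) + (1 * (8 * (C.P2 : ℤ)) + (1 * (8 * (C.a2 : ℤ)) + ((-1) * (8 * LF) + (1 * (4 * (C.dW : ℤ)) + ((-1) * (4) + (0)))))) : ℤ)) rfl rfl ?_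
  linarith only [z.ep, z.eP, z.ey, z.em, C.cost4]

theorem li49 (C : Core2 α R m LF) (k : ℕ) :
    0 ≤ dot (f [(36, -1), (37, 1)]) (ptS k (8 * 2 ^ R :: vt C)) := by
  have z := C.zz
  refine lin_p (((-1) * (8 * (C.w1 : ℤ)) + (1 * (8 * (C.w2 : ℤ)) + (0)) : ℤ)) rfl rfl ?_
  linarith only [z.ep, z.eP, z.ey, z.em, z.w12]

theorem li53 (C : Core2 α R m LF) (k : ℕ) :
    0 ≤ dot (f [(9, 1), (18, -1)]) (ptS k (8 * 2 ^ R :: vt C)) := by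
  have z := C.zz
  refine lin_p ((1 * (8 * C.LK) + ((-1) * (4 * (C.dK : ℤ)) + (0)) : ℤ)) rfl rfl ?_
  linarith only [z.ep, z.eP, z.ey, z.em, C.dK_le]

theorem li57 (C : Core2 α R m LF) (k : ℕ) :
    0 ≤ dot (f [(13, 1), (22, -1)]) (ptS k (8 * 2 ^ R :: vt C)) := by
  have z := C.zz
  refine lin_p ((1 * (8 * C.LP2) + ((-1) * (4 * (C.dP2 : ℤ)) + (0)) : ℤ)) rfl rfl ?_
  linarith only [z.ep, z.eP, z.ey, z.em, C.dP2_le]

theorem li61 (C : Core2 α R m LF) (k : ℕ) :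
    0 ≤ dot (f [(3, 1), (4, 1), (20, -1)]) (ptS k (8 * 2 ^ R :: vt C)) := by
  have z := C.zz
  refine lin_p ((1 * (8 * (C.P2 : ℤ)) + (1 * (8 * (C.a2 : ℤ)) + ((-1) * (4 * (C.dP : ℤ)) + (0))) : ℤ)) rfl rfl ?_
  linarith only [z.ep, z.eP, z.ey, z.em, C.dP_tr]

theorem li65 (C : Core2 α R m LF) (k : ℕ) :
    0 ≤ dot (f [(0, 1), (1, -1)]) (ptS k (8 * 2 ^ R :: vt C)) := by
  have z := C.zz
  refine lin_p ((1 * (8 * 2 ^ R) + ((-1) * (8 * (C.q : ℤ)) + (0)) : ℤ)) rfl rfl ?_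
  linarith only [z.ep, z.eP, z.ey, z.em, z.uq]

theorem li69 (C : Core2 α R m LF) (k : ℕ) :
    0 ≤ dot (f [(0, 1), (5, -1)]) (ptS k (8 * 2 ^ R :: vt C)) := by
  have z := C.zz
  refine lin_p ((1 * (8 * 2 ^ R) + ((-1) * (8 * (C.f : ℤ)) + (0)) : ℤ)) rfl rfl ?_
  linarith only [z.ep, z.eP, z.ey, z.em, z.uq, z.fle1]

theorem li73 (C : Core2 α R m LF) (k : ℕ) :
    0 ≤ dot (f [(0, 4), (9, -1)]) (ptS k (8 * 2 ^ R :: vt C)) := by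
  have z := C.zz
  refine lin_p ((4 * (8 * 2 ^ R) + ((-1) * (8 * C.LK) + (0)) : ℤ)) rfl rfl ?_
  linarith only [z.ep, z.eP, z.ey, z.em, z.uLF, z.uLK, z.U0]

theorem li77 (C : Core2 α R m LF) (k : ℕ) :
    0 ≤ dot (f [(0, 4), (13, -1)]) (ptS k (8 * 2 ^ R :: vt C)) := by
  have z := C.zz
  refine lin_p ((4 * (8 * 2 ^ R) + ((-1) * (8 * C.LP2) + (0)) : ℤ)) rfl rfl ?_
  linarith only [z.ep, z.eP, z.ey, z.em, z.uLF, z.uLK, z.uLP, z.uLP2, z.U0]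

theorem li81 (C : Core2 α R m LF) (k : ℕ) :
    0 ≤ dot (f [(0, 2), (17, -1)]) (ptS k (8 * 2 ^ R :: vt C)) := by
  have z := C.zz
  refine lin_p ((2 * (8 * 2 ^ R) + ((-1) * (8 * dg C.P2 C.a2) + (0)) : ℤ)) rfl rfl ?_
  linarith only [z.ep, z.eP, z.ey, z.em, z.uLF, z.uLK, z.uLP, z.ud3, z.U0]

theorem li85 (C : Core2 α R m LF) (k : ℕ) :
    0 ≤ dot (f [(0, 1), (21, -1)]) (ptS k (8 * 2 ^ R :: vt C)) := by
  have z := C.zz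
  refine lin_p ((1 * (8 * 2 ^ R) + ((-1) * (4 * (C.dA : ℤ)) + (0)) : ℤ)) rfl rfl ?_
  linarith only [z.ep, z.eP, z.ey, z.em, C.dA_tr, z.ua]

theorem li89 (C : Core2 α R m LF) (k : ℕ) :
    0 ≤ dot (f [(0, 2), (25, -1)]) (ptS k (8 * 2 ^ R :: vt C)) := by
  have z := C.zz
  refine lin_p ((2 * (8 * 2 ^ R) + ((-1) * (2 * (C.Kh : ℤ)) + (0)) : ℤ)) rfl rfl ?_
  linarith only [z.ep, z.eP, z.ey, z.em, C.Kh1, z.up]

theorem li93 (C : Core2 α R m LF) (k : ℕ) :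
    0 ≤ dot (f [(0, 1), (29, -1)]) (ptS k (8 * 2 ^ R :: vt C)) := by
  have z := C.zz
  refine lin_p ((1 * (8 * 2 ^ R) + ((-1) * ((C.Aq : ℤ)) + (0)) : ℤ)) rfl rfl ?_
  linarith only [z.ep, z.eP, z.ey, z.em, C.Aq1, z.ua]

theorem li97 (C : Core2 α R m LF) (k : ℕ) :
    0 ≤ dot (f [(0, 1), (33, -1)]) (ptS k (8 * 2 ^ R :: vt C)) := by
  have z := C.zz
  refine lin_p ((1 * (8 * 2 ^ R) + ((-1) * (2 * (C.A2r : ℤ)) + (0)) : ℤ)) rfl rfl ?_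
  linarith only [z.ep, z.eP, z.ey, z.em, C.A2r1, z.ua2]

theorem li101 (C : Core2 α R m LF) (k : ℕ) :
    0 ≤ dot (f [(0, 1), (37, -1)]) (ptS k (8 * 2 ^ R :: vt C)) := by
  have z := C.zz
  refine lin_p ((1 * (8 * 2 ^ R) + ((-1) * (8 * (C.w2 : ℤ)) + (0)) : ℤ)) rfl rfl ?_
  linarith only [z.ep, z.eP, z.ey, z.em, z.w2q, z.uq]

theorem it2 (C : Core2 α R m LF) (k : ℕ) :
    (ItemL.cge 8 512 (f [(1, -1), (2, -1), (3, 3), (4, 3), (20, 4), (27, -4)])).Sem sys (ptS k (8 * 2 ^ R :: vt C)) := by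
  have z := C.zz
  refine cge_p _ (((-1) * (8 * (C.q : ℤ)) + ((-1) * (8 * (C.a : ℤ)) + (3 * (8 * (C.P2 : ℤ)) + (3 * (8 * (C.a2 : ℤ)) + (4 * (4 * (C.dP : ℤ)) + ((-4) * ((C.Pq : ℤ)) + (0)))))) : ℤ)) sysGG (fv8 C) rfl rfl ?_
  intro h
  push_cast at h
  have h0 : 0 ≤ 4 * (C.P : ℤ) - m := by linarith only [h, z.ep, z.eP, z.ey, z.em, z.U0]
  have h1 := C.Pq2
  rw [max_eq_right h0] at h1
  linarith only [h1, z.ep, z.eP, z.ey, z.em, z.U0]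

theorem it6 (C : Core2 α R m LF) (k : ℕ) :
    (ItemL.cge 10 256 (f [(0, 1), (1, -1), (3, -1), (4, -1), (21, 1), (28, -1)])).Sem sys (ptS k (8 * 2 ^ R :: vt C)) := by
  have z := C.zz
  refine cge_p _ ((1 * (8 * 2 ^ R) + ((-1) * (8 * (C.q : ℤ)) + ((-1) * (8 * (C.P2 : ℤ)) + ((-1) * (8 * (C.a2 : ℤ)) + (1 * (4 * (C.dA : ℤ)) + ((-1) * (4 * (C.Ay : ℤ)) + (0)))))) : ℤ)) sysGG (fv10 C) rfl rfl ?_
  intro h
  push_cast at h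
  have h0 : 0 ≤ (C.a : ℤ) - C.y := by linarith only [h, z.ep, z.eP, z.ey, z.em, z.U0]
  have h1 := C.Ay2
  rw [max_eq_right h0] at h1
  linarith only [h1, z.ep, z.eP, z.ey, z.em, z.U0]

theorem it10 (C : Core2 α R m LF) (k : ℕ) :
    (ItemL.cge 12 512 (f [(1, -1), (2, -1), (3, -1), (4, 3), (23, 4), (31, -4)])).Sem sys (ptS k (8 * 2 ^ R :: vt C)) := by
  have z := C.zz
  refine cge_p _ (((-1) * (8 * (C.q : ℤ)) + ((-1) * (8 * (C.a : ℤ)) + ((-1) * (8 * (C.P2 : ℤ)) + (3 * (8 * (C.a2 : ℤ)) + (4 * (4 * (C.dA2 : ℤ)) + ((-4) * ((C.A2q : ℤ)) + (0)))))) : ℤ)) sysGG (fv12 C) rfl rfl ?_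
  intro h
  push_cast at h
  have h0 : 0 ≤ 4 * (C.a2 : ℤ) - m := by linarith only [h, z.ep, z.eP, z.ey, z.em, z.U0]
  have h1 := C.A2q2
  rw [max_eq_right h0] at h1
  linarith only [h1, z.ep, z.eP, z.ey, z.em, z.U0]

theorem it14 (C : Core2 α R m LF) (k : ℕ) :
    (ItemL.cge 14 256 (f [(0, 1), (1, -1), (2, -1), (3, 1), (4, -1), (22, 2), (32, -2)])).Sem sys (ptS k (8 * 2 ^ R :: vt C)) := by
  have z := C.zz
  refine cge_p _ ((1 * (8 * 2 ^ R) + ((-1) * (8 * (C.q : ℤ)) + ((-1) * (8 * (C.a : ℤ)) + (1 * (8 * (C.P2 : ℤ)) + ((-1) * (8 * (C.a2 : ℤ)) + (2 * (4 * (C.dP2 : ℤ)) + ((-2) * (2 * (C.P2r : ℤ)) + (0))))))) : ℤ)) sysGG (fv14 C) rfl rfl ?_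
  intro h
  push_cast at h
  have h0 : 0 ≤ 2 * (C.P2 : ℤ) - C.y := by linarith only [h, z.ep, z.eP, z.ey, z.em, z.U0]
  have h1 := C.P2r2
  rw [max_eq_right h0] at h1
  linarith only [h1, z.ep, z.eP, z.ey, z.em, z.U0]

theorem it18 (C : Core2 α R m LF) (k : ℕ) (hR : 5 ≤ k + R)
    (hT : ∀ i j, (dgt GT0 i j : ℤ) ≤ dg i j) :
    (ItemL.dt 6 5 2 (f [(17, 1)])).Sem sys (ptS k (8 * 2 ^ R :: vt C)) := by
  have z := C.zz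
  refine dt_s (G := 8) (R := R) (p := C.P2) (q := C.a2) (δ := dg C.P2 C.a2) rfl (by omega) rfl hT ?_ ?_ ?_ ?_ le_rfl
  · rw [fv6 C]
    linarith only [z.ep, z.eP, z.ey, z.em]
  · rw [fv5 C]
    linarith only [z.ep, z.eP, z.ey, z.em]
  · rw [fv2 C]
    linarith only [z.ep, z.eP, z.ey, z.em]
  · rw [dotV_of_sd _ _ _ ((1 * (8 * dg C.P2 C.a2) + (0) : ℤ)) rfl rfl]
    ring

theorem it22 (C : Core2 α R m LF) (k : ℕ) (T : Tabs α) :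
    (ItemL.tl 3 22 4 8 (f [(9, 1)]) 4096 512 8 tbT1 129).Sem sys (ptS k (8 * 2 ^ R :: vt C)) := by
  have z := C.zz
  refine tl_s (g' := 64) (c := 8) (rc := 32) (N := (R + 1)) (R := R) (γ := 7) (X := C.p) (v := (C.q : ℤ) - C.f) (l := C.LK)
    (by norm_num) rfl rfl rfl rfl (by rw [pow_succ]; ring) rfl ?_ ?_ ?_ ?_
  · rw [fv3 C]
    linarith only [z.ep, z.eP, z.ey, z.em]
  · rw [dotV_of_sd _ _ _ ((1 * (8 * C.LK) + (0) : ℤ)) rfl rfl]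
    ring
  · rw [fv22 C]
    linarith only [z.ep, z.eP, z.ey, z.em]
  · exact C.tK _ T.t1 z.g1 z.np

theorem it26 (C : Core2 α R m LF) (k : ℕ) (T : Tabs α) :
    (ItemL.tl 3 23 4 8 (f [(9, 1)]) 4096 256 4 tbT0 129).Sem sys (ptS k (8 * 2 ^ R :: vt C)) := by
  have z := C.zz
  refine tl_s (g' := 64) (c := 16) (rc := 32) (N := (R + 1)) (R := R) (γ := 7) (X := C.p) (v := 2 * (C.a : ℤ)) (l := C.LK)
    (by norm_num) rfl rfl rfl rfl (by rw [pow_succ]; ring) rfl ?_ ?_ ?_ ?_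
  · rw [fv3 C]
    linarith only [z.ep, z.eP, z.ey, z.em]
  · rw [dotV_of_sd _ _ _ ((1 * (8 * C.LK) + (0) : ℤ)) rfl rfl]
    ring
  · rw [fv23 C]
    linarith only [z.ep, z.eP, z.ey, z.em]
  · exact C.tK' _ T.t0 z.g2 z.np

theorem it30 (C : Core2 α R m LF) (k : ℕ) (T : Tabs α) :
    (ItemL.tl 3 23 4 8 (f [(0, 1), (9, 1)]) 4096 256 4 tbF64 129).Sem sys (ptS k (8 * 2 ^ R :: vt C)) := by
  have z := C.zz
  refine tl_s (g' := 64) (c := 16) (rc := 32) (N := (R + 1)) (R := R) (γ := 7) (X := C.p) (v := 2 * (C.a : ℤ)) (l := C.LK + 2 ^ R)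
    (by norm_num) rfl rfl rfl rfl (by rw [pow_succ]; ring) rfl ?_ ?_ ?_ ?_
  · rw [fv3 C]
    linarith only [z.ep, z.eP, z.ey, z.em]
  · rw [dotV_of_sd _ _ _ ((1 * (8 * 2 ^ R) + (1 * (8 * C.LK) + (0)) : ℤ)) rfl rfl]
    ring
  · rw [fv23 C]
    linarith only [z.ep, z.eP, z.ey, z.em]
  · exact C.tK' _ T.f64 (2 ^ R) (by rw [pow_succ]; ring)

theorem it34 (C : Core2 α R m LF) (k : ℕ) (T : Tabs α) :
    (ItemL.tl 2 24 2 4 (f [(11, 1)]) 4096 512 4 tbT1 129).Sem sys (ptS k (8 * 2 ^ R :: vt C)) := by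
  have z := C.zz
  refine tl_s (g' := 128) (c := 8) (rc := 32) (N := R) (R := R) (γ := 7) (X := C.P) (v := (C.a : ℤ) - C.fK) (l := C.LP)
    (by norm_num) rfl rfl rfl rfl (by norm_num) rfl ?_ ?_ ?_ ?_
  · rw [fv2 C]
    linarith only [z.ep, z.eP, z.ey, z.em]
  · rw [dotV_of_sd _ _ _ ((1 * (8 * C.LP) + (0) : ℤ)) rfl rfl]
    ring
  · rw [fv24 C]
    linarith only [z.ep, z.eP, z.ey, z.em]
  · exact C.tP _ T.t1 z.g3 z.nP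

theorem it38 (C : Core2 α R m LF) (k : ℕ) (T : Tabs α) :
    (ItemL.tl 2 25 2 4 (f [(11, 1)]) 4096 256 2 tbT0 129).Sem sys (ptS k (8 * 2 ^ R :: vt C)) := by
  have z := C.zz
  refine tl_s (g' := 128) (c := 16) (rc := 32) (N := R) (R := R) (γ := 7) (X := C.P) (v := 2 * (C.a2 : ℤ)) (l := C.LP)
    (by norm_num) rfl rfl rfl rfl (by norm_num) rfl ?_ ?_ ?_ ?_
  · rw [fv2 C]
    linarith only [z.ep, z.eP, z.ey, z.em]
  · rw [dotV_of_sd _ _ _ ((1 * (8 * C.LP) + (0) : ℤ)) rfl rfl]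
    ring
  · rw [fv25 C]
    linarith only [z.ep, z.eP, z.ey, z.em]
  · exact C.tP' _ T.t0 z.g4 z.nP

theorem it42 (C : Core2 α R m LF) (k : ℕ) (T : Tabs α) :
    (ItemL.tl 2 25 2 4 (f [(0, 1), (11, 1)]) 4096 256 2 tbF128 129).Sem sys (ptS k (8 * 2 ^ R :: vt C)) := by
  have z := C.zz
  refine tl_s (g' := 128) (c := 16) (rc := 32) (N := R) (R := R) (γ := 7) (X := C.P) (v := 2 * (C.a2 : ℤ)) (l := C.LP + 2 ^ R)
    (by norm_num) rfl rfl rfl rfl (by norm_num) rfl ?_ ?_ ?_ ?_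
  · rw [fv2 C]
    linarith only [z.ep, z.eP, z.ey, z.em]
  · rw [dotV_of_sd _ _ _ ((1 * (8 * 2 ^ R) + (1 * (8 * C.LP) + (0)) : ℤ)) rfl rfl]
    ring
  · rw [fv25 C]
    linarith only [z.ep, z.eP, z.ey, z.em]
  · exact C.tP' _ T.f128 (2 ^ R) (by ring)

theorem it46 (C : Core2 α R m LF) (k : ℕ) (T : Tabs α) :
    (ItemL.tl 1 20 2 4 (f [(12, 1)]) 4096 512 4 tbT1 129).Sem sys (ptS k (8 * 2 ^ R :: vt C)) := by
  have z := C.zz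
  refine tl_s (g' := 128) (c := 8) (rc := 32) (N := R) (R := R) (γ := 7) (X := C.a) (v := max 0 (2 * (C.a : ℤ) - C.P - C.fK)) (l := C.LA)
    (by norm_num) rfl rfl rfl rfl (by norm_num) rfl ?_ ?_ ?_ ?_
  · rw [fv1 C]
    linarith only [z.ep, z.eP, z.ey, z.em]
  · rw [dotV_of_sd _ _ _ ((1 * (8 * C.LA) + (0) : ℤ)) rfl rfl]
    ring
  · rw [fv20 C]
    linarith only [z.ep, z.eP, z.ey, z.em]
  · exact C.tA _ T.t1 (le_max_left _ _) z.na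

theorem it50 (C : Core2 α R m LF) (k : ℕ) (T : Tabs α) :
    (ItemL.tl 6 26 1 2 (f [(13, 1)]) 4096 256 1 tbT0 129).Sem sys (ptS k (8 * 2 ^ R :: vt C)) := by
  have z := C.zz
  refine tl_s (g' := 256) (c := 16) (rc := 32) (N := (R - 1)) (R := R) (γ := 7) (X := C.P2) (v := (C.a2 : ℤ) - C.f3) (l := C.LP2)
    (by norm_num) rfl rfl rfl rfl z.pmn rfl ?_ ?_ ?_ ?_
  · rw [fv6 C]
    linarith only [z.ep, z.eP, z.ey, z.em]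
  · rw [dotV_of_sd _ _ _ ((1 * (8 * C.LP2) + (0) : ℤ)) rfl rfl]
    ring
  · rw [fv26 C]
    linarith only [z.ep, z.eP, z.ey, z.em]
  · exact C.tP2 _ T.t0 z.g5 z.nP2

theorem it54 (C : Core2 α R m LF) (k : ℕ) (T : Tabs α) :
    (ItemL.tl 6 26 1 2 (f [(0, 1), (13, 1)]) 4096 512 2 tbF256 129).Sem sys (ptS k (8 * 2 ^ R :: vt C)) := by
  have z := C.zz
  refine tl_s (g' := 256) (c := 8) (rc := 16) (N := (R - 1)) (R := R) (γ := 7) (X := C.P2) (v := (C.a2 : ℤ) - C.f3) (l := C.LP2 + 2 ^ R)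
    (by norm_num) rfl rfl rfl rfl z.pmn rfl ?_ ?_ ?_ ?_
  · rw [fv6 C]
    linarith only [z.ep, z.eP, z.ey, z.em]
  · rw [dotV_of_sd _ _ _ ((1 * (8 * 2 ^ R) + (1 * (8 * C.LP2) + (0)) : ℤ)) rfl rfl]
    ring
  · rw [fv26 C]
    linarith only [z.ep, z.eP, z.ey, z.em]
  · exact C.tP2 _ T.f256 (2 ^ R) z.pm

theorem it58 (C : Core2 α R m LF) (k : ℕ) (T : Tabs α) :
    (ItemL.tl 5 21 1 2 (f [(14, 1)]) 4096 512 2 tbT1 129).Sem sys (ptS k (8 * 2 ^ R :: vt C)) := by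
  have z := C.zz
  refine tl_s (g' := 256) (c := 8) (rc := 32) (N := (R - 1)) (R := R) (γ := 7) (X := C.a2) (v := max 0 (2 * (C.a2 : ℤ) - C.P2 - C.f3)) (l := C.LA2)
    (by norm_num) rfl rfl rfl rfl z.pmn rfl ?_ ?_ ?_ ?_
  · rw [fv5 C]
    linarith only [z.ep, z.eP, z.ey, z.em]
  · rw [dotV_of_sd _ _ _ ((1 * (8 * C.LA2) + (0) : ℤ)) rfl rfl]
    ring
  · rw [fv21 C]
    linarith only [z.ep, z.eP, z.ey, z.em]
  · exact C.tA2 _ T.t1 (le_max_left _ _) z.na2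

theorem it62 (C : Core2 α R m LF) (k : ℕ) (T : Tabs α) :
    (ItemL.tl 0 27 4 8 (f [(10, 1)]) 4096 256 4 tbT0 129).Sem sys (ptS k (8 * 2 ^ R :: vt C)) := by
  have z := C.zz
  refine tl_s (g' := 64) (c := 16) (rc := 32) (N := (R + 1)) (R := R) (γ := 7) (X := C.q) (v := 2 * (C.w1 : ℤ)) (l := C.LW)
    (by norm_num) rfl rfl rfl rfl (by rw [pow_succ]; ring) rfl ?_ ?_ ?_ ?_
  · rw [fv0 C]
    linarith only [z.ep, z.eP, z.ey, z.em]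
  · rw [dotV_of_sd _ _ _ ((1 * (8 * C.LW) + (0) : ℤ)) rfl rfl]
    ring
  · rw [fv27 C]
    linarith only [z.ep, z.eP, z.ey, z.em]
  · exact C.tW1 _ T.t0 z.g6 z.nq

theorem it66 (C : Core2 α R m LF) (k : ℕ) (T : Tabs α) :
    (ItemL.tl 0 27 4 8 (f [(0, 1), (10, 1)]) 4096 256 4 tbF64 129).Sem sys (ptS k (8 * 2 ^ R :: vt C)) := by
  have z := C.zz
  refine tl_s (g' := 64) (c := 16) (rc := 32) (N := (R + 1)) (R := R) (γ := 7) (X := C.q) (v := 2 * (C.w1 : ℤ)) (l := C.LW + 2 ^ R)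
    (by norm_num) rfl rfl rfl rfl (by rw [pow_succ]; ring) rfl ?_ ?_ ?_ ?_
  · rw [fv0 C]
    linarith only [z.ep, z.eP, z.ey, z.em]
  · rw [dotV_of_sd _ _ _ ((1 * (8 * 2 ^ R) + (1 * (8 * C.LW) + (0)) : ℤ)) rfl rfl]
    ring
  · rw [fv27 C]
    linarith only [z.ep, z.eP, z.ey, z.em]
  · exact C.tW1 _ T.f64 (2 ^ R) (by rw [pow_succ]; ring)

theorem it70 (C : Core2 α R m LF) (k : ℕ) (T : Tabs α) :
    (ItemL.tt 30 29 2 4 (f [(0, 1), (8, 1)]) (f [(0, 2), (1, 1), (2, -1), (3, -1), (4, -1)]) 4096 65536 1024 8 128 tbG16 129).Sem sys (ptS k (8 * 2 ^ R :: vt C)) := by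
  have z := C.zz
  refine tt_s (g' := 128) (c := 4) (rc := 64) (N := R) (R := R) (γ := 7) (X := C.y) (v := 2 * 2 ^ R - ((m : ℤ) - 2 * C.q)) (l := LF + 2 ^ R)
    (by norm_num) rfl rfl rfl rfl rfl rfl (by norm_num) rfl rfl ?_ ?_ ?_ ?_
  · rw [fv30 C]
    linarith only [z.ep, z.eP, z.ey, z.em]
  · rw [dotV_of_sd _ _ _ ((1 * (8 * 2 ^ R) + (1 * (8 * LF) + (0)) : ℤ)) rfl rfl]
    ring
  · rw [dotV_of_sd _ _ _ ((2 * (8 * 2 ^ R) + (1 * (8 * (C.q : ℤ)) + ((-1) * (8 * (C.a : ℤ)) + ((-1) * (8 * (C.P2 : ℤ)) + ((-1) * (8 * (C.a2 : ℤ)) + (0))))) : ℤ)) rfl rfl]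
    linarith only [z.ep, z.eP, z.ey, z.em]
  · exact C.rowG T.g16

theorem it74 (C : Core2 α R m LF) (k : ℕ) :
    (ItemL.mc 0 17 (f [(19, 2)])).Sem sys (ptS k (8 * 2 ^ R :: vt C)) := by
  have z := C.zz
  apply mc_s
  rw [fv0 C, fv17 C, dotV_of_sd _ _ _ ((2 * (4 * (C.dW : ℤ)) + (0) : ℤ)) rfl rfl]
  have h := C.avW
  nlinarith only [h]

end Pool.Agent.EdgeIso.Chk.Core2K
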