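import Pool.Agent.Lib.MP_48c8f3_co.Bas
import Pool.Agent.Lib.MP_48c8f3_co.C6H

set_option autoImplicit false
set_option linter.unusedSectionVars false
set_option linter.unusedVariables false

/-!
MP_48c8f3_co: the numbers of the core satisfy the system, part 3 (machine made).
-/

namespace Pool.Agent.EdgeIso.Chk.Core2K

open Finset Pool.Agent.EdgeIso.Frame Pool.Agent.EdgeIso.Cell Pool.Agent.EdgeIso.Walsh
  Pool.Agent.EdgeIso.LemmaP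

variable {α : Type*} [DecidableEq α] {R m : ℕ} {LF : ℤ}

theorem li2 (C : Core2 α R m LF) (k : ℕ) :
    0 ≤ dot (f [(7, -2), (11, 1), (13, -1), (14, -1), (17, -2)]) (ptS k (8 * 2 ^ R :: vt C)) := by
  have z := C.zz
  refine lin_p (((-2) * (8 * (C.f3 : ℤ)) + (1 * (8 * C.LP) + ((-1) * (8 * C.LP2) + ((-1) * (8 * C.LA2) + ((-2) * (8 * dg C.P2 C.a2) + (0))))) : ℤ)) rfl rfl ?_
  linarith only [z.ep, z.eP, z.ey, z.em, C.L3]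

theorem li6 (C : Core2 α R m LF) (k : ℕ) :
    0 ≤ dot (f [(2, 1), (6, -1)]) (ptS k (8 * 2 ^ R :: vt C)) := by
  have z := C.zz
  refine lin_p ((1 * (8 * (C.a : ℤ)) + ((-1) * (8 * (C.fK : ℤ)) + (0)) : ℤ)) rfl rfl ?_
  linarith only [z.ep, z.eP, z.ey, z.em, z.fle2]

theorem li10 (C : Core2 α R m LF) (k : ℕ) :
    0 ≤ dot (f [(1, -1), (2, 1), (3, 1), (4, 1)]) (ptS k (8 * 2 ^ R :: vt C)) := by
  have z := C.zz
  refine lin_p (((-1) * (8 * (C.q : ℤ)) + (1 * (8 * (C.a : ℤ)) + (1 * (8 * (C.P2 : ℤ)) + (1 * (8 * (C.a2 : ℤ)) + (0)))) : ℤ)) rfl rfl ?_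
  linarith only [z.ep, z.eP, z.ey, z.em, z.le1]

theorem li14 (C : Core2 α R m LF) (k : ℕ) :
    0 ≤ dot (f [(0, 2), (1, -1), (2, -1), (3, -1), (4, -1)]) (ptS k (8 * 2 ^ R :: vt C)) := by
  have z := C.zz
  refine lin_p ((2 * (8 * 2 ^ R) + ((-1) * (8 * (C.q : ℤ)) + ((-1) * (8 * (C.a : ℤ)) + ((-1) * (8 * (C.P2 : ℤ)) + ((-1) * (8 * (C.a2 : ℤ)) + (0))))) : ℤ)) rfl rfl ?_
  linarith only [z.ep, z.eP, z.ey, z.em, z.y_le]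

theorem li18 (C : Core2 α R m LF) (k : ℕ) :
    0 ≤ dot (f [(18, 1), (24, -1)]) (ptS k (8 * 2 ^ R :: vt C)) := by
  have z := C.zz
  refine lin_p ((1 * (4 * (C.dK : ℤ)) + ((-1) * (4 * (C.Km : ℤ)) + (0)) : ℤ)) rfl rfl ?_
  linarith only [z.ep, z.eP, z.ey, z.em, C.Km2]

theorem li22 (C : Core2 α R m LF) (k : ℕ) :
    0 ≤ dot (f [(2, 1), (3, 1), (4, 1), (25, -1)]) (ptS k (8 * 2 ^ R :: vt C)) := by
  have z := C.zz
  refine lin_p ((1 * (8 * (C.a : ℤ)) + (1 * (8 * (C.P2 : ℤ)) + (1 * (8 * (C.a2 : ℤ)) + ((-1) * (2 * (C.Kh : ℤ)) + (0)))) : ℤ)) rfl rfl ?_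
  linarith only [z.ep, z.eP, z.ey, z.em, C.Kh1]

theorem li26 (C : Core2 α R m LF) (k : ℕ) :
    0 ≤ dot (f [(6, 1), (25, -1), (27, 2)]) (ptS k (8 * 2 ^ R :: vt C)) := by
  have z := C.zz
  refine lin_p ((1 * (8 * (C.fK : ℤ)) + ((-1) * (2 * (C.Kh : ℤ)) + (2 * ((C.Pq : ℤ)) + (0))) : ℤ)) rfl rfl ?_
  linarith only [z.ep, z.eP, z.ey, z.em, C.Kh5]

theorem li30 (C : Core2 α R m LF) (k : ℕ) :
    0 ≤ dot (f [(26, -1), (32, 1)]) (ptS k (8 * 2 ^ R :: vt C)) := by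
  have z := C.zz
  refine lin_p (((-1) * (2 * (C.Ph : ℤ)) + (1 * (2 * (C.P2r : ℤ)) + (0)) : ℤ)) rfl rfl ?_
  linarith only [z.ep, z.eP, z.ey, z.em, C.Ph4]

theorem li34 (C : Core2 α R m LF) (k : ℕ) :
    0 ≤ dot (f [(4, 1), (27, -1), (30, 1)]) (ptS k (8 * 2 ^ R :: vt C)) := by
  have z := C.zz
  refine lin_p ((1 * (8 * (C.a2 : ℤ)) + ((-1) * ((C.Pq : ℤ)) + (1 * ((C.P2q : ℤ)) + (0))) : ℤ)) rfl rfl ?_
  linarith only [z.ep, z.eP, z.ey, z.em, C.Pq3]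

theorem li38 (C : Core2 α R m LF) (k : ℕ) :
    0 ≤ dot (f [(3, 1), (30, -1)]) (ptS k (8 * 2 ^ R :: vt C)) := by
  have z := C.zz
  refine lin_p ((1 * (8 * (C.P2 : ℤ)) + ((-1) * ((C.P2q : ℤ)) + (0)) : ℤ)) rfl rfl ?_
  linarith only [z.ep, z.eP, z.ey, z.em, C.P2q1]

theorem li42 (C : Core2 α R m LF) (k : ℕ) :
    0 ≤ dot (f [(1, 1), (8, -1), (24, 1), (38, -1)]) (ptS k (8 * 2 ^ R :: vt C)) := by
  have z := C.zz
  refine lin_p ((1 * (8 * (C.q : ℤ)) + ((-1) * (8 * LF) + (1 * (4 * (C.Km : ℤ)) + ((-1) * (4) + (0)))) : ℤ)) rfl rfl ?_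
  linarith only [z.ep, z.eP, z.ey, z.em, C.cost1]

theorem li46 (C : Core2 α R m LF) (k : ℕ) :
    0 ≤ dot (f [(1, 1), (38, -1)]) (ptS k (8 * 2 ^ R :: vt C)) := by
  have z := C.zz
  refine lin_p ((1 * (8 * (C.q : ℤ)) + ((-1) * (4) + (0)) : ℤ)) rfl rfl ?_
  linarith only [z.ep, z.eP, z.ey, z.em, z.q1]

theorem li50 (C : Core2 α R m LF) (k : ℕ) :
    0 ≤ dot (f [(1, -2), (2, 1), (3, 1), (4, 1), (5, 1), (36, 2)]) (ptS k (8 * 2 ^ R :: vt C)) := by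
  have z := C.zz
  refine lin_p (((-2) * (8 * (C.q : ℤ)) + (1 * (8 * (C.a : ℤ)) + (1 * (8 * (C.P2 : ℤ)) + (1 * (8 * (C.a2 : ℤ)) + (1 * (8 * (C.f : ℤ)) + (2 * (8 * (C.w1 : ℤ)) + (0)))))) : ℤ)) rfl rfl ?_
  linarith only [z.ep, z.eP, z.ey, z.em, z.w1q]

theorem li54 (C : Core2 α R m LF) (k : ℕ) :
    0 ≤ dot (f [(10, 1), (19, -1)]) (ptS k (8 * 2 ^ R :: vt C)) := by
  have z := C.zz
  refine lin_p ((1 * (8 * C.LW) + ((-1) * (4 * (C.dW : ℤ)) + (0)) : ℤ)) rfl rfl ?_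
  linarith only [z.ep, z.eP, z.ey, z.em, C.dW_le]

theorem li58 (C : Core2 α R m LF) (k : ℕ) :
    0 ≤ dot (f [(14, 1), (23, -1)]) (ptS k (8 * 2 ^ R :: vt C)) := by
  have z := C.zz
  refine lin_p ((1 * (8 * C.LA2) + ((-1) * (4 * (C.dA2 : ℤ)) + (0)) : ℤ)) rfl rfl ?_
  linarith only [z.ep, z.eP, z.ey, z.em, C.dA2_le]

theorem li62 (C : Core2 α R m LF) (k : ℕ) :
    0 ≤ dot (f [(2, 1), (21, -1)]) (ptS k (8 * 2 ^ R :: vt C)) := by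
  have z := C.zz
  refine lin_p ((1 * (8 * (C.a : ℤ)) + ((-1) * (4 * (C.dA : ℤ)) + (0)) : ℤ)) rfl rfl ?_
  linarith only [z.ep, z.eP, z.ey, z.em, C.dA_tr]

theorem li66 (C : Core2 α R m LF) (k : ℕ) :
    0 ≤ dot (f [(0, 1), (2, -1)]) (ptS k (8 * 2 ^ R :: vt C)) := by
  have z := C.zz
  refine lin_p ((1 * (8 * 2 ^ R) + ((-1) * (8 * (C.a : ℤ)) + (0)) : ℤ)) rfl rfl ?_
  linarith only [z.ep, z.eP, z.ey, z.em, z.ua]

theorem li70 (C : Core2 α R m LF) (k : ℕ) :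
    0 ≤ dot (f [(0, 1), (6, -1)]) (ptS k (8 * 2 ^ R :: vt C)) := by
  have z := C.zz
  refine lin_p ((1 * (8 * 2 ^ R) + ((-1) * (8 * (C.fK : ℤ)) + (0)) : ℤ)) rfl rfl ?_
  linarith only [z.ep, z.eP, z.ey, z.em, z.ua, z.fle2]

theorem li74 (C : Core2 α R m LF) (k : ℕ) :
    0 ≤ dot (f [(0, 4), (10, -1)]) (ptS k (8 * 2 ^ R :: vt C)) := by
  have z := C.zz
  refine lin_p ((4 * (8 * 2 ^ R) + ((-1) * (8 * C.LW) + (0)) : ℤ)) rfl rfl ?_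
  linarith only [z.ep, z.eP, z.ey, z.em, z.uLF, z.uLW, z.U0]

theorem li78 (C : Core2 α R m LF) (k : ℕ) :
    0 ≤ dot (f [(0, 4), (14, -1)]) (ptS k (8 * 2 ^ R :: vt C)) := by
  have z := C.zz
  refine lin_p ((4 * (8 * 2 ^ R) + ((-1) * (8 * C.LA2) + (0)) : ℤ)) rfl rfl ?_
  linarith only [z.ep, z.eP, z.ey, z.em, z.uLF, z.uLK, z.uLP, z.uLA2, z.U0]

theorem li82 (C : Core2 α R m LF) (k : ℕ) :
    0 ≤ dot (f [(0, 2), (18, -1)]) (ptS k (8 * 2 ^ R :: vt C)) := by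
  have z := C.zz
  refine lin_p ((2 * (8 * 2 ^ R) + ((-1) * (4 * (C.dK : ℤ)) + (0)) : ℤ)) rfl rfl ?_
  linarith only [z.ep, z.eP, z.ey, z.em, C.dK_tr, z.up, z.U0]

theorem li86 (C : Core2 α R m LF) (k : ℕ) :
    0 ≤ dot (f [(0, 1), (22, -1)]) (ptS k (8 * 2 ^ R :: vt C)) := by
  have z := C.zz
  refine lin_p ((1 * (8 * 2 ^ R) + ((-1) * (4 * (C.dP2 : ℤ)) + (0)) : ℤ)) rfl rfl ?_
  linarith only [z.ep, z.eP, z.ey, z.em, C.dP2_tr, z.uP2]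

theorem li90 (C : Core2 α R m LF) (k : ℕ) :
    0 ≤ dot (f [(0, 1), (26, -1)]) (ptS k (8 * 2 ^ R :: vt C)) := by
  have z := C.zz
  refine lin_p ((1 * (8 * 2 ^ R) + ((-1) * (2 * (C.Ph : ℤ)) + (0)) : ℤ)) rfl rfl ?_
  linarith only [z.ep, z.eP, z.ey, z.em, C.Ph1, z.uP]

theorem li94 (C : Core2 α R m LF) (k : ℕ) :
    0 ≤ dot (f [(0, 1), (30, -1)]) (ptS k (8 * 2 ^ R :: vt C)) := by
  have z := C.zz
  refine lin_p ((1 * (8 * 2 ^ R) + ((-1) * ((C.P2q : ℤ)) + (0)) : ℤ)) rfl rfl ?_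
  linarith only [z.ep, z.eP, z.ey, z.em, C.P2q1, z.uP2]

theorem li98 (C : Core2 α R m LF) (k : ℕ) :
    0 ≤ dot (f [(0, 1), (34, -1)]) (ptS k (8 * 2 ^ R :: vt C)) := by
  have z := C.zz
  refine lin_p ((1 * (8 * 2 ^ R) + ((-1) * (8 * max 0 (2 * (C.a : ℤ) - C.P - C.fK)) + (0)) : ℤ)) rfl rfl ?_
  linarith only [z.ep, z.eP, z.ey, z.em, z.uzA, z.ua]

theorem li102 (C : Core2 α R m LF) (k : ℕ) :
    0 ≤ dot (f [(0, 1), (38, -1)]) (ptS k (8 * 2 ^ R :: vt C)) := by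
  have z := C.zz
  refine lin_p ((1 * (8 * 2 ^ R) + ((-1) * (4) + (0)) : ℤ)) rfl rfl ?_
  linarith only [z.ep, z.eP, z.ey, z.em, z.U1]

theorem it3 (C : Core2 α R m LF) (k : ℕ) :
    (ItemL.cle 8 512 (f [(20, 1), (27, -1)])).Sem sys (ptS k (8 * 2 ^ R :: vt C)) := by
  have z := C.zz
  refine cle_p _ ((1 * (4 * (C.dP : ℤ)) + ((-1) * ((C.Pq : ℤ)) + (0)) : ℤ)) sysGG (fv8 C) rfl rfl ?_
  intro h
  push_cast at h
  have h0 : 4 * (C.P : ℤ) - m ≤ 0 := by linarith only [h, z.ep, z.eP, z.ey, z.em, z.U0]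
  have h1 := C.Pq2
  rw [max_eq_left h0] at h1
  linarith only [h1, z.ep, z.eP, z.ey, z.em, z.U0]

theorem it7 (C : Core2 α R m LF) (k : ℕ) :
    (ItemL.cle 10 256 (f [(21, 1), (28, -1)])).Sem sys (ptS k (8 * 2 ^ R :: vt C)) := by
  have z := C.zz
  refine cle_p _ ((1 * (4 * (C.dA : ℤ)) + ((-1) * (4 * (C.Ay : ℤ)) + (0)) : ℤ)) sysGG (fv10 C) rfl rfl ?_
  intro h
  push_cast at h
  have h0 : (C.a : ℤ) - C.y ≤ 0 := by linarith only [h, z.ep, z.eP, z.ey, z.em, z.U0]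
  have h1 := C.Ay2
  rw [max_eq_left h0] at h1
  linarith only [h1, z.ep, z.eP, z.ey, z.em, z.U0]

theorem it11 (C : Core2 α R m LF) (k : ℕ) :
    (ItemL.cle 12 512 (f [(23, 1), (31, -1)])).Sem sys (ptS k (8 * 2 ^ R :: vt C)) := by
  have z := C.zz
  refine cle_p _ ((1 * (4 * (C.dA2 : ℤ)) + ((-1) * ((C.A2q : ℤ)) + (0)) : ℤ)) sysGG (fv12 C) rfl rfl ?_
  intro h
  push_cast at h
  have h0 : 4 * (C.a2 : ℤ) - m ≤ 0 := by linarith only [h, z.ep, z.eP, z.ey, z.em, z.U0]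
  have h1 := C.A2q2
  rw [max_eq_left h0] at h1
  linarith only [h1, z.ep, z.eP, z.ey, z.em, z.U0]

theorem it15 (C : Core2 α R m LF) (k : ℕ) :
    (ItemL.cle 14 256 (f [(22, 1), (32, -1)])).Sem sys (ptS k (8 * 2 ^ R :: vt C)) := by
  have z := C.zz
  refine cle_p _ ((1 * (4 * (C.dP2 : ℤ)) + ((-1) * (2 * (C.P2r : ℤ)) + (0)) : ℤ)) sysGG (fv14 C) rfl rfl ?_
  intro h
  push_cast at h
  have h0 : 2 * (C.P2 : ℤ) - C.y ≤ 0 := by linarith only [h, z.ep, z.eP, z.ey, z.em, z.U0]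
  have h1 := C.P2r2
  rw [max_eq_left h0] at h1
  linarith only [h1, z.ep, z.eP, z.ey, z.em, z.U0]

theorem it19 (C : Core2 α R m LF) (k : ℕ) (T : Tabs α) :
    (ItemL.tt 3 22 4 8 (f [(9, 1)]) (f [(1, 1), (5, -1)]) 4096 8192 256 4 64 tbT0 129).Sem sys (ptS k (8 * 2 ^ R :: vt C)) := by
  have z := C.zz
  refine tt_s (g' := 64) (c := 16) (rc := 32) (N := (R + 1)) (R := R) (γ := 7) (X := C.p) (v := (C.q : ℤ) - C.f) (l := C.LK)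
    (by norm_num) rfl rfl rfl rfl rfl rfl (by rw [pow_succ]; ring) rfl rfl ?_ ?_ ?_ ?_
  · rw [fv3 C]
    linarith only [z.ep, z.eP, z.ey, z.em]
  · rw [dotV_of_sd _ _ _ ((1 * (8 * C.LK) + (0) : ℤ)) rfl rfl]
    ring
  · rw [dotV_of_sd _ _ _ ((1 * (8 * (C.q : ℤ)) + ((-1) * (8 * (C.f : ℤ)) + (0)) : ℤ)) rfl rfl]
    linarith only [z.ep, z.eP, z.ey, z.em]
  · exact C.tK _ T.t0 z.g1 z.np

theorem it23 (C : Core2 α R m LF) (k : ℕ) (T : Tabs α) :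
    (ItemL.tt 3 22 4 8 (f [(0, 1), (9, 1)]) (f [(1, 1), (5, -1)]) 4096 8192 256 4 64 tbF64 129).Sem sys (ptS k (8 * 2 ^ R :: vt C)) := by
  have z := C.zz
  refine tt_s (g' := 64) (c := 16) (rc := 32) (N := (R + 1)) (R := R) (γ := 7) (X := C.p) (v := (C.q : ℤ) - C.f) (l := C.LK + 2 ^ R)
    (by norm_num) rfl rfl rfl rfl rfl rfl (by rw [pow_succ]; ring) rfl rfl ?_ ?_ ?_ ?_
  · rw [fv3 C]
    linarith only [z.ep, z.eP, z.ey, z.em]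
  · rw [dotV_of_sd _ _ _ ((1 * (8 * 2 ^ R) + (1 * (8 * C.LK) + (0)) : ℤ)) rfl rfl]
    ring
  · rw [dotV_of_sd _ _ _ ((1 * (8 * (C.q : ℤ)) + ((-1) * (8 * (C.f : ℤ)) + (0)) : ℤ)) rfl rfl]
    linarith only [z.ep, z.eP, z.ey, z.em]
  · exact C.tK _ T.f64 (2 ^ R) (by rw [pow_succ]; ring)

theorem it27 (C : Core2 α R m LF) (k : ℕ) (T : Tabs α) :
    (ItemL.tt 3 23 4 8 (f [(9, 1)]) (f [(2, 2)]) 4096 16384 512 8 64 tbT1 129).Sem sys (ptS k (8 * 2 ^ R :: vt C)) := by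
  have z := C.zz
  refine tt_s (g' := 64) (c := 8) (rc := 32) (N := (R + 1)) (R := R) (γ := 7) (X := C.p) (v := 2 * (C.a : ℤ)) (l := C.LK)
    (by norm_num) rfl rfl rfl rfl rfl rfl (by rw [pow_succ]; ring) rfl rfl ?_ ?_ ?_ ?_
  · rw [fv3 C]
    linarith only [z.ep, z.eP, z.ey, z.em]
  · rw [dotV_of_sd _ _ _ ((1 * (8 * C.LK) + (0) : ℤ)) rfl rfl]
    ring
  · rw [dotV_of_sd _ _ _ ((2 * (8 * (C.a : ℤ)) + (0) : ℤ)) rfl rfl]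
    linarith only [z.ep, z.eP, z.ey, z.em]
  · exact C.tK' _ T.t1 z.g2 z.np

theorem it31 (C : Core2 α R m LF) (k : ℕ) (T : Tabs α) :
    (ItemL.tt 2 24 2 4 (f [(11, 1)]) (f [(2, 1), (6, -1)]) 4096 8192 256 2 64 tbT0 129).Sem sys (ptS k (8 * 2 ^ R :: vt C)) := by
  have z := C.zz
  refine tt_s (g' := 128) (c := 16) (rc := 32) (N := R) (R := R) (γ := 7) (X := C.P) (v := (C.a : ℤ) - C.fK) (l := C.LP)
    (by norm_num) rfl rfl rfl rfl rfl rfl (by norm_num) rfl rfl ?_ ?_ ?_ ?_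
  · rw [fv2 C]
    linarith only [z.ep, z.eP, z.ey, z.em]
  · rw [dotV_of_sd _ _ _ ((1 * (8 * C.LP) + (0) : ℤ)) rfl rfl]
    ring
  · rw [dotV_of_sd _ _ _ ((1 * (8 * (C.a : ℤ)) + ((-1) * (8 * (C.fK : ℤ)) + (0)) : ℤ)) rfl rfl]
    linarith only [z.ep, z.eP, z.ey, z.em]
  · exact C.tP _ T.t0 z.g3 z.nP

theorem it35 (C : Core2 α R m LF) (k : ℕ) (T : Tabs α) :
    (ItemL.tt 2 24 2 4 (f [(0, 1), (11, 1)]) (f [(2, 1), (6, -1)]) 4096 8192 256 2 64 tbF128 129).Sem sys (ptS k (8 * 2 ^ R :: vt C)) := by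
  have z := C.zz
  refine tt_s (g' := 128) (c := 16) (rc := 32) (N := R) (R := R) (γ := 7) (X := C.P) (v := (C.a : ℤ) - C.fK) (l := C.LP + 2 ^ R)
    (by norm_num) rfl rfl rfl rfl rfl rfl (by norm_num) rfl rfl ?_ ?_ ?_ ?_
  · rw [fv2 C]
    linarith only [z.ep, z.eP, z.ey, z.em]
  · rw [dotV_of_sd _ _ _ ((1 * (8 * 2 ^ R) + (1 * (8 * C.LP) + (0)) : ℤ)) rfl rfl]
    ring
  · rw [dotV_of_sd _ _ _ ((1 * (8 * (C.a : ℤ)) + ((-1) * (8 * (C.fK : ℤ)) + (0)) : ℤ)) rfl rfl]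
    linarith only [z.ep, z.eP, z.ey, z.em]
  · exact C.tP _ T.f128 (2 ^ R) (by ring)

theorem it39 (C : Core2 α R m LF) (k : ℕ) (T : Tabs α) :
    (ItemL.tt 2 25 2 4 (f [(11, 1)]) (f [(4, 2)]) 4096 16384 512 4 64 tbT1 129).Sem sys (ptS k (8 * 2 ^ R :: vt C)) := by
  have z := C.zz
  refine tt_s (g' := 128) (c := 8) (rc := 32) (N := R) (R := R) (γ := 7) (X := C.P) (v := 2 * (C.a2 : ℤ)) (l := C.LP)
    (by norm_num) rfl rfl rfl rfl rfl rfl (by norm_num) rfl rfl ?_ ?_ ?_ ?_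
  · rw [fv2 C]
    linarith only [z.ep, z.eP, z.ey, z.em]
  · rw [dotV_of_sd _ _ _ ((1 * (8 * C.LP) + (0) : ℤ)) rfl rfl]
    ring
  · rw [dotV_of_sd _ _ _ ((2 * (8 * (C.a2 : ℤ)) + (0) : ℤ)) rfl rfl]
    linarith only [z.ep, z.eP, z.ey, z.em]
  · exact C.tP' _ T.t1 z.g4 z.nP

theorem it43 (C : Core2 α R m LF) (k : ℕ) (T : Tabs α) :
    (ItemL.tt 1 20 2 4 (f [(12, 1)]) (f [(34, 1)]) 4096 8192 256 2 64 tbT0 129).Sem sys (ptS k (8 * 2 ^ R :: vt C)) := by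
  have z := C.zz
  refine tt_s (g' := 128) (c := 16) (rc := 32) (N := R) (R := R) (γ := 7) (X := C.a) (v := max 0 (2 * (C.a : ℤ) - C.P - C.fK)) (l := C.LA)
    (by norm_num) rfl rfl rfl rfl rfl rfl (by norm_num) rfl rfl ?_ ?_ ?_ ?_
  · rw [fv1 C]
    linarith only [z.ep, z.eP, z.ey, z.em]
  · rw [dotV_of_sd _ _ _ ((1 * (8 * C.LA) + (0) : ℤ)) rfl rfl]
    ring
  · rw [dotV_of_sd _ _ _ ((1 * (8 * max 0 (2 * (C.a : ℤ) - C.P - C.fK)) + (0) : ℤ)) rfl rfl]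
    linarith only [z.ep, z.eP, z.ey, z.em]
  · exact C.tA _ T.t0 (le_max_left _ _) z.na

theorem it47 (C : Core2 α R m LF) (k : ℕ) (T : Tabs α) :
    (ItemL.tt 1 20 2 4 (f [(0, 1), (12, 1)]) (f [(34, 1)]) 4096 8192 256 2 64 tbF128 129).Sem sys (ptS k (8 * 2 ^ R :: vt C)) := by
  have z := C.zz
  refine tt_s (g' := 128) (c := 16) (rc := 32) (N := R) (R := R) (γ := 7) (X := C.a) (v := max 0 (2 * (C.a : ℤ) - C.P - C.fK)) (l := C.LA + 2 ^ R)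
    (by norm_num) rfl rfl rfl rfl rfl rfl (by norm_num) rfl rfl ?_ ?_ ?_ ?_
  · rw [fv1 C]
    linarith only [z.ep, z.eP, z.ey, z.em]
  · rw [dotV_of_sd _ _ _ ((1 * (8 * 2 ^ R) + (1 * (8 * C.LA) + (0)) : ℤ)) rfl rfl]
    ring
  · rw [dotV_of_sd _ _ _ ((1 * (8 * max 0 (2 * (C.a : ℤ) - C.P - C.fK)) + (0) : ℤ)) rfl rfl]
    linarith only [z.ep, z.eP, z.ey, z.em]
  · exact C.tA _ T.f128 (2 ^ R) (by ring)

theorem it51 (C : Core2 α R m LF) (k : ℕ) (T : Tabs α) :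
    (ItemL.tt 6 26 1 2 (f [(13, 1)]) (f [(4, 1), (7, -1)]) 4096 16384 512 2 64 tbT1 129).Sem sys (ptS k (8 * 2 ^ R :: vt C)) := by
  have z := C.zz
  refine tt_s (g' := 256) (c := 8) (rc := 32) (N := (R - 1)) (R := R) (γ := 7) (X := C.P2) (v := (C.a2 : ℤ) - C.f3) (l := C.LP2)
    (by norm_num) rfl rfl rfl rfl rfl rfl z.pmn rfl rfl ?_ ?_ ?_ ?_
  · rw [fv6 C]
    linarith only [z.ep, z.eP, z.ey, z.em]
  · rw [dotV_of_sd _ _ _ ((1 * (8 * C.LP2) + (0) : ℤ)) rfl rfl]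
    ring
  · rw [dotV_of_sd _ _ _ ((1 * (8 * (C.a2 : ℤ)) + ((-1) * (8 * (C.f3 : ℤ)) + (0)) : ℤ)) rfl rfl]
    linarith only [z.ep, z.eP, z.ey, z.em]
  · exact C.tP2 _ T.t1 z.g5 z.nP2

theorem it55 (C : Core2 α R m LF) (k : ℕ) (T : Tabs α) :
    (ItemL.tt 5 21 1 2 (f [(14, 1)]) (f [(35, 1)]) 4096 8192 256 1 64 tbT0 129).Sem sys (ptS k (8 * 2 ^ R :: vt C)) := by
  have z := C.zz
  refine tt_s (g' := 256) (c := 16) (rc := 32) (N := (R - 1)) (R := R) (γ := 7) (X := C.a2) (v := max 0 (2 * (C.a2 : ℤ) - C.P2 - C.f3)) (l := C.LA2)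
    (by norm_num) rfl rfl rfl rfl rfl rfl z.pmn rfl rfl ?_ ?_ ?_ ?_
  · rw [fv5 C]
    linarith only [z.ep, z.eP, z.ey, z.em]
  · rw [dotV_of_sd _ _ _ ((1 * (8 * C.LA2) + (0) : ℤ)) rfl rfl]
    ring
  · rw [dotV_of_sd _ _ _ ((1 * (8 * max 0 (2 * (C.a2 : ℤ) - C.P2 - C.f3)) + (0) : ℤ)) rfl rfl]
    linarith only [z.ep, z.eP, z.ey, z.em]
  · exact C.tA2 _ T.t0 (le_max_left _ _) z.na2

theorem it59 (C : Core2 α R m LF) (k : ℕ) (T : Tabs α) :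
    (ItemL.tt 5 21 1 2 (f [(0, 1), (14, 1)]) (f [(35, 1)]) 4096 8192 512 2 32 tbF256 129).Sem sys (ptS k (8 * 2 ^ R :: vt C)) := by
  have z := C.zz
  refine tt_s (g' := 256) (c := 8) (rc := 16) (N := (R - 1)) (R := R) (γ := 7) (X := C.a2) (v := max 0 (2 * (C.a2 : ℤ) - C.P2 - C.f3)) (l := C.LA2 + 2 ^ R)
    (by norm_num) rfl rfl rfl rfl rfl rfl z.pmn rfl rfl ?_ ?_ ?_ ?_
  · rw [fv5 C]
    linarith only [z.ep, z.eP, z.ey, z.em]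
  · rw [dotV_of_sd _ _ _ ((1 * (8 * 2 ^ R) + (1 * (8 * C.LA2) + (0)) : ℤ)) rfl rfl]
    ring
  · rw [dotV_of_sd _ _ _ ((1 * (8 * max 0 (2 * (C.a2 : ℤ) - C.P2 - C.f3)) + (0) : ℤ)) rfl rfl]
    linarith only [z.ep, z.eP, z.ey, z.em]
  · exact C.tA2 _ T.f256 (2 ^ R) z.pm

theorem it63 (C : Core2 α R m LF) (k : ℕ) (T : Tabs α) :
    (ItemL.tt 0 27 4 8 (f [(10, 1)]) (f [(36, 2)]) 4096 16384 512 8 64 tbT1 129).Sem sys (ptS k (8 * 2 ^ R :: vt C)) := by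
  have z := C.zz
  refine tt_s (g' := 64) (c := 8) (rc := 32) (N := (R + 1)) (R := R) (γ := 7) (X := C.q) (v := 2 * (C.w1 : ℤ)) (l := C.LW)
    (by norm_num) rfl rfl rfl rfl rfl rfl (by rw [pow_succ]; ring) rfl rfl ?_ ?_ ?_ ?_
  · rw [fv0 C]
    linarith only [z.ep, z.eP, z.ey, z.em]
  · rw [dotV_of_sd _ _ _ ((1 * (8 * C.LW) + (0) : ℤ)) rfl rfl]
    ring
  · rw [dotV_of_sd _ _ _ ((2 * (8 * (C.w1 : ℤ)) + (0) : ℤ)) rfl rfl]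
    linarith only [z.ep, z.eP, z.ey, z.em]
  · exact C.tW1 _ T.t1 z.g6 z.nq

theorem it67 (C : Core2 α R m LF) (k : ℕ) (T : Tabs α) :
    (ItemL.tt 0 28 4 8 (f [(10, 1)]) (f [(37, 2)]) 4096 16384 512 8 64 tbB 129).Sem sys (ptS k (8 * 2 ^ R :: vt C)) := by
  have z := C.zz
  refine tt_s (g' := 64) (c := 8) (rc := 32) (N := (R + 1)) (R := R) (γ := 7) (X := C.q) (v := 2 * (C.w2 : ℤ)) (l := C.LW)
    (by norm_num) rfl rfl rfl rfl rfl rfl (by rw [pow_succ]; ring) rfl rfl ?_ ?_ ?_ ?_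
  · rw [fv0 C]
    linarith only [z.ep, z.eP, z.ey, z.em]
  · rw [dotV_of_sd _ _ _ ((1 * (8 * C.LW) + (0) : ℤ)) rfl rfl]
    ring
  · rw [dotV_of_sd _ _ _ ((2 * (8 * (C.w2 : ℤ)) + (0) : ℤ)) rfl rfl]
    linarith only [z.ep, z.eP, z.ey, z.em]
  · exact C.tW2 _ T.b z.nq

theorem it71 (C : Core2 α R m LF) (k : ℕ) (T : Tabs α) :
    (ItemL.tl 30 29 2 4 (f [(0, 1), (8, 1)]) 4096 1024 8 tbG16 129).Sem sys (ptS k (8 * 2 ^ R :: vt C)) := by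
  have z := C.zz
  refine tl_s (g' := 128) (c := 4) (rc := 64) (N := R) (R := R) (γ := 7) (X := C.y) (v := 2 * 2 ^ R - ((m : ℤ) - 2 * C.q)) (l := LF + 2 ^ R)
    (by norm_num) rfl rfl rfl rfl (by norm_num) rfl ?_ ?_ ?_ ?_
  · rw [fv30 C]
    linarith only [z.ep, z.eP, z.ey, z.em]
  · rw [dotV_of_sd _ _ _ ((1 * (8 * 2 ^ R) + (1 * (8 * LF) + (0)) : ℤ)) rfl rfl]
    ring
  · rw [fv29 C]
    linarith only [z.ep, z.eP, z.ey, z.em]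
  · exact C.rowG T.g16

theorem it75 (C : Core2 α R m LF) (k : ℕ) :
    (ItemL.mc 2 18 (f [(20, 1)])).Sem sys (ptS k (8 * 2 ^ R :: vt C)) := by
  have z := C.zz
  apply mc_s
  rw [fv2 C, fv18 C, dotV_of_sd _ _ _ ((1 * (4 * (C.dP : ℤ)) + (0) : ℤ)) rfl rfl]
  have h := C.avP
  rw [z.eP] at h
  nlinarith only [h]

end Pool.Agent.EdgeIso.Chk.Core2K
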