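import Pool.Agent.Lib.MP_48c8f3_co.Bas
import Pool.Agent.Lib.MP_48c8f3_co.C6H

set_option autoImplicit false
set_option linter.unusedSectionVars false
set_option linter.unusedVariables false

/-!
MP_48c8f3_co: the numbers of the core satisfy the system, part 4 (machine made).
-/

namespace Pool.Agent.EdgeIso.Chk.Core2K

open Finset Pool.Agent.EdgeIso.Frame Pool.Agent.EdgeIso.Cell Pool.Agent.EdgeIso.Walsh
  Pool.Agent.EdgeIso.LemmaP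

variable {α : Type*} [DecidableEq α] {R m : ℕ} {LF : ℤ}

theorem li3 (C : Core2 α R m LF) (k : ℕ) :
    0 ≤ dot (f [(1, -1), (2, 2), (5, 1)]) (ptS k (8 * 2 ^ R :: vt C)) := by
  have z := C.zz
  refine lin_p (((-1) * (8 * (C.q : ℤ)) + (2 * (8 * (C.a : ℤ)) + (1 * (8 * (C.f : ℤ)) + (0))) : ℤ)) rfl rfl ?_
  linarith only [z.ep, z.eP, z.ey, z.em, z.h1]

theorem li7 (C : Core2 α R m LF) (k : ℕ) :
    0 ≤ dot (f [(4, 1), (7, -1)]) (ptS k (8 * 2 ^ R :: vt C)) := by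
  have z := C.zz
  refine lin_p ((1 * (8 * (C.a2 : ℤ)) + ((-1) * (8 * (C.f3 : ℤ)) + (0)) : ℤ)) rfl rfl ?_
  linarith only [z.ep, z.eP, z.ey, z.em, z.fle3]

theorem li11 (C : Core2 α R m LF) (k : ℕ) :
    0 ≤ dot (f [(0, 2), (2, -1), (3, -1), (4, -1), (5, -1)]) (ptS k (8 * 2 ^ R :: vt C)) := by
  have z := C.zz
  refine lin_p ((2 * (8 * 2 ^ R) + ((-1) * (8 * (C.a : ℤ)) + ((-1) * (8 * (C.P2 : ℤ)) + ((-1) * (8 * (C.a2 : ℤ)) + ((-1) * (8 * (C.f : ℤ)) + (0))))) : ℤ)) rfl rfl ?_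
  linarith only [z.ep, z.eP, z.ey, z.em, z.cap1]

theorem li15 (C : Core2 α R m LF) (k : ℕ) :
    0 ≤ dot (f [(0, -1), (1, 1), (2, 1), (3, 1), (4, 1)]) (ptS k (8 * 2 ^ R :: vt C)) := by
  have z := C.zz
  refine lin_p (((-1) * (8 * 2 ^ R) + (1 * (8 * (C.q : ℤ)) + (1 * (8 * (C.a : ℤ)) + (1 * (8 * (C.P2 : ℤ)) + (1 * (8 * (C.a2 : ℤ)) + (0))))) : ℤ)) rfl rfl ?_
  linarith only [z.ep, z.eP, z.ey, z.em, z.y0]

theorem li19 (C : Core2 α R m LF) (k : ℕ) :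
    0 ≤ dot (f [(24, -1), (28, 1)]) (ptS k (8 * 2 ^ R :: vt C)) := by
  have z := C.zz
  refine lin_p (((-1) * (4 * (C.Km : ℤ)) + (1 * (4 * (C.Ay : ℤ)) + (0)) : ℤ)) rfl rfl ?_
  linarith only [z.ep, z.eP, z.ey, z.em, C.Km3]

theorem li23 (C : Core2 α R m LF) (k : ℕ) :
    0 ≤ dot (f [(1, -1), (2, 1), (3, 1), (4, 1), (18, 2), (25, -2)]) (ptS k (8 * 2 ^ R :: vt C)) := by
  have z := C.zz
  refine lin_p (((-1) * (8 * (C.q : ℤ)) + (1 * (8 * (C.a : ℤ)) + (1 * (8 * (C.P2 : ℤ)) + (1 * (8 * (C.a2 : ℤ)) + (2 * (4 * (C.dK : ℤ)) + ((-2) * (2 * (C.Kh : ℤ)) + (0)))))) : ℤ)) rfl rfl ?_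
  linarith only [z.ep, z.eP, z.ey, z.em, C.Kh2]

theorem li27 (C : Core2 α R m LF) (k : ℕ) :
    0 ≤ dot (f [(2, -1), (3, 1), (4, 1), (6, 1), (25, -1), (29, 2)]) (ptS k (8 * 2 ^ R :: vt C)) := by
  have z := C.zz
  refine lin_p (((-1) * (8 * (C.a : ℤ)) + (1 * (8 * (C.P2 : ℤ)) + (1 * (8 * (C.a2 : ℤ)) + (1 * (8 * (C.fK : ℤ)) + ((-1) * (2 * (C.Kh : ℤ)) + (2 * ((C.Aq : ℤ)) + (0)))))) : ℤ)) rfl rfl ?_
  linarith only [z.ep, z.eP, z.ey, z.em, C.Kh6]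

theorem li31 (C : Core2 α R m LF) (k : ℕ) :
    0 ≤ dot (f [(7, 1), (26, -1), (30, 2)]) (ptS k (8 * 2 ^ R :: vt C)) := by
  have z := C.zz
  refine lin_p ((1 * (8 * (C.f3 : ℤ)) + ((-1) * (2 * (C.Ph : ℤ)) + (2 * ((C.P2q : ℤ)) + (0))) : ℤ)) rfl rfl ?_
  linarith only [z.ep, z.eP, z.ey, z.em, C.Ph5]

theorem li35 (C : Core2 α R m LF) (k : ℕ) :
    0 ≤ dot (f [(3, 1), (27, -1), (31, 1)]) (ptS k (8 * 2 ^ R :: vt C)) := by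
  have z := C.zz
  refine lin_p ((1 * (8 * (C.P2 : ℤ)) + ((-1) * ((C.Pq : ℤ)) + (1 * ((C.A2q : ℤ)) + (0))) : ℤ)) rfl rfl ?_
  linarith only [z.ep, z.eP, z.ey, z.em, C.Pq4]

theorem li39 (C : Core2 α R m LF) (k : ℕ) :
    0 ≤ dot (f [(4, 1), (31, -1)]) (ptS k (8 * 2 ^ R :: vt C)) := by
  have z := C.zz
  refine lin_p ((1 * (8 * (C.a2 : ℤ)) + ((-1) * ((C.A2q : ℤ)) + (0)) : ℤ)) rfl rfl ?_
  linarith only [z.ep, z.eP, z.ey, z.em, C.A2q1]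

theorem li43 (C : Core2 α R m LF) (k : ℕ) :
    0 ≤ dot (f [(5, 1), (8, -1), (25, 2), (38, -1)]) (ptS k (8 * 2 ^ R :: vt C)) := by
  have z := C.zz
  refine lin_p ((1 * (8 * (C.f : ℤ)) + ((-1) * (8 * LF) + (2 * (2 * (C.Kh : ℤ)) + ((-1) * (4) + (0)))) : ℤ)) rfl rfl ?_
  linarith only [z.ep, z.eP, z.ey, z.em, C.cost2]

theorem li47 (C : Core2 α R m LF) (k : ℕ) :
    0 ≤ dot (f [(2, -2), (3, 1), (4, 1), (6, 1), (34, 1)]) (ptS k (8 * 2 ^ R :: vt C)) := by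
  have z := C.zz
  refine lin_p (((-2) * (8 * (C.a : ℤ)) + (1 * (8 * (C.P2 : ℤ)) + (1 * (8 * (C.a2 : ℤ)) + (1 * (8 * (C.fK : ℤ)) + (1 * (8 * max 0 (2 * (C.a : ℤ) - C.P - C.fK)) + (0))))) : ℤ)) rfl rfl ?_
  linarith only [z.ep, z.eP, z.ey, z.em, le_max_right (0 : ℤ) (2 * (C.a : ℤ) - C.P - C.fK)]

theorem li51 (C : Core2 α R m LF) (k : ℕ) :
    0 ≤ dot (f [(1, -10), (2, 4), (3, 4), (4, 4), (5, 6), (9, 1), (36, 8), (37, 6)]) (ptS k (8 * 2 ^ R :: vt C)) := by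
  have z := C.zz
  refine lin_p (((-10) * (8 * (C.q : ℤ)) + (4 * (8 * (C.a : ℤ)) + (4 * (8 * (C.P2 : ℤ)) + (4 * (8 * (C.a2 : ℤ)) + (6 * (8 * (C.f : ℤ)) + (1 * (8 * C.LK) + (8 * (8 * (C.w1 : ℤ)) + (6 * (8 * (C.w2 : ℤ)) + (0)))))))) : ℤ)) rfl rfl ?_
  linarith only [z.ep, z.eP, z.ey, z.em, C.pair]

theorem li55 (C : Core2 α R m LF) (k : ℕ) :
    0 ≤ dot (f [(11, 1), (20, -1)]) (ptS k (8 * 2 ^ R :: vt C)) := by
  have z := C.zz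
  refine lin_p ((1 * (8 * C.LP) + ((-1) * (4 * (C.dP : ℤ)) + (0)) : ℤ)) rfl rfl ?_
  linarith only [z.ep, z.eP, z.ey, z.em, C.dP_le]

theorem li59 (C : Core2 α R m LF) (k : ℕ) :
    0 ≤ dot (f [(2, 1), (3, 1), (4, 1), (18, -1)]) (ptS k (8 * 2 ^ R :: vt C)) := by
  have z := C.zz
  refine lin_p ((1 * (8 * (C.a : ℤ)) + (1 * (8 * (C.P2 : ℤ)) + (1 * (8 * (C.a2 : ℤ)) + ((-1) * (4 * (C.dK : ℤ)) + (0)))) : ℤ)) rfl rfl ?_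
  linarith only [z.ep, z.eP, z.ey, z.em, C.dK_tr]

theorem li63 (C : Core2 α R m LF) (k : ℕ) :
    0 ≤ dot (f [(3, 1), (22, -1)]) (ptS k (8 * 2 ^ R :: vt C)) := by
  have z := C.zz
  refine lin_p ((1 * (8 * (C.P2 : ℤ)) + ((-1) * (4 * (C.dP2 : ℤ)) + (0)) : ℤ)) rfl rfl ?_
  linarith only [z.ep, z.eP, z.ey, z.em, C.dP2_tr]

theorem li67 (C : Core2 α R m LF) (k : ℕ) :
    0 ≤ dot (f [(0, 1), (3, -1)]) (ptS k (8 * 2 ^ R :: vt C)) := by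
  have z := C.zz
  refine lin_p ((1 * (8 * 2 ^ R) + ((-1) * (8 * (C.P2 : ℤ)) + (0)) : ℤ)) rfl rfl ?_
  linarith only [z.ep, z.eP, z.ey, z.em, z.uP2]

theorem li71 (C : Core2 α R m LF) (k : ℕ) :
    0 ≤ dot (f [(0, 1), (7, -1)]) (ptS k (8 * 2 ^ R :: vt C)) := by
  have z := C.zz
  refine lin_p ((1 * (8 * 2 ^ R) + ((-1) * (8 * (C.f3 : ℤ)) + (0)) : ℤ)) rfl rfl ?_
  linarith only [z.ep, z.eP, z.ey, z.em, z.ua2, z.fle3]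

theorem li75 (C : Core2 α R m LF) (k : ℕ) :
    0 ≤ dot (f [(0, 4), (11, -1)]) (ptS k (8 * 2 ^ R :: vt C)) := by
  have z := C.zz
  refine lin_p ((4 * (8 * 2 ^ R) + ((-1) * (8 * C.LP) + (0)) : ℤ)) rfl rfl ?_
  linarith only [z.ep, z.eP, z.ey, z.em, z.uLF, z.uLK, z.uLP, z.U0]

theorem li79 (C : Core2 α R m LF) (k : ℕ) :
    0 ≤ dot (f [(0, 2), (15, -1)]) (ptS k (8 * 2 ^ R :: vt C)) := by
  have z := C.zz
  refine lin_p ((2 * (8 * 2 ^ R) + ((-1) * (8 * dg C.p C.q) + (0)) : ℤ)) rfl rfl ?_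
  linarith only [z.ep, z.eP, z.ey, z.em, z.uLF, z.ud1, z.U0]

theorem li83 (C : Core2 α R m LF) (k : ℕ) :
    0 ≤ dot (f [(0, 1), (19, -1)]) (ptS k (8 * 2 ^ R :: vt C)) := by
  have z := C.zz
  refine lin_p ((1 * (8 * 2 ^ R) + ((-1) * (4 * (C.dW : ℤ)) + (0)) : ℤ)) rfl rfl ?_
  linarith only [z.ep, z.eP, z.ey, z.em, C.dW_tr, z.uq]

theorem li87 (C : Core2 α R m LF) (k : ℕ) :
    0 ≤ dot (f [(0, 1), (23, -1)]) (ptS k (8 * 2 ^ R :: vt C)) := by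
  have z := C.zz
  refine lin_p ((1 * (8 * 2 ^ R) + ((-1) * (4 * (C.dA2 : ℤ)) + (0)) : ℤ)) rfl rfl ?_
  linarith only [z.ep, z.eP, z.ey, z.em, C.dA2_tr, z.ua2]

theorem li91 (C : Core2 α R m LF) (k : ℕ) :
    0 ≤ dot (f [(0, 1), (27, -1)]) (ptS k (8 * 2 ^ R :: vt C)) := by
  have z := C.zz
  refine lin_p ((1 * (8 * 2 ^ R) + ((-1) * ((C.Pq : ℤ)) + (0)) : ℤ)) rfl rfl ?_
  linarith only [z.ep, z.eP, z.ey, z.em, C.Pq1, z.uP]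

theorem li95 (C : Core2 α R m LF) (k : ℕ) :
    0 ≤ dot (f [(0, 1), (31, -1)]) (ptS k (8 * 2 ^ R :: vt C)) := by
  have z := C.zz
  refine lin_p ((1 * (8 * 2 ^ R) + ((-1) * ((C.A2q : ℤ)) + (0)) : ℤ)) rfl rfl ?_
  linarith only [z.ep, z.eP, z.ey, z.em, C.A2q1, z.ua2]

theorem li99 (C : Core2 α R m LF) (k : ℕ) :
    0 ≤ dot (f [(0, 1), (35, -1)]) (ptS k (8 * 2 ^ R :: vt C)) := by
  have z := C.zz
  refine lin_p ((1 * (8 * 2 ^ R) + ((-1) * (8 * max 0 (2 * (C.a2 : ℤ) - C.P2 - C.f3)) + (0)) : ℤ)) rfl rfl ?_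
  linarith only [z.ep, z.eP, z.ey, z.em, z.uzA2, z.ua2]

theorem it0 (C : Core2 α R m LF) (k : ℕ) :
    (ItemL.cge 7 512 (f [(1, -1), (2, -1), (3, 1), (4, 1), (20, 2), (26, -2)])).Sem sys (ptS k (8 * 2 ^ R :: vt C)) := by
  have z := C.zz
  refine cge_p _ (((-1) * (8 * (C.q : ℤ)) + ((-1) * (8 * (C.a : ℤ)) + (1 * (8 * (C.P2 : ℤ)) + (1 * (8 * (C.a2 : ℤ)) + (2 * (4 * (C.dP : ℤ)) + ((-2) * (2 * (C.Ph : ℤ)) + (0)))))) : ℤ)) sysGG (fv7 C) rfl rfl ?_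
  intro h
  push_cast at h
  have h0 : 0 ≤ 2 * (C.P : ℤ) - m := by linarith only [h, z.ep, z.eP, z.ey, z.em, z.U0]
  have h1 := C.Ph2
  rw [max_eq_right h0] at h1
  linarith only [h1, z.ep, z.eP, z.ey, z.em, z.U0]

theorem it4 (C : Core2 α R m LF) (k : ℕ) :
    (ItemL.cge 9 512 (f [(1, -1), (2, 3), (3, -1), (4, -1), (21, 4), (29, -4)])).Sem sys (ptS k (8 * 2 ^ R :: vt C)) := by
  have z := C.zz
  refine cge_p _ (((-1) * (8 * (C.q : ℤ)) + (3 * (8 * (C.a : ℤ)) + ((-1) * (8 * (C.P2 : ℤ)) + ((-1) * (8 * (C.a2 : ℤ)) + (4 * (4 * (C.dA : ℤ)) + ((-4) * ((C.Aq : ℤ)) + (0)))))) : ℤ)) sysGG (fv9 C) rfl rfl ?_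
  intro h
  push_cast at h
  have h0 : 0 ≤ 4 * (C.a : ℤ) - m := by linarith only [h, z.ep, z.eP, z.ey, z.em, z.U0]
  have h1 := C.Aq2
  rw [max_eq_right h0] at h1
  linarith only [h1, z.ep, z.eP, z.ey, z.em, z.U0]

theorem it8 (C : Core2 α R m LF) (k : ℕ) :
    (ItemL.cge 11 512 (f [(1, -1), (2, -1), (3, 3), (4, -1), (22, 4), (30, -4)])).Sem sys (ptS k (8 * 2 ^ R :: vt C)) := by
  have z := C.zz
  refine cge_p _ (((-1) * (8 * (C.q : ℤ)) + ((-1) * (8 * (C.a : ℤ)) + (3 * (8 * (C.P2 : ℤ)) + ((-1) * (8 * (C.a2 : ℤ)) + (4 * (4 * (C.dP2 : ℤ)) + ((-4) * ((C.P2q : ℤ)) + (0)))))) : ℤ)) sysGG (fv11 C) rfl rfl ?_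
  intro h
  push_cast at h
  have h0 : 0 ≤ 4 * (C.P2 : ℤ) - m := by linarith only [h, z.ep, z.eP, z.ey, z.em, z.U0]
  have h1 := C.P2q2
  rw [max_eq_right h0] at h1
  linarith only [h1, z.ep, z.eP, z.ey, z.em, z.U0]

theorem it12 (C : Core2 α R m LF) (k : ℕ) :
    (ItemL.cge 13 256 (f [(0, 1), (1, -1), (2, -1), (3, -1), (4, 1), (23, 2), (33, -2)])).Sem sys (ptS k (8 * 2 ^ R :: vt C)) := by
  have z := C.zz
  refine cge_p _ ((1 * (8 * 2 ^ R) + ((-1) * (8 * (C.q : ℤ)) + ((-1) * (8 * (C.a : ℤ)) + ((-1) * (8 * (C.P2 : ℤ)) + (1 * (8 * (C.a2 : ℤ)) + (2 * (4 * (C.dA2 : ℤ)) + ((-2) * (2 * (C.A2r : ℤ)) + (0))))))) : ℤ)) sysGG (fv13 C) rfl rfl ?_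
  intro h
  push_cast at h
  have h0 : 0 ≤ 2 * (C.a2 : ℤ) - C.y := by linarith only [h, z.ep, z.eP, z.ey, z.em, z.U0]
  have h1 := C.A2r2
  rw [max_eq_right h0] at h1
  linarith only [h1, z.ep, z.eP, z.ey, z.em, z.U0]

theorem it16 (C : Core2 α R m LF) (k : ℕ) (hR : 5 ≤ k + R)
    (hT : ∀ i j, (dgt GT0 i j : ℤ) ≤ dg i j) :
    (ItemL.dt 3 0 4 (f [(15, 1)])).Sem sys (ptS k (8 * 2 ^ R :: vt C)) := by
  have z := C.zz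
  refine dt_s (G := 8) (R := R) (p := C.p) (q := C.q) (δ := dg C.p C.q) rfl (by omega) rfl hT ?_ ?_ ?_ ?_ le_rfl
  · rw [fv3 C]
    linarith only [z.ep, z.eP, z.ey, z.em]
  · rw [fv0 C]
    linarith only [z.ep, z.eP, z.ey, z.em]
  · rw [fv4 C]
    linarith only [z.ep, z.eP, z.ey, z.em]
  · rw [dotV_of_sd _ _ _ ((1 * (8 * dg C.p C.q) + (0) : ℤ)) rfl rfl]
    ring

theorem it20 (C : Core2 α R m LF) (k : ℕ) (T : Tabs α) :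
    (ItemL.tl 3 22 4 8 (f [(9, 1)]) 4096 256 4 tbT0 129).Sem sys (ptS k (8 * 2 ^ R :: vt C)) := by
  have z := C.zz
  refine tl_s (g' := 64) (c := 16) (rc := 32) (N := (R + 1)) (R := R) (γ := 7) (X := C.p) (v := (C.q : ℤ) - C.f) (l := C.LK)
    (by norm_num) rfl rfl rfl rfl (by rw [pow_succ]; ring) rfl ?_ ?_ ?_ ?_
  · rw [fv3 C]
    linarith only [z.ep, z.eP, z.ey, z.em]
  · rw [dotV_of_sd _ _ _ ((1 * (8 * C.LK) + (0) : ℤ)) rfl rfl]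
    ring
  · rw [fv22 C]
    linarith only [z.ep, z.eP, z.ey, z.em]
  · exact C.tK _ T.t0 z.g1 z.np

theorem it24 (C : Core2 α R m LF) (k : ℕ) (T : Tabs α) :
    (ItemL.tl 3 22 4 8 (f [(0, 1), (9, 1)]) 4096 256 4 tbF64 129).Sem sys (ptS k (8 * 2 ^ R :: vt C)) := by
  have z := C.zz
  refine tl_s (g' := 64) (c := 16) (rc := 32) (N := (R + 1)) (R := R) (γ := 7) (X := C.p) (v := (C.q : ℤ) - C.f) (l := C.LK + 2 ^ R)
    (by norm_num) rfl rfl rfl rfl (by rw [pow_succ]; ring) rfl ?_ ?_ ?_ ?_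
  · rw [fv3 C]
    linarith only [z.ep, z.eP, z.ey, z.em]
  · rw [dotV_of_sd _ _ _ ((1 * (8 * 2 ^ R) + (1 * (8 * C.LK) + (0)) : ℤ)) rfl rfl]
    ring
  · rw [fv22 C]
    linarith only [z.ep, z.eP, z.ey, z.em]
  · exact C.tK _ T.f64 (2 ^ R) (by rw [pow_succ]; ring)

theorem it28 (C : Core2 α R m LF) (k : ℕ) (T : Tabs α) :
    (ItemL.tl 3 23 4 8 (f [(9, 1)]) 4096 512 8 tbT1 129).Sem sys (ptS k (8 * 2 ^ R :: vt C)) := by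
  have z := C.zz
  refine tl_s (g' := 64) (c := 8) (rc := 32) (N := (R + 1)) (R := R) (γ := 7) (X := C.p) (v := 2 * (C.a : ℤ)) (l := C.LK)
    (by norm_num) rfl rfl rfl rfl (by rw [pow_succ]; ring) rfl ?_ ?_ ?_ ?_
  · rw [fv3 C]
    linarith only [z.ep, z.eP, z.ey, z.em]
  · rw [dotV_of_sd _ _ _ ((1 * (8 * C.LK) + (0) : ℤ)) rfl rfl]
    ring
  · rw [fv23 C]
    linarith only [z.ep, z.eP, z.ey, z.em]
  · exact C.tK' _ T.t1 z.g2 z.np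

theorem it32 (C : Core2 α R m LF) (k : ℕ) (T : Tabs α) :
    (ItemL.tl 2 24 2 4 (f [(11, 1)]) 4096 256 2 tbT0 129).Sem sys (ptS k (8 * 2 ^ R :: vt C)) := by
  have z := C.zz
  refine tl_s (g' := 128) (c := 16) (rc := 32) (N := R) (R := R) (γ := 7) (X := C.P) (v := (C.a : ℤ) - C.fK) (l := C.LP)
    (by norm_num) rfl rfl rfl rfl (by norm_num) rfl ?_ ?_ ?_ ?_
  · rw [fv2 C]
    linarith only [z.ep, z.eP, z.ey, z.em]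
  · rw [dotV_of_sd _ _ _ ((1 * (8 * C.LP) + (0) : ℤ)) rfl rfl]
    ring
  · rw [fv24 C]
    linarith only [z.ep, z.eP, z.ey, z.em]
  · exact C.tP _ T.t0 z.g3 z.nP

theorem it36 (C : Core2 α R m LF) (k : ℕ) (T : Tabs α) :
    (ItemL.tl 2 24 2 4 (f [(0, 1), (11, 1)]) 4096 256 2 tbF128 129).Sem sys (ptS k (8 * 2 ^ R :: vt C)) := by
  have z := C.zz
  refine tl_s (g' := 128) (c := 16) (rc := 32) (N := R) (R := R) (γ := 7) (X := C.P) (v := (C.a : ℤ) - C.fK) (l := C.LP + 2 ^ R)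
    (by norm_num) rfl rfl rfl rfl (by norm_num) rfl ?_ ?_ ?_ ?_
  · rw [fv2 C]
    linarith only [z.ep, z.eP, z.ey, z.em]
  · rw [dotV_of_sd _ _ _ ((1 * (8 * 2 ^ R) + (1 * (8 * C.LP) + (0)) : ℤ)) rfl rfl]
    ring
  · rw [fv24 C]
    linarith only [z.ep, z.eP, z.ey, z.em]
  · exact C.tP _ T.f128 (2 ^ R) (by ring)

theorem it40 (C : Core2 α R m LF) (k : ℕ) (T : Tabs α) :
    (ItemL.tl 2 25 2 4 (f [(11, 1)]) 4096 512 4 tbT1 129).Sem sys (ptS k (8 * 2 ^ R :: vt C)) := by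
  have z := C.zz
  refine tl_s (g' := 128) (c := 8) (rc := 32) (N := R) (R := R) (γ := 7) (X := C.P) (v := 2 * (C.a2 : ℤ)) (l := C.LP)
    (by norm_num) rfl rfl rfl rfl (by norm_num) rfl ?_ ?_ ?_ ?_
  · rw [fv2 C]
    linarith only [z.ep, z.eP, z.ey, z.em]
  · rw [dotV_of_sd _ _ _ ((1 * (8 * C.LP) + (0) : ℤ)) rfl rfl]
    ring
  · rw [fv25 C]
    linarith only [z.ep, z.eP, z.ey, z.em]
  · exact C.tP' _ T.t1 z.g4 z.nP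

theorem it44 (C : Core2 α R m LF) (k : ℕ) (T : Tabs α) :
    (ItemL.tl 1 20 2 4 (f [(12, 1)]) 4096 256 2 tbT0 129).Sem sys (ptS k (8 * 2 ^ R :: vt C)) := by
  have z := C.zz
  refine tl_s (g' := 128) (c := 16) (rc := 32) (N := R) (R := R) (γ := 7) (X := C.a) (v := max 0 (2 * (C.a : ℤ) - C.P - C.fK)) (l := C.LA)
    (by norm_num) rfl rfl rfl rfl (by norm_num) rfl ?_ ?_ ?_ ?_
  · rw [fv1 C]
    linarith only [z.ep, z.eP, z.ey, z.em]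
  · rw [dotV_of_sd _ _ _ ((1 * (8 * C.LA) + (0) : ℤ)) rfl rfl]
    ring
  · rw [fv20 C]
    linarith only [z.ep, z.eP, z.ey, z.em]
  · exact C.tA _ T.t0 (le_max_left _ _) z.na

theorem it48 (C : Core2 α R m LF) (k : ℕ) (T : Tabs α) :
    (ItemL.tl 1 20 2 4 (f [(0, 1), (12, 1)]) 4096 256 2 tbF128 129).Sem sys (ptS k (8 * 2 ^ R :: vt C)) := by
  have z := C.zz
  refine tl_s (g' := 128) (c := 16) (rc := 32) (N := R) (R := R) (γ := 7) (X := C.a) (v := max 0 (2 * (C.a : ℤ) - C.P - C.fK)) (l := C.LA + 2 ^ R)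
    (by norm_num) rfl rfl rfl rfl (by norm_num) rfl ?_ ?_ ?_ ?_
  · rw [fv1 C]
    linarith only [z.ep, z.eP, z.ey, z.em]
  · rw [dotV_of_sd _ _ _ ((1 * (8 * 2 ^ R) + (1 * (8 * C.LA) + (0)) : ℤ)) rfl rfl]
    ring
  · rw [fv20 C]
    linarith only [z.ep, z.eP, z.ey, z.em]
  · exact C.tA _ T.f128 (2 ^ R) (by ring)

theorem it52 (C : Core2 α R m LF) (k : ℕ) (T : Tabs α) :
    (ItemL.tl 6 26 1 2 (f [(13, 1)]) 4096 512 2 tbT1 129).Sem sys (ptS k (8 * 2 ^ R :: vt C)) := by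
  have z := C.zz
  refine tl_s (g' := 256) (c := 8) (rc := 32) (N := (R - 1)) (R := R) (γ := 7) (X := C.P2) (v := (C.a2 : ℤ) - C.f3) (l := C.LP2)
    (by norm_num) rfl rfl rfl rfl z.pmn rfl ?_ ?_ ?_ ?_
  · rw [fv6 C]
    linarith only [z.ep, z.eP, z.ey, z.em]
  · rw [dotV_of_sd _ _ _ ((1 * (8 * C.LP2) + (0) : ℤ)) rfl rfl]
    ring
  · rw [fv26 C]
    linarith only [z.ep, z.eP, z.ey, z.em]
  · exact C.tP2 _ T.t1 z.g5 z.nP2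

theorem it56 (C : Core2 α R m LF) (k : ℕ) (T : Tabs α) :
    (ItemL.tl 5 21 1 2 (f [(14, 1)]) 4096 256 1 tbT0 129).Sem sys (ptS k (8 * 2 ^ R :: vt C)) := by
  have z := C.zz
  refine tl_s (g' := 256) (c := 16) (rc := 32) (N := (R - 1)) (R := R) (γ := 7) (X := C.a2) (v := max 0 (2 * (C.a2 : ℤ) - C.P2 - C.f3)) (l := C.LA2)
    (by norm_num) rfl rfl rfl rfl z.pmn rfl ?_ ?_ ?_ ?_
  · rw [fv5 C]
    linarith only [z.ep, z.eP, z.ey, z.em]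
  · rw [dotV_of_sd _ _ _ ((1 * (8 * C.LA2) + (0) : ℤ)) rfl rfl]
    ring
  · rw [fv21 C]
    linarith only [z.ep, z.eP, z.ey, z.em]
  · exact C.tA2 _ T.t0 (le_max_left _ _) z.na2

theorem it60 (C : Core2 α R m LF) (k : ℕ) (T : Tabs α) :
    (ItemL.tl 5 21 1 2 (f [(0, 1), (14, 1)]) 4096 512 2 tbF256 129).Sem sys (ptS k (8 * 2 ^ R :: vt C)) := by
  have z := C.zz
  refine tl_s (g' := 256) (c := 8) (rc := 16) (N := (R - 1)) (R := R) (γ := 7) (X := C.a2) (v := max 0 (2 * (C.a2 : ℤ) - C.P2 - C.f3)) (l := C.LA2 + 2 ^ R)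
    (by norm_num) rfl rfl rfl rfl z.pmn rfl ?_ ?_ ?_ ?_
  · rw [fv5 C]
    linarith only [z.ep, z.eP, z.ey, z.em]
  · rw [dotV_of_sd _ _ _ ((1 * (8 * 2 ^ R) + (1 * (8 * C.LA2) + (0)) : ℤ)) rfl rfl]
    ring
  · rw [fv21 C]
    linarith only [z.ep, z.eP, z.ey, z.em]
  · exact C.tA2 _ T.f256 (2 ^ R) z.pm

theorem it64 (C : Core2 α R m LF) (k : ℕ) (T : Tabs α) :
    (ItemL.tl 0 27 4 8 (f [(10, 1)]) 4096 512 8 tbT1 129).Sem sys (ptS k (8 * 2 ^ R :: vt C)) := by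
  have z := C.zz
  refine tl_s (g' := 64) (c := 8) (rc := 32) (N := (R + 1)) (R := R) (γ := 7) (X := C.q) (v := 2 * (C.w1 : ℤ)) (l := C.LW)
    (by norm_num) rfl rfl rfl rfl (by rw [pow_succ]; ring) rfl ?_ ?_ ?_ ?_
  · rw [fv0 C]
    linarith only [z.ep, z.eP, z.ey, z.em]
  · rw [dotV_of_sd _ _ _ ((1 * (8 * C.LW) + (0) : ℤ)) rfl rfl]
    ring
  · rw [fv27 C]
    linarith only [z.ep, z.eP, z.ey, z.em]
  · exact C.tW1 _ T.t1 z.g6 z.nq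

theorem it68 (C : Core2 α R m LF) (k : ℕ) (T : Tabs α) :
    (ItemL.tl 0 28 4 8 (f [(10, 1)]) 4096 512 8 tbB 129).Sem sys (ptS k (8 * 2 ^ R :: vt C)) := by
  have z := C.zz
  refine tl_s (g' := 64) (c := 8) (rc := 32) (N := (R + 1)) (R := R) (γ := 7) (X := C.q) (v := 2 * (C.w2 : ℤ)) (l := C.LW)
    (by norm_num) rfl rfl rfl rfl (by rw [pow_succ]; ring) rfl ?_ ?_ ?_ ?_
  · rw [fv0 C]
    linarith only [z.ep, z.eP, z.ey, z.em]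
  · rw [dotV_of_sd _ _ _ ((1 * (8 * C.LW) + (0) : ℤ)) rfl rfl]
    ring
  · rw [fv28 C]
    linarith only [z.ep, z.eP, z.ey, z.em]
  · exact C.tW2 _ T.b z.nq

theorem it72 (C : Core2 α R m LF) (k : ℕ) :
    (ItemL.mc 1 15 (f [(28, 1)])).Sem sys (ptS k (8 * 2 ^ R :: vt C)) := by
  have z := C.zz
  apply mc_s
  rw [fv1 C, fv15 C, dotV_of_sd _ _ _ ((1 * (4 * (C.Ay : ℤ)) + (0) : ℤ)) rfl rfl]
  have h := C.Ay3
  have e1 : (m : ℤ) = 2 ^ R + C.y := z.em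
  have e2 : (C.q : ℤ) + C.a + C.P2 + C.a2 = m := by linarith only [z.ep, z.eP, z.ey, z.em]
  have e3 : (C.q : ℤ) = 2 ^ R + C.y - C.a - C.P2 - C.a2 := by linarith only [e1, e2]
  rw [e3]
  nlinarith only [h]

end Pool.Agent.EdgeIso.Chk.Core2K
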