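import Pool.Agent.Lib.MP_48c8f3_co.Bas
import Pool.Agent.Lib.MP_48c8f3_co.C6H

set_option autoImplicit false
set_option linter.unusedSectionVars false
set_option linter.unusedVariables false

/-!
MP_48c8f3_co: the propagation rules hold at the point (machine made).
-/

namespace Pool.Agent.EdgeIso.Chk.Core2K

open Finset Pool.Agent.EdgeIso.Frame Pool.Agent.EdgeIso.Cell Pool.Agent.EdgeIso.Walsh
  Pool.Agent.EdgeIso.LemmaP

variable {α : Type*} [DecidableEq α] {R m : ℕ} {LF : ℤ}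

theorem ru0 (C : Core2 α R m LF) (k : ℕ) :
    RuleL.Sem sys (ptS k (8 * 2 ^ R :: vt C)) ⟨true, 1, 1, [(1, 3)], 0, [(1, 2)], 0⟩ := by
  have z := C.zz
  apply rule_hi_s
  simp only [fsV, List.map_cons, List.map_nil, List.sum_cons, List.sum_nil, sysGG, fv1 C, fv2 C, fv3 C]
  push_cast
  exact le_max_of_le_right (by linarith only [z.ep, z.eP, z.ey, z.em])

theorem ru1 (C : Core2 α R m LF) (k : ℕ) :
    RuleL.Sem sys (ptS k (8 * 2 ^ R :: vt C)) ⟨true, 2, 1, [(1, 3)], 0, [(1, 1)], 0⟩ := by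
  have z := C.zz
  apply rule_hi_s
  simp only [fsV, List.map_cons, List.map_nil, List.sum_cons, List.sum_nil, sysGG, fv1 C, fv2 C, fv3 C]
  push_cast
  exact le_max_of_le_right (by linarith only [z.ep, z.eP, z.ey, z.em])

theorem ru2 (C : Core2 α R m LF) (k : ℕ) :
    RuleL.Sem sys (ptS k (8 * 2 ^ R :: vt C)) ⟨false, 3, 1, [(1, 1), (1, 2)], 0, [], 0⟩ := by
  have z := C.zz
  apply rule_lo_s
  simp only [fsV, List.map_cons, List.map_nil, List.sum_cons, List.sum_nil, sysGG, fv1 C, fv2 C, fv3 C]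
  push_cast
  linarith only [z.ep, z.eP, z.ey, z.em]

theorem ru3 (C : Core2 α R m LF) (k : ℕ) :
    RuleL.Sem sys (ptS k (8 * 2 ^ R :: vt C)) ⟨false, 1, 1, [(1, 3)], 0, [(1, 2)], 0⟩ := by
  have z := C.zz
  apply rule_lo_s
  simp only [fsV, List.map_cons, List.map_nil, List.sum_cons, List.sum_nil, sysGG, fv1 C, fv2 C, fv3 C]
  push_cast
  linarith only [z.ep, z.eP, z.ey, z.em]

theorem ru4 (C : Core2 α R m LF) (k : ℕ) :
    RuleL.Sem sys (ptS k (8 * 2 ^ R :: vt C)) ⟨false, 2, 1, [(1, 3)], 0, [(1, 1)], 0⟩ := by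
  have z := C.zz
  apply rule_lo_s
  simp only [fsV, List.map_cons, List.map_nil, List.sum_cons, List.sum_nil, sysGG, fv1 C, fv2 C, fv3 C]
  push_cast
  linarith only [z.ep, z.eP, z.ey, z.em]

theorem ru5 (C : Core2 α R m LF) (k : ℕ) :
    RuleL.Sem sys (ptS k (8 * 2 ^ R :: vt C)) ⟨true, 3, 1, [(1, 1), (1, 2)], 0, [], 0⟩ := by
  have z := C.zz
  apply rule_hi_s
  simp only [fsV, List.map_cons, List.map_nil, List.sum_cons, List.sum_nil, sysGG, fv1 C, fv2 C, fv3 C]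
  push_cast
  exact le_max_of_le_right (by linarith only [z.ep, z.eP, z.ey, z.em])

theorem ru6 (C : Core2 α R m LF) (k : ℕ) :
    RuleL.Sem sys (ptS k (8 * 2 ^ R :: vt C)) ⟨true, 0, 1, [(1, 4)], 0, [(1, 3)], 0⟩ := by
  have z := C.zz
  apply rule_hi_s
  simp only [fsV, List.map_cons, List.map_nil, List.sum_cons, List.sum_nil, sysGG, fv0 C, fv3 C, fv4 C]
  push_cast
  exact le_max_of_le_right (by linarith only [z.ep, z.eP, z.ey, z.em])

theorem ru7 (C : Core2 α R m LF) (k : ℕ) :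
    RuleL.Sem sys (ptS k (8 * 2 ^ R :: vt C)) ⟨true, 3, 1, [(1, 4)], 0, [(1, 0)], 0⟩ := by
  have z := C.zz
  apply rule_hi_s
  simp only [fsV, List.map_cons, List.map_nil, List.sum_cons, List.sum_nil, sysGG, fv0 C, fv3 C, fv4 C]
  push_cast
  exact le_max_of_le_right (by linarith only [z.ep, z.eP, z.ey, z.em])

theorem ru8 (C : Core2 α R m LF) (k : ℕ) :
    RuleL.Sem sys (ptS k (8 * 2 ^ R :: vt C)) ⟨false, 4, 1, [(1, 0), (1, 3)], 0, [], 0⟩ := by
  have z := C.zz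
  apply rule_lo_s
  simp only [fsV, List.map_cons, List.map_nil, List.sum_cons, List.sum_nil, sysGG, fv0 C, fv3 C, fv4 C]
  push_cast
  linarith only [z.ep, z.eP, z.ey, z.em]

theorem ru9 (C : Core2 α R m LF) (k : ℕ) :
    RuleL.Sem sys (ptS k (8 * 2 ^ R :: vt C)) ⟨false, 0, 1, [(1, 4)], 0, [(1, 3)], 0⟩ := by
  have z := C.zz
  apply rule_lo_s
  simp only [fsV, List.map_cons, List.map_nil, List.sum_cons, List.sum_nil, sysGG, fv0 C, fv3 C, fv4 C]
  push_cast
  linarith only [z.ep, z.eP, z.ey, z.em]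

theorem ru10 (C : Core2 α R m LF) (k : ℕ) :
    RuleL.Sem sys (ptS k (8 * 2 ^ R :: vt C)) ⟨false, 3, 1, [(1, 4)], 0, [(1, 0)], 0⟩ := by
  have z := C.zz
  apply rule_lo_s
  simp only [fsV, List.map_cons, List.map_nil, List.sum_cons, List.sum_nil, sysGG, fv0 C, fv3 C, fv4 C]
  push_cast
  linarith only [z.ep, z.eP, z.ey, z.em]

theorem ru11 (C : Core2 α R m LF) (k : ℕ) :
    RuleL.Sem sys (ptS k (8 * 2 ^ R :: vt C)) ⟨true, 4, 1, [(1, 0), (1, 3)], 0, [], 0⟩ := by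
  have z := C.zz
  apply rule_hi_s
  simp only [fsV, List.map_cons, List.map_nil, List.sum_cons, List.sum_nil, sysGG, fv0 C, fv3 C, fv4 C]
  push_cast
  exact le_max_of_le_right (by linarith only [z.ep, z.eP, z.ey, z.em])

theorem ru12 (C : Core2 α R m LF) (k : ℕ) :
    RuleL.Sem sys (ptS k (8 * 2 ^ R :: vt C)) ⟨false, 2, 1, [(1, 5), (1, 6)], 0, [], 0⟩ := by
  have z := C.zz
  apply rule_lo_s
  simp only [fsV, List.map_cons, List.map_nil, List.sum_cons, List.sum_nil, sysGG, fv2 C, fv5 C, fv6 C]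
  push_cast
  linarith only [z.ep, z.eP, z.ey, z.em]

theorem ru13 (C : Core2 α R m LF) (k : ℕ) :
    RuleL.Sem sys (ptS k (8 * 2 ^ R :: vt C)) ⟨true, 5, 1, [(1, 2)], 0, [(1, 6)], 0⟩ := by
  have z := C.zz
  apply rule_hi_s
  simp only [fsV, List.map_cons, List.map_nil, List.sum_cons, List.sum_nil, sysGG, fv2 C, fv5 C, fv6 C]
  push_cast
  exact le_max_of_le_right (by linarith only [z.ep, z.eP, z.ey, z.em])

theorem ru14 (C : Core2 α R m LF) (k : ℕ) :
    RuleL.Sem sys (ptS k (8 * 2 ^ R :: vt C)) ⟨true, 6, 1, [(1, 2)], 0, [(1, 5)], 0⟩ := by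
  have z := C.zz
  apply rule_hi_s
  simp only [fsV, List.map_cons, List.map_nil, List.sum_cons, List.sum_nil, sysGG, fv2 C, fv5 C, fv6 C]
  push_cast
  exact le_max_of_le_right (by linarith only [z.ep, z.eP, z.ey, z.em])

theorem ru15 (C : Core2 α R m LF) (k : ℕ) :
    RuleL.Sem sys (ptS k (8 * 2 ^ R :: vt C)) ⟨true, 2, 1, [(1, 5), (1, 6)], 0, [], 0⟩ := by
  have z := C.zz
  apply rule_hi_s
  simp only [fsV, List.map_cons, List.map_nil, List.sum_cons, List.sum_nil, sysGG, fv2 C, fv5 C, fv6 C]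
  push_cast
  exact le_max_of_le_right (by linarith only [z.ep, z.eP, z.ey, z.em])

theorem ru16 (C : Core2 α R m LF) (k : ℕ) :
    RuleL.Sem sys (ptS k (8 * 2 ^ R :: vt C)) ⟨false, 5, 1, [(1, 2)], 0, [(1, 6)], 0⟩ := by
  have z := C.zz
  apply rule_lo_s
  simp only [fsV, List.map_cons, List.map_nil, List.sum_cons, List.sum_nil, sysGG, fv2 C, fv5 C, fv6 C]
  push_cast
  linarith only [z.ep, z.eP, z.ey, z.em]

theorem ru17 (C : Core2 α R m LF) (k : ℕ) :
    RuleL.Sem sys (ptS k (8 * 2 ^ R :: vt C)) ⟨false, 6, 1, [(1, 2)], 0, [(1, 5)], 0⟩ := by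
  have z := C.zz
  apply rule_lo_s
  simp only [fsV, List.map_cons, List.map_nil, List.sum_cons, List.sum_nil, sysGG, fv2 C, fv5 C, fv6 C]
  push_cast
  linarith only [z.ep, z.eP, z.ey, z.em]

theorem ru18 (C : Core2 α R m LF) (k : ℕ) :
    RuleL.Sem sys (ptS k (8 * 2 ^ R :: vt C)) ⟨true, 2, 2, [(1, 4), (1, 7)], 0, [], 512⟩ := by
  have z := C.zz
  apply rule_hi_s
  simp only [fsV, List.map_cons, List.map_nil, List.sum_cons, List.sum_nil, sysGG, fv2 C, fv4 C, fv7 C]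
  push_cast
  exact le_max_of_le_right (by linarith only [z.ep, z.eP, z.ey, z.em])

theorem ru19 (C : Core2 α R m LF) (k : ℕ) :
    RuleL.Sem sys (ptS k (8 * 2 ^ R :: vt C)) ⟨false, 4, 1, [(2, 2)], 512, [(1, 7)], 0⟩ := by
  have z := C.zz
  apply rule_lo_s
  simp only [fsV, List.map_cons, List.map_nil, List.sum_cons, List.sum_nil, sysGG, fv2 C, fv4 C, fv7 C]
  push_cast
  linarith only [z.ep, z.eP, z.ey, z.em]

theorem ru20 (C : Core2 α R m LF) (k : ℕ) :
    RuleL.Sem sys (ptS k (8 * 2 ^ R :: vt C)) ⟨false, 7, 1, [(2, 2)], 512, [(1, 4)], 0⟩ := by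
  have z := C.zz
  apply rule_lo_s
  simp only [fsV, List.map_cons, List.map_nil, List.sum_cons, List.sum_nil, sysGG, fv2 C, fv4 C, fv7 C]
  push_cast
  linarith only [z.ep, z.eP, z.ey, z.em]

theorem ru21 (C : Core2 α R m LF) (k : ℕ) :
    RuleL.Sem sys (ptS k (8 * 2 ^ R :: vt C)) ⟨false, 2, 2, [(1, 4), (1, 7)], 0, [], 512⟩ := by
  have z := C.zz
  apply rule_lo_s
  simp only [fsV, List.map_cons, List.map_nil, List.sum_cons, List.sum_nil, sysGG, fv2 C, fv4 C, fv7 C]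
  push_cast
  linarith only [z.ep, z.eP, z.ey, z.em]

theorem ru22 (C : Core2 α R m LF) (k : ℕ) :
    RuleL.Sem sys (ptS k (8 * 2 ^ R :: vt C)) ⟨true, 4, 1, [(2, 2)], 512, [(1, 7)], 0⟩ := by
  have z := C.zz
  apply rule_hi_s
  simp only [fsV, List.map_cons, List.map_nil, List.sum_cons, List.sum_nil, sysGG, fv2 C, fv4 C, fv7 C]
  push_cast
  exact le_max_of_le_right (by linarith only [z.ep, z.eP, z.ey, z.em])

theorem ru23 (C : Core2 α R m LF) (k : ℕ) :
    RuleL.Sem sys (ptS k (8 * 2 ^ R :: vt C)) ⟨true, 7, 1, [(2, 2)], 512, [(1, 4)], 0⟩ := by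
  have z := C.zz
  apply rule_hi_s
  simp only [fsV, List.map_cons, List.map_nil, List.sum_cons, List.sum_nil, sysGG, fv2 C, fv4 C, fv7 C]
  push_cast
  exact le_max_of_le_right (by linarith only [z.ep, z.eP, z.ey, z.em])

theorem ru24 (C : Core2 α R m LF) (k : ℕ) :
    RuleL.Sem sys (ptS k (8 * 2 ^ R :: vt C)) ⟨true, 2, 4, [(1, 4), (1, 8)], 0, [], 512⟩ := by
  have z := C.zz
  apply rule_hi_s
  simp only [fsV, List.map_cons, List.map_nil, List.sum_cons, List.sum_nil, sysGG, fv2 C, fv4 C, fv8 C]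
  push_cast
  exact le_max_of_le_right (by linarith only [z.ep, z.eP, z.ey, z.em])

theorem ru25 (C : Core2 α R m LF) (k : ℕ) :
    RuleL.Sem sys (ptS k (8 * 2 ^ R :: vt C)) ⟨false, 4, 1, [(4, 2)], 512, [(1, 8)], 0⟩ := by
  have z := C.zz
  apply rule_lo_s
  simp only [fsV, List.map_cons, List.map_nil, List.sum_cons, List.sum_nil, sysGG, fv2 C, fv4 C, fv8 C]
  push_cast
  linarith only [z.ep, z.eP, z.ey, z.em]

theorem ru26 (C : Core2 α R m LF) (k : ℕ) :
    RuleL.Sem sys (ptS k (8 * 2 ^ R :: vt C)) ⟨false, 8, 1, [(4, 2)], 512, [(1, 4)], 0⟩ := by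
  have z := C.zz
  apply rule_lo_s
  simp only [fsV, List.map_cons, List.map_nil, List.sum_cons, List.sum_nil, sysGG, fv2 C, fv4 C, fv8 C]
  push_cast
  linarith only [z.ep, z.eP, z.ey, z.em]

theorem ru27 (C : Core2 α R m LF) (k : ℕ) :
    RuleL.Sem sys (ptS k (8 * 2 ^ R :: vt C)) ⟨false, 2, 4, [(1, 4), (1, 8)], 0, [], 512⟩ := by
  have z := C.zz
  apply rule_lo_s
  simp only [fsV, List.map_cons, List.map_nil, List.sum_cons, List.sum_nil, sysGG, fv2 C, fv4 C, fv8 C]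
  push_cast
  linarith only [z.ep, z.eP, z.ey, z.em]

theorem ru28 (C : Core2 α R m LF) (k : ℕ) :
    RuleL.Sem sys (ptS k (8 * 2 ^ R :: vt C)) ⟨true, 4, 1, [(4, 2)], 512, [(1, 8)], 0⟩ := by
  have z := C.zz
  apply rule_hi_s
  simp only [fsV, List.map_cons, List.map_nil, List.sum_cons, List.sum_nil, sysGG, fv2 C, fv4 C, fv8 C]
  push_cast
  exact le_max_of_le_right (by linarith only [z.ep, z.eP, z.ey, z.em])

theorem ru29 (C : Core2 α R m LF) (k : ℕ) :
    RuleL.Sem sys (ptS k (8 * 2 ^ R :: vt C)) ⟨true, 8, 1, [(4, 2)], 512, [(1, 4)], 0⟩ := by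
  have z := C.zz
  apply rule_hi_s
  simp only [fsV, List.map_cons, List.map_nil, List.sum_cons, List.sum_nil, sysGG, fv2 C, fv4 C, fv8 C]
  push_cast
  exact le_max_of_le_right (by linarith only [z.ep, z.eP, z.ey, z.em])

theorem ru30 (C : Core2 α R m LF) (k : ℕ) :
    RuleL.Sem sys (ptS k (8 * 2 ^ R :: vt C)) ⟨true, 1, 4, [(1, 4), (1, 9)], 0, [], 512⟩ := by
  have z := C.zz
  apply rule_hi_s
  simp only [fsV, List.map_cons, List.map_nil, List.sum_cons, List.sum_nil, sysGG, fv1 C, fv4 C, fv9 C]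
  push_cast
  exact le_max_of_le_right (by linarith only [z.ep, z.eP, z.ey, z.em])

theorem ru31 (C : Core2 α R m LF) (k : ℕ) :
    RuleL.Sem sys (ptS k (8 * 2 ^ R :: vt C)) ⟨false, 4, 1, [(4, 1)], 512, [(1, 9)], 0⟩ := by
  have z := C.zz
  apply rule_lo_s
  simp only [fsV, List.map_cons, List.map_nil, List.sum_cons, List.sum_nil, sysGG, fv1 C, fv4 C, fv9 C]
  push_cast
  linarith only [z.ep, z.eP, z.ey, z.em]

theorem ru32 (C : Core2 α R m LF) (k : ℕ) :
    RuleL.Sem sys (ptS k (8 * 2 ^ R :: vt C)) ⟨false, 9, 1, [(4, 1)], 512, [(1, 4)], 0⟩ := by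
  have z := C.zz
  apply rule_lo_s
  simp only [fsV, List.map_cons, List.map_nil, List.sum_cons, List.sum_nil, sysGG, fv1 C, fv4 C, fv9 C]
  push_cast
  linarith only [z.ep, z.eP, z.ey, z.em]

theorem ru33 (C : Core2 α R m LF) (k : ℕ) :
    RuleL.Sem sys (ptS k (8 * 2 ^ R :: vt C)) ⟨false, 1, 4, [(1, 4), (1, 9)], 0, [], 512⟩ := by
  have z := C.zz
  apply rule_lo_s
  simp only [fsV, List.map_cons, List.map_nil, List.sum_cons, List.sum_nil, sysGG, fv1 C, fv4 C, fv9 C]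
  push_cast
  linarith only [z.ep, z.eP, z.ey, z.em]

theorem ru34 (C : Core2 α R m LF) (k : ℕ) :
    RuleL.Sem sys (ptS k (8 * 2 ^ R :: vt C)) ⟨true, 4, 1, [(4, 1)], 512, [(1, 9)], 0⟩ := by
  have z := C.zz
  apply rule_hi_s
  simp only [fsV, List.map_cons, List.map_nil, List.sum_cons, List.sum_nil, sysGG, fv1 C, fv4 C, fv9 C]
  push_cast
  exact le_max_of_le_right (by linarith only [z.ep, z.eP, z.ey, z.em])

theorem ru35 (C : Core2 α R m LF) (k : ℕ) :
    RuleL.Sem sys (ptS k (8 * 2 ^ R :: vt C)) ⟨true, 9, 1, [(4, 1)], 512, [(1, 4)], 0⟩ := by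
  have z := C.zz
  apply rule_hi_s
  simp only [fsV, List.map_cons, List.map_nil, List.sum_cons, List.sum_nil, sysGG, fv1 C, fv4 C, fv9 C]
  push_cast
  exact le_max_of_le_right (by linarith only [z.ep, z.eP, z.ey, z.em])

theorem ru36 (C : Core2 α R m LF) (k : ℕ) :
    RuleL.Sem sys (ptS k (8 * 2 ^ R :: vt C)) ⟨true, 1, 1, [(1, 4), (1, 10)], 0, [], 512⟩ := by
  have z := C.zz
  apply rule_hi_s
  simp only [fsV, List.map_cons, List.map_nil, List.sum_cons, List.sum_nil, sysGG, fv1 C, fv4 C, fv10 C]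
  push_cast
  exact le_max_of_le_right (by linarith only [z.ep, z.eP, z.ey, z.em])

theorem ru37 (C : Core2 α R m LF) (k : ℕ) :
    RuleL.Sem sys (ptS k (8 * 2 ^ R :: vt C)) ⟨false, 4, 1, [(1, 1)], 512, [(1, 10)], 0⟩ := by
  have z := C.zz
  apply rule_lo_s
  simp only [fsV, List.map_cons, List.map_nil, List.sum_cons, List.sum_nil, sysGG, fv1 C, fv4 C, fv10 C]
  push_cast
  linarith only [z.ep, z.eP, z.ey, z.em]

theorem ru38 (C : Core2 α R m LF) (k : ℕ) :
    RuleL.Sem sys (ptS k (8 * 2 ^ R :: vt C)) ⟨false, 10, 1, [(1, 1)], 512, [(1, 4)], 0⟩ := by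
  have z := C.zz
  apply rule_lo_s
  simp only [fsV, List.map_cons, List.map_nil, List.sum_cons, List.sum_nil, sysGG, fv1 C, fv4 C, fv10 C]
  push_cast
  linarith only [z.ep, z.eP, z.ey, z.em]

theorem ru39 (C : Core2 α R m LF) (k : ℕ) :
    RuleL.Sem sys (ptS k (8 * 2 ^ R :: vt C)) ⟨false, 1, 1, [(1, 4), (1, 10)], 0, [], 512⟩ := by
  have z := C.zz
  apply rule_lo_s
  simp only [fsV, List.map_cons, List.map_nil, List.sum_cons, List.sum_nil, sysGG, fv1 C, fv4 C, fv10 C]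
  push_cast
  linarith only [z.ep, z.eP, z.ey, z.em]

theorem ru40 (C : Core2 α R m LF) (k : ℕ) :
    RuleL.Sem sys (ptS k (8 * 2 ^ R :: vt C)) ⟨true, 4, 1, [(1, 1)], 512, [(1, 10)], 0⟩ := by
  have z := C.zz
  apply rule_hi_s
  simp only [fsV, List.map_cons, List.map_nil, List.sum_cons, List.sum_nil, sysGG, fv1 C, fv4 C, fv10 C]
  push_cast
  exact le_max_of_le_right (by linarith only [z.ep, z.eP, z.ey, z.em])

theorem ru41 (C : Core2 α R m LF) (k : ℕ) :
    RuleL.Sem sys (ptS k (8 * 2 ^ R :: vt C)) ⟨true, 10, 1, [(1, 1)], 512, [(1, 4)], 0⟩ := by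
  have z := C.zz
  apply rule_hi_s
  simp only [fsV, List.map_cons, List.map_nil, List.sum_cons, List.sum_nil, sysGG, fv1 C, fv4 C, fv10 C]
  push_cast
  exact le_max_of_le_right (by linarith only [z.ep, z.eP, z.ey, z.em])

theorem ru42 (C : Core2 α R m LF) (k : ℕ) :
    RuleL.Sem sys (ptS k (8 * 2 ^ R :: vt C)) ⟨false, 4, 1, [(4, 6)], 512, [(1, 11)], 0⟩ := by
  have z := C.zz
  apply rule_lo_s
  simp only [fsV, List.map_cons, List.map_nil, List.sum_cons, List.sum_nil, sysGG, fv4 C, fv6 C, fv11 C]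
  push_cast
  linarith only [z.ep, z.eP, z.ey, z.em]

theorem ru43 (C : Core2 α R m LF) (k : ℕ) :
    RuleL.Sem sys (ptS k (8 * 2 ^ R :: vt C)) ⟨true, 6, 4, [(1, 4), (1, 11)], 0, [], 512⟩ := by
  have z := C.zz
  apply rule_hi_s
  simp only [fsV, List.map_cons, List.map_nil, List.sum_cons, List.sum_nil, sysGG, fv4 C, fv6 C, fv11 C]
  push_cast
  exact le_max_of_le_right (by linarith only [z.ep, z.eP, z.ey, z.em])

theorem ru44 (C : Core2 α R m LF) (k : ℕ) :
    RuleL.Sem sys (ptS k (8 * 2 ^ R :: vt C)) ⟨false, 11, 1, [(4, 6)], 512, [(1, 4)], 0⟩ := by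
  have z := C.zz
  apply rule_lo_s
  simp only [fsV, List.map_cons, List.map_nil, List.sum_cons, List.sum_nil, sysGG, fv4 C, fv6 C, fv11 C]
  push_cast
  linarith only [z.ep, z.eP, z.ey, z.em]

theorem ru45 (C : Core2 α R m LF) (k : ℕ) :
    RuleL.Sem sys (ptS k (8 * 2 ^ R :: vt C)) ⟨true, 4, 1, [(4, 6)], 512, [(1, 11)], 0⟩ := by
  have z := C.zz
  apply rule_hi_s
  simp only [fsV, List.map_cons, List.map_nil, List.sum_cons, List.sum_nil, sysGG, fv4 C, fv6 C, fv11 C]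
  push_cast
  exact le_max_of_le_right (by linarith only [z.ep, z.eP, z.ey, z.em])

theorem ru46 (C : Core2 α R m LF) (k : ℕ) :
    RuleL.Sem sys (ptS k (8 * 2 ^ R :: vt C)) ⟨false, 6, 4, [(1, 4), (1, 11)], 0, [], 512⟩ := by
  have z := C.zz
  apply rule_lo_s
  simp only [fsV, List.map_cons, List.map_nil, List.sum_cons, List.sum_nil, sysGG, fv4 C, fv6 C, fv11 C]
  push_cast
  linarith only [z.ep, z.eP, z.ey, z.em]

theorem ru47 (C : Core2 α R m LF) (k : ℕ) :
    RuleL.Sem sys (ptS k (8 * 2 ^ R :: vt C)) ⟨true, 11, 1, [(4, 6)], 512, [(1, 4)], 0⟩ := by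
  have z := C.zz
  apply rule_hi_s
  simp only [fsV, List.map_cons, List.map_nil, List.sum_cons, List.sum_nil, sysGG, fv4 C, fv6 C, fv11 C]
  push_cast
  exact le_max_of_le_right (by linarith only [z.ep, z.eP, z.ey, z.em])

theorem ru48 (C : Core2 α R m LF) (k : ℕ) :
    RuleL.Sem sys (ptS k (8 * 2 ^ R :: vt C)) ⟨false, 4, 1, [(4, 5)], 512, [(1, 12)], 0⟩ := by
  have z := C.zz
  apply rule_lo_s
  simp only [fsV, List.map_cons, List.map_nil, List.sum_cons, List.sum_nil, sysGG, fv4 C, fv5 C, fv12 C]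
  push_cast
  linarith only [z.ep, z.eP, z.ey, z.em]

theorem ru49 (C : Core2 α R m LF) (k : ℕ) :
    RuleL.Sem sys (ptS k (8 * 2 ^ R :: vt C)) ⟨true, 5, 4, [(1, 4), (1, 12)], 0, [], 512⟩ := by
  have z := C.zz
  apply rule_hi_s
  simp only [fsV, List.map_cons, List.map_nil, List.sum_cons, List.sum_nil, sysGG, fv4 C, fv5 C, fv12 C]
  push_cast
  exact le_max_of_le_right (by linarith only [z.ep, z.eP, z.ey, z.em])

theorem ru50 (C : Core2 α R m LF) (k : ℕ) :
    RuleL.Sem sys (ptS k (8 * 2 ^ R :: vt C)) ⟨false, 12, 1, [(4, 5)], 512, [(1, 4)], 0⟩ := by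
  have z := C.zz
  apply rule_lo_s
  simp only [fsV, List.map_cons, List.map_nil, List.sum_cons, List.sum_nil, sysGG, fv4 C, fv5 C, fv12 C]
  push_cast
  linarith only [z.ep, z.eP, z.ey, z.em]

theorem ru51 (C : Core2 α R m LF) (k : ℕ) :
    RuleL.Sem sys (ptS k (8 * 2 ^ R :: vt C)) ⟨true, 4, 1, [(4, 5)], 512, [(1, 12)], 0⟩ := by
  have z := C.zz
  apply rule_hi_s
  simp only [fsV, List.map_cons, List.map_nil, List.sum_cons, List.sum_nil, sysGG, fv4 C, fv5 C, fv12 C]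
  push_cast
  exact le_max_of_le_right (by linarith only [z.ep, z.eP, z.ey, z.em])

theorem ru52 (C : Core2 α R m LF) (k : ℕ) :
    RuleL.Sem sys (ptS k (8 * 2 ^ R :: vt C)) ⟨false, 5, 4, [(1, 4), (1, 12)], 0, [], 512⟩ := by
  have z := C.zz
  apply rule_lo_s
  simp only [fsV, List.map_cons, List.map_nil, List.sum_cons, List.sum_nil, sysGG, fv4 C, fv5 C, fv12 C]
  push_cast
  linarith only [z.ep, z.eP, z.ey, z.em]

theorem ru53 (C : Core2 α R m LF) (k : ℕ) :
    RuleL.Sem sys (ptS k (8 * 2 ^ R :: vt C)) ⟨true, 12, 1, [(4, 5)], 512, [(1, 4)], 0⟩ := by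
  have z := C.zz
  apply rule_hi_s
  simp only [fsV, List.map_cons, List.map_nil, List.sum_cons, List.sum_nil, sysGG, fv4 C, fv5 C, fv12 C]
  push_cast
  exact le_max_of_le_right (by linarith only [z.ep, z.eP, z.ey, z.em])

theorem ru54 (C : Core2 α R m LF) (k : ℕ) :
    RuleL.Sem sys (ptS k (8 * 2 ^ R :: vt C)) ⟨false, 4, 1, [(2, 5)], 512, [(1, 13)], 0⟩ := by
  have z := C.zz
  apply rule_lo_s
  simp only [fsV, List.map_cons, List.map_nil, List.sum_cons, List.sum_nil, sysGG, fv4 C, fv5 C, fv13 C]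
  push_cast
  linarith only [z.ep, z.eP, z.ey, z.em]

theorem ru55 (C : Core2 α R m LF) (k : ℕ) :
    RuleL.Sem sys (ptS k (8 * 2 ^ R :: vt C)) ⟨true, 5, 2, [(1, 4), (1, 13)], 0, [], 512⟩ := by
  have z := C.zz
  apply rule_hi_s
  simp only [fsV, List.map_cons, List.map_nil, List.sum_cons, List.sum_nil, sysGG, fv4 C, fv5 C, fv13 C]
  push_cast
  exact le_max_of_le_right (by linarith only [z.ep, z.eP, z.ey, z.em])

theorem ru56 (C : Core2 α R m LF) (k : ℕ) :
    RuleL.Sem sys (ptS k (8 * 2 ^ R :: vt C)) ⟨false, 13, 1, [(2, 5)], 512, [(1, 4)], 0⟩ := by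
  have z := C.zz
  apply rule_lo_s
  simp only [fsV, List.map_cons, List.map_nil, List.sum_cons, List.sum_nil, sysGG, fv4 C, fv5 C, fv13 C]
  push_cast
  linarith only [z.ep, z.eP, z.ey, z.em]

theorem ru57 (C : Core2 α R m LF) (k : ℕ) :
    RuleL.Sem sys (ptS k (8 * 2 ^ R :: vt C)) ⟨true, 4, 1, [(2, 5)], 512, [(1, 13)], 0⟩ := by
  have z := C.zz
  apply rule_hi_s
  simp only [fsV, List.map_cons, List.map_nil, List.sum_cons, List.sum_nil, sysGG, fv4 C, fv5 C, fv13 C]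
  push_cast
  exact le_max_of_le_right (by linarith only [z.ep, z.eP, z.ey, z.em])

theorem ru58 (C : Core2 α R m LF) (k : ℕ) :
    RuleL.Sem sys (ptS k (8 * 2 ^ R :: vt C)) ⟨false, 5, 2, [(1, 4), (1, 13)], 0, [], 512⟩ := by
  have z := C.zz
  apply rule_lo_s
  simp only [fsV, List.map_cons, List.map_nil, List.sum_cons, List.sum_nil, sysGG, fv4 C, fv5 C, fv13 C]
  push_cast
  linarith only [z.ep, z.eP, z.ey, z.em]

theorem ru59 (C : Core2 α R m LF) (k : ℕ) :
    RuleL.Sem sys (ptS k (8 * 2 ^ R :: vt C)) ⟨true, 13, 1, [(2, 5)], 512, [(1, 4)], 0⟩ := by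
  have z := C.zz
  apply rule_hi_s
  simp only [fsV, List.map_cons, List.map_nil, List.sum_cons, List.sum_nil, sysGG, fv4 C, fv5 C, fv13 C]
  push_cast
  exact le_max_of_le_right (by linarith only [z.ep, z.eP, z.ey, z.em])

theorem ru60 (C : Core2 α R m LF) (k : ℕ) :
    RuleL.Sem sys (ptS k (8 * 2 ^ R :: vt C)) ⟨false, 4, 1, [(2, 6)], 512, [(1, 14)], 0⟩ := by
  have z := C.zz
  apply rule_lo_s
  simp only [fsV, List.map_cons, List.map_nil, List.sum_cons, List.sum_nil, sysGG, fv4 C, fv6 C, fv14 C]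
  push_cast
  linarith only [z.ep, z.eP, z.ey, z.em]

theorem ru61 (C : Core2 α R m LF) (k : ℕ) :
    RuleL.Sem sys (ptS k (8 * 2 ^ R :: vt C)) ⟨true, 6, 2, [(1, 4), (1, 14)], 0, [], 512⟩ := by
  have z := C.zz
  apply rule_hi_s
  simp only [fsV, List.map_cons, List.map_nil, List.sum_cons, List.sum_nil, sysGG, fv4 C, fv6 C, fv14 C]
  push_cast
  exact le_max_of_le_right (by linarith only [z.ep, z.eP, z.ey, z.em])

theorem ru62 (C : Core2 α R m LF) (k : ℕ) :
    RuleL.Sem sys (ptS k (8 * 2 ^ R :: vt C)) ⟨false, 14, 1, [(2, 6)], 512, [(1, 4)], 0⟩ := by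
  have z := C.zz
  apply rule_lo_s
  simp only [fsV, List.map_cons, List.map_nil, List.sum_cons, List.sum_nil, sysGG, fv4 C, fv6 C, fv14 C]
  push_cast
  linarith only [z.ep, z.eP, z.ey, z.em]

theorem ru63 (C : Core2 α R m LF) (k : ℕ) :
    RuleL.Sem sys (ptS k (8 * 2 ^ R :: vt C)) ⟨true, 4, 1, [(2, 6)], 512, [(1, 14)], 0⟩ := by
  have z := C.zz
  apply rule_hi_s
  simp only [fsV, List.map_cons, List.map_nil, List.sum_cons, List.sum_nil, sysGG, fv4 C, fv6 C, fv14 C]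
  push_cast
  exact le_max_of_le_right (by linarith only [z.ep, z.eP, z.ey, z.em])

theorem ru64 (C : Core2 α R m LF) (k : ℕ) :
    RuleL.Sem sys (ptS k (8 * 2 ^ R :: vt C)) ⟨false, 6, 2, [(1, 4), (1, 14)], 0, [], 512⟩ := by
  have z := C.zz
  apply rule_lo_s
  simp only [fsV, List.map_cons, List.map_nil, List.sum_cons, List.sum_nil, sysGG, fv4 C, fv6 C, fv14 C]
  push_cast
  linarith only [z.ep, z.eP, z.ey, z.em]

theorem ru65 (C : Core2 α R m LF) (k : ℕ) :
    RuleL.Sem sys (ptS k (8 * 2 ^ R :: vt C)) ⟨true, 14, 1, [(2, 6)], 512, [(1, 4)], 0⟩ := by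
  have z := C.zz
  apply rule_hi_s
  simp only [fsV, List.map_cons, List.map_nil, List.sum_cons, List.sum_nil, sysGG, fv4 C, fv6 C, fv14 C]
  push_cast
  exact le_max_of_le_right (by linarith only [z.ep, z.eP, z.ey, z.em])

theorem ru66 (C : Core2 α R m LF) (k : ℕ) :
    RuleL.Sem sys (ptS k (8 * 2 ^ R :: vt C)) ⟨false, 4, 1, [], 512, [(1, 15)], 0⟩ := by
  have z := C.zz
  apply rule_lo_s
  simp only [fsV, List.map_cons, List.map_nil, List.sum_cons, List.sum_nil, sysGG, fv4 C, fv15 C]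
  push_cast
  linarith only [z.ep, z.eP, z.ey, z.em]

theorem ru67 (C : Core2 α R m LF) (k : ℕ) :
    RuleL.Sem sys (ptS k (8 * 2 ^ R :: vt C)) ⟨false, 15, 1, [], 512, [(1, 4)], 0⟩ := by
  have z := C.zz
  apply rule_lo_s
  simp only [fsV, List.map_cons, List.map_nil, List.sum_cons, List.sum_nil, sysGG, fv4 C, fv15 C]
  push_cast
  linarith only [z.ep, z.eP, z.ey, z.em]

theorem ru68 (C : Core2 α R m LF) (k : ℕ) :
    RuleL.Sem sys (ptS k (8 * 2 ^ R :: vt C)) ⟨true, 4, 1, [], 512, [(1, 15)], 0⟩ := by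
  have z := C.zz
  apply rule_hi_s
  simp only [fsV, List.map_cons, List.map_nil, List.sum_cons, List.sum_nil, sysGG, fv4 C, fv15 C]
  push_cast
  exact le_max_of_le_right (by linarith only [z.ep, z.eP, z.ey, z.em])

theorem ru69 (C : Core2 α R m LF) (k : ℕ) :
    RuleL.Sem sys (ptS k (8 * 2 ^ R :: vt C)) ⟨true, 15, 1, [], 512, [(1, 4)], 0⟩ := by
  have z := C.zz
  apply rule_hi_s
  simp only [fsV, List.map_cons, List.map_nil, List.sum_cons, List.sum_nil, sysGG, fv4 C, fv15 C]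
  push_cast
  exact le_max_of_le_right (by linarith only [z.ep, z.eP, z.ey, z.em])

theorem ru70 (C : Core2 α R m LF) (k : ℕ) :
    RuleL.Sem sys (ptS k (8 * 2 ^ R :: vt C)) ⟨true, 1, 2, [(1, 23)], 0, [], 0⟩ := by
  have z := C.zz
  apply rule_hi_s
  simp only [fsV, List.map_cons, List.map_nil, List.sum_cons, List.sum_nil, sysGG, fv1 C, fv23 C]
  push_cast
  exact le_max_of_le_right (by linarith only [z.ep, z.eP, z.ey, z.em])

theorem ru71 (C : Core2 α R m LF) (k : ℕ) :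
    RuleL.Sem sys (ptS k (8 * 2 ^ R :: vt C)) ⟨false, 23, 1, [(2, 1)], 0, [], 0⟩ := by
  have z := C.zz
  apply rule_lo_s
  simp only [fsV, List.map_cons, List.map_nil, List.sum_cons, List.sum_nil, sysGG, fv1 C, fv23 C]
  push_cast
  linarith only [z.ep, z.eP, z.ey, z.em]

theorem ru72 (C : Core2 α R m LF) (k : ℕ) :
    RuleL.Sem sys (ptS k (8 * 2 ^ R :: vt C)) ⟨false, 1, 2, [(1, 23)], 0, [], 0⟩ := by
  have z := C.zz
  apply rule_lo_s
  simp only [fsV, List.map_cons, List.map_nil, List.sum_cons, List.sum_nil, sysGG, fv1 C, fv23 C]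
  push_cast
  linarith only [z.ep, z.eP, z.ey, z.em]

theorem ru73 (C : Core2 α R m LF) (k : ℕ) :
    RuleL.Sem sys (ptS k (8 * 2 ^ R :: vt C)) ⟨true, 23, 1, [(2, 1)], 0, [], 0⟩ := by
  have z := C.zz
  apply rule_hi_s
  simp only [fsV, List.map_cons, List.map_nil, List.sum_cons, List.sum_nil, sysGG, fv1 C, fv23 C]
  push_cast
  exact le_max_of_le_right (by linarith only [z.ep, z.eP, z.ey, z.em])

theorem ru74 (C : Core2 α R m LF) (k : ℕ) :
    RuleL.Sem sys (ptS k (8 * 2 ^ R :: vt C)) ⟨true, 5, 2, [(1, 25)], 0, [], 0⟩ := by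
  have z := C.zz
  apply rule_hi_s
  simp only [fsV, List.map_cons, List.map_nil, List.sum_cons, List.sum_nil, sysGG, fv5 C, fv25 C]
  push_cast
  exact le_max_of_le_right (by linarith only [z.ep, z.eP, z.ey, z.em])

theorem ru75 (C : Core2 α R m LF) (k : ℕ) :
    RuleL.Sem sys (ptS k (8 * 2 ^ R :: vt C)) ⟨false, 25, 1, [(2, 5)], 0, [], 0⟩ := by
  have z := C.zz
  apply rule_lo_s
  simp only [fsV, List.map_cons, List.map_nil, List.sum_cons, List.sum_nil, sysGG, fv5 C, fv25 C]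
  push_cast
  linarith only [z.ep, z.eP, z.ey, z.em]

theorem ru76 (C : Core2 α R m LF) (k : ℕ) :
    RuleL.Sem sys (ptS k (8 * 2 ^ R :: vt C)) ⟨false, 5, 2, [(1, 25)], 0, [], 0⟩ := by
  have z := C.zz
  apply rule_lo_s
  simp only [fsV, List.map_cons, List.map_nil, List.sum_cons, List.sum_nil, sysGG, fv5 C, fv25 C]
  push_cast
  linarith only [z.ep, z.eP, z.ey, z.em]

theorem ru77 (C : Core2 α R m LF) (k : ℕ) :
    RuleL.Sem sys (ptS k (8 * 2 ^ R :: vt C)) ⟨true, 25, 1, [(2, 5)], 0, [], 0⟩ := by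
  have z := C.zz
  apply rule_hi_s
  simp only [fsV, List.map_cons, List.map_nil, List.sum_cons, List.sum_nil, sysGG, fv5 C, fv25 C]
  push_cast
  exact le_max_of_le_right (by linarith only [z.ep, z.eP, z.ey, z.em])

theorem ru78 (C : Core2 α R m LF) (k : ℕ) :
    RuleL.Sem sys (ptS k (8 * 2 ^ R :: vt C)) ⟨true, 1, 1, [(1, 2)], 0, [], 0⟩ := by
  have z := C.zz
  apply rule_hi_s
  simp only [fsV, List.map_cons, List.map_nil, List.sum_cons, List.sum_nil, sysGG, fv1 C, fv2 C]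
  push_cast
  exact le_max_of_le_right (by linarith only [z.ep, z.eP, z.ey, z.em, z.le2])

theorem ru79 (C : Core2 α R m LF) (k : ℕ) :
    RuleL.Sem sys (ptS k (8 * 2 ^ R :: vt C)) ⟨false, 2, 1, [(1, 1)], 0, [], 0⟩ := by
  have z := C.zz
  apply rule_lo_s
  simp only [fsV, List.map_cons, List.map_nil, List.sum_cons, List.sum_nil, sysGG, fv1 C, fv2 C]
  push_cast
  linarith only [z.ep, z.eP, z.ey, z.em, z.le2]

theorem ru80 (C : Core2 α R m LF) (k : ℕ) :
    RuleL.Sem sys (ptS k (8 * 2 ^ R :: vt C)) ⟨true, 5, 1, [(1, 6)], 0, [], 0⟩ := by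
  have z := C.zz
  apply rule_hi_s
  simp only [fsV, List.map_cons, List.map_nil, List.sum_cons, List.sum_nil, sysGG, fv5 C, fv6 C]
  push_cast
  exact le_max_of_le_right (by linarith only [z.ep, z.eP, z.ey, z.em, z.le3])

theorem ru81 (C : Core2 α R m LF) (k : ℕ) :
    RuleL.Sem sys (ptS k (8 * 2 ^ R :: vt C)) ⟨false, 6, 1, [(1, 5)], 0, [], 0⟩ := by
  have z := C.zz
  apply rule_lo_s
  simp only [fsV, List.map_cons, List.map_nil, List.sum_cons, List.sum_nil, sysGG, fv5 C, fv6 C]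
  push_cast
  linarith only [z.ep, z.eP, z.ey, z.em, z.le3]

theorem ru82 (C : Core2 α R m LF) (k : ℕ) :
    RuleL.Sem sys (ptS k (8 * 2 ^ R :: vt C)) ⟨true, 0, 1, [(1, 3)], 0, [], 0⟩ := by
  have z := C.zz
  apply rule_hi_s
  simp only [fsV, List.map_cons, List.map_nil, List.sum_cons, List.sum_nil, sysGG, fv0 C, fv3 C]
  push_cast
  exact le_max_of_le_right (by linarith only [z.ep, z.eP, z.ey, z.em, z.le1])

theorem ru83 (C : Core2 α R m LF) (k : ℕ) :
    RuleL.Sem sys (ptS k (8 * 2 ^ R :: vt C)) ⟨false, 3, 1, [(1, 0)], 0, [], 0⟩ := by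
  have z := C.zz
  apply rule_lo_s
  simp only [fsV, List.map_cons, List.map_nil, List.sum_cons, List.sum_nil, sysGG, fv0 C, fv3 C]
  push_cast
  linarith only [z.ep, z.eP, z.ey, z.em, z.le1]

theorem ru84 (C : Core2 α R m LF) (k : ℕ) :
    RuleL.Sem sys (ptS k (8 * 2 ^ R :: vt C)) ⟨false, 0, 1, [(1, 22)], 0, [], 0⟩ := by
  have z := C.zz
  apply rule_lo_s
  simp only [fsV, List.map_cons, List.map_nil, List.sum_cons, List.sum_nil, sysGG, fv0 C, fv22 C]
  push_cast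
  linarith only [z.ep, z.eP, z.ey, z.em, z.f0]

theorem ru85 (C : Core2 α R m LF) (k : ℕ) :
    RuleL.Sem sys (ptS k (8 * 2 ^ R :: vt C)) ⟨true, 22, 1, [(1, 0)], 0, [], 0⟩ := by
  have z := C.zz
  apply rule_hi_s
  simp only [fsV, List.map_cons, List.map_nil, List.sum_cons, List.sum_nil, sysGG, fv0 C, fv22 C]
  push_cast
  exact le_max_of_le_right (by linarith only [z.ep, z.eP, z.ey, z.em, z.f0])

theorem ru86 (C : Core2 α R m LF) (k : ℕ) :
    RuleL.Sem sys (ptS k (8 * 2 ^ R :: vt C)) ⟨true, 22, 1, [(1, 23)], 0, [], 0⟩ := by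
  have z := C.zz
  apply rule_hi_s
  simp only [fsV, List.map_cons, List.map_nil, List.sum_cons, List.sum_nil, sysGG, fv22 C, fv23 C]
  push_cast
  exact le_max_of_le_right (by linarith only [z.ep, z.eP, z.ey, z.em, z.h1])

theorem ru87 (C : Core2 α R m LF) (k : ℕ) :
    RuleL.Sem sys (ptS k (8 * 2 ^ R :: vt C)) ⟨false, 23, 1, [(1, 22)], 0, [], 0⟩ := by
  have z := C.zz
  apply rule_lo_s
  simp only [fsV, List.map_cons, List.map_nil, List.sum_cons, List.sum_nil, sysGG, fv22 C, fv23 C]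
  push_cast
  linarith only [z.ep, z.eP, z.ey, z.em, z.h1]

theorem ru88 (C : Core2 α R m LF) (k : ℕ) :
    RuleL.Sem sys (ptS k (8 * 2 ^ R :: vt C)) ⟨false, 1, 1, [(1, 24)], 0, [], 0⟩ := by
  have z := C.zz
  apply rule_lo_s
  simp only [fsV, List.map_cons, List.map_nil, List.sum_cons, List.sum_nil, sysGG, fv1 C, fv24 C]
  push_cast
  linarith only [z.ep, z.eP, z.ey, z.em, z.fK0]

theorem ru89 (C : Core2 α R m LF) (k : ℕ) :
    RuleL.Sem sys (ptS k (8 * 2 ^ R :: vt C)) ⟨true, 24, 1, [(1, 1)], 0, [], 0⟩ := by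
  have z := C.zz
  apply rule_hi_s
  simp only [fsV, List.map_cons, List.map_nil, List.sum_cons, List.sum_nil, sysGG, fv1 C, fv24 C]
  push_cast
  exact le_max_of_le_right (by linarith only [z.ep, z.eP, z.ey, z.em, z.fK0])

theorem ru90 (C : Core2 α R m LF) (k : ℕ) :
    RuleL.Sem sys (ptS k (8 * 2 ^ R :: vt C)) ⟨true, 24, 1, [(1, 25)], 0, [], 0⟩ := by
  have z := C.zz
  apply rule_hi_s
  simp only [fsV, List.map_cons, List.map_nil, List.sum_cons, List.sum_nil, sysGG, fv24 C, fv25 C]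
  push_cast
  exact le_max_of_le_right (by linarith only [z.ep, z.eP, z.ey, z.em, z.h2])

theorem ru91 (C : Core2 α R m LF) (k : ℕ) :
    RuleL.Sem sys (ptS k (8 * 2 ^ R :: vt C)) ⟨false, 25, 1, [(1, 24)], 0, [], 0⟩ := by
  have z := C.zz
  apply rule_lo_s
  simp only [fsV, List.map_cons, List.map_nil, List.sum_cons, List.sum_nil, sysGG, fv24 C, fv25 C]
  push_cast
  linarith only [z.ep, z.eP, z.ey, z.em, z.h2]

theorem ru92 (C : Core2 α R m LF) (k : ℕ) :
    RuleL.Sem sys (ptS k (8 * 2 ^ R :: vt C)) ⟨true, 3, 1, [(1, 24)], 256, [], 0⟩ := by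
  have z := C.zz
  apply rule_hi_s
  simp only [fsV, List.map_cons, List.map_nil, List.sum_cons, List.sum_nil, sysGG, fv3 C, fv24 C]
  push_cast
  exact le_max_of_le_right (by linarith only [z.ep, z.eP, z.ey, z.em, z.cap2])

theorem ru93 (C : Core2 α R m LF) (k : ℕ) :
    RuleL.Sem sys (ptS k (8 * 2 ^ R :: vt C)) ⟨false, 24, 1, [(1, 3)], 0, [], 256⟩ := by
  have z := C.zz
  apply rule_lo_s
  simp only [fsV, List.map_cons, List.map_nil, List.sum_cons, List.sum_nil, sysGG, fv3 C, fv24 C]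
  push_cast
  linarith only [z.ep, z.eP, z.ey, z.em, z.cap2]

theorem ru94 (C : Core2 α R m LF) (k : ℕ) :
    RuleL.Sem sys (ptS k (8 * 2 ^ R :: vt C)) ⟨false, 5, 1, [(1, 26)], 0, [], 0⟩ := by
  have z := C.zz
  apply rule_lo_s
  simp only [fsV, List.map_cons, List.map_nil, List.sum_cons, List.sum_nil, sysGG, fv5 C, fv26 C]
  push_cast
  linarith only [z.ep, z.eP, z.ey, z.em, z.f30]

theorem ru95 (C : Core2 α R m LF) (k : ℕ) :
    RuleL.Sem sys (ptS k (8 * 2 ^ R :: vt C)) ⟨true, 26, 1, [(1, 5)], 0, [], 0⟩ := by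
  have z := C.zz
  apply rule_hi_s
  simp only [fsV, List.map_cons, List.map_nil, List.sum_cons, List.sum_nil, sysGG, fv5 C, fv26 C]
  push_cast
  exact le_max_of_le_right (by linarith only [z.ep, z.eP, z.ey, z.em, z.f30])

theorem ru96 (C : Core2 α R m LF) (k : ℕ) :
    RuleL.Sem sys (ptS k (8 * 2 ^ R :: vt C)) ⟨true, 2, 2, [(2, 26)], 256, [], 0⟩ := by
  have z := C.zz
  apply rule_hi_s
  simp only [fsV, List.map_cons, List.map_nil, List.sum_cons, List.sum_nil, sysGG, fv2 C, fv26 C]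
  push_cast
  exact le_max_of_le_right (by linarith only [z.ep, z.eP, z.ey, z.em, z.cap3])

theorem ru97 (C : Core2 α R m LF) (k : ℕ) :
    RuleL.Sem sys (ptS k (8 * 2 ^ R :: vt C)) ⟨false, 26, 2, [(2, 2)], 0, [], 256⟩ := by
  have z := C.zz
  apply rule_lo_s
  simp only [fsV, List.map_cons, List.map_nil, List.sum_cons, List.sum_nil, sysGG, fv2 C, fv26 C]
  push_cast
  linarith only [z.ep, z.eP, z.ey, z.em, z.cap3]

theorem ru98 (C : Core2 α R m LF) (k : ℕ) :
    RuleL.Sem sys (ptS k (8 * 2 ^ R :: vt C)) ⟨true, 0, 1, [(1, 3), (1, 27)], 0, [(1, 22)], 0⟩ := by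
  have z := C.zz
  apply rule_hi_s
  simp only [fsV, List.map_cons, List.map_nil, List.sum_cons, List.sum_nil, sysGG, fv0 C, fv3 C, fv22 C, fv27 C]
  push_cast
  exact le_max_of_le_right (by linarith only [z.ep, z.eP, z.ey, z.em, z.w1q])

theorem ru99 (C : Core2 α R m LF) (k : ℕ) :
    RuleL.Sem sys (ptS k (8 * 2 ^ R :: vt C)) ⟨false, 3, 1, [(1, 0), (1, 22)], 0, [(1, 27)], 0⟩ := by
  have z := C.zz
  apply rule_lo_s
  simp only [fsV, List.map_cons, List.map_nil, List.sum_cons, List.sum_nil, sysGG, fv0 C, fv3 C, fv22 C, fv27 C]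
  push_cast
  linarith only [z.ep, z.eP, z.ey, z.em, z.w1q]

theorem ru100 (C : Core2 α R m LF) (k : ℕ) :
    RuleL.Sem sys (ptS k (8 * 2 ^ R :: vt C)) ⟨true, 22, 1, [(1, 3), (1, 27)], 0, [(1, 0)], 0⟩ := by
  have z := C.zz
  apply rule_hi_s
  simp only [fsV, List.map_cons, List.map_nil, List.sum_cons, List.sum_nil, sysGG, fv0 C, fv3 C, fv22 C, fv27 C]
  push_cast
  exact le_max_of_le_right (by linarith only [z.ep, z.eP, z.ey, z.em, z.w1q])

theorem ru101 (C : Core2 α R m LF) (k : ℕ) :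
    RuleL.Sem sys (ptS k (8 * 2 ^ R :: vt C)) ⟨false, 27, 1, [(1, 0), (1, 22)], 0, [(1, 3)], 0⟩ := by
  have z := C.zz
  apply rule_lo_s
  simp only [fsV, List.map_cons, List.map_nil, List.sum_cons, List.sum_nil, sysGG, fv0 C, fv3 C, fv22 C, fv27 C]
  push_cast
  linarith only [z.ep, z.eP, z.ey, z.em, z.w1q]

theorem ru102 (C : Core2 α R m LF) (k : ℕ) :
    RuleL.Sem sys (ptS k (8 * 2 ^ R :: vt C)) ⟨true, 27, 1, [(1, 28)], 0, [], 0⟩ := by
  have z := C.zz
  apply rule_hi_s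
  simp only [fsV, List.map_cons, List.map_nil, List.sum_cons, List.sum_nil, sysGG, fv27 C, fv28 C]
  push_cast
  exact le_max_of_le_right (by linarith only [z.ep, z.eP, z.ey, z.em, z.w12])

theorem ru103 (C : Core2 α R m LF) (k : ℕ) :
    RuleL.Sem sys (ptS k (8 * 2 ^ R :: vt C)) ⟨false, 28, 1, [(1, 27)], 0, [], 0⟩ := by
  have z := C.zz
  apply rule_lo_s
  simp only [fsV, List.map_cons, List.map_nil, List.sum_cons, List.sum_nil, sysGG, fv27 C, fv28 C]
  push_cast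
  linarith only [z.ep, z.eP, z.ey, z.em, z.w12]

theorem ru104 (C : Core2 α R m LF) (k : ℕ) :
    RuleL.Sem sys (ptS k (8 * 2 ^ R :: vt C)) ⟨false, 0, 1, [(1, 28)], 0, [], 0⟩ := by
  have z := C.zz
  apply rule_lo_s
  simp only [fsV, List.map_cons, List.map_nil, List.sum_cons, List.sum_nil, sysGG, fv0 C, fv28 C]
  push_cast
  linarith only [z.ep, z.eP, z.ey, z.em, z.w2q]

theorem ru105 (C : Core2 α R m LF) (k : ℕ) :
    RuleL.Sem sys (ptS k (8 * 2 ^ R :: vt C)) ⟨true, 28, 1, [(1, 0)], 0, [], 0⟩ := by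
  have z := C.zz
  apply rule_hi_s
  simp only [fsV, List.map_cons, List.map_nil, List.sum_cons, List.sum_nil, sysGG, fv0 C, fv28 C]
  push_cast
  exact le_max_of_le_right (by linarith only [z.ep, z.eP, z.ey, z.em, z.w2q])

theorem ru106 (C : Core2 α R m LF) (k : ℕ) :
    RuleL.Sem sys (ptS k (8 * 2 ^ R :: vt C)) ⟨true, 1, 1, [(1, 2), (1, 20)], 0, [(1, 24)], 0⟩ := by
  have z := C.zz
  apply rule_hi_s
  simp only [fsV, List.map_cons, List.map_nil, List.sum_cons, List.sum_nil, sysGG, fv1 C, fv2 C, fv20 C, fv24 C]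
  push_cast
  rcases le_total (2 * (C.a : ℤ) - C.P - C.fK) 0 with hzA | hzA
  · rw [max_eq_left hzA]
    exact le_max_of_le_right (by linarith only [z.ep, z.eP, z.ey, z.em, hzA])
  · rw [max_eq_right hzA]
    exact le_max_of_le_right (by linarith only [z.ep, z.eP, z.ey, z.em])

theorem ru107 (C : Core2 α R m LF) (k : ℕ) :
    RuleL.Sem sys (ptS k (8 * 2 ^ R :: vt C)) ⟨false, 2, 1, [(1, 1), (1, 24)], 0, [(1, 20)], 0⟩ := by
  have z := C.zz
  apply rule_lo_s
  simp only [fsV, List.map_cons, List.map_nil, List.sum_cons, List.sum_nil, sysGG, fv1 C, fv2 C, fv20 C, fv24 C]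
  push_cast
  rcases le_total (2 * (C.a : ℤ) - C.P - C.fK) 0 with hzA | hzA
  · rw [max_eq_left hzA]
    linarith only [z.ep, z.eP, z.ey, z.em, hzA]
  · rw [max_eq_right hzA]
    linarith only [z.ep, z.eP, z.ey, z.em]

theorem ru108 (C : Core2 α R m LF) (k : ℕ) :
    RuleL.Sem sys (ptS k (8 * 2 ^ R :: vt C)) ⟨false, 20, 1, [(1, 1), (1, 24)], 0, [(1, 2)], 0⟩ := by
  have z := C.zz
  apply rule_lo_s
  simp only [fsV, List.map_cons, List.map_nil, List.sum_cons, List.sum_nil, sysGG, fv1 C, fv2 C, fv20 C, fv24 C]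
  push_cast
  rcases le_total (2 * (C.a : ℤ) - C.P - C.fK) 0 with hzA | hzA
  · rw [max_eq_left hzA]
    linarith only [z.ep, z.eP, z.ey, z.em, hzA]
  · rw [max_eq_right hzA]
    linarith only [z.ep, z.eP, z.ey, z.em]

theorem ru109 (C : Core2 α R m LF) (k : ℕ) :
    RuleL.Sem sys (ptS k (8 * 2 ^ R :: vt C)) ⟨true, 24, 1, [(1, 2), (1, 20)], 0, [(1, 1)], 0⟩ := by
  have z := C.zz
  apply rule_hi_s
  simp only [fsV, List.map_cons, List.map_nil, List.sum_cons, List.sum_nil, sysGG, fv1 C, fv2 C, fv20 C, fv24 C]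
  push_cast
  rcases le_total (2 * (C.a : ℤ) - C.P - C.fK) 0 with hzA | hzA
  · rw [max_eq_left hzA]
    exact le_max_of_le_right (by linarith only [z.ep, z.eP, z.ey, z.em, hzA])
  · rw [max_eq_right hzA]
    exact le_max_of_le_right (by linarith only [z.ep, z.eP, z.ey, z.em])

theorem ru110 (C : Core2 α R m LF) (k : ℕ) :
    RuleL.Sem sys (ptS k (8 * 2 ^ R :: vt C)) ⟨true, 20, 1, [(1, 1), (1, 24)], 0, [(1, 2)], 0⟩ := by
  have z := C.zz
  apply rule_hi_s
  simp only [fsV, List.map_cons, List.map_nil, List.sum_cons, List.sum_nil, sysGG, fv1 C, fv2 C, fv20 C, fv24 C]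
  push_cast
  rcases le_total (2 * (C.a : ℤ) - C.P - C.fK) 0 with hzA | hzA
  · rw [max_eq_left hzA]
    exact le_max_of_le_left (by norm_num)
  · rw [max_eq_right hzA]
    exact le_max_of_le_right (by linarith only [z.ep, z.eP, z.ey, z.em])

theorem ru111 (C : Core2 α R m LF) (k : ℕ) :
    RuleL.Sem sys (ptS k (8 * 2 ^ R :: vt C)) ⟨true, 5, 1, [(1, 6), (1, 21)], 0, [(1, 26)], 0⟩ := by
  have z := C.zz
  apply rule_hi_s
  simp only [fsV, List.map_cons, List.map_nil, List.sum_cons, List.sum_nil, sysGG, fv5 C, fv6 C, fv21 C, fv26 C]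
  push_cast
  rcases le_total (2 * (C.a2 : ℤ) - C.P2 - C.f3) 0 with hzA2 | hzA2
  · rw [max_eq_left hzA2]
    exact le_max_of_le_right (by linarith only [z.ep, z.eP, z.ey, z.em, hzA2])
  · rw [max_eq_right hzA2]
    exact le_max_of_le_right (by linarith only [z.ep, z.eP, z.ey, z.em])

theorem ru112 (C : Core2 α R m LF) (k : ℕ) :
    RuleL.Sem sys (ptS k (8 * 2 ^ R :: vt C)) ⟨false, 6, 1, [(1, 5), (1, 26)], 0, [(1, 21)], 0⟩ := by
  have z := C.zz
  apply rule_lo_s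
  simp only [fsV, List.map_cons, List.map_nil, List.sum_cons, List.sum_nil, sysGG, fv5 C, fv6 C, fv21 C, fv26 C]
  push_cast
  rcases le_total (2 * (C.a2 : ℤ) - C.P2 - C.f3) 0 with hzA2 | hzA2
  · rw [max_eq_left hzA2]
    linarith only [z.ep, z.eP, z.ey, z.em, hzA2]
  · rw [max_eq_right hzA2]
    linarith only [z.ep, z.eP, z.ey, z.em]

theorem ru113 (C : Core2 α R m LF) (k : ℕ) :
    RuleL.Sem sys (ptS k (8 * 2 ^ R :: vt C)) ⟨false, 21, 1, [(1, 5), (1, 26)], 0, [(1, 6)], 0⟩ := by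
  have z := C.zz
  apply rule_lo_s
  simp only [fsV, List.map_cons, List.map_nil, List.sum_cons, List.sum_nil, sysGG, fv5 C, fv6 C, fv21 C, fv26 C]
  push_cast
  rcases le_total (2 * (C.a2 : ℤ) - C.P2 - C.f3) 0 with hzA2 | hzA2
  · rw [max_eq_left hzA2]
    linarith only [z.ep, z.eP, z.ey, z.em, hzA2]
  · rw [max_eq_right hzA2]
    linarith only [z.ep, z.eP, z.ey, z.em]

theorem ru114 (C : Core2 α R m LF) (k : ℕ) :
    RuleL.Sem sys (ptS k (8 * 2 ^ R :: vt C)) ⟨true, 26, 1, [(1, 6), (1, 21)], 0, [(1, 5)], 0⟩ := by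
  have z := C.zz
  apply rule_hi_s
  simp only [fsV, List.map_cons, List.map_nil, List.sum_cons, List.sum_nil, sysGG, fv5 C, fv6 C, fv21 C, fv26 C]
  push_cast
  rcases le_total (2 * (C.a2 : ℤ) - C.P2 - C.f3) 0 with hzA2 | hzA2
  · rw [max_eq_left hzA2]
    exact le_max_of_le_right (by linarith only [z.ep, z.eP, z.ey, z.em, hzA2])
  · rw [max_eq_right hzA2]
    exact le_max_of_le_right (by linarith only [z.ep, z.eP, z.ey, z.em])

theorem ru115 (C : Core2 α R m LF) (k : ℕ) :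
    RuleL.Sem sys (ptS k (8 * 2 ^ R :: vt C)) ⟨true, 21, 1, [(1, 5), (1, 26)], 0, [(1, 6)], 0⟩ := by
  have z := C.zz
  apply rule_hi_s
  simp only [fsV, List.map_cons, List.map_nil, List.sum_cons, List.sum_nil, sysGG, fv5 C, fv6 C, fv21 C, fv26 C]
  push_cast
  rcases le_total (2 * (C.a2 : ℤ) - C.P2 - C.f3) 0 with hzA2 | hzA2
  · rw [max_eq_left hzA2]
    exact le_max_of_le_left (by norm_num)
  · rw [max_eq_right hzA2]
    exact le_max_of_le_right (by linarith only [z.ep, z.eP, z.ey, z.em])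

theorem ru116 (C : Core2 α R m LF) (k : ℕ) :
    RuleL.Sem sys (ptS k (8 * 2 ^ R :: vt C)) ⟨true, 2, 4, [], 768, [], 0⟩ := by
  have z := C.zz
  apply rule_hi_s
  simp only [fsV, List.map_cons, List.map_nil, List.sum_cons, List.sum_nil, sysGG, fv2 C]
  push_cast
  exact le_max_of_le_right (by linarith only [z.ep, z.eP, z.ey, z.em, z.region])

theorem ru117 (C : Core2 α R m LF) (k : ℕ) :
    RuleL.Sem sys (ptS k (8 * 2 ^ R :: vt C)) ⟨true, 1, 2, [(1, 3)], 0, [], 0⟩ := by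
  have z := C.zz
  apply rule_hi_s
  simp only [fsV, List.map_cons, List.map_nil, List.sum_cons, List.sum_nil, sysGG, fv1 C, fv3 C]
  push_cast
  exact le_max_of_le_right (by linarith only [z.ep, z.eP, z.ey, z.em, z.le2])

theorem ru118 (C : Core2 α R m LF) (k : ℕ) :
    RuleL.Sem sys (ptS k (8 * 2 ^ R :: vt C)) ⟨false, 3, 1, [(2, 1)], 0, [], 0⟩ := by
  have z := C.zz
  apply rule_lo_s
  simp only [fsV, List.map_cons, List.map_nil, List.sum_cons, List.sum_nil, sysGG, fv1 C, fv3 C]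
  push_cast
  linarith only [z.ep, z.eP, z.ey, z.em, z.le2]

theorem ru119 (C : Core2 α R m LF) (k : ℕ) :
    RuleL.Sem sys (ptS k (8 * 2 ^ R :: vt C)) ⟨true, 0, 2, [(1, 4)], 0, [], 0⟩ := by
  have z := C.zz
  apply rule_hi_s
  simp only [fsV, List.map_cons, List.map_nil, List.sum_cons, List.sum_nil, sysGG, fv0 C, fv4 C]
  push_cast
  exact le_max_of_le_right (by linarith only [z.ep, z.eP, z.ey, z.em, z.le1])

theorem ru120 (C : Core2 α R m LF) (k : ℕ) :
    RuleL.Sem sys (ptS k (8 * 2 ^ R :: vt C)) ⟨false, 4, 1, [(2, 0)], 0, [], 0⟩ := by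
  have z := C.zz
  apply rule_lo_s
  simp only [fsV, List.map_cons, List.map_nil, List.sum_cons, List.sum_nil, sysGG, fv0 C, fv4 C]
  push_cast
  linarith only [z.ep, z.eP, z.ey, z.em, z.le1]

theorem ru121 (C : Core2 α R m LF) (k : ℕ) :
    RuleL.Sem sys (ptS k (8 * 2 ^ R :: vt C)) ⟨false, 2, 1, [(2, 5)], 0, [], 0⟩ := by
  have z := C.zz
  apply rule_lo_s
  simp only [fsV, List.map_cons, List.map_nil, List.sum_cons, List.sum_nil, sysGG, fv2 C, fv5 C]
  push_cast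
  linarith only [z.ep, z.eP, z.ey, z.em, z.le3]

theorem ru122 (C : Core2 α R m LF) (k : ℕ) :
    RuleL.Sem sys (ptS k (8 * 2 ^ R :: vt C)) ⟨true, 5, 2, [(1, 2)], 0, [], 0⟩ := by
  have z := C.zz
  apply rule_hi_s
  simp only [fsV, List.map_cons, List.map_nil, List.sum_cons, List.sum_nil, sysGG, fv2 C, fv5 C]
  push_cast
  exact le_max_of_le_right (by linarith only [z.ep, z.eP, z.ey, z.em, z.le3])

theorem ru123 (C : Core2 α R m LF) (k : ℕ) :
    RuleL.Sem sys (ptS k (8 * 2 ^ R :: vt C)) ⟨true, 0, 2, [(1, 4), (1, 29)], 0, [], 512⟩ := by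
  have z := C.zz
  apply rule_hi_s
  simp only [fsV, List.map_cons, List.map_nil, List.sum_cons, List.sum_nil, sysGG, fv0 C, fv4 C, fv29 C]
  push_cast
  exact le_max_of_le_right (by linarith only [z.ep, z.eP, z.ey, z.em])

theorem ru124 (C : Core2 α R m LF) (k : ℕ) :
    RuleL.Sem sys (ptS k (8 * 2 ^ R :: vt C)) ⟨false, 4, 1, [(2, 0)], 512, [(1, 29)], 0⟩ := by
  have z := C.zz
  apply rule_lo_s
  simp only [fsV, List.map_cons, List.map_nil, List.sum_cons, List.sum_nil, sysGG, fv0 C, fv4 C, fv29 C]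
  push_cast
  linarith only [z.ep, z.eP, z.ey, z.em]

theorem ru125 (C : Core2 α R m LF) (k : ℕ) :
    RuleL.Sem sys (ptS k (8 * 2 ^ R :: vt C)) ⟨false, 29, 1, [(2, 0)], 512, [(1, 4)], 0⟩ := by
  have z := C.zz
  apply rule_lo_s
  simp only [fsV, List.map_cons, List.map_nil, List.sum_cons, List.sum_nil, sysGG, fv0 C, fv4 C, fv29 C]
  push_cast
  linarith only [z.ep, z.eP, z.ey, z.em]

theorem ru126 (C : Core2 α R m LF) (k : ℕ) :
    RuleL.Sem sys (ptS k (8 * 2 ^ R :: vt C)) ⟨false, 0, 2, [(1, 4), (1, 29)], 0, [], 512⟩ := by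
  have z := C.zz
  apply rule_lo_s
  simp only [fsV, List.map_cons, List.map_nil, List.sum_cons, List.sum_nil, sysGG, fv0 C, fv4 C, fv29 C]
  push_cast
  linarith only [z.ep, z.eP, z.ey, z.em]

theorem ru127 (C : Core2 α R m LF) (k : ℕ) :
    RuleL.Sem sys (ptS k (8 * 2 ^ R :: vt C)) ⟨true, 4, 1, [(2, 0)], 512, [(1, 29)], 0⟩ := by
  have z := C.zz
  apply rule_hi_s
  simp only [fsV, List.map_cons, List.map_nil, List.sum_cons, List.sum_nil, sysGG, fv0 C, fv4 C, fv29 C]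
  push_cast
  exact le_max_of_le_right (by linarith only [z.ep, z.eP, z.ey, z.em])

theorem ru128 (C : Core2 α R m LF) (k : ℕ) :
    RuleL.Sem sys (ptS k (8 * 2 ^ R :: vt C)) ⟨true, 29, 1, [(2, 0)], 512, [(1, 4)], 0⟩ := by
  have z := C.zz
  apply rule_hi_s
  simp only [fsV, List.map_cons, List.map_nil, List.sum_cons, List.sum_nil, sysGG, fv0 C, fv4 C, fv29 C]
  push_cast
  exact le_max_of_le_right (by linarith only [z.ep, z.eP, z.ey, z.em])

theorem ru129 (C : Core2 α R m LF) (k : ℕ) :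
    RuleL.Sem sys (ptS k (8 * 2 ^ R :: vt C)) ⟨true, 4, 1, [(1, 30)], 256, [], 0⟩ := by
  have z := C.zz
  apply rule_hi_s
  simp only [fsV, List.map_cons, List.map_nil, List.sum_cons, List.sum_nil, sysGG, fv4 C, fv30 C]
  push_cast
  exact le_max_of_le_right (by linarith only [z.ep, z.eP, z.ey, z.em])

theorem ru130 (C : Core2 α R m LF) (k : ℕ) :
    RuleL.Sem sys (ptS k (8 * 2 ^ R :: vt C)) ⟨false, 30, 1, [(1, 4)], 0, [], 256⟩ := by
  have z := C.zz
  apply rule_lo_s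
  simp only [fsV, List.map_cons, List.map_nil, List.sum_cons, List.sum_nil, sysGG, fv4 C, fv30 C]
  push_cast
  linarith only [z.ep, z.eP, z.ey, z.em]

theorem ru131 (C : Core2 α R m LF) (k : ℕ) :
    RuleL.Sem sys (ptS k (8 * 2 ^ R :: vt C)) ⟨false, 4, 1, [(1, 30)], 256, [], 0⟩ := by
  have z := C.zz
  apply rule_lo_s
  simp only [fsV, List.map_cons, List.map_nil, List.sum_cons, List.sum_nil, sysGG, fv4 C, fv30 C]
  push_cast
  linarith only [z.ep, z.eP, z.ey, z.em]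

theorem ru132 (C : Core2 α R m LF) (k : ℕ) :
    RuleL.Sem sys (ptS k (8 * 2 ^ R :: vt C)) ⟨true, 30, 1, [(1, 4)], 0, [], 256⟩ := by
  have z := C.zz
  apply rule_hi_s
  simp only [fsV, List.map_cons, List.map_nil, List.sum_cons, List.sum_nil, sysGG, fv4 C, fv30 C]
  push_cast
  exact le_max_of_le_right (by linarith only [z.ep, z.eP, z.ey, z.em])

theorem rall_nil {P : RuleL → Prop} : ∀ r ∈ ([] : List RuleL), P r := by simp

theorem rall_cons {P : RuleL → Prop} {a : RuleL} {l : List RuleL} (h1 : P a) (h2 : ∀ r ∈ l, P r) :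
    ∀ r ∈ (a :: l), P r := List.forall_mem_cons.mpr ⟨h1, h2⟩

/-- all rules hold -/
theorem rls_sem (C : Core2 α R m LF) (k : ℕ) :
    ∀ r ∈ rls, RuleL.Sem sys (ptS k (8 * 2 ^ R :: vt C)) r := by
  unfold rls
  exact rall_cons (ru0 C k) <|
    rall_cons (ru1 C k) <|
    rall_cons (ru2 C k) <|
    rall_cons (ru3 C k) <|
    rall_cons (ru4 C k) <|
    rall_cons (ru5 C k) <|
    rall_cons (ru6 C k) <|
    rall_cons (ru7 C k) <|
    rall_cons (ru8 C k) <|
    rall_cons (ru9 C k) <|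
    rall_cons (ru10 C k) <|
    rall_cons (ru11 C k) <|
    rall_cons (ru12 C k) <|
    rall_cons (ru13 C k) <|
    rall_cons (ru14 C k) <|
    rall_cons (ru15 C k) <|
    rall_cons (ru16 C k) <|
    rall_cons (ru17 C k) <|
    rall_cons (ru18 C k) <|
    rall_cons (ru19 C k) <|
    rall_cons (ru20 C k) <|
    rall_cons (ru21 C k) <|
    rall_cons (ru22 C k) <|
    rall_cons (ru23 C k) <|
    rall_cons (ru24 C k) <|
    rall_cons (ru25 C k) <|
    rall_cons (ru26 C k) <|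
    rall_cons (ru27 C k) <|
    rall_cons (ru28 C k) <|
    rall_cons (ru29 C k) <|
    rall_cons (ru30 C k) <|
    rall_cons (ru31 C k) <|
    rall_cons (ru32 C k) <|
    rall_cons (ru33 C k) <|
    rall_cons (ru34 C k) <|
    rall_cons (ru35 C k) <|
    rall_cons (ru36 C k) <|
    rall_cons (ru37 C k) <|
    rall_cons (ru38 C k) <|
    rall_cons (ru39 C k) <|
    rall_cons (ru40 C k) <|
    rall_cons (ru41 C k) <|
    rall_cons (ru42 C k) <|
    rall_cons (ru43 C k) <|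
    rall_cons (ru44 C k) <|
    rall_cons (ru45 C k) <|
    rall_cons (ru46 C k) <|
    rall_cons (ru47 C k) <|
    rall_cons (ru48 C k) <|
    rall_cons (ru49 C k) <|
    rall_cons (ru50 C k) <|
    rall_cons (ru51 C k) <|
    rall_cons (ru52 C k) <|
    rall_cons (ru53 C k) <|
    rall_cons (ru54 C k) <|
    rall_cons (ru55 C k) <|
    rall_cons (ru56 C k) <|
    rall_cons (ru57 C k) <|
    rall_cons (ru58 C k) <|
    rall_cons (ru59 C k) <|
    rall_cons (ru60 C k) <|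
    rall_cons (ru61 C k) <|
    rall_cons (ru62 C k) <|
    rall_cons (ru63 C k) <|
    rall_cons (ru64 C k) <|
    rall_cons (ru65 C k) <|
    rall_cons (ru66 C k) <|
    rall_cons (ru67 C k) <|
    rall_cons (ru68 C k) <|
    rall_cons (ru69 C k) <|
    rall_cons (ru70 C k) <|
    rall_cons (ru71 C k) <|
    rall_cons (ru72 C k) <|
    rall_cons (ru73 C k) <|
    rall_cons (ru74 C k) <|
    rall_cons (ru75 C k) <|
    rall_cons (ru76 C k) <|
    rall_cons (ru77 C k) <|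
    rall_cons (ru78 C k) <|
    rall_cons (ru79 C k) <|
    rall_cons (ru80 C k) <|
    rall_cons (ru81 C k) <|
    rall_cons (ru82 C k) <|
    rall_cons (ru83 C k) <|
    rall_cons (ru84 C k) <|
    rall_cons (ru85 C k) <|
    rall_cons (ru86 C k) <|
    rall_cons (ru87 C k) <|
    rall_cons (ru88 C k) <|
    rall_cons (ru89 C k) <|
    rall_cons (ru90 C k) <|
    rall_cons (ru91 C k) <|
    rall_cons (ru92 C k) <|
    rall_cons (ru93 C k) <|
    rall_cons (ru94 C k) <|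
    rall_cons (ru95 C k) <|
    rall_cons (ru96 C k) <|
    rall_cons (ru97 C k) <|
    rall_cons (ru98 C k) <|
    rall_cons (ru99 C k) <|
    rall_cons (ru100 C k) <|
    rall_cons (ru101 C k) <|
    rall_cons (ru102 C k) <|
    rall_cons (ru103 C k) <|
    rall_cons (ru104 C k) <|
    rall_cons (ru105 C k) <|
    rall_cons (ru106 C k) <|
    rall_cons (ru107 C k) <|
    rall_cons (ru108 C k) <|
    rall_cons (ru109 C k) <|
    rall_cons (ru110 C k) <|
    rall_cons (ru111 C k) <|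
    rall_cons (ru112 C k) <|
    rall_cons (ru113 C k) <|
    rall_cons (ru114 C k) <|
    rall_cons (ru115 C k) <|
    rall_cons (ru116 C k) <|
    rall_cons (ru117 C k) <|
    rall_cons (ru118 C k) <|
    rall_cons (ru119 C k) <|
    rall_cons (ru120 C k) <|
    rall_cons (ru121 C k) <|
    rall_cons (ru122 C k) <|
    rall_cons (ru123 C k) <|
    rall_cons (ru124 C k) <|
    rall_cons (ru125 C k) <|
    rall_cons (ru126 C k) <|
    rall_cons (ru127 C k) <|
    rall_cons (ru128 C k) <|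
    rall_cons (ru129 C k) <|
    rall_cons (ru130 C k) <|
    rall_cons (ru131 C k) <|
    rall_cons (ru132 C k) <|
    rall_nil

end Pool.Agent.EdgeIso.Chk.Core2K
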