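import Pool.Agent.Lib.MP_48c8f3_co.Bas
import Pool.Agent.Lib.MP_48c8f3_co.C6G1
import Pool.Agent.Lib.MP_48c8f3_co.C6G2
import Pool.Agent.Lib.MP_48c8f3_co.C6G3
import Pool.Agent.Lib.MP_48c8f3_co.C6G4
import Pool.Agent.Lib.MP_48c8f3_co.C6R
import Pool.Agent.Lib.MP_48c8f3_co.C6E

set_option autoImplicit false
set_option linter.unusedSectionVars false
set_option linter.unusedVariables false

/-!
MP_48c8f3_co: the numbers of the core satisfy the system (machine made).
-/

namespace Pool.Agent.EdgeIso.Chk.Core2K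

open Finset Pool.Agent.EdgeIso.Frame Pool.Agent.EdgeIso.Cell Pool.Agent.EdgeIso.Walsh
  Pool.Agent.EdgeIso.LemmaP

variable {α : Type*} [DecidableEq α] {R m : ℕ} {LF : ℤ}

theorem all_nil {P : ItemL → Prop} : ∀ it ∈ ([] : List ItemL), P it := by simp

theorem all_cons {P : ItemL → Prop} {a : ItemL} {l : List ItemL} (h1 : P a) (h2 : ∀ it ∈ l, P it) :
    ∀ it ∈ (a :: l), P it := List.forall_mem_cons.mpr ⟨h1, h2⟩

theorem lall_nil {P : List ℤ → Prop} : ∀ L ∈ ([] : List (List ℤ)), P L := by simp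

theorem lall_cons {P : List ℤ → Prop} {a : List ℤ} {l : List (List ℤ)} (h1 : P a) (h2 : ∀ L ∈ l, P L) :
    ∀ L ∈ (a :: l), P L := List.forall_mem_cons.mpr ⟨h1, h2⟩

/-- all linear items hold -/
theorem lin_sem (C : Core2 α R m LF) (k : ℕ) :
    ∀ L ∈ sys.lin, 0 ≤ dot L (ptS k (8 * 2 ^ R :: vt C)) := by
  show ∀ L ∈ ([f [(5, -2), (8, 1), (9, -1), (10, -1), (15, -2)],
    f [(6, -2), (9, 1), (11, -1), (12, -1), (16, -2)],
    f [(7, -2), (11, 1), (13, -1), (14, -1), (17, -2)],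
    f [(1, -1), (2, 2), (5, 1)],
    f [(2, -1), (4, 2), (6, 1)],
    f [(1, 1), (5, -1)],
    f [(2, 1), (6, -1)],
    f [(4, 1), (7, -1)],
    f [(2, -1), (3, 1), (4, 1)],
    f [(3, 1), (4, -1)],
    f [(1, -1), (2, 1), (3, 1), (4, 1)],
    f [(0, 2), (2, -1), (3, -1), (4, -1), (5, -1)],
    f [(0, 1), (3, -1), (4, -1), (6, -1)],
    f [(0, 1), (3, -2), (7, -2)],
    f [(0, 2), (1, -1), (2, -1), (3, -1), (4, -1)],
    f [(0, -1), (1, 1), (2, 1), (3, 1), (4, 1)],
    f [(0, 3), (3, -4), (4, -4)],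
    f [(2, 1), (3, 1), (4, 1), (24, -1)],
    f [(18, 1), (24, -1)],
    f [(24, -1), (28, 1)],
    f [(6, 1), (24, -1), (26, 2)],
    f [(2, -1), (3, 1), (4, 1), (6, 1), (21, 2), (24, -1)],
    f [(2, 1), (3, 1), (4, 1), (25, -1)],
    f [(1, -1), (2, 1), (3, 1), (4, 1), (18, 2), (25, -2)],
    f [(2, 1), (25, -1), (26, 1)],
    f [(3, 1), (4, 1), (21, 1), (25, -1)],
    f [(6, 1), (25, -1), (27, 2)],
    f [(2, -1), (3, 1), (4, 1), (6, 1), (25, -1), (29, 2)],
    f [(3, 1), (4, 1), (26, -1)],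
    f [(26, -1), (33, 1)],
    f [(26, -1), (32, 1)],
    f [(7, 1), (26, -1), (30, 2)],
    f [(3, 1), (4, -1), (7, 1), (26, -1), (31, 2)],
    f [(3, 1), (4, 1), (27, -1)],
    f [(4, 1), (27, -1), (30, 1)],
    f [(3, 1), (27, -1), (31, 1)],
    f [(2, 1), (29, -1)],
    f [(2, 1), (28, -1)],
    f [(3, 1), (30, -1)],
    f [(4, 1), (31, -1)],
    f [(4, 1), (33, -1)],
    f [(3, 1), (32, -1)],
    f [(1, 1), (8, -1), (24, 1), (38, -1)],
    f [(5, 1), (8, -1), (25, 2), (38, -1)],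
    f [(1, -1), (2, 1), (3, 1), (4, 1), (5, 1), (8, -1), (19, 2), (38, -1)],
    f [(2, 1), (3, 1), (4, 1), (8, -1), (19, 1), (38, -1)],
    f [(1, 1), (38, -1)],
    f [(2, -2), (3, 1), (4, 1), (6, 1), (34, 1)],
    f [(3, 1), (4, -2), (7, 1), (35, 1)],
    f [(36, -1), (37, 1)],
    f [(1, -2), (2, 1), (3, 1), (4, 1), (5, 1), (36, 2)],
    f [(1, -10), (2, 4), (3, 4), (4, 4), (5, 6), (9, 1), (36, 8), (37, 6)],
    f [(1, 1), (37, -2)],
    f [(9, 1), (18, -1)],
    f [(10, 1), (19, -1)],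
    f [(11, 1), (20, -1)],
    f [(12, 1), (21, -1)],
    f [(13, 1), (22, -1)],
    f [(14, 1), (23, -1)],
    f [(2, 1), (3, 1), (4, 1), (18, -1)],
    f [(1, 1), (19, -1)],
    f [(3, 1), (4, 1), (20, -1)],
    f [(2, 1), (21, -1)],
    f [(3, 1), (22, -1)],
    f [(4, 1), (23, -1)],
    f [(0, 1), (1, -1)],
    f [(0, 1), (2, -1)],
    f [(0, 1), (3, -1)],
    f [(0, 1), (4, -1)],
    f [(0, 1), (5, -1)],
    f [(0, 1), (6, -1)],
    f [(0, 1), (7, -1)],
    f [(0, 4), (8, -1)],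
    f [(0, 4), (9, -1)],
    f [(0, 4), (10, -1)],
    f [(0, 4), (11, -1)],
    f [(0, 4), (12, -1)],
    f [(0, 4), (13, -1)],
    f [(0, 4), (14, -1)],
    f [(0, 2), (15, -1)],
    f [(0, 2), (16, -1)],
    f [(0, 2), (17, -1)],
    f [(0, 2), (18, -1)],
    f [(0, 1), (19, -1)],
    f [(0, 1), (20, -1)],
    f [(0, 1), (21, -1)],
    f [(0, 1), (22, -1)],
    f [(0, 1), (23, -1)],
    f [(0, 2), (24, -1)],
    f [(0, 2), (25, -1)],
    f [(0, 1), (26, -1)],
    f [(0, 1), (27, -1)],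
    f [(0, 1), (28, -1)],
    f [(0, 1), (29, -1)],
    f [(0, 1), (30, -1)],
    f [(0, 1), (31, -1)],
    f [(0, 1), (32, -1)],
    f [(0, 1), (33, -1)],
    f [(0, 1), (34, -1)],
    f [(0, 1), (35, -1)],
    f [(0, 1), (36, -1)],
    f [(0, 1), (37, -1)],
    f [(0, 1), (38, -1)]] : List (List ℤ)), 0 ≤ dot L (ptS k (8 * 2 ^ R :: vt C))
  exact lall_cons (li0 C k) <|
    lall_cons (li1 C k) <|
    lall_cons (li2 C k) <|
    lall_cons (li3 C k) <|
    lall_cons (li4 C k) <|
    lall_cons (li5 C k) <|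
    lall_cons (li6 C k) <|
    lall_cons (li7 C k) <|
    lall_cons (li8 C k) <|
    lall_cons (li9 C k) <|
    lall_cons (li10 C k) <|
    lall_cons (li11 C k) <|
    lall_cons (li12 C k) <|
    lall_cons (li13 C k) <|
    lall_cons (li14 C k) <|
    lall_cons (li15 C k) <|
    lall_cons (li16 C k) <|
    lall_cons (li17 C k) <|
    lall_cons (li18 C k) <|
    lall_cons (li19 C k) <|
    lall_cons (li20 C k) <|
    lall_cons (li21 C k) <|
    lall_cons (li22 C k) <|
    lall_cons (li23 C k) <|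
    lall_cons (li24 C k) <|
    lall_cons (li25 C k) <|
    lall_cons (li26 C k) <|
    lall_cons (li27 C k) <|
    lall_cons (li28 C k) <|
    lall_cons (li29 C k) <|
    lall_cons (li30 C k) <|
    lall_cons (li31 C k) <|
    lall_cons (li32 C k) <|
    lall_cons (li33 C k) <|
    lall_cons (li34 C k) <|
    lall_cons (li35 C k) <|
    lall_cons (li36 C k) <|
    lall_cons (li37 C k) <|
    lall_cons (li38 C k) <|
    lall_cons (li39 C k) <|
    lall_cons (li40 C k) <|
    lall_cons (li41 C k) <|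
    lall_cons (li42 C k) <|
    lall_cons (li43 C k) <|
    lall_cons (li44 C k) <|
    lall_cons (li45 C k) <|
    lall_cons (li46 C k) <|
    lall_cons (li47 C k) <|
    lall_cons (li48 C k) <|
    lall_cons (li49 C k) <|
    lall_cons (li50 C k) <|
    lall_cons (li51 C k) <|
    lall_cons (li52 C k) <|
    lall_cons (li53 C k) <|
    lall_cons (li54 C k) <|
    lall_cons (li55 C k) <|
    lall_cons (li56 C k) <|
    lall_cons (li57 C k) <|
    lall_cons (li58 C k) <|
    lall_cons (li59 C k) <|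
    lall_cons (li60 C k) <|
    lall_cons (li61 C k) <|
    lall_cons (li62 C k) <|
    lall_cons (li63 C k) <|
    lall_cons (li64 C k) <|
    lall_cons (li65 C k) <|
    lall_cons (li66 C k) <|
    lall_cons (li67 C k) <|
    lall_cons (li68 C k) <|
    lall_cons (li69 C k) <|
    lall_cons (li70 C k) <|
    lall_cons (li71 C k) <|
    lall_cons (li72 C k) <|
    lall_cons (li73 C k) <|
    lall_cons (li74 C k) <|
    lall_cons (li75 C k) <|
    lall_cons (li76 C k) <|
    lall_cons (li77 C k) <|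
    lall_cons (li78 C k) <|
    lall_cons (li79 C k) <|
    lall_cons (li80 C k) <|
    lall_cons (li81 C k) <|
    lall_cons (li82 C k) <|
    lall_cons (li83 C k) <|
    lall_cons (li84 C k) <|
    lall_cons (li85 C k) <|
    lall_cons (li86 C k) <|
    lall_cons (li87 C k) <|
    lall_cons (li88 C k) <|
    lall_cons (li89 C k) <|
    lall_cons (li90 C k) <|
    lall_cons (li91 C k) <|
    lall_cons (li92 C k) <|
    lall_cons (li93 C k) <|
    lall_cons (li94 C k) <|
    lall_cons (li95 C k) <|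
    lall_cons (li96 C k) <|
    lall_cons (li97 C k) <|
    lall_cons (li98 C k) <|
    lall_cons (li99 C k) <|
    lall_cons (li100 C k) <|
    lall_cons (li101 C k) <|
    lall_cons (li102 C k) <|
    lall_nil

/-- all items hold -/
theorem its_sem (C : Core2 α R m LF) (T : Tabs α) {k : ℕ} (hR : 5 ≤ k + R) :
    ∀ it ∈ its, it.Sem sys (ptS k (8 * 2 ^ R :: vt C)) := by
  unfold its
  exact all_cons (it0 C k) <|
    all_cons (it1 C k) <|
    all_cons (it2 C k) <|
    all_cons (it3 C k) <|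
    all_cons (it4 C k) <|
    all_cons (it5 C k) <|
    all_cons (it6 C k) <|
    all_cons (it7 C k) <|
    all_cons (it8 C k) <|
    all_cons (it9 C k) <|
    all_cons (it10 C k) <|
    all_cons (it11 C k) <|
    all_cons (it12 C k) <|
    all_cons (it13 C k) <|
    all_cons (it14 C k) <|
    all_cons (it15 C k) <|
    all_cons (it16 C k hR T.dgt) <|
    all_cons (it17 C k hR T.dgt) <|
    all_cons (it18 C k hR T.dgt) <|
    all_cons (it19 C k T) <|
    all_cons (it20 C k T) <|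
    all_cons (it21 C k T) <|
    all_cons (it22 C k T) <|
    all_cons (it23 C k T) <|
    all_cons (it24 C k T) <|
    all_cons (it25 C k T) <|
    all_cons (it26 C k T) <|
    all_cons (it27 C k T) <|
    all_cons (it28 C k T) <|
    all_cons (it29 C k T) <|
    all_cons (it30 C k T) <|
    all_cons (it31 C k T) <|
    all_cons (it32 C k T) <|
    all_cons (it33 C k T) <|
    all_cons (it34 C k T) <|
    all_cons (it35 C k T) <|
    all_cons (it36 C k T) <|
    all_cons (it37 C k T) <|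
    all_cons (it38 C k T) <|
    all_cons (it39 C k T) <|
    all_cons (it40 C k T) <|
    all_cons (it41 C k T) <|
    all_cons (it42 C k T) <|
    all_cons (it43 C k T) <|
    all_cons (it44 C k T) <|
    all_cons (it45 C k T) <|
    all_cons (it46 C k T) <|
    all_cons (it47 C k T) <|
    all_cons (it48 C k T) <|
    all_cons (it49 C k T) <|
    all_cons (it50 C k T) <|
    all_cons (it51 C k T) <|
    all_cons (it52 C k T) <|
    all_cons (it53 C k T) <|
    all_cons (it54 C k T) <|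
    all_cons (it55 C k T) <|
    all_cons (it56 C k T) <|
    all_cons (it57 C k T) <|
    all_cons (it58 C k T) <|
    all_cons (it59 C k T) <|
    all_cons (it60 C k T) <|
    all_cons (it61 C k T) <|
    all_cons (it62 C k T) <|
    all_cons (it63 C k T) <|
    all_cons (it64 C k T) <|
    all_cons (it65 C k T) <|
    all_cons (it66 C k T) <|
    all_cons (it67 C k T) <|
    all_cons (it68 C k T) <|
    all_cons (it69 C k T) <|
    all_cons (it70 C k T) <|
    all_cons (it71 C k T) <|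
    all_cons (it72 C k) <|
    all_cons (it73 C k) <|
    all_cons (it74 C k) <|
    all_cons (it75 C k) <|
    all_cons (it76 C k) <|
    all_nil

theorem nonneg_vt (C : Core2 α R m LF) : ∀ v ∈ (8 * 2 ^ R :: vt C), (0 : ℤ) ≤ v := by
  have z := C.zz
  have c1 := C.LF0
  have c2 := C.LK0
  have c3 := C.LW0
  have c4 := C.LP0
  have c5 := C.LA0
  have c6 := C.LP20
  have c7 := C.LA20
  have d1 := dg_nonneg C.p C.q
  have d2 := dg_nonneg C.P C.a
  have d3 := dg_nonneg C.P2 C.a2
  have m1 := le_max_left (0 : ℤ) (2 * (C.a : ℤ) - C.P - C.fK)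
  have m2 := le_max_left (0 : ℤ) (2 * (C.a2 : ℤ) - C.P2 - C.f3)
  simp only [List.mem_cons, forall_eq_or_imp, List.not_mem_nil, IsEmpty.forall_iff, implies_true,
    and_true]
  refine ⟨?_, ?_, ?_, ?_, ?_, ?_, ?_, ?_, ?_, ?_, ?_, ?_, ?_, ?_, ?_, ?_, ?_, ?_, ?_, ?_, ?_, ?_, ?_, ?_, ?_, ?_, ?_, ?_, ?_, ?_, ?_, ?_, ?_, ?_, ?_, ?_, ?_, ?_, ?_⟩ <;> positivity

/-- the point is admissible -/
theorem core_cst (C : Core2 α R m LF) (k : ℕ) :
    (∀ i, 0 ≤ ptS k (8 * 2 ^ R :: vt C) i) ∧ 0 < ptS k (8 * 2 ^ R :: vt C) 0 ∧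
      0 < dot sys.fin (ptS k (8 * 2 ^ R :: vt C)) := by
  refine ⟨ptS_nonneg (nonneg_vt C), ?_, ?_⟩
  · show (0 : ℤ) < 2 ^ k * (8 * 2 ^ R)
    positivity
  · have hU : (0 : ℤ) < 2 ^ R := by positivity
    have h0 : dotV sys.fin (8 * 2 ^ R :: vt C) = ((1 * (4) + (0) : ℤ)) := dotV_of_sd 39 _ _ _ rfl rfl
    rw [dot_ptS, h0]
    apply mul_pos (by positivity)
    linarith only [hU]

/-- the certificate contradicts the core -/
theorem core_sound {Cc : Cst} (hC : Cc = sys.cst) {tr : IT} {Tt : FT}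
    (hT : Tt = tr.run (its.map (ItemL.run sys Cc))) {trr : IT} {Rr : RT}
    (hR : Rr = trr.runR (grps.map (grp (rls.map RuleL.run)))) {st : ℕ} (hst : st = mkst bds0)
    (ht : Cl Cc Tt Rr st) (T : Tabs α) (C : Core2 α R m LF) : False :=
  sys_sound (S := sys) (by decide) hex (by decide) hfin
    hlin (its := its) hwf hC hT (rls := rls) (by decide +kernel)
    (grps := grps) hR (bds := bds0) (by decide +kernel) hst ht (core_cst C 5).1 (core_cst C 5).2.1
    (core_cst C 5).2.2 (lin_sem C 5) (its_sem C T (by omega)) (rls_sem C 5) (bds_ok C 5)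

end Pool.Agent.EdgeIso.Chk.Core2K
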