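import Pool.Agent.Lib.MP_48c8f3_co.Bas
import Pool.Agent.Lib.MP_48c8f3_co.CellX
import Pool.Agent.Lib.MP_48c8f3_co.CellJ
import Pool.Agent.Lib.MP_48c8f3_co.CellC

set_option autoImplicit false

/-!
MP_48c8f3_co, cells, part Y: the checker for the rows of the array `B` (evaluated by the kernel).
-/

namespace Pool.Agent.EdgeIso.Cell

open Finset Pool.Agent.EdgeIso.Frame

/-- the penalty factor -/
def cpN (r c b : ℕ) : ℕ := bif Nat.beq b 0 then 0 else r * c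

theorem cpN_cast (r c b : ℕ) : ((cpN r c b : ℕ) : ℤ) = cP r c b := by
  unfold cpN cP
  rcases Nat.eq_zero_or_pos b with h | h
  · subst h
    simp
  · have h1 : Nat.beq b 0 = false := by
      cases b with
      | zero => omega
      | succ n => rfl
    rw [h1, if_neg (by omega)]
    simp

/-- the check of one corner; `x = ρ β` -/
def corY (ρ c : ℕ) (G : ℕ → ℕ) (i b0 b1 cK cW : ℕ) (κ : Bool) (bK bW x φ p q tk tw : ℕ) : Bool :=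
  Nat.ble ((ρ * (i + 1) - (p + q)) * b0 + ((p + q) - ρ * i) * b1 +
      (cK * (bif κ then 2 * bK + 2 * q - 2 * x else 2 * bK + φ - x) +
        cW * (2 * bW + φ + p - (x + q))) + 2 * c * (G p + G q + min p q))
    (tk + tw + 2 * c * (G (p + q) + φ))

/-- the check of the three corners of one cell for one `φ` -/
def phiY (ρ c : ℕ) (G : ℕ → ℕ) (i b0 b1 cK cW : ℕ) (κ : Bool) (bK bW x φ iK iW cy k0 k1 w0 w1 : ℕ) :
    Bool :=
  corY ρ c G i b0 b1 cK cW κ bK bW x φ (iK + cy) (iW + cy) (bif Nat.beq cy 0 then k0 else k1)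
      (bif Nat.beq cy 0 then w0 else w1) &&
    (corY ρ c G i b0 b1 cK cW κ bK bW x φ (iK + 1) iW k1 w0 &&
      corY ρ c G i b0 b1 cK cW κ bK bW x φ iK (iW + 1) k0 w1)

/-- the check of one interval for one choice -/
def intY (ρ c rB : ℕ) (G : ℕ → ℕ) (R : ℕ → ℕ) (TK TW : ℕ → ℕ → ℕ → ℕ) (i b0 b1 x x1 x2 iK iW cy : ℕ)
    (tK tW : ℕ) (κ : Bool) (bK bW : ℕ) : Bool :=
  (fun cK cW => Nat.ble ((bif κ then 2 else 1) * cK + cW) (2 * rB * c) &&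
    (fun k0 k1 w0 w1 => phiY ρ c G i b0 b1 cK cW κ bK bW x x1 iK iW cy k0 k1 w0 w1 &&
      phiY ρ c G i b0 b1 cK cW κ bK bW x x2 iK iW cy k0 k1 w0 w1)
    (TK tK iK bK) (TK tK (iK + 1) bK) (TW tW iW bW) (TW tW (iW + 1) bW))
  (cpN (R tK) c bK) (cpN (R tW) c bW)

/-- the search for one interval -/
def srchY (ρ c rB : ℕ) (G : ℕ → ℕ) (R : ℕ → ℕ) (TK TW : ℕ → ℕ → ℕ → ℕ) (i b0 b1 x x1 x2 iK iW cy : ℕ)
    (cd : ℕ → ℕ → ℕ → ℕ → ℕ → List (ℕ × ℕ × Bool × ℕ × ℕ)) : Bool :=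
  (cd iK iW cy x1 x2).any fun t =>
    intY ρ c rB G R TK TW i b0 b1 x x1 x2 iK iW cy t.1 t.2.1 t.2.2.1 t.2.2.2.1 t.2.2.2.2

/-- the intervals `[w j, w (j + 1)]` one after the other, until the tables are not needed -/
def goY (ρ c rB w : ℕ) (G : ℕ → ℕ) (R : ℕ → ℕ) (TK TW : ℕ → ℕ → ℕ → ℕ) (i b0 b1 x iK iW cy : ℕ)
    (cd : ℕ → ℕ → ℕ → ℕ → ℕ → List (ℕ × ℕ × Bool × ℕ × ℕ)) : ℕ → ℕ → Bool
  | 0, _ => false
  | n + 1, j => phiY ρ c G i b0 b1 0 0 false 0 0 x (w * j) iK iW cy 0 0 0 0 ||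
      (srchY ρ c rB G R TK TW i b0 b1 x (w * j) (w * (j + 1)) iK iW cy cd &&
        goY ρ c rB w G R TK TW i b0 b1 x iK iW cy cd n (j + 1))

/-- the check of one cell -/
def cellY (ρ c rB w fuel : ℕ) (G : ℕ → ℕ) (R : ℕ → ℕ) (TK TW : ℕ → ℕ → ℕ → ℕ) (b : ℕ → ℕ)
    (x iK iW cy : ℕ) (cd : ℕ → ℕ → ℕ → ℕ → ℕ → List (ℕ × ℕ × Bool × ℕ × ℕ)) : Bool :=
  (fun i => (fun b0 b1 => goY ρ c rB w G R TK TW i b0 b1 x iK iW cy cd fuel 0) (b i) (b (i + 1)))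
    ((iK + iW + cy) / ρ)

theorem corY_sound {ρ c rK rW : ℕ} {G : ℕ → ℕ} {TK TW : ℕ → ℕ → ℕ} {b : ℕ → ℕ} {κ : Bool}
    {i bK bW β φ p q : ℕ} (hG : ∀ m, m ≤ p + q → G m = EdgeIso.g m) (h1 : ρ * i ≤ p + q)
    (h2 : p + q ≤ ρ * (i + 1))
    (h : corY ρ c G i (b i) (b (i + 1)) (cpN rK c bK) (cpN rW c bW) κ bK bW (ρ * β) φ p q
      (TK p bK) (TW q bW) = true) :
    ρ * ((b i : ℕ) : ℤ) + (((b (i + 1) : ℕ) : ℤ) - (b i : ℕ)) * ((p : ℤ) + q - ρ * (i : ℕ)) ≤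
      2 * c * dg p q + 2 * c * φ + (TK p bK : ℕ) -
        cP rK c bK * max 0 (2 * (bK : ℤ) - argK κ (ρ * β) q φ) + (TW q bW : ℕ) -
        cP rW c bW * max 0 (2 * (bW : ℤ) - ((ρ : ℤ) * β + q - p - φ)) := by
  unfold corY at h
  have h3 := Int.ofNat_le.mpr (Nat.le_of_ble_eq_true h)
  rw [hG p (by omega), hG q (by omega), hG (p + q) le_rfl] at h3
  have e1 : ((ρ * (i + 1) - (p + q) : ℕ) : ℤ) = ρ * (i + 1) - (p + q) := by
    push_cast [h2]; rfl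
  have e2 : (((p + q) - ρ * i : ℕ) : ℤ) = (p + q) - ρ * i := by
    push_cast [h1]; rfl
  have e3 : (((bif κ then 2 * bK + 2 * q - 2 * (ρ * β) else 2 * bK + φ - ρ * β) : ℕ) : ℤ) =
      max 0 (2 * (bK : ℤ) - argK κ (ρ * β) q φ) := by
    generalize hx : ρ * β = x
    have hx' : (ρ : ℤ) * β = x := by exact_mod_cast hx
    rw [hx']
    unfold argK
    cases κ
    · simp only [cond_false, Bool.false_eq_true, if_false]
      omega
    · simp only [cond_true, if_true]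
      omega
  have e4 : ((2 * bW + φ + p - (ρ * β + q) : ℕ) : ℤ) =
      max 0 (2 * (bW : ℤ) - ((ρ : ℤ) * β + q - p - φ)) := by
    generalize hx : ρ * β = x
    have hx' : (ρ : ℤ) * β = x := by exact_mod_cast hx
    rw [hx']
    omega
  rw [Nat.cast_add, Nat.cast_add, Nat.cast_add, Nat.cast_add, Nat.cast_mul, Nat.cast_mul, e1, e2,
    Nat.cast_mul (cpN rK c bK), Nat.cast_mul (cpN rW c bW), e3, e4, cpN_cast, cpN_cast] at h3
  unfold dg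
  push_cast at h3 ⊢
  linarith

theorem phiY_sound {ρ c rK rW : ℕ} {G : ℕ → ℕ} {TK TW : ℕ → ℕ → ℕ} {b : ℕ → ℕ} {κ : Bool}
    {bK bW β φ iK iW cy : ℕ} (hρ : 0 < ρ) (hcy : cy ≤ 1)
    (hG : ∀ m, m ≤ iK + iW + cy + 1 → G m = EdgeIso.g m)
    (h : phiY ρ c G ((iK + iW + cy) / ρ) (b ((iK + iW + cy) / ρ)) (b ((iK + iW + cy) / ρ + 1))
      (cpN rK c bK) (cpN rW c bW) κ bK bW (ρ * β) φ iK iW cy (TK iK bK) (TK (iK + 1) bK)
      (TW iW bW) (TW (iW + 1) bW) = true) :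
    CornB ρ c rK rW (fun i β => ((TK i β : ℕ) : ℤ)) (fun i β => ((TW i β : ℕ) : ℤ))
      (fun i _ => ((b i : ℕ) : ℤ)) κ iK iW cy β bK bW φ := by
  intro p q h1 h2 h3 h4 h5 h6
  have hi0 : ρ * ((iK + iW + cy) / ρ) ≤ iK + iW + cy := Nat.mul_div_le _ _
  have hi1 : iK + iW + cy + 1 ≤ ρ * ((iK + iW + cy) / ρ + 1) := Nat.lt_mul_div_succ _ hρ
  unfold phiY at h
  rw [Bool.and_eq_true, Bool.and_eq_true] at h
  obtain ⟨ha, hb, hc⟩ := h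
  have hcase : (p = iK + cy ∧ q = iW + cy) ∨ (p = iK + 1 ∧ q = iW) ∨ (p = iK ∧ q = iW + 1) := by
    omega
  rcases hcase with ⟨hp, hq⟩ | ⟨hp, hq⟩ | ⟨hp, hq⟩
  · subst hp hq
    refine corY_sound (fun m hm => hG m (by omega)) (by omega) (by omega) ?_
    have hcy' : cy = 0 ∨ cy = 1 := by omega
    rcases hcy' with h7 | h7
    · subst h7
      exact ha
    · subst h7
      exact ha
  · subst hp hq
    exact corY_sound (fun m hm => hG m (by omega)) (by omega) (by omega) hb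
  · subst hp hq
    exact corY_sound (fun m hm => hG m (by omega)) (by omega) (by omega) hc

theorem intY_sound {ρ c rB : ℕ} {G : ℕ → ℕ} {R : ℕ → ℕ} {TK TW : ℕ → ℕ → ℕ → ℕ} {b : ℕ → ℕ}
    {β x1 x2 iK iW cy : ℕ} {tK tW : ℕ} {κ : Bool} {bK bW : ℕ} (hρ : 0 < ρ) (hcy : cy ≤ 1)
    (hG : ∀ m, m ≤ iK + iW + cy + 1 → G m = EdgeIso.g m)
    (h : intY ρ c rB G R TK TW ((iK + iW + cy) / ρ) (b ((iK + iW + cy) / ρ))
      (b ((iK + iW + cy) / ρ + 1)) (ρ * β) x1 x2 iK iW cy tK tW κ bK bW = true) :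
    IntB ρ c rB R (fun t i β => ((TK t i β : ℕ) : ℤ)) (fun t i β => ((TW t i β : ℕ) : ℤ))
      (fun i _ => ((b i : ℕ) : ℤ)) iK iW cy β x1 x2 := by
  unfold intY at h
  rw [Bool.and_eq_true, Bool.and_eq_true] at h
  obtain ⟨h0, h1, h2⟩ := h
  refine ⟨tK, tW, κ, bK, bW, ?_, ?_, ?_⟩
  · have h3 := Int.ofNat_le.mpr (Nat.le_of_ble_eq_true h0)
    rw [← cpN_cast, ← cpN_cast]
    cases κ
    · simp only [cond_false] at h3
      push_cast at h3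
      simpa using h3
    · simp only [cond_true] at h3
      push_cast at h3
      simpa using h3
  · exact phiY_sound (TK := TK tK) (TW := TW tW) hρ hcy hG h1
  · exact phiY_sound (TK := TK tK) (TW := TW tW) hρ hcy hG h2

theorem srchY_sound {ρ c rB : ℕ} {G : ℕ → ℕ} {R : ℕ → ℕ} {TK TW : ℕ → ℕ → ℕ → ℕ} {b : ℕ → ℕ}
    {β x1 x2 iK iW cy : ℕ} {cd : ℕ → ℕ → ℕ → ℕ → ℕ → List (ℕ × ℕ × Bool × ℕ × ℕ)}
    (hρ : 0 < ρ) (hcy : cy ≤ 1) (hG : ∀ m, m ≤ iK + iW + cy + 1 → G m = EdgeIso.g m)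
    (h : srchY ρ c rB G R TK TW ((iK + iW + cy) / ρ) (b ((iK + iW + cy) / ρ))
      (b ((iK + iW + cy) / ρ + 1)) (ρ * β) x1 x2 iK iW cy cd = true) :
    IntB ρ c rB R (fun t i β => ((TK t i β : ℕ) : ℤ)) (fun t i β => ((TW t i β : ℕ) : ℤ))
      (fun i _ => ((b i : ℕ) : ℤ)) iK iW cy β x1 x2 := by
  unfold srchY at h
  rw [List.any_eq_true] at h
  obtain ⟨t, -, ht⟩ := h
  exact intY_sound hρ hcy hG ht

theorem goY_sound {ρ c rB w : ℕ} {G : ℕ → ℕ} {R : ℕ → ℕ} {TK TW : ℕ → ℕ → ℕ → ℕ} {b : ℕ → ℕ}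
    {β iK iW cy : ℕ} {cd : ℕ → ℕ → ℕ → ℕ → ℕ → List (ℕ × ℕ × Bool × ℕ × ℕ)}
    (hρ : 0 < ρ) (hcy : cy ≤ 1) (hG : ∀ m, m ≤ iK + iW + cy + 1 → G m = EdgeIso.g m) :
    ∀ n j, goY ρ c rB w G R TK TW ((iK + iW + cy) / ρ) (b ((iK + iW + cy) / ρ))
      (b ((iK + iW + cy) / ρ + 1)) (ρ * β) iK iW cy cd n j = true →
    ∃ J, j ≤ J ∧ (∀ l, j ≤ l → l < J →
      IntB ρ c rB R (fun t i β => ((TK t i β : ℕ) : ℤ)) (fun t i β => ((TW t i β : ℕ) : ℤ))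
        (fun i _ => ((b i : ℕ) : ℤ)) iK iW cy β (w * l) (w * (l + 1))) ∧
      CornB ρ c 0 0 ZT ZT (fun i _ => ((b i : ℕ) : ℤ)) false iK iW cy β 0 0 (w * J) := by
  intro n
  induction n with
  | zero =>
    intro j h
    simp [goY] at h
  | succ n ih =>
    intro j h
    rw [goY, Bool.or_eq_true, Bool.and_eq_true] at h
    rcases h with h | ⟨h1, h2⟩
    · refine ⟨j, le_rfl, fun l h3 h4 => by omega, ?_⟩
      have h5 := phiY_sound (rK := 0) (rW := 0) (TK := fun _ _ => 0) (TW := fun _ _ => 0) (b := b)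
        (κ := false) (bK := 0) (bW := 0) (β := β) (φ := w * j) hρ hcy hG (by
          have e : cpN 0 c 0 = 0 := by simp [cpN]
          rw [e]
          exact h)
      exact h5
    · obtain ⟨J, h3, h4, h5⟩ := ih (j + 1) h2
      refine ⟨J, by omega, fun l h6 h7 => ?_, h5⟩
      rcases Nat.eq_or_lt_of_le h6 with h8 | h8
      · rw [← h8]
        exact srchY_sound hρ hcy hG h1
      · exact h4 l h8 h7

theorem cellY_sound {ρ c rB w fuel : ℕ} {G : ℕ → ℕ} {R : ℕ → ℕ} {TK TW : ℕ → ℕ → ℕ → ℕ}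
    {b : ℕ → ℕ} {β iK iW cy : ℕ} {cd : ℕ → ℕ → ℕ → ℕ → ℕ → List (ℕ × ℕ × Bool × ℕ × ℕ)}
    (hρ : 0 < ρ) (hcy : cy ≤ 1) (hG : ∀ m, m ≤ iK + iW + cy + 1 → G m = EdgeIso.g m)
    (h : cellY ρ c rB w fuel G R TK TW b (ρ * β) iK iW cy cd = true) :
    StepB ρ c rB R (fun t i β => ((TK t i β : ℕ) : ℤ)) (fun t i β => ((TW t i β : ℕ) : ℤ))
        (fun i _ => ((b i : ℕ) : ℤ)) iK iW cy β := by
  unfold cellY at h
  obtain ⟨J, -, h1, h2⟩ := goY_sound hρ hcy hG fuel 0 h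
  exact ⟨w, J, fun j hj => h1 j (Nat.zero_le _) hj, h2⟩

/-- where the row is zero nothing has to be checked -/
theorem stepB_zero {ι : Type*} {ρ c rB : ℕ} {R : ι → ℕ} {TK TW : ι → ℕ → ℕ → ℤ} {b : ℕ → ℤ}
    {iK iW cy β : ℕ} (h0 : b ((iK + iW + cy) / ρ) = 0) (h1 : b ((iK + iW + cy) / ρ + 1) = 0) :
    StepB ρ c rB R TK TW (fun i _ => b i) iK iW cy β := by
  refine ⟨0, 0, fun j hj => by omega, ?_⟩
  intro p q _ _ _ _ _ _
  simp only [h0, h1]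
  have := dg_nonneg p q
  have hcP : cP 0 c 0 = 0 := by simp [cP]
  simp only [ZT, hcP]
  have h2 : (0 : ℤ) ≤ 2 * c * dg p q := by positivity
  simp only [mul_zero, Nat.cast_zero, sub_self, zero_mul, add_zero, sub_zero]
  linarith

/-- the cells with total in `[ρ i0, ρ (i0 + m))` -/
def rowY (ρ c rB w fuel : ℕ) (G : ℕ → ℕ) (R : ℕ → ℕ) (TK TW : ℕ → ℕ → ℕ → ℕ) (b : ℕ → ℕ)
    (x i0 m : ℕ) (cd : ℕ → ℕ → ℕ → ℕ → ℕ → List (ℕ × ℕ × Bool × ℕ × ℕ)) : Bool :=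
  allB (fun d => allB (fun iW =>
    (Nat.blt (ρ * i0 + d) (iW + iW) ||
      cellY ρ c rB w fuel G R TK TW b x (ρ * i0 + d - iW) iW 0 cd) &&
    (Nat.blt (ρ * i0 + d) (iW + iW + 1) ||
      cellY ρ c rB w fuel G R TK TW b x (ρ * i0 + d - iW - 1) iW 1 cd)) x) (ρ * m)

theorem rowY_sound {ρ c rB w fuel : ℕ} {G : ℕ → ℕ} {R : ℕ → ℕ} {TK TW : ℕ → ℕ → ℕ → ℕ}
    {b : ℕ → ℕ} {β i0 m : ℕ} {cd : ℕ → ℕ → ℕ → ℕ → ℕ → List (ℕ × ℕ × Bool × ℕ × ℕ)}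
    (hρ : 0 < ρ) (hG : ∀ k, k ≤ ρ * (i0 + m) → G k = EdgeIso.g k)
    (hb : ∀ i, i ≤ i0 ∨ i0 + m ≤ i → b i = 0)
    (h : rowY ρ c rB w fuel G R TK TW b (ρ * β) i0 m cd = true) :
    ∀ iK iW cy, iW ≤ iK → iW < ρ * β → cy ≤ 1 →
      StepB ρ c rB R (fun t i β => ((TK t i β : ℕ) : ℤ)) (fun t i β => ((TW t i β : ℕ) : ℤ))
        (fun i _ => ((b i : ℕ) : ℤ)) iK iW cy β := by
  intro iK iW cy hWK hW hcy
  have hi0 : ρ * ((iK + iW + cy) / ρ) ≤ iK + iW + cy := Nat.mul_div_le _ _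
  have hi1 : iK + iW + cy + 1 ≤ ρ * ((iK + iW + cy) / ρ + 1) := Nat.lt_mul_div_succ _ hρ
  rcases lt_or_ge ((iK + iW + cy) / ρ) i0 with h1 | h1
  · refine stepB_zero (b := fun i => ((b i : ℕ) : ℤ)) ?_ ?_
    · simp only [hb _ (Or.inl h1.le), Nat.cast_zero]
    · simp only [hb _ (Or.inl (Nat.succ_le_of_lt h1)), Nat.cast_zero]
  rcases lt_or_ge ((iK + iW + cy) / ρ) (i0 + m) with h2 | h2
  swap
  · refine stepB_zero (b := fun i => ((b i : ℕ) : ℤ)) ?_ ?_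
    · simp only [hb _ (Or.inr h2), Nat.cast_zero]
    · simp only [hb _ (Or.inr (Nat.le_succ_of_le h2)), Nat.cast_zero]
  have t1 : ρ * i0 ≤ iK + iW + cy := (Nat.mul_le_mul_left _ h1).trans hi0
  have t2 : iK + iW + cy + 1 ≤ ρ * (i0 + m) := hi1.trans (Nat.mul_le_mul_left _ h2)
  rw [Nat.mul_add] at t2
  have hG' : ∀ k, k ≤ iK + iW + cy + 1 → G k = EdgeIso.g k := fun k hk => hG k (by
    rw [Nat.mul_add]
    omega)
  unfold rowY at h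
  rw [allB_iff] at h
  have h3 := h (iK + iW + cy - ρ * i0) (by omega)
  rw [allB_iff] at h3
  have h4 := h3 iW hW
  have e : ρ * i0 + (iK + iW + cy - ρ * i0) = iK + iW + cy := by omega
  rw [e, Bool.and_eq_true, Bool.or_eq_true, Bool.or_eq_true] at h4
  have hcy' : cy = 0 ∨ cy = 1 := by omega
  rcases hcy' with h7 | h7
  · subst h7
    rcases h4.1 with h5 | h5
    · have h6 : iK + iW + 0 < iW + iW := by
        have := Nat.le_of_ble_eq_true h5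
        omega
      omega
    · have e2 : iK + iW + 0 - iW = iK := by omega
      rw [e2] at h5
      exact cellY_sound hρ hcy hG' h5
  · subst h7
    rcases h4.2 with h5 | h5
    · have h6 : iK + iW + 1 < iW + iW + 1 := by
        have := Nat.le_of_ble_eq_true h5
        omega
      omega
    · have e2 : iK + iW + 1 - iW - 1 = iK := by omega
      rw [e2] at h5
      exact cellY_sound hρ hcy hG' h5

/-- the comparison with one table -/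
def leY (T : ℕ → ℕ → ℕ) (b : ℕ → ℕ) (β i0 m : ℕ) : Bool :=
  allB (fun d => Nat.ble (b (i0 + 1 + d)) (T (i0 + 1 + d) β)) m

theorem leY_sound {T : ℕ → ℕ → ℕ} {b : ℕ → ℕ} {β i0 m : ℕ}
    (hb : ∀ i, i ≤ i0 ∨ i0 + m ≤ i → b i = 0) (h : leY T b β i0 m = true) (i : ℕ) :
    ((b i : ℕ) : ℤ) ≤ ((T i β : ℕ) : ℤ) := by
  unfold leY at h
  rw [allB_iff] at h
  rcases le_or_gt i i0 with h1 | h1
  · rw [hb i (Or.inl h1)]
    positivity
  rcases lt_or_ge i (i0 + m) with h2 | h2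
  · have h3 := Nat.le_of_ble_eq_true (h (i - i0 - 1) (by omega))
    have e : i0 + 1 + (i - i0 - 1) = i := by omega
    rw [e] at h3
    exact_mod_cast h3
  · rw [hb i (Or.inr h2)]
    positivity

/-- **a row which passes the checks**, finite volume -/
theorem rowB_of_check {γ c rB w fuel : ℕ} {G : ℕ → ℕ} {R : ℕ → ℕ} {T : ℕ → ℕ → ℕ → ℕ}
    {b : ℕ → ℕ} {β i0 m : ℕ} {cd : ℕ → ℕ → ℕ → ℕ → ℕ → List (ℕ × ℕ × Bool × ℕ × ℕ)}
    (hG : ∀ k, k ≤ 2 * (i0 + m) → G k = EdgeIso.g k)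
    (hb : ∀ i, i ≤ i0 ∨ i0 + m ≤ i → b i = 0) (t : ℕ) (ht : R t ≤ rB)
    (hle : leY (T t) b β i0 m = true)
    (h : rowY 2 c rB w fuel G R T T b (2 * β) i0 m cd = true) :
    RowB γ c rB R (fun t i β => ((T t i β : ℕ) : ℤ)) β (fun i => ((b i : ℕ) : ℤ)) :=
  ⟨⟨t, ht, fun i _ => leY_sound hb hle i⟩, fun iK iW cy _ h2 h3 h4 =>
    rowY_sound (by norm_num) hG hb h iK iW cy h2 h3 h4⟩

/-- one hint: `tK` (1 bit), `tW` (1 bit), form (1 bit), `bK` (7 bits), `bW` -/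
def dcY (h : ℕ) : ℕ × ℕ × Bool × ℕ × ℕ :=
  (h % 2, h / 2 % 2, Nat.beq (h / 4 % 2) 1, h / 8 % 128, h / 1024)

/-- the arrays of part J -/
theorem TabJ.finBd {α : Type*} [DecidableEq α] {γ c : ℕ} {rs : ℕ → ℕ} {T : ℕ → ℕ → ℕ → ℤ}
    (h : TabJ γ c rs T) (σ : ℕ) : FinBd α γ (rs σ) c (T σ) :=
  fun s F hF U hU hU2 β => h.bound s.card s F rfl hF U hU hU2 σ β

end Pool.Agent.EdgeIso.Cell
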