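import Pool.Agent.Lib.MP_48c8f3_co.TKb_0
import Pool.Agent.Lib.MP_48c8f3_co.TKb_1

set_option autoImplicit false
set_option maxRecDepth 100000

/-! Lower bounds of the loss by arrays, checked by the kernel (machine made). -/

namespace Pool.Agent.EdgeIso.Cell

theorem TKb_c0 (i β : ℕ) (h : 64 ≤ β) : TKb0 i β = TKb0 i 64 := by
  have h1 : Nat.sub β (Nat.sub β 64) = 64 := by
    show β - (β - 64) = 64
    omega
  have h2 : Nat.sub 64 (Nat.sub 64 64) = 64 := rfl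
  unfold TKb0
  rw [h1, h2]

theorem TKb_mono0 : ∀ i β β', i ≤ 128 → β ≤ β' → TKb0 i β ≤ TKb0 i β' ∧
    TKb0 i β' ≤ TKb0 i β + 64 * (β' - β) :=
  monoR_sound TKb_m0 TKb_c0

theorem TKb_st0 (iK iW cy : ℕ) (h1 : iK < 128) (h2 : iW ≤ iK) (h3 : cy ≤ 1) (β : ℕ) :
    CovJ 2 16 2 (fun i β => (TKb0 i β : ℤ)) TKbr
      (fun σ i β => (TKb σ i β : ℤ)) iK iW cy β 0 := by
  rcases lt_or_ge iK 128 with g0 | g0
  · exact rowsK_sound (r := 2) (c := 16) (n := 128) (by norm_num) TKb_rc rfl (by norm_num) TKb_mono0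
      (fun j hj => gCheck_sound TKb_g j (by omega)) TKb_s0_0 iK iW cy (by omega)
      (by omega) h2 h3 (Nat.zero_le _) (by omega) β
  · omega

theorem TKb_c1 (i β : ℕ) (h : 64 ≤ β) : TKb1 i β = TKb1 i 64 := by
  have h1 : Nat.sub β (Nat.sub β 64) = 64 := by
    show β - (β - 64) = 64
    omega
  have h2 : Nat.sub 64 (Nat.sub 64 64) = 64 := rfl
  unfold TKb1
  rw [h1, h2]

theorem TKb_mono1 : ∀ i β β', i ≤ 128 → β ≤ β' → TKb1 i β ≤ TKb1 i β' ∧
    TKb1 i β' ≤ TKb1 i β + 128 * (β' - β) :=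
  monoR_sound TKb_m1 TKb_c1

theorem TKb_st1 (iK iW cy : ℕ) (h1 : iK < 128) (h2 : iW ≤ iK) (h3 : cy ≤ 1) (β : ℕ) :
    CovJ 2 16 4 (fun i β => (TKb1 i β : ℤ)) TKbr
      (fun σ i β => (TKb σ i β : ℤ)) iK iW cy β 0 := by
  rcases lt_or_ge iK 128 with g0 | g0
  · exact rowsK_sound (r := 4) (c := 16) (n := 128) (by norm_num) TKb_rc rfl (by norm_num) TKb_mono1
      (fun j hj => gCheck_sound TKb_g j (by omega)) TKb_s1_0 iK iW cy (by omega)
      (by omega) h2 h3 (Nat.zero_le _) (by omega) β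
  · omega

/-- the arrays are lower bounds -/
theorem TKb_tab : TabJ 7 16 TKbr (fun σ i β => (TKb σ i β : ℤ)) := by
  refine tabJ_of_step (fun σ => ?_) (fun σ β => ?_) (fun σ i β β' hi hβ => ?_)
    (fun σ iK iW cy h1 h2 h3 β => ?_)
  · rcases σ with _ | σ
    · exact Nat.eq_of_beq_eq_true TKb_z0
    · exact Nat.eq_of_beq_eq_true TKb_z1
  · rcases σ with _ | σ
    · have h1 : TKb0 128 β ≤ TKb0 128 64 := by
        rcases le_or_gt β 64 with h | h
        · exact (TKb_mono0 128 β 64 le_rfl h).1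
        · exact (TKb_c0 128 β h.le).le
      have h2 := Nat.eq_of_beq_eq_true TKb_f0
      exact Nat.le_zero.mp (h1.trans h2.le)
    · have h1 : TKb1 128 β ≤ TKb1 128 64 := by
        rcases le_or_gt β 64 with h | h
        · exact (TKb_mono1 128 β 64 le_rfl h).1
        · exact (TKb_c1 128 β h.le).le
      have h2 := Nat.eq_of_beq_eq_true TKb_f1
      exact Nat.le_zero.mp (h1.trans h2.le)
  · rcases σ with _ | σ
    · exact TKb_mono0 i β β' hi hβ
    · exact TKb_mono1 i β β' hi hβ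
  · rcases σ with _ | σ
    · exact TKb_st0 iK iW cy h1 h2 h3 β
    · exact TKb_st1 iK iW cy h1 h2 h3 β

end Pool.Agent.EdgeIso.Cell
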