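import Pool.Agent.Lib.MP_48c8f3_co.Bas
import Pool.Agent.Lib.MP_48c8f3_co.C6H
import Pool.Agent.Lib.MP_48c8f3_co.TKb_F
import Pool.Agent.Lib.MP_48c8f3_co.CellY
import Pool.Agent.Lib.MP_48c8f3_co.KSt
import Pool.Agent.Lib.MP_48c8f3_co.BT

set_option autoImplicit false

/-!
MP_48c8f3_co: the tables of the core.
-/

namespace Pool.Agent.EdgeIso.Chk.Core2K

open Finset Pool.Agent.EdgeIso.Frame Pool.Agent.EdgeIso.Cell Pool.Agent.EdgeIso.Walsh
  Pool.Agent.EdgeIso.LemmaP

variable {α : Type*} [DecidableEq α]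

theorem link_t0 : linkB 1 tbT0 129 65 128 (TKb 0) = true := by decide +kernel

theorem link_t1 : linkB 2 tbT1 129 65 128 (TKb 1) = true := by decide +kernel

theorem chk_f64 : tabFD GT0 7 16 64 tbF64 129 65 = true := by decide +kernel

theorem chk_f128 : tabFD GT0 7 16 128 tbF128 129 65 = true := by decide +kernel

theorem chk_f256 : tabFD GT0 7 8 256 tbF256 129 65 = true := by decide +kernel

theorem eq_g4 : tbG4 = TG4 := by decide +kernel

theorem eq_g16 : tbG16 = TG16 := by decide +kernel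

theorem rows_t0 : LBnd α (fun N x v L => 0 ≤ v → x ≤ 2 ^ N → Rows 16 32 7 tbT0 129 N x v L) := by
  have h := rows_of_fin (γ := 7) (ρ := TKbr 0) (r := 1) (c := 16) (by norm_num)
    (TKb_tab.finBd (α := α) 0) link_t0
  intro s X hX v hv hvx h0 hx
  exact h s X hX v hv hvx h0 (by omega)

theorem rows_t1 : LBnd α (fun N x v L => 0 ≤ v → x ≤ 2 ^ N → Rows 8 32 7 tbT1 129 N x v L) := by
  have h := rows_of_fin (γ := 7) (ρ := TKbr 1) (r := 2) (c := 8) (by norm_num)
    (TKb_tab.finBd (α := α) 1) link_t1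
  intro s X hX v hv hvx h0 hx
  exact h s X hX v hv hvx h0 (by omega)

theorem rows_f64 : LBnd α (fun N x v L => ∀ S : ℤ, (2 : ℤ) ^ N * 64 = 2 ^ 7 * S →
    Rows 16 32 7 tbF64 129 N x v (L + S)) :=
  rows_of_fourierS GT0_ok (by norm_num) chk_f64

theorem rows_f128 : LBnd α (fun N x v L => ∀ S : ℤ, (2 : ℤ) ^ N * 128 = 2 ^ 7 * S →
    Rows 16 32 7 tbF128 129 N x v (L + S)) :=
  rows_of_fourierS GT0_ok (by norm_num) chk_f128

theorem rows_f256 : LBnd α (fun N x v L => ∀ S : ℤ, (2 : ℤ) ^ N * 256 = 2 ^ 7 * S →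
    Rows 8 16 7 tbF256 129 N x v (L + S)) :=
  rows_of_fourierS GT0_ok (by norm_num) chk_f256

theorem two_le {s : Finset α} {X : Finset (Finset α)} {u : ℕ} (h : MinHalf s X u)
    (hs : 0 < s.card) : 2 * u ≤ X.card := by
  obtain ⟨j, hj⟩ := card_pos.mp hs
  have h1 := h j hj true
  have h2 := h j hj false
  have h3 := card_half_add j X
  omega

theorem link_b : linkB 2 tbB 129 65 128 (fun i b => BT i b) = true := by decide +kernel

theorem rows_b : BBnd α (fun N x v L => x ≤ 2 ^ N → Rows 8 32 7 tbB 129 N x (2 * (v : ℤ)) L) := by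
  have h := rows_of_B (α := α) (γ := 7) (r := 2) (c := 8) (rB := 4) (by norm_num)
    (fun t => TKb_tab.finBd (α := α) t) (fun b _ => BT_rows b) link_b
  intro s X i v hX hi hv h2v hx
  exact h s X i v hX hi hv h2v (by omega)

theorem tabs : Tabs α where
  dgt := fun i j => dgt_le GT0_ok i j
  t0 := rows_t0
  t1 := rows_t1
  f64 := rows_f64
  f128 := rows_f128
  f256 := rows_f256
  b := rows_b
  g4 := by
    intro s X u hX hu IH hneg R hN h1 h2
    rw [eq_g4]
    have hux : 2 * u ≤ X.card := two_le hu (by omega)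
    exact rows_TG4 hN hX IH hneg hu hux h1 h2
  g16 := by
    intro s X u hX hu IH hneg R hN h1 h2
    rw [eq_g16]
    have hux : 2 * u ≤ X.card := two_le hu (by omega)
    exact rows_TG16 hN hX IH hneg hu hux h1 h2

end Pool.Agent.EdgeIso.Chk.Core2K
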