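import Pool.Agent.Lib.MP_48c8f3_co.Bas
import Pool.Agent.Lib.MP_48c8f3_co.C6G
import Pool.Agent.Lib.MP_48c8f3_co.C6T
import Pool.Agent.Lib.MP_48c8f3_co.C6K

set_option autoImplicit false

/-!
MP_48c8f3_co: there is no counterexample in the core (the last two levels).
-/

namespace Pool.Agent.EdgeIso.Chk.Core2K

open Pool.Agent.EdgeIso.Frame

variable {α : Type*} [DecidableEq α]

/-- there is no core -/
theorem core2_false {R m : ℕ} {LF : ℤ} (C₀ : Core2 α R m LF) : False :=
  core_sound hC hT hR (hst.trans rfl) hcl tabs C₀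

end Pool.Agent.EdgeIso.Chk.Core2K
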