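import Pool.Agent.Lib.MP_48c8f3_co.Bas
import Pool.Agent.Lib.MP_48c8f3_co.CellF

set_option autoImplicit false

/-!
MP_48c8f3_co, all scales certificates, part L: upper bounds of the number of edges by arrays which are
linear on the cells (edge form).  The values `A i β` are `2 c` times a number of edges, in mesh
units; the term `c ω V` accounts for the scale.
-/

namespace Pool.Agent.EdgeIso.Cell

open Finset Pool.Agent.EdgeIso.Frame

variable {α : Type*} [DecidableEq α]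

/-- linear interpolation on the cell `i`, mesh `M` -/
def lin (T : ℕ → ℤ) (M : ℤ) (i : ℕ) (V : ℤ) : ℤ := M * T i + (T (i + 1) - T i) * (V - M * i)

/-- the functional of one cell, scaled by `M` -/
def phE (κ c r : ℕ) (cK cW a0 a1 k0 k1 w0 w1 : ℤ) (iK iW i β bK bW φ : ℕ) (ε M p q : ℤ) : ℤ :=
  (M * (2 ^ κ * a0) + (a1 - a0) * (p + q - M * (2 ^ κ * i))) + κ * c * (p + q) -
    (M * k0 + (k1 - k0) * (p - M * iK)) - (M * w0 + (w1 - w0) * (q - M * iW)) -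
    2 * c * (q - M * φ) - cK * max 0 (M * (bK + φ) - q) -
    cW * max 0 (M * (bW + φ) - (2 * q - p)) + ε * (2 * r * c * (M * (2 ^ κ * β) - q))

theorem max_comb3 {l0 l1 l2 : ℤ} (h0 : 0 ≤ l0) (h1 : 0 ≤ l1) (h2 : 0 ≤ l2) (x0 x1 x2 : ℤ) :
    max 0 (l0 * x0 + l1 * x1 + l2 * x2) ≤ l0 * max 0 x0 + l1 * max 0 x1 + l2 * max 0 x2 := by
  have a0 := mul_le_mul_of_nonneg_left (le_max_left 0 x0) h0
  have a1 := mul_le_mul_of_nonneg_left (le_max_left 0 x1) h1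
  have a2 := mul_le_mul_of_nonneg_left (le_max_left 0 x2) h2
  have b0 := mul_le_mul_of_nonneg_left (le_max_right 0 x0) h0
  have b1 := mul_le_mul_of_nonneg_left (le_max_right 0 x1) h1
  have b2 := mul_le_mul_of_nonneg_left (le_max_right 0 x2) h2
  apply max_le
  · linarith
  · linarith

/-- concavity and homogeneity -/
theorem phE_comb {κ c r : ℕ} {cK cW a0 a1 k0 k1 w0 w1 : ℤ} {iK iW i β bK bW φ : ℕ} {ε : ℤ}
    (hK : 0 ≤ cK) (hW : 0 ≤ cW) {l0 l1 l2 : ℤ} (h0 : 0 ≤ l0) (h1 : 0 ≤ l1) (h2 : 0 ≤ l2)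
    (M0 M1 M2 p0 p1 p2 q0 q1 q2 : ℤ)
    (f0 : 0 ≤ phE κ c r cK cW a0 a1 k0 k1 w0 w1 iK iW i β bK bW φ ε M0 p0 q0)
    (f1 : 0 ≤ phE κ c r cK cW a0 a1 k0 k1 w0 w1 iK iW i β bK bW φ ε M1 p1 q1)
    (f2 : 0 ≤ phE κ c r cK cW a0 a1 k0 k1 w0 w1 iK iW i β bK bW φ ε M2 p2 q2) :
    0 ≤ phE κ c r cK cW a0 a1 k0 k1 w0 w1 iK iW i β bK bW φ ε (l0 * M0 + l1 * M1 + l2 * M2)
      (l0 * p0 + l1 * p1 + l2 * p2) (l0 * q0 + l1 * q1 + l2 * q2) := by
  have m1 := mul_le_mul_of_nonneg_left (max_comb3 h0 h1 h2 (M0 * (bK + φ) - q0)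
    (M1 * (bK + φ) - q1) (M2 * (bK + φ) - q2)) hK
  have m2 := mul_le_mul_of_nonneg_left (max_comb3 h0 h1 h2 (M0 * (bW + φ) - (2 * q0 - p0))
    (M1 * (bW + φ) - (2 * q1 - p1)) (M2 * (bW + φ) - (2 * q2 - p2))) hW
  have e1 : l0 * (M0 * (bK + φ) - q0) + l1 * (M1 * (bK + φ) - q1) + l2 * (M2 * (bK + φ) - q2) =
      (l0 * M0 + l1 * M1 + l2 * M2) * (bK + φ) - (l0 * q0 + l1 * q1 + l2 * q2) := by ring
  have e2 : l0 * (M0 * (bW + φ) - (2 * q0 - p0)) + l1 * (M1 * (bW + φ) - (2 * q1 - p1)) +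
      l2 * (M2 * (bW + φ) - (2 * q2 - p2)) =
      (l0 * M0 + l1 * M1 + l2 * M2) * (bW + φ) -
        (2 * (l0 * q0 + l1 * q1 + l2 * q2) - (l0 * p0 + l1 * p1 + l2 * p2)) := by ring
  rw [e1] at m1
  rw [e2] at m2
  have n0 := mul_nonneg h0 f0
  have n1 := mul_nonneg h1 f1
  have n2 := mul_nonneg h2 f2
  unfold phE at n0 n1 n2 ⊢
  generalize max 0 ((l0 * M0 + l1 * M1 + l2 * M2) * ((bK : ℤ) + φ) -
    (l0 * q0 + l1 * q1 + l2 * q2)) = X at *
  generalize max 0 ((l0 * M0 + l1 * M1 + l2 * M2) * ((bW : ℤ) + φ) -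
        (2 * (l0 * q0 + l1 * q1 + l2 * q2) - (l0 * p0 + l1 * p1 + l2 * p2))) = Y at *
  generalize max 0 (M0 * ((bK : ℤ) + φ) - q0) = X0 at *
  generalize max 0 (M1 * ((bK : ℤ) + φ) - q1) = X1 at *
  generalize max 0 (M2 * ((bK : ℤ) + φ) - q2) = X2 at *
  generalize max 0 (M0 * ((bW : ℤ) + φ) - (2 * q0 - p0)) = Y0 at *
  generalize max 0 (M1 * ((bW : ℤ) + φ) - (2 * q1 - p1)) = Y1 at *
  generalize max 0 (M2 * ((bW : ℤ) + φ) - (2 * q2 - p2)) = Y2 at *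
  have key : (l0 * M0 + l1 * M1 + l2 * M2) * (2 ^ κ * a0) +
        (a1 - a0) * (l0 * p0 + l1 * p1 + l2 * p2 + (l0 * q0 + l1 * q1 + l2 * q2) -
          (l0 * M0 + l1 * M1 + l2 * M2) * (2 ^ κ * i)) +
        κ * c * (l0 * p0 + l1 * p1 + l2 * p2 + (l0 * q0 + l1 * q1 + l2 * q2)) -
      ((l0 * M0 + l1 * M1 + l2 * M2) * k0 +
        (k1 - k0) * (l0 * p0 + l1 * p1 + l2 * p2 - (l0 * M0 + l1 * M1 + l2 * M2) * iK)) -
      ((l0 * M0 + l1 * M1 + l2 * M2) * w0 +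
        (w1 - w0) * (l0 * q0 + l1 * q1 + l2 * q2 - (l0 * M0 + l1 * M1 + l2 * M2) * iW)) -
      2 * c * (l0 * q0 + l1 * q1 + l2 * q2 - (l0 * M0 + l1 * M1 + l2 * M2) * φ) - cK * X -
      cW * Y + ε * (2 * r * c * ((l0 * M0 + l1 * M1 + l2 * M2) * (2 ^ κ * β) -
        (l0 * q0 + l1 * q1 + l2 * q2))) =
    l0 * ((M0 * (2 ^ κ * a0) + (a1 - a0) * (p0 + q0 - M0 * (2 ^ κ * i))) + κ * c * (p0 + q0) -
    (M0 * k0 + (k1 - k0) * (p0 - M0 * iK)) - (M0 * w0 + (w1 - w0) * (q0 - M0 * iW)) -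
    2 * c * (q0 - M0 * φ) - cK * X0 - cW * Y0 + ε * (2 * r * c * (M0 * (2 ^ κ * β) - q0))) +
    l1 * ((M1 * (2 ^ κ * a0) + (a1 - a0) * (p1 + q1 - M1 * (2 ^ κ * i))) + κ * c * (p1 + q1) -
    (M1 * k0 + (k1 - k0) * (p1 - M1 * iK)) - (M1 * w0 + (w1 - w0) * (q1 - M1 * iW)) -
    2 * c * (q1 - M1 * φ) - cK * X1 - cW * Y1 + ε * (2 * r * c * (M1 * (2 ^ κ * β) - q1))) +
    l2 * ((M2 * (2 ^ κ * a0) + (a1 - a0) * (p2 + q2 - M2 * (2 ^ κ * i))) + κ * c * (p2 + q2) -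
    (M2 * k0 + (k1 - k0) * (p2 - M2 * iK)) - (M2 * w0 + (w1 - w0) * (q2 - M2 * iW)) -
    2 * c * (q2 - M2 * φ) - cK * X2 - cW * Y2 + ε * (2 * r * c * (M2 * (2 ^ κ * β) - q2))) +
    (cK * (l0 * X0 + l1 * X1 + l2 * X2) - cK * X) +
    (cW * (l0 * Y0 + l1 * Y1 + l2 * Y2) - cW * Y) := by ring
  rw [key]
  linarith

/-- the corner conditions of the cell `iK ≤ p ≤ iK + 1`, `iW ≤ q ≤ iW + 1`, `q ≤ p`, with carry
`cy`, for the number `φ` of unmatched points. -/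
def CornE (κ c r rK rW : ℕ) (A AK AW : ℕ → ℕ → ℤ) (mW iK iW cy β bK bW φ : ℕ) (ε : ℤ) : Prop :=
  (cy = 0 → 0 ≤ phE κ c r (cP rK c bK) (cP rW c bW) (A ((iK + iW + cy) / 2 ^ κ) β)
    (A ((iK + iW + cy) / 2 ^ κ + 1) β) (AK iK bK) (AK (iK + 1) bK) (AW iW bW) (AW (iW + 1) bW)
    iK iW ((iK + iW + cy) / 2 ^ κ) β (2 * bK) (mW * bW) φ ε 1 iK iW) ∧
  (cy = 1 → 0 ≤ phE κ c r (cP rK c bK) (cP rW c bW) (A ((iK + iW + cy) / 2 ^ κ) β)
    (A ((iK + iW + cy) / 2 ^ κ + 1) β) (AK iK bK) (AK (iK + 1) bK) (AW iW bW) (AW (iW + 1) bW)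
    iK iW ((iK + iW + cy) / 2 ^ κ) β (2 * bK) (mW * bW) φ ε 1 (iK + 1) (iW + 1)) ∧
  0 ≤ phE κ c r (cP rK c bK) (cP rW c bW) (A ((iK + iW + cy) / 2 ^ κ) β)
    (A ((iK + iW + cy) / 2 ^ κ + 1) β) (AK iK bK) (AK (iK + 1) bK) (AW iW bW) (AW (iW + 1) bW)
    iK iW ((iK + iW + cy) / 2 ^ κ) β (2 * bK) (mW * bW) φ ε 1 (iK + 1) iW ∧
  (iK = iW → 0 ≤ phE κ c r (cP rK c bK) (cP rW c bW) (A ((iK + iW + cy) / 2 ^ κ) β)
    (A ((iK + iW + cy) / 2 ^ κ + 1) β) (AK iK bK) (AK (iK + 1) bK) (AW iW bW) (AW (iW + 1) bW)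
    iK iW ((iK + iW + cy) / 2 ^ κ) β (2 * bK) (mW * bW) φ ε 2 (2 * iK + 1) (2 * iW + 1)) ∧
  (iK ≠ iW → 0 ≤ phE κ c r (cP rK c bK) (cP rW c bW) (A ((iK + iW + cy) / 2 ^ κ) β)
    (A ((iK + iW + cy) / 2 ^ κ + 1) β) (AK iK bK) (AK (iK + 1) bK) (AW iW bW) (AW (iW + 1) bW)
    iK iW ((iK + iW + cy) / 2 ^ κ) β (2 * bK) (mW * bW) φ ε 1 iK (iW + 1))

/-- the inequality on the whole cell -/
theorem CornE.cell {κ c r rK rW : ℕ} {A AK AW : ℕ → ℕ → ℤ} {mW iK iW cy β bK bW φ : ℕ} {ε : ℤ}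
    (h : CornE κ c r rK rW A AK AW mW iK iW cy β bK bW φ ε) (hcy : cy ≤ 1) {M P Q : ℤ}
    (hQP : Q ≤ P)
    (hK1 : M * iK ≤ P) (hK2 : P ≤ M * (iK + 1)) (hW1 : M * iW ≤ Q) (hW2 : Q ≤ M * (iW + 1))
    (hX1 : M * ((iK : ℤ) + iW + cy) ≤ P + Q) (hX2 : P + Q ≤ M * ((iK : ℤ) + iW + cy + 1)) :
    0 ≤ phE κ c r (cP rK c bK) (cP rW c bW) (A ((iK + iW + cy) / 2 ^ κ) β)
      (A ((iK + iW + cy) / 2 ^ κ + 1) β) (AK iK bK) (AK (iK + 1) bK) (AW iW bW) (AW (iW + 1) bW)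
      iK iW ((iK + iW + cy) / 2 ^ κ) β (2 * bK) (mW * bW) φ ε M P Q := by
  obtain ⟨c0, c1, c2, c3, c4⟩ := h
  have nK := cP_nonneg rK c bK
  have nW := cP_nonneg rW c bW
  have hcy' : cy = 0 ∨ cy = 1 := by omega
  rcases hcy' with hc | hc
  · have d0 := c0 hc
    rw [hc] at hX1 hX2
    push_cast at hX1 hX2
    by_cases hd : iK = iW
    · have d3 := c3 hd
      have hdz : (iW : ℤ) = iK := by exact_mod_cast hd.symm
      have key := phE_comb nK nW (l0 := M - (P - M * iK) - (Q - M * iW))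
        (l1 := (P - M * iK) - (Q - M * iW)) (l2 := Q - M * iW) (by linarith)
        (by rw [hdz]; linarith) (by linarith) 1 1 2 iK (iK + 1) (2 * iK + 1) iW iW (2 * iW + 1)
        d0 c2 d3
      have e1 : (M - (P - M * iK) - (Q - M * iW)) * 1 + ((P - M * iK) - (Q - M * iW)) * 1 +
        (Q - M * iW) * 2 = M := by ring
      have e2 : (M - (P - M * iK) - (Q - M * iW)) * (iK : ℤ) +
        ((P - M * iK) - (Q - M * iW)) * (iK + 1) + (Q - M * iW) * (2 * iK + 1) = P := by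
          ring
      have e3 : (M - (P - M * iK) - (Q - M * iW)) * (iW : ℤ) +
        ((P - M * iK) - (Q - M * iW)) * iW + (Q - M * iW) * (2 * iW + 1) = Q := by
          ring
      rw [e1, e2, e3] at key
      exact key
    · have d4 := c4 hd
      have key := phE_comb nK nW (l0 := M - (P - M * iK) - (Q - M * iW))
        (l1 := (P - M * iK)) (l2 := Q - M * iW) (by linarith)
        (by linarith) (by linarith) 1 1 1 iK (iK + 1) iK iW iW (iW + 1)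
        d0 c2 d4
      have e1 : (M - (P - M * iK) - (Q - M * iW)) * 1 + (P - M * iK) * 1 +
        (Q - M * iW) * 1 = M := by ring
      have e2 : (M - (P - M * iK) - (Q - M * iW)) * (iK : ℤ) +
        (P - M * iK) * (iK + 1) + (Q - M * iW) * iK = P := by
          ring
      have e3 : (M - (P - M * iK) - (Q - M * iW)) * (iW : ℤ) +
        (P - M * iK) * iW + (Q - M * iW) * (iW + 1) = Q := by
          ring
      rw [e1, e2, e3] at key
      exact key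
  · have d0 := c1 hc
    rw [hc] at hX1 hX2
    push_cast at hX1 hX2
    by_cases hd : iK = iW
    · have d3 := c3 hd
      have hdz : (iW : ℤ) = iK := by exact_mod_cast hd.symm
      have key := phE_comb nK nW (l0 := (P - M * iK) + (Q - M * iW) - M)
        (l1 := (P - M * iK) - (Q - M * iW)) (l2 := M - (P - M * iK)) (by linarith)
        (by rw [hdz]; linarith) (by linarith) 1 1 2 (iK + 1) (iK + 1) (2 * iK + 1) (iW + 1) iW
        (2 * iW + 1) d0 c2 d3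
      have e1 : ((P - M * iK) + (Q - M * iW) - M) * 1 + ((P - M * iK) - (Q - M * iW)) * 1 +
        (M - (P - M * iK)) * 2 = M := by ring
      have e2 : ((P - M * iK) + (Q - M * iW) - M) * ((iK : ℤ) + 1) +
        ((P - M * iK) - (Q - M * iW)) * (iK + 1) + (M - (P - M * iK)) * (2 * iK + 1) = P := by
          ring
      have e3 : ((P - M * iK) + (Q - M * iW) - M) * ((iW : ℤ) + 1) +
        ((P - M * iK) - (Q - M * iW)) * iW + (M - (P - M * iK)) * (2 * iW + 1) = Q := by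
          rw [hdz]; ring
      rw [e1, e2, e3] at key
      exact key
    · have d4 := c4 hd
      have key := phE_comb nK nW (l0 := (P - M * iK) + (Q - M * iW) - M)
        (l1 := M - (Q - M * iW)) (l2 := M - (P - M * iK)) (by linarith)
        (by linarith) (by linarith) 1 1 1 (iK + 1) (iK + 1) iK (iW + 1) iW (iW + 1)
        d0 c2 d4
      have e1 : ((P - M * iK) + (Q - M * iW) - M) * 1 + (M - (Q - M * iW)) * 1 +
        (M - (P - M * iK)) * 1 = M := by ring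
      have e2 : ((P - M * iK) + (Q - M * iW) - M) * ((iK : ℤ) + 1) +
        (M - (Q - M * iW)) * (iK + 1) + (M - (P - M * iK)) * iK = P := by
          ring
      have e3 : ((P - M * iK) + (Q - M * iW) - M) * ((iW : ℤ) + 1) +
        (M - (Q - M * iW)) * iW + (M - (P - M * iK)) * (iW + 1) = Q := by
          ring
      rw [e1, e2, e3] at key
      exact key

/-- the numbers `φ ≥ x` are covered by intervals -/
inductive CovE (κ c r : ℕ) (A : ℕ → ℕ → ℤ) (rs : ℕ → ℕ) (CK CW : ℕ → ℕ → ℕ → ℤ)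
    (mW iK iW cy β : ℕ) : ℕ → Prop
  | last (x σK σW : ℕ) (ε : ℤ) (hε : ε = 0 ∨ ε = 1)
      (h : CornE κ c r (rs σK) (rs σW) A (CK σK) (CW σW) mW iK iW cy β 0 0 x ε) :
      CovE κ c r A rs CK CW mW iK iW cy β x
  | next (x y σK bK σW bW : ℕ) (ε : ℤ) (hε : ε = 0 ∨ ε = 1)
      (h1 : CornE κ c r (rs σK) (rs σW) A (CK σK) (CW σW) mW iK iW cy β bK bW x ε)
      (h2 : CornE κ c r (rs σK) (rs σW) A (CK σK) (CW σW) mW iK iW cy β bK bW y ε)
      (h : CovE κ c r A rs CK CW mW iK iW cy β y) : CovE κ c r A rs CK CW mW iK iW cy β x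

/-- the step for families: from the halves to the family -/
theorem stepE_family {s : Finset α} {F : Finset (Finset α)} {a : α} {b : Bool} (ha : a ∈ s)
    (hQP : (half a (!b) F).card ≤ (half a b F).card)
    {γ κ r c M : ℕ} {ω : ℤ} {A : ℕ → ℕ → ℤ} {rs : ℕ → ℕ}
    {CK CW : ℕ → ℕ → ℕ → ℤ} {mW iK iW cy β U : ℕ} (hcy : cy ≤ 1)
    (hU : U ≤ 2 * (half a (!b) F).card)
    (hK1 : M * iK ≤ 2 ^ γ * (half a b F).card) (hK2 : 2 ^ γ * (half a b F).card ≤ M * (iK + 1))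
    (hW1 : M * iW ≤ 2 ^ γ * (half a (!b) F).card)
    (hW2 : 2 ^ γ * (half a (!b) F).card ≤ M * (iW + 1))
    (hX1 : M * (iK + iW + cy) ≤ 2 ^ γ * F.card) (hX2 : 2 ^ γ * F.card ≤ M * (iK + iW + cy + 1))
    (hstep : CovE κ c r A rs CK CW mW iK iW cy β 0)
    (hKb : ∀ σ β, c * 2 ^ γ * (e2 (s.erase a) (half a b F) : ℤ) ≤
      lin (fun i => CK σ i β) M iK (2 ^ γ * (half a b F).card) +
        c * ω * (2 ^ γ * (half a b F).card) + rs σ * c * max 0 ((M : ℤ) * (2 * β) -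
        2 ^ γ * ((half a (!b) F).card - (half a (!b) F \ half a b F).card : ℕ)))
    (hWb : ∀ σ β, c * 2 ^ γ * (e2 (s.erase a) (half a (!b) F) : ℤ) ≤
      lin (fun i => CW σ i β) M iW (2 ^ γ * (half a (!b) F).card) +
        c * ω * (2 ^ γ * (half a (!b) F).card) + rs σ * c * max 0 ((M : ℤ) * (mW * β) -
        2 ^ γ * (2 * (half a (!b) F).card -
          ((half a b F).card + (half a (!b) F \ half a b F).card) : ℕ))) :
    c * 2 ^ γ * (e2 s F : ℤ) ≤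
      lin (fun i => A i β) (2 ^ κ * M) ((iK + iW + cy) / 2 ^ κ) (2 ^ γ * F.card) +
        c * (ω + κ) * (2 ^ γ * F.card) + r * c * max 0 ((2 ^ κ * M : ℤ) * (2 * β) - 2 ^ γ * U) := by
  have he := e2_half ha b F
  have hin := card_inter_sdiff (half a b F) (half a (!b) F)
  set K := half a b F with hK
  set W := half a (!b) F with hW
  set P := K.card with hP
  set Q := W.card with hQc
  set f := (W \ K).card with hf
  have hPQ : P + Q = F.card := card_half_add' a b F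
  have hc0 : (0 : ℤ) ≤ c := by positivity
  have hγ0 : (0 : ℤ) ≤ 2 ^ γ := by positivity
  have he' : (e2 s F : ℤ) ≤ e2 (s.erase a) K + e2 (s.erase a) W + 2 * ((Q : ℤ) - f) := by
    have h1 : (e2 s F : ℤ) ≤ e2 (s.erase a) K + e2 (s.erase a) W + 2 * (K ∩ W).card := by
      exact_mod_cast he
    have h2 : ((K ∩ W).card : ℤ) + f = Q := by exact_mod_cast hin
    linarith
  have hec := mul_le_mul_of_nonneg_left he' (by positivity : (0 : ℤ) ≤ c * 2 ^ γ)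
  have hFc : (F.card : ℤ) = P + Q := by exact_mod_cast hPQ.symm
  -- integers
  have zK1 : (M : ℤ) * iK ≤ 2 ^ γ * P := by exact_mod_cast hK1
  have zK2 : (2 : ℤ) ^ γ * P ≤ M * (iK + 1) := by exact_mod_cast hK2
  have zW1 : (M : ℤ) * iW ≤ 2 ^ γ * Q := by exact_mod_cast hW1
  have zW2 : (2 : ℤ) ^ γ * Q ≤ M * (iW + 1) := by exact_mod_cast hW2
  have zX1 : (M : ℤ) * ((iK : ℤ) + iW + cy) ≤ 2 ^ γ * P + 2 ^ γ * Q := by
    have : (M : ℤ) * ((iK : ℤ) + iW + cy) ≤ 2 ^ γ * F.card := by exact_mod_cast hX1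
    rw [hFc] at this
    linarith
  have zX2 : (2 : ℤ) ^ γ * P + 2 ^ γ * Q ≤ M * ((iK : ℤ) + iW + cy + 1) := by
    have : (2 : ℤ) ^ γ * F.card ≤ M * ((iK : ℤ) + iW + cy + 1) := by exact_mod_cast hX2
    rw [hFc] at this
    linarith
  have zQP : (2 : ℤ) ^ γ * Q ≤ 2 ^ γ * P := by
    have : (Q : ℤ) ≤ P := by exact_mod_cast hQP
    exact mul_le_mul_of_nonneg_left this hγ0
  have pF : ∀ ε : ℤ, (ε = 0 ∨ ε = 1) → ε * (2 * r * c * (M * (2 ^ κ * β) - 2 ^ γ * (Q : ℤ))) ≤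
      r * c * max 0 ((2 ^ κ * M : ℤ) * (2 * β) - 2 ^ γ * U) := by
    intro ε hε
    have hrc : (0 : ℤ) ≤ r * c := by positivity
    have h1 : 2 * ((M : ℤ) * (2 ^ κ * β) - 2 ^ γ * (Q : ℤ)) ≤
        (2 ^ κ * M : ℤ) * (2 * β) - 2 ^ γ * U := by
      have h2 : (U : ℤ) ≤ 2 * Q := by exact_mod_cast hU
      have h3 := mul_le_mul_of_nonneg_left h2 hγ0
      linarith
    have h4 := le_max_left (0 : ℤ) ((2 ^ κ * M : ℤ) * (2 * β) - 2 ^ γ * U)
    have h5 := le_max_right (0 : ℤ) ((2 ^ κ * M : ℤ) * (2 * β) - 2 ^ γ * U)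
    have h6 := mul_le_mul_of_nonneg_left h4 hrc
    have h7 := mul_le_mul_of_nonneg_left (h1.trans h5) hrc
    rcases hε with h8 | h8
    · rw [h8]; linarith
    · rw [h8]; linarith
  refine CovE.rec (motive := fun x _ => M * x ≤ 2 ^ γ * f → _) ?_ ?_ hstep (by simp)
  rotate_left
  · -- one of the intervals
    intro x y σK bK σW bW ε hε c1 c2 _ ih hj1
    rcases le_or_gt (2 ^ γ * f) (M * y) with hj2 | hj2
    swap
    · exact ih hj2.le
    have k1 := c1.cell hcy zQP zK1 zK2 zW1 zW2 zX1 zX2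
    have k2 := c2.cell hcy zQP zK1 zK2 zW1 zW2 zX1 zX2
    have bK' := hKb σK bK
    have bW' := hWb σW bW
    have pf := pF ε hε
    generalize (iK + iW + cy) / 2 ^ κ = i at k1 k2 ⊢
    -- penalties
    have pK : (rs σK : ℤ) * c * max 0 ((M : ℤ) * (2 * bK) - 2 ^ γ * (Q - f : ℕ)) ≤
        cP (rs σK) c bK * max 0 ((M : ℤ) * (2 * bK) - 2 ^ γ * Q + 2 ^ γ * f) := by
      unfold cP
      split_ifs with hb
      · have h1 : max 0 ((M : ℤ) * (2 * bK) - 2 ^ γ * (Q - f : ℕ)) ≤ 0 := by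
          apply max_le le_rfl
          rw [hb]
          have : (0 : ℤ) ≤ 2 ^ γ * (Q - f : ℕ) := by positivity
          push_cast
          linarith
        have := mul_le_mul_of_nonneg_left h1 (by positivity : (0 : ℤ) ≤ rs σK * c)
        linarith
      · apply mul_le_mul_of_nonneg_left _ (by positivity)
        apply max_le_max_left
        have h2 : (Q : ℤ) - f ≤ (Q - f : ℕ) := by omega
        have h3 := mul_le_mul_of_nonneg_left h2 hγ0
        linarith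
    have pW : (rs σW : ℤ) * c * max 0 ((M : ℤ) * (mW * bW) - 2 ^ γ * (2 * Q - (P + f) : ℕ)) ≤
        cP (rs σW) c bW * max 0 ((M : ℤ) * (mW * bW) - 2 ^ γ * (2 * Q - P) + 2 ^ γ * f) := by
      unfold cP
      split_ifs with hb
      · have h1 : max 0 ((M : ℤ) * (mW * bW) - 2 ^ γ * (2 * Q - (P + f) : ℕ)) ≤ 0 := by
          apply max_le le_rfl
          rw [hb]
          have : (0 : ℤ) ≤ 2 ^ γ * (2 * Q - (P + f) : ℕ) := by positivity
          push_cast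
          linarith
        have := mul_le_mul_of_nonneg_left h1 (by positivity : (0 : ℤ) ≤ rs σW * c)
        linarith
      · apply mul_le_mul_of_nonneg_left _ (by positivity)
        apply max_le_max_left
        have h2 : 2 * (Q : ℤ) - P - f ≤ (2 * Q - (P + f) : ℕ) := by omega
        have h3 := mul_le_mul_of_nonneg_left h2 hγ0
        linarith
    have j1 : (M : ℤ) * x ≤ 2 ^ γ * f := by exact_mod_cast hj1
    have j2 : (2 : ℤ) ^ γ * f ≤ M * y := by exact_mod_cast hj2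
    unfold phE at k1 k2
    unfold lin at bK' bW' ⊢
    have key := conc_nonneg (A := (M : ℤ) * (2 ^ κ * A i β) +
        (A (i + 1) β - A i β) * (2 ^ γ * P + 2 ^ γ * Q - M * (2 ^ κ * i)) +
        κ * c * (2 ^ γ * P + 2 ^ γ * Q) -
        (M * CK σK iK bK + (CK σK (iK + 1) bK - CK σK iK bK) * (2 ^ γ * P - M * iK)) -
        (M * CW σW iW bW + (CW σW (iW + 1) bW - CW σW iW bW) * (2 ^ γ * Q - M * iW)) -
        2 * c * (2 ^ γ * Q) + ε * (2 * r * c * (M * (2 ^ κ * β) - 2 ^ γ * Q)))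
      (B := 2 * c) (a1 := (M : ℤ) * (2 * bK) - 2 ^ γ * Q)
      (a2 := (M : ℤ) * (mW * bW) - 2 ^ γ * (2 * Q - P))
      (cP_nonneg (rs σK) c bK) (cP_nonneg (rs σW) c bW) j1 j2
      (by
        have z1 : (M : ℤ) * (2 * bK) - 2 ^ γ * Q + M * x =
          M * (((2 * bK : ℕ) : ℤ) + x) - 2 ^ γ * Q := by push_cast; ring
        have z2 : (M : ℤ) * (mW * bW) - 2 ^ γ * (2 * Q - P) + M * x =
          M * (((mW * bW : ℕ) : ℤ) + x) - (2 * (2 ^ γ * Q) - 2 ^ γ * P) := by push_cast; ring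
        rw [z1, z2]
        linarith)
      (by
        have z1 : (M : ℤ) * (2 * bK) - 2 ^ γ * Q + M * y =
          M * (((2 * bK : ℕ) : ℤ) + y) - 2 ^ γ * Q := by push_cast; ring
        have z2 : (M : ℤ) * (mW * bW) - 2 ^ γ * (2 * Q - P) + M * y =
          M * (((mW * bW : ℕ) : ℤ) + y) - (2 * (2 ^ γ * Q) - 2 ^ γ * P) := by push_cast; ring
        rw [z1, z2]
        linarith)
    rw [hFc]
    linarith
  · -- many unmatched points
    intro x σK σW ε hε hZ hfJ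
    have k1 := hZ.cell hcy zQP zK1 zK2 zW1 zW2 zX1 zX2
    have bK' := hKb σK 0
    have bW' := hWb σW 0
    have pf := pF ε hε
    generalize (iK + iW + cy) / 2 ^ κ = i at k1 ⊢
    have hfJ' : (M : ℤ) * x ≤ 2 ^ γ * f := by exact_mod_cast hfJ
    have h1 := mul_le_mul_of_nonneg_left hfJ' (by positivity : (0 : ℤ) ≤ 2 * c)
    have hcK : cP (rs σK) c 0 = 0 := by simp [cP]
    have hcW : cP (rs σW) c 0 = 0 := by simp [cP]
    have pK : (rs σK : ℤ) * c * max 0 ((M : ℤ) * (2 * (0 : ℕ)) - 2 ^ γ * (Q - f : ℕ)) ≤ 0 := by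
      have h1 : max 0 ((M : ℤ) * (2 * (0 : ℕ)) - 2 ^ γ * (Q - f : ℕ)) ≤ 0 := by
        apply max_le le_rfl
        have : (0 : ℤ) ≤ 2 ^ γ * (Q - f : ℕ) := by positivity
        push_cast
        linarith
      have := mul_le_mul_of_nonneg_left h1 (by positivity : (0 : ℤ) ≤ rs σK * c)
      linarith
    have pW : (rs σW : ℤ) * c *
        max 0 ((M : ℤ) * (mW * (0 : ℕ)) - 2 ^ γ * (2 * Q - (P + f) : ℕ)) ≤ 0 := by
      have h1 : max 0 ((M : ℤ) * (mW * (0 : ℕ)) - 2 ^ γ * (2 * Q - (P + f) : ℕ)) ≤ 0 := by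
        apply max_le le_rfl
        have : (0 : ℤ) ≤ 2 ^ γ * (2 * Q - (P + f) : ℕ) := by positivity
        push_cast
        linarith
      have := mul_le_mul_of_nonneg_left h1 (by positivity : (0 : ℤ) ≤ rs σW * c)
      linarith
    unfold phE at k1
    rw [hcK, hcW] at k1
    unfold lin at bK' bW' ⊢
    rw [hFc]
    linarith

end Pool.Agent.EdgeIso.Cell
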