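import Pool.Agent.Lib.MP_48c8f3_co.Bas
import Pool.Agent.Lib.MP_48c8f3_co.CellL

set_option autoImplicit false

/-!
MP_48c8f3_co, all scales certificates, part M: the octave system in edge form.  `U k σ` bounds the
number of edges of the families `F` of dimension `R + k` with `2 ^ R < |F| ≤ 2 * 2 ^ R`, and
`L k σ` the families with `|F| ≤ 2 ^ R`; the mesh is `2 ^ R / 2 ^ μ`, `ν` is a shift, and for `L` the index `β`
counts half meshes.
-/

namespace Pool.Agent.EdgeIso.Cell

open Finset Pool.Agent.EdgeIso.Frame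

variable {α : Type*} [DecidableEq α]

/-- the octave system, edge form -/
structure OctE (μ ν c : ℕ) (rs : ℕ → ℕ) (U L : ℕ → ℕ → ℕ → ℕ → ℤ) : Prop where
  zero : ∀ k σ β, 0 ≤ L k σ 0 β
  one : ∀ k σ, ∀ β : ℕ, 1 ≤ k → (c : ℤ) * ν * 2 ^ μ ≤ L k σ (2 ^ μ) β + rs σ * c * β
  two1 : ∀ σ, ∀ β : ℕ, 2 * (c : ℤ) * (1 + ν) * 2 ^ μ ≤
    U 1 σ (2 * 2 ^ μ) β + rs σ * c * max 0 (2 * (β : ℤ) - 2 * 2 ^ μ)
  two0 : ∀ k σ, ∀ β : ℕ, 2 ≤ k → 2 * (c : ℤ) * (1 + ν) * 2 ^ μ ≤
    U k σ (2 * 2 ^ μ) β + rs σ * c * (2 * β)
  two : ∀ k σ, ∀ β : ℕ, 2 ≤ k → 2 * (c : ℤ) * ν * 2 ^ μ ≤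
    U k σ (2 * 2 ^ μ) β + rs σ * c * max 0 (2 * (β : ℤ) - 2 * 2 ^ μ)
  stepI : ∀ k σ iK iW cy β, 1 ≤ k → iK < 2 * 2 ^ μ → iW ≤ iK → cy ≤ 1 →
    2 * 2 ^ μ ≤ iK + iW + cy → iK + iW + cy < 4 * 2 ^ μ → iW < 2 ^ μ →
    CovE 1 c (rs σ) (U k σ) rs (U k) (L k) 1 iK iW cy β 0
  stepI' : ∀ k σ iK iW cy β, 1 ≤ k → iK < 2 * 2 ^ μ → iW ≤ iK → cy ≤ 1 →
    2 * 2 ^ μ ≤ iK + iW + cy → iK + iW + cy < 4 * 2 ^ μ → 2 ^ μ ≤ iW →
    CovE 1 c (rs σ) (U k σ) rs (U k) (U k) 2 iK iW cy β 0
  stepII : ∀ k σ iK iW cy β, 1 ≤ k → 2 ^ μ ≤ iK → iK < 2 * 2 ^ μ → cy ≤ 1 →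
    iK + iW + cy < 2 * 2 ^ μ →
    CovE 0 c (rs σ) (U (k + 1) σ) rs (U k) (L k) 1 iK iW cy β 0
  linkU : ∀ k σ i β, 1 ≤ k → i ≤ 2 ^ μ → 2 ^ μ ≤ 2 * i →
    U (k + 1) σ (2 * i) β ≤ 2 * L k σ i β + 2 * c * i
  linkL : ∀ k σ i β, 1 ≤ k → 2 * i ≤ 2 ^ μ →
    L (k + 1) σ (2 * i) (2 * β) ≤ 2 * L k σ i β + 2 * c * i
  linkU' : ∀ k σ i β, 1 ≤ k → i < 2 ^ μ → 2 ^ μ ≤ 2 * i + 1 →
    U (k + 1) σ (2 * i + 1) β ≤ L k σ i β + L k σ (i + 1) β + c * (2 * i + 1)
  linkL' : ∀ k σ i β, 1 ≤ k → 2 * i + 1 ≤ 2 ^ μ →
    L (k + 1) σ (2 * i + 1) (2 * β) ≤ L k σ i β + L k σ (i + 1) β + c * (2 * i + 1)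

/-- a left open cell -/
theorem exists_lcell {M A : ℕ} (hM : 0 < M) :
    M * ((A - 1) / M) ≤ A ∧ A ≤ M * ((A - 1) / M + 1) ∧ (0 < A → M * ((A - 1) / M) < A) := by
  have h1 := Nat.div_add_mod (A - 1) M
  have h2 := Nat.mod_lt (A - 1) hM
  rw [Nat.mul_add, Nat.mul_one]
  generalize M * ((A - 1) / M) = X at *
  omega

/-- left open cells of the halves and of the sum -/
theorem exists_cells3 {M A B : ℕ} (hM : 0 < M) (hAB : B ≤ A) :
    ∃ iK iW cy, cy ≤ 1 ∧ iW ≤ iK ∧ M * iK ≤ A ∧ A ≤ M * (iK + 1) ∧ (0 < A → M * iK < A) ∧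
      M * iW ≤ B ∧ B ≤ M * (iW + 1) ∧ (0 < B → M * iW < B) ∧ M * (iK + iW + cy) ≤ A + B ∧
      A + B ≤ M * (iK + iW + cy + 1) ∧ (0 < A + B → M * (iK + iW + cy) < A + B) := by
  obtain ⟨a1, a2, a3⟩ := exists_lcell (A := A) hM
  obtain ⟨b1, b2, b3⟩ := exists_lcell (A := B) hM
  have hle : (B - 1) / M ≤ (A - 1) / M := Nat.div_le_div_right (by omega)
  generalize (A - 1) / M = iK at *
  generalize (B - 1) / M = iW at *
  rcases le_or_gt (A + B) (M * (iK + iW + 1)) with h | h
  · refine ⟨iK, iW, 0, by omega, hle, a1, a2, a3, b1, b2, b3, ?_, ?_, ?_⟩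
    · rw [Nat.add_zero, Nat.mul_add]; omega
    · rw [Nat.add_zero]; exact h
    · intro h0
      rw [Nat.add_zero, Nat.mul_add]
      rcases Nat.eq_zero_or_pos A with h1 | h1
      · have h2 := b3 (by omega)
        omega
      · have h2 := a3 h1
        omega
  · refine ⟨iK, iW, 1, le_rfl, hle, a1, a2, a3, b1, b2, b3, h.le, ?_, fun _ => h⟩
    have e : M * (iK + iW + 1 + 1) = M * (iK + 1) + M * (iW + 1) := by ring
    rw [e]
    omega

theorem e2_le {s : Finset α} {F : Finset (Finset α)} (hF : Sub s F) :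
    (e2 s F : ℤ) ≤ 2 * g F.card := by
  have h := L2_nonneg hF
  unfold L2 at h
  linarith

/-- two elements which are separated by all directions are not joined -/
theorem e2_two {s : Finset α} {F : Finset (Finset α)} (hF : Sub s F) (h2 : F.card = 2)
    (hs : 2 ≤ s.card) (hU : ∀ a ∈ s, ∀ b, 1 ≤ (half a b F).card) : (e2 s F : ℤ) ≤ 0 := by
  have hne : s.Nonempty := by rw [← card_pos]; omega
  obtain ⟨a, ha⟩ := hne
  have he := e2_half ha true F
  simp only [Bool.not_true] at he
  have hsum := card_half_add' a true F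
  simp only [Bool.not_true] at hsum
  have u1 := hU a ha true
  have u2 := hU a ha false
  have hK1 : (half a true F).card = 1 := by omega
  have hW1 : (half a false F).card = 1 := by omega
  have eK := e2_le (hF.half a true)
  have eW := e2_le (hF.half a false)
  rw [hK1] at eK
  rw [hW1] at eW
  have g1 : EdgeIso.g 1 = 0 := EdgeIso.g_one
  rw [g1] at eK eW
  have hne2 : (s.erase a).Nonempty := by
    rw [← card_pos, card_erase_of_mem ha]
    omega
  obtain ⟨d, hd⟩ := hne2
  have hQ : ∀ c ∈ s, ∀ d, 1 ≤ (half c d F).card := fun c hc d => hU c hc d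
  have k1 := hf_K (b := true) hQ hd true
  have k2 := hf_K (b := true) hQ hd false
  simp only [Bool.not_true] at k1 k2
  have hsumK := card_half_add' d true (half a true F)
  simp only [Bool.not_true] at hsumK
  have hin := card_inter_sdiff (half a true F) (half a false F)
  have h0 : (half a true F ∩ half a false F).card = 0 := by omega
  rw [h0] at he
  have he' : (e2 s F : ℤ) ≤ e2 (s.erase a) (half a true F) + e2 (s.erase a) (half a false F) +
    2 * (0 : ℕ) := by exact_mod_cast he
  push_cast at he' eK eW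
  linarith

theorem lin_ev {T : ℕ → ℤ} {M V i : ℕ} (h1 : M * i ≤ V) (h2 : V ≤ M * (i + 1)) (hM : 0 < M) :
    ev T M V = lin T M i V := by
  rw [ev_eq h1 h2 hM]
  rfl

/-- comparison of the coarse and the fine interpolation on a fine cell -/
theorem lin_link {f : ℕ → ℤ} {l : ℕ → ℤ} {c : ℤ} {M V : ℤ} {i j : ℕ} (hM : 0 < M)
    (hij : j = 2 * i ∨ j = 2 * i + 1) (h1 : M * j ≤ V) (h2 : V ≤ M * (j + 1))
    (a0 : j = 2 * i → f j ≤ 2 * l i + c * j) (a1 : j = 2 * i → f (j + 1) ≤ l i + l (i + 1) + c * (j + 1))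
    (b0 : j = 2 * i + 1 → f j ≤ l i + l (i + 1) + c * j)
    (b1 : j = 2 * i + 1 → f (j + 1) ≤ 2 * l (i + 1) + c * (j + 1)) :
    lin f M j V ≤ lin l (2 * M) i V + c * V := by
  unfold lin
  have n1 : 0 ≤ V - M * j := by linarith
  have n2 : 0 ≤ M * (j + 1) - V := by linarith
  rcases hij with h | h
  · have f0 := mul_le_mul_of_nonneg_left (a0 h) n2
    have f1 := mul_le_mul_of_nonneg_left (a1 h) n1
    subst h
    push_cast at *
    nlinarith
  · have f0 := mul_le_mul_of_nonneg_left (b0 h) n2
    have f1 := mul_le_mul_of_nonneg_left (b1 h) n1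
    subst h
    push_cast at *
    nlinarith

/-- the claim for the families of at most one unit -/
def ClL (μ ν c : ℕ) (rs : ℕ → ℕ) (L : ℕ → ℕ → ℕ → ℕ → ℤ) (R k : ℕ) (s : Finset α)
    (F : Finset (Finset α)) (V : ℕ) : Prop :=
  ∀ σ β, c * 2 ^ μ * (e2 s F : ℤ) ≤ ev (fun i => L k σ i β) (2 ^ R) (2 ^ μ * F.card) +
    c * ((R : ℤ) - ν) * (2 ^ μ * F.card) + rs σ * c * max 0 ((2 : ℤ) ^ R * β - 2 ^ μ * V)

/-- the claim for the families of more than one unit -/
def ClU (μ ν c : ℕ) (rs : ℕ → ℕ) (U : ℕ → ℕ → ℕ → ℕ → ℤ) (R k : ℕ) (s : Finset α)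
    (F : Finset (Finset α)) (V : ℕ) : Prop :=
  ∀ σ β, c * 2 ^ μ * (e2 s F : ℤ) ≤ ev (fun i => U k σ i β) (2 ^ R) (2 ^ μ * F.card) +
    c * ((R : ℤ) - ν) * (2 ^ μ * F.card) + rs σ * c * max 0 ((2 : ℤ) ^ R * (2 * β) - 2 ^ μ * V)

/-- from the finer scale to the coarser one -/
theorem OctE.link {μ ν c : ℕ} {rs : ℕ → ℕ} {U L : ℕ → ℕ → ℕ → ℕ → ℤ} (h : OctE μ ν c rs U L) {R k : ℕ}
    (hk : 1 ≤ k) {s : Finset α} {F : Finset (Finset α)} {V : ℕ} (hsz : F.card ≤ 2 ^ (R + 1))
    (hL : F.card ≤ 2 ^ R → ClL μ ν c rs L R (k + 1) s F V)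
    (hU : 2 ^ R < F.card → ClU μ ν c rs U R (k + 1) s F V) : ClL μ ν c rs L (R + 1) k s F V := by
  intro σ β
  have hM : 0 < 2 ^ R := by positivity
  have hμ : 0 < 2 ^ μ := by positivity
  obtain ⟨j1, j2, j3⟩ := exists_lcell (A := 2 ^ μ * F.card) hM
  generalize (2 ^ μ * F.card - 1) / 2 ^ R = j at *
  have hA : 2 ^ μ * F.card ≤ 2 ^ R * (2 * 2 ^ μ) := by
    calc 2 ^ μ * F.card ≤ 2 ^ μ * 2 ^ (R + 1) := Nat.mul_le_mul_left _ hsz
      _ = 2 ^ R * (2 * 2 ^ μ) := by rw [pow_succ]; ring
  have hjlt : j < 2 * 2 ^ μ := by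
    rcases Nat.eq_zero_or_pos (2 ^ μ * F.card) with h0 | h0
    · have : 2 ^ R * j = 0 := by omega
      rcases Nat.mul_eq_zero.mp this with h1 | h1
      · omega
      · omega
    · exact Nat.lt_of_mul_lt_mul_left ((j3 h0).trans_le hA)
  have hi : j = 2 * (j / 2) ∨ j = 2 * (j / 2) + 1 := by omega
  have hp : (2 : ℕ) ^ (R + 1) = 2 ^ R * 2 := pow_succ 2 R
  have c1 : 2 ^ (R + 1) * (j / 2) ≤ 2 ^ μ * F.card := by
    refine le_trans ?_ j1
    rw [hp, Nat.mul_assoc]
    exact Nat.mul_le_mul_left _ (by omega)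
  have c2 : 2 ^ μ * F.card ≤ 2 ^ (R + 1) * (j / 2 + 1) := by
    refine j2.trans ?_
    rw [hp, Nat.mul_assoc]
    exact Nat.mul_le_mul_left _ (by omega)
  rw [lin_ev c1 c2 (by positivity)]
  have z1 : ((2 ^ R : ℕ) : ℤ) * j ≤ ((2 ^ μ * F.card : ℕ) : ℤ) := by exact_mod_cast j1
  have z2 : ((2 ^ μ * F.card : ℕ) : ℤ) ≤ ((2 ^ R : ℕ) : ℤ) * (j + 1) := by exact_mod_cast j2
  have hMz : (0 : ℤ) < ((2 ^ R : ℕ) : ℤ) := by positivity
  have e2M : ((2 ^ (R + 1) : ℕ) : ℤ) = 2 * ((2 ^ R : ℕ) : ℤ) := by
    rw [hp]; push_cast; ring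
  rw [e2M]
  rcases lt_or_ge j (2 ^ μ) with hj | hj
  · -- the lower part
    have hF : F.card ≤ 2 ^ R := by
      have h1 : 2 ^ μ * F.card ≤ 2 ^ μ * 2 ^ R := by
        calc 2 ^ μ * F.card ≤ 2 ^ R * (j + 1) := j2
          _ ≤ 2 ^ R * 2 ^ μ := Nat.mul_le_mul_left _ hj
          _ = 2 ^ μ * 2 ^ R := Nat.mul_comm _ _
      exact Nat.le_of_mul_le_mul_left h1 hμ
    have hc := hL hF σ (2 * β)
    rw [lin_ev j1 j2 hM] at hc
    have hl := lin_link (f := fun i => L (k + 1) σ i (2 * β)) (l := fun i => L k σ i β) (c := c)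
      (i := j / 2) hMz hi z1 z2
      (fun hj' => by
        have := h.linkL k σ (j / 2) β hk (by omega)
        rw [← hj'] at this
        have e : (j : ℤ) = 2 * (j / 2 : ℕ) := by exact_mod_cast hj'
        rw [e]
        linarith)
      (fun hj' => by
        have := h.linkL' k σ (j / 2) β hk (by omega)
        have e : (j : ℤ) = 2 * (j / 2 : ℕ) := by exact_mod_cast hj'
        have e' : 2 * (j / 2) + 1 = j + 1 := by omega
        rw [e'] at this
        rw [e]
        linarith)
      (fun hj' => by
        have := h.linkL' k σ (j / 2) β hk (by omega)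
        have e : (j : ℤ) = 2 * (j / 2 : ℕ) + 1 := by exact_mod_cast hj'
        rw [← hj'] at this
        rw [e]
        linarith)
      (fun hj' => by
        have := h.linkL k σ (j / 2 + 1) β hk (by omega)
        have e : (j : ℤ) = 2 * (j / 2 : ℕ) + 1 := by exact_mod_cast hj'
        have e' : 2 * (j / 2 + 1) = j + 1 := by omega
        rw [e'] at this
        rw [e]
        push_cast at this ⊢
        linarith)
    have e3 : (2 : ℤ) ^ R * ((2 * β : ℕ) : ℤ) = 2 ^ (R + 1) * β := by push_cast; ring
    rw [e3] at hc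
    push_cast at hc hl ⊢
    linarith
  · -- the upper part
    have hF : 2 ^ R < F.card := by
      have h0 : 0 < 2 ^ μ * F.card := by
        have h1 : 2 ^ R * 2 ^ μ ≤ 2 ^ R * j := Nat.mul_le_mul_left _ hj
        have h2 : 0 < 2 ^ R * 2 ^ μ := by positivity
        omega
      have h1 : 2 ^ μ * 2 ^ R < 2 ^ μ * F.card := by
        calc 2 ^ μ * 2 ^ R = 2 ^ R * 2 ^ μ := Nat.mul_comm _ _
          _ ≤ 2 ^ R * j := Nat.mul_le_mul_left _ hj
          _ < 2 ^ μ * F.card := j3 h0
      exact Nat.lt_of_mul_lt_mul_left h1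
    have hc := hU hF σ β
    rw [lin_ev j1 j2 hM] at hc
    have hl := lin_link (f := fun i => U (k + 1) σ i β) (l := fun i => L k σ i β) (c := c)
      (i := j / 2) hMz hi z1 z2
      (fun hj' => by
        have := h.linkU k σ (j / 2) β hk (by omega) (by omega)
        rw [← hj'] at this
        have e : (j : ℤ) = 2 * (j / 2 : ℕ) := by exact_mod_cast hj'
        rw [e]
        linarith)
      (fun hj' => by
        have := h.linkU' k σ (j / 2) β hk (by omega) (by omega)
        have e : (j : ℤ) = 2 * (j / 2 : ℕ) := by exact_mod_cast hj'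
        have e' : 2 * (j / 2) + 1 = j + 1 := by omega
        rw [e'] at this
        rw [e]
        linarith)
      (fun hj' => by
        have := h.linkU' k σ (j / 2) β hk (by omega) (by omega)
        have e : (j : ℤ) = 2 * (j / 2 : ℕ) + 1 := by exact_mod_cast hj'
        rw [← hj'] at this
        rw [e]
        linarith)
      (fun hj' => by
        have := h.linkU k σ (j / 2 + 1) β hk (by omega) (by omega)
        have e : (j : ℤ) = 2 * (j / 2 : ℕ) + 1 := by exact_mod_cast hj'
        have e' : 2 * (j / 2 + 1) = j + 1 := by omega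
        rw [e'] at this
        rw [e]
        push_cast at this ⊢
        linarith)
    have e3 : (2 : ℤ) ^ R * (2 * (β : ℤ)) = 2 ^ (R + 1) * β := by ring
    rw [e3] at hc
    push_cast at hc hl ⊢
    linarith

/-- the upper bound of the number of edges, all octaves -/
theorem OctE.bound {μ ν c : ℕ} {rs : ℕ → ℕ} {U L : ℕ → ℕ → ℕ → ℕ → ℤ} (h : OctE μ ν c rs U L) (N : ℕ) :
    ∀ R k, N = R + k → 1 ≤ k → ∀ (s : Finset α) (F : Finset (Finset α)), s.card = N → Sub s F →
      F.card ≤ 2 * 2 ^ R → ∀ V, Hf s F V → V ≤ F.card →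
      (F.card ≤ 2 ^ R → ClL μ ν c rs L R k s F V) ∧ (2 ^ R < F.card → ClU μ ν c rs U R k s F V) := by
  induction N with
  | zero =>
    intro R k hN hk
    omega
  | succ N ih =>
    intro R
    induction R with
    | zero =>
      intro k hN hk s F hs hF hsz V hV h2V
      have he := e2_le hF
      have hne : s.Nonempty := by
        rw [← card_pos, hs]
        exact Nat.succ_pos N
      rw [pow_zero, Nat.mul_one] at hsz
      have hev : ∀ (T : ℕ → ℤ) j, ev T (2 ^ 0) j = T j := by
        intro T j
        unfold ev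
        simp only [pow_zero, Nat.div_one, Nat.mod_one]
        push_cast
        ring
      have hμ0 : (0 : ℤ) ≤ 2 ^ μ := by positivity
      have hc0 : (0 : ℤ) ≤ c := by positivity
      constructor
      · intro h1 σ β
        rw [pow_zero] at h1
        have hV0 : V = 0 := by
          obtain ⟨a, ha⟩ := hne
          have h2 := hV a ha true
          have h3 := hV a ha false
          have h4 := card_half_add' a true F
          simp only [Bool.not_true] at h4
          omega
        rw [hev, hV0]
        have h01 : F.card = 0 ∨ F.card = 1 := by omega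
        rcases h01 with h0 | h0
        · rw [h0] at he ⊢
          rw [EdgeIso.g_zero] at he
          have q1 := h.zero k σ β
          have q2 : (0 : ℤ) ≤ rs σ * c * max 0 ((2 : ℤ) ^ 0 * β - 2 ^ μ * (0 : ℕ)) := by
            have := le_max_left (0 : ℤ) ((2 : ℤ) ^ 0 * β - 2 ^ μ * (0 : ℕ))
            positivity
          have q3 := mul_nonneg hc0 hμ0
          have q4 : c * 2 ^ μ * (e2 s F : ℤ) ≤ 0 := by
            have := mul_le_mul_of_nonneg_left he q3
            simpa using this
          simp only [Nat.mul_zero]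
          push_cast at *
          linarith
        · rw [h0] at he ⊢
          rw [EdgeIso.g_one] at he
          have q1 := h.one k σ β hk
          have q2 : (rs σ : ℤ) * c * β ≤ rs σ * c * max 0 ((2 : ℤ) ^ 0 * β - 2 ^ μ * (0 : ℕ)) := by
            apply mul_le_mul_of_nonneg_left _ (by positivity)
            refine le_trans ?_ (le_max_right _ _)
            push_cast
            linarith
          have q3 := mul_nonneg hc0 hμ0
          have q4 : c * 2 ^ μ * (e2 s F : ℤ) ≤ 0 := by
            have := mul_le_mul_of_nonneg_left he q3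
            simpa using this
          rw [Nat.mul_one]
          push_cast at *
          linarith
      · intro h1 σ β
        rw [pow_zero] at h1
        have h2 : F.card = 2 := by omega
        rw [hev]
        have g2 : EdgeIso.g 2 = 1 := by
          have := EdgeIso.g_even 1
          rw [EdgeIso.g_one] at this
          simpa using this
        have q3 := mul_nonneg hc0 hμ0
        have hV2 : (V : ℤ) ≤ 2 := by
          have : V ≤ 2 := by omega
          exact_mod_cast this
        have hpen : (rs σ : ℤ) * c * max 0 (2 * (β : ℤ) - 2 * 2 ^ μ) ≤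
            rs σ * c * max 0 ((2 : ℤ) ^ 0 * (2 * β) - 2 ^ μ * V) := by
          apply mul_le_mul_of_nonneg_left _ (by positivity)
          apply max_le_max_left
          have := mul_le_mul_of_nonneg_left hV2 hμ0
          rw [pow_zero]
          linarith
        have e0 : 2 ^ μ * F.card = 2 * 2 ^ μ := by rw [h2, Nat.mul_comm]
        rw [h2, g2] at he
        have q4 : c * 2 ^ μ * (e2 s F : ℤ) ≤ c * 2 ^ μ * 2 := by
          have := mul_le_mul_of_nonneg_left he q3
          simpa using this
        rw [e0, h2]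
        rcases Nat.lt_or_ge k 2 with hk2 | hk2
        · have hk1 : k = 1 := by omega
          subst hk1
          have q1 := h.two1 σ β
          push_cast at *
          linarith
        · rcases Nat.eq_zero_or_pos V with hV0 | hV0
          · have q1 := h.two0 k σ β hk2
            have q5 : (rs σ : ℤ) * c * (2 * β) ≤
                rs σ * c * max 0 ((2 : ℤ) ^ 0 * (2 * β) - 2 ^ μ * V) := by
              apply mul_le_mul_of_nonneg_left _ (by positivity)
              refine le_trans ?_ (le_max_right _ _)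
              rw [hV0]
              push_cast
              linarith
            push_cast at *
            linarith
          · have q1 := h.two k σ β hk2
            have q6 := e2_two hF h2 (by omega) (fun a ha b => by
              have := hV a ha b
              omega)
            have q7 : c * 2 ^ μ * (e2 s F : ℤ) ≤ 0 := by
              have := mul_le_mul_of_nonneg_left q6 q3
              simpa using this
            push_cast at *
            linarith
    | succ R ihR =>
      intro k hN hk s F hs hF hsz V hV h2V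
      have hμ : 0 < 2 ^ μ := by positivity
      have hp : (2 : ℕ) ^ (R + 1) = 2 * 2 ^ R := by rw [pow_succ, Nat.mul_comm]
      constructor
      · intro hx
        have h1 := ihR (k + 1) (by omega) (by omega) s F hs hF (by rw [← hp]; exact hx) V hV h2V
        exact h.link hk hx h1.1 h1.2
      · intro hx σ β
        have hne : s.Nonempty := by
          rw [← card_pos, hs]
          exact Nat.succ_pos N
        obtain ⟨a, ha, b, hQ⟩ := exists_min_dir hne F
        have hsN : (s.erase a).card = N := by rw [card_erase_of_mem ha, hs]; rfl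
        have hQP : (half a (!b) F).card ≤ (half a b F).card := hQ a ha b
        have hsum := card_half_add' a b F
        have hfK : ∀ c' ∈ s.erase a, ∀ d, (half a (!b) F).card -
            (half a (!b) F \ half a b F).card ≤ 2 * (half c' d (half a b F)).card := by
          intro c' hc' d
          have := hf_K (b := b) hQ hc' d
          omega
        have hfW : ∀ c' ∈ s.erase a, ∀ d, 2 * (half a (!b) F).card - ((half a b F).card +
            (half a (!b) F \ half a b F).card) ≤ 2 * (half c' d (half a (!b) F)).card := by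
          intro c' hc' d
          have := hf_W (b := b) hQ hc' d
          omega
        rcases le_or_gt (half a b F).card (2 ^ (R + 1)) with hP | hP
        · -- the halves have at most one unit: use the finer scale
          have hM : 0 < 2 ^ R := by positivity
          obtain ⟨iK, iW, cy, hcy, hWK, hK1, hK2, hK3, hW1, hW2, hW3, hX1, hX2, hX3⟩ :=
            exists_cells3 (A := 2 ^ μ * (half a b F).card) (B := 2 ^ μ * (half a (!b) F).card) hM
              (Nat.mul_le_mul_left _ hQP)
          rw [← Nat.mul_add, hsum] at hX1 hX2 hX3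
          have hFpos : 0 < 2 ^ μ * F.card := by
            have : 0 < F.card := lt_of_le_of_lt (Nat.zero_le _) hx
            positivity
          have hPpos : 2 ^ R < (half a b F).card := by omega
          have hPpos' : 0 < 2 ^ μ * (half a b F).card := by
            have : 0 < (half a b F).card := lt_of_le_of_lt (Nat.zero_le _) hPpos
            positivity
          have hiK : iK < 2 * 2 ^ μ := by
            have h1 : 2 ^ R * iK < 2 ^ R * (2 * 2 ^ μ) := by
              calc 2 ^ R * iK < 2 ^ μ * (half a b F).card := hK3 hPpos'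
                _ ≤ 2 ^ μ * 2 ^ (R + 1) := Nat.mul_le_mul_left _ hP
                _ = 2 ^ R * (2 * 2 ^ μ) := by rw [hp]; ring
            exact Nat.lt_of_mul_lt_mul_left h1
          have hj1 : 2 * 2 ^ μ ≤ iK + iW + cy := by
            have h1 : 2 ^ R * (2 * 2 ^ μ) < 2 ^ R * (iK + iW + cy + 1) := by
              calc 2 ^ R * (2 * 2 ^ μ) = 2 ^ μ * 2 ^ (R + 1) := by rw [hp]; ring
                _ < 2 ^ μ * F.card := Nat.mul_lt_mul_of_pos_left hx hμ
                _ ≤ _ := hX2
            have h2 := Nat.lt_of_mul_lt_mul_left h1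
            omega
          have hj2 : iK + iW + cy < 4 * 2 ^ μ := by
            have h1 : 2 ^ R * (iK + iW + cy) < 2 ^ R * (4 * 2 ^ μ) := by
              calc 2 ^ R * (iK + iW + cy) < 2 ^ μ * F.card := hX3 hFpos
                _ ≤ 2 ^ μ * (2 * 2 ^ (R + 1)) := Nat.mul_le_mul_left _ hsz
                _ = 2 ^ R * (4 * 2 ^ μ) := by rw [hp]; ring
            exact Nat.lt_of_mul_lt_mul_left h1
          have hcell1 : 2 ^ (R + 1) * ((iK + iW + cy) / 2) ≤ 2 ^ μ * F.card := by
            refine le_trans ?_ hX1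
            rw [hp, Nat.mul_comm 2, Nat.mul_assoc]
            exact Nat.mul_le_mul_left _ (by omega)
          have hcell2 : 2 ^ μ * F.card ≤ 2 ^ (R + 1) * ((iK + iW + cy) / 2 + 1) := by
            refine hX2.trans ?_
            rw [hp, Nat.mul_comm 2, Nat.mul_assoc]
            exact Nat.mul_le_mul_left _ (by omega)
          have hKcl := (ih R k (by omega) hk (s.erase a) (half a b F) hsN (hF.half a b)
            (by rw [← hp]; exact hP) _ hfK (by omega)).2 hPpos
          have hWsz : (half a (!b) F).card ≤ 2 * 2 ^ R := by rw [← hp]; omega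
          have hWcl := ih R k (by omega) hk (s.erase a) (half a (!b) F) hsN (hF.half a (!b))
            hWsz _ hfW (by omega)
          have hfin : ∀ (CW : ℕ → ℕ → ℕ → ℤ) (mW : ℕ),
              CovE 1 c (rs σ) (U k σ) rs (U k) CW mW iK iW cy β 0 →
              (∀ σ β, c * 2 ^ μ * (e2 (s.erase a) (half a (!b) F) : ℤ) ≤
                lin (fun i => CW σ i β) ((2 ^ R : ℕ) : ℤ) iW (2 ^ μ * (half a (!b) F).card) +
                c * ((R : ℤ) - ν) * (2 ^ μ * (half a (!b) F).card) +
                rs σ * c * max 0 (((2 ^ R : ℕ) : ℤ) * (mW * β) -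
                2 ^ μ * (2 * (half a (!b) F).card -
                ((half a b F).card + (half a (!b) F \ half a b F).card) : ℕ))) →
              c * 2 ^ μ * (e2 s F : ℤ) ≤ ev (fun i => U k σ i β) (2 ^ (R + 1)) (2 ^ μ * F.card) +
                c * (((R + 1 : ℕ) : ℤ) - ν) * (2 ^ μ * F.card) +
                rs σ * c * max 0 ((2 : ℤ) ^ (R + 1) * (2 * β) - 2 ^ μ * V) := by
            intro CW mW hcov hw
            have key := stepE_family (γ := μ) (ω := (R : ℤ) - ν) ha hQP hcy (hV a ha (!b)) hK1 hK2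
              hW1 hW2 hX1 hX2 hcov (fun σ β => by
                have := hKcl σ β
                rw [lin_ev hK1 hK2 hM] at this
                push_cast at this ⊢
                exact this) hw
            rw [lin_ev hcell1 hcell2 (by positivity)]
            rw [pow_one] at key
            push_cast at key ⊢
            rw [pow_succ, mul_comm ((2 : ℤ) ^ R) 2]
            linarith
          rcases lt_or_ge iW (2 ^ μ) with hW | hW
          · have hQs : (half a (!b) F).card ≤ 2 ^ R := by
              have h1 : 2 ^ μ * (half a (!b) F).card ≤ 2 ^ μ * 2 ^ R := by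
                calc 2 ^ μ * (half a (!b) F).card ≤ 2 ^ R * (iW + 1) := hW2
                  _ ≤ 2 ^ R * 2 ^ μ := Nat.mul_le_mul_left _ hW
                  _ = _ := Nat.mul_comm _ _
              exact Nat.le_of_mul_le_mul_left h1 hμ
            refine hfin (L k) 1 (h.stepI k σ iK iW cy β hk hiK hWK hcy hj1 hj2 hW) ?_
            intro σ' β'
            have := hWcl.1 hQs σ' β'
            rw [lin_ev hW1 hW2 hM] at this
            push_cast at this ⊢
            rw [one_mul]
            exact this
          · have hQs : 2 ^ R < (half a (!b) F).card := by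
              have h0 : 0 < 2 ^ μ * (half a (!b) F).card := by
                have h1 : 2 ^ R * 2 ^ μ ≤ 2 ^ R * iW := Nat.mul_le_mul_left _ hW
                have h2 : 0 < 2 ^ R * 2 ^ μ := by positivity
                omega
              have h1 : 2 ^ μ * 2 ^ R < 2 ^ μ * (half a (!b) F).card := by
                calc 2 ^ μ * 2 ^ R = 2 ^ R * 2 ^ μ := Nat.mul_comm _ _
                  _ ≤ 2 ^ R * iW := Nat.mul_le_mul_left _ hW
                  _ < _ := hW3 h0
              exact Nat.lt_of_mul_lt_mul_left h1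
            refine hfin (U k) 2 (h.stepI' k σ iK iW cy β hk hiK hWK hcy hj1 hj2 hW) ?_
            intro σ' β'
            have := hWcl.2 hQs σ' β'
            rw [lin_ev hW1 hW2 hM] at this
            push_cast at this ⊢
            exact this
        · -- the large half has more than one unit
          have hk2 : 2 ≤ k := by
            by_contra hcon
            have hk1 : k = 1 := by omega
            have hPN : (half a b F).card ≤ 2 ^ N := by rw [← hsN]; exact (hF.half a b).card_le
            have : N = R + 1 := by omega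
            rw [this] at hPN
            omega
          obtain ⟨k', rfl⟩ : ∃ k', k = k' + 1 := ⟨k - 1, by omega⟩
          have hM : 0 < 2 ^ (R + 1) := by positivity
          obtain ⟨iK, iW, cy, hcy, hWK, hK1, hK2, hK3, hW1, hW2, hW3, hX1, hX2, hX3⟩ :=
            exists_cells3 (A := 2 ^ μ * (half a b F).card) (B := 2 ^ μ * (half a (!b) F).card) hM
              (Nat.mul_le_mul_left _ hQP)
          rw [← Nat.mul_add, hsum] at hX1 hX2 hX3
          have hFpos : 0 < 2 ^ μ * F.card := by
            have : 0 < F.card := lt_of_le_of_lt (Nat.zero_le _) hx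
            positivity
          have hPpos' : 0 < 2 ^ μ * (half a b F).card := by
            have : 0 < (half a b F).card := lt_of_le_of_lt (Nat.zero_le _) hP
            positivity
          have hPsz : (half a b F).card ≤ 2 * 2 ^ (R + 1) := by omega
          have hiK : iK < 2 * 2 ^ μ := by
            have h1 : 2 ^ (R + 1) * iK < 2 ^ (R + 1) * (2 * 2 ^ μ) := by
              calc 2 ^ (R + 1) * iK < 2 ^ μ * (half a b F).card := hK3 hPpos'
                _ ≤ 2 ^ μ * (2 * 2 ^ (R + 1)) := Nat.mul_le_mul_left _ hPsz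
                _ = 2 ^ (R + 1) * (2 * 2 ^ μ) := by ring
            exact Nat.lt_of_mul_lt_mul_left h1
          have hiK' : 2 ^ μ ≤ iK := by
            have h1 : 2 ^ (R + 1) * 2 ^ μ < 2 ^ (R + 1) * (iK + 1) := by
              calc 2 ^ (R + 1) * 2 ^ μ = 2 ^ μ * 2 ^ (R + 1) := Nat.mul_comm _ _
                _ < 2 ^ μ * (half a b F).card := Nat.mul_lt_mul_of_pos_left hP hμ
                _ ≤ _ := hK2
            have h2 := Nat.lt_of_mul_lt_mul_left h1
            omega
          have hj2 : iK + iW + cy < 2 * 2 ^ μ := by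
            have h1 : 2 ^ (R + 1) * (iK + iW + cy) < 2 ^ (R + 1) * (2 * 2 ^ μ) := by
              calc 2 ^ (R + 1) * (iK + iW + cy) < 2 ^ μ * F.card := hX3 hFpos
                _ ≤ 2 ^ μ * (2 * 2 ^ (R + 1)) := Nat.mul_le_mul_left _ hsz
                _ = 2 ^ (R + 1) * (2 * 2 ^ μ) := by ring
            exact Nat.lt_of_mul_lt_mul_left h1
          have hKcl := (ih (R + 1) k' (by omega) (by omega) (s.erase a) (half a b F) hsN
            (hF.half a b) hPsz _ hfK (by omega)).2 hP
          have hWcl := (ih (R + 1) k' (by omega) (by omega) (s.erase a) (half a (!b) F) hsN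
            (hF.half a (!b)) (by omega) _ hfW (by omega)).1 (by omega)
          have key := stepE_family (γ := μ) (ω := ((R + 1 : ℕ) : ℤ) - ν) ha hQP hcy
            (hV a ha (!b)) hK1 hK2 hW1 hW2 hX1 hX2
            (h.stepII k' σ iK iW cy β (by omega) hiK' hiK hcy hj2)
            (fun σ β => by
                have := hKcl σ β
                rw [lin_ev hK1 hK2 hM] at this
                push_cast at this ⊢
                exact this)
            (fun σ β => by
                have := hWcl σ β
                rw [lin_ev hW1 hW2 hM] at this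
                push_cast at this ⊢
                rw [one_mul]
                exact this)
          rw [lin_ev (i := iK + iW + cy) hX1 hX2 hM]
          simp only [pow_zero, Nat.div_one] at key
          push_cast at key ⊢
          simp only [one_mul, add_zero] at key
          exact key

end Pool.Agent.EdgeIso.Cell
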