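import Pool.Agent.Lib.MP_48c8f3_co.Bas
import Pool.Agent.Lib.MP_48c8f3_co.CellM
import Pool.Agent.Lib.MP_48c8f3_co.CellK

set_option autoImplicit false

/-!
MP_48c8f3_co, all scales certificates, part N: a checker for the step condition `CovE`, evaluated by
the kernel.
-/

namespace Pool.Agent.EdgeIso.Cell

open Pool.Agent.EdgeIso.Frame

/-! ### the conditions -/

/-- one corner, right side `R` -/
def cvE (c : ℕ) (cK cW k w : ℤ) (bK bW φ p q : ℕ) (R : ℤ) : Prop :=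
  k + w + 2 * c * q + cK * max 0 ((bK : ℤ) + φ - q) + cW * max 0 ((bW : ℤ) + φ - (2 * (q : ℤ) - p)) ≤
    R + 2 * c * φ

/-- all corners, right sides `R` -/
def CorR (c : ℕ) (cK cW : ℤ) (K W : ℕ → ℤ) (iK iW bK bW φ : ℕ) (z0 z1 : Bool)
    (R : ℕ → ℕ → ℤ) : Prop :=
  (z0 = true → cvE c cK cW (K iK) (W iW) bK bW φ iK iW (R iK iW)) ∧
  (z1 = true → cvE c cK cW (K (iK + 1)) (W (iW + 1)) bK bW φ (iK + 1) (iW + 1)
    (R (iK + 1) (iW + 1))) ∧
  cvE c cK cW (K (iK + 1)) (W iW) bK bW φ (iK + 1) iW (R (iK + 1) iW) ∧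
  (iK = iW → K iK + K (iK + 1) + (W iW + W (iW + 1)) + 2 * c * (2 * iW + 1) +
    cK * max 0 (2 * ((bK : ℤ) + φ) - (2 * iW + 1)) +
    cW * max 0 (2 * ((bW : ℤ) + φ) - (2 * iW + 1)) ≤
    R (iK + 1) iW + R iK (iW + 1) + 2 * (2 * c * φ)) ∧
  (iK ≠ iW → cvE c cK cW (K iK) (W (iW + 1)) bK bW φ iK (iW + 1) (R iK (iW + 1)))

/-- cover by intervals, for given right sides -/
inductive CovR (c : ℕ) (rs : ℕ → ℕ) (CK CW : ℕ → ℕ → ℕ → ℤ) (mW iK iW : ℕ) (z0 z1 : Bool)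
    (R : ℕ → ℕ → ℤ) : ℕ → Prop
  | last (x σK σW : ℕ) (h : CorR c (cP (rs σK) c 0) (cP (rs σW) c 0) (fun i => CK σK i 0)
      (fun i => CW σW i 0) iK iW (2 * 0) (mW * 0) x z0 z1 R) : CovR c rs CK CW mW iK iW z0 z1 R x
  | next (x y σK bK σW bW : ℕ)
      (h1 : CorR c (cP (rs σK) c bK) (cP (rs σW) c bW) (fun i => CK σK i bK)
        (fun i => CW σW i bW) iK iW (2 * bK) (mW * bW) x z0 z1 R)
      (h2 : CorR c (cP (rs σK) c bK) (cP (rs σW) c bW) (fun i => CK σK i bK)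
        (fun i => CW σW i bW) iK iW (2 * bK) (mW * bW) y z0 z1 R)
      (h : CovR c rs CK CW mW iK iW z0 z1 R y) : CovR c rs CK CW mW iK iW z0 z1 R x

/-- the right side of the family at a corner -/
def RP (κ c r : ℕ) (A : ℕ → ℕ → ℤ) (i β : ℕ) (ε : ℤ) (p q : ℕ) : ℤ :=
  2 ^ κ * A i β + (A (i + 1) β - A i β) * ((p : ℤ) + q - 2 ^ κ * i) + κ * c * ((p : ℤ) + q) +
    ε * (2 * r * c * (2 ^ κ * (β : ℤ) - q))

theorem cornE_of_corR {κ c r : ℕ} {A : ℕ → ℕ → ℤ} {rK rW : ℕ} {AK AW : ℕ → ℕ → ℤ}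
    {mW iK iW cy β bK bW φ : ℕ} {ε : ℤ} {z0 z1 : Bool} {R : ℕ → ℕ → ℤ}
    (hcy : cy ≤ 1) (hz0 : cy = 0 → z0 = true) (hz1 : cy = 1 → z1 = true)
    (hR : ∀ p q, iK ≤ p → p ≤ iK + 1 → iW ≤ q → q ≤ iW + 1 → iK + iW + cy ≤ p + q →
      p + q ≤ iK + iW + cy + 1 → R p q ≤ RP κ c r A ((iK + iW + cy) / 2 ^ κ) β ε p q)
    (h : CorR c (cP rK c bK) (cP rW c bW) (fun i => AK i bK) (fun i => AW i bW) iK iW (2 * bK)
      (mW * bW) φ z0 z1 R) : CornE κ c r rK rW A AK AW mW iK iW cy β bK bW φ ε := by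
  obtain ⟨h0, h1, h2, h3, h4⟩ := h
  have r1 := hR (iK + 1) iW (by omega) (by omega) (by omega) (by omega) (by omega) (by omega)
  have r2 := hR iK (iW + 1) (by omega) (by omega) (by omega) (by omega) (by omega) (by omega)
  unfold cvE at h0 h1 h2 h4
  unfold CornE
  unfold RP at r1 r2 hR
  generalize (iK + iW + cy) / 2 ^ κ = i at *
  refine ⟨fun hc => ?_, fun hc => ?_, ?_, fun hd => ?_, fun hd => ?_⟩
  · have g1 := h0 (hz0 hc)
    have g2 := hR iK iW (by omega) (by omega) (by omega) (by omega) (by omega) (by omega)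
    unfold phE
    push_cast at g1 g2 ⊢
    simp only [one_mul, sub_self, mul_zero, add_zero]
    linarith
  · have g1 := h1 (hz1 hc)
    have g2 := hR (iK + 1) (iW + 1) (by omega) (by omega) (by omega) (by omega) (by omega)
      (by omega)
    unfold phE
    push_cast at g1 g2 ⊢
    simp only [one_mul]
    linarith
  · unfold phE
    push_cast at h2 r1 ⊢
    simp only [one_mul, sub_self, mul_zero, add_zero]
    linarith
  · have g1 := h3 hd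
    subst hd
    unfold phE
    push_cast at g1 r1 r2 ⊢
    have e1 : (2 : ℤ) * (2 * bK + φ) - (2 * iK + 1) = 2 * (2 * bK + φ) - (2 * iK + 1) := rfl
    have e2 : (2 : ℤ) * (mW * bW + φ) - (2 * (2 * iK + 1) - (2 * iK + 1)) =
      2 * (mW * bW + φ) - (2 * iK + 1) := by ring
    rw [e2]
    linarith
  · have g1 := h4 hd
    unfold phE
    push_cast at g1 r2 ⊢
    simp only [one_mul, sub_self, mul_zero, add_zero]
    linarith

theorem covE_of_covR {κ c r : ℕ} {A : ℕ → ℕ → ℤ} {rs : ℕ → ℕ} {CK CW : ℕ → ℕ → ℕ → ℤ}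
    {mW iK iW cy β x : ℕ} {z0 z1 : Bool} {R : ℕ → ℕ → ℤ} (ε : ℤ) (hε : ε = 0 ∨ ε = 1)
    (hcy : cy ≤ 1) (hz0 : cy = 0 → z0 = true) (hz1 : cy = 1 → z1 = true)
    (hR : ∀ p q, iK ≤ p → p ≤ iK + 1 → iW ≤ q → q ≤ iW + 1 → iK + iW + cy ≤ p + q →
      p + q ≤ iK + iW + cy + 1 → R p q ≤ RP κ c r A ((iK + iW + cy) / 2 ^ κ) β ε p q)
    (h : CovR c rs CK CW mW iK iW z0 z1 R x) : CovE κ c r A rs CK CW mW iK iW cy β x := by
  induction h with
  | last x σK σW h => exact .last x σK σW ε hε (cornE_of_corR hcy hz0 hz1 hR h)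
  | next x y σK bK σW bW h1 h2 _ ih =>
    exact .next x y σK bK σW bW ε hε (cornE_of_corR hcy hz0 hz1 hR h1)
      (cornE_of_corR hcy hz0 hz1 hR h2) ih

/-! ### the checker -/

/-- one corner -/
noncomputable def cnE (k w rK rW X q Y Q RE : ℕ) : Bool :=
  Nat.ble (Nat.add (Nat.add k w) (Nat.add (Nat.mul rK (Nat.sub X q)) (Nat.mul rW (Nat.sub Y Q)))) RE

/-- all corners; the values `w0`, `w1` contain `2 c q` -/
noncomputable def corE (iK iW c2 : ℕ) (dg z0 z1 : Bool) (R0 R1 R2 R3 rK rW bK bW φ k0 k1 w0 w1 : ℕ) :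
    Bool :=
  (fun X Z E Q => Bool.rec (motive := fun _ => Bool) false (Bool.rec (motive := fun _ => Bool) false (Bool.rec (motive := fun _ => Bool) false ((Bool.rec (motive := fun _ => Bool) true (cnE k1 w1 rK rW X (Nat.succ iW) (Nat.succ (Nat.add Z iK)) (Nat.add Q 2)
      (Nat.add R3 E))
      (z1)))
      ((Bool.rec (motive := fun _ => Bool) true (cnE k0 w0 rK rW X iW (Nat.add Z iK) Q (Nat.add R0 E))
      (z0))))
      (Bool.rec (motive := fun _ => Bool)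
      (cnE k0 w1 rK rW X (Nat.succ iW) (Nat.add Z iK) (Nat.add Q 2) (Nat.add R2 E))
      (Nat.ble (Nat.add (Nat.add (Nat.add k0 k1) (Nat.add w0 w1))
        (Nat.add (Nat.mul rK (Nat.sub (Nat.mul 2 X) (Nat.succ Q)))
          (Nat.mul rW (Nat.sub (Nat.mul 2 Z) (Nat.succ Q)))))
        (Nat.add (Nat.add R1 R2) (Nat.mul 2 E))) dg))
      (cnE k1 w0 rK rW X iW (Nat.succ (Nat.add Z iK)) Q (Nat.add R1 E)))
  (Nat.add bK φ) (Nat.add bW φ) (Nat.mul c2 φ) (Nat.mul 2 iW)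

/-- one interval -/
noncomputable def intE (c2 : ℕ) (rc : ℕ → ℕ) (CK CW : ℕ → ℕ → ℕ → ℕ) (mW iK iW : ℕ)
    (dg z0 z1 : Bool) (R0 R1 R2 R3 x y σK bK σW bW : ℕ) : Bool :=
  (fun k0 k1 w0 w1 rK rW b2 c2' =>
    Bool.rec (motive := fun _ => Bool) false (corE iK iW c2 dg z0 z1 R0 R1 R2 R3 rK rW b2 c2' y k0 k1 w0 w1)
      (corE iK iW c2 dg z0 z1 R0 R1 R2 R3 rK rW b2 c2' x k0 k1 w0 w1))
  (CK σK iK bK) (CK σK (Nat.succ iK) bK) (Nat.add (CW σW iW bW) (Nat.mul c2 iW))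
  (Nat.add (CW σW (Nat.succ iW) bW) (Nat.mul c2 (Nat.succ iW)))
  (Nat.rec (motive := fun _ => ℕ) 0 (fun _ _ => rc σK) bK)
  (Nat.rec (motive := fun _ => ℕ) 0 (fun _ _ => rc σW) bW)
  (Nat.mul 2 bK) (Nat.mul mW bW)

/-- the intervals from `x` on, with hints `h` -/
noncomputable def runE (c2 : ℕ) (rc : ℕ → ℕ) (CK CW : ℕ → ℕ → ℕ → ℕ) (mW iK iW : ℕ)
    (dg z0 z1 : Bool) (R0 R1 R2 R3 k0 k1 w0 w1 : ℕ) (k : ℕ → Bool) (fuel : ℕ) : ℕ → ℕ → Bool :=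
  Nat.rec (motive := fun _ => ℕ → ℕ → Bool) (fun _ _ => false)
    (fun _ ih x h => Bool.rec (motive := fun _ => Bool)
      ((fun y => Bool.rec (motive := fun _ => Bool) false (ih y (Nat.shiftRight h 32))
      (intE c2 rc CK CW mW iK iW dg z0 z1 R0 R1 R2 R3 x y
        (Nat.land (Nat.shiftRight h 16) 15) (Nat.land (Nat.shiftRight h 8) 255)
        (Nat.land (Nat.shiftRight h 28) 15) (Nat.land (Nat.shiftRight h 20) 255))) (Nat.add x (Nat.land h 255)))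
      (k h) (corE iK iW c2 dg z0 z1 R0 R1 R2 R3 0 0 0 0 x k0 k1 w0 w1)) fuel

theorem cnE_sound {c bK bW φ p q k w rcK rcW X Y Q RE : ℕ} {cK cW : ℤ} {R : ℤ} {kz wz : ℤ}
    (hX : X = bK + φ) (hY : Y = bW + φ + p) (hQ : Q = 2 * q) (hrK : (rcK : ℤ) = cK)
    (hrW : (rcW : ℤ) = cW) (hk : kz = k) (hw : wz + 2 * c * q = w) (hRE : (RE : ℤ) = R + 2 * c * φ)
    (h : cnE k w rcK rcW X q Y Q RE = true) : cvE c cK cW kz wz bK bW φ p q R := by
  have h' : k + w + (rcK * (X - q) + rcW * (Y - Q)) ≤ RE := Nat.le_of_ble_eq_true h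
  have h3 := Int.ofNat_le.mpr h'
  have e3 : ((X - q : ℕ) : ℤ) = max 0 ((bK : ℤ) + φ - q) := by omega
  have e4 : ((Y - Q : ℕ) : ℤ) = max 0 ((bW : ℤ) + φ - (2 * (q : ℤ) - p)) := by omega
  unfold cvE
  rw [← e3, ← e4, ← hrK, ← hrW, hk]
  push_cast at h3 ⊢
  linarith

theorem corE_sound {c bK bW φ iK iW R0 R1 R2 R3 k0 k1 w0 w1 rcK rcW : ℕ} {cK cW : ℤ}
    {dg z0 z1 : Bool} (hdg : dg = Nat.beq iK iW) (hrK : (rcK : ℤ) = cK) (hrW : (rcW : ℤ) = cW)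
    (h : corE iK iW (2 * c) dg z0 z1 R0 R1 R2 R3 rcK rcW bK bW φ k0 k1 w0 w1 = true)
    (K W : ℕ → ℤ) (hk0 : K iK = k0) (hk1 : K (iK + 1) = k1)
    (hw0 : W iW + 2 * c * iW = w0) (hw1 : W (iW + 1) + 2 * c * (iW + 1 : ℕ) = w1)
    (R : ℕ → ℕ → ℤ) (r0 : R iK iW = R0) (r1 : R (iK + 1) iW = R1) (r2 : R iK (iW + 1) = R2)
    (r3 : R (iK + 1) (iW + 1) = R3) :
    CorR c cK cW K W iK iW bK bW φ z0 z1 R := by
  unfold corE at h
  simp only [and_rec, imp_rec] at h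
  obtain ⟨h1, h2, h0, h3⟩ := h
  have hE : ∀ {a : ℕ} {b : ℤ}, b = a → ((Nat.add a (Nat.mul (2 * c) φ) : ℕ) : ℤ) = b + 2 * c * φ := by
    intro a b hab
    rw [hab]
    show (((a + 2 * c * φ : ℕ)) : ℤ) = _
    push_cast
    ring
  have hQ2 : Nat.add (Nat.mul 2 iW) 2 = 2 * (iW + 1) := by
    show 2 * iW + 2 = _
    ring
  have hY1 : Nat.succ (Nat.add (Nat.add bW φ) iK) = bW + φ + (iK + 1) := by
    show bW + φ + iK + 1 = _
    ring
  refine ⟨fun hz => ?_, fun hz => ?_, ?_, fun hd => ?_, fun hd => ?_⟩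
  · exact cnE_sound rfl rfl rfl hrK hrW hk0 hw0 (hE r0) (h0 hz)
  · exact cnE_sound rfl hY1 hQ2 hrK hrW hk1 hw1 (hE r3) (h3 hz)
  · exact cnE_sound rfl hY1 rfl hrK hrW hk1 hw0 (hE r1) h1
  · subst hd
    have hdt : dg = true := by rw [hdg]; exact Nat.beq_refl iK
    rw [hdt] at h2
    have h2' : k0 + k1 + (w0 + w1) + (rcK * (2 * (bK + φ) - (2 * iK + 1)) +
      rcW * (2 * (bW + φ) - (2 * iK + 1))) ≤ R1 + R2 + 2 * (2 * c * φ) := Nat.le_of_ble_eq_true h2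
    have h3 := Int.ofNat_le.mpr h2'
    have e3 : ((2 * (bK + φ) - (2 * iK + 1) : ℕ) : ℤ) = max 0 (2 * ((bK : ℤ) + φ) - (2 * iK + 1)) := by
      omega
    have e4 : ((2 * (bW + φ) - (2 * iK + 1) : ℕ) : ℤ) = max 0 (2 * ((bW : ℤ) + φ) - (2 * iK + 1)) := by
      omega
    rw [← e3, ← e4, ← hrK, ← hrW, hk0, hk1, r1, r2]
    push_cast at h3 hw1 ⊢
    linarith
  · have hdt : dg = false := by
      rw [hdg]
      rcases hb : Nat.beq iK iW with _ | _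
      · rfl
      · exact absurd (Nat.eq_of_beq_eq_true hb) hd
    rw [hdt] at h2
    exact cnE_sound rfl rfl hQ2 hrK hrW hk0 hw1 (hE r2) h2

theorem intE_sound {c : ℕ} {rs rc : ℕ → ℕ} (hrc : ∀ σ, rc σ = rs σ * c)
    {CK CW : ℕ → ℕ → ℕ → ℕ} {mW iK iW R0 R1 R2 R3 x y σK bK σW bW : ℕ} {dg z0 z1 : Bool}
    (hdg : dg = Nat.beq iK iW)
    (h : intE (2 * c) rc CK CW mW iK iW dg z0 z1 R0 R1 R2 R3 x y σK bK σW bW = true)
    (R : ℕ → ℕ → ℤ) (r0 : R iK iW = R0) (r1 : R (iK + 1) iW = R1) (r2 : R iK (iW + 1) = R2)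
    (r3 : R (iK + 1) (iW + 1) = R3) :
    CorR c (cP (rs σK) c bK) (cP (rs σW) c bW) (fun i => (CK σK i bK : ℤ))
      (fun i => (CW σW i bW : ℤ)) iK iW (2 * bK) (mW * bW) x z0 z1 R ∧
    CorR c (cP (rs σK) c bK) (cP (rs σW) c bW) (fun i => (CK σK i bK : ℤ))
      (fun i => (CW σW i bW : ℤ)) iK iW (2 * bK) (mW * bW) y z0 z1 R := by
  unfold intE at h
  simp only [and_rec] at h
  have e0 : ((CW σW iW bW : ℤ)) + 2 * c * iW = (Nat.add (CW σW iW bW) (Nat.mul (2 * c) iW) : ℕ) := by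
    show _ = (((CW σW iW bW) + (2 * c) * iW : ℕ) : ℤ)
    push_cast
    ring
  have e1 : ((CW σW (iW + 1) bW : ℤ)) + 2 * c * (iW + 1 : ℕ) =
      (Nat.add (CW σW (Nat.succ iW) bW) (Nat.mul (2 * c) (Nat.succ iW)) : ℕ) := by
    show _ = (((CW σW (iW + 1) bW) + (2 * c) * (iW + 1) : ℕ) : ℤ)
    push_cast
    ring
  exact ⟨corE_sound hdg (rec_cP hrc σK) (rec_cP hrc σW) h.1 _ _ rfl rfl e0 e1 R r0 r1 r2 r3,
    corE_sound hdg (rec_cP hrc σK) (rec_cP hrc σW) h.2 _ _ rfl rfl e0 e1 R r0 r1 r2 r3⟩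

theorem runE_sound {c : ℕ} {rs rc : ℕ → ℕ} (hrc : ∀ σ, rc σ = rs σ * c)
    {CK CW : ℕ → ℕ → ℕ → ℕ} {mW iK iW R0 R1 R2 R3 k0 k1 w0 w1 : ℕ} {dg z0 z1 : Bool}
    (hdg : dg = Nat.beq iK iW) (hk0 : (CK 0 iK 0 : ℤ) = k0) (hk1 : (CK 0 (iK + 1) 0 : ℤ) = k1)
    (hw0 : (CW 0 iW 0 : ℤ) + 2 * c * iW = w0)
    (hw1 : (CW 0 (iW + 1) 0 : ℤ) + 2 * c * (iW + 1 : ℕ) = w1)
    {k : ℕ → Bool} (R : ℕ → ℕ → ℤ) (r0 : R iK iW = R0) (r1 : R (iK + 1) iW = R1)
    (r2 : R iK (iW + 1) = R2) (r3 : R (iK + 1) (iW + 1) = R3) (fuel : ℕ) : ∀ x h,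
    runE (2 * c) rc CK CW mW iK iW dg z0 z1 R0 R1 R2 R3 k0 k1 w0 w1 k fuel x h = true →
    CovR c rs (fun σ i β => (CK σ i β : ℤ)) (fun σ i β => (CW σ i β : ℤ)) mW iK iW z0 z1 R x ∧
      ∃ h', k h' = true := by
  induction fuel with
  | zero =>
    intro x h hr
    exact absurd hr (by simp [runE])
  | succ n ih =>
    intro x h hr
    have e : runE (2 * c) rc CK CW mW iK iW dg z0 z1 R0 R1 R2 R3 k0 k1 w0 w1 k (n + 1) x h =
      Bool.rec (motive := fun _ => Bool)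
      ((fun y => Bool.rec (motive := fun _ => Bool) false (runE (2 * c) rc CK CW mW iK iW dg z0 z1 R0 R1 R2 R3 k0 k1 w0 w1 k n y
          (Nat.shiftRight h 32))
      (intE (2 * c) rc CK CW mW iK iW dg z0 z1 R0 R1 R2 R3 x y
        (Nat.land (Nat.shiftRight h 16) 15) (Nat.land (Nat.shiftRight h 8) 255)
        (Nat.land (Nat.shiftRight h 28) 15) (Nat.land (Nat.shiftRight h 20) 255))) (Nat.add x (Nat.land h 255)))
      (k h) (corE iK iW (2 * c) dg z0 z1 R0 R1 R2 R3 0 0 0 0 x k0 k1 w0 w1) := rfl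
    rw [e] at hr
    rcases hz : corE iK iW (2 * c) dg z0 z1 R0 R1 R2 R3 0 0 0 0 x k0 k1 w0 w1 with _ | _
    · rw [hz] at hr
      simp only [and_rec] at hr
      obtain ⟨h1, h2⟩ := hr
      obtain ⟨g1, g2⟩ := intE_sound hrc hdg h1 R r0 r1 r2 r3
      obtain ⟨g3, g4⟩ := ih _ _ h2
      exact ⟨.next _ _ _ _ _ _ g1 g2 g3, g4⟩
    · rw [hz] at hr
      refine ⟨.last x 0 0 ?_, h, hr⟩
      have hcK : cP (rs 0) c 0 = 0 := by simp [cP]
      rw [hcK]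
      exact corE_sound hdg (by simp) (by simp) hz _ _ hk0 hk1 hw0 hw1 R r0 r1 r2 r3

/-- the right sides as a function of the corner -/
def RK (iK iW R0 R1 R2 R3 : ℕ) (p q : ℕ) : ℤ := (MK iK iW R0 R1 R2 R3 p q : ℕ)

/-- one run -/
noncomputable def r4E (c2 : ℕ) (rc : ℕ → ℕ) (CK CW : ℕ → ℕ → ℕ → ℕ) (mW iK iW : ℕ) (dg : Bool)
    (k0 k1 w0 w1 : ℕ) (z0 z1 : Bool) (R0 R1 R2 R3 : ℕ) (k : ℕ → Bool) (h : ℕ) : Bool :=
  runE c2 rc CK CW mW iK iW dg z0 z1 R0 R1 R2 R3 k0 k1 w0 w1 k 64 0 h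

theorem r4E_sound {c : ℕ} {rs rc : ℕ → ℕ} (hrc : ∀ σ, rc σ = rs σ * c)
    {CK CW : ℕ → ℕ → ℕ → ℕ} {mW iK iW : ℕ} {z0 z1 : Bool} {R0 R1 R2 R3 : ℕ} {k : ℕ → Bool} {h : ℕ}
    (hr : r4E (2 * c) rc CK CW mW iK iW (Nat.beq iK iW) (CK 0 iK 0) (CK 0 (Nat.succ iK) 0)
      (Nat.add (CW 0 iW 0) (Nat.mul (2 * c) iW))
      (Nat.add (CW 0 (Nat.succ iW) 0) (Nat.mul (2 * c) (Nat.succ iW))) z0 z1 R0 R1 R2 R3 k h = true) :
    CovR c rs (fun σ i β => (CK σ i β : ℤ)) (fun σ i β => (CW σ i β : ℤ)) mW iK iW z0 z1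
      (RK iK iW R0 R1 R2 R3) 0 ∧ ∃ h', k h' = true := by
  have ne : iK + 1 ≠ iK := by omega
  have ne' : iW + 1 ≠ iW := by omega
  unfold r4E at hr
  refine runE_sound hrc rfl rfl rfl ?_ ?_ _ ?_ ?_ ?_ ?_ 64 0 h hr
  · show _ = (((CW 0 iW 0) + (2 * c) * iW : ℕ) : ℤ)
    push_cast
    ring
  · show _ = (((CW 0 (iW + 1) 0) + (2 * c) * (iW + 1) : ℕ) : ℤ)
    push_cast
    ring
  · unfold RK MK
    rw [if_pos rfl, if_pos rfl]
  · unfold RK MK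
    rw [if_neg ne, if_pos rfl]
  · unfold RK MK
    rw [if_pos rfl, if_neg ne']
  · unfold RK MK
    rw [if_neg ne, if_neg ne']

/-- what a run proves -/
def GdE (c : ℕ) (rs : ℕ → ℕ) (CK CW : ℕ → ℕ → ℕ → ℤ) (mW iK iW m0 m1 m2 m3 cy : ℕ) : Prop :=
  ∃ (z0 z1 : Bool), (cy = 0 → z0 = true) ∧ (cy = 1 → z1 = true) ∧
    ∃ R : ℕ → ℕ → ℤ, (∀ p q, P4 iK iW p q → R p q ≤ RK iK iW m0 m1 m2 m3 p q) ∧
    CovR c rs CK CW mW iK iW z0 z1 R 0

theorem rk_mono {iK iW m0 m1 m2 m3 n0 n1 n2 n3 : ℕ} (h0 : m0 ≤ n0) (h1 : m1 ≤ n1) (h2 : m2 ≤ n2)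
    (h3 : m3 ≤ n3) (p q : ℕ) : RK iK iW m0 m1 m2 m3 p q ≤ RK iK iW n0 n1 n2 n3 p q := by
  unfold RK MK
  split_ifs
  · exact_mod_cast h0
  · exact_mod_cast h2
  · exact_mod_cast h1
  · exact_mod_cast h3

/-- the minimum -/
noncomputable def mn (a b : ℕ) : ℕ := Nat.sub a (Nat.sub a b)

theorem mn_le (a b : ℕ) : mn a b ≤ a ∧ mn a b ≤ b := by
  unfold mn
  simp only [Nat.sub_eq]
  omega

/-- the modes -/
noncomputable def modesE (Rn : Bool → Bool → ℕ → ℕ → ℕ → ℕ → (ℕ → Bool) → ℕ → Bool) (z0 z1 : Bool)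
    (m0 m1 m3 n0 n1 n2 n3 : ℕ) (k : ℕ → Bool) (h : ℕ) : Bool :=
  (fun h' => Nat.rec (motive := fun _ => Bool)
    (Rn z0 z1 (mn m0 n0) (mn m1 n1) (mn m1 n2) (mn m3 n3) k h')
    (fun n _ => Nat.rec (motive := fun _ => Bool)
      (Rn z0 z1 m0 m1 m1 m3 (Rn z0 z1 n0 n1 n2 n3 k) h')
      (fun _ _ => Rn z0 false m0 m1 m1 m3 (Rn false z1 m0 m1 m1 m3
        (Rn z0 false n0 n1 n2 n3 (Rn false z1 n0 n1 n2 n3 k))) h') n)
    (Nat.land h 3)) (Nat.shiftRight h 2)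

theorem modesE_sound {c : ℕ} {rs : ℕ → ℕ} {CK CW : ℕ → ℕ → ℕ → ℤ} {mW iK iW : ℕ}
    {Rn : Bool → Bool → ℕ → ℕ → ℕ → ℕ → (ℕ → Bool) → ℕ → Bool}
    (hR : ∀ z0 z1 M0 M1 M2 M3 k h, Rn z0 z1 M0 M1 M2 M3 k h = true →
      CovR c rs CK CW mW iK iW z0 z1 (RK iK iW M0 M1 M2 M3) 0 ∧ ∃ h', k h' = true)
    {z0 z1 : Bool} {m0 m1 m3 n0 n1 n2 n3 : ℕ} {k : ℕ → Bool} {h : ℕ}
    (hm : modesE Rn z0 z1 m0 m1 m3 n0 n1 n2 n3 k h = true) :
    (∀ cy, (cy = 0 → z0 = true) → (cy = 1 → z1 = true) → cy ≤ 1 →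
      GdE c rs CK CW mW iK iW m0 m1 m1 m3 cy ∧ GdE c rs CK CW mW iK iW n0 n1 n2 n3 cy) ∧
      ∃ h', k h' = true := by
  unfold modesE at hm
  simp only at hm
  rcases hd : Nat.land h 3 with _ | n
  · rw [hd] at hm
    obtain ⟨h1, h3⟩ := hR _ _ _ _ _ _ _ _ hm
    refine ⟨fun cy c0 c1 _ => ?_, h3⟩
    exact ⟨⟨z0, z1, c0, c1, _, fun p q _ => rk_mono (mn_le _ _).1 (mn_le _ _).1 (mn_le _ _).1
      (mn_le _ _).1 p q, h1⟩, ⟨z0, z1, c0, c1, _, fun p q _ => rk_mono (mn_le _ _).2 (mn_le _ _).2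
      (mn_le _ _).2 (mn_le _ _).2 p q, h1⟩⟩
  · rw [hd] at hm
    rcases n with _ | n
    · obtain ⟨h1, h', hm'⟩ := hR _ _ _ _ _ _ _ _ hm
      obtain ⟨h1', h3⟩ := hR _ _ _ _ _ _ _ _ hm'
      exact ⟨fun cy c0 c1 _ => ⟨⟨z0, z1, c0, c1, _, fun p q _ => le_rfl, h1⟩,
        ⟨z0, z1, c0, c1, _, fun p q _ => le_rfl, h1'⟩⟩, h3⟩
    · obtain ⟨a1, h1, hm1⟩ := hR _ _ _ _ _ _ _ _ hm
      obtain ⟨a2, h2, hm2⟩ := hR _ _ _ _ _ _ _ _ hm1
      obtain ⟨a3, h3, hm3⟩ := hR _ _ _ _ _ _ _ _ hm2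
      obtain ⟨a4, h4⟩ := hR _ _ _ _ _ _ _ _ hm3
      refine ⟨fun cy c0 c1 hcy => ?_, h4⟩
      have : cy = 0 ∨ cy = 1 := by omega
      rcases this with h5 | h5
      · exact ⟨⟨z0, false, c0, fun h6 => absurd (h5.symm.trans h6) (by norm_num), _,
            fun p q _ => le_rfl, a1⟩,
          ⟨z0, false, c0, fun h6 => absurd (h5.symm.trans h6) (by norm_num), _,
            fun p q _ => le_rfl, a3⟩⟩
      · exact ⟨⟨false, z1, fun h6 => absurd (h5.symm.trans h6) (by norm_num), c1, _,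
            fun p q _ => le_rfl, a2⟩,
          ⟨false, z1, fun h6 => absurd (h5.symm.trans h6) (by norm_num), c1, _,
            fun p q _ => le_rfl, a4⟩⟩

/-- lower bound of the interpolation -/
theorem li_mono' {ρ m n x D : ℕ} (hρ : 0 < ρ) {T T' : ℕ → ℕ}
    (h : ∀ i, m ≤ i → i ≤ n → T i ≤ T' i + D) (hx0 : ρ * m ≤ x) (hx : x ≤ ρ * n) :
    LI ρ T x ≤ LI ρ T' x + ρ * D := by
  have hs : x % ρ < ρ := Nat.mod_lt _ hρ
  have hx' : ρ * (x / ρ) + x % ρ = x := Nat.div_add_mod x ρ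
  have hm : m ≤ x / ρ := (Nat.le_div_iff_mul_le hρ).mpr (by rw [Nat.mul_comm]; exact hx0)
  unfold LI
  generalize x / ρ = i at *
  generalize x % ρ = s at *
  rcases lt_or_ge i n with h1 | h1
  · have h2 := Nat.mul_le_mul_left (ρ - s) (h i hm h1.le)
    have h3 := Nat.mul_le_mul_left s (h (i + 1) (by omega) h1)
    have h4 : (ρ - s) * D + s * D = ρ * D := by
      rw [← Nat.add_mul]
      congr 1
      omega
    nlinarith
  · have h2 : i = n := by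
      have h3 : ρ * i ≤ ρ * n := by omega
      exact le_antisymm (Nat.le_of_mul_le_mul_left h3 hρ) h1
    subst h2
    have h3 : s = 0 := by omega
    subst h3
    have h2 := Nat.mul_le_mul_left ρ (h i hm le_rfl)
    rw [Nat.mul_add] at h2
    simpa using h2

/-- the check of one cell, inner part; `ck` is `κ c` -/
noncomputable def cellIE (ρ ck c2 rp : ℕ) (rc : ℕ → ℕ) (CK CW : ℕ → ℕ → ℕ → ℕ) (mW : ℕ)
    (T : ℕ → ℕ → ℕ) (iK iW x0 b0 : ℕ) (z0 z1 : Bool) (k : ℕ → Bool) (h : ℕ) : Bool :=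
  fz (fun i => (fun s b1 => (fun t0 t1 t2 u0 u1 u2 e0 e1 =>
    modesE (r4E c2 rc CK CW mW iK iW (Nat.beq iK iW) (CK 0 iK 0) (CK 0 (Nat.succ iK) 0)
      (Nat.add (CW 0 iW 0) (Nat.mul c2 iW))
      (Nat.add (CW 0 (Nat.succ iW) 0) (Nat.mul c2 (Nat.succ iW)))) z0 z1
      (Nat.add (Nat.mul ck x0) (l3 ρ s t0 t1 t2))
      (Nat.add (Nat.mul ck (Nat.succ x0)) (l3 ρ (Nat.succ s) t0 t1 t2))
      (Nat.add (Nat.mul ck (Nat.succ (Nat.succ x0))) (l3 ρ (Nat.succ (Nat.succ s)) t0 t1 t2))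
      (Nat.add (Nat.add (Nat.mul ck x0) (l3 ρ s u0 u1 u2)) e0)
      (Nat.add (Nat.add (Nat.mul ck (Nat.succ x0)) (l3 ρ (Nat.succ s) u0 u1 u2)) e0)
      (Nat.add (Nat.add (Nat.mul ck (Nat.succ x0)) (l3 ρ (Nat.succ s) u0 u1 u2)) e1)
      (Nat.add (Nat.add (Nat.mul ck (Nat.succ (Nat.succ x0)))
        (l3 ρ (Nat.succ (Nat.succ s)) u0 u1 u2)) e1) k h)
    (T i b0) (T (Nat.succ i) b0) (T (Nat.succ (Nat.succ i)) b0)
    (T i b1) (T (Nat.succ i) b1) (T (Nat.succ (Nat.succ i)) b1)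
    (Nat.mul rp (Nat.sub (Nat.mul ρ b1) iW)) (Nat.mul rp (Nat.sub (Nat.mul ρ b1) (Nat.succ iW))))
    (Nat.mod x0 ρ) (Nat.succ b0)) (Nat.div x0 ρ)

theorem mk_low' {iK iW p q : ℕ} (f : ℕ → ℕ) (hp : P4 iK iW p q) {m0 m1 m3 : ℕ}
    (h0 : m0 ≤ f (iK + iW)) (h1 : m1 ≤ f (iK + iW + 1))
    (h3 : m3 ≤ f (iK + iW + 2)) : MK iK iW m0 m1 m1 m3 p q ≤ f (p + q) := by
  obtain ⟨p1, p2, q1, q2⟩ := hp
  have ne : iK + 1 ≠ iK := by omega
  have ne' : iW + 1 ≠ iW := by omega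
  have hp : p = iK ∨ p = iK + 1 := by omega
  have hq : q = iW ∨ q = iW + 1 := by omega
  unfold MK
  rcases hp with hp | hp <;> rcases hq with hq | hq <;> subst hp hq
  · rw [if_pos rfl, if_pos rfl]
    exact h0
  · rw [if_pos rfl, if_neg ne']
    exact h1
  · rw [if_neg ne, if_pos rfl]
    have e : iK + 1 + q = iK + q + 1 := by omega
    rw [e]
    exact h1
  · rw [if_neg ne, if_neg ne']
    have e : iK + 1 + (iW + 1) = iK + iW + 2 := by omega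
    rw [e]
    exact h3

theorem mk_up' {iK iW p q : ℕ} (f e : ℕ → ℕ) (hp : P4 iK iW p q) {n0 n1 n2 n3 : ℕ}
    (h0 : n0 ≤ f (iK + iW) + e iW) (h1 : n1 ≤ f (iK + iW + 1) + e iW)
    (h2 : n2 ≤ f (iK + iW + 1) + e (iW + 1))
    (h3 : n3 ≤ f (iK + iW + 2) + e (iW + 1)) :
    MK iK iW n0 n1 n2 n3 p q ≤ f (p + q) + e q := by
  obtain ⟨p1, p2, q1, q2⟩ := hp
  have ne : iK + 1 ≠ iK := by omega
  have ne' : iW + 1 ≠ iW := by omega
  have hp : p = iK ∨ p = iK + 1 := by omega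
  have hq : q = iW ∨ q = iW + 1 := by omega
  unfold MK
  rcases hp with hp | hp <;> rcases hq with hq | hq <;> subst hp hq
  · rw [if_pos rfl, if_pos rfl]
    exact h0
  · rw [if_pos rfl, if_neg ne']
    exact h2
  · rw [if_neg ne, if_pos rfl]
    have e : iK + 1 + q = iK + q + 1 := by omega
    rw [e]
    exact h1
  · rw [if_neg ne, if_neg ne']
    have e : iK + 1 + (iW + 1) = iK + iW + 2 := by omega
    rw [e]
    exact h3

theorem cellIE_sound {κ c r rp m n : ℕ} {rs rc : ℕ → ℕ} (hrc : ∀ σ, rc σ = rs σ * c)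
    (hrp : rp = 2 * r * c) {CK CW : ℕ → ℕ → ℕ → ℕ} {mW : ℕ} {T : ℕ → ℕ → ℕ} {iK iW : ℕ}
    (hmono : ∀ i β β', m ≤ i → i ≤ n → β ≤ β' → T i β' ≤ T i β ∧ T i β ≤ T i β' + rp * (β' - β))
    {z0 z1 : Bool} {k : ℕ → Bool} {h : ℕ}
    (hc : cellIE (2 ^ κ) (κ * c) (2 * c) rp rc CK CW mW T iK iW (iK + iW) (iW / 2 ^ κ) z0 z1 k h =
      true) :
    (∀ cy, (cy = 0 → z0 = true) → (cy = 1 → z1 = true) → cy ≤ 1 → 2 ^ κ * m ≤ iK + iW + cy →
      iK + iW + cy < 2 ^ κ * n → ∀ β, CovE κ c r (fun i β => (T i β : ℤ)) rs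
        (fun σ i β => (CK σ i β : ℤ)) (fun σ i β => (CW σ i β : ℤ)) mW iK iW cy β 0) ∧
      ∃ h', k h' = true := by
  have hρ : 0 < 2 ^ κ := by positivity
  have hρz : ((2 ^ κ : ℕ) : ℤ) = 2 ^ κ := by push_cast; rfl
  unfold cellIE at hc
  rw [fz_eq] at hc
  simp only at hc
  obtain ⟨h1, h2⟩ := modesE_sound (c := c) (rs := rs) (CK := fun σ i β => (CK σ i β : ℤ))
    (CW := fun σ i β => (CW σ i β : ℤ)) (mW := mW)
    (iK := iK) (iW := iW) (fun z0 z1 M0 M1 M2 M3 k h hr => r4E_sound hrc hr) hc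
  refine ⟨fun cy c0 c1 hcy hm hn β => ?_, h2⟩
  obtain ⟨g0, g1⟩ := h1 cy c0 c1 hcy
  have hb : 2 ^ κ * (iW / 2 ^ κ) ≤ iW := Nat.mul_div_le _ _
  have hb1 : iW + 1 ≤ 2 ^ κ * (iW / 2 ^ κ + 1) := Nat.lt_mul_div_succ _ hρ
  have hi0 : 2 ^ κ * ((iK + iW + cy) / 2 ^ κ) ≤ iK + iW + cy := Nat.mul_div_le _ _
  have hi1 : iK + iW + cy + 1 ≤ 2 ^ κ * ((iK + iW + cy) / 2 ^ κ + 1) := Nat.lt_mul_div_succ _ hρ
  obtain ⟨ρ, hρe⟩ : ∃ ρ, ρ = 2 ^ κ := ⟨_, rfl⟩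
  rw [← hρe] at hρ hρz h1 hm hn g0 g1 hb hb1 hi0 hi1
  have l3e : ∀ (T : ℕ → ℕ) (d : ℕ), d ≤ 2 →
      l3 ρ ((iK + iW) % ρ + d) (T ((iK + iW) / ρ)) (T ((iK + iW) / ρ + 1))
        (T ((iK + iW) / ρ + 2)) = LI ρ T (iK + iW + d) := fun T d hd => li_three hρ T hd
  have add_e : ∀ {a b : ℕ} (x : ℕ), b = a → Nat.add (Nat.mul (κ * c) x) b ≤ κ * c * x + a := by
    intro a b x hab
    rw [hab]
    exact le_rfl
  have add_e2 : ∀ {a b : ℕ} (x e : ℕ), b = a →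
      Nat.add (Nat.add (Nat.mul (κ * c) x) b) e ≤ κ * c * x + a + e := by
    intro a b x e hab
    rw [hab]
    exact le_rfl
  rcases le_or_gt β (iW / ρ) with hβ | hβ
  · obtain ⟨y0, y1, a0, a1, R, a2, a3⟩ := g0
    refine covE_of_covR 0 (Or.inl rfl) hcy a0 a1 ?_ a3
    intro p q p1 p2 q1 q2 x1 x2
    rw [← hρe]
    refine (a2 p q ⟨p1, p2, q1, q2⟩).trans ?_
    have hlow := mk_low' (fun x => κ * c * x + LI ρ (fun i => T i (iW / ρ)) x)
      ⟨p1, p2, q1, q2⟩ (add_e (iK + iW) (l3e (fun i => T i (iW / ρ)) 0 (by norm_num)))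
      (add_e (iK + iW + 1) (l3e (fun i => T i (iW / ρ)) 1 (by norm_num)))
      (add_e (iK + iW + 2) (l3e (fun i => T i (iW / ρ)) 2 (by norm_num)))
    have hmm := li_mono' (D := 0) (m := m) (n := n) (x := p + q) hρ (T := fun i => T i (iW / ρ))
      (T' := fun i => T i β)
      (fun i hi hi' => (hmono i β (iW / ρ) hi hi' hβ).1) (by omega) (by omega)
    rw [Nat.mul_zero, Nat.add_zero] at hmm
    have h5 : MK iK iW _ _ _ _ p q ≤ κ * c * (p + q) + LI ρ (fun i => T i β) (p + q) :=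
      hlow.trans (Nat.add_le_add_left hmm _)
    have h6 := Int.ofNat_le.mpr h5
    have h7 := li_eq hρ (fun i => T i β) (i := (iK + iW + cy) / ρ) (x := p + q) (by omega)
      (by omega)
    unfold RK RP
    push_cast at h6 h7 ⊢
    rw [← hρz]
    rw [zero_mul, add_zero]
    refine h6.trans ?_
    linarith
  · obtain ⟨y0, y1, a0, a1, R, a2, a3⟩ := g1
    refine covE_of_covR 1 (Or.inr rfl) hcy a0 a1 ?_ a3
    intro p q p1 p2 q1 q2 x1 x2
    rw [← hρe]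
    refine (a2 p q ⟨p1, p2, q1, q2⟩).trans ?_
    have hup := mk_up' (fun x => κ * c * x + LI ρ (fun i => T i (iW / ρ + 1)) x)
      (fun q => Nat.mul rp (Nat.sub (Nat.mul ρ (Nat.succ (iW / ρ))) q))
      ⟨p1, p2, q1, q2⟩
      (add_e2 (iK + iW) _ (l3e (fun i => T i (iW / ρ + 1)) 0 (by norm_num)))
      (add_e2 (iK + iW + 1) _ (l3e (fun i => T i (iW / ρ + 1)) 1 (by norm_num)))
      (add_e2 (iK + iW + 1) _ (l3e (fun i => T i (iW / ρ + 1)) 1 (by norm_num)))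
      (add_e2 (iK + iW + 2) _ (l3e (fun i => T i (iW / ρ + 1)) 2 (by norm_num)))
    have hmm := li_mono' (D := rp * (β - (iW / ρ + 1))) (m := m) (n := n) (x := p + q) hρ
      (T := fun i => T i (iW / ρ + 1)) (T' := fun i => T i β)
      (fun i hi hi' => (hmono i (iW / ρ + 1) β hi hi' hβ).2) (by omega) (by omega)
    have h5 : MK iK iW _ _ _ _ p q ≤ κ * c * (p + q) + (LI ρ (fun i => T i β) (p + q) +
        ρ * (rp * (β - (iW / ρ + 1)))) + Nat.mul rp (Nat.sub (Nat.mul ρ (Nat.succ (iW / ρ))) q) :=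
      hup.trans (Nat.add_le_add_right (Nat.add_le_add_left hmm _) _)
    have h6 := Int.ofNat_le.mpr h5
    have h7 := li_eq hρ (fun i => T i β) (i := (iK + iW + cy) / ρ) (x := p + q) (by omega)
      (by omega)
    have hq3 : q ≤ ρ * (iW / ρ + 1) := by omega
    have e4 : ((Nat.sub (Nat.mul ρ (Nat.succ (iW / ρ))) q : ℕ) : ℤ) =
        ρ * ((iW / ρ : ℕ) + 1) - q := by
      rw [Nat.sub_eq, Nat.mul_eq, Nat.succ_eq_add_one, Nat.cast_sub hq3]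
      push_cast
      rfl
    have e5 : ((β - (iW / ρ + 1) : ℕ) : ℤ) = (β : ℤ) - ((iW / ρ : ℕ) + 1) := by
      have : iW / ρ + 1 ≤ β := hβ
      rw [Nat.cast_sub this]
      push_cast
      rfl
    have e6 : ((Nat.mul rp (Nat.sub (Nat.mul ρ (Nat.succ (iW / ρ))) q) : ℕ) : ℤ) =
        rp * (ρ * ((iW / ρ : ℕ) + 1) - q) := by
      rw [← e4]
      exact Nat.cast_mul rp _
    have e7 : 2 * (r : ℤ) * c = rp := by
      rw [hrp]
      push_cast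
      ring
    rw [Nat.cast_add, e6, Nat.cast_add, Nat.cast_add, Nat.cast_mul ρ, Nat.cast_mul rp, e5] at h6
    unfold RK RP
    rw [← hρz, e7]
    push_cast at h6 h7 ⊢
    refine h6.trans ?_
    linarith

/-- the check of one cell (both carries) -/
noncomputable def cellE (ρ ck c2 rp : ℕ) (rc : ℕ → ℕ) (CK CU CL : ℕ → ℕ → ℕ → ℕ)
    (T : ℕ → ℕ → ℕ) (M lo hi iK iW : ℕ) (k : ℕ → Bool) (h : ℕ) : Bool :=
  (fun x0 => (fun z0 z1 => Bool.rec (motive := fun _ => Bool)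
    (Bool.rec (motive := fun _ => Bool) (k h)
      (Bool.rec (motive := fun _ => Bool)
        (cellIE ρ ck c2 rp rc CK CL 1 T iK iW x0 (Nat.div iW ρ) z0 z1 k h)
        (cellIE ρ ck c2 rp rc CK CU 2 T iK iW x0 (Nat.div iW ρ) z0 z1 k h) (Nat.ble M iW)) z1)
    (Bool.rec (motive := fun _ => Bool)
        (cellIE ρ ck c2 rp rc CK CL 1 T iK iW x0 (Nat.div iW ρ) z0 z1 k h)
        (cellIE ρ ck c2 rp rc CK CU 2 T iK iW x0 (Nat.div iW ρ) z0 z1 k h) (Nat.ble M iW)) z0)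
    (Bool.rec (motive := fun _ => Bool) false (Nat.ble (Nat.succ x0) hi)
      (Nat.ble lo x0))
    (Bool.rec (motive := fun _ => Bool) false (Nat.ble (Nat.succ (Nat.succ x0)) hi)
      (Nat.ble lo (Nat.succ x0)))) (Nat.add iK iW)

/-- the conclusion for one cell -/
def CellP (κ c r : ℕ) (T : ℕ → ℕ → ℕ) (rs : ℕ → ℕ) (CK CU CL : ℕ → ℕ → ℕ → ℕ) (M lo hi iK iW : ℕ) :
    Prop :=
  ∀ cy, cy ≤ 1 → lo ≤ iK + iW + cy → iK + iW + cy < hi → ∀ β,
    (iW < M → CovE κ c r (fun i β => (T i β : ℤ)) rs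
        (fun σ i β => (CK σ i β : ℤ)) (fun σ i β => (CL σ i β : ℤ)) 1 iK iW cy β 0) ∧
    (M ≤ iW → CovE κ c r (fun i β => (T i β : ℤ)) rs
        (fun σ i β => (CK σ i β : ℤ)) (fun σ i β => (CU σ i β : ℤ)) 2 iK iW cy β 0)

theorem cellE_sound {κ c r rp m n M : ℕ} {rs rc : ℕ → ℕ} (hrc : ∀ σ, rc σ = rs σ * c)
    (hrp : rp = 2 * r * c) {CK CU CL : ℕ → ℕ → ℕ → ℕ} {T : ℕ → ℕ → ℕ} {lo hi iK iW : ℕ}
    (hm : 2 ^ κ * m ≤ lo) (hn : hi ≤ 2 ^ κ * n)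
    (hmono : ∀ i β β', m ≤ i → i ≤ n → β ≤ β' → T i β' ≤ T i β ∧ T i β ≤ T i β' + rp * (β' - β))
    {k : ℕ → Bool} {h : ℕ}
    (hc : cellE (2 ^ κ) (κ * c) (2 * c) rp rc CK CU CL T M lo hi iK iW k h = true) :
    CellP κ c r T rs CK CU CL M lo hi iK iW ∧ ∃ h', k h' = true := by
  unfold cellE at hc
  simp only at hc
  have hI : ∀ z0 z1, (z0 = (Bool.rec (motive := fun _ => Bool) false (Nat.ble (Nat.succ (Nat.add iK iW)) hi)
      (Nat.ble lo (Nat.add iK iW)))) →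
      (z1 = (Bool.rec (motive := fun _ => Bool) false (Nat.ble (Nat.succ (Nat.succ (Nat.add iK iW))) hi)
      (Nat.ble lo (Nat.succ (Nat.add iK iW))))) →
      (Bool.rec (motive := fun _ => Bool)
        (cellIE (2 ^ κ) (κ * c) (2 * c) rp rc CK CL 1 T iK iW (Nat.add iK iW) (Nat.div iW (2 ^ κ))
          z0 z1 k h)
        (cellIE (2 ^ κ) (κ * c) (2 * c) rp rc CK CU 2 T iK iW (Nat.add iK iW) (Nat.div iW (2 ^ κ))
          z0 z1 k h) (Nat.ble M iW) : Bool) = true →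
      CellP κ c r T rs CK CU CL M lo hi iK iW ∧ ∃ h', k h' = true := by
    intro z0 z1 e0 e1 hci
    have hz0 : ∀ cy, lo ≤ iK + iW + cy → iK + iW + cy < hi → cy = 0 → z0 = true := by
      intro cy hlo hhi h0
      rw [e0, and_rec]
      subst h0
      exact ⟨Nat.ble_eq_true_of_le hlo, Nat.ble_eq_true_of_le hhi⟩
    have hz1 : ∀ cy, lo ≤ iK + iW + cy → iK + iW + cy < hi → cy = 1 → z1 = true := by
      intro cy hlo hhi h0
      rw [e1, and_rec]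
      subst h0
      exact ⟨Nat.ble_eq_true_of_le hlo, Nat.ble_eq_true_of_le hhi⟩
    rcases hb : Nat.ble M iW with _ | _
    · rw [hb] at hci
      obtain ⟨g1, g2⟩ := cellIE_sound hrc hrp hmono hci
      refine ⟨fun cy hcy hlo hhi β => ⟨fun _ => g1 cy (hz0 cy hlo hhi) (hz1 cy hlo hhi) hcy
        (hm.trans hlo) (lt_of_lt_of_le hhi hn) β, fun hM => ?_⟩, g2⟩
      exact absurd (Nat.ble_eq_true_of_le hM) (by rw [hb]; decide)
    · rw [hb] at hci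
      obtain ⟨g1, g2⟩ := cellIE_sound hrc hrp hmono hci
      refine ⟨fun cy hcy hlo hhi β => ⟨fun hM => ?_, fun _ => g1 cy (hz0 cy hlo hhi)
        (hz1 cy hlo hhi) hcy (hm.trans hlo) (lt_of_lt_of_le hhi hn) β⟩, g2⟩
      have := Nat.le_of_ble_eq_true hb
      omega
  rcases e0 : (Bool.rec (motive := fun _ => Bool) false (Nat.ble (Nat.succ (Nat.add iK iW)) hi)
      (Nat.ble lo (Nat.add iK iW))) with _ | _
  · rcases e1 : (Bool.rec (motive := fun _ => Bool) false (Nat.ble (Nat.succ (Nat.succ (Nat.add iK iW))) hi)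
      (Nat.ble lo (Nat.succ (Nat.add iK iW)))) with _ | _
    · rw [e0, e1] at hc
      refine ⟨fun cy hcy hlo hhi => ?_, h, hc⟩
      exfalso
      have hcy' : cy = 0 ∨ cy = 1 := by omega
      rcases hcy' with h0 | h0
      · subst h0
        have := and_rec.mpr ⟨Nat.ble_eq_true_of_le hlo, Nat.ble_eq_true_of_le hhi⟩
        exact absurd (e0.symm.trans this) (by decide)
      · subst h0
        have := and_rec.mpr ⟨Nat.ble_eq_true_of_le hlo, Nat.ble_eq_true_of_le hhi⟩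
        exact absurd (e1.symm.trans this) (by decide)
    · rw [e0, e1] at hc
      exact hI _ _ e0.symm e1.symm hc
  · rw [e0] at hc
    exact hI _ _ e0.symm rfl hc

/-- the check of one row -/
noncomputable def rowE (ρ ck c2 rp : ℕ) (rc : ℕ → ℕ) (CK CU CL : ℕ → ℕ → ℕ → ℕ)
    (T : ℕ → ℕ → ℕ) (M lo hi iK : ℕ) (n : ℕ) : ℕ → Bool :=
  Nat.rec (motive := fun _ => ℕ → Bool) (fun _ => true)
    (fun iW ih h => cellE ρ ck c2 rp rc CK CU CL T M lo hi iK iW ih h) n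

theorem rowE_sound {κ c r rp m n M : ℕ} {rs rc : ℕ → ℕ} (hrc : ∀ σ, rc σ = rs σ * c)
    (hrp : rp = 2 * r * c) {CK CU CL : ℕ → ℕ → ℕ → ℕ} {T : ℕ → ℕ → ℕ} {lo hi iK : ℕ}
    (hm : 2 ^ κ * m ≤ lo) (hn : hi ≤ 2 ^ κ * n)
    (hmono : ∀ i β β', m ≤ i → i ≤ n → β ≤ β' → T i β' ≤ T i β ∧ T i β ≤ T i β' + rp * (β' - β))
    (j : ℕ) : ∀ h, rowE (2 ^ κ) (κ * c) (2 * c) rp rc CK CU CL T M lo hi iK j h = true →
      ∀ iW < j, CellP κ c r T rs CK CU CL M lo hi iK iW := by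
  induction j with
  | zero => intro h _ iW hiW; omega
  | succ j ih =>
    intro h hr iW hiW
    have e : rowE (2 ^ κ) (κ * c) (2 * c) rp rc CK CU CL T M lo hi iK (j + 1) h =
      cellE (2 ^ κ) (κ * c) (2 * c) rp rc CK CU CL T M lo hi iK j
        (rowE (2 ^ κ) (κ * c) (2 * c) rp rc CK CU CL T M lo hi iK j) h := rfl
    rw [e] at hr
    obtain ⟨h1, h', h2⟩ := cellE_sound hrc hrp hm hn hmono hr
    rcases Nat.lt_succ_iff_lt_or_eq.mp hiW with h3 | h3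
    · exact ih h' h2 iW h3
    · rw [h3]; exact h1

/-- the check of the rows `a, ..., a + n - 1` -/
noncomputable def rowsE (ρ ck c2 rp : ℕ) (rc : ℕ → ℕ) (CK CU CL : ℕ → ℕ → ℕ → ℕ)
    (T : ℕ → ℕ → ℕ) (M lo hi a n : ℕ) (H : List ℕ) : Bool :=
  allR (fun i => fz (fun iK => rowE ρ ck c2 rp rc CK CU CL T M lo hi iK (Nat.succ iK) (nth H i))
    (Nat.add a i)) n

theorem rowsE_sound {κ c r rp m n M : ℕ} {rs rc : ℕ → ℕ} (hrc : ∀ σ, rc σ = rs σ * c)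
    (hrp : rp = 2 * r * c) {CK CU CL : ℕ → ℕ → ℕ → ℕ} {T : ℕ → ℕ → ℕ} {lo hi a l : ℕ}
    (hm : 2 ^ κ * m ≤ lo) (hn : hi ≤ 2 ^ κ * n)
    (hmono : ∀ i β β', m ≤ i → i ≤ n → β ≤ β' → T i β' ≤ T i β ∧ T i β ≤ T i β' + rp * (β' - β))
    {H : List ℕ} (h : rowsE (2 ^ κ) (κ * c) (2 * c) rp rc CK CU CL T M lo hi a l H = true) :
    ∀ iK iW, a ≤ iK → iK < a + l → iW ≤ iK → CellP κ c r T rs CK CU CL M lo hi iK iW := by
  intro iK iW h1 h2 h3
  unfold rowsE at h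
  rw [allR_iff] at h
  have h5 := h (iK - a) (by omega)
  rw [fz_eq] at h5
  have e : Nat.add a (iK - a) = iK := by
    show a + (iK - a) = iK
    omega
  rw [e] at h5
  exact rowE_sound hrc hrp hm hn hmono (iK + 1) _ h5 iW (by omega)

/-- the monotonicity check -/
noncomputable def monoE (rp : ℕ) (T : ℕ → ℕ → ℕ) (B a n : ℕ) : Bool :=
  allR (fun j => fz (fun i => allR (fun β => Bool.rec (motive := fun _ => Bool) false (Nat.ble (T i β) (Nat.add (T i (Nat.succ β)) rp))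
      (Nat.ble (T i (Nat.succ β)) (T i β))) B) (Nat.add a j)) n

theorem monoE_sound {rp : ℕ} {T : ℕ → ℕ → ℕ} {a n B : ℕ} (h : monoE rp T B a (n + 1) = true)
    (hB : ∀ i β, B ≤ β → T i β = T i B) :
    ∀ i β β', a ≤ i → i ≤ a + n → β ≤ β' → T i β' ≤ T i β ∧ T i β ≤ T i β' + rp * (β' - β) := by
  unfold monoE at h
  rw [allR_iff] at h
  intro i β β' hi0 hi hβ
  have h1 := h (i - a) (by omega)
  rw [fz_eq] at h1
  have e : Nat.add a (i - a) = i := by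
    show a + (i - a) = i
    omega
  rw [e, allR_iff] at h1
  have step : ∀ β, T i (β + 1) ≤ T i β ∧ T i β ≤ T i (β + 1) + rp := by
    intro β
    rcases lt_or_ge β B with h2 | h2
    · have h3 := h1 β h2
      rw [and_rec] at h3
      exact ⟨Nat.le_of_ble_eq_true h3.1, Nat.le_of_ble_eq_true h3.2⟩
    · rw [hB i β h2, hB i (β + 1) (by omega)]
      omega
  induction β', hβ using Nat.le_induction with
  | base => simp
  | succ k hk ih =>
    have h4 := step k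
    have h5 : rp * (k + 1 - β) = rp * (k - β) + rp := by
      have : k + 1 - β = (k - β) + 1 := by omega
      rw [this]; ring
    rw [h5]
    omega

/-- the link check of two octaves: `U'`, `L'` are the arrays of the next octave -/
noncomputable def linkE (c : ℕ) (L U' L' : ℕ → ℕ → ℕ) (B H : ℕ) : Bool :=
  Bool.rec (motive := fun _ => Bool) false (Bool.rec (motive := fun _ => Bool) false (Bool.rec (motive := fun _ => Bool) false (fz (fun i => allR (fun β => Nat.ble (U' (Nat.mul 2 i) β)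
      (Nat.add (Nat.mul 2 (L i β)) (Nat.mul c (Nat.mul 2 i)))) (Nat.succ B)) (Nat.mul 2 H))
      (allR (fun j => fz (fun i => allR (fun β => Bool.rec (motive := fun _ => Bool) false (Nat.ble (U' (Nat.succ (Nat.mul 2 i)) β)
      (Nat.add (Nat.add (L i β) (L (Nat.succ i) β)) (Nat.mul c (Nat.succ (Nat.mul 2 i)))))
      (Nat.ble (U' (Nat.mul 2 i) β)
      (Nat.add (Nat.mul 2 (L i β)) (Nat.mul c (Nat.mul 2 i)))))
    (Nat.succ B)) (Nat.add H j)) H))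
      (allR (fun β => Nat.ble (L' (Nat.mul 2 H) (Nat.mul 2 β))
      (Nat.add (Nat.mul 2 (L H β)) (Nat.mul c (Nat.mul 2 H)))) (Nat.succ B)))
      (allR (fun j => allR (fun β => Bool.rec (motive := fun _ => Bool) false (Nat.ble (L' (Nat.succ (Nat.mul 2 j)) (Nat.mul 2 β))
      (Nat.add (Nat.add (L j β) (L (Nat.succ j) β)) (Nat.mul c (Nat.succ (Nat.mul 2 j)))))
      (Nat.ble (L' (Nat.mul 2 j) (Nat.mul 2 β))
      (Nat.add (Nat.mul 2 (L j β)) (Nat.mul c (Nat.mul 2 j)))))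
    (Nat.succ B)) H)

theorem linkE_sound {c : ℕ} {L U' L' : ℕ → ℕ → ℕ} {B H : ℕ} (h : linkE c L U' L' B H = true)
    (hB : ∀ i β, B ≤ β → L i β = L i B) (hB' : ∀ i β, B ≤ β → L' i β = L' i B)
    (hBU : ∀ i β, B ≤ β → U' i β = U' i B) :
    (∀ i β, i ≤ 2 * H → 2 * H ≤ 2 * i → U' (2 * i) β ≤ 2 * L i β + 2 * c * i) ∧
    (∀ i β, 2 * i ≤ 2 * H → L' (2 * i) (2 * β) ≤ 2 * L i β + 2 * c * i) ∧
    (∀ i β, i < 2 * H → 2 * H ≤ 2 * i + 1 →
      U' (2 * i + 1) β ≤ L i β + L (i + 1) β + c * (2 * i + 1)) ∧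
    (∀ i β, 2 * i + 1 ≤ 2 * H →
      L' (2 * i + 1) (2 * β) ≤ L i β + L (i + 1) β + c * (2 * i + 1)) := by
  unfold linkE at h
  simp only [and_rec] at h
  obtain ⟨h1, h2, h3, h4⟩ := h
  rw [allR_iff] at h1 h2 h3
  rw [fz_eq, allR_iff] at h4
  have red : ∀ P : ℕ → Prop, (∀ β, β ≤ B → P β) → (∀ β, B ≤ β → P B → P β) → ∀ β, P β := by
    intro P p1 p2 β
    rcases le_total β B with hb | hb
    · exact p1 β hb
    · exact p2 β hb (p1 B le_rfl)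
  have two : ∀ {f : ℕ → ℕ → ℕ}, (∀ i β, B ≤ β → f i β = f i B) → ∀ i β, B ≤ β →
      f i (2 * β) = f i (2 * B) := by
    intro f hf i β hb
    rw [hf i (2 * β) (by omega), hf i (2 * B) (by omega)]
  refine ⟨fun i β hi0 hi1 => ?_, fun i β hi => ?_, fun i β hi0 hi1 => ?_, fun i β hi => ?_⟩
  · refine red (fun β => U' (2 * i) β ≤ 2 * L i β + 2 * c * i) (fun β hb => ?_)
      (fun β hb hP => ?_) β
    · rcases hi0.lt_or_eq with hlt | heq
      · have g := h3 (i - H) (by omega)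
        have e : Nat.add H (i - H) = i := by
          show H + (i - H) = i
          omega
        rw [fz_eq, e, allR_iff] at g
        have g1 := g β (by omega)
        rw [and_rec] at g1
        have g2 : U' (2 * i) β ≤ 2 * L i β + c * (2 * i) := Nat.le_of_ble_eq_true g1.1
        have e3 : c * (2 * i) = 2 * c * i := by ring
        omega
      · have g1 := h4 β (by omega)
        subst heq
        have g2 : U' (2 * (2 * H)) β ≤ 2 * L (2 * H) β + c * (2 * (2 * H)) :=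
          Nat.le_of_ble_eq_true g1
        have e3 : c * (2 * (2 * H)) = 2 * c * (2 * H) := by ring
        omega
    · rw [hBU _ β hb, hB _ β hb]
      exact hP
  · refine red (fun β => L' (2 * i) (2 * β) ≤ 2 * L i β + 2 * c * i) (fun β hb => ?_)
      (fun β hb hP => ?_) β
    · have hi' : i ≤ H := by omega
      have e3 : c * (2 * i) = 2 * c * i := by ring
      rcases hi'.lt_or_eq with hlt | heq
      · have g := h1 i hlt
        rw [allR_iff] at g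
        have g1 := g β (by omega)
        rw [and_rec] at g1
        have g2 : L' (2 * i) (2 * β) ≤ 2 * L i β + c * (2 * i) := Nat.le_of_ble_eq_true g1.1
        omega
      · have g1 := h2 β (by omega)
        subst heq
        have g2 : L' (2 * i) (2 * β) ≤ 2 * L i β + c * (2 * i) := Nat.le_of_ble_eq_true g1
        omega
    · rw [two hB' _ β hb, hB _ β hb]
      exact hP
  · refine red (fun β => U' (2 * i + 1) β ≤ L i β + L (i + 1) β + c * (2 * i + 1))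
      (fun β hb => ?_) (fun β hb hP => ?_) β
    · have g := h3 (i - H) (by omega)
      have e : Nat.add H (i - H) = i := by
        show H + (i - H) = i
        omega
      rw [fz_eq, e, allR_iff] at g
      have g1 := g β (by omega)
      rw [and_rec] at g1
      exact Nat.le_of_ble_eq_true g1.2
    · rw [hBU _ β hb, hB _ β hb, hB (i + 1) β hb]
      exact hP
  · refine red (fun β => L' (2 * i + 1) (2 * β) ≤ L i β + L (i + 1) β + c * (2 * i + 1))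
      (fun β hb => ?_) (fun β hb hP => ?_) β
    · have g := h1 i (by omega)
      rw [allR_iff] at g
      have g1 := g β (by omega)
      rw [and_rec] at g1
      exact Nat.le_of_ble_eq_true g1.2
    · rw [two hB' _ β hb, hB _ β hb, hB (i + 1) β hb]
      exact hP

end Pool.Agent.EdgeIso.Cell
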