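import Pool.Agent.Lib.MP_48c8f3_co.Bas
import Pool.Agent.Lib.MP_48c8f3_co.CellN

set_option autoImplicit false

/-!
MP_48c8f3_co, all scales certificates, part Q: the octave system `OctE` from the checks of finitely
many arrays.
-/

namespace Pool.Agent.EdgeIso.Cell

open Pool.Agent.EdgeIso.Frame

theorem octE_of_step {μ ν c K B H : ℕ} {rs : ℕ → ℕ} {U L : ℕ → ℕ → ℕ → ℕ → ℕ} (hK : 1 ≤ K)
    (hH : 2 ^ μ = 2 * H)
    (hUst : ∀ k, K ≤ k → U k = U K) (hLst : ∀ k, K ≤ k → L k = L K)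
    (hUm : ∀ k σ, 1 ≤ k → k ≤ K → ∀ i β β', 2 ^ μ ≤ i → i ≤ 2 * 2 ^ μ → β ≤ β' →
      U k σ i β' ≤ U k σ i β ∧ U k σ i β ≤ U k σ i β' + 2 * rs σ * c * (β' - β))
    (hLm : ∀ k σ, 1 ≤ k → k ≤ K → ∀ β, L k σ (2 ^ μ) 0 ≤ L k σ (2 ^ μ) β + rs σ * c * β)
    (hUc : ∀ k σ i β, 1 ≤ k → k ≤ K → B ≤ β → U k σ i β = U k σ i B)
    (hone : ∀ k σ, 1 ≤ k → k ≤ K → c * ν * 2 ^ μ ≤ L k σ (2 ^ μ) 0)
    (htwo1 : ∀ σ, 2 * c * (1 + ν) * 2 ^ μ ≤ U 1 σ (2 * 2 ^ μ) B)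
    (htwo0 : ∀ k σ, 1 ≤ k → k ≤ K → 2 * c * (1 + ν) * 2 ^ μ ≤ U k σ (2 * 2 ^ μ) 0)
    (htwo : ∀ k σ, 1 ≤ k → k ≤ K → 2 * c * ν * 2 ^ μ ≤ U k σ (2 * 2 ^ μ) B)
    (hI : ∀ k σ iK iW, 1 ≤ k → k ≤ K → 2 ^ μ ≤ iK → iK < 2 * 2 ^ μ → iW ≤ iK →
      CellP 1 c (rs σ) (U k σ) rs (U k) (U k) (L k) (2 ^ μ) (2 * 2 ^ μ) (4 * 2 ^ μ) iK iW)
    (hII : ∀ k σ iK iW, 1 ≤ k → k ≤ K → 2 ^ μ ≤ iK → iK < 2 * 2 ^ μ → iW ≤ iK →
      CellP 0 c (rs σ) (U (min (k + 1) K) σ) rs (U k) (U k) (L k) (2 ^ μ) (2 ^ μ) (2 * 2 ^ μ) iK iW)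
    (hl : ∀ k σ, 1 ≤ k → k ≤ K →
      (∀ i β, i ≤ 2 * H → 2 * H ≤ 2 * i →
        U (min (k + 1) K) σ (2 * i) β ≤ 2 * L k σ i β + 2 * c * i) ∧
      (∀ i β, 2 * i ≤ 2 * H → L (min (k + 1) K) σ (2 * i) (2 * β) ≤ 2 * L k σ i β + 2 * c * i) ∧
      (∀ i β, i < 2 * H → 2 * H ≤ 2 * i + 1 →
        U (min (k + 1) K) σ (2 * i + 1) β ≤ L k σ i β + L k σ (i + 1) β + c * (2 * i + 1)) ∧
      (∀ i β, 2 * i + 1 ≤ 2 * H → L (min (k + 1) K) σ (2 * i + 1) (2 * β) ≤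
        L k σ i β + L k σ (i + 1) β + c * (2 * i + 1))) :
    OctE μ ν c rs (fun k σ i β => (U k σ i β : ℤ)) (fun k σ i β => (L k σ i β : ℤ)) := by
  have hk : ∀ k, 1 ≤ k → ∃ k', 1 ≤ k' ∧ k' ≤ K ∧ U k = U k' ∧ L k = L k' ∧
      U (k + 1) = U (min (k' + 1) K) ∧ L (k + 1) = L (min (k' + 1) K) := by
    intro k h
    rcases le_or_gt k K with h2 | h2
    · refine ⟨k, h, h2, rfl, rfl, ?_, ?_⟩
      · rcases h2.lt_or_eq with h3 | h3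
        · rw [min_eq_left h3]
        · rw [h3, min_eq_right (Nat.le_succ K)]
          exact hUst _ (Nat.le_succ K)
      · rcases h2.lt_or_eq with h3 | h3
        · rw [min_eq_left h3]
        · rw [h3, min_eq_right (Nat.le_succ K)]
          exact hLst _ (Nat.le_succ K)
    · refine ⟨K, hK, le_rfl, hUst k h2.le, hLst k h2.le, ?_, ?_⟩
      · rw [min_eq_right (Nat.le_succ K)]
        exact hUst _ (by omega)
      · rw [min_eq_right (Nat.le_succ K)]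
        exact hLst _ (by omega)
  have hμ0 : 0 < 2 ^ μ := by positivity
  have hBle : ∀ k σ β, 1 ≤ k → k ≤ K → U k σ (2 * 2 ^ μ) B ≤ U k σ (2 * 2 ^ μ) β := by
    intro k σ β h1 h2
    rcases le_total β B with h3 | h3
    · exact (hUm k σ h1 h2 (2 * 2 ^ μ) β B (by omega) le_rfl h3).1
    · exact (hUc k σ _ β h1 h2 h3).ge
  refine ⟨fun k σ β => by positivity, fun k σ β h1 => ?_, fun σ β => ?_, fun k σ β h1 => ?_,
    fun k σ β h1 => ?_, fun k σ iK iW cy β h1 h2 h3 h4 h5 h6 h7 => ?_,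
    fun k σ iK iW cy β h1 h2 h3 h4 h5 h6 h7 => ?_, fun k σ iK iW cy β h1 h2 h3 h4 h5 => ?_,
    fun k σ i β h1 h2 h3 => ?_, fun k σ i β h1 h2 => ?_, fun k σ i β h1 h2 h3 => ?_,
    fun k σ i β h1 h2 => ?_⟩
  · obtain ⟨k', a1, a2, a3, a4, a5, a6⟩ := hk k h1
    simp only [a4]
    have := (hone k' σ a1 a2).trans (hLm k' σ a1 a2 β)
    exact_mod_cast this
  · have h1 := (htwo1 σ).trans (hBle 1 σ β le_rfl hK)
    have h2 : (2 * (c : ℤ) * (1 + ν) * 2 ^ μ) ≤ U 1 σ (2 * 2 ^ μ) β := by exact_mod_cast h1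
    have h3 : (0 : ℤ) ≤ rs σ * c * max 0 (2 * (β : ℤ) - 2 * 2 ^ μ) := by
      have := le_max_left (0 : ℤ) (2 * (β : ℤ) - 2 * 2 ^ μ)
      positivity
    linarith
  · obtain ⟨k', a1, a2, a3, a4, a5, a6⟩ := hk k (by omega)
    simp only [a3]
    have h2 := (hUm k' σ a1 a2 (2 * 2 ^ μ) 0 β (by omega) le_rfl (Nat.zero_le _)).2
    have h3 := (htwo0 k' σ a1 a2).trans h2
    have h4 : (2 * (c : ℤ) * (1 + ν) * 2 ^ μ) ≤ U k' σ (2 * 2 ^ μ) β + 2 * rs σ * c * β := by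
      have h5 := Int.ofNat_le.mpr h3
      rw [Nat.sub_zero] at h5
      push_cast at h5 ⊢
      linarith
    linarith
  · obtain ⟨k', a1, a2, a3, a4, a5, a6⟩ := hk k (by omega)
    simp only [a3]
    have h1 := (htwo k' σ a1 a2).trans (hBle k' σ β a1 a2)
    have h2 : (2 * (c : ℤ) * ν * 2 ^ μ) ≤ U k' σ (2 * 2 ^ μ) β := by exact_mod_cast h1
    have h3 : (0 : ℤ) ≤ rs σ * c * max 0 (2 * (β : ℤ) - 2 * 2 ^ μ) := by
      have := le_max_left (0 : ℤ) (2 * (β : ℤ) - 2 * 2 ^ μ)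
      positivity
    linarith
  · obtain ⟨k', a1, a2, a3, a4, a5, a6⟩ := hk k h1
    simp only [a3, a4]
    exact (hI k' σ iK iW a1 a2 (by omega) h2 h3 cy h4 h5 h6 β).1 h7
  · obtain ⟨k', a1, a2, a3, a4, a5, a6⟩ := hk k h1
    simp only [a3]
    exact (hI k' σ iK iW a1 a2 (by omega) h2 h3 cy h4 h5 h6 β).2 h7
  · obtain ⟨k', a1, a2, a3, a4, a5, a6⟩ := hk k h1
    simp only [a3, a4, a5]
    exact (hII k' σ iK iW a1 a2 h2 h3 (by omega) cy h4 (by omega) h5 β).1 (by omega)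
  · obtain ⟨k', a1, a2, a3, a4, a5, a6⟩ := hk k h1
    simp only [a4, a5]
    have := (hl k' σ a1 a2).1 i β (by omega) (by omega)
    exact_mod_cast this
  · obtain ⟨k', a1, a2, a3, a4, a5, a6⟩ := hk k h1
    simp only [a4, a6]
    have := (hl k' σ a1 a2).2.1 i β (by omega)
    exact_mod_cast this
  · obtain ⟨k', a1, a2, a3, a4, a5, a6⟩ := hk k h1
    simp only [a4, a5]
    have := (hl k' σ a1 a2).2.2.1 i β (by omega) (by omega)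
    exact_mod_cast this
  · obtain ⟨k', a1, a2, a3, a4, a5, a6⟩ := hk k h1
    simp only [a4, a6]
    have := (hl k' σ a1 a2).2.2.2 i β (by omega)
    exact_mod_cast this

end Pool.Agent.EdgeIso.Cell
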