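import Pool.Agent.Lib.MP_48c8f3_co.Bas
import Pool.Agent.Lib.MP_48c8f3_co.CellM

set_option autoImplicit false

/-!
MP_48c8f3_co, all scales certificates, part R: the bound of the number of edges for the families of
exactly one unit, by the arrays of the upper octave.
-/

namespace Pool.Agent.EdgeIso.Cell

open Finset Pool.Agent.EdgeIso.Frame

variable {α : Type*} [DecidableEq α]

/-- the upper bound of the number of edges for the families of one unit -/
theorem OctE.boundU {μ ν c : ℕ} {rs : ℕ → ℕ} {U L : ℕ → ℕ → ℕ → ℕ → ℤ} (h : OctE μ ν c rs U L)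
    (h1 : ∀ k σ, ∀ β : ℕ, 1 ≤ k → (c : ℤ) * ν * 2 ^ μ ≤ U k σ (2 ^ μ) β + rs σ * c * (2 * β))
    (N : ℕ) : ∀ R k, N = R + k → 1 ≤ k → ∀ (s : Finset α) (F : Finset (Finset α)), s.card = N →
      Sub s F → F.card = 2 ^ R → ∀ V, Hf s F V → V ≤ F.card → ClU μ ν c rs U R k s F V := by
  induction N with
  | zero =>
    intro R k hN hk
    omega
  | succ N ih =>
    intro R k hN hk s F hs hF hsz V hV h2V σ β
    have hne : s.Nonempty := by
      rw [← card_pos, hs]
      exact Nat.succ_pos N
    have hμ : 0 < 2 ^ μ := by positivity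
    rcases Nat.eq_zero_or_pos R with hR0 | hR0
    · -- one member
      subst hR0
      have he := e2_le hF
      rw [pow_zero] at hsz
      have hμ0 : (0 : ℤ) ≤ 2 ^ μ := by positivity
      have hc0 : (0 : ℤ) ≤ c := by positivity
      have hV0 : V = 0 := by
        obtain ⟨a, ha⟩ := hne
        have h2 := hV a ha true
        have h3 := hV a ha false
        have h4 := card_half_add' a true F
        simp only [Bool.not_true] at h4
        omega
      have hev : ev (fun i => U k σ i β) (2 ^ 0) (2 ^ μ) = U k σ (2 ^ μ) β := by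
        unfold ev
        simp only [pow_zero, Nat.div_one, Nat.mod_one]
        push_cast
        ring
      rw [hsz] at he ⊢
      rw [EdgeIso.g_one] at he
      rw [Nat.mul_one, hev, hV0]
      have q1 := h1 k σ β hk
      have q2 : (rs σ : ℤ) * c * (2 * β) ≤
          rs σ * c * max 0 ((2 : ℤ) ^ 0 * (2 * β) - 2 ^ μ * (0 : ℕ)) := by
        apply mul_le_mul_of_nonneg_left _ (by positivity)
        refine le_trans ?_ (le_max_right _ _)
        push_cast
        linarith
      have q3 := mul_nonneg hc0 hμ0
      have q4 : c * 2 ^ μ * (e2 s F : ℤ) ≤ 0 := by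
        have := mul_le_mul_of_nonneg_left he q3
        simpa using this
      push_cast at *
      linarith
    · obtain ⟨R, rfl⟩ : ∃ R', R = R' + 1 := ⟨R - 1, by omega⟩
      have hp : (2 : ℕ) ^ (R + 1) = 2 * 2 ^ R := by rw [pow_succ, Nat.mul_comm]
      obtain ⟨a, ha, b, hQ⟩ := exists_min_dir hne F
      have hsN : (s.erase a).card = N := by rw [card_erase_of_mem ha, hs]; rfl
      have hQP : (half a (!b) F).card ≤ (half a b F).card := hQ a ha b
      have hsum := card_half_add' a b F
      have hfK : ∀ c' ∈ s.erase a, ∀ d, (half a (!b) F).card -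
          (half a (!b) F \ half a b F).card ≤ 2 * (half c' d (half a b F)).card := by
        intro c' hc' d
        have := hf_K (b := b) hQ hc' d
        omega
      have hfW : ∀ c' ∈ s.erase a, ∀ d, 2 * (half a (!b) F).card - ((half a b F).card +
          (half a (!b) F \ half a b F).card) ≤ 2 * (half c' d (half a (!b) F)).card := by
        intro c' hc' d
        have := hf_W (b := b) hQ hc' d
        omega
      have hM : 0 < 2 ^ R := by positivity
      have hP1 : 2 ^ R ≤ (half a b F).card := by omega
      have hP2 : (half a b F).card ≤ 2 ^ (R + 1) := by omega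
      have hQs : (half a (!b) F).card ≤ 2 ^ R := by omega
      -- the cell
      obtain ⟨iK, hiK1, hiK, hK1, hK2⟩ : ∃ iK, 2 ^ μ ≤ iK ∧ iK < 2 * 2 ^ μ ∧
          2 ^ R * iK ≤ 2 ^ μ * (half a b F).card ∧
          2 ^ μ * (half a b F).card ≤ 2 ^ R * (iK + 1) := by
        rcases hP1.lt_or_eq with hP | hP
        · obtain ⟨j1, j2, j3⟩ := exists_lcell (A := 2 ^ μ * (half a b F).card) hM
          generalize (2 ^ μ * (half a b F).card - 1) / 2 ^ R = j at *
          have hpos : 0 < 2 ^ μ * (half a b F).card := by
            have : 0 < (half a b F).card := by omega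
            positivity
          refine ⟨j, ?_, ?_, j1, j2⟩
          · have g1 : 2 ^ R * 2 ^ μ < 2 ^ R * (j + 1) := by
              calc 2 ^ R * 2 ^ μ = 2 ^ μ * 2 ^ R := Nat.mul_comm _ _
                _ < 2 ^ μ * (half a b F).card := Nat.mul_lt_mul_of_pos_left hP hμ
                _ ≤ _ := j2
            have g2 := Nat.lt_of_mul_lt_mul_left g1
            omega
          · have g1 : 2 ^ R * j < 2 ^ R * (2 * 2 ^ μ) := by
              calc 2 ^ R * j < 2 ^ μ * (half a b F).card := j3 hpos
                _ ≤ 2 ^ μ * 2 ^ (R + 1) := Nat.mul_le_mul_left _ hP2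
                _ = 2 ^ R * (2 * 2 ^ μ) := by rw [hp]; ring
            exact Nat.lt_of_mul_lt_mul_left g1
        · refine ⟨2 ^ μ, le_rfl, by omega, ?_, ?_⟩
          · rw [← hP, Nat.mul_comm]
          · rw [← hP, Nat.mul_comm]
            exact Nat.mul_le_mul_left _ (Nat.le_succ _)
      obtain ⟨iW, hiW⟩ : ∃ iW, iW = 2 * 2 ^ μ - 1 - iK := ⟨_, rfl⟩
      have hJ : iK + iW + 1 = 2 * 2 ^ μ := by omega
      have hWK : iW ≤ iK := by omega
      have hW : iW < 2 ^ μ := by omega
      have htot : 2 ^ μ * (half a b F).card + 2 ^ μ * (half a (!b) F).card =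
          2 ^ R * (2 * 2 ^ μ) := by
        rw [← Nat.mul_add, hsum, hsz, hp]
        ring
      have hW1 : 2 ^ R * iW ≤ 2 ^ μ * (half a (!b) F).card := by
        have g1 : 2 ^ R * (iK + 1) + 2 ^ R * iW = 2 ^ R * (2 * 2 ^ μ) := by
          rw [← Nat.mul_add, ← hJ]
          congr 1
          omega
        omega
      have hW2 : 2 ^ μ * (half a (!b) F).card ≤ 2 ^ R * (iW + 1) := by
        have g1 : 2 ^ R * iK + 2 ^ R * (iW + 1) = 2 ^ R * (2 * 2 ^ μ) := by
          rw [← Nat.mul_add, ← hJ]
          congr 1
        omega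
      have hX : 2 ^ μ * F.card = 2 ^ R * (iK + iW + 1) := by
        rw [hJ, hsz, hp]
        ring
      have hX1 : 2 ^ R * (iK + iW + 1) ≤ 2 ^ μ * F.card := hX.ge
      have hX2 : 2 ^ μ * F.card ≤ 2 ^ R * (iK + iW + 1 + 1) := by
        rw [hX]
        exact Nat.mul_le_mul_left _ (Nat.le_succ _)
      have hcell1 : 2 ^ (R + 1) * ((iK + iW + 1) / 2) ≤ 2 ^ μ * F.card := by
        refine le_trans ?_ hX1
        rw [hp, Nat.mul_comm 2, Nat.mul_assoc]
        exact Nat.mul_le_mul_left _ (by omega)
      have hcell2 : 2 ^ μ * F.card ≤ 2 ^ (R + 1) * ((iK + iW + 1) / 2 + 1) := by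
        refine hX2.trans ?_
        rw [hp, Nat.mul_comm 2, Nat.mul_assoc]
        exact Nat.mul_le_mul_left _ (by omega)
      have hKcl : ClU μ ν c rs U R k (s.erase a) (half a b F)
          ((half a (!b) F).card - (half a (!b) F \ half a b F).card) := by
        rcases hP1.lt_or_eq with hP | hP
        · exact (h.bound N R k (by omega) hk (s.erase a) (half a b F) hsN (hF.half a b)
            (by rw [← hp]; exact hP2) _ hfK (by omega)).2 hP
        · exact ih R k (by omega) hk (s.erase a) (half a b F) hsN (hF.half a b) hP.symm _ hfK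
            (by omega)
      have hWcl := (h.bound N R k (by omega) hk (s.erase a) (half a (!b) F) hsN
        (hF.half a (!b)) (by omega) _ hfW (by omega)).1 hQs
      have key := stepE_family (γ := μ) (ω := (R : ℤ) - ν) ha hQP (le_refl 1) (hV a ha (!b)) hK1 hK2
        hW1 hW2 hX1 hX2 (h.stepI k σ iK iW 1 β hk hiK hWK (le_refl 1) (by omega) (by omega) hW)
        (fun σ β => by
          have := hKcl σ β
          rw [lin_ev hK1 hK2 hM] at this
          push_cast at this ⊢
          exact this)
        (fun σ' β' => by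
          have := hWcl σ' β'
          rw [lin_ev hW1 hW2 hM] at this
          push_cast at this ⊢
          rw [one_mul]
          exact this)
      rw [lin_ev hcell1 hcell2 (by positivity)]
      rw [pow_one] at key
      push_cast at key ⊢
      rw [pow_succ, mul_comm ((2 : ℤ) ^ R) 2]
      linarith

end Pool.Agent.EdgeIso.Cell
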