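import Pool.Agent.Lib.MP_48c8f3_co.CellZ

set_option autoImplicit false

/-!
MP_48c8f3_co, cells: the checker for the rows of the array `B` with fewer kernel reductions.
-/

namespace Pool.Agent.EdgeIso.Cell.Fst

/-- the check of one corner -/
def corF (ρ c : ℕ) (G : ℕ → ℕ) (i b0 b1 cK cW : ℕ) (κ : Bool) (bK bW x φ p q tk tw : ℕ) : Bool :=
  Nat.ble (Nat.add (Nat.add (Nat.add
      (Nat.mul (Nat.sub (Nat.mul ρ (Nat.add i 1)) (Nat.add p q)) b0)
      (Nat.mul (Nat.sub (Nat.add p q) (Nat.mul ρ i)) b1))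
      (Nat.add (Nat.mul cK (@Bool.rec (fun _ => ℕ) (Nat.sub (Nat.add (Nat.mul 2 bK) φ) x)
          (Nat.sub (Nat.add (Nat.mul 2 bK) (Nat.mul 2 q)) (Nat.mul 2 x)) κ))
        (Nat.mul cW (Nat.sub (Nat.add (Nat.add (Nat.mul 2 bW) φ) p) (Nat.add x q)))))
      (Nat.mul (Nat.mul 2 c) (Nat.add (Nat.add (G p) (G q))
        (@Bool.rec (fun _ => ℕ) q p (Nat.ble p q)))))
    (Nat.add (Nat.add tk tw) (Nat.mul (Nat.mul 2 c) (Nat.add (G (Nat.add p q)) φ)))

theorem minF (p q : ℕ) : (@Bool.rec (fun _ => ℕ) q p (Nat.ble p q)) = min p q := by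
  cases h : Nat.ble p q with
  | true => exact (min_eq_left (Nat.le_of_ble_eq_true h)).symm
  | false =>
    have : ¬ p ≤ q := fun h' => by
      rw [Nat.ble_eq_true_of_le h'] at h
      exact absurd h (by simp)
    exact (min_eq_right (Nat.le_of_lt (Nat.lt_of_not_le this))).symm

theorem corF_eq : corF = corY := by
  funext ρ c G i b0 b1 cK cW κ bK bW x φ p q tk tw
  unfold corF
  rw [minF]
  cases κ <;> rfl

theorem andF (a b : Bool) : (@Bool.rec (fun _ => Bool) false b a) = (a && b) := by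
  cases a <;> rfl

theorem orF (a b : Bool) : (@Bool.rec (fun _ => Bool) b true a) = (a || b) := by
  cases a <;> rfl

theorem condF (c : Bool) (a b : ℕ) : (@Bool.rec (fun _ => ℕ) b a c) = cond c a b := by
  cases c <;> rfl

/-- the check of the three corners of one cell for one `φ` -/
def phF (ρ c : ℕ) (G : ℕ → ℕ) (i b0 b1 cK cW : ℕ) (κ : Bool) (bK bW x φ iK iW cy k0 k1 w0 w1 : ℕ) :
    Bool :=
  @Bool.rec (fun _ => Bool) false (@Bool.rec (fun _ => Bool) false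
    (corF ρ c G i b0 b1 cK cW κ bK bW x φ iK (Nat.add iW 1) k0 w1)
    (corF ρ c G i b0 b1 cK cW κ bK bW x φ (Nat.add iK 1) iW k1 w0))
    (corF ρ c G i b0 b1 cK cW κ bK bW x φ (Nat.add iK cy) (Nat.add iW cy)
      (@Bool.rec (fun _ => ℕ) k1 k0 (Nat.beq cy 0)) (@Bool.rec (fun _ => ℕ) w1 w0 (Nat.beq cy 0)))

theorem phF_eq : phF = phiY := by
  funext ρ c G i b0 b1 cK cW κ bK bW x φ iK iW cy k0 k1 w0 w1
  unfold phF phiY
  rw [corF_eq, andF, andF, condF, condF]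
  rfl

/-- the penalty factor -/
def cpF (r c b : ℕ) : ℕ := @Bool.rec (fun _ => ℕ) (Nat.mul r c) 0 (Nat.beq b 0)

theorem cpF_eq : cpF = cpN := by
  funext r c b
  unfold cpF cpN
  rw [condF]
  rfl

/-- the check of one interval for one choice -/
def intF (ρ c rB : ℕ) (G : ℕ → ℕ) (R : ℕ → ℕ) (TK TW : ℕ → ℕ → ℕ → ℕ) (i b0 b1 x x1 x2 iK iW cy : ℕ)
    (tK tW : ℕ) (κ : Bool) (bK bW : ℕ) : Bool :=
  @Bool.rec (fun _ => Bool) false
    (@Bool.rec (fun _ => Bool) false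
      (phF ρ c G i b0 b1 (cpF (R tK) c bK) (cpF (R tW) c bW) κ bK bW x x2 iK iW cy
        (TK tK iK bK) (TK tK (Nat.add iK 1) bK) (TW tW iW bW) (TW tW (Nat.add iW 1) bW))
      (phF ρ c G i b0 b1 (cpF (R tK) c bK) (cpF (R tW) c bW) κ bK bW x x1 iK iW cy
        (TK tK iK bK) (TK tK (Nat.add iK 1) bK) (TW tW iW bW) (TW tW (Nat.add iW 1) bW)))
    (Nat.ble (Nat.add (Nat.mul (@Bool.rec (fun _ => ℕ) 1 2 κ) (cpF (R tK) c bK))
      (cpF (R tW) c bW)) (Nat.mul (Nat.mul 2 rB) c))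

theorem intF_eq : intF = intY := by
  funext ρ c rB G R TK TW i b0 b1 x x1 x2 iK iW cy tK tW κ bK bW
  unfold intF intY
  rw [phF_eq, cpF_eq, andF, andF, condF]
  rfl

/-- the search for one interval: one hint `h` -/
def srF (ρ c rB : ℕ) (G : ℕ → ℕ) (R : ℕ → ℕ) (TK TW : ℕ → ℕ → ℕ → ℕ) (i b0 b1 x x1 x2 iK iW cy : ℕ)
    (h : ℕ) : Bool :=
  intF ρ c rB G R TK TW i b0 b1 x x1 x2 iK iW cy (Nat.land h 1)
    (Nat.land (Nat.shiftRight h 1) 1) (Nat.beq (Nat.land (Nat.shiftRight h 2) 1) 1)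
    (Nat.land (Nat.shiftRight h 3) 127) (Nat.shiftRight h 10)

theorem srF_eq (ρ c rB : ℕ) (G : ℕ → ℕ) (R : ℕ → ℕ) (TK TW : ℕ → ℕ → ℕ → ℕ)
    (i b0 b1 x x1 x2 iK iW cy h : ℕ)
    (cd : ℕ → ℕ → ℕ → ℕ → ℕ → List (ℕ × ℕ × Bool × ℕ × ℕ)) (hc : cd iK iW cy x1 x2 = [dcY h]) :
    srF ρ c rB G R TK TW i b0 b1 x x1 x2 iK iW cy h =
      srchY ρ c rB G R TK TW i b0 b1 x x1 x2 iK iW cy cd := by
  unfold srF srchY
  rw [hc, List.any_cons, List.any_nil, Bool.or_false, intF_eq]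
  have e1 : Nat.land h 1 = h % 2 := Nat.and_one_is_mod h
  have e2 : Nat.land (Nat.shiftRight h 1) 1 = h / 2 % 2 := by
    have : Nat.land (Nat.shiftRight h 1) 1 = (h >>> 1) % 2 := Nat.and_one_is_mod _
    rw [this, Nat.shiftRight_eq_div_pow, pow_one]
  have e3 : Nat.land (Nat.shiftRight h 2) 1 = h / 4 % 2 := by
    have : Nat.land (Nat.shiftRight h 2) 1 = (h >>> 2) % 2 := Nat.and_one_is_mod _
    rw [this, Nat.shiftRight_eq_div_pow]
  have e4 : Nat.land (Nat.shiftRight h 3) 127 = h / 8 % 128 := by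
    have : Nat.land (Nat.shiftRight h 3) 127 = (h >>> 3) % 2 ^ 7 :=
      Nat.and_two_pow_sub_one_eq_mod _ 7
    rw [this, Nat.shiftRight_eq_div_pow]
    norm_num
  have e5 : Nat.shiftRight h 10 = h / 1024 := by
    show h >>> 10 = _
    rw [Nat.shiftRight_eq_div_pow]
  rw [e1, e2, e3, e4, e5]
  rfl

/-- the intervals one after the other; `D` holds the hints of the cell -/
def goF (ρ c rB w : ℕ) (G : ℕ → ℕ) (R : ℕ → ℕ) (TK TW : ℕ → ℕ → ℕ → ℕ) (i b0 b1 x iK iW cy : ℕ)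
    (D : ℕ) (n : ℕ) : ℕ → Bool :=
  @Nat.rec (fun _ => ℕ → Bool) (fun _ => false)
    (fun _ ih j => @Bool.rec (fun _ => Bool)
      (@Bool.rec (fun _ => Bool) false (ih (Nat.add j 1))
        (srF ρ c rB G R TK TW i b0 b1 x (Nat.mul w j) (Nat.mul w (Nat.add j 1)) iK iW cy
          (Nat.land (Nat.shiftRight D (Nat.mul 16 j)) 65535)))
      true (phF ρ c G i b0 b1 0 0 false 0 0 x (Nat.mul w j) iK iW cy 0 0 0 0)) n

theorem goF_eq (ρ c rB w : ℕ) (G : ℕ → ℕ) (R : ℕ → ℕ) (TK TW : ℕ → ℕ → ℕ → ℕ)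
    (i b0 b1 x iK iW cy D : ℕ) (cd : ℕ → ℕ → ℕ → ℕ → ℕ → List (ℕ × ℕ × Bool × ℕ × ℕ))
    (hc : ∀ j, cd iK iW cy (w * j) (w * (j + 1)) =
      [dcY (Nat.land (Nat.shiftRight D (Nat.mul 16 j)) 65535)]) : ∀ n j,
    goF ρ c rB w G R TK TW i b0 b1 x iK iW cy D n j =
      goY ρ c rB w G R TK TW i b0 b1 x iK iW cy cd n j := by
  intro n
  induction n with
  | zero => intro j; rfl
  | succ n ih =>
    intro j
    rw [goY, ← ih (j + 1), ← srF_eq _ _ _ _ _ _ _ _ _ _ _ _ _ _ _ _ _ _ (hc j), ← phF_eq,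
      ← andF, ← orF]
    rfl

/-- all numbers below `n` -/
def allF (n : ℕ) (f : ℕ → Bool) : Bool :=
  @Nat.rec (fun _ => Bool) true (fun k ih => @Bool.rec (fun _ => Bool) false ih (f k)) n

theorem allF_eq (f : ℕ → Bool) : ∀ n, allF n f = allB f n := by
  intro n
  induction n with
  | zero => rfl
  | succ n ih =>
    show @Bool.rec (fun _ => Bool) false (allF n f) (f n) = (f n && allB f n)
    rw [andF, ih]

/-- the cells with total `t` -/
def totF (ρ c rB w fuel : ℕ) (G : ℕ → ℕ) (R : ℕ → ℕ) (TK TW : ℕ → ℕ → ℕ → ℕ) (x J t i b0 b1 D : ℕ) :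
    Bool :=
  allF x (fun iW => @Bool.rec (fun _ => Bool) false
    (@Bool.rec (fun _ => Bool)
      (goF ρ c rB w G R TK TW i b0 b1 x (Nat.sub (Nat.sub t iW) 1) iW 1
        (Nat.shiftRight D (Nat.mul 16 (Nat.mul (Nat.add (Nat.mul iW 2) 1) J))) fuel 0)
      true (Nat.blt t (Nat.add (Nat.add iW iW) 1)))
    (@Bool.rec (fun _ => Bool)
      (goF ρ c rB w G R TK TW i b0 b1 x (Nat.sub t iW) iW 0
        (Nat.shiftRight D (Nat.mul 16 (Nat.mul (Nat.mul iW 2) J))) fuel 0)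
      true (Nat.blt t (Nat.add iW iW))))

/-- the cells with total in `[ρ i0, ρ (i0 + m))` -/
def rowF (ρ c rB w fuel : ℕ) (G : ℕ → ℕ) (R : ℕ → ℕ) (TK TW : ℕ → ℕ → ℕ → ℕ) (b : ℕ → ℕ)
    (x i0 m D t0 J : ℕ) : Bool :=
  allF (Nat.mul ρ m) (fun d => totF ρ c rB w fuel G R TK TW x J (Nat.add (Nat.mul ρ i0) d)
    (Nat.div (Nat.add (Nat.mul ρ i0) d) ρ) (b (Nat.div (Nat.add (Nat.mul ρ i0) d) ρ))
    (b (Nat.add (Nat.div (Nat.add (Nat.mul ρ i0) d) ρ) 1))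
    (Nat.shiftRight D (Nat.mul 16 (Nat.mul (Nat.mul (Nat.mul
      (Nat.sub (Nat.add (Nat.mul ρ i0) d) t0) x) 2) J))))

theorem hint_eq (w D x t0 J t iK iW cy j : ℕ) (hw : 0 < w) (ht : iK + iW + cy = t) (x2 : ℕ) :
    hcW w D x t0 J iK iW cy (w * j) x2 = [dcY (Nat.land (Nat.shiftRight (Nat.shiftRight
      (Nat.shiftRight D (16 * ((t - t0) * x * 2 * J))) (16 * ((iW * 2 + cy) * J))) (16 * j))
        65535)] := by
  unfold hcW rd
  rw [Nat.mul_div_cancel_left _ hw, ht]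
  have e : Nat.shiftRight D (16 * ((((t - t0) * x + iW) * 2 + cy) * J + j)) =
      Nat.shiftRight (Nat.shiftRight (Nat.shiftRight D (16 * ((t - t0) * x * 2 * J)))
        (16 * ((iW * 2 + cy) * J))) (16 * j) := by
    show D >>> _ = ((D >>> _) >>> _) >>> _
    rw [← Nat.shiftRight_add, ← Nat.shiftRight_add]
    congr 1
    ring
  rw [e]
  norm_num

theorem rowF_eq (ρ c rB w fuel : ℕ) (G : ℕ → ℕ) (R : ℕ → ℕ) (TK TW : ℕ → ℕ → ℕ → ℕ) (b : ℕ → ℕ)
    (x i0 m D t0 J : ℕ) (hw : 0 < w) :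
    rowF ρ c rB w fuel G R TK TW b x i0 m D t0 J =
      rowY ρ c rB w fuel G R TK TW b x i0 m (hcW w D x t0 J) := by
  unfold rowF rowY
  show allF (ρ * m) _ = _
  rw [allF_eq]
  congr 1
  funext d
  unfold totF
  rw [allF_eq]
  congr 1
  funext iW
  rw [andF, orF, orF]
  congr 1
  · show (Nat.blt (ρ * i0 + d) (iW + iW) || _) = _
    cases h : Nat.blt (ρ * i0 + d) (iW + iW) with
    | true => rfl
    | false =>
      have h2 : ¬ ρ * i0 + d < iW + iW := fun h' => by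
        have : Nat.blt (ρ * i0 + d) (iW + iW) = true := Nat.ble_eq_true_of_le h'
        rw [this] at h
        exact absurd h (by simp)
      have ht : (ρ * i0 + d - iW) + iW + 0 = ρ * i0 + d := by omega
      rw [Bool.false_or, Bool.false_or]
      unfold cellY
      rw [ht]
      refine goF_eq ρ c rB w G R TK TW _ _ _ x _ iW 0 _ _ (fun j => ?_) fuel 0
      exact hint_eq w D x t0 J (ρ * i0 + d) _ iW 0 j hw ht _
  · show (Nat.blt (ρ * i0 + d) (iW + iW + 1) || _) = _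
    cases h : Nat.blt (ρ * i0 + d) (iW + iW + 1) with
    | true => rfl
    | false =>
      have h2 : ¬ ρ * i0 + d < iW + iW + 1 := fun h' => by
        have : Nat.blt (ρ * i0 + d) (iW + iW + 1) = true := Nat.ble_eq_true_of_le h'
        rw [this] at h
        exact absurd h (by simp)
      have ht : (ρ * i0 + d - iW - 1) + iW + 1 = ρ * i0 + d := by omega
      rw [Bool.false_or, Bool.false_or]
      unfold cellY
      rw [ht]
      refine goF_eq ρ c rB w G R TK TW _ _ _ x _ iW 1 _ _ (fun j => ?_) fuel 0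
      exact hint_eq w D x t0 J (ρ * i0 + d) _ iW 1 j hw ht _

/-- the fast check implies the check -/
theorem rowF_spec {ρ c rB w fuel : ℕ} {G G' : ℕ → ℕ} {R : ℕ → ℕ} {TK TW : ℕ → ℕ → ℕ → ℕ}
    {b : ℕ → ℕ} {x i0 m D t0 J : ℕ} (hw : 0 < w) (hG : G' = G)
    (h : rowF ρ c rB w fuel G' R TK TW b x i0 m D t0 J = true) :
    rowY ρ c rB w fuel G R TK TW b x i0 m (hcW w D x t0 J) = true := by
  subst hG
  rw [← rowF_eq _ _ _ _ _ _ _ _ _ _ _ _ _ _ _ _ hw]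
  exact h

end Pool.Agent.EdgeIso.Cell.Fst
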