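import Pool.Agent.Lib.MP_48c8f3_co.TKb_F
import Pool.Agent.Lib.MP_48c8f3_co.CellYf

set_option autoImplicit false

/-!
MP_48c8f3_co, cells: the values of `g` for the checks of the rows of `B`.
-/

namespace Pool.Agent.EdgeIso.Cell

/-- the values of `g` -/
def gF (m : ℕ) : ℕ := Nat.land (Nat.shiftRight TKbg (Nat.mul 11 m)) 2047

theorem gF_eq : gF = TKbG := by
  funext m
  rfl

end Pool.Agent.EdgeIso.Cell
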