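import Pool.Agent.Lib.MP_48c8f3_co.CellY

set_option autoImplicit false

/-! MP_48c8f3_co, cells, part Z: hints for intervals of length `w`. -/

namespace Pool.Agent.EdgeIso.Cell

/-- candidates from packed hints (16 bits each), intervals of length `w` -/
def hcW (w D x t0 J iK iW cy x1 _x2 : ℕ) : List (ℕ × ℕ × Bool × ℕ × ℕ) :=
  [dcY (rd D 16 ((((iK + iW + cy - t0) * x + iW) * 2 + cy) * J + x1 / w))]

/-- a row of zeros -/
theorem rowB_zero {γ c rB : ℕ} {R : ℕ → ℕ} {T : ℕ → ℕ → ℕ → ℕ} {β : ℕ} {b : ℕ → ℕ} {t : ℕ}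
    (ht : R t ≤ rB) (hb : ∀ i, b i = 0) :
    RowB γ c rB R (fun t i β => ((T t i β : ℕ) : ℤ)) β (fun i => ((b i : ℕ) : ℤ)) := by
  refine ⟨⟨t, ht, fun i _ => ?_⟩, fun iK iW cy _ _ _ _ => ?_⟩
  · simp only [hb, Nat.cast_zero]
    positivity
  · refine stepB_zero (b := fun i => ((b i : ℕ) : ℤ)) ?_ ?_
    · simp only [hb, Nat.cast_zero]
    · simp only [hb, Nat.cast_zero]

end Pool.Agent.EdgeIso.Cell
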