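import Pool.Agent.Lib.MP_48c8f3_co.BasR
import Pool.Agent.Lib.MP_48c8f3_co.FCa
import Pool.Agent.Lib.MP_48c8f3_co.WFd

set_option autoImplicit false
set_option linter.unusedSectionVars false

/-!
MP_48c8f3_co, the smooth loss, part A: the function `x log x`, the entropy of two numbers, and the
smooth loss of a family in integer form.
-/

namespace Pool.Agent.EdgeIso.Smooth

open Finset Pool.Agent.EdgeIso.Frame Pool.Agent.EdgeIso.Walsh

/-- `x log_2 x` -/
noncomputable def lx (x : ℝ) : ℝ := x * Real.logb 2 x

theorem lx_zero : lx 0 = 0 := by simp [lx]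

theorem lx_one : lx 1 = 0 := by simp [lx]

theorem lx_two : lx 2 = 2 := by
  unfold lx
  rw [Real.logb_self_eq_one (by norm_num)]
  norm_num

theorem lx_mul {c x : ℝ} (hc : 0 ≤ c) (hx : 0 ≤ x) : lx (c * x) = c * lx x + x * lx c := by
  rcases hc.eq_or_lt with h | h
  · rw [← h]
    simp [lx]
  rcases hx.eq_or_lt with h' | h'
  · rw [← h']
    simp [lx]
  unfold lx
  rw [Real.logb_mul h.ne' h'.ne']
  ring

theorem lx_pow_mul (N : ℕ) {x : ℝ} (hx : 0 ≤ x) : lx (2 ^ N * x) = 2 ^ N * lx x + N * (2 ^ N * x) := by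
  rw [lx_mul (by positivity) hx]
  have : lx (2 ^ N) = 2 ^ N * N := by
    unfold lx
    rw [Real.logb_pow, Real.logb_self_eq_one (by norm_num), mul_one]
  rw [this]
  ring

/-- the entropy of two numbers -/
noncomputable def ent (p q : ℝ) : ℝ := lx (p + q) - lx p - lx q

theorem ent_comm (p q : ℝ) : ent p q = ent q p := by
  unfold ent
  rw [add_comm]
  ring

theorem ent_zero_right (p : ℝ) : ent p 0 = 0 := by simp [ent, lx_zero]

theorem ent_one_one : ent 1 1 = 2 := by
  unfold ent
  rw [lx_one]
  norm_num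
  exact lx_two

theorem ent_mul {c p q : ℝ} (hc : 0 ≤ c) (hp : 0 ≤ p) (hq : 0 ≤ q) :
    ent (c * p) (c * q) = c * ent p q := by
  unfold ent
  rw [← mul_add, lx_mul hc (add_nonneg hp hq), lx_mul hc hp, lx_mul hc hq]
  ring

theorem ent_eq {p q : ℝ} (hp : 0 ≤ p) (hq : 0 ≤ q) (hs : 0 < p + q) :
    ent p q * Real.log 2 = (p + q) * (Real.negMulLog (p / (p + q)) +
      Real.negMulLog (q / (p + q))) := by
  have hl : Real.log 2 ≠ 0 := (Real.log_pos (by norm_num)).ne'
  have key : ∀ y : ℝ, 0 ≤ y → (p + q) * Real.negMulLog (y / (p + q)) =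
      y * Real.log (p + q) - y * Real.log y := by
    intro y hy
    rcases hy.eq_or_lt with h | h
    · rw [← h]
      simp
    · unfold Real.negMulLog
      rw [Real.log_div h.ne' hs.ne']
      field_simp
      ring
  have key2 : ∀ y : ℝ, lx y * Real.log 2 = y * Real.log y := by
    intro y
    unfold lx Real.logb
    field_simp
  rw [mul_add, key p hp, key q hq]
  unfold ent
  rw [sub_mul, sub_mul, key2, key2, key2]
  ring

/-- the entropy is superadditive -/
theorem ent_add {p q p' q' : ℝ} (hp : 0 ≤ p) (hq : 0 ≤ q) (hp' : 0 ≤ p') (hq' : 0 ≤ q') :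
    ent p q + ent p' q' ≤ ent (p + p') (q + q') := by
  have hl : 0 < Real.log 2 := Real.log_pos (by norm_num)
  rcases (add_nonneg hp hq).eq_or_lt with h | h
  · have h1 : p = 0 := by linarith
    have h2 : q = 0 := by linarith
    rw [h1, h2, ent_zero_right, zero_add, zero_add, zero_add]
  rcases (add_nonneg hp' hq').eq_or_lt with h' | h'
  · have h1 : p' = 0 := by linarith
    have h2 : q' = 0 := by linarith
    rw [h1, h2, ent_zero_right, add_zero, add_zero, add_zero]
  have hs : 0 < (p + p') + (q + q') := by linarith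
  have e1 := ent_eq hp hq h
  have e2 := ent_eq hp' hq' h'
  have e3 := ent_eq (add_nonneg hp hp') (add_nonneg hq hq') hs
  have key : ∀ y y' : ℝ, 0 ≤ y → 0 ≤ y' → (p + q) * Real.negMulLog (y / (p + q)) +
      (p' + q') * Real.negMulLog (y' / (p' + q')) ≤
      ((p + p') + (q + q')) * Real.negMulLog ((y + y') / ((p + p') + (q + q'))) := by
    intro y y' hy hy'
    have hconc := Real.concaveOn_negMulLog
    have m1 : y / (p + q) ∈ Set.Ici (0 : ℝ) := Set.mem_Ici.mpr (by positivity)
    have m2 : y' / (p' + q') ∈ Set.Ici (0 : ℝ) := Set.mem_Ici.mpr (by positivity)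
    have m3 : 0 ≤ (p + q) / ((p + p') + (q + q')) := by positivity
    have m4 : 0 ≤ (p' + q') / ((p + p') + (q + q')) := by positivity
    have m5 : (p + q) / ((p + p') + (q + q')) + (p' + q') / ((p + p') + (q + q')) = 1 := by
      rw [← add_div, div_eq_one_iff_eq hs.ne']
      ring
    have h1 := hconc.2 m1 m2 m3 m4 m5
    simp only [smul_eq_mul] at h1
    have e4 : (p + q) / (p + p' + (q + q')) * (y / (p + q)) +
        (p' + q') / (p + p' + (q + q')) * (y' / (p' + q')) =
        (y + y') / ((p + p') + (q + q')) := by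
      field_simp
    rw [e4] at h1
    have h2 := mul_le_mul_of_nonneg_left h1 hs.le
    refine le_trans (le_of_eq ?_) h2
    field_simp
  have k1 := key p p' hp hp'
  have k2 := key q q' hq hq'
  have h3 : (ent p q + ent p' q') * Real.log 2 ≤ ent (p + p') (q + q') * Real.log 2 := by
    rw [add_mul, e1, e2, e3]
    linarith
  exact le_of_mul_le_mul_right h3 hl

theorem two_min_le_ent {p q : ℝ} (hp : 0 ≤ p) (hq : 0 ≤ q) : 2 * min p q ≤ ent p q := by
  have key : ∀ p q : ℝ, 0 ≤ q → q ≤ p → 2 * q ≤ ent p q := by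
    intro p q hq hqp
    have h1 := ent_add (p := q) (q := q) (p' := p - q) (q' := 0) hq hq (by linarith) le_rfl
    rw [ent_zero_right, add_zero, add_zero] at h1
    have h2 := ent_mul (c := q) (p := 1) (q := 1) hq (by norm_num) (by norm_num)
    rw [mul_one, ent_one_one] at h2
    have h3 : q + (p - q) = p := by ring
    rw [h3] at h1
    linarith
  rcases le_total q p with h | h
  · rw [min_eq_right h]
    exact key p q hq h
  · rw [min_eq_left h, ent_comm]
    exact key q p hp h

/-- twice `g` is at most `x log x` -/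
theorem two_g_le (n : ℕ) : 2 * (g n : ℝ) ≤ lx n := by
  induction n using Nat.strong_induction_on with
  | _ n ih =>
    rcases Nat.lt_or_ge n 2 with h | h
    · have : n = 0 ∨ n = 1 := by omega
      rcases this with h | h
      · rw [h, g_zero]
        simp [lx]
      · rw [h, g_one]
        simp [lx]
    · obtain ⟨m, hm | hm⟩ := Nat.even_or_odd' n
      · have h1 := ih m (by omega)
        rw [hm, g_even]
        push_cast
        rw [lx_mul (by norm_num) (by positivity), lx_two]
        linarith
      · have h1 := ih m (by omega)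
        have h2 := ih (m + 1) (by omega)
        have h3 := two_min_le_ent (p := ((m + 1 : ℕ) : ℝ)) (q := (m : ℝ)) (by positivity)
          (by positivity)
        have h4 : min ((m + 1 : ℕ) : ℝ) (m : ℝ) = m := min_eq_right (by push_cast; linarith)
        rw [h4] at h3
        unfold ent at h3
        rw [hm, g_odd]
        have h5 : (((m + 1 : ℕ) : ℝ)) + m = ((2 * m + 1 : ℕ) : ℝ) := by push_cast; ring
        rw [h5] at h3
        push_cast at *
        linarith

/-! ### integer form -/

/-- `S x log_2 x`, rounded down -/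
noncomputable def lam (S x : ℕ) : ℤ := ⌊(S : ℝ) * lx x⌋

theorem lam_le (S x : ℕ) : (lam S x : ℝ) ≤ S * lx x := Int.floor_le _

theorem lt_lam (S x : ℕ) : (S : ℝ) * lx x < lam S x + 1 := Int.lt_floor_add_one _

theorem lam_ge (S x : ℕ) : 2 * ((S : ℤ) * g x) ≤ lam S x := by
  unfold lam
  rw [Int.le_floor]
  have h1 := mul_le_mul_of_nonneg_left (two_g_le x) (Nat.cast_nonneg S : (0 : ℝ) ≤ S)
  push_cast
  linarith

/-- the rounded entropy -/
noncomputable def elam (S p q : ℕ) : ℤ := lam S (p + q) - lam S p - lam S q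

theorem elam_ge (S p q : ℕ) : (S : ℝ) * ent p q < elam S p q + 1 := by
  have h1 := lt_lam S (p + q)
  have h2 := lam_le S p
  have h3 := lam_le S q
  unfold elam ent
  push_cast at *
  linarith

/-- `elam` is at least `2 S min` -/
theorem elam_two_min (S p q : ℕ) : 2 * ((S : ℤ) * min p q) ≤ elam S p q := by
  have h1 := elam_ge S p q
  have h2 := two_min_le_ent (p := (p : ℝ)) (q := q) (by positivity) (by positivity)
  have h3 := mul_le_mul_of_nonneg_left h2 (Nat.cast_nonneg S : (0 : ℝ) ≤ S)
  have h4 : (2 * ((S : ℝ) * min (p : ℝ) q)) < elam S p q + 1 := by linarith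
  have h5 : ((2 * ((S : ℤ) * min (p : ℤ) q) : ℤ) : ℝ) < ((elam S p q + 1 : ℤ) : ℝ) := by
    push_cast
    linarith
  have h6 : 2 * ((S : ℤ) * min (p : ℤ) q) < elam S p q + 1 := by exact_mod_cast h5
  push_cast
  linarith

variable {α : Type*} [DecidableEq α]

/-- the smooth loss (twice, in units `1 / S`) -/
noncomputable def Ee (S : ℕ) (s : Finset α) (X : Finset (Finset α)) : ℤ :=
  lam S X.card - S * e2 s X

/-- the smooth loss and the loss -/
theorem Ee_eq (S : ℕ) (s : Finset α) (X : Finset (Finset α)) :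
    Ee S s X = S * L2 s X + (lam S X.card - 2 * (S * g X.card)) := by
  unfold Ee L2
  ring

theorem Ee_ge (S : ℕ) (s : Finset α) (X : Finset (Finset α)) : S * L2 s X ≤ Ee S s X := by
  rw [Ee_eq]
  have := lam_ge S X.card
  linarith

theorem Ee_nonneg (S : ℕ) {s : Finset α} {X : Finset (Finset α)} (hX : Sub s X) :
    0 ≤ Ee S s X := by
  have h1 := Ee_ge S s X
  have h2 := L2_nonneg hX
  have : (0 : ℤ) ≤ S * L2 s X := by positivity
  linarith

/-- the smooth loss in terms of the halves -/
theorem Ee_half (S : ℕ) {s : Finset α} {a : α} (ha : a ∈ s) (b : Bool) (F : Finset (Finset α)) :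
    Ee S s F = Ee S (s.erase a) (half a b F) + Ee S (s.erase a) (half a (!b) F) +
      (elam S (half a b F).card (half a (!b) F).card - 2 * (S * (half a (!b) F).card)) +
      2 * (S * (half a (!b) F \ half a b F).card) := by
  have h1 := e2_half_eq' ha b F
  have h2 := card_half_add' a b F
  have h3 := card_inter_sdiff (half a b F) (half a (!b) F)
  unfold Ee elam
  rw [h2, h1]
  have h4 : (((half a b F ∩ half a (!b) F).card : ℕ) : ℤ) =
      (half a (!b) F).card - (half a (!b) F \ half a b F).card := by
    have : (((half a b F ∩ half a (!b) F).card : ℕ) : ℤ) + (half a (!b) F \ half a b F).card =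
      (half a (!b) F).card := by exact_mod_cast h3
    linarith
  push_cast
  rw [h4]
  ring

end Pool.Agent.EdgeIso.Smooth
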