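import Pool.Agent.Lib.MP_48c8f3_co.BasR
import Pool.Agent.Lib.MP_48c8f3_co.ESa
import Pool.Agent.Lib.MP_48c8f3_co.FN
import Pool.Agent.Lib.MP_48c8f3_co.KGb

set_option autoImplicit false
set_option linter.unusedSectionVars false

/-!
MP_48c8f3_co, the smooth loss, part D: upper bounds for the difference of the smooth loss and the
loss as rows of a table, at all scales.
-/

namespace Pool.Agent.EdgeIso.Smooth

open Finset Pool.Agent.EdgeIso.Frame Pool.Agent.EdgeIso.Walsh Pool.Agent.EdgeIso.Chk

/-- the function `x log x` is convex -/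
theorem lx_convex {a b y z : ℝ} (ha : 0 ≤ a) (hb : 0 ≤ b) (hab : a + b = 1) (hy : 0 ≤ y)
    (hz : 0 ≤ z) : lx (a * y + b * z) ≤ a * lx y + b * lx z := by
  have h1 := Real.convexOn_mul_log.2 (Set.mem_Ici.mpr hy) (Set.mem_Ici.mpr hz) ha hb hab
  simp only [smul_eq_mul] at h1
  have hl : 0 < Real.log 2 := Real.log_pos (by norm_num)
  have key : ∀ w : ℝ, lx w * Real.log 2 = w * Real.log w := by
    intro w
    unfold lx Real.logb
    field_simp
  have h2 : lx (a * y + b * z) * Real.log 2 ≤ (a * lx y + b * lx z) * Real.log 2 := by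
    rw [add_mul, mul_assoc, mul_assoc, key, key, key]
    exact h1
  exact le_of_mul_le_mul_right h2 hl

variable {α : Type*} [DecidableEq α]

end Pool.Agent.EdgeIso.Smooth
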