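import Pool.Agent.Lib.MP_48c8f3_co.BasR
import Pool.Agent.Lib.MP_48c8f3_co.ESa
import Pool.Agent.Lib.MP_48c8f3_co.FM

set_option autoImplicit false
set_option linter.unusedSectionVars false

/-!
MP_48c8f3_co, the smooth loss, part F: linear lower bounds for the entropy near the diagonal,
exact on the diagonal.
-/

namespace Pool.Agent.EdgeIso.Smooth

open Finset Pool.Agent.EdgeIso.Frame Pool.Agent.EdgeIso.Walsh Pool.Agent.EdgeIso.Chk

/-- a lower bound for the entropy of two integers from a comparison of powers -/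
theorem ent_ge_of_pow {a b w v : ℕ} (ha : 0 < a) (hb : 0 < b)
    (h : a ^ (a * w) * b ^ (b * w) * 2 ^ v ≤ (a + b) ^ ((a + b) * w)) :
    (v : ℝ) ≤ w * ent (a : ℝ) (b : ℝ) := by
  have ha' : (0 : ℝ) < a := by exact_mod_cast ha
  have hb' : (0 : ℝ) < b := by exact_mod_cast hb
  have h1 : ((a : ℝ) ^ (a * w) * (b : ℝ) ^ (b * w) * 2 ^ v) ≤ ((a : ℝ) + b) ^ ((a + b) * w) := by
    exact_mod_cast h
  have h2 := Real.logb_le_logb_of_le (b := 2) (by norm_num) (by positivity) h1
  rw [Real.logb_mul (by positivity) (by positivity), Real.logb_mul (by positivity) (by positivity),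
    Real.logb_pow, Real.logb_pow, Real.logb_pow, Real.logb_pow,
    Real.logb_self_eq_one (by norm_num), mul_one] at h2
  unfold ent lx
  push_cast at h2
  nlinarith

/-- the entropy near the diagonal -/
theorem ent_near {K p q : ℝ} (hK : 1 ≤ K) (hq : 0 ≤ q) (hqp : q ≤ p) (h : K * (p - q) ≤ p + q) :
    (p - q) * (1 - K + ent (K + 1) (K - 1) / 2) ≤ ent p q - 2 * q := by
  have h1 : 0 ≤ (p + q - K * (p - q)) / 2 := by linarith
  have h2 : 0 ≤ (p - q) / 2 := by linarith
  have h3 := ent_add (p := (p + q - K * (p - q)) / 2 * 1) (q := (p + q - K * (p - q)) / 2 * 1)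
    (p' := (p - q) / 2 * (K + 1)) (q' := (p - q) / 2 * (K - 1)) (by linarith) (by linarith)
    (mul_nonneg h2 (by linarith)) (mul_nonneg h2 (by linarith))
  rw [ent_mul h1 (by norm_num) (by norm_num), ent_mul h2 (by linarith) (by linarith),
    ent_one_one] at h3
  have e1 : (p + q - K * (p - q)) / 2 * 1 + (p - q) / 2 * (K + 1) = p := by ring
  have e2 : (p + q - K * (p - q)) / 2 * 1 + (p - q) / 2 * (K - 1) = q := by ring
  rw [e1, e2] at h3
  linarith

/-- The rounded entropy near the diagonal, integer form.  `hpow` and `hnum` are checked by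
evaluation. -/
theorem elam_near {S p q K a b w v : ℕ} (hK : 2 ≤ K) (hw : 0 < w) (hqp : q ≤ p)
    (h : (K : ℤ) * ((p : ℤ) - q) ≤ p + q)
    (hpow : (K + 1) ^ ((K + 1) * w) * (K - 1) ^ ((K - 1) * w) * 2 ^ v ≤ (2 * K) ^ (2 * K * w))
    (hnum : 2 * w * (b * (K - 1) + a) * S + 2 * w * b ≤ b * v * S) :
    (a : ℤ) * (S * ((p : ℤ) - q)) ≤ b * (elam S p q - 2 * (S * q)) := by
  rcases Nat.eq_or_lt_of_le hqp with heq | hlt
  · rw [← heq]
    have h1 := elam_two_min S q q
    rw [min_self] at h1
    have h2 : 0 ≤ (b : ℤ) * (elam S q q - 2 * (S * q)) := mul_nonneg (by positivity) (by linarith)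
    simpa using h2
  · have hK1 : ((K - 1 : ℕ) : ℝ) = (K : ℝ) - 1 := by
      rw [Nat.cast_sub (by omega)]
      norm_num
    have h3 := ent_ge_of_pow (a := K + 1) (b := K - 1) (w := w) (v := v) (by omega) (by omega) (by
      have e : K + 1 + (K - 1) = 2 * K := by omega
      rw [e]
      exact hpow)
    have hq0 : (0 : ℝ) ≤ q := by positivity
    have hqp' : (q : ℝ) ≤ p := by exact_mod_cast hqp
    have hK' : (2 : ℝ) ≤ K := by exact_mod_cast hK
    have h' : (K : ℝ) * ((p : ℝ) - q) ≤ p + q := by exact_mod_cast h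
    have h4 := ent_near (K := (K : ℝ)) (by linarith) hq0 hqp' h'
    rw [hK1] at h3
    push_cast at h3
    have hd : (1 : ℝ) ≤ (p : ℝ) - q := by
      have : (q : ℝ) + 1 ≤ p := by exact_mod_cast hlt
      linarith
    have hw' : (0 : ℝ) < w := by exact_mod_cast hw
    have hn : (2 : ℝ) * w * (b * ((K : ℝ) - 1) + a) * S + 2 * w * b ≤ b * v * S := by
      rw [← hK1]
      exact_mod_cast hnum
    have h5 := elam_ge S p q
    set E := ent (p : ℝ) (q : ℝ) with hE
    set E0 := ent ((K : ℝ) + 1) ((K : ℝ) - 1) with hE0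
    have hb0 : (0 : ℝ) ≤ b := by positivity
    have hS0 : (0 : ℝ) ≤ S := by positivity
    -- 2 w (elam - 2 S q) b > ...
    have h6 : (b : ℝ) * S * (2 * w * (((p : ℝ) - q) * (1 - K + E0 / 2))) ≤
        b * S * (2 * w * (E - 2 * q)) := by
      apply mul_le_mul_of_nonneg_left _ (by positivity)
      exact mul_le_mul_of_nonneg_left h4 (by positivity)
    have h7 : (b : ℝ) * S * (((p : ℝ) - q) * (2 * w * (1 - K) + v)) ≤
        b * S * (2 * w * (((p : ℝ) - q) * (1 - K + E0 / 2))) := by
      apply mul_le_mul_of_nonneg_left _ (by positivity)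
      have : 2 * w * (((p : ℝ) - q) * (1 - K + E0 / 2)) =
          ((p : ℝ) - q) * (2 * w * (1 - K) + w * E0) := by ring
      rw [this]
      exact mul_le_mul_of_nonneg_left (by linarith) (by linarith)
    have h8 : ((p : ℝ) - q) * (2 * w * a * S + 2 * w * b) ≤
        (b : ℝ) * S * (((p : ℝ) - q) * (2 * w * (1 - K) + v)) := by
      have : (b : ℝ) * S * (((p : ℝ) - q) * (2 * w * (1 - K) + v)) =
          ((p : ℝ) - q) * (b * v * S - 2 * w * (b * (K - 1)) * S) := by ring
      rw [this]
      exact mul_le_mul_of_nonneg_left (by linarith) (by linarith)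
    have h9 : 2 * (w : ℝ) * b ≤ ((p : ℝ) - q) * (2 * w * b) := by
      have : (0 : ℝ) ≤ 2 * w * b := by positivity
      nlinarith
    have h10 : (b : ℝ) * (S * E) ≤ b * (elam S p q + 1) :=
      mul_le_mul_of_nonneg_left h5.le hb0
    have h11 : (a : ℝ) * (S * ((p : ℝ) - q)) * (2 * w) ≤
        b * (elam S p q - 2 * (S * q)) * (2 * w) := by
      have h12 : (b : ℝ) * (S * E) * (2 * w) ≤ b * (elam S p q + 1) * (2 * w) :=
        mul_le_mul_of_nonneg_right h10 (by positivity)
      nlinarith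
    have h13 : (a : ℝ) * (S * ((p : ℝ) - q)) ≤ b * (elam S p q - 2 * (S * q)) :=
      le_of_mul_le_mul_right h11 (by positivity)
    exact_mod_cast h13

section instances

variable {S p q : ℕ} (hS : 131072 ≤ S) (hqp : q ≤ p)
include hS hqp

/-- `p - q ≤ (p + q) / 16` -/
theorem near16 (h : (16 : ℤ) * ((p : ℤ) - q) ≤ p + q) :
    9548 * (S * ((p : ℤ) - q)) ≤ 10000 * (elam S p q - 2 * (S * q)) := by
  have := elam_near (S := S) (p := p) (q := q) (K := 16) (a := 9548) (b := 10000) (w := 144)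
    (v := 4595) (by norm_num) (by norm_num) hqp (by exact_mod_cast h) (by decide +kernel)
    (by omega)
  exact_mod_cast this

end instances

end Pool.Agent.EdgeIso.Smooth
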