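import Pool.Agent.Lib.MP_48c8f3_co.Bas
import Pool.Agent.Lib.MP_48c8f3_co.G
import Pool.Agent.Lib.MP_48c8f3_co.Cube

set_option autoImplicit false

/-!
MP_48c8f3_co: translation to the formulation with the lexicographic initial segment.
-/

namespace Pool.Agent.EdgeIso

open Finset

/-- the pairs `(x, i)` with `x ∈ F` and `x Δ {i} ∉ F` -/
def bdp {n : ℕ} (F : Finset (Finset (Fin n))) : Finset (Finset (Fin n) × Fin n) :=
  (F ×ˢ (univ : Finset (Fin n))).filter (fun p => symmDiff p.1 {p.2} ∉ F)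

theorem bdp_add_e2 {n : ℕ} (F : Finset (Finset (Fin n))) :
    (bdp F).card + e2 univ F = n * F.card := by
  have h1 : e2 univ F = ((F ×ˢ (univ : Finset (Fin n))).filter
      (fun p => symmDiff p.1 {p.2} ∈ F)).card := by
    rw [e2, card_filter, sum_product]
    apply sum_congr rfl
    intro x _
    rw [card_filter]
  rw [h1, bdp, Nat.add_comm, card_filter_add_card_filter_not, card_product]
  simp [Nat.mul_comm]

/-- two families that are upper segments and have the same size are equal -/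
theorem seg_unique {n : ℕ} {L J : Finset (Finset (Fin n))} (hc : L.card = J.card)
    (hL : ∀ x ∈ L, ∀ y ∉ L, ∃ i ∈ x, i ∉ y ∧ ∀ j < i, (j ∈ x ↔ j ∈ y))
    (hJ : ∀ x ∈ J, ∀ y ∉ J, ∃ i ∈ x, i ∉ y ∧ ∀ j < i, (j ∈ x ↔ j ∈ y)) : L = J := by
  by_contra hne
  have h1 : ∃ x ∈ L, x ∉ J := by
    by_contra h
    push Not at h
    exact hne (eq_of_subset_of_card_le (fun x hx => h x hx) hc.ge)
  have h2 : ∃ y ∈ J, y ∉ L := by
    by_contra h
    push Not at h
    exact hne (eq_of_subset_of_card_le (fun x hx => h x hx) hc.le).symm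
  obtain ⟨x, hxL, hxJ⟩ := h1
  obtain ⟨y, hyJ, hyL⟩ := h2
  obtain ⟨i, hix, hiy, hij⟩ := hL x hxL y hyL
  obtain ⟨j, hjy, hjx, hji⟩ := hJ y hyJ x hxJ
  rcases lt_trichotomy i j with h | h | h
  · exact hiy ((hji i h).mpr hix)
  · subst h; exact hiy hjy
  · exact hjx ((hij j h).mpr hjy)

theorem mem_map_perm {n : ℕ} (σ : Equiv.Perm (Fin n)) (x : Finset (Fin n)) (t : Fin n) :
    t ∈ x.map σ.toEmbedding ↔ σ.symm t ∈ x := by
  rw [mem_map]
  constructor
  · rintro ⟨i, hi, rfl⟩
    simpa using hi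
  · intro h
    exact ⟨σ.symm t, h, by simp⟩

theorem phi_inj {n : ℕ} (σ : Equiv.Perm (Fin n)) (S : Finset (Fin n)) :
    Function.Injective (fun x : Finset (Fin n) => symmDiff (x.map σ.toEmbedding) S) := by
  intro x y hxy
  simp only [symmDiff_left_inj] at hxy
  exact map_injective _ hxy

/-- `|F Δ G| + 2 |F ∩ G| = |F| + |G|` -/
theorem card_symmDiff_add {n : ℕ} (F G : Finset (Finset (Fin n))) :
    (symmDiff F G).card + 2 * (F ∩ G).card = F.card + G.card := by
  have h1 : (symmDiff F G).card = (F \ G).card + (G \ F).card := by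
    rw [symmDiff_def]
    exact card_union_of_disjoint (disjoint_sdiff_sdiff)
  have h2 := card_sdiff_add_card_inter F G
  have h3 := card_sdiff_add_card_inter G F
  rw [inter_comm] at h3
  omega

end Pool.Agent.EdgeIso
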