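import Pool.Agent.Lib.MP_48c8f3_co.Bas
import Pool.Agent.Lib.MP_48c8f3_co.FCa
import Pool.Agent.Lib.MP_48c8f3_co.Final

set_option autoImplicit false
set_option linter.unusedSectionVars false

/-!
MP_48c8f3_co, framework for size recursions, part C: the bridge to the formulation with the
lexicographic initial segment.
-/

namespace Pool.Agent.EdgeIso.Frame

open Finset

variable {α : Type*} [DecidableEq α]

/-- copies have the maximal number of inner edges -/
theorem Copy.e2 {s : Finset α} {t : ℕ} {G : Finset (Finset α)} (h : Copy s t G) :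
    EdgeIso.e2 s G = 2 * g t := by
  induction h with
  | empty s => rw [e2_empty, g_zero]
  | full s => rw [e2_powerset, two_g_pow]
  | low s a b t G ha h ih =>
    rw [e2_half_eq' (mem_insert_self a s) b, erase_insert ha, half_joinb ha b h.sub (sub_empty s),
      half_joinb_not ha b h.sub (sub_empty s), ih, e2_empty, inter_empty]
    simp
  | high s a b t G ha h ih =>
    rw [e2_half_eq' (mem_insert_self a s) b, erase_insert ha,
      half_joinb ha b (sub_powerset s) h.sub, half_joinb_not ha b (sub_powerset s) h.sub, ih,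
      e2_powerset, inter_eq_right.mpr h.sub, h.card]
    have h1 := g_compl s.card t h.le
    have h2 := g_compl (s.card + 1) (2 ^ s.card + t) (by rw [pow_succ]; have := h.le; omega)
    have h3 : 2 ^ (s.card + 1) - (2 ^ s.card + t) = 2 ^ s.card - t := by
      rw [pow_succ]; omega
    rw [h3] at h2
    have h4 : (2 * g (2 ^ s.card + t) : ℤ) = s.card * 2 ^ s.card + 2 * g t + 2 * t := by
      have hp : (2 : ℤ) ^ (s.card + 1) = 2 * 2 ^ s.card := by ring
      rw [hp] at h2
      push_cast at h1 h2 ⊢
      linarith
    have h5 : ((s.card * 2 ^ s.card + 2 * g t + 2 * t : ℕ) : ℤ) = ((2 * g (2 ^ s.card + t) : ℕ) : ℤ) := by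
      push_cast
      linarith
    exact_mod_cast h5

/-- description of a copy as a segment of a lexicographic order -/
theorem Copy.seg {s : Finset α} {t : ℕ} {G : Finset (Finset α)} (h : Copy s t G) :
    ∃ (r : α → ℕ) (S : Finset α), Set.InjOn r s ∧ S ⊆ s ∧ ∀ x ∈ G, ∀ y ∈ s.powerset, y ∉ G →
      ∃ i ∈ s, i ∈ symmDiff x S ∧ i ∉ symmDiff y S ∧
        ∀ j ∈ s, r j < r i → (j ∈ symmDiff x S ↔ j ∈ symmDiff y S) := by
  have base : ∀ s : Finset α, ∃ r : α → ℕ, Set.InjOn r s := by
    intro s
    obtain ⟨e⟩ : Nonempty ({x // x ∈ s} ≃ Fin s.card) := ⟨s.equivFin⟩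
    refine ⟨fun x => if h : x ∈ s then (e ⟨x, h⟩ : ℕ) else 0, ?_⟩
    intro x hx y hy hxy
    have hx' : x ∈ s := hx
    have hy' : y ∈ s := hy
    simp only [hx', hy', dif_pos] at hxy
    have := e.injective (Fin.ext hxy)
    simpa using this
  -- the new ranking
  have inj : ∀ (s : Finset α) (a : α) (r : α → ℕ), a ∉ s → Set.InjOn r s →
      Set.InjOn (fun j => if j = a then 0 else r j + 1) (insert a s : Finset α) := by
    intro s a r ha hr x hx y hy hxy
    rw [mem_coe, mem_insert] at hx hy
    by_cases h1 : x = a <;> by_cases h2 : y = a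
    · rw [h1, h2]
    · simp [h1, h2] at hxy
    · simp [h1, h2] at hxy
    · simp only [h1, h2, if_false, Nat.add_right_cancel_iff] at hxy
      exact hr (hx.resolve_left h1) (hy.resolve_left h2) hxy
  -- membership in the modified `S`
  have hS : ∀ (s : Finset α) (a : α) (b : Bool) (S : Finset α), a ∉ s → S ⊆ s →
      (∀ z : Finset α, a ∉ z → ∀ j, j ≠ a →
        (j ∈ symmDiff z (if b then S else insert a S) ↔ j ∈ symmDiff z S)) ∧
      (∀ z : Finset α, a ∉ z → ∀ j, j ≠ a →
        (j ∈ symmDiff (insert a z) (if b then S else insert a S) ↔ j ∈ symmDiff z S)) ∧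
      (∀ z : Finset α, a ∉ z → (a ∈ symmDiff z (if b then S else insert a S) ↔ b = false)) ∧
      (∀ z : Finset α, a ∈ z → (a ∈ symmDiff z (if b then S else insert a S) ↔ b = true)) := by
    intro s a b S ha hSs
    have haS : a ∉ S := fun h => ha (hSs h)
    refine ⟨?_, ?_, ?_, ?_⟩
    · intro z _ j hj
      cases b <;> simp [mem_symmDiff, mem_insert, hj]
    · intro z _ j hj
      cases b <;> simp [mem_symmDiff, mem_insert, hj]
    · intro z hz
      cases b <;> simp [mem_symmDiff, mem_insert, hz, haS]
    · intro z hz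
      cases b <;> simp [mem_symmDiff, mem_insert, hz, haS]
  -- description of members
  have key : ∀ (s : Finset α) (a : α) (b : Bool) (A B : Finset (Finset α)) (r : α → ℕ)
      (S : Finset α), a ∉ s → Sub s A → Sub s B → S ⊆ s → (A = s.powerset ∨ B = ∅) →
      (∀ x ∈ A, ∀ y ∈ s.powerset, y ∉ A → ∃ i ∈ s, i ∈ symmDiff x S ∧ i ∉ symmDiff y S ∧
        ∀ j ∈ s, r j < r i → (j ∈ symmDiff x S ↔ j ∈ symmDiff y S)) →
      (∀ x ∈ B, ∀ y ∈ s.powerset, y ∉ B → ∃ i ∈ s, i ∈ symmDiff x S ∧ i ∉ symmDiff y S ∧
        ∀ j ∈ s, r j < r i → (j ∈ symmDiff x S ↔ j ∈ symmDiff y S)) →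
      ∀ x ∈ joinb a b A B, ∀ y ∈ (insert a s).powerset, y ∉ joinb a b A B →
      ∃ i ∈ insert a s, i ∈ symmDiff x (if b then S else insert a S) ∧
        i ∉ symmDiff y (if b then S else insert a S) ∧
        ∀ j ∈ insert a s, (fun j => if j = a then 0 else r j + 1) j <
          (fun j => if j = a then 0 else r j + 1) i →
          (j ∈ symmDiff x (if b then S else insert a S) ↔
            j ∈ symmDiff y (if b then S else insert a S)) := by
    intro s a b A B r S ha hA hB hSs hAB h1 h2 x hx y hy hyn
    obtain ⟨m1, m2, m3, m4⟩ := hS s a b S ha hSs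
    -- side of x and y
    have side : ∀ z : Finset α, z ∈ (insert a s).powerset → ∃ (z' : Finset α) (c : Bool),
        z' ∈ s.powerset ∧ a ∉ z' ∧ z = (if c then insert a z' else z') ∧
        (z ∈ joinb a b A B ↔ z' ∈ if c = b then A else B) := by
      intro z hz
      rw [mem_powerset] at hz
      refine ⟨z.erase a, decide (a ∈ z), ?_, notMem_erase a z, ?_, ?_⟩
      · rw [mem_powerset]
        intro j hj
        rw [mem_erase] at hj
        have := hz hj.2
        rw [mem_insert] at this
        exact this.resolve_left hj.1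
      · by_cases haz : a ∈ z
        · simp [haz, insert_erase haz]
        · simp [haz]
      · have hm : ∀ c : Bool, z.erase a ∈ Frame.half a c (joinb a b A B) ↔
            z.erase a ∈ if c = b then A else B := by
          intro c
          by_cases hcb : c = b
          · subst hcb
            rw [half_joinb ha c hA hB, if_pos rfl]
          · have hc : c = !b := by cases b <;> cases c <;> simp_all
            subst hc
            rw [half_joinb_not ha b hA hB, if_neg hcb]
        rw [← hm, mem_half]
        by_cases haz : a ∈ z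
        · simp [haz, insert_erase haz]
        · simp [haz]
    obtain ⟨x', c, hx1, hx2, hx3, hx4⟩ := side x ((Sub.joinb b hA hB) hx)
    obtain ⟨y', d, hy1, hy2, hy3, hy4⟩ := side y hy
    rw [hx4] at hx
    rw [hy4] at hyn
    by_cases hcd : c = d
    · -- same side
      subst hcd
      have hcore : ∃ i ∈ s, i ∈ symmDiff x' S ∧ i ∉ symmDiff y' S ∧
          ∀ j ∈ s, r j < r i → (j ∈ symmDiff x' S ↔ j ∈ symmDiff y' S) := by
        by_cases hcb : c = b
        · rw [if_pos hcb] at hx hyn
          exact h1 x' hx y' hy1 hyn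
        · rw [if_neg hcb] at hx hyn
          exact h2 x' hx y' hy1 hyn
      obtain ⟨i, his, hi1, hi2, hi3⟩ := hcore
      have hia : i ≠ a := fun h => ha (h ▸ his)
      have tr : ∀ (z z' : Finset α), a ∉ z' → z = (if c then insert a z' else z') → ∀ j, j ≠ a →
          (j ∈ symmDiff z (if b then S else insert a S) ↔ j ∈ symmDiff z' S) := by
        intro z z' hz' hz j hj
        subst hz
        cases c
        · exact m1 z' hz' j hj
        · exact m2 z' hz' j hj
      refine ⟨i, mem_insert_of_mem his, (tr x x' hx2 hx3 i hia).mpr hi1,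
        fun h => hi2 ((tr y y' hy2 hy3 i hia).mp h), ?_⟩
      intro j hj hji
      by_cases hja : j = a
      · subst hja
        subst hx3 hy3
        cases c
        · simp only [Bool.false_eq_true, if_false]
          rw [m3 x' hx2, m3 y' hy2]
        · simp only [if_true]
          rw [m4 _ (mem_insert_self _ _), m4 _ (mem_insert_self _ _)]
      · rw [mem_insert] at hj
        simp only [hja, hia, if_false, Nat.add_lt_add_iff_right] at hji
        rw [tr x x' hx2 hx3 j hja, tr y y' hy2 hy3 j hja]
        exact hi3 j (hj.resolve_left hja) hji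
    · -- different sides: x on the side b, y on the other one
      have hcb : c = b := by
        by_contra h
        rw [if_neg h] at hx
        have hd : d = b := by
          cases b <;> cases c <;> cases d <;> simp_all
        rw [if_pos hd] at hyn
        rcases hAB with h' | h'
        · rw [h'] at hyn
          exact hyn hy1
        · rw [h'] at hx
          exact absurd hx (notMem_empty _)
      have hdb : d ≠ b := fun h => hcd (hcb.trans h.symm)
      refine ⟨a, mem_insert_self a s, ?_, ?_, ?_⟩
      · subst hcb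
        subst hx3
        cases c
        · simp only [Bool.false_eq_true, if_false]
          exact (m3 x' hx2).mpr rfl
        · simp only [if_true]
          exact (m4 _ (mem_insert_self _ _)).mpr rfl
      · subst hy3
        cases d
        · simp only [Bool.false_eq_true, if_false]
          intro h
          exact hdb ((m3 y' hy2).mp h).symm
        · simp only [if_true]
          intro h
          exact hdb ((m4 _ (mem_insert_self _ _)).mp h).symm
      · intro j _ hj
        simp at hj
  induction h with
  | empty s =>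
    obtain ⟨r, hr⟩ := base s
    exact ⟨r, ∅, hr, empty_subset _, fun x hx => absurd hx (notMem_empty _)⟩
  | full s =>
    obtain ⟨r, hr⟩ := base s
    exact ⟨r, ∅, hr, empty_subset _, fun x _ y hy hyn => absurd hy hyn⟩
  | low s a b t G ha h ih =>
    obtain ⟨r, S, hr, hS1, h1⟩ := ih
    refine ⟨_, if b then S else insert a S, inj s a r ha hr, ?_,
      key s a b G ∅ r S ha h.sub (sub_empty s) hS1 (Or.inr rfl) h1
        (fun x hx => absurd hx (notMem_empty _))⟩
    cases b
    · exact insert_subset_insert _ hS1
    · exact hS1.trans (subset_insert _ _)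
  | high s a b t G ha h ih =>
    obtain ⟨r, S, hr, hS1, h1⟩ := ih
    refine ⟨_, if b then S else insert a S, inj s a r ha hr, ?_,
      key s a b s.powerset G r S ha (sub_powerset s) h.sub hS1 (Or.inl rfl)
        (fun x _ y hy hyn => absurd hy hyn) h1⟩
    cases b
    · exact insert_subset_insert _ hS1
    · exact hS1.trans (subset_insert _ _)

/-- the bridge -/
theorem bridge {n : ℕ} {F L : Finset (Finset (Fin n))} (hLF : L.card = F.card)
    (hL : ∀ x ∈ L, ∀ y ∉ L, ∃ i ∈ x, i ∉ y ∧ ∀ j < i, (j ∈ x ↔ j ∈ y)) {d : ℕ}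
    (h : Near univ F F.card d) :
    (((bdp F).card : ℤ) - ((bdp L).card : ℤ) ≥ L2 univ F) ∧
    ∃ σ : Equiv.Perm (Fin n), ∃ S : Finset (Fin n),
      (symmDiff F (L.image (fun x => symmDiff (x.map σ.toEmbedding) S))).card ≤ 2 * d := by
  classical
  obtain ⟨G, hG, hd⟩ := h
  obtain ⟨r, S, hr, _, hseg⟩ := hG.seg
  have hrinj : Function.Injective r := fun x y hxy => hr (mem_coe.mpr (mem_univ x))
    (mem_coe.mpr (mem_univ y)) hxy
  -- the sorting permutation
  set σ : Equiv.Perm (Fin n) := Tuple.sort r with hσ
  have hmono : StrictMono (r ∘ σ) :=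
    (Tuple.monotone_sort r).strictMono_of_injective (hrinj.comp σ.injective)
  set φ : Finset (Fin n) → Finset (Fin n) := fun x => symmDiff (x.map σ.toEmbedding) S with hφ
  have hφinj : Function.Injective φ := phi_inj σ S
  have hφbij : Function.Bijective φ := Finite.injective_iff_bijective.mp hφinj
  have hmem : ∀ (x : Finset (Fin n)) (i : Fin n), i ∈ x ↔ σ i ∈ symmDiff (φ x) S := by
    intro x i
    rw [hφ]
    show i ∈ x ↔ σ i ∈ symmDiff (symmDiff (x.map σ.toEmbedding) S) S
    rw [symmDiff_symmDiff_cancel_right, mem_map_perm, Equiv.symm_apply_apply]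
  set L' : Finset (Finset (Fin n)) := univ.filter (fun x => φ x ∈ G) with hL'
  have himg : L'.image φ = G := by
    ext y
    rw [mem_image]
    constructor
    · rintro ⟨x, hx, rfl⟩
      rw [hL', mem_filter] at hx
      exact hx.2
    · intro hy
      obtain ⟨x, rfl⟩ := hφbij.2 y
      exact ⟨x, by rw [hL', mem_filter]; exact ⟨mem_univ _, hy⟩, rfl⟩
  have hL'c : L'.card = F.card := by
    rw [← hG.card, ← himg, card_image_of_injective _ hφinj]
  have hLL' : L = L' := by
    apply seg_unique (hLF.trans hL'c.symm) hL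
    intro x hx y hy
    rw [hL', mem_filter] at hx hy
    have hy' : φ y ∉ G := fun h => hy ⟨mem_univ _, h⟩
    obtain ⟨i, _, hi1, hi2, hi3⟩ := hseg (φ x) hx.2 (φ y) (by simp) hy'
    refine ⟨σ.symm i, ?_, ?_, ?_⟩
    · rw [hmem, Equiv.apply_symm_apply]
      exact hi1
    · rw [hmem, Equiv.apply_symm_apply]
      exact hi2
    · intro j hj
      rw [hmem x j, hmem y j]
      apply hi3 (σ j) (mem_univ _)
      have := hmono hj
      simpa using this
  have hLimg : L.image φ = G := by rw [hLL', himg]
  refine ⟨?_, σ, S, ?_⟩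
  · -- boundary of `L`
    have h1 : (bdp L).card ≤ (bdp G).card := by
      apply card_le_card_of_injOn (fun p => (φ p.1, σ p.2))
      · rintro ⟨x, i⟩ hp
        rw [mem_coe, bdp, mem_filter, mem_product] at hp
        rw [mem_coe, bdp, mem_filter, mem_product]
        have hx : φ x ∈ G := by
          rw [← hLimg]
          exact mem_image_of_mem _ hp.1.1
        refine ⟨⟨hx, mem_univ _⟩, ?_⟩
        intro hcon
        apply hp.2
        have h2 : symmDiff (φ x) {σ i} = φ (symmDiff x {i}) := by
          ext t
          rw [hφ]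
          show t ∈ symmDiff (symmDiff (x.map σ.toEmbedding) S) {σ i} ↔
            t ∈ symmDiff ((symmDiff x {i}).map σ.toEmbedding) S
          rw [mem_symmDiff, mem_symmDiff, mem_symmDiff, mem_map_perm, mem_map_perm, mem_symmDiff,
            mem_singleton, mem_singleton]
          have h3 : σ.symm t = i ↔ t = σ i := by
            rw [Equiv.symm_apply_eq]
          rw [h3]
          tauto
        have h4 : symmDiff (φ x) {σ i} ∈ G := hcon
        rw [h2, ← hLimg, mem_image] at h4
        obtain ⟨z, hz, hz2⟩ := h4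
        rwa [← hφinj hz2]
      · rintro ⟨x, i⟩ _ ⟨y, j⟩ _ hxy
        simp only [Prod.mk.injEq] at hxy
        rw [hφinj hxy.1, σ.injective hxy.2]
    have h2 := bdp_add_e2 G
    have h3 := bdp_add_e2 F
    rw [hG.e2, hG.card] at h2
    unfold L2
    have h4 : ((bdp G).card : ℤ) + 2 * g F.card = n * F.card := by exact_mod_cast h2
    have h5 : ((bdp F).card : ℤ) + e2 univ F = n * F.card := by exact_mod_cast h3
    have h6 : ((bdp L).card : ℤ) ≤ (bdp G).card := by exact_mod_cast h1
    linarith
  · rw [← hφ] at *
    rw [hLimg]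
    have h1 := card_symmDiff_add F G
    have h2 := card_inter_add_card_sdiff F G
    rw [hG.card] at h1
    omega

/-- the conclusion for a constant `C` -/
theorem conclusion (C : ℕ) (H : ∀ (n : ℕ) (F : Finset (Finset (Fin n))),
    ∃ d : ℕ, Near univ F F.card d ∧ 2 * (d : ℤ) ≤ C * L2 univ F) :
    ∀ n : ℕ, ∀ F L : Finset (Finset (Fin n)),
      L.card = F.card →
      (∀ x ∈ L, ∀ y ∉ L, ∃ i ∈ x, i ∉ y ∧ ∀ j < i, (j ∈ x ↔ j ∈ y)) →
      ∃ σ : Equiv.Perm (Fin n), ∃ S : Finset (Fin n),
        (((symmDiff F (L.image (fun x => symmDiff (x.map σ.toEmbedding) S))).card : ℤ) ≤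
          C * ((((F ×ˢ (Finset.univ : Finset (Fin n))).filter
                  (fun p => symmDiff p.1 {p.2} ∉ F)).card : ℤ) -
               (((L ×ˢ (Finset.univ : Finset (Fin n))).filter
                  (fun p => symmDiff p.1 {p.2} ∉ L)).card : ℤ))) := by
  intro n F L hLF hL
  obtain ⟨d, hd, h2⟩ := H n F
  obtain ⟨h3, σ, S, h4⟩ := bridge hLF hL hd
  refine ⟨σ, S, ?_⟩
  have h5 : ((symmDiff F (L.image (fun x => symmDiff (x.map σ.toEmbedding) S))).card : ℤ) ≤ 2 * d := by
    exact_mod_cast h4
  have h6 : (C : ℤ) * L2 univ F ≤ C * (((bdp F).card : ℤ) - ((bdp L).card : ℤ)) :=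
    mul_le_mul_of_nonneg_left h3 (by positivity)
  exact h5.trans (h2.trans h6)

end Pool.Agent.EdgeIso.Frame
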