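import Pool.Agent.Lib.MP_48c8f3_co.Bas
import Pool.Agent.Lib.MP_48c8f3_co.FM

set_option autoImplicit false

/-!
MP_48c8f3_co, generic checker, part Q: sparse systems; their packed form is computed by the kernel
while it checks a certificate.
-/

noncomputable section

namespace Pool.Agent.EdgeIso.Chk

open Finset

/-- sparse forms -/
abbrev FS := List (ℕ × ℤ)

/-! ### packing of sparse forms -/

/-- packed positive part of a sparse form -/
def spP : List (ℕ × ℤ) → ℕ :=
  @List.rec (ℕ × ℤ) (fun _ => ℕ) 0 (fun a _ ih => @Int.rec (fun _ => ℕ)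
    (fun c => Nat.add (Nat.shiftLeft c (Nat.mul 64 a.1)) ih) (fun _ => ih) a.2)

/-- packed negative part of a sparse form -/
def spN : List (ℕ × ℤ) → ℕ :=
  @List.rec (ℕ × ℤ) (fun _ => ℕ) 0 (fun a _ ih => @Int.rec (fun _ => ℕ)
    (fun _ => ih) (fun c => Nat.add (Nat.shiftLeft (Nat.succ c) (Nat.mul 64 a.1)) ih) a.2)

/-- the packed zero form with the weight `1` -/
def pk0 (n : ℕ) : ℕ := @Nat.rec (fun _ => ℕ) 1 (fun _ ih => Nat.add 65536 (Nat.mul BB ih)) n

def pks (n : ℕ) (l : List (ℕ × ℤ)) : ℕ := Nat.sub (Nat.add (pk0 n) (spP l)) (spN l)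

def pkn (n : ℕ) (l : List (ℕ × ℤ)) : ℕ := Nat.sub (Nat.add (pk0 n) (spN l)) (spP l)

/-- increasing indices below `n`, from `m` on, and small coefficients -/
def okS (n : ℕ) (l : List (ℕ × ℤ)) : ℕ → Bool :=
  @List.rec (ℕ × ℤ) (fun _ => ℕ → Bool) (fun _ => true) (fun a _ ih m =>
    and (and (Nat.ble m a.1) (Nat.ble (Nat.succ a.1) n))
      (and (Nat.ble (Int.natAbs a.2) 65536) (ih (Nat.succ a.1)))) l

theorem okS_cons {n m : ℕ} {a : ℕ × ℤ} {l : List (ℕ × ℤ)} (h : okS n (a :: l) m = true) :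
    m ≤ a.1 ∧ a.1 < n ∧ a.2.natAbs ≤ 65536 ∧ okS n l (a.1 + 1) = true := by
  have h' : (and (and (Nat.ble m a.1) (Nat.ble (Nat.succ a.1) n))
      (and (Nat.ble (Int.natAbs a.2) 65536) (okS n l (Nat.succ a.1)))) = true := h
  simp only [Bool.and_eq_true] at h'
  exact ⟨Nat.le_of_ble_eq_true h'.1.1, Nat.le_of_ble_eq_true h'.1.2,
    Nat.le_of_ble_eq_true h'.2.1, h'.2.2⟩

theorem okS_lt {n : ℕ} : ∀ {l : List (ℕ × ℤ)} {m : ℕ}, okS n l m = true → ∀ a ∈ l, a.1 < n := by
  intro l
  induction l with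
  | nil => intro m _ a ha; exact absurd ha (by simp)
  | cons b l ih =>
    intro m h a ha
    obtain ⟨_, h2, _, h4⟩ := okS_cons h
    rcases List.mem_cons.mp ha with rfl | ha
    · exact h2
    · exact ih h4 a ha

/-- coefficients of a sparse form -/
def cf (l : List (ℕ × ℤ)) (i : ℕ) : ℤ := l.foldr (fun a s => if a.1 = i then a.2 + s else s) 0

theorem okS_cf {n : ℕ} : ∀ {l : List (ℕ × ℤ)} {m : ℕ}, okS n l m = true →
    (∀ i, i < m → cf l i = 0) ∧ ∀ i, -65536 ≤ cf l i ∧ cf l i ≤ 65536 := by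
  intro l
  induction l with
  | nil =>
    intro m _
    exact ⟨fun i _ => rfl, fun i => ⟨by show (-65536 : ℤ) ≤ 0; norm_num,
      by show (0 : ℤ) ≤ 65536; norm_num⟩⟩
  | cons b l ih =>
    intro m h
    obtain ⟨h1, _, h3, h4⟩ := okS_cons h
    obtain ⟨i1, i2⟩ := ih h4
    have e : ∀ i, cf (b :: l) i = if b.1 = i then b.2 + cf l i else cf l i := fun i => rfl
    refine ⟨fun i hi => ?_, fun i => ?_⟩
    · rw [e, if_neg (by omega)]
      exact i1 i (by omega)
    · rw [e]
      by_cases hb : b.1 = i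
      · rw [if_pos hb, i1 i (by omega)]
        omega
      · rw [if_neg hb]
        exact i2 i

theorem okL_map : ∀ (n : ℕ) (f : ℕ → ℤ), (∀ i, i < n → -65536 ≤ f i ∧ f i ≤ 65536) →
    okL n ((List.range n).map f) = true := by
  intro n
  induction n with
  | zero => intro f _; rfl
  | succ n ih =>
    intro f h
    rw [List.range_succ_eq_map, List.map_cons, List.map_map]
    simp only [okL, Bool.and_eq_true, decide_eq_true_eq]
    exact ⟨⟨(h 0 (by omega)).1, (h 0 (by omega)).2⟩,
      ih (f ∘ Nat.succ) (fun i hi => h (i + 1) (by omega))⟩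

theorem okL_sp {n m : ℕ} {l : List (ℕ × ℤ)} (h : okS n l m = true) : okL n (sp n l) = true :=
  okL_map n _ (fun i _ => (okS_cf h).2 i)

theorem dot_smul : ∀ (L : List ℤ) (a : ℤ) (x : ℕ → ℤ),
    dot L (fun i => a * x i) = a * dot L x := by
  intro L
  induction L with
  | nil => intro a x; simp [dot]
  | cons c L ih =>
    intro a x
    show c * (a * x 0) + dot L (fun i => a * x (i + 1)) = a * (c * x 0 + dot L _)
    rw [ih]
    ring

/-- powers of the base -/
def pw (i : ℕ) : ℤ := (BB : ℤ) ^ i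

theorem pk0_succ (n : ℕ) : pk0 (n + 1) = 65536 + BB * pk0 n := rfl

theorem pkw_dot : ∀ (n : ℕ) (L : List ℤ), okL n L = true →
    (pkw L : ℤ) = dot L pw + pk0 n := by
  intro n
  induction n with
  | zero =>
    intro L h
    cases L with
    | nil => rfl
    | cons c L => exact absurd h (by simp [okL])
  | succ n ih =>
    intro L h
    cases L with
    | nil => exact absurd h (by simp [okL])
    | cons c L =>
      simp only [okL, Bool.and_eq_true, decide_eq_true_eq] at h
      have h1 := ih L h.2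
      have h2 : dot (c :: L) pw = c + BB * dot L pw := by
        show c * pw 0 + dot L (fun i => pw (i + 1)) = _
        have : (fun i => pw (i + 1)) = fun i => (BB : ℤ) * pw i := by
          funext i
          unfold pw
          rw [pow_succ]
          ring
        rw [this, dot_smul]
        unfold pw
        ring
      have h3 : (pkw (c :: L) : ℤ) = (c + 65536) + BB * pkw L := by
        show (((c + 65536).toNat + BB * pkw L : ℕ) : ℤ) = _
        have : (((c + 65536).toNat : ℕ) : ℤ) = c + 65536 := by omega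
        rw [Nat.cast_add, this, Nat.cast_mul]
      rw [h2, h3, h1, pk0_succ]
      push_cast
      ring

theorem sp_val : ∀ (l : List (ℕ × ℤ)),
    (spP l : ℤ) - spN l = (l.map (fun a => a.2 * pw a.1)).sum := by
  have hs : ∀ c i : ℕ, ((Nat.shiftLeft c (Nat.mul 64 i) : ℕ) : ℤ) = c * pw i := by
    intro c i
    show ((c <<< (64 * i) : ℕ) : ℤ) = _
    rw [Nat.shiftLeft_eq, pow_mul]
    unfold pw
    norm_num
  intro l
  induction l with
  | nil => rfl
  | cons a l ih =>
    obtain ⟨i, c⟩ := a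
    rw [List.map_cons, List.sum_cons, ← ih]
    cases c with
    | ofNat c =>
      have e1 : spP ((i, Int.ofNat c) :: l) = Nat.shiftLeft c (Nat.mul 64 i) + spP l := rfl
      have e2 : spN ((i, Int.ofNat c) :: l) = spN l := rfl
      rw [e1, e2, Nat.cast_add, hs]
      show (c : ℤ) * pw i + spP l - spN l = (c : ℤ) * pw i + _
      ring
    | negSucc c =>
      have e1 : spP ((i, Int.negSucc c) :: l) = spP l := rfl
      have e2 : spN ((i, Int.negSucc c) :: l) =
          Nat.shiftLeft (Nat.succ c) (Nat.mul 64 i) + spN l := rfl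
      rw [e1, e2, Nat.cast_add, hs]
      show _ = (Int.negSucc c) * pw i + _
      rw [Int.negSucc_eq]
      push_cast
      ring

theorem pks_eq {n m : ℕ} {l : List (ℕ × ℤ)} (h : okS n l m = true) :
    pks n l = pkw (sp n l) := by
  have h1 := pkw_dot n _ (okL_sp h)
  rw [dot_sp n l _ (okS_lt h)] at h1
  have h2 := sp_val l
  unfold pks
  show pk0 n + spP l - spN l = _
  omega

theorem pkn_eq {n m : ℕ} {l : List (ℕ × ℤ)} (h : okS n l m = true) :
    pkn n l = pkw (neg (sp n l)) := by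
  have h1 := pkw_dot n _ (okL_neg _ _ (okL_sp h))
  rw [dot_neg, dot_sp n l _ (okS_lt h)] at h1
  have h2 := sp_val l
  unfold pkn
  show pk0 n + spN l - spP l = _
  omega

/-! ### sparse systems -/

structure SysS where
  n : ℕ
  GG : ℕ
  KG : ℕ
  ex : List (List (ℕ × ℤ))
  GT : ℕ
  fin : List (ℕ × ℤ)
  lin : List (List (ℕ × ℤ))

def SysS.toL (S : SysS) : SysL where
  n := S.n
  GG := S.GG
  KG := S.KG
  ex := S.ex.map (sp S.n)
  GT := S.GT
  fin := sp S.n S.fin
  lin := S.lin.map (sp S.n)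

/-- all forms of a list are admissible -/
def allS (n : ℕ) (L : List (List (ℕ × ℤ))) : Bool :=
  @List.rec (List (ℕ × ℤ)) (fun _ => Bool) true (fun l _ ih => and (okS n l 0) ih) L

theorem allS_spec {n : ℕ} : ∀ {L : List (List (ℕ × ℤ))}, allS n L = true →
    ∀ l ∈ L, okS n l 0 = true := by
  intro L
  induction L with
  | nil => intro _ l hl; exact absurd hl (by simp)
  | cons a L ih =>
    intro h l hl
    have h' : (and (okS n a 0) (allS n L)) = true := h
    rw [Bool.and_eq_true] at h'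
    rcases List.mem_cons.mp hl with rfl | hl
    · exact h'.1
    · exact ih h'.2 l hl

def SysS.ok (S : SysS) : Bool :=
  and (and (Nat.ble 1 S.n) (allS S.n S.ex)) (and (okS S.n S.fin 0) (allS S.n S.lin))

/-- entries of lists, the default is the zero form -/
def getS (L : List (List (ℕ × ℤ))) : ℕ → List (ℕ × ℤ) :=
  @List.rec (List (ℕ × ℤ)) (fun _ => ℕ → List (ℕ × ℤ)) (fun _ => [])
    (fun a _ ih i => @Nat.rec (fun _ => List (ℕ × ℤ)) a (fun i' _ => ih i') i) L

theorem sp_nil (n : ℕ) : sp n [] = List.replicate n 0 := by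
  unfold sp
  rw [show (fun i : ℕ => List.foldr (fun (a : ℕ × ℤ) s => if a.1 = i then a.2 + s else s) 0 []) =
    fun _ => (0 : ℤ) from rfl, List.map_const', List.length_range]

theorem getS_eq (n : ℕ) : ∀ (L : List (List (ℕ × ℤ))) (e : ℕ),
    (L.map (sp n)).getD e (List.replicate n 0) = sp n (getS L e) := by
  intro L
  induction L with
  | nil => intro e; exact (sp_nil n).symm
  | cons a L ih =>
    intro e
    cases e with
    | zero => rfl
    | succ e => exact ih e

theorem getS_ok {n : ℕ} : ∀ {L : List (List (ℕ × ℤ))}, allS n L = true → ∀ e,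
    okS n (getS L e) 0 = true := by
  intro L
  induction L with
  | nil => intro _ e; rfl
  | cons a L ih =>
    intro h e
    have h' : (and (okS n a 0) (allS n L)) = true := h
    rw [Bool.and_eq_true] at h'
    cases e with
    | zero => exact h'.1
    | succ e => exact ih h'.2 e

/-- `∑_(i < n) c BB^i` -/
def repC (c n : ℕ) : ℕ := @Nat.rec (fun _ => ℕ) 0 (fun _ ih => Nat.add c (Nat.mul BB ih)) n

theorem repC_eq (c n : ℕ) : (List.range n).foldr (fun _ a => c + BB * a) 0 = repC c n := by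
  have gen : ∀ (m : ℕ) (L : List ℕ), L.length = m →
      L.foldr (fun _ a => c + BB * a) 0 = repC c m := by
    intro m
    induction m with
    | zero => intro L hL; rw [List.length_eq_zero_iff.mp hL]; rfl
    | succ m ih =>
      intro L hL
      cases L with
      | nil => exact absurd hL (by simp)
      | cons a L =>
        rw [List.foldr_cons, ih L (by simpa using hL)]
        rfl
  exact gen n _ List.length_range

/-- packing of rows of `W` bits -/
def rowL (W : ℕ) (l : List ℕ) : ℕ :=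
  @List.rec ℕ (fun _ => ℕ) 0 (fun a _ ih => Nat.add a (Nat.shiftLeft ih W)) l

theorem rowL_eq (W : ℕ) : ∀ l : List ℕ, rowL W l = pkRow (2 ^ W) l := by
  intro l
  induction l with
  | nil => rfl
  | cons a l ih =>
    show a + (rowL W l) <<< W = a + 2 ^ W * pkRow (2 ^ W) l
    rw [ih, Nat.shiftLeft_eq]
    ring

def SysS.cst (S : SysS) : Cst where
  PV := Nat.succ (pk0 S.n)
  NV := Nat.pred (pk0 S.n)
  FV := pks S.n S.fin
  GG := S.GG
  KG := S.KG
  ones := repC 1 S.n
  hones := repC 9223372036854775808 S.n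
  n64 := Nat.mul 64 S.n
  nb := Nat.pow 2 (Nat.mul 64 S.n)
  W := Nat.mul 64 (Nat.succ S.n)
  TW := Nat.sub (Nat.pow 2 (Nat.mul 64 (Nat.succ S.n))) 1
  GT := S.GT
  PT := rowL (Nat.mul 64 (Nat.succ S.n)) (S.lin.map (fun L => Nat.mul 4096 (pks S.n L)))
  EF := rowL (Nat.mul 64 (Nat.succ S.n)) ((List.range 128).map (fun t =>
    Nat.mul 4096 (@Bool.rec (fun _ => ℕ) (pkn S.n (getS S.ex (Nat.div t 2)))
      (pks S.n (getS S.ex (Nat.div t 2))) (Nat.beq (Nat.mod t 2) 0))))

theorem SysS.ok_spec {S : SysS} (h : S.ok = true) : 0 < S.n ∧ allS S.n S.ex = true ∧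
    okS S.n S.fin 0 = true ∧ allS S.n S.lin = true := by
  unfold SysS.ok at h
  simp only [Bool.and_eq_true] at h
  exact ⟨Nat.le_of_ble_eq_true h.1.1, h.1.2, h.2.1, h.2.2⟩

theorem SysS.fe_eq (S : SysS) (e : ℕ) : S.toL.fe e = sp S.n (getS S.ex e) :=
  getS_eq S.n S.ex e

theorem SysS.unit_eq {S : SysS} (hn : 0 < S.n) : S.toL.unit = sp S.n [(0, 1)] := by
  obtain ⟨n, hn'⟩ : ∃ n, S.n = n + 1 := ⟨S.n - 1, by omega⟩
  show 1 :: List.replicate (S.n - 1) 0 = sp S.n [(0, 1)]
  rw [hn']
  unfold sp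
  rw [List.range_succ_eq_map, List.map_cons, List.map_map]
  show _ = 1 :: List.map (fun _ => (0 : ℤ)) (List.range n)
  rw [List.map_const', List.length_range]
  rfl

theorem SysS.pku {S : SysS} (hn : 0 < S.n) : pkw S.toL.unit = Nat.succ (pk0 S.n) ∧
    pkw (neg S.toL.unit) = Nat.pred (pk0 S.n) := by
  have ho : okS S.n [(0, 1)] 0 = true := by
    show (and (and (Nat.ble 0 0) (Nat.ble 1 S.n)) (and (Nat.ble 1 65536) true)) = true
    rw [Nat.ble_eq_true_of_le (Nat.succ_le_of_lt hn)]
    rfl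
  rw [S.unit_eq hn, ← pks_eq ho, ← pkn_eq ho]
  have e1 : spP [((0 : ℕ), (1 : ℤ))] = 1 := rfl
  have e2 : spN [((0 : ℕ), (1 : ℤ))] = 0 := rfl
  unfold pks pkn
  rw [e1, e2]
  exact ⟨rfl, rfl⟩

theorem SysS.cst_eq {S : SysS} (h : S.ok = true) : S.cst = S.toL.cst := by
  obtain ⟨hn, hex, hfin, hlin⟩ := SysS.ok_spec h
  obtain ⟨u1, u2⟩ := SysS.pku hn
  have e1 : S.cst.PT = S.toL.cst.PT := by
    show rowL _ (S.lin.map (fun L => 4096 * pks S.n L)) =
      pkRow (2 ^ (64 * (S.n + 1))) ((S.lin.map (sp S.n)).map (fun L => 4096 * pkw L))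
    rw [rowL_eq, List.map_map]
    congr 1
    apply List.map_congr_left
    intro l hl
    show 4096 * pks S.n l = 4096 * pkw (sp S.n l)
    rw [pks_eq (allS_spec hlin l hl)]
  have e2 : S.cst.EF = S.toL.cst.EF := by
    have hw : S.cst.EF = rowL (64 * (S.n + 1)) ((List.range 128).map (fun t =>
        4096 * (@Bool.rec (fun _ => ℕ) (pkn S.n (getS S.ex (t / 2)))
          (pks S.n (getS S.ex (t / 2))) (Nat.beq (t % 2) 0)))) := rfl
    have hw2 : S.toL.cst.EF = pkRow (2 ^ (64 * (S.n + 1))) ((List.range 128).map (fun t =>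
        4096 * pkw (if t % 2 = 0 then S.toL.fe (t / 2) else neg (S.toL.fe (t / 2))))) := rfl
    have hg : (fun t => 4096 * (@Bool.rec (fun _ => ℕ) (pkn S.n (getS S.ex (t / 2)))
          (pks S.n (getS S.ex (t / 2))) (Nat.beq (t % 2) 0))) = fun t =>
        4096 * pkw (if t % 2 = 0 then S.toL.fe (t / 2) else neg (S.toL.fe (t / 2))) := by
      funext t
      rw [S.fe_eq, pks_eq (getS_ok hex (t / 2)), pkn_eq (getS_ok hex (t / 2))]
      by_cases h2 : t % 2 = 0
      · rw [if_pos h2, h2]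
        rfl
      · rw [if_neg h2]
        cases hb : Nat.beq (t % 2) 0 with
        | true => exact absurd (Nat.eq_of_beq_eq_true hb) h2
        | false => rfl
    rw [hw, hw2, hg]
    exact rowL_eq _ _
  have e3 : S.cst.ones = S.toL.cst.ones := (repC_eq 1 S.n).symm
  have e4 : S.cst.hones = S.toL.cst.hones := (repC_eq _ S.n).symm
  have e5 : S.cst.FV = S.toL.cst.FV := pks_eq hfin
  have e6 : S.cst.PV = S.toL.cst.PV := u1.symm
  have e7 : S.cst.NV = S.toL.cst.NV := u2.symm
  have ext : ∀ a b : Cst, a.PV = b.PV → a.NV = b.NV → a.FV = b.FV → a.GG = b.GG →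
      a.KG = b.KG → a.ones = b.ones → a.hones = b.hones → a.n64 = b.n64 → a.nb = b.nb →
      a.W = b.W → a.TW = b.TW → a.GT = b.GT → a.PT = b.PT → a.EF = b.EF → a = b := by
    intro a b h1 h2 h3 h4 h5 h6 h7 h8 h9 h10 h11 h12 h13 h14
    cases a
    cases b
    simp only at h1 h2 h3 h4 h5 h6 h7 h8 h9 h10 h11 h12 h13 h14
    subst h1 h2 h3 h4 h5 h6 h7 h8 h9 h10 h11 h12 h13 h14
    rfl
  exact ext _ _ e6 e7 e5 rfl rfl e3 e4 rfl rfl rfl rfl rfl e1 e2

/-! ### sparse items -/

inductive ItemS where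
  | cge (e c : ℕ) (L : List (ℕ × ℤ))
  | cle (e c : ℕ) (L : List (ℕ × ℤ))
  | dt (ep eq es : ℕ) (d : List (ℕ × ℤ))
  | tt (ex eg hx cg : ℕ) (L U : List (ℕ × ℤ)) (FL FU Fx FT cb T W : ℕ)
  | tl (ex eg hx cg : ℕ) (L : List (ℕ × ℤ)) (FL Fx FT T W : ℕ)
  | mc (e1 e2 : ℕ) (Z : List (ℕ × ℤ))
  | ts (ex hx : ℕ) (L : List (ℕ × ℤ)) (FL Fx FT T W s8 RN : ℕ) (hs : List (ℕ × ℕ × ℕ × ℕ))
      (TA WA : ℕ)
  | gate (e a b : ℕ) (it : ItemS)

def ItemS.toL (n : ℕ) : ItemS → ItemL :=
  @ItemS.rec (fun _ => ItemL)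
    (fun e c L => .cge e c (sp n L))
    (fun e c L => .cle e c (sp n L))
    (fun ep eq es d => .dt ep eq es (sp n d))
    (fun ex eg hx cg L U FL FU Fx FT cb T W => .tt ex eg hx cg (sp n L) (sp n U) FL FU Fx FT cb T W)
    (fun ex eg hx cg L FL Fx FT T W => .tl ex eg hx cg (sp n L) FL Fx FT T W)
    (fun e1 e2 Z => .mc e1 e2 (sp n Z))
    (fun ex hx L FL Fx FT T W s8 RN hs TA WA => .ts ex hx (sp n L) FL Fx FT T W s8 RN hs TA WA)
    (fun e a b _ ih => .gate e a b ih)

/-- packed expressions -/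
def SysS.pe (S : SysS) (e : ℕ) : ℕ := pks S.n (getS S.ex e)

def SysS.pen (S : SysS) (e : ℕ) : ℕ := pkn S.n (getS S.ex e)

def SysS.hin (S : SysS) (h : ℕ × ℕ × ℕ × ℕ) : Hin :=
  ⟨Nat.mul 24 h.1, Nat.add (Nat.mul 24 h.1) 12, h.2.1, h.2.2.1, h.2.2.2, S.pen h.1⟩

def rCge (S : SysS) (e c : ℕ) (L : List (ℕ × ℤ)) : F := pCge (Nat.mul 24 e) c
  (Nat.mul 4096 (pks S.n L))

def rCle (S : SysS) (e c : ℕ) (L : List (ℕ × ℤ)) : F := pCle (Nat.add (Nat.mul 24 e) 12) c
  (Nat.mul 4096 (pks S.n L))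

def rDT (S : SysS) (C : Cst) (ep eq es : ℕ) (d : List (ℕ × ℤ)) : F :=
  pDT C (Nat.mul 24 ep) (Nat.add (Nat.mul 24 ep) 12) (Nat.mul 24 eq) (Nat.add (Nat.mul 24 eq) 12)
    (Nat.mul 24 es) (Nat.add (Nat.mul 24 es) 12) (Nat.mul 4096 (pks S.n d))
    (Nat.mul 4096 (S.pe es)) (Nat.mul 4096 (S.pen ep)) (Nat.mul 4096 (S.pen eq))
    (Nat.mul 4096 (S.pen es)) (Nat.mul 4096 (S.pe ep)) (Nat.mul 4096 (S.pe eq))

def rTT (S : SysS) (ex eg hx cg : ℕ) (L U : List (ℕ × ℤ)) (FL FU Fx FT cb T W : ℕ) : F :=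
  pTT (Nat.mul 24 ex) (Nat.add (Nat.mul 24 ex) 12) (Nat.add (Nat.mul 24 eg) 12)
    hx (Nat.sub hx 1) cg (Nat.sub cg 1) (Nat.add (Nat.mul FL (pks S.n L)) (Nat.mul FU (pkn S.n U)))
    (Nat.mul Fx (S.pe ex)) (Nat.mul Fx (S.pen ex)) (Nat.mul FT (Nat.succ (pk0 S.n)))
    (Nat.mul FT (Nat.pred (pk0 S.n))) cb T W

def rTL (S : SysS) (ex eg hx cg : ℕ) (L : List (ℕ × ℤ)) (FL Fx FT T W : ℕ) : F :=
  pTL (Nat.mul 24 ex) (Nat.add (Nat.mul 24 ex) 12) (Nat.mul 24 eg)
    hx (Nat.sub hx 1) cg (Nat.mul FL (pks S.n L))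
    (Nat.mul Fx (S.pe ex)) (Nat.mul Fx (S.pen ex)) (Nat.mul FT (Nat.succ (pk0 S.n)))
    (Nat.mul FT (Nat.pred (pk0 S.n))) T W

def rMc (S : SysS) (C : Cst) (e1 e2 : ℕ) (Z : List (ℕ × ℤ)) : F :=
  pMc C (Nat.mul 24 e1) (Nat.add (Nat.mul 24 e1) 12) (Nat.mul 24 e2) (Nat.add (Nat.mul 24 e2) 12)
    (Nat.mul S.GG (S.pe e1)) (Nat.mul S.GG (S.pe e2)) (Nat.mul (Nat.mul S.GG S.GG) (pkn S.n Z))

def rTS (S : SysS) (C : Cst) (ex hx : ℕ) (L : List (ℕ × ℤ)) (FL Fx FT T W s8 RN : ℕ)
    (hs : List (ℕ × ℕ × ℕ × ℕ)) (TA WA : ℕ) : F :=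
  pTS C (Nat.mul 24 ex) (Nat.add (Nat.mul 24 ex) 12) hx (Nat.sub hx 1) (Nat.mul FL (pks S.n L))
    (Nat.mul Fx (S.pe ex)) (Nat.mul Fx (S.pen ex)) (Nat.mul FT (Nat.succ (pk0 S.n)))
    (Nat.mul FT (Nat.pred (pk0 S.n))) T W (S.pe ex) s8 RN (Nat.sub RN 1) (hs.map S.hin) TA WA

def ItemS.runF (S : SysS) (C : Cst) : ItemS → F :=
  @ItemS.rec (fun _ => F) (rCge S) (rCle S) (rDT S C) (rTT S) (rTL S) (rMc S C) (rTS S C)
    (fun e a b _ ih => pGate (Nat.mul 24 e) (Nat.add (Nat.mul 24 e) 12) a b ih)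

/-- well formed sparse items -/
def ItemS.wf (S : SysS) : ItemS → Bool :=
  @ItemS.rec (fun _ => Bool)
    (fun e _ L => and (Nat.ble e 63) (okS S.n L 0))
    (fun e _ L => and (Nat.ble e 63) (okS S.n L 0))
    (fun ep eq es d => and (and (Nat.ble ep 63) (Nat.ble eq 63)) (and (Nat.ble es 63) (okS S.n d 0)))
    (fun ex eg hx cg L U _ _ Fx FT _ _ _ => and (and (and (Nat.ble ex 63) (Nat.ble eg 63))
      (and (okS S.n L 0) (okS S.n U 0))) (and (and (Nat.ble 1 hx) (Nat.ble 1 cg))
      (Nat.beq (Nat.mul hx Fx) (Nat.mul FT S.GG))))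
    (fun ex eg hx cg L _ Fx FT _ _ => and (and (and (Nat.ble ex 63) (Nat.ble eg 63))
      (okS S.n L 0)) (and (and (Nat.ble 1 hx) (Nat.ble 1 cg))
      (Nat.beq (Nat.mul hx Fx) (Nat.mul FT S.GG))))
    (fun e1 e2 Z => and (and (Nat.ble e1 63) (Nat.ble e2 63)) (okS S.n Z 0))
    (fun ex hx L _ Fx FT _ _ s8 RN hs _ _ => and (and (Nat.ble ex 63) (okS S.n L 0))
      (and (and (Nat.ble 1 hx) (Nat.beq (Nat.mul hx Fx) (Nat.mul FT S.GG)))
        (and (and (Nat.beq (Nat.mul s8 RN) S.GG) (Nat.ble 1 RN))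
          (hs.all (fun h => Nat.ble h.1 63)))))
    (fun e _ _ _ ih => and (Nat.ble e 63) ih)

theorem le63 {e : ℕ} (h : Nat.ble e 63 = true) : e < 64 := by
  have := Nat.le_of_ble_eq_true h
  omega

theorem ItemS.wf_eq {S : SysS} : ∀ {it : ItemS}, it.wf S = true →
    (it.toL S.n).wf S.toL = true := by
  intro it
  induction it with
  | cge e c L =>
    intro h
    have h' : (and (Nat.ble e 63) (okS S.n L 0)) = true := h
    show (decide (e < 64) && okL S.n (sp S.n L)) = true
    simp only [Bool.and_eq_true] at h'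
    simp only [Bool.and_eq_true, decide_eq_true_eq]
    exact ⟨le63 h'.1, okL_sp h'.2⟩
  | cle e c L =>
    intro h
    have h' : (and (Nat.ble e 63) (okS S.n L 0)) = true := h
    show (decide (e < 64) && okL S.n (sp S.n L)) = true
    simp only [Bool.and_eq_true] at h'
    simp only [Bool.and_eq_true, decide_eq_true_eq]
    exact ⟨le63 h'.1, okL_sp h'.2⟩
  | dt ep eq es d =>
    intro h
    have h' : (and (and (Nat.ble ep 63) (Nat.ble eq 63))
      (and (Nat.ble es 63) (okS S.n d 0))) = true := h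
    show (decide (ep < 64) && decide (eq < 64) && decide (es < 64) && okL S.n (sp S.n d)) = true
    simp only [Bool.and_eq_true] at h'
    simp only [Bool.and_eq_true, decide_eq_true_eq]
    exact ⟨⟨⟨le63 h'.1.1, le63 h'.1.2⟩, le63 h'.2.1⟩, okL_sp h'.2.2⟩
  | tt ex eg hx cg L U FL FU Fx FT cb T W =>
    intro h
    have h' : (and (and (and (Nat.ble ex 63) (Nat.ble eg 63))
      (and (okS S.n L 0) (okS S.n U 0))) (and (and (Nat.ble 1 hx) (Nat.ble 1 cg))
      (Nat.beq (Nat.mul hx Fx) (Nat.mul FT S.GG)))) = true := h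
    show (decide (ex < 64) && decide (eg < 64) && okL S.n (sp S.n L) &&
      okL S.n (sp S.n U) && decide (0 < hx) && decide (0 < cg) &&
      decide (hx * Fx = FT * S.GG)) = true
    simp only [Bool.and_eq_true] at h'
    simp only [Bool.and_eq_true, decide_eq_true_eq]
    exact ⟨⟨⟨⟨⟨⟨le63 h'.1.1.1, le63 h'.1.1.2⟩, okL_sp h'.1.2.1⟩, okL_sp h'.1.2.2⟩,
      Nat.le_of_ble_eq_true h'.2.1.1⟩, Nat.le_of_ble_eq_true h'.2.1.2⟩,
      Nat.eq_of_beq_eq_true h'.2.2⟩
  | tl ex eg hx cg L FL Fx FT T W =>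
    intro h
    have h' : (and (and (and (Nat.ble ex 63) (Nat.ble eg 63))
      (okS S.n L 0)) (and (and (Nat.ble 1 hx) (Nat.ble 1 cg))
      (Nat.beq (Nat.mul hx Fx) (Nat.mul FT S.GG)))) = true := h
    show (decide (ex < 64) && decide (eg < 64) && okL S.n (sp S.n L) &&
      decide (0 < hx) && decide (0 < cg) &&
      decide (hx * Fx = FT * S.GG)) = true
    simp only [Bool.and_eq_true] at h'
    simp only [Bool.and_eq_true, decide_eq_true_eq]
    exact ⟨⟨⟨⟨⟨le63 h'.1.1.1, le63 h'.1.1.2⟩, okL_sp h'.1.2⟩,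
      Nat.le_of_ble_eq_true h'.2.1.1⟩, Nat.le_of_ble_eq_true h'.2.1.2⟩,
      Nat.eq_of_beq_eq_true h'.2.2⟩
  | mc e1 e2 Z =>
    intro h
    have h' : (and (and (Nat.ble e1 63) (Nat.ble e2 63)) (okS S.n Z 0)) = true := h
    show (decide (e1 < 64) && decide (e2 < 64) && okL S.n (sp S.n Z)) = true
    simp only [Bool.and_eq_true] at h'
    simp only [Bool.and_eq_true, decide_eq_true_eq]
    exact ⟨⟨le63 h'.1.1, le63 h'.1.2⟩, okL_sp h'.2⟩
  | ts ex hx L FL Fx FT T W s8 RN hs TA WA =>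
    intro h
    have h' : (and (and (Nat.ble ex 63) (okS S.n L 0))
      (and (and (Nat.ble 1 hx) (Nat.beq (Nat.mul hx Fx) (Nat.mul FT S.GG)))
        (and (and (Nat.beq (Nat.mul s8 RN) S.GG) (Nat.ble 1 RN))
          (hs.all (fun h => Nat.ble h.1 63))))) = true := h
    show (decide (ex < 64) && okL S.n (sp S.n L) &&
      decide (0 < hx) && decide (hx * Fx = FT * S.GG) && decide (s8 * RN = S.GG) &&
      decide (0 < RN) && hs.all (fun h => decide (h.1 < 64))) = true
    simp only [Bool.and_eq_true] at h'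
    simp only [Bool.and_eq_true, decide_eq_true_eq]
    refine ⟨⟨⟨⟨⟨⟨le63 h'.1.1, okL_sp h'.1.2⟩, Nat.le_of_ble_eq_true h'.2.1.1⟩,
      Nat.eq_of_beq_eq_true h'.2.1.2⟩, Nat.eq_of_beq_eq_true h'.2.2.1.1⟩,
      Nat.le_of_ble_eq_true h'.2.2.1.2⟩, ?_⟩
    rw [List.all_eq_true]
    intro a ha
    exact decide_eq_true (le63 (List.all_eq_true.mp h'.2.2.2 a ha))
  | gate e a b it ih =>
    intro h
    have h' : (and (Nat.ble e 63) (it.wf S)) = true := h
    show (decide (e < 64) && (it.toL S.n).wf S.toL) = true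
    simp only [Bool.and_eq_true] at h'
    simp only [Bool.and_eq_true, decide_eq_true_eq]
    exact ⟨le63 h'.1, ih h'.2⟩

theorem ItemS.run_eq {S : SysS} (hS : S.ok = true) (C : Cst) : ∀ {it : ItemS}, it.wf S = true →
    (it.toL S.n).run S.toL C = it.runF S C := by
  obtain ⟨hn, hex, _, _⟩ := SysS.ok_spec hS
  obtain ⟨u1, u2⟩ := SysS.pku hn
  have q1 : ∀ e, pkw (S.toL.fe e) = S.pe e := fun e => by
    rw [S.fe_eq, ← pks_eq (getS_ok hex e)]
    rfl
  have q2 : ∀ e, pkw (neg (S.toL.fe e)) = S.pen e := fun e => by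
    rw [S.fe_eq, ← pkn_eq (getS_ok hex e)]
    rfl
  intro it
  induction it with
  | cge e c L =>
    intro h
    have h' : (and (Nat.ble e 63) (okS S.n L 0)) = true := h
    simp only [Bool.and_eq_true] at h'
    show pCge (24 * e) c (4096 * pkw (sp S.n L)) = pCge (24 * e) c (4096 * pks S.n L)
    rw [pks_eq h'.2]
  | cle e c L =>
    intro h
    have h' : (and (Nat.ble e 63) (okS S.n L 0)) = true := h
    simp only [Bool.and_eq_true] at h'
    show pCle (24 * e + 12) c (4096 * pkw (sp S.n L)) = pCle (24 * e + 12) c (4096 * pks S.n L)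
    rw [pks_eq h'.2]
  | dt ep eq es d =>
    intro h
    have h' : (and (and (Nat.ble ep 63) (Nat.ble eq 63))
      (and (Nat.ble es 63) (okS S.n d 0))) = true := h
    simp only [Bool.and_eq_true] at h'
    show pDT C (24 * ep) (24 * ep + 12) (24 * eq) (24 * eq + 12) (24 * es)
      (24 * es + 12) (4096 * pkw (sp S.n d))
      (4096 * pkw (S.toL.fe es)) (4096 * pkw (neg (S.toL.fe ep)))
      (4096 * pkw (neg (S.toL.fe eq))) (4096 * pkw (neg (S.toL.fe es)))
      (4096 * pkw (S.toL.fe ep)) (4096 * pkw (S.toL.fe eq)) = _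
    rw [← pks_eq h'.2.2, q1, q1, q1, q2, q2, q2]
    rfl
  | tt ex eg hx cg L U FL FU Fx FT cb T W =>
    intro h
    have h' : (and (and (and (Nat.ble ex 63) (Nat.ble eg 63))
      (and (okS S.n L 0) (okS S.n U 0))) (and (and (Nat.ble 1 hx) (Nat.ble 1 cg))
      (Nat.beq (Nat.mul hx Fx) (Nat.mul FT S.GG)))) = true := h
    simp only [Bool.and_eq_true] at h'
    show pTT (24 * ex) (24 * ex + 12) (24 * eg + 12)
      hx (hx - 1) cg (cg - 1) (FL * pkw (sp S.n L) + FU * pkw (neg (sp S.n U)))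
      (Fx * pkw (S.toL.fe ex)) (Fx * pkw (neg (S.toL.fe ex))) (FT * pkw S.toL.unit)
      (FT * pkw (neg S.toL.unit)) cb T W = _
    rw [← pks_eq h'.1.2.1, ← pkn_eq h'.1.2.2, q1, q2, u1, u2]
    rfl
  | tl ex eg hx cg L FL Fx FT T W =>
    intro h
    have h' : (and (and (and (Nat.ble ex 63) (Nat.ble eg 63))
      (okS S.n L 0)) (and (and (Nat.ble 1 hx) (Nat.ble 1 cg))
      (Nat.beq (Nat.mul hx Fx) (Nat.mul FT S.GG)))) = true := h
    simp only [Bool.and_eq_true] at h'
    show pTL (24 * ex) (24 * ex + 12) (24 * eg)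
      hx (hx - 1) cg (FL * pkw (sp S.n L))
      (Fx * pkw (S.toL.fe ex)) (Fx * pkw (neg (S.toL.fe ex))) (FT * pkw S.toL.unit)
      (FT * pkw (neg S.toL.unit)) T W = _
    rw [← pks_eq h'.1.2, q1, q2, u1, u2]
    rfl
  | mc e1 e2 Z =>
    intro h
    have h' : (and (and (Nat.ble e1 63) (Nat.ble e2 63)) (okS S.n Z 0)) = true := h
    simp only [Bool.and_eq_true] at h'
    show pMc C (24 * e1) (24 * e1 + 12) (24 * e2) (24 * e2 + 12)
      (S.GG * pkw (S.toL.fe e1)) (S.GG * pkw (S.toL.fe e2))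
      (S.GG * S.GG * pkw (neg (sp S.n Z))) = _
    rw [← pkn_eq h'.2, q1, q1]
    rfl
  | ts ex hx L FL Fx FT T W s8 RN hs TA WA =>
    intro h
    have h' : (and (and (Nat.ble ex 63) (okS S.n L 0))
      (and (and (Nat.ble 1 hx) (Nat.beq (Nat.mul hx Fx) (Nat.mul FT S.GG)))
        (and (and (Nat.beq (Nat.mul s8 RN) S.GG) (Nat.ble 1 RN))
          (hs.all (fun h => Nat.ble h.1 63))))) = true := h
    simp only [Bool.and_eq_true] at h'
    have hh : hs.map S.toL.hin = hs.map S.hin := by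
      apply List.map_congr_left
      intro a _
      show (⟨24 * a.1, 24 * a.1 + 12, a.2.1, a.2.2.1, a.2.2.2, pkw (neg (S.toL.fe a.1))⟩ : Hin) = _
      rw [q2]
      rfl
    show pTS C (24 * ex) (24 * ex + 12) hx (hx - 1)
      (FL * pkw (sp S.n L)) (Fx * pkw (S.toL.fe ex)) (Fx * pkw (neg (S.toL.fe ex)))
      (FT * pkw S.toL.unit)
      (FT * pkw (neg S.toL.unit)) T W (pkw (S.toL.fe ex)) s8 RN (RN - 1) (hs.map S.toL.hin) TA WA = _
    rw [← pks_eq h'.1.2, q1, q2, u1, u2, hh]
    rfl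
  | gate e a b it ih =>
    intro h
    have h' : (and (Nat.ble e 63) (it.wf S)) = true := h
    simp only [Bool.and_eq_true] at h'
    show pGate (24 * e) (24 * e + 12) a b ((it.toL S.n).run S.toL C) = _
    rw [ih h'.2]
    rfl

/-! ### trees of items -/

inductive ST where
  | lf (it : ItemS)
  | nd (c : ℕ) (l r : ST)

/-- the leaves of a tree, followed by a list -/
def ST.lst (t : ST) : List ItemS → List ItemS :=
  @ST.rec (fun _ => List ItemS → List ItemS) (fun it acc => it :: acc)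
    (fun _ _ _ l r acc => l (r acc)) t

def ST.toFT (S : SysS) (C : Cst) (t : ST) : FT :=
  @ST.rec (fun _ => FT) (fun it => .lf (it.runF S C)) (fun c _ _ l r => .nd c l r) t

def ST.sz (t : ST) : ℕ := @ST.rec (fun _ => ℕ) (fun _ => 1) (fun _ _ _ l r => l + r) t

def ST.toIT (t : ST) : ℕ → IT :=
  @ST.rec (fun _ => ℕ → IT) (fun _ k => .lf k)
    (fun c l _ fl fr k => .nd c (fl k) (fr (k + l.sz))) t

theorem ST.lst_append : ∀ (t : ST) (acc : List ItemS), t.lst acc = t.lst [] ++ acc := by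
  intro t
  induction t with
  | lf it => intro acc; rfl
  | nd c l r ihl ihr =>
    intro acc
    show l.lst (r.lst acc) = l.lst (r.lst []) ++ acc
    rw [ihl (r.lst acc), ihl (r.lst []), ihr acc, List.append_assoc]

theorem ST.lst_length : ∀ (t : ST), (t.lst []).length = t.sz := by
  intro t
  induction t with
  | lf it => rfl
  | nd c l r ihl ihr =>
    show (l.lst (r.lst [])).length = l.sz + r.sz
    rw [ST.lst_append, List.length_append, ihl, ihr]

theorem ST.run_eq (S : SysS) (C : Cst) : ∀ (t : ST) (k : ℕ) (pre post : List F),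
    pre.length = k →
    (t.toIT k).run (pre ++ ((t.lst []).map (ItemS.runF S C) ++ post)) = t.toFT S C := by
  intro t
  induction t with
  | lf it =>
    intro k pre post hk
    show FT.lf ((pre ++ (it.runF S C :: post)).getD k _) = FT.lf (it.runF S C)
    congr 1
    rw [List.getD_eq_getElem _ _ (by rw [List.length_append, List.length_cons]; omega)]
    rw [List.getElem_append_right (by omega)]
    simp [hk]
  | nd c l r ihl ihr =>
    intro k pre post hk
    show FT.nd c ((l.toIT k).run _) ((r.toIT (k + l.sz)).run _) =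
      FT.nd c (l.toFT S C) (r.toFT S C)
    have e : (ST.nd c l r).lst [] = l.lst [] ++ r.lst [] := by
      show l.lst (r.lst []) = _
      rw [ST.lst_append]
    rw [e, List.map_append]
    congr 1
    · have := ihl k pre ((r.lst []).map (ItemS.runF S C) ++ post) hk
      rw [← this, List.append_assoc]
    · have := ihr (k + l.sz) (pre ++ (l.lst []).map (ItemS.runF S C)) post
        (by rw [List.length_append, List.length_map, ST.lst_length, hk])
      rw [← this, List.append_assoc, List.append_assoc]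

/-- all items of a tree are well formed -/
def ST.wf (S : SysS) (t : ST) : Bool :=
  @ST.rec (fun _ => Bool) (fun it => it.wf S) (fun _ _ _ l r => and l r) t

theorem ST.wf_spec {S : SysS} : ∀ {t : ST}, t.wf S = true → ∀ it ∈ t.lst [], it.wf S = true := by
  intro t
  induction t with
  | lf it =>
    intro h a ha
    have : a = it := by
      have ha' : a ∈ [it] := ha
      simpa using ha'
    rw [this]
    exact h
  | nd c l r ihl ihr =>
    intro h a ha
    have h' : (and (l.wf S) (r.wf S)) = true := h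
    rw [Bool.and_eq_true] at h'
    have ha' : a ∈ l.lst (r.lst []) := ha
    rw [ST.lst_append, List.mem_append] at ha'
    rcases ha' with ha' | ha'
    · exact ihl h'.1 a ha'
    · exact ihr h'.2 a ha'

theorem T_eq {S : SysS} {t : ST} {s : SysL} {its : List ItemL} (hS : S.ok = true)
    (hs : s = S.toL) (hi : its = (t.lst []).map (ItemS.toL S.n)) (hw : t.wf S = true) (C : Cst) :
    t.toFT S C = (t.toIT 0).run (its.map (ItemL.run s C)) := by
  have h1 := ST.run_eq S C t 0 [] [] rfl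
  rw [List.nil_append, List.append_nil] at h1
  rw [← h1, hi, hs, List.map_map]
  congr 1
  apply List.map_congr_left
  intro it hit
  exact (ItemS.run_eq hS C (ST.wf_spec hw it hit)).symm

theorem C_eq {S : SysS} {s : SysL} (hS : S.ok = true) (hs : s = S.toL) : S.cst = s.cst := by
  rw [hs]
  exact SysS.cst_eq hS

/-! ### the admissibility of the forms -/

theorem all_ok {n : ℕ} {L : List (List (ℕ × ℤ))} (h : allS n L = true) :
    (L.map (sp n)).all (fun l => okL n l) = true := by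
  rw [List.all_eq_true]
  intro a ha
  rw [List.mem_map] at ha
  obtain ⟨l, hl, rfl⟩ := ha
  exact okL_sp (allS_spec h l hl)

theorem ex_ok {S : SysS} {s : SysL} (hS : S.ok = true) (hs : s = S.toL) :
    s.ex.all (fun L => okL s.n L) = true := by
  rw [hs]
  exact all_ok (SysS.ok_spec hS).2.1

theorem lin_ok {S : SysS} {s : SysL} (hS : S.ok = true) (hs : s = S.toL) :
    s.lin.all (fun L => okL s.n L) = true := by
  rw [hs]
  exact all_ok (SysS.ok_spec hS).2.2.2

theorem fin_ok {S : SysS} {s : SysL} (hS : S.ok = true) (hs : s = S.toL) :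
    okL s.n s.fin = true := by
  rw [hs]
  exact okL_sp (SysS.ok_spec hS).2.2.1

theorem its_ok {S : SysS} {t : ST} {s : SysL} {its : List ItemL}
    (hs : s = S.toL) (hi : its = (t.lst []).map (ItemS.toL S.n)) (hw : t.wf S = true) :
    its.all (fun it => it.wf s) = true := by
  rw [hs, hi, List.all_eq_true]
  intro a ha
  rw [List.mem_map] at ha
  obtain ⟨it, hit, rfl⟩ := ha
  exact ItemS.wf_eq (ST.wf_spec hw it hit)

/-! ### trees of rules -/

def rsK (o c : ℕ) (l : List (ℕ × ℕ)) : ℕ → ℕ :=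
  @List.rec (ℕ × ℕ) (fun _ => ℕ → ℕ) (rs0 c)
    (fun a _ ih => rs1 a.1 (Nat.add (Nat.mul 24 a.2) o) ih) l

theorem rsK_eq (o c : ℕ) : ∀ l : List (ℕ × ℕ), rsK o c l = rsL o c l := by
  intro l
  induction l with
  | nil => rfl
  | cons a l ih =>
    show rs1 a.1 (24 * a.2 + o) (rsK o c l) = rs1 a.1 (24 * a.2 + o) (rsL o c l)
    rw [ih]

def RuleL.runK (r : RuleL) : ℕ → ℕ :=
  @RuleL.rec (fun _ => ℕ → ℕ) (fun hi t d pos cp neg cn => @Bool.rec (fun _ => ℕ → ℕ)
    (ruL (Nat.mul 24 t) d (rsK 0 cp pos) (rsK 12 cn neg))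
    (ruH (Nat.add (Nat.mul 24 t) 12) d (Nat.sub d 1) (rsK 12 cp pos) (rsK 0 cn neg)) hi) r

theorem RuleL.runK_eq (r : RuleL) : r.runK = r.run := by
  obtain ⟨hi, t, d, pos, cp, neg, cn⟩ := r
  cases hi with
  | true =>
    show ruH (24 * t + 12) d (d - 1) (rsK 12 cp pos) (rsK 0 cn neg) =
      ruH (24 * t + 12) d (d - 1) (rsL 12 cp pos) (rsL 0 cn neg)
    rw [rsK_eq, rsK_eq]
  | false =>
    show ruL (24 * t) d (rsK 0 cp pos) (rsK 12 cn neg) =
      ruL (24 * t) d (rsL 0 cp pos) (rsL 12 cn neg)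
    rw [rsK_eq, rsK_eq]

/-- composition of a nonempty list of rules -/
def grpN (l : List RuleL) : RuleL → ℕ → ℕ :=
  @List.rec RuleL (fun _ => RuleL → ℕ → ℕ) (fun r => r.runK) (fun a _ ih r => ruC r.runK (ih a)) l

def beqP (a b : List (ℕ × ℕ)) : Bool :=
  @List.rec (ℕ × ℕ) (fun _ => List (ℕ × ℕ) → Bool)
    (fun b => @List.rec (ℕ × ℕ) (fun _ => Bool) true (fun _ _ _ => false) b)
    (fun x _ ih b => @List.rec (ℕ × ℕ) (fun _ => Bool) false
      (fun y b' _ => and (and (Nat.beq x.1 y.1) (Nat.beq x.2 y.2)) (ih b')) b) a b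

theorem beqP_eq : ∀ (a b : List (ℕ × ℕ)), beqP a b = true → a = b := by
  intro a
  induction a with
  | nil =>
    intro b h
    cases b with
    | nil => rfl
    | cons y b => exact absurd h (by simp [beqP])
  | cons x a ih =>
    intro b h
    cases b with
    | nil => exact absurd h (by simp [beqP])
    | cons y b =>
      have h' : (and (and (Nat.beq x.1 y.1) (Nat.beq x.2 y.2)) (beqP a b)) = true := h
      simp only [Bool.and_eq_true] at h'
      have h1 := Nat.eq_of_beq_eq_true h'.1.1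
      have h2 := Nat.eq_of_beq_eq_true h'.1.2
      rw [ih b h'.2, Prod.ext h1 h2]

def beqR (a b : RuleL) : Bool :=
  and (and (and (Nat.beq a.t b.t) (Nat.beq a.d b.d)) (and (Nat.beq a.cp b.cp) (Nat.beq a.cn b.cn)))
    (and (@Bool.rec (fun _ => Bool) (@Bool.rec (fun _ => Bool) true false b.hi)
      (@Bool.rec (fun _ => Bool) false true b.hi) a.hi) (and (beqP a.pos b.pos) (beqP a.neg b.neg)))

theorem beqR_eq {a b : RuleL} (h : beqR a b = true) : a = b := by
  unfold beqR at h
  simp only [Bool.and_eq_true] at h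
  obtain ⟨⟨⟨h1, h2⟩, h3, h4⟩, h5, h6, h7⟩ := h
  have e1 := Nat.eq_of_beq_eq_true h1
  have e2 := Nat.eq_of_beq_eq_true h2
  have e3 := Nat.eq_of_beq_eq_true h3
  have e4 := Nat.eq_of_beq_eq_true h4
  have e6 := beqP_eq _ _ h6
  have e7 := beqP_eq _ _ h7
  obtain ⟨hi, t, d, pos, cp, neg, cn⟩ := a
  obtain ⟨hi', t', d', pos', cp', neg', cn'⟩ := b
  simp only at e1 e2 e3 e4 e6 e7
  subst e1 e2 e3 e4 e6 e7
  cases hi <;> cases hi' <;> first | rfl | exact absurd h5 (by simp)

/-- the rule number `i` is `r` -/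
def mem1 (rls : List RuleL) : ℕ → RuleL → Bool :=
  @List.rec RuleL (fun _ => ℕ → RuleL → Bool) (fun _ _ => false)
    (fun a _ ih i r => @Nat.rec (fun _ => Bool) (beqR a r) (fun i' _ => ih i' r) i) rls

theorem mem1_eq : ∀ {rls : List RuleL} {i : ℕ} {r : RuleL}, mem1 rls i r = true →
    (rls.map RuleL.run).getD i (fun st => st) = r.runK := by
  intro rls
  induction rls with
  | nil => intro i r h; exact absurd h (by simp [mem1])
  | cons a rls ih =>
    intro i r h
    cases i with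
    | zero =>
      have h' : beqR a r = true := h
      rw [r.runK_eq, ← beqR_eq h']
      rfl
    | succ i => exact ih (i := i) (r := r) h

/-- the group `g` of indices is the list of rules -/
def chk1 (rls : List RuleL) (l : List RuleL) : List ℕ → Bool :=
  @List.rec RuleL (fun _ => List ℕ → Bool)
    (fun g => @List.rec ℕ (fun _ => Bool) true (fun _ _ _ => false) g)
    (fun r _ ih g => @List.rec ℕ (fun _ => Bool) false (fun i g' _ => and (mem1 rls i r) (ih g')) g)
    l

theorem chk1_eq {rls : List RuleL} : ∀ {l : List RuleL} {r : RuleL} {g : List ℕ},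
    chk1 rls (r :: l) g = true → grp (rls.map RuleL.run) g = grpN l r := by
  intro l
  induction l with
  | nil =>
    intro r g h
    cases g with
    | nil => exact absurd h (by simp [chk1])
    | cons i g =>
      have h' : (and (mem1 rls i r) (chk1 rls [] g)) = true := h
      rw [Bool.and_eq_true] at h'
      cases g with
      | nil =>
        show (rls.map RuleL.run).getD i (fun st => st) = r.runK
        exact mem1_eq h'.1
      | cons j g => exact absurd h'.2 (by simp [chk1])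
  | cons a l ih =>
    intro r g h
    cases g with
    | nil => exact absurd h (by simp [chk1])
    | cons i g =>
      have h' : (and (mem1 rls i r) (chk1 rls (a :: l) g)) = true := h
      rw [Bool.and_eq_true] at h'
      have h2 := ih h'.2
      cases g with
      | nil => exact absurd h'.2 (by simp [chk1])
      | cons j g =>
        show ruC ((rls.map RuleL.run).getD i (fun st => st)) (grp (rls.map RuleL.run) (j :: g)) =
          ruC r.runK (grpN l a)
        rw [mem1_eq h'.1, h2]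

/-- trees of groups of rules -/
inductive RS where
  | lf (r : RuleL) (l : List RuleL)
  | nd (c : ℕ) (l r : RS)

def RS.lst (t : RS) : List (List RuleL) → List (List RuleL) :=
  @RS.rec (fun _ => List (List RuleL) → List (List RuleL)) (fun r l acc => (r :: l) :: acc)
    (fun _ _ _ l r acc => l (r acc)) t

def RS.toRT (t : RS) : RT := @RS.rec (fun _ => RT) (fun r l => .lf (grpN l r))
  (fun c _ _ l r => .nd c l r) t

def RS.sz (t : RS) : ℕ := @RS.rec (fun _ => ℕ) (fun _ _ => 1) (fun _ _ _ l r => l + r) t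

def RS.toIT (t : RS) : ℕ → IT :=
  @RS.rec (fun _ => ℕ → IT) (fun _ _ k => .lf k)
    (fun c l _ fl fr k => .nd c (fl k) (fr (k + l.sz))) t

def grpL (l : List RuleL) : ℕ → ℕ :=
  @List.rec RuleL (fun _ => ℕ → ℕ) (fun st => st) (fun r t _ => grpN t r) l

theorem RS.lst_append : ∀ (t : RS) (acc : List (List RuleL)), t.lst acc = t.lst [] ++ acc := by
  intro t
  induction t with
  | lf r l => intro acc; rfl
  | nd c l r ihl ihr =>
    intro acc
    show l.lst (r.lst acc) = l.lst (r.lst []) ++ acc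
    rw [ihl (r.lst acc), ihl (r.lst []), ihr acc, List.append_assoc]

theorem RS.lst_length : ∀ (t : RS), (t.lst []).length = t.sz := by
  intro t
  induction t with
  | lf r l => rfl
  | nd c l r ihl ihr =>
    show (l.lst (r.lst [])).length = l.sz + r.sz
    rw [RS.lst_append, List.length_append, ihl, ihr]

theorem RS.run_eq : ∀ (t : RS) (k : ℕ) (pre post : List (ℕ → ℕ)), pre.length = k →
    (t.toIT k).runR (pre ++ ((t.lst []).map grpL ++ post)) = t.toRT := by
  intro t
  induction t with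
  | lf r l =>
    intro k pre post hk
    show RT.lf ((pre ++ (grpN l r :: post)).getD k _) = RT.lf (grpN l r)
    congr 1
    rw [List.getD_eq_getElem _ _ (by rw [List.length_append, List.length_cons]; omega)]
    rw [List.getElem_append_right (by omega)]
    simp [hk]
  | nd c l r ihl ihr =>
    intro k pre post hk
    show RT.nd c ((l.toIT k).runR _) ((r.toIT (k + l.sz)).runR _) = RT.nd c l.toRT r.toRT
    have e : (RS.nd c l r).lst [] = l.lst [] ++ r.lst [] := by
      show l.lst (r.lst []) = _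
      rw [RS.lst_append]
    rw [e, List.map_append]
    congr 1
    · have := ihl k pre ((r.lst []).map grpL ++ post) hk
      rw [← this, List.append_assoc]
    · have := ihr (k + l.sz) (pre ++ (l.lst []).map grpL) post
        (by rw [List.length_append, List.length_map, RS.lst_length, hk])
      rw [← this, List.append_assoc, List.append_assoc]

def chkA (rls : List RuleL) (G : List (List RuleL)) : List (List ℕ) → Bool :=
  @List.rec (List RuleL) (fun _ => List (List ℕ) → Bool)
    (fun g => @List.rec (List ℕ) (fun _ => Bool) true (fun _ _ _ => false) g)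
    (fun l _ ih g => @List.rec (List ℕ) (fun _ => Bool) false
      (fun i g' _ => and (chk1 rls l i) (ih g')) g) G

theorem chkA_eq {rls : List RuleL} : ∀ {G : List (List RuleL)} {g : List (List ℕ)},
    chkA rls G g = true → (∀ l ∈ G, l ≠ []) →
      G.map grpL = g.map (grp (rls.map RuleL.run)) := by
  intro G
  induction G with
  | nil =>
    intro g h _
    cases g with
    | nil => rfl
    | cons i g => exact absurd h (by simp [chkA])
  | cons l G ih =>
    intro g h hne
    cases g with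
    | nil => exact absurd h (by simp [chkA])
    | cons i g =>
      have h' : (and (chk1 rls l i) (chkA rls G g)) = true := h
      rw [Bool.and_eq_true] at h'
      rw [List.map_cons, List.map_cons, ih h'.2 (fun l hl => hne l (List.mem_cons_of_mem _ hl))]
      congr 1
      cases l with
      | nil => exact absurd rfl (hne [] List.mem_cons_self)
      | cons r l => exact (chk1_eq h'.1).symm

theorem RS.ne_nil : ∀ (t : RS), ∀ l ∈ t.lst [], l ≠ [] := by
  intro t
  induction t with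
  | lf r l =>
    intro a ha
    have : a = r :: l := by
      have ha' : a ∈ [r :: l] := ha
      simpa using ha'
    rw [this]
    simp
  | nd c l r ihl ihr =>
    intro a ha
    have ha' : a ∈ l.lst (r.lst []) := ha
    rw [RS.lst_append, List.mem_append] at ha'
    rcases ha' with ha' | ha'
    · exact ihl a ha'
    · exact ihr a ha'

theorem R_eq {t : RS} {rls : List RuleL} {grps : List (List ℕ)}
    (h : chkA rls (t.lst []) grps = true) :
    t.toRT = (t.toIT 0).runR (grps.map (grp (rls.map RuleL.run))) := by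
  have h1 := RS.run_eq t 0 [] [] rfl
  rw [List.nil_append, List.append_nil] at h1
  rw [← chkA_eq h t.ne_nil, h1]

end Pool.Agent.EdgeIso.Chk
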