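import Pool.Agent.Lib.MP_48c8f3_co.Bas
import Pool.Agent.Lib.MP_48c8f3_co.KGb
import Pool.Agent.Lib.MP_48c8f3_co.CellR

set_option autoImplicit false
set_option linter.unusedSectionVars false

/-!
MP_48c8f3_co: the rows of the octave arrays of edge form, in the normal form `Rows`.
-/

namespace Pool.Agent.EdgeIso.Chk

open Finset Pool.Agent.EdgeIso.Frame Pool.Agent.EdgeIso.Cell Pool.Agent.EdgeIso.Walsh
  Pool.Agent.EdgeIso.LemmaP

variable {α : Type*} [DecidableEq α]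

/-- twice the loss minus twice the number of edges of an initial segment, normalised in the octave of
`2 ^ R` -/
def gamL (R x : ℕ) (L : ℤ) : ℤ := L - 2 * g x + (R + 2) * x - 2 * 2 ^ R

/-- the row of an octave array of edge form -/
theorem irow_of_clU {μ ν c r t c' R k σ b : ℕ} {rs : ℕ → ℕ} {U : ℕ → ℕ → ℕ → ℕ → ℤ} {s : Finset α}
    {F : Finset (Finset α)} {V : ℕ} (hr : 0 < r) (hc : r * c' = t * c)
    (h : ClU μ ν c rs U R k s F V) (hx1 : 2 ^ R ≤ F.card) (hx2 : F.card ≤ 2 * 2 ^ R) {T : ℕ → ℤ}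
    (hT : ∀ i : ℕ, 2 ^ μ ≤ i → i ≤ 2 * 2 ^ μ →
      r * T i + t * U k σ i b + t * (2 * c * 2 ^ μ) ≤ t * (c * (ν + 2) * i)) :
    IRow c' (rs σ * c') μ b T R F.card V (gamL R F.card (L2 s F)) := by
  intro i g1 g2
  have hM : 0 < 2 ^ R := by positivity
  have hμ : 0 < 2 ^ μ := by positivity
  have e := h σ b
  rw [ev_eq (i := i) g1 g2 hM] at e
  obtain ⟨A, hA⟩ : ∃ A : ℤ, A = 2 ^ R * ((i : ℤ) + 1) - 2 ^ μ * (F.card : ℤ) := ⟨_, rfl⟩
  obtain ⟨B, hB⟩ : ∃ B : ℤ, B = 2 ^ μ * (F.card : ℤ) - 2 ^ R * i := ⟨_, rfl⟩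
  have z1 : (2 : ℤ) ^ R * i ≤ 2 ^ μ * F.card := by exact_mod_cast g1
  have z2 : (2 : ℤ) ^ μ * F.card ≤ 2 ^ R * ((i : ℤ) + 1) := by exact_mod_cast g2
  have hA0 : 0 ≤ A := by linarith
  have hB0 : 0 ≤ B := by linarith
  have hAB : A + B = 2 ^ R := by rw [hA, hB]; ring
  have hAX : A * i + B * (i + 1) = 2 ^ μ * F.card := by rw [hA, hB]; ring
  have y1 : 2 ^ R * 2 ^ μ ≤ 2 ^ μ * F.card := by
    rw [Nat.mul_comm]
    exact Nat.mul_le_mul_left _ hx1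
  have y2 : 2 ^ μ * F.card ≤ 2 ^ R * (2 * 2 ^ μ) := by
    calc 2 ^ μ * F.card ≤ 2 ^ μ * (2 * 2 ^ R) := Nat.mul_le_mul_left _ hx2
      _ = 2 ^ R * (2 * 2 ^ μ) := by ring
  have w1 : 2 ^ μ ≤ i + 1 := Nat.le_of_mul_le_mul_left (y1.trans g2) hM
  have w2 : i ≤ 2 * 2 ^ μ := Nat.le_of_mul_le_mul_left (g1.trans y2) hM
  have q1 : A * (r * T i + t * U k σ i b + t * (2 * c * 2 ^ μ)) ≤ A * (t * (c * (ν + 2) * i)) := by
    rcases Nat.lt_or_ge i (2 ^ μ) with h5 | h5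
    · have h6 : A = 0 := by
        have h7 : 2 ^ R * (i + 1) ≤ 2 ^ R * 2 ^ μ := Nat.mul_le_mul_left _ h5
        have h8 : 2 ^ R * (i + 1) ≤ 2 ^ μ * F.card := h7.trans y1
        have h9 : (2 : ℤ) ^ R * ((i : ℤ) + 1) ≤ 2 ^ μ * F.card := by exact_mod_cast h8
        linarith
      rw [h6, zero_mul, zero_mul]
    · exact mul_le_mul_of_nonneg_left (hT i h5 w2) hA0
  have q2 : B * (r * T (i + 1) + t * U k σ (i + 1) b + t * (2 * c * 2 ^ μ)) ≤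
      B * (t * (c * (ν + 2) * (i + 1))) := by
    rcases Nat.lt_or_ge i (2 * 2 ^ μ) with h5 | h5
    · have := hT (i + 1) w1 h5
      push_cast at this
      exact mul_le_mul_of_nonneg_left this hB0
    · have h6 : B = 0 := by
        have h7 : 2 ^ R * (2 * 2 ^ μ) ≤ 2 ^ R * i := Nat.mul_le_mul_left _ h5
        have h8 : 2 ^ μ * F.card ≤ 2 ^ R * i := y2.trans h7
        have h9 : (2 : ℤ) ^ μ * F.card ≤ 2 ^ R * i := by exact_mod_cast h8
        linarith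
      rw [h6, zero_mul, zero_mul]
  have he2 : (e2 s F : ℤ) = 2 * g F.card - L2 s F := by
    unfold L2
    ring
  have e1 : t * (c * 2 ^ μ * (e2 s F : ℤ)) ≤ t * (A * U k σ i b + B * U k σ (i + 1) b +
      c * ((R : ℤ) - ν) * (A * i + B * (i + 1)) +
      rs σ * c * max 0 ((2 : ℤ) ^ R * (2 * b) - 2 ^ μ * V)) := by
    apply mul_le_mul_of_nonneg_left _ (by positivity)
    refine e.trans (le_of_eq ?_)
    rw [hAX, hA, hB]
    push_cast
    ring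
  have hrz : (0 : ℤ) < r := by exact_mod_cast hr
  have hcz : (r : ℤ) * c' = t * c := by exact_mod_cast hc
  apply le_of_mul_le_mul_left _ hrz
  unfold gamL
  rw [← hA, ← hB]
  have e3 : (r : ℤ) * (c' * (2 ^ μ * (L2 s F - 2 * g F.card + (R + 2) * F.card - 2 * 2 ^ R)) +
      ((rs σ * c' : ℕ) : ℤ) * max 0 ((2 : ℤ) ^ R * (2 * b) - 2 ^ μ * V)) =
      (t * c) * (2 ^ μ * (- (e2 s F : ℤ)) + (R + 2) * (2 ^ μ * F.card) - 2 ^ μ * (2 * 2 ^ R)) +
      (t * c) * (rs σ * max 0 ((2 : ℤ) ^ R * (2 * b) - 2 ^ μ * V)) := by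
    rw [he2, ← hcz]
    push_cast
    ring
  rw [e3]
  clear e3
  generalize max 0 ((2 : ℤ) ^ R * (2 * b) - 2 ^ μ * V) = pen at *
  rw [← hAX, ← hAB]
  linarith

/-- the check of a table against an octave array: `M = 2 ^ μ`, `cn = c (ν + 2)`, `c2 = 2 c M` -/
def linkG (r t cn c2 M T W B : ℕ) (A : ℕ → ℕ → ℕ) : Bool :=
  Nat.blt T (2 ^ (24 * (B * W))) &&
    allB B (fun b => allB (M + 1) (fun j =>
      Nat.ble (Nat.add (Nat.mul r (tab T W b (Nat.add M j)))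
        (Nat.add (Nat.mul t (A (Nat.add M j) b)) (Nat.mul t c2)))
        (Nat.mul t (Nat.mul cn (Nat.add M j)))))

theorem linkG_lt {r t cn c2 M T W B : ℕ} {A : ℕ → ℕ → ℕ} (h : linkG r t cn c2 M T W B A = true) :
    T < 2 ^ (24 * (B * W)) := by
  unfold linkG at h
  rw [Bool.and_eq_true] at h
  have := h.1
  unfold Nat.blt at this
  exact Nat.le_of_ble_eq_true this

theorem linkG_spec {r t cn c2 M T W B : ℕ} {A : ℕ → ℕ → ℕ}
    (h : linkG r t cn c2 M T W B A = true) (b i : ℕ) (hb : b < B) (h1 : M ≤ i) (h2 : i ≤ 2 * M) :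
    r * tab T W b i + (t * A i b + t * c2) ≤ t * (cn * i) := by
  unfold linkG at h
  rw [Bool.and_eq_true] at h
  have h3 := allB_spec _ _ h.2 b hb
  have h4 := allB_spec _ _ h3 (i - M) (by omega)
  have h5 : Nat.add M (i - M) = i := by
    show M + (i - M) = i
    omega
  rw [h5] at h4
  exact Nat.le_of_ble_eq_true h4

theorem gamL_nonneg_of_irow {c' rc μ R x : ℕ} {T : ℕ → ℤ} {v L : ℤ} (hc : 0 < c') (hv : 0 ≤ v)
    (hT : ∀ i, 0 ≤ T i) (h : IRow c' rc μ 0 T R x v L) : 0 ≤ L := by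
  have hM : 0 < 2 ^ R := by positivity
  have g1 : 2 ^ R * (2 ^ μ * x / 2 ^ R) ≤ 2 ^ μ * x := Nat.mul_div_le _ _
  have g2 : 2 ^ μ * x ≤ 2 ^ R * (2 ^ μ * x / 2 ^ R + 1) := by
    have := Nat.div_add_mod (2 ^ μ * x) (2 ^ R)
    have h3 := Nat.mod_lt (2 ^ μ * x) hM
    rw [Nat.mul_add]
    omega
  have h1 := h _ g1 g2
  have z1 : (2 : ℤ) ^ R * (2 ^ μ * x / 2 ^ R : ℕ) ≤ 2 ^ μ * x := by exact_mod_cast g1
  have z2 : (2 : ℤ) ^ μ * x ≤ 2 ^ R * (((2 ^ μ * x / 2 ^ R : ℕ) : ℤ) + 1) := by exact_mod_cast g2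
  have a1 := mul_nonneg (by linarith : (0 : ℤ) ≤
    2 ^ R * (((2 ^ μ * x / 2 ^ R : ℕ) : ℤ) + 1) - 2 ^ μ * x) (hT (2 ^ μ * x / 2 ^ R))
  have a2 := mul_nonneg (by linarith : (0 : ℤ) ≤
    2 ^ μ * x - 2 ^ R * ((2 ^ μ * x / 2 ^ R : ℕ) : ℤ)) (hT (2 ^ μ * x / 2 ^ R + 1))
  have h3 : max (0 : ℤ) (2 ^ R * (2 * (0 : ℕ)) - 2 ^ μ * v) = 0 := by
    apply max_eq_left
    have : (0 : ℤ) ≤ 2 ^ μ * v := by positivity
    push_cast
    linarith
  rw [h3, mul_zero, add_zero] at h1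
  have h4 : (0 : ℤ) ≤ (c' * 2 ^ μ) * L := by linarith
  have h5 : (0 : ℤ) < c' * 2 ^ μ := by positivity
  exact nonneg_of_mul_nonneg_right h4 h5

/-- the rows of a table below an octave array, for the levels `k` with `P k` -/
theorem rows_of_octE {μ ν c r t c' T W B σ : ℕ} {rs : ℕ → ℕ} {U L : ℕ → ℕ → ℕ → ℕ → ℕ}
    (h : OctE μ ν c rs (fun k σ i β => (U k σ i β : ℤ)) (fun k σ i β => (L k σ i β : ℤ)))
    (h1 : ∀ k σ, ∀ β : ℕ, 1 ≤ k → c * ν * 2 ^ μ ≤ U k σ (2 ^ μ) β + rs σ * c * (2 * β))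
    (hr : 0 < r) (hc' : 0 < c') (hB : 0 < B) (hc : r * c' = t * c) {P : ℕ → Prop}
    (hP : ∀ k, P k → 1 ≤ k)
    (hl : ∀ k, P k → linkG r t (c * (ν + 2)) (2 * c * 2 ^ μ) (2 ^ μ) T W B (U k σ) = true) :
    LBnd α (fun N x v L => ∀ R k, N = R + k → P k → 0 ≤ v → 2 ^ R ≤ x → x ≤ 2 * 2 ^ R →
      Rows c' (rs σ * c') μ T W R x v (gamL R x L)) := by
  intro s X hX v hv hvx R k hN hk h0 hx1 hx2
  obtain ⟨V, rfl⟩ := Int.eq_ofNat_of_zero_le h0
  have hH : Hf s X V := by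
    intro a ha b'
    have := hv a ha b'
    exact_mod_cast this
  have hVx : V ≤ X.card := by exact_mod_cast hvx
  have hcl : ClU μ ν c rs (fun k σ i β => (U k σ i β : ℤ)) R k s X V := by
    rcases hx1.lt_or_eq with h2 | h2
    · exact (h.bound (R + k) R k rfl (hP k hk) s X hN hX hx2 V hH hVx).2 h2
    · refine h.boundU ?_ (R + k) R k rfl (hP k hk) s X hN hX h2.symm V hH hVx
      intro k σ β hk
      have := h1 k σ β hk
      exact_mod_cast this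
  have hrow : ∀ b, b < B → IRow c' (rs σ * c') μ b (fun i => (tab T W b i : ℤ)) R X.card V
      (gamL R X.card (L2 s X)) := by
    intro b hb
    refine irow_of_clU hr hc hcl hx1 hx2 ?_
    intro i i1 i2
    have h3 := linkG_spec (hl k hk) b i hb i1 i2
    have h4 : ((r * tab T W b i + (t * U k σ i b + t * (2 * c * 2 ^ μ)) : ℕ) : ℤ) ≤
        ((t * (c * (ν + 2) * i) : ℕ) : ℤ) := by exact_mod_cast h3
    push_cast at h4 ⊢
    linarith
  intro b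
  rcases Nat.lt_or_ge b B with hb | hb
  · exact hrow b hb
  · refine irow_zero ?_ (fun i => ?_)
    · exact gamL_nonneg_of_irow hc' h0 (fun i => by positivity) (hrow 0 hB)
    · rw [tab_zero (linkG_lt (hl k hk)) hb]
      rfl

/-- scaling of a row -/
theorem IRow.scale {c rc γ b N x : ℕ} {T : ℕ → ℤ} {v L : ℤ} (h : IRow c rc γ b T N x v L) (e : ℕ) :
    IRow c rc γ b T (N + e) (2 ^ e * x) (2 ^ e * v) (2 ^ e * L) := by
  intro i g1 g2
  have he : 0 < 2 ^ e := by positivity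
  have k1 : 2 ^ N * i ≤ 2 ^ γ * x := by
    apply Nat.le_of_mul_le_mul_left _ he
    calc 2 ^ e * (2 ^ N * i) = 2 ^ (N + e) * i := by ring
      _ ≤ 2 ^ γ * (2 ^ e * x) := g1
      _ = 2 ^ e * (2 ^ γ * x) := by ring
  have k2 : 2 ^ γ * x ≤ 2 ^ N * (i + 1) := by
    apply Nat.le_of_mul_le_mul_left _ he
    calc 2 ^ e * (2 ^ γ * x) = 2 ^ γ * (2 ^ e * x) := by ring
      _ ≤ 2 ^ (N + e) * (i + 1) := g2
      _ = 2 ^ e * (2 ^ N * (i + 1)) := by ring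
  have h1 := mul_le_mul_of_nonneg_left (h i k1 k2) (by positivity : (0 : ℤ) ≤ 2 ^ e)
  have h2 : max (0 : ℤ) (2 ^ (N + e) * (2 * b) - 2 ^ γ * (2 ^ e * v)) =
      2 ^ e * max 0 (2 ^ N * (2 * b) - 2 ^ γ * v) := by
    rw [mul_max_of_nonneg _ _ (by positivity : (0 : ℤ) ≤ 2 ^ e), mul_zero, pow_add]
    congr 1
    ring
  rw [h2]
  push_cast at h1 ⊢
  rw [pow_add]
  linarith

theorem Rows.scale {c rc γ T W N x : ℕ} {v L : ℤ} (h : Rows c rc γ T W N x v L) (e : ℕ) :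
    Rows c rc γ T W (N + e) (2 ^ e * x) (2 ^ e * v) (2 ^ e * L) := fun b => (h b).scale e

end Pool.Agent.EdgeIso.Chk
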