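import Pool.Agent.Lib.MP_48c8f3_co.Bas
import Pool.Agent.Lib.MP_48c8f3_co.LPa

set_option autoImplicit false

/-!
MP_48c8f3_co, the near lemma for the roomy levels, part A: the finite check.

A point is `(b₁, b₂, b₃, b₄)`, the prefix sums of the sizes `P₃, w, a, q`. A cell is given by the
floors of the prefix sums and by the order of the remainders.
-/

namespace Pool.Agent.EdgeIso.RNear

open Pool.Agent.EdgeIso.Frame Pool.Agent.EdgeIso.Cell Pool.Agent.EdgeIso.LemmaP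

/-- the criterion `(x, z, l, μ)` at a lattice point: twice
`2 D₁ + 2 x D₂ + 2 z D₃ - q - x a - z w ≥ (l / 2) (2 a - q) + (μ / 2) (2 w - a)` -/
def cr (x z l μ b1 b2 b3 b4 : ℕ) : Bool :=
  !(Nat.ble b1 b2 && Nat.ble b2 b3 && Nat.ble b3 b4) ||
  Nat.ble (2 * (b4 - b3) + 2 * x * (b3 - b2) + 2 * z * (b2 - b1) + 2 * l * (b3 - b2) +
      2 * μ * (b2 - b1))
    (4 * dgN b3 (b4 - b3) + 4 * x * dgN b2 (b3 - b2) + 4 * z * dgN b1 (b2 - b1) +
      l * (b4 - b3) + μ * (b3 - b2))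

/-- far criterion: `2 (m - M) ≥ 3 q` -/
def cf (M b3 b4 : ℕ) : Bool := Nat.ble (3 * (b4 - b3) + 2 * M) (2 * b4) && Nat.ble b3 b4

/-- order of two offsets -/
def od (o : Bool) (e e' : ℕ) : Bool := bif o then Nat.ble e e' else Nat.ble e' e

/-- `f` holds at all corners -/
def corners (b1 b2 b3 b4 : ℕ) (o12 o13 o14 o23 o24 o34 : Bool) (f : ℕ → ℕ → ℕ → ℕ → Bool) : Bool :=
  [0, 1].all fun e1 => [0, 1].all fun e2 => !od o12 e1 e2 ||
    [0, 1].all fun e3 => !(od o13 e1 e3 && od o23 e2 e3) ||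
      [0, 1].all fun e4 => !(od o14 e1 e4 && od o24 e2 e4 && od o34 e3 e4) ||
        f (b1 + e1) (b2 + e2) (b3 + e3) (b4 + e4)

/-- the check of a cell -/
def cellC (M b1 b2 b3 b4 : ℕ) (o12 o13 o14 o23 o24 o34 : Bool) : Bool :=
  corners b1 b2 b3 b4 o12 o13 o14 o23 o24 o34 (cr 1 1 0 0) ||
  corners b1 b2 b3 b4 o12 o13 o14 o23 o24 o34 (cr 1 0 0 0) ||
  corners b1 b2 b3 b4 o12 o13 o14 o23 o24 o34 (cr 0 0 2 0) ||
  corners b1 b2 b3 b4 o12 o13 o14 o23 o24 o34 (cr 1 1 0 2) ||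
  corners b1 b2 b3 b4 o12 o13 o14 o23 o24 o34 (cr 1 1 2 3) ||
  corners b1 b2 b3 b4 o12 o13 o14 o23 o24 o34 (fun _ _ x3 x4 => cf M x3 x4)

/-- the two cells which need a finer lattice -/
def spec (b1 b2 b3 b4 : ℕ) : Bool :=
  Nat.beq b1 7 && Nat.beq b2 8 && Nat.beq b3 8 && Nat.ble b4 9

/-- all floors of the sizes are zero -/
def zero3 (d1 d2 d3 : ℕ) (o12 o23 o34 : Bool) : Bool :=
  (Nat.beq d1 0 || (Nat.beq d1 1 && !o12)) && (Nat.beq d2 0 || (Nat.beq d2 1 && !o23)) &&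
    (Nat.beq d3 0 || (Nat.beq d3 1 && !o34))

/-- the size is nonnegative and less than `n` units -/
def ltn (n d : ℕ) (o : Bool) : Bool := (Nat.ble 1 d || o) && (Nat.ble (d + 1) n || (Nat.beq d n && !o))

def bb : List Bool := [true, false]

/-- the check at eight points per unit -/
def chk8 : Bool :=
  [8, 9, 10, 11, 12, 13, 14, 15, 16].all fun b4 => [0, 1, 2].all fun d3 => [0, 1, 2].all fun d2 =>
    [0, 1, 2].all fun d1 => bb.all fun o12 => bb.all fun o13 => bb.all fun o14 =>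
      bb.all fun o23 => bb.all fun o24 => bb.all fun o34 =>
        !(ltn 2 d1 o12 && ltn 2 d2 o23 && ltn 2 d3 o34) || zero3 d1 d2 d3 o12 o23 o34 ||
          spec (b4 - d3 - d2 - d1) (b4 - d3 - d2) (b4 - d3) b4 ||
          cellC 8 (b4 - d3 - d2 - d1) (b4 - d3 - d2) (b4 - d3) b4 o12 o13 o14 o23 o24 o34

theorem chk8_true : chk8 = true := by decide +kernel

/-- the check at sixteen points per unit near the exceptional cells -/
def chk16 : Bool :=
  [14, 15].all fun b1 => [16, 17].all fun b2 => [16, 17].all fun b3 => [16, 17, 18, 19].all fun b4 =>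
    bb.all fun o12 => bb.all fun o13 => bb.all fun o14 =>
      bb.all fun o23 => bb.all fun o24 => bb.all fun o34 =>
        !(Nat.ble b2 b3 && Nat.ble b3 b4 && ltn 4 (b4 - b3) o34 && ltn 4 (b3 - b2) o23 &&
          ltn 4 (b2 - b1) o12) ||
          (ltn 2 (b4 - b3) o34 && ltn 2 (b3 - b2) o23 && ltn 2 (b2 - b1) o12) ||
          cellC 16 b1 b2 b3 b4 o12 o13 o14 o23 o24 o34

theorem chk16_true : chk16 = true := by decide +kernel

end Pool.Agent.EdgeIso.RNear
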