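import Pool.Agent.Lib.MP_48c8f3_co.Bas
import Pool.Agent.Lib.MP_48c8f3_co.LPb
import Pool.Agent.Lib.MP_48c8f3_co.RNa

set_option autoImplicit false

/-!
MP_48c8f3_co, the near lemma for the roomy levels, part B: from the corners of a cell to all its
points.
-/

namespace Pool.Agent.EdgeIso.RNear

open Pool.Agent.EdgeIso.Frame Pool.Agent.EdgeIso.Cell Pool.Agent.EdgeIso.LemmaP

/-- the prefix sums -/
def pt4 (P w a q : ℕ) (j : ℕ) : ℕ :=
  if j = 0 then 0 else if j = 1 then P else if j = 2 then P + w else if j = 3 then P + w + a else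
    P + w + a + q

theorem pt4_mono (P w a q : ℕ) : Monotone (pt4 P w a q) := by
  apply monotone_nat_of_le_succ
  intro j
  unfold pt4
  rcases j with _ | _ | _ | _ | j
  · simp
  · simp
  · simp
  · simp
  · simp

/-- the order of the remainders of two prefix sums -/
def Ord (o : Bool) (i j bi bj : ℕ) (k : ℕ) (S : ℕ → ℕ) : Prop :=
  match o with
  | true => (S i : ℤ) + ((bj : ℤ) - bi) * 2 ^ k ≤ S j
  | false => (S j : ℤ) + ((bi : ℤ) - bj) * 2 ^ k ≤ S i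

theorem ord_cl (o : Bool) (i j bi bj : ℕ) : Cl (Ord o i j bi bj) := by
  cases o
  · exact Cl.ge j i ((bi : ℤ) - bj)
  · exact Cl.ge i j ((bj : ℤ) - bi)

/-- the floor of a prefix sum -/
def Fl (i bi : ℕ) (k : ℕ) (S : ℕ → ℕ) : Prop :=
  (S 0 : ℤ) + (bi : ℤ) * 2 ^ k ≤ S i ∧ (S i : ℤ) + (-(bi + 1) : ℤ) * 2 ^ k ≤ S 0

theorem fl_cl (i bi : ℕ) : Cl (Fl i bi) := (Cl.ge 0 i (bi : ℤ)).and (Cl.ge i 0 (-(bi + 1) : ℤ))

/-- a cell -/
def InC (b1 b2 b3 b4 : ℕ) (o12 o13 o14 o23 o24 o34 : Bool) (k : ℕ) (S : ℕ → ℕ) : Prop :=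
  (((Fl 1 b1 k S ∧ Fl 2 b2 k S) ∧ (Fl 3 b3 k S ∧ Fl 4 b4 k S)) ∧
    ((Ord o12 1 2 b1 b2 k S ∧ Ord o13 1 3 b1 b3 k S) ∧
      (Ord o14 1 4 b1 b4 k S ∧ Ord o23 2 3 b2 b3 k S))) ∧
    (Ord o24 2 4 b2 b4 k S ∧ Ord o34 3 4 b3 b4 k S)

theorem inC_cl (b1 b2 b3 b4 : ℕ) (o12 o13 o14 o23 o24 o34 : Bool) :
    Cl (InC b1 b2 b3 b4 o12 o13 o14 o23 o24 o34) :=
  ((((fl_cl 1 b1).and (fl_cl 2 b2)).and ((fl_cl 3 b3).and (fl_cl 4 b4))).and
    (((ord_cl o12 1 2 b1 b2).and (ord_cl o13 1 3 b1 b3)).and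
      ((ord_cl o14 1 4 b1 b4).and (ord_cl o23 2 3 b2 b3)))).and
    ((ord_cl o24 2 4 b2 b4).and (ord_cl o34 3 4 b3 b4))

theorem ord_base {o : Bool} {i j bi bj ei ej : ℕ} {S : ℕ → ℕ} (h : Ord o i j bi bj 0 S)
    (hi : S i = S 0 + bi + ei) (hj : S j = S 0 + bj + ej) : od o ei ej = true := by
  unfold Ord at h
  unfold od
  cases o
  · simp only [pow_zero, mul_one, hi, hj] at h
    simp only [cond_false, Nat.ble_eq]
    push_cast at h
    omega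
  · simp only [pow_zero, mul_one, hi, hj] at h
    simp only [cond_true, Nat.ble_eq]
    push_cast at h
    omega

theorem fl_base {i bi : ℕ} {S : ℕ → ℕ} (h : Fl i bi 0 S) :
    ∃ e, (e = 0 ∨ e = 1) ∧ S i = S 0 + bi + e := by
  unfold Fl at h
  simp only [pow_zero, mul_one] at h
  exact ⟨S i - S 0 - bi, by omega, by omega⟩

theorem corners_spec {b1 b2 b3 b4 : ℕ} {o12 o13 o14 o23 o24 o34 : Bool}
    {f : ℕ → ℕ → ℕ → ℕ → Bool} (h : corners b1 b2 b3 b4 o12 o13 o14 o23 o24 o34 f = true)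
    {S : ℕ → ℕ} (hS : InC b1 b2 b3 b4 o12 o13 o14 o23 o24 o34 0 S) :
    ∃ x1 x2 x3 x4, S 1 = S 0 + x1 ∧ S 2 = S 0 + x2 ∧ S 3 = S 0 + x3 ∧ S 4 = S 0 + x4 ∧
      x1 ≤ b1 + 1 ∧ x2 ≤ b2 + 1 ∧ x3 ≤ b3 + 1 ∧ x4 ≤ b4 + 1 ∧ f x1 x2 x3 x4 = true := by
  obtain ⟨⟨⟨⟨f1, f2⟩, f3, f4⟩, ⟨⟨h12, h13⟩, h14, h23⟩⟩, h24, h34⟩ := hS
  obtain ⟨e1, m1, E1⟩ := fl_base f1
  obtain ⟨e2, m2, E2⟩ := fl_base f2
  obtain ⟨e3, m3, E3⟩ := fl_base f3
  obtain ⟨e4, m4, E4⟩ := fl_base f4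
  have c12 := ord_base h12 E1 E2
  have c13 := ord_base h13 E1 E3
  have c14 := ord_base h14 E1 E4
  have c23 := ord_base h23 E2 E3
  have c24 := ord_base h24 E2 E4
  have c34 := ord_base h34 E3 E4
  refine ⟨b1 + e1, b2 + e2, b3 + e3, b4 + e4, by omega, by omega, by omega, by omega, by omega,
    by omega, by omega, by omega, ?_⟩
  unfold corners at h
  have n1 : e1 ∈ [0, 1] := by simp [m1]
  have n2 : e2 ∈ [0, 1] := by simp [m2]
  have n3 : e3 ∈ [0, 1] := by simp [m3]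
  have n4 : e4 ∈ [0, 1] := by simp [m4]
  have a1 := List.all_eq_true.mp h e1 n1
  have a2 := List.all_eq_true.mp a1 e2 n2
  rw [c12, Bool.not_true, Bool.false_or] at a2
  have a3 := List.all_eq_true.mp a2 e3 n3
  rw [c13, c23, Bool.and_true, Bool.not_true, Bool.false_or] at a3
  have a4 := List.all_eq_true.mp a3 e4 n4
  rw [c14, c24, c34, Bool.and_true, Bool.and_true, Bool.not_true, Bool.false_or] at a4
  exact a4

/-- the functional -/
def phiR (x z l μ : ℕ) (_ : ℕ) (S : ℕ → ℕ) : ℤ :=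
  4 * dg (S 3 - S 0) (S 4 - S 3) + (((4 * x : ℕ) : ℤ) * dg (S 2 - S 0) (S 3 - S 2) +
    (((4 * z : ℕ) : ℤ) * dg (S 1 - S 0) (S 2 - S 1) +
      (((l : ℤ) - 2) * (S 4 : ℤ) + ((2 - (l : ℤ) + (μ - 2 * l - 2 * x)) * (S 3 : ℤ) +
        ((-(μ - 2 * l - 2 * x : ℤ) + (-2 * μ - 2 * z)) * (S 2 : ℤ) +
          (2 * (μ : ℤ) + 2 * z) * (S 1 : ℤ))))))

theorem phiR_sa (x z l μ : ℕ) : SA (phiR x z l μ) := by
  have h := ((SA.dg 0 3 4 (by norm_num) (by norm_num)).mul (c := 4) (by norm_num)).add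
    (((SA.dg 0 2 3 (by norm_num) (by norm_num)).mul (c := ((4 * x : ℕ) : ℤ)) (by positivity)).add
      (((SA.dg 0 1 2 (by norm_num) (by norm_num)).mul (c := ((4 * z : ℕ) : ℤ)) (by positivity)).add
        ((SA.coord 4 ((l : ℤ) - 2)).add
          ((SA.coord 3 (2 - (l : ℤ) + (μ - 2 * l - 2 * x))).add
            ((SA.coord 2 (-(μ - 2 * l - 2 * x : ℤ) + (-2 * μ - 2 * z))).add
              (SA.coord 1 (2 * (μ : ℤ) + 2 * z)))))))
  exact h

def phiF (M : ℕ) (k : ℕ) (S : ℕ → ℕ) : ℤ :=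
  3 * (S 3 : ℤ) + ((-1 : ℤ) * (S 4 : ℤ) + ((-2 : ℤ) * (S 0 : ℤ) + (-2 * (M : ℤ)) * 2 ^ k))

theorem phiF_sa (M : ℕ) : SA (phiF M) := by
  have h := (SA.coord 3 3).add ((SA.coord 4 (-1)).add ((SA.coord 0 (-2)).add
    (SA.const (-2 * (M : ℤ)))))
  exact h

theorem cell_R {x z l μ b1 b2 b3 b4 : ℕ} {o12 o13 o14 o23 o24 o34 : Bool} (hb : b4 ≤ 19)
    (h : corners b1 b2 b3 b4 o12 o13 o14 o23 o24 o34 (cr x z l μ) = true) :
    ∀ k S, Monotone S → InC b1 b2 b3 b4 o12 o13 o14 o23 o24 o34 k S → 0 ≤ phiR x z l μ k S := by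
  apply cell (phiR_sa x z l μ) (inC_cl b1 b2 b3 b4 o12 o13 o14 o23 o24 o34)
  intro S hS hk
  obtain ⟨x1, x2, x3, x4, E1, E2, E3, E4, u1, u2, u3, u4, hc⟩ := corners_spec h hk
  have h12 : S 1 ≤ S 2 := hS (by norm_num)
  have h23 : S 2 ≤ S 3 := hS (by norm_num)
  have h34 : S 3 ≤ S 4 := hS (by norm_num)
  unfold cr at hc
  have k1 : Nat.ble x1 x2 = true := by rw [Nat.ble_eq]; omega
  have k2 : Nat.ble x2 x3 = true := by rw [Nat.ble_eq]; omega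
  have k3 : Nat.ble x3 x4 = true := by rw [Nat.ble_eq]; omega
  rw [k1, k2, k3] at hc
  simp only [Bool.and_true, Bool.not_true, Bool.false_or, Nat.ble_eq] at hc
  have d1 := dgN_eq x3 (x4 - x3) (by omega)
  have d2 := dgN_eq x2 (x3 - x2) (by omega)
  have d3 := dgN_eq x1 (x2 - x1) (by omega)
  have g1 : S 3 - S 0 = x3 := by omega
  have g2 : S 4 - S 3 = x4 - x3 := by omega
  have g3 : S 2 - S 0 = x2 := by omega
  have g4 : S 3 - S 2 = x3 - x2 := by omega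
  have g5 : S 1 - S 0 = x1 := by omega
  have g6 : S 2 - S 1 = x2 - x1 := by omega
  unfold phiR
  rw [g1, g2, g3, g4, g5, g6, ← d1, ← d2, ← d3]
  obtain ⟨q, hq⟩ : ∃ q, x4 - x3 = q := ⟨_, rfl⟩
  obtain ⟨a, ha⟩ : ∃ a, x3 - x2 = a := ⟨_, rfl⟩
  obtain ⟨w, hw⟩ : ∃ w, x2 - x1 = w := ⟨_, rfl⟩
  rw [hq, ha, hw] at hc ⊢
  have y1 : (S 2 : ℤ) = S 1 + w := by omega
  have y2 : (S 3 : ℤ) = S 1 + w + a := by omega
  have y3 : (S 4 : ℤ) = S 1 + w + a + q := by omega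
  rw [y1, y2, y3]
  have hz : ((2 * q + 2 * x * a + 2 * z * w + 2 * l * a + 2 * μ * w : ℕ) : ℤ) ≤
      ((4 * dgN x3 q + 4 * x * dgN x2 a + 4 * z * dgN x1 w + l * q + μ * a : ℕ) : ℤ) := by
    exact_mod_cast hc
  push_cast at hz ⊢
  linarith

theorem cell_F {M b1 b2 b3 b4 : ℕ} {o12 o13 o14 o23 o24 o34 : Bool}
    (h : corners b1 b2 b3 b4 o12 o13 o14 o23 o24 o34 (fun _ _ x3 x4 => cf M x3 x4) = true) :
    ∀ k S, Monotone S → InC b1 b2 b3 b4 o12 o13 o14 o23 o24 o34 k S → 0 ≤ phiF M k S := by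
  apply cell (phiF_sa M) (inC_cl b1 b2 b3 b4 o12 o13 o14 o23 o24 o34)
  intro S hS hk
  obtain ⟨x1, x2, x3, x4, E1, E2, E3, E4, u1, u2, u3, u4, hc⟩ := corners_spec h hk
  have h34 : S 3 ≤ S 4 := hS (by norm_num)
  unfold cf at hc
  simp only [Bool.and_eq_true, Nat.ble_eq] at hc
  unfold phiF
  have y2 : (S 3 : ℤ) = S 0 + x3 := by omega
  have y3 : (S 4 : ℤ) = S 0 + x4 := by omega
  rw [y2, y3, pow_zero]
  omega

/-- the conclusion: one of three deletions is good -/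
def GoodR (P w a q f f2 : ℕ) : Prop :=
  (q : ℤ) ≤ 2 * dg (P + w + a) q + 2 * f ∨
    (q : ℤ) + a ≤ 2 * dg (P + w + a) q + 2 * dg (P + w) a + 2 * f + 2 * f2 ∨
    (q : ℤ) + a + w ≤ 2 * dg (P + w + a) q + 2 * dg (P + w) a + 2 * dg P w + 2 * f + 2 * f2

theorem mult_aux {l : ℕ} (hl : l ≤ 4) {x y : ℤ} {f : ℕ} (h : x ≤ 2 * y + f) :
    (l : ℤ) * (x - 2 * y) ≤ 4 * f := by
  have hlz : (l : ℤ) ≤ 4 := by exact_mod_cast hl
  have hl0 : (0 : ℤ) ≤ l := by positivity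
  have hf0 : (0 : ℤ) ≤ f := by positivity
  nlinarith

theorem good_of_phiR {x z l μ : ℕ} (hxz : (x = 0 ∧ z = 0) ∨ (x = 1 ∧ z = 0) ∨ (x = 1 ∧ z = 1))
    (hl : l ≤ 4) (hμ : μ ≤ 4) (hμx : x = 0 → μ = 0) {k P w a q f f2 : ℕ}
    (h : 0 ≤ phiR x z l μ k (pt4 P w a q)) (hf : q ≤ 2 * a + f) (hf2 : a ≤ 2 * w + f2) :
    GoodR P w a q f f2 := by
  have e1 : pt4 P w a q 1 = P := rfl
  have e2 : pt4 P w a q 2 = P + w := rfl
  have e3 : pt4 P w a q 3 = P + w + a := rfl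
  have e4 : pt4 P w a q 4 = P + w + a + q := rfl
  have e0 : pt4 P w a q 0 = 0 := rfl
  unfold phiR at h
  rw [e0, e1, e2, e3, e4] at h
  have g1 : P + w + a - 0 = P + w + a := rfl
  have g2 : P + w + a + q - (P + w + a) = q := by omega
  have g3 : P + w - 0 = P + w := rfl
  have g4 : P + w + a - (P + w) = a := by omega
  have g5 : P - 0 = P := rfl
  have g6 : P + w - P = w := by omega
  rw [g1, g2, g3, g4, g5, g6] at h
  have m1 := mult_aux hl (x := (q : ℤ)) (y := a) (f := f) (by exact_mod_cast hf)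
  have m2 := mult_aux hμ (x := (a : ℤ)) (y := w) (f := f2) (by exact_mod_cast hf2)
  unfold GoodR
  rcases hxz with ⟨hx, hz⟩ | ⟨hx, hz⟩ | ⟨hx, hz⟩
  · have := hμx hx
    subst this hx hz
    left
    push_cast at h m2
    linarith
  · subst hx hz
    right; left
    push_cast at h
    linarith
  · subst hx hz
    right; right
    push_cast at h
    linarith

/-- the far criterion -/
theorem good_far {n P w a q f f2 : ℕ} (hm2 : P + w + a + q ≤ 2 * 2 ^ n)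
    (h : 2 * 2 ^ n + 3 * q ≤ 2 * (P + w + a + q)) : GoodR P w a q f f2 := by
  left
  obtain ⟨r, hr⟩ : ∃ r, P + w + a = 2 ^ n + r := ⟨P + w + a - 2 ^ n, by omega⟩
  have h1 := g_pow_add n r (by omega)
  have h2 := g_pow_add n (r + q) (by omega)
  have h3 := g_add r q
  rw [hr]
  unfold dg
  rw [Nat.add_assoc, h2, h1]
  have h4 : min (((2 ^ n + r : ℕ) : ℤ)) (q : ℤ) ≤ q := min_le_right _ _
  have h5 : (q : ℤ) ≤ 2 * (g (r + q) - g r - g q) := by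
    have : q ≤ 2 * min r q := by omega
    omega
  push_cast at h4 ⊢
  have h6 : (0 : ℤ) ≤ f := by positivity
  linarith

theorem good_of_cellC {M b1 b2 b3 b4 : ℕ} {o12 o13 o14 o23 o24 o34 : Bool} (hb : b4 ≤ 19)
    (h : cellC M b1 b2 b3 b4 o12 o13 o14 o23 o24 o34 = true) {n k P w a q f f2 : ℕ}
    (hn : 2 ^ n = M * 2 ^ k) (hm2 : P + w + a + q ≤ 2 * 2 ^ n)
    (hc : InC b1 b2 b3 b4 o12 o13 o14 o23 o24 o34 k (pt4 P w a q))
    (hf : q ≤ 2 * a + f) (hf2 : a ≤ 2 * w + f2) : GoodR P w a q f f2 := by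
  unfold cellC at h
  simp only [Bool.or_eq_true] at h
  rcases h with ((((h | h) | h) | h) | h) | h
  · exact good_of_phiR (by simp) (by norm_num) (by norm_num) (by simp)
      (cell_R hb h k _ (pt4_mono P w a q) hc) hf hf2
  · exact good_of_phiR (by simp) (by norm_num) (by norm_num) (by simp)
      (cell_R hb h k _ (pt4_mono P w a q) hc) hf hf2
  · exact good_of_phiR (by simp) (by norm_num) (by norm_num) (by simp)
      (cell_R hb h k _ (pt4_mono P w a q) hc) hf hf2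
  · exact good_of_phiR (by simp) (by norm_num) (by norm_num) (by simp)
      (cell_R hb h k _ (pt4_mono P w a q) hc) hf hf2
  · exact good_of_phiR (by simp) (by norm_num) (by norm_num) (by simp)
      (cell_R hb h k _ (pt4_mono P w a q) hc) hf hf2
  · have h1 := cell_F h k _ (pt4_mono P w a q) hc
    have e0 : pt4 P w a q 0 = 0 := rfl
    have e3 : pt4 P w a q 3 = P + w + a := rfl
    have e4 : pt4 P w a q 4 = P + w + a + q := rfl
    unfold phiF at h1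
    rw [e0, e3, e4] at h1
    apply good_far hm2
    have hnz : ((2 : ℤ)) ^ n = M * 2 ^ k := by exact_mod_cast hn
    zify
    rw [hnz]
    push_cast at h1
    linarith

end Pool.Agent.EdgeIso.RNear
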