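import Pool.Agent.Lib.MP_48c8f3_co.Bas
import Pool.Agent.Lib.MP_48c8f3_co.RNb
import Pool.Agent.Lib.MP_48c8f3_co.FS

set_option autoImplicit false

/-!
MP_48c8f3_co, the near lemma for the roomy levels, part C: all scales, and its consequence for the
chain of three nodes.
-/

namespace Pool.Agent.EdgeIso.RNear

open Pool.Agent.EdgeIso.Frame Pool.Agent.EdgeIso.Cell Pool.Agent.EdgeIso.LemmaP

/-! ### the cell of a point -/

theorem div_mod_z (u x : ℕ) : (x : ℤ) = u * ((x / u : ℕ) : ℤ) + ((x % u : ℕ) : ℤ) := by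
  exact_mod_cast (Nat.div_add_mod x u).symm

theorem ord_self {k i j : ℕ} {S : ℕ → ℕ} :
    Ord (decide (S i % 2 ^ k ≤ S j % 2 ^ k)) i j (S i / 2 ^ k) (S j / 2 ^ k) k S := by
  have h1 := div_mod_z (2 ^ k) (S i)
  have h2 := div_mod_z (2 ^ k) (S j)
  have hp : (((2 ^ k : ℕ)) : ℤ) = 2 ^ k := by push_cast; rfl
  rw [hp] at h1 h2
  unfold Ord
  by_cases h : S i % 2 ^ k ≤ S j % 2 ^ k
  · have hz : ((S i % 2 ^ k : ℕ) : ℤ) ≤ ((S j % 2 ^ k : ℕ) : ℤ) := by exact_mod_cast h
    rw [decide_eq_true h]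
    simp only
    rw [sub_mul]
    linarith
  · have hz : ((S j % 2 ^ k : ℕ) : ℤ) ≤ ((S i % 2 ^ k : ℕ) : ℤ) := by
      exact_mod_cast (not_le.mp h).le
    rw [decide_eq_false h]
    simp only
    rw [sub_mul]
    linarith

theorem fl_self {k i : ℕ} {S : ℕ → ℕ} (h0 : S 0 = 0) : Fl i (S i / 2 ^ k) k S := by
  have h1 := div_mod_z (2 ^ k) (S i)
  have hp : (((2 ^ k : ℕ)) : ℤ) = 2 ^ k := by push_cast; rfl
  rw [hp] at h1
  have h2 : ((S i % 2 ^ k : ℕ) : ℤ) < 2 ^ k := by
    exact_mod_cast Nat.mod_lt (S i) (Nat.pow_pos (by norm_num : 0 < 2))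
  have h3 : (0 : ℤ) ≤ ((S i % 2 ^ k : ℕ) : ℤ) := by positivity
  unfold Fl
  rw [h0]
  push_cast at h1 h2 h3 ⊢
  constructor
  · linarith
  · linarith

theorem inC_self (k P w a q : ℕ) :
    InC (P / 2 ^ k) ((P + w) / 2 ^ k) ((P + w + a) / 2 ^ k) ((P + w + a + q) / 2 ^ k)
      (decide (P % 2 ^ k ≤ (P + w) % 2 ^ k)) (decide (P % 2 ^ k ≤ (P + w + a) % 2 ^ k))
      (decide (P % 2 ^ k ≤ (P + w + a + q) % 2 ^ k))
      (decide ((P + w) % 2 ^ k ≤ (P + w + a) % 2 ^ k))
      (decide ((P + w) % 2 ^ k ≤ (P + w + a + q) % 2 ^ k))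
      (decide ((P + w + a) % 2 ^ k ≤ (P + w + a + q) % 2 ^ k)) k (pt4 P w a q) := by
  have h0 : pt4 P w a q 0 = 0 := rfl
  have o12 := ord_self (k := k) (i := 1) (j := 2) (S := pt4 P w a q)
  have o13 := ord_self (k := k) (i := 1) (j := 3) (S := pt4 P w a q)
  have o14 := ord_self (k := k) (i := 1) (j := 4) (S := pt4 P w a q)
  have o23 := ord_self (k := k) (i := 2) (j := 3) (S := pt4 P w a q)
  have o24 := ord_self (k := k) (i := 2) (j := 4) (S := pt4 P w a q)
  have o34 := ord_self (k := k) (i := 3) (j := 4) (S := pt4 P w a q)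
  have f1 := fl_self (k := k) (i := 1) h0
  have f2 := fl_self (k := k) (i := 2) h0
  have f3 := fl_self (k := k) (i := 3) h0
  have f4 := fl_self (k := k) (i := 4) h0
  exact ⟨⟨⟨⟨f1, f2⟩, ⟨f3, f4⟩⟩, ⟨⟨o12, o13⟩, ⟨o14, o23⟩⟩⟩, ⟨o24, o34⟩⟩

/-- a size and the floors -/
theorem size_floor {u X Y : ℕ} (hu : 0 < u) (hXY : X ≤ Y) :
    (X % u ≤ Y % u ∧ u * (Y / u - X / u) ≤ Y - X ∧ Y - X < u * (Y / u - X / u) + u) ∨
      (Y % u < X % u ∧ 1 ≤ Y / u - X / u ∧ Y - X < u * (Y / u - X / u) ∧
        u * (Y / u - X / u) < Y - X + u) := by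
  have h1 := Nat.div_add_mod X u
  have h2 := Nat.div_add_mod Y u
  have h3 := Nat.mod_lt X hu
  have h4 := Nat.mod_lt Y hu
  have h5 : X / u ≤ Y / u := Nat.div_le_div_right hXY
  obtain ⟨d, hd⟩ : ∃ d, Y / u = X / u + d := ⟨Y / u - X / u, by omega⟩
  have h6 : Y / u - X / u = d := by omega
  rw [h6]
  rw [hd, Nat.mul_add] at h2
  rcases le_or_gt (X % u) (Y % u) with h | h
  · left
    exact ⟨h, by omega, by omega⟩
  · right
    refine ⟨h, ?_, by omega, by omega⟩
    by_contra hd0
    have : d = 0 := by omega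
    subst this
    rw [Nat.mul_zero] at h2
    omega

theorem ltn_true {u X Y n : ℕ} (hu : 0 < u) (hXY : X ≤ Y) (h : Y - X < n * u) :
    ltn n (Y / u - X / u) (decide (X % u ≤ Y % u)) = true := by
  unfold ltn
  rcases size_floor hu hXY with ⟨h1, h2, h3⟩ | ⟨h1, h2, h3, h4⟩
  · have h4 : Y / u - X / u < n := by
      by_contra hh
      have : u * n ≤ u * (Y / u - X / u) := Nat.mul_le_mul_left u (by omega)
      rw [Nat.mul_comm] at this
      omega
    have a1 : Nat.ble (Y / u - X / u + 1) n = true := by rw [Nat.ble_eq]; omega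
    rw [decide_eq_true h1, a1]
    simp
  · have h5 : Y / u - X / u ≤ n := by
      by_contra hh
      have : u * (n + 1) ≤ u * (Y / u - X / u) := Nat.mul_le_mul_left u (by omega)
      rw [Nat.mul_add, Nat.mul_comm u n] at this
      omega
    have a1 : Nat.ble 1 (Y / u - X / u) = true := by rw [Nat.ble_eq]; exact h2
    rw [decide_eq_false (by omega), a1]
    rcases h5.lt_or_eq with h6 | h6
    · have a2 : Nat.ble (Y / u - X / u + 1) n = true := by rw [Nat.ble_eq]; omega
      rw [a2]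
      simp
    · rw [h6]
      simp

theorem ltn_false {u X Y n : ℕ} (hu : 0 < u) (hXY : X ≤ Y) (h : n * u ≤ Y - X) :
    ltn n (Y / u - X / u) (decide (X % u ≤ Y % u)) = false := by
  unfold ltn
  rcases size_floor hu hXY with ⟨h1, h2, h3⟩ | ⟨h1, h2, h3, h4⟩
  · have h4 : n ≤ Y / u - X / u := by
      by_contra hh
      have : u * (Y / u - X / u + 1) ≤ u * n := Nat.mul_le_mul_left u (by omega)
      rw [Nat.mul_add, Nat.mul_comm u n] at this
      omega
    rw [decide_eq_true h1]
    have a1 : Nat.ble (Y / u - X / u + 1) n = false := by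
      rw [← Bool.not_eq_true, Nat.ble_eq]; omega
    rw [a1]
    simp
  · have h5 : n + 1 ≤ Y / u - X / u := by
      by_contra hh
      have : u * (Y / u - X / u) ≤ u * n := Nat.mul_le_mul_left u (by omega)
      rw [Nat.mul_comm u n] at this
      omega
    rw [decide_eq_false (by omega)]
    have a1 : Nat.ble (Y / u - X / u + 1) n = false := by
      rw [← Bool.not_eq_true, Nat.ble_eq]; omega
    have a2 : Nat.beq (Y / u - X / u) n = false := by
      rw [← Bool.not_eq_true, Nat.beq_eq]; omega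
    rw [a1, a2]
    simp

theorem zero3_false {u X1 X2 X3 X4 : ℕ} (hu : 0 < u) (h12 : X1 ≤ X2) (h23 : X2 ≤ X3)
    (h34 : X3 ≤ X4) (h : u ≤ X2 - X1 ∨ u ≤ X3 - X2 ∨ u ≤ X4 - X3) :
    zero3 (X2 / u - X1 / u) (X3 / u - X2 / u) (X4 / u - X3 / u)
      (decide (X1 % u ≤ X2 % u)) (decide (X2 % u ≤ X3 % u)) (decide (X3 % u ≤ X4 % u)) = false := by
  have key : ∀ X Y : ℕ, X ≤ Y → u ≤ Y - X →
      (Nat.beq (Y / u - X / u) 0 || (Nat.beq (Y / u - X / u) 1 && !decide (X % u ≤ Y % u))) =
        false := by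
    intro X Y hXY hle
    rcases size_floor hu hXY with ⟨h1, h2, h3⟩ | ⟨h1, h2, h3, h4⟩
    · have h4 : 1 ≤ Y / u - X / u := by
        by_contra hh
        have : Y / u - X / u = 0 := by omega
        rw [this, Nat.mul_zero] at h3
        omega
      have a1 : Nat.beq (Y / u - X / u) 0 = false := by
        rw [← Bool.not_eq_true, Nat.beq_eq]; omega
      rw [a1, decide_eq_true h1]
      simp
    · have h5 : 2 ≤ Y / u - X / u := by
        by_contra hh
        have : Y / u - X / u = 1 := by omega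
        rw [this, Nat.mul_one] at h3
        omega
      have a1 : Nat.beq (Y / u - X / u) 0 = false := by
        rw [← Bool.not_eq_true, Nat.beq_eq]; omega
      have a2 : Nat.beq (Y / u - X / u) 1 = false := by
        rw [← Bool.not_eq_true, Nat.beq_eq]; omega
      rw [a1, a2]
      simp
  unfold zero3
  rcases h with h | h | h
  · rw [key _ _ h12 h]
    simp
  · rw [key _ _ h23 h]
    simp
  · rw [key _ _ h34 h]
    simp

/-! ### the shift of the scale -/

theorem dg_shift (n x y : ℕ) (hy : y ≤ 2 ^ n) (hxy : x + y ≤ 2 * 2 ^ n) :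
    dg x y ≤ dg (2 ^ n + x) y := by
  have m1 : min (((2 ^ n + x : ℕ) : ℤ)) (y : ℤ) ≤ y := min_le_right _ _
  have hyz : (y : ℤ) ≤ 2 ^ n := by exact_mod_cast hy
  have m2 : min (x : ℤ) (y : ℤ) ≤ x := min_le_left _ _
  have m3 : min (x : ℤ) (y : ℤ) ≤ y := min_le_right _ _
  have m4 : (0 : ℤ) ≤ min (x : ℤ) (y : ℤ) := le_min (by positivity) (by positivity)
  rcases le_total (x + y) (2 ^ n) with h | h
  · have h1 := g_pow_add n (x + y) h
    have h2 := g_pow_add n x (by omega)
    unfold dg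
    rw [Nat.add_assoc, h1, h2]
    push_cast at m1 ⊢
    linarith
  · obtain ⟨z, hz⟩ : ∃ z, x + y = 2 ^ n + z := ⟨x + y - 2 ^ n, by omega⟩
    have h1 := g_scale n z (by omega)
    unfold dg
    rw [Nat.add_assoc, hz, h1]
    rcases le_total x (2 ^ n) with h3 | h3
    · have h2 := g_pow_add n x h3
      have h3z : (x : ℤ) ≤ 2 ^ n := by exact_mod_cast h3
      rw [h2]
      push_cast at m1 ⊢
      rcases le_total (x : ℤ) y with h4 | h4
      · rw [min_eq_left h4]; linarith
      · rw [min_eq_right h4]; linarith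
    · obtain ⟨t, ht⟩ : ∃ t, x = 2 ^ n + t := ⟨x - 2 ^ n, by omega⟩
      have h2 := g_scale n t (by omega)
      rw [← ht] at h2
      rw [h2]
      have h3z : (2 : ℤ) ^ n ≤ x := by exact_mod_cast h3
      push_cast at m1 ⊢
      rw [min_eq_right (by linarith : (y : ℤ) ≤ x)]
      linarith

theorem goodR_shift {n P w a q f f2 : ℕ} (hw : w ≤ 2 ^ n) (ha : a ≤ 2 ^ n) (hq : q ≤ 2 ^ n)
    (hm : P + w + a + q ≤ 2 * 2 ^ n) (h : GoodR P w a q f f2) : GoodR (2 ^ n + P) w a q f f2 := by
  have d1 := dg_shift n (P + w + a) q hq hm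
  have d2 := dg_shift n (P + w) a ha (by omega)
  have d3 := dg_shift n P w hw (by omega)
  have e1 : 2 ^ n + P + w + a = 2 ^ n + (P + w + a) := by omega
  have e2 : 2 ^ n + P + w = 2 ^ n + (P + w) := by omega
  unfold GoodR at h ⊢
  rw [e1, e2]
  rcases h with h | h | h
  · left; linarith
  · right; left; linarith
  · right; right; linarith

/-! ### small scales -/

/-- the scale eight -/
def sm8 (m q a w : ℕ) : Bool :=
  Nat.ble q (2 * dgN (m - q) q + 2 * (q - 2 * a)) ||
  Nat.ble (q + a) (2 * dgN (m - q) q + 2 * dgN (m - q - a) a + 2 * (q - 2 * a) +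
    2 * (a - 2 * w)) ||
  Nat.ble (q + a + w) (2 * dgN (m - q) q + 2 * dgN (m - q - a) a + 2 * dgN (m - q - a - w) w +
    2 * (q - 2 * a) + 2 * (a - 2 * w))

theorem sm8_true : ∀ m < 17, 8 ≤ m → ∀ q < 2, ∀ a < 2, ∀ w < 2, sm8 m q a w = true := by
  decide +kernel

theorem goodR_eight {P w a q f f2 : ℕ} (hw : w < 2) (ha : a < 2) (hq : q < 2)
    (hm : 8 ≤ P + w + a + q) (hm2 : P + w + a + q ≤ 16) (hf : q ≤ 2 * a + f)
    (hf2 : a ≤ 2 * w + f2) : GoodR P w a q f f2 := by
  have h := sm8_true (P + w + a + q) (by omega) hm q hq a ha w hw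
  unfold sm8 at h
  have e1 : P + w + a + q - q = P + w + a := by omega
  have e2 : P + w + a - a = P + w := by omega
  have e3 : P + w - w = P := by omega
  rw [e1, e2, e3] at h
  have d1 := dgN_eq (P + w + a) q (by omega)
  have d2 := dgN_eq (P + w) a (by omega)
  have d3 := dgN_eq P w (by omega)
  unfold GoodR
  rw [← d1, ← d2, ← d3]
  simp only [Bool.or_eq_true, Nat.ble_eq] at h
  omega

/-! ### all scales -/

theorem in_bb (o : Bool) : o ∈ bb := by
  cases o <;> simp [bb]

theorem chk8_spec {b1 b2 b3 b4 : ℕ} (o12 o13 o14 o23 o24 o34 : Bool) (hb : 8 ≤ b4)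
    (hb' : b4 ≤ 16) (h12 : b1 ≤ b2) (h23 : b2 ≤ b3) (h34 : b3 ≤ b4) (h1 : b2 - b1 ≤ 2)
    (h2 : b3 - b2 ≤ 2) (h3 : b4 - b3 ≤ 2) (l1 : ltn 2 (b2 - b1) o12 = true)
    (l2 : ltn 2 (b3 - b2) o23 = true) (l3 : ltn 2 (b4 - b3) o34 = true)
    (hz : zero3 (b2 - b1) (b3 - b2) (b4 - b3) o12 o23 o34 = false)
    (hs : spec b1 b2 b3 b4 = false) : cellC 8 b1 b2 b3 b4 o12 o13 o14 o23 o24 o34 = true := by
  have h := chk8_true
  unfold chk8 at h
  have m4 : b4 ∈ [8, 9, 10, 11, 12, 13, 14, 15, 16] := by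
    have : b4 = 8 ∨ b4 = 9 ∨ b4 = 10 ∨ b4 = 11 ∨ b4 = 12 ∨ b4 = 13 ∨ b4 = 14 ∨ b4 = 15 ∨
      b4 = 16 := by omega
    simp [this]
  have md : ∀ d, d ≤ 2 → d ∈ [0, 1, 2] := by
    intro d hd
    have : d = 0 ∨ d = 1 ∨ d = 2 := by omega
    simp [this]
  have a0 := List.all_eq_true.mp h b4 m4
  have a1 := List.all_eq_true.mp a0 (b4 - b3) (md _ h3)
  have a2 := List.all_eq_true.mp a1 (b3 - b2) (md _ h2)
  have a3 := List.all_eq_true.mp a2 (b2 - b1) (md _ h1)
  have a4 := List.all_eq_true.mp a3 o12 (in_bb _)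
  have a5 := List.all_eq_true.mp a4 o13 (in_bb _)
  have a6 := List.all_eq_true.mp a5 o14 (in_bb _)
  have a7 := List.all_eq_true.mp a6 o23 (in_bb _)
  have a8 := List.all_eq_true.mp a7 o24 (in_bb _)
  have a9 := List.all_eq_true.mp a8 o34 (in_bb _)
  have e3 : b4 - (b4 - b3) = b3 := by omega
  have e2 : b3 - (b3 - b2) = b2 := by omega
  have e1 : b2 - (b2 - b1) = b1 := by omega
  rw [e3, e2, e1, l1, l2, l3, hz, hs] at a9
  simpa using a9

theorem chk16_spec {b1 b2 b3 b4 : ℕ} (o12 o13 o14 o23 o24 o34 : Bool) (h1 : b1 = 14 ∨ b1 = 15)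
    (h2 : b2 = 16 ∨ b2 = 17) (h3 : b3 = 16 ∨ b3 = 17) (h4 : 16 ≤ b4 ∧ b4 ≤ 19)
    (h23 : b2 ≤ b3) (h34 : b3 ≤ b4) (l1 : ltn 4 (b2 - b1) o12 = true)
    (l2 : ltn 4 (b3 - b2) o23 = true) (l3 : ltn 4 (b4 - b3) o34 = true)
    (hz : (ltn 2 (b4 - b3) o34 && ltn 2 (b3 - b2) o23 && ltn 2 (b2 - b1) o12) = false) :
    cellC 16 b1 b2 b3 b4 o12 o13 o14 o23 o24 o34 = true := by
  have h := chk16_true
  unfold chk16 at h
  have m1 : b1 ∈ [14, 15] := by simp [h1]
  have m2 : b2 ∈ [16, 17] := by simp [h2]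
  have m3 : b3 ∈ [16, 17] := by simp [h3]
  have m4 : b4 ∈ [16, 17, 18, 19] := by
    have : b4 = 16 ∨ b4 = 17 ∨ b4 = 18 ∨ b4 = 19 := by omega
    simp [this]
  have a0 := List.all_eq_true.mp h b1 m1
  have a1 := List.all_eq_true.mp a0 b2 m2
  have a2 := List.all_eq_true.mp a1 b3 m3
  have a3 := List.all_eq_true.mp a2 b4 m4
  have a4 := List.all_eq_true.mp a3 o12 (in_bb _)
  have a5 := List.all_eq_true.mp a4 o13 (in_bb _)
  have a6 := List.all_eq_true.mp a5 o14 (in_bb _)
  have a7 := List.all_eq_true.mp a6 o23 (in_bb _)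
  have a8 := List.all_eq_true.mp a7 o24 (in_bb _)
  have a9 := List.all_eq_true.mp a8 o34 (in_bb _)
  have k1 : Nat.ble b2 b3 = true := by rw [Nat.ble_eq]; exact h23
  have k2 : Nat.ble b3 b4 = true := by rw [Nat.ble_eq]; exact h34
  rw [k1, k2, l1, l2, l3, hz] at a9
  simpa using a9

/-- The near lemma for the roomy levels: `P, w, a, q` are the sizes along a chain of three nodes,
`B = 2 ^ R ≤ m ≤ 2 B`; if `w, a, q < B / 4`, then the deletion of one, two or three halves is
good. -/
theorem roomyNear (R : ℕ) : ∀ P w a q f f2 : ℕ, 4 * w < 2 ^ R → 4 * a < 2 ^ R → 4 * q < 2 ^ R →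
    2 ^ R ≤ P + w + a + q → P + w + a + q ≤ 2 * 2 ^ R → q ≤ 2 * a + f → a ≤ 2 * w + f2 →
    GoodR P w a q f f2 := by
  induction R with
  | zero =>
    intro P w a q f f2 hw ha hq _ _ _ _
    have : q = 0 := by
      rw [pow_zero] at hq
      omega
    subst this
    left
    have h1 := dg_nonneg (P + w + a) 0
    push_cast
    have h2 : (0 : ℤ) ≤ f := by positivity
    linarith
  | succ R ih =>
    intro P w a q f f2 hw ha hq hm hm2 hf hf2
    rcases R with _ | _ | _ | k
    · have : q = 0 := by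
        norm_num at hq
        omega
      subst this
      left
      have h1 := dg_nonneg (P + w + a) 0
      push_cast
      have h2 : (0 : ℤ) ≤ f := by positivity
      linarith
    · have : q = 0 := by
        norm_num at hq
        omega
      subst this
      left
      have h1 := dg_nonneg (P + w + a) 0
      push_cast
      have h2 : (0 : ℤ) ≤ f := by positivity
      linarith
    · norm_num at hw ha hq hm hm2
      exact goodR_eight (by omega) (by omega) (by omega) (by omega) (by omega) hf hf2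
    · obtain ⟨v, hv⟩ : ∃ v, v = 2 ^ k := ⟨_, rfl⟩
      have hv0 : 0 < v := by rw [hv]; positivity
      obtain ⟨u, hu⟩ : ∃ u, u = 2 ^ (k + 1) := ⟨_, rfl⟩
      have huv : u = 2 * v := by rw [hu, hv]; ring
      have hu0 : 0 < u := by omega
      have e4 : 2 ^ (k + 1 + 1 + 1 + 1) = 8 * u := by rw [hu]; ring
      have e3 : 2 ^ (k + 1 + 1 + 1) = 4 * u := by rw [hu]; ring
      rw [e4] at hw ha hq hm hm2
      by_cases hfar : 2 * (8 * u) + 3 * q ≤ 2 * (P + w + a + q)
      · exact good_far (n := k + 1 + 1 + 1 + 1) (by rw [e4]; exact hm2) (by rw [e4]; exact hfar)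
      by_cases hrec : w < u ∧ a < u ∧ q < u
      · obtain ⟨r1, r2, r3⟩ := hrec
        have h1 := ih (P - 4 * u) w a q f f2 (by rw [e3]; omega) (by rw [e3]; omega)
          (by rw [e3]; omega) (by rw [e3]; omega) (by rw [e3]; omega) hf hf2
        have h2 := goodR_shift (n := k + 1 + 1 + 1) (by rw [e3]; omega) (by rw [e3]; omega)
          (by rw [e3]; omega) (by rw [e3]; omega) h1
        have h3 : 2 ^ (k + 1 + 1 + 1) + (P - 4 * u) = P := by rw [e3]; omega
        rwa [h3] at h2
      -- the cell at eight points per unit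
      have hc := inC_self (k + 1) P w a q
      rw [← hu] at hc
      have x12 : P ≤ P + w := by omega
      have x23 : P + w ≤ P + w + a := by omega
      have x34 : P + w + a ≤ P + w + a + q := by omega
      have y12 : P + w - P = w := by omega
      have y23 : P + w + a - (P + w) = a := by omega
      have y34 : P + w + a + q - (P + w + a) = q := by omega
      have l1 := ltn_true (n := 2) hu0 x12 (by omega)
      have l2 := ltn_true (n := 2) hu0 x23 (by omega)
      have l3 := ltn_true (n := 2) hu0 x34 (by omega)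
      have hz := zero3_false hu0 x12 x23 x34 (by rw [y12, y23, y34]; omega)
      have b4 : 8 ≤ (P + w + a + q) / u := by
        rw [Nat.le_div_iff_mul_le hu0]; omega
      have b4' : (P + w + a + q) / u ≤ 16 := by
        have h2 : (P + w + a + q) / u ≤ (16 * u) / u := Nat.div_le_div_right (by omega)
        rwa [Nat.mul_div_cancel _ hu0] at h2
      have c12 : P / u ≤ (P + w) / u := Nat.div_le_div_right x12
      have c23 : (P + w) / u ≤ (P + w + a) / u := Nat.div_le_div_right x23
      have c34 : (P + w + a) / u ≤ (P + w + a + q) / u := Nat.div_le_div_right x34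
      have dle : ∀ X Y : ℕ, X ≤ Y → Y - X < 2 * u → Y / u - X / u ≤ 2 := by
        intro X Y hXY hlt
        rcases size_floor hu0 hXY with ⟨_, h2, _⟩ | ⟨_, _, _, h4⟩
        · by_contra hh
          have : u * 3 ≤ u * (Y / u - X / u) := Nat.mul_le_mul_left u (by omega)
          omega
        · by_contra hh
          have : u * 3 ≤ u * (Y / u - X / u) := Nat.mul_le_mul_left u (by omega)
          omega
      cases hsp : spec (P / u) ((P + w) / u) ((P + w + a) / u) ((P + w + a + q) / u) with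
      | false =>
        have hok := chk8_spec _ (decide (P % u ≤ (P + w + a) % u))
          (decide (P % u ≤ (P + w + a + q) % u)) _ (decide ((P + w) % u ≤ (P + w + a + q) % u)) _
          b4 b4' c12 c23 c34 (dle _ _ x12 (by omega)) (dle _ _ x23 (by omega))
          (dle _ _ x34 (by omega)) l1 l2 l3 hz hsp
        exact good_of_cellC (by omega) hok (n := k + 1 + 1 + 1 + 1) (k := k + 1)
          (by rw [e4, hu]) (by rw [e4]; exact hm2) hc hf hf2
      | true =>
        unfold spec at hsp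
        simp only [Bool.and_eq_true, Nat.beq_eq, Nat.ble_eq] at hsp
        obtain ⟨⟨⟨s1, s2⟩, s3⟩, s4⟩ := hsp
        -- the cell at sixteen points per unit
        have hc' := inC_self k P w a q
        rw [← hv] at hc'
        have half : ∀ X : ℕ, X / v / 2 = X / u := by
          intro X
          rw [Nat.div_div_eq_div_mul, huv, Nat.mul_comm v 2]
        have t1 := half P
        have t2 := half (P + w)
        have t3 := half (P + w + a)
        have t4 := half (P + w + a + q)
        have l1' := ltn_true (n := 4) hv0 x12 (by omega)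
        have l2' := ltn_true (n := 4) hv0 x23 (by omega)
        have l3' := ltn_true (n := 4) hv0 x34 (by omega)
        have hz' : (ltn 2 ((P + w + a + q) / v - (P + w + a) / v)
            (decide ((P + w + a) % v ≤ (P + w + a + q) % v)) &&
            ltn 2 ((P + w + a) / v - (P + w) / v) (decide ((P + w) % v ≤ (P + w + a) % v)) &&
            ltn 2 ((P + w) / v - P / v) (decide (P % v ≤ (P + w) % v))) = false := by
          by_cases g1 : u ≤ q
          · rw [ltn_false (n := 2) hv0 x34 (by omega)]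
            simp
          · by_cases g2 : u ≤ a
            · rw [ltn_false (n := 2) hv0 x23 (by omega)]
              simp
            · rw [ltn_false (n := 2) hv0 x12 (by omega)]
              simp
        have hok := chk16_spec _ (decide (P % v ≤ (P + w + a) % v))
          (decide (P % v ≤ (P + w + a + q) % v)) _ (decide ((P + w) % v ≤ (P + w + a + q) % v)) _
          (by omega) (by omega) (by omega) (by omega) (Nat.div_le_div_right x23)
          (Nat.div_le_div_right x34) l1' l2' l3' hz'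
        exact good_of_cellC (by omega) hok (n := k + 1 + 1 + 1 + 1) (k := k)
          (by rw [e4, huv, hv]; ring) (by rw [e4]; exact hm2) hc' hf hf2

end Pool.Agent.EdgeIso.RNear
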