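import Pool.Agent.Lib.MP_48c8f3_co.Bas
import Pool.Agent.Lib.MP_48c8f3_co.KPa
import Pool.Agent.Lib.MP_48c8f3_co.KXb
import Pool.Agent.Lib.MP_48c8f3_co.ESa

set_option autoImplicit false
set_option linter.unusedSectionVars false

/-!
MP_48c8f3_co, numbers of families.  A family has the numbers `x` (size), `L` (twice the loss), `E`
(`Sc` times twice the smooth loss) and the function `d` of all its distances.  The file contains
the relations between the numbers of a family and of its two halves, the structures with the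
numbers of two resp. three levels, and the skeleton of the induction for the smooth inequality.
-/

namespace Pool.Agent.EdgeIso.Frame

open Finset Pool.Agent.EdgeIso.Smooth

variable {α : Type*} [DecidableEq α]

/-- the unit of the smooth loss is `1 / Sc` -/
def Sc : ℕ := 2 ^ 24

theorem Sc_pos : (0 : ℤ) < Sc := by norm_num [Sc]

/-- the numbers of a family: the size, twice the loss, `Sc` times twice the smooth loss, and
`d j t` = twice `2 ^ j` times the distance to a copy of size `t / 2 ^ j` -/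
structure Num where
  x : ℕ
  L : ℤ
  E : ℤ
  d : ℕ → ℕ → ℕ

/-- the numbers of a family -/
noncomputable def num (s : Finset α) (X : Finset (Finset α)) : Num :=
  ⟨X.card, L2 s X, Ee Sc s X, fun j t => DQ j s X t⟩

/-- `N` are the numbers of a family in dimension `n` all of whose halves have at least `v / 2`
members -/
def Fam (α : Type*) [DecidableEq α] (n : ℕ) (v : ℤ) (N : Num) : Prop :=
  ∃ (s : Finset α) (X : Finset (Finset α)), Sub s X ∧ s.card = n ∧ Half2 s X v ∧ num s X = N

theorem fam_num {s : Finset α} {X : Finset (Finset α)} (hX : Sub s X) {n : ℕ} (hn : s.card = n)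
    {v : ℤ} (hv : Half2 s X v) : Fam α n v (num s X) := ⟨s, X, hX, hn, hv, rfl⟩

namespace Fam

variable {n : ℕ} {v : ℤ} {N : Num}

theorem max0 (h : Fam α n v N) : Fam α n (max 0 v) N := by
  obtain ⟨s, X, h1, h2, h3, h4⟩ := h
  refine ⟨s, X, h1, h2, ?_, h4⟩
  intro j hj c
  have h5 := h3 j hj c
  exact max_le (by positivity) h5

theorem le_x (h : Fam α (n + 1) v N) : v ≤ N.x := by
  obtain ⟨s, X, h1, h2, h3, h4⟩ := h
  rw [← h4]
  refine h3.le_card ?_
  rw [← card_pos, h2]
  omega

theorem cap (h : Fam α n v N) : N.x ≤ 2 ^ n := by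
  obtain ⟨s, X, h1, h2, _, h4⟩ := h
  rw [← h4, ← h2]
  exact h1.card_le

theorem L0 (h : Fam α n v N) : 0 ≤ N.L := by
  obtain ⟨s, X, h1, _, _, h4⟩ := h
  rw [← h4]
  exact L2_nonneg h1

theorem E0 (h : Fam α n v N) : 0 ≤ N.E := by
  obtain ⟨s, X, h1, _, _, h4⟩ := h
  rw [← h4]
  exact Ee_nonneg Sc h1

theorem E_ge (h : Fam α n v N) : Sc * N.L ≤ N.E := by
  obtain ⟨s, X, _, _, _, h4⟩ := h
  rw [← h4]
  exact Ee_ge Sc s X

theorem E_eq (h : Fam α n v N) : N.E = Sc * N.L + (lam Sc N.x - 2 * (Sc * g N.x)) := by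
  obtain ⟨s, X, _, _, _, h4⟩ := h
  rw [← h4]
  exact Ee_eq Sc s X

/-- lower bounds of the loss -/
theorem lb (h : Fam α n v N) {P : ℕ → ℕ → ℤ → ℤ → Prop} (hP : LBnd α P) (hv : v ≤ N.x) :
    P n N.x v N.L := by
  obtain ⟨s, X, h1, h2, h3, h4⟩ := h
  rw [← h4] at hv ⊢
  rw [← h2]
  exact hP s X h1 v h3 hv

theorem anti (h : Fam α n v N) (j : ℕ) {t t' : ℕ} (ht : t ≤ t') : (N.d j t' : ℤ) ≤ N.d j t := by
  obtain ⟨s, X, _, _, _, h4⟩ := h
  rw [← h4]
  exact DQ_anti j s X ht

theorem lip (h : Fam α n v N) (j : ℕ) {t t' : ℕ} (ht : t ≤ t') :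
    (N.d j t : ℤ) ≤ N.d j t' + 2 * ((t' : ℤ) - t) := by
  obtain ⟨s, X, _, _, _, h4⟩ := h
  rw [← h4]
  exact DQ_lip j s X ht

theorem succ_le (h : Fam α n v N) (j t : ℕ) : (N.d (j + 1) (2 * t) : ℤ) ≤ 2 * N.d j t := by
  obtain ⟨s, X, _, _, _, h4⟩ := h
  rw [← h4]
  exact DQ_succ j s X t

theorem le_succ (h : Fam α n v N) (j t : ℕ) : 2 * (N.d j t : ℤ) ≤ N.d (j + 1) (2 * t) := by
  obtain ⟨s, X, _, _, _, h4⟩ := h
  rw [← h4]
  change 2 * (DQ j s X t : ℤ) ≤ DQ (j + 1) s X (2 * t)
  obtain ⟨G, hG, h5⟩ := DQ_spec (j + 1) s X (2 * t)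
  rw [qd_succ hG] at h5
  push_cast at h5
  have h6 : NQ j s X t (2 * (qd X G j t : ℤ)) := ⟨G, hG, le_rfl⟩
  have h7 := h6.le
  linarith

theorem triv (h : Fam α n v N) (j t : ℕ) : (N.d j t : ℤ) ≤ 2 * (2 ^ j * N.x) := by
  obtain ⟨s, X, _, _, _, h4⟩ := h
  rw [← h4]
  exact DQ_le_card j s X t

theorem cube (h : Fam α n v N) (j : ℕ) {t : ℕ} (ht : 2 ^ j * 2 ^ n ≤ t) :
    (N.d j t : ℤ) ≤ 0 := by
  obtain ⟨s, X, h1, h2, _, h4⟩ := h
  rw [← h2] at ht
  rw [← h4]
  exact DQ_cube j h1 ht

theorem avg (h : Fam α n v N) (j : ℕ) {t : ℕ} (ht : t ≤ 2 ^ j * 2 ^ n) :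
    (2 : ℤ) ^ n * N.d j t ≤ 2 * N.x * (2 ^ j * 2 ^ n - t) := by
  obtain ⟨s, X, h1, h2, _, h4⟩ := h
  rw [← h2] at ht ⊢
  rw [← h4]
  exact DQ_avg j h1 ht

/-- the statement with the constant 2 -/
theorem tc (h : Fam α n v N)
    (T : ∀ (s : Finset α) (X : Finset (Finset α)), s.card = n → Sub s X → TC 2 s X) (j t : ℕ) :
    (N.d j t : ℤ) ≤ 2 ^ j * (2 * N.L) + 2 * max 0 (2 ^ j * (N.x : ℤ) - t) := by
  obtain ⟨s, X, h1, h2, _, h4⟩ := h
  rw [← h4]
  exact ((T s X h2 h1).nq j t).le

/-- the empty family -/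
theorem zero (h : Fam α n v N) (hx : N.x = 0) (j t : ℕ) : (N.d j t : ℤ) ≤ 0 := by
  have h1 := h.triv j t
  rw [hx] at h1
  simpa using h1

end Fam

/-- The relations between the numbers of a family `F` and of its halves `K` and `W` (in dimension
`n`) in the direction with the smallest half `W`; `f = |W \ K|`. -/
structure Mv (n : ℕ) (F K W : Num) (f : ℕ) : Prop where
  sz : K.x + W.x = F.x
  le : W.x ≤ K.x
  fle : f ≤ W.x
  cap : K.x + f ≤ 2 ^ n
  Lr : 2 * dg K.x W.x + 2 * (f : ℤ) + K.L + W.L ≤ F.L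
  Er : F.E = K.E + W.E + (elam Sc K.x W.x - 2 * (Sc * W.x)) + 2 * (Sc * f)
  delK : ∀ j t, (F.d j t : ℤ) ≤ K.d j t + 2 * (2 ^ j * W.x)
  delW : ∀ j t, (F.d j t : ℤ) ≤ W.d j t + 2 * (2 ^ j * K.x)
  prK : ∀ j t, (F.d j t : ℤ) ≤ K.d (j + 1) t + 2 * (2 ^ j * f)
  prW : ∀ j t, (F.d j t : ℤ) ≤ W.d (j + 1) t + 2 * (2 ^ j * ((K.x : ℤ) - W.x + f))
  upW : ∀ j t, (F.d j (2 ^ j * 2 ^ n + t) : ℤ) ≤ W.d j t
  upK : ∀ j t, (F.d j (2 ^ j * 2 ^ n + t) : ℤ) ≤ K.d j t

theorem Node.mv {s : Finset α} {F : Finset (Finset α)} {a : α} {b : Bool} (h : Node s F a b)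
    {n : ℕ} (hn : (s.erase a).card = n) :
    Mv n (num s F) (num (s.erase a) (half a b F)) (num (s.erase a) (half a (!b) F))
      (half a (!b) F \ half a b F).card where
  sz := h.card_eq
  le := h.le
  fle := h.f_le
  cap := by
    rw [← hn]
    have h1 : (half a b F ∪ half a (!b) F).card ≤ 2 ^ (s.erase a).card :=
      Sub.card_le (union_subset h.sub_K h.sub_W)
    change (half a b F).card + _ ≤ _
    rw [← card_union_of_disjoint (disjoint_sdiff), union_sdiff_self_eq_union]
    exact h1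
  Lr := h.L2_le
  Er := Ee_half Sc h.mem b F
  delK := fun j t => h.DQ_del j t
  delW := fun j t => h.DQ_delW j t
  prK := fun j t => h.DQ_prodK j t
  prW := fun j t => h.DQ_prodW j t
  upW := fun j t => by rw [← hn]; exact h.DQ_up j t
  upK := fun j t => by rw [← hn]; exact h.DQ_upW j t

/-! ### the pair constraint with the node of the minority half -/

/-- The linear pair constraint at a node; `W` is split in the direction of its smallest half, `v2` is
the size of its second smallest half. -/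
theorem Node.pair_node {s : Finset α} {F : Finset (Finset α)} {a : α} {b₀ : Bool}
    (h : Node s F a b₀) {r : ℕ} (hr : (s.erase a).card = r + 2) {u : ℕ}
    (hu : MinHalf (s.erase a) (half a b₀ F) u) :
    ∃ (i : α) (b : Bool) (v2 : ℕ), Node (s.erase a) (half a (!b₀) F) i b ∧
      (half i (!b) (half a (!b₀) F)).card ≤ v2 ∧ 2 * v2 ≤ (half a (!b₀) F).card ∧
      HalfB (s.erase a) (half a (!b₀) F) i (half i (!b) (half a (!b₀) F)).card v2 ∧
      Nonempty (Pair4 (half a b₀ F).card (half a (!b₀) F).card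
        (half a (!b₀) F \ half a b₀ F).card u (half i (!b) (half a (!b₀) F)).card v2
        (L2 (s.erase a) (half a b₀ F)) (L2 (s.erase a) (half a (!b₀) F)) (2 ^ r)) ∧
      2 * (half a (!b₀) F).card ≤ (half a b₀ F).card + 2 * (half i (!b) (half a (!b₀) F)).card +
        (half a (!b₀) F \ half a b₀ F).card ∧
      2 * (5 * ((half a (!b₀) F).card : ℤ) - 2 * (half a b₀ F).card -
        4 * (half i (!b) (half a (!b₀) F)).card - 3 * v2 -
        3 * (half a (!b₀) F \ half a b₀ F).card) ≤ L2 (s.erase a) (half a b₀ F) := by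
  have hKs := h.sub_K
  have hWs := h.sub_W
  have hside := h.minh
  set K := half a b₀ F with hK
  set W := half a (!b₀) F with hW
  set s' := s.erase a with hs'
  obtain ⟨i, hi, j, hjs', hji, b, c, m1, m2, m3, m4⟩ := exists_min2 s' (by omega) W
  have hj : j ∈ s'.erase i := mem_erase.mpr ⟨hji, hjs'⟩
  have c1 : (s'.erase i).card = r + 1 := by
    rw [card_erase_of_mem hi, hr]
    omega
  have c2 : ((s'.erase i).erase j).card = r := by
    rw [card_erase_of_mem hj, c1]
    omega
  have his : i ∈ s := mem_of_mem_erase hi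
  have hia : i ≠ a := ne_of_mem_erase hi
  have hjs : j ∈ s := mem_of_mem_erase hjs'
  have hja : j ≠ a := ne_of_mem_erase hjs'
  have hFi : ∀ e : Bool, W.card ≤ (half i e K).card + (half i e W).card := by
    intro e
    have t1 := hside i his e
    have t2 := card_half_two hia b₀ e F
    rw [← hK, ← hW] at t2
    omega
  have hFj : ∀ e : Bool, W.card ≤ (half j e K).card + (half j e W).card := by
    intro e
    have t1 := hside j hjs e
    have t2 := card_half_two hja b₀ e F
    rw [← hK, ← hW] at t2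
    omega
  have h2q : 2 * (half j (!c) W).card ≤ W.card := by
    have := card_half_add' j c W
    omega
  have P : Pair4 K.card W.card (W \ K).card u (half i (!b) W).card (half j (!c) W).card
      (L2 s' K) (L2 s' W) (2 ^ r) := by
    refine ⟨Frame.cells4 i j b c K, Frame.cells4 i j b c W, Frame.cells4 i j b c (W \ K),
      sum4_cells i j b c K, sum4_cells i j b c W, sum4_cells i j b c (W \ K),
      cells4_sdiff_le i j b c K W, cells4_le_add i j b c K W, ?_, ?_, ?_, ?_, ?_, ?_, ?_, ?_, ?_⟩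
    · intro β γ
      have t := ((hKs.half i (xor β b)).half j (xor γ c)).card_le
      rw [c2] at t
      exact t
    · have := side4_i i j b c W true
      rw [Bool.true_xor] at this
      exact this
    · have := side4_j hji b c W true
      rw [Bool.true_xor] at this
      exact this
    · intro β
      rw [side4_i, side4_i]
      exact hFi _
    · intro γ
      rw [side4_j hji, side4_j hji]
      exact hFj _
    · intro β
      rw [side4_i]
      exact hu i hi _
    · intro γ
      rw [side4_j hji]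
      exact hu j hjs' _
    · rw [sum4_cells]
      exact L2_cells4 hi hj b c hKs
    · rw [sum4_cells]
      exact L2_cells4 hi hj b c hWs
  have hv : 2 * W.card ≤ K.card + 2 * (half i (!b) W).card + (W \ K).card := by
    have e1 := P.side_i true
    have e2 := P.side_i false
    have e3 := P.min_i
    have e4 := P.sum_x
    have e5 := P.sum_y
    have e6 := P.sum_φ
    have e7 := P.y_le true false
    have e8 := P.y_le true true
    have e9 := P.y_le false false
    have e10 := P.y_le false true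
    unfold sum4 at e4 e5 e6
    omega
  exact ⟨i, b, (half j (!c) W).card, ⟨hWs, hi, m1, m4.minHalf m3⟩, m3, h2q, m4, ⟨P⟩, hv, P.lin hv⟩

end Pool.Agent.EdgeIso.Frame
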