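import Pool.Agent.Lib.MP_48c8f3_co.Bas
import Pool.Agent.Lib.MP_48c8f3_co.SNa
import Pool.Agent.Lib.MP_48c8f3_co.KZa
import Pool.Agent.Lib.MP_48c8f3_co.RNc

set_option autoImplicit false
set_option linter.unusedSectionVars false

/-!
MP_48c8f3_co: the numbers of a family and of its parts in two levels (`SI2`), and the numbers of a
counterexample in the roomy levels with three levels on the majority side and two levels on the
minority side (`CoreK`).
-/

namespace Pool.Agent.EdgeIso.Frame

open Finset Pool.Agent.EdgeIso.Smooth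

variable {α : Type*} [DecidableEq α]

/-! ### two levels -/

/-- The numbers of a family `F` in dimension `n + 2`, of its halves `K`, `W` (split in the direction
with the smallest half), of the halves `P`, `A` of `K` and of the halves `W1`, `W2` of `W`. -/
structure SI2 (α : Type*) [DecidableEq α] (n : ℕ) (F : Num) where
  (K W P A W1 W2 : Num)
  (f fK fW : ℕ)
  mF : Mv (n + 1) F K W f
  mK : Mv n K P A fK
  mW : Mv n W W1 W2 fW
  fF : Fam α (n + 2) (2 * (W.x : ℤ)) F
  kK : Fam α (n + 1) ((W.x : ℤ) - f) K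
  kK' : Fam α (n + 1) (2 * (A.x : ℤ)) K
  kW : Fam α (n + 1) (2 * (W.x : ℤ) - K.x - f) W
  kW' : Fam α (n + 1) (2 * (W2.x : ℤ)) W
  kP : Fam α n ((A.x : ℤ) - fK) P
  kA : Fam α n (2 * (A.x : ℤ) - P.x - fK) A
  kW1 : Fam α n ((W2.x : ℤ) - fW) W1
  kW2 : Fam α n (2 * (W2.x : ℤ) - W1.x - fW) W2
  h1 : (W.x : ℤ) ≤ 2 * A.x + f
  h2 : 2 * (W.x : ℤ) ≤ K.x + 2 * W2.x + f

theorem si2_of_family {s : Finset α} {F : Finset (Finset α)} {n : ℕ} (hs : s.card = n + 2)
    (hF : Sub s F) : ∃ C : SI2 α n (num s F), ∀ v : ℤ, Half2 s F v → v ≤ 2 * (C.W.x : ℤ) := by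
  have hne1 : s.Nonempty := by
    rw [← card_pos, hs]
    omega
  obtain ⟨a1, b1, n1⟩ := Node.exists hne1 hF
  have c1 : (s.erase a1).card = n + 1 := by
    have := n1.card_s
    omega
  have hne2 : (s.erase a1).Nonempty := by
    rw [← card_pos, c1]
    omega
  obtain ⟨a2, b2, n2⟩ := Node.exists hne2 n1.sub_K
  obtain ⟨a3, b3, n3⟩ := Node.exists hne2 n1.sub_W
  have c2 : ((s.erase a1).erase a2).card = n := by
    have := n2.card_s
    omega
  have c3 : ((s.erase a1).erase a3).card = n := by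
    have := n3.card_s
    omega
  have hm2 := n1.half2_K a2 n2.mem (!b2)
  have hm3 := n1.half2_W a3 n3.mem (!b3)
  exact ⟨{
    K := num (s.erase a1) (half a1 b1 F), W := num (s.erase a1) (half a1 (!b1) F)
    P := num _ (half a2 b2 (half a1 b1 F)), A := num _ (half a2 (!b2) (half a1 b1 F))
    W1 := num _ (half a3 b3 (half a1 (!b1) F)), W2 := num _ (half a3 (!b3) (half a1 (!b1) F))
    f := _, fK := _, fW := _
    mF := n1.mv c1
    mK := n2.mv c2
    mW := n3.mv c3
    fF := fam_num hF hs n1.minh.half2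
    kK := fam_num n1.sub_K c1 n1.half2_K
    kK' := fam_num n1.sub_K c1 n2.minh.half2
    kW := fam_num n1.sub_W c1 n1.half2_W
    kW' := fam_num n1.sub_W c1 n3.minh.half2
    kP := fam_num n2.sub_K c2 n2.half2_K
    kA := fam_num n2.sub_W c2 n2.half2_W
    kW1 := fam_num n3.sub_K c3 n3.half2_K
    kW2 := fam_num n3.sub_W c3 n3.half2_W
    h1 := by
      change ((half a1 (!b1) F).card : ℤ) ≤ 2 * (half a2 (!b2) (half a1 b1 F)).card + _
      linarith
    h2 := by
      change 2 * ((half a1 (!b1) F).card : ℤ) ≤ (half a1 b1 F).card +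
        2 * (half a3 (!b3) (half a1 (!b1) F)).card + _
      linarith }, fun v hv => hv a1 n1.mem (!b1)⟩

theorem si2_exists {n : ℕ} {v : ℤ} {F : Num} (h : Fam α (n + 2) v F) :
    ∃ C : SI2 α n F, v ≤ 2 * (C.W.x : ℤ) := by
  obtain ⟨s, X, h1, h2, h3, h4⟩ := h
  subst h4
  obtain ⟨C, hC⟩ := si2_of_family h2 h1
  exact ⟨C, hC v h3⟩

/-- guards of the two halves of a family whose halves in the other directions have at least `v`
members -/
theorem Node.half2_B {s : Finset α} {F : Finset (Finset α)} {a : α} {b : Bool} (h : Node s F a b)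
    {u v : ℕ} (hB : HalfB s F a u v) :
    Half2 (s.erase a) (half a b F) ((v : ℤ) - (half a (!b) F \ half a b F).card) ∧
    Half2 (s.erase a) (half a b F) (2 * ((v : ℤ) - (half a (!b) F).card)) ∧
    Half2 (s.erase a) (half a (!b) F) ((v : ℤ) + (half a (!b) F).card - (half a b F).card -
      (half a (!b) F \ half a b F).card) := by
  have key : ∀ j ∈ s.erase a, ∀ c : Bool,
      (v : ℤ) ≤ 2 * (half j c (half a b F)).card + (half a (!b) F \ half a b F).card ∧
      (v : ℤ) ≤ (half j c (half a b F)).card + (half a (!b) F).card ∧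
      (v : ℤ) + (half a (!b) F).card ≤ (half a b F).card + 2 * (half j c (half a (!b) F)).card +
        (half a (!b) F \ half a b F).card := by
    intro j hj c
    have hjs := mem_of_mem_erase hj
    have hja := ne_of_mem_erase hj
    have g1 := hB.2 j hjs hja c
    have g2 := hB.2 j hjs hja (!c)
    rw [← card_half_two hja b] at g1 g2
    have k1 := card_half_add' j c (half a b F)
    have w0 := card_half_add' j c (half a (!b) F)
    have w1 := card_half_add' j c (half a (!b) F \ half a b F)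
    have a1 := card_half_le_add j c (half a (!b) F) (half a b F)
    have a2 := card_half_le_add j (!c) (half a (!b) F) (half a b F)
    refine ⟨?_, ?_, ?_⟩
    · have : v ≤ 2 * (half j c (half a b F)).card + (half a (!b) F \ half a b F).card := by omega
      exact_mod_cast this
    · have : v ≤ (half j c (half a b F)).card + (half a (!b) F).card := by omega
      exact_mod_cast this
    · have : v + (half a (!b) F).card ≤ (half a b F).card +
        2 * (half j c (half a (!b) F)).card + (half a (!b) F \ half a b F).card := by omega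
      exact_mod_cast this
  refine ⟨fun j hj c => ?_, fun j hj c => ?_, fun j hj c => ?_⟩
  · have := (key j hj c).1
    linarith
  · have := (key j hj c).2.1
    linarith
  · have := (key j hj c).2.2
    linarith

/-! ### the roomy levels -/

/-- The numbers of a counterexample `F` in dimension `n + 3` with `2 ^ R ≤ |F| ≤ 2 * 2 ^ R`, where
`R ≤ n`: `F` has the halves `K`, `W`; `K` has the halves `P`, `A`; `P` has the halves `P2`, `A2`; `W`
has the halves `W1`, `W2`; always in the direction with the smallest half, which is the second one. -/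
structure CoreK (α : Type*) [DecidableEq α] (n R : ℕ) (F : Num) where
  (K W P A P2 A2 W1 W2 : Num)
  (f fK fP fW w2 : ℕ)
  lo : 2 ^ R ≤ F.x
  hi : F.x ≤ 2 * 2 ^ R
  mF : Mv (n + 2) F K W f
  mK : Mv (n + 1) K P A fK
  mP : Mv n P P2 A2 fP
  mW : Mv (n + 1) W W1 W2 fW
  fF : Fam α (n + 3) (2 * (W.x : ℤ)) F
  kK : Fam α (n + 2) ((W.x : ℤ) - f) K
  kK' : Fam α (n + 2) (2 * (A.x : ℤ)) K
  kW : Fam α (n + 2) (2 * (W.x : ℤ) - K.x - f) W
  kW' : Fam α (n + 2) (2 * (W2.x : ℤ)) W
  kP : Fam α (n + 1) ((A.x : ℤ) - fK) P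
  kP' : Fam α (n + 1) (2 * (A2.x : ℤ)) P
  kA : Fam α (n + 1) (2 * (A.x : ℤ) - P.x - fK) A
  kW1 : Fam α (n + 1) ((W2.x : ℤ) - fW) W1
  kW2 : Fam α (n + 1) (2 * (W2.x : ℤ) - W1.x - fW) W2
  /-- guards by the second smallest half `w2` of `W` -/
  kW1b : Fam α (n + 1) ((w2 : ℤ) - fW) W1
  kW1c : Fam α (n + 1) (2 * ((w2 : ℤ) - W2.x)) W1
  kW2b : Fam α (n + 1) ((w2 : ℤ) + W2.x - W1.x - fW) W2
  kP2 : Fam α n ((A2.x : ℤ) - fP) P2
  kA2 : Fam α n (2 * (A2.x : ℤ) - P2.x - fP) A2
  h1 : (W.x : ℤ) ≤ 2 * A.x + f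
  h2 : (A.x : ℤ) ≤ 2 * A2.x + fK
  h3 : 2 * (W.x : ℤ) ≤ K.x + 2 * W2.x + f
  /-- the pair constraint -/
  w12 : W2.x ≤ w2
  w2q : 2 * w2 ≤ W.x
  pair : 2 * (5 * (W.x : ℤ) - 2 * K.x - 4 * W2.x - 3 * w2 - 3 * f) ≤ K.L
  tB : ∀ Q : ℕ → ℕ → ℕ → ℤ → Prop, BBnd α Q → Q (n + 2) W.x w2 W.L
  /-- bounds for minimal counterexamples -/
  t4 : ∀ Q : ℕ → ℕ → ℕ → ℤ → Prop, CBnd α 2 Q → Q (n + 3) F.x W.x F.L
  /-- the statement for the parts -/
  ih : ∀ (s : Finset α) (X : Finset (Finset α)), s.card < n + 3 → Sub s X → TC 2 s X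
  /-- the negated goal -/
  neg : 2 * F.L + 1 ≤ F.d 0 F.x
  /-- the chain is not near to a cube -/
  far : 2 ^ R ≤ 4 * W.x ∨ 2 ^ R ≤ 4 * A.x ∨ 2 ^ R ≤ 4 * A2.x

theorem coreK_exists {s : Finset α} {F : Finset (Finset α)} {n R : ℕ} (hs : s.card = n + 3)
    (hR : R ≤ n) (hF : Sub s F) (hlo : 2 ^ R ≤ F.card) (hhi : F.card ≤ 2 * 2 ^ R)
    (IH : ∀ (s' : Finset α) (F' : Finset (Finset α)), s'.card < s.card → Sub s' F' → TC 2 s' F')
    (hneg : ¬ TC 2 s F) : Nonempty (CoreK α n R (num s F)) := by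
  have hneg' : 2 * Frame.L2 s F + 1 ≤ DQ 0 s F F.card := by
    by_contra h3
    apply hneg
    refine DQ_TC hF ?_
    linarith [Int.lt_iff_add_one_le.mp (not_le.mp h3)]
  have hne1 : s.Nonempty := by
    rw [← card_pos, hs]
    omega
  obtain ⟨a1, b1, n1⟩ := Node.exists hne1 hF
  have c1 : (s.erase a1).card = n + 2 := by
    have := n1.card_s
    omega
  have hne2 : (s.erase a1).Nonempty := by
    rw [← card_pos, c1]
    omega
  obtain ⟨a2, b2, n2⟩ := Node.exists hne2 n1.sub_K
  have c2 : ((s.erase a1).erase a2).card = n + 1 := by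
    have := n2.card_s
    omega
  have hne3 : ((s.erase a1).erase a2).Nonempty := by
    rw [← card_pos, c2]
    omega
  obtain ⟨a3, b3, n3⟩ := Node.exists hne3 n2.sub_K
  have c3 : (((s.erase a1).erase a2).erase a3).card = n := by
    have := n3.card_s
    omega
  obtain ⟨i, b, v2, nW, hv1, hv2, hB, _, hv3, hlin⟩ := n1.pair_node (r := n) c1 n2.minh
  have c4 : ((s.erase a1).erase i).card = n + 1 := by
    have := nW.card_s
    omega
  have hm2 := n1.half2_K a2 n2.mem (!b2)
  have hm3 := n2.half2_K a3 n3.mem (!b3)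
  obtain ⟨hB1, hB2, hB3⟩ := nW.half2_B hB
  have e1 := n1.card_eq
  have e2 := n2.card_eq
  have e3 := n3.card_eq
  have l1 := n1.le
  have l2 := n2.le
  have l3 := n3.le
  have L1 := n1.L2_le
  have L2' := n2.L2_le
  have L3 := n3.L2_le
  have nnW := L2_nonneg n1.sub_W
  have nnA := L2_nonneg n2.sub_W
  have nnA2 := L2_nonneg n3.sub_W
  have TK := IH _ _ (by omega) n1.sub_K
  have TP := IH _ _ (by omega) n2.sub_K
  have TP2 := IH _ _ (by omega) n3.sub_K
  have f1 : (0 : ℤ) ≤ (half a1 (!b1) F \ half a1 b1 F).card := by positivity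
  have f2 : (0 : ℤ) ≤ (half a2 (!b2) (half a1 b1 F) \ half a2 b2 (half a1 b1 F)).card := by
    positivity
  have f3 : (0 : ℤ) ≤ (half a3 (!b3) (half a2 b2 (half a1 b1 F)) \
    half a3 b3 (half a2 b2 (half a1 b1 F))).card := by positivity
  -- deletions
  have d1 := n1.DQ_del 0 F.card
  have d2 := n2.DQ_del 0 F.card
  have d3 := n3.DQ_del 0 F.card
  have t1 := (TK.nq 0 F.card).le
  have t2 := (TP.nq 0 F.card).le
  have t3 := (TP2.nq 0 F.card).le
  have mz : ∀ x : ℤ, x ≤ 0 → max 0 x = 0 := fun x hx => max_eq_left hx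
  rw [mz _ (by rw [pow_zero, one_mul]; have : (half a1 b1 F).card ≤ F.card := by omega
               have h : ((half a1 b1 F).card : ℤ) ≤ F.card := by exact_mod_cast this
               linarith)] at t1
  rw [mz _ (by rw [pow_zero, one_mul]
               have : (half a2 b2 (half a1 b1 F)).card ≤ F.card := by omega
               have h : ((half a2 b2 (half a1 b1 F)).card : ℤ) ≤ F.card := by exact_mod_cast this
               linarith)] at t2
  rw [mz _ (by rw [pow_zero, one_mul]
               have : (half a3 b3 (half a2 b2 (half a1 b1 F))).card ≤ F.card := by omega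
               have h : ((half a3 b3 (half a2 b2 (half a1 b1 F))).card : ℤ) ≤ F.card := by
                 exact_mod_cast this
               linarith)] at t3
  rw [pow_zero] at t1 t2 t3 d1 d2 d3
  have hfar : 2 ^ R ≤ 4 * (half a1 (!b1) F).card ∨
      2 ^ R ≤ 4 * (half a2 (!b2) (half a1 b1 F)).card ∨
      2 ^ R ≤ 4 * (half a3 (!b3) (half a2 b2 (half a1 b1 F))).card := by
    by_contra hc
    push Not at hc
    obtain ⟨g1, g2, g3⟩ := hc
    have h := RNear.roomyNear R (half a3 b3 (half a2 b2 (half a1 b1 F))).card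
      (half a3 (!b3) (half a2 b2 (half a1 b1 F))).card (half a2 (!b2) (half a1 b1 F)).card
      (half a1 (!b1) F).card (half a1 (!b1) F \ half a1 b1 F).card
      (half a2 (!b2) (half a1 b1 F) \ half a2 b2 (half a1 b1 F)).card g3 g2 g1 (by omega)
      (by omega) (by
        have : ((half a1 (!b1) F).card : ℤ) ≤ 2 * (half a2 (!b2) (half a1 b1 F)).card +
          (half a1 (!b1) F \ half a1 b1 F).card := by linarith
        exact_mod_cast this) (by
        have : ((half a2 (!b2) (half a1 b1 F)).card : ℤ) ≤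
          2 * (half a3 (!b3) (half a2 b2 (half a1 b1 F))).card +
          (half a2 (!b2) (half a1 b1 F) \ half a2 b2 (half a1 b1 F)).card := by linarith
        exact_mod_cast this)
    unfold RNear.GoodR at h
    rw [e3, e2] at h
    rcases h with h | h | h
    · linarith
    · linarith
    · linarith [L2_nonneg n3.sub_K]
  exact ⟨{
    K := num (s.erase a1) (half a1 b1 F), W := num (s.erase a1) (half a1 (!b1) F)
    P := num _ (half a2 b2 (half a1 b1 F)), A := num _ (half a2 (!b2) (half a1 b1 F))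
    P2 := num _ (half a3 b3 (half a2 b2 (half a1 b1 F)))
    A2 := num _ (half a3 (!b3) (half a2 b2 (half a1 b1 F)))
    W1 := num _ (half i b (half a1 (!b1) F)), W2 := num _ (half i (!b) (half a1 (!b1) F))
    f := _, fK := _, fP := _, fW := _, w2 := v2
    lo := hlo
    hi := hhi
    mF := n1.mv c1
    mK := n2.mv c2
    mP := n3.mv c3
    mW := nW.mv c4
    fF := fam_num hF hs n1.minh.half2
    kK := fam_num n1.sub_K c1 n1.half2_K
    kK' := fam_num n1.sub_K c1 n2.minh.half2
    kW := fam_num n1.sub_W c1 n1.half2_W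
    kW' := fam_num n1.sub_W c1 nW.minh.half2
    kP := fam_num n2.sub_K c2 n2.half2_K
    kP' := fam_num n2.sub_K c2 n3.minh.half2
    kA := fam_num n2.sub_W c2 n2.half2_W
    kW1 := fam_num nW.sub_K c4 nW.half2_K
    kW2 := fam_num nW.sub_W c4 nW.half2_W
    kW1b := fam_num nW.sub_K c4 hB1
    kW1c := fam_num nW.sub_K c4 hB2
    kW2b := fam_num nW.sub_W c4 hB3
    kP2 := fam_num n3.sub_K c3 n3.half2_K
    kA2 := fam_num n3.sub_W c3 n3.half2_W
    h1 := by
      change ((half a1 (!b1) F).card : ℤ) ≤ 2 * (half a2 (!b2) (half a1 b1 F)).card + _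
      linarith
    h2 := by
      change ((half a2 (!b2) (half a1 b1 F)).card : ℤ) ≤
        2 * (half a3 (!b3) (half a2 b2 (half a1 b1 F))).card + _
      linarith
    h3 := by exact_mod_cast hv3
    w12 := hv1
    w2q := hv2
    pair := hlin
    tB := by
      intro Q hQ
      have := hQ (s.erase a1) (half a1 (!b1) F) i v2 n1.sub_W nW.mem
        (fun e he d => hB.2 e (mem_of_mem_erase he) (ne_of_mem_erase he) d) hv2
      rw [c1] at this
      exact this
    t4 := by
      intro Q hQ
      have := hQ s F _ hF n1.minh IH hneg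
      rw [hs] at this
      exact this
    ih := fun s' X' h hX' => IH s' X' (by omega) hX'
    neg := hneg'
    far := hfar }⟩

end Pool.Agent.EdgeIso.Frame
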