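import Pool.Agent.Lib.MP_48c8f3_co.Bas
import Pool.Agent.Lib.MP_48c8f3_co.SNb

set_option autoImplicit false
set_option linter.unusedSectionVars false

/-!
MP_48c8f3_co: the smooth inequality as a list of linear rows, and its induction.
-/

namespace Pool.Agent.EdgeIso.Frame

open Finset Pool.Agent.EdgeIso.Smooth

variable {α : Type*} [DecidableEq α]

/-- the sum of the hinges `a * max 0 (b x - d w)`, where `w` is a lower bound of the doubled sizes of
the halves -/
def hsum (hs : List (ℕ × ℤ × ℕ)) (x w : ℤ) : ℤ :=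
  (hs.map fun h => (h.1 : ℤ) * max 0 (h.2.1 * x - h.2.2 * w)).sum

theorem hsum_nonneg (hs : List (ℕ × ℤ × ℕ)) (x w : ℤ) : 0 ≤ hsum hs x w := by
  unfold hsum
  apply List.sum_nonneg
  intro y hy
  obtain ⟨h, _, rfl⟩ := List.mem_map.mp hy
  exact mul_nonneg (by positivity) (le_max_left _ _)

theorem hsum_anti (hs : List (ℕ × ℤ × ℕ)) (x : ℤ) {w w' : ℤ} (hw : w ≤ w') :
    hsum hs x w' ≤ hsum hs x w := by
  induction hs with
  | nil => exact le_rfl
  | cons h t ih =>
    unfold hsum at ih ⊢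
    rw [List.map_cons, List.map_cons, List.sum_cons, List.sum_cons]
    have h1 : (h.2.2 : ℤ) * w ≤ h.2.2 * w' := mul_le_mul_of_nonneg_left hw (by positivity)
    have h2 : max 0 (h.2.1 * x - h.2.2 * w') ≤ max 0 (h.2.1 * x - h.2.2 * w) :=
      max_le_max le_rfl (by linarith)
    have h3 := mul_le_mul_of_nonneg_left h2 (by positivity : (0 : ℤ) ≤ h.1)
    linarith

/-- the conditions `a V + b x ≥ 0` -/
def Cond (cs : List (ℤ × ℤ)) (V x : ℤ) : Prop := ∀ c ∈ cs, 0 ≤ c.1 * V + c.2 * x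

instance (cs : List (ℤ × ℤ)) (V x : ℤ) : Decidable (Cond cs V x) := by
  unfold Cond; infer_instance

/-- the sum of the hinges `a * max 0 (b x / 8 - t / 2 ^ j)`, times `8 * 2 ^ j` -/
def thsum (th : List (ℕ × ℕ)) (j : ℕ) (t x : ℤ) : ℤ :=
  (th.map fun h => (h.1 : ℤ) * max 0 (2 ^ j * (h.2 * x) - 8 * t)).sum

/-- the sum of the hinges `a * max 0 (8 x - b x)` -/
def tgap (th : List (ℕ × ℕ)) (x : ℤ) : ℤ :=
  (th.map fun h => (h.1 : ℤ) * max 0 (8 * x - h.2 * x)).sum

/-- An upper bound for the distance to copies of all sizes, with the slope `e / c`. -/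
structure SRow where
  c : ℕ
  e : ℕ
  cond : List (ℤ × ℤ)
  bV : ℤ
  bx : ℤ
  hs : List (ℕ × ℤ × ℕ)
  th : List (ℕ × ℕ)

/-- the statement of a row for a family with the numbers `N` in dimension `n` all of whose halves have
at least `w / 2` members: `c D ≤ e E + bV V + bx x + hinges + 2 * hinges in the size of the copies` -/
def SRow.Hold (r : SRow) (n : ℕ) (w : ℤ) (N : Num) : Prop :=
  Cond r.cond (2 ^ n) N.x → ∀ j t : ℕ,
    8 * ((r.c : ℤ) * (Sc * N.d j t)) ≤
      2 ^ j * (8 * (r.e * N.E + Sc * (r.bV * 2 ^ n + r.bx * N.x + hsum r.hs N.x w))) +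
        2 * (Sc * thsum r.th j t N.x)

/-- A lower bound for the smooth loss. -/
structure ERow where
  c : ℕ
  cond : List (ℤ × ℤ)
  bV : ℤ
  bx : ℤ
  hs : List (ℕ × ℤ × ℕ)

def ERow.Hold (r : ERow) (n : ℕ) (w : ℤ) (N : Num) : Prop :=
  Cond r.cond (2 ^ n) N.x →
    Sc * (r.bV * 2 ^ n + r.bx * N.x - hsum r.hs N.x w) ≤ r.c * N.E

theorem SRow.Hold.mono {r : SRow} {n : ℕ} {w w' : ℤ} {N : Num} (h : r.Hold n w N) (hw : w' ≤ w) :
    r.Hold n w' N := by
  intro hc j t
  refine (h hc j t).trans ?_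
  have h1 := hsum_anti r.hs N.x hw
  have h2 := mul_le_mul_of_nonneg_left h1 Sc_pos.le
  have h3 := mul_le_mul_of_nonneg_left h2 (by positivity : (0 : ℤ) ≤ 2 ^ j * 8)
  linarith

/-- the row at a volume and a size, for families with the loss zero -/
def SRow.at (r : SRow) (V x hv : ℤ) : Bool :=
  decide (Cond r.cond V x → 2 * tgap r.th x ≤ 8 * (r.bV * V + r.bx * x + hv))

/-- the check of a row for the dimensions `0` and `1`, and for the empty family -/
def SRow.base (r : SRow) : Bool :=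
  decide (2 * r.c ≤ r.e ∧ (r.th.map fun h => h.1).sum = r.c) && r.at 1 0 0 && r.at 1 1 0 && r.at 2 1 (hsum r.hs 1 0) && r.at 2 2 (hsum r.hs 2 2) &&
    (decide (0 ≤ r.bV) || r.cond.any (fun c => decide (c.1 < 0)))

/-- all rows hold in all dimensions less than `N` -/
def SIB (α : Type*) [DecidableEq α] (rows : List SRow) (erows : List ERow) (N : ℕ) : Prop :=
  ∀ n < N, ∀ (w : ℤ) (X : Num), Fam α n w X →
    (∀ r ∈ rows, r.Hold n w X) ∧ ∀ r ∈ erows, r.Hold n w X

theorem thsum_nonneg (th : List (ℕ × ℕ)) (j : ℕ) (t x : ℤ) : 0 ≤ thsum th j t x := by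
  unfold thsum
  apply List.sum_nonneg
  intro y hy
  obtain ⟨h, _, rfl⟩ := List.mem_map.mp hy
  exact mul_nonneg (by positivity) (le_max_left _ _)

theorem thsum_gap (th : List (ℕ × ℕ)) (j : ℕ) (t x : ℤ) :
    (((th.map fun h => h.1).sum : ℕ) : ℤ) * (8 * max 0 (2 ^ j * x - t)) ≤
      thsum th j t x + 2 ^ j * tgap th x := by
  induction th with
  | nil => simp [thsum, tgap]
  | cons h l ih =>
    unfold thsum tgap at ih ⊢
    rw [List.map_cons, List.map_cons, List.map_cons, List.sum_cons, List.sum_cons, List.sum_cons]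
    have h1 : 8 * max 0 ((2 : ℤ) ^ j * x - t) ≤ max 0 (2 ^ j * (h.2 * x) - 8 * t) +
        2 ^ j * max 0 (8 * x - h.2 * x) := by
      have e1 := le_max_left (0 : ℤ) (2 ^ j * (h.2 * x) - 8 * t)
      have e2 := le_max_right (0 : ℤ) (2 ^ j * (h.2 * x) - 8 * t)
      have e3 : (0 : ℤ) ≤ 2 ^ j * max 0 (8 * x - h.2 * x) := mul_nonneg (by positivity) (le_max_left _ _)
      have e4 : (2 : ℤ) ^ j * (8 * x - h.2 * x) ≤ 2 ^ j * max 0 (8 * x - h.2 * x) :=
        mul_le_mul_of_nonneg_left (le_max_right _ _) (by positivity)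
      rcases max_cases (0 : ℤ) (2 ^ j * x - t) with ⟨e5, _⟩ | ⟨e5, _⟩
      · rw [e5]; linarith
      · rw [e5]; linarith
    have h2 := mul_le_mul_of_nonneg_left h1 (by positivity : (0 : ℤ) ≤ h.1)
    push_cast at ih ⊢
    linarith

/-- the general row with the loss zero -/
theorem SRow.hold_of_at {r : SRow} (he : 2 * r.c ≤ r.e ∧ (r.th.map fun h => h.1).sum = r.c) {n : ℕ} {w : ℤ} {N : Num}
    (hf : Fam α n w N)
    (T : ∀ (s : Finset α) (X : Finset (Finset α)), s.card = n → Sub s X → TC 2 s X) {hv : ℤ}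
    (h : r.at (2 ^ n) N.x hv = true) (hh : hv ≤ hsum r.hs N.x w) : r.Hold n w N := by
  intro hc j t
  unfold SRow.at at h
  have h1 := of_decide_eq_true h hc
  have h2 := hf.tc T j t
  have h3 := hf.E_ge
  have hS := Sc_pos
  have hc0 : (0 : ℤ) ≤ r.c := by positivity
  have hj : (0 : ℤ) < 2 ^ j := by positivity
  have h4 : (r.c : ℤ) * (Sc * N.d j t) ≤
      r.c * (Sc * (2 ^ j * (2 * N.L) + 2 * max 0 ((2 : ℤ) ^ j * (N.x : ℤ) - (t : ℤ)))) :=
    mul_le_mul_of_nonneg_left (mul_le_mul_of_nonneg_left h2 hS.le) hc0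
  have h5 := thsum_gap r.th j t N.x
  rw [he.2] at h5
  have h5' := mul_le_mul_of_nonneg_left h5 (by linarith : (0 : ℤ) ≤ 2 * Sc)
  have h1' := mul_le_mul_of_nonneg_left h1 (mul_nonneg hS.le hj.le)
  have h6 : (2 : ℤ) ^ j * (2 * (r.c * (Sc * N.L))) ≤ 2 ^ j * (r.e * N.E) := by
    apply mul_le_mul_of_nonneg_left _ hj.le
    have h7 : (2 * r.c : ℤ) ≤ r.e := by exact_mod_cast he.1
    have h8 := mul_le_mul_of_nonneg_left h3 (by positivity : (0 : ℤ) ≤ 2 * r.c)
    have h9 := mul_le_mul_of_nonneg_right h7 hf.E0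
    linarith
  have h7 : (2 : ℤ) ^ j * (Sc * hv) ≤ 2 ^ j * (Sc * hsum r.hs N.x w) :=
    mul_le_mul_of_nonneg_left (mul_le_mul_of_nonneg_left hh hS.le) hj.le
  linarith

theorem Fam.dim_one {v : ℤ} {N : Num} (h : Fam α 1 v N) : N.x ≤ 2 ∧ (N.x ≤ 1 → v ≤ 0) ∧ v ≤ 2 := by
  have h1 := h.cap
  have h2 := h.le_x
  refine ⟨by simpa using h1, ?_, ?_⟩
  · intro hx
    obtain ⟨s, X, g1, g2, g3, g4⟩ := h
    obtain ⟨a, ha⟩ := card_eq_one.mp g2
    have e1 := card_half_add' a true X
    have e2 : X.card = N.x := by rw [← g4]; rfl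
    have e3 := g3 a (by rw [ha]; exact mem_singleton_self a) true
    have e4 := g3 a (by rw [ha]; exact mem_singleton_self a) false
    simp only [Bool.not_true] at e1
    rcases Nat.eq_zero_or_pos (half a true X).card with h5 | h5
    · rw [h5] at e3
      simpa using e3
    · have h6 : (half a false X).card = 0 := by omega
      rw [h6] at e4
      simpa using e4
  · have : (N.x : ℤ) ≤ 2 := by exact_mod_cast (by simpa using h1 : N.x ≤ 2)
    linarith

theorem SRow.hold_base {r : SRow} (hb : r.base = true) {n : ℕ} {w : ℤ} {N : Num}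
    (hf : Fam α n w N)
    (T : ∀ (s : Finset α) (X : Finset (Finset α)), s.card = n → Sub s X → TC 2 s X)
    (hn : n ≤ 1 ∨ N.x = 0) : r.Hold n w N := by
  unfold SRow.base at hb
  simp only [Bool.and_eq_true] at hb
  obtain ⟨⟨⟨⟨⟨be, b1⟩, b2⟩, b4⟩, b5⟩, b6⟩ := hb
  have be' := of_decide_eq_true be
  by_cases hx : N.x = 0
  · -- the empty family
    intro hc j t
    have h1 := hf.zero hx j t
    have h2 := hf.E0
    have hS := Sc_pos
    have hc0 : (0 : ℤ) ≤ r.c := by positivity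
    have ht := mul_nonneg hS.le (thsum_nonneg r.th j t N.x)
    have h3 : (r.c : ℤ) * (Sc * N.d j t) ≤ r.c * (Sc * 0) :=
      mul_le_mul_of_nonneg_left (mul_le_mul_of_nonneg_left h1 hS.le) hc0
    have h4 : 0 ≤ r.bV := by
      rw [Bool.or_eq_true] at b6
      rcases b6 with h | h
      · exact of_decide_eq_true h
      · obtain ⟨c, h5, h6⟩ := List.any_eq_true.mp h
        have h7 := hc c h5
        have h8 : c.1 < 0 := of_decide_eq_true h6
        rw [hx] at h7
        have h9 : c.1 * (2 : ℤ) ^ n < 0 := mul_neg_of_neg_of_pos h8 (by positivity)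
        push_cast at h7
        linarith
    have h5 := hsum_nonneg r.hs N.x w
    have h6 : (0 : ℤ) ≤ 2 ^ j * (r.e * N.E +
        Sc * (r.bV * 2 ^ n + r.bx * N.x + hsum r.hs N.x w)) := by
      apply mul_nonneg (by positivity)
      have h7 : (0 : ℤ) ≤ r.bV * 2 ^ n + r.bx * N.x + hsum r.hs N.x w := by
        rw [hx] at h5 ⊢
        have : 0 ≤ r.bV * (2 : ℤ) ^ n := mul_nonneg h4 (by positivity)
        push_cast at h5 ⊢
        linarith
      have h8 := mul_nonneg hS.le h7
      have h9 := mul_nonneg (by positivity : (0 : ℤ) ≤ r.e) h2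
      linarith
    linarith
  · have hn1 : n ≤ 1 := by
      rcases hn with h | h
      · exact h
      · exact absurd h hx
    have hx1 : 1 ≤ N.x := Nat.one_le_iff_ne_zero.mpr hx
    rcases Nat.eq_zero_or_pos n with h0 | h0
    · subst h0
      have hc := hf.cap
      have hx2 : N.x = 1 := by
        rw [pow_zero] at hc
        omega
      refine SRow.hold_of_at be' hf T (hv := 0) ?_ (hsum_nonneg _ _ _)
      rw [hx2, pow_zero]
      exact b2
    · have h1 : n = 1 := by omega
      subst h1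
      obtain ⟨c1, c2, c3⟩ := hf.dim_one
      rcases Nat.lt_or_ge 1 N.x with h | h
      · have hx2 : N.x = 2 := by omega
        refine SRow.hold_of_at be' hf T (hv := hsum r.hs 2 2) ?_ ?_
        · rw [hx2, pow_one]
          exact b5
        · rw [hx2]
          exact hsum_anti _ _ c3
      · have hx2 : N.x = 1 := by omega
        refine SRow.hold_of_at be' hf T (hv := hsum r.hs 1 0) ?_ ?_
        · rw [hx2, pow_one]
          exact b4
        · rw [hx2]
          exact hsum_anti _ _ (c2 h)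

end Pool.Agent.EdgeIso.Frame
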