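import Pool.Agent.Lib.MP_48c8f3_co.BasR
import Pool.Agent.Lib.MP_48c8f3_co.SNc
import Pool.Agent.Lib.MP_48c8f3_co.KO

set_option autoImplicit false
set_option linter.unusedSectionVars false

/-!
MP_48c8f3_co: the numbers of a family, normalised in an octave.  `MM` is the deficiency of the number
of edges, `QQ` the deficiency of the number of edges of an initial segment, `YY` the deficiency of
`x log x`.
-/

namespace Pool.Agent.EdgeIso.Frame

open Finset Pool.Agent.EdgeIso.Smooth

/-- the deficiency of `2 g` in the octave of `2 ^ R` -/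
def QQ (R x : ℕ) : ℤ := (R + 1) * x - 2 * g x

/-- `Sc` times the deficiency of `x log x` in the octave of `2 ^ R` -/
noncomputable def YY (R x : ℕ) : ℤ := Sc * ((R + 1) * x) - lam Sc x

/-- the deficiency of the number of edges in the octave of `2 ^ R` -/
def MM (R : ℕ) (N : Num) : ℤ := N.L + QQ R N.x

theorem lx_le_oct {R x : ℕ} (h : x ≤ 2 * 2 ^ R) : lx x ≤ (R + 1) * x := by
  rcases Nat.eq_zero_or_pos x with h0 | h0
  · subst h0
    simp [lx]
  · have hx : (0 : ℝ) < x := by exact_mod_cast h0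
    have h1 : (x : ℝ) ≤ 2 ^ (R + 1) := by
      have : x ≤ 2 ^ (R + 1) := by rw [pow_succ]; linarith
      exact_mod_cast this
    have h2 : Real.logb 2 x ≤ R + 1 := by
      have h3 := Real.logb_le_logb_of_le (b := 2) (by norm_num) hx h1
      rw [Real.logb_pow, Real.logb_self_eq_one (by norm_num)] at h3
      push_cast at h3
      linarith
    unfold lx
    have := mul_le_mul_of_nonneg_left h2 hx.le
    linarith

theorem QQ_nonneg {R x : ℕ} (h : x ≤ 2 * 2 ^ R) : 0 ≤ QQ R x := by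
  have h1 := lx_le_oct h
  have h2 := two_g_le x
  have h3 : ((2 * g x : ℤ) : ℝ) ≤ (((R + 1) * x : ℤ) : ℝ) := by
    push_cast
    linarith
  have h4 : (2 * g x : ℤ) ≤ (R + 1) * x := by exact_mod_cast h3
  unfold QQ
  linarith

theorem YY_nonneg {R x : ℕ} (h : x ≤ 2 * 2 ^ R) : 0 ≤ YY R x := by
  have h1 := lx_le_oct h
  have h2 := lam_le Sc x
  have hS : (0 : ℝ) ≤ (Sc : ℝ) := by positivity
  have h3 := mul_le_mul_of_nonneg_left h1 hS
  have h5 : ((lam Sc x : ℤ) : ℝ) ≤ ((Sc * ((R + 1) * x) : ℤ) : ℝ) := by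
    push_cast
    linarith
  have h4 : (lam Sc x : ℤ) ≤ Sc * ((R + 1) * x) := by exact_mod_cast h5
  unfold YY
  linarith

theorem YY_le (R x : ℕ) : YY R x ≤ Sc * QQ R x := by
  have h := lam_ge Sc x
  unfold YY QQ
  have e : (Sc : ℤ) * ((R + 1) * x - 2 * g x) = Sc * ((R + 1) * x) - 2 * (Sc * g x) := by ring
  rw [e]
  linarith

variable {α : Type*} [DecidableEq α] {n : ℕ} {v : ℤ} {N : Num}

theorem Fam.MM_nonneg (h : Fam α n v N) {R : ℕ} (hx : N.x ≤ 2 * 2 ^ R) : 0 ≤ MM R N := by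
  have h1 := h.L0
  have h2 := QQ_nonneg hx
  unfold MM
  linarith

/-- the smooth loss -/
theorem Fam.E_MY (h : Fam α n v N) (R : ℕ) : N.E = Sc * MM R N - YY R N.x := by
  rw [h.E_eq]
  unfold MM YY QQ
  ring

/-- the octave tables in terms of `MM` -/
theorem gamL_MM {R R' j : ℕ} (h : R = R' + j) :
    2 ^ j * Chk.gamL R' N.x N.L = 2 ^ j * (MM R N + (1 - (j : ℤ)) * N.x) - 2 * 2 ^ R := by
  subst h
  unfold Chk.gamL MM QQ
  rw [pow_add]
  push_cast
  ring

/-- the relation between the numbers of edges -/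
theorem Mv.M_le {F K W : Num} {f : ℕ} (h : Mv n F K W f) (R : ℕ) :
    MM R K + MM R W - 2 * W.x + 2 * f ≤ MM R F := by
  have h1 := h.Lr
  have h2 := h.sz
  have h3 : min (K.x : ℤ) W.x = W.x := min_eq_right (by exact_mod_cast h.le)
  unfold dg at h1
  rw [h3, h2] at h1
  have h4 : (K.x : ℤ) + W.x = F.x := by exact_mod_cast h2
  unfold MM QQ
  rw [← h4]
  linarith

/-- the defect in terms of `QQ` -/
theorem dg_QQ {p q : ℕ} (h : q ≤ p) (R : ℕ) : 2 * dg p q = QQ R p + QQ R q - QQ R (p + q) - 2 * q := by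
  have h3 : min (p : ℤ) q = q := min_eq_right (by exact_mod_cast h)
  unfold dg QQ
  rw [h3]
  push_cast
  ring

/-- the entropy term in terms of `YY` -/
theorem elam_YY (p q R : ℕ) : elam Sc p q = YY R p + YY R q - YY R (p + q) := by
  unfold elam YY
  push_cast
  ring

/-! ### distances at different scales -/

theorem Fam.d_scale (h : Fam α n v N) (j t a : ℕ) : N.d (j + a) (2 ^ a * t) = 2 ^ a * N.d j t := by
  induction a with
  | zero => simp
  | succ a ih =>
    have h1 := h.succ_le (j + a) (2 ^ a * t)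
    have h2 := h.le_succ (j + a) (2 ^ a * t)
    have h3 : N.d (j + a + 1) (2 * (2 ^ a * t)) = 2 * N.d (j + a) (2 ^ a * t) := by
      apply le_antisymm
      · exact_mod_cast h1
      · exact_mod_cast h2
    rw [← add_assoc, pow_succ', mul_assoc, h3, ih, mul_assoc]

/-- Lipschitz bound between distances at two scales -/
theorem Fam.d_lip (h : Fam α n v N) (j t i s : ℕ) :
    (2 : ℤ) ^ i * N.d j t ≤ 2 ^ j * N.d i s + 2 * max 0 (2 ^ j * (s : ℤ) - 2 ^ i * t) := by
  have h1 := h.d_scale j t i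
  have h2 := h.d_scale i s j
  rw [Nat.add_comm i j] at h2
  have e1 : (2 : ℤ) ^ i * N.d j t = N.d (j + i) (2 ^ i * t) := by rw [h1]; push_cast; ring
  have e2 : (2 : ℤ) ^ j * N.d i s = N.d (j + i) (2 ^ j * s) := by rw [h2]; push_cast; ring
  rw [e1, e2]
  rcases le_total (2 ^ i * t) (2 ^ j * s) with h3 | h3
  · have h4 := h.lip (j + i) h3
    have h5 := le_max_right (0 : ℤ) (2 ^ j * (s : ℤ) - 2 ^ i * t)
    push_cast at h4
    linarith
  · have h4 := h.anti (j + i) h3
    have h5 := le_max_left (0 : ℤ) (2 ^ j * (s : ℤ) - 2 ^ i * t)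
    linarith

end Pool.Agent.EdgeIso.Frame
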