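import Pool.Agent.Lib.MP_48c8f3_co.Bas
import Pool.Agent.Lib.MP_48c8f3_co.KNa

set_option autoImplicit false
set_option linter.unusedSectionVars false

/-!
MP_48c8f3_co: items of a system at a point whose coordinates are multiples of numbers of families.
-/

namespace Pool.Agent.EdgeIso.Chk

open Finset Pool.Agent.EdgeIso.Frame Pool.Agent.EdgeIso.Cell Pool.Agent.EdgeIso.Walsh
  Pool.Agent.EdgeIso.Smooth

/-- the penalty item from rows in normal form -/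
theorem tt_row {S : SysL} {x : ℕ → ℤ} {ex eg hx cg g' c rc FL FU Fx FT cb T W : ℕ}
    {L U : List ℤ} {N R γ X : ℕ} {v l κ : ℤ}
    (hhx : 0 < hx) (hGG : S.GG = hx * g') (hcg : cg = 2 * hx)
    (hFL : (FL : ℤ) * dot L x = FT * (c * g') * (κ * l))
    (hFU : (FU : ℤ) * dot U x = FT * (rc * g') * (κ * v)) (hFx : Fx = FT * g')
    (hcb : cb = 2 * rc) (hg : 2 ^ N * g' = 2 ^ R * 2 ^ γ) (hκ : 0 < κ) (h0 : x 0 = κ * 2 ^ R)
    (hU : κ * v ≤ dot (S.fe eg) x) (hX : dot (S.fe ex) x = κ * X)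
    (h : ∀ b : ℕ, b < 4096 → IRow c rc γ b (fun i => tab T W b i) N X v l) :
    (ItemL.tt ex eg hx cg L U FL FU Fx FT cb T W).Sem S x := by
  intro i b hi hb h1 h2 h3
  have hx0 : (0 : ℤ) < hx := by exact_mod_cast hhx
  rw [hGG] at h1 h2 h3
  push_cast at h1 h2 h3
  have k1 : (i : ℤ) * x 0 ≤ g' * dot (S.fe ex) x := by
    apply le_of_mul_le_mul_left _ hx0
    linarith
  have k2 : g' * dot (S.fe ex) x ≤ ((i : ℤ) + 1) * x 0 := by
    apply le_of_mul_le_mul_left _ hx0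
    linarith
  have k3 : (g' : ℤ) * dot (S.fe eg) x ≤ 2 * b * x 0 := by
    apply le_of_mul_le_mul_left _ hx0
    rw [hcg] at h3
    push_cast at h3
    linarith
  have k4 : (g' : ℤ) * (κ * v) ≤ 2 * b * x 0 :=
    (mul_le_mul_of_nonneg_left hU (by positivity)).trans k3
  have hgz : (2 : ℤ) ^ N * g' = 2 ^ R * 2 ^ γ := by exact_mod_cast hg
  have hγ : (0 : ℤ) < 2 ^ γ := by positivity
  have hR : (0 : ℤ) < 2 ^ R := by positivity
  have hN : (0 : ℤ) < 2 ^ N := by positivity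
  have hg0 : (0 : ℤ) < g' := by
    have : (0 : ℤ) < 2 ^ N * g' := by rw [hgz]; positivity
    exact (mul_pos_iff_of_pos_left hN).mp this
  rw [hX, h0] at k1 k2
  rw [h0] at k4
  have q1 : (i : ℤ) * 2 ^ R ≤ g' * X := by
    apply le_of_mul_le_mul_left _ hκ
    linarith
  have q2 : g' * (X : ℤ) ≤ ((i : ℤ) + 1) * 2 ^ R := by
    apply le_of_mul_le_mul_left _ hκ
    linarith
  have q3 : g' * v ≤ 2 * b * 2 ^ R := by
    apply le_of_mul_le_mul_left _ hκ
    linarith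
  -- transfer to the lattice
  have e1 : g' * ((2 : ℤ) ^ N * i) = 2 ^ γ * (i * 2 ^ R) := by linear_combination (i : ℤ) * hgz
  have p1 : (2 : ℤ) ^ N * i ≤ 2 ^ γ * X := by
    apply le_of_mul_le_mul_left _ hg0
    rw [e1]
    have := mul_le_mul_of_nonneg_left q1 hγ.le
    linarith
  have p2 : (2 : ℤ) ^ γ * X ≤ 2 ^ N * ((i : ℤ) + 1) := by
    apply le_of_mul_le_mul_left _ hg0
    have e2 : g' * ((2 : ℤ) ^ N * ((i : ℤ) + 1)) = 2 ^ γ * (((i : ℤ) + 1) * 2 ^ R) := by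
      linear_combination ((i : ℤ) + 1) * hgz
    rw [e2]
    have := mul_le_mul_of_nonneg_left q2 hγ.le
    linarith
  have p3 : (0 : ℤ) ≤ 2 ^ N * (2 * b) - 2 ^ γ * v := by
    have e3 : g' * ((2 : ℤ) ^ N * (2 * b)) = 2 ^ γ * (2 * b * 2 ^ R) := by
      linear_combination (2 * (b : ℤ)) * hgz
    have h4 : g' * (2 ^ γ * v) ≤ g' * ((2 : ℤ) ^ N * (2 * b)) := by
      rw [e3]
      have := mul_le_mul_of_nonneg_left q3 hγ.le
      linarith
    have := le_of_mul_le_mul_left h4 hg0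
    linarith
  have h4 := h b hb i (by exact_mod_cast p1) (by exact_mod_cast p2)
  rw [max_eq_right p3] at h4
  -- multiply by `g'` and cancel `2 ^ γ`
  have h5 := mul_le_mul_of_nonneg_left h4 hg0.le
  have h6 : 2 ^ γ * ((2 ^ R * ((i : ℤ) + 1) - g' * X) * tab T W b i +
      (g' * (X : ℤ) - 2 ^ R * i) * tab T W b (i + 1)) ≤
      2 ^ γ * (c * (g' * l) + rc * (2 ^ R * (2 * b) - g' * v)) := by
    refine le_trans (le_of_eq ?_) (h5.trans (le_of_eq ?_))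
    · linear_combination (-(((i : ℤ) + 1) * tab T W b i) + (i : ℤ) * tab T W b (i + 1)) * hgz
    · linear_combination ((rc : ℤ) * (2 * b)) * hgz
  have h7 := le_of_mul_le_mul_left h6 hγ
  have h8 := mul_nonneg (mul_nonneg (Int.natCast_nonneg FT) hκ.le) (sub_nonneg.mpr h7)
  refine h8.trans (le_of_eq ?_)
  rw [hFL, hFU, hFx, hcb, hX, h0]
  push_cast
  ring

/-- the plain item from rows in normal form -/
theorem tl_row {S : SysL} {x : ℕ → ℤ} {ex eg hx cg g' c rc FL Fx FT T W : ℕ}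
    {L : List ℤ} {N R γ X : ℕ} {v l κ : ℤ}
    (hhx : 0 < hx) (hGG : S.GG = hx * g') (hcg : cg = 2 * hx)
    (hFL : (FL : ℤ) * dot L x = FT * (c * g') * (κ * l)) (hFx : Fx = FT * g')
    (hg : 2 ^ N * g' = 2 ^ R * 2 ^ γ) (hκ : 0 < κ) (h0 : x 0 = κ * 2 ^ R)
    (hU : dot (S.fe eg) x ≤ κ * v) (hX : dot (S.fe ex) x = κ * X)
    (h : ∀ b : ℕ, b < 4096 → IRow c rc γ b (fun i => tab T W b i) N X v l) :
    (ItemL.tl ex eg hx cg L FL Fx FT T W).Sem S x := by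
  intro i b hi hb h1 h2 h3
  have hx0 : (0 : ℤ) < hx := by exact_mod_cast hhx
  rw [hGG] at h1 h2 h3
  push_cast at h1 h2 h3
  have k1 : (i : ℤ) * x 0 ≤ g' * dot (S.fe ex) x := by
    apply le_of_mul_le_mul_left _ hx0
    linarith
  have k2 : g' * dot (S.fe ex) x ≤ ((i : ℤ) + 1) * x 0 := by
    apply le_of_mul_le_mul_left _ hx0
    linarith
  have k3 : 2 * b * x 0 ≤ (g' : ℤ) * dot (S.fe eg) x := by
    apply le_of_mul_le_mul_left _ hx0
    rw [hcg] at h3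
    push_cast at h3
    linarith
  have k4 : 2 * b * x 0 ≤ (g' : ℤ) * (κ * v) :=
    k3.trans (mul_le_mul_of_nonneg_left hU (by positivity))
  have hgz : (2 : ℤ) ^ N * g' = 2 ^ R * 2 ^ γ := by exact_mod_cast hg
  have hγ : (0 : ℤ) < 2 ^ γ := by positivity
  have hR : (0 : ℤ) < 2 ^ R := by positivity
  have hN : (0 : ℤ) < 2 ^ N := by positivity
  have hg0 : (0 : ℤ) < g' := by
    have : (0 : ℤ) < 2 ^ N * g' := by rw [hgz]; positivity
    exact (mul_pos_iff_of_pos_left hN).mp this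
  rw [hX, h0] at k1 k2
  rw [h0] at k4
  have q1 : (i : ℤ) * 2 ^ R ≤ g' * X := by
    apply le_of_mul_le_mul_left _ hκ
    linarith
  have q2 : g' * (X : ℤ) ≤ ((i : ℤ) + 1) * 2 ^ R := by
    apply le_of_mul_le_mul_left _ hκ
    linarith
  have q3 : 2 * b * 2 ^ R ≤ g' * v := by
    apply le_of_mul_le_mul_left _ hκ
    linarith
  have e1 : g' * ((2 : ℤ) ^ N * i) = 2 ^ γ * (i * 2 ^ R) := by linear_combination (i : ℤ) * hgz
  have p1 : (2 : ℤ) ^ N * i ≤ 2 ^ γ * X := by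
    apply le_of_mul_le_mul_left _ hg0
    rw [e1]
    have := mul_le_mul_of_nonneg_left q1 hγ.le
    linarith
  have p2 : (2 : ℤ) ^ γ * X ≤ 2 ^ N * ((i : ℤ) + 1) := by
    apply le_of_mul_le_mul_left _ hg0
    have e2 : g' * ((2 : ℤ) ^ N * ((i : ℤ) + 1)) = 2 ^ γ * (((i : ℤ) + 1) * 2 ^ R) := by
      linear_combination ((i : ℤ) + 1) * hgz
    rw [e2]
    have := mul_le_mul_of_nonneg_left q2 hγ.le
    linarith
  have p3 : 2 ^ N * (2 * b) - 2 ^ γ * v ≤ (0 : ℤ) := by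
    have e3 : g' * ((2 : ℤ) ^ N * (2 * b)) = 2 ^ γ * (2 * b * 2 ^ R) := by
      linear_combination (2 * (b : ℤ)) * hgz
    have h4 : g' * ((2 : ℤ) ^ N * (2 * b)) ≤ g' * (2 ^ γ * v) := by
      rw [e3]
      have := mul_le_mul_of_nonneg_left q3 hγ.le
      linarith
    have := le_of_mul_le_mul_left h4 hg0
    linarith
  have h4 := h b hb i (by exact_mod_cast p1) (by exact_mod_cast p2)
  rw [max_eq_left p3] at h4
  have h5 := mul_le_mul_of_nonneg_left h4 hg0.le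
  have h6 : 2 ^ γ * ((2 ^ R * ((i : ℤ) + 1) - g' * X) * tab T W b i +
      (g' * (X : ℤ) - 2 ^ R * i) * tab T W b (i + 1)) ≤ 2 ^ γ * (c * (g' * l)) := by
    refine le_trans (le_of_eq ?_) (h5.trans (le_of_eq ?_))
    · linear_combination (-(((i : ℤ) + 1) * tab T W b i) + (i : ℤ) * tab T W b (i + 1)) * hgz
    · ring
  have h7 := le_of_mul_le_mul_left h6 hγ
  have h8 := mul_nonneg (mul_nonneg (Int.natCast_nonneg FT) hκ.le) (sub_nonneg.mpr h7)
  refine h8.trans (le_of_eq ?_)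
  rw [hFL, hFx, hX, h0]
  push_cast
  ring

/-- an item which is used in the octave of `U / 2 ^ j` only -/
theorem gate_row {S : SysL} {x : ℕ → ℤ} {e a b : ℕ} {it : ItemL} {κ : ℤ} {R X j : ℕ}
    (hX : dot (S.fe e) x = κ * X) (h0 : x 0 = κ * 2 ^ R) (hκ : 0 < κ) (hGG : 0 < S.GG)
    (ha : a * 2 ^ j = S.GG)
    (hb : b = 2 * a) (h : 2 ^ R ≤ 2 ^ j * X → 2 ^ j * X ≤ 2 * 2 ^ R → it.Sem S x) :
    (ItemL.gate e a b it).Sem S x := by
  intro h1 h2
  rw [hX, h0] at h1 h2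
  have hGz : (0 : ℤ) < S.GG := by exact_mod_cast hGG
  have hG : (0 : ℤ) < κ * S.GG := by positivity
  have hz : (a : ℤ) * 2 ^ j = S.GG := by exact_mod_cast ha
  have hj : (0 : ℤ) < 2 ^ j := by positivity
  have e1 : κ * S.GG * (2 ^ R : ℤ) ≤ κ * S.GG * (2 ^ j * X) := by
    have := mul_le_mul_of_nonneg_left h1 hj.le
    calc κ * S.GG * (2 ^ R : ℤ) = 2 ^ j * (a * (κ * 2 ^ R)) := by rw [← hz]; ring
      _ ≤ 2 ^ j * (S.GG * (κ * X)) := this
      _ = κ * S.GG * (2 ^ j * X) := by ring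
  have e2 : κ * S.GG * (2 ^ j * X : ℤ) ≤ κ * S.GG * (2 * 2 ^ R) := by
    have := mul_le_mul_of_nonneg_left h2 hj.le
    calc κ * S.GG * (2 ^ j * X : ℤ) = 2 ^ j * (S.GG * (κ * X)) := by ring
      _ ≤ 2 ^ j * (b * (κ * 2 ^ R)) := this
      _ = κ * S.GG * (2 * 2 ^ R) := by rw [← hz, hb]; push_cast; ring
  exact h (by exact_mod_cast le_of_mul_le_mul_left e1 hG)
    (by exact_mod_cast le_of_mul_le_mul_left e2 hG)

end Pool.Agent.EdgeIso.Chk
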