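import Pool.Agent.Lib.MP_48c8f3_co.BasR
import Pool.Agent.Lib.MP_48c8f3_co.ESd
import Pool.Agent.Lib.MP_48c8f3_co.KO

set_option autoImplicit false
set_option linter.unusedSectionVars false

/-!
MP_48c8f3_co: one-row tables, at all scales, for the number of edges of an initial segment (upper and
lower bound) and for `x log x` (upper and lower bound).
-/

namespace Pool.Agent.EdgeIso.Chk

open Finset Pool.Agent.EdgeIso.Frame Pool.Agent.EdgeIso.Cell Pool.Agent.EdgeIso.Walsh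
  Pool.Agent.EdgeIso.LemmaP Pool.Agent.EdgeIso.Smooth

/-- the row `0` of a table, for the number `L` -/
def Row0 (c γ T W N x : ℕ) (L : ℤ) : Prop :=
  ∀ i : ℕ, 2 ^ N * i ≤ 2 ^ γ * x → 2 ^ γ * x ≤ 2 ^ N * (i + 1) →
    (2 ^ N * ((i : ℤ) + 1) - 2 ^ γ * x) * tab T W 0 i +
      (2 ^ γ * (x : ℤ) - 2 ^ N * i) * tab T W 0 (i + 1) ≤ c * (2 ^ γ * L)

theorem rows_of_row0 {c rc γ T W N x : ℕ} {v L : ℤ} (hT : T < 2 ^ (24 * W))
    (h : Row0 c γ T W N x L) : Rows c rc γ T W N x v L := by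
  intro b i g1 g2
  simp only
  have h0 := h i g1 g2
  have hm := le_max_left (0 : ℤ) (2 ^ N * (2 * b) - 2 ^ γ * v)
  have hr : (0 : ℤ) ≤ rc * max 0 (2 ^ N * (2 * b) - 2 ^ γ * v) := by positivity
  rcases Nat.eq_zero_or_pos b with hb | hb
  · subst hb
    linarith
  · have t0 : ∀ k, tab T W b k = 0 := fun k => tab_zero (B := 1) (by rwa [Nat.one_mul]) hb
    rw [t0, t0]
    have z1 : (2 : ℤ) ^ N * i ≤ 2 ^ γ * x := by exact_mod_cast g1
    have z2 : (2 : ℤ) ^ γ * x ≤ 2 ^ N * ((i : ℤ) + 1) := by exact_mod_cast g2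
    have p1 : (0 : ℤ) ≤ (2 ^ N * ((i : ℤ) + 1) - 2 ^ γ * x) * tab T W 0 i :=
      mul_nonneg (by linarith) (by positivity)
    have p2 : (0 : ℤ) ≤ (2 ^ γ * (x : ℤ) - 2 ^ N * i) * tab T W 0 (i + 1) :=
      mul_nonneg (by linarith) (by positivity)
    push_cast at *
    linarith

/-- a row from real numbers; `κ` is a common scale -/
theorem row0_of_real {c γ T W N x I : ℕ} {L : ℤ} {f : ℕ → ℝ} {κ : ℝ} (hκ : 0 < κ)
    (hx : 2 ^ γ * x ≤ 2 ^ N * I) (hT : ∀ i ≤ I, (tab T W 0 i : ℝ) ≤ f i)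
    (hf : ∀ i : ℕ, 2 ^ N * i ≤ 2 ^ γ * x → 2 ^ γ * x ≤ 2 ^ N * (i + 1) → i + 1 ≤ I →
      κ * ((2 ^ N * ((i : ℝ) + 1) - 2 ^ γ * x) * f i + (2 ^ γ * (x : ℝ) - 2 ^ N * i) * f (i + 1)) ≤
        κ * (c * (2 ^ γ * L)))
    (hI : 2 ^ γ * x = 2 ^ N * I → 2 ^ N * f I ≤ c * (2 ^ γ * L)) : Row0 c γ T W N x L := by
  intro i g1 g2
  have z1 : (2 : ℝ) ^ N * i ≤ 2 ^ γ * x := by exact_mod_cast g1
  have z2 : (2 : ℝ) ^ γ * x ≤ 2 ^ N * ((i : ℝ) + 1) := by exact_mod_cast g2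
  have hN : 0 < 2 ^ N := by positivity
  have hi : i ≤ I := Nat.le_of_mul_le_mul_left (g1.trans hx) hN
  have key : (2 ^ N * ((i : ℝ) + 1) - 2 ^ γ * x) * tab T W 0 i +
      (2 ^ γ * (x : ℝ) - 2 ^ N * i) * tab T W 0 (i + 1) ≤ c * (2 ^ γ * L) := by
    rcases Nat.lt_or_ge i I with h | h
    · have h1 := le_of_mul_le_mul_left (hf i g1 g2 h) hκ
      have m0 := mul_le_mul_of_nonneg_left (hT i hi)
        (by linarith : (0 : ℝ) ≤ 2 ^ N * ((i : ℝ) + 1) - 2 ^ γ * x)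
      have m1 := mul_le_mul_of_nonneg_left (hT (i + 1) h)
        (by linarith : (0 : ℝ) ≤ 2 ^ γ * (x : ℝ) - 2 ^ N * i)
      linarith
    · have h4 : i = I := le_antisymm hi h
      subst h4
      have h5 : 2 ^ γ * x = 2 ^ N * i := le_antisymm hx g1
      have h6 := hI h5
      have h7 : (2 : ℝ) ^ γ * x = 2 ^ N * i := by exact_mod_cast h5
      have m0 := mul_le_mul_of_nonneg_left (hT i hi) (by positivity : (0 : ℝ) ≤ 2 ^ N)
      rw [h7]
      linarith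
  have fin : (((2 ^ N * ((i : ℤ) + 1) - 2 ^ γ * x) * tab T W 0 i +
      (2 ^ γ * (x : ℤ) - 2 ^ N * i) * tab T W 0 (i + 1) : ℤ) : ℝ) ≤
      ((c * (2 ^ γ * L) : ℤ) : ℝ) := by
    push_cast
    exact key
  exact_mod_cast fin

/-- lower bound of the deficiency by interpolation, all scales -/
theorem tk_interp_lower {γ N i x : ℕ} (h1 : 2 ^ N * i ≤ 2 ^ γ * x)
    (h2 : 2 ^ γ * x ≤ 2 ^ N * (i + 1)) :
    (2 ^ N * ((i : ℤ) + 1) - 2 ^ γ * x) * tk γ i + (2 ^ γ * (x : ℤ) - 2 ^ N * i) * tk γ (i + 1) ≤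
      2 ^ γ * tk N x := by
  rcases le_total γ N with h | h
  · obtain ⟨k, rfl⟩ := Nat.exists_eq_add_of_le h
    have hg : 0 < 2 ^ γ := Nat.pow_pos (by omega)
    rw [pow_add, Nat.mul_assoc] at h1 h2
    have h1' := Nat.le_of_mul_le_mul_left h1 hg
    have h2' := Nat.le_of_mul_le_mul_left h2 hg
    have h3 := tk_lower (n := γ) h1' h2'
    have h4 := mul_le_mul_of_nonneg_left h3 (by positivity : (0 : ℤ) ≤ 2 ^ γ)
    rw [pow_add]
    linarith
  · -- the point is a lattice point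
    obtain ⟨k, rfl⟩ := Nat.exists_eq_add_of_le h
    have hN : 0 < 2 ^ N := Nat.pow_pos (by omega)
    rw [pow_add, Nat.mul_assoc] at h1 h2
    have h1' := Nat.le_of_mul_le_mul_left h1 hN
    have h2' := Nat.le_of_mul_le_mul_left h2 hN
    have h3 := tk_pow_mul k N x
    have hp : (0 : ℤ) ≤ 2 ^ N := by positivity
    have hcase : 2 ^ k * x = i ∨ 2 ^ k * x = i + 1 := by omega
    rcases hcase with hc | hc
    · rw [hc] at h3
      have hz : (2 : ℤ) ^ k * x = i := by exact_mod_cast hc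
      have e1 : (2 : ℤ) ^ (N + k) * x = 2 ^ N * i := by rw [pow_add, mul_assoc, hz]
      rw [e1, h3, pow_add]
      linarith
    · rw [hc] at h3
      have hz : (2 : ℤ) ^ k * x = i + 1 := by exact_mod_cast hc
      have e1 : (2 : ℤ) ^ (N + k) * x = 2 ^ N * (i + 1) := by rw [pow_add, mul_assoc, hz]
      rw [e1, h3, pow_add]
      linarith

/-! ### the number of edges of an initial segment -/

/-- check of the table `(γ + 1) i - 2 g i` -/
def gUB (GT γ T W I : ℕ) : Bool :=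
  allB (I + 1) (fun i => Nat.ble (Nat.add (tab T W 0 i) (Nat.mul 2 (gt GT i))) (Nat.mul (γ + 1) i))

/-- check of the table `C * 2 ^ γ - 3 ((γ + 1) i - 2 g i) - 2` -/
def gLB (GT γ C T W I : ℕ) : Bool :=
  allB (I + 1) (fun i => Nat.ble (Nat.add (Nat.add (tab T W 0 i) 2) (Nat.mul (3 * (γ + 1)) i))
    (Nat.add (C * 2 ^ γ) (Nat.mul 6 (gt GT i))))

/-- upper bound of `2 g x` -/
theorem row_gU {GT γ T W I MM R x : ℕ} (hGT : gtOK GT MM = true) (hI : I < 2 * MM)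
    (h : gUB GT γ T W I = true) (hx : 2 ^ γ * x ≤ 2 ^ R * I) :
    Row0 1 γ T W R x ((R + 1) * x - 2 * g x) := by
  have hT : ∀ i ≤ I, (tab T W 0 i : ℝ) ≤ ((tk γ i + i : ℤ) : ℝ) := by
    intro i hi
    unfold gUB at h
    have h1 := allB_spec _ _ h i (by omega)
    rw [gt_eq hGT i (by omega)] at h1
    have h2 := Nat.le_of_ble_eq_true h1
    have h3 : tab T W 0 i + 2 * g i ≤ (γ + 1) * i := h2
    have h4 : ((tab T W 0 i + 2 * g i : ℕ) : ℝ) ≤ (((γ + 1) * i : ℕ) : ℝ) := by exact_mod_cast h3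
    unfold tk
    push_cast at h4 ⊢
    linarith
  refine row0_of_real (κ := 1) one_pos hx hT ?_ ?_
  · intro i g1 g2 _
    have h1 := tk_interp_lower g1 g2
    have h2 : (((2 ^ R * ((i : ℤ) + 1) - 2 ^ γ * x) * tk γ i +
      (2 ^ γ * (x : ℤ) - 2 ^ R * i) * tk γ (i + 1) : ℤ) : ℝ) ≤ ((2 ^ γ * tk R x : ℤ) : ℝ) := by
      exact_mod_cast h1
    have h3 : (tk R x : ℝ) = R * x - 2 * g x := by
      unfold tk
      push_cast
      ring
    push_cast at h2 ⊢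
    rw [h3] at h2
    linarith
  · intro h5
    have h1 := tk_interp_lower (γ := γ) (N := R) (i := I) (x := x) h5.ge
      (h5.le.trans (Nat.mul_le_mul_left _ (Nat.le_succ _)))
    have h2 : (((2 ^ R * ((I : ℤ) + 1) - 2 ^ γ * x) * tk γ I +
      (2 ^ γ * (x : ℤ) - 2 ^ R * I) * tk γ (I + 1) : ℤ) : ℝ) ≤ ((2 ^ γ * tk R x : ℤ) : ℝ) := by
      exact_mod_cast h1
    have h3 : (tk R x : ℝ) = R * x - 2 * g x := by
      unfold tk
      push_cast
      ring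
    have h4 : (2 : ℝ) ^ γ * x = 2 ^ R * I := by exact_mod_cast h5
    push_cast at h2 ⊢
    rw [h3, h4] at h2
    have h6 : (2 : ℝ) ^ γ * ((R + 1) * x - 2 * g x) =
        2 ^ γ * (R * x - 2 * g x) + 2 ^ γ * x := by ring
    rw [h6, h4]
    linarith

/-- lower bound of `2 g x` -/
theorem row_gL {GT γ C T W I MM R x : ℕ} (hGT : gtOK GT MM = true) (hI : I < 2 * MM)
    (h : gLB GT γ C T W I = true) (hx : 2 ^ γ * x ≤ 2 ^ R * I) :
    Row0 1 γ T W R x (C * 2 ^ R - 3 * ((R + 1) * x - 2 * g x)) := by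
  have hT : ∀ i ≤ I, (tab T W 0 i : ℝ) ≤ ((C * 2 ^ γ - 3 * (tk γ i + i) - 2 : ℤ) : ℝ) := by
    intro i hi
    unfold gLB at h
    have h1 := allB_spec _ _ h i (by omega)
    rw [gt_eq hGT i (by omega)] at h1
    have h2 := Nat.le_of_ble_eq_true h1
    have h3 : tab T W 0 i + 2 + 3 * (γ + 1) * i ≤ C * 2 ^ γ + 6 * g i := h2
    have h4 : ((tab T W 0 i + 2 + 3 * (γ + 1) * i : ℕ) : ℝ) ≤
        ((C * 2 ^ γ + 6 * g i : ℕ) : ℝ) := by exact_mod_cast h3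
    unfold tk
    push_cast at h4 ⊢
    linarith
  refine row0_of_real (κ := 1) one_pos hx hT ?_ ?_
  · intro i g1 g2 _
    have h1 := tk_interp g1 g2
    have h2 : ((3 * (2 ^ γ * tk R x) : ℤ) : ℝ) ≤
      ((3 * ((2 ^ R * ((i : ℤ) + 1) - 2 ^ γ * x) * tk γ i +
      (2 ^ γ * (x : ℤ) - 2 ^ R * i) * tk γ (i + 1)) + 2 * 2 ^ R : ℤ) : ℝ) := by
      exact_mod_cast h1
    have h3 : (tk R x : ℝ) = R * x - 2 * g x := by
      unfold tk
      push_cast
      ring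
    push_cast at h2 ⊢
    rw [h3] at h2
    linarith
  · intro h5
    have h1 := tk_interp (γ := γ) (N := R) (i := I) (x := x) h5.ge
      (h5.le.trans (Nat.mul_le_mul_left _ (Nat.le_succ _)))
    have h2 : ((3 * (2 ^ γ * tk R x) : ℤ) : ℝ) ≤
      ((3 * ((2 ^ R * ((I : ℤ) + 1) - 2 ^ γ * x) * tk γ I +
      (2 ^ γ * (x : ℤ) - 2 ^ R * I) * tk γ (I + 1)) + 2 * 2 ^ R : ℤ) : ℝ) := by
      exact_mod_cast h1
    have h3 : (tk R x : ℝ) = R * x - 2 * g x := by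
      unfold tk
      push_cast
      ring
    have h4 : (2 : ℝ) ^ γ * x = 2 ^ R * I := by exact_mod_cast h5
    push_cast at h2 ⊢
    rw [h3, h4] at h2
    have h6 : (2 : ℝ) ^ γ * (C * 2 ^ R - 3 * ((R + 1) * x - 2 * g x)) =
        C * 2 ^ γ * 2 ^ R - 3 * (2 ^ γ * (R * x - 2 * g x)) - 3 * (2 ^ γ * x) := by ring
    rw [one_mul, h6, h4]
    linarith

end Pool.Agent.EdgeIso.Chk
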