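import Pool.Agent.Lib.MP_48c8f3_co.BasR
import Pool.Agent.Lib.MP_48c8f3_co.KQ

set_option autoImplicit false
set_option linter.unusedSectionVars false

/-!
MP_48c8f3_co: one-row tables, at all scales, for `x log x` (upper bound by chords, lower bound by
tangents).
-/

namespace Pool.Agent.EdgeIso.Chk

open Finset Pool.Agent.EdgeIso.Frame Pool.Agent.EdgeIso.Cell Pool.Agent.EdgeIso.Walsh
  Pool.Agent.EdgeIso.LemmaP Pool.Agent.EdgeIso.Smooth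

theorem lx_scale (γ R : ℕ) {x : ℝ} (hx : 0 ≤ x) :
    2 ^ γ * lx x = 2 ^ R * lx ((2 ^ γ * x) / 2 ^ R) + ((R : ℝ) - γ) * (2 ^ γ * x) := by
  have h4 : lx (2 ^ γ * x) = 2 ^ R * lx ((2 ^ γ * x) / 2 ^ R) + R * (2 ^ γ * x) := by
    have h5 := lx_pow_mul R (x := (2 ^ γ * x) / 2 ^ R) (by positivity)
    have h6 : (2 : ℝ) ^ R * ((2 ^ γ * x) / 2 ^ R) = 2 ^ γ * x := by field_simp
    rw [h6] at h5
    exact h5
  have h5 := lx_pow_mul γ (x := x) hx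
  linarith

/-- the chord -/
theorem lx_chord {γ R i x : ℕ} (h1 : 2 ^ R * i ≤ 2 ^ γ * x) (h2 : 2 ^ γ * x ≤ 2 ^ R * (i + 1)) :
    2 ^ γ * lx x ≤ (2 ^ R * ((i : ℝ) + 1) - 2 ^ γ * x) * lx i +
      (2 ^ γ * (x : ℝ) - 2 ^ R * i) * lx (i + 1) + ((R : ℝ) - γ) * (2 ^ γ * x) := by
  have z1 : (2 : ℝ) ^ R * i ≤ 2 ^ γ * x := by exact_mod_cast h1
  have z2 : (2 : ℝ) ^ γ * x ≤ 2 ^ R * ((i : ℝ) + 1) := by exact_mod_cast h2
  obtain ⟨A, hA⟩ : ∃ A, A = 2 ^ R * ((i : ℝ) + 1) - 2 ^ γ * x := ⟨_, rfl⟩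
  obtain ⟨B, hB⟩ : ∃ B, B = 2 ^ γ * (x : ℝ) - 2 ^ R * i := ⟨_, rfl⟩
  have hA0 : 0 ≤ A := by linarith
  have hB0 : 0 ≤ B := by linarith
  have hN : (0 : ℝ) < 2 ^ R := by positivity
  have hAB : A + B = 2 ^ R := by rw [hA, hB]; ring
  have hX : A * i + B * (i + 1) = 2 ^ γ * x := by rw [hA, hB]; ring
  have hconv := lx_convex (a := A / 2 ^ R) (b := B / 2 ^ R) (y := (i : ℝ)) (z := (i : ℝ) + 1)
    (by positivity) (by positivity) (by rw [← add_div, hAB]; field_simp) (by positivity)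
    (by positivity)
  have e1 : A / 2 ^ R * (i : ℝ) + B / 2 ^ R * (i + 1) = (2 ^ γ * x) / 2 ^ R := by
    rw [← hX]
    ring
  rw [e1] at hconv
  have h6 := mul_le_mul_of_nonneg_left hconv hN.le
  have h7 : (2 : ℝ) ^ R * (A / 2 ^ R * lx i + B / 2 ^ R * lx (i + 1)) =
      A * lx i + B * lx (i + 1) := by
    field_simp
  rw [h7] at h6
  rw [lx_scale γ R (by positivity : (0 : ℝ) ≤ x), ← hA, ← hB]
  linarith

/-- the tangent inequality -/
theorem lx_tangent {y m : ℝ} (hy : 0 ≤ y) (hm : 0 < m) :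
    y * Real.logb 2 m + (y - m) / Real.log 2 ≤ lx y := by
  have hl : 0 < Real.log 2 := Real.log_pos (by norm_num)
  have key : y * Real.log m + (y - m) ≤ y * Real.log y := by
    rcases hy.eq_or_lt with h | h
    · rw [← h]
      simp
      exact hm.le
    · have h1 := Real.one_sub_inv_le_log_of_pos (div_pos h hm)
      rw [Real.log_div h.ne' hm.ne', inv_div] at h1
      have h2 := mul_le_mul_of_nonneg_left h1 hy
      have h3 : y * (1 - m / y) = y - m := by field_simp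
      linarith
  unfold lx Real.logb
  have h1 : y * (Real.log m / Real.log 2) + (y - m) / Real.log 2 =
      (y * Real.log m + (y - m)) / Real.log 2 := by ring
  have h2 : y * (Real.log y / Real.log 2) = (y * Real.log y) / Real.log 2 := by ring
  rw [h1, h2]
  exact div_le_div_of_nonneg_right key hl.le

/-- the tangent in the middle of the interval -/
theorem lx_tan {γ R i x : ℕ} (h1 : 2 ^ R * i ≤ 2 ^ γ * x) (h2 : 2 ^ γ * x ≤ 2 ^ R * (i + 1)) :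
    (2 ^ R * ((i : ℝ) + 1) - 2 ^ γ * x) *
      (i * Real.logb 2 ((i : ℝ) + 1 / 2) - 1 / (2 * Real.log 2)) +
      (2 ^ γ * (x : ℝ) - 2 ^ R * i) *
      ((i + 1) * Real.logb 2 ((i : ℝ) + 1 / 2) + 1 / (2 * Real.log 2)) +
      ((R : ℝ) - γ) * (2 ^ γ * x) ≤ 2 ^ γ * lx x := by
  have z1 : (2 : ℝ) ^ R * i ≤ 2 ^ γ * x := by exact_mod_cast h1
  have z2 : (2 : ℝ) ^ γ * x ≤ 2 ^ R * ((i : ℝ) + 1) := by exact_mod_cast h2
  have hN : (0 : ℝ) < 2 ^ R := by positivity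
  have hl : 0 < Real.log 2 := Real.log_pos (by norm_num)
  rw [lx_scale γ R (by positivity : (0 : ℝ) ≤ x)]
  have h3 := lx_tangent (y := (2 ^ γ * (x : ℝ)) / 2 ^ R) (m := (i : ℝ) + 1 / 2) (by positivity)
    (by positivity)
  have h4 := mul_le_mul_of_nonneg_left h3 hN.le
  have h5 : (2 : ℝ) ^ R * ((2 ^ γ * (x : ℝ)) / 2 ^ R * Real.logb 2 ((i : ℝ) + 1 / 2) +
      ((2 ^ γ * (x : ℝ)) / 2 ^ R - ((i : ℝ) + 1 / 2)) / Real.log 2) =
      (2 ^ R * ((i : ℝ) + 1) - 2 ^ γ * x) *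
      (i * Real.logb 2 ((i : ℝ) + 1 / 2) - 1 / (2 * Real.log 2)) +
      (2 ^ γ * (x : ℝ) - 2 ^ R * i) *
      ((i + 1) * Real.logb 2 ((i : ℝ) + 1 / 2) + 1 / (2 * Real.log 2)) := by
    field_simp
    ring
  rw [h5] at h4
  linarith

/-- check of the table `D ((γ + 1) i - i log i)` -/
def sUB (γ D T W I : ℕ) : Bool :=
  allB (I + 1) (fun i => Nat.ble (Nat.mul (Nat.pow i (Nat.mul D i)) (Nat.pow 2 (tab T W 0 i)))
    (Nat.pow 2 (Nat.mul (D * (γ + 1)) i)))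

theorem sUB_spec {γ D T W I : ℕ} (h : sUB γ D T W I = true) {i : ℕ} (hi : i ≤ I) :
    (tab T W 0 i : ℝ) ≤ D * ((γ + 1) * i - lx i) := by
  unfold sUB at h
  have h1 := allB_spec _ _ h i (by omega)
  have h2 := Nat.le_of_ble_eq_true h1
  have h3 : i ^ (D * i) * 2 ^ tab T W 0 i ≤ 2 ^ (D * (γ + 1) * i) := h2
  have h4 : (i : ℝ) ^ (D * i) * 2 ^ tab T W 0 i ≤ 2 ^ (D * (γ + 1) * i) := by exact_mod_cast h3
  have e2 : ∀ j : ℕ, Real.logb 2 ((2 : ℝ) ^ j) = j := by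
    intro j
    rw [Real.logb_pow, Real.logb_self_eq_one (by norm_num), mul_one]
  rcases Nat.eq_zero_or_pos i with h0 | h0
  · subst h0
    rw [Nat.mul_zero, Nat.mul_zero, pow_zero, pow_zero, one_mul] at h4
    have h5 := Real.logb_le_logb_of_le (b := 2) (by norm_num) (by positivity) h4
    rw [e2, Real.logb_one] at h5
    rw [Nat.cast_zero, lx_zero]
    linarith
  · have hk0 : (0 : ℝ) < i := by exact_mod_cast h0
    have h5 := Real.logb_le_logb_of_le (b := 2) (by norm_num) (by positivity) h4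
    rw [Real.logb_mul (by positivity) (by positivity), e2, e2, Real.logb_pow] at h5
    unfold lx
    push_cast at h5 ⊢
    linarith

/-- upper bound of `x log x`, everything scaled by `2 ^ e` -/
theorem row_sU {γ D T W I R x e : ℕ} (h : sUB γ D T W I = true) (hx : 2 ^ γ * x ≤ 2 ^ R * I) :
    Row0 1 γ T W (R + e) (2 ^ e * x) (D * (2 ^ e * ((R + 1) * x) - lam (2 ^ e) x)) := by
  have he : 0 < 2 ^ e := by positivity
  have hlam := lam_le (2 ^ e) x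
  have hD : (0 : ℝ) ≤ D := by positivity
  have hg : (0 : ℝ) ≤ 2 ^ γ := by positivity
  have hfin : (D : ℝ) * (2 ^ γ * (2 ^ e * ((R + 1) * x - lx x))) ≤
      2 ^ γ * ((D * (2 ^ e * ((R + 1) * x) - lam (2 ^ e) x) : ℤ) : ℝ) := by
    push_cast at hlam ⊢
    have := mul_le_mul_of_nonneg_left hlam (mul_nonneg hD hg)
    linarith
  have tr : ∀ i : ℕ, 2 ^ (R + e) * i ≤ 2 ^ γ * (2 ^ e * x) → 2 ^ R * i ≤ 2 ^ γ * x := by
    intro i h1
    apply Nat.le_of_mul_le_mul_left _ he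
    calc 2 ^ e * (2 ^ R * i) = 2 ^ (R + e) * i := by ring
      _ ≤ 2 ^ γ * (2 ^ e * x) := h1
      _ = 2 ^ e * (2 ^ γ * x) := by ring
  have tr' : ∀ i : ℕ, 2 ^ γ * (2 ^ e * x) ≤ 2 ^ (R + e) * i → 2 ^ γ * x ≤ 2 ^ R * i := by
    intro i h1
    apply Nat.le_of_mul_le_mul_left _ he
    calc 2 ^ e * (2 ^ γ * x) = 2 ^ γ * (2 ^ e * x) := by ring
      _ ≤ 2 ^ (R + e) * i := h1
      _ = 2 ^ e * (2 ^ R * i) := by ring
  have hx' : 2 ^ γ * (2 ^ e * x) ≤ 2 ^ (R + e) * I := by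
    calc 2 ^ γ * (2 ^ e * x) = 2 ^ e * (2 ^ γ * x) := by ring
      _ ≤ 2 ^ e * (2 ^ R * I) := Nat.mul_le_mul_left _ hx
      _ = 2 ^ (R + e) * I := by ring
  refine row0_of_real (κ := 1) (f := fun i => (D : ℝ) * ((γ + 1) * i - lx i)) one_pos hx'
    (fun i hi => sUB_spec h hi) ?_ ?_
  · intro i g1 g2 _
    have h1 := lx_chord (tr i g1) (tr' (i + 1) g2)
    have h2 := mul_le_mul_of_nonneg_left h1 (mul_nonneg hD (by positivity : (0 : ℝ) ≤ 2 ^ e))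
    have e1 : (1 : ℝ) * ((2 ^ (R + e) * ((i : ℝ) + 1) - 2 ^ γ * ((2 ^ e * x : ℕ) : ℝ)) *
        (D * ((γ + 1) * i - lx i)) + (2 ^ γ * ((2 ^ e * x : ℕ) : ℝ) - 2 ^ (R + e) * i) *
        (D * ((γ + 1) * ((i + 1 : ℕ) : ℝ) - lx ((i + 1 : ℕ) : ℝ)))) =
        ((D : ℝ) * 2 ^ e) * ((R + 1) * (2 ^ γ * x) -
        ((2 ^ R * ((i : ℝ) + 1) - 2 ^ γ * x) * lx i +
        (2 ^ γ * (x : ℝ) - 2 ^ R * i) * lx (i + 1) + ((R : ℝ) - γ) * (2 ^ γ * x))) := by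
      push_cast
      ring
    have e2 : ((D : ℝ) * 2 ^ e) * ((R + 1) * (2 ^ γ * x) - 2 ^ γ * lx x) =
        (D : ℝ) * (2 ^ γ * (2 ^ e * ((R + 1) * x - lx x))) := by ring
    refine (le_of_eq e1).trans ?_
    rw [one_mul, Nat.cast_one, one_mul]
    refine le_trans ?_ hfin
    rw [← e2]
    linarith
  · intro h5
    have h6 : 2 ^ γ * x = 2 ^ R * I := le_antisymm hx (tr I h5.ge)
    have h1 := lx_chord (i := I) h6.ge (h6.le.trans (Nat.mul_le_mul_left _ (Nat.le_succ _)))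
    have h7 : (2 : ℝ) ^ γ * x = 2 ^ R * I := by exact_mod_cast h6
    have h8 : (2 : ℝ) ^ γ * lx x ≤ 2 ^ R * lx I + ((R : ℝ) - γ) * (2 ^ R * I) := by
      rw [h7] at h1
      linarith
    have h2 := mul_le_mul_of_nonneg_left h8 (mul_nonneg hD (by positivity : (0 : ℝ) ≤ 2 ^ e))
    rw [Nat.cast_one, one_mul]
    refine le_trans ?_ hfin
    have h9 : (D : ℝ) * (2 ^ γ * (2 ^ e * ((R + 1) * x - lx x))) =
        D * 2 ^ e * ((R + 1) * (2 ^ γ * x) - 2 ^ γ * lx x) := by ring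
    rw [h9, h7, pow_add]
    linarith

/-- check of the table `C 2 ^ γ - D ((γ + 1) i - (tangent values of i log i))` -/
def sLB (γ C D n1 n2 T W I : ℕ) : Bool :=
  Nat.ble (400000 * 0 + 288540 * D + 25000) (100000 * n1) &&
  Nat.ble (100000 * n2 + 25000) (288536 * D) &&
  allB I (fun i =>
    Nat.ble (Nat.pow 2 (Nat.add (Nat.mul 4 (Nat.add (tab T W 0 i) (Nat.mul (D * (γ + 2)) i))) n1))
      (Nat.mul (Nat.pow 2 (4 * (C * 2 ^ γ)))
        (Nat.pow (Nat.succ (Nat.mul 2 i)) (Nat.mul (4 * D) i))) &&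
    Nat.ble (Nat.pow 2 (Nat.mul 4 (Nat.add (tab T W 0 (Nat.succ i))
        (Nat.mul (D * (γ + 2)) (Nat.succ i)))))
      (Nat.mul (Nat.pow 2 (4 * (C * 2 ^ γ) + n2))
        (Nat.pow (Nat.succ (Nat.mul 2 i)) (Nat.mul (4 * D) (Nat.succ i)))))

theorem half_inv_log_two : 72134 / 100000 ≤ 1 / (2 * Real.log 2) ∧
    1 / (2 * Real.log 2) ≤ 72135 / 100000 := by
  have h1 := Real.log_two_gt_d9
  have h2 := Real.log_two_lt_d9
  have h3 : 0 < Real.log 2 := by linarith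
  constructor
  · rw [div_le_div_iff₀ (by norm_num) (by positivity)]
    linarith
  · rw [div_le_div_iff₀ (by positivity) (by norm_num)]
    linarith

theorem sLB_spec {γ C D n1 n2 T W I : ℕ} (h : sLB γ C D n1 n2 T W I = true) {i : ℕ} (hi : i < I) :
    (tab T W 0 i : ℝ) + 1 / 16 ≤ C * 2 ^ γ - D * (γ + 1) * i +
        D * (i * Real.logb 2 ((i : ℝ) + 1 / 2) - 1 / (2 * Real.log 2)) ∧
    (tab T W 0 (i + 1) : ℝ) + 1 / 16 ≤ C * 2 ^ γ - D * (γ + 1) * (i + 1) +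
        D * ((i + 1) * Real.logb 2 ((i : ℝ) + 1 / 2) + 1 / (2 * Real.log 2)) := by
  unfold sLB at h
  simp only [Bool.and_eq_true] at h
  obtain ⟨⟨c1, c2⟩, c3⟩ := h
  have hc1 := Nat.le_of_ble_eq_true c1
  have hc2 := Nat.le_of_ble_eq_true c2
  have h1 := allB_spec _ _ c3 i hi
  rw [Bool.and_eq_true] at h1
  have h2 := Nat.le_of_ble_eq_true h1.1
  have h3 := Nat.le_of_ble_eq_true h1.2
  have h2' : 2 ^ (4 * (tab T W 0 i + D * (γ + 2) * i) + n1) ≤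
      2 ^ (4 * (C * 2 ^ γ)) * (2 * i + 1) ^ (4 * D * i) := h2
  have h3' : 2 ^ (4 * (tab T W 0 (i + 1) + D * (γ + 2) * (i + 1))) ≤
      2 ^ (4 * (C * 2 ^ γ) + n2) * (2 * i + 1) ^ (4 * D * (i + 1)) := h3
  have h4 : (2 : ℝ) ^ (4 * (tab T W 0 i + D * (γ + 2) * i) + n1) ≤
      2 ^ (4 * (C * 2 ^ γ)) * (2 * (i : ℝ) + 1) ^ (4 * D * i) := by exact_mod_cast h2'
  have h5 : (2 : ℝ) ^ (4 * (tab T W 0 (i + 1) + D * (γ + 2) * (i + 1))) ≤
      2 ^ (4 * (C * 2 ^ γ) + n2) * (2 * (i : ℝ) + 1) ^ (4 * D * (i + 1)) := by exact_mod_cast h3'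
  have e2 : ∀ j : ℕ, Real.logb 2 ((2 : ℝ) ^ j) = j := by
    intro j
    rw [Real.logb_pow, Real.logb_self_eq_one (by norm_num), mul_one]
  have hp : (0 : ℝ) < 2 * (i : ℝ) + 1 := by positivity
  have h6 := Real.logb_le_logb_of_le (b := 2) (by norm_num) (by positivity) h4
  have h7 := Real.logb_le_logb_of_le (b := 2) (by norm_num) (by positivity) h5
  rw [Real.logb_mul (by positivity) (by positivity), e2, e2, Real.logb_pow] at h6 h7
  have h8 : Real.logb 2 (2 * (i : ℝ) + 1) = 1 + Real.logb 2 ((i : ℝ) + 1 / 2) := by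
    have e3 : 2 * (i : ℝ) + 1 = 2 * ((i : ℝ) + 1 / 2) := by ring
    rw [e3, Real.logb_mul (by norm_num) (by positivity), Real.logb_self_eq_one (by norm_num)]
  rw [h8] at h6 h7
  obtain ⟨q1, q2⟩ := half_inv_log_two
  have hD : (0 : ℝ) ≤ D := by positivity
  have m1 := mul_le_mul_of_nonneg_left q1 hD
  have m2 := mul_le_mul_of_nonneg_left q2 hD
  have k1 : ((400000 * 0 + 288540 * D + 25000 : ℕ) : ℝ) ≤ ((100000 * n1 : ℕ) : ℝ) := by
    exact_mod_cast hc1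
  have k2 : ((100000 * n2 + 25000 : ℕ) : ℝ) ≤ ((288536 * D : ℕ) : ℝ) := by exact_mod_cast hc2
  push_cast at h6 h7 k1 k2
  generalize Real.logb 2 ((i : ℝ) + 1 / 2) = l at *
  generalize 1 / (2 * Real.log 2) = hh at *
  constructor
  · nlinarith
  · nlinarith

/-- lower bound of `x log x`, everything scaled by `2 ^ e` -/
theorem row_sL {γ C D n1 n2 T W I R x e : ℕ} (h : sLB γ C D n1 n2 T W I = true) (hI : 0 < I)
    (he' : 16 * (2 ^ γ * D) ≤ 2 ^ e) (hx : 2 ^ γ * x ≤ 2 ^ R * I) :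
    Row0 1 γ T W (R + e) (2 ^ e * x)
      (C * 2 ^ (R + e) - D * (2 ^ e * ((R + 1) * x) - lam (2 ^ e) x)) := by
  have he : 0 < 2 ^ e := by positivity
  have hlam := lt_lam (2 ^ e) x
  have hD : (0 : ℝ) ≤ D := by positivity
  have hg : (0 : ℝ) ≤ 2 ^ γ := by positivity
  have hE : (16 : ℝ) * (2 ^ γ * D) ≤ 2 ^ e := by exact_mod_cast he'
  have hR1 : (1 : ℝ) ≤ 2 ^ R := one_le_pow₀ (by norm_num)
  have hE2 : (16 : ℝ) * (2 ^ γ * D) ≤ 2 ^ R * 2 ^ e := by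
    have : (2 : ℝ) ^ e ≤ 2 ^ R * 2 ^ e := by
      have := mul_le_mul_of_nonneg_right hR1 (by positivity : (0 : ℝ) ≤ 2 ^ e)
      linarith
    linarith
  have hfin : (2 : ℝ) ^ e * (C * 2 ^ γ * 2 ^ R - D * ((R + 1) * (2 ^ γ * x)) +
      D * (2 ^ γ * lx x) - 2 ^ R / 16) ≤
      2 ^ γ * ((C * 2 ^ (R + e) - D * (2 ^ e * ((R + 1) * x) - lam (2 ^ e) x) : ℤ) : ℝ) := by
    push_cast at hlam ⊢
    have h1 := mul_le_mul_of_nonneg_left hlam.le (mul_nonneg hD hg)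
    rw [pow_add]
    linarith
  have tr : ∀ i : ℕ, 2 ^ (R + e) * i ≤ 2 ^ γ * (2 ^ e * x) → 2 ^ R * i ≤ 2 ^ γ * x := by
    intro i h1
    apply Nat.le_of_mul_le_mul_left _ he
    calc 2 ^ e * (2 ^ R * i) = 2 ^ (R + e) * i := by ring
      _ ≤ 2 ^ γ * (2 ^ e * x) := h1
      _ = 2 ^ e * (2 ^ γ * x) := by ring
  have tr' : ∀ i : ℕ, 2 ^ γ * (2 ^ e * x) ≤ 2 ^ (R + e) * i → 2 ^ γ * x ≤ 2 ^ R * i := by
    intro i h1
    apply Nat.le_of_mul_le_mul_left _ he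
    calc 2 ^ e * (2 ^ γ * x) = 2 ^ γ * (2 ^ e * x) := by ring
      _ ≤ 2 ^ (R + e) * i := h1
      _ = 2 ^ e * (2 ^ R * i) := by ring
  have hx' : 2 ^ γ * (2 ^ e * x) ≤ 2 ^ (R + e) * I := by
    calc 2 ^ γ * (2 ^ e * x) = 2 ^ e * (2 ^ γ * x) := by ring
      _ ≤ 2 ^ e * (2 ^ R * I) := Nat.mul_le_mul_left _ hx
      _ = 2 ^ (R + e) * I := by ring
  -- one cell
  have cell : ∀ i : ℕ, 2 ^ R * i ≤ 2 ^ γ * x → 2 ^ γ * x ≤ 2 ^ R * (i + 1) → i < I →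
      (2 ^ R * ((i : ℝ) + 1) - 2 ^ γ * x) * tab T W 0 i +
        (2 ^ γ * (x : ℝ) - 2 ^ R * i) * tab T W 0 (i + 1) ≤
        C * 2 ^ γ * 2 ^ R - D * ((R + 1) * (2 ^ γ * x)) + D * (2 ^ γ * lx x) - 2 ^ R / 16 := by
    intro i g1 g2 hi
    have z1 : (2 : ℝ) ^ R * i ≤ 2 ^ γ * x := by exact_mod_cast g1
    have z2 : (2 : ℝ) ^ γ * x ≤ 2 ^ R * ((i : ℝ) + 1) := by exact_mod_cast g2
    obtain ⟨a1, a2⟩ := sLB_spec h hi
    have b1 := mul_le_mul_of_nonneg_left a1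
      (by linarith : (0 : ℝ) ≤ 2 ^ R * ((i : ℝ) + 1) - 2 ^ γ * x)
    have b2 := mul_le_mul_of_nonneg_left a2
      (by linarith : (0 : ℝ) ≤ 2 ^ γ * (x : ℝ) - 2 ^ R * i)
    have b3 := mul_le_mul_of_nonneg_left (lx_tan g1 g2) hD
    generalize Real.logb 2 ((i : ℝ) + 1 / 2) = l at *
    generalize 1 / (2 * Real.log 2) = hh at *
    linarith
  refine row0_of_real (κ := 1) (f := fun i => (tab T W 0 i : ℝ)) one_pos hx'
    (fun i hi => le_rfl) ?_ ?_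
  · intro i g1 g2 hi
    have h1 := mul_le_mul_of_nonneg_left (cell i (tr i g1) (tr' (i + 1) g2) hi)
      (by positivity : (0 : ℝ) ≤ 2 ^ e)
    have h2 := h1.trans hfin
    rw [one_mul, one_mul, Nat.cast_one, one_mul]
    refine le_trans (le_of_eq ?_) h2
    push_cast
    rw [pow_add]
    ring
  · intro h5
    have h6 : 2 ^ γ * x = 2 ^ R * I := le_antisymm hx (tr I h5.ge)
    obtain ⟨J, rfl⟩ : ∃ J, I = J + 1 := ⟨I - 1, by omega⟩
    have g1 : 2 ^ R * J ≤ 2 ^ γ * x := by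
      rw [h6]
      exact Nat.mul_le_mul_left _ (Nat.le_succ _)
    have h1 := mul_le_mul_of_nonneg_left (cell J g1 h6.le (Nat.lt_succ_self _))
      (by positivity : (0 : ℝ) ≤ 2 ^ e)
    have h2 := h1.trans hfin
    have h7 : (2 : ℝ) ^ γ * x = 2 ^ R * (J + 1) := by exact_mod_cast h6
    rw [Nat.cast_one, one_mul]
    refine le_trans (le_of_eq ?_) h2
    rw [h7, pow_add]
    push_cast
    ring

end Pool.Agent.EdgeIso.Chk
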