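import Pool.Agent.Lib.MP_48c8f3_co.Bas
import Pool.Agent.Lib.MP_48c8f3_co.KNb
import Pool.Agent.Lib.MP_48c8f3_co.KQs

set_option autoImplicit false
set_option linter.unusedSectionVars false

/-!
MP_48c8f3_co: rows of octave tables and of one-row tables for the numbers of a family, in the unit of
the root.
-/

namespace Pool.Agent.EdgeIso.Chk

open Finset Pool.Agent.EdgeIso.Frame Pool.Agent.EdgeIso.Cell Pool.Agent.EdgeIso.Walsh
  Pool.Agent.EdgeIso.Smooth

variable {α : Type*} [DecidableEq α] {n : ℕ} {v : ℤ} {N : Frame.Num}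

theorem Fam.single_L (h : Fam α n v N) (hx : N.x = 1) : N.L = 0 := by
  have h0 := h.L0
  obtain ⟨s, X, h1, h2, h3, h4⟩ := h
  have e1 : X.card = 1 := by rw [← hx, ← h4]; rfl
  have e5 : N.L = L2 s X := by rw [← h4]; rfl
  have e3 : L2 s X ≤ 0 := by
    unfold L2
    rw [e1, g_one]
    have : (0 : ℤ) ≤ e2 s X := by positivity
    push_cast
    linarith
  rw [e5] at h0 ⊢
  linarith

theorem Fam.single_v (h : Fam α n v N) (hn : 1 ≤ n) (hx : N.x = 1) : v ≤ 0 := by
  obtain ⟨s, X, h1, h2, h3, h4⟩ := h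
  have e1 : X.card = 1 := by rw [← hx, ← h4]; rfl
  have hne : s.Nonempty := by
    rw [← card_pos, h2]
    exact hn
  obtain ⟨i, hi⟩ := hne
  have e3 := card_half_add' i true X
  have g1 := h3 i hi true
  have g2 := h3 i hi false
  simp only [Bool.not_true] at e3
  rcases Nat.eq_zero_or_pos (half i true X).card with h5 | h5
  · rw [h5] at g1
    simpa using g1
  · have h6 : (half i false X).card = 0 := by omega
    rw [h6] at g2
    simpa using g2

/-- the check for families with one member -/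
def smallOK (T rc : ℕ) : Bool :=
  Nat.blt T (2 ^ (24 * (65 * 129))) &&
    allB 65 (fun b => Nat.ble (tab T 129 b 128) (Nat.mul rc (Nat.mul 2 b)))

theorem smallOK_spec {T rc : ℕ} (h : smallOK T rc = true) (b : ℕ) :
    tab T 129 b 128 ≤ rc * (2 * b) := by
  unfold smallOK at h
  rw [Bool.and_eq_true] at h
  obtain ⟨h1, h2⟩ := h
  have h1' : T < 2 ^ (24 * (65 * 129)) := by
    unfold Nat.blt at h1
    exact Nat.le_of_ble_eq_true h1
  rcases Nat.lt_or_ge b 65 with hb | hb
  · exact Nat.le_of_ble_eq_true (allB_spec _ _ h2 b hb)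
  · rw [tab_zero h1' hb]
    exact Nat.zero_le _

/-- rows of an octave table for a family, in the unit `2 ^ R` of the root -/
theorem oct_rows {T rc k0 : ℕ} (hs : smallOK T rc = true)
    (hT : LBnd α (fun N x v L => ∀ R k, N = R + k → k0 ≤ k → 0 ≤ v → 2 ^ R ≤ x → x ≤ 2 * 2 ^ R →
      Rows 28 rc 6 T 129 R x v (gamL R x L)))
    {R j : ℕ} (h : Fam α n v N) (hv0 : 0 ≤ v) (hvx : v ≤ N.x)
    (hn : 1 ≤ n) (hk : R + k0 ≤ n + j) (h1 : 2 ^ R ≤ 2 ^ j * N.x) (h2 : 2 ^ j * N.x ≤ 2 * 2 ^ R) :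
    Rows 28 rc 6 T 129 R (2 ^ j * N.x) (2 ^ j * v)
      (2 ^ j * (MM R N + (1 - (j : ℤ)) * N.x) - 2 * 2 ^ R) := by
  rcases Nat.lt_or_ge R j with hj | hj
  · -- one member
    have hx0 : 0 < N.x := by
      rcases Nat.eq_zero_or_pos N.x with h3 | h3
      · rw [h3, Nat.mul_zero] at h1
        exact absurd h1 (by have : 0 < 2 ^ R := by positivity
                            omega)
      · exact h3
    have hx2 : 2 ^ (R + 1) * N.x ≤ 2 ^ (R + 1) := by
      calc 2 ^ (R + 1) * N.x ≤ 2 ^ j * N.x :=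
            Nat.mul_le_mul_right _ (Nat.pow_le_pow_right (by norm_num) hj)
        _ ≤ 2 * 2 ^ R := h2
        _ = 2 ^ (R + 1) := by ring
    have hx1 : N.x = 1 := by
      have h3 : 2 ^ (R + 1) * N.x ≤ 2 ^ (R + 1) * 1 := by rw [Nat.mul_one]; exact hx2
      have := Nat.le_of_mul_le_mul_left h3 (by positivity)
      omega
    have hj2 : 2 ^ j ≤ 2 ^ (R + 1) := by
      rw [hx1, Nat.mul_one] at h2
      calc 2 ^ j ≤ 2 * 2 ^ R := h2
        _ = 2 ^ (R + 1) := by ring
    have hjR : j = R + 1 := by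
      have := (Nat.pow_le_pow_iff_right (by norm_num : 1 < 2)).mp hj2
      omega
    have hL := Fam.single_L h hx1
    have hv : v = 0 := le_antisymm (Fam.single_v h hn hx1) hv0
    have el : 2 ^ j * (MM R N + (1 - (j : ℤ)) * N.x) - 2 * 2 ^ R = 0 := by
      unfold MM QQ
      rw [hL, hx1, hjR, g_one, pow_succ]
      push_cast
      ring
    rw [el, hv, mul_zero]
    intro b i g1 g2
    have hM : (0 : ℤ) < 2 ^ R := by positivity
    have hP : 0 < 2 ^ R := by positivity
    have e128 : 2 ^ 6 * (2 ^ j * N.x) = 2 ^ R * 128 := by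
      rw [hx1, hjR, pow_succ]
      ring
    rw [e128] at g1 g2
    have i1 : i ≤ 128 := Nat.le_of_mul_le_mul_left g1 hP
    have i2 : 128 ≤ i + 1 := Nat.le_of_mul_le_mul_left g2 hP
    have e128z : (2 : ℤ) ^ 6 * ((2 ^ j * N.x : ℕ) : ℤ) = 2 ^ R * 128 := by exact_mod_cast e128
    rw [e128z]
    have hc := smallOK_spec hs b
    have hcz : (tab T 129 b 128 : ℤ) ≤ rc * (2 * b) := by exact_mod_cast hc
    have hm : max (0 : ℤ) (2 ^ R * (2 * b) - 2 ^ 6 * 0) = 2 ^ R * (2 * b) := by
      rw [mul_zero, sub_zero]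
      exact max_eq_right (by positivity)
    rw [hm]
    have hf := mul_le_mul_of_nonneg_left hcz hM.le
    rcases Nat.lt_or_ge i 128 with h3 | h3
    · have hi : i = 127 := by omega
      subst hi
      push_cast
      linarith
    · have hi : i = 128 := by omega
      subst hi
      push_cast
      linarith
  · obtain ⟨R', rfl⟩ : ∃ R', R = R' + j := ⟨R - j, by omega⟩
    have hj0 : 0 < 2 ^ j := by positivity
    have a1 : 2 ^ R' ≤ N.x := by
      apply Nat.le_of_mul_le_mul_left _ hj0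
      calc 2 ^ j * 2 ^ R' = 2 ^ (R' + j) := by ring
        _ ≤ _ := h1
    have a2 : N.x ≤ 2 * 2 ^ R' := by
      apply Nat.le_of_mul_le_mul_left _ hj0
      calc 2 ^ j * N.x ≤ 2 * 2 ^ (R' + j) := h2
        _ = 2 ^ j * (2 * 2 ^ R') := by ring
    have h3 := h.lb hT hvx R' (n - R') (by omega) (by omega) hv0 a1 a2
    have h4 := h3.scale j
    rw [gamL_MM rfl] at h4
    exact h4

/-! ### one-row tables -/

end Pool.Agent.EdgeIso.Chk
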