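import Pool.Agent.Lib.MP_48c8f3_co.BasR
import Pool.Agent.Lib.MP_48c8f3_co.SNc
import Pool.Agent.Lib.MP_48c8f3_co.KNb

set_option autoImplicit false
set_option linter.unusedSectionVars false

/-!
MP_48c8f3_co: facet items from the rows of the smooth inequality.
-/

namespace Pool.Agent.EdgeIso.Chk

open Finset Pool.Agent.EdgeIso.Frame Pool.Agent.EdgeIso.Cell Pool.Agent.EdgeIso.Walsh
  Pool.Agent.EdgeIso.Smooth

variable {α : Type*} [DecidableEq α] {n : ℕ} {w : ℤ} {N : Frame.Num}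

/-- A shape of the smooth inequality, for the distance `D` to copies of size `t`:
`c D ≤ e E + (bV V / 32 + bx x + ah (x - w) + ∑ a (v x - 16 w)⁺) / 2 + ∑ a (τ x / 8 - t)⁺`; the
coefficients `bV`, `bx` depend on the class `k` and on the piece `(lo, hi, bV, bx)` of the class
(`lo V ≤ 8 2 ^ k x ≤ hi V`); the last class `kl` holds for all smaller `x`, too. -/
structure Shp where
  c : ℕ
  e : ℕ
  th : List (ℕ × ℕ)
  k0 : ℕ
  kl : ℕ
  B : ℕ → List (ℕ × ℕ × ℤ × ℤ)
  ah : ℕ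
  hs : List (ℕ × ℕ)

/-- the conditions of a piece -/
def condP (k : ℕ) (p : ℕ × ℕ × ℤ × ℤ) : List (ℤ × ℤ) :=
  [(-(p.1 : ℤ), 8 * 2 ^ k), ((p.2.1 : ℤ), -(8 * 2 ^ k))]

/-- the rows of a shape -/
def Shp.row (s : Shp) (k : ℕ) (p : ℕ × ℕ × ℤ × ℤ) : SRow where
  c := 32 * s.c
  e := 32 * (2 * s.e)
  cond := condP k p
  bV := p.2.2.1
  bx := 32 * p.2.2.2
  hs := (32 * s.ah, 1, 1) :: s.hs.map (fun h => (32 * h.1, (h.2 : ℤ), 16))
  th := s.th.map (fun h => (32 * h.1, h.2))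

/-- all rows of a shape hold -/
def Shp.HoldAll (s : Shp) (n : ℕ) (w : ℤ) (N : Frame.Num) : Prop :=
  ∀ k, 1 ≤ k → s.k0 ≤ k → k ≤ s.kl → ∀ p ∈ s.B k, (s.row k p).Hold n w N

/-- the value of the hinges -/
noncomputable def hinR (hs : List (ℕ × ℕ)) (x w : ℝ) : ℝ :=
  (hs.map fun h => (h.1 : ℝ) * max 0 (h.2 * x - 16 * w)).sum

theorem hinR_cast' (hs : List (ℕ × ℕ)) (x w : ℤ) :
    ((Frame.hsum (hs.map (fun h => (32 * h.1, (h.2 : ℤ), 16))) x w : ℤ) : ℝ) = 32 * hinR hs x w := by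
  induction hs with
  | nil => simp [Frame.hsum, hinR]
  | cons h t ih =>
    unfold Frame.hsum hinR at ih ⊢
    rw [List.map_cons, List.map_cons, List.sum_cons, List.map_cons, List.sum_cons]
    push_cast at ih ⊢
    rw [ih]
    ring

theorem hinR_nonneg (hs : List (ℕ × ℕ)) (x w : ℝ) : 0 ≤ hinR hs x w := by
  unfold hinR
  apply List.sum_nonneg
  intro y hy
  obtain ⟨h, _, rfl⟩ := List.mem_map.mp hy
  exact mul_nonneg (by positivity) (le_max_left _ _)

/-- the value of the hinges in the size of the copy -/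
noncomputable def tR (th : List (ℕ × ℕ)) (x t : ℝ) : ℝ :=
  (th.map fun h => (h.1 : ℝ) * max 0 (h.2 * x / 8 - t)).sum

theorem tR_nonneg (th : List (ℕ × ℕ)) (x t : ℝ) : 0 ≤ tR th x t := by
  unfold tR
  apply List.sum_nonneg
  intro y hy
  obtain ⟨h, _, rfl⟩ := List.mem_map.mp hy
  exact mul_nonneg (by positivity) (le_max_left _ _)

theorem tR_cast (th : List (ℕ × ℕ)) (j t : ℕ) (x : ℤ) :
    ((Frame.thsum th j t x : ℤ) : ℝ) = 8 * 2 ^ j * tR th x (t / 2 ^ j) := by
  induction th with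
  | nil => simp [Frame.thsum, tR]
  | cons h l ih =>
    unfold Frame.thsum tR at ih ⊢
    rw [List.map_cons, List.sum_cons, List.map_cons, List.sum_cons]
    push_cast at ih ⊢
    rw [ih, mul_add]
    congr 1
    have hj : (0 : ℝ) < 2 ^ j := by positivity
    have e : max (0 : ℝ) (2 ^ j * ((h.2 : ℝ) * (x : ℝ)) - 8 * (t : ℝ)) =
        (8 * 2 ^ j) * max 0 ((h.2 : ℝ) * (x : ℝ) / 8 - (t : ℝ) / 2 ^ j) := by
      rw [mul_max_of_nonneg _ _ (by positivity : (0 : ℝ) ≤ 8 * 2 ^ j), mul_zero]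
      congr 1
      field_simp
    rw [e]
    ring

theorem tR_cast' (th : List (ℕ × ℕ)) (j t : ℕ) (x : ℤ) :
    ((Frame.thsum (th.map (fun h => (32 * h.1, h.2))) j t x : ℤ) : ℝ) =
      32 * (8 * 2 ^ j * tR th x (t / 2 ^ j)) := by
  rw [← tR_cast]
  induction th with
  | nil => simp [Frame.thsum]
  | cons h l ih =>
    unfold Frame.thsum at ih ⊢
    rw [List.map_cons, List.map_cons, List.sum_cons, List.map_cons, List.sum_cons]
    push_cast at ih ⊢
    rw [ih]
    ring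

/-- the bound of a row for all distances -/
theorem Shp.real {s : Shp} {k : ℕ} {p : ℕ × ℕ × ℤ × ℤ} (hwx : w ≤ N.x)
    (hr : (s.row k p).Hold n w N) (hcond : Cond (condP k p) (2 ^ n) N.x) (hc : 0 < s.c) (j t : ℕ) :
    (N.d j t : ℝ) / (2 * 2 ^ j) ≤ s.e / s.c * (N.E / Sc) +
      ((p.2.2.1 : ℝ) / 32 * 2 ^ n + p.2.2.2 * N.x + s.ah * (N.x - w) +
        hinR s.hs N.x w) / (2 * s.c) + tR s.th N.x (t / 2 ^ j) / s.c := by
  have h1 := hr hcond j t
  have e1 : Frame.hsum (s.row k p).hs N.x w = 32 * s.ah * (N.x - w) +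
      Frame.hsum (s.hs.map (fun h => (32 * h.1, (h.2 : ℤ), 16))) N.x w := by
    have h3 : max (0 : ℤ) (1 * (N.x : ℤ) - (1 : ℕ) * w) = N.x - w := by
      rw [max_eq_right]
      · push_cast; ring
      · push_cast; linarith
    show (((32 * s.ah : ℕ) : ℤ) * max 0 (1 * (N.x : ℤ) - (1 : ℕ) * w)) + _ = _
    rw [h3]
    push_cast
    rfl
  rw [e1] at h1
  have e2 := hinR_cast' s.hs N.x w
  rw [Int.cast_natCast] at e2
  have e3 := tR_cast' s.th j t N.x
  rw [Int.cast_natCast] at e3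
  have hS : (0 : ℝ) < Sc := by exact_mod_cast Sc_pos
  have hj : (0 : ℝ) < 2 ^ j := by positivity
  have hc' : (0 : ℝ) < s.c := by exact_mod_cast hc
  have h1r : 8 * (32 * (s.c : ℝ) * (Sc * N.d j t)) ≤
      2 ^ j * (8 * (32 * (2 * s.e) * N.E + Sc * (p.2.2.1 * 2 ^ n + 32 * p.2.2.2 * N.x +
        (32 * s.ah * (N.x - w) + 32 * hinR s.hs N.x w)))) +
        2 * (Sc * (32 * (8 * 2 ^ j * tR s.th N.x (t / 2 ^ j)))) := by
    have h3 : ((8 * (((32 * s.c : ℕ) : ℤ) * (Sc * N.d j t)) : ℤ) : ℝ) ≤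
      ((2 ^ j * (8 * (((32 * (2 * s.e) : ℕ) : ℤ) * N.E + Sc * (p.2.2.1 * 2 ^ n +
        32 * p.2.2.2 * N.x +
        (32 * s.ah * (N.x - w) +
          Frame.hsum (s.hs.map (fun h => (32 * h.1, (h.2 : ℤ), 16))) N.x w)))) +
        2 * (Sc * Frame.thsum (s.th.map (fun h => (32 * h.1, h.2))) j t N.x) : ℤ) : ℝ) := by
      exact_mod_cast h1
    push_cast at h3
    rw [e2, e3] at h3
    exact h3
  rw [div_le_iff₀ (by positivity)]
  have h4 : (s.e / s.c * (N.E / Sc) + ((p.2.2.1 : ℝ) / 32 * 2 ^ n + p.2.2.2 * N.x +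
      s.ah * (N.x - w) + hinR s.hs N.x w) / (2 * s.c) + tR s.th N.x (t / 2 ^ j) / s.c) *
        (2 * 2 ^ j) =
      (2 ^ j * (8 * (32 * (2 * s.e) * N.E + Sc * (p.2.2.1 * 2 ^ n + 32 * p.2.2.2 * N.x +
        (32 * s.ah * (N.x - w) + 32 * hinR s.hs N.x w)))) +
        2 * (Sc * (32 * (8 * 2 ^ j * tR s.th N.x (t / 2 ^ j))))) / (8 * (32 * s.c * Sc)) := by
    field_simp
    ring
  rw [h4, le_div_iff₀ (by positivity)]
  linarith

/-! ### interpolation -/

theorem interp_le {g' C R i X : ℕ} {T0 T1 : ℕ} {βU βx : ℝ}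
    (hA : (2 : ℝ) ^ R * (i + 1) - g' * X = 0 ∨ (T0 : ℝ) ≤ C * (i - (g' * βU + βx * i)))
    (hB : (g' : ℝ) * X - 2 ^ R * i = 0 ∨ (T1 : ℝ) ≤ C * ((i + 1) - (g' * βU + βx * (i + 1))))
    (h1 : (2 : ℝ) ^ R * i ≤ g' * X) (h2 : (g' : ℝ) * X ≤ 2 ^ R * (i + 1)) :
    (2 ^ R * (i + 1) - g' * X) * T0 + (g' * X - 2 ^ R * i) * T1 ≤
      C * g' * (X - (βU * 2 ^ R + βx * X)) := by
  have a1 : ((2 : ℝ) ^ R * (i + 1) - g' * X) * T0 ≤
      (2 ^ R * (i + 1) - g' * X) * (C * (i - (g' * βU + βx * i))) := by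
    rcases hA with h | h
    · rw [h, zero_mul, zero_mul]
    · exact mul_le_mul_of_nonneg_left h (by linarith)
  have a2 : ((g' : ℝ) * X - 2 ^ R * i) * T1 ≤
      (g' * X - 2 ^ R * i) * (C * ((i + 1) - (g' * βU + βx * (i + 1)))) := by
    rcases hB with h | h
    · rw [h, zero_mul, zero_mul]
    · exact mul_le_mul_of_nonneg_left h (by linarith)
  refine (add_le_add a1 a2).trans (le_of_eq ?_)
  ring

theorem exists_octave {R X : ℕ} (h1 : 0 < X) (h2 : X ≤ 2 * 2 ^ R) :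
    ∃ j, 2 ^ R ≤ 2 ^ j * X ∧ 2 ^ j * X ≤ 2 * 2 ^ R := by
  have hex : ∃ j, 2 ^ R ≤ 2 ^ j * X := ⟨R, Nat.le_mul_of_pos_right _ h1⟩
  classical
  refine ⟨Nat.find hex, Nat.find_spec hex, ?_⟩
  rcases Nat.eq_zero_or_pos (Nat.find hex) with h | h
  · rw [h, pow_zero, Nat.one_mul]
    exact h2
  · have h3 := Nat.find_min hex (Nat.sub_lt h Nat.one_pos)
    have h4 : 2 ^ (Nat.find hex - 1) * X ≤ 2 ^ R := by omega
    have h5 : 2 ^ Nat.find hex = 2 * 2 ^ (Nat.find hex - 1) := by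
      rw [← pow_succ', Nat.sub_add_cancel h]
    rw [h5, Nat.mul_assoc]
    exact Nat.mul_le_mul_left _ h4

theorem exists_octave' {R X j0 : ℕ} (h1 : 0 < X) (h2 : 2 ^ j0 * X ≤ 2 * 2 ^ R) :
    ∃ j, 2 ^ R ≤ 2 ^ j * X ∧ 2 ^ j * X ≤ 2 * 2 ^ R ∧ j0 ≤ j := by
  obtain ⟨j', k1, k2⟩ := exists_octave (X := 2 ^ j0 * X) (by positivity) h2
  refine ⟨j0 + j', ?_, ?_, by omega⟩
  · rw [pow_add]
    calc 2 ^ R ≤ 2 ^ j' * (2 ^ j0 * X) := k1
      _ = _ := by ring
  · rw [pow_add]
    calc 2 ^ j0 * 2 ^ j' * X = 2 ^ j' * (2 ^ j0 * X) := by ring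
      _ ≤ _ := k2

/-! ### the check of a table -/

/-- the check of an entry of a table for a piece of the class `k` in the octave `j` -/
def entOK (c g' C k j i t : ℕ) (p : ℕ × ℕ × ℤ × ℤ) : Bool :=
  decide (((2 * c * 2 ^ j * (32 * t) : ℕ) : ℤ) +
    C * (g' * (p.2.2.1 * 2 ^ k) + 2 ^ j * (32 * p.2.2.2 * i)) ≤
    ((C * (2 * c * 2 ^ j * (32 * i)) : ℕ) : ℤ))

theorem entOK_real {c g' C k j i t : ℕ} {p : ℕ × ℕ × ℤ × ℤ} (hc : 0 < c)
    (h : entOK c g' C k j i t p = true) :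
    (t : ℝ) ≤ C * (i - (g' * ((p.2.2.1 : ℝ) / 32 * 2 ^ k / (2 * c * 2 ^ j)) +
      (p.2.2.2 : ℝ) / (2 * c) * i)) := by
  have h1 := of_decide_eq_true h
  have hj : (0 : ℝ) < 2 ^ j := by positivity
  have hc' : (0 : ℝ) < c := by exact_mod_cast hc
  have h2 : ((((2 * c * 2 ^ j * (32 * t) : ℕ) : ℤ) + C * (g' * (p.2.2.1 * 2 ^ k) +
      2 ^ j * (32 * p.2.2.2 * i)) : ℤ) : ℝ) ≤ ((((C * (2 * c * 2 ^ j * (32 * i)) : ℕ) : ℤ)) : ℝ) := by
    exact_mod_cast h1
  push_cast at h2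
  have h3 : (t : ℝ) * (32 * (2 * c * 2 ^ j)) ≤ C * (i - (g' * ((p.2.2.1 : ℝ) / 32 * 2 ^ k /
      (2 * c * 2 ^ j)) + (p.2.2.2 : ℝ) / (2 * c) * i)) * (32 * (2 * c * 2 ^ j)) := by
    have e : (C : ℝ) * (i - (g' * ((p.2.2.1 : ℝ) / 32 * 2 ^ k / (2 * c * 2 ^ j)) +
        (p.2.2.2 : ℝ) / (2 * c) * i)) * (32 * (2 * c * 2 ^ j)) =
        C * (2 * c * 2 ^ j * (32 * i)) -
          C * (g' * (p.2.2.1 * 2 ^ k) + 2 ^ j * (32 * p.2.2.2 * i)) := by
      field_simp
    rw [e]
    linarith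
  exact le_of_mul_le_mul_right h3 (by positivity)

/-- the pieces cover the class -/
def covOK : ℕ → List (ℕ × ℕ × ℤ × ℤ) → Bool
  | a, [] => Nat.ble 16 a
  | a, p :: l => Nat.ble p.1 a && covOK p.2.1 l

theorem covOK_spec {V Y : ℕ} (hY : Y ≤ 2 * V) : ∀ (l : List (ℕ × ℕ × ℤ × ℤ)) (a : ℕ),
    covOK a l = true → a * V ≤ 8 * Y → a < 16 ∨ l ≠ [] →
    ∃ p ∈ l, p.1 * V ≤ 8 * Y ∧ 8 * Y ≤ p.2.1 * V
  | [], a, h, _, h3 => by
    have h1 : 16 ≤ a := Nat.le_of_ble_eq_true h
    rcases h3 with h3 | h3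
    · omega
    · exact absurd rfl h3
  | p :: l, a, h, h2, _ => by
    unfold covOK at h
    rw [Bool.and_eq_true] at h
    have h1 : p.1 ≤ a := Nat.le_of_ble_eq_true h.1
    have h4 : p.1 * V ≤ 8 * Y := (Nat.mul_le_mul_right V h1).trans h2
    rcases Nat.le_total (8 * Y) (p.2.1 * V) with h5 | h5
    · exact ⟨p, List.mem_cons_self, h4, h5⟩
    · by_cases h6 : p.2.1 < 16 ∨ l ≠ []
      · obtain ⟨q, hq, h7, h8⟩ := covOK_spec hY l p.2.1 h.2 h5 h6
        exact ⟨q, List.mem_cons_of_mem _ hq, h7, h8⟩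
      · refine ⟨p, List.mem_cons_self, h4, ?_⟩
        have h7 : 16 ≤ p.2.1 := by
          by_contra h8
          exact h6 (Or.inl (by omega))
        calc 8 * Y ≤ 8 * (2 * V) := Nat.mul_le_mul_left _ hY
          _ = 16 * V := by ring
          _ ≤ p.2.1 * V := Nat.mul_le_mul_right V h7

/-- the entry `i` is tested for the piece -/
def relP (g' j i : ℕ) (p : ℕ × ℕ × ℤ × ℤ) : Bool :=
  Nat.blt (p.1 * g') (8 * 2 ^ j * (i + 1)) && Nat.blt (8 * 2 ^ j * i) (p.2.1 * g' + 8 * 2 ^ j)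

/-- the check of the row `b` of a table for the level `δ`, up to the entry `top`; the table is used
in the octaves `j0`, `j0 + 1`, ... -/
def tOK (s : Shp) (g' C δ j0 T W b top : ℕ) : Bool :=
  decide (s.k0 ≤ s.kl) && decide (1 ≤ s.kl) &&
  allB s.kl (fun k => Nat.blt k (δ + j0) || Nat.beq k 0 || Nat.blt k s.k0 || covOK 8 (s.B k)) &&
  allB s.kl (fun k => Nat.blt k (δ + j0) || Nat.beq k 0 || allB (top + 1) (fun i =>
    Nat.blt (2 ^ (k - δ) * i) g' || Nat.blt (2 * g') (2 ^ (k - δ) * i) ||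
      (bif Nat.blt k s.k0 then Nat.beq (tab T W b i) 0
        else (s.B k).all (fun p => !relP g' (k - δ) i p ||
          entOK s.c g' C k (k - δ) i (tab T W b i) p)))) &&
  (s.B s.kl).any (fun p => Nat.beq p.1 0 && Nat.ble 16 p.2.1 && decide (p.2.2.1 = 0) &&
    allB (top + 1) (fun i => Nat.blt (2 * (2 ^ δ * g')) (2 ^ s.kl * i) ||
      entOK s.c g' C s.kl 0 i (tab T W b i) p))

theorem allB_of : ∀ (n : ℕ) (f : ℕ → Bool), (∀ k < n, f k = true) → allB n f = true
  | 0, _, _ => rfl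
  | n + 1, f, h => by
    unfold allB
    rw [h n (by omega), allB_of n f (fun k hk => h k (by omega))]
    rfl

/-! ### the hinges of an item -/

/-- the digits of a row of a table -/
def digOK (f TA WA b : ℕ) : ℕ → List (ℕ × ℕ) → Bool
  | _, [] => true
  | d, h :: l => Nat.beq (f * tab TA WA b d) h.1 && Nat.beq (tab TA WA b (d + 1)) h.2 &&
      digOK f TA WA b (d + 2) l

theorem hsum_nonneg' (S : SysL) (x : ℕ → ℤ) (EX : ℤ) (s8 TA WA b : ℕ) :
    ∀ (d : ℕ) (hs : List (ℕ × ℕ × ℕ × ℕ)), 0 ≤ Chk.hsum S x EX s8 TA WA b d hs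
  | _, [] => le_rfl
  | d, h :: t => by
    unfold Chk.hsum
    exact add_nonneg (mul_nonneg (by positivity) (le_max_left _ _)) (hsum_nonneg' S x EX s8 TA WA b _ t)

theorem hsum_app (S : SysL) (x : ℕ → ℤ) (EX : ℤ) (s8 TA WA b : ℕ) :
    ∀ (hs : List (ℕ × ℕ × ℕ × ℕ)) (l : List (ℕ × ℕ × ℕ × ℕ)) (d : ℕ),
      Chk.hsum S x EX s8 TA WA b d (hs ++ l) =
        Chk.hsum S x EX s8 TA WA b d hs + Chk.hsum S x EX s8 TA WA b (d + 2 * hs.length) l
  | [], l, d => by simp [Chk.hsum]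
  | h :: t, l, d => by
    rw [List.cons_append, List.length_cons]
    have e : d + 2 * (t.length + 1) = d + 2 + 2 * t.length := by ring
    rw [e]
    show _ + Chk.hsum S x EX s8 TA WA b (d + 2) (t ++ l) =
      _ + Chk.hsum S x EX s8 TA WA b (d + 2) t + _
    rw [hsum_app S x EX s8 TA WA b t l (d + 2)]
    ring

theorem hsum_eg {S : SysL} {x : ℕ → ℤ} {s8 TA WA b eg X : ℕ} {κ w : ℤ} (hκ : 0 < κ)
    (hg : dot (S.fe eg) x ≤ κ * w) : ∀ (d : ℕ) (l : List (ℕ × ℕ)), digOK 1 TA WA b d l = true →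
    (8 * s8 * κ : ℝ) * hinR l X w ≤
      (Chk.hsum S x (κ * X) s8 TA WA b d (List.replicate l.length (eg, 1, 16, 1)) : ℤ)
  | _, [], _ => by simp [hinR, Chk.hsum]
  | d, h :: l, hd => by
    unfold digOK at hd
    simp only [Bool.and_eq_true] at hd
    obtain ⟨⟨h1, h2⟩, h3⟩ := hd
    have h1 := Nat.eq_of_beq_eq_true h1
    rw [Nat.one_mul] at h1
    have h2 := Nat.eq_of_beq_eq_true h2
    have ih := hsum_eg (s8 := s8) (X := X) hκ hg (d + 2) l h3
    rw [List.length_cons, List.replicate_succ]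
    unfold Chk.hsum
    rw [h1, h2]
    have e1 : hinR (h :: l) X w = h.1 * max 0 (h.2 * (X : ℝ) - 16 * w) + hinR l X w := by
      unfold hinR
      rw [List.map_cons, List.sum_cons]
    rw [e1]
    have hκr : (0 : ℝ) < κ := by exact_mod_cast hκ
    have h4 : (κ : ℝ) * max 0 (h.2 * (X : ℝ) - 16 * w) ≤
        ((max 0 (((1 * h.2 : ℕ) : ℤ) * (κ * X) - (16 : ℕ) * dot (S.fe eg) x) : ℤ) : ℝ) := by
      rw [mul_max_of_nonneg _ _ hκr.le, mul_zero]
      push_cast
      apply max_le_max le_rfl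
      have : (dot (S.fe eg) x : ℝ) ≤ κ * w := by exact_mod_cast hg
      nlinarith
    have h5 := mul_le_mul_of_nonneg_left h4 (by positivity : (0 : ℝ) ≤ 8 * s8 * h.1)
    push_cast at h5 ih ⊢
    rw [one_mul] at h5 ⊢
    rw [one_mul]
    linarith

theorem hsum_et {S : SysL} {x : ℕ → ℤ} {s8 TA WA b et X t j St Dt Ht : ℕ} {κ : ℤ} (hκ : 0 < κ)
    (hDS : Dt * 2 ^ j = 8 * St)
    (ht : dot (S.fe et) x ≤ κ * t) : ∀ (d : ℕ) (l : List (ℕ × ℕ)),
      digOK (4 * (Ht * St)) TA WA b d l = true →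
    (16 * s8 * κ : ℝ) * tR l X (t / 2 ^ j) ≤
      (Chk.hsum S x (κ * X) s8 TA WA b d (List.replicate l.length (et, St, Dt, Ht)) : ℤ)
  | _, [], _ => by simp [tR, Chk.hsum]
  | d, h :: l, hd => by
    unfold digOK at hd
    simp only [Bool.and_eq_true] at hd
    obtain ⟨⟨h1, h2⟩, h3⟩ := hd
    have h1 := Nat.eq_of_beq_eq_true h1
    have h2 := Nat.eq_of_beq_eq_true h2
    have ih := hsum_et (s8 := s8) (X := X) hκ hDS ht (d + 2) l h3
    rw [List.length_cons, List.replicate_succ]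
    unfold Chk.hsum
    rw [h2]
    have e1 : tR (h :: l) X (t / 2 ^ j) = h.1 * max 0 (h.2 * (X : ℝ) / 8 - t / 2 ^ j) +
        tR l X (t / 2 ^ j) := by
      unfold tR
      rw [List.map_cons, List.sum_cons]
    rw [e1]
    have hκr : (0 : ℝ) < κ := by exact_mod_cast hκ
    have hj : (0 : ℝ) < 2 ^ j := by positivity
    have e3 : (Dt : ℝ) * 2 ^ j = 8 * St := by exact_mod_cast hDS
    have h4 : (8 * St * κ : ℝ) * max 0 (h.2 * (X : ℝ) / 8 - t / 2 ^ j) ≤
        ((max 0 (((St * h.2 : ℕ) : ℤ) * (κ * X) - (Dt : ℕ) * dot (S.fe et) x) : ℤ) : ℝ) := by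
      rw [mul_max_of_nonneg _ _ (by positivity : (0 : ℝ) ≤ 8 * St * κ), mul_zero]
      push_cast
      apply max_le_max le_rfl
      have e4 : (dot (S.fe et) x : ℝ) ≤ κ * t := by exact_mod_cast ht
      have e5 : (Dt : ℝ) * dot (S.fe et) x ≤ Dt * (κ * t) :=
        mul_le_mul_of_nonneg_left e4 (by positivity)
      have e6 : (Dt : ℝ) * (κ * t) = 8 * St * κ * (t / 2 ^ j) := by
        rw [← e3]
        field_simp
      have e7 : (8 * St * κ : ℝ) * (h.2 * X / 8 - t / 2 ^ j) =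
          St * h.2 * (κ * X) - 8 * St * κ * (t / 2 ^ j) := by ring
      rw [e7]
      linarith
    have h5 := mul_le_mul_of_nonneg_left h4
      (by positivity : (0 : ℝ) ≤ 8 * s8 * (Ht * (tab TA WA b d : ℕ)))
    have e8 : (h.1 : ℝ) = 4 * (Ht * St) * (tab TA WA b d : ℕ) := by exact_mod_cast h1.symm
    push_cast at h5 ih ⊢
    rw [e8]
    have e9 : (16 * s8 * κ : ℝ) * (4 * (Ht * St) * (tab TA WA b d : ℕ) *
        max 0 (h.2 * (X : ℝ) / 8 - t / 2 ^ j) + tR l X (t / 2 ^ j)) =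
        8 * s8 * (Ht * (tab TA WA b d : ℕ)) * (8 * St * κ * max 0 (h.2 * (X : ℝ) / 8 - t / 2 ^ j)) +
        16 * s8 * κ * tR l X (t / 2 ^ j) := by ring
    rw [e9]
    have e10 : (8 : ℝ) * (s8 * (Ht * (tab TA WA b d : ℕ))) = 8 * s8 * (Ht * (tab TA WA b d : ℕ)) := by
      ring
    rw [e10]
    linarith

theorem tab_high {T W b i B : ℕ} (h : Nat.log2 T < 24 * (B * W)) (hb : B ≤ b) : tab T W b i = 0 := by
  have h0 : T < 2 ^ (24 * (B * W)) := by
    rcases Nat.eq_zero_or_pos T with h1 | h1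
    · subst h1; positivity
    · exact (Nat.log2_lt h1.ne').mp h
  have h1 : T < 2 ^ (24 * (b * W + i)) := by
    refine h0.trans_le (Nat.pow_le_pow_right (by norm_num) ?_)
    have := Nat.mul_le_mul_right W hb
    omega
  show (T >>> (24 * (b * W + i))) % 16777216 = 0
  rw [Nat.shiftRight_eq_div_pow, Nat.div_eq_of_lt h1]

/-- the check of the shapes against the tables -/
def shpOK (c0 e ah f mt m TA WA : ℕ) (s : Shp) (b : ℕ) : Bool :=
  Nat.beq s.c c0 && Nat.beq s.e e && Nat.beq s.ah ah && Nat.beq s.th.length mt &&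
    Nat.beq s.hs.length m && digOK f TA WA b 0 s.th && digOK 1 TA WA b (2 * mt) s.hs

/-- the check of the tables for the level `δ` -/
def allShp (c0 e ah f mt m g' C δ j0 T W TA WA : ℕ) : List Shp → ℕ → Bool
  | [], _ => true
  | s :: l, b => shpOK c0 e ah f mt m TA WA s b && tOK s g' C δ j0 T W b (2 * g') &&
      allShp c0 e ah f mt m g' C δ j0 T W TA WA l (b + 1)

theorem allShp_get {c0 e ah f mt m g' C δ j0 T W TA WA : ℕ} : ∀ (l : List Shp) (b0 : ℕ),
    allShp c0 e ah f mt m g' C δ j0 T W TA WA l b0 = true → ∀ b, b < l.length → ∃ s ∈ l,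
      shpOK c0 e ah f mt m TA WA s (b0 + b) = true ∧ tOK s g' C δ j0 T W (b0 + b) (2 * g') = true
  | [], _, _, b, hb => by simp at hb
  | s :: l, b0, h, b, hb => by
    unfold allShp at h
    simp only [Bool.and_eq_true] at h
    rcases b with _ | b
    · exact ⟨s, List.mem_cons_self, h.1.1, h.1.2⟩
    · obtain ⟨s', h1, h2⟩ := allShp_get l (b0 + 1) h.2 b (by simpa using hb)
      refine ⟨s', List.mem_cons_of_mem _ h1, ?_⟩
      rw [Nat.add_assoc, Nat.add_comm 1 b] at h2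
      exact h2

/-- the table bound of a shape -/
theorem tOK_le {s : Shp} {g' C δ j0 T W b R n : ℕ} (hc : 0 < s.c)
    (h : tOK s g' C δ j0 T W b (2 * g') = true)
    (hg8 : 2 ^ s.kl ∣ 2 * g') (hg0 : 0 < g') (hn : n = R + δ) {X i : ℕ} (hX0 : 0 < X)
    (hXj : 2 ^ j0 * X ≤ 2 * 2 ^ R)
    (hXn : X ≤ 2 ^ n) (h1 : 2 ^ R * i ≤ g' * X) (h2 : g' * X ≤ 2 ^ R * (i + 1)) :
    (((2 : ℝ) ^ R * (i + 1) - g' * X) * tab T W b i + (g' * X - 2 ^ R * i) * tab T W b (i + 1) = 0) ∨
    ∃ k, 1 ≤ k ∧ s.k0 ≤ k ∧ k ≤ s.kl ∧ ∃ p ∈ s.B k, Cond (condP k p) (2 ^ n) X ∧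
    ((2 : ℝ) ^ R * (i + 1) - g' * X) * tab T W b i + (g' * X - 2 ^ R * i) * tab T W b (i + 1) ≤
      C * g' * (X - ((p.2.2.1 : ℝ) / 32 * 2 ^ n + p.2.2.2 * X) / (2 * s.c)) := by
  unfold tOK at h
  simp only [Bool.and_eq_true, decide_eq_true_eq] at h
  obtain ⟨⟨⟨⟨hk04, hkl1⟩, hC⟩, hA⟩, hB⟩ := h
  have hR : (0 : ℕ) < 2 ^ R := by positivity
  have hXR : X ≤ 2 * 2 ^ R :=
    (Nat.le_mul_of_pos_left X (by positivity : 0 < 2 ^ j0)).trans hXj
  have h1r : (2 : ℝ) ^ R * i ≤ g' * X := by exact_mod_cast h1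
  have h2r : (g' : ℝ) * X ≤ 2 ^ R * (i + 1) := by exact_mod_cast h2
  have hcr : (0 : ℝ) < s.c := by exact_mod_cast hc
  -- the entries are in the range
  have hiT : i ≤ 2 * g' := by
    apply Nat.le_of_mul_le_mul_left _ hR
    calc 2 ^ R * i ≤ g' * X := h1
      _ ≤ g' * (2 * 2 ^ R) := Nat.mul_le_mul_left _ hXR
      _ = 2 ^ R * (2 * g') := by ring
  have hiT1 : 2 ^ R * i < g' * X → i + 1 ≤ 2 * g' := by
    intro h3
    have : i < 2 * g' := by
      apply Nat.lt_of_mul_lt_mul_left (a := 2 ^ R)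
      calc 2 ^ R * i < g' * X := h3
        _ ≤ g' * (2 * 2 ^ R) := Nat.mul_le_mul_left _ hXR
        _ = 2 ^ R * (2 * g') := by ring
    omega
  -- the octave
  obtain ⟨j, k1, k2, hj, hjj⟩ : ∃ j, 2 ^ R ≤ 2 ^ j * X ∧ 2 ^ j * X ≤ 2 * 2 ^ R ∧ 1 ≤ δ + j ∧
      j0 ≤ j := by
    obtain ⟨j, k1, k2, hjj⟩ := exists_octave' hX0 hXj
    rcases Nat.eq_zero_or_pos (δ + j) with h3 | h3
    · have hj0 : j = 0 := by omega
      have hd0 : δ = 0 := by omega
      subst hj0
      subst hd0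
      rw [Nat.add_zero] at hn
      rw [hn] at hXn
      rw [pow_zero, Nat.one_mul] at k1
      exact ⟨1, by omega, by omega, by omega, by omega⟩
    · exact ⟨j, k1, k2, h3, hjj⟩
  have hj0 : (0 : ℕ) < 2 ^ j := by positivity
  rcases Nat.lt_or_ge (δ + j) s.kl with hk | hk
  · -- the classes before the last one
    have hj3 : 2 ^ j ∣ g' := by
      have h3 : 2 ^ (j + 1) ∣ 2 * g' := (Nat.pow_dvd_pow 2 (by omega)).trans hg8
      rw [pow_succ, Nat.mul_comm (2 ^ j) 2] at h3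
      exact Nat.dvd_of_mul_dvd_mul_left (by norm_num) h3
    have gA : 2 ^ R * (i + 1) - g' * X = 0 ∨ (g' ≤ 2 ^ j * i ∧ 2 ^ j * i ≤ 2 * g') := by
      by_cases h3 : g' ≤ 2 ^ j * i
      · right
        refine ⟨h3, ?_⟩
        apply Nat.le_of_mul_le_mul_left _ hR
        calc 2 ^ R * (2 ^ j * i) = 2 ^ j * (2 ^ R * i) := by ring
          _ ≤ 2 ^ j * (g' * X) := Nat.mul_le_mul_left _ h1
          _ = g' * (2 ^ j * X) := by ring
          _ ≤ g' * (2 * 2 ^ R) := Nat.mul_le_mul_left _ k2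
          _ = 2 ^ R * (2 * g') := by ring
      · left
        obtain ⟨q, rfl⟩ := hj3
        have h4 : i < q := by
          by_contra h5
          exact h3 (Nat.mul_le_mul_left _ (by omega))
        have h5 : 2 ^ R * (i + 1) ≤ 2 ^ j * q * X := by
          calc 2 ^ R * (i + 1) ≤ 2 ^ R * q := Nat.mul_le_mul_left _ h4
            _ ≤ (2 ^ j * X) * q := Nat.mul_le_mul_right _ k1
            _ = 2 ^ j * q * X := by ring
        omega
    have gB : 2 ^ R * i = g' * X ∨ (g' ≤ 2 ^ j * (i + 1) ∧ 2 ^ j * (i + 1) ≤ 2 * g' ∧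
        i + 1 ≤ 2 * g' ∧ 2 ^ R * i < g' * X) := by
      rcases Nat.lt_or_ge (2 ^ R * i) (g' * X) with h3 | h3
      · right
        refine ⟨?_, ?_, hiT1 h3, h3⟩
        · apply Nat.le_of_mul_le_mul_left _ hR
          calc 2 ^ R * g' ≤ 2 ^ j * X * g' := Nat.mul_le_mul_right _ k1
            _ = 2 ^ j * (g' * X) := by ring
            _ ≤ 2 ^ j * (2 ^ R * (i + 1)) := Nat.mul_le_mul_left _ h2
            _ = 2 ^ R * (2 ^ j * (i + 1)) := by ring
        · by_contra h4
          obtain ⟨q, rfl⟩ := hj3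
          have h5 : 2 * q ≤ i := by
            by_contra h6
            apply h4
            calc 2 ^ j * (i + 1) ≤ 2 ^ j * (2 * q) := Nat.mul_le_mul_left _ (by omega)
              _ = 2 * (2 ^ j * q) := by ring
          have h7 : 2 ^ j * q * X ≤ 2 ^ R * i := by
            calc 2 ^ j * q * X = (2 ^ j * X) * q := by ring
              _ ≤ 2 * 2 ^ R * q := Nat.mul_le_mul_right _ k2
              _ = 2 ^ R * (2 * q) := by ring
              _ ≤ 2 ^ R * i := Nat.mul_le_mul_left _ h5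
          omega
      · left
        omega
    have hAk := allB_spec _ _ hA (δ + j) hk
    simp only [Bool.or_eq_true] at hAk
    rcases hAk with (h3 | h3) | h3
    · exact absurd (Nat.le_of_ble_eq_true h3) (by omega)
    · exact absurd (Nat.eq_of_beq_eq_true h3) (by omega)
    rw [Nat.add_sub_cancel_left] at h3
    have ent : ∀ i', g' ≤ 2 ^ j * i' → 2 ^ j * i' ≤ 2 * g' → i' ≤ 2 * g' →
        (bif Nat.blt (δ + j) s.k0 then Nat.beq (tab T W b i') 0
        else (s.B (δ + j)).all (fun p => !relP g' j i' p ||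
          entOK s.c g' C (δ + j) j i' (tab T W b i') p)) = true := by
      intro i' e1 e2 e3
      have h4 := allB_spec _ _ h3 i' (by omega)
      simp only [Bool.or_eq_true] at h4
      rcases h4 with (h5 | h5) | h5
      · exact absurd (Nat.le_of_ble_eq_true h5) (by omega)
      · exact absurd (Nat.le_of_ble_eq_true h5) (by omega)
      · exact h5
    rcases hkk : Nat.blt (δ + j) s.k0 with _ | _
    · -- the rows exist
      right
      rw [hkk] at ent
      simp only [cond_false] at ent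
      have hk0 : s.k0 ≤ δ + j := by
        by_contra h4
        have : Nat.blt (δ + j) s.k0 = true := Nat.ble_eq_true_of_le (by omega)
        rw [hkk] at this
        exact absurd this (by decide)
      -- the piece
      have hCk := allB_spec _ _ hC (δ + j) hk
      simp only [Bool.or_eq_true] at hCk
      have hcov : covOK 8 (s.B (δ + j)) = true := by
        rcases hCk with ((h3 | h3) | h3) | h3
        · exact absurd (Nat.le_of_ble_eq_true h3) (by omega)
        · exact absurd (Nat.eq_of_beq_eq_true h3) (by omega)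
        · rw [hkk] at h3
          exact absurd h3 (by decide)
        · exact h3
      obtain ⟨p, hp, p1, p2⟩ := covOK_spec k2 (s.B (δ + j)) 8 hcov
        (Nat.mul_le_mul_left _ k1) (Or.inl (by norm_num))
      have entp : ∀ i', g' ≤ 2 ^ j * i' → 2 ^ j * i' ≤ 2 * g' → i' ≤ 2 * g' →
          relP g' j i' p = true → entOK s.c g' C (δ + j) j i' (tab T W b i') p = true := by
        intro i' e1 e2 e3 e4
        have h4 := List.all_eq_true.mp (ent i' e1 e2 e3) p hp
        rw [e4] at h4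
        exact h4
      refine ⟨δ + j, hj, hk0, hk.le, p, hp, ?_, ?_⟩
      · have e1 : (2 : ℤ) ^ (δ + j) * X = 2 ^ δ * (2 ^ j * X) := by rw [pow_add]; ring
        have e2 : (2 : ℤ) ^ n = 2 ^ δ * 2 ^ R := by rw [hn, pow_add]; ring
        have k1z : (p.1 : ℤ) * 2 ^ R ≤ 8 * (2 ^ j * X) := by exact_mod_cast p1
        have k2z : 8 * ((2 : ℤ) ^ j * X) ≤ p.2.1 * 2 ^ R := by exact_mod_cast p2
        have hd : (0 : ℤ) < 2 ^ δ := by positivity
        have k3 := mul_le_mul_of_nonneg_left k1z hd.le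
        have k4 := mul_le_mul_of_nonneg_left k2z hd.le
        intro c hcc
        unfold condP at hcc
        simp only [List.mem_cons, List.not_mem_nil, or_false] at hcc
        rcases hcc with rfl | rfl
        · show (0 : ℤ) ≤ (-(p.1 : ℤ)) * 2 ^ n + (8 * 2 ^ (δ + j)) * X
          have e3 : (-(p.1 : ℤ)) * 2 ^ n + (8 * 2 ^ (δ + j)) * X =
              2 ^ δ * (8 * (2 ^ j * X)) - 2 ^ δ * (p.1 * 2 ^ R) := by
            rw [e2, pow_add]; ring
          rw [e3]
          linarith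
        · show (0 : ℤ) ≤ (p.2.1 : ℤ) * 2 ^ n + (-(8 * 2 ^ (δ + j))) * X
          have e3 : (p.2.1 : ℤ) * 2 ^ n + (-(8 * 2 ^ (δ + j))) * X =
              2 ^ δ * (p.2.1 * 2 ^ R) - 2 ^ δ * (8 * (2 ^ j * X)) := by
            rw [e2, pow_add]; ring
          rw [e3]
          linarith
      · have hfin := interp_le (g' := g') (C := C) (R := R) (i := i) (X := X)
          (T0 := tab T W b i) (T1 := tab T W b (i + 1))
          (βU := (p.2.2.1 : ℝ) / 32 * 2 ^ (δ + j) / (2 * s.c * 2 ^ j))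
          (βx := (p.2.2.2 : ℝ) / (2 * s.c)) ?_ ?_ h1r h2r
        · refine hfin.trans (le_of_eq ?_)
          rw [hn]
          have : (2 : ℝ) ^ j ≠ 0 := by positivity
          rw [pow_add, pow_add]
          field_simp
        · rcases gA with h4 | h4
          · left
            have h5 : 2 ^ R * (i + 1) = g' * X := by omega
            have h6 : (2 : ℝ) ^ R * (i + 1) = g' * X := by exact_mod_cast h5
            linarith
          · by_cases h5 : 2 ^ R * (i + 1) = g' * X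
            · left
              have h6 : (2 : ℝ) ^ R * (i + 1) = g' * X := by exact_mod_cast h5
              linarith
            · right
              refine entOK_real hc (entp i h4.1 h4.2 hiT ?_)
              have h7 : g' * X < 2 ^ R * (i + 1) := by omega
              unfold relP
              rw [Bool.and_eq_true]
              constructor
              · apply Nat.ble_eq_true_of_le
                show p.1 * g' < 8 * 2 ^ j * (i + 1)
                apply Nat.lt_of_mul_lt_mul_left (a := 2 ^ R)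
                calc 2 ^ R * (p.1 * g') = (p.1 * 2 ^ R) * g' := by ring
                  _ ≤ (8 * (2 ^ j * X)) * g' := Nat.mul_le_mul_right _ p1
                  _ = 8 * 2 ^ j * (g' * X) := by ring
                  _ < 8 * 2 ^ j * (2 ^ R * (i + 1)) := Nat.mul_lt_mul_of_pos_left h7 (by positivity)
                  _ = 2 ^ R * (8 * 2 ^ j * (i + 1)) := by ring
              · apply Nat.ble_eq_true_of_le
                show 8 * 2 ^ j * i < p.2.1 * g' + 8 * 2 ^ j
                have h8 : 8 * 2 ^ j * i ≤ p.2.1 * g' := by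
                  apply Nat.le_of_mul_le_mul_left _ hR
                  calc 2 ^ R * (8 * 2 ^ j * i) = 8 * 2 ^ j * (2 ^ R * i) := by ring
                    _ ≤ 8 * 2 ^ j * (g' * X) := Nat.mul_le_mul_left _ h1
                    _ = (8 * (2 ^ j * X)) * g' := by ring
                    _ ≤ (p.2.1 * 2 ^ R) * g' := Nat.mul_le_mul_right _ p2
                    _ = 2 ^ R * (p.2.1 * g') := by ring
                omega
        · rcases gB with h4 | h4
          · left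
            have h6 : (2 : ℝ) ^ R * i = g' * X := by exact_mod_cast h4
            linarith
          · right
            have h7 := entOK_real hc (entp (i + 1) h4.1 h4.2.1 h4.2.2.1 ?_)
            · push_cast at h7
              exact h7
            · unfold relP
              rw [Bool.and_eq_true]
              constructor
              · apply Nat.ble_eq_true_of_le
                show p.1 * g' < 8 * 2 ^ j * (i + 1 + 1)
                have h8 : p.1 * g' ≤ 8 * 2 ^ j * (i + 1) := by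
                  apply Nat.le_of_mul_le_mul_left _ hR
                  calc 2 ^ R * (p.1 * g') = (p.1 * 2 ^ R) * g' := by ring
                    _ ≤ (8 * (2 ^ j * X)) * g' := Nat.mul_le_mul_right _ p1
                    _ = 8 * 2 ^ j * (g' * X) := by ring
                    _ ≤ 8 * 2 ^ j * (2 ^ R * (i + 1)) := Nat.mul_le_mul_left _ h2
                    _ = 2 ^ R * (8 * 2 ^ j * (i + 1)) := by ring
                have h9 : 8 * 2 ^ j * (i + 1 + 1) = 8 * 2 ^ j * (i + 1) + 8 * 2 ^ j := by ring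
                omega
              · apply Nat.ble_eq_true_of_le
                show 8 * 2 ^ j * (i + 1) < p.2.1 * g' + 8 * 2 ^ j
                have h8 : 8 * 2 ^ j * i < p.2.1 * g' := by
                  apply Nat.lt_of_mul_lt_mul_left (a := 2 ^ R)
                  calc 2 ^ R * (8 * 2 ^ j * i) = 8 * 2 ^ j * (2 ^ R * i) := by ring
                    _ < 8 * 2 ^ j * (g' * X) := Nat.mul_lt_mul_of_pos_left h4.2.2.2 (by positivity)
                    _ = (8 * (2 ^ j * X)) * g' := by ring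
                    _ ≤ (p.2.1 * 2 ^ R) * g' := Nat.mul_le_mul_right _ p2
                    _ = 2 ^ R * (p.2.1 * g') := by ring
                have h9 : 8 * 2 ^ j * (i + 1) = 8 * 2 ^ j * i + 8 * 2 ^ j := by ring
                omega
    · left
      rw [hkk] at ent
      simp only [cond_true] at ent
      have z1 : ((2 : ℝ) ^ R * (i + 1) - g' * X) * tab T W b i = 0 := by
        rcases gA with h4 | h4
        · have h5 : 2 ^ R * (i + 1) = g' * X := by omega
          have h6 : (2 : ℝ) ^ R * (i + 1) = g' * X := by exact_mod_cast h5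
          rw [h6, sub_self, zero_mul]
        · rw [Nat.eq_of_beq_eq_true (ent i h4.1 h4.2 hiT)]
          simp
      have z2 : ((g' : ℝ) * X - 2 ^ R * i) * tab T W b (i + 1) = 0 := by
        rcases gB with h4 | h4
        · have h6 : (2 : ℝ) ^ R * i = g' * X := by exact_mod_cast h4
          rw [h6, sub_self, zero_mul]
        · rw [Nat.eq_of_beq_eq_true (ent (i + 1) h4.1 h4.2.1 h4.2.2.1)]
          simp
      rw [z1, z2, add_zero]
  · -- the last class
    right
    obtain ⟨p, hp, hpp⟩ := List.any_eq_true.mp hB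
    simp only [Bool.and_eq_true, decide_eq_true_eq] at hpp
    obtain ⟨⟨⟨p0, p16⟩, pV⟩, hT⟩ := hpp
    have p0 : p.1 = 0 := Nat.eq_of_beq_eq_true p0
    have p16 : 16 ≤ p.2.1 := Nat.le_of_ble_eq_true p16
    have h8 : 2 ^ s.kl * X ≤ 2 * 2 ^ n := by
      have e1 : 2 ^ (δ + j) * X ≤ 2 * 2 ^ n := by
        rw [hn, pow_add, pow_add]
        calc 2 ^ δ * 2 ^ j * X = 2 ^ δ * (2 ^ j * X) := by ring
          _ ≤ 2 ^ δ * (2 * 2 ^ R) := Nat.mul_le_mul_left _ k2
          _ = 2 * (2 ^ R * 2 ^ δ) := by ring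
      have e2 : 2 ^ s.kl * X ≤ 2 ^ (δ + j) * X :=
        Nat.mul_le_mul_right _ (Nat.pow_le_pow_right (by norm_num) hk)
      omega
    have hd8 : 2 ^ s.kl ∣ 2 * (2 ^ δ * g') := by
      have e : 2 * (2 ^ δ * g') = 2 ^ δ * (2 * g') := by ring
      rw [e]
      exact hg8.mul_left _
    have gA : 2 ^ s.kl * i ≤ 2 * (2 ^ δ * g') := by
      apply Nat.le_of_mul_le_mul_left _ hR
      calc 2 ^ R * (2 ^ s.kl * i) = 2 ^ s.kl * (2 ^ R * i) := by ring
        _ ≤ 2 ^ s.kl * (g' * X) := Nat.mul_le_mul_left _ h1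
        _ = g' * (2 ^ s.kl * X) := by ring
        _ ≤ g' * (2 * 2 ^ n) := Nat.mul_le_mul_left _ h8
        _ = 2 ^ R * (2 * (2 ^ δ * g')) := by rw [hn, pow_add]; ring
    have gB : 2 ^ R * i = g' * X ∨ (2 ^ s.kl * (i + 1) ≤ 2 * (2 ^ δ * g') ∧ i + 1 ≤ 2 * g') := by
      rcases Nat.lt_or_ge (2 ^ R * i) (g' * X) with h3 | h3
      · right
        refine ⟨?_, hiT1 h3⟩
        obtain ⟨q, hq⟩ := hd8
        by_contra h4
        rw [hq] at h4
        have hkp : 0 < 2 ^ s.kl := by positivity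
        have h5 : q ≤ i := by
          by_contra h6
          exact h4 (Nat.mul_le_mul_left _ (by omega))
        have h6 : g' * X ≤ 2 ^ R * i := by
          apply Nat.le_of_mul_le_mul_left _ hkp
          calc 2 ^ s.kl * (g' * X) = g' * (2 ^ s.kl * X) := by ring
            _ ≤ g' * (2 * 2 ^ n) := Nat.mul_le_mul_left _ h8
            _ = 2 ^ R * (2 * (2 ^ δ * g')) := by rw [hn, pow_add]; ring
            _ = 2 ^ R * (2 ^ s.kl * q) := by rw [hq]
            _ ≤ 2 ^ R * (2 ^ s.kl * i) := Nat.mul_le_mul_left _ (Nat.mul_le_mul_left _ h5)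
            _ = 2 ^ s.kl * (2 ^ R * i) := by ring
        omega
      · left
        omega
    have ent : ∀ i', 2 ^ s.kl * i' ≤ 2 * (2 ^ δ * g') → i' ≤ 2 * g' →
        entOK s.c g' C s.kl 0 i' (tab T W b i') p = true := by
      intro i' e1 e2
      have h4 := allB_spec _ _ hT i' (by omega)
      simp only [Bool.or_eq_true] at h4
      rcases h4 with h5 | h5
      · exact absurd (Nat.le_of_ble_eq_true h5) (by omega)
      · exact h5
    refine ⟨s.kl, hkl1, hk04, le_rfl, p, hp, ?_, ?_⟩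
    · intro c hcc
      unfold condP at hcc
      simp only [List.mem_cons, List.not_mem_nil, or_false] at hcc
      have h8z : (2 : ℤ) ^ s.kl * X ≤ 2 * 2 ^ n := by exact_mod_cast h8
      have hV : (0 : ℤ) < 2 ^ n := by positivity
      rcases hcc with rfl | rfl
      · show (0 : ℤ) ≤ (-(p.1 : ℤ)) * 2 ^ n + (8 * 2 ^ s.kl) * X
        rw [p0]
        push_cast
        rw [neg_zero, zero_mul, zero_add]
        positivity
      · show (0 : ℤ) ≤ (p.2.1 : ℤ) * 2 ^ n + (-(8 * 2 ^ s.kl)) * X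
        have h16 : (16 : ℤ) ≤ p.2.1 := by exact_mod_cast p16
        have := mul_le_mul_of_nonneg_right h16 hV.le
        linarith
    · have hfin := interp_le (g' := g') (C := C) (R := R) (i := i) (X := X)
        (T0 := tab T W b i) (T1 := tab T W b (i + 1)) (βU := 0)
        (βx := (p.2.2.2 : ℝ) / (2 * s.c)) ?_ ?_ h1r h2r
      · refine hfin.trans (le_of_eq ?_)
        rw [pV]
        push_cast
        ring
      · right
        have h7 := entOK_real hc (ent i gA hiT)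
        rw [pV] at h7
        push_cast at h7
        rw [zero_div, zero_mul, zero_div] at h7
        exact h7
      · rcases gB with h4 | h4
        · left
          have h6 : (2 : ℝ) ^ R * i = g' * X := by exact_mod_cast h4
          linarith
        · right
          have h7 := entOK_real hc (ent (i + 1) h4.1 h4.2)
          rw [pV] at h7
          push_cast at h7
          rw [zero_div, zero_mul, zero_div] at h7
          exact h7

/-- one check for all levels from the last class on -/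
theorem tOK_big {s : Shp} {g' C δ j0 T W b kl : ℕ} (hkl : s.kl ≤ kl) (hδ : kl ≤ δ)
    (h : tOK s g' C kl j0 T W b (2 * g') = true) : tOK s g' C δ j0 T W b (2 * g') = true := by
  unfold tOK at h ⊢
  simp only [Bool.and_eq_true] at h ⊢
  obtain ⟨⟨⟨h1, _⟩, _⟩, h3⟩ := h
  refine ⟨⟨⟨h1, ?_⟩, ?_⟩, ?_⟩
  · refine allB_of _ _ ?_
    intro k hk
    have : Nat.blt k (δ + j0) = true := Nat.ble_eq_true_of_le (by omega)
    rw [this]
    rfl
  · refine allB_of _ _ ?_
    intro k hk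
    have : Nat.blt k (δ + j0) = true := Nat.ble_eq_true_of_le (by omega)
    rw [this]
    rfl
  · obtain ⟨p, hp, hpp⟩ := List.any_eq_true.mp h3
    refine List.any_eq_true.mpr ⟨p, hp, ?_⟩
    simp only [Bool.and_eq_true] at hpp ⊢
    refine ⟨hpp.1, ?_⟩
    refine allB_of _ _ ?_
    intro i hi
    have h4 := allB_spec _ _ hpp.2 i hi
    simp only [Bool.or_eq_true] at h4 ⊢
    rcases h4 with h5 | h5
    · exfalso
      have h6 := Nat.le_of_ble_eq_true h5
      have h7 : 2 ^ s.kl * i ≤ 2 ^ kl * (2 * g') :=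
        Nat.mul_le_mul (Nat.pow_le_pow_right (by norm_num) hkl) (by omega)
      have h8 : 2 * (2 ^ kl * g') = 2 ^ kl * (2 * g') := by ring
      omega
    · exact Or.inr h5

theorem allShp_big {c0 e ah f mt m g' C δ j0 T W TA WA kl : ℕ} (hδ : kl ≤ δ) :
    ∀ (l : List Shp) (b0 : ℕ), (l.all fun s => Nat.ble s.kl kl) = true →
    allShp c0 e ah f mt m g' C kl j0 T W TA WA l b0 = true →
    allShp c0 e ah f mt m g' C δ j0 T W TA WA l b0 = true
  | [], _, _, _ => rfl
  | s :: l, b0, hl, h => by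
    rw [List.all_cons, Bool.and_eq_true] at hl
    unfold allShp at h ⊢
    simp only [Bool.and_eq_true] at h ⊢
    exact ⟨⟨h.1.1, tOK_big (Nat.le_of_ble_eq_true hl.1) hδ h.1.2⟩,
      allShp_big hδ l (b0 + 1) hl.2 h.2⟩

/-- the checks for all levels from `lev` on -/
def allShpU (kl c0 e ah f mt m g' C lev j0 T W TA WA : ℕ) (l : List Shp) : Bool :=
  (l.all fun s => Nat.ble s.kl kl) && (l.all fun s => Nat.beq ((2 * g') % 2 ^ s.kl) 0) &&
    allB (kl + 1) (fun δ => Nat.blt δ lev || allShp c0 e ah f mt m g' C δ j0 T W TA WA l 0)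

theorem allShpU_spec {kl c0 e ah f mt m g' C lev j0 T W TA WA : ℕ} {l : List Shp}
    (h : allShpU kl c0 e ah f mt m g' C lev j0 T W TA WA l = true) (hlev : lev ≤ kl) {δ : ℕ}
    (hδ : lev ≤ δ) : allShp c0 e ah f mt m g' C δ j0 T W TA WA l 0 = true := by
  unfold allShpU at h
  rw [Bool.and_eq_true, Bool.and_eq_true] at h
  have key : ∀ d, d < kl + 1 → lev ≤ d → allShp c0 e ah f mt m g' C d j0 T W TA WA l 0 = true := by
    intro d hd hl
    have h1 := allB_spec _ _ h.2 d hd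
    simp only [Bool.or_eq_true] at h1
    rcases h1 with h2 | h2
    · exact absurd (Nat.le_of_ble_eq_true h2) (by omega)
    · exact h2
  rcases Nat.lt_or_ge δ kl with h4 | h4
  · exact key δ (by omega) hδ
  · exact allShp_big h4 l 0 h.1.1 (key kl (by omega) hlev)

theorem allShpU_dvd {kl c0 e ah f mt m g' C lev j0 T W TA WA : ℕ} {l : List Shp}
    (h : allShpU kl c0 e ah f mt m g' C lev j0 T W TA WA l = true) :
    ∀ s ∈ l, 2 ^ s.kl ∣ 2 * g' := by
  unfold allShpU at h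
  rw [Bool.and_eq_true, Bool.and_eq_true] at h
  intro s hs
  exact Nat.dvd_of_mod_eq_zero (Nat.eq_of_beq_eq_true (List.all_eq_true.mp h.1.2 s hs))

theorem tOK_zero {s : Shp} {g' C δ j0 T W b top : ℕ} (hc : 0 < s.c)
    (h : tOK s g' C δ j0 T W b top = true) : tab T W b 0 = 0 := by
  unfold tOK at h
  simp only [Bool.and_eq_true, decide_eq_true_eq] at h
  obtain ⟨_, hB⟩ := h
  obtain ⟨p, hp, hpp⟩ := List.any_eq_true.mp hB
  simp only [Bool.and_eq_true, decide_eq_true_eq] at hpp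
  obtain ⟨⟨_, pV⟩, hT⟩ := hpp
  have h4 := allB_spec _ _ hT 0 (by omega)
  simp only [Bool.or_eq_true] at h4
  rcases h4 with h5 | h5
  · exact absurd (Nat.le_of_ble_eq_true h5) (by omega)
  · have h6 := entOK_real hc h5
    rw [pV] at h6
    have h7 : (tab T W b 0 : ℝ) ≤ 0 := by
      refine h6.trans (le_of_eq ?_)
      push_cast
      ring
    have h8 : (tab T W b 0) ≤ 0 := by exact_mod_cast h7
    omega

/-- the smooth quantity of a facet item -/
noncomputable def ellF (c0 e ah : ℕ) (N : Frame.Num) (w : ℤ) (j t : ℕ) : ℝ :=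
  e / c0 * (N.E / Sc) + N.x + ah * (N.x - w) / (2 * c0) - N.d j t / (2 * 2 ^ j)

/-- the facet item -/
theorem ts_facets {S : SysL} {x : ℕ → ℤ}
    {ex et eg hx FT C g' FL Fx T W TA WA s8 RN St Dt Ht mt m c0 e ah : ℕ}
    {L : List ℤ} {shapes : List Shp} {δ j0 R j t : ℕ} {κ : ℤ}
    (hf : Fam α n w N) (hwx : w ≤ N.x) (hn : n = R + δ)
    (hhx : 0 < hx) (hGG : S.GG = hx * g') (hg8 : ∀ s ∈ shapes, 2 ^ s.kl ∣ 2 * g') (hg0 : 0 < g')
    (hFx : Fx = FT * g') (hcc : FT * (C * g') = 8 * s8 * (2 * c0))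
    (hDS : Dt * 2 ^ j = 8 * St) (hc0 : 0 < c0)
    (hκ : 0 < κ) (h0 : x 0 = κ * 2 ^ R)
    (hX : dot (S.fe ex) x = κ * N.x) (ht : dot (S.fe et) x ≤ κ * t)
    (hG : dot (S.fe eg) x ≤ κ * w) (hxR : 2 ^ j0 * N.x ≤ 2 * 2 ^ R)
    (hrow : ∀ s ∈ shapes, s.HoldAll n w N)
    (hL0 : 0 ≤ dot L x)
    (hFL : (FL : ℝ) * dot L x = FT * (C * g') * (κ * ellF c0 e ah N w j t))
    (hT : Nat.log2 T < 24 * (shapes.length * W))
    (htab : allShp c0 e ah (4 * (Ht * St)) mt m g' C δ j0 T W TA WA shapes 0 = true) :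
    (ItemL.ts ex hx L FL Fx FT T W s8 RN
      (List.replicate mt (et, St, Dt, Ht) ++ List.replicate m (eg, 1, 16, 1)) TA WA).Sem S x := by
  intro i b hi hb h1 h2
  rcases Nat.lt_or_ge b shapes.length with hbl | hbl
  swap
  · -- no shape
    rw [tab_high hT hbl, tab_high hT hbl]
    have h3 := hsum_nonneg' S x (dot (S.fe ex) x) s8 TA WA b 0
      (List.replicate mt (et, St, Dt, Ht) ++ List.replicate m (eg, 1, 16, 1))
    have h4 : (0 : ℤ) ≤ FL * dot L x := mul_nonneg (by positivity) hL0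
    simp only [Nat.cast_zero, sub_zero, zero_mul, mul_zero, add_zero]
    exact add_nonneg h4 h3
  obtain ⟨s, hs, c1, c2⟩ := allShp_get shapes 0 htab b hbl
  rw [Nat.zero_add] at c1 c2
  unfold shpOK at c1
  simp only [Bool.and_eq_true] at c1
  obtain ⟨⟨⟨⟨⟨⟨c3, c4⟩, c5⟩, c11⟩, c6⟩, c7⟩, c10⟩ := c1
  have c3 := Nat.eq_of_beq_eq_true c3
  have c4 := Nat.eq_of_beq_eq_true c4
  have c5 := Nat.eq_of_beq_eq_true c5
  have c6 := Nat.eq_of_beq_eq_true c6
  have c11 := Nat.eq_of_beq_eq_true c11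
  -- the mesh
  have hx0 : (0 : ℤ) < hx := by exact_mod_cast hhx
  rw [hGG, hX, h0] at h1 h2
  push_cast at h1 h2
  have k1 : (2 : ℤ) ^ R * i ≤ g' * N.x := by
    apply le_of_mul_le_mul_left _ (mul_pos hx0 hκ)
    linarith
  have k2 : (g' : ℤ) * N.x ≤ 2 ^ R * (i + 1) := by
    apply le_of_mul_le_mul_left _ (mul_pos hx0 hκ)
    linarith
  have k1n : 2 ^ R * i ≤ g' * N.x := by exact_mod_cast k1
  have k2n : g' * N.x ≤ 2 ^ R * (i + 1) := by exact_mod_cast k2
  have hκr : (0 : ℝ) < κ := by exact_mod_cast hκ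
  -- the smooth inequality
  have hS : (0 : ℝ) < Sc := by exact_mod_cast Sc_pos
  have hsc : 0 < s.c := by rw [c3]; exact hc0
  have hcr : (0 : ℝ) < c0 := by exact_mod_cast hc0
  -- the hinges of the item
  have q1 := hsum_eg (S := S) (x := x) (s8 := s8) (TA := TA) (WA := WA) (b := b) (X := N.x) hκ hG
    (2 * mt) s.hs c10
  rw [c6] at q1
  have q2 := hsum_et (S := S) (x := x) (s8 := s8) (TA := TA) (WA := WA) (b := b) (X := N.x)
    (t := t) (j := j) hκ hDS ht 0 s.th c7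
  rw [c11] at q2
  have e11 := hsum_app S x (dot (S.fe ex) x) s8 TA WA b (List.replicate mt (et, St, Dt, Ht))
    (List.replicate m (eg, 1, 16, 1)) 0
  rw [List.length_replicate, Nat.zero_add, hX] at e11
  rw [hX, e11, h0, hFx]
  generalize Chk.hsum S x (κ * N.x) s8 TA WA b 0 (List.replicate mt (et, St, Dt, Ht)) = h1z at *
  generalize Chk.hsum S x (κ * N.x) s8 TA WA b (2 * mt) (List.replicate m (eg, 1, 16, 1)) = h2z at *
  have hmx := tR_nonneg s.th N.x (t / 2 ^ j)
  have hh1 : (0 : ℝ) ≤ h1z := (mul_nonneg (by positivity) hmx).trans q2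
  have hh2 : (0 : ℝ) ≤ h2z := (mul_nonneg (by positivity) (hinR_nonneg _ _ _)).trans q1
  have hFLr : (0 : ℝ) ≤ (FL : ℝ) * dot L x := by
    have : (0 : ℝ) ≤ dot L x := by exact_mod_cast hL0
    positivity
  have goal_real : (FT : ℝ) * κ * (((2 : ℝ) ^ R * (i + 1) - g' * N.x) * tab T W b i +
      (g' * N.x - 2 ^ R * i) * tab T W b (i + 1)) ≤ FL * dot L x + h1z + h2z := by
    rcases Nat.eq_zero_or_pos N.x with hX0 | hX0
    · -- the empty family
      have z : ((2 : ℝ) ^ R * (i + 1) - g' * N.x) * tab T W b i +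
          (g' * N.x - 2 ^ R * i) * tab T W b (i + 1) = 0 := by
        rw [hX0, Nat.mul_zero] at k1n
        have hi0 : i = 0 := by
          have hR : (0 : ℕ) < 2 ^ R := by positivity
          rcases Nat.eq_zero_or_pos i with h3 | h3
          · exact h3
          · exact absurd k1n (by have := Nat.mul_pos hR h3; omega)
        rw [hi0, tOK_zero hsc c2, hX0]
        push_cast
        ring
      rw [z, mul_zero]
      linarith
    · rcases tOK_le (s := s) hsc c2 (hg8 s hs) hg0 hn hX0 hxR hf.cap k1n k2n with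
        z | ⟨k, l1, l2, l3, p, hp, l4, l5⟩
      · rw [z, mul_zero]
        linarith
      · have h3 := Shp.real hwx (hrow s hs k l1 l2 l3 p hp) l4 hsc j t
        rw [c3, c4, c5] at h3
        rw [c3] at l5
        have h6 : (N.x : ℝ) - ((p.2.2.1 : ℝ) / 32 * 2 ^ n + p.2.2.2 * N.x) / (2 * c0) ≤
            ellF c0 e ah N w j t + (hinR s.hs N.x w / (2 * c0) +
              tR s.th N.x (t / 2 ^ j) / c0) := by
          unfold ellF
          have e12 : ((p.2.2.1 : ℝ) / 32 * 2 ^ n + p.2.2.2 * N.x + ah * (N.x - w) +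
              hinR s.hs N.x w) / (2 * c0) = ((p.2.2.1 : ℝ) / 32 * 2 ^ n + p.2.2.2 * N.x) / (2 * c0) +
              ah * (N.x - w) / (2 * c0) + hinR s.hs N.x w / (2 * c0) := by ring
          rw [e12] at h3
          linarith
        have hccr : (FT : ℝ) * (C * g') = 8 * s8 * (2 * c0) := by exact_mod_cast hcc
        have h7 := mul_le_mul_of_nonneg_left (l5.trans (mul_le_mul_of_nonneg_left h6
          (by positivity : (0 : ℝ) ≤ C * g'))) (by positivity : (0 : ℝ) ≤ (FT : ℝ) * κ)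
        refine h7.trans ?_
        rw [hFL]
        have e13 : (FT : ℝ) * κ * (C * g' * (ellF c0 e ah N w j t + (hinR s.hs N.x w / (2 * c0) +
            tR s.th N.x (t / 2 ^ j) / c0))) =
            FT * (C * g') * (κ * ellF c0 e ah N w j t) +
            (16 * s8 * κ) * tR s.th N.x (t / 2 ^ j) +
            (8 * s8 * κ) * hinR s.hs N.x w := by
          have e14 : (FT : ℝ) * κ * (C * g' * (ellF c0 e ah N w j t + (hinR s.hs N.x w / (2 * c0) +
            tR s.th N.x (t / 2 ^ j) / c0))) =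
            FT * (C * g') * (κ * ellF c0 e ah N w j t) +
            (FT * (C * g')) * (κ * (hinR s.hs N.x w / (2 * c0) +
              tR s.th N.x (t / 2 ^ j) / c0)) := by ring
          rw [e14, hccr]
          field_simp
          ring
        rw [e13]
        linarith
  have hfin : ((FT * κ * ((2 ^ R * (i + 1) - g' * N.x) * tab T W b i +
      (g' * N.x - 2 ^ R * i) * tab T W b (i + 1)) : ℤ) : ℝ) ≤
      ((FL * dot L x + h1z + h2z : ℤ) : ℝ) := by
    push_cast
    exact goal_real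
  have hfin' : FT * κ * ((2 ^ R * (i + 1) - g' * N.x) * tab T W b i +
      (g' * N.x - 2 ^ R * i) * tab T W b (i + 1)) ≤
      FL * dot L x + h1z + h2z := by exact_mod_cast hfin
  rw [← sub_nonneg] at hfin'
  refine hfin'.trans (le_of_eq ?_)
  push_cast
  ring

/-- the smooth quantity of a facet item is nonnegative -/
theorem ellF_nonneg {c0 e ah : ℕ} (hc : 0 < c0) (hce : c0 ≤ e) (hwx : w ≤ N.x) (hf : Fam α n w N)
    (T : ∀ (s : Finset α) (X : Finset (Finset α)), s.card = n → Sub s X → TC 2 s X) (j t : ℕ) :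
    0 ≤ ellF c0 e ah N w j t := by
  have h1 := hf.tc T j t
  have h3 := hf.E_ge
  have h0 := hf.E0
  have hS : (0 : ℝ) < Sc := by exact_mod_cast Sc_pos
  have hcr : (0 : ℝ) < c0 := by exact_mod_cast hc
  have hj : (0 : ℝ) < 2 ^ j := by positivity
  have h1r : (N.d j t : ℝ) ≤ 2 ^ j * (2 * N.L) + 2 * max 0 (2 ^ j * (N.x : ℝ) - t) := by
    exact_mod_cast h1
  have h2 : max 0 (2 ^ j * (N.x : ℝ) - t) ≤ 2 ^ j * N.x :=
    max_le (by positivity) (by have : (0 : ℝ) ≤ t := by positivity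
                               linarith)
  have h3r : (Sc : ℝ) * N.L ≤ N.E := by exact_mod_cast h3
  have h4 : (N.L : ℝ) ≤ N.E / Sc := by
    rw [le_div_iff₀ hS]; linarith
  have h5 : (N.d j t : ℝ) / (2 * 2 ^ j) ≤ N.L + N.x := by
    rw [div_le_iff₀ (by positivity)]
    have : (N.L + N.x : ℝ) * (2 * 2 ^ j) = 2 ^ j * (2 * N.L) + 2 * (2 ^ j * N.x) := by ring
    rw [this]
    linarith
  have h6 : (N.E : ℝ) / Sc ≤ e / c0 * (N.E / Sc) := by
    have h7 : (1 : ℝ) ≤ e / c0 := by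
      rw [le_div_iff₀ hcr, one_mul]
      exact_mod_cast hce
    have h8 : (0 : ℝ) ≤ N.E / Sc := by
      have : (0 : ℝ) ≤ N.E := by exact_mod_cast h0
      positivity
    nlinarith
  have h9 : (0 : ℝ) ≤ ah * (N.x - w) / (2 * c0) := by
    have : (w : ℝ) ≤ N.x := by exact_mod_cast hwx
    have : (0 : ℝ) ≤ N.x - w := by linarith
    positivity
  unfold ellF
  linarith

theorem tab_lin {T W C g' i R X : ℕ} (hT : ∀ i, i ≤ 2 * g' → tab T W 0 i ≤ C * i)
    (hXR : X ≤ 2 * 2 ^ R) (h1 : 2 ^ R * i ≤ g' * X) (h2 : g' * X ≤ 2 ^ R * (i + 1)) :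
    ((2 : ℝ) ^ R * (i + 1) - g' * X) * tab T W 0 i + (g' * X - 2 ^ R * i) * tab T W 0 (i + 1) ≤
      C * g' * X := by
  have hR : (0 : ℕ) < 2 ^ R := by positivity
  have h1r : (2 : ℝ) ^ R * i ≤ g' * X := by exact_mod_cast h1
  have h2r : (g' : ℝ) * X ≤ 2 ^ R * (i + 1) := by exact_mod_cast h2
  have hiT : i ≤ 2 * g' := by
    apply Nat.le_of_mul_le_mul_left _ hR
    calc 2 ^ R * i ≤ g' * X := h1
      _ ≤ g' * (2 * 2 ^ R) := Nat.mul_le_mul_left _ hXR
      _ = 2 ^ R * (2 * g') := by ring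
  have a1 : ((2 : ℝ) ^ R * (i + 1) - g' * X) * tab T W 0 i ≤
      (2 ^ R * (i + 1) - g' * X) * (C * i) := by
    apply mul_le_mul_of_nonneg_left _ (by linarith)
    exact_mod_cast hT i hiT
  have a2 : ((g' : ℝ) * X - 2 ^ R * i) * tab T W 0 (i + 1) ≤
      (g' * X - 2 ^ R * i) * (C * (i + 1)) := by
    rcases Nat.lt_or_ge (2 ^ R * i) (g' * X) with h3 | h3
    · apply mul_le_mul_of_nonneg_left _ (by linarith)
      have h4 : i < 2 * g' := by
        apply Nat.lt_of_mul_lt_mul_left (a := 2 ^ R)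
        calc 2 ^ R * i < g' * X := h3
          _ ≤ g' * (2 * 2 ^ R) := Nat.mul_le_mul_left _ hXR
          _ = 2 ^ R * (2 * g') := by ring
      exact_mod_cast hT (i + 1) (by omega)
    · have h4 : 2 ^ R * i = g' * X := by omega
      have h5 : (2 : ℝ) ^ R * i = g' * X := by exact_mod_cast h4
      rw [h5, sub_self, zero_mul, zero_mul]
  refine (add_le_add a1 a2).trans (le_of_eq ?_)
  ring

/-- the statement with the constant 2 as an item, for the loss itself -/
theorem ts_tc {S : SysL} {x : ℕ → ℤ} {ex et hx FT C g' FL Fx T W TA WA s8 RN St Dt Ht : ℕ}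
    {L : List ℤ} {R j t : ℕ} {κ : ℤ}
    (hf : Fam α n w N)
    (Tc : ∀ (s : Finset α) (X : Finset (Finset α)), s.card = n → Sub s X → TC 2 s X)
    (hhx : 0 < hx) (hGG : S.GG = hx * g')
    (hFx : Fx = FT * g') (hcc : FT * (C * g') = 8 * s8 * (4 * (Ht * St)))
    (hDS : Dt * 2 ^ j = 4 * St)
    (hκ : 0 < κ) (h0 : x 0 = κ * 2 ^ R)
    (hX : dot (S.fe ex) x = κ * N.x) (ht : dot (S.fe et) x ≤ κ * t) (hxR : N.x ≤ 2 * 2 ^ R)
    (hFL : (FL : ℝ) * dot L x = FT * (C * g') * (κ * (N.L + N.x - N.d j t / (2 * 2 ^ j))))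
    (hT : Nat.log2 T < 24 * W) (hTT : allB (2 * g' + 1) (fun i => Nat.ble (tab T W 0 i) (C * i)) = true)
    (hTA : tab TA WA 0 0 = 1) (hTA' : tab TA WA 0 1 = 4) :
    (ItemL.ts ex hx L FL Fx FT T W s8 RN [(et, St, Dt, Ht)] TA WA).Sem S x := by
  intro i b hi hb h1 h2
  have h1' := hf.tc Tc j t
  have hj : (0 : ℝ) < 2 ^ j := by positivity
  have hκr : (0 : ℝ) < κ := by exact_mod_cast hκ
  have h0L := hf.L0
  have hdr : (N.d j t : ℝ) / (2 * 2 ^ j) ≤ N.L + max 0 ((N.x : ℝ) - t / 2 ^ j) := by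
    have h1r : (N.d j t : ℝ) ≤ 2 ^ j * (2 * N.L) + 2 * max 0 (2 ^ j * (N.x : ℝ) - t) := by
      exact_mod_cast h1'
    rw [div_le_iff₀ (by positivity)]
    have e1 : max 0 (2 ^ j * (N.x : ℝ) - t) = 2 ^ j * max 0 ((N.x : ℝ) - t / 2 ^ j) := by
      rw [mul_max_of_nonneg _ _ hj.le, mul_zero]
      congr 1
      field_simp
    rw [e1] at h1r
    linarith
  have hFL0 : (0 : ℝ) ≤ FL * dot L x := by
    rw [hFL]
    have h2 : max 0 ((N.x : ℝ) - t / 2 ^ j) ≤ N.x :=
      max_le (by positivity) (by have : (0 : ℝ) ≤ t / 2 ^ j := by positivity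
                                 linarith)
    have : (0 : ℝ) ≤ N.L + N.x - N.d j t / (2 * 2 ^ j) := by linarith
    positivity
  have hsn := hsum_nonneg' S x (dot (S.fe ex) x) s8 TA WA b 0 [(et, St, Dt, Ht)]
  rcases Nat.eq_zero_or_pos b with hb0 | hb0
  swap
  · have hT1 : Nat.log2 T < 24 * (1 * W) := by rwa [one_mul]
    rw [tab_high hT1 hb0, tab_high hT1 hb0]
    have h4 : (0 : ℤ) ≤ FL * dot L x := by exact_mod_cast hFL0
    simp only [Nat.cast_zero, sub_zero, zero_mul, mul_zero, add_zero]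
    exact add_nonneg h4 hsn
  subst hb0
  have hx0 : (0 : ℤ) < hx := by exact_mod_cast hhx
  rw [hGG, hX, h0] at h1 h2
  push_cast at h1 h2
  have k1 : (2 : ℤ) ^ R * i ≤ g' * N.x := by
    apply le_of_mul_le_mul_left _ (mul_pos hx0 hκ)
    linarith
  have k2 : (g' : ℤ) * N.x ≤ 2 ^ R * (i + 1) := by
    apply le_of_mul_le_mul_left _ (mul_pos hx0 hκ)
    linarith
  have k1n : 2 ^ R * i ≤ g' * N.x := by exact_mod_cast k1
  have k2n : g' * N.x ≤ 2 ^ R * (i + 1) := by exact_mod_cast k2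
  have hlin := tab_lin (T := T) (W := W) (C := C) (g' := g')
    (fun i' hi' => Nat.le_of_ble_eq_true (allB_spec _ _ hTT i' (by omega))) hxR k1n k2n
  have e11 : Chk.hsum S x (dot (S.fe ex) x) s8 TA WA 0 0 [(et, St, Dt, Ht)] =
      8 * (s8 * (Ht * 1)) * max 0 ((St * 4 : ℕ) * (κ * N.x) - Dt * dot (S.fe et) x) := by
    unfold Chk.hsum Chk.hsum
    rw [hTA, hTA', hX, add_zero]
    push_cast
    ring
  rw [e11, hX, h0, hFx]
  have q2 : (8 * s8 * (4 * (Ht * St)) * κ : ℝ) * max 0 ((N.x : ℝ) - t / 2 ^ j) ≤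
      ((8 * (s8 * (Ht * 1)) *
      max 0 ((St * 4 : ℕ) * (κ * N.x) - Dt * dot (S.fe et) x) : ℤ) : ℝ) := by
    have e1 : ((4 * St) * κ : ℝ) * max 0 ((N.x : ℝ) - t / 2 ^ j) ≤
        max 0 ((St : ℝ) * 4 * (κ * N.x) - Dt * dot (S.fe et) x) := by
      rw [mul_max_of_nonneg _ _ (by positivity : (0 : ℝ) ≤ (4 * St) * κ), mul_zero]
      apply max_le_max le_rfl
      have e3 : (Dt : ℝ) * 2 ^ j = 4 * St := by exact_mod_cast hDS
      have e4 : (dot (S.fe et) x : ℝ) ≤ κ * t := by exact_mod_cast ht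
      have e5 : (Dt : ℝ) * dot (S.fe et) x ≤ (Dt : ℝ) * (κ * t) :=
        mul_le_mul_of_nonneg_left e4 (by positivity)
      have e6 : (Dt : ℝ) * (κ * t) = 4 * St * (κ * (t / 2 ^ j)) := by
        rw [← e3]
        field_simp
      have e9 : (4 * St * κ : ℝ) * (N.x - t / 2 ^ j) =
          St * 4 * (κ * N.x) - 4 * St * (κ * (t / 2 ^ j)) := by ring
      rw [e9]
      linarith
    have e10 := mul_le_mul_of_nonneg_left e1 (by positivity : (0 : ℝ) ≤ 8 * s8 * Ht)
    push_cast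
    rw [mul_one]
    calc (8 * s8 * (4 * (Ht * St)) * κ : ℝ) * max 0 ((N.x : ℝ) - t / 2 ^ j)
        = 8 * s8 * Ht * ((4 * St) * κ * max 0 ((N.x : ℝ) - t / 2 ^ j)) := by ring
      _ ≤ _ := e10
      _ = _ := by ring
  generalize (8 * (s8 * (Ht * 1)) *
      max 0 ((St * 4 : ℕ) * (κ * (N.x : ℤ)) - Dt * dot (S.fe et) x) : ℤ) = h1z at *
  have goal_real : (FT : ℝ) * κ * (((2 : ℝ) ^ R * (i + 1) - g' * N.x) * tab T W 0 i +
      (g' * N.x - 2 ^ R * i) * tab T W 0 (i + 1)) ≤ FL * dot L x + h1z := by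
    have h7 := mul_le_mul_of_nonneg_left hlin (by positivity : (0 : ℝ) ≤ (FT : ℝ) * κ)
    refine h7.trans ?_
    rw [hFL]
    have hccr : (FT : ℝ) * (C * g') = 8 * s8 * (4 * (Ht * St)) := by exact_mod_cast hcc
    refine le_trans ?_ (add_le_add_right q2 _)
    have e13 : (FT : ℝ) * κ * (C * g' * N.x) = (FT * (C * g')) * (κ * N.x) := by ring
    rw [e13]
    have e14 : (8 * s8 * (4 * (Ht * St)) * κ : ℝ) * max 0 ((N.x : ℝ) - t / 2 ^ j) =
        (FT * (C * g')) * (κ * max 0 ((N.x : ℝ) - t / 2 ^ j)) := by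
      rw [hccr]; ring
    rw [e14, ← mul_add, ← mul_add]
    apply mul_le_mul_of_nonneg_left _ (by positivity)
    apply mul_le_mul_of_nonneg_left _ hκr.le
    linarith
  have hfin : ((FT * κ * ((2 ^ R * (i + 1) - g' * N.x) * tab T W 0 i +
      (g' * N.x - 2 ^ R * i) * tab T W 0 (i + 1)) : ℤ) : ℝ) ≤
      ((FL * dot L x + h1z : ℤ) : ℝ) := by
    push_cast
    exact goal_real
  have hfin' : FT * κ * ((2 ^ R * (i + 1) - g' * N.x) * tab T W 0 i +
      (g' * N.x - 2 ^ R * i) * tab T W 0 (i + 1)) ≤ FL * dot L x + h1z := by exact_mod_cast hfin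
  rw [← sub_nonneg] at hfin'
  refine hfin'.trans (le_of_eq ?_)
  push_cast
  ring

end Pool.Agent.EdgeIso.Chk
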