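import Pool.Agent.Lib.MP_48c8f3_co.BasR
import Pool.Agent.Lib.MP_48c8f3_co.KNc
import Pool.Agent.Lib.MP_48c8f3_co.KNd
import Pool.Agent.Lib.MP_48c8f3_co.TSa

set_option autoImplicit false
set_option linter.unusedSectionVars false

/-!
MP_48c8f3_co: items of a system at a point in the unit `2 ^ 28 * 2 ^ R`, ready for the systems of the
roots and of the smooth inequality.
-/

namespace Pool.Agent.EdgeIso.Chk

open Finset Pool.Agent.EdgeIso.Frame Pool.Agent.EdgeIso.Cell Pool.Agent.EdgeIso.Walsh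
  Pool.Agent.EdgeIso.Smooth

variable {α : Type*} [DecidableEq α] {n : ℕ} {v : ℤ} {N : Frame.Num} {S : SysL} {x : ℕ → ℤ} {R : ℕ}

/-- the numbers of a family at a root of the level `R`, with the guard `v` -/
structure At (α : Type*) [DecidableEq α] (R n : ℕ) (v : ℤ) (N : Frame.Num) : Prop where
  fam : Fam α n v N
  v0 : 0 ≤ v
  vx : v ≤ N.x
  n1 : 1 ≤ n

/-- the defect item -/
theorem dt_at {p q r ep eq es : ℕ} {d : List ℤ} (hG : S.GG = 512) (h0 : x 0 = 2 ^ 28 * 2 ^ R)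
    (hT : ∀ i j, (dgt S.GT i j : ℤ) ≤ dg i j)
    (hp : dot (S.fe ep) x = 2 ^ 28 * (p : ℤ)) (hq : dot (S.fe eq) x = 2 ^ 28 * (q : ℤ))
    (hs : dot (S.fe es) x = 2 ^ 28 * (r : ℤ)) (hr : p + q = r) (hqp : q ≤ p)
    (hd : dot d x = 2 ^ 27 * QQ R p + 2 ^ 27 * QQ R q - 2 ^ 27 * QQ R r - 2 ^ 28 * (q : ℤ)) :
    (ItemL.dt ep eq es d).Sem S x := by
  subst hr
  refine dt_scaled (G := 9) (c := 28) (R := R) (p := p) (q := q) (δ := dg p q) (by rw [hG]; norm_num)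
    (by omega) h0 hT hp hq (by rw [hs]; push_cast; ring) ?_ le_rfl
  have h := dg_QQ hqp R
  rw [hd]
  linarith

theorem hx_pos {hx j : ℕ} (hhx : hx * (64 * 2 ^ j) = 512) : 0 < hx := by
  rcases Nat.eq_zero_or_pos hx with h | h
  · rw [h] at hhx
    simp at hhx
  · exact h

/-- an octave item, penalty form -/
theorem octt_at {T rc k0 j ex eg hx cg FL FU Fx FT cb ga gb : ℕ} {L U : List ℤ}
    (hs : smallOK T rc = true)
    (hT : LBnd α (fun N x v L => ∀ R k, N = R + k → k0 ≤ k → 0 ≤ v → 2 ^ R ≤ x → x ≤ 2 * 2 ^ R →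
      Rows 28 rc 6 T 129 R x v (gamL R x L)))
    (hG : S.GG = 512) (h0 : x 0 = 2 ^ 28 * 2 ^ R) (H : At α R n v N) (hj : j ≤ 28)
    (hX : dot (S.fe ex) x = 2 ^ 28 * N.x) (hg : 2 ^ 28 * v ≤ dot (S.fe eg) x)
    (hk : R + k0 ≤ n + j) (ha : ga * 2 ^ j = 512) (hb : gb = 2 * ga) (hhx : hx * (64 * 2 ^ j) = 512)
    (hcg : cg = 2 * hx)
    (hFL : (FL : ℤ) * dot L x = FT * (28 * (64 * 2 ^ j)) *
      (2 ^ (28 - j) * (2 ^ j * (MM R N + (1 - (j : ℤ)) * N.x) - 2 * 2 ^ R)))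
    (hFU : (FU : ℤ) * dot U x = FT * (rc * (64 * 2 ^ j)) * (2 ^ 28 * v))
    (hFx : Fx = FT * (64 * 2 ^ j)) (hcb : cb = 2 * rc) :
    (ItemL.gate ex ga gb (ItemL.tt ex eg hx cg L U FL FU Fx FT cb T 129)).Sem S x := by
  refine gate_row (κ := 2 ^ 28) (R := R) (X := N.x) (j := j) hX h0 (by norm_num)
    (by rw [hG]; norm_num) (by rw [hG]; exact ha) hb ?_
  intro h1 h2
  have e28 : (2 : ℤ) ^ 28 = 2 ^ (28 - j) * 2 ^ j := by
    rw [← pow_add, Nat.sub_add_cancel hj]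
  refine tt_row (g' := 64 * 2 ^ j) (c := 28) (rc := rc) (N := R) (R := R + j) (γ := 6)
    (X := 2 ^ j * N.x) (v := 2 ^ j * v) (κ := 2 ^ (28 - j))
    (l := 2 ^ j * (MM R N + (1 - (j : ℤ)) * N.x) - 2 * 2 ^ R) ?_ ?_ hcg ?_ ?_ hFx hcb ?_
    (by positivity) ?_ ?_ ?_ ?_
  · exact hx_pos hhx
  · rw [hG, hhx]
  · rw [hFL]
    push_cast
    ring
  · rw [hFU, e28]
    push_cast
    ring
  · rw [pow_add]
    ring
  · rw [h0, e28, pow_add]
    ring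
  · refine le_trans (le_of_eq ?_) hg
    rw [e28]
    ring
  · rw [hX, e28]
    push_cast
    ring
  · intro b _
    exact oct_rows hs hT H.fam H.v0 H.vx H.n1 hk h1 h2 b

/-- an octave item, plain form -/
theorem octl_at {T rc k0 j ex eg hx cg FL Fx FT ga gb : ℕ} {L : List ℤ}
    (hs : smallOK T rc = true)
    (hT : LBnd α (fun N x v L => ∀ R k, N = R + k → k0 ≤ k → 0 ≤ v → 2 ^ R ≤ x → x ≤ 2 * 2 ^ R →
      Rows 28 rc 6 T 129 R x v (gamL R x L)))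
    (hG : S.GG = 512) (h0 : x 0 = 2 ^ 28 * 2 ^ R) (H : At α R n v N) (hj : j ≤ 28)
    (hX : dot (S.fe ex) x = 2 ^ 28 * N.x) (hg : dot (S.fe eg) x ≤ 2 ^ 28 * v)
    (hk : R + k0 ≤ n + j) (ha : ga * 2 ^ j = 512) (hb : gb = 2 * ga) (hhx : hx * (64 * 2 ^ j) = 512)
    (hcg : cg = 2 * hx)
    (hFL : (FL : ℤ) * dot L x = FT * (28 * (64 * 2 ^ j)) *
      (2 ^ (28 - j) * (2 ^ j * (MM R N + (1 - (j : ℤ)) * N.x) - 2 * 2 ^ R)))
    (hFx : Fx = FT * (64 * 2 ^ j)) :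
    (ItemL.gate ex ga gb (ItemL.tl ex eg hx cg L FL Fx FT T 129)).Sem S x := by
  refine gate_row (κ := 2 ^ 28) (R := R) (X := N.x) (j := j) hX h0 (by norm_num)
    (by rw [hG]; norm_num) (by rw [hG]; exact ha) hb ?_
  intro h1 h2
  have e28 : (2 : ℤ) ^ 28 = 2 ^ (28 - j) * 2 ^ j := by
    rw [← pow_add, Nat.sub_add_cancel hj]
  refine tl_row (g' := 64 * 2 ^ j) (c := 28) (rc := rc) (N := R) (R := R + j) (γ := 6)
    (X := 2 ^ j * N.x) (v := 2 ^ j * v) (κ := 2 ^ (28 - j))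
    (l := 2 ^ j * (MM R N + (1 - (j : ℤ)) * N.x) - 2 * 2 ^ R) ?_ ?_ hcg ?_ hFx ?_
    (by positivity) ?_ ?_ ?_ ?_
  · exact hx_pos hhx
  · rw [hG, hhx]
  · rw [hFL]
    push_cast
    ring
  · rw [pow_add]
    ring
  · rw [h0, e28, pow_add]
    ring
  · refine hg.trans (le_of_eq ?_)
    rw [e28]
    ring
  · rw [hX, e28]
    push_cast
    ring
  · intro b _
    exact oct_rows hs hT H.fam H.v0 H.vx H.n1 hk h1 h2 b

/-! ### one-row tables, mesh `U / 512` -/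

/-- the table of `2 g`, upper bound -/
theorem gU_at {ex eg FL Fx FT X : ℕ} {L : List ℤ} (hG : S.GG = 512) (h0 : x 0 = 2 ^ 28 * 2 ^ R)
    (hX : dot (S.fe ex) x = 2 ^ 28 * (X : ℤ)) (hXR : X ≤ 2 * 2 ^ R)
    (hFL : (FL : ℤ) * dot L x = FT * 512 * (2 ^ 28 * QQ R X)) (hFx : Fx = FT * 512) :
    (ItemL.tl ex eg 1 2 L FL Fx FT TSgU9 1025).Sem S x := by
  refine tl_row (g' := 512) (c := 1) (rc := 1) (N := R) (R := R) (γ := 9) (X := X)
    (v := max 0 (dot (S.fe eg) x)) (κ := 2 ^ 28) (l := QQ R X) (by norm_num) (by rw [hG]) (by norm_num)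
    ?_ hFx (by norm_num) (by norm_num) h0 ?_ hX ?_
  · rw [hFL]
    push_cast
    ring
  · have h1 := le_max_left 0 (dot (S.fe eg) x)
    have h2 := le_max_right 0 (dot (S.fe eg) x)
    linarith
  · intro b _
    exact rows_of_row0 (rc := 1) TSgU9_lt (TSgU9_row hXR) b

/-- the table of `2 g`, lower bound -/
theorem gL_at {ex eg FL Fx FT X : ℕ} {L : List ℤ} (hG : S.GG = 512) (h0 : x 0 = 2 ^ 28 * 2 ^ R)
    (hX : dot (S.fe ex) x = 2 ^ 28 * (X : ℤ)) (hXR : X ≤ 2 * 2 ^ R)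
    (hFL : (FL : ℤ) * dot L x = FT * 512 * (2 ^ 28 * (5 * 2 ^ R - 3 * QQ R X)))
    (hFx : Fx = FT * 512) :
    (ItemL.tl ex eg 1 2 L FL Fx FT TSgL9 1025).Sem S x := by
  refine tl_row (g' := 512) (c := 1) (rc := 1) (N := R) (R := R) (γ := 9) (X := X)
    (v := max 0 (dot (S.fe eg) x)) (κ := 2 ^ 28) (l := 5 * 2 ^ R - 3 * QQ R X) (by norm_num)
    (by rw [hG]) (by norm_num)
    ?_ hFx (by norm_num) (by norm_num) h0 ?_ hX ?_
  · rw [hFL]
    push_cast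
    ring
  · have h1 := le_max_left 0 (dot (S.fe eg) x)
    have h2 := le_max_right 0 (dot (S.fe eg) x)
    linarith
  · intro b _
    exact rows_of_row0 (rc := 1) TSgL9_lt (TSgL9_row hXR) b

/-- the table of `x log x` -/
theorem sU_at {ex eg FL Fx FT X : ℕ} {L : List ℤ} (hG : S.GG = 512) (h0 : x 0 = 2 ^ 28 * 2 ^ R)
    (hX : dot (S.fe ex) x = 2 ^ 28 * (X : ℤ)) (hXR : X ≤ 2 * 2 ^ R)
    (hFL : (FL : ℤ) * dot L x = FT * 512 * (16 * (7 * YY R X)))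
    (hFx : Fx = FT * 512) :
    (ItemL.tl ex eg 1 2 L FL Fx FT TSsU9 1025).Sem S x := by
  refine tl_row (g' := 512) (c := 1) (rc := 1) (N := R + 24) (R := R + 24) (γ := 9) (X := 2 ^ 24 * X)
    (v := max 0 (dot (S.fe eg) x)) (κ := 16) (l := 7 * YY R X) (by norm_num)
    (by rw [hG]) (by norm_num)
    ?_ hFx (by norm_num) (by norm_num) ?_ ?_ ?_ ?_
  · rw [hFL]
    push_cast
    ring
  · rw [h0, pow_add]
    ring
  · have h1 := le_max_left 0 (dot (S.fe eg) x)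
    have h2 := le_max_right 0 (dot (S.fe eg) x)
    linarith
  · rw [hX]
    push_cast
    ring
  · intro b _
    have e : (7 : ℤ) * YY R X = (7 : ℕ) * (2 ^ 24 * ((R + 1) * X) - lam (2 ^ 24) X) := by
      unfold YY Sc
      push_cast
      norm_num
    rw [e]
    exact rows_of_row0 (rc := 1) TSsU9_lt (TSsU9_row 24 hXR) b

/-! ### distances -/

theorem pow27 {j : ℕ} (hj : j ≤ 27) : (2 : ℝ) ^ (27 - j) * (2 * 2 ^ j) = 2 ^ 28 := by
  have h : (2 : ℝ) ^ (27 - j) * 2 ^ j = 2 ^ 27 := by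
    rw [← pow_add, Nat.sub_add_cancel hj]
  calc (2 : ℝ) ^ (27 - j) * (2 * 2 ^ j) = 2 * (2 ^ (27 - j) * 2 ^ j) := by ring
    _ = 2 ^ 28 := by rw [h]; norm_num

/-- the item for the statement with the constant 2 -/
theorem tsc_at {ex et T TA St Dt Ht j t : ℕ} {L : List ℤ}
    (hG : S.GG = 512) (h0 : x 0 = 2 ^ 28 * 2 ^ R) (H : At α R n v N)
    (Tc : ∀ (s : Finset α) (X : Finset (Finset α)), s.card = n → Sub s X → TC 2 s X)
    (hX : dot (S.fe ex) x = 2 ^ 28 * N.x) (ht : dot (S.fe et) x = 2 ^ 28 * (t : ℤ))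
    (hxR : N.x ≤ 2 * 2 ^ R) (hj : j ≤ 27)
    (hHS : Ht * St = 80) (hDS : Dt * 2 ^ j = 4 * St)
    (hL : dot L x = 2 ^ 28 * MM R N - 2 ^ 28 * QQ R N.x + 2 ^ 28 * N.x - 2 ^ (27 - j) * N.d j t)
    (hT : Nat.log2 T < 24 * 33)
    (hTT : allB (2 * 16 + 1) (fun i => Nat.ble (tab T 33 0 i) (80 * i)) = true)
    (hTA : tab TA 2 0 0 = 1) (hTA' : tab TA 2 0 1 = 4) :
    (ItemL.ts ex 32 L 20480 256 16 T 33 8 64 [(et, St, Dt, Ht)] TA 2).Sem S x := by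
  refine ts_tc (C := 80) (g' := 16) (R := R) (j := j) (t := t) (κ := 2 ^ 28) H.fam Tc (by norm_num)
    (by rw [hG]) (by norm_num) (by rw [hHS]) hDS (by norm_num) h0 hX ht.le hxR ?_ hT hTT hTA hTA'
  rw [hL]
  have hj2 : (2 : ℝ) ^ j ≠ 0 := by positivity
  have h27 := pow27 hj
  have hM : (MM R N : ℝ) = N.L + QQ R N.x := by
    unfold MM
    push_cast
    ring
  push_cast
  rw [hM]
  have e : (2 : ℝ) ^ 28 * ((N.d j t : ℝ) / (2 * 2 ^ j)) = 2 ^ (27 - j) * N.d j t := by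
    rw [← h27]
    field_simp
  linear_combination 20480 * e

/-- the facet item -/
theorem tsf_at {ex et eg T TA WA St Dt Ht mt m j t s FL Fx FT c0 e ah kl lev j0 : ℕ} {L : List ℤ}
    {shapes : List Shp}
    (hG : S.GG = 512) (h0 : x 0 = 2 ^ 28 * 2 ^ R) (H : At α R n v N)
    (Tc : ∀ (s : Finset α) (X : Finset (Finset α)), s.card = n → Sub s X → TC 2 s X)
    (hX : dot (S.fe ex) x = 2 ^ 28 * N.x) (ht : dot (S.fe et) x = 2 ^ 28 * (t : ℤ))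
    (hg : dot (S.fe eg) x = 2 ^ 28 * v)
    (hxR : 2 ^ j0 * N.x ≤ 2 * 2 ^ R) (hj : j ≤ 27)
    (hlev : R + lev ≤ n) (hlevk : lev ≤ kl)
    (hDS : Dt * 2 ^ j = 8 * St) (he : c0 ≤ e) (hs : s * FL = 128 * c0)
    (hFT : 10 * FT = c0) (hFx : Fx = FT * 16) (hc0 : 0 < c0)
    (hL : 2 * c0 * dot L x = s * (2 * e * (2 ^ 28 * MM R N - 16 * YY R N.x) +
      2 * c0 * (2 ^ 28 * N.x) +
      ah * (2 ^ 28 * N.x - 2 ^ 28 * v) - 2 * c0 * (2 ^ (27 - j) * N.d j t)))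
    (hrow : ∀ s ∈ shapes, s.HoldAll n v N)
    (hT : Nat.log2 T < 24 * (shapes.length * 33))
    (htab : allShpU kl c0 e ah (4 * (Ht * St)) mt m 16 80 lev j0 T 33 TA WA shapes = true) :
    (ItemL.ts ex 32 L FL Fx FT T 33 8 64
      (List.replicate mt (et, St, Dt, Ht) ++ List.replicate m (eg, 1, 16, 1)) TA WA).Sem S x := by
  obtain ⟨δ, hδ⟩ : ∃ δ, n = R + δ := ⟨n - R, by omega⟩
  have hcr : (0 : ℝ) < c0 := by exact_mod_cast hc0
  have key : (dot L x : ℝ) = s * (2 ^ 28 * ellF c0 e ah N v j t) := by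
    have h1 : ((2 * c0 * dot L x : ℤ) : ℝ) = ((s * (2 * e * (2 ^ 28 * MM R N - 16 * YY R N.x) +
      2 * c0 * (2 ^ 28 * N.x) + ah * (2 ^ 28 * N.x - 2 ^ 28 * v) -
      2 * c0 * (2 ^ (27 - j) * N.d j t)) : ℤ) :
        ℝ) := by exact_mod_cast hL
    push_cast at h1
    have h27 := pow27 hj
    have hj2 : (2 : ℝ) ^ j ≠ 0 := by positivity
    have e1 : (2 : ℝ) ^ 28 * ((N.d j t : ℝ) / (2 * 2 ^ j)) = 2 ^ (27 - j) * N.d j t := by
      rw [← h27]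
      field_simp
    have e2 : (N.E : ℝ) / Sc = MM R N - YY R N.x / Sc := by
      have hS : (Sc : ℝ) ≠ 0 := by
        have := Sc_pos
        exact_mod_cast this.ne'
      rw [H.fam.E_MY R]
      push_cast
      field_simp
    have e3 : (2 : ℝ) ^ 28 * (YY R N.x / Sc) = 16 * YY R N.x := by
      unfold Sc
      push_cast
      ring
    unfold ellF
    rw [e2]
    have e4 : (2 : ℝ) ^ 28 * ((e : ℝ) / c0 * (MM R N - YY R N.x / Sc) + N.x +
        ah * (N.x - v) / (2 * c0) - N.d j t / (2 * 2 ^ j)) =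
        (e : ℝ) / c0 * (2 ^ 28 * MM R N - 2 ^ 28 * (YY R N.x / Sc)) + 2 ^ 28 * N.x +
        ah * (2 ^ 28 * N.x - 2 ^ 28 * v) / (2 * c0) - 2 ^ 28 * (N.d j t / (2 * 2 ^ j)) := by
      ring
    rw [e4, e1, e3]
    generalize (2 : ℝ) ^ (27 - j) * N.d j t = dd at *
    have h5 : (2 * (c0 : ℝ)) * dot L x = (2 * c0) * (s * ((e : ℝ) / c0 * (2 ^ 28 * MM R N -
        16 * YY R N.x) + 2 ^ 28 * N.x + ah * (2 ^ 28 * N.x - 2 ^ 28 * v) / (2 * c0) - dd)) := by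
      rw [h1]
      field_simp
      ring
    exact mul_left_cancel₀ (by positivity) h5
  refine ts_facets (C := 80) (g' := 16) (c0 := c0) (e := e) (ah := ah) (mt := mt) (m := m) (R := R)
    (j := j) (t := t) (κ := 2 ^ 28) (δ := δ) (j0 := j0) (shapes := shapes) H.fam H.vx hδ (by norm_num)
    (by rw [hG]) (allShpU_dvd htab) (by norm_num) hFx (by rw [← hFT]; ring) hDS hc0
    (by norm_num) h0 hX ht.le hg.le hxR hrow ?_ ?_ hT ?_
  · have h1 := ellF_nonneg (c0 := c0) (e := e) (ah := ah) hc0 he H.vx H.fam Tc j t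
    have h2 : (0 : ℝ) ≤ dot L x := by
      rw [key]
      positivity
    exact_mod_cast h2
  · rw [key]
    have hsr : (s : ℝ) * FL = 128 * c0 := by exact_mod_cast hs
    have hFr : (10 : ℝ) * FT = c0 := by exact_mod_cast hFT
    have e5 : (FL : ℝ) * (s * (2 ^ 28 * ellF c0 e ah N v j t)) =
        (s * FL) * (2 ^ 28 * ellF c0 e ah N v j t) := by ring
    rw [e5, hsr, ← hFr]
    push_cast
    ring
  · exact allShpU_spec htab hlevk (by omega)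

/-- an item which is used for small sizes only -/
theorem gate_top {e b j0 X : ℕ} {it : ItemL} (hG : S.GG = 512) (h0 : x 0 = 2 ^ 28 * 2 ^ R)
    (hX : dot (S.fe e) x = 2 ^ 28 * (X : ℤ)) (hb : b * 2 ^ j0 = 1024)
    (h : 2 ^ j0 * X ≤ 2 * 2 ^ R → it.Sem S x) : (ItemL.gate e 0 b it).Sem S x := by
  intro _ h2
  apply h
  rw [hG, hX, h0] at h2
  have hbz : (b : ℤ) * 2 ^ j0 = 1024 := by exact_mod_cast hb
  have hj : (0 : ℤ) < 2 ^ j0 := by positivity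
  have h3 := mul_le_mul_of_nonneg_right h2 hj.le
  have e1 : (b : ℤ) * (2 ^ 28 * 2 ^ R) * 2 ^ j0 = 1024 * (2 ^ 28 * 2 ^ R) := by
    rw [← hbz]; ring
  rw [e1] at h3
  push_cast at h3
  have h4 : (2 ^ j0 * X : ℤ) ≤ 2 * 2 ^ R := by linarith
  exact_mod_cast h4

end Pool.Agent.EdgeIso.Chk
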