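import Pool.Agent.Lib.MP_48c8f3_co.Bas
import Pool.Agent.Lib.MP_48c8f3_co.KNe
import Pool.Agent.Lib.MP_48c8f3_co.SNb
import Pool.Agent.Lib.MP_48c8f3_co.KGc

set_option autoImplicit false
set_option linter.unusedSectionVars false

/-!
MP_48c8f3_co: the numbers of the core of a roomy level.
-/

namespace Pool.Agent.EdgeIso.Frame

open Finset

variable {α : Type*} [DecidableEq α] {n R : ℕ} {F : Num}

/-- integer forms of the conditions on the sizes -/
structure KZ (C : CoreK α n R F) : Prop where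
  ex : (F.x : ℤ) = C.K.x + C.W.x
  eK : (C.K.x : ℤ) = C.P.x + C.A.x
  eP : (C.P.x : ℤ) = C.P2.x + C.A2.x
  eW : (C.W.x : ℤ) = C.W1.x + C.W2.x
  U1 : (1 : ℤ) ≤ 2 ^ R
  lo : (2 : ℤ) ^ R ≤ F.x
  hi : (F.x : ℤ) ≤ 2 * 2 ^ R
  le1 : (C.W.x : ℤ) ≤ C.K.x
  le2 : (C.A.x : ℤ) ≤ C.P.x
  le3 : (C.A2.x : ℤ) ≤ C.P2.x
  le4 : (C.W2.x : ℤ) ≤ C.W1.x
  f1 : (C.f : ℤ) ≤ C.W.x
  f2 : (C.fK : ℤ) ≤ C.A.x
  f3 : (C.fP : ℤ) ≤ C.A2.x
  f4 : (C.fW : ℤ) ≤ C.W2.x
  h1 : (C.W.x : ℤ) ≤ 2 * C.A.x + C.f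
  h2 : (C.A.x : ℤ) ≤ 2 * C.A2.x + C.fK
  h3 : 2 * (C.W.x : ℤ) ≤ C.K.x + 2 * C.W2.x + C.f
  w12 : (C.W2.x : ℤ) ≤ C.w2
  w2q : 2 * (C.w2 : ℤ) ≤ C.W.x
  q0 : (0 : ℤ) ≤ C.W.x
  p0 : (0 : ℤ) ≤ C.K.x
  P0 : (0 : ℤ) ≤ C.P.x
  a0 : (0 : ℤ) ≤ C.A.x
  P20 : (0 : ℤ) ≤ C.P2.x
  a20 : (0 : ℤ) ≤ C.A2.x
  W10 : (0 : ℤ) ≤ C.W1.x
  b0 : (0 : ℤ) ≤ C.W2.x
  f0 : (0 : ℤ) ≤ C.f
  fK0 : (0 : ℤ) ≤ C.fK
  fP0 : (0 : ℤ) ≤ C.fP
  fW0 : (0 : ℤ) ≤ C.fW
  w20 : (0 : ℤ) ≤ C.w2

theorem CoreK.zz (C : CoreK α n R F) : KZ C := by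
  have hU : (0 : ℤ) < 2 ^ R := by positivity
  have e1 := C.mF.sz
  have e2 := C.mK.sz
  have e3 := C.mP.sz
  have e4 := C.mW.sz
  have l1 := C.mF.le
  have l2 := C.mK.le
  have l3 := C.mP.le
  have l4 := C.mW.le
  have f1 := C.mF.fle
  have f2 := C.mK.fle
  have f3 := C.mP.fle
  have f4 := C.mW.fle
  have lo := C.lo
  have hi := C.hi
  have w12 := C.w12
  have w2q := C.w2q
  exact {
    ex := by rw [← e1]; push_cast; rfl
    eK := by rw [← e2]; push_cast; rfl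
    eP := by rw [← e3]; push_cast; rfl
    eW := by rw [← e4]; push_cast; rfl
    U1 := by linarith only [hU]
    lo := by exact_mod_cast lo
    hi := by exact_mod_cast hi
    le1 := by exact_mod_cast l1
    le2 := by exact_mod_cast l2
    le3 := by exact_mod_cast l3
    le4 := by exact_mod_cast l4
    f1 := by exact_mod_cast f1
    f2 := by exact_mod_cast f2
    f3 := by exact_mod_cast f3
    f4 := by exact_mod_cast f4
    h1 := C.h1
    h2 := C.h2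
    h3 := C.h3
    w12 := by exact_mod_cast w12
    w2q := by exact_mod_cast w2q
    q0 := by positivity
    p0 := by positivity
    P0 := by positivity
    a0 := by positivity
    P20 := by positivity
    a20 := by positivity
    W10 := by positivity
    b0 := by positivity
    f0 := by positivity
    fK0 := by positivity
    fP0 := by positivity
    fW0 := by positivity
    w20 := by positivity }

end Pool.Agent.EdgeIso.Frame

namespace Pool.Agent.EdgeIso.Chk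

open Finset Pool.Agent.EdgeIso.Frame Pool.Agent.EdgeIso.Cell Pool.Agent.EdgeIso.Walsh
  Pool.Agent.EdgeIso.Smooth

variable {α : Type*} [DecidableEq α] {n R : ℕ} {F : Frame.Num}

/-! ### the families at the root -/

theorem atK (C : CoreK α n R F) : At α R (n + 2) (2 * (C.A.x : ℤ)) C.K where
  fam := C.kK'
  v0 := by have z := C.zz; linarith only [z.a0]
  vx := by have z := C.zz; linarith only [z.le2, z.eK]
  n1 := by omega

theorem atW (C : CoreK α n R F) : At α R (n + 2) (2 * (C.W2.x : ℤ)) C.W where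
  fam := C.kW'
  v0 := by have z := C.zz; linarith only [z.b0]
  vx := by have z := C.zz; linarith only [z.le4, z.eW]
  n1 := by omega

theorem atP (C : CoreK α n R F) : At α R (n + 1) (2 * (C.A2.x : ℤ)) C.P where
  fam := C.kP'
  v0 := by have z := C.zz; linarith only [z.a20]
  vx := by have z := C.zz; linarith only [z.le3, z.eP]
  n1 := by omega

theorem atA (C : CoreK α n R F) :
    At α R (n + 1) (max 0 (2 * (C.A.x : ℤ) - C.P.x - C.fK)) C.A where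
  fam := C.kA.max0
  v0 := le_max_left _ _
  vx := by have z := C.zz; exact max_le z.a0 (by linarith only [z.le2, z.fK0])
  n1 := by omega

theorem atP2 (C : CoreK α n R F) (hn : 1 ≤ n) : At α R n ((C.A2.x : ℤ) - C.fP) C.P2 where
  fam := C.kP2
  v0 := by have z := C.zz; linarith only [z.f3]
  vx := by have z := C.zz; linarith only [z.le3, z.fP0]
  n1 := hn

theorem atA2 (C : CoreK α n R F) (hn : 1 ≤ n) :
    At α R n (max 0 (2 * (C.A2.x : ℤ) - C.P2.x - C.fP)) C.A2 where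
  fam := C.kA2.max0
  v0 := le_max_left _ _
  vx := by have z := C.zz; exact max_le z.a20 (by linarith only [z.le3, z.fP0])
  n1 := hn

theorem atW1 (C : CoreK α n R F) : At α R (n + 1) ((C.w2 : ℤ) - C.fW) C.W1 where
  fam := C.kW1b
  v0 := by have z := C.zz; linarith only [z.f4, z.w12]
  vx := by have z := C.zz; linarith only [z.w2q, z.eW, z.le4, z.fW0]
  n1 := by omega

theorem atW1' (C : CoreK α n R F) : At α R (n + 1) (2 * ((C.w2 : ℤ) - C.W2.x)) C.W1 where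
  fam := C.kW1c
  v0 := by have z := C.zz; linarith only [z.w12]
  vx := by have z := C.zz; linarith only [z.w2q, z.eW, z.le4, z.b0]
  n1 := by omega

theorem atW2 (C : CoreK α n R F) :
    At α R (n + 1) (max 0 ((C.w2 : ℤ) + C.W2.x - C.W1.x - C.fW)) C.W2 where
  fam := C.kW2b.max0
  v0 := le_max_left _ _
  vx := by have z := C.zz; exact max_le z.b0 (by linarith only [z.w2q, z.eW, z.le4, z.fW0])
  n1 := by omega

/-! ### evaluation at a point -/

section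

variable {S : SysL} {w : ℤ} {vs : List ℤ}

theorem fe_q {m : ℕ} {l : List (ℕ × ℤ)} (v : ℤ)
    (hl : l.all (fun a => decide (a.1 < m)) = true) (h : sdS l (ptV vs) = v) :
    dot (sp m l) (ptV vs) = v := by
  rw [dot_ptV]
  exact dotV_of_sd m l vs v hl h

theorem lin_q {m : ℕ} {l : List (ℕ × ℤ)} (v : ℤ)
    (hl : l.all (fun a => decide (a.1 < m)) = true) (h : sdS l (ptV vs) = v) (h0 : 0 ≤ v) :
    0 ≤ dot (sp m l) (ptV vs) := by
  rw [fe_q v hl h]
  exact h0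

theorem rule_hi_q {t d cp cn : ℕ} {pos neg : List (ℕ × ℕ)}
    (h : (d : ℤ) * (S.GG * dot (S.fe t) (ptV (w :: vs))) ≤
      max 0 (fsum S (ptV (w :: vs)) pos + cp * w - (fsum S (ptV (w :: vs)) neg + cn * w))) :
    RuleL.Sem S (ptV (w :: vs)) ⟨true, t, d, pos, cp, neg, cn⟩ := h

theorem rule_lo_q {t d cp cn : ℕ} {pos neg : List (ℕ × ℕ)}
    (h : fsum S (ptV (w :: vs)) pos + cp * w - (fsum S (ptV (w :: vs)) neg + cn * w) ≤
      (d : ℤ) * (S.GG * dot (S.fe t) (ptV (w :: vs)))) :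
    RuleL.Sem S (ptV (w :: vs)) ⟨false, t, d, pos, cp, neg, cn⟩ := h

theorem ptV_nonneg (h : ∀ v ∈ vs, (0 : ℤ) ≤ v) (i : ℕ) : 0 ≤ ptV vs i := by
  unfold ptV
  rcases Nat.lt_or_ge i vs.length with hi | hi
  · rw [List.getD_eq_getElem _ _ hi]
    exact h _ (List.getElem_mem hi)
  · rw [List.getD_eq_default _ _ hi]

end

theorem MM_eq (R : ℕ) (N : Frame.Num) : MM R N = N.L + QQ R N.x := rfl

theorem YY_le' (R x : ℕ) : YY R x ≤ 2 ^ 24 * QQ R x := by
  have h := YY_le R x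
  unfold Sc at h
  push_cast at h
  linarith

/-- upper bound of the deficiency -/
theorem QQ_le {R x : ℕ} (hx : x ≤ 2 * 2 ^ R) : 3 * QQ R x ≤ 5 * 2 ^ R := by
  have hR : 0 < 2 ^ R := by positivity
  have h := TSgL9_row hx (2 ^ 9 * x / 2 ^ R) (Nat.mul_div_le _ _) (by
    have := Nat.lt_mul_div_succ (2 ^ 9 * x) hR
    exact this.le)
  have h1 : (2 : ℤ) ^ R * ((2 ^ 9 * x / 2 ^ R : ℕ) : ℤ) ≤ 2 ^ 9 * (x : ℤ) := by
    exact_mod_cast Nat.mul_div_le (2 ^ 9 * x) (2 ^ R)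
  have h2 : (2 : ℤ) ^ 9 * (x : ℤ) ≤ 2 ^ R * (((2 ^ 9 * x / 2 ^ R : ℕ) : ℤ) + 1) := by
    have := (Nat.lt_mul_div_succ (2 ^ 9 * x) hR).le
    exact_mod_cast this
  have h3 := mul_nonneg (sub_nonneg.mpr h2) (Int.natCast_nonneg (tab TSgL9 1025 0 (2 ^ 9 * x / 2 ^ R)))
  have h4 := mul_nonneg (sub_nonneg.mpr h1)
    (Int.natCast_nonneg (tab TSgL9 1025 0 (2 ^ 9 * x / 2 ^ R + 1)))
  have h5 : (5 : ℤ) * 2 ^ R - 3 * QQ R x = (5 : ℕ) * 2 ^ R - 3 * ((R + 1) * x - 2 * g x) := by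
    unfold QQ
    push_cast
    rfl
  have h6 : (0 : ℤ) ≤ ((1 : ℕ) : ℤ) * (2 ^ 9 * ((5 : ℕ) * 2 ^ R - 3 * (((R : ℤ) + 1) * x - 2 * g x))) :=
    (add_nonneg h3 h4).trans h
  rw [← h5] at h6
  push_cast at h6
  linarith

/-- upper bounds of the numbers -/
structure KU (C : CoreK α n R F) : Prop where
  F : 3 * MM R F ≤ 11 * 2 ^ R
  K : 3 * MM R C.K ≤ 17 * 2 ^ R
  W : 3 * MM R C.W ≤ 17 * 2 ^ R
  P : 3 * MM R C.P ≤ 23 * 2 ^ R
  A : 3 * MM R C.A ≤ 23 * 2 ^ R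
  P2 : 3 * MM R C.P2 ≤ 29 * 2 ^ R
  A2 : 3 * MM R C.A2 ≤ 29 * 2 ^ R
  W1 : 3 * MM R C.W1 ≤ 20 * 2 ^ R
  W2 : 3 * MM R C.W2 ≤ 20 * 2 ^ R

theorem ku (C : CoreK α n R F) : KU C := by
  have z := C.zz
  have xs : ∀ {m : ℕ}, (m : ℤ) ≤ F.x → m ≤ 2 * 2 ^ R := by
    intro m h
    have : (m : ℤ) ≤ 2 * 2 ^ R := h.trans z.hi
    exact_mod_cast this
  have a1 := C.fF.triv 0 F.x
  have a2 := C.neg
  have a3 : 3 * QQ R F.x ≤ 5 * 2 ^ R := QQ_le C.hi
  have a4 := MM_eq R F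
  have mK := C.kK'.MM_nonneg (R := R) (xs (by linarith only [z.ex, z.q0]))
  have mW := C.kW'.MM_nonneg (R := R) (xs (by linarith only [z.ex, z.p0]))
  have mP := C.kP'.MM_nonneg (R := R) (xs (by linarith only [z.ex, z.eK, z.q0, z.a0]))
  have mA := C.kA.MM_nonneg (R := R) (xs (by linarith only [z.ex, z.eK, z.q0, z.P0]))
  have mP2 := C.kP2.MM_nonneg (R := R) (xs (by linarith only [z.ex, z.eK, z.eP, z.q0, z.a0, z.a20]))
  have mA2 := C.kA2.MM_nonneg (R := R) (xs (by linarith only [z.ex, z.eK, z.eP, z.q0, z.a0, z.P20]))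
  have mW1 := C.kW1b.MM_nonneg (R := R) (xs (by linarith only [z.ex, z.eW, z.p0, z.b0]))
  have mW2 := C.kW2b.MM_nonneg (R := R) (xs (by linarith only [z.ex, z.eW, z.p0, z.W10]))
  have s1 := C.mF.M_le R
  have s2 := C.mK.M_le R
  have s3 := C.mP.M_le R
  have s4 := C.mW.M_le R
  have uF : 3 * MM R F ≤ 11 * 2 ^ R := by
    have : F.L ≤ F.x := by
      norm_num at a1
      linarith only [a1, a2]
    linarith only [a3, a4, this, z.hi]
  have uK : 3 * MM R C.K ≤ 17 * 2 ^ R := by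
    linarith only [uF, s1, mW, z.f0, z.le1, z.ex, z.hi]
  have uW : 3 * MM R C.W ≤ 17 * 2 ^ R := by
    linarith only [uF, s1, mK, z.f0, z.le1, z.ex, z.hi]
  have uP : 3 * MM R C.P ≤ 23 * 2 ^ R := by
    linarith only [uK, s2, mA, z.fK0, z.le2, z.eK, z.ex, z.q0, z.hi]
  have uA : 3 * MM R C.A ≤ 23 * 2 ^ R := by
    linarith only [uK, s2, mP, z.fK0, z.le2, z.eK, z.ex, z.q0, z.hi]
  exact {
    F := uF, K := uK, W := uW, P := uP, A := uA
    P2 := by linarith only [uP, s3, mA2, z.fP0, z.le3, z.eP, z.eK, z.ex, z.q0, z.a0, z.hi]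
    A2 := by linarith only [uP, s3, mP2, z.fP0, z.le3, z.eP, z.eK, z.ex, z.q0, z.a0, z.hi]
    W1 := by linarith only [uW, s4, mW2, z.fW0, z.le4, z.eW, z.le1, z.ex, z.hi]
    W2 := by linarith only [uW, s4, mW1, z.fW0, z.le4, z.eW, z.le1, z.ex, z.hi] }

theorem zA_le (C : CoreK α n R F) : max 0 (2 * (C.A.x : ℤ) - C.P.x - C.fK) ≤ C.A.x := (atA C).vx

theorem zA2_le (C : CoreK α n R F) : max 0 (2 * (C.A2.x : ℤ) - C.P2.x - C.fP) ≤ C.A2.x := by
  have z := C.zz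
  exact max_le z.a20 (by linarith only [z.le3, z.fP0])

theorem zW2_le (C : CoreK α n R F) :
    max 0 ((C.w2 : ℤ) + C.W2.x - C.W1.x - C.fW) ≤ C.W2.x := (atW2 C).vx

/-! ### the statement with the constant 2 where the sign is known -/

theorem tc_small {m : ℕ} {v : ℤ} {N : Frame.Num} (H : Fam α m v N)
    (Tc : ∀ (s : Finset α) (X : Finset (Finset α)), s.card = m → Sub s X → TC 2 s X) (j t : ℕ)
    (h : (2 : ℤ) ^ j * N.x ≤ t) : (N.d j t : ℤ) ≤ 2 ^ j * (2 * N.L) := by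
  have h1 := H.tc Tc j t
  rw [max_eq_left (by linarith)] at h1
  linarith

theorem tc_large {m : ℕ} {v : ℤ} {N : Frame.Num} (H : Fam α m v N)
    (Tc : ∀ (s : Finset α) (X : Finset (Finset α)), s.card = m → Sub s X → TC 2 s X) (j t : ℕ)
    (h : (t : ℤ) ≤ 2 ^ j * N.x) :
    (N.d j t : ℤ) ≤ 2 ^ j * (2 * N.L) + 2 * (2 ^ j * (N.x : ℤ) - t) := by
  have h1 := H.tc Tc j t
  rw [max_eq_right (by linarith)] at h1
  exact h1

section

variable (C : CoreK α n R F)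

theorem nDKx : (C.K.d 0 F.x : ℤ) ≤ 2 * C.K.L := by
  have z := C.zz
  have h := tc_small C.kK' (fun s X h1 h2 => C.ih s X (by omega) h2) 0 F.x (by
    norm_num1
    linarith only [z.ex, z.q0])
  norm_num1 at h
  linarith only [h]

theorem nDKh : (C.K.d 1 F.x : ℤ) ≤ 4 * C.K.L + 2 * (2 * (C.K.x : ℤ) - F.x) := by
  have z := C.zz
  have h := tc_large C.kK' (fun s X h1 h2 => C.ih s X (by omega) h2) 1 F.x (by
    norm_num1
    linarith only [z.ex, z.le1])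
  norm_num1 at h
  linarith only [h]

theorem nDWh : (C.W.d 1 F.x : ℤ) ≤ 4 * C.W.L := by
  have z := C.zz
  have h := tc_small C.kW' (fun s X h1 h2 => C.ih s X (by omega) h2) 1 F.x (by
    norm_num1
    linarith only [z.ex, z.le1])
  norm_num1 at h
  linarith only [h]

theorem nDPx : (C.P.d 0 F.x : ℤ) ≤ 2 * C.P.L := by
  have z := C.zz
  have h := tc_small C.kP' (fun s X h1 h2 => C.ih s X (by omega) h2) 0 F.x (by
    norm_num1
    linarith only [z.ex, z.q0, z.eK, z.a0])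
  norm_num1 at h
  linarith only [h]

theorem nDPq : (C.P.d 2 F.x : ℤ) ≤ 8 * C.P.L + 2 * (4 * (C.P.x : ℤ) - F.x) := by
  have z := C.zz
  have h := tc_large C.kP' (fun s X h1 h2 => C.ih s X (by omega) h2) 2 F.x (by
    norm_num1
    linarith only [z.ex, z.le1, z.eK, z.le2])
  norm_num1 at h
  linarith only [h]

theorem nDAh : (C.A.d 1 F.x : ℤ) ≤ 4 * C.A.L := by
  have z := C.zz
  have h := tc_small C.kA (fun s X h1 h2 => C.ih s X (by omega) h2) 1 F.x (by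
    norm_num1
    linarith only [z.ex, z.q0, z.eK, z.le2])
  norm_num1 at h
  linarith only [h]

theorem nDP2x : (C.P2.d 0 F.x : ℤ) ≤ 2 * C.P2.L := by
  have z := C.zz
  have h := tc_small C.kP2 (fun s X h1 h2 => C.ih s X (by omega) h2) 0 F.x (by
    norm_num1
    linarith only [z.ex, z.q0, z.eK, z.a0, z.eP, z.a20])
  norm_num1 at h
  linarith only [h]

theorem nDA2h : (C.A2.d 1 F.x : ℤ) ≤ 4 * C.A2.L := by
  have z := C.zz
  have h := tc_small C.kA2 (fun s X h1 h2 => C.ih s X (by omega) h2) 1 F.x (by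
    norm_num1
    linarith only [z.ex, z.q0, z.eK, z.a0, z.eP, z.le3])
  norm_num1 at h
  linarith only [h]

theorem nDW1h : (C.W1.d 1 F.x : ℤ) ≤ 4 * C.W1.L := by
  have z := C.zz
  have h := tc_small C.kW1b (fun s X h1 h2 => C.ih s X (by omega) h2) 1 F.x (by
    norm_num1
    linarith only [z.ex, z.le1, z.eW, z.b0])
  norm_num1 at h
  linarith only [h]

theorem nDW2q : (C.W2.d 2 F.x : ℤ) ≤ 8 * C.W2.L := by
  have z := C.zz
  have h := tc_small C.kW2b (fun s X h1 h2 => C.ih s X (by omega) h2) 2 F.x (by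
    norm_num1
    linarith only [z.ex, z.le1, z.eW, z.le4])
  norm_num1 at h
  linarith only [h]

end

end Pool.Agent.EdgeIso.Chk
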