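import Pool.Agent.Lib.MP_48c8f3_co.Bas
import Pool.Agent.Lib.MP_48c8f3_co.KNf

set_option autoImplicit false
set_option linter.unusedSectionVars false

/-!
MP_48c8f3_co: items for the root in the exact level three: rows of tables of exact levels, averages,
caps, and copies larger than the cube of a half.
-/

namespace Pool.Agent.EdgeIso.Chk.CoreK3

open Finset Pool.Agent.EdgeIso.Frame Pool.Agent.EdgeIso.Cell Pool.Agent.EdgeIso.Walsh
  Pool.Agent.EdgeIso.Smooth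

variable {α : Type*} [DecidableEq α] {n : ℕ} {v : ℤ} {N : Frame.Num}

/-- rows of an octave table of a set of levels for a family, in the unit `2 ^ R` of the root -/
theorem oct_rowsP {T rc : ℕ} {P : ℕ → Prop} (hs : smallOK T rc = true)
    (hT : LBnd α (fun N x v L => ∀ R k, N = R + k → P k → 0 ≤ v → 2 ^ R ≤ x → x ≤ 2 * 2 ^ R →
      Rows 28 rc 6 T 129 R x v (gamL R x L)))
    {R j : ℕ} (h : Fam α n v N) (hv0 : 0 ≤ v) (hvx : v ≤ N.x)
    (hn : 1 ≤ n) (hk : ∃ k, n + j = R + k ∧ P k) (h1 : 2 ^ R ≤ 2 ^ j * N.x)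
    (h2 : 2 ^ j * N.x ≤ 2 * 2 ^ R) :
    Rows 28 rc 6 T 129 R (2 ^ j * N.x) (2 ^ j * v)
      (2 ^ j * (MM R N + (1 - (j : ℤ)) * N.x) - 2 * 2 ^ R) := by
  rcases Nat.lt_or_ge R j with hj | hj
  · -- one member
    have hx0 : 0 < N.x := by
      rcases Nat.eq_zero_or_pos N.x with h3 | h3
      · rw [h3, Nat.mul_zero] at h1
        exact absurd h1 (by have : 0 < 2 ^ R := by positivity
                            omega)
      · exact h3
    have hx2 : 2 ^ (R + 1) * N.x ≤ 2 ^ (R + 1) := by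
      calc 2 ^ (R + 1) * N.x ≤ 2 ^ j * N.x :=
            Nat.mul_le_mul_right _ (Nat.pow_le_pow_right (by norm_num) hj)
        _ ≤ 2 * 2 ^ R := h2
        _ = 2 ^ (R + 1) := by ring
    have hx1 : N.x = 1 := by
      have h3 : 2 ^ (R + 1) * N.x ≤ 2 ^ (R + 1) * 1 := by rw [Nat.mul_one]; exact hx2
      have := Nat.le_of_mul_le_mul_left h3 (by positivity)
      omega
    have hj2 : 2 ^ j ≤ 2 ^ (R + 1) := by
      rw [hx1, Nat.mul_one] at h2
      calc 2 ^ j ≤ 2 * 2 ^ R := h2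
        _ = 2 ^ (R + 1) := by ring
    have hjR : j = R + 1 := by
      have := (Nat.pow_le_pow_iff_right (by norm_num : 1 < 2)).mp hj2
      omega
    have hL := Fam.single_L h hx1
    have hv : v = 0 := le_antisymm (Fam.single_v h hn hx1) hv0
    have el : 2 ^ j * (MM R N + (1 - (j : ℤ)) * N.x) - 2 * 2 ^ R = 0 := by
      unfold MM QQ
      rw [hL, hx1, hjR, g_one, pow_succ]
      push_cast
      ring
    rw [el, hv, mul_zero]
    intro b i g1 g2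
    have hM : (0 : ℤ) < 2 ^ R := by positivity
    have hP : 0 < 2 ^ R := by positivity
    have e128 : 2 ^ 6 * (2 ^ j * N.x) = 2 ^ R * 128 := by
      rw [hx1, hjR, pow_succ]
      ring
    rw [e128] at g1 g2
    have i1 : i ≤ 128 := Nat.le_of_mul_le_mul_left g1 hP
    have i2 : 128 ≤ i + 1 := Nat.le_of_mul_le_mul_left g2 hP
    have e128z : (2 : ℤ) ^ 6 * ((2 ^ j * N.x : ℕ) : ℤ) = 2 ^ R * 128 := by exact_mod_cast e128
    rw [e128z]
    have hc := smallOK_spec hs b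
    have hcz : (tab T 129 b 128 : ℤ) ≤ rc * (2 * b) := by exact_mod_cast hc
    have hm : max (0 : ℤ) (2 ^ R * (2 * b) - 2 ^ 6 * 0) = 2 ^ R * (2 * b) := by
      rw [mul_zero, sub_zero]
      exact max_eq_right (by positivity)
    rw [hm]
    have hf := mul_le_mul_of_nonneg_left hcz hM.le
    rcases Nat.lt_or_ge i 128 with h3 | h3
    · have hi : i = 127 := by omega
      subst hi
      push_cast
      linarith
    · have hi : i = 128 := by omega
      subst hi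
      push_cast
      linarith
  · obtain ⟨R', rfl⟩ : ∃ R', R = R' + j := ⟨R - j, by omega⟩
    have hj0 : 0 < 2 ^ j := by positivity
    have a1 : 2 ^ R' ≤ N.x := by
      apply Nat.le_of_mul_le_mul_left _ hj0
      calc 2 ^ j * 2 ^ R' = 2 ^ (R' + j) := by ring
        _ ≤ _ := h1
    have a2 : N.x ≤ 2 * 2 ^ R' := by
      apply Nat.le_of_mul_le_mul_left _ hj0
      calc 2 ^ j * N.x ≤ 2 * 2 ^ (R' + j) := h2
        _ = 2 ^ j * (2 * 2 ^ R') := by ring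
    obtain ⟨k, hk1, hk2⟩ := hk
    have h3 := h.lb hT hvx R' k (by omega) hk2 hv0 a1 a2
    have h4 := h3.scale j
    rw [gamL_MM rfl] at h4
    exact h4

variable {S : SysL} {x : ℕ → ℤ} {R : ℕ}

/-- an octave item, penalty form, for a set of levels -/
theorem octtP_at {T rc j ex eg hx cg FL FU Fx FT cb ga gb : ℕ} {L U : List ℤ} {P : ℕ → Prop}
    (hs : smallOK T rc = true)
    (hT : LBnd α (fun N x v L => ∀ R k, N = R + k → P k → 0 ≤ v → 2 ^ R ≤ x → x ≤ 2 * 2 ^ R →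
      Rows 28 rc 6 T 129 R x v (gamL R x L)))
    (hG : S.GG = 512) (h0 : x 0 = 2 ^ 28 * 2 ^ R) (H : At α R n v N) (hj : j ≤ 28)
    (hX : dot (S.fe ex) x = 2 ^ 28 * N.x) (hg : 2 ^ 28 * v ≤ dot (S.fe eg) x)
    (hk : ∃ k, n + j = R + k ∧ P k)
    (ha : ga * 2 ^ j = 512) (hb : gb = 2 * ga) (hhx : hx * (64 * 2 ^ j) = 512)
    (hcg : cg = 2 * hx)
    (hFL : (FL : ℤ) * dot L x = FT * (28 * (64 * 2 ^ j)) *
      (2 ^ (28 - j) * (2 ^ j * (MM R N + (1 - (j : ℤ)) * N.x) - 2 * 2 ^ R)))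
    (hFU : (FU : ℤ) * dot U x = FT * (rc * (64 * 2 ^ j)) * (2 ^ 28 * v))
    (hFx : Fx = FT * (64 * 2 ^ j)) (hcb : cb = 2 * rc) :
    (ItemL.gate ex ga gb (ItemL.tt ex eg hx cg L U FL FU Fx FT cb T 129)).Sem S x := by
  refine gate_row (κ := 2 ^ 28) (R := R) (X := N.x) (j := j) hX h0 (by norm_num)
    (by rw [hG]; norm_num) (by rw [hG]; exact ha) hb ?_
  intro h1 h2
  have e28 : (2 : ℤ) ^ 28 = 2 ^ (28 - j) * 2 ^ j := by
    rw [← pow_add, Nat.sub_add_cancel hj]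
  refine tt_row (g' := 64 * 2 ^ j) (c := 28) (rc := rc) (N := R) (R := R + j) (γ := 6)
    (X := 2 ^ j * N.x) (v := 2 ^ j * v) (κ := 2 ^ (28 - j))
    (l := 2 ^ j * (MM R N + (1 - (j : ℤ)) * N.x) - 2 * 2 ^ R) ?_ ?_ hcg ?_ ?_ hFx hcb ?_
    (by positivity) ?_ ?_ ?_ ?_
  · exact hx_pos hhx
  · rw [hG, hhx]
  · rw [hFL]
    push_cast
    ring
  · rw [hFU, e28]
    push_cast
    ring
  · rw [pow_add]
    ring
  · rw [h0, e28, pow_add]
    ring
  · refine le_trans (le_of_eq ?_) hg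
    rw [e28]
    ring
  · rw [hX, e28]
    push_cast
    ring
  · intro b _
    exact oct_rowsP hs hT H.fam H.v0 H.vx H.n1 hk h1 h2 b

/-- an octave item, plain form, for a set of levels -/
theorem octlP_at {T rc j ex eg hx cg FL Fx FT ga gb : ℕ} {L : List ℤ} {P : ℕ → Prop}
    (hs : smallOK T rc = true)
    (hT : LBnd α (fun N x v L => ∀ R k, N = R + k → P k → 0 ≤ v → 2 ^ R ≤ x → x ≤ 2 * 2 ^ R →
      Rows 28 rc 6 T 129 R x v (gamL R x L)))
    (hG : S.GG = 512) (h0 : x 0 = 2 ^ 28 * 2 ^ R) (H : At α R n v N) (hj : j ≤ 28)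
    (hX : dot (S.fe ex) x = 2 ^ 28 * N.x) (hg : dot (S.fe eg) x ≤ 2 ^ 28 * v)
    (hk : ∃ k, n + j = R + k ∧ P k)
    (ha : ga * 2 ^ j = 512) (hb : gb = 2 * ga) (hhx : hx * (64 * 2 ^ j) = 512)
    (hcg : cg = 2 * hx)
    (hFL : (FL : ℤ) * dot L x = FT * (28 * (64 * 2 ^ j)) *
      (2 ^ (28 - j) * (2 ^ j * (MM R N + (1 - (j : ℤ)) * N.x) - 2 * 2 ^ R)))
    (hFx : Fx = FT * (64 * 2 ^ j)) :
    (ItemL.gate ex ga gb (ItemL.tl ex eg hx cg L FL Fx FT T 129)).Sem S x := by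
  refine gate_row (κ := 2 ^ 28) (R := R) (X := N.x) (j := j) hX h0 (by norm_num)
    (by rw [hG]; norm_num) (by rw [hG]; exact ha) hb ?_
  intro h1 h2
  have e28 : (2 : ℤ) ^ 28 = 2 ^ (28 - j) * 2 ^ j := by
    rw [← pow_add, Nat.sub_add_cancel hj]
  refine tl_row (g' := 64 * 2 ^ j) (c := 28) (rc := rc) (N := R) (R := R + j) (γ := 6)
    (X := 2 ^ j * N.x) (v := 2 ^ j * v) (κ := 2 ^ (28 - j))
    (l := 2 ^ j * (MM R N + (1 - (j : ℤ)) * N.x) - 2 * 2 ^ R) ?_ ?_ hcg ?_ hFx ?_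
    (by positivity) ?_ ?_ ?_ ?_
  · exact hx_pos hhx
  · rw [hG, hhx]
  · rw [hFL]
    push_cast
    ring
  · rw [pow_add]
    ring
  · rw [h0, e28, pow_add]
    ring
  · refine hg.trans (le_of_eq ?_)
    rw [e28]
    ring
  · rw [hX, e28]
    push_cast
    ring
  · intro b _
    exact oct_rowsP hs hT H.fam H.v0 H.vx H.n1 hk h1 h2 b

/-- the average of the distances to the cubes: for a family in dimension `R + l` -/
theorem mc_at {e1 e2 j t l c r : ℕ} {Z : List ℤ} (h0 : x 0 = 2 ^ 28 * 2 ^ R) (H : Fam α n v N)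
    (hn : n = R + l) (ht : (t : ℤ) ≤ 2 ^ (j + l) * 2 ^ R) (hj : j ≤ 27)
    (h1 : dot (S.fe e1) x = 2 ^ 28 * N.x)
    (h2 : dot (S.fe e2) x = r * (2 ^ 28 * (2 ^ (j + l) * 2 ^ R - t)))
    (hZ : dot Z x = c * (2 ^ (27 - j) * N.d j t)) (hc : c = r * 2 ^ (j + l)) :
    (ItemL.mc e1 e2 Z).Sem S x := by
  show x 0 * dot Z x ≤ dot (S.fe e1) x * dot (S.fe e2) x
  have e1 : (2 : ℤ) ^ (j + l) * 2 ^ R = 2 ^ j * 2 ^ n := by
    rw [hn, pow_add, pow_add]
    ring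
  have ht' : t ≤ 2 ^ j * 2 ^ n := by
    rw [e1] at ht
    exact_mod_cast ht
  have h := H.avg j ht'
  rw [h0, h1, h2, hZ, hc, e1]
  have e2 : (2 : ℤ) ^ (27 - j) * 2 ^ j = 2 ^ 27 := by
    rw [← pow_add, Nat.sub_add_cancel hj]
  have e3 : (2 : ℤ) ^ 28 * 2 ^ R * (((r * 2 ^ (j + l) : ℕ) : ℤ) * (2 ^ (27 - j) * N.d j t)) =
      r * (2 ^ 28 * 2 ^ 27) * (2 ^ n * N.d j t) := by
    rw [← e2, hn]
    push_cast
    rw [pow_add, pow_add]
    ring
  rw [e3]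
  have h4 := mul_le_mul_of_nonneg_left h (by positivity : (0 : ℤ) ≤ r * (2 ^ 28 * 2 ^ 27))
  refine h4.trans (le_of_eq ?_)
  ring

/-! ### the rows for counterexamples -/

/-- an item of a table with half integer values for small sizes of `beta`, penalty form -/
theorem t4t_at {T rc eb ex eg FL FU Fx FT cb X u : ℕ} {L U : List ℤ} {l : ℤ}
    (hG : S.GG = 512) (h0 : x 0 = 2 ^ 28 * 2 ^ R)
    (hX : dot (S.fe ex) x = 2 ^ 28 * (X : ℤ)) (hb : dot (S.fe eb) x = 2 ^ 28 * ((X : ℤ) - 2 * u))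
    (hg : dot (S.fe eg) x = 2 ^ 28 * (2 * 2 ^ R - ((X : ℤ) - 2 * u)))
    (h : 2 * ((X : ℤ) - 2 * u) ≤ 2 ^ R → Rows 31 rc 6 T 129 (R + 1) (2 * X)
      (2 * (2 * 2 ^ R - ((X : ℤ) - 2 * u))) l)
    (hFL : (FL : ℤ) * dot L x = FT * (31 * 64) * (2 ^ 27 * l))
    (hFU : (FU : ℤ) * dot U x = FT * (rc * 64) * (2 ^ 28 * (2 * 2 ^ R - ((X : ℤ) - 2 * u))))
    (hFx : Fx = FT * 64) (hcb : cb = 2 * rc) :
    (ItemL.gate eb 0 256 (ItemL.tt ex eg 8 16 L U FL FU Fx FT cb T 129)).Sem S x := by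
  intro _ h2
  have hgate : 2 * ((X : ℤ) - 2 * u) ≤ 2 ^ R := by
    rw [hG, hb, h0] at h2
    push_cast at h2
    linarith
  refine tt_row (g' := 64) (c := 31) (rc := rc) (N := R + 1) (R := R + 1) (γ := 6)
    (X := 2 * X) (v := 2 * (2 * 2 ^ R - ((X : ℤ) - 2 * u))) (κ := 2 ^ 27) (l := l)
    (by norm_num) (by rw [hG]) (by norm_num) ?_ ?_ hFx hcb (by norm_num) (by norm_num) ?_ ?_ ?_ ?_
  · rw [hFL]
    push_cast
    ring
  · rw [hFU]
    push_cast
    ring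
  · rw [h0, pow_succ]
    ring
  · rw [hg]
    exact le_of_eq (by ring)
  · rw [hX]
    push_cast
    ring
  · intro b _
    exact h hgate b

/-- an item of a table with half integer values for small sizes of `beta`, plain form -/
theorem t4l_at {T rc eb ex eg FL Fx FT X u : ℕ} {L : List ℤ} {l : ℤ}
    (hG : S.GG = 512) (h0 : x 0 = 2 ^ 28 * 2 ^ R)
    (hX : dot (S.fe ex) x = 2 ^ 28 * (X : ℤ)) (hb : dot (S.fe eb) x = 2 ^ 28 * ((X : ℤ) - 2 * u))
    (hg : dot (S.fe eg) x = 2 ^ 28 * (2 * 2 ^ R - ((X : ℤ) - 2 * u)))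
    (h : 2 * ((X : ℤ) - 2 * u) ≤ 2 ^ R → Rows 31 rc 6 T 129 (R + 1) (2 * X)
      (2 * (2 * 2 ^ R - ((X : ℤ) - 2 * u))) l)
    (hFL : (FL : ℤ) * dot L x = FT * (31 * 64) * (2 ^ 27 * l)) (hFx : Fx = FT * 64) :
    (ItemL.gate eb 0 256 (ItemL.tl ex eg 8 16 L FL Fx FT T 129)).Sem S x := by
  intro _ h2
  have hgate : 2 * ((X : ℤ) - 2 * u) ≤ 2 ^ R := by
    rw [hG, hb, h0] at h2
    push_cast at h2
    linarith
  refine tl_row (g' := 64) (c := 31) (rc := rc) (N := R + 1) (R := R + 1) (γ := 6)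
    (X := 2 * X) (v := 2 * (2 * 2 ^ R - ((X : ℤ) - 2 * u))) (κ := 2 ^ 27) (l := l)
    (by norm_num) (by rw [hG]) (by norm_num) ?_ hFx (by norm_num) (by norm_num) ?_ ?_ ?_ ?_
  · rw [hFL]
    push_cast
    ring
  · rw [h0, pow_succ]
    ring
  · rw [hg]
    exact le_of_eq (by ring)
  · rw [hX]
    push_cast
    ring
  · intro b _
    exact h hgate b

/-! ### the root in the exact level three -/

section

variable {R : ℕ} {F : Frame.Num}

/-- the caps of the halves -/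
structure KC (C : CoreK α R R F) : Prop where
  capF : (C.K.x : ℤ) + C.f ≤ 4 * 2 ^ R
  capK : (C.P.x : ℤ) + C.fK ≤ 2 * 2 ^ R
  capW : (C.W1.x : ℤ) + C.fW ≤ 2 * 2 ^ R
  capP : (C.P2.x : ℤ) + C.fP ≤ 2 ^ R

theorem kc (C : CoreK α R R F) : KC C := by
  have h1 : ((C.K.x + C.f : ℕ) : ℤ) ≤ ((2 ^ (R + 2) : ℕ) : ℤ) := by exact_mod_cast C.mF.cap
  have h2 : ((C.P.x + C.fK : ℕ) : ℤ) ≤ ((2 ^ (R + 1) : ℕ) : ℤ) := by exact_mod_cast C.mK.cap
  have h3 : ((C.W1.x + C.fW : ℕ) : ℤ) ≤ ((2 ^ (R + 1) : ℕ) : ℤ) := by exact_mod_cast C.mW.cap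
  have h4 : ((C.P2.x + C.fP : ℕ) : ℤ) ≤ ((2 ^ R : ℕ) : ℤ) := by exact_mod_cast C.mP.cap
  push_cast at h1 h2 h3 h4
  rw [pow_succ, pow_succ] at h1
  rw [pow_succ] at h2 h3
  exact ⟨by linarith only [h1], by linarith only [h2], by linarith only [h3], by linarith only [h4]⟩

theorem ty (C : CoreK α R R F) : ((F.x - 2 ^ R : ℕ) : ℤ) = F.x - 2 ^ R := by
  rw [Nat.cast_sub C.lo]
  push_cast
  rfl

theorem fillW (C : CoreK α R R F) : (C.P.d 0 F.x : ℤ) ≤ C.A2.d 0 (F.x - 2 ^ R) := by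
  have h := C.mP.upW 0 (F.x - 2 ^ R)
  have e : 2 ^ 0 * 2 ^ R + (F.x - 2 ^ R) = F.x := by
    have := C.lo
    omega
  rw [e] at h
  exact h

theorem atKb {n : ℕ} (C : CoreK α n R F) : At α R (n + 2) ((C.W.x : ℤ) - C.f) C.K where
  fam := C.kK
  v0 := by have z := C.zz; linarith only [z.f1]
  vx := by have z := C.zz; linarith only [z.le1, z.f0]
  n1 := by omega

theorem atPb {n : ℕ} (C : CoreK α n R F) : At α R (n + 1) ((C.A.x : ℤ) - C.fK) C.P where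
  fam := C.kP
  v0 := by have z := C.zz; linarith only [z.f2]
  vx := by have z := C.zz; linarith only [z.le2, z.fK0]
  n1 := by omega

/-- the minority half of a counterexample is not empty -/
theorem qone {n : ℕ} (C : CoreK α n R F) : (1 : ℤ) ≤ C.W.x := by
  have z := C.zz
  by_contra hcon
  have hW : (C.W.x : ℤ) = 0 := le_antisymm (by omega) z.q0
  have h1 := C.mF.delK 0 F.x
  have h2 := tc_small C.kK' (fun s X h1 h2 => C.ih s X (by omega) h2) 0 F.x (by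
    norm_num1
    linarith only [z.ex, z.q0])
  have h3 := C.mF.Lr
  have h4 := dg_nonneg C.K.x C.W.x
  have h5 := C.kW.L0
  have h6 := C.neg
  norm_num1 at h1 h2
  rw [hW] at h1
  linarith only [h1, h2, h3, h4, h5, h6, z.f0]

end

end Pool.Agent.EdgeIso.Chk.CoreK3
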