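import Pool.Agent.Lib.MP_48c8f3_co.Bas
import Pool.Agent.Lib.MP_48c8f3_co.K3H

set_option autoImplicit false
set_option linter.unusedSectionVars false
set_option linter.unusedVariables false

/-!
MP_48c8f3_co: the bounds of the expressions (machine made).
-/

namespace Pool.Agent.EdgeIso.Chk.CoreK3

open Finset Pool.Agent.EdgeIso.Frame Pool.Agent.EdgeIso.Cell Pool.Agent.EdgeIso.Walsh
  Pool.Agent.EdgeIso.Smooth

variable {α : Type*} [DecidableEq α] {R : ℕ} {F : Frame.Num}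

theorem bd0 (C : CoreK α R R F) :
    ((512 : ℕ) : ℤ) * pt C 0 ≤ sys.GG * dot (sys.fe 0) (pt C) ∧
    sys.GG * dot (sys.fe 0) (pt C) ≤ ((1024 : ℕ) : ℤ) * pt C 0 := by
  have z := C.zz
  have h0 : pt C 0 = 2 ^ 28 * 2 ^ R := rfl
  rw [fv0 C, sysGG, h0]
  constructor
  · push_cast
    linarith only [z.ex, z.eK, z.eP, z.eW, z.lo]
  · push_cast
    linarith only [z.ex, z.eK, z.eP, z.eW, z.hi]

theorem bd2 (C : CoreK α R R F) :
    ((256 : ℕ) : ℤ) * pt C 0 ≤ sys.GG * dot (sys.fe 2) (pt C) ∧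
    sys.GG * dot (sys.fe 2) (pt C) ≤ ((1024 : ℕ) : ℤ) * pt C 0 := by
  have z := C.zz
  have h0 : pt C 0 = 2 ^ 28 * 2 ^ R := rfl
  rw [fv2 C, sysGG, h0]
  constructor
  · push_cast
    linarith only [z.ex, z.eK, z.eP, z.eW, z.le1, z.lo]
  · push_cast
    linarith only [z.ex, z.eK, z.eP, z.eW, z.hi, z.q0]

theorem bd3 (C : CoreK α R R F) :
    ((0 : ℕ) : ℤ) * pt C 0 ≤ sys.GG * dot (sys.fe 3) (pt C) ∧
    sys.GG * dot (sys.fe 3) (pt C) ≤ ((512 : ℕ) : ℤ) * pt C 0 := by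
  have z := C.zz
  have h0 : pt C 0 = 2 ^ 28 * 2 ^ R := rfl
  rw [fv3 C, sysGG, h0]
  constructor
  · push_cast
    linarith only [z.ex, z.eK, z.eP, z.eW, z.f1, z.h1]
  · push_cast
    linarith only [z.ex, z.eK, z.eP, z.eW, z.le2, z.hi, z.q0]

theorem bd4 (C : CoreK α R R F) :
    ((128 : ℕ) : ℤ) * pt C 0 ≤ sys.GG * dot (sys.fe 4) (pt C) ∧
    sys.GG * dot (sys.fe 4) (pt C) ≤ ((1024 : ℕ) : ℤ) * pt C 0 := by
  have z := C.zz
  have h0 : pt C 0 = 2 ^ 28 * 2 ^ R := rfl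
  rw [fv4 C, sysGG, h0]
  constructor
  · push_cast
    linarith only [z.ex, z.eK, z.eP, z.eW, z.le1, z.lo, z.le2]
  · push_cast
    linarith only [z.ex, z.eK, z.eP, z.eW, z.f1, z.h1, z.hi, z.q0]

theorem bd5 (C : CoreK α R R F) :
    ((0 : ℕ) : ℤ) * pt C 0 ≤ sys.GG * dot (sys.fe 5) (pt C) ∧
    sys.GG * dot (sys.fe 5) (pt C) ≤ ((512 : ℕ) : ℤ) * pt C 0 := by
  have z := C.zz
  have h0 : pt C 0 = 2 ^ 28 * 2 ^ R := rfl
  rw [fv5 C, sysGG, h0]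
  constructor
  · push_cast
    linarith only [z.ex, z.eK, z.eP, z.eW, z.f2, z.h2]
  · push_cast
    linarith only [z.ex, z.eK, z.eP, z.eW, z.le3, z.f1, z.h1, z.hi, z.q0]

theorem bd6 (C : CoreK α R R F) :
    ((64 : ℕ) : ℤ) * pt C 0 ≤ sys.GG * dot (sys.fe 6) (pt C) ∧
    sys.GG * dot (sys.fe 6) (pt C) ≤ ((512 : ℕ) : ℤ) * pt C 0 := by
  have z := C.zz
  have h0 : pt C 0 = 2 ^ 28 * 2 ^ R := rfl
  rw [fv6 C, sysGG, h0]
  constructor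
  · push_cast
    linarith only [z.ex, z.eK, z.eP, z.eW, z.le1, z.lo, z.le3, z.le2]
  · push_cast
    linarith only [z.ex, z.eK, z.eP, z.eW, (kc C).capP, z.fP0]

theorem bd7 (C : CoreK α R R F) :
    ((0 : ℕ) : ℤ) * pt C 0 ≤ sys.GG * dot (sys.fe 7) (pt C) ∧
    sys.GG * dot (sys.fe 7) (pt C) ≤ ((256 : ℕ) : ℤ) * pt C 0 := by
  have z := C.zz
  have h0 : pt C 0 = 2 ^ 28 * 2 ^ R := rfl
  rw [fv7 C, sysGG, h0]
  constructor
  · push_cast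
    linarith only [z.ex, z.eK, z.eP, z.eW, z.b0]
  · push_cast
    linarith only [z.ex, z.eK, z.eP, z.eW, z.le1, z.hi, z.le4]

theorem bd8 (C : CoreK α R R F) :
    ((0 : ℕ) : ℤ) * pt C 0 ≤ sys.GG * dot (sys.fe 8) (pt C) ∧
    sys.GG * dot (sys.fe 8) (pt C) ≤ ((512 : ℕ) : ℤ) * pt C 0 := by
  have z := C.zz
  have h0 : pt C 0 = 2 ^ 28 * 2 ^ R := rfl
  rw [fv8 C, sysGG, h0]
  constructor
  · push_cast
    linarith only [z.ex, z.eK, z.eP, z.eW, z.le4, z.q0]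
  · push_cast
    linarith only [z.ex, z.eK, z.eP, z.eW, z.h3, z.f1, z.hi]

theorem bd9 (C : CoreK α R R F) :
    ((0 : ℕ) : ℤ) * pt C 0 ≤ sys.GG * dot (sys.fe 9) (pt C) ∧
    sys.GG * dot (sys.fe 9) (pt C) ≤ ((1024 : ℕ) : ℤ) * pt C 0 := by
  have z := C.zz
  have h0 : pt C 0 = 2 ^ 28 * 2 ^ R := rfl
  rw [fv9 C, sysGG, h0]
  constructor
  · push_cast
    linarith only [z.ex, z.eK, z.eP, z.eW, z.f1, z.h1]
  · push_cast
    linarith only [z.ex, z.eK, z.eP, z.eW, z.le2, z.hi, z.q0]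

theorem bd10 (C : CoreK α R R F) :
    ((0 : ℕ) : ℤ) * pt C 0 ≤ sys.GG * dot (sys.fe 10) (pt C) ∧
    sys.GG * dot (sys.fe 10) (pt C) ≤ ((512 : ℕ) : ℤ) * pt C 0 := by
  have z := C.zz
  have h0 : pt C 0 = 2 ^ 28 * 2 ^ R := rfl
  rw [fv10 C, sysGG, h0]
  constructor
  · push_cast
    linarith only [z.ex, z.eK, z.eP, z.eW, z.b0]
  · push_cast
    linarith only [z.ex, z.eK, z.eP, z.eW, z.le1, z.hi, z.le4]

theorem bd11 (C : CoreK α R R F) :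
    ((0 : ℕ) : ℤ) * pt C 0 ≤ sys.GG * dot (sys.fe 11) (pt C) ∧
    sys.GG * dot (sys.fe 11) (pt C) ≤ ((1024 : ℕ) : ℤ) * pt C 0 := by
  have z := C.zz
  have h0 : pt C 0 = 2 ^ 28 * 2 ^ R := rfl
  rw [fv11 C, sysGG, h0]
  constructor
  · push_cast
    linarith only [z.ex, z.eK, z.eP, z.eW, z.f2, z.h2]
  · push_cast
    linarith only [z.ex, z.eK, z.eP, z.eW, z.le3, z.f1, z.h1, z.hi, z.q0]

theorem bd12 (C : CoreK α R R F) :
    ((0 : ℕ) : ℤ) * pt C 0 ≤ sys.GG * dot (sys.fe 12) (pt C) ∧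
    sys.GG * dot (sys.fe 12) (pt C) ≤ ((512 : ℕ) : ℤ) * pt C 0 := by
  have z := C.zz
  have h0 : pt C 0 = 2 ^ 28 * 2 ^ R := rfl
  rw [fv12 C, sysGG, h0]
  constructor
  · push_cast
    linarith only [z.ex, z.eK, z.eP, z.eW, z.f2]
  · push_cast
    linarith only [z.ex, z.eK, z.eP, z.eW, z.le3, z.hi, z.h2, z.fK0, z.q0]

theorem bd13 (C : CoreK α R R F) :
    ((0 : ℕ) : ℤ) * pt C 0 ≤ sys.GG * dot (sys.fe 13) (pt C) ∧
    sys.GG * dot (sys.fe 13) (pt C) ≤ ((512 : ℕ) : ℤ) * pt C 0 := by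
  have z := C.zz
  have h0 : pt C 0 = 2 ^ 28 * 2 ^ R := rfl
  rw [fv13 C, sysGG, h0]
  constructor
  · push_cast
    linarith only [z.ex, z.eK, z.eP, z.eW, z.f1]
  · push_cast
    linarith only [z.ex, z.eK, z.eP, z.eW, z.h3, z.le4, z.hi, z.f0]

theorem bd14 (C : CoreK α R R F) :
    ((0 : ℕ) : ℤ) * pt C 0 ≤ sys.GG * dot (sys.fe 14) (pt C) ∧
    sys.GG * dot (sys.fe 14) (pt C) ≤ ((512 : ℕ) : ℤ) * pt C 0 := by
  have z := C.zz
  have h0 : pt C 0 = 2 ^ 28 * 2 ^ R := rfl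
  rw [fv14 C, sysGG, h0]
  constructor
  · push_cast
    linarith only [z.ex, z.eK, z.eP, z.eW, z.f3]
  · push_cast
    linarith only [z.ex, z.eK, z.eP, z.eW, z.le3, z.f1, z.h1, z.hi, z.fP0, z.q0]

theorem bd15 (C : CoreK α R R F) :
    ((0 : ℕ) : ℤ) * pt C 0 ≤ sys.GG * dot (sys.fe 15) (pt C) ∧
    sys.GG * dot (sys.fe 15) (pt C) ≤ ((256 : ℕ) : ℤ) * pt C 0 := by
  have z := C.zz
  have h0 : pt C 0 = 2 ^ 28 * 2 ^ R := rfl
  rw [fv15 C, sysGG, h0]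
  constructor
  · push_cast
    linarith only [z.ex, z.eK, z.eP, z.eW, z.f4, z.w12]
  · push_cast
    linarith only [z.ex, z.eK, z.eP, z.eW, z.le1, z.hi, z.fW0, z.w2q]

theorem bd16 (C : CoreK α R R F) :
    ((0 : ℕ) : ℤ) * pt C 0 ≤ sys.GG * dot (sys.fe 16) (pt C) ∧
    sys.GG * dot (sys.fe 16) (pt C) ≤ ((512 : ℕ) : ℤ) * pt C 0 := by
  have z := C.zz
  have h0 : pt C 0 = 2 ^ 28 * 2 ^ R := rfl
  rw [fv16 C, sysGG, h0]
  constructor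
  · push_cast
    linarith only [z.ex, z.eK, z.eP, z.eW, z.w12]
  · push_cast
    linarith only [z.ex, z.eK, z.eP, z.eW, z.h3, z.f1, z.b0, z.hi, z.w2q]

theorem bd17 (C : CoreK α R R F) :
    ((0 : ℕ) : ℤ) * pt C 0 ≤ sys.GG * dot (sys.fe 17) (pt C) ∧
    sys.GG * dot (sys.fe 17) (pt C) ≤ ((256 : ℕ) : ℤ) * pt C 0 := by
  have z := C.zz
  have h0 : pt C 0 = 2 ^ 28 * 2 ^ R := rfl
  rw [fv17 C, sysGG, h0]
  have zub : max 0 ((C.w2 : ℤ) + C.W2.x - C.W1.x - C.fW) ≤ (C.W2.x : ℤ) := (atW2 C).vx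
  constructor
  · push_cast
    linarith only [z.ex, z.eK, z.eP, z.eW, le_max_left (0 : ℤ) ((C.w2 : ℤ) + C.W2.x - C.W1.x - C.fW)]
  · push_cast
    linarith only [z.ex, z.eK, z.eP, z.eW, z.le1, zub, z.hi, z.le4]

theorem bd18 (C : CoreK α R R F) :
    ((0 : ℕ) : ℤ) * pt C 0 ≤ sys.GG * dot (sys.fe 18) (pt C) ∧
    sys.GG * dot (sys.fe 18) (pt C) ≤ ((512 : ℕ) : ℤ) * pt C 0 := by
  have z := C.zz
  have h0 : pt C 0 = 2 ^ 28 * 2 ^ R := rfl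
  rw [fv18 C, sysGG, h0]
  constructor
  · push_cast
    linarith only [z.ex, z.eK, z.eP, z.eW, z.f0]
  · push_cast
    linarith only [z.ex, z.eK, z.eP, z.eW, z.le1, z.hi, z.f1]

theorem bd19 (C : CoreK α R R F) :
    ((0 : ℕ) : ℤ) * pt C 0 ≤ sys.GG * dot (sys.fe 19) (pt C) ∧
    sys.GG * dot (sys.fe 19) (pt C) ≤ ((512 : ℕ) : ℤ) * pt C 0 := by
  have z := C.zz
  have h0 : pt C 0 = 2 ^ 28 * 2 ^ R := rfl
  rw [fv19 C, sysGG, h0]
  constructor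
  · push_cast
    linarith only [z.ex, z.eK, z.eP, z.eW, z.fP0]
  · push_cast
    linarith only [z.ex, z.eK, z.eP, z.eW, z.U1, (kc C).capP, z.le2, z.le3, z.le1, z.lo]

theorem bd20 (C : CoreK α R R F) :
    ((0 : ℕ) : ℤ) * pt C 0 ≤ sys.GG * dot (sys.fe 20) (pt C) ∧
    sys.GG * dot (sys.fe 20) (pt C) ≤ ((0 : ℕ) : ℤ) * pt C 0 := by
  have z := C.zz
  have h0 : pt C 0 = 2 ^ 28 * 2 ^ R := rfl
  rw [fv20 C, sysGG, h0]
  constructor
  · push_cast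
    linarith only [z.ex, z.eK, z.eP, z.eW]
  · push_cast
    linarith only [z.ex, z.eK, z.eP, z.eW]

theorem bd21 (C : CoreK α R R F) :
    ((0 : ℕ) : ℤ) * pt C 0 ≤ sys.GG * dot (sys.fe 21) (pt C) ∧
    sys.GG * dot (sys.fe 21) (pt C) ≤ ((512 : ℕ) : ℤ) * pt C 0 := by
  have z := C.zz
  have h0 : pt C 0 = 2 ^ 28 * 2 ^ R := rfl
  rw [fv21 C, sysGG, h0]
  constructor
  · push_cast
    linarith only [z.ex, z.eK, z.eP, z.eW, z.lo]
  · push_cast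
    linarith only [z.ex, z.eK, z.eP, z.eW, z.hi]

theorem bd22 (C : CoreK α R R F) :
    ((0 : ℕ) : ℤ) * pt C 0 ≤ sys.GG * dot (sys.fe 22) (pt C) ∧
    sys.GG * dot (sys.fe 22) (pt C) ≤ ((512 : ℕ) : ℤ) * pt C 0 := by
  have z := C.zz
  have h0 : pt C 0 = 2 ^ 28 * 2 ^ R := rfl
  rw [fv22 C, sysGG, h0]
  constructor
  · push_cast
    linarith only [z.ex, z.eK, z.eP, z.eW, z.hi]
  · push_cast
    linarith only [z.ex, z.eK, z.eP, z.eW, z.lo]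

theorem bd23 (C : CoreK α R R F) :
    ((1024 : ℕ) : ℤ) * pt C 0 ≤ sys.GG * dot (sys.fe 23) (pt C) ∧
    sys.GG * dot (sys.fe 23) (pt C) ≤ ((1536 : ℕ) : ℤ) * pt C 0 := by
  have z := C.zz
  have h0 : pt C 0 = 2 ^ 28 * 2 ^ R := rfl
  rw [fv23 C, sysGG, h0]
  constructor
  · push_cast
    linarith only [z.ex, z.eK, z.eP, z.eW, z.hi]
  · push_cast
    linarith only [z.ex, z.eK, z.eP, z.eW, z.lo]

theorem bd24 (C : CoreK α R R F) :
    ((3072 : ℕ) : ℤ) * pt C 0 ≤ sys.GG * dot (sys.fe 24) (pt C) ∧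
    sys.GG * dot (sys.fe 24) (pt C) ≤ ((3584 : ℕ) : ℤ) * pt C 0 := by
  have z := C.zz
  have h0 : pt C 0 = 2 ^ 28 * 2 ^ R := rfl
  rw [fv24 C, sysGG, h0]
  constructor
  · push_cast
    linarith only [z.ex, z.eK, z.eP, z.eW, z.hi]
  · push_cast
    linarith only [z.ex, z.eK, z.eP, z.eW, z.lo]

theorem bd25 (C : CoreK α R R F) :
    ((0 : ℕ) : ℤ) * pt C 0 ≤ sys.GG * dot (sys.fe 25) (pt C) ∧
    sys.GG * dot (sys.fe 25) (pt C) ≤ ((1024 : ℕ) : ℤ) * pt C 0 := by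
  have z := C.zz
  have h0 : pt C 0 = 2 ^ 28 * 2 ^ R := rfl
  rw [fv25 C, sysGG, h0]
  constructor
  · push_cast
    linarith only [z.ex, z.eK, z.eP, z.eW, z.le1]
  · push_cast
    linarith only [z.ex, z.eK, z.eP, z.eW, z.hi, z.q0]

theorem bd26 (C : CoreK α R R F) :
    ((0 : ℕ) : ℤ) * pt C 0 ≤ sys.GG * dot (sys.fe 26) (pt C) ∧
    sys.GG * dot (sys.fe 26) (pt C) ≤ ((1024 : ℕ) : ℤ) * pt C 0 := by
  have z := C.zz
  have h0 : pt C 0 = 2 ^ 28 * 2 ^ R := rfl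
  rw [fv26 C, sysGG, h0]
  constructor
  · push_cast
    linarith only [z.ex, z.eK, z.eP, z.eW, z.hi, z.q0]
  · push_cast
    linarith only [z.ex, z.eK, z.eP, z.eW, z.le1]

theorem bdz (C : CoreK α R R F) (l : List (ℕ × ℕ)) (e : ℕ) (h1 : 27 ≤ e) (h2 : e < 64)
    (hl : l.getD e (0, 0) = (0, 0)) :
    (((l.getD e (0, 0)).1 : ℕ) : ℤ) * pt C 0 ≤ sys.GG * dot (sys.fe e) (pt C) ∧
    sys.GG * dot (sys.fe e) (pt C) ≤ (((l.getD e (0, 0)).2 : ℕ) : ℤ) * pt C 0 := by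
  have hfe : sys.fe e = List.replicate 42 0 := by
    interval_cases e <;> rfl
  rw [hfe, hl, dot_replicate_zero]
  simp

theorem br1_1 (C : CoreK α R R F) (hq : (2 : ℤ) ^ R ≤ 4 * C.W.x) :
    ((128 : ℕ) : ℤ) * pt C 0 ≤ sys.GG * dot (sys.fe 1) (pt C) ∧
    sys.GG * dot (sys.fe 1) (pt C) ≤ ((512 : ℕ) : ℤ) * pt C 0 := by
  have z := C.zz
  have h0 : pt C 0 = 2 ^ 28 * 2 ^ R := rfl
  rw [fv1 C, sysGG, h0]
  constructor
  · push_cast
    linarith only [z.ex, z.eK, z.eP, z.eW, hq]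
  · push_cast
    linarith only [z.ex, z.eK, z.eP, z.eW, z.le1, z.hi]

/-- the bounds of the region 1 -/
def bds1 : List (ℕ × ℕ) := [(512, 1024), (128, 512), (256, 1024), (0, 512), (128, 1024), (0, 512), (64, 512), (0, 256), (0, 512), (0, 1024), (0, 512), (0, 1024), (0, 512), (0, 512), (0, 512), (0, 256), (0, 512), (0, 256), (0, 512), (0, 512), (0, 0), (0, 512), (0, 512), (1024, 1536), (3072, 3584), (0, 1024), (0, 1024), (0, 0), (0, 0), (0, 0), (0, 0), (0, 0), (0, 0), (0, 0), (0, 0), (0, 0), (0, 0), (0, 0), (0, 0), (0, 0), (0, 0), (0, 0), (0, 0), (0, 0), (0, 0), (0, 0), (0, 0), (0, 0), (0, 0), (0, 0), (0, 0), (0, 0), (0, 0), (0, 0), (0, 0), (0, 0), (0, 0), (0, 0), (0, 0), (0, 0), (0, 0), (0, 0), (0, 0), (0, 0)]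

/-- all bounds hold -/
theorem bds1_ok (C : CoreK α R R F) (hn : 1 ≤ R) (hq : (2 : ℤ) ^ R ≤ 4 * C.W.x) : ∀ e, e < 64 →
    (((bds1.getD e (0, 0)).1 : ℕ) : ℤ) * pt C 0 ≤ sys.GG * dot (sys.fe e) (pt C) ∧
    sys.GG * dot (sys.fe e) (pt C) ≤ (((bds1.getD e (0, 0)).2 : ℕ) : ℤ) * pt C 0 := by
  intro e he
  rcases Nat.lt_or_ge e 27 with h | h
  · interval_cases e
    · exact bd0 C
    · exact br1_1 C hq
    · exact bd2 C
    · exact bd3 C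
    · exact bd4 C
    · exact bd5 C
    · exact bd6 C
    · exact bd7 C
    · exact bd8 C
    · exact bd9 C
    · exact bd10 C
    · exact bd11 C
    · exact bd12 C
    · exact bd13 C
    · exact bd14 C
    · exact bd15 C
    · exact bd16 C
    · exact bd17 C
    · exact bd18 C
    · exact bd19 C
    · exact bd20 C
    · exact bd21 C
    · exact bd22 C
    · exact bd23 C
    · exact bd24 C
    · exact bd25 C
    · exact bd26 C
  · exact bdz C bds1 e h he (by interval_cases e <;> rfl)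

theorem br2_1 (C : CoreK α R R F) (hq : 4 * (C.W.x : ℤ) ≤ 2 ^ R) (ha : (2 : ℤ) ^ R ≤ 4 * C.A.x) :
    ((0 : ℕ) : ℤ) * pt C 0 ≤ sys.GG * dot (sys.fe 1) (pt C) ∧
    sys.GG * dot (sys.fe 1) (pt C) ≤ ((128 : ℕ) : ℤ) * pt C 0 := by
  have z := C.zz
  have h0 : pt C 0 = 2 ^ 28 * 2 ^ R := rfl
  rw [fv1 C, sysGG, h0]
  constructor
  · push_cast
    linarith only [z.ex, z.eK, z.eP, z.eW, z.q0]
  · push_cast
    linarith only [z.ex, z.eK, z.eP, z.eW, hq]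

theorem br2_3 (C : CoreK α R R F) (hq : 4 * (C.W.x : ℤ) ≤ 2 ^ R) (ha : (2 : ℤ) ^ R ≤ 4 * C.A.x) :
    ((128 : ℕ) : ℤ) * pt C 0 ≤ sys.GG * dot (sys.fe 3) (pt C) ∧
    sys.GG * dot (sys.fe 3) (pt C) ≤ ((512 : ℕ) : ℤ) * pt C 0 := by
  have z := C.zz
  have h0 : pt C 0 = 2 ^ 28 * 2 ^ R := rfl
  rw [fv3 C, sysGG, h0]
  constructor
  · push_cast
    linarith only [z.ex, z.eK, z.eP, z.eW, ha]
  · push_cast
    linarith only [z.ex, z.eK, z.eP, z.eW, z.le2, z.hi, z.q0]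

/-- the bounds of the region 2 -/
def bds2 : List (ℕ × ℕ) := [(512, 1024), (0, 128), (256, 1024), (128, 512), (128, 1024), (0, 512), (64, 512), (0, 256), (0, 512), (0, 1024), (0, 512), (0, 1024), (0, 512), (0, 512), (0, 512), (0, 256), (0, 512), (0, 256), (0, 512), (0, 512), (0, 0), (0, 512), (0, 512), (1024, 1536), (3072, 3584), (0, 1024), (0, 1024), (0, 0), (0, 0), (0, 0), (0, 0), (0, 0), (0, 0), (0, 0), (0, 0), (0, 0), (0, 0), (0, 0), (0, 0), (0, 0), (0, 0), (0, 0), (0, 0), (0, 0), (0, 0), (0, 0), (0, 0), (0, 0), (0, 0), (0, 0), (0, 0), (0, 0), (0, 0), (0, 0), (0, 0), (0, 0), (0, 0), (0, 0), (0, 0), (0, 0), (0, 0), (0, 0), (0, 0), (0, 0)]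

/-- all bounds hold -/
theorem bds2_ok (C : CoreK α R R F) (hn : 1 ≤ R) (hq : 4 * (C.W.x : ℤ) ≤ 2 ^ R) (ha : (2 : ℤ) ^ R ≤ 4 * C.A.x) : ∀ e, e < 64 →
    (((bds2.getD e (0, 0)).1 : ℕ) : ℤ) * pt C 0 ≤ sys.GG * dot (sys.fe e) (pt C) ∧
    sys.GG * dot (sys.fe e) (pt C) ≤ (((bds2.getD e (0, 0)).2 : ℕ) : ℤ) * pt C 0 := by
  intro e he
  rcases Nat.lt_or_ge e 27 with h | h
  · interval_cases e
    · exact bd0 C
    · exact br2_1 C hq ha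
    · exact bd2 C
    · exact br2_3 C hq ha
    · exact bd4 C
    · exact bd5 C
    · exact bd6 C
    · exact bd7 C
    · exact bd8 C
    · exact bd9 C
    · exact bd10 C
    · exact bd11 C
    · exact bd12 C
    · exact bd13 C
    · exact bd14 C
    · exact bd15 C
    · exact bd16 C
    · exact bd17 C
    · exact bd18 C
    · exact bd19 C
    · exact bd20 C
    · exact bd21 C
    · exact bd22 C
    · exact bd23 C
    · exact bd24 C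
    · exact bd25 C
    · exact bd26 C
  · exact bdz C bds2 e h he (by interval_cases e <;> rfl)

theorem br3_1 (C : CoreK α R R F) (hq : 4 * (C.W.x : ℤ) ≤ 2 ^ R) (ha : 4 * (C.A.x : ℤ) ≤ 2 ^ R) (ha2 : (2 : ℤ) ^ R ≤ 4 * C.A2.x) :
    ((0 : ℕ) : ℤ) * pt C 0 ≤ sys.GG * dot (sys.fe 1) (pt C) ∧
    sys.GG * dot (sys.fe 1) (pt C) ≤ ((128 : ℕ) : ℤ) * pt C 0 := by
  have z := C.zz
  have h0 : pt C 0 = 2 ^ 28 * 2 ^ R := rfl
  rw [fv1 C, sysGG, h0]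
  constructor
  · push_cast
    linarith only [z.ex, z.eK, z.eP, z.eW, z.q0]
  · push_cast
    linarith only [z.ex, z.eK, z.eP, z.eW, hq]

theorem br3_3 (C : CoreK α R R F) (hq : 4 * (C.W.x : ℤ) ≤ 2 ^ R) (ha : 4 * (C.A.x : ℤ) ≤ 2 ^ R) (ha2 : (2 : ℤ) ^ R ≤ 4 * C.A2.x) :
    ((0 : ℕ) : ℤ) * pt C 0 ≤ sys.GG * dot (sys.fe 3) (pt C) ∧
    sys.GG * dot (sys.fe 3) (pt C) ≤ ((128 : ℕ) : ℤ) * pt C 0 := by
  have z := C.zz
  have h0 : pt C 0 = 2 ^ 28 * 2 ^ R := rfl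
  rw [fv3 C, sysGG, h0]
  constructor
  · push_cast
    linarith only [z.ex, z.eK, z.eP, z.eW, z.f1, z.h1]
  · push_cast
    linarith only [z.ex, z.eK, z.eP, z.eW, ha]

theorem br3_5 (C : CoreK α R R F) (hq : 4 * (C.W.x : ℤ) ≤ 2 ^ R) (ha : 4 * (C.A.x : ℤ) ≤ 2 ^ R) (ha2 : (2 : ℤ) ^ R ≤ 4 * C.A2.x) :
    ((128 : ℕ) : ℤ) * pt C 0 ≤ sys.GG * dot (sys.fe 5) (pt C) ∧
    sys.GG * dot (sys.fe 5) (pt C) ≤ ((512 : ℕ) : ℤ) * pt C 0 := by
  have z := C.zz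
  have h0 : pt C 0 = 2 ^ 28 * 2 ^ R := rfl
  rw [fv5 C, sysGG, h0]
  constructor
  · push_cast
    linarith only [z.ex, z.eK, z.eP, z.eW, ha2]
  · push_cast
    linarith only [z.ex, z.eK, z.eP, z.eW, z.le3, z.f1, z.h1, z.hi, z.q0]

/-- the bounds of the region 3 -/
def bds3 : List (ℕ × ℕ) := [(512, 1024), (0, 128), (256, 1024), (0, 128), (128, 1024), (128, 512), (64, 512), (0, 256), (0, 512), (0, 1024), (0, 512), (0, 1024), (0, 512), (0, 512), (0, 512), (0, 256), (0, 512), (0, 256), (0, 512), (0, 512), (0, 0), (0, 512), (0, 512), (1024, 1536), (3072, 3584), (0, 1024), (0, 1024), (0, 0), (0, 0), (0, 0), (0, 0), (0, 0), (0, 0), (0, 0), (0, 0), (0, 0), (0, 0), (0, 0), (0, 0), (0, 0), (0, 0), (0, 0), (0, 0), (0, 0), (0, 0), (0, 0), (0, 0), (0, 0), (0, 0), (0, 0), (0, 0), (0, 0), (0, 0), (0, 0), (0, 0), (0, 0), (0, 0), (0, 0), (0, 0), (0, 0), (0, 0), (0, 0), (0,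 0), (0, 0)]

/-- all bounds hold -/
theorem bds3_ok (C : CoreK α R R F) (hn : 1 ≤ R) (hq : 4 * (C.W.x : ℤ) ≤ 2 ^ R) (ha : 4 * (C.A.x : ℤ) ≤ 2 ^ R) (ha2 : (2 : ℤ) ^ R ≤ 4 * C.A2.x) : ∀ e, e < 64 →
    (((bds3.getD e (0, 0)).1 : ℕ) : ℤ) * pt C 0 ≤ sys.GG * dot (sys.fe e) (pt C) ∧
    sys.GG * dot (sys.fe e) (pt C) ≤ (((bds3.getD e (0, 0)).2 : ℕ) : ℤ) * pt C 0 := by
  intro e he
  rcases Nat.lt_or_ge e 27 with h | h
  · interval_cases e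
    · exact bd0 C
    · exact br3_1 C hq ha ha2
    · exact bd2 C
    · exact br3_3 C hq ha ha2
    · exact bd4 C
    · exact br3_5 C hq ha ha2
    · exact bd6 C
    · exact bd7 C
    · exact bd8 C
    · exact bd9 C
    · exact bd10 C
    · exact bd11 C
    · exact bd12 C
    · exact bd13 C
    · exact bd14 C
    · exact bd15 C
    · exact bd16 C
    · exact bd17 C
    · exact bd18 C
    · exact bd19 C
    · exact bd20 C
    · exact bd21 C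
    · exact bd22 C
    · exact bd23 C
    · exact bd24 C
    · exact bd25 C
    · exact bd26 C
  · exact bdz C bds3 e h he (by interval_cases e <;> rfl)

end Pool.Agent.EdgeIso.Chk.CoreK3
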