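import Pool.Agent.Lib.MP_48c8f3_co.TEa_0
import Pool.Agent.Lib.MP_48c8f3_co.TEa_1
import Pool.Agent.Lib.MP_48c8f3_co.TEa_2
import Pool.Agent.Lib.MP_48c8f3_co.TEa_3
import Pool.Agent.Lib.MP_48c8f3_co.TEa_4
import Pool.Agent.Lib.MP_48c8f3_co.TEa_5
import Pool.Agent.Lib.MP_48c8f3_co.TEa_6
import Pool.Agent.Lib.MP_48c8f3_co.TEa_7
import Pool.Agent.Lib.MP_48c8f3_co.TEa_8
import Pool.Agent.Lib.MP_48c8f3_co.TEa_9
import Pool.Agent.Lib.MP_48c8f3_co.TEa_10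
import Pool.Agent.Lib.MP_48c8f3_co.TEa_11
import Pool.Agent.Lib.MP_48c8f3_co.TEa_12
import Pool.Agent.Lib.MP_48c8f3_co.TEa_13
import Pool.Agent.Lib.MP_48c8f3_co.TEa_14

set_option autoImplicit false
set_option maxRecDepth 100000

/-! Upper bounds of the number of edges by octave arrays, checked by the kernel (machine made). -/

namespace Pool.Agent.EdgeIso.Cell

theorem TEaU10_c (i β : ℕ) (h : 64 ≤ β) : TEaU10 i β = TEaU10 i 64 := by
  have h1 : Nat.sub β (Nat.sub β 64) = 64 := by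
    show β - (β - 64) = 64
    omega
  have h2 : Nat.sub 64 (Nat.sub 64 64) = 64 := rfl
  unfold TEaU10
  rw [h1, h2]

theorem TEaL10_c (i β : ℕ) (h : 64 ≤ β) : TEaL10 i β = TEaL10 i 64 := by
  have h1 : Nat.sub β (Nat.sub β 64) = 64 := by
    show β - (β - 64) = 64
    omega
  have h2 : Nat.sub 64 (Nat.sub 64 64) = 64 := rfl
  unfold TEaL10
  rw [h1, h2]

theorem TEaU10_mono : ∀ i β β', 64 ≤ i → i ≤ 128 → β ≤ β' → TEaU10 i β' ≤ TEaU10 i β ∧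
    TEaU10 i β ≤ TEaU10 i β' + 512 * (β' - β) :=
  monoE_sound TEaU10_m TEaU10_c

theorem TEaL10_mono (β : ℕ) : TEaL10 64 0 ≤ TEaL10 64 β + 1 * 256 * β := by
  have := (monoE_sound TEaL10_m TEaL10_c 64 0 β (by norm_num) (by norm_num) (Nat.zero_le _)).2
  simpa using this

theorem TEaU11_c (i β : ℕ) (h : 64 ≤ β) : TEaU11 i β = TEaU11 i 64 := by
  have h1 : Nat.sub β (Nat.sub β 64) = 64 := by
    show β - (β - 64) = 64
    omega
  have h2 : Nat.sub 64 (Nat.sub 64 64) = 64 := rfl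
  unfold TEaU11
  rw [h1, h2]

theorem TEaL11_c (i β : ℕ) (h : 64 ≤ β) : TEaL11 i β = TEaL11 i 64 := by
  have h1 : Nat.sub β (Nat.sub β 64) = 64 := by
    show β - (β - 64) = 64
    omega
  have h2 : Nat.sub 64 (Nat.sub 64 64) = 64 := rfl
  unfold TEaL11
  rw [h1, h2]

theorem TEaU11_mono : ∀ i β β', 64 ≤ i → i ≤ 128 → β ≤ β' → TEaU11 i β' ≤ TEaU11 i β ∧
    TEaU11 i β ≤ TEaU11 i β' + 1024 * (β' - β) :=
  monoE_sound TEaU11_m TEaU11_c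

theorem TEaL11_mono (β : ℕ) : TEaL11 64 0 ≤ TEaL11 64 β + 2 * 256 * β := by
  have := (monoE_sound TEaL11_m TEaL11_c 64 0 β (by norm_num) (by norm_num) (Nat.zero_le _)).2
  simpa using this

theorem TEaU12_c (i β : ℕ) (h : 64 ≤ β) : TEaU12 i β = TEaU12 i 64 := by
  have h1 : Nat.sub β (Nat.sub β 64) = 64 := by
    show β - (β - 64) = 64
    omega
  have h2 : Nat.sub 64 (Nat.sub 64 64) = 64 := rfl
  unfold TEaU12
  rw [h1, h2]

theorem TEaL12_c (i β : ℕ) (h : 64 ≤ β) : TEaL12 i β = TEaL12 i 64 := by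
  have h1 : Nat.sub β (Nat.sub β 64) = 64 := by
    show β - (β - 64) = 64
    omega
  have h2 : Nat.sub 64 (Nat.sub 64 64) = 64 := rfl
  unfold TEaL12
  rw [h1, h2]

theorem TEaU12_mono : ∀ i β β', 64 ≤ i → i ≤ 128 → β ≤ β' → TEaU12 i β' ≤ TEaU12 i β ∧
    TEaU12 i β ≤ TEaU12 i β' + 2048 * (β' - β) :=
  monoE_sound TEaU12_m TEaU12_c

theorem TEaL12_mono (β : ℕ) : TEaL12 64 0 ≤ TEaL12 64 β + 4 * 256 * β := by
  have := (monoE_sound TEaL12_m TEaL12_c 64 0 β (by norm_num) (by norm_num) (Nat.zero_le _)).2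
  simpa using this

theorem TEaUF1_mono (σ : ℕ) : ∀ i β β', 2 ^ 6 ≤ i → i ≤ 2 * 2 ^ 6 → β ≤ β' →
    TEaUF1 σ i β' ≤ TEaUF1 σ i β ∧
    TEaUF1 σ i β ≤ TEaUF1 σ i β' + 2 * TEar σ * 256 * (β' - β) := by
  rcases σ with _ | σ
  · exact TEaU10_mono
  · rcases σ with _ | σ
    · exact TEaU11_mono
    · exact TEaU12_mono

theorem TEaLF1_mono (σ β : ℕ) : TEaLF1 σ (2 ^ 6) 0 ≤ TEaLF1 σ (2 ^ 6) β +
    TEar σ * 256 * β := by
  rcases σ with _ | σ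
  · exact TEaL10_mono β
  · rcases σ with _ | σ
    · exact TEaL11_mono β
    · exact TEaL12_mono β

theorem TEaUF1_c (σ i β : ℕ) (h : 64 ≤ β) : TEaUF1 σ i β = TEaUF1 σ i 64 := by
  rcases σ with _ | σ
  · exact TEaU10_c i β h
  · rcases σ with _ | σ
    · exact TEaU11_c i β h
    · exact TEaU12_c i β h

theorem TEaLF1_o (σ : ℕ) : 256 * 7 * 2 ^ 6 ≤ TEaLF1 σ (2 ^ 6) 0 := by
  rcases σ with _ | σ
  · exact Nat.le_of_ble_eq_true TEaL10_o
  · rcases σ with _ | σ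
    · exact Nat.le_of_ble_eq_true TEaL11_o
    · exact Nat.le_of_ble_eq_true TEaL12_o

theorem TEaUF1_t (σ : ℕ) : 2 * 256 * (1 + 7) * 2 ^ 6 ≤ TEaUF1 σ (2 * 2 ^ 6) 0 := by
  rcases σ with _ | σ
  · exact Nat.le_of_ble_eq_true TEaU10_t
  · rcases σ with _ | σ
    · exact Nat.le_of_ble_eq_true TEaU11_t
    · exact Nat.le_of_ble_eq_true TEaU12_t

theorem TEaUF1_b (σ : ℕ) : 2 * 256 * 7 * 2 ^ 6 ≤ TEaUF1 σ (2 * 2 ^ 6) 64 := by
  rcases σ with _ | σ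
  · exact Nat.le_of_ble_eq_true TEaU10_b
  · rcases σ with _ | σ
    · exact Nat.le_of_ble_eq_true TEaU11_b
    · exact Nat.le_of_ble_eq_true TEaU12_b

theorem TEaU20_c (i β : ℕ) (h : 64 ≤ β) : TEaU20 i β = TEaU20 i 64 := by
  have h1 : Nat.sub β (Nat.sub β 64) = 64 := by
    show β - (β - 64) = 64
    omega
  have h2 : Nat.sub 64 (Nat.sub 64 64) = 64 := rfl
  unfold TEaU20
  rw [h1, h2]

theorem TEaL20_c (i β : ℕ) (h : 64 ≤ β) : TEaL20 i β = TEaL20 i 64 := by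
  have h1 : Nat.sub β (Nat.sub β 64) = 64 := by
    show β - (β - 64) = 64
    omega
  have h2 : Nat.sub 64 (Nat.sub 64 64) = 64 := rfl
  unfold TEaL20
  rw [h1, h2]

theorem TEaU20_mono : ∀ i β β', 64 ≤ i → i ≤ 128 → β ≤ β' → TEaU20 i β' ≤ TEaU20 i β ∧
    TEaU20 i β ≤ TEaU20 i β' + 512 * (β' - β) :=
  monoE_sound TEaU20_m TEaU20_c

theorem TEaL20_mono (β : ℕ) : TEaL20 64 0 ≤ TEaL20 64 β + 1 * 256 * β := by
  have := (monoE_sound TEaL20_m TEaL20_c 64 0 β (by norm_num) (by norm_num) (Nat.zero_le _)).2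
  simpa using this

theorem TEaU21_c (i β : ℕ) (h : 64 ≤ β) : TEaU21 i β = TEaU21 i 64 := by
  have h1 : Nat.sub β (Nat.sub β 64) = 64 := by
    show β - (β - 64) = 64
    omega
  have h2 : Nat.sub 64 (Nat.sub 64 64) = 64 := rfl
  unfold TEaU21
  rw [h1, h2]

theorem TEaL21_c (i β : ℕ) (h : 64 ≤ β) : TEaL21 i β = TEaL21 i 64 := by
  have h1 : Nat.sub β (Nat.sub β 64) = 64 := by
    show β - (β - 64) = 64
    omega
  have h2 : Nat.sub 64 (Nat.sub 64 64) = 64 := rfl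
  unfold TEaL21
  rw [h1, h2]

theorem TEaU21_mono : ∀ i β β', 64 ≤ i → i ≤ 128 → β ≤ β' → TEaU21 i β' ≤ TEaU21 i β ∧
    TEaU21 i β ≤ TEaU21 i β' + 1024 * (β' - β) :=
  monoE_sound TEaU21_m TEaU21_c

theorem TEaL21_mono (β : ℕ) : TEaL21 64 0 ≤ TEaL21 64 β + 2 * 256 * β := by
  have := (monoE_sound TEaL21_m TEaL21_c 64 0 β (by norm_num) (by norm_num) (Nat.zero_le _)).2
  simpa using this

theorem TEaU22_c (i β : ℕ) (h : 64 ≤ β) : TEaU22 i β = TEaU22 i 64 := by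
  have h1 : Nat.sub β (Nat.sub β 64) = 64 := by
    show β - (β - 64) = 64
    omega
  have h2 : Nat.sub 64 (Nat.sub 64 64) = 64 := rfl
  unfold TEaU22
  rw [h1, h2]

theorem TEaL22_c (i β : ℕ) (h : 64 ≤ β) : TEaL22 i β = TEaL22 i 64 := by
  have h1 : Nat.sub β (Nat.sub β 64) = 64 := by
    show β - (β - 64) = 64
    omega
  have h2 : Nat.sub 64 (Nat.sub 64 64) = 64 := rfl
  unfold TEaL22
  rw [h1, h2]

theorem TEaU22_mono : ∀ i β β', 64 ≤ i → i ≤ 128 → β ≤ β' → TEaU22 i β' ≤ TEaU22 i β ∧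
    TEaU22 i β ≤ TEaU22 i β' + 2048 * (β' - β) :=
  monoE_sound TEaU22_m TEaU22_c

theorem TEaL22_mono (β : ℕ) : TEaL22 64 0 ≤ TEaL22 64 β + 4 * 256 * β := by
  have := (monoE_sound TEaL22_m TEaL22_c 64 0 β (by norm_num) (by norm_num) (Nat.zero_le _)).2
  simpa using this

theorem TEaUF2_mono (σ : ℕ) : ∀ i β β', 2 ^ 6 ≤ i → i ≤ 2 * 2 ^ 6 → β ≤ β' →
    TEaUF2 σ i β' ≤ TEaUF2 σ i β ∧
    TEaUF2 σ i β ≤ TEaUF2 σ i β' + 2 * TEar σ * 256 * (β' - β) := by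
  rcases σ with _ | σ
  · exact TEaU20_mono
  · rcases σ with _ | σ
    · exact TEaU21_mono
    · exact TEaU22_mono

theorem TEaLF2_mono (σ β : ℕ) : TEaLF2 σ (2 ^ 6) 0 ≤ TEaLF2 σ (2 ^ 6) β +
    TEar σ * 256 * β := by
  rcases σ with _ | σ
  · exact TEaL20_mono β
  · rcases σ with _ | σ
    · exact TEaL21_mono β
    · exact TEaL22_mono β

theorem TEaUF2_c (σ i β : ℕ) (h : 64 ≤ β) : TEaUF2 σ i β = TEaUF2 σ i 64 := by
  rcases σ with _ | σ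
  · exact TEaU20_c i β h
  · rcases σ with _ | σ
    · exact TEaU21_c i β h
    · exact TEaU22_c i β h

theorem TEaLF2_o (σ : ℕ) : 256 * 7 * 2 ^ 6 ≤ TEaLF2 σ (2 ^ 6) 0 := by
  rcases σ with _ | σ
  · exact Nat.le_of_ble_eq_true TEaL20_o
  · rcases σ with _ | σ
    · exact Nat.le_of_ble_eq_true TEaL21_o
    · exact Nat.le_of_ble_eq_true TEaL22_o

theorem TEaUF2_t (σ : ℕ) : 2 * 256 * (1 + 7) * 2 ^ 6 ≤ TEaUF2 σ (2 * 2 ^ 6) 0 := by
  rcases σ with _ | σ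
  · exact Nat.le_of_ble_eq_true TEaU20_t
  · rcases σ with _ | σ
    · exact Nat.le_of_ble_eq_true TEaU21_t
    · exact Nat.le_of_ble_eq_true TEaU22_t

theorem TEaUF2_b (σ : ℕ) : 2 * 256 * 7 * 2 ^ 6 ≤ TEaUF2 σ (2 * 2 ^ 6) 64 := by
  rcases σ with _ | σ
  · exact Nat.le_of_ble_eq_true TEaU20_b
  · rcases σ with _ | σ
    · exact Nat.le_of_ble_eq_true TEaU21_b
    · exact Nat.le_of_ble_eq_true TEaU22_b

theorem TEaU30_c (i β : ℕ) (h : 64 ≤ β) : TEaU30 i β = TEaU30 i 64 := by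
  have h1 : Nat.sub β (Nat.sub β 64) = 64 := by
    show β - (β - 64) = 64
    omega
  have h2 : Nat.sub 64 (Nat.sub 64 64) = 64 := rfl
  unfold TEaU30
  rw [h1, h2]

theorem TEaL30_c (i β : ℕ) (h : 64 ≤ β) : TEaL30 i β = TEaL30 i 64 := by
  have h1 : Nat.sub β (Nat.sub β 64) = 64 := by
    show β - (β - 64) = 64
    omega
  have h2 : Nat.sub 64 (Nat.sub 64 64) = 64 := rfl
  unfold TEaL30
  rw [h1, h2]

theorem TEaU30_mono : ∀ i β β', 64 ≤ i → i ≤ 128 → β ≤ β' → TEaU30 i β' ≤ TEaU30 i β ∧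
    TEaU30 i β ≤ TEaU30 i β' + 512 * (β' - β) :=
  monoE_sound TEaU30_m TEaU30_c

theorem TEaL30_mono (β : ℕ) : TEaL30 64 0 ≤ TEaL30 64 β + 1 * 256 * β := by
  have := (monoE_sound TEaL30_m TEaL30_c 64 0 β (by norm_num) (by norm_num) (Nat.zero_le _)).2
  simpa using this

theorem TEaU31_c (i β : ℕ) (h : 64 ≤ β) : TEaU31 i β = TEaU31 i 64 := by
  have h1 : Nat.sub β (Nat.sub β 64) = 64 := by
    show β - (β - 64) = 64
    omega
  have h2 : Nat.sub 64 (Nat.sub 64 64) = 64 := rfl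
  unfold TEaU31
  rw [h1, h2]

theorem TEaL31_c (i β : ℕ) (h : 64 ≤ β) : TEaL31 i β = TEaL31 i 64 := by
  have h1 : Nat.sub β (Nat.sub β 64) = 64 := by
    show β - (β - 64) = 64
    omega
  have h2 : Nat.sub 64 (Nat.sub 64 64) = 64 := rfl
  unfold TEaL31
  rw [h1, h2]

theorem TEaU31_mono : ∀ i β β', 64 ≤ i → i ≤ 128 → β ≤ β' → TEaU31 i β' ≤ TEaU31 i β ∧
    TEaU31 i β ≤ TEaU31 i β' + 1024 * (β' - β) :=
  monoE_sound TEaU31_m TEaU31_c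

theorem TEaL31_mono (β : ℕ) : TEaL31 64 0 ≤ TEaL31 64 β + 2 * 256 * β := by
  have := (monoE_sound TEaL31_m TEaL31_c 64 0 β (by norm_num) (by norm_num) (Nat.zero_le _)).2
  simpa using this

theorem TEaU32_c (i β : ℕ) (h : 64 ≤ β) : TEaU32 i β = TEaU32 i 64 := by
  have h1 : Nat.sub β (Nat.sub β 64) = 64 := by
    show β - (β - 64) = 64
    omega
  have h2 : Nat.sub 64 (Nat.sub 64 64) = 64 := rfl
  unfold TEaU32
  rw [h1, h2]

theorem TEaL32_c (i β : ℕ) (h : 64 ≤ β) : TEaL32 i β = TEaL32 i 64 := by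
  have h1 : Nat.sub β (Nat.sub β 64) = 64 := by
    show β - (β - 64) = 64
    omega
  have h2 : Nat.sub 64 (Nat.sub 64 64) = 64 := rfl
  unfold TEaL32
  rw [h1, h2]

theorem TEaU32_mono : ∀ i β β', 64 ≤ i → i ≤ 128 → β ≤ β' → TEaU32 i β' ≤ TEaU32 i β ∧
    TEaU32 i β ≤ TEaU32 i β' + 2048 * (β' - β) :=
  monoE_sound TEaU32_m TEaU32_c

theorem TEaL32_mono (β : ℕ) : TEaL32 64 0 ≤ TEaL32 64 β + 4 * 256 * β := by
  have := (monoE_sound TEaL32_m TEaL32_c 64 0 β (by norm_num) (by norm_num) (Nat.zero_le _)).2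
  simpa using this

theorem TEaUF3_mono (σ : ℕ) : ∀ i β β', 2 ^ 6 ≤ i → i ≤ 2 * 2 ^ 6 → β ≤ β' →
    TEaUF3 σ i β' ≤ TEaUF3 σ i β ∧
    TEaUF3 σ i β ≤ TEaUF3 σ i β' + 2 * TEar σ * 256 * (β' - β) := by
  rcases σ with _ | σ
  · exact TEaU30_mono
  · rcases σ with _ | σ
    · exact TEaU31_mono
    · exact TEaU32_mono

theorem TEaLF3_mono (σ β : ℕ) : TEaLF3 σ (2 ^ 6) 0 ≤ TEaLF3 σ (2 ^ 6) β +
    TEar σ * 256 * β := by
  rcases σ with _ | σ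
  · exact TEaL30_mono β
  · rcases σ with _ | σ
    · exact TEaL31_mono β
    · exact TEaL32_mono β

theorem TEaUF3_c (σ i β : ℕ) (h : 64 ≤ β) : TEaUF3 σ i β = TEaUF3 σ i 64 := by
  rcases σ with _ | σ
  · exact TEaU30_c i β h
  · rcases σ with _ | σ
    · exact TEaU31_c i β h
    · exact TEaU32_c i β h

theorem TEaLF3_o (σ : ℕ) : 256 * 7 * 2 ^ 6 ≤ TEaLF3 σ (2 ^ 6) 0 := by
  rcases σ with _ | σ
  · exact Nat.le_of_ble_eq_true TEaL30_o
  · rcases σ with _ | σ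
    · exact Nat.le_of_ble_eq_true TEaL31_o
    · exact Nat.le_of_ble_eq_true TEaL32_o

theorem TEaUF3_t (σ : ℕ) : 2 * 256 * (1 + 7) * 2 ^ 6 ≤ TEaUF3 σ (2 * 2 ^ 6) 0 := by
  rcases σ with _ | σ
  · exact Nat.le_of_ble_eq_true TEaU30_t
  · rcases σ with _ | σ
    · exact Nat.le_of_ble_eq_true TEaU31_t
    · exact Nat.le_of_ble_eq_true TEaU32_t

theorem TEaUF3_b (σ : ℕ) : 2 * 256 * 7 * 2 ^ 6 ≤ TEaUF3 σ (2 * 2 ^ 6) 64 := by
  rcases σ with _ | σ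
  · exact Nat.le_of_ble_eq_true TEaU30_b
  · rcases σ with _ | σ
    · exact Nat.le_of_ble_eq_true TEaU31_b
    · exact Nat.le_of_ble_eq_true TEaU32_b

theorem TEaU40_c (i β : ℕ) (h : 64 ≤ β) : TEaU40 i β = TEaU40 i 64 := by
  have h1 : Nat.sub β (Nat.sub β 64) = 64 := by
    show β - (β - 64) = 64
    omega
  have h2 : Nat.sub 64 (Nat.sub 64 64) = 64 := rfl
  unfold TEaU40
  rw [h1, h2]

theorem TEaL40_c (i β : ℕ) (h : 64 ≤ β) : TEaL40 i β = TEaL40 i 64 := by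
  have h1 : Nat.sub β (Nat.sub β 64) = 64 := by
    show β - (β - 64) = 64
    omega
  have h2 : Nat.sub 64 (Nat.sub 64 64) = 64 := rfl
  unfold TEaL40
  rw [h1, h2]

theorem TEaU40_mono : ∀ i β β', 64 ≤ i → i ≤ 128 → β ≤ β' → TEaU40 i β' ≤ TEaU40 i β ∧
    TEaU40 i β ≤ TEaU40 i β' + 512 * (β' - β) :=
  monoE_sound TEaU40_m TEaU40_c

theorem TEaL40_mono (β : ℕ) : TEaL40 64 0 ≤ TEaL40 64 β + 1 * 256 * β := by
  have := (monoE_sound TEaL40_m TEaL40_c 64 0 β (by norm_num) (by norm_num) (Nat.zero_le _)).2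
  simpa using this

theorem TEaU41_c (i β : ℕ) (h : 64 ≤ β) : TEaU41 i β = TEaU41 i 64 := by
  have h1 : Nat.sub β (Nat.sub β 64) = 64 := by
    show β - (β - 64) = 64
    omega
  have h2 : Nat.sub 64 (Nat.sub 64 64) = 64 := rfl
  unfold TEaU41
  rw [h1, h2]

theorem TEaL41_c (i β : ℕ) (h : 64 ≤ β) : TEaL41 i β = TEaL41 i 64 := by
  have h1 : Nat.sub β (Nat.sub β 64) = 64 := by
    show β - (β - 64) = 64
    omega
  have h2 : Nat.sub 64 (Nat.sub 64 64) = 64 := rfl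
  unfold TEaL41
  rw [h1, h2]

theorem TEaU41_mono : ∀ i β β', 64 ≤ i → i ≤ 128 → β ≤ β' → TEaU41 i β' ≤ TEaU41 i β ∧
    TEaU41 i β ≤ TEaU41 i β' + 1024 * (β' - β) :=
  monoE_sound TEaU41_m TEaU41_c

theorem TEaL41_mono (β : ℕ) : TEaL41 64 0 ≤ TEaL41 64 β + 2 * 256 * β := by
  have := (monoE_sound TEaL41_m TEaL41_c 64 0 β (by norm_num) (by norm_num) (Nat.zero_le _)).2
  simpa using this

theorem TEaU42_c (i β : ℕ) (h : 64 ≤ β) : TEaU42 i β = TEaU42 i 64 := by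
  have h1 : Nat.sub β (Nat.sub β 64) = 64 := by
    show β - (β - 64) = 64
    omega
  have h2 : Nat.sub 64 (Nat.sub 64 64) = 64 := rfl
  unfold TEaU42
  rw [h1, h2]

theorem TEaL42_c (i β : ℕ) (h : 64 ≤ β) : TEaL42 i β = TEaL42 i 64 := by
  have h1 : Nat.sub β (Nat.sub β 64) = 64 := by
    show β - (β - 64) = 64
    omega
  have h2 : Nat.sub 64 (Nat.sub 64 64) = 64 := rfl
  unfold TEaL42
  rw [h1, h2]

theorem TEaU42_mono : ∀ i β β', 64 ≤ i → i ≤ 128 → β ≤ β' → TEaU42 i β' ≤ TEaU42 i β ∧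
    TEaU42 i β ≤ TEaU42 i β' + 2048 * (β' - β) :=
  monoE_sound TEaU42_m TEaU42_c

theorem TEaL42_mono (β : ℕ) : TEaL42 64 0 ≤ TEaL42 64 β + 4 * 256 * β := by
  have := (monoE_sound TEaL42_m TEaL42_c 64 0 β (by norm_num) (by norm_num) (Nat.zero_le _)).2
  simpa using this

theorem TEaUF4_mono (σ : ℕ) : ∀ i β β', 2 ^ 6 ≤ i → i ≤ 2 * 2 ^ 6 → β ≤ β' →
    TEaUF4 σ i β' ≤ TEaUF4 σ i β ∧
    TEaUF4 σ i β ≤ TEaUF4 σ i β' + 2 * TEar σ * 256 * (β' - β) := by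
  rcases σ with _ | σ
  · exact TEaU40_mono
  · rcases σ with _ | σ
    · exact TEaU41_mono
    · exact TEaU42_mono

theorem TEaLF4_mono (σ β : ℕ) : TEaLF4 σ (2 ^ 6) 0 ≤ TEaLF4 σ (2 ^ 6) β +
    TEar σ * 256 * β := by
  rcases σ with _ | σ
  · exact TEaL40_mono β
  · rcases σ with _ | σ
    · exact TEaL41_mono β
    · exact TEaL42_mono β

theorem TEaUF4_c (σ i β : ℕ) (h : 64 ≤ β) : TEaUF4 σ i β = TEaUF4 σ i 64 := by
  rcases σ with _ | σ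
  · exact TEaU40_c i β h
  · rcases σ with _ | σ
    · exact TEaU41_c i β h
    · exact TEaU42_c i β h

theorem TEaLF4_o (σ : ℕ) : 256 * 7 * 2 ^ 6 ≤ TEaLF4 σ (2 ^ 6) 0 := by
  rcases σ with _ | σ
  · exact Nat.le_of_ble_eq_true TEaL40_o
  · rcases σ with _ | σ
    · exact Nat.le_of_ble_eq_true TEaL41_o
    · exact Nat.le_of_ble_eq_true TEaL42_o

theorem TEaUF4_t (σ : ℕ) : 2 * 256 * (1 + 7) * 2 ^ 6 ≤ TEaUF4 σ (2 * 2 ^ 6) 0 := by
  rcases σ with _ | σ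
  · exact Nat.le_of_ble_eq_true TEaU40_t
  · rcases σ with _ | σ
    · exact Nat.le_of_ble_eq_true TEaU41_t
    · exact Nat.le_of_ble_eq_true TEaU42_t

theorem TEaUF4_b (σ : ℕ) : 2 * 256 * 7 * 2 ^ 6 ≤ TEaUF4 σ (2 * 2 ^ 6) 64 := by
  rcases σ with _ | σ
  · exact Nat.le_of_ble_eq_true TEaU40_b
  · rcases σ with _ | σ
    · exact Nat.le_of_ble_eq_true TEaU41_b
    · exact Nat.le_of_ble_eq_true TEaU42_b

theorem TEaU50_c (i β : ℕ) (h : 64 ≤ β) : TEaU50 i β = TEaU50 i 64 := by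
  have h1 : Nat.sub β (Nat.sub β 64) = 64 := by
    show β - (β - 64) = 64
    omega
  have h2 : Nat.sub 64 (Nat.sub 64 64) = 64 := rfl
  unfold TEaU50
  rw [h1, h2]

theorem TEaL50_c (i β : ℕ) (h : 64 ≤ β) : TEaL50 i β = TEaL50 i 64 := by
  have h1 : Nat.sub β (Nat.sub β 64) = 64 := by
    show β - (β - 64) = 64
    omega
  have h2 : Nat.sub 64 (Nat.sub 64 64) = 64 := rfl
  unfold TEaL50
  rw [h1, h2]

theorem TEaU50_mono : ∀ i β β', 64 ≤ i → i ≤ 128 → β ≤ β' → TEaU50 i β' ≤ TEaU50 i β ∧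
    TEaU50 i β ≤ TEaU50 i β' + 512 * (β' - β) :=
  monoE_sound TEaU50_m TEaU50_c

theorem TEaL50_mono (β : ℕ) : TEaL50 64 0 ≤ TEaL50 64 β + 1 * 256 * β := by
  have := (monoE_sound TEaL50_m TEaL50_c 64 0 β (by norm_num) (by norm_num) (Nat.zero_le _)).2
  simpa using this

theorem TEaU51_c (i β : ℕ) (h : 64 ≤ β) : TEaU51 i β = TEaU51 i 64 := by
  have h1 : Nat.sub β (Nat.sub β 64) = 64 := by
    show β - (β - 64) = 64
    omega
  have h2 : Nat.sub 64 (Nat.sub 64 64) = 64 := rfl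
  unfold TEaU51
  rw [h1, h2]

theorem TEaL51_c (i β : ℕ) (h : 64 ≤ β) : TEaL51 i β = TEaL51 i 64 := by
  have h1 : Nat.sub β (Nat.sub β 64) = 64 := by
    show β - (β - 64) = 64
    omega
  have h2 : Nat.sub 64 (Nat.sub 64 64) = 64 := rfl
  unfold TEaL51
  rw [h1, h2]

theorem TEaU51_mono : ∀ i β β', 64 ≤ i → i ≤ 128 → β ≤ β' → TEaU51 i β' ≤ TEaU51 i β ∧
    TEaU51 i β ≤ TEaU51 i β' + 1024 * (β' - β) :=
  monoE_sound TEaU51_m TEaU51_c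

theorem TEaL51_mono (β : ℕ) : TEaL51 64 0 ≤ TEaL51 64 β + 2 * 256 * β := by
  have := (monoE_sound TEaL51_m TEaL51_c 64 0 β (by norm_num) (by norm_num) (Nat.zero_le _)).2
  simpa using this

theorem TEaU52_c (i β : ℕ) (h : 64 ≤ β) : TEaU52 i β = TEaU52 i 64 := by
  have h1 : Nat.sub β (Nat.sub β 64) = 64 := by
    show β - (β - 64) = 64
    omega
  have h2 : Nat.sub 64 (Nat.sub 64 64) = 64 := rfl
  unfold TEaU52
  rw [h1, h2]

theorem TEaL52_c (i β : ℕ) (h : 64 ≤ β) : TEaL52 i β = TEaL52 i 64 := by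
  have h1 : Nat.sub β (Nat.sub β 64) = 64 := by
    show β - (β - 64) = 64
    omega
  have h2 : Nat.sub 64 (Nat.sub 64 64) = 64 := rfl
  unfold TEaL52
  rw [h1, h2]

theorem TEaU52_mono : ∀ i β β', 64 ≤ i → i ≤ 128 → β ≤ β' → TEaU52 i β' ≤ TEaU52 i β ∧
    TEaU52 i β ≤ TEaU52 i β' + 2048 * (β' - β) :=
  monoE_sound TEaU52_m TEaU52_c

theorem TEaL52_mono (β : ℕ) : TEaL52 64 0 ≤ TEaL52 64 β + 4 * 256 * β := by
  have := (monoE_sound TEaL52_m TEaL52_c 64 0 β (by norm_num) (by norm_num) (Nat.zero_le _)).2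
  simpa using this

theorem TEaUF5_mono (σ : ℕ) : ∀ i β β', 2 ^ 6 ≤ i → i ≤ 2 * 2 ^ 6 → β ≤ β' →
    TEaUF5 σ i β' ≤ TEaUF5 σ i β ∧
    TEaUF5 σ i β ≤ TEaUF5 σ i β' + 2 * TEar σ * 256 * (β' - β) := by
  rcases σ with _ | σ
  · exact TEaU50_mono
  · rcases σ with _ | σ
    · exact TEaU51_mono
    · exact TEaU52_mono

theorem TEaLF5_mono (σ β : ℕ) : TEaLF5 σ (2 ^ 6) 0 ≤ TEaLF5 σ (2 ^ 6) β +
    TEar σ * 256 * β := by
  rcases σ with _ | σ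
  · exact TEaL50_mono β
  · rcases σ with _ | σ
    · exact TEaL51_mono β
    · exact TEaL52_mono β

theorem TEaUF5_c (σ i β : ℕ) (h : 64 ≤ β) : TEaUF5 σ i β = TEaUF5 σ i 64 := by
  rcases σ with _ | σ
  · exact TEaU50_c i β h
  · rcases σ with _ | σ
    · exact TEaU51_c i β h
    · exact TEaU52_c i β h

theorem TEaLF5_o (σ : ℕ) : 256 * 7 * 2 ^ 6 ≤ TEaLF5 σ (2 ^ 6) 0 := by
  rcases σ with _ | σ
  · exact Nat.le_of_ble_eq_true TEaL50_o
  · rcases σ with _ | σ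
    · exact Nat.le_of_ble_eq_true TEaL51_o
    · exact Nat.le_of_ble_eq_true TEaL52_o

theorem TEaUF5_t (σ : ℕ) : 2 * 256 * (1 + 7) * 2 ^ 6 ≤ TEaUF5 σ (2 * 2 ^ 6) 0 := by
  rcases σ with _ | σ
  · exact Nat.le_of_ble_eq_true TEaU50_t
  · rcases σ with _ | σ
    · exact Nat.le_of_ble_eq_true TEaU51_t
    · exact Nat.le_of_ble_eq_true TEaU52_t

theorem TEaUF5_b (σ : ℕ) : 2 * 256 * 7 * 2 ^ 6 ≤ TEaUF5 σ (2 * 2 ^ 6) 64 := by
  rcases σ with _ | σ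
  · exact Nat.le_of_ble_eq_true TEaU50_b
  · rcases σ with _ | σ
    · exact Nat.le_of_ble_eq_true TEaU51_b
    · exact Nat.le_of_ble_eq_true TEaU52_b

theorem TEaUF1_f (σ : ℕ) : 2 * 256 * (1 + 7) * 2 ^ 6 ≤ TEaUF1 σ (2 * 2 ^ 6) 64 := by
  rcases σ with _ | σ
  · exact Nat.le_of_ble_eq_true TEaU10_f
  · rcases σ with _ | σ
    · exact Nat.le_of_ble_eq_true TEaU11_f
    · exact Nat.le_of_ble_eq_true TEaU12_f

theorem TEaF1_l (σ : ℕ) :
      (∀ i β, i ≤ 2 * 32 → 2 * 32 ≤ 2 * i →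
        TEaUF2 σ (2 * i) β ≤ 2 * TEaLF1 σ i β + 2 * 256 * i) ∧
      (∀ i β, 2 * i ≤ 2 * 32 → TEaLF2 σ (2 * i) (2 * β) ≤ 2 * TEaLF1 σ i β + 2 * 256 * i) ∧
      (∀ i β, i < 2 * 32 → 2 * 32 ≤ 2 * i + 1 →
        TEaUF2 σ (2 * i + 1) β ≤ TEaLF1 σ i β + TEaLF1 σ (i + 1) β + 256 * (2 * i + 1)) ∧
      (∀ i β, 2 * i + 1 ≤ 2 * 32 → TEaLF2 σ (2 * i + 1) (2 * β) ≤
        TEaLF1 σ i β + TEaLF1 σ (i + 1) β + 256 * (2 * i + 1)) := by
  rcases σ with _ | σ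
  · exact linkE_sound TEaL10_l TEaL10_c TEaL20_c TEaU20_c
  · rcases σ with _ | σ
    · exact linkE_sound TEaL11_l TEaL11_c TEaL21_c TEaU21_c
    · exact linkE_sound TEaL12_l TEaL12_c TEaL22_c TEaU22_c

theorem TEaF2_l (σ : ℕ) :
      (∀ i β, i ≤ 2 * 32 → 2 * 32 ≤ 2 * i →
        TEaUF3 σ (2 * i) β ≤ 2 * TEaLF2 σ i β + 2 * 256 * i) ∧
      (∀ i β, 2 * i ≤ 2 * 32 → TEaLF3 σ (2 * i) (2 * β) ≤ 2 * TEaLF2 σ i β + 2 * 256 * i) ∧
      (∀ i β, i < 2 * 32 → 2 * 32 ≤ 2 * i + 1 →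
        TEaUF3 σ (2 * i + 1) β ≤ TEaLF2 σ i β + TEaLF2 σ (i + 1) β + 256 * (2 * i + 1)) ∧
      (∀ i β, 2 * i + 1 ≤ 2 * 32 → TEaLF3 σ (2 * i + 1) (2 * β) ≤
        TEaLF2 σ i β + TEaLF2 σ (i + 1) β + 256 * (2 * i + 1)) := by
  rcases σ with _ | σ
  · exact linkE_sound TEaL20_l TEaL20_c TEaL30_c TEaU30_c
  · rcases σ with _ | σ
    · exact linkE_sound TEaL21_l TEaL21_c TEaL31_c TEaU31_c
    · exact linkE_sound TEaL22_l TEaL22_c TEaL32_c TEaU32_c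

theorem TEaF3_l (σ : ℕ) :
      (∀ i β, i ≤ 2 * 32 → 2 * 32 ≤ 2 * i →
        TEaUF4 σ (2 * i) β ≤ 2 * TEaLF3 σ i β + 2 * 256 * i) ∧
      (∀ i β, 2 * i ≤ 2 * 32 → TEaLF4 σ (2 * i) (2 * β) ≤ 2 * TEaLF3 σ i β + 2 * 256 * i) ∧
      (∀ i β, i < 2 * 32 → 2 * 32 ≤ 2 * i + 1 →
        TEaUF4 σ (2 * i + 1) β ≤ TEaLF3 σ i β + TEaLF3 σ (i + 1) β + 256 * (2 * i + 1)) ∧
      (∀ i β, 2 * i + 1 ≤ 2 * 32 → TEaLF4 σ (2 * i + 1) (2 * β) ≤
        TEaLF3 σ i β + TEaLF3 σ (i + 1) β + 256 * (2 * i + 1)) := by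
  rcases σ with _ | σ
  · exact linkE_sound TEaL30_l TEaL30_c TEaL40_c TEaU40_c
  · rcases σ with _ | σ
    · exact linkE_sound TEaL31_l TEaL31_c TEaL41_c TEaU41_c
    · exact linkE_sound TEaL32_l TEaL32_c TEaL42_c TEaU42_c

theorem TEaF4_l (σ : ℕ) :
      (∀ i β, i ≤ 2 * 32 → 2 * 32 ≤ 2 * i →
        TEaUF5 σ (2 * i) β ≤ 2 * TEaLF4 σ i β + 2 * 256 * i) ∧
      (∀ i β, 2 * i ≤ 2 * 32 → TEaLF5 σ (2 * i) (2 * β) ≤ 2 * TEaLF4 σ i β + 2 * 256 * i) ∧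
      (∀ i β, i < 2 * 32 → 2 * 32 ≤ 2 * i + 1 →
        TEaUF5 σ (2 * i + 1) β ≤ TEaLF4 σ i β + TEaLF4 σ (i + 1) β + 256 * (2 * i + 1)) ∧
      (∀ i β, 2 * i + 1 ≤ 2 * 32 → TEaLF5 σ (2 * i + 1) (2 * β) ≤
        TEaLF4 σ i β + TEaLF4 σ (i + 1) β + 256 * (2 * i + 1)) := by
  rcases σ with _ | σ
  · exact linkE_sound TEaL40_l TEaL40_c TEaL50_c TEaU50_c
  · rcases σ with _ | σ
    · exact linkE_sound TEaL41_l TEaL41_c TEaL51_c TEaU51_c
    · exact linkE_sound TEaL42_l TEaL42_c TEaL52_c TEaU52_c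

theorem TEaF5_l (σ : ℕ) :
      (∀ i β, i ≤ 2 * 32 → 2 * 32 ≤ 2 * i →
        TEaUF5 σ (2 * i) β ≤ 2 * TEaLF5 σ i β + 2 * 256 * i) ∧
      (∀ i β, 2 * i ≤ 2 * 32 → TEaLF5 σ (2 * i) (2 * β) ≤ 2 * TEaLF5 σ i β + 2 * 256 * i) ∧
      (∀ i β, i < 2 * 32 → 2 * 32 ≤ 2 * i + 1 →
        TEaUF5 σ (2 * i + 1) β ≤ TEaLF5 σ i β + TEaLF5 σ (i + 1) β + 256 * (2 * i + 1)) ∧
      (∀ i β, 2 * i + 1 ≤ 2 * 32 → TEaLF5 σ (2 * i + 1) (2 * β) ≤
        TEaLF5 σ i β + TEaLF5 σ (i + 1) β + 256 * (2 * i + 1)) := by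
  rcases σ with _ | σ
  · exact linkE_sound TEaL50_l TEaL50_c TEaL50_c TEaU50_c
  · rcases σ with _ | σ
    · exact linkE_sound TEaL51_l TEaL51_c TEaL51_c TEaU51_c
    · exact linkE_sound TEaL52_l TEaL52_c TEaL52_c TEaU52_c

theorem TEa_st010 (iK iW : ℕ) (h0 : 64 ≤ iK) (h1 : iK < 128) (h2 : iW ≤ iK) :
    CellP 1 256 1 TEaU10 TEar TEaUF1 TEaUF1 TEaLF1 64 128 256 iK iW := by
  rcases lt_or_ge iK 100 with g0 | g0
  · exact rowsE_sound (κ := 1) (c := 256) (r := 1) (m := 64) (n := 128) TEa_rc rfl (by norm_num)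
      (by norm_num) TEaU10_mono TEa_s010_64 iK iW (by omega) (by omega) h2
  rcases lt_or_ge iK 128 with g1 | g1
  · exact rowsE_sound (κ := 1) (c := 256) (r := 1) (m := 64) (n := 128) TEa_rc rfl (by norm_num)
      (by norm_num) TEaU10_mono TEa_s010_100 iK iW (by omega) (by omega) h2
  · omega

theorem TEa_st011 (iK iW : ℕ) (h0 : 64 ≤ iK) (h1 : iK < 128) (h2 : iW ≤ iK) :
    CellP 1 256 2 TEaU11 TEar TEaUF1 TEaUF1 TEaLF1 64 128 256 iK iW := by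
  rcases lt_or_ge iK 102 with g0 | g0
  · exact rowsE_sound (κ := 1) (c := 256) (r := 2) (m := 64) (n := 128) TEa_rc rfl (by norm_num)
      (by norm_num) TEaU11_mono TEa_s011_64 iK iW (by omega) (by omega) h2
  rcases lt_or_ge iK 128 with g1 | g1
  · exact rowsE_sound (κ := 1) (c := 256) (r := 2) (m := 64) (n := 128) TEa_rc rfl (by norm_num)
      (by norm_num) TEaU11_mono TEa_s011_102 iK iW (by omega) (by omega) h2
  · omega

theorem TEa_st012 (iK iW : ℕ) (h0 : 64 ≤ iK) (h1 : iK < 128) (h2 : iW ≤ iK) :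
    CellP 1 256 4 TEaU12 TEar TEaUF1 TEaUF1 TEaLF1 64 128 256 iK iW := by
  rcases lt_or_ge iK 102 with g0 | g0
  · exact rowsE_sound (κ := 1) (c := 256) (r := 4) (m := 64) (n := 128) TEa_rc rfl (by norm_num)
      (by norm_num) TEaU12_mono TEa_s012_64 iK iW (by omega) (by omega) h2
  rcases lt_or_ge iK 128 with g1 | g1
  · exact rowsE_sound (κ := 1) (c := 256) (r := 4) (m := 64) (n := 128) TEa_rc rfl (by norm_num)
      (by norm_num) TEaU12_mono TEa_s012_102 iK iW (by omega) (by omega) h2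
  · omega

theorem TEa_st020 (iK iW : ℕ) (h0 : 64 ≤ iK) (h1 : iK < 128) (h2 : iW ≤ iK) :
    CellP 1 256 1 TEaU20 TEar TEaUF2 TEaUF2 TEaLF2 64 128 256 iK iW := by
  rcases lt_or_ge iK 105 with g0 | g0
  · exact rowsE_sound (κ := 1) (c := 256) (r := 1) (m := 64) (n := 128) TEa_rc rfl (by norm_num)
      (by norm_num) TEaU20_mono TEa_s020_64 iK iW (by omega) (by omega) h2
  rcases lt_or_ge iK 128 with g1 | g1
  · exact rowsE_sound (κ := 1) (c := 256) (r := 1) (m := 64) (n := 128) TEa_rc rfl (by norm_num)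
      (by norm_num) TEaU20_mono TEa_s020_105 iK iW (by omega) (by omega) h2
  · omega

theorem TEa_st021 (iK iW : ℕ) (h0 : 64 ≤ iK) (h1 : iK < 128) (h2 : iW ≤ iK) :
    CellP 1 256 2 TEaU21 TEar TEaUF2 TEaUF2 TEaLF2 64 128 256 iK iW := by
  rcases lt_or_ge iK 97 with g0 | g0
  · exact rowsE_sound (κ := 1) (c := 256) (r := 2) (m := 64) (n := 128) TEa_rc rfl (by norm_num)
      (by norm_num) TEaU21_mono TEa_s021_64 iK iW (by omega) (by omega) h2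
  rcases lt_or_ge iK 114 with g1 | g1
  · exact rowsE_sound (κ := 1) (c := 256) (r := 2) (m := 64) (n := 128) TEa_rc rfl (by norm_num)
      (by norm_num) TEaU21_mono TEa_s021_97 iK iW (by omega) (by omega) h2
  rcases lt_or_ge iK 128 with g2 | g2
  · exact rowsE_sound (κ := 1) (c := 256) (r := 2) (m := 64) (n := 128) TEa_rc rfl (by norm_num)
      (by norm_num) TEaU21_mono TEa_s021_114 iK iW (by omega) (by omega) h2
  · omega

theorem TEa_st022 (iK iW : ℕ) (h0 : 64 ≤ iK) (h1 : iK < 128) (h2 : iW ≤ iK) :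
    CellP 1 256 4 TEaU22 TEar TEaUF2 TEaUF2 TEaLF2 64 128 256 iK iW := by
  rcases lt_or_ge iK 97 with g0 | g0
  · exact rowsE_sound (κ := 1) (c := 256) (r := 4) (m := 64) (n := 128) TEa_rc rfl (by norm_num)
      (by norm_num) TEaU22_mono TEa_s022_64 iK iW (by omega) (by omega) h2
  rcases lt_or_ge iK 114 with g1 | g1
  · exact rowsE_sound (κ := 1) (c := 256) (r := 4) (m := 64) (n := 128) TEa_rc rfl (by norm_num)
      (by norm_num) TEaU22_mono TEa_s022_97 iK iW (by omega) (by omega) h2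
  rcases lt_or_ge iK 128 with g2 | g2
  · exact rowsE_sound (κ := 1) (c := 256) (r := 4) (m := 64) (n := 128) TEa_rc rfl (by norm_num)
      (by norm_num) TEaU22_mono TEa_s022_114 iK iW (by omega) (by omega) h2
  · omega

theorem TEa_st030 (iK iW : ℕ) (h0 : 64 ≤ iK) (h1 : iK < 128) (h2 : iW ≤ iK) :
    CellP 1 256 1 TEaU30 TEar TEaUF3 TEaUF3 TEaLF3 64 128 256 iK iW := by
  rcases lt_or_ge iK 97 with g0 | g0
  · exact rowsE_sound (κ := 1) (c := 256) (r := 1) (m := 64) (n := 128) TEa_rc rfl (by norm_num)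
      (by norm_num) TEaU30_mono TEa_s030_64 iK iW (by omega) (by omega) h2
  rcases lt_or_ge iK 115 with g1 | g1
  · exact rowsE_sound (κ := 1) (c := 256) (r := 1) (m := 64) (n := 128) TEa_rc rfl (by norm_num)
      (by norm_num) TEaU30_mono TEa_s030_97 iK iW (by omega) (by omega) h2
  rcases lt_or_ge iK 128 with g2 | g2
  · exact rowsE_sound (κ := 1) (c := 256) (r := 1) (m := 64) (n := 128) TEa_rc rfl (by norm_num)
      (by norm_num) TEaU30_mono TEa_s030_115 iK iW (by omega) (by omega) h2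
  · omega

theorem TEa_st031 (iK iW : ℕ) (h0 : 64 ≤ iK) (h1 : iK < 128) (h2 : iW ≤ iK) :
    CellP 1 256 2 TEaU31 TEar TEaUF3 TEaUF3 TEaLF3 64 128 256 iK iW := by
  rcases lt_or_ge iK 97 with g0 | g0
  · exact rowsE_sound (κ := 1) (c := 256) (r := 2) (m := 64) (n := 128) TEa_rc rfl (by norm_num)
      (by norm_num) TEaU31_mono TEa_s031_64 iK iW (by omega) (by omega) h2
  rcases lt_or_ge iK 114 with g1 | g1
  · exact rowsE_sound (κ := 1) (c := 256) (r := 2) (m := 64) (n := 128) TEa_rc rfl (by norm_num)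
      (by norm_num) TEaU31_mono TEa_s031_97 iK iW (by omega) (by omega) h2
  rcases lt_or_ge iK 128 with g2 | g2
  · exact rowsE_sound (κ := 1) (c := 256) (r := 2) (m := 64) (n := 128) TEa_rc rfl (by norm_num)
      (by norm_num) TEaU31_mono TEa_s031_114 iK iW (by omega) (by omega) h2
  · omega

theorem TEa_st032 (iK iW : ℕ) (h0 : 64 ≤ iK) (h1 : iK < 128) (h2 : iW ≤ iK) :
    CellP 1 256 4 TEaU32 TEar TEaUF3 TEaUF3 TEaLF3 64 128 256 iK iW := by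
  rcases lt_or_ge iK 97 with g0 | g0
  · exact rowsE_sound (κ := 1) (c := 256) (r := 4) (m := 64) (n := 128) TEa_rc rfl (by norm_num)
      (by norm_num) TEaU32_mono TEa_s032_64 iK iW (by omega) (by omega) h2
  rcases lt_or_ge iK 115 with g1 | g1
  · exact rowsE_sound (κ := 1) (c := 256) (r := 4) (m := 64) (n := 128) TEa_rc rfl (by norm_num)
      (by norm_num) TEaU32_mono TEa_s032_97 iK iW (by omega) (by omega) h2
  rcases lt_or_ge iK 128 with g2 | g2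
  · exact rowsE_sound (κ := 1) (c := 256) (r := 4) (m := 64) (n := 128) TEa_rc rfl (by norm_num)
      (by norm_num) TEaU32_mono TEa_s032_115 iK iW (by omega) (by omega) h2
  · omega

theorem TEa_st040 (iK iW : ℕ) (h0 : 64 ≤ iK) (h1 : iK < 128) (h2 : iW ≤ iK) :
    CellP 1 256 1 TEaU40 TEar TEaUF4 TEaUF4 TEaLF4 64 128 256 iK iW := by
  rcases lt_or_ge iK 97 with g0 | g0
  · exact rowsE_sound (κ := 1) (c := 256) (r := 1) (m := 64) (n := 128) TEa_rc rfl (by norm_num)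
      (by norm_num) TEaU40_mono TEa_s040_64 iK iW (by omega) (by omega) h2
  rcases lt_or_ge iK 116 with g1 | g1
  · exact rowsE_sound (κ := 1) (c := 256) (r := 1) (m := 64) (n := 128) TEa_rc rfl (by norm_num)
      (by norm_num) TEaU40_mono TEa_s040_97 iK iW (by omega) (by omega) h2
  rcases lt_or_ge iK 128 with g2 | g2
  · exact rowsE_sound (κ := 1) (c := 256) (r := 1) (m := 64) (n := 128) TEa_rc rfl (by norm_num)
      (by norm_num) TEaU40_mono TEa_s040_116 iK iW (by omega) (by omega) h2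
  · omega

theorem TEa_st041 (iK iW : ℕ) (h0 : 64 ≤ iK) (h1 : iK < 128) (h2 : iW ≤ iK) :
    CellP 1 256 2 TEaU41 TEar TEaUF4 TEaUF4 TEaLF4 64 128 256 iK iW := by
  rcases lt_or_ge iK 98 with g0 | g0
  · exact rowsE_sound (κ := 1) (c := 256) (r := 2) (m := 64) (n := 128) TEa_rc rfl (by norm_num)
      (by norm_num) TEaU41_mono TEa_s041_64 iK iW (by omega) (by omega) h2
  rcases lt_or_ge iK 115 with g1 | g1
  · exact rowsE_sound (κ := 1) (c := 256) (r := 2) (m := 64) (n := 128) TEa_rc rfl (by norm_num)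
      (by norm_num) TEaU41_mono TEa_s041_98 iK iW (by omega) (by omega) h2
  rcases lt_or_ge iK 128 with g2 | g2
  · exact rowsE_sound (κ := 1) (c := 256) (r := 2) (m := 64) (n := 128) TEa_rc rfl (by norm_num)
      (by norm_num) TEaU41_mono TEa_s041_115 iK iW (by omega) (by omega) h2
  · omega

theorem TEa_st042 (iK iW : ℕ) (h0 : 64 ≤ iK) (h1 : iK < 128) (h2 : iW ≤ iK) :
    CellP 1 256 4 TEaU42 TEar TEaUF4 TEaUF4 TEaLF4 64 128 256 iK iW := by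
  rcases lt_or_ge iK 93 with g0 | g0
  · exact rowsE_sound (κ := 1) (c := 256) (r := 4) (m := 64) (n := 128) TEa_rc rfl (by norm_num)
      (by norm_num) TEaU42_mono TEa_s042_64 iK iW (by omega) (by omega) h2
  rcases lt_or_ge iK 107 with g1 | g1
  · exact rowsE_sound (κ := 1) (c := 256) (r := 4) (m := 64) (n := 128) TEa_rc rfl (by norm_num)
      (by norm_num) TEaU42_mono TEa_s042_93 iK iW (by omega) (by omega) h2
  rcases lt_or_ge iK 120 with g2 | g2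
  · exact rowsE_sound (κ := 1) (c := 256) (r := 4) (m := 64) (n := 128) TEa_rc rfl (by norm_num)
      (by norm_num) TEaU42_mono TEa_s042_107 iK iW (by omega) (by omega) h2
  rcases lt_or_ge iK 128 with g3 | g3
  · exact rowsE_sound (κ := 1) (c := 256) (r := 4) (m := 64) (n := 128) TEa_rc rfl (by norm_num)
      (by norm_num) TEaU42_mono TEa_s042_120 iK iW (by omega) (by omega) h2
  · omega

theorem TEa_st050 (iK iW : ℕ) (h0 : 64 ≤ iK) (h1 : iK < 128) (h2 : iW ≤ iK) :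
    CellP 1 256 1 TEaU50 TEar TEaUF5 TEaUF5 TEaLF5 64 128 256 iK iW := by
  rcases lt_or_ge iK 97 with g0 | g0
  · exact rowsE_sound (κ := 1) (c := 256) (r := 1) (m := 64) (n := 128) TEa_rc rfl (by norm_num)
      (by norm_num) TEaU50_mono TEa_s050_64 iK iW (by omega) (by omega) h2
  rcases lt_or_ge iK 116 with g1 | g1
  · exact rowsE_sound (κ := 1) (c := 256) (r := 1) (m := 64) (n := 128) TEa_rc rfl (by norm_num)
      (by norm_num) TEaU50_mono TEa_s050_97 iK iW (by omega) (by omega) h2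
  rcases lt_or_ge iK 128 with g2 | g2
  · exact rowsE_sound (κ := 1) (c := 256) (r := 1) (m := 64) (n := 128) TEa_rc rfl (by norm_num)
      (by norm_num) TEaU50_mono TEa_s050_116 iK iW (by omega) (by omega) h2
  · omega

theorem TEa_st051 (iK iW : ℕ) (h0 : 64 ≤ iK) (h1 : iK < 128) (h2 : iW ≤ iK) :
    CellP 1 256 2 TEaU51 TEar TEaUF5 TEaUF5 TEaLF5 64 128 256 iK iW := by
  rcases lt_or_ge iK 98 with g0 | g0
  · exact rowsE_sound (κ := 1) (c := 256) (r := 2) (m := 64) (n := 128) TEa_rc rfl (by norm_num)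
      (by norm_num) TEaU51_mono TEa_s051_64 iK iW (by omega) (by omega) h2
  rcases lt_or_ge iK 115 with g1 | g1
  · exact rowsE_sound (κ := 1) (c := 256) (r := 2) (m := 64) (n := 128) TEa_rc rfl (by norm_num)
      (by norm_num) TEaU51_mono TEa_s051_98 iK iW (by omega) (by omega) h2
  rcases lt_or_ge iK 128 with g2 | g2
  · exact rowsE_sound (κ := 1) (c := 256) (r := 2) (m := 64) (n := 128) TEa_rc rfl (by norm_num)
      (by norm_num) TEaU51_mono TEa_s051_115 iK iW (by omega) (by omega) h2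
  · omega

theorem TEa_st052 (iK iW : ℕ) (h0 : 64 ≤ iK) (h1 : iK < 128) (h2 : iW ≤ iK) :
    CellP 1 256 4 TEaU52 TEar TEaUF5 TEaUF5 TEaLF5 64 128 256 iK iW := by
  rcases lt_or_ge iK 93 with g0 | g0
  · exact rowsE_sound (κ := 1) (c := 256) (r := 4) (m := 64) (n := 128) TEa_rc rfl (by norm_num)
      (by norm_num) TEaU52_mono TEa_s052_64 iK iW (by omega) (by omega) h2
  rcases lt_or_ge iK 107 with g1 | g1
  · exact rowsE_sound (κ := 1) (c := 256) (r := 4) (m := 64) (n := 128) TEa_rc rfl (by norm_num)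
      (by norm_num) TEaU52_mono TEa_s052_93 iK iW (by omega) (by omega) h2
  rcases lt_or_ge iK 120 with g2 | g2
  · exact rowsE_sound (κ := 1) (c := 256) (r := 4) (m := 64) (n := 128) TEa_rc rfl (by norm_num)
      (by norm_num) TEaU52_mono TEa_s052_107 iK iW (by omega) (by omega) h2
  rcases lt_or_ge iK 128 with g3 | g3
  · exact rowsE_sound (κ := 1) (c := 256) (r := 4) (m := 64) (n := 128) TEa_rc rfl (by norm_num)
      (by norm_num) TEaU52_mono TEa_s052_120 iK iW (by omega) (by omega) h2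
  · omega

theorem TEa_st110 (iK iW : ℕ) (h0 : 64 ≤ iK) (h1 : iK < 128) (h2 : iW ≤ iK) :
    CellP 0 256 1 TEaU20 TEar TEaUF1 TEaUF1 TEaLF1 64 64 128 iK iW := by
  rcases lt_or_ge iK 128 with g0 | g0
  · exact rowsE_sound (κ := 0) (c := 256) (r := 1) (m := 64) (n := 128) TEa_rc rfl (by norm_num)
      (by norm_num) TEaU20_mono TEa_s110_64 iK iW (by omega) (by omega) h2
  · omega

theorem TEa_st111 (iK iW : ℕ) (h0 : 64 ≤ iK) (h1 : iK < 128) (h2 : iW ≤ iK) :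
    CellP 0 256 2 TEaU21 TEar TEaUF1 TEaUF1 TEaLF1 64 64 128 iK iW := by
  rcases lt_or_ge iK 128 with g0 | g0
  · exact rowsE_sound (κ := 0) (c := 256) (r := 2) (m := 64) (n := 128) TEa_rc rfl (by norm_num)
      (by norm_num) TEaU21_mono TEa_s111_64 iK iW (by omega) (by omega) h2
  · omega

theorem TEa_st112 (iK iW : ℕ) (h0 : 64 ≤ iK) (h1 : iK < 128) (h2 : iW ≤ iK) :
    CellP 0 256 4 TEaU22 TEar TEaUF1 TEaUF1 TEaLF1 64 64 128 iK iW := by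
  rcases lt_or_ge iK 128 with g0 | g0
  · exact rowsE_sound (κ := 0) (c := 256) (r := 4) (m := 64) (n := 128) TEa_rc rfl (by norm_num)
      (by norm_num) TEaU22_mono TEa_s112_64 iK iW (by omega) (by omega) h2
  · omega

theorem TEa_st120 (iK iW : ℕ) (h0 : 64 ≤ iK) (h1 : iK < 128) (h2 : iW ≤ iK) :
    CellP 0 256 1 TEaU30 TEar TEaUF2 TEaUF2 TEaLF2 64 64 128 iK iW := by
  rcases lt_or_ge iK 128 with g0 | g0
  · exact rowsE_sound (κ := 0) (c := 256) (r := 1) (m := 64) (n := 128) TEa_rc rfl (by norm_num)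
      (by norm_num) TEaU30_mono TEa_s120_64 iK iW (by omega) (by omega) h2
  · omega

theorem TEa_st121 (iK iW : ℕ) (h0 : 64 ≤ iK) (h1 : iK < 128) (h2 : iW ≤ iK) :
    CellP 0 256 2 TEaU31 TEar TEaUF2 TEaUF2 TEaLF2 64 64 128 iK iW := by
  rcases lt_or_ge iK 128 with g0 | g0
  · exact rowsE_sound (κ := 0) (c := 256) (r := 2) (m := 64) (n := 128) TEa_rc rfl (by norm_num)
      (by norm_num) TEaU31_mono TEa_s121_64 iK iW (by omega) (by omega) h2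
  · omega

theorem TEa_st122 (iK iW : ℕ) (h0 : 64 ≤ iK) (h1 : iK < 128) (h2 : iW ≤ iK) :
    CellP 0 256 4 TEaU32 TEar TEaUF2 TEaUF2 TEaLF2 64 64 128 iK iW := by
  rcases lt_or_ge iK 85 with g0 | g0
  · exact rowsE_sound (κ := 0) (c := 256) (r := 4) (m := 64) (n := 128) TEa_rc rfl (by norm_num)
      (by norm_num) TEaU32_mono TEa_s122_64 iK iW (by omega) (by omega) h2
  rcases lt_or_ge iK 128 with g1 | g1
  · exact rowsE_sound (κ := 0) (c := 256) (r := 4) (m := 64) (n := 128) TEa_rc rfl (by norm_num)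
      (by norm_num) TEaU32_mono TEa_s122_85 iK iW (by omega) (by omega) h2
  · omega

theorem TEa_st130 (iK iW : ℕ) (h0 : 64 ≤ iK) (h1 : iK < 128) (h2 : iW ≤ iK) :
    CellP 0 256 1 TEaU40 TEar TEaUF3 TEaUF3 TEaLF3 64 64 128 iK iW := by
  rcases lt_or_ge iK 128 with g0 | g0
  · exact rowsE_sound (κ := 0) (c := 256) (r := 1) (m := 64) (n := 128) TEa_rc rfl (by norm_num)
      (by norm_num) TEaU40_mono TEa_s130_64 iK iW (by omega) (by omega) h2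
  · omega

theorem TEa_st131 (iK iW : ℕ) (h0 : 64 ≤ iK) (h1 : iK < 128) (h2 : iW ≤ iK) :
    CellP 0 256 2 TEaU41 TEar TEaUF3 TEaUF3 TEaLF3 64 64 128 iK iW := by
  rcases lt_or_ge iK 128 with g0 | g0
  · exact rowsE_sound (κ := 0) (c := 256) (r := 2) (m := 64) (n := 128) TEa_rc rfl (by norm_num)
      (by norm_num) TEaU41_mono TEa_s131_64 iK iW (by omega) (by omega) h2
  · omega

theorem TEa_st132 (iK iW : ℕ) (h0 : 64 ≤ iK) (h1 : iK < 128) (h2 : iW ≤ iK) :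
    CellP 0 256 4 TEaU42 TEar TEaUF3 TEaUF3 TEaLF3 64 64 128 iK iW := by
  rcases lt_or_ge iK 128 with g0 | g0
  · exact rowsE_sound (κ := 0) (c := 256) (r := 4) (m := 64) (n := 128) TEa_rc rfl (by norm_num)
      (by norm_num) TEaU42_mono TEa_s132_64 iK iW (by omega) (by omega) h2
  · omega

theorem TEa_st140 (iK iW : ℕ) (h0 : 64 ≤ iK) (h1 : iK < 128) (h2 : iW ≤ iK) :
    CellP 0 256 1 TEaU50 TEar TEaUF4 TEaUF4 TEaLF4 64 64 128 iK iW := by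
  rcases lt_or_ge iK 128 with g0 | g0
  · exact rowsE_sound (κ := 0) (c := 256) (r := 1) (m := 64) (n := 128) TEa_rc rfl (by norm_num)
      (by norm_num) TEaU50_mono TEa_s140_64 iK iW (by omega) (by omega) h2
  · omega

theorem TEa_st141 (iK iW : ℕ) (h0 : 64 ≤ iK) (h1 : iK < 128) (h2 : iW ≤ iK) :
    CellP 0 256 2 TEaU51 TEar TEaUF4 TEaUF4 TEaLF4 64 64 128 iK iW := by
  rcases lt_or_ge iK 128 with g0 | g0
  · exact rowsE_sound (κ := 0) (c := 256) (r := 2) (m := 64) (n := 128) TEa_rc rfl (by norm_num)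
      (by norm_num) TEaU51_mono TEa_s141_64 iK iW (by omega) (by omega) h2
  · omega

theorem TEa_st142 (iK iW : ℕ) (h0 : 64 ≤ iK) (h1 : iK < 128) (h2 : iW ≤ iK) :
    CellP 0 256 4 TEaU52 TEar TEaUF4 TEaUF4 TEaLF4 64 64 128 iK iW := by
  rcases lt_or_ge iK 128 with g0 | g0
  · exact rowsE_sound (κ := 0) (c := 256) (r := 4) (m := 64) (n := 128) TEa_rc rfl (by norm_num)
      (by norm_num) TEaU52_mono TEa_s142_64 iK iW (by omega) (by omega) h2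
  · omega

theorem TEa_st150 (iK iW : ℕ) (h0 : 64 ≤ iK) (h1 : iK < 128) (h2 : iW ≤ iK) :
    CellP 0 256 1 TEaU50 TEar TEaUF5 TEaUF5 TEaLF5 64 64 128 iK iW := by
  rcases lt_or_ge iK 128 with g0 | g0
  · exact rowsE_sound (κ := 0) (c := 256) (r := 1) (m := 64) (n := 128) TEa_rc rfl (by norm_num)
      (by norm_num) TEaU50_mono TEa_s150_64 iK iW (by omega) (by omega) h2
  · omega

theorem TEa_st151 (iK iW : ℕ) (h0 : 64 ≤ iK) (h1 : iK < 128) (h2 : iW ≤ iK) :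
    CellP 0 256 2 TEaU51 TEar TEaUF5 TEaUF5 TEaLF5 64 64 128 iK iW := by
  rcases lt_or_ge iK 128 with g0 | g0
  · exact rowsE_sound (κ := 0) (c := 256) (r := 2) (m := 64) (n := 128) TEa_rc rfl (by norm_num)
      (by norm_num) TEaU51_mono TEa_s151_64 iK iW (by omega) (by omega) h2
  · omega

theorem TEa_st152 (iK iW : ℕ) (h0 : 64 ≤ iK) (h1 : iK < 128) (h2 : iW ≤ iK) :
    CellP 0 256 4 TEaU52 TEar TEaUF5 TEaUF5 TEaLF5 64 64 128 iK iW := by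
  rcases lt_or_ge iK 128 with g0 | g0
  · exact rowsE_sound (κ := 0) (c := 256) (r := 4) (m := 64) (n := 128) TEa_rc rfl (by norm_num)
      (by norm_num) TEaU52_mono TEa_s152_64 iK iW (by omega) (by omega) h2
  · omega

theorem TEa_S01 (σ iK iW : ℕ) (h0 : 2 ^ 6 ≤ iK) (h1 : iK < 2 * 2 ^ 6) (h2 : iW ≤ iK) :
    CellP 1 256 (TEar σ) (TEaUF1 σ) TEar TEaUF1 TEaUF1 TEaLF1 (2 ^ 6) (2 * 2 ^ 6) (4 * 2 ^ 6) iK iW := by
  rcases σ with _ | σ
  · exact TEa_st010 iK iW h0 h1 h2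
  · rcases σ with _ | σ
    · exact TEa_st011 iK iW h0 h1 h2
    · exact TEa_st012 iK iW h0 h1 h2

theorem TEa_S02 (σ iK iW : ℕ) (h0 : 2 ^ 6 ≤ iK) (h1 : iK < 2 * 2 ^ 6) (h2 : iW ≤ iK) :
    CellP 1 256 (TEar σ) (TEaUF2 σ) TEar TEaUF2 TEaUF2 TEaLF2 (2 ^ 6) (2 * 2 ^ 6) (4 * 2 ^ 6) iK iW := by
  rcases σ with _ | σ
  · exact TEa_st020 iK iW h0 h1 h2
  · rcases σ with _ | σ
    · exact TEa_st021 iK iW h0 h1 h2
    · exact TEa_st022 iK iW h0 h1 h2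

theorem TEa_S03 (σ iK iW : ℕ) (h0 : 2 ^ 6 ≤ iK) (h1 : iK < 2 * 2 ^ 6) (h2 : iW ≤ iK) :
    CellP 1 256 (TEar σ) (TEaUF3 σ) TEar TEaUF3 TEaUF3 TEaLF3 (2 ^ 6) (2 * 2 ^ 6) (4 * 2 ^ 6) iK iW := by
  rcases σ with _ | σ
  · exact TEa_st030 iK iW h0 h1 h2
  · rcases σ with _ | σ
    · exact TEa_st031 iK iW h0 h1 h2
    · exact TEa_st032 iK iW h0 h1 h2

theorem TEa_S04 (σ iK iW : ℕ) (h0 : 2 ^ 6 ≤ iK) (h1 : iK < 2 * 2 ^ 6) (h2 : iW ≤ iK) :
    CellP 1 256 (TEar σ) (TEaUF4 σ) TEar TEaUF4 TEaUF4 TEaLF4 (2 ^ 6) (2 * 2 ^ 6) (4 * 2 ^ 6) iK iW := by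
  rcases σ with _ | σ
  · exact TEa_st040 iK iW h0 h1 h2
  · rcases σ with _ | σ
    · exact TEa_st041 iK iW h0 h1 h2
    · exact TEa_st042 iK iW h0 h1 h2

theorem TEa_S05 (σ iK iW : ℕ) (h0 : 2 ^ 6 ≤ iK) (h1 : iK < 2 * 2 ^ 6) (h2 : iW ≤ iK) :
    CellP 1 256 (TEar σ) (TEaUF5 σ) TEar TEaUF5 TEaUF5 TEaLF5 (2 ^ 6) (2 * 2 ^ 6) (4 * 2 ^ 6) iK iW := by
  rcases σ with _ | σ
  · exact TEa_st050 iK iW h0 h1 h2
  · rcases σ with _ | σ
    · exact TEa_st051 iK iW h0 h1 h2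
    · exact TEa_st052 iK iW h0 h1 h2

theorem TEa_S11 (σ iK iW : ℕ) (h0 : 2 ^ 6 ≤ iK) (h1 : iK < 2 * 2 ^ 6) (h2 : iW ≤ iK) :
    CellP 0 256 (TEar σ) (TEaUF2 σ) TEar TEaUF1 TEaUF1 TEaLF1 (2 ^ 6) (2 ^ 6) (2 * 2 ^ 6) iK iW := by
  rcases σ with _ | σ
  · exact TEa_st110 iK iW h0 h1 h2
  · rcases σ with _ | σ
    · exact TEa_st111 iK iW h0 h1 h2
    · exact TEa_st112 iK iW h0 h1 h2

theorem TEa_S12 (σ iK iW : ℕ) (h0 : 2 ^ 6 ≤ iK) (h1 : iK < 2 * 2 ^ 6) (h2 : iW ≤ iK) :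
    CellP 0 256 (TEar σ) (TEaUF3 σ) TEar TEaUF2 TEaUF2 TEaLF2 (2 ^ 6) (2 ^ 6) (2 * 2 ^ 6) iK iW := by
  rcases σ with _ | σ
  · exact TEa_st120 iK iW h0 h1 h2
  · rcases σ with _ | σ
    · exact TEa_st121 iK iW h0 h1 h2
    · exact TEa_st122 iK iW h0 h1 h2

theorem TEa_S13 (σ iK iW : ℕ) (h0 : 2 ^ 6 ≤ iK) (h1 : iK < 2 * 2 ^ 6) (h2 : iW ≤ iK) :
    CellP 0 256 (TEar σ) (TEaUF4 σ) TEar TEaUF3 TEaUF3 TEaLF3 (2 ^ 6) (2 ^ 6) (2 * 2 ^ 6) iK iW := by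
  rcases σ with _ | σ
  · exact TEa_st130 iK iW h0 h1 h2
  · rcases σ with _ | σ
    · exact TEa_st131 iK iW h0 h1 h2
    · exact TEa_st132 iK iW h0 h1 h2

theorem TEa_S14 (σ iK iW : ℕ) (h0 : 2 ^ 6 ≤ iK) (h1 : iK < 2 * 2 ^ 6) (h2 : iW ≤ iK) :
    CellP 0 256 (TEar σ) (TEaUF5 σ) TEar TEaUF4 TEaUF4 TEaLF4 (2 ^ 6) (2 ^ 6) (2 * 2 ^ 6) iK iW := by
  rcases σ with _ | σ
  · exact TEa_st140 iK iW h0 h1 h2
  · rcases σ with _ | σ
    · exact TEa_st141 iK iW h0 h1 h2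
    · exact TEa_st142 iK iW h0 h1 h2

theorem TEa_S15 (σ iK iW : ℕ) (h0 : 2 ^ 6 ≤ iK) (h1 : iK < 2 * 2 ^ 6) (h2 : iW ≤ iK) :
    CellP 0 256 (TEar σ) (TEaUF5 σ) TEar TEaUF5 TEaUF5 TEaLF5 (2 ^ 6) (2 ^ 6) (2 * 2 ^ 6) iK iW := by
  rcases σ with _ | σ
  · exact TEa_st150 iK iW h0 h1 h2
  · rcases σ with _ | σ
    · exact TEa_st151 iK iW h0 h1 h2
    · exact TEa_st152 iK iW h0 h1 h2

/-- the arrays are upper bounds -/
theorem TEa_oct : OctE 6 7 256 TEar (fun k σ i β => (TEaUS k σ i β : ℤ))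
    (fun k σ i β => (TEaLS k σ i β : ℤ)) := by
  refine octE_of_step (ν := 7) (K := 5) (B := 64) (H := 32) (by norm_num) (by norm_num)
    (fun k hk => ?_) (fun k hk => ?_) (fun k σ h1 h2 => ?_) (fun k σ h1 h2 β => ?_)
    (fun k σ i β h1 h2 hβ => ?_) (fun k σ h1 h2 => ?_) (fun σ => TEaUF1_f σ)
    (fun k σ h1 h2 => ?_) (fun k σ h1 h2 => ?_) (fun k σ iK iW h1 h2 h3 h4 h5 => ?_)
    (fun k σ iK iW h1 h2 h3 h4 h5 => ?_) (fun k σ h1 h2 => ?_)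
  · obtain ⟨j, rfl⟩ := Nat.exists_eq_add_of_le hk
    rw [Nat.add_comm]
    rfl
  · obtain ⟨j, rfl⟩ := Nat.exists_eq_add_of_le hk
    rw [Nat.add_comm]
    rfl
  · have hk : k = 1 ∨ k = 2 ∨ k = 3 ∨ k = 4 ∨ k = 5 := by omega
    rcases hk with rfl | rfl | rfl | rfl | rfl
    · exact TEaUF1_mono σ
    · exact TEaUF2_mono σ
    · exact TEaUF3_mono σ
    · exact TEaUF4_mono σ
    · exact TEaUF5_mono σ
  · have hk : k = 1 ∨ k = 2 ∨ k = 3 ∨ k = 4 ∨ k = 5 := by omega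
    rcases hk with rfl | rfl | rfl | rfl | rfl
    · exact TEaLF1_mono σ β
    · exact TEaLF2_mono σ β
    · exact TEaLF3_mono σ β
    · exact TEaLF4_mono σ β
    · exact TEaLF5_mono σ β
  · have hk : k = 1 ∨ k = 2 ∨ k = 3 ∨ k = 4 ∨ k = 5 := by omega
    rcases hk with rfl | rfl | rfl | rfl | rfl
    · exact TEaUF1_c σ i β hβ
    · exact TEaUF2_c σ i β hβ
    · exact TEaUF3_c σ i β hβ
    · exact TEaUF4_c σ i β hβ
    · exact TEaUF5_c σ i β hβ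
  · have hk : k = 1 ∨ k = 2 ∨ k = 3 ∨ k = 4 ∨ k = 5 := by omega
    rcases hk with rfl | rfl | rfl | rfl | rfl
    · exact TEaLF1_o σ
    · exact TEaLF2_o σ
    · exact TEaLF3_o σ
    · exact TEaLF4_o σ
    · exact TEaLF5_o σ
  · have hk : k = 1 ∨ k = 2 ∨ k = 3 ∨ k = 4 ∨ k = 5 := by omega
    rcases hk with rfl | rfl | rfl | rfl | rfl
    · exact TEaUF1_t σ
    · exact TEaUF2_t σ
    · exact TEaUF3_t σ
    · exact TEaUF4_t σ
    · exact TEaUF5_t σ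
  · have hk : k = 1 ∨ k = 2 ∨ k = 3 ∨ k = 4 ∨ k = 5 := by omega
    rcases hk with rfl | rfl | rfl | rfl | rfl
    · exact TEaUF1_b σ
    · exact TEaUF2_b σ
    · exact TEaUF3_b σ
    · exact TEaUF4_b σ
    · exact TEaUF5_b σ
  · have hk : k = 1 ∨ k = 2 ∨ k = 3 ∨ k = 4 ∨ k = 5 := by omega
    rcases hk with rfl | rfl | rfl | rfl | rfl
    · exact TEa_S01 σ iK iW h3 h4 h5
    · exact TEa_S02 σ iK iW h3 h4 h5
    · exact TEa_S03 σ iK iW h3 h4 h5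
    · exact TEa_S04 σ iK iW h3 h4 h5
    · exact TEa_S05 σ iK iW h3 h4 h5
  · have hk : k = 1 ∨ k = 2 ∨ k = 3 ∨ k = 4 ∨ k = 5 := by omega
    rcases hk with rfl | rfl | rfl | rfl | rfl
    · exact TEa_S11 σ iK iW h3 h4 h5
    · exact TEa_S12 σ iK iW h3 h4 h5
    · exact TEa_S13 σ iK iW h3 h4 h5
    · exact TEa_S14 σ iK iW h3 h4 h5
    · exact TEa_S15 σ iK iW h3 h4 h5
  · have hk : k = 1 ∨ k = 2 ∨ k = 3 ∨ k = 4 ∨ k = 5 := by omega
    rcases hk with rfl | rfl | rfl | rfl | rfl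
    · exact TEaF1_l σ
    · exact TEaF2_l σ
    · exact TEaF3_l σ
    · exact TEaF4_l σ
    · exact TEaF5_l σ

end Pool.Agent.EdgeIso.Cell
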