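import Pool.Agent.Lib.MP_48c8f3_co.TEg0
import Pool.Agent.Lib.MP_48c8f3_co.TEg1
import Pool.Agent.Lib.MP_48c8f3_co.TEg2
import Pool.Agent.Lib.MP_48c8f3_co.TEa_F

set_option autoImplicit false
set_option maxRecDepth 100000

/-! Tables below the octave arrays, in Gamma form, checked by the kernel (machine made). -/

namespace Pool.Agent.EdgeIso.Chk

open Pool.Agent.EdgeIso.Frame Pool.Agent.EdgeIso.Cell

theorem TEgo_1_0 : Nat.ble (256 * 7 * 2 ^ 6) (TEaUF1 0 (2 ^ 6) 0) = true := by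
  decide +kernel

theorem TEgo_1_1 : Nat.ble (256 * 7 * 2 ^ 6) (TEaUF1 1 (2 ^ 6) 0) = true := by
  decide +kernel

theorem TEgo_1_2 : Nat.ble (256 * 7 * 2 ^ 6) (TEaUF1 2 (2 ^ 6) 0) = true := by
  decide +kernel

theorem TEgo_1 (σ β : ℕ) : 256 * 7 * 2 ^ 6 ≤ TEaUF1 σ (2 ^ 6) β + TEar σ * 256 * (2 * β) := by
  have h1 := (TEaUF1_mono σ (2 ^ 6) 0 β le_rfl (by norm_num) (Nat.zero_le _)).2
  have h2 : 256 * 7 * 2 ^ 6 ≤ TEaUF1 σ (2 ^ 6) 0 := by
    rcases σ with _ | σ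
    · exact Nat.le_of_ble_eq_true TEgo_1_0
    · rcases σ with _ | σ
      · exact Nat.le_of_ble_eq_true TEgo_1_1
      · exact Nat.le_of_ble_eq_true TEgo_1_2
  rw [Nat.sub_zero] at h1
  calc _ ≤ _ := h2.trans h1
    _ = _ := by ring

theorem TEgo_2_0 : Nat.ble (256 * 7 * 2 ^ 6) (TEaUF2 0 (2 ^ 6) 0) = true := by
  decide +kernel

theorem TEgo_2_1 : Nat.ble (256 * 7 * 2 ^ 6) (TEaUF2 1 (2 ^ 6) 0) = true := by
  decide +kernel

theorem TEgo_2_2 : Nat.ble (256 * 7 * 2 ^ 6) (TEaUF2 2 (2 ^ 6) 0) = true := by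
  decide +kernel

theorem TEgo_2 (σ β : ℕ) : 256 * 7 * 2 ^ 6 ≤ TEaUF2 σ (2 ^ 6) β + TEar σ * 256 * (2 * β) := by
  have h1 := (TEaUF2_mono σ (2 ^ 6) 0 β le_rfl (by norm_num) (Nat.zero_le _)).2
  have h2 : 256 * 7 * 2 ^ 6 ≤ TEaUF2 σ (2 ^ 6) 0 := by
    rcases σ with _ | σ
    · exact Nat.le_of_ble_eq_true TEgo_2_0
    · rcases σ with _ | σ
      · exact Nat.le_of_ble_eq_true TEgo_2_1
      · exact Nat.le_of_ble_eq_true TEgo_2_2
  rw [Nat.sub_zero] at h1
  calc _ ≤ _ := h2.trans h1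
    _ = _ := by ring

theorem TEgo_3_0 : Nat.ble (256 * 7 * 2 ^ 6) (TEaUF3 0 (2 ^ 6) 0) = true := by
  decide +kernel

theorem TEgo_3_1 : Nat.ble (256 * 7 * 2 ^ 6) (TEaUF3 1 (2 ^ 6) 0) = true := by
  decide +kernel

theorem TEgo_3_2 : Nat.ble (256 * 7 * 2 ^ 6) (TEaUF3 2 (2 ^ 6) 0) = true := by
  decide +kernel

theorem TEgo_3 (σ β : ℕ) : 256 * 7 * 2 ^ 6 ≤ TEaUF3 σ (2 ^ 6) β + TEar σ * 256 * (2 * β) := by
  have h1 := (TEaUF3_mono σ (2 ^ 6) 0 β le_rfl (by norm_num) (Nat.zero_le _)).2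
  have h2 : 256 * 7 * 2 ^ 6 ≤ TEaUF3 σ (2 ^ 6) 0 := by
    rcases σ with _ | σ
    · exact Nat.le_of_ble_eq_true TEgo_3_0
    · rcases σ with _ | σ
      · exact Nat.le_of_ble_eq_true TEgo_3_1
      · exact Nat.le_of_ble_eq_true TEgo_3_2
  rw [Nat.sub_zero] at h1
  calc _ ≤ _ := h2.trans h1
    _ = _ := by ring

theorem TEgo_4_0 : Nat.ble (256 * 7 * 2 ^ 6) (TEaUF4 0 (2 ^ 6) 0) = true := by
  decide +kernel

theorem TEgo_4_1 : Nat.ble (256 * 7 * 2 ^ 6) (TEaUF4 1 (2 ^ 6) 0) = true := by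
  decide +kernel

theorem TEgo_4_2 : Nat.ble (256 * 7 * 2 ^ 6) (TEaUF4 2 (2 ^ 6) 0) = true := by
  decide +kernel

theorem TEgo_4 (σ β : ℕ) : 256 * 7 * 2 ^ 6 ≤ TEaUF4 σ (2 ^ 6) β + TEar σ * 256 * (2 * β) := by
  have h1 := (TEaUF4_mono σ (2 ^ 6) 0 β le_rfl (by norm_num) (Nat.zero_le _)).2
  have h2 : 256 * 7 * 2 ^ 6 ≤ TEaUF4 σ (2 ^ 6) 0 := by
    rcases σ with _ | σ
    · exact Nat.le_of_ble_eq_true TEgo_4_0
    · rcases σ with _ | σ
      · exact Nat.le_of_ble_eq_true TEgo_4_1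
      · exact Nat.le_of_ble_eq_true TEgo_4_2
  rw [Nat.sub_zero] at h1
  calc _ ≤ _ := h2.trans h1
    _ = _ := by ring

theorem TEgo_5_0 : Nat.ble (256 * 7 * 2 ^ 6) (TEaUF5 0 (2 ^ 6) 0) = true := by
  decide +kernel

theorem TEgo_5_1 : Nat.ble (256 * 7 * 2 ^ 6) (TEaUF5 1 (2 ^ 6) 0) = true := by
  decide +kernel

theorem TEgo_5_2 : Nat.ble (256 * 7 * 2 ^ 6) (TEaUF5 2 (2 ^ 6) 0) = true := by
  decide +kernel

theorem TEgo_5 (σ β : ℕ) : 256 * 7 * 2 ^ 6 ≤ TEaUF5 σ (2 ^ 6) β + TEar σ * 256 * (2 * β) := by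
  have h1 := (TEaUF5_mono σ (2 ^ 6) 0 β le_rfl (by norm_num) (Nat.zero_le _)).2
  have h2 : 256 * 7 * 2 ^ 6 ≤ TEaUF5 σ (2 ^ 6) 0 := by
    rcases σ with _ | σ
    · exact Nat.le_of_ble_eq_true TEgo_5_0
    · rcases σ with _ | σ
      · exact Nat.le_of_ble_eq_true TEgo_5_1
      · exact Nat.le_of_ble_eq_true TEgo_5_2
  rw [Nat.sub_zero] at h1
  calc _ ≤ _ := h2.trans h1
    _ = _ := by ring

theorem TEaUS_st (k : ℕ) (hk : 5 ≤ k) : TEaUS k = TEaUS 5 := by
  obtain ⟨j, rfl⟩ := Nat.exists_eq_add_of_le hk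
  rw [Nat.add_comm]
  rfl

theorem TEgo (k σ β : ℕ) (hk : 1 ≤ k) :
    256 * 7 * 2 ^ 6 ≤ TEaUS k σ (2 ^ 6) β + TEar σ * 256 * (2 * β) := by
  rcases Nat.lt_or_ge k 5 with h | h
  · have hk : k = 1 ∨ k = 2 ∨ k = 3 ∨ k = 4 := by omega
    rcases hk with rfl | rfl | rfl | rfl
    · exact TEgo_1 σ β
    · exact TEgo_2 σ β
    · exact TEgo_3 σ β
    · exact TEgo_4 σ β
  · rw [TEaUS_st k h]
    exact TEgo_5 σ β

variable {α : Type*} [DecidableEq α]

/-- level 1, slope 1 -/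
theorem TEgG10_rows : LBnd α (fun N x v L => ∀ R, N = R + 1 → 0 ≤ v → 2 ^ R ≤ x → x ≤ 2 * 2 ^ R →
    Rows 28 28 6 TEgG10 129 R x v (gamL R x L)) := by
  intro s X hX v hv hvx R hN h0 h1 h2
  exact rows_of_octE (P := fun k => k = 1) (σ := 0) (r := 64) (t := 7) TEa_oct TEgo (by norm_num) (by norm_num)
    (B := 65) (by norm_num) (by norm_num) (fun k hk => by omega)
    (fun k hk => by rw [hk]; exact TEgG10_1) s X hX v hv hvx R 1 hN rfl h0 h1 h2

/-- level 1, slope 2 -/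
theorem TEgG11_rows : LBnd α (fun N x v L => ∀ R, N = R + 1 → 0 ≤ v → 2 ^ R ≤ x → x ≤ 2 * 2 ^ R →
    Rows 28 56 6 TEgG11 129 R x v (gamL R x L)) := by
  intro s X hX v hv hvx R hN h0 h1 h2
  exact rows_of_octE (P := fun k => k = 1) (σ := 1) (r := 64) (t := 7) TEa_oct TEgo (by norm_num) (by norm_num)
    (B := 65) (by norm_num) (by norm_num) (fun k hk => by omega)
    (fun k hk => by rw [hk]; exact TEgG11_1) s X hX v hv hvx R 1 hN rfl h0 h1 h2

/-- level 1, slope 4 -/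
theorem TEgG12_rows : LBnd α (fun N x v L => ∀ R, N = R + 1 → 0 ≤ v → 2 ^ R ≤ x → x ≤ 2 * 2 ^ R →
    Rows 28 112 6 TEgG12 129 R x v (gamL R x L)) := by
  intro s X hX v hv hvx R hN h0 h1 h2
  exact rows_of_octE (P := fun k => k = 1) (σ := 2) (r := 64) (t := 7) TEa_oct TEgo (by norm_num) (by norm_num)
    (B := 65) (by norm_num) (by norm_num) (fun k hk => by omega)
    (fun k hk => by rw [hk]; exact TEgG12_1) s X hX v hv hvx R 1 hN rfl h0 h1 h2

/-- level 2, slope 1 -/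
theorem TEgG20_rows : LBnd α (fun N x v L => ∀ R, N = R + 2 → 0 ≤ v → 2 ^ R ≤ x → x ≤ 2 * 2 ^ R →
    Rows 28 28 6 TEgG20 129 R x v (gamL R x L)) := by
  intro s X hX v hv hvx R hN h0 h1 h2
  exact rows_of_octE (P := fun k => k = 2) (σ := 0) (r := 64) (t := 7) TEa_oct TEgo (by norm_num) (by norm_num)
    (B := 65) (by norm_num) (by norm_num) (fun k hk => by omega)
    (fun k hk => by rw [hk]; exact TEgG20_2) s X hX v hv hvx R 2 hN rfl h0 h1 h2

/-- level 2, slope 2 -/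
theorem TEgG21_rows : LBnd α (fun N x v L => ∀ R, N = R + 2 → 0 ≤ v → 2 ^ R ≤ x → x ≤ 2 * 2 ^ R →
    Rows 28 56 6 TEgG21 129 R x v (gamL R x L)) := by
  intro s X hX v hv hvx R hN h0 h1 h2
  exact rows_of_octE (P := fun k => k = 2) (σ := 1) (r := 64) (t := 7) TEa_oct TEgo (by norm_num) (by norm_num)
    (B := 65) (by norm_num) (by norm_num) (fun k hk => by omega)
    (fun k hk => by rw [hk]; exact TEgG21_2) s X hX v hv hvx R 2 hN rfl h0 h1 h2

/-- level 2, slope 4 -/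
theorem TEgG22_rows : LBnd α (fun N x v L => ∀ R, N = R + 2 → 0 ≤ v → 2 ^ R ≤ x → x ≤ 2 * 2 ^ R →
    Rows 28 112 6 TEgG22 129 R x v (gamL R x L)) := by
  intro s X hX v hv hvx R hN h0 h1 h2
  exact rows_of_octE (P := fun k => k = 2) (σ := 2) (r := 64) (t := 7) TEa_oct TEgo (by norm_num) (by norm_num)
    (B := 65) (by norm_num) (by norm_num) (fun k hk => by omega)
    (fun k hk => by rw [hk]; exact TEgG22_2) s X hX v hv hvx R 2 hN rfl h0 h1 h2

/-- level 3, slope 1 -/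
theorem TEgG30_rows : LBnd α (fun N x v L => ∀ R, N = R + 3 → 0 ≤ v → 2 ^ R ≤ x → x ≤ 2 * 2 ^ R →
    Rows 28 28 6 TEgG30 129 R x v (gamL R x L)) := by
  intro s X hX v hv hvx R hN h0 h1 h2
  exact rows_of_octE (P := fun k => k = 3) (σ := 0) (r := 64) (t := 7) TEa_oct TEgo (by norm_num) (by norm_num)
    (B := 65) (by norm_num) (by norm_num) (fun k hk => by omega)
    (fun k hk => by rw [hk]; exact TEgG30_3) s X hX v hv hvx R 3 hN rfl h0 h1 h2

/-- level 3, slope 2 -/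
theorem TEgG31_rows : LBnd α (fun N x v L => ∀ R, N = R + 3 → 0 ≤ v → 2 ^ R ≤ x → x ≤ 2 * 2 ^ R →
    Rows 28 56 6 TEgG31 129 R x v (gamL R x L)) := by
  intro s X hX v hv hvx R hN h0 h1 h2
  exact rows_of_octE (P := fun k => k = 3) (σ := 1) (r := 64) (t := 7) TEa_oct TEgo (by norm_num) (by norm_num)
    (B := 65) (by norm_num) (by norm_num) (fun k hk => by omega)
    (fun k hk => by rw [hk]; exact TEgG31_3) s X hX v hv hvx R 3 hN rfl h0 h1 h2

/-- level 3, slope 4 -/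
theorem TEgG32_rows : LBnd α (fun N x v L => ∀ R, N = R + 3 → 0 ≤ v → 2 ^ R ≤ x → x ≤ 2 * 2 ^ R →
    Rows 28 112 6 TEgG32 129 R x v (gamL R x L)) := by
  intro s X hX v hv hvx R hN h0 h1 h2
  exact rows_of_octE (P := fun k => k = 3) (σ := 2) (r := 64) (t := 7) TEa_oct TEgo (by norm_num) (by norm_num)
    (B := 65) (by norm_num) (by norm_num) (fun k hk => by omega)
    (fun k hk => by rw [hk]; exact TEgG32_3) s X hX v hv hvx R 3 hN rfl h0 h1 h2

/-- level 4, slope 2 -/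
theorem TEgG41_rows : LBnd α (fun N x v L => ∀ R, N = R + 4 → 0 ≤ v → 2 ^ R ≤ x → x ≤ 2 * 2 ^ R →
    Rows 28 56 6 TEgG41 129 R x v (gamL R x L)) := by
  intro s X hX v hv hvx R hN h0 h1 h2
  exact rows_of_octE (P := fun k => k = 4) (σ := 1) (r := 64) (t := 7) TEa_oct TEgo (by norm_num) (by norm_num)
    (B := 65) (by norm_num) (by norm_num) (fun k hk => by omega)
    (fun k hk => by rw [hk]; exact TEgG41_4) s X hX v hv hvx R 4 hN rfl h0 h1 h2

/-- level 4, slope 4 -/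
theorem TEgG42_rows : LBnd α (fun N x v L => ∀ R, N = R + 4 → 0 ≤ v → 2 ^ R ≤ x → x ≤ 2 * 2 ^ R →
    Rows 28 112 6 TEgG42 129 R x v (gamL R x L)) := by
  intro s X hX v hv hvx R hN h0 h1 h2
  exact rows_of_octE (P := fun k => k = 4) (σ := 2) (r := 64) (t := 7) TEa_oct TEgo (by norm_num) (by norm_num)
    (B := 65) (by norm_num) (by norm_num) (fun k hk => by omega)
    (fun k hk => by rw [hk]; exact TEgG42_4) s X hX v hv hvx R 4 hN rfl h0 h1 h2

/-- all levels at least 5, slope 1 -/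
theorem TEgG50_rows : LBnd α (fun N x v L => ∀ R k, N = R + k → 5 ≤ k → 0 ≤ v → 2 ^ R ≤ x →
    x ≤ 2 * 2 ^ R → Rows 28 28 6 TEgG50 129 R x v (gamL R x L)) := by
  intro s X hX v hv hvx R k hN hk h0 h1 h2
  exact rows_of_octE (P := fun k => 5 ≤ k) (σ := 0) (r := 64) (t := 7) TEa_oct TEgo (by norm_num) (by norm_num)
    (B := 65) (by norm_num) (by norm_num) (fun k hk => by omega)
    (fun k hk => by
      rw [TEaUS_st k hk]
      exact TEgG50_5) s X hX v hv hvx R k hN hk h0 h1 h2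

/-- all levels at least 5, slope 2 -/
theorem TEgG51_rows : LBnd α (fun N x v L => ∀ R k, N = R + k → 5 ≤ k → 0 ≤ v → 2 ^ R ≤ x →
    x ≤ 2 * 2 ^ R → Rows 28 56 6 TEgG51 129 R x v (gamL R x L)) := by
  intro s X hX v hv hvx R k hN hk h0 h1 h2
  exact rows_of_octE (P := fun k => 5 ≤ k) (σ := 1) (r := 64) (t := 7) TEa_oct TEgo (by norm_num) (by norm_num)
    (B := 65) (by norm_num) (by norm_num) (fun k hk => by omega)
    (fun k hk => by
      rw [TEaUS_st k hk]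
      exact TEgG51_5) s X hX v hv hvx R k hN hk h0 h1 h2

/-- all levels at least 5, slope 4 -/
theorem TEgG52_rows : LBnd α (fun N x v L => ∀ R k, N = R + k → 5 ≤ k → 0 ≤ v → 2 ^ R ≤ x →
    x ≤ 2 * 2 ^ R → Rows 28 112 6 TEgG52 129 R x v (gamL R x L)) := by
  intro s X hX v hv hvx R k hN hk h0 h1 h2
  exact rows_of_octE (P := fun k => 5 ≤ k) (σ := 2) (r := 64) (t := 7) TEa_oct TEgo (by norm_num) (by norm_num)
    (B := 65) (by norm_num) (by norm_num) (fun k hk => by omega)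
    (fun k hk => by
      rw [TEaUS_st k hk]
      exact TEgG52_5) s X hX v hv hvx R k hN hk h0 h1 h2

/-- all levels at least 2, slope 2 -/
theorem TEgH21_rows : LBnd α (fun N x v L => ∀ R k, N = R + k → 2 ≤ k → 0 ≤ v → 2 ^ R ≤ x →
    x ≤ 2 * 2 ^ R → Rows 28 56 6 TEgH21 129 R x v (gamL R x L)) := by
  intro s X hX v hv hvx R k hN hk h0 h1 h2
  exact rows_of_octE (P := fun k => 2 ≤ k) (σ := 1) (r := 64) (t := 7) TEa_oct TEgo (by norm_num) (by norm_num)
    (B := 65) (by norm_num) (by norm_num) (fun k hk => by omega)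
    (fun k hk => by
      rcases Nat.lt_or_ge k 5 with h | h
      · have hk' : k = 2 ∨ k = 3 ∨ k = 4 := by omega
        rcases hk' with rfl | rfl | rfl
        · exact TEgH21_2
        · exact TEgH21_3
        · exact TEgH21_4
      · rw [TEaUS_st k h]
        exact TEgH21_5) s X hX v hv hvx R k hN hk h0 h1 h2

/-- all levels at least 2, slope 4 -/
theorem TEgH22_rows : LBnd α (fun N x v L => ∀ R k, N = R + k → 2 ≤ k → 0 ≤ v → 2 ^ R ≤ x →
    x ≤ 2 * 2 ^ R → Rows 28 112 6 TEgH22 129 R x v (gamL R x L)) := by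
  intro s X hX v hv hvx R k hN hk h0 h1 h2
  exact rows_of_octE (P := fun k => 2 ≤ k) (σ := 2) (r := 64) (t := 7) TEa_oct TEgo (by norm_num) (by norm_num)
    (B := 65) (by norm_num) (by norm_num) (fun k hk => by omega)
    (fun k hk => by
      rcases Nat.lt_or_ge k 5 with h | h
      · have hk' : k = 2 ∨ k = 3 ∨ k = 4 := by omega
        rcases hk' with rfl | rfl | rfl
        · exact TEgH22_2
        · exact TEgH22_3
        · exact TEgH22_4
      · rw [TEaUS_st k h]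
        exact TEgH22_5) s X hX v hv hvx R k hN hk h0 h1 h2

/-- all levels at least 3, slope 1 -/
theorem TEgH30_rows : LBnd α (fun N x v L => ∀ R k, N = R + k → 3 ≤ k → 0 ≤ v → 2 ^ R ≤ x →
    x ≤ 2 * 2 ^ R → Rows 28 28 6 TEgH30 129 R x v (gamL R x L)) := by
  intro s X hX v hv hvx R k hN hk h0 h1 h2
  exact rows_of_octE (P := fun k => 3 ≤ k) (σ := 0) (r := 64) (t := 7) TEa_oct TEgo (by norm_num) (by norm_num)
    (B := 65) (by norm_num) (by norm_num) (fun k hk => by omega)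
    (fun k hk => by
      rcases Nat.lt_or_ge k 5 with h | h
      · have hk' : k = 3 ∨ k = 4 := by omega
        rcases hk' with rfl | rfl
        · exact TEgH30_3
        · exact TEgH30_4
      · rw [TEaUS_st k h]
        exact TEgH30_5) s X hX v hv hvx R k hN hk h0 h1 h2

/-- all levels at least 3, slope 2 -/
theorem TEgH31_rows : LBnd α (fun N x v L => ∀ R k, N = R + k → 3 ≤ k → 0 ≤ v → 2 ^ R ≤ x →
    x ≤ 2 * 2 ^ R → Rows 28 56 6 TEgH31 129 R x v (gamL R x L)) := by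
  intro s X hX v hv hvx R k hN hk h0 h1 h2
  exact rows_of_octE (P := fun k => 3 ≤ k) (σ := 1) (r := 64) (t := 7) TEa_oct TEgo (by norm_num) (by norm_num)
    (B := 65) (by norm_num) (by norm_num) (fun k hk => by omega)
    (fun k hk => by
      rcases Nat.lt_or_ge k 5 with h | h
      · have hk' : k = 3 ∨ k = 4 := by omega
        rcases hk' with rfl | rfl
        · exact TEgH31_3
        · exact TEgH31_4
      · rw [TEaUS_st k h]
        exact TEgH31_5) s X hX v hv hvx R k hN hk h0 h1 h2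

/-- all levels at least 3, slope 4 -/
theorem TEgH32_rows : LBnd α (fun N x v L => ∀ R k, N = R + k → 3 ≤ k → 0 ≤ v → 2 ^ R ≤ x →
    x ≤ 2 * 2 ^ R → Rows 28 112 6 TEgH32 129 R x v (gamL R x L)) := by
  intro s X hX v hv hvx R k hN hk h0 h1 h2
  exact rows_of_octE (P := fun k => 3 ≤ k) (σ := 2) (r := 64) (t := 7) TEa_oct TEgo (by norm_num) (by norm_num)
    (B := 65) (by norm_num) (by norm_num) (fun k hk => by omega)
    (fun k hk => by
      rcases Nat.lt_or_ge k 5 with h | h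
      · have hk' : k = 3 ∨ k = 4 := by omega
        rcases hk' with rfl | rfl
        · exact TEgH32_3
        · exact TEgH32_4
      · rw [TEaUS_st k h]
        exact TEgH32_5) s X hX v hv hvx R k hN hk h0 h1 h2

/-- all levels at least 4, slope 1 -/
theorem TEgH40_rows : LBnd α (fun N x v L => ∀ R k, N = R + k → 4 ≤ k → 0 ≤ v → 2 ^ R ≤ x →
    x ≤ 2 * 2 ^ R → Rows 28 28 6 TEgH40 129 R x v (gamL R x L)) := by
  intro s X hX v hv hvx R k hN hk h0 h1 h2
  exact rows_of_octE (P := fun k => 4 ≤ k) (σ := 0) (r := 64) (t := 7) TEa_oct TEgo (by norm_num) (by norm_num)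
    (B := 65) (by norm_num) (by norm_num) (fun k hk => by omega)
    (fun k hk => by
      rcases Nat.lt_or_ge k 5 with h | h
      · have hk' : k = 4 := by omega
        rw [hk']
        exact TEgH40_4
      · rw [TEaUS_st k h]
        exact TEgH40_5) s X hX v hv hvx R k hN hk h0 h1 h2

/-- all levels at least 4, slope 2 -/
theorem TEgH41_rows : LBnd α (fun N x v L => ∀ R k, N = R + k → 4 ≤ k → 0 ≤ v → 2 ^ R ≤ x →
    x ≤ 2 * 2 ^ R → Rows 28 56 6 TEgH41 129 R x v (gamL R x L)) := by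
  intro s X hX v hv hvx R k hN hk h0 h1 h2
  exact rows_of_octE (P := fun k => 4 ≤ k) (σ := 1) (r := 64) (t := 7) TEa_oct TEgo (by norm_num) (by norm_num)
    (B := 65) (by norm_num) (by norm_num) (fun k hk => by omega)
    (fun k hk => by
      rcases Nat.lt_or_ge k 5 with h | h
      · have hk' : k = 4 := by omega
        rw [hk']
        exact TEgH41_4
      · rw [TEaUS_st k h]
        exact TEgH41_5) s X hX v hv hvx R k hN hk h0 h1 h2

/-- all levels at least 4, slope 4 -/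
theorem TEgH42_rows : LBnd α (fun N x v L => ∀ R k, N = R + k → 4 ≤ k → 0 ≤ v → 2 ^ R ≤ x →
    x ≤ 2 * 2 ^ R → Rows 28 112 6 TEgH42 129 R x v (gamL R x L)) := by
  intro s X hX v hv hvx R k hN hk h0 h1 h2
  exact rows_of_octE (P := fun k => 4 ≤ k) (σ := 2) (r := 64) (t := 7) TEa_oct TEgo (by norm_num) (by norm_num)
    (B := 65) (by norm_num) (by norm_num) (fun k hk => by omega)
    (fun k hk => by
      rcases Nat.lt_or_ge k 5 with h | h
      · have hk' : k = 4 := by omega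
        rw [hk']
        exact TEgH42_4
      · rw [TEaUS_st k h]
        exact TEgH42_5) s X hX v hv hvx R k hN hk h0 h1 h2

end Pool.Agent.EdgeIso.Chk
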