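import Pool.Agent.Lib.MP_48c8f3_co.Bas
import Pool.Agent.Lib.MP_48c8f3_co.K3H
import Pool.Agent.Lib.MP_48c8f3_co.TEgt
import Pool.Agent.Lib.MP_48c8f3_co.K3Sc

set_option autoImplicit false
set_option linter.unusedSectionVars false
set_option linter.unusedVariables false

/-!
MP_48c8f3_co: the tables of the root (machine made).
-/

namespace Pool.Agent.EdgeIso.Chk.CoreK3

open Finset Pool.Agent.EdgeIso.Frame Pool.Agent.EdgeIso.Cell Pool.Agent.EdgeIso.Walsh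
  Pool.Agent.EdgeIso.Smooth

variable {α : Type*} [DecidableEq α] {R : ℕ} {F : Frame.Num}

theorem eq_tbG1_0 : tbG1_0 = TEgG10 := by decide +kernel

theorem small_tbG1_0 : smallOK tbG1_0 28 = true := by decide +kernel

theorem rows_tbG1_0 : LBnd α (fun N x v L => ∀ R k, N = R + k → k = 1 → 0 ≤ v → 2 ^ R ≤ x → x ≤ 2 * 2 ^ R →
    Rows 28 28 6 tbG1_0 129 R x v (gamL R x L)) := by
  rw [eq_tbG1_0]
  intro s X hX v hv hvx R k hN hk
  subst hk
  exact TEgG10_rows s X hX v hv hvx R hN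

theorem eq_tbG1_1 : tbG1_1 = TEgG11 := by decide +kernel

theorem small_tbG1_1 : smallOK tbG1_1 56 = true := by decide +kernel

theorem rows_tbG1_1 : LBnd α (fun N x v L => ∀ R k, N = R + k → k = 1 → 0 ≤ v → 2 ^ R ≤ x → x ≤ 2 * 2 ^ R →
    Rows 28 56 6 tbG1_1 129 R x v (gamL R x L)) := by
  rw [eq_tbG1_1]
  intro s X hX v hv hvx R k hN hk
  subst hk
  exact TEgG11_rows s X hX v hv hvx R hN

theorem eq_tbG1_2 : tbG1_2 = TEgG12 := by decide +kernel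

theorem small_tbG1_2 : smallOK tbG1_2 112 = true := by decide +kernel

theorem rows_tbG1_2 : LBnd α (fun N x v L => ∀ R k, N = R + k → k = 1 → 0 ≤ v → 2 ^ R ≤ x → x ≤ 2 * 2 ^ R →
    Rows 28 112 6 tbG1_2 129 R x v (gamL R x L)) := by
  rw [eq_tbG1_2]
  intro s X hX v hv hvx R k hN hk
  subst hk
  exact TEgG12_rows s X hX v hv hvx R hN

theorem eq_tbG2_0 : tbG2_0 = TEgG20 := by decide +kernel

theorem small_tbG2_0 : smallOK tbG2_0 28 = true := by decide +kernel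

theorem rows_tbG2_0 : LBnd α (fun N x v L => ∀ R k, N = R + k → k = 2 → 0 ≤ v → 2 ^ R ≤ x → x ≤ 2 * 2 ^ R →
    Rows 28 28 6 tbG2_0 129 R x v (gamL R x L)) := by
  rw [eq_tbG2_0]
  intro s X hX v hv hvx R k hN hk
  subst hk
  exact TEgG20_rows s X hX v hv hvx R hN

theorem eq_tbG2_1 : tbG2_1 = TEgG21 := by decide +kernel

theorem small_tbG2_1 : smallOK tbG2_1 56 = true := by decide +kernel

theorem rows_tbG2_1 : LBnd α (fun N x v L => ∀ R k, N = R + k → k = 2 → 0 ≤ v → 2 ^ R ≤ x → x ≤ 2 * 2 ^ R →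
    Rows 28 56 6 tbG2_1 129 R x v (gamL R x L)) := by
  rw [eq_tbG2_1]
  intro s X hX v hv hvx R k hN hk
  subst hk
  exact TEgG21_rows s X hX v hv hvx R hN

theorem eq_tbG3_0 : tbG3_0 = TEgG30 := by decide +kernel

theorem small_tbG3_0 : smallOK tbG3_0 28 = true := by decide +kernel

theorem rows_tbG3_0 : LBnd α (fun N x v L => ∀ R k, N = R + k → k = 3 → 0 ≤ v → 2 ^ R ≤ x → x ≤ 2 * 2 ^ R →
    Rows 28 28 6 tbG3_0 129 R x v (gamL R x L)) := by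
  rw [eq_tbG3_0]
  intro s X hX v hv hvx R k hN hk
  subst hk
  exact TEgG30_rows s X hX v hv hvx R hN

theorem eq_tbG3_1 : tbG3_1 = TEgG31 := by decide +kernel

theorem small_tbG3_1 : smallOK tbG3_1 56 = true := by decide +kernel

theorem rows_tbG3_1 : LBnd α (fun N x v L => ∀ R k, N = R + k → k = 3 → 0 ≤ v → 2 ^ R ≤ x → x ≤ 2 * 2 ^ R →
    Rows 28 56 6 tbG3_1 129 R x v (gamL R x L)) := by
  rw [eq_tbG3_1]
  intro s X hX v hv hvx R k hN hk
  subst hk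
  exact TEgG31_rows s X hX v hv hvx R hN

theorem eq_tbG3_2 : tbG3_2 = TEgG32 := by decide +kernel

theorem small_tbG3_2 : smallOK tbG3_2 112 = true := by decide +kernel

theorem rows_tbG3_2 : LBnd α (fun N x v L => ∀ R k, N = R + k → k = 3 → 0 ≤ v → 2 ^ R ≤ x → x ≤ 2 * 2 ^ R →
    Rows 28 112 6 tbG3_2 129 R x v (gamL R x L)) := by
  rw [eq_tbG3_2]
  intro s X hX v hv hvx R k hN hk
  subst hk
  exact TEgG32_rows s X hX v hv hvx R hN

theorem eq_tbG4_1 : tbG4_1 = TEgG41 := by decide +kernel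

theorem small_tbG4_1 : smallOK tbG4_1 56 = true := by decide +kernel

theorem rows_tbG4_1 : LBnd α (fun N x v L => ∀ R k, N = R + k → k = 4 → 0 ≤ v → 2 ^ R ≤ x → x ≤ 2 * 2 ^ R →
    Rows 28 56 6 tbG4_1 129 R x v (gamL R x L)) := by
  rw [eq_tbG4_1]
  intro s X hX v hv hvx R k hN hk
  subst hk
  exact TEgG41_rows s X hX v hv hvx R hN

theorem eq_tbG5_2 : tbG5_2 = TEgG52 := by decide +kernel

theorem small_tbG5_2 : smallOK tbG5_2 112 = true := by decide +kernel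

theorem rows_tbG5_2 : LBnd α (fun N x v L => ∀ R k, N = R + k → 5 ≤ k → 0 ≤ v → 2 ^ R ≤ x → x ≤ 2 * 2 ^ R →
    Rows 28 112 6 tbG5_2 129 R x v (gamL R x L)) := by
  rw [eq_tbG5_2]
  exact TEgG52_rows

theorem chkTc1 : Nat.log2 tbTTc < 24 * 33 := by decide +kernel

theorem chkTc2 : allB (2 * 16 + 1) (fun i => Nat.ble (tab tbTTc 33 0 i) (80 * i)) = true := by decide +kernel

theorem chkTc3 : tab tbTAc 2 0 0 = 1 := by decide +kernel

theorem chkTc4 : tab tbTAc 2 0 1 = 4 := by decide +kernel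

theorem xsF (C : CoreK α R R F) : F.x ≤ 2 * 2 ^ R := by
  have z := C.zz
  have h1 : (F.x : ℤ) ≤ 2 * 2 ^ R := by
    linarith only [z.hi, z.ex, z.eK, z.eP, z.eW, z.q0, z.p0, z.P0, z.a0, z.P20, z.a20, z.W10, z.b0]
  exact_mod_cast h1

theorem xsK (C : CoreK α R R F) : C.K.x ≤ 2 * 2 ^ R := by
  have z := C.zz
  have h1 : (C.K.x : ℤ) ≤ 2 * 2 ^ R := by
    linarith only [z.hi, z.ex, z.eK, z.eP, z.eW, z.q0, z.p0, z.P0, z.a0, z.P20, z.a20, z.W10, z.b0]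
  exact_mod_cast h1

theorem xsW (C : CoreK α R R F) : C.W.x ≤ 2 * 2 ^ R := by
  have z := C.zz
  have h1 : (C.W.x : ℤ) ≤ 2 * 2 ^ R := by
    linarith only [z.hi, z.ex, z.eK, z.eP, z.eW, z.q0, z.p0, z.P0, z.a0, z.P20, z.a20, z.W10, z.b0]
  exact_mod_cast h1

theorem xsP (C : CoreK α R R F) : C.P.x ≤ 2 * 2 ^ R := by
  have z := C.zz
  have h1 : (C.P.x : ℤ) ≤ 2 * 2 ^ R := by
    linarith only [z.hi, z.ex, z.eK, z.eP, z.eW, z.q0, z.p0, z.P0, z.a0, z.P20, z.a20, z.W10, z.b0]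
  exact_mod_cast h1

theorem xsA (C : CoreK α R R F) : C.A.x ≤ 2 * 2 ^ R := by
  have z := C.zz
  have h1 : (C.A.x : ℤ) ≤ 2 * 2 ^ R := by
    linarith only [z.hi, z.ex, z.eK, z.eP, z.eW, z.q0, z.p0, z.P0, z.a0, z.P20, z.a20, z.W10, z.b0]
  exact_mod_cast h1

theorem xsP2 (C : CoreK α R R F) : C.P2.x ≤ 2 * 2 ^ R := by
  have z := C.zz
  have h1 : (C.P2.x : ℤ) ≤ 2 * 2 ^ R := by
    linarith only [z.hi, z.ex, z.eK, z.eP, z.eW, z.q0, z.p0, z.P0, z.a0, z.P20, z.a20, z.W10, z.b0]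
  exact_mod_cast h1

theorem xsA2 (C : CoreK α R R F) : C.A2.x ≤ 2 * 2 ^ R := by
  have z := C.zz
  have h1 : (C.A2.x : ℤ) ≤ 2 * 2 ^ R := by
    linarith only [z.hi, z.ex, z.eK, z.eP, z.eW, z.q0, z.p0, z.P0, z.a0, z.P20, z.a20, z.W10, z.b0]
  exact_mod_cast h1

theorem xsW1 (C : CoreK α R R F) : C.W1.x ≤ 2 * 2 ^ R := by
  have z := C.zz
  have h1 : (C.W1.x : ℤ) ≤ 2 * 2 ^ R := by
    linarith only [z.hi, z.ex, z.eK, z.eP, z.eW, z.q0, z.p0, z.P0, z.a0, z.P20, z.a20, z.W10, z.b0]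
  exact_mod_cast h1

theorem xsW2 (C : CoreK α R R F) : C.W2.x ≤ 2 * 2 ^ R := by
  have z := C.zz
  have h1 : (C.W2.x : ℤ) ≤ 2 * 2 ^ R := by
    linarith only [z.hi, z.ex, z.eK, z.eP, z.eW, z.q0, z.p0, z.P0, z.a0, z.P20, z.a20, z.W10, z.b0]
  exact_mod_cast h1

theorem eq_tbT4_6 : tbT4_6 = S4_6 := by decide +kernel

theorem rows_CtbT4_6 (C : CoreK α R R F) (h : 2 * ((F.x : ℤ) - 2 * C.W.x) ≤ 2 ^ R) :
    Rows 31 186 6 tbT4_6 129 (R + 1) (2 * F.x) (2 * (2 * 2 ^ R - ((F.x : ℤ) - 2 * C.W.x)))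
      (2 * MM R F - F.x) := by
  have h1 := C.t4 _ rows_S4_6 R rfl C.lo C.hi h
  rw [eq_tbT4_6]
  have e : 2 * MM R F - (F.x : ℤ) = 2 * (F.L + QQ R F.x) - F.x := by rw [MM_eq]
  rw [e]
  exact h1

theorem tnAh (C : CoreK α R R F) : (C.A.d 1 F.x : ℤ) ≤ 4 * C.A.L := by
  have z := C.zz
  have h := tc_small C.kA (fun s X h1 h2 => C.ih s X (by omega) h2) 1 F.x (by norm_num1; linarith only [z.ex, z.eK, z.eP, z.eW, z.le2, z.q0])
  norm_num1 at h
  linarith only [h]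

theorem tnKx (C : CoreK α R R F) : (C.K.d 0 F.x : ℤ) ≤ 2 * C.K.L := by
  have z := C.zz
  have h := tc_small C.kK' (fun s X h1 h2 => C.ih s X (by omega) h2) 0 F.x (by norm_num1; linarith only [z.ex, z.eK, z.eP, z.eW, z.q0])
  norm_num1 at h
  linarith only [h]

theorem tnW1h (C : CoreK α R R F) : (C.W1.d 1 F.x : ℤ) ≤ 4 * C.W1.L := by
  have z := C.zz
  have h := tc_small C.kW1b (fun s X h1 h2 => C.ih s X (by omega) h2) 1 F.x (by norm_num1; linarith only [z.ex, z.eK, z.eP, z.eW, z.f1, z.h3])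
  norm_num1 at h
  linarith only [h]

theorem tnW2q (C : CoreK α R R F) : (C.W2.d 2 F.x : ℤ) ≤ 8 * C.W2.L := by
  have z := C.zz
  have h := tc_small C.kW2b (fun s X h1 h2 => C.ih s X (by omega) h2) 2 F.x (by norm_num1; linarith only [z.ex, z.eK, z.eP, z.eW, z.le1, z.le4])
  norm_num1 at h
  linarith only [h]

theorem tnWh (C : CoreK α R R F) : (C.W.d 1 F.x : ℤ) ≤ 4 * C.W.L := by
  have z := C.zz
  have h := tc_small C.kW' (fun s X h1 h2 => C.ih s X (by omega) h2) 1 F.x (by norm_num1; linarith only [z.ex, z.eK, z.eP, z.eW, z.le1])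
  norm_num1 at h
  linarith only [h]

end Pool.Agent.EdgeIso.Chk.CoreK3
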