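import Pool.Agent.Lib.MP_48c8f3_co.Bas
import Pool.Agent.Lib.MP_48c8f3_co.K3H
import Pool.Agent.Lib.MP_48c8f3_co.K3T

set_option autoImplicit false
set_option linter.unusedSectionVars false
set_option linter.unusedVariables false

/-!
MP_48c8f3_co: the numbers of the root satisfy the system, part 2 (machine made).
-/

namespace Pool.Agent.EdgeIso.Chk.CoreK3

open Finset Pool.Agent.EdgeIso.Frame Pool.Agent.EdgeIso.Cell Pool.Agent.EdgeIso.Walsh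
  Pool.Agent.EdgeIso.Smooth

variable {α : Type*} [DecidableEq α] {R : ℕ} {F : Frame.Num}

theorem li1 (C : CoreK α R R F) :
    0 ≤ dot (f [(2, 2), (7, -2), (12, 1), (14, -1), (15, -1)]) (pt C) := by
  have z := C.zz
  refine lin_q (2 * (2 ^ 28 * (C.A.x : ℤ)) + ((-2) * (2 ^ 28 * (C.fK : ℤ)) + (1 * (2 ^ 28 * MM R C.K) + ((-1) * (2 ^ 28 * MM R C.P) + ((-1) * (2 ^ 28 * MM R C.A) + (0))))) : ℤ) rfl rfl ?_
  linarith only [z.ex, z.eK, z.eP, z.eW, C.mK.M_le R]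

theorem li4 (C : CoreK α R R F) :
    0 ≤ dot (f [(1, -1), (2, 2), (6, 1)]) (pt C) := by
  have z := C.zz
  refine lin_q ((-1) * (2 ^ 28 * (C.W.x : ℤ)) + (2 * (2 ^ 28 * (C.A.x : ℤ)) + (1 * (2 ^ 28 * (C.f : ℤ)) + (0))) : ℤ) rfl rfl ?_
  linarith only [z.ex, z.eK, z.eP, z.eW, z.h1]

theorem li7 (C : CoreK α R R F) :
    0 ≤ dot (f [(1, 1), (10, -2)]) (pt C) := by
  have z := C.zz
  refine lin_q (1 * (2 ^ 28 * (C.W.x : ℤ)) + ((-2) * (2 ^ 28 * (C.w2 : ℤ)) + (0)) : ℤ) rfl rfl ?_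
  linarith only [z.ex, z.eK, z.eP, z.eW, z.w2q]

theorem li10 (C : CoreK α R R F) :
    0 ≤ dot (f [(19, 1), (28, -2)]) (pt C) := by
  have z := C.zz
  refine lin_q (1 * (2 ^ 28 * MM R C.W2) + ((-2) * (2 ^ 27 * QQ R C.W2.x) + (0)) : ℤ) rfl rfl ?_
  linarith only [z.ex, z.eK, z.eP, z.eW, C.kW2b.L0, MM_eq R C.W2]

theorem li13 (C : CoreK α R R F) :
    0 ≤ dot (f [(1, -1), (2, 1), (3, 1), (4, 1), (6, 1), (11, -1), (20, 2), (31, 2), (41, -1)]) (pt C) := by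
  have z := C.zz
  refine lin_q ((-1) * (2 ^ 28 * (C.W.x : ℤ)) + (1 * (2 ^ 28 * (C.A.x : ℤ)) + (1 * (2 ^ 28 * (C.P2.x : ℤ)) + (1 * (2 ^ 28 * (C.A2.x : ℤ)) + (1 * (2 ^ 28 * (C.f : ℤ)) + ((-1) * (2 ^ 28 * MM R F) + (2 * (2 ^ 27 * QQ R F.x) + (2 * (2 ^ 26 * (C.W.d 1 F.x : ℤ)) + ((-1) * (2 ^ 27) + (0))))))))) : ℤ) rfl rfl ?_
  linarith only [z.ex, z.eK, z.eP, z.eW, C.neg, C.mF.prW 0 F.x, MM_eq R F, z.ex, z.eK, z.eP, z.eW]

theorem li16 (C : CoreK α R R F) :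
    0 ≤ dot (f [(2, -1), (3, 1), (4, 1), (7, 1), (30, -1), (34, 2)]) (pt C) := by
  have z := C.zz
  refine lin_q ((-1) * (2 ^ 28 * (C.A.x : ℤ)) + (1 * (2 ^ 28 * (C.P2.x : ℤ)) + (1 * (2 ^ 28 * (C.A2.x : ℤ)) + (1 * (2 ^ 28 * (C.fK : ℤ)) + ((-1) * (2 ^ 26 * (C.K.d 1 F.x : ℤ)) + (2 * (2 ^ 25 * (C.A.d 2 F.x : ℤ)) + (0)))))) : ℤ) rfl rfl ?_
  linarith only [z.ex, z.eK, z.eP, z.eW, C.mK.prW 1 F.x]

theorem li19 (C : CoreK α R R F) :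
    0 ≤ dot (f [(5, 1), (31, -1), (37, 1)]) (pt C) := by
  have z := C.zz
  refine lin_q (1 * (2 ^ 28 * (C.W2.x : ℤ)) + ((-1) * (2 ^ 26 * (C.W.d 1 F.x : ℤ)) + (1 * (2 ^ 26 * (C.W1.d 1 F.x : ℤ)) + (0))) : ℤ) rfl rfl ?_
  linarith only [z.ex, z.eK, z.eP, z.eW, C.mW.delK 1 F.x]

theorem li22 (C : CoreK α R R F) :
    0 ≤ dot (f [(1, 1), (41, -1)]) (pt C) := by
  have z := C.zz
  refine lin_q (1 * (2 ^ 28 * (C.W.x : ℤ)) + ((-1) * (2 ^ 27) + (0)) : ℤ) rfl rfl ?_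
  linarith only [z.ex, z.eK, z.eP, z.eW, qone C]

theorem li25 (C : CoreK α R R F) :
    0 ≤ dot (f [(15, 1), (24, -2), (33, -1)]) (pt C) := by
  have z := C.zz
  refine lin_q (1 * (2 ^ 28 * MM R C.A) + ((-2) * (2 ^ 27 * QQ R C.A.x) + ((-1) * (2 ^ 26 * (C.A.d 1 F.x : ℤ)) + (0))) : ℤ) rfl rfl ?_
  linarith only [z.ex, z.eK, z.eP, z.eW, tnAh C, MM_eq R C.A]

theorem li28 (C : CoreK α R R F) :
    0 ≤ dot (f [(1, 1), (5, -2), (9, 1), (10, -1), (40, 1)]) (pt C) := by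
  have z := C.zz
  refine lin_q (1 * (2 ^ 28 * (C.W.x : ℤ)) + ((-2) * (2 ^ 28 * (C.W2.x : ℤ)) + (1 * (2 ^ 28 * (C.fW : ℤ)) + ((-1) * (2 ^ 28 * (C.w2 : ℤ)) + (1 * (2 ^ 28 * max 0 ((C.w2 : ℤ) + C.W2.x - C.W1.x - C.fW)) + (0))))) : ℤ) rfl rfl ?_
  linarith only [z.ex, z.eK, z.eP, z.eW, le_max_right (0 : ℤ) ((C.w2 : ℤ) + C.W2.x - C.W1.x - C.fW)]

theorem li31 (C : CoreK α R R F) :
    0 ≤ dot (f [(0, 1), (3, -1)]) (pt C) := by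
  have z := C.zz
  refine lin_q (1 * (2 ^ 28 * 2 ^ R) + ((-1) * (2 ^ 28 * (C.P2.x : ℤ)) + (0)) : ℤ) rfl rfl ?_
  linarith only [z.ex, z.eK, z.eP, z.eW, (kc C).capP, z.fP0]

theorem li34 (C : CoreK α R R F) :
    0 ≤ dot (f [(0, 1), (6, -1)]) (pt C) := by
  have z := C.zz
  refine lin_q (1 * (2 ^ 28 * 2 ^ R) + ((-1) * (2 ^ 28 * (C.f : ℤ)) + (0)) : ℤ) rfl rfl ?_
  linarith only [z.ex, z.eK, z.eP, z.eW, z.le1, z.hi, z.f1]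

theorem li37 (C : CoreK α R R F) :
    0 ≤ dot (f [(0, 1), (9, -1)]) (pt C) := by
  have z := C.zz
  refine lin_q (1 * (2 ^ 28 * 2 ^ R) + ((-1) * (2 ^ 28 * (C.fW : ℤ)) + (0)) : ℤ) rfl rfl ?_
  linarith only [z.ex, z.eK, z.eP, z.eW, z.le4, (kc C).capW, z.f4]

theorem li40 (C : CoreK α R R F) :
    0 ≤ dot (f [(0, 8), (12, -1)]) (pt C) := by
  have z := C.zz
  refine lin_q (8 * (2 ^ 28 * 2 ^ R) + ((-1) * (2 ^ 28 * MM R C.K) + (0)) : ℤ) rfl rfl ?_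
  linarith only [z.ex, z.eK, z.eP, z.eW, (ku C).K, z.U1]

theorem li43 (C : CoreK α R R F) :
    0 ≤ dot (f [(0, 8), (15, -1)]) (pt C) := by
  have z := C.zz
  refine lin_q (8 * (2 ^ 28 * 2 ^ R) + ((-1) * (2 ^ 28 * MM R C.A) + (0)) : ℤ) rfl rfl ?_
  linarith only [z.ex, z.eK, z.eP, z.eW, (ku C).A, z.U1]

theorem li46 (C : CoreK α R R F) :
    0 ≤ dot (f [(0, 8), (18, -1)]) (pt C) := by
  have z := C.zz
  refine lin_q (8 * (2 ^ 28 * 2 ^ R) + ((-1) * (2 ^ 28 * MM R C.W1) + (0)) : ℤ) rfl rfl ?_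
  linarith only [z.ex, z.eK, z.eP, z.eW, (ku C).W1, z.U1]

theorem li49 (C : CoreK α R R F) :
    0 ≤ dot (f [(0, 1), (21, -1)]) (pt C) := by
  have z := C.zz
  refine lin_q (1 * (2 ^ 28 * 2 ^ R) + ((-1) * (2 ^ 27 * QQ R C.K.x) + (0)) : ℤ) rfl rfl ?_
  linarith only [z.ex, z.eK, z.eP, z.eW, QQ_le (xsK C), z.U1]

theorem li52 (C : CoreK α R R F) :
    0 ≤ dot (f [(0, 1), (24, -1)]) (pt C) := by
  have z := C.zz
  refine lin_q (1 * (2 ^ 28 * 2 ^ R) + ((-1) * (2 ^ 27 * QQ R C.A.x) + (0)) : ℤ) rfl rfl ?_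
  linarith only [z.ex, z.eK, z.eP, z.eW, QQ_le (xsA C), z.U1]

theorem li55 (C : CoreK α R R F) :
    0 ≤ dot (f [(0, 1), (27, -1)]) (pt C) := by
  have z := C.zz
  refine lin_q (1 * (2 ^ 28 * 2 ^ R) + ((-1) * (2 ^ 27 * QQ R C.W1.x) + (0)) : ℤ) rfl rfl ?_
  linarith only [z.ex, z.eK, z.eP, z.eW, QQ_le (xsW1 C), z.U1]

theorem li58 (C : CoreK α R R F) :
    0 ≤ dot (f [(0, 2), (30, -1)]) (pt C) := by
  have z := C.zz
  refine lin_q (2 * (2 ^ 28 * 2 ^ R) + ((-1) * (2 ^ 26 * (C.K.d 1 F.x : ℤ)) + (0)) : ℤ) rfl rfl ?_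
  linarith only [z.ex, z.eK, z.eP, z.eW, C.kK'.triv 1 F.x, z.hi, z.q0]

theorem li61 (C : CoreK α R R F) :
    0 ≤ dot (f [(0, 1), (33, -1)]) (pt C) := by
  have z := C.zz
  refine lin_q (1 * (2 ^ 28 * 2 ^ R) + ((-1) * (2 ^ 26 * (C.A.d 1 F.x : ℤ)) + (0)) : ℤ) rfl rfl ?_
  linarith only [z.ex, z.eK, z.eP, z.eW, C.kA.triv 1 F.x, z.le2, z.hi, z.q0]

theorem li64 (C : CoreK α R R F) :
    0 ≤ dot (f [(0, 1), (36, -1)]) (pt C) := by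
  have z := C.zz
  refine lin_q (1 * (2 ^ 28 * 2 ^ R) + ((-1) * (2 ^ 27 * (C.A2.d 0 (F.x - 2 ^ R) : ℤ)) + (0)) : ℤ) rfl rfl ?_
  linarith only [z.ex, z.eK, z.eP, z.eW, C.kA2.triv 0 (F.x - 2 ^ R), z.le3, z.f1, z.h1, z.hi, z.q0]

theorem li67 (C : CoreK α R R F) :
    0 ≤ dot (f [(0, 1), (39, -1)]) (pt C) := by
  have z := C.zz
  refine lin_q (1 * (2 ^ 28 * 2 ^ R) + ((-1) * (2 ^ 25 * (C.W2.d 2 F.x : ℤ)) + (0)) : ℤ) rfl rfl ?_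
  linarith only [z.ex, z.eK, z.eP, z.eW, C.kW2b.triv 2 F.x, z.U1, z.le1, z.hi, z.le4]

theorem it0 (C : CoreK α R R F) (hT : ∀ i j, (dgt GT0 i j : ℤ) ≤ dg i j) :
    (ItemL.dt 2 1 0 (f [(1, -1), (20, -1), (21, 1), (22, 1)])).Sem sys (pt C) := by
  have z := C.zz
  refine dt_at (R := R) (p := C.K.x) (q := C.W.x) (r := F.x) rfl rfl hT (fv2 C) (fv1 C) (fv0 C) C.mF.sz C.mF.le ?_
  refine (fe_q ((-1) * (2 ^ 28 * (C.W.x : ℤ)) + ((-1) * (2 ^ 27 * QQ R F.x) + (1 * (2 ^ 27 * QQ R C.K.x) + (1 * (2 ^ 27 * QQ R C.W.x) + (0)))) : ℤ) rfl rfl).trans ?_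
  linarith only [z.ex, z.eK, z.eP, z.eW]

theorem it3 (C : CoreK α R R F) (hT : ∀ i j, (dgt GT0 i j : ℤ) ≤ dg i j) :
    (ItemL.dt 8 7 1 (f [(5, -1), (22, -1), (27, 1), (28, 1)])).Sem sys (pt C) := by
  have z := C.zz
  refine dt_at (R := R) (p := C.W1.x) (q := C.W2.x) (r := C.W.x) rfl rfl hT (fv8 C) (fv7 C) (fv1 C) C.mW.sz C.mW.le ?_
  refine (fe_q ((-1) * (2 ^ 28 * (C.W2.x : ℤ)) + ((-1) * (2 ^ 27 * QQ R C.W.x) + (1 * (2 ^ 27 * QQ R C.W1.x) + (1 * (2 ^ 27 * QQ R C.W2.x) + (0)))) : ℤ) rfl rfl).trans ?_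
  linarith only [z.ex, z.eK, z.eP, z.eW]

theorem it7 (C : CoreK α R R F) :
    (ItemL.tl 1 20 1 2 (f [(22, 2)]) 4096 4096 8 tbgU 1025).Sem sys (pt C) := by
  refine gU_at (R := R) (X := C.W.x) rfl rfl (fv1 C) (xsW C) ?_ (by norm_num)
  rw [fe_q (2 * (2 ^ 27 * QQ R C.W.x) + (0) : ℤ) rfl rfl]
  push_cast
  ring

theorem it10 (C : CoreK α R R F) :
    (ItemL.tl 5 20 1 2 (f [(26, 2)]) 4096 4096 8 tbgU 1025).Sem sys (pt C) := by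
  refine gU_at (R := R) (X := C.A2.x) rfl rfl (fv5 C) (xsA2 C) ?_ (by norm_num)
  rw [fe_q (2 * (2 ^ 27 * QQ R C.A2.x) + (0) : ℤ) rfl rfl]
  push_cast
  ring

theorem it13 (C : CoreK α R R F) :
    (ItemL.gate 2 512 1024 (.tt 2 9 8 16 (f [(0, -2), (2, 1), (3, 1), (4, 1), (12, 1)]) (f [(2, 2)]) 3584 7168 128 2 112 tbG2_1 129)).Sem sys (pt C) := by
  have z := C.zz
  refine octtP_at (R := R) (rc := 56) (j := 0) (P := fun k => k = 2) small_tbG2_1 rows_tbG2_1 rfl rfl (atK C) (by norm_num) (fv2 C) (le_of_eq (fv9 C).symm) ⟨2, by omega, by norm_num⟩ (by norm_num)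
    (by norm_num) (by norm_num) (by norm_num) ?_ ?_ (by norm_num) (by norm_num)
  · rw [fe_q ((-2) * (2 ^ 28 * 2 ^ R) + (1 * (2 ^ 28 * (C.A.x : ℤ)) + (1 * (2 ^ 28 * (C.P2.x : ℤ)) + (1 * (2 ^ 28 * (C.A2.x : ℤ)) + (1 * (2 ^ 28 * MM R C.K) + (0))))) : ℤ) rfl rfl]
    norm_num1
    linarith only [z.ex, z.eK, z.eP, z.eW]
  · rw [fe_q (2 * (2 ^ 28 * (C.A.x : ℤ)) + (0) : ℤ) rfl rfl]
    norm_num1
    linarith only [z.ex, z.eK, z.eP, z.eW]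

theorem it16 (C : CoreK α R R F) :
    (ItemL.gate 2 256 512 (.tl 2 9 4 8 (f [(0, -1), (12, 1)]) 7168 256 2 tbG3_0 129)).Sem sys (pt C) := by
  have z := C.zz
  refine octlP_at (R := R) (rc := 28) (j := 1) (P := fun k => k = 3) small_tbG3_0 rows_tbG3_0 rfl rfl (atK C) (by norm_num) (fv2 C) (le_of_eq (fv9 C)) ⟨3, by omega, by norm_num⟩ (by norm_num)
    (by norm_num) (by norm_num) (by norm_num) ?_ (by norm_num)
  · rw [fe_q ((-1) * (2 ^ 28 * 2 ^ R) + (1 * (2 ^ 28 * MM R C.K) + (0)) : ℤ) rfl rfl]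
    norm_num1
    linarith only [z.ex, z.eK, z.eP, z.eW]

theorem it19 (C : CoreK α R R F) :
    (ItemL.gate 2 256 512 (.tt 2 9 4 8 (f [(0, -1), (12, 1)]) (f [(2, 2)]) 7168 28672 256 2 224 tbG3_2 129)).Sem sys (pt C) := by
  have z := C.zz
  refine octtP_at (R := R) (rc := 112) (j := 1) (P := fun k => k = 3) small_tbG3_2 rows_tbG3_2 rfl rfl (atK C) (by norm_num) (fv2 C) (le_of_eq (fv9 C).symm) ⟨3, by omega, by norm_num⟩ (by norm_num)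
    (by norm_num) (by norm_num) (by norm_num) ?_ ?_ (by norm_num) (by norm_num)
  · rw [fe_q ((-1) * (2 ^ 28 * 2 ^ R) + (1 * (2 ^ 28 * MM R C.K) + (0)) : ℤ) rfl rfl]
    norm_num1
    linarith only [z.ex, z.eK, z.eP, z.eW]
  · rw [fe_q (2 * (2 ^ 28 * (C.A.x : ℤ)) + (0) : ℤ) rfl rfl]
    norm_num1
    linarith only [z.ex, z.eK, z.eP, z.eW]

theorem it22 (C : CoreK α R R F) :
    (ItemL.gate 2 256 512 (.tl 2 13 4 8 (f [(0, -1), (12, 1)]) 7168 256 2 tbG3_0 129)).Sem sys (pt C) := by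
  have z := C.zz
  refine octlP_at (R := R) (rc := 28) (j := 1) (P := fun k => k = 3) small_tbG3_0 rows_tbG3_0 rfl rfl (atKb C) (by norm_num) (fv2 C) (le_of_eq (fv13 C)) ⟨3, by omega, by norm_num⟩ (by norm_num)
    (by norm_num) (by norm_num) (by norm_num) ?_ (by norm_num)
  · rw [fe_q ((-1) * (2 ^ 28 * 2 ^ R) + (1 * (2 ^ 28 * MM R C.K) + (0)) : ℤ) rfl rfl]
    norm_num1
    linarith only [z.ex, z.eK, z.eP, z.eW]

theorem it25 (C : CoreK α R R F) :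
    (ItemL.gate 1 128 256 (.tt 1 10 2 4 (f [(0, -1), (1, -2), (13, 2)]) (f [(5, 2)]) 7168 28672 512 2 112 tbG4_1 129)).Sem sys (pt C) := by
  have z := C.zz
  refine octtP_at (R := R) (rc := 56) (j := 2) (P := fun k => k = 4) small_tbG4_1 rows_tbG4_1 rfl rfl (atW C) (by norm_num) (fv1 C) (le_of_eq (fv10 C).symm) ⟨4, by omega, by norm_num⟩ (by norm_num)
    (by norm_num) (by norm_num) (by norm_num) ?_ ?_ (by norm_num) (by norm_num)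
  · rw [fe_q ((-1) * (2 ^ 28 * 2 ^ R) + ((-2) * (2 ^ 28 * (C.W.x : ℤ)) + (2 * (2 ^ 28 * MM R C.W) + (0))) : ℤ) rfl rfl]
    norm_num1
    linarith only [z.ex, z.eK, z.eP, z.eW]
  · rw [fe_q (2 * (2 ^ 28 * (C.W2.x : ℤ)) + (0) : ℤ) rfl rfl]
    norm_num1
    linarith only [z.ex, z.eK, z.eP, z.eW]

theorem it28 (C : CoreK α R R F) :
    (ItemL.gate 4 512 1024 (.tt 4 11 8 16 (f [(0, -2), (3, 1), (4, 1), (14, 1)]) (f [(4, 2)]) 3584 3584 128 2 56 tbG1_0 129)).Sem sys (pt C) := by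
  have z := C.zz
  refine octtP_at (R := R) (rc := 28) (j := 0) (P := fun k => k = 1) small_tbG1_0 rows_tbG1_0 rfl rfl (atP C) (by norm_num) (fv4 C) (le_of_eq (fv11 C).symm) ⟨1, by omega, by norm_num⟩ (by norm_num)
    (by norm_num) (by norm_num) (by norm_num) ?_ ?_ (by norm_num) (by norm_num)
  · rw [fe_q ((-2) * (2 ^ 28 * 2 ^ R) + (1 * (2 ^ 28 * (C.P2.x : ℤ)) + (1 * (2 ^ 28 * (C.A2.x : ℤ)) + (1 * (2 ^ 28 * MM R C.P) + (0)))) : ℤ) rfl rfl]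
    norm_num1
    linarith only [z.ex, z.eK, z.eP, z.eW]
  · rw [fe_q (2 * (2 ^ 28 * (C.A2.x : ℤ)) + (0) : ℤ) rfl rfl]
    norm_num1
    linarith only [z.ex, z.eK, z.eP, z.eW]

theorem it31 (C : CoreK α R R F) :
    (ItemL.gate 4 256 512 (.tl 4 11 4 8 (f [(0, -1), (14, 1)]) 7168 256 2 tbG2_0 129)).Sem sys (pt C) := by
  have z := C.zz
  refine octlP_at (R := R) (rc := 28) (j := 1) (P := fun k => k = 2) small_tbG2_0 rows_tbG2_0 rfl rfl (atP C) (by norm_num) (fv4 C) (le_of_eq (fv11 C)) ⟨2, by omega, by norm_num⟩ (by norm_num)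
    (by norm_num) (by norm_num) (by norm_num) ?_ (by norm_num)
  · rw [fe_q ((-1) * (2 ^ 28 * 2 ^ R) + (1 * (2 ^ 28 * MM R C.P) + (0)) : ℤ) rfl rfl]
    norm_num1
    linarith only [z.ex, z.eK, z.eP, z.eW]

theorem it34 (C : CoreK α R R F) :
    (ItemL.gate 4 128 256 (.tt 4 11 2 4 (f [(0, -1), (3, -2), (4, -2), (14, 2)]) (f [(4, 2)]) 7168 14336 512 2 56 tbG3_0 129)).Sem sys (pt C) := by
  have z := C.zz
  refine octtP_at (R := R) (rc := 28) (j := 2) (P := fun k => k = 3) small_tbG3_0 rows_tbG3_0 rfl rfl (atP C) (by norm_num) (fv4 C) (le_of_eq (fv11 C).symm) ⟨3, by omega, by norm_num⟩ (by norm_num)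
    (by norm_num) (by norm_num) (by norm_num) ?_ ?_ (by norm_num) (by norm_num)
  · rw [fe_q ((-1) * (2 ^ 28 * 2 ^ R) + ((-2) * (2 ^ 28 * (C.P2.x : ℤ)) + ((-2) * (2 ^ 28 * (C.A2.x : ℤ)) + (2 * (2 ^ 28 * MM R C.P) + (0)))) : ℤ) rfl rfl]
    norm_num1
    linarith only [z.ex, z.eK, z.eP, z.eW]
  · rw [fe_q (2 * (2 ^ 28 * (C.A2.x : ℤ)) + (0) : ℤ) rfl rfl]
    norm_num1
    linarith only [z.ex, z.eK, z.eP, z.eW]

theorem it37 (C : CoreK α R R F) :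
    (ItemL.gate 4 128 256 (.tl 4 12 2 4 (f [(0, -1), (3, -2), (4, -2), (14, 2)]) 7168 512 2 tbG3_1 129)).Sem sys (pt C) := by
  have z := C.zz
  refine octlP_at (R := R) (rc := 56) (j := 2) (P := fun k => k = 3) small_tbG3_1 rows_tbG3_1 rfl rfl (atPb C) (by norm_num) (fv4 C) (le_of_eq (fv12 C)) ⟨3, by omega, by norm_num⟩ (by norm_num)
    (by norm_num) (by norm_num) (by norm_num) ?_ (by norm_num)
  · rw [fe_q ((-1) * (2 ^ 28 * 2 ^ R) + ((-2) * (2 ^ 28 * (C.P2.x : ℤ)) + ((-2) * (2 ^ 28 * (C.A2.x : ℤ)) + (2 * (2 ^ 28 * MM R C.P) + (0)))) : ℤ) rfl rfl]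
    norm_num1
    linarith only [z.ex, z.eK, z.eP, z.eW]

theorem it40 (C : CoreK α R R F) :
    (ItemL.gate 8 128 256 (.tt 8 15 2 4 (f [(0, -1), (1, -2), (5, 2), (18, 2)]) (f [(9, -1), (10, 1)]) 7168 57344 512 2 224 tbG3_2 129)).Sem sys (pt C) := by
  have z := C.zz
  refine octtP_at (R := R) (rc := 112) (j := 2) (P := fun k => k = 3) small_tbG3_2 rows_tbG3_2 rfl rfl (atW1 C) (by norm_num) (fv8 C) (le_of_eq (fv15 C).symm) ⟨3, by omega, by norm_num⟩ (by norm_num)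
    (by norm_num) (by norm_num) (by norm_num) ?_ ?_ (by norm_num) (by norm_num)
  · rw [fe_q ((-1) * (2 ^ 28 * 2 ^ R) + ((-2) * (2 ^ 28 * (C.W.x : ℤ)) + (2 * (2 ^ 28 * (C.W2.x : ℤ)) + (2 * (2 ^ 28 * MM R C.W1) + (0)))) : ℤ) rfl rfl]
    norm_num1
    linarith only [z.ex, z.eK, z.eP, z.eW]
  · rw [fe_q ((-1) * (2 ^ 28 * (C.fW : ℤ)) + (1 * (2 ^ 28 * (C.w2 : ℤ)) + (0)) : ℤ) rfl rfl]
    norm_num1
    linarith only [z.ex, z.eK, z.eP, z.eW]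

theorem it43 (C : CoreK α R R F) :
    (ItemL.gate 7 128 256 (.tl 7 17 2 4 (f [(0, -1), (5, -2), (19, 2)]) 7168 512 2 tbG3_1 129)).Sem sys (pt C) := by
  have z := C.zz
  refine octlP_at (R := R) (rc := 56) (j := 2) (P := fun k => k = 3) small_tbG3_1 rows_tbG3_1 rfl rfl (atW2 C) (by norm_num) (fv7 C) (le_of_eq (fv17 C)) ⟨3, by omega, by norm_num⟩ (by norm_num)
    (by norm_num) (by norm_num) (by norm_num) ?_ (by norm_num)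
  · rw [fe_q ((-1) * (2 ^ 28 * 2 ^ R) + ((-2) * (2 ^ 28 * (C.W2.x : ℤ)) + (2 * (2 ^ 28 * MM R C.W2) + (0))) : ℤ) rfl rfl]
    norm_num1
    linarith only [z.ex, z.eK, z.eP, z.eW]

theorem it46 (C : CoreK α R R F) (hn : 1 ≤ R) :
    (ItemL.gate 6 256 512 (.tt 6 14 4 8 (f [(0, -1), (16, 1)]) (f [(4, 1), (8, -1)]) 7168 14336 256 2 112 tbG1_1 129)).Sem sys (pt C) := by
  have z := C.zz
  refine octtP_at (R := R) (rc := 56) (j := 1) (P := fun k => k = 1) small_tbG1_1 rows_tbG1_1 rfl rfl (atP2 C hn) (by norm_num) (fv6 C) (le_of_eq (fv14 C).symm) ⟨1, by omega, by norm_num⟩ (by norm_num)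
    (by norm_num) (by norm_num) (by norm_num) ?_ ?_ (by norm_num) (by norm_num)
  · rw [fe_q ((-1) * (2 ^ 28 * 2 ^ R) + (1 * (2 ^ 28 * MM R C.P2) + (0)) : ℤ) rfl rfl]
    norm_num1
    linarith only [z.ex, z.eK, z.eP, z.eW]
  · rw [fe_q (1 * (2 ^ 28 * (C.A2.x : ℤ)) + ((-1) * (2 ^ 28 * (C.fP : ℤ)) + (0)) : ℤ) rfl rfl]
    norm_num1
    linarith only [z.ex, z.eK, z.eP, z.eW]

theorem it49 (C : CoreK α R R F) (hn : 1 ≤ R) :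
    (ItemL.gate 6 256 512 (.tl 6 14 4 8 (f [(0, -1), (16, 1)]) 7168 256 2 tbG1_2 129)).Sem sys (pt C) := by
  have z := C.zz
  refine octlP_at (R := R) (rc := 112) (j := 1) (P := fun k => k = 1) small_tbG1_2 rows_tbG1_2 rfl rfl (atP2 C hn) (by norm_num) (fv6 C) (le_of_eq (fv14 C)) ⟨1, by omega, by norm_num⟩ (by norm_num)
    (by norm_num) (by norm_num) (by norm_num) ?_ (by norm_num)
  · rw [fe_q ((-1) * (2 ^ 28 * 2 ^ R) + (1 * (2 ^ 28 * MM R C.P2) + (0)) : ℤ) rfl rfl]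
    norm_num1
    linarith only [z.ex, z.eK, z.eP, z.eW]

theorem it52 (C : CoreK α R R F) (hn : 1 ≤ R) :
    (ItemL.gate 6 64 128 (.tt 6 14 1 2 (f [(0, -1), (3, -8), (16, 4)]) (f [(4, 1), (8, -1)]) 7168 57344 1024 2 112 tbG3_1 129)).Sem sys (pt C) := by
  have z := C.zz
  refine octtP_at (R := R) (rc := 56) (j := 3) (P := fun k => k = 3) small_tbG3_1 rows_tbG3_1 rfl rfl (atP2 C hn) (by norm_num) (fv6 C) (le_of_eq (fv14 C).symm) ⟨3, by omega, by norm_num⟩ (by norm_num)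
    (by norm_num) (by norm_num) (by norm_num) ?_ ?_ (by norm_num) (by norm_num)
  · rw [fe_q ((-1) * (2 ^ 28 * 2 ^ R) + ((-8) * (2 ^ 28 * (C.P2.x : ℤ)) + (4 * (2 ^ 28 * MM R C.P2) + (0))) : ℤ) rfl rfl]
    norm_num1
    linarith only [z.ex, z.eK, z.eP, z.eW]
  · rw [fe_q (1 * (2 ^ 28 * (C.A2.x : ℤ)) + ((-1) * (2 ^ 28 * (C.fP : ℤ)) + (0)) : ℤ) rfl rfl]
    norm_num1
    linarith only [z.ex, z.eK, z.eP, z.eW]

theorem it55 (C : CoreK α R R F) :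
    (ItemL.gate 25 0 256 (.tl 0 26 8 16 (f [(1, -1), (2, -1), (3, -1), (4, -1), (11, 2)]) 1984 128 2 tbT4_6 129)).Sem sys (pt C) := by
  have z := C.zz
  refine t4l_at (R := R) (rc := 186) (X := F.x) (u := C.W.x) (l := 2 * MM R F - F.x) rfl rfl (fv0 C) (fv25 C) (fv26 C) (fun h => rows_CtbT4_6 C h) ?_ (by norm_num)
  · rw [fe_q ((-1) * (2 ^ 28 * (C.W.x : ℤ)) + ((-1) * (2 ^ 28 * (C.A.x : ℤ)) + ((-1) * (2 ^ 28 * (C.P2.x : ℤ)) + ((-1) * (2 ^ 28 * (C.A2.x : ℤ)) + (2 * (2 ^ 28 * MM R F) + (0))))) : ℤ) rfl rfl]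
    norm_num1
    linarith only [z.ex, z.eK, z.eP, z.eW]

theorem it59 (C : CoreK α R R F) :
    (ItemL.ts 3 32 (f [(2, 1), (15, 1), (24, -2), (34, -1)]) 20480 256 16 tbTTc 33 8 64 [(0, 1, 1, 80)] tbTAc 2).Sem sys (pt C) := by
  have z := C.zz
  refine tsc_at (R := R) (j := 2) (t := F.x) rfl rfl (atA C) (fun s X h1 h2 => C.ih s X (by omega) h2) (fv3 C) (fv0 C) (xsA C) (by norm_num) (by norm_num) (by norm_num) ?_ chkTc1 chkTc2 chkTc3 chkTc4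
  refine (fe_q (1 * (2 ^ 28 * (C.A.x : ℤ)) + (1 * (2 ^ 28 * MM R C.A) + ((-2) * (2 ^ 27 * QQ R C.A.x) + ((-1) * (2 ^ 25 * (C.A.d 2 F.x : ℤ)) + (0)))) : ℤ) rfl rfl).trans ?_
  norm_num1
  linarith only [z.ex, z.eK, z.eP, z.eW]

theorem it62 (C : CoreK α R R F) :
    (ItemL.ts 8 32 (f [(1, 1), (5, -1), (18, 1), (27, -2), (38, -1)]) 20480 256 16 tbTTc 33 8 64 [(0, 1, 1, 80)] tbTAc 2).Sem sys (pt C) := by
  have z := C.zz
  refine tsc_at (R := R) (j := 2) (t := F.x) rfl rfl (atW1 C) (fun s X h1 h2 => C.ih s X (by omega) h2) (fv8 C) (fv0 C) (xsW1 C) (by norm_num) (by norm_num) (by norm_num) ?_ chkTc1 chkTc2 chkTc3 chkTc4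
  refine (fe_q (1 * (2 ^ 28 * (C.W.x : ℤ)) + ((-1) * (2 ^ 28 * (C.W2.x : ℤ)) + (1 * (2 ^ 28 * MM R C.W1) + ((-2) * (2 ^ 27 * QQ R C.W1.x) + ((-1) * (2 ^ 25 * (C.W1.d 2 F.x : ℤ)) + (0))))) : ℤ) rfl rfl).trans ?_
  norm_num1
  linarith only [z.ex, z.eK, z.eP, z.eW]

end Pool.Agent.EdgeIso.Chk.CoreK3
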