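import Pool.Agent.Lib.MP_48c8f3_co.Bas
import Pool.Agent.Lib.MP_48c8f3_co.K3H
import Pool.Agent.Lib.MP_48c8f3_co.K3T

set_option autoImplicit false
set_option linter.unusedSectionVars false
set_option linter.unusedVariables false

/-!
MP_48c8f3_co: the numbers of the root satisfy the system, part 3 (machine made).
-/

namespace Pool.Agent.EdgeIso.Chk.CoreK3

open Finset Pool.Agent.EdgeIso.Frame Pool.Agent.EdgeIso.Cell Pool.Agent.EdgeIso.Walsh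
  Pool.Agent.EdgeIso.Smooth

variable {α : Type*} [DecidableEq α] {R : ℕ} {F : Frame.Num}

theorem li2 (C : CoreK α R R F) :
    0 ≤ dot (f [(4, 2), (8, -2), (14, 1), (16, -1), (17, -1)]) (pt C) := by
  have z := C.zz
  refine lin_q (2 * (2 ^ 28 * (C.A2.x : ℤ)) + ((-2) * (2 ^ 28 * (C.fP : ℤ)) + (1 * (2 ^ 28 * MM R C.P) + ((-1) * (2 ^ 28 * MM R C.P2) + ((-1) * (2 ^ 28 * MM R C.A2) + (0))))) : ℤ) rfl rfl ?_
  linarith only [z.ex, z.eK, z.eP, z.eW, C.mP.M_le R]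

theorem li5 (C : CoreK α R R F) :
    0 ≤ dot (f [(2, -1), (4, 2), (7, 1)]) (pt C) := by
  have z := C.zz
  refine lin_q ((-1) * (2 ^ 28 * (C.A.x : ℤ)) + (2 * (2 ^ 28 * (C.A2.x : ℤ)) + (1 * (2 ^ 28 * (C.fK : ℤ)) + (0))) : ℤ) rfl rfl ?_
  linarith only [z.ex, z.eK, z.eP, z.eW, z.h2]

theorem li8 (C : CoreK α R R F) :
    0 ≤ dot (f [(1, -10), (2, 4), (3, 4), (4, 4), (5, 8), (6, 6), (10, 6), (12, 1), (21, -2)]) (pt C) := by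
  have z := C.zz
  refine lin_q ((-10) * (2 ^ 28 * (C.W.x : ℤ)) + (4 * (2 ^ 28 * (C.A.x : ℤ)) + (4 * (2 ^ 28 * (C.P2.x : ℤ)) + (4 * (2 ^ 28 * (C.A2.x : ℤ)) + (8 * (2 ^ 28 * (C.W2.x : ℤ)) + (6 * (2 ^ 28 * (C.f : ℤ)) + (6 * (2 ^ 28 * (C.w2 : ℤ)) + (1 * (2 ^ 28 * MM R C.K) + ((-2) * (2 ^ 27 * QQ R C.K.x) + (0))))))))) : ℤ) rfl rfl ?_
  linarith only [z.ex, z.eK, z.eP, z.eW, C.pair, MM_eq R C.K]

theorem li11 (C : CoreK α R R F) :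
    0 ≤ dot (f [(1, 1), (11, -1), (20, 2), (29, 1), (41, -1)]) (pt C) := by
  have z := C.zz
  refine lin_q (1 * (2 ^ 28 * (C.W.x : ℤ)) + ((-1) * (2 ^ 28 * MM R F) + (2 * (2 ^ 27 * QQ R F.x) + (1 * (2 ^ 27 * (C.K.d 0 F.x : ℤ)) + ((-1) * (2 ^ 27) + (0))))) : ℤ) rfl rfl ?_
  linarith only [z.ex, z.eK, z.eP, z.eW, C.neg, C.mF.delK 0 F.x, MM_eq R F]

theorem li14 (C : CoreK α R R F) :
    0 ≤ dot (f [(2, 1), (29, -1), (32, 1)]) (pt C) := by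
  have z := C.zz
  refine lin_q (1 * (2 ^ 28 * (C.A.x : ℤ)) + ((-1) * (2 ^ 27 * (C.K.d 0 F.x : ℤ)) + (1 * (2 ^ 27 * (C.P.d 0 F.x : ℤ)) + (0))) : ℤ) rfl rfl ?_
  linarith only [z.ex, z.eK, z.eP, z.eW, C.mK.delK 0 F.x]

theorem li17 (C : CoreK α R R F) :
    0 ≤ dot (f [(32, -1), (36, 1)]) (pt C) := by
  have z := C.zz
  refine lin_q ((-1) * (2 ^ 27 * (C.P.d 0 F.x : ℤ)) + (1 * (2 ^ 27 * (C.A2.d 0 (F.x - 2 ^ R) : ℤ)) + (0)) : ℤ) rfl rfl ?_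
  linarith only [z.ex, z.eK, z.eP, z.eW, fillW C]

theorem li20 (C : CoreK α R R F) :
    0 ≤ dot (f [(9, 1), (31, -1), (38, 2)]) (pt C) := by
  have z := C.zz
  refine lin_q (1 * (2 ^ 28 * (C.fW : ℤ)) + ((-1) * (2 ^ 26 * (C.W.d 1 F.x : ℤ)) + (2 * (2 ^ 25 * (C.W1.d 2 F.x : ℤ)) + (0))) : ℤ) rfl rfl ?_
  linarith only [z.ex, z.eK, z.eP, z.eW, C.mW.prK 1 F.x]

theorem li23 (C : CoreK α R R F) :
    0 ≤ dot (f [(12, 1), (21, -2), (29, -1)]) (pt C) := by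
  have z := C.zz
  refine lin_q (1 * (2 ^ 28 * MM R C.K) + ((-2) * (2 ^ 27 * QQ R C.K.x) + ((-1) * (2 ^ 27 * (C.K.d 0 F.x : ℤ)) + (0))) : ℤ) rfl rfl ?_
  linarith only [z.ex, z.eK, z.eP, z.eW, tnKx C, MM_eq R C.K]

theorem li26 (C : CoreK α R R F) :
    0 ≤ dot (f [(18, 1), (27, -2), (37, -1)]) (pt C) := by
  have z := C.zz
  refine lin_q (1 * (2 ^ 28 * MM R C.W1) + ((-2) * (2 ^ 27 * QQ R C.W1.x) + ((-1) * (2 ^ 26 * (C.W1.d 1 F.x : ℤ)) + (0))) : ℤ) rfl rfl ?_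
  linarith only [z.ex, z.eK, z.eP, z.eW, tnW1h C, MM_eq R C.W1]

theorem li29 (C : CoreK α R R F) :
    0 ≤ dot (f [(0, 1), (1, -1)]) (pt C) := by
  have z := C.zz
  refine lin_q (1 * (2 ^ 28 * 2 ^ R) + ((-1) * (2 ^ 28 * (C.W.x : ℤ)) + (0)) : ℤ) rfl rfl ?_
  linarith only [z.ex, z.eK, z.eP, z.eW, z.le1, z.hi]

theorem li32 (C : CoreK α R R F) :
    0 ≤ dot (f [(0, 1), (4, -1)]) (pt C) := by
  have z := C.zz
  refine lin_q (1 * (2 ^ 28 * 2 ^ R) + ((-1) * (2 ^ 28 * (C.A2.x : ℤ)) + (0)) : ℤ) rfl rfl ?_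
  linarith only [z.ex, z.eK, z.eP, z.eW, z.le3, z.f1, z.h1, z.hi, z.q0]

theorem li35 (C : CoreK α R R F) :
    0 ≤ dot (f [(0, 1), (7, -1)]) (pt C) := by
  have z := C.zz
  refine lin_q (1 * (2 ^ 28 * 2 ^ R) + ((-1) * (2 ^ 28 * (C.fK : ℤ)) + (0)) : ℤ) rfl rfl ?_
  linarith only [z.ex, z.eK, z.eP, z.eW, (kc C).capK, z.le2, z.f2]

theorem li38 (C : CoreK α R R F) :
    0 ≤ dot (f [(0, 1), (10, -1)]) (pt C) := by
  have z := C.zz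
  refine lin_q (1 * (2 ^ 28 * 2 ^ R) + ((-1) * (2 ^ 28 * (C.w2 : ℤ)) + (0)) : ℤ) rfl rfl ?_
  linarith only [z.ex, z.eK, z.eP, z.eW, z.U1, z.hi, z.w2q, z.le1]

theorem li41 (C : CoreK α R R F) :
    0 ≤ dot (f [(0, 8), (13, -1)]) (pt C) := by
  have z := C.zz
  refine lin_q (8 * (2 ^ 28 * 2 ^ R) + ((-1) * (2 ^ 28 * MM R C.W) + (0)) : ℤ) rfl rfl ?_
  linarith only [z.ex, z.eK, z.eP, z.eW, (ku C).W, z.U1]

theorem li44 (C : CoreK α R R F) :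
    0 ≤ dot (f [(0, 10), (16, -1)]) (pt C) := by
  have z := C.zz
  refine lin_q (10 * (2 ^ 28 * 2 ^ R) + ((-1) * (2 ^ 28 * MM R C.P2) + (0)) : ℤ) rfl rfl ?_
  linarith only [z.ex, z.eK, z.eP, z.eW, (ku C).P2, z.U1]

theorem li47 (C : CoreK α R R F) :
    0 ≤ dot (f [(0, 8), (19, -1)]) (pt C) := by
  have z := C.zz
  refine lin_q (8 * (2 ^ 28 * 2 ^ R) + ((-1) * (2 ^ 28 * MM R C.W2) + (0)) : ℤ) rfl rfl ?_
  linarith only [z.ex, z.eK, z.eP, z.eW, (ku C).W2, z.U1]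

theorem li50 (C : CoreK α R R F) :
    0 ≤ dot (f [(0, 1), (22, -1)]) (pt C) := by
  have z := C.zz
  refine lin_q (1 * (2 ^ 28 * 2 ^ R) + ((-1) * (2 ^ 27 * QQ R C.W.x) + (0)) : ℤ) rfl rfl ?_
  linarith only [z.ex, z.eK, z.eP, z.eW, QQ_le (xsW C), z.U1]

theorem li53 (C : CoreK α R R F) :
    0 ≤ dot (f [(0, 1), (25, -1)]) (pt C) := by
  have z := C.zz
  refine lin_q (1 * (2 ^ 28 * 2 ^ R) + ((-1) * (2 ^ 27 * QQ R C.P2.x) + (0)) : ℤ) rfl rfl ?_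
  linarith only [z.ex, z.eK, z.eP, z.eW, QQ_le (xsP2 C), z.U1]

theorem li56 (C : CoreK α R R F) :
    0 ≤ dot (f [(0, 1), (28, -1)]) (pt C) := by
  have z := C.zz
  refine lin_q (1 * (2 ^ 28 * 2 ^ R) + ((-1) * (2 ^ 27 * QQ R C.W2.x) + (0)) : ℤ) rfl rfl ?_
  linarith only [z.ex, z.eK, z.eP, z.eW, QQ_le (xsW2 C), z.U1]

theorem li59 (C : CoreK α R R F) :
    0 ≤ dot (f [(0, 1), (31, -1)]) (pt C) := by
  have z := C.zz
  refine lin_q (1 * (2 ^ 28 * 2 ^ R) + ((-1) * (2 ^ 26 * (C.W.d 1 F.x : ℤ)) + (0)) : ℤ) rfl rfl ?_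
  linarith only [z.ex, z.eK, z.eP, z.eW, C.kW'.triv 1 F.x, z.le1, z.hi]

theorem li62 (C : CoreK α R R F) :
    0 ≤ dot (f [(0, 1), (34, -1)]) (pt C) := by
  have z := C.zz
  refine lin_q (1 * (2 ^ 28 * 2 ^ R) + ((-1) * (2 ^ 25 * (C.A.d 2 F.x : ℤ)) + (0)) : ℤ) rfl rfl ?_
  linarith only [z.ex, z.eK, z.eP, z.eW, C.kA.triv 2 F.x, z.le2, z.hi, z.q0]

theorem li65 (C : CoreK α R R F) :
    0 ≤ dot (f [(0, 1), (37, -1)]) (pt C) := by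
  have z := C.zz
  refine lin_q (1 * (2 ^ 28 * 2 ^ R) + ((-1) * (2 ^ 26 * (C.W1.d 1 F.x : ℤ)) + (0)) : ℤ) rfl rfl ?_
  linarith only [z.ex, z.eK, z.eP, z.eW, C.kW1b.triv 1 F.x, z.h3, z.f1, z.hi]

theorem li68 (C : CoreK α R R F) :
    0 ≤ dot (f [(0, 1), (40, -1)]) (pt C) := by
  have z := C.zz
  refine lin_q (1 * (2 ^ 28 * 2 ^ R) + ((-1) * (2 ^ 28 * max 0 ((C.w2 : ℤ) + C.W2.x - C.W1.x - C.fW)) + (0)) : ℤ) rfl rfl ?_
  linarith only [z.ex, z.eK, z.eP, z.eW, zW2_le C, z.U1, z.le1, z.hi, z.le4]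

theorem it1 (C : CoreK α R R F) (hT : ∀ i j, (dgt GT0 i j : ℤ) ≤ dg i j) :
    (ItemL.dt 4 3 2 (f [(2, -1), (21, -1), (23, 1), (24, 1)])).Sem sys (pt C) := by
  have z := C.zz
  refine dt_at (R := R) (p := C.P.x) (q := C.A.x) (r := C.K.x) rfl rfl hT (fv4 C) (fv3 C) (fv2 C) C.mK.sz C.mK.le ?_
  refine (fe_q ((-1) * (2 ^ 28 * (C.A.x : ℤ)) + ((-1) * (2 ^ 27 * QQ R C.K.x) + (1 * (2 ^ 27 * QQ R C.P.x) + (1 * (2 ^ 27 * QQ R C.A.x) + (0)))) : ℤ) rfl rfl).trans ?_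
  linarith only [z.ex, z.eK, z.eP, z.eW]

theorem it4 (C : CoreK α R R F) :
    (ItemL.tl 0 20 1 2 (f [(0, 5), (20, -6)]) 4096 4096 8 tbgL 1025).Sem sys (pt C) := by
  refine gL_at (R := R) (X := F.x) rfl rfl (fv0 C) (xsF C) ?_ (by norm_num)
  rw [fe_q (5 * (2 ^ 28 * 2 ^ R) + ((-6) * (2 ^ 27 * QQ R F.x) + (0)) : ℤ) rfl rfl]
  push_cast
  ring

theorem it6 (C : CoreK α R R F) :
    (ItemL.tl 2 20 1 2 (f [(0, 5), (21, -6)]) 4096 4096 8 tbgL 1025).Sem sys (pt C) := by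
  refine gL_at (R := R) (X := C.K.x) rfl rfl (fv2 C) (xsK C) ?_ (by norm_num)
  rw [fe_q (5 * (2 ^ 28 * 2 ^ R) + ((-6) * (2 ^ 27 * QQ R C.K.x) + (0)) : ℤ) rfl rfl]
  push_cast
  ring

theorem it9 (C : CoreK α R R F) :
    (ItemL.tl 6 20 1 2 (f [(25, 2)]) 4096 4096 8 tbgU 1025).Sem sys (pt C) := by
  refine gU_at (R := R) (X := C.P2.x) rfl rfl (fv6 C) (xsP2 C) ?_ (by norm_num)
  rw [fe_q (2 * (2 ^ 27 * QQ R C.P2.x) + (0) : ℤ) rfl rfl]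
  push_cast
  ring

theorem it12 (C : CoreK α R R F) :
    (ItemL.tl 7 20 1 2 (f [(28, 2)]) 4096 4096 8 tbgU 1025).Sem sys (pt C) := by
  refine gU_at (R := R) (X := C.W2.x) rfl rfl (fv7 C) (xsW2 C) ?_ (by norm_num)
  rw [fe_q (2 * (2 ^ 27 * QQ R C.W2.x) + (0) : ℤ) rfl rfl]
  push_cast
  ring

theorem it15 (C : CoreK α R R F) :
    (ItemL.gate 2 256 512 (.tt 2 9 4 8 (f [(0, -1), (12, 1)]) (f [(2, 2)]) 7168 7168 256 2 56 tbG3_0 129)).Sem sys (pt C) := by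
  have z := C.zz
  refine octtP_at (R := R) (rc := 28) (j := 1) (P := fun k => k = 3) small_tbG3_0 rows_tbG3_0 rfl rfl (atK C) (by norm_num) (fv2 C) (le_of_eq (fv9 C).symm) ⟨3, by omega, by norm_num⟩ (by norm_num)
    (by norm_num) (by norm_num) (by norm_num) ?_ ?_ (by norm_num) (by norm_num)
  · rw [fe_q ((-1) * (2 ^ 28 * 2 ^ R) + (1 * (2 ^ 28 * MM R C.K) + (0)) : ℤ) rfl rfl]
    norm_num1
    linarith only [z.ex, z.eK, z.eP, z.eW]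
  · rw [fe_q (2 * (2 ^ 28 * (C.A.x : ℤ)) + (0) : ℤ) rfl rfl]
    norm_num1
    linarith only [z.ex, z.eK, z.eP, z.eW]

theorem it18 (C : CoreK α R R F) :
    (ItemL.gate 2 256 512 (.tl 2 9 4 8 (f [(0, -1), (12, 1)]) 7168 256 2 tbG3_1 129)).Sem sys (pt C) := by
  have z := C.zz
  refine octlP_at (R := R) (rc := 56) (j := 1) (P := fun k => k = 3) small_tbG3_1 rows_tbG3_1 rfl rfl (atK C) (by norm_num) (fv2 C) (le_of_eq (fv9 C)) ⟨3, by omega, by norm_num⟩ (by norm_num)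
    (by norm_num) (by norm_num) (by norm_num) ?_ (by norm_num)
  · rw [fe_q ((-1) * (2 ^ 28 * 2 ^ R) + (1 * (2 ^ 28 * MM R C.K) + (0)) : ℤ) rfl rfl]
    norm_num1
    linarith only [z.ex, z.eK, z.eP, z.eW]

theorem it21 (C : CoreK α R R F) :
    (ItemL.gate 2 256 512 (.tt 2 13 4 8 (f [(0, -1), (12, 1)]) (f [(1, 1), (6, -1)]) 7168 7168 256 2 56 tbG3_0 129)).Sem sys (pt C) := by
  have z := C.zz
  refine octtP_at (R := R) (rc := 28) (j := 1) (P := fun k => k = 3) small_tbG3_0 rows_tbG3_0 rfl rfl (atKb C) (by norm_num) (fv2 C) (le_of_eq (fv13 C).symm) ⟨3, by omega, by norm_num⟩ (by norm_num)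
    (by norm_num) (by norm_num) (by norm_num) ?_ ?_ (by norm_num) (by norm_num)
  · rw [fe_q ((-1) * (2 ^ 28 * 2 ^ R) + (1 * (2 ^ 28 * MM R C.K) + (0)) : ℤ) rfl rfl]
    norm_num1
    linarith only [z.ex, z.eK, z.eP, z.eW]
  · rw [fe_q (1 * (2 ^ 28 * (C.W.x : ℤ)) + ((-1) * (2 ^ 28 * (C.f : ℤ)) + (0)) : ℤ) rfl rfl]
    norm_num1
    linarith only [z.ex, z.eK, z.eP, z.eW]

theorem it24 (C : CoreK α R R F) :
    (ItemL.gate 1 256 512 (.tl 1 10 4 8 (f [(0, -1), (13, 1)]) 7168 256 2 tbG3_1 129)).Sem sys (pt C) := by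
  have z := C.zz
  refine octlP_at (R := R) (rc := 56) (j := 1) (P := fun k => k = 3) small_tbG3_1 rows_tbG3_1 rfl rfl (atW C) (by norm_num) (fv1 C) (le_of_eq (fv10 C)) ⟨3, by omega, by norm_num⟩ (by norm_num)
    (by norm_num) (by norm_num) (by norm_num) ?_ (by norm_num)
  · rw [fe_q ((-1) * (2 ^ 28 * 2 ^ R) + (1 * (2 ^ 28 * MM R C.W) + (0)) : ℤ) rfl rfl]
    norm_num1
    linarith only [z.ex, z.eK, z.eP, z.eW]

theorem it27 (C : CoreK α R R F) :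
    (ItemL.gate 1 64 128 (.tl 1 10 1 2 (f [(0, -1), (1, -8), (13, 4)]) 7168 1024 2 tbG5_2 129)).Sem sys (pt C) := by
  have z := C.zz
  refine octlP_at (R := R) (rc := 112) (j := 3) (P := fun k => 5 ≤ k) small_tbG5_2 rows_tbG5_2 rfl rfl (atW C) (by norm_num) (fv1 C) (le_of_eq (fv10 C)) ⟨5, by omega, by norm_num⟩ (by norm_num)
    (by norm_num) (by norm_num) (by norm_num) ?_ (by norm_num)
  · rw [fe_q ((-1) * (2 ^ 28 * 2 ^ R) + ((-8) * (2 ^ 28 * (C.W.x : ℤ)) + (4 * (2 ^ 28 * MM R C.W) + (0))) : ℤ) rfl rfl]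
    norm_num1
    linarith only [z.ex, z.eK, z.eP, z.eW]

theorem it30 (C : CoreK α R R F) :
    (ItemL.gate 4 256 512 (.tt 4 11 4 8 (f [(0, -1), (14, 1)]) (f [(4, 2)]) 7168 7168 256 2 56 tbG2_0 129)).Sem sys (pt C) := by
  have z := C.zz
  refine octtP_at (R := R) (rc := 28) (j := 1) (P := fun k => k = 2) small_tbG2_0 rows_tbG2_0 rfl rfl (atP C) (by norm_num) (fv4 C) (le_of_eq (fv11 C).symm) ⟨2, by omega, by norm_num⟩ (by norm_num)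
    (by norm_num) (by norm_num) (by norm_num) ?_ ?_ (by norm_num) (by norm_num)
  · rw [fe_q ((-1) * (2 ^ 28 * 2 ^ R) + (1 * (2 ^ 28 * MM R C.P) + (0)) : ℤ) rfl rfl]
    norm_num1
    linarith only [z.ex, z.eK, z.eP, z.eW]
  · rw [fe_q (2 * (2 ^ 28 * (C.A2.x : ℤ)) + (0) : ℤ) rfl rfl]
    norm_num1
    linarith only [z.ex, z.eK, z.eP, z.eW]

theorem it33 (C : CoreK α R R F) :
    (ItemL.gate 4 256 512 (.tl 4 11 4 8 (f [(0, -1), (14, 1)]) 7168 256 2 tbG2_1 129)).Sem sys (pt C) := by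
  have z := C.zz
  refine octlP_at (R := R) (rc := 56) (j := 1) (P := fun k => k = 2) small_tbG2_1 rows_tbG2_1 rfl rfl (atP C) (by norm_num) (fv4 C) (le_of_eq (fv11 C)) ⟨2, by omega, by norm_num⟩ (by norm_num)
    (by norm_num) (by norm_num) (by norm_num) ?_ (by norm_num)
  · rw [fe_q ((-1) * (2 ^ 28 * 2 ^ R) + (1 * (2 ^ 28 * MM R C.P) + (0)) : ℤ) rfl rfl]
    norm_num1
    linarith only [z.ex, z.eK, z.eP, z.eW]

theorem it36 (C : CoreK α R R F) :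
    (ItemL.gate 4 128 256 (.tt 4 12 2 4 (f [(0, -1), (3, -2), (4, -2), (14, 2)]) (f [(2, 1), (7, -1)]) 7168 28672 512 2 112 tbG3_1 129)).Sem sys (pt C) := by
  have z := C.zz
  refine octtP_at (R := R) (rc := 56) (j := 2) (P := fun k => k = 3) small_tbG3_1 rows_tbG3_1 rfl rfl (atPb C) (by norm_num) (fv4 C) (le_of_eq (fv12 C).symm) ⟨3, by omega, by norm_num⟩ (by norm_num)
    (by norm_num) (by norm_num) (by norm_num) ?_ ?_ (by norm_num) (by norm_num)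
  · rw [fe_q ((-1) * (2 ^ 28 * 2 ^ R) + ((-2) * (2 ^ 28 * (C.P2.x : ℤ)) + ((-2) * (2 ^ 28 * (C.A2.x : ℤ)) + (2 * (2 ^ 28 * MM R C.P) + (0)))) : ℤ) rfl rfl]
    norm_num1
    linarith only [z.ex, z.eK, z.eP, z.eW]
  · rw [fe_q (1 * (2 ^ 28 * (C.A.x : ℤ)) + ((-1) * (2 ^ 28 * (C.fK : ℤ)) + (0)) : ℤ) rfl rfl]
    norm_num1
    linarith only [z.ex, z.eK, z.eP, z.eW]

theorem it39 (C : CoreK α R R F) :
    (ItemL.gate 8 256 512 (.tl 8 16 4 8 (f [(0, -1), (18, 1)]) 7168 256 2 tbG2_1 129)).Sem sys (pt C) := by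
  have z := C.zz
  refine octlP_at (R := R) (rc := 56) (j := 1) (P := fun k => k = 2) small_tbG2_1 rows_tbG2_1 rfl rfl (atW1' C) (by norm_num) (fv8 C) (le_of_eq (fv16 C)) ⟨2, by omega, by norm_num⟩ (by norm_num)
    (by norm_num) (by norm_num) (by norm_num) ?_ (by norm_num)
  · rw [fe_q ((-1) * (2 ^ 28 * 2 ^ R) + (1 * (2 ^ 28 * MM R C.W1) + (0)) : ℤ) rfl rfl]
    norm_num1
    linarith only [z.ex, z.eK, z.eP, z.eW]

theorem it42 (C : CoreK α R R F) :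
    (ItemL.gate 7 128 256 (.tt 7 17 2 4 (f [(0, -1), (5, -2), (19, 2)]) (f [(40, 1)]) 7168 28672 512 2 112 tbG3_1 129)).Sem sys (pt C) := by
  have z := C.zz
  refine octtP_at (R := R) (rc := 56) (j := 2) (P := fun k => k = 3) small_tbG3_1 rows_tbG3_1 rfl rfl (atW2 C) (by norm_num) (fv7 C) (le_of_eq (fv17 C).symm) ⟨3, by omega, by norm_num⟩ (by norm_num)
    (by norm_num) (by norm_num) (by norm_num) ?_ ?_ (by norm_num) (by norm_num)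
  · rw [fe_q ((-1) * (2 ^ 28 * 2 ^ R) + ((-2) * (2 ^ 28 * (C.W2.x : ℤ)) + (2 * (2 ^ 28 * MM R C.W2) + (0))) : ℤ) rfl rfl]
    norm_num1
    linarith only [z.ex, z.eK, z.eP, z.eW]
  · rw [fe_q (1 * (2 ^ 28 * max 0 ((C.w2 : ℤ) + C.W2.x - C.W1.x - C.fW)) + (0) : ℤ) rfl rfl]
    norm_num1
    linarith only [z.ex, z.eK, z.eP, z.eW]

theorem it45 (C : CoreK α R R F) :
    (ItemL.gate 7 64 128 (.tl 7 17 1 2 (f [(0, -1), (5, -8), (19, 4)]) 7168 1024 2 tbG4_1 129)).Sem sys (pt C) := by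
  have z := C.zz
  refine octlP_at (R := R) (rc := 56) (j := 3) (P := fun k => k = 4) small_tbG4_1 rows_tbG4_1 rfl rfl (atW2 C) (by norm_num) (fv7 C) (le_of_eq (fv17 C)) ⟨4, by omega, by norm_num⟩ (by norm_num)
    (by norm_num) (by norm_num) (by norm_num) ?_ (by norm_num)
  · rw [fe_q ((-1) * (2 ^ 28 * 2 ^ R) + ((-8) * (2 ^ 28 * (C.W2.x : ℤ)) + (4 * (2 ^ 28 * MM R C.W2) + (0))) : ℤ) rfl rfl]
    norm_num1
    linarith only [z.ex, z.eK, z.eP, z.eW]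

theorem it48 (C : CoreK α R R F) (hn : 1 ≤ R) :
    (ItemL.gate 6 256 512 (.tt 6 14 4 8 (f [(0, -1), (16, 1)]) (f [(4, 1), (8, -1)]) 7168 28672 256 2 224 tbG1_2 129)).Sem sys (pt C) := by
  have z := C.zz
  refine octtP_at (R := R) (rc := 112) (j := 1) (P := fun k => k = 1) small_tbG1_2 rows_tbG1_2 rfl rfl (atP2 C hn) (by norm_num) (fv6 C) (le_of_eq (fv14 C).symm) ⟨1, by omega, by norm_num⟩ (by norm_num)
    (by norm_num) (by norm_num) (by norm_num) ?_ ?_ (by norm_num) (by norm_num)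
  · rw [fe_q ((-1) * (2 ^ 28 * 2 ^ R) + (1 * (2 ^ 28 * MM R C.P2) + (0)) : ℤ) rfl rfl]
    norm_num1
    linarith only [z.ex, z.eK, z.eP, z.eW]
  · rw [fe_q (1 * (2 ^ 28 * (C.A2.x : ℤ)) + ((-1) * (2 ^ 28 * (C.fP : ℤ)) + (0)) : ℤ) rfl rfl]
    norm_num1
    linarith only [z.ex, z.eK, z.eP, z.eW]

theorem it51 (C : CoreK α R R F) (hn : 1 ≤ R) :
    (ItemL.gate 6 128 256 (.tl 6 14 2 4 (f [(0, -1), (3, -2), (16, 2)]) 7168 512 2 tbG2_0 129)).Sem sys (pt C) := by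
  have z := C.zz
  refine octlP_at (R := R) (rc := 28) (j := 2) (P := fun k => k = 2) small_tbG2_0 rows_tbG2_0 rfl rfl (atP2 C hn) (by norm_num) (fv6 C) (le_of_eq (fv14 C)) ⟨2, by omega, by norm_num⟩ (by norm_num)
    (by norm_num) (by norm_num) (by norm_num) ?_ (by norm_num)
  · rw [fe_q ((-1) * (2 ^ 28 * 2 ^ R) + ((-2) * (2 ^ 28 * (C.P2.x : ℤ)) + (2 * (2 ^ 28 * MM R C.P2) + (0))) : ℤ) rfl rfl]
    norm_num1
    linarith only [z.ex, z.eK, z.eP, z.eW]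

theorem it54 (C : CoreK α R R F) :
    (ItemL.gate 25 0 256 (.tt 0 26 8 16 (f [(1, -1), (2, -1), (3, -1), (4, -1), (11, 2)]) (f [(0, 2), (1, 1), (2, -1), (3, -1), (4, -1)]) 1984 23808 128 2 372 tbT4_6 129)).Sem sys (pt C) := by
  have z := C.zz
  refine t4t_at (R := R) (rc := 186) (X := F.x) (u := C.W.x) (l := 2 * MM R F - F.x) rfl rfl (fv0 C) (fv25 C) (fv26 C) (fun h => rows_CtbT4_6 C h) ?_ ?_ (by norm_num) (by norm_num)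
  · rw [fe_q ((-1) * (2 ^ 28 * (C.W.x : ℤ)) + ((-1) * (2 ^ 28 * (C.A.x : ℤ)) + ((-1) * (2 ^ 28 * (C.P2.x : ℤ)) + ((-1) * (2 ^ 28 * (C.A2.x : ℤ)) + (2 * (2 ^ 28 * MM R F) + (0))))) : ℤ) rfl rfl]
    norm_num1
    linarith only [z.ex, z.eK, z.eP, z.eW]
  · rw [fe_q (2 * (2 ^ 28 * 2 ^ R) + (1 * (2 ^ 28 * (C.W.x : ℤ)) + ((-1) * (2 ^ 28 * (C.A.x : ℤ)) + ((-1) * (2 ^ 28 * (C.P2.x : ℤ)) + ((-1) * (2 ^ 28 * (C.A2.x : ℤ)) + (0))))) : ℤ) rfl rfl]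
    norm_num1
    linarith only [z.ex, z.eK, z.eP, z.eW]

theorem it57 (C : CoreK α R R F) :
    (ItemL.mc 5 22 (f [(36, 1)])).Sem sys (pt C) := by
  have z := C.zz
  have ht := ty C
  refine mc_at (R := R) (j := 0) (t := (F.x - 2 ^ R)) (l := 0) (c := 1) (r := 1) rfl C.kA2 (by omega) ?_ (by norm_num) (fv5 C) ?_ ?_ (by norm_num)
  · rw [ht]; norm_num1
    linarith only [z.hi, z.lo, z.U1]
  · rw [fv22 C, ht]
    norm_num1
    linarith only [z.ex, z.eK, z.eP, z.eW]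
  · refine (fe_q (1 * (2 ^ 27 * (C.A2.d 0 (F.x - 2 ^ R) : ℤ)) + (0) : ℤ) rfl rfl).trans ?_
    norm_num1
    linarith only [z.ex, z.eK, z.eP, z.eW]

theorem it60 (C : CoreK α R R F) (hn : 1 ≤ R) :
    (ItemL.ts 6 32 (f [(3, 1), (16, 1), (25, -2), (35, -1)]) 20480 256 16 tbTTc 33 8 64 [(0, 1, 2, 80)] tbTAc 2).Sem sys (pt C) := by
  have z := C.zz
  refine tsc_at (R := R) (j := 1) (t := F.x) rfl rfl (atP2 C hn) (fun s X h1 h2 => C.ih s X (by omega) h2) (fv6 C) (fv0 C) (xsP2 C) (by norm_num) (by norm_num) (by norm_num) ?_ chkTc1 chkTc2 chkTc3 chkTc4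
  refine (fe_q (1 * (2 ^ 28 * (C.P2.x : ℤ)) + (1 * (2 ^ 28 * MM R C.P2) + ((-2) * (2 ^ 27 * QQ R C.P2.x) + ((-1) * (2 ^ 26 * (C.P2.d 1 F.x : ℤ)) + (0)))) : ℤ) rfl rfl).trans ?_
  norm_num1
  linarith only [z.ex, z.eK, z.eP, z.eW]

end Pool.Agent.EdgeIso.Chk.CoreK3
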