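import Pool.Agent.Lib.MP_48c8f3_co.Bas
import Pool.Agent.Lib.MP_48c8f3_co.WFd
import Pool.Agent.Lib.MP_48c8f3_co.FN
import Pool.Agent.Lib.MP_48c8f3_co.KRa
import Pool.Agent.Lib.MP_48c8f3_co.LPb

set_option autoImplicit false
set_option linter.unusedSectionVars false

/-!
MP_48c8f3_co: rows of tables from the Walsh bound (T4), with the tangent of `κ`, in the form with a
penalty, for all scales (also below the mesh).
-/

namespace Pool.Agent.EdgeIso.Walsh

open Finset Pool.Agent.EdgeIso.Frame Pool.Agent.EdgeIso.LemmaP Pool.Agent.EdgeIso.Chk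

variable {α : Type*} [DecidableEq α]

/-- scaled lower bound for the boundary -/
theorem bd_lower_scaled {G : ℕ} (hG : 0 < G) {s : Finset α} {F : Finset (Finset α)} (hF : Sub s F)
    {c M κ : ℤ} (hc : 0 < c) (hM : 0 ≤ M)
    (hβ : ∀ j ∈ s, c * |beta F j| ≤ M) (hb : ∀ j ∈ s, c * ((dF F j).card : ℤ) ≤ 3 * M)
    (hκ : Kap G (c * 2 ^ s.card) M κ) :
    c * (12 * (F.card : ℤ) * (2 ^ s.card - F.card)) ≤ (c * (2 * 2 ^ s.card) + κ) * bd s F := by
  have h1 := mul_le_mul_of_nonneg_left (master hF) hc.le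
  have h2 : ∑ j ∈ s, c * (2 * 2 ^ s.card * ((dF F j).card : ℤ) + 8 * beta F j ^ 2 +
      2 * A2 s F j) ≤ ∑ j ∈ s, (c * (2 * 2 ^ s.card) + κ) * ((dF F j).card : ℤ) := by
    apply sum_le_sum
    intro j hj
    have h4 : (0 : ℤ) ≤ (dF F j).card := by positivity
    have h5 := A2_nonneg s F j
    have hlt := level_two hF hj
    have h3 := dir_bound (V := c * 2 ^ s.card) (b := c * ((dF F j).card : ℤ)) (β := c * beta F j)
      (A := c ^ 2 * A2 s F j) hG (by positivity) (by positivity) hM (by positivity)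
      (by
        have := mul_le_mul_of_nonneg_left hlt (by positivity : (0 : ℤ) ≤ c ^ 4)
        refine le_trans (le_of_eq (by ring)) (this.trans (le_of_eq (by ring))))
      (by rw [abs_mul, abs_of_pos hc]; exact hβ j hj)
      (by
        rw [abs_mul, abs_of_pos hc]
        exact mul_le_mul_of_nonneg_left (abs_beta_le F j) hc.le) (hb j hj) hκ
    have h6 : c * (c * (8 * beta F j ^ 2 + 2 * A2 s F j)) ≤ c * (κ * (dF F j).card) := by
      refine le_trans (le_of_eq (by ring)) (h3.trans (le_of_eq (by ring)))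
    have h7 := le_of_mul_le_mul_left h6 hc
    linarith
  rw [← mul_sum, ← mul_sum] at h2
  rw [bd_eq_sum]
  push_cast at h1 ⊢
  exact h1.trans h2

/-- the condition for the tangent `κ + (k1 / d) (M' - M)` -/
def Tan (G : ℕ) (V M κ k1 d : ℤ) : Prop :=
  ∀ i : ℕ, i < 2 * G → 8 * (G : ℤ) * d ≤ k1 * (G + i) ∧
    6 * ((G : ℤ) + i) ^ 2 * (G + i + 1) * V * d ≤
      2 * (G * (κ * (G + i) - 8 * G * M) * (k1 * (G + i) - 8 * G * d))

/-- the tangent lies above `κ` -/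
theorem kap_tangent {G : ℕ} {V M κ k1 d : ℤ} (hd : 0 ≤ d) (h : Kap G V M κ)
    (ht : Tan G V M κ k1 d) {M' : ℤ} (hM : M ≤ M') :
    Kap G (d * V) (d * M') (d * κ + k1 * (M' - M)) := by
  intro i hi
  obtain ⟨a1, a2⟩ := h i hi
  obtain ⟨b1, b2⟩ := ht i hi
  obtain ⟨δ, hδ⟩ : ∃ δ, δ = M' - M := ⟨_, rfl⟩
  have hδ0 : 0 ≤ δ := by linarith
  have hM' : M' = M + δ := by linarith
  rw [hM', add_sub_cancel_left]
  obtain ⟨A, hA⟩ : ∃ A, A = κ * ((G : ℤ) + i) - 8 * G * M := ⟨_, rfl⟩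
  obtain ⟨B, hB⟩ : ∃ B, B = k1 * ((G : ℤ) + i) - 8 * G * d := ⟨_, rfl⟩
  rw [← hA] at a2 b2
  rw [← hB] at b2
  have hA0 : 0 ≤ A := by linarith
  have hB0 : 0 ≤ B := by linarith
  constructor
  · have e1 := mul_le_mul_of_nonneg_left a1 hd
    have e2 := mul_le_mul_of_nonneg_right b1 hδ0
    linarith
  · have e3 : (d * κ + k1 * δ) * ((G : ℤ) + i) - 8 * G * (d * (M + δ)) = d * A + δ * B := by
      rw [hA, hB]
      ring
    rw [e3]
    have e4 := mul_le_mul_of_nonneg_left a2 (sq_nonneg d)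
    have e5 := mul_le_mul_of_nonneg_left b2 (mul_nonneg hd hδ0)
    have e6 : (0 : ℤ) ≤ G * (δ * B) ^ 2 := by positivity
    calc 6 * ((G : ℤ) + i) ^ 2 * (G + i + 1) * (d * V) * (d * (M + δ)) =
        d ^ 2 * (6 * ((G : ℤ) + i) ^ 2 * (G + i + 1) * V * M) +
          d * δ * (6 * ((G : ℤ) + i) ^ 2 * (G + i + 1) * V * d) := by ring
      _ ≤ d ^ 2 * (G * A ^ 2) + d * δ * (2 * (G * A * B)) := by linarith
      _ ≤ d ^ 2 * (G * A ^ 2) + d * δ * (2 * (G * A * B)) + G * (δ * B) ^ 2 := by linarith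
      _ = G * (d * A + δ * B) ^ 2 := by ring

/-- homogeneity -/
theorem Tan.scale {G : ℕ} {V M κ k1 d : ℤ} (h : Tan G V M κ k1 d) {c : ℤ} (hc : 0 ≤ c) :
    Tan G (c * V) (c * M) (c * κ) k1 d := by
  intro i hi
  obtain ⟨h1, h2⟩ := h i hi
  refine ⟨h1, ?_⟩
  have := mul_le_mul_of_nonneg_left h2 hc
  refine le_trans (le_of_eq (by ring)) (this.trans (le_of_eq (by ring)))

/-- decidable form -/
def tanB (G V M κ k1 d : ℕ) : Bool :=
  (List.range (2 * G)).all fun i => Nat.ble (8 * G * M) (κ * (G + i)) &&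
    Nat.ble (8 * G * d) (k1 * (G + i)) &&
    Nat.ble (6 * (G + i) ^ 2 * (G + i + 1) * V * d)
      (2 * (G * (κ * (G + i) - 8 * G * M) * (k1 * (G + i) - 8 * G * d)))

theorem tan_of_tanB {G V M κ k1 d : ℕ} (h : tanB G V M κ k1 d = true) : Tan G V M κ k1 d := by
  intro i hi
  unfold tanB at h
  have h1 := List.all_eq_true.mp h i (List.mem_range.mpr hi)
  simp only [Bool.and_eq_true, Nat.ble_eq] at h1
  obtain ⟨⟨h2, h3⟩, h4⟩ := h1
  constructor
  · exact_mod_cast h3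
  · have h5 : ((6 * (G + i) ^ 2 * (G + i + 1) * V * d : ℕ) : ℤ) ≤
        ((2 * (G * (κ * (G + i) - 8 * G * M) * (k1 * (G + i) - 8 * G * d)) : ℕ) : ℤ) := by
      exact_mod_cast h4
    rw [Nat.cast_mul 2, Nat.cast_mul (G * _), Nat.cast_mul G, Nat.cast_sub h2,
      Nat.cast_sub h3] at h5
    push_cast at h5 ⊢
    exact h5

/-! ### the boolean check -/

end Pool.Agent.EdgeIso.Walsh
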