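import Pool.Agent.Lib.MP_48c8f3_co.Bas
import Pool.Agent.Lib.MP_48c8f3_co.KSa
import Pool.Agent.Lib.MP_48c8f3_co.KGb

set_option autoImplicit false
set_option linter.unusedSectionVars false

/-!
MP_48c8f3_co: tables for the loss of a counterexample from the Walsh bound (T4) and the Fourier
bound, in the normal form of rows.
-/

namespace Pool.Agent.EdgeIso.Walsh

open Finset Pool.Agent.EdgeIso.Frame Pool.Agent.EdgeIso.LemmaP Pool.Agent.EdgeIso.Chk

variable {α : Type*} [DecidableEq α]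

/-- The Walsh bound with the tangent, scaled; the constants are given in the unit `1 / e`. -/
theorem t4_tangent_e {γ N G : ℕ} {s : Finset α} (hs : s.card = N + 2)
    {F : Finset (Finset α)} (hF : Sub s F)
    (IH : ∀ (s' : Finset α) (F' : Finset (Finset α)), s'.card < s.card → Sub s' F' → TC 2 s' F')
    (hneg : ¬ TC 2 s F) {u : ℕ} (hu : MinHalf s F u) (hG : 0 < G) {e M κ k1 d : ℤ} (he : 0 < e)
    (hd : 0 < d) (hM0 : 0 ≤ M) (hκ : Kap G (e * 2 ^ (γ + 2)) (e * M) κ)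
    (ht : Tan G (e * 2 ^ (γ + 2)) (e * M) κ k1 d) :
    d * (e * (12 * (2 ^ γ * (F.card : ℤ)) * (2 ^ N * 2 ^ (γ + 2) - 2 ^ γ * F.card))) ≤
      (d * (2 ^ N * (2 * (e * 2 ^ (γ + 2)) + κ)) +
        k1 * (e * max 0 (2 ^ γ * ((F.card : ℤ) - 2 * u) - 2 ^ N * M))) *
        (2 ^ γ * (L2 s F + tk (N + 2) F.card)) := by
  obtain ⟨δ, hδ⟩ : ∃ δ, δ = max 0 (2 ^ γ * ((F.card : ℤ) - 2 * u) - 2 ^ N * M) := ⟨_, rfl⟩
  rw [← hδ]
  have hδ0 : 0 ≤ δ := by rw [hδ]; exact le_max_left _ _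
  have hδ1 : 2 ^ γ * ((F.card : ℤ) - 2 * u) - 2 ^ N * M ≤ δ := by rw [hδ]; exact le_max_right _ _
  have hN : (0 : ℤ) < 2 ^ N := by positivity
  have hγ : (0 : ℤ) < 2 ^ γ := by positivity
  have heδ : 0 ≤ e * δ := by positivity
  have k1' := hκ.scale hN.le
  have k2' := ht.scale hN.le
  have k3 := kap_tangent hd.le k1' k2' (M' := 2 ^ N * (e * M) + e * δ) (by linarith)
  rw [add_sub_cancel_left] at k3
  have hV : d * (2 ^ N * (e * 2 ^ (γ + 2))) = (d * (e * 2 ^ γ)) * 2 ^ s.card := by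
    rw [hs]
    ring
  rw [hV] at k3
  have hMd : 0 ≤ d * (2 ^ N * (e * M) + e * δ) := by positivity
  have h1 := bd_lower_scaled hG hF (c := d * (e * 2 ^ γ)) (by positivity) hMd
    (fun j hj => by
      have h2 := beta_le hu hj
      have h3 : 2 ^ γ * |beta F j| ≤ 2 ^ N * M + δ := by
        have := mul_le_mul_of_nonneg_left h2 hγ.le
        linarith
      have h4 := mul_le_mul_of_nonneg_left h3 (mul_pos hd he).le
      linarith)
    (fun j hj => by
      have h2 := (counterexample_dF hF IH hneg hj).trans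
        (mul_le_mul_of_nonneg_left (beta_le hu hj) (by norm_num))
      have h3 : 2 ^ γ * ((dF F j).card : ℤ) ≤ 3 * (2 ^ N * M + δ) := by
        have := mul_le_mul_of_nonneg_left h2 hγ.le
        linarith
      have h4 := mul_le_mul_of_nonneg_left h3 (mul_pos hd he).le
      linarith) k3
  have h3 : (bd s F : ℤ) = L2 s F + tk (N + 2) F.card := by
    have h2 := bd_add_e2 s F
    unfold L2 tk
    have : ((bd s F : ℤ) + e2 s F) = s.card * F.card := by exact_mod_cast h2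
    rw [← hs]
    linarith
  rw [h3, hs] at h1
  have h4 := mul_le_mul_of_nonneg_left h1 hγ.le
  refine le_trans (le_of_eq (by ring)) (h4.trans (le_of_eq (by ring)))

/-- The Fourier bound in the same form. -/
theorem fourier_same {γ N : ℕ} {s : Finset α} (hs : s.card = N + 2)
    {F : Finset (Finset α)} (hF : Sub s F) {u : ℕ} (hu : MinHalf s F u)
    (hux : 2 * (u : ℤ) ≤ F.card) {M : ℤ} :
    12 * (2 ^ γ * (F.card : ℤ)) * (2 ^ N * 2 ^ (γ + 2) - 2 ^ γ * F.card) ≤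
      (2 ^ N * (3 * (2 ^ (γ + 2) + 2 * M)) +
        6 * (max 0 (2 ^ γ * ((F.card : ℤ) - 2 * u) - 2 ^ N * M))) *
        (2 ^ γ * (L2 s F + tk (N + 2) F.card)) := by
  obtain ⟨δ, hδ⟩ : ∃ δ, δ = max 0 (2 ^ γ * ((F.card : ℤ) - 2 * u) - 2 ^ N * M) := ⟨_, rfl⟩
  rw [← hδ]
  have hδ1 : 2 ^ γ * ((F.card : ℤ) - 2 * u) - 2 ^ N * M ≤ δ := by rw [hδ]; exact le_max_right _ _
  have hγ : (0 : ℤ) < 2 ^ γ := by positivity
  have h1 := fourier_L2 hF (v := 2 * (u : ℤ)) (fun j hj c => by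
    have := hu j hj c
    omega) hux
  have e0 : (s.card : ℤ) * F.card - 2 * g F.card = tk (N + 2) F.card := by
    rw [← hs]
    rfl
  rw [e0, hs] at h1
  have hL := L2_nonneg hF
  have htn : 0 ≤ tk (N + 2) F.card := tk_nonneg _ _ (by rw [← hs]; exact hF.card_le)
  have hS : 0 ≤ 2 ^ γ * (L2 s F + tk (N + 2) F.card) := by positivity
  have h2 := mul_le_mul_of_nonneg_left h1 (by positivity : (0 : ℤ) ≤ 3 * 2 ^ γ * 2 ^ γ)
  have h3 : 2 ^ γ * (3 * (2 ^ (N + 2) + 2 * ((F.card : ℤ) - 2 * u))) ≤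
      2 ^ N * (3 * (2 ^ (γ + 2) + 2 * M)) + 6 * δ := by
    have : (2 : ℤ) ^ γ * 2 ^ (N + 2) = 2 ^ N * 2 ^ (γ + 2) := by ring
    linarith
  have h4 := mul_le_mul_of_nonneg_right h3 hS
  refine le_trans (le_of_eq (by ring)) (h2.trans (le_trans (le_of_eq (by ring)) h4))

/-- The step from the quadratic inequality to a row. -/
theorem row_core {γ N i x : ℕ} {L e d k1 D0 δ c rc t0 t1 : ℤ} (he : 0 < e) (hd : 0 < d)
    (hk1 : 0 < k1) (hD0 : 0 < D0) (hδ0 : 0 ≤ δ) (hc : 0 ≤ c) (hrc : 0 ≤ rc)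
    (hL : 0 ≤ L + tk (N + 2) x)
    (H : d * (e * (12 * (2 ^ γ * (x : ℤ)) * (2 ^ N * 2 ^ (γ + 2) - 2 ^ γ * x))) ≤
      (d * (2 ^ N * D0) + k1 * (e * δ)) * (2 ^ γ * (L + tk (N + 2) x)))
    (ht0 : 3 * D0 * t0 ≤ c * (e * (36 * (i * (2 ^ (γ + 2) - i))) - D0 * (3 * tk (γ + 2) i + 2)))
    (ht1 : 3 * D0 * t1 ≤ c * (e * (36 * (((i : ℤ) + 1) * (2 ^ (γ + 2) - (i + 1)))) -
      D0 * (3 * tk (γ + 2) (i + 1) + 2)))
    (hs0 : c * (k1 * (e ^ 2 * (12 * (i * (2 ^ (γ + 2) - i)) + 3))) ≤ rc * (d * D0 ^ 2))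
    (hs1 : c * (k1 * (e ^ 2 * (12 * (((i : ℤ) + 1) * (2 ^ (γ + 2) - (i + 1))) + 3))) ≤
      rc * (d * D0 ^ 2))
    (h1 : 2 ^ N * i ≤ 2 ^ γ * x) (h2 : 2 ^ γ * x ≤ 2 ^ N * (i + 1)) :
    (2 ^ N * ((i : ℤ) + 1) - 2 ^ γ * x) * t0 + (2 ^ γ * (x : ℤ) - 2 ^ N * i) * t1 ≤
      c * (2 ^ γ * L) + rc * δ := by
  have htk := tk_interp h1 h2
  have z1 : (2 : ℤ) ^ N * i ≤ 2 ^ γ * x := by exact_mod_cast h1
  have z2 : (2 : ℤ) ^ γ * x ≤ 2 ^ N * ((i : ℤ) + 1) := by exact_mod_cast h2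
  have ts0 : tk (γ + 2) i = tk γ i + 2 * i := by
    rw [show γ + 2 = (γ + 1) + 1 from rfl, tk_succ, tk_succ]; ring
  have ts1 : tk (γ + 2) (i + 1) = tk γ (i + 1) + 2 * (i + 1) := by
    rw [show γ + 2 = (γ + 1) + 1 from rfl, tk_succ, tk_succ]; push_cast; ring
  have tsx : tk (N + 2) x = tk N x + 2 * x := by
    rw [show N + 2 = (N + 1) + 1 from rfl, tk_succ, tk_succ]; ring
  obtain ⟨S, hS⟩ : ∃ S, S = 2 ^ γ * (L + tk (N + 2) x) := ⟨_, rfl⟩
  have hS0 : 0 ≤ S := by rw [hS]; positivity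
  rw [← hS] at H
  rw [ts0] at ht0
  rw [ts1] at ht1
  rw [tsx] at hS
  clear hL ts0 ts1 tsx h1 h2
  generalize tk γ i = τ0 at *
  generalize tk γ (i + 1) = τ1 at *
  generalize tk N x = τx at *
  generalize (x : ℤ) = x at *
  have hU : (0 : ℤ) < 2 ^ N := by positivity
  have hγ : (0 : ℤ) < 2 ^ γ := by positivity
  generalize (2 : ℤ) ^ N = U at *
  generalize (2 : ℤ) ^ (γ + 2) = v at *
  obtain ⟨X, hX⟩ : ∃ X, X = (2 : ℤ) ^ γ * x := ⟨_, rfl⟩
  rw [← hX] at H htk z1 z2 ⊢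
  obtain ⟨A, hA⟩ : ∃ A, A = U * ((i : ℤ) + 1) - X := ⟨_, rfl⟩
  obtain ⟨B, hB⟩ : ∃ B, B = X - U * i := ⟨_, rfl⟩
  have hAB : A + B = U := by rw [hA, hB]; ring
  have hA0 : 0 ≤ A := by rw [hA]; linarith only [z2]
  have hB0 : 0 ≤ B := by rw [hB]; linarith only [z1]
  have hXB : X = U * i + B := by rw [hB]; ring
  rw [← hA, ← hB] at htk ⊢
  obtain ⟨P, hP⟩ : ∃ P, P = 12 * X * (U * v - X) := ⟨_, rfl⟩
  rw [← hP] at H
  -- the numerator is large enough and small enough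
  have hAB0 : 0 ≤ A * B := mul_nonneg hA0 hB0
  have eP : P = U * (A * (12 * (i * (v - i))) + B * (12 * (((i : ℤ) + 1) * (v - (i + 1))))) +
      12 * (A * B) := by
    rw [hP, hXB, ← hAB]
    ring
  have hP2 : c * (k1 * (e ^ 2 * P)) ≤ rc * (d * (U * D0) ^ 2) := by
    have q1 := mul_le_mul_of_nonneg_left hs0 hA0
    have q2 := mul_le_mul_of_nonneg_left hs1 hB0
    have q3 : 12 * (A * B) ≤ 3 * U ^ 2 := by
      rw [← hAB]
      have e1 : 3 * (A + B) ^ 2 - 12 * (A * B) = 3 * (A - B) ^ 2 := by ring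
      have e2 := sq_nonneg (A - B)
      linarith only [e1, e2]
    have q4 := mul_le_mul_of_nonneg_left q3
      (mul_nonneg (mul_nonneg hc hk1.le) (sq_nonneg e))
    have q5 : U * (A * (c * (k1 * (e ^ 2 * (12 * ((i : ℤ) * (v - i)) + 3)))) +
        B * (c * (k1 * (e ^ 2 * (12 * (((i : ℤ) + 1) * (v - (i + 1))) + 3))))) ≤
        U * (A * (rc * (d * D0 ^ 2)) + B * (rc * (d * D0 ^ 2))) :=
      mul_le_mul_of_nonneg_left (by linarith only [q1, q2]) hU.le
    have e1 : U * (A * (rc * (d * D0 ^ 2)) + B * (rc * (d * D0 ^ 2))) =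
        rc * (d * (U * D0) ^ 2) := by
      rw [← add_mul, hAB]
      ring
    have e2 : U * (A * (c * (k1 * (e ^ 2 * (12 * ((i : ℤ) * (v - i)) + 3)))) +
        B * (c * (k1 * (e ^ 2 * (12 * (((i : ℤ) + 1) * (v - (i + 1))) + 3))))) =
        c * (k1 * (e ^ 2 * (U * (A * (12 * (i * (v - i))) +
          B * (12 * (((i : ℤ) + 1) * (v - (i + 1)))))))) +
          c * k1 * e ^ 2 * (3 * (U * (A + B))) := by ring
    rw [e1, e2, hAB] at q5
    rw [eP]
    linarith only [q5, q4]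
  -- the bound with the penalty
  have hF4 : c * (e * P) ≤ (U * D0) * (c * S + rc * δ) := by
    obtain ⟨D, hD⟩ : ∃ D, D = U * D0 := ⟨_, rfl⟩
    have hDpos : 0 < D := by rw [hD]; positivity
    rw [← hD] at H hP2 ⊢
    rcases le_total (c * (k1 * (e * S))) (rc * (d * D)) with hcase | hcase
    · -- small `S`
      have q1 := mul_le_mul_of_nonneg_left H hc
      have q2 := mul_le_mul_of_nonneg_left hcase hδ0
      have q3 : d * (c * (e * P)) ≤ d * (D * (c * S + rc * δ)) := by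
        linarith only [q1, q2]
      exact le_of_mul_le_mul_left q3 hd
    · have q1 := mul_le_mul_of_nonneg_left hcase hDpos.le
      have q2 : (k1 * e) * (c * (e * P)) ≤ (k1 * e) * (D * (c * S)) := by
        linarith only [q1, hP2]
      have q3 := le_of_mul_le_mul_left q2 (mul_pos hk1 he)
      have q4 : 0 ≤ D * (rc * δ) := by positivity
      linarith only [q3, q4]
  -- linear form
  have h5 : U * (c * (e * (A * (12 * (i * (v - i))) +
      B * (12 * (((i : ℤ) + 1) * (v - (i + 1))))))) ≤ U * (D0 * (c * S + rc * δ)) := by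
    have q1 : 0 ≤ c * (e * (12 * (A * B))) := by positivity
    rw [eP] at hF4
    linarith only [q1, hF4]
  have h6 := le_of_mul_le_mul_left h5 hU
  have h7 : 3 * S ≤ 3 * (2 ^ γ * L) + 3 * (A * (τ0 + 2 * i) + B * (τ1 + 2 * (i + 1))) +
      2 * (A + B) := by
    have e1 : 3 * S = 3 * (2 ^ γ * L) + 3 * (2 ^ γ * τx) + 6 * X := by
      rw [hS, hX]
      ring
    have e2 : X = A * i + B * (i + 1) := by
      rw [hXB, ← hAB]
      ring
    rw [e1, hAB]
    have e3 : 6 * X = 6 * (A * i + B * (i + 1)) := by rw [← e2]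
    linarith only [e3, htk]
  have h8 : D0 * (c * (3 * S)) ≤ D0 * (c * (3 * (2 ^ γ * L) +
      3 * (A * (τ0 + 2 * i) + B * (τ1 + 2 * (i + 1))) + 2 * (A + B))) :=
    mul_le_mul_of_nonneg_left (mul_le_mul_of_nonneg_left h7 hc) hD0.le
  have h9 := mul_le_mul_of_nonneg_left ht0 hA0
  have h10 := mul_le_mul_of_nonneg_left ht1 hB0
  have h11 : (3 * D0) * (A * t0 + B * t1) ≤ (3 * D0) * (c * (2 ^ γ * L) + rc * δ) := by
    linarith only [h6, h8, h9, h10]
  exact le_of_mul_le_mul_left h11 (by positivity)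

/-! ### the boolean check -/

/-- the kind of a row: Fourier, or Walsh with the constants `κ`, `k1 / d` in the unit `1 / e` -/
inductive GRow where
  | fo
  | t4 (G e κ k1 d : ℕ)

/-- the check of an entry `t` at the lattice point `i`; `sh` is the shift -/
def entG (GT n c rc D e k1 d sh i t : ℕ) : Bool :=
  Nat.ble i (2 ^ n) && Nat.ble (2 * gt GT i) (n * i) &&
  Nat.ble (3 * D * t + c * (D * (3 * (n * i - 2 * gt GT i) + 2)))
    (c * (e * (36 * (i * (2 ^ n - i)))) + 3 * D * sh) &&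
  Nat.ble (c * (k1 * (e ^ 2 * (12 * (i * (2 ^ n - i)) + 3)))) (rc * (d * D ^ 2))

theorem entG_spec {GT n c rc D e k1 d sh i t : ℕ} (h : entG GT n c rc D e k1 d sh i t = true)
    (hg : gt GT i = g i) :
    3 * (D : ℤ) * (t - sh) ≤ c * (e * (36 * (i * (2 ^ n - i))) - D * (3 * tk n i + 2)) ∧
      (c : ℤ) * (k1 * (e ^ 2 * (12 * (i * (2 ^ n - i)) + 3))) ≤ rc * (d * D ^ 2) := by
  unfold entG at h
  simp only [Bool.and_eq_true, Nat.ble_eq] at h
  rw [hg] at h
  obtain ⟨⟨⟨h1, h2⟩, h3⟩, h4⟩ := h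
  have e1 : ((n * i - 2 * g i : ℕ) : ℤ) = tk n i := by
    rw [Nat.cast_sub h2]
    unfold tk
    push_cast
    rfl
  have e2 : ((2 ^ n - i : ℕ) : ℤ) = 2 ^ n - i := by
    rw [Nat.cast_sub h1]
    push_cast
    rfl
  constructor
  · have h5 : ((3 * D * t + c * (D * (3 * (n * i - 2 * g i) + 2)) : ℕ) : ℤ) ≤
        ((c * (e * (36 * (i * (2 ^ n - i)))) + 3 * D * sh : ℕ) : ℤ) := by exact_mod_cast h3
    rw [Nat.cast_add, Nat.cast_mul c, Nat.cast_mul D, Nat.cast_add (3 * _) 2,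
      Nat.cast_mul 3 (n * i - 2 * g i), e1, Nat.cast_add, Nat.cast_mul c, Nat.cast_mul e,
      Nat.cast_mul 36, Nat.cast_mul i, e2] at h5
    push_cast at h5
    linarith
  · have h5 : ((c * (k1 * (e ^ 2 * (12 * (i * (2 ^ n - i)) + 3))) : ℕ) : ℤ) ≤
        ((rc * (d * D ^ 2) : ℕ) : ℤ) := by exact_mod_cast h4
    rw [Nat.cast_mul c, Nat.cast_mul k1, Nat.cast_mul (e ^ 2), Nat.cast_add (12 * _),
      Nat.cast_mul 12, Nat.cast_mul i, e2] at h5
    push_cast at h5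
    exact h5

/-- the check of the row `b`, intervals `y ≤ I` at the lattice points `off + y` -/
def rowG (GT γ c rc T W I sh M b : ℕ) : GRow → Bool
  | .fo => allB (I + 1) (fun y =>
      entG GT (γ + 2) c rc (3 * (2 ^ (γ + 2) + 2 * M)) 1 6 1 sh (2 ^ γ + y) (tab T W b y))
  | .t4 G e κ k1 d => Nat.ble 1 G && Nat.ble 1 e && Nat.ble 1 d &&
      kapB G (e * 2 ^ (γ + 2)) (e * M) κ && tanB G (e * 2 ^ (γ + 2)) (e * M) κ k1 d &&
      allB (I + 1) (fun y =>
        entG GT (γ + 2) c rc (2 * (e * 2 ^ (γ + 2)) + κ) e k1 d sh (2 ^ γ + y) (tab T W b y))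

/-- a row holds on all intervals below `I` -/
theorem rowG_sound {GT γ c rc T W I sh M b MM N y : ℕ} {r : GRow} {s : Finset α}
    (hs : s.card = N + 2) {F : Finset (Finset α)} (hF : Sub s F)
    (IH : ∀ (s' : Finset α) (F' : Finset (Finset α)), s'.card < s.card → Sub s' F' → TC 2 s' F')
    (hneg : ¬ TC 2 s F) {u : ℕ} (hu : MinHalf s F u) (hux : 2 * (u : ℤ) ≤ F.card)
    (hGT : gtOK GT MM = true) (hI : 2 ^ γ + I < 2 * MM)
    (hrow : rowG GT γ c rc T W I sh M b r = true) (hy : y < I)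
    (h1 : 2 ^ N * (2 ^ γ + y) ≤ 2 ^ γ * F.card) (h2 : 2 ^ γ * F.card ≤ 2 ^ N * (2 ^ γ + y + 1)) :
    (2 ^ N * ((2 : ℤ) ^ γ + y + 1) - 2 ^ γ * F.card) * (tab T W b y - sh) +
      (2 ^ γ * (F.card : ℤ) - 2 ^ N * (2 ^ γ + y)) * (tab T W b (y + 1) - sh) ≤
      c * (2 ^ γ * L2 s F) + rc * max 0 (2 ^ γ * ((F.card : ℤ) - 2 * u) - 2 ^ N * M) := by
  have hL := L2_nonneg hF
  have htn : 0 ≤ tk (N + 2) F.card := tk_nonneg _ _ (by rw [← hs]; exact hF.card_le)
  have g1 : gt GT (2 ^ γ + y) = g (2 ^ γ + y) := gt_eq hGT _ (by omega)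
  have g2 : gt GT (2 ^ γ + (y + 1)) = g (2 ^ γ + (y + 1)) := gt_eq hGT _ (by omega)
  have z1 : (((2 ^ γ + y : ℕ) : ℕ) : ℤ) = 2 ^ γ + y := by push_cast; rfl
  cases r with
  | fo =>
    unfold rowG at hrow
    have a1 := entG_spec (allB_spec _ _ hrow y (by omega)) g1
    have a2 := entG_spec (allB_spec _ _ hrow (y + 1) (by omega)) g2
    rw [show 2 ^ γ + (y + 1) = 2 ^ γ + y + 1 from rfl] at a2
    have H := fourier_same (γ := γ) hs hF hu hux (M := (M : ℤ))
    have key := row_core (γ := γ) (N := N) (i := 2 ^ γ + y) (x := F.card) (L := L2 s F) (e := 1)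
      (d := 1) (k1 := 6) (D0 := 3 * (2 ^ (γ + 2) + 2 * (M : ℤ)))
      (δ := max 0 (2 ^ γ * ((F.card : ℤ) - 2 * u) - 2 ^ N * M)) (c := c) (rc := rc)
      (t0 := tab T W b y - sh) (t1 := tab T W b (y + 1) - sh) one_pos one_pos (by norm_num)
      (by positivity) (le_max_left _ _) (by positivity) (by positivity) (by linarith)
      (by rw [one_mul, one_mul, one_mul, one_mul]; exact H)
      (by have := a1.1; push_cast at this ⊢; linarith)
      (by have := a2.1; push_cast at this ⊢; linarith)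
      (by have := a1.2; push_cast at this ⊢; linarith)
      (by have := a2.2; push_cast at this ⊢; linarith) h1 h2
    rw [z1] at key
    exact key
  | t4 G e κ k1 d =>
    unfold rowG at hrow
    simp only [Bool.and_eq_true, Nat.ble_eq] at hrow
    obtain ⟨⟨⟨⟨⟨hG, he⟩, hd⟩, hk⟩, ht⟩, hr⟩ := hrow
    have a1 := entG_spec (allB_spec _ _ hr y (by omega)) g1
    have a2 := entG_spec (allB_spec _ _ hr (y + 1) (by omega)) g2
    rw [show 2 ^ γ + (y + 1) = 2 ^ γ + y + 1 from rfl] at a2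
    have hκ := kap_of_kapB hk
    have hT := tan_of_tanB ht
    push_cast at hκ hT
    have hk1 : (0 : ℤ) < k1 := by
      obtain ⟨b1, _⟩ := hT 0 (by omega)
      push_cast at b1
      rw [add_zero] at b1
      have hG' : (0 : ℤ) < G := by exact_mod_cast hG
      have hd' : (0 : ℤ) < d := by exact_mod_cast hd
      by_contra hneg'
      have : (k1 : ℤ) * (G : ℤ) ≤ 0 := mul_nonpos_of_nonpos_of_nonneg (by linarith) hG'.le
      have : 0 < 8 * (G : ℤ) * d := by positivity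
      linarith
    have he' : (0 : ℤ) < e := by exact_mod_cast he
    have H := t4_tangent_e (γ := γ) (M := (M : ℤ)) (κ := κ) (k1 := k1) (d := d) hs hF IH hneg hu hG
      he' (by exact_mod_cast hd) (by positivity) hκ hT
    have key := row_core (γ := γ) (N := N) (i := 2 ^ γ + y) (x := F.card) (L := L2 s F) (e := e)
      (d := d) (k1 := k1) (D0 := 2 * (e * 2 ^ (γ + 2)) + (κ : ℤ))
      (δ := max 0 (2 ^ γ * ((F.card : ℤ) - 2 * u) - 2 ^ N * M)) (c := c) (rc := rc)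
      (t0 := tab T W b y - sh) (t1 := tab T W b (y + 1) - sh) he' (by exact_mod_cast hd) hk1
      (by positivity) (le_max_left _ _) (by positivity) (by positivity) (by linarith) H
      (by have := a1.1; push_cast at this ⊢; linarith)
      (by have := a2.1; push_cast at this ⊢; linarith)
      (by have := a1.2; push_cast at this ⊢; linarith)
      (by have := a2.2; push_cast at this ⊢; linarith) h1 h2
    rw [z1] at key
    exact key

/-- The check of a table with `B` rows, lattice `2 ^ γ` points of the interval between the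
quarter and the half of the cube, shift `c 2 ^ γ`; the row `b` belongs to the difference
`2 ^ (γ + 1) - 2 b`. -/
def tabG (GT γ c rc T W B : ℕ) (R : List GRow) : Bool :=
  Nat.blt T (2 ^ (24 * (B * W))) && allB B (fun b => Nat.ble (2 * b) (2 ^ (γ + 1)) &&
    rowG GT γ c rc T W (2 ^ γ) (c * 2 ^ γ) (2 ^ (γ + 1) - 2 * b) b (R.getD b .fo))

/-- Soundness of the table of the losses of a counterexample. -/
theorem rows_of_G {GT γ c rc T W B MM N : ℕ} {R : List GRow} {s : Finset α}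
    (hGT : gtOK GT MM = true) (hMM : 2 ^ (γ + 1) < 2 * MM) (hrow : tabG GT γ c rc T W B R = true)
    (hs : s.card = N + 2) {F : Finset (Finset α)} (hF : Sub s F)
    (IH : ∀ (s' : Finset α) (F' : Finset (Finset α)), s'.card < s.card → Sub s' F' → TC 2 s' F')
    (hneg : ¬ TC 2 s F) {u : ℕ} (hu : MinHalf s F u) (hux : 2 * u ≤ F.card)
    (hF1 : 2 ^ N ≤ F.card) (hF2 : F.card ≤ 2 * 2 ^ N) :
    Rows c rc γ T W N (F.card - 2 ^ N) (2 * 2 ^ N - ((F.card : ℤ) - 2 * u)) (L2 s F + 2 ^ N) := by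
  intro b
  unfold tabG at hrow
  rw [Bool.and_eq_true] at hrow
  obtain ⟨h1, h2⟩ := hrow
  have h1' : T < 2 ^ (24 * (B * W)) := by
    unfold Nat.blt at h1
    exact Nat.le_of_ble_eq_true h1
  have hL := L2_nonneg hF
  rcases Nat.lt_or_ge b B with hb | hb
  · have h3 := allB_spec _ _ h2 b hb
    simp only [Bool.and_eq_true, Nat.ble_eq] at h3
    obtain ⟨hb2, h3⟩ := h3
    have hux' : 2 * (u : ℤ) ≤ F.card := by exact_mod_cast hux
    have hp : 2 ^ (γ + 1) = 2 ^ γ + 2 ^ γ := by ring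
    have hx : ((F.card - 2 ^ N : ℕ) : ℤ) = F.card - 2 ^ N := by
      rw [Nat.cast_sub hF1]
      push_cast
      rfl
    have hM : ((2 ^ (γ + 1) - 2 * b : ℕ) : ℤ) = 2 * 2 ^ γ - 2 * b := by
      rw [Nat.cast_sub hb2]
      push_cast
      ring
    have hγ : 0 < 2 ^ γ := by positivity
    have hN : 0 < 2 ^ N := by positivity
    have key : ∀ y, y < 2 ^ γ → 2 ^ N * (2 ^ γ + y) ≤ 2 ^ γ * F.card →
        2 ^ γ * F.card ≤ 2 ^ N * (2 ^ γ + y + 1) →
        (2 ^ N * ((2 : ℤ) ^ γ + y + 1) - 2 ^ γ * F.card) * tab T W b y +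
        (2 ^ γ * (F.card : ℤ) - 2 ^ N * (2 ^ γ + y)) * tab T W b (y + 1) ≤
        c * (2 ^ γ * (L2 s F + 2 ^ N)) + rc * max 0 (2 ^ N * (2 * b) -
          2 ^ γ * (2 * 2 ^ N - ((F.card : ℤ) - 2 * u))) := by
      intro y hy k1 k2
      have h4 := rowG_sound hs hF IH hneg hu hux' hGT (by omega) h3 hy k1 k2
      rw [hM] at h4
      have e1 : 2 ^ γ * ((F.card : ℤ) - 2 * u) - 2 ^ N * (2 * 2 ^ γ - 2 * b) =
          2 ^ N * (2 * b) - 2 ^ γ * (2 * 2 ^ N - ((F.card : ℤ) - 2 * u)) := by ring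
      rw [e1] at h4
      push_cast at h4
      linarith
    intro i g1 g2
    simp only
    have e2 : 2 ^ γ * F.card = 2 ^ γ * (F.card - 2 ^ N) + 2 ^ γ * 2 ^ N := by
      rw [← Nat.mul_add]
      congr 1
      omega
    rw [hx]
    rcases Nat.lt_or_ge i (2 ^ γ) with hi | hi
    · have h5 := key i hi (by rw [e2, Nat.mul_add]; linarith) (by
        rw [e2, Nat.add_assoc, Nat.mul_add]
        linarith)
      linarith
    · -- the last point
      have g3 : 2 ^ γ * (F.card - 2 ^ N) ≤ 2 ^ γ * 2 ^ N := Nat.mul_le_mul_left _ (by omega)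
      have g4 : 2 ^ N * 2 ^ γ ≤ 2 ^ N * i := Nat.mul_le_mul_left _ hi
      have g5 : 2 ^ N * i = 2 ^ N * 2 ^ γ := by linarith
      have hi' : i = 2 ^ γ := Nat.eq_of_mul_eq_mul_left hN g5
      have g6 : 2 ^ γ * (F.card - 2 ^ N) = 2 ^ γ * 2 ^ N := by linarith
      have g7 : F.card - 2 ^ N = 2 ^ N := Nat.eq_of_mul_eq_mul_left hγ g6
      have g8 : F.card = 2 * 2 ^ N := by omega
      obtain ⟨y, hy⟩ : ∃ y, 2 ^ γ = y + 1 := ⟨2 ^ γ - 1, by omega⟩
      have h5 := key y (by omega) (by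
        rw [g8, hy]
        have : 0 ≤ 2 ^ N * y := by positivity
        linarith) (by rw [g8, hy]; linarith)
      have hyz : (2 : ℤ) ^ γ = y + 1 := by exact_mod_cast hy
      have g8z : (F.card : ℤ) = 2 * 2 ^ N := by exact_mod_cast g8
      have hiz : (i : ℤ) = y + 1 := by rw [hi']; push_cast; exact hyz
      have hiy : i = y + 1 := by omega
      have t1 : 2 ^ N * ((2 : ℤ) ^ γ + y + 1) - 2 ^ γ * F.card = 0 := by
        rw [g8z, hyz]; ring
      have t2 : 2 ^ γ * (F.card : ℤ) - 2 ^ N * (2 ^ γ + y) = 2 ^ N := by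
        rw [g8z, hyz]; ring
      have t3 : 2 ^ N * ((i : ℤ) + 1) - 2 ^ γ * ((F.card : ℤ) - 2 ^ N) = 2 ^ N := by
        rw [g8z, hyz, hiz]; ring
      have t4 : 2 ^ γ * ((F.card : ℤ) - 2 ^ N) - 2 ^ N * i = 0 := by
        rw [g8z, hyz, hiz]; ring
      rw [t1, t2, zero_mul, zero_add] at h5
      rw [t3, t4, zero_mul, add_zero, hiy]
      exact h5
  · exact irow_zero (by positivity) (fun i => by rw [tab_zero h1' hb]; rfl)

end Pool.Agent.EdgeIso.Walsh
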