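import Pool.Agent.Lib.MP_48c8f3_co.Bas
import Pool.Agent.Lib.MP_48c8f3_co.KSb

set_option autoImplicit false
set_option linter.unusedSectionVars false

/-!
MP_48c8f3_co: rows from the Walsh bound (T4) for a family in a cube of eight units (`|s| = R + 3`,
`2 ^ R ≤ |F| ≤ 2 ^ (R + 1)`), in the form `MM - x / 2`, under the gate `|F| - 2 u ≤ 2 ^ R / 2`.
-/

namespace Pool.Agent.EdgeIso.Walsh

open Finset Pool.Agent.EdgeIso.Frame Pool.Agent.EdgeIso.LemmaP Pool.Agent.EdgeIso.Chk

variable {α : Type*} [DecidableEq α]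

/-! ### the constant on a short interval -/

/-! ### the bound -/

/-! ### the check -/

/-- the row `b` on the mesh interval `64 + y` -/
def At8 (T r b y : ℕ) (U X W B64 : ℤ) : Prop :=
  2 * ((U * ((64 + y : ℤ) + 1) - X) * tab T 129 b (64 + y) +
      (X - U * (64 + y)) * tab T 129 b (64 + y + 1)) + 155 * X ≤
    62 * W + 62 * r * max 0 (B64 - U * (128 - 2 * b))

/-! ### the table -/

end Pool.Agent.EdgeIso.Walsh
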