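import Pool.Agent.Lib.MP_48c8f3_co.BasR
import Pool.Agent.Lib.MP_48c8f3_co.KNt

set_option autoImplicit false
set_option linter.unusedSectionVars false

/-!
MP_48c8f3_co: an improvement of the Walsh bound (T4). In a counterexample the boundary in a direction
is at most the difference of the halves plus two thirds of `|F| - L`.
-/

namespace Pool.Agent.EdgeIso.Walsh

open Finset Pool.Agent.EdgeIso.Frame Pool.Agent.EdgeIso.LemmaP Pool.Agent.EdgeIso.Chk

variable {α : Type*} [DecidableEq α]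

/-! ### one direction of a counterexample -/

/-- In a counterexample `3 f + 4 D < x - L` in every direction. -/
theorem counterexample_f {s : Finset α} {F : Finset (Finset α)} (hF : Sub s F)
    (IH : ∀ (s' : Finset α) (F' : Finset (Finset α)), s'.card < s.card → Sub s' F' → TC 2 s' F')
    (hneg : ¬ TC 2 s F) {a : α} {b : Bool} (ha : a ∈ s) (hm : 2 * F.card ≤ 2 ^ s.card)
    (hqp : (half a (!b) F).card ≤ (half a b F).card) :
    4 * dg (half a b F).card (half a (!b) F).card + 3 * (half a (!b) F \ half a b F).card +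
      L2 s F < (F.card : ℤ) := by
  have h1 := counterexample_dir hF IH hneg ha hqp
  have hc : (s.erase a).card + 1 = s.card := card_erase_add_one ha
  have h2 := counterexample_del hF IH hneg ha (by
    rw [← hc, pow_succ] at hm
    omega) hqp
  have h3 := e2_half_eq' ha b F
  have h0 := card_half_add' a b F
  have h4 := card_inter_sdiff (half a b F) (half a (!b) F)
  have h5 : L2 s F = 2 * dg (half a b F).card (half a (!b) F).card +
      2 * ((half a (!b) F \ half a b F).card : ℤ) +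
      L2 (s.erase a) (half a b F) + L2 (s.erase a) (half a (!b) F) := by
    unfold L2 dg
    rw [h3, ← h0]
    have h6 : min ((half a b F).card : ℤ) (half a (!b) F).card = (half a (!b) F).card := by
      apply min_eq_right
      exact_mod_cast hqp
    rw [h6, ← h4]
    push_cast
    ring
  have h6 := le_abs_self (L2 (s.erase a) (half a b F) - L2 (s.erase a) (half a (!b) F))
  have h0z : ((half a b F).card : ℤ) + (half a (!b) F).card = F.card := by exact_mod_cast h0
  linarith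

/-- the boundary in a direction -/
theorem counterexample_dF2 {s : Finset α} {F : Finset (Finset α)} (hF : Sub s F)
    (IH : ∀ (s' : Finset α) (F' : Finset (Finset α)), s'.card < s.card → Sub s' F' → TC 2 s' F')
    (hneg : ¬ TC 2 s F) {j : α} (hj : j ∈ s) (hm : 2 * F.card ≤ 2 ^ s.card) :
    3 * ((dF F j).card : ℤ) ≤ 3 * |beta F j| + 2 * (F.card - L2 s F) := by
  have key : ∀ b : Bool, (half j (!b) F).card ≤ (half j b F).card →
      3 * ((dF F j).card : ℤ) ≤ 3 * (((half j b F).card : ℤ) - (half j (!b) F).card) +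
        2 * (F.card - L2 s F) := by
    intro b hb
    have h1 := counterexample_f hF IH hneg hj hm hb
    have h2 := card_dF_b F j b
    have h3 := dg_nonneg (half j b F).card (half j (!b) F).card
    linarith
  rcases le_total (half j true F).card (half j false F).card with h | h
  · have h1 := key false (by simpa using h)
    have h2 : |beta F j| = (half j false F).card - (half j true F).card := by
      unfold beta
      apply abs_of_nonneg
      have : ((half j true F).card : ℤ) ≤ (half j false F).card := by exact_mod_cast h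
      linarith
    rw [h2]
    simpa using h1
  · have h1 := key true (by simpa using h)
    have h2 : |beta F j| = (half j true F).card - (half j false F).card := by
      unfold beta
      rw [abs_of_nonpos]
      · ring
      · have : ((half j false F).card : ℤ) ≤ (half j true F).card := by exact_mod_cast h
        linarith
    rw [h2]
    simpa using h1

/-! ### the constant -/

/-- `κ` is good for all `b ≤ B` -/
def KapB (V M B κ : ℤ) : Prop :=
  8 * M ≤ κ ∧ 6 * V * M ≤ (κ - 8 * M) ^ 2 ∧ 8 * M ^ 2 ≤ κ * B ∧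
    6 * V * B ^ 3 ≤ (κ * B - 8 * M ^ 2) ^ 2

theorem KapB.scale {V M B κ : ℤ} (h : KapB V M B κ) {c : ℤ} (hc : 0 ≤ c) :
    KapB (c * V) (c * M) (c * B) (c * κ) := by
  obtain ⟨h1, h2, h3, h4⟩ := h
  refine ⟨?_, ?_, ?_, ?_⟩
  · have := mul_le_mul_of_nonneg_left h1 hc
    linarith only [this]
  · have := mul_le_mul_of_nonneg_left h2 (sq_nonneg c)
    refine le_trans (le_of_eq (by ring)) (this.trans (le_of_eq (by ring)))
  · have := mul_le_mul_of_nonneg_left h3 (sq_nonneg c)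
    refine le_trans (le_of_eq (by ring)) (this.trans (le_of_eq (by ring)))
  · have := mul_le_mul_of_nonneg_left h4 (by positivity : (0 : ℤ) ≤ c ^ 4)
    refine le_trans (le_of_eq (by ring)) (this.trans (le_of_eq (by ring)))

/-- `K + c s ^ 3 ≤ κ s ^ 2` holds between two points where it holds -/
theorem cubic_between {K c κ s0 s s1 : ℝ} (hc : 0 ≤ c) (h0 : 0 ≤ s0) (h1 : s0 ≤ s)
    (h2 : s ≤ s1) (e0 : K + c * s0 ^ 3 ≤ κ * s0 ^ 2) (e1 : K + c * s1 ^ 3 ≤ κ * s1 ^ 2) :
    K + c * s ^ 3 ≤ κ * s ^ 2 := by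
  rcases eq_or_lt_of_le h1 with h1' | h1'
  · rw [← h1']; exact e0
  rcases eq_or_lt_of_le h2 with h2' | h2'
  · rw [h2']; exact e1
  by_contra hcon
  push Not at hcon
  have a1 : (s - s0) * (κ * (s + s0)) < (s - s0) * (c * (s ^ 2 + s * s0 + s0 ^ 2)) := by
    have : (s - s0) * (κ * (s + s0)) - (s - s0) * (c * (s ^ 2 + s * s0 + s0 ^ 2)) =
        (K + c * s0 ^ 3 - κ * s0 ^ 2) - (K + c * s ^ 3 - κ * s ^ 2) := by ring
    linarith
  have a2 : (s1 - s) * (c * (s1 ^ 2 + s1 * s + s ^ 2)) < (s1 - s) * (κ * (s1 + s)) := by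
    have : (s1 - s) * (c * (s1 ^ 2 + s1 * s + s ^ 2)) - (s1 - s) * (κ * (s1 + s)) =
        (K + c * s1 ^ 3 - κ * s1 ^ 2) - (K + c * s ^ 3 - κ * s ^ 2) := by ring
    linarith
  have b1 := lt_of_mul_lt_mul_left a1 (by linarith)
  have b2 := lt_of_mul_lt_mul_left a2 (by linarith)
  have hs : 0 < s := by linarith
  have c1 := mul_lt_mul_of_pos_left b1 (by linarith : 0 < s1 + s)
  have c2 := mul_lt_mul_of_pos_left b2 (by linarith : 0 < s + s0)
  have d : 0 ≤ c * ((s + s0) * (s1 ^ 2 + s1 * s + s ^ 2) - (s1 + s) * (s ^ 2 + s * s0 + s0 ^ 2)) := by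
    apply mul_nonneg hc
    have e : (s + s0) * (s1 ^ 2 + s1 * s + s ^ 2) - (s1 + s) * (s ^ 2 + s * s0 + s0 ^ 2) =
        (s1 - s0) * (s * (s1 + s0) + s0 * s1) := by ring
    rw [e]
    have : 0 ≤ s1 := by linarith
    exact mul_nonneg (by linarith) (by positivity)
  linarith

/-- one direction -/
theorem dir_bound2 {V M B κ b β A : ℤ} (hV : 0 ≤ V) (hb : 0 ≤ b) (hM : 0 ≤ M)
    (hA : 0 ≤ A) (hA2 : 2 * A ^ 2 ≤ 3 * V * b ^ 3) (hβ : |β| ≤ M) (hβb : |β| ≤ b)
    (hbB : b ≤ B) (hκ : KapB V M B κ) : 8 * β ^ 2 + 2 * A ≤ κ * b := by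
  obtain ⟨k1, k2, k3, k4⟩ := hκ
  have hβ2 : β ^ 2 ≤ M ^ 2 := sq_le_sq' (by linarith [neg_abs_le β]) (by linarith [le_abs_self β])
  rcases le_total b M with h | h
  · -- small `b`
    have hβ3 : β ^ 2 ≤ b ^ 2 :=
      sq_le_sq' (by linarith [neg_abs_le β]) (by linarith [le_abs_self β])
    have h1 : b ^ 2 ≤ M * b := by nlinarith
    have k3' : 0 ≤ κ - 8 * M := by linarith
    have h2 : (2 * A) ^ 2 ≤ (b * (κ - 8 * M)) ^ 2 := by
      have i1 : V * b ^ 3 ≤ V * M * b ^ 2 := by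
        have : 0 ≤ V * b ^ 2 := by positivity
        nlinarith
      have i2 : b ^ 2 * (6 * V * M) ≤ b ^ 2 * (κ - 8 * M) ^ 2 :=
        mul_le_mul_of_nonneg_left k2 (sq_nonneg b)
      calc (2 * A) ^ 2 = 2 * (2 * A ^ 2) := by ring
        _ ≤ 2 * (3 * V * b ^ 3) := by linarith
        _ ≤ b ^ 2 * (6 * V * M) := by linarith
        _ ≤ b ^ 2 * (κ - 8 * M) ^ 2 := i2
        _ = (b * (κ - 8 * M)) ^ 2 := by ring
    have h3 : 2 * A ≤ b * (κ - 8 * M) :=
      (pow_le_pow_iff_left₀ (by positivity) (mul_nonneg hb k3') (by norm_num)).mp h2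
    nlinarith
  · -- between `M` and `B`, in real numbers
    obtain ⟨c, hc⟩ : ∃ c : ℝ, c = Real.sqrt (6 * V) := ⟨_, rfl⟩
    obtain ⟨t, ht⟩ : ∃ t : ℝ, t = Real.sqrt b := ⟨_, rfl⟩
    obtain ⟨t0, ht0⟩ : ∃ t0 : ℝ, t0 = Real.sqrt M := ⟨_, rfl⟩
    obtain ⟨t1, ht1⟩ : ∃ t1 : ℝ, t1 = Real.sqrt B := ⟨_, rfl⟩
    have rV : (0 : ℝ) ≤ 6 * V := by
      have : (0 : ℝ) ≤ V := by exact_mod_cast hV
      positivity
    have rb : (0 : ℝ) ≤ b := by exact_mod_cast hb
    have rM : (0 : ℝ) ≤ M := by exact_mod_cast hM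
    have rB : (0 : ℝ) ≤ B := by exact_mod_cast hb.trans hbB
    have rMb : (M : ℝ) ≤ b := by exact_mod_cast h
    have rbB : (b : ℝ) ≤ B := by exact_mod_cast hbB
    have qc : c ^ 2 = 6 * V := by rw [hc]; exact Real.sq_sqrt rV
    have qt : t ^ 2 = b := by rw [ht]; exact Real.sq_sqrt rb
    have qt0 : t0 ^ 2 = M := by rw [ht0]; exact Real.sq_sqrt rM
    have qt1 : t1 ^ 2 = B := by rw [ht1]; exact Real.sq_sqrt rB
    have pc : 0 ≤ c := by rw [hc]; exact Real.sqrt_nonneg _
    have pt : 0 ≤ t := by rw [ht]; exact Real.sqrt_nonneg _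
    have pt0 : 0 ≤ t0 := by rw [ht0]; exact Real.sqrt_nonneg _
    have pt1 : 0 ≤ t1 := by rw [ht1]; exact Real.sqrt_nonneg _
    have o1 : t0 ≤ t := by rw [ht0, ht]; exact Real.sqrt_le_sqrt rMb
    have o2 : t ≤ t1 := by rw [ht1, ht]; exact Real.sqrt_le_sqrt rbB
    -- the end `M`
    have e0 : 8 * (M : ℝ) ^ 2 + c * t0 ^ 3 ≤ κ * t0 ^ 2 := by
      have k1r : (8 * M : ℝ) ≤ κ := by exact_mod_cast k1
      have k2r : (6 * V * M : ℝ) ≤ (κ - 8 * M) ^ 2 := by exact_mod_cast k2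
      have z : c * t0 ≤ κ - 8 * M := by
        apply (pow_le_pow_iff_left₀ (by positivity) (by linarith) (by norm_num : (2 : ℕ) ≠ 0)).mp
        rw [mul_pow, qc, qt0]
        exact k2r
      have z2 := mul_le_mul_of_nonneg_left z rM
      have e : c * t0 ^ 3 = M * (c * t0) := by rw [← qt0]; ring
      rw [e, qt0]
      linarith
    have e1 : 8 * (M : ℝ) ^ 2 + c * t1 ^ 3 ≤ κ * t1 ^ 2 := by
      have k3r : (8 * M ^ 2 : ℝ) ≤ κ * B := by exact_mod_cast k3
      have k4r : (6 * V * B ^ 3 : ℝ) ≤ (κ * B - 8 * M ^ 2) ^ 2 := by exact_mod_cast k4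
      have z : c * t1 ^ 3 ≤ κ * B - 8 * M ^ 2 := by
        apply (pow_le_pow_iff_left₀ (by positivity) (by linarith) (by norm_num : (2 : ℕ) ≠ 0)).mp
        have e : (c * t1 ^ 3) ^ 2 = c ^ 2 * (t1 ^ 2) ^ 3 := by ring
        rw [e, qc, qt1]
        exact k4r
      rw [qt1]
      linarith
    have e2 := cubic_between pc pt0 o1 o2 e0 e1
    -- `A`
    have hA' : (2 * A : ℝ) ≤ c * t ^ 3 := by
      apply (pow_le_pow_iff_left₀ (by have : (0 : ℝ) ≤ A := by exact_mod_cast hA
                                      positivity) (by positivity) (by norm_num : (2 : ℕ) ≠ 0)).mp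
      have e : (c * t ^ 3) ^ 2 = c ^ 2 * (t ^ 2) ^ 3 := by ring
      rw [e, qc, qt]
      have : (2 * A ^ 2 : ℝ) ≤ 3 * V * b ^ 3 := by exact_mod_cast hA2
      linarith
    have hβr : (β : ℝ) ^ 2 ≤ M ^ 2 := by exact_mod_cast hβ2
    rw [qt] at e2
    have fin : (8 * β ^ 2 + 2 * A : ℝ) ≤ κ * b := by linarith
    exact_mod_cast fin

/-- the lower bound for the boundary, scaled -/
theorem bd_lower2 {s : Finset α} {F : Finset (Finset α)} (hF : Sub s F)
    {c M B κ : ℤ} (hc : 0 < c) (hM : 0 ≤ M)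
    (hβ : ∀ j ∈ s, c * |beta F j| ≤ M) (hb : ∀ j ∈ s, c * ((dF F j).card : ℤ) ≤ B)
    (hκ : KapB (c * 2 ^ s.card) M B κ) :
    c * (12 * (F.card : ℤ) * (2 ^ s.card - F.card)) ≤ (c * (2 * 2 ^ s.card) + κ) * bd s F := by
  have h1 := mul_le_mul_of_nonneg_left (master hF) hc.le
  have h2 : ∑ j ∈ s, c * (2 * 2 ^ s.card * ((dF F j).card : ℤ) + 8 * beta F j ^ 2 +
      2 * A2 s F j) ≤ ∑ j ∈ s, (c * (2 * 2 ^ s.card) + κ) * ((dF F j).card : ℤ) := by
    apply sum_le_sum
    intro j hj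
    have h4 : (0 : ℤ) ≤ (dF F j).card := by positivity
    have h5 := A2_nonneg s F j
    have hlt := level_two hF hj
    have h3 := dir_bound2 (V := c * 2 ^ s.card) (b := c * ((dF F j).card : ℤ)) (β := c * beta F j)
      (A := c ^ 2 * A2 s F j) (by positivity) (by positivity) hM (by positivity)
      (by
        have := mul_le_mul_of_nonneg_left hlt (by positivity : (0 : ℤ) ≤ c ^ 4)
        refine le_trans (le_of_eq (by ring)) (this.trans (le_of_eq (by ring))))
      (by rw [abs_mul, abs_of_pos hc]; exact hβ j hj)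
      (by
        rw [abs_mul, abs_of_pos hc]
        exact mul_le_mul_of_nonneg_left (abs_beta_le F j) hc.le) (hb j hj) hκ
    have h6 : c * (c * (8 * beta F j ^ 2 + 2 * A2 s F j)) ≤ c * (κ * (dF F j).card) := by
      refine le_trans (le_of_eq (by ring)) (h3.trans (le_of_eq (by ring)))
    have h7 := le_of_mul_le_mul_left h6 hc
    linarith
  rw [← mul_sum, ← mul_sum] at h2
  rw [bd_eq_sum]
  push_cast at h1 ⊢
  exact h1.trans h2

/-! ### a cube of eight units -/

/-- the bound with the constant `κ` (unit `2 ^ R / 1024`) -/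
def Bd8 (s : Finset α) (R : ℕ) (F : Finset (Finset α)) (κ : ℤ) : Prop :=
  192 * ((64 * (F.card : ℤ)) * (512 * 2 ^ R - 64 * F.card)) ≤
    (16384 + κ) * 2 ^ R * (64 * bd s F)

/-- from the bound on all directions to the bound on the boundary -/
theorem bd8_of {R : ℕ} {s : Finset α} (hs : s.card = R + 3) {F : Finset (Finset α)} (hF : Sub s F)
    {M B κ : ℤ} (hM : 0 ≤ M) (hκ : KapB 8192 M B κ)
    (hβ : ∀ j ∈ s, 1024 * |beta F j| ≤ 2 ^ R * M)
    (hb : ∀ j ∈ s, 1024 * ((dF F j).card : ℤ) ≤ 2 ^ R * B) : Bd8 s R F κ := by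
  have hR : (0 : ℤ) < 2 ^ R := by positivity
  have k := hκ.scale hR.le
  have hV : (2 : ℤ) ^ R * 8192 = 1024 * 2 ^ s.card := by rw [hs]; ring
  rw [hV] at k
  have h1 := bd_lower2 hF (c := 1024) (by norm_num) (by positivity) hβ hb k
  rw [hs] at h1
  unfold Bd8
  have h2 := mul_le_mul_of_nonneg_left h1 (by norm_num : (0 : ℤ) ≤ 64)
  refine le_trans (le_of_eq (by ring)) (h2.trans (le_of_eq (by ring)))

/-- the boundary and the loss -/
theorem bd_eq_L2 {R : ℕ} {s : Finset α} (hs : s.card = R + 3) (F : Finset (Finset α)) :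
    (bd s F : ℤ) = L2 s F + (((R : ℤ) + 3) * F.card - 2 * g F.card) := by
  have h2 := bd_add_e2 s F
  unfold L2
  have h4 : ((bd s F : ℤ) + e2 s F) = s.card * F.card := by exact_mod_cast h2
  rw [hs] at h4
  push_cast at h4
  linarith

/-- the node condition of a step: from `κ` to `dF ≤ M + P` -/
def stepN (κ P : ℤ) (i : ℕ) : Prop :=
  (32 * (9 * i + 3 * (tk 6 i + i) + 2) - 9 * P) * (16384 + κ) ≤ 96 * (192 * (i * (512 - i)))

/-- a step of the iteration on the mesh interval `[i, i + 1]` -/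
theorem step8 {R i : ℕ} {s : Finset α} (hs : s.card = R + 3) {F : Finset (Finset α)} (hF : Sub s F)
    (IH : ∀ (s' : Finset α) (F' : Finset (Finset α)), s'.card < s.card → Sub s' F' → TC 2 s' F')
    (hneg : ¬ TC 2 s F) {M κ P : ℤ} (hκ0 : 0 ≤ κ) (hbd : Bd8 s R F κ)
    (hx : F.card ≤ 2 * 2 ^ R)
    (h1 : 2 ^ R * i ≤ 2 ^ 6 * F.card) (h2 : 2 ^ 6 * F.card ≤ 2 ^ R * (i + 1))
    (n0 : stepN κ P i) (n1 : stepN κ P (i + 1))
    (hβ : ∀ j ∈ s, 1024 * |beta F j| ≤ 2 ^ R * M) :
    ∀ j ∈ s, 1024 * ((dF F j).card : ℤ) ≤ 2 ^ R * (M + P) := by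
  intro j hj
  have hm : 2 * F.card ≤ 2 ^ s.card := by
    rw [hs, pow_add]
    have : (0 : ℕ) < 2 ^ R := by positivity
    omega
  have hd := counterexample_dF2 hF IH hneg hj hm
  have hbj := hβ j hj
  have hE := bd_eq_L2 hs F
  have htk := tk_interp h1 h2
  have z1 : (2 : ℤ) ^ R * i ≤ 64 * F.card := by exact_mod_cast h1
  have z2 : 64 * (F.card : ℤ) ≤ 2 ^ R * ((i : ℤ) + 1) := by exact_mod_cast h2
  have e64 : (2 : ℤ) ^ 6 = 64 := by norm_num
  rw [e64] at htk
  have hQ : ((R : ℤ) + 3) * F.card - 2 * g F.card = tk R F.card + 3 * F.card := by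
    unfold tk; ring
  rw [hQ] at hE
  unfold Bd8 at hbd
  unfold stepN at n0 n1
  push_cast at n1
  have hU : (0 : ℤ) < 2 ^ R := by positivity
  generalize (2 : ℤ) ^ R = U at *
  generalize tk R F.card = τ at *
  generalize tk 6 i = τ0 at *
  generalize tk 6 (i + 1) = τ1 at *
  generalize L2 s F = L at *
  generalize (bd s F : ℤ) = W at *
  generalize (F.card : ℤ) = x at *
  obtain ⟨Xa, hXa⟩ : ∃ A, A = U * ((i : ℤ) + 1) - 64 * x := ⟨_, rfl⟩
  obtain ⟨Xb, hXb⟩ : ∃ B, B = 64 * x - U * i := ⟨_, rfl⟩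
  have hA0 : 0 ≤ Xa := by rw [hXa]; linarith
  have hB0 : 0 ≤ Xb := by rw [hXb]; linarith
  have hAB : Xa + Xb = U := by rw [hXa, hXb]; ring
  have hX : 64 * x = Xa * i + Xb * (i + 1) := by
    have : 64 * x = U * i + Xb := by rw [hXb]; ring
    rw [this, ← hAB]; ring
  rw [← hXa, ← hXb] at htk
  obtain ⟨D, hD⟩ : ∃ D, D = 16384 + κ := ⟨_, rfl⟩
  rw [← hD] at hbd n0 n1
  have hD0 : 0 < D := by rw [hD]; linarith
  -- lower bound for `D * 64 W`
  have p1 : U * (192 * (Xa * (i * (512 - i)) + Xb * ((i + 1) * (511 - i)))) ≤ U * (D * (64 * W)) := by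
    have q1 : (64 * x) * (512 * U - 64 * x) =
        U * (Xa * (i * (512 - i)) + Xb * ((i + 1) * (511 - i))) + Xa * Xb := by
      rw [hX, ← hAB]; ring
    rw [q1] at hbd
    have q2 : 0 ≤ Xa * Xb := mul_nonneg hA0 hB0
    linarith only [hbd, q2]
  have p2 := le_of_mul_le_mul_left p1 hU
  have p3 := mul_le_mul_of_nonneg_left n0 hA0
  have p4 := mul_le_mul_of_nonneg_left n1 hB0
  -- the target, multiplied by `D`
  have p5 : D * (32 * (9 * (64 * x) + 3 * (64 * (τ + x)) - 3 * (64 * W))) ≤ D * (9 * P * U) := by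
    have q1 : 3 * (64 * (τ + x)) ≤ 3 * (Xa * (τ0 + i) + Xb * (τ1 + (i + 1))) + 2 * U := by
      have : 3 * (64 * x) = 3 * (Xa * i + Xb * (i + 1)) := by rw [hX]
      linarith only [htk, this]
    have q2 := mul_le_mul_of_nonneg_left q1 hD0.le
    have q3 : D * (64 * x) = D * (Xa * i + Xb * (i + 1)) := by rw [hX]
    have q4 : D * (9 * P * U) = Xa * (9 * P * D) + Xb * (9 * P * D) := by rw [← hAB]; ring
    have q5 : D * (2 * U) = D * (2 * (Xa + Xb)) := by rw [hAB]
    linarith only [p2, p3, p4, q2, q3, q4, q5]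
  have p6 := le_of_mul_le_mul_left p5 hD0
  linarith only [hd, hbj, hE, p6]

end Pool.Agent.EdgeIso.Walsh
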