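import Pool.Agent.Lib.MP_48c8f3_co.Bas
import Pool.Agent.Lib.MP_48c8f3_co.K3Sa
import Pool.Agent.Lib.MP_48c8f3_co.FGT

set_option autoImplicit false
set_option linter.unusedSectionVars false

/-!
MP_48c8f3_co: rows from the improved Walsh bound for a family in a cube of eight units
(`|s| = R + 3`, `2 ^ R ≤ |F| ≤ 2 ^ (R + 1)`), in the form `MM - x / 2`, under the gate
`|F| - 2 u ≤ 2 ^ R / 2`.
-/

namespace Pool.Agent.EdgeIso.Walsh

open Finset Pool.Agent.EdgeIso.Frame Pool.Agent.EdgeIso.LemmaP Pool.Agent.EdgeIso.Chk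

variable {α : Type*} [DecidableEq α]

/-! ### checks -/

/-- the condition `KapB`, boolean -/
def kapBB (V M B κ : ℕ) : Bool :=
  Nat.ble (8 * M) κ && Nat.ble (6 * V * M) ((κ - 8 * M) ^ 2) && Nat.ble (8 * M ^ 2) (κ * B) &&
    Nat.ble (6 * V * B ^ 3) ((κ * B - 8 * M ^ 2) ^ 2)

theorem kapBB_spec {V M B κ : ℕ} (h : kapBB V M B κ = true) : KapB V M B κ := by
  unfold kapBB at h
  simp only [Bool.and_eq_true, Nat.ble_eq] at h
  obtain ⟨⟨⟨h1, h2⟩, h3⟩, h4⟩ := h
  have h2' : ((6 * V * M : ℕ) : ℤ) ≤ (((κ - 8 * M) ^ 2 : ℕ) : ℤ) := by exact_mod_cast h2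
  have h4' : ((6 * V * B ^ 3 : ℕ) : ℤ) ≤ (((κ * B - 8 * M ^ 2) ^ 2 : ℕ) : ℤ) := by exact_mod_cast h4
  rw [Nat.cast_pow, Nat.cast_sub h1] at h2'
  rw [Nat.cast_pow, Nat.cast_sub h3] at h4'
  push_cast at h2' h4'
  exact ⟨by exact_mod_cast h1, h2', by exact_mod_cast h3, h4'⟩

/-- the condition `stepN`, boolean, with `D = 16384 + κ` -/
def stepBB (D P i : ℕ) : Bool :=
  Nat.ble i 128 && Nat.ble (32 * (9 * i + 3 * tkt GT0 7 i + 2) * D)
    (96 * (192 * (i * (512 - i))) + 9 * P * D)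

theorem stepBB_spec {κ P i : ℕ} (h : stepBB (16384 + κ) P i = true) : stepN κ P i := by
  unfold stepBB at h
  rw [Bool.and_eq_true, Nat.ble_eq, Nat.ble_eq] at h
  obtain ⟨hi, h⟩ := h
  have h1 : ((32 * (9 * i + 3 * tkt GT0 7 i + 2) * (16384 + κ) : ℕ) : ℤ) ≤
      ((96 * (192 * (i * (512 - i))) + 9 * P * (16384 + κ) : ℕ) : ℤ) := by exact_mod_cast h
  have h2 := tkt_eq (γ := 7) GT0_ok (show i < 2 * 1025 by omega) (by norm_num; omega)
  have h3 := tk_succ 6 i
  push_cast at h1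
  rw [h2, Nat.cast_sub (by omega)] at h1
  push_cast at h1
  rw [h3] at h1
  unfold stepN
  linarith only [h1]

/-- the boundary excess of the level `l` of the interval `m` -/
def PP (m l : ℕ) : ℕ := (128 - m) * (32 - l) / 4

/-- all constants -/
def constOK (KT : ℕ) : Bool :=
  allB 96 fun m => allB 33 fun l =>
    kapBB 8192 (512 - 4 * m) (512 - 4 * m + PP m l) (tab KT 33 m l)

/-- all steps; `CT` the number of steps at the nodes -/
def stepsOK (KT CT : ℕ) : Bool :=
  allB 96 fun m => allB 65 fun y => Nat.ble (tab CT 65 m y) 32 &&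
    allB (tab CT 65 m y) fun l => stepBB (16384 + tab KT 33 m l) (PP m (l + 1)) (64 + y)

/-- the constant of the cell `y` in the interval `m` -/
def kc (KT CT m y : ℕ) : ℕ := tab KT 33 m (min (tab CT 65 m y) (tab CT 65 m (y + 1)))

theorem PP_zero {m : ℕ} (hm : m < 96) : ((PP m 0 : ℕ) : ℤ) = 2 * (512 - 4 * m) := by
  have h : PP m 0 = 2 * (512 - 4 * m) := by
    unfold PP
    omega
  rw [h]
  push_cast [Nat.cast_sub (show 4 * m ≤ 512 by omega)]
  rfl

/-- the bound in the cell `y` -/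
theorem bd8_cell {KT CT R m y : ℕ} (hK : constOK KT = true) (hS : stepsOK KT CT = true)
    {s : Finset α} (hs : s.card = R + 3) {F : Finset (Finset α)} (hF : Sub s F)
    (IH : ∀ (s' : Finset α) (F' : Finset (Finset α)), s'.card < s.card → Sub s' F' → TC 2 s' F')
    (hneg : ¬ TC 2 s F) {u : ℕ} (hu : MinHalf s F u) (hm : m < 96)
    (hM : 1024 * ((F.card : ℤ) - 2 * u) ≤ 2 ^ R * (512 - 4 * m)) (hy : y < 64)
    (hx : F.card ≤ 2 * 2 ^ R)
    (h1 : (2 : ℤ) ^ R * (64 + y) ≤ 64 * F.card)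
    (h2 : 64 * (F.card : ℤ) ≤ 2 ^ R * (64 + y + 1)) : Bd8 s R F (kc KT CT m y) := by
  unfold constOK at hK
  unfold stepsOK at hS
  have hK1 := fun l hl => allB_spec _ _ (allB_spec _ _ hK m hm) l hl
  have hS1 := fun z hz => allB_spec _ _ (allB_spec _ _ hS m hm) z hz
  have hβ : ∀ j ∈ s, 1024 * |beta F j| ≤ 2 ^ R * (512 - 4 * m) := by
    intro j hj
    have := beta_le hu hj
    linarith
  have hcM : ((512 - 4 * m : ℕ) : ℤ) = 512 - 4 * m := by
    rw [Nat.cast_sub (by omega)]; push_cast; ring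
  have hM0 : (0 : ℤ) ≤ 512 - 4 * m := by rw [← hcM]; positivity
  -- all levels
  have key : ∀ l, l ≤ min (tab CT 65 m y) (tab CT 65 m (y + 1)) →
      (∀ j ∈ s, 1024 * ((dF F j).card : ℤ) ≤ 2 ^ R * ((512 - 4 * m) + PP m l)) := by
    intro l
    induction l with
    | zero =>
      intro _ j hj
      have h3 := counterexample_dF hF IH hneg hj
      have h4 := hβ j hj
      rw [PP_zero hm]
      linarith
    | succ l ih =>
      intro hl
      have hl' : l < min (tab CT 65 m y) (tab CT 65 m (y + 1)) := hl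
      have ih := ih hl'.le
      have s0 := hS1 y (by omega)
      have s1 := hS1 (y + 1) (by omega)
      rw [Bool.and_eq_true, Nat.ble_eq] at s0 s1
      have hl0 := lt_of_lt_of_le hl' (min_le_left _ _)
      have hl1 := lt_of_lt_of_le hl' (min_le_right _ _)
      have n0 := stepBB_spec (allB_spec _ _ s0.2 l hl0)
      have n1 := stepBB_spec (allB_spec _ _ s1.2 l hl1)
      have k := kapBB_spec (hK1 l (by omega))
      rw [hcM] at k
      push_cast at k
      rw [hcM] at k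
      have hb := bd8_of hs hF hM0 k hβ ih
      exact step8 hs hF IH hneg (κ := tab KT 33 m l) (by positivity) hb hx
        (i := 64 + y) (by exact_mod_cast h1) (by exact_mod_cast h2) n0
        (by exact_mod_cast n1) hβ
  have hlast := key _ le_rfl
  have s0 := hS1 y (by omega)
  rw [Bool.and_eq_true, Nat.ble_eq] at s0
  have k := kapBB_spec (hK1 (min (tab CT 65 m y) (tab CT 65 m (y + 1))) (by omega))
  rw [hcM] at k
  push_cast at k
  rw [hcM] at k
  unfold kc
  exact bd8_of hs hF hM0 k hβ hlast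

/-! ### one entry -/

/-- the entry `t` at the node `i` -/
def entB (D r v i t : ℕ) : Bool :=
  Nat.ble i 512 && Nat.ble (16 * (2 * t + 155 * i) * D) (190464 * (i * (512 - i)) + 62 * r * v * D)

theorem entB_spec {D r v i t : ℕ} (h : entB D r v i t = true) :
    (16 * (2 * t + 155 * i) - 62 * r * v) * (D : ℤ) ≤ 190464 * (i * (512 - i)) := by
  unfold entB at h
  rw [Bool.and_eq_true, Nat.ble_eq, Nat.ble_eq] at h
  obtain ⟨hi, h⟩ := h
  have h1 : ((16 * (2 * t + 155 * i) * D : ℕ) : ℤ) ≤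
      ((190464 * (i * (512 - i)) + 62 * r * v * D : ℕ) : ℤ) := by exact_mod_cast h
  push_cast [Nat.cast_sub hi] at h1
  linarith only [h1]

/-- from the bound to the row on a mesh interval -/
theorem row8s {U x W κ r v δ T0 T1 : ℤ} {i : ℤ} (hU : 0 < U) (hκ : 0 ≤ κ) (hr : 0 ≤ r)
    (hδ : U * v ≤ 16 * δ) (h1 : U * i ≤ 64 * x) (h2 : 64 * x ≤ U * (i + 1))
    (H : 192 * ((64 * x) * (512 * U - 64 * x)) ≤ (16384 + κ) * U * (64 * W))
    (E0 : (16 * (2 * T0 + 155 * i) - 62 * r * v) * (16384 + κ) ≤ 190464 * (i * (512 - i)))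
    (E1 : (16 * (2 * T1 + 155 * (i + 1)) - 62 * r * v) * (16384 + κ) ≤
      190464 * ((i + 1) * (512 - (i + 1)))) :
    2 * ((U * (i + 1) - 64 * x) * T0 + (64 * x - U * i) * T1) + 155 * (64 * x) ≤
      62 * (64 * W) + 62 * r * δ := by
  obtain ⟨A, hA⟩ : ∃ A, A = U * (i + 1) - 64 * x := ⟨_, rfl⟩
  obtain ⟨B, hB⟩ : ∃ B, B = 64 * x - U * i := ⟨_, rfl⟩
  have hA0 : 0 ≤ A := by rw [hA]; linarith
  have hB0 : 0 ≤ B := by rw [hB]; linarith
  have hAB : A + B = U := by rw [hA, hB]; ring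
  have hX : 64 * x = A * i + B * (i + 1) := by
    have : 64 * x = U * i + B := by rw [hB]; ring
    rw [this, ← hAB]; ring
  rw [← hA, ← hB]
  obtain ⟨D, hD⟩ : ∃ D, D = 16384 + κ := ⟨_, rfl⟩
  rw [← hD] at H E0 E1
  have hD0 : 0 < D := by rw [hD]; linarith
  have p1 : U * (192 * (A * (i * (512 - i)) + B * ((i + 1) * (511 - i)))) ≤ U * (D * (64 * W)) := by
    have q1 : (64 * x) * (512 * U - 64 * x) =
        U * (A * (i * (512 - i)) + B * ((i + 1) * (511 - i))) + A * B := by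
      rw [hX, ← hAB]; ring
    rw [q1] at H
    have q2 : 0 ≤ A * B := mul_nonneg hA0 hB0
    linarith only [H, q2]
  have p2 := le_of_mul_le_mul_left p1 hU
  have p3 := mul_le_mul_of_nonneg_left E0 hA0
  have p4 := mul_le_mul_of_nonneg_left E1 hB0
  have p5 : D * (16 * (2 * (A * T0 + B * T1) + 155 * (64 * x))) ≤
      D * (16 * (62 * (64 * W) + 62 * r * δ)) := by
    have q1 : D * (64 * x) = D * (A * i + B * (i + 1)) := by rw [hX]
    have q2 : 62 * r * (D * (U * v)) ≤ 62 * r * (D * (16 * δ)) := by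
      apply mul_le_mul_of_nonneg_left _ (by linarith)
      exact mul_le_mul_of_nonneg_left hδ hD0.le
    have q3 : 62 * r * (D * (U * v)) = A * (62 * r * v * D) + B * (62 * r * v * D) := by
      rw [← hAB]; ring
    linarith only [p2, p3, p4, q1, q2, q3]
  have p6 := le_of_mul_le_mul_left p5 hD0
  linarith only [p6]

/-! ### the check of a table -/

/-- check of the interval `m` for the row `b`, `v` the distance to the row -/
def subS (KT CT T r b m v : ℕ) : Bool :=
  allB 64 fun y => entB (16384 + kc KT CT m y) r v (64 + y) (tab T 129 b (64 + y)) &&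
    entB (16384 + kc KT CT m y) r v (64 + y + 1) (tab T 129 b (64 + y + 1))

/-- check of the whole table -/
def tabS (KT CT T r : ℕ) : Bool :=
  Nat.ble 1 r && Nat.blt T (2 ^ (24 * (65 * 129))) &&
  allB 48 (fun b => allB 65 fun y => Nat.beq (tab T 129 b (64 + y)) 0) &&
  subS KT CT T r 48 0 0 &&
  allB 12 (fun n => allB 8 fun q => subS KT CT T r (49 + n) (8 * n + q) (28 - 4 * q)) &&
  allB 12 (fun n => allB 65 fun y =>
    Nat.ble (tab T 129 (49 + n) (64 + y)) (tab T 129 (48 + n) (64 + y) + 62 * r)) &&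
  allB 4 (fun n => allB 65 fun y =>
    Nat.ble (tab T 129 (61 + n) (64 + y)) (tab T 129 (60 + n) (64 + y)))

/-- one interval -/
theorem subS_sound {KT CT T r b m v R y : ℕ} (hK : constOK KT = true)
    (hS : stepsOK KT CT = true) (hm : m < 96) (hsub : subS KT CT T r b m v = true)
    {s : Finset α} (hs : s.card = R + 3)
    {F : Finset (Finset α)} (hF : Sub s F)
    (IH : ∀ (s' : Finset α) (F' : Finset (Finset α)), s'.card < s.card → Sub s' F' → TC 2 s' F')
    (hneg : ¬ TC 2 s F) {u : ℕ} (hu : MinHalf s F u) {δ : ℤ}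
    (hδ : 2 ^ R * v ≤ 16 * δ)
    (hM : 1024 * ((F.card : ℤ) - 2 * u) ≤ 2 ^ R * (512 - 4 * m)) (hx : F.card ≤ 2 * 2 ^ R)
    (hy : y < 64) (h1 : (2 : ℤ) ^ R * (64 + y) ≤ 64 * F.card)
    (h2 : 64 * (F.card : ℤ) ≤ 2 ^ R * (64 + y + 1)) :
    2 * (((2 : ℤ) ^ R * ((64 + y : ℤ) + 1) - 64 * F.card) * tab T 129 b (64 + y) +
      (64 * (F.card : ℤ) - 2 ^ R * (64 + y)) * tab T 129 b (64 + y + 1)) + 155 * (64 * F.card) ≤
    62 * (64 * (L2 s F + (((R : ℤ) + 3) * F.card - 2 * g F.card))) + 62 * r * δ := by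
  have H := bd8_cell hK hS hs hF IH hneg hu hm hM hy hx h1 h2
  unfold subS at hsub
  have h3 := allB_spec _ _ hsub y hy
  rw [Bool.and_eq_true] at h3
  have a0 := entB_spec h3.1
  have a1 := entB_spec h3.2
  push_cast at a0 a1
  unfold Bd8 at H
  rw [bd_eq_L2 hs F] at H
  generalize kc KT CT m y = κ at *
  generalize tab T 129 b (64 + y) = T0 at *
  generalize tab T 129 b (64 + y + 1) = T1 at *
  have hU : (0 : ℤ) < 2 ^ R := by positivity
  have hκ0 : (0 : ℤ) ≤ κ := Int.natCast_nonneg κ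
  have hr0 : (0 : ℤ) ≤ r := Int.natCast_nonneg r
  have key := row8s (T0 := T0) (T1 := T1) hU hκ0 hr0 hδ h1 h2 H a0 a1
  linarith only [key]

theorem tabS_spec {KT CT T r : ℕ} (h : tabS KT CT T r = true) :
    0 < r ∧ T < 2 ^ (24 * (65 * 129)) ∧
    (∀ b y, b < 48 → y < 65 → tab T 129 b (64 + y) = 0) ∧ subS KT CT T r 48 0 0 = true ∧
    (∀ n q, n < 12 → q < 8 → subS KT CT T r (49 + n) (8 * n + q) (28 - 4 * q) = true) ∧
    (∀ n y, n < 12 → y < 65 →
      tab T 129 (49 + n) (64 + y) ≤ tab T 129 (48 + n) (64 + y) + 62 * r) ∧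
    (∀ n y, n < 4 → y < 65 → tab T 129 (61 + n) (64 + y) ≤ tab T 129 (60 + n) (64 + y)) := by
  unfold tabS at h
  rw [Bool.and_eq_true, Bool.and_eq_true, Bool.and_eq_true, Bool.and_eq_true, Bool.and_eq_true,
    Bool.and_eq_true] at h
  obtain ⟨⟨⟨⟨⟨⟨h1, h2⟩, h3⟩, h4⟩, h5⟩, h6⟩, h7⟩ := h
  refine ⟨by rw [Nat.ble_eq] at h1; omega, ?_, ?_, h4, ?_, ?_, ?_⟩
  · unfold Nat.blt at h2
    exact Nat.le_of_ble_eq_true h2
  · intro b y hb hy
    exact Nat.eq_of_beq_eq_true (allB_spec _ _ (allB_spec _ _ h3 b hb) y hy)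
  · intro n q hn hq
    exact allB_spec _ _ (allB_spec _ _ h5 n hn) q hq
  · intro n y hn hy
    exact Nat.le_of_ble_eq_true (allB_spec _ _ (allB_spec _ _ h6 n hn) y hy)
  · intro n y hn hy
    exact Nat.le_of_ble_eq_true (allB_spec _ _ (allB_spec _ _ h7 n hn) y hy)

/-- the rows `48, …, 64` on a mesh interval -/
theorem at8s_all {KT CT T r R y : ℕ} (hK : constOK KT = true) (hS : stepsOK KT CT = true)
    (hT : tabS KT CT T r = true)
    {s : Finset α} (hs : s.card = R + 3) {F : Finset (Finset α)} (hF : Sub s F)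
    (IH : ∀ (s' : Finset α) (F' : Finset (Finset α)), s'.card < s.card → Sub s' F' → TC 2 s' F')
    (hneg : ¬ TC 2 s F) {u : ℕ} (hu : MinHalf s F u)
    (hg : 2 * ((F.card : ℤ) - 2 * u) ≤ 2 ^ R) (hx : F.card ≤ 2 * 2 ^ R)
    (hy : y < 64) (h1 : (2 : ℤ) ^ R * (64 + y) ≤ 64 * F.card)
    (h2 : 64 * (F.card : ℤ) ≤ 2 ^ R * (64 + y + 1)) (n : ℕ) (hn : n ≤ 16) :
    At8 T r (48 + n) y (2 ^ R) (64 * F.card)
      (64 * (L2 s F + (((R : ℤ) + 3) * F.card - 2 * g F.card)))
      (64 * ((F.card : ℤ) - 2 * u)) := by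
  obtain ⟨hr, -, -, hs0, hs1, hc1, hc2⟩ := tabS_spec hT
  have hU : (0 : ℤ) < 2 ^ R := by positivity
  have hr0 : (0 : ℤ) < r := by exact_mod_cast hr
  have hA0 : (0 : ℤ) ≤ 2 ^ R * ((64 + y : ℤ) + 1) - 64 * F.card := by linarith
  have hB0 : (0 : ℤ) ≤ 64 * (F.card : ℤ) - 2 ^ R * (64 + y) := by linarith
  induction n with
  | zero =>
    have h3 := subS_sound (δ := 0) hK hS (by norm_num) hs0 hs hF IH hneg hu (by simp)
      (by push_cast; linarith only [hg]) hx hy h1 h2
    unfold At8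
    have h4 : (0 : ℤ) ≤ 62 * r * max 0 (64 * ((F.card : ℤ) - 2 * u) -
        2 ^ R * (128 - 2 * ((48 + 0 : ℕ) : ℤ))) := by
      have := le_max_left (0 : ℤ) (64 * ((F.card : ℤ) - 2 * u) -
        2 ^ R * (128 - 2 * ((48 + 0 : ℕ) : ℤ)))
      positivity
    simp only [Nat.add_zero] at h4 ⊢
    linarith only [h3, h4]
  | succ n ih =>
    have ih := ih (by omega)
    rcases Nat.lt_or_ge n 12 with hn12 | hn12
    · -- the rows 49, …, 60
      have e48 : 48 + (n + 1) = 49 + n := by omega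
      rw [e48]
      obtain ⟨D, hD⟩ : ∃ D, D = 64 * ((F.card : ℤ) - 2 * u) - 2 ^ R * (30 - 2 * n) := ⟨_, rfl⟩
      have hDb : 64 * ((F.card : ℤ) - 2 * u) - 2 ^ R * (128 - 2 * ((49 + n : ℕ) : ℤ)) = D := by
        rw [hD]; push_cast; ring
      unfold At8
      rw [hDb]
      rcases le_total D 0 with hD0 | hD0
      · have hsub := hs1 n 7 hn12 (by norm_num)
        have h3 := subS_sound (δ := 0) hK hS (by omega) hsub hs hF IH hneg hu (by simp) (by
          push_cast; linarith only [hD, hD0, hU]) hx hy h1 h2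
        have h4 : (0 : ℤ) ≤ 62 * r * max 0 D := by
          have := le_max_left (0 : ℤ) D
          positivity
        linarith only [h3, h4]
      rcases le_total (2 * 2 ^ R) D with hD2 | hD2
      · -- the chain
        unfold At8 at ih
        have e1 : 64 * ((F.card : ℤ) - 2 * u) - 2 ^ R * (128 - 2 * ((48 + n : ℕ) : ℤ)) =
            D - 2 * 2 ^ R := by
          rw [hD]; push_cast; ring
        rw [e1, max_eq_right (by linarith)] at ih
        rw [max_eq_right hD0]
        have c0 := hc1 n y hn12 (by omega)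
        have c1 := hc1 n (y + 1) hn12 (by omega)
        rw [show 64 + (y + 1) = 64 + y + 1 from rfl] at c1
        have c0' : (tab T 129 (49 + n) (64 + y) : ℤ) ≤ tab T 129 (48 + n) (64 + y) + 62 * r := by
          exact_mod_cast c0
        have c1' : (tab T 129 (49 + n) (64 + y + 1) : ℤ) ≤
            tab T 129 (48 + n) (64 + y + 1) + 62 * r := by exact_mod_cast c1
        have m0 := mul_le_mul_of_nonneg_left c0' hA0
        have m1 := mul_le_mul_of_nonneg_left c1' hB0
        linarith only [ih, m0, m1]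
      · -- the interval
        rw [max_eq_right hD0]
        have hq : ∃ q : ℕ, q < 8 ∧ (2 : ℤ) ^ R * (7 - q) ≤ 4 * D ∧ 4 * D ≤ 2 ^ R * (8 - q) := by
          rcases le_total (4 * D) (2 ^ R) with k1 | k1
          · exact ⟨7, by norm_num, by push_cast; linarith only [hD0], by
              push_cast; linarith only [k1]⟩
          rcases le_total (4 * D) (2 * 2 ^ R) with k2 | k2
          · exact ⟨6, by norm_num, by push_cast; linarith only [k1], by
              push_cast; linarith only [k2]⟩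
          rcases le_total (4 * D) (3 * 2 ^ R) with k3 | k3
          · exact ⟨5, by norm_num, by push_cast; linarith only [k2], by
              push_cast; linarith only [k3]⟩
          rcases le_total (4 * D) (4 * 2 ^ R) with k4 | k4
          · exact ⟨4, by norm_num, by push_cast; linarith only [k3], by
              push_cast; linarith only [k4]⟩
          rcases le_total (4 * D) (5 * 2 ^ R) with k5 | k5
          · exact ⟨3, by norm_num, by push_cast; linarith only [k4], by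
              push_cast; linarith only [k5]⟩
          rcases le_total (4 * D) (6 * 2 ^ R) with k6 | k6
          · exact ⟨2, by norm_num, by push_cast; linarith only [k5], by
              push_cast; linarith only [k6]⟩
          rcases le_total (4 * D) (7 * 2 ^ R) with k7 | k7
          · exact ⟨1, by norm_num, by push_cast; linarith only [k6], by
              push_cast; linarith only [k7]⟩
          · exact ⟨0, by norm_num, by push_cast; linarith only [k7], by
              push_cast; linarith only [hD2]⟩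
        obtain ⟨q, hq8, hq1, hq2⟩ := hq
        have hsub := hs1 n q hn12 hq8
        have ev : ((28 - 4 * q : ℕ) : ℤ) = 28 - 4 * q := by
          rw [Nat.cast_sub (by omega)]; push_cast; ring
        exact subS_sound (δ := D) hK hS (by omega) hsub hs hF IH hneg hu (by
          rw [ev]; linarith only [hq1]) (by
          push_cast; linarith only [hq2, hD]) hx hy h1 h2
    · -- the rows 61, …, 64
      obtain ⟨k, hk, hk4⟩ : ∃ k, n = 12 + k ∧ k < 4 := ⟨n - 12, by omega, by omega⟩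
      subst hk
      have e1 : 48 + (12 + k + 1) = 61 + k := by omega
      have e2 : 48 + (12 + k) = 60 + k := by omega
      rw [e2] at ih
      rw [e1]
      unfold At8 at ih ⊢
      have c0 := hc2 k y hk4 (by omega)
      have c1 := hc2 k (y + 1) hk4 (by omega)
      rw [show 64 + (y + 1) = 64 + y + 1 from rfl] at c1
      have c0' : (tab T 129 (61 + k) (64 + y) : ℤ) ≤ tab T 129 (60 + k) (64 + y) := by
        exact_mod_cast c0
      have c1' : (tab T 129 (61 + k) (64 + y + 1) : ℤ) ≤ tab T 129 (60 + k) (64 + y + 1) := by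
        exact_mod_cast c1
      have m0 := mul_le_mul_of_nonneg_left c0' hA0
      have m1 := mul_le_mul_of_nonneg_left c1' hB0
      have m2 : max 0 (64 * ((F.card : ℤ) - 2 * u) - 2 ^ R * (128 - 2 * ((60 + k : ℕ) : ℤ))) ≤
          max 0 (64 * ((F.card : ℤ) - 2 * u) - 2 ^ R * (128 - 2 * ((61 + k : ℕ) : ℤ))) := by
        apply max_le_max le_rfl
        push_cast
        linarith only [hU]
      have m3 := mul_le_mul_of_nonneg_left m2 (by positivity : (0 : ℤ) ≤ 62 * r)
      linarith only [ih, m0, m1, m3]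

/-- **The rows of the table.** -/
theorem rows8s {KT CT T r R : ℕ} (hK : constOK KT = true) (hS : stepsOK KT CT = true)
    (hT : tabS KT CT T r = true)
    {s : Finset α} (hs : s.card = R + 3) {F : Finset (Finset α)} (hF : Sub s F)
    (IH : ∀ (s' : Finset α) (F' : Finset (Finset α)), s'.card < s.card → Sub s' F' → TC 2 s' F')
    (hneg : ¬ TC 2 s F) {u : ℕ} (hu : MinHalf s F u) (hF1 : 2 ^ R ≤ F.card)
    (hF2 : F.card ≤ 2 * 2 ^ R) (hg : 2 * ((F.card : ℤ) - 2 * u) ≤ 2 ^ R) :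
    Rows 31 (31 * r) 6 T 129 (R + 1) (2 * F.card) (2 * (2 * 2 ^ R - ((F.card : ℤ) - 2 * u)))
      (2 * (L2 s F + ((R + 1) * F.card - 2 * g F.card)) - F.card) := by
  obtain ⟨hr, hTl, hz, -, -, -, -⟩ := tabS_spec hT
  have htz : ∀ b i, 65 ≤ b → tab T 129 b i = 0 := fun b i hb => tab_zero hTl hb
  clear hTl
  have hU : (0 : ℤ) < 2 ^ R := by positivity
  have hr0 : (0 : ℤ) < r := by exact_mod_cast hr
  have hz1 : (2 : ℤ) ^ R ≤ F.card := by exact_mod_cast hF1
  have hz2 : (F.card : ℤ) ≤ 2 * 2 ^ R := by exact_mod_cast hF2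
  -- all mesh intervals
  have key := fun y hy h1 h2 n hn =>
    at8s_all (y := y) (r := r) hK hS hT hs hF IH hneg hu hg hF2 hy h1 h2 n hn
  obtain ⟨S, hS'⟩ : ∃ S, S = L2 s F + (((R : ℤ) + 3) * F.card - 2 * g F.card) := ⟨_, rfl⟩
  have hL' : 2 * (L2 s F + (((R : ℤ) + 1) * F.card - 2 * g F.card)) - F.card =
      2 * S - 5 * F.card := by rw [hS']; ring
  rw [hL']
  rw [← hS'] at key
  -- some interval
  have hex : ∃ y : ℕ, y < 64 ∧ (2 : ℤ) ^ R * (64 + y) ≤ 64 * F.card ∧
      64 * (F.card : ℤ) ≤ 2 ^ R * (64 + y + 1) := by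
    have hUn : 0 < 2 ^ R := by positivity
    obtain ⟨q, hq⟩ : ∃ q, q = 64 * F.card / 2 ^ R := ⟨_, rfl⟩
    have q1 : 2 ^ R * q ≤ 64 * F.card := by rw [hq]; exact Nat.mul_div_le _ _
    have q2 : 64 * F.card < 2 ^ R * (q + 1) := by rw [hq]; exact Nat.lt_mul_div_succ _ hUn
    have q3 : 64 ≤ q := by
      by_contra hlt
      have : 2 ^ R * (q + 1) ≤ 2 ^ R * 64 := Nat.mul_le_mul_left _ (by omega)
      omega
    rcases Nat.lt_or_ge q 128 with h | h
    · refine ⟨q - 64, by omega, ?_, ?_⟩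
      · have e : ((q - 64 : ℕ) : ℤ) = q - 64 := by rw [Nat.cast_sub q3]; rfl
        rw [e]
        have : (2 : ℤ) ^ R * q ≤ 64 * F.card := by exact_mod_cast q1
        linarith only [this]
      · have e : ((q - 64 : ℕ) : ℤ) = q - 64 := by rw [Nat.cast_sub q3]; rfl
        rw [e]
        have : 64 * (F.card : ℤ) < 2 ^ R * (q + 1) := by exact_mod_cast q2
        linarith only [this]
    · have q4 : 2 ^ R * 128 ≤ 2 ^ R * q := Nat.mul_le_mul_left _ h
      have q5 : (2 : ℤ) ^ R * 128 ≤ 64 * F.card := by exact_mod_cast q4.trans q1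
      exact ⟨63, by norm_num, by push_cast; linarith only [q5, hU], by push_cast; linarith only [hz2]⟩
  have hLn : 0 ≤ 2 * S - 5 * F.card := by
    obtain ⟨y, hy, h1, h2⟩ := hex
    have h3 := key y hy h1 h2 0 (by norm_num)
    unfold At8 at h3
    rw [max_eq_left (by push_cast; linarith only [hg])] at h3
    have t0 : (0 : ℤ) ≤ (2 ^ R * ((64 + y : ℤ) + 1) - 64 * F.card) *
        tab T 129 (48 + 0) (64 + y) := mul_nonneg (by linarith only [h2]) (by positivity)
    have t1 : (0 : ℤ) ≤ (64 * (F.card : ℤ) - 2 ^ R * (64 + y)) *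
        tab T 129 (48 + 0) (64 + y + 1) := mul_nonneg (by linarith only [h1]) (by positivity)
    linarith only [h3, t0, t1]
  intro b
  rcases Nat.lt_or_ge b 65 with hb | hb
  swap
  · exact irow_zero hLn (fun i => by rw [htz b i hb]; rfl)
  intro i g1 g2
  have e6 : (2 : ℤ) ^ 6 = 64 := by norm_num
  have e6n : 2 ^ 6 = 64 := by norm_num
  rw [e6n] at g1 g2
  have g1z : (2 : ℤ) ^ R * i ≤ 64 * F.card := by
    have : (2 : ℤ) ^ (R + 1) * i ≤ 64 * (2 * F.card) := by exact_mod_cast g1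
    rw [pow_succ] at this
    linarith only [this]
  have g2z : 64 * (F.card : ℤ) ≤ 2 ^ R * (i + 1) := by
    have : 64 * (2 * (F.card : ℤ)) ≤ (2 : ℤ) ^ (R + 1) * (i + 1) := by exact_mod_cast g2
    rw [pow_succ] at this
    linarith only [this]
  have i1 : 63 ≤ i := by
    by_contra hlt
    have h3 : (i : ℤ) + 1 ≤ 63 := by
      have : i + 1 ≤ 63 := by omega
      exact_mod_cast this
    have := mul_le_mul_of_nonneg_left h3 hU.le
    linarith only [this, g2z, hz1, hU]
  have i2 : i ≤ 128 := by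
    by_contra hlt
    have h3 : (129 : ℤ) ≤ i := by
      have : 129 ≤ i := by omega
      exact_mod_cast this
    have := mul_le_mul_of_nonneg_left h3 hU.le
    linarith only [this, g1z, hz2, hU]
  -- reduce to an interval with the left end 64 + y
  have red : ∃ y : ℕ, y < 64 ∧ (2 : ℤ) ^ R * (64 + y) ≤ 64 * F.card ∧
      64 * (F.card : ℤ) ≤ 2 ^ R * (64 + y + 1) ∧
      ((2 : ℤ) ^ R * ((i : ℤ) + 1) - 64 * F.card) * tab T 129 b i +
        (64 * (F.card : ℤ) - 2 ^ R * i) * tab T 129 b (i + 1) =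
      (2 ^ R * ((64 + y : ℤ) + 1) - 64 * F.card) * tab T 129 b (64 + y) +
        (64 * (F.card : ℤ) - 2 ^ R * (64 + y)) * tab T 129 b (64 + y + 1) := by
    rcases Nat.lt_or_ge i 64 with h | h
    · have hi : i = 63 := by omega
      subst hi
      have hx : (F.card : ℤ) = 2 ^ R := by push_cast at g2z; linarith only [g2z, hz1]
      refine ⟨0, by norm_num, by rw [hx]; push_cast; linarith only [hU], by
        rw [hx]; push_cast; linarith only [hU], ?_⟩
      rw [hx]
      push_cast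
      ring
    rcases Nat.lt_or_ge i 128 with h' | h'
    · obtain ⟨y, rfl⟩ : ∃ y, i = 64 + y := ⟨i - 64, by omega⟩
      push_cast at g1z g2z ⊢
      exact ⟨y, by omega, g1z, g2z, rfl⟩
    · have hi : i = 128 := by omega
      subst hi
      have hx : (F.card : ℤ) = 2 * 2 ^ R := by push_cast at g1z; linarith only [g1z, hz2]
      refine ⟨63, by norm_num, by rw [hx]; push_cast; linarith only [hU], by
        rw [hx]; push_cast; linarith only [hU], ?_⟩
      rw [hx]
      push_cast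
      ring
  obtain ⟨y, hy, h1, h2, hred⟩ := red
  have goal2 : (2 ^ (R + 1) * ((i : ℤ) + 1) - 2 ^ 6 * ((2 * F.card : ℕ) : ℤ)) * tab T 129 b i +
      (2 ^ 6 * ((2 * F.card : ℕ) : ℤ) - 2 ^ (R + 1) * i) * tab T 129 b (i + 1) =
      2 * (((2 : ℤ) ^ R * ((i : ℤ) + 1) - 64 * F.card) * tab T 129 b i +
        (64 * (F.card : ℤ) - 2 ^ R * i) * tab T 129 b (i + 1)) := by
    rw [e6, pow_succ]; push_cast; ring
  have pen : max 0 (2 ^ (R + 1) * (2 * (b : ℤ)) - 2 ^ 6 * (2 * (2 * 2 ^ R -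
      ((F.card : ℤ) - 2 * u)))) =
      2 * max 0 (64 * ((F.card : ℤ) - 2 * u) - 2 ^ R * (128 - 2 * (b : ℤ))) := by
    have e1 : 2 ^ (R + 1) * (2 * (b : ℤ)) - 2 ^ 6 * (2 * (2 * 2 ^ R - ((F.card : ℤ) - 2 * u))) =
        2 * (64 * ((F.card : ℤ) - 2 * u) - 2 ^ R * (128 - 2 * (b : ℤ))) := by
      rw [e6, pow_succ]; ring
    rw [e1, mul_max_of_nonneg _ _ (by norm_num : (0 : ℤ) ≤ 2), mul_zero]
  show (2 ^ (R + 1) * ((i : ℤ) + 1) - 2 ^ 6 * ((2 * F.card : ℕ) : ℤ)) * tab T 129 b i +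
      (2 ^ 6 * ((2 * F.card : ℕ) : ℤ) - 2 ^ (R + 1) * i) * tab T 129 b (i + 1) ≤
      ((31 : ℕ) : ℤ) * (2 ^ 6 * (2 * S - 5 * F.card)) + ((31 * r : ℕ) : ℤ) *
        max 0 (2 ^ (R + 1) * (2 * (b : ℤ)) - 2 ^ 6 * (2 * (2 * 2 ^ R -
          ((F.card : ℤ) - 2 * u))))
  rw [goal2, hred, pen, e6]
  push_cast
  rcases Nat.lt_or_ge b 48 with hb48 | hb48
  · have t0 := hz b y hb48 (by omega)
    have t1 := hz b (y + 1) hb48 (by omega)
    rw [show 64 + (y + 1) = 64 + y + 1 from rfl] at t1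
    rw [t0, t1]
    have h4 : (0 : ℤ) ≤ r * max 0 (64 * ((F.card : ℤ) - 2 * u) - 2 ^ R * (128 - 2 * b)) :=
      mul_nonneg hr0.le (le_max_left _ _)
    push_cast
    linarith only [h4, hLn]
  · obtain ⟨n, rfl⟩ : ∃ n, b = 48 + n := ⟨b - 48, by omega⟩
    have h3 := key y hy h1 h2 n (by omega)
    unfold At8 at h3
    push_cast at h3 ⊢
    linarith only [h3]

end Pool.Agent.EdgeIso.Walsh
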