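import Pool.Agent.Lib.MP_48c8f3_co.Bas
import Pool.Agent.Lib.MP_48c8f3_co.K3G
import Pool.Agent.Lib.MP_48c8f3_co.K3C1
import Pool.Agent.Lib.MP_48c8f3_co.K3C2
import Pool.Agent.Lib.MP_48c8f3_co.K3C3

set_option autoImplicit false

/-!
MP_48c8f3_co: there is no counterexample in the core of the level three.
-/

namespace Pool.Agent.EdgeIso.Chk.CoreK3

open Pool.Agent.EdgeIso.Frame Pool.Agent.EdgeIso.Cell

variable {α : Type*} [DecidableEq α]

/-- there is no core -/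
theorem coreK_false {n R : ℕ} {F : Frame.Num} (hR1 : 1 ≤ R) (hR : n = R) (C : CoreK α n R F) :
    False := by
  subst hR
  have hT : ∀ i j, (dgt GT0 i j : ℤ) ≤ dg i j := fun i j => dgt_le GT0_ok i j
  have k1 : (2 : ℤ) ^ n ≤ 4 * C.W.x → False := fun h =>
    core_sound1 R1.hC R1.hT R1.hR (R1.hst.trans rfl) R1.hcl C hR1 hT h
  have k2 : 4 * (C.W.x : ℤ) ≤ 2 ^ n → (2 : ℤ) ^ n ≤ 4 * C.A.x → False := fun h ha =>
    core_sound2 R2.hC R2.hT R2.hR (R2.hst.trans rfl) R2.hcl C hR1 hT h ha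
  rcases le_total ((2 : ℤ) ^ n) (4 * C.W.x) with h | h
  · exact k1 h
  rcases le_total ((2 : ℤ) ^ n) (4 * C.A.x) with ha | ha
  · exact k2 h ha
  rcases C.far with hb | hb | hb
  · exact k1 (by exact_mod_cast hb)
  · exact k2 h (by exact_mod_cast hb)
  · exact core_sound3 R3.hC R3.hT R3.hR (R3.hst.trans rfl) R3.hcl C hR1 hT h ha (by exact_mod_cast hb)

end Pool.Agent.EdgeIso.Chk.CoreK3
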