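import Pool.Agent.Lib.MP_48c8f3_co.Bas
import Pool.Agent.Lib.MP_48c8f3_co.KNf
import Pool.Agent.Lib.MP_48c8f3_co.KGc
import Pool.Agent.Lib.MP_48c8f3_co.K4D

set_option autoImplicit false
set_option linter.unusedSectionVars false
set_option linter.unusedVariables false

/-!
MP_48c8f3_co: the point of the root (machine made).
-/

namespace Pool.Agent.EdgeIso.Chk.CoreK4

open Finset Pool.Agent.EdgeIso.Frame Pool.Agent.EdgeIso.Cell Pool.Agent.EdgeIso.Walsh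
  Pool.Agent.EdgeIso.Smooth

variable {α : Type*} [DecidableEq α] {n R : ℕ} {F : Frame.Num}

/-- the coordinates but the first one -/
noncomputable abbrev vt (C : CoreK α n R F) : List ℤ := [
    2 ^ 28 * (C.W.x : ℤ),
    2 ^ 28 * (C.A.x : ℤ),
    2 ^ 28 * (C.P2.x : ℤ),
    2 ^ 28 * (C.A2.x : ℤ),
    2 ^ 28 * (C.W2.x : ℤ),
    2 ^ 28 * (C.f : ℤ),
    2 ^ 28 * (C.fK : ℤ),
    2 ^ 28 * (C.fP : ℤ),
    2 ^ 28 * (C.fW : ℤ),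
    2 ^ 28 * (C.w2 : ℤ),
    2 ^ 28 * MM R F,
    2 ^ 28 * MM R C.K,
    2 ^ 28 * MM R C.W,
    2 ^ 28 * MM R C.P,
    2 ^ 28 * MM R C.A,
    2 ^ 28 * MM R C.P2,
    2 ^ 28 * MM R C.A2,
    2 ^ 28 * MM R C.W1,
    2 ^ 28 * MM R C.W2,
    2 ^ 27 * QQ R F.x,
    2 ^ 27 * QQ R C.K.x,
    2 ^ 27 * QQ R C.W.x,
    2 ^ 27 * QQ R C.P.x,
    2 ^ 27 * QQ R C.A.x,
    2 ^ 27 * QQ R C.P2.x,
    2 ^ 27 * QQ R C.A2.x,
    2 ^ 27 * QQ R C.W1.x,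
    2 ^ 27 * QQ R C.W2.x,
    16 * YY R C.K.x,
    16 * YY R C.W.x,
    16 * YY R C.P.x,
    16 * YY R C.A.x,
    16 * YY R C.P2.x,
    16 * YY R C.W1.x,
    16 * YY R C.W2.x,
    2 ^ 27 * (C.K.d 0 F.x : ℤ),
    2 ^ 26 * (C.K.d 1 F.x : ℤ),
    2 ^ 26 * (C.W.d 1 F.x : ℤ),
    2 ^ 27 * (C.P.d 0 F.x : ℤ),
    2 ^ 26 * (C.P.d 1 F.x : ℤ),
    2 ^ 25 * (C.P.d 2 F.x : ℤ),
    2 ^ 26 * (C.A.d 1 F.x : ℤ),
    2 ^ 25 * (C.A.d 2 F.x : ℤ),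
    2 ^ 27 * (C.P2.d 0 F.x : ℤ),
    2 ^ 26 * (C.P2.d 1 F.x : ℤ),
    2 ^ 25 * (C.P2.d 2 F.x : ℤ),
    2 ^ 24 * (C.P2.d 3 F.x : ℤ),
    2 ^ 26 * (C.A2.d 1 F.x : ℤ),
    2 ^ 25 * (C.A2.d 2 F.x : ℤ),
    2 ^ 24 * (C.A2.d 3 F.x : ℤ),
    2 ^ 26 * (C.W1.d 1 F.x : ℤ),
    2 ^ 25 * (C.W2.d 2 F.x : ℤ),
    2 ^ 28 * max 0 (2 * (C.A.x : ℤ) - C.P.x - C.fK),
    2 ^ 28 * max 0 (2 * (C.A2.x : ℤ) - C.P2.x - C.fP),
    2 ^ 28 * max 0 ((C.w2 : ℤ) + C.W2.x - C.W1.x - C.fW),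
    2 ^ 27]

/-- the point -/
noncomputable abbrev pt (C : CoreK α n R F) : ℕ → ℤ := ptV (2 ^ 28 * 2 ^ R :: vt C)

theorem sysGG : (sys.GG : ℤ) = 512 := rfl

theorem fv0 (C : CoreK α n R F) : dot (sys.fe 0) (pt C) =
    2 ^ 28 * (F.x : ℤ) := by
  have z := C.zz
  refine (fe_q (m := 57) (l := [(1, 1), (2, 1), (3, 1), (4, 1)]) (1 * (2 ^ 28 * (C.W.x : ℤ)) + (1 * (2 ^ 28 * (C.A.x : ℤ)) + (1 * (2 ^ 28 * (C.P2.x : ℤ)) + (1 * (2 ^ 28 * (C.A2.x : ℤ)) + (0)))) : ℤ) rfl rfl).trans ?_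
  linarith only [z.ex, z.eK, z.eP, z.eW]

theorem fv1 (C : CoreK α n R F) : dot (sys.fe 1) (pt C) =
    2 ^ 28 * (C.W.x : ℤ) := by
  have z := C.zz
  refine (fe_q (m := 57) (l := [(1, 1)]) (1 * (2 ^ 28 * (C.W.x : ℤ)) + (0) : ℤ) rfl rfl).trans ?_
  linarith only [z.ex, z.eK, z.eP, z.eW]

theorem fv2 (C : CoreK α n R F) : dot (sys.fe 2) (pt C) =
    2 ^ 28 * (C.K.x : ℤ) := by
  have z := C.zz
  refine (fe_q (m := 57) (l := [(2, 1), (3, 1), (4, 1)]) (1 * (2 ^ 28 * (C.A.x : ℤ)) + (1 * (2 ^ 28 * (C.P2.x : ℤ)) + (1 * (2 ^ 28 * (C.A2.x : ℤ)) + (0))) : ℤ) rfl rfl).trans ?_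
  linarith only [z.ex, z.eK, z.eP, z.eW]

theorem fv3 (C : CoreK α n R F) : dot (sys.fe 3) (pt C) =
    2 ^ 28 * (C.A.x : ℤ) := by
  have z := C.zz
  refine (fe_q (m := 57) (l := [(2, 1)]) (1 * (2 ^ 28 * (C.A.x : ℤ)) + (0) : ℤ) rfl rfl).trans ?_
  linarith only [z.ex, z.eK, z.eP, z.eW]

theorem fv4 (C : CoreK α n R F) : dot (sys.fe 4) (pt C) =
    2 ^ 28 * (C.P.x : ℤ) := by
  have z := C.zz
  refine (fe_q (m := 57) (l := [(3, 1), (4, 1)]) (1 * (2 ^ 28 * (C.P2.x : ℤ)) + (1 * (2 ^ 28 * (C.A2.x : ℤ)) + (0)) : ℤ) rfl rfl).trans ?_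
  linarith only [z.ex, z.eK, z.eP, z.eW]

theorem fv5 (C : CoreK α n R F) : dot (sys.fe 5) (pt C) =
    2 ^ 28 * (C.A2.x : ℤ) := by
  have z := C.zz
  refine (fe_q (m := 57) (l := [(4, 1)]) (1 * (2 ^ 28 * (C.A2.x : ℤ)) + (0) : ℤ) rfl rfl).trans ?_
  linarith only [z.ex, z.eK, z.eP, z.eW]

theorem fv6 (C : CoreK α n R F) : dot (sys.fe 6) (pt C) =
    2 ^ 28 * (C.P2.x : ℤ) := by
  have z := C.zz
  refine (fe_q (m := 57) (l := [(3, 1)]) (1 * (2 ^ 28 * (C.P2.x : ℤ)) + (0) : ℤ) rfl rfl).trans ?_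
  linarith only [z.ex, z.eK, z.eP, z.eW]

theorem fv7 (C : CoreK α n R F) : dot (sys.fe 7) (pt C) =
    2 ^ 28 * (C.W2.x : ℤ) := by
  have z := C.zz
  refine (fe_q (m := 57) (l := [(5, 1)]) (1 * (2 ^ 28 * (C.W2.x : ℤ)) + (0) : ℤ) rfl rfl).trans ?_
  linarith only [z.ex, z.eK, z.eP, z.eW]

theorem fv8 (C : CoreK α n R F) : dot (sys.fe 8) (pt C) =
    2 ^ 28 * (C.W1.x : ℤ) := by
  have z := C.zz
  refine (fe_q (m := 57) (l := [(1, 1), (5, -1)]) (1 * (2 ^ 28 * (C.W.x : ℤ)) + ((-1) * (2 ^ 28 * (C.W2.x : ℤ)) + (0)) : ℤ) rfl rfl).trans ?_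
  linarith only [z.ex, z.eK, z.eP, z.eW]

theorem fv9 (C : CoreK α n R F) : dot (sys.fe 9) (pt C) =
    2 ^ 28 * (2 * (C.A.x : ℤ)) := by
  have z := C.zz
  refine (fe_q (m := 57) (l := [(2, 2)]) (2 * (2 ^ 28 * (C.A.x : ℤ)) + (0) : ℤ) rfl rfl).trans ?_
  linarith only [z.ex, z.eK, z.eP, z.eW]

theorem fv10 (C : CoreK α n R F) : dot (sys.fe 10) (pt C) =
    2 ^ 28 * (2 * (C.W2.x : ℤ)) := by
  have z := C.zz
  refine (fe_q (m := 57) (l := [(5, 2)]) (2 * (2 ^ 28 * (C.W2.x : ℤ)) + (0) : ℤ) rfl rfl).trans ?_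
  linarith only [z.ex, z.eK, z.eP, z.eW]

theorem fv11 (C : CoreK α n R F) : dot (sys.fe 11) (pt C) =
    2 ^ 28 * (2 * (C.A2.x : ℤ)) := by
  have z := C.zz
  refine (fe_q (m := 57) (l := [(4, 2)]) (2 * (2 ^ 28 * (C.A2.x : ℤ)) + (0) : ℤ) rfl rfl).trans ?_
  linarith only [z.ex, z.eK, z.eP, z.eW]

theorem fv12 (C : CoreK α n R F) : dot (sys.fe 12) (pt C) =
    2 ^ 28 * max 0 (2 * (C.A.x : ℤ) - C.P.x - C.fK) := by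
  have z := C.zz
  refine (fe_q (m := 57) (l := [(53, 1)]) (1 * (2 ^ 28 * max 0 (2 * (C.A.x : ℤ) - C.P.x - C.fK)) + (0) : ℤ) rfl rfl).trans ?_
  linarith only [z.ex, z.eK, z.eP, z.eW]

theorem fv13 (C : CoreK α n R F) : dot (sys.fe 13) (pt C) =
    2 ^ 28 * ((C.A2.x : ℤ) - C.fP) := by
  have z := C.zz
  refine (fe_q (m := 57) (l := [(4, 1), (8, -1)]) (1 * (2 ^ 28 * (C.A2.x : ℤ)) + ((-1) * (2 ^ 28 * (C.fP : ℤ)) + (0)) : ℤ) rfl rfl).trans ?_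
  linarith only [z.ex, z.eK, z.eP, z.eW]

theorem fv14 (C : CoreK α n R F) : dot (sys.fe 14) (pt C) =
    2 ^ 28 * max 0 (2 * (C.A2.x : ℤ) - C.P2.x - C.fP) := by
  have z := C.zz
  refine (fe_q (m := 57) (l := [(54, 1)]) (1 * (2 ^ 28 * max 0 (2 * (C.A2.x : ℤ) - C.P2.x - C.fP)) + (0) : ℤ) rfl rfl).trans ?_
  linarith only [z.ex, z.eK, z.eP, z.eW]

theorem fv15 (C : CoreK α n R F) : dot (sys.fe 15) (pt C) =
    2 ^ 28 * ((C.w2 : ℤ) - C.fW) := by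
  have z := C.zz
  refine (fe_q (m := 57) (l := [(9, -1), (10, 1)]) ((-1) * (2 ^ 28 * (C.fW : ℤ)) + (1 * (2 ^ 28 * (C.w2 : ℤ)) + (0)) : ℤ) rfl rfl).trans ?_
  linarith only [z.ex, z.eK, z.eP, z.eW]

theorem fv16 (C : CoreK α n R F) : dot (sys.fe 16) (pt C) =
    2 ^ 28 * (2 * ((C.w2 : ℤ) - C.W2.x)) := by
  have z := C.zz
  refine (fe_q (m := 57) (l := [(5, -2), (10, 2)]) ((-2) * (2 ^ 28 * (C.W2.x : ℤ)) + (2 * (2 ^ 28 * (C.w2 : ℤ)) + (0)) : ℤ) rfl rfl).trans ?_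
  linarith only [z.ex, z.eK, z.eP, z.eW]

theorem fv17 (C : CoreK α n R F) : dot (sys.fe 17) (pt C) =
    2 ^ 28 * max 0 ((C.w2 : ℤ) + C.W2.x - C.W1.x - C.fW) := by
  have z := C.zz
  refine (fe_q (m := 57) (l := [(55, 1)]) (1 * (2 ^ 28 * max 0 ((C.w2 : ℤ) + C.W2.x - C.W1.x - C.fW)) + (0) : ℤ) rfl rfl).trans ?_
  linarith only [z.ex, z.eK, z.eP, z.eW]

theorem fv18 (C : CoreK α n R F) : dot (sys.fe 18) (pt C) =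
    2 ^ 28 * (C.w2 : ℤ) := by
  have z := C.zz
  refine (fe_q (m := 57) (l := [(10, 1)]) (1 * (2 ^ 28 * (C.w2 : ℤ)) + (0) : ℤ) rfl rfl).trans ?_
  linarith only [z.ex, z.eK, z.eP, z.eW]

theorem fv19 (C : CoreK α n R F) : dot (sys.fe 19) (pt C) =
    0 := by
  have z := C.zz
  refine (fe_q (m := 57) (l := []) (0 : ℤ) rfl rfl).trans ?_
  linarith only [z.ex, z.eK, z.eP, z.eW]

theorem fv20 (C : CoreK α n R F) : dot (sys.fe 20) (pt C) =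
    2 ^ 28 * (C.f : ℤ) := by
  have z := C.zz
  refine (fe_q (m := 57) (l := [(6, 1)]) (1 * (2 ^ 28 * (C.f : ℤ)) + (0) : ℤ) rfl rfl).trans ?_
  linarith only [z.ex, z.eK, z.eP, z.eW]

theorem fv21 (C : CoreK α n R F) : dot (sys.fe 21) (pt C) =
    2 ^ 28 * (C.fK : ℤ) := by
  have z := C.zz
  refine (fe_q (m := 57) (l := [(7, 1)]) (1 * (2 ^ 28 * (C.fK : ℤ)) + (0) : ℤ) rfl rfl).trans ?_
  linarith only [z.ex, z.eK, z.eP, z.eW]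

theorem fv22 (C : CoreK α n R F) : dot (sys.fe 22) (pt C) =
    2 ^ 28 * (C.fP : ℤ) := by
  have z := C.zz
  refine (fe_q (m := 57) (l := [(8, 1)]) (1 * (2 ^ 28 * (C.fP : ℤ)) + (0) : ℤ) rfl rfl).trans ?_
  linarith only [z.ex, z.eK, z.eP, z.eW]

theorem fv23 (C : CoreK α n R F) : dot (sys.fe 23) (pt C) =
    2 ^ 28 * (C.fW : ℤ) := by
  have z := C.zz
  refine (fe_q (m := 57) (l := [(9, 1)]) (1 * (2 ^ 28 * (C.fW : ℤ)) + (0) : ℤ) rfl rfl).trans ?_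
  linarith only [z.ex, z.eK, z.eP, z.eW]

end Pool.Agent.EdgeIso.Chk.CoreK4
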