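import Pool.Agent.Lib.MP_48c8f3_co.Bas
import Pool.Agent.Lib.MP_48c8f3_co.KNa

set_option autoImplicit false
set_option linter.unusedSectionVars false

/-!
MP_48c8f3_co: the step of the induction for the smooth inequality, reduced to a single row, to a
family in a fixed octave and to copies of a size in the middle range.
-/

namespace Pool.Agent.EdgeIso.Frame

open Finset Pool.Agent.EdgeIso.Smooth

variable {α : Type*} [DecidableEq α]

/-- the row for one point -/
def SRow.one (r : SRow) : Bool :=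
  decide (2 * r.c ≤ r.e ∧ (r.th.map fun h => h.1).sum = r.c) && r.at 1 1 (hsum r.hs 1 0) &&
    r.at 2 1 (hsum r.hs 1 0) &&
    r.at 4 1 (hsum r.hs 1 0) && r.at 8 1 (hsum r.hs 1 0) && r.at 16 1 (hsum r.hs 1 0) &&
    ((decide (0 ≤ r.bV) && decide (2 * tgap r.th 1 ≤ 8 * (r.bV * 16 + r.bx + hsum r.hs 1 0))) ||
      r.cond.any (fun c => decide (c.1 < 0) && decide (c.1 * 32 + c.2 < 0)))

theorem Fam.one_le {n : ℕ} {w : ℤ} {N : Num} (h : Fam α (n + 1) w N) (hx : N.x = 1) : w ≤ 0 := by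
  obtain ⟨s, X, g1, g2, g3, g4⟩ := h
  have hs : s.Nonempty := by
    rw [← card_pos, g2]
    omega
  obtain ⟨a, ha⟩ := hs
  have e1 := card_half_add' a true X
  have e2 : X.card = 1 := by rw [← hx, ← g4]; rfl
  have e3 := g3 a ha true
  have e4 := g3 a ha false
  simp only [Bool.not_true] at e1
  rcases Nat.eq_zero_or_pos (half a true X).card with h5 | h5
  · rw [h5] at e3
    simpa using e3
  · have h6 : (half a false X).card = 0 := by omega
    rw [h6] at e4
    simpa using e4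

theorem SRow.hold_one {r : SRow} (hb : r.one = true) {n : ℕ} {w : ℤ} {N : Num}
    (hf : Fam α (n + 1) w N)
    (T : ∀ (s : Finset α) (X : Finset (Finset α)), s.card = n + 1 → Sub s X → TC 2 s X)
    (hx : N.x = 1) : r.Hold (n + 1) w N := by
  unfold SRow.one at hb
  simp only [Bool.and_eq_true, Bool.or_eq_true] at hb
  obtain ⟨⟨⟨⟨⟨⟨be, b1⟩, b2⟩, b4⟩, b8⟩, b16⟩, b32⟩ := hb
  have be' := of_decide_eq_true be
  have hw := hf.one_le hx
  have hh : hsum r.hs 1 0 ≤ hsum r.hs N.x w := by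
    rw [hx]
    exact_mod_cast hsum_anti r.hs 1 hw
  refine SRow.hold_of_at be' hf T (hv := hsum r.hs 1 0) ?_ hh
  rw [hx]
  rcases Nat.lt_or_ge (n + 1) 4 with h | h
  · have h4 : n + 1 = 1 ∨ n + 1 = 2 ∨ n + 1 = 3 := by omega
    rcases h4 with h4 | h4 | h4
    · rw [h4]; exact b2
    · rw [h4]; exact b4
    · rw [h4]; exact b8
  · rcases Nat.eq_or_lt_of_le h with h | h
    · rw [← h]; exact b16
    unfold SRow.at
    apply decide_eq_true
    intro hc
    have hV2 : (32 : ℤ) ≤ 2 ^ (n + 1) := by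
      have := pow_le_pow_right₀ (by norm_num : (1 : ℤ) ≤ 2) h
      linarith
    have hV : (16 : ℤ) ≤ 2 ^ (n + 1) := by linarith
    rcases b32 with ⟨h1, h2⟩ | h1
    · have h3 := of_decide_eq_true h1
      have h4 := of_decide_eq_true h2
      rw [Nat.cast_one]
      refine h4.trans ?_
      have h5 := mul_le_mul_of_nonneg_left hV h3
      linarith
    · exfalso
      obtain ⟨c, h5, h6⟩ := List.any_eq_true.mp h1
      rw [Bool.and_eq_true] at h6
      have h7 := hc c h5
      have h8 : c.1 < 0 := of_decide_eq_true h6.1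
      have h9 : c.1 * 32 + c.2 < 0 := of_decide_eq_true h6.2
      have h10 := mul_le_mul_of_nonpos_left hV2 h8.le
      push_cast at h7
      linarith

/-! ### the size of the copies -/

theorem thsum_zero {th : List (ℕ × ℕ)} {j : ℕ} {t x : ℤ}
    (h : ∀ h ∈ th, 2 ^ j * ((h.2 : ℤ) * x) ≤ 8 * t) : thsum th j t x = 0 := by
  induction th with
  | nil => simp [thsum]
  | cons a l ih =>
    have h1 := ih (fun b hb => h b (List.mem_cons_of_mem _ hb))
    have h2 := h a List.mem_cons_self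
    unfold thsum at h1 ⊢
    rw [List.map_cons, List.sum_cons, h1, max_eq_left (by linarith), mul_zero, add_zero]

theorem thsum_move {th : List (ℕ × ℕ)} {j i : ℕ} {t s x : ℤ} (h1 : 2 ^ i * t ≤ 2 ^ j * s)
    (h : ∀ h ∈ th, 8 * s ≤ 2 ^ i * ((h.2 : ℤ) * x)) :
    2 ^ i * thsum th j t x = 2 ^ j * thsum th i s x +
      (((th.map fun h => h.1).sum : ℕ) : ℤ) * (8 * (2 ^ j * s - 2 ^ i * t)) := by
  induction th with
  | nil => simp [thsum]
  | cons a l ih =>
    have h3 := ih (fun b hb => h b (List.mem_cons_of_mem _ hb))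
    have h2 := h a List.mem_cons_self
    have hi : (0 : ℤ) < 2 ^ i := by positivity
    have hj : (0 : ℤ) < 2 ^ j := by positivity
    have h4 : 0 ≤ 2 ^ j * ((a.2 : ℤ) * x) - 8 * t := by
      have h5 : 2 ^ i * (8 * t) ≤ 2 ^ i * (2 ^ j * ((a.2 : ℤ) * x)) := by
        calc 2 ^ i * (8 * t) = 8 * (2 ^ i * t) := by ring
          _ ≤ 8 * (2 ^ j * s) := by linarith
          _ = 2 ^ j * (8 * s) := by ring
          _ ≤ 2 ^ j * (2 ^ i * ((a.2 : ℤ) * x)) := mul_le_mul_of_nonneg_left h2 hj.le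
          _ = _ := by ring
      linarith [le_of_mul_le_mul_left h5 hi]
    unfold thsum at h3 ⊢
    rw [List.map_cons, List.map_cons, List.map_cons, List.sum_cons, List.sum_cons, List.sum_cons,
      max_eq_right h4, max_eq_right (sub_nonneg.mpr h2), Nat.cast_add]
    linear_combination h3

/-- the inequality of a row for one size of the copies -/
def SRow.In (r : SRow) (n : ℕ) (w : ℤ) (N : Num) (j t : ℕ) : Prop :=
  8 * ((r.c : ℤ) * (Sc * N.d j t)) ≤
    2 ^ j * (8 * (r.e * N.E + Sc * (r.bV * 2 ^ n + r.bx * N.x + hsum r.hs N.x w))) +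
      2 * (Sc * thsum r.th j t N.x)

/-- it suffices to consider the sizes between the ends of the hinges -/
theorem SRow.mid {r : SRow} {n : ℕ} {v w : ℤ} {N : Num} (hf : Fam α n v N)
    (hc : (r.th.map fun h => h.1).sum = r.c) {τ0 τ1 : ℕ}
    (h01 : ∀ h ∈ r.th, τ0 ≤ h.2 ∧ h.2 ≤ τ1) (h10 : τ0 ≤ τ1)
    (hm : ∀ j t : ℕ, 3 ≤ j → 2 ^ j * (τ0 * N.x) ≤ 8 * t → 8 * t ≤ 2 ^ j * (τ1 * N.x) → r.In n w N j t)
    (j t : ℕ) : r.In n w N j t := by
  have hj : (0 : ℤ) < 2 ^ j := by positivity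
  have hS := Sc_pos
  have hc0 : (0 : ℤ) ≤ r.c := by positivity
  rcases le_total (2 ^ j * (τ0 * N.x)) (8 * t) with h1 | h1
  · rcases le_total (8 * t) (2 ^ j * (τ1 * N.x)) with h2 | h2
    · -- the middle range
      have h3 := hm (j + 3) (8 * t) (by omega)
        (by rw [pow_add, mul_comm (2 ^ j), mul_assoc]; exact Nat.mul_le_mul_left _ h1)
        (by rw [pow_add, mul_comm (2 ^ j), mul_assoc]; exact Nat.mul_le_mul_left _ h2)
      have h4 := hf.d_scale j t 3
      unfold SRow.In at h3 ⊢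
      have e1 : (N.d (j + 3) (8 * t) : ℤ) = 8 * N.d j t := by
        have : N.d (j + 3) (8 * t) = 8 * N.d j t := h4
        exact_mod_cast this
      have e2 : thsum r.th (j + 3) ((8 * t : ℕ) : ℤ) N.x = 8 * thsum r.th j t N.x := by
        unfold thsum
        rw [← List.sum_map_mul_left]
        congr 1
        apply List.map_congr_left
        intro a _
        have e3 : (2 : ℤ) ^ (j + 3) * ((a.2 : ℤ) * N.x) - 8 * ((8 * t : ℕ) : ℤ) =
            8 * (2 ^ j * ((a.2 : ℤ) * N.x) - 8 * (t : ℤ)) := by push_cast; ring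
        have e4 := mul_max_of_nonneg (0 : ℤ) (2 ^ j * ((a.2 : ℤ) * N.x) - 8 * (t : ℤ))
          (by norm_num : (0 : ℤ) ≤ 8)
        rw [mul_zero] at e4
        rw [e3, ← e4]
        ring
      rw [e1, e2, pow_add] at h3
      linarith
    · -- large copies
      have h3 := hm 3 (τ1 * N.x) le_rfl
        (by
          have : τ0 * N.x ≤ τ1 * N.x := Nat.mul_le_mul_right _ h10
          omega) (by omega)
      have h4 := hf.d_lip j t 3 (τ1 * N.x)
      have h5 : max (0 : ℤ) (2 ^ j * ((τ1 * N.x : ℕ) : ℤ) - 2 ^ 3 * t) = 0 := by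
        apply max_eq_left
        have : (2 : ℤ) ^ j * ((τ1 * N.x : ℕ) : ℤ) ≤ 8 * t := by exact_mod_cast h2
        linarith
      rw [h5, mul_zero, add_zero] at h4
      have h6 : thsum r.th 3 ((τ1 * N.x : ℕ) : ℤ) N.x = 0 := by
        apply thsum_zero
        intro a ha
        have h7 : (a.2 : ℤ) ≤ τ1 := by exact_mod_cast (h01 a ha).2
        have h8 := mul_le_mul_of_nonneg_right h7 (by positivity : (0 : ℤ) ≤ N.x)
        push_cast
        linarith
      unfold SRow.In at h3 ⊢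
      rw [h6, mul_zero, mul_zero, add_zero] at h3
      have h7 := mul_nonneg hS.le (thsum_nonneg r.th j t N.x)
      have h8 := mul_le_mul_of_nonneg_left h4 (mul_nonneg hc0 hS.le)
      have h9 := mul_le_mul_of_nonneg_left h3 hj.le
      linarith
  · -- small copies
    have h3 := hm 3 (τ0 * N.x) le_rfl (by omega)
      (by
        have : τ0 * N.x ≤ τ1 * N.x := Nat.mul_le_mul_right _ h10
        omega)
    have h4 := hf.d_lip j t 3 (τ0 * N.x)
    have h1z : 2 ^ 3 * (t : ℤ) ≤ 2 ^ j * ((τ0 * N.x : ℕ) : ℤ) := by exact_mod_cast h1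
    have h5 : max (0 : ℤ) (2 ^ j * ((τ0 * N.x : ℕ) : ℤ) - 2 ^ 3 * t) =
        2 ^ j * ((τ0 * N.x : ℕ) : ℤ) - 2 ^ 3 * t := max_eq_right (by linarith)
    rw [h5] at h4
    have h6 := thsum_move (th := r.th) (j := j) (i := 3) (t := t) (s := ((τ0 * N.x : ℕ) : ℤ)) (x := N.x) h1z
      (by
        intro a ha
        have h7 : (τ0 : ℤ) ≤ a.2 := by exact_mod_cast (h01 a ha).1
        have h8 := mul_le_mul_of_nonneg_right h7 (by positivity : (0 : ℤ) ≤ N.x)
        push_cast
        linarith)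
    rw [hc] at h6
    unfold SRow.In at h3 ⊢
    have h8 := mul_le_mul_of_nonneg_left h4 (mul_nonneg hc0 hS.le)
    have h9 := mul_le_mul_of_nonneg_left h3 hj.le
    have h10 := congrArg (fun z : ℤ => 2 * (Sc : ℤ) * z) h6
    linarith

/-- the octave of a family whose level is exactly `k` -/
theorem oct_exact {m k x : ℕ} (hk : 1 ≤ k) (hx : 0 < x) (h1 : 2 ^ m ≤ 2 ^ k * x)
    (h2 : 2 ^ (k - 1) * x ≤ 2 ^ m) : x = 1 ∨ ∃ R, m = R + k ∧ 2 ^ R ≤ x ∧ x ≤ 2 * 2 ^ R := by
  obtain ⟨k', rfl⟩ : ∃ k', k = k' + 1 := ⟨k - 1, by omega⟩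
  rw [Nat.add_sub_cancel] at h2
  rcases Nat.lt_or_ge m (k' + 1) with h | h
  · left
    have h3 : 2 ^ m ≤ 2 ^ k' := Nat.pow_le_pow_right (by norm_num) (by omega)
    have h4 : 2 ^ k' * x ≤ 2 ^ k' * 1 := by omega
    have h5 := Nat.le_of_mul_le_mul_left h4 (by positivity)
    omega
  · right
    refine ⟨m - (k' + 1), by omega, ?_, ?_⟩
    · have e : 2 ^ m = 2 ^ (k' + 1) * 2 ^ (m - (k' + 1)) := by rw [← pow_add]; congr 1; omega
      rw [e] at h1
      exact Nat.le_of_mul_le_mul_left h1 (by positivity)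
    · have e : 2 ^ m = 2 ^ k' * (2 * 2 ^ (m - (k' + 1))) := by
        rw [← pow_succ', ← pow_add]; congr 1; omega
      rw [e] at h2
      exact Nat.le_of_mul_le_mul_left h2 (by positivity)

/-- the octave of a family whose level is at least `k` -/
theorem oct_ge {m k x : ℕ} (hk : 1 ≤ k) (hx : 0 < x) (h2 : 2 ^ (k - 1) * x ≤ 2 ^ m) :
    x = 1 ∨ ∃ R k', m = R + k' ∧ k ≤ k' ∧ 2 ^ R ≤ x ∧ x ≤ 2 * 2 ^ R := by
  obtain ⟨k₀, rfl⟩ : ∃ k₀, k = k₀ + 1 := ⟨k - 1, by omega⟩
  rw [Nat.add_sub_cancel] at h2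
  have l1 : 2 ^ Nat.log 2 x ≤ x := Nat.pow_log_le_self 2 (by omega)
  have l2 : x < 2 ^ (Nat.log 2 x + 1) := Nat.lt_pow_succ_log_self (by norm_num) x
  have l3 : 2 ^ (k₀ + Nat.log 2 x) ≤ 2 ^ m := by
    rw [pow_add]
    exact (Nat.mul_le_mul_left _ l1).trans h2
  have l4 : k₀ + Nat.log 2 x ≤ m := (Nat.pow_le_pow_iff_right (by norm_num)).mp l3
  rcases Nat.lt_or_ge m (k₀ + 1 + Nat.log 2 x) with h | h
  · have e : m = k₀ + Nat.log 2 x := by omega
    rw [e, pow_add] at h2
    have h3 : x ≤ 2 ^ Nat.log 2 x := Nat.le_of_mul_le_mul_left h2 (by positivity)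
    rcases Nat.eq_zero_or_pos (Nat.log 2 x) with h0 | h0
    · left
      rw [h0] at h3
      omega
    · right
      obtain ⟨R, hR⟩ : ∃ R, Nat.log 2 x = R + 1 := ⟨Nat.log 2 x - 1, by omega⟩
      rw [hR] at e h3 l1
      rw [pow_succ] at h3 l1
      exact ⟨R, k₀ + 1, by omega, le_rfl, by omega, by omega⟩
  · right
    refine ⟨Nat.log 2 x, m - Nat.log 2 x, by omega, by omega, l1, ?_⟩
    rw [pow_succ] at l2
    omega

/-- the numbers of a family which violates the row `r` for the copies of size `t / 2 ^ j`, in the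
octave of `2 ^ R`, where `n + 2 = R + k` -/
structure SIC (α : Type*) [DecidableEq α] (rows : List SRow) (erows : List ERow) (r : SRow)
    (τ0 τ1 n R k : ℕ) (F : Num) (j t : ℕ) extends SI2 α n F where
  dim : n + 2 = R + k
  lo : 2 ^ R ≤ F.x
  hi : F.x ≤ 2 * 2 ^ R
  ih : ∀ (s : Finset α) (X : Finset (Finset α)), s.card < n + 2 → Sub s X → TC 2 s X
  ihF : ∀ (s : Finset α) (X : Finset (Finset α)), s.card = n + 2 → Sub s X → TC 2 s X
  sib : SIB α rows erows (n + 2)
  j3 : 3 ≤ j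
  tlo : 2 ^ j * (τ0 * F.x) ≤ 8 * t
  thi : 8 * t ≤ 2 ^ j * (τ1 * F.x)
  cond : Cond r.cond (2 ^ (n + 2)) F.x
  neg : 2 ^ j * (8 * (r.e * F.E + Sc * (r.bV * 2 ^ (n + 2) + r.bx * F.x +
    hsum r.hs F.x (2 * (W.x : ℤ))))) + 2 * (Sc * thsum r.th j t F.x) <
      8 * ((r.c : ℤ) * (Sc * F.d j t))

/-- the step for one row -/
def SStepR (α : Type*) [DecidableEq α] (rows : List SRow) (erows : List ERow) (r : SRow) : Prop :=
  ∀ (n : ℕ) (F : Num) (C : SI2 α n F), 0 < F.x →
    (∀ (s : Finset α) (X : Finset (Finset α)), s.card < n + 2 → Sub s X → TC 2 s X) →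
    (∀ (s : Finset α) (X : Finset (Finset α)), s.card = n + 2 → Sub s X → TC 2 s X) →
    SIB α rows erows (n + 2) → r.Hold (n + 2) (2 * (C.W.x : ℤ)) F

/-- the check of the ends of the hinges in the size of the copies -/
def SRow.ends (r : SRow) (τ0 τ1 : ℕ) : Bool :=
  decide (τ0 ≤ τ1) && r.th.all (fun h => Nat.ble τ0 h.2 && Nat.ble h.2 τ1)

theorem SRow.ends_spec {r : SRow} {τ0 τ1 : ℕ} (h : r.ends τ0 τ1 = true) :
    τ0 ≤ τ1 ∧ ∀ h ∈ r.th, τ0 ≤ h.2 ∧ h.2 ≤ τ1 := by
  unfold SRow.ends at h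
  rw [Bool.and_eq_true] at h
  refine ⟨of_decide_eq_true h.1, fun a ha => ?_⟩
  have h1 := List.all_eq_true.mp h.2 a ha
  rw [Bool.and_eq_true] at h1
  exact ⟨Nat.le_of_ble_eq_true h1.1, Nat.le_of_ble_eq_true h1.2⟩

theorem SRow.one_sum {r : SRow} (h : r.one = true) : (r.th.map fun h => h.1).sum = r.c := by
  unfold SRow.one at h
  simp only [Bool.and_eq_true] at h
  exact (of_decide_eq_true h.1.1.1.1.1.1).2

/-- the induction, row by row -/
theorem sib_rows {rows : List SRow} (hb : ∀ r ∈ rows, r.base = true)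
    (step : ∀ r ∈ rows, SStepR α rows [] r) (N : ℕ)
    (T : ∀ (s : Finset α) (X : Finset (Finset α)), s.card < N → Sub s X → TC 2 s X) :
    SIB α rows [] N := by
  induction N with
  | zero => intro n hn; omega
  | succ N ih =>
    have ih' := ih (fun s X h hX => T s X (by omega) hX)
    intro n hn w X hX
    rcases Nat.lt_or_ge n N with h | h
    · exact ih' n h w X hX
    have hnN : n = N := by omega
    subst hnN
    have Tn : ∀ (s : Finset α) (X : Finset (Finset α)), s.card = n → Sub s X → TC 2 s X :=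
      fun s X h hX => T s X (by omega) hX
    refine ⟨?_, by simp⟩
    by_cases hb' : n ≤ 1 ∨ X.x = 0
    · exact fun r hr => SRow.hold_base (hb r hr) hX Tn hb'
    · push Not at hb'
      obtain ⟨m, hm⟩ : ∃ m, n = m + 2 := ⟨n - 2, by omega⟩
      subst hm
      obtain ⟨C, hC⟩ := si2_exists hX
      intro r hr
      exact (step r hr m X C (Nat.pos_of_ne_zero hb'.2) (fun s X h hX => T s X (by omega) hX)
        Tn ih').mono hC

end Pool.Agent.EdgeIso.Frame
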