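import Pool.Agent.Lib.MP_48c8f3_co.Bas
import Pool.Agent.Lib.MP_48c8f3_co.KNd
import Pool.Agent.Lib.MP_48c8f3_co.SNd

set_option autoImplicit false

/-!
MP_48c8f3_co: the list of all rows of a list of shapes.
-/

namespace Pool.Agent.EdgeIso.Chk

open Finset Pool.Agent.EdgeIso.Frame Pool.Agent.EdgeIso.Smooth

/-- the rows of a shape -/
def Shp.rows (s : Shp) : List SRow :=
  (List.range (s.kl + 1)).flatMap fun k =>
    if 1 ≤ k ∧ s.k0 ≤ k then (s.B k).map (s.row k) else []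

/-- the rows of a list of shapes -/
def rowsOf (l : List Shp) : List SRow := l.flatMap Shp.rows

theorem mem_rows {s : Shp} {k : ℕ} {p : ℕ × ℕ × ℤ × ℤ} (h1 : 1 ≤ k) (h2 : s.k0 ≤ k) (h3 : k ≤ s.kl)
    (hp : p ∈ s.B k) : s.row k p ∈ s.rows := by
  unfold Shp.rows
  rw [List.mem_flatMap]
  refine ⟨k, List.mem_range.mpr (by omega), ?_⟩
  rw [if_pos ⟨h1, h2⟩]
  exact List.mem_map_of_mem hp

theorem holdAll_of_rows {s : Shp} {n : ℕ} {w : ℤ} {N : Frame.Num}
    (h : ∀ r ∈ s.rows, r.Hold n w N) : s.HoldAll n w N :=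
  fun k h1 h2 h3 _ hp => h _ (mem_rows h1 h2 h3 hp)

/-- the rows of all shapes hold in all dimensions less than `N` -/
def SINof (α : Type*) [DecidableEq α] (l : List Shp) (N : ℕ) : Prop :=
  ∀ n : ℕ, n < N → ∀ (w : ℤ) (X : Frame.Num), Fam α n w X → ∀ s ∈ l, s.HoldAll n w X

theorem sin_of_sib {α : Type*} [DecidableEq α] {l : List Shp} {er : List ERow} {N : ℕ}
    (h : SIB α (rowsOf l) er N) : SINof α l N := by
  intro n hn w X hX s hs
  refine holdAll_of_rows fun r hr => (h n hn w X hX).1 r ?_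
  exact List.mem_flatMap.mpr ⟨s, hs, hr⟩

/-- a check for all rows of all shapes -/
theorem forall_rowsOf {P : SRow → Prop} {l : List Shp}
    (h : ∀ s ∈ l, ∀ k, 1 ≤ k → s.k0 ≤ k → k ≤ s.kl → ∀ p ∈ s.B k, P (s.row k p)) :
    ∀ r ∈ rowsOf l, P r := by
  intro r hr
  unfold rowsOf at hr
  rw [List.mem_flatMap] at hr
  obtain ⟨s, hs, hr⟩ := hr
  unfold Shp.rows at hr
  rw [List.mem_flatMap] at hr
  obtain ⟨k, hk, hr⟩ := hr
  have hk' := List.mem_range.mp hk
  split_ifs at hr with h1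
  · obtain ⟨p, hp, rfl⟩ := List.mem_map.mp hr
    exact h s hs k h1.1 h1.2 (by omega) p hp
  · simp at hr

end Pool.Agent.EdgeIso.Chk
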