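import Pool.Agent.Lib.MP_48c8f3_co.Bas
import Pool.Agent.Lib.MP_48c8f3_co.KNr

set_option autoImplicit false

/-!
MP_48c8f3_co: the family of smooth inequalities (machine made).
-/

namespace Pool.Agent.EdgeIso.Chk

open Finset Pool.Agent.EdgeIso.Frame Pool.Agent.EdgeIso.Smooth

/-- the denominator of the slope -/
abbrev SFC : ℕ := 640

/-- the numerator of the slope -/
abbrev FE : ℕ := 640

/-- the last class -/
abbrev KL : ℕ := 5

/-- the slope of the hinge at one half in the group 0 -/
abbrev AH0 : ℕ := 384

/-- a shape -/
def shp0 : Shp := ⟨640, 640, [(324, 4), (192, 6), (124, 8)], 2, 5,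
  fun k => if k = 2 then
    [(8, 16, -6080, 464)] else if k = 3 then
    [(8, 10, -656, -336), (10, 12, -896, -288), (12, 14, -1376, -208), (14, 16, -6080, 464)] else if k = 4 then
    [(8, 10, -64, -512), (10, 12, -144, -480), (12, 14, -288, -432), (14, 16, -400, -400)] else
    [(0, 16, 0, -544)],
  384, [(64, 10), (16, 6)]⟩

/-- a group of shapes -/
def famG0 : List Shp := [shp0]

/-- the family -/
def fam : List Shp := famG0

theorem mem_famG0 {s : Shp} (h : s ∈ famG0) : s ∈ fam := by
  unfold fam
  exact h

/-- the smooth inequalities hold for all families in the dimensions less than `N` -/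
abbrev SIN (α : Type*) [DecidableEq α] (N : ℕ) : Prop := SINof α fam N

end Pool.Agent.EdgeIso.Chk
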