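import Pool.Agent.Lib.MP_48c8f3_co.Bas
import Pool.Agent.Lib.MP_48c8f3_co.K4H
import Pool.Agent.Lib.MP_48c8f3_co.TEgt
import Pool.Agent.Lib.MP_48c8f3_co.SFam

set_option autoImplicit false
set_option linter.unusedSectionVars false
set_option linter.unusedVariables false

/-!
MP_48c8f3_co: the tables of the root (machine made).
-/

namespace Pool.Agent.EdgeIso.Chk.CoreK4

open Finset Pool.Agent.EdgeIso.Frame Pool.Agent.EdgeIso.Cell Pool.Agent.EdgeIso.Walsh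
  Pool.Agent.EdgeIso.Smooth

variable {α : Type*} [DecidableEq α] {n R : ℕ} {F : Frame.Num}

theorem eq_tbG5_0 : tbG5_0 = TEgG50 := by decide +kernel

theorem small_tbG5_0 : smallOK tbG5_0 28 = true := by decide +kernel

theorem rows_tbG5_0 : LBnd α (fun N x v L => ∀ R k, N = R + k → 5 ≤ k → 0 ≤ v → 2 ^ R ≤ x → x ≤ 2 * 2 ^ R →
    Rows 28 28 6 tbG5_0 129 R x v (gamL R x L)) := by
  rw [eq_tbG5_0]
  exact TEgG50_rows

theorem eq_tbG5_1 : tbG5_1 = TEgG51 := by decide +kernel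

theorem small_tbG5_1 : smallOK tbG5_1 56 = true := by decide +kernel

theorem rows_tbG5_1 : LBnd α (fun N x v L => ∀ R k, N = R + k → 5 ≤ k → 0 ≤ v → 2 ^ R ≤ x → x ≤ 2 * 2 ^ R →
    Rows 28 56 6 tbG5_1 129 R x v (gamL R x L)) := by
  rw [eq_tbG5_1]
  exact TEgG51_rows

theorem eq_tbH2_1 : tbH2_1 = TEgH21 := by decide +kernel

theorem small_tbH2_1 : smallOK tbH2_1 56 = true := by decide +kernel

theorem rows_tbH2_1 : LBnd α (fun N x v L => ∀ R k, N = R + k → 2 ≤ k → 0 ≤ v → 2 ^ R ≤ x → x ≤ 2 * 2 ^ R →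
    Rows 28 56 6 tbH2_1 129 R x v (gamL R x L)) := by
  rw [eq_tbH2_1]
  exact TEgH21_rows

theorem eq_tbH2_2 : tbH2_2 = TEgH22 := by decide +kernel

theorem small_tbH2_2 : smallOK tbH2_2 112 = true := by decide +kernel

theorem rows_tbH2_2 : LBnd α (fun N x v L => ∀ R k, N = R + k → 2 ≤ k → 0 ≤ v → 2 ^ R ≤ x → x ≤ 2 * 2 ^ R →
    Rows 28 112 6 tbH2_2 129 R x v (gamL R x L)) := by
  rw [eq_tbH2_2]
  exact TEgH22_rows

theorem eq_tbH3_0 : tbH3_0 = TEgH30 := by decide +kernel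

theorem small_tbH3_0 : smallOK tbH3_0 28 = true := by decide +kernel

theorem rows_tbH3_0 : LBnd α (fun N x v L => ∀ R k, N = R + k → 3 ≤ k → 0 ≤ v → 2 ^ R ≤ x → x ≤ 2 * 2 ^ R →
    Rows 28 28 6 tbH3_0 129 R x v (gamL R x L)) := by
  rw [eq_tbH3_0]
  exact TEgH30_rows

theorem eq_tbH3_1 : tbH3_1 = TEgH31 := by decide +kernel

theorem small_tbH3_1 : smallOK tbH3_1 56 = true := by decide +kernel

theorem rows_tbH3_1 : LBnd α (fun N x v L => ∀ R k, N = R + k → 3 ≤ k → 0 ≤ v → 2 ^ R ≤ x → x ≤ 2 * 2 ^ R →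
    Rows 28 56 6 tbH3_1 129 R x v (gamL R x L)) := by
  rw [eq_tbH3_1]
  exact TEgH31_rows

theorem eq_tbH3_2 : tbH3_2 = TEgH32 := by decide +kernel

theorem small_tbH3_2 : smallOK tbH3_2 112 = true := by decide +kernel

theorem rows_tbH3_2 : LBnd α (fun N x v L => ∀ R k, N = R + k → 3 ≤ k → 0 ≤ v → 2 ^ R ≤ x → x ≤ 2 * 2 ^ R →
    Rows 28 112 6 tbH3_2 129 R x v (gamL R x L)) := by
  rw [eq_tbH3_2]
  exact TEgH32_rows

theorem eq_tbH4_0 : tbH4_0 = TEgH40 := by decide +kernel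

theorem small_tbH4_0 : smallOK tbH4_0 28 = true := by decide +kernel

theorem rows_tbH4_0 : LBnd α (fun N x v L => ∀ R k, N = R + k → 4 ≤ k → 0 ≤ v → 2 ^ R ≤ x → x ≤ 2 * 2 ^ R →
    Rows 28 28 6 tbH4_0 129 R x v (gamL R x L)) := by
  rw [eq_tbH4_0]
  exact TEgH40_rows

theorem eq_tbH4_1 : tbH4_1 = TEgH41 := by decide +kernel

theorem small_tbH4_1 : smallOK tbH4_1 56 = true := by decide +kernel

theorem rows_tbH4_1 : LBnd α (fun N x v L => ∀ R k, N = R + k → 4 ≤ k → 0 ≤ v → 2 ^ R ≤ x → x ≤ 2 * 2 ^ R →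
    Rows 28 56 6 tbH4_1 129 R x v (gamL R x L)) := by
  rw [eq_tbH4_1]
  exact TEgH41_rows

theorem eq_tbH4_2 : tbH4_2 = TEgH42 := by decide +kernel

theorem small_tbH4_2 : smallOK tbH4_2 112 = true := by decide +kernel

theorem rows_tbH4_2 : LBnd α (fun N x v L => ∀ R k, N = R + k → 4 ≤ k → 0 ≤ v → 2 ^ R ≤ x → x ≤ 2 * 2 ^ R →
    Rows 28 112 6 tbH4_2 129 R x v (gamL R x L)) := by
  rw [eq_tbH4_2]
  exact TEgH42_rows

theorem chkTc1 : Nat.log2 tbTTc < 24 * 33 := by decide +kernel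

theorem chkTc2 : allB (2 * 16 + 1) (fun i => Nat.ble (tab tbTTc 33 0 i) (80 * i)) = true := by decide +kernel

theorem chkTc3 : tab tbTAc 2 0 0 = 1 := by decide +kernel

theorem chkTc4 : tab tbTAc 2 0 1 = 4 := by decide +kernel

theorem chkL_tbTF0_1 : Nat.log2 tbTF0_1 < 24 * (famG0.length * 33) := by decide +kernel

theorem chkL_tbTF0_2 : Nat.log2 tbTF0_2 < 24 * (famG0.length * 33) := by decide +kernel

theorem chkL_tbTF0_3 : Nat.log2 tbTF0_3 < 24 * (famG0.length * 33) := by decide +kernel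

theorem chkT_tbTF0_1_1 : allShpU KL SFC FE AH0 (4 * (1 * 1)) 3 2 16 80 1 1 tbTF0_1 33 tbTA0 10 famG0 = true := by decide +kernel

theorem chkT_tbTF0_2_0 : allShpU KL SFC FE AH0 (4 * (1 * 1)) 3 2 16 80 2 0 tbTF0_2 33 tbTA0 10 famG0 = true := by decide +kernel

theorem chkT_tbTF0_3_0 : allShpU KL SFC FE AH0 (4 * (1 * 1)) 3 2 16 80 3 0 tbTF0_3 33 tbTA0 10 famG0 = true := by decide +kernel

theorem xsF (C : CoreK α n R F) : F.x ≤ 2 * 2 ^ R := by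
  have z := C.zz
  have h1 : (F.x : ℤ) ≤ 2 * 2 ^ R := by
    linarith only [z.hi, z.ex, z.eK, z.eP, z.eW, z.q0, z.p0, z.P0, z.a0, z.P20, z.a20, z.W10, z.b0]
  exact_mod_cast h1

theorem xsK (C : CoreK α n R F) : C.K.x ≤ 2 * 2 ^ R := by
  have z := C.zz
  have h1 : (C.K.x : ℤ) ≤ 2 * 2 ^ R := by
    linarith only [z.hi, z.ex, z.eK, z.eP, z.eW, z.q0, z.p0, z.P0, z.a0, z.P20, z.a20, z.W10, z.b0]
  exact_mod_cast h1

theorem xsW (C : CoreK α n R F) : C.W.x ≤ 2 * 2 ^ R := by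
  have z := C.zz
  have h1 : (C.W.x : ℤ) ≤ 2 * 2 ^ R := by
    linarith only [z.hi, z.ex, z.eK, z.eP, z.eW, z.q0, z.p0, z.P0, z.a0, z.P20, z.a20, z.W10, z.b0]
  exact_mod_cast h1

theorem xsP (C : CoreK α n R F) : C.P.x ≤ 2 * 2 ^ R := by
  have z := C.zz
  have h1 : (C.P.x : ℤ) ≤ 2 * 2 ^ R := by
    linarith only [z.hi, z.ex, z.eK, z.eP, z.eW, z.q0, z.p0, z.P0, z.a0, z.P20, z.a20, z.W10, z.b0]
  exact_mod_cast h1

theorem xsA (C : CoreK α n R F) : C.A.x ≤ 2 * 2 ^ R := by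
  have z := C.zz
  have h1 : (C.A.x : ℤ) ≤ 2 * 2 ^ R := by
    linarith only [z.hi, z.ex, z.eK, z.eP, z.eW, z.q0, z.p0, z.P0, z.a0, z.P20, z.a20, z.W10, z.b0]
  exact_mod_cast h1

theorem xsP2 (C : CoreK α n R F) : C.P2.x ≤ 2 * 2 ^ R := by
  have z := C.zz
  have h1 : (C.P2.x : ℤ) ≤ 2 * 2 ^ R := by
    linarith only [z.hi, z.ex, z.eK, z.eP, z.eW, z.q0, z.p0, z.P0, z.a0, z.P20, z.a20, z.W10, z.b0]
  exact_mod_cast h1

theorem xsA2 (C : CoreK α n R F) : C.A2.x ≤ 2 * 2 ^ R := by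
  have z := C.zz
  have h1 : (C.A2.x : ℤ) ≤ 2 * 2 ^ R := by
    linarith only [z.hi, z.ex, z.eK, z.eP, z.eW, z.q0, z.p0, z.P0, z.a0, z.P20, z.a20, z.W10, z.b0]
  exact_mod_cast h1

theorem xsW1 (C : CoreK α n R F) : C.W1.x ≤ 2 * 2 ^ R := by
  have z := C.zz
  have h1 : (C.W1.x : ℤ) ≤ 2 * 2 ^ R := by
    linarith only [z.hi, z.ex, z.eK, z.eP, z.eW, z.q0, z.p0, z.P0, z.a0, z.P20, z.a20, z.W10, z.b0]
  exact_mod_cast h1

theorem xsW2 (C : CoreK α n R F) : C.W2.x ≤ 2 * 2 ^ R := by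
  have z := C.zz
  have h1 : (C.W2.x : ℤ) ≤ 2 * 2 ^ R := by
    linarith only [z.hi, z.ex, z.eK, z.eP, z.eW, z.q0, z.p0, z.P0, z.a0, z.P20, z.a20, z.W10, z.b0]
  exact_mod_cast h1

end Pool.Agent.EdgeIso.Chk.CoreK4
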