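import Pool.Agent.Lib.MP_48c8f3_co.Bas
import Pool.Agent.Lib.MP_48c8f3_co.K4H
import Pool.Agent.Lib.MP_48c8f3_co.K4T

set_option autoImplicit false
set_option linter.unusedSectionVars false
set_option linter.unusedVariables false

/-!
MP_48c8f3_co: the numbers of the root satisfy the system, part 1 (machine made).
-/

namespace Pool.Agent.EdgeIso.Chk.CoreK4

open Finset Pool.Agent.EdgeIso.Frame Pool.Agent.EdgeIso.Cell Pool.Agent.EdgeIso.Walsh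
  Pool.Agent.EdgeIso.Smooth

variable {α : Type*} [DecidableEq α] {n R : ℕ} {F : Frame.Num}

theorem li0 (C : CoreK α n R F) :
    0 ≤ dot (f [(1, 2), (6, -2), (11, 1), (12, -1), (13, -1)]) (pt C) := by
  have z := C.zz
  refine lin_q (2 * (2 ^ 28 * (C.W.x : ℤ)) + ((-2) * (2 ^ 28 * (C.f : ℤ)) + (1 * (2 ^ 28 * MM R F) + ((-1) * (2 ^ 28 * MM R C.K) + ((-1) * (2 ^ 28 * MM R C.W) + (0))))) : ℤ) rfl rfl ?_
  linarith only [z.ex, z.eK, z.eP, z.eW, C.mF.M_le R]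

theorem li3 (C : CoreK α n R F) :
    0 ≤ dot (f [(5, 2), (9, -2), (13, 1), (18, -1), (19, -1)]) (pt C) := by
  have z := C.zz
  refine lin_q (2 * (2 ^ 28 * (C.W2.x : ℤ)) + ((-2) * (2 ^ 28 * (C.fW : ℤ)) + (1 * (2 ^ 28 * MM R C.W) + ((-1) * (2 ^ 28 * MM R C.W1) + ((-1) * (2 ^ 28 * MM R C.W2) + (0))))) : ℤ) rfl rfl ?_
  linarith only [z.ex, z.eK, z.eP, z.eW, C.mW.M_le R]

theorem li6 (C : CoreK α n R F) :
    0 ≤ dot (f [(1, -2), (2, 1), (3, 1), (4, 1), (5, 2), (6, 1)]) (pt C) := by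
  have z := C.zz
  refine lin_q ((-2) * (2 ^ 28 * (C.W.x : ℤ)) + (1 * (2 ^ 28 * (C.A.x : ℤ)) + (1 * (2 ^ 28 * (C.P2.x : ℤ)) + (1 * (2 ^ 28 * (C.A2.x : ℤ)) + (2 * (2 ^ 28 * (C.W2.x : ℤ)) + (1 * (2 ^ 28 * (C.f : ℤ)) + (0)))))) : ℤ) rfl rfl ?_
  linarith only [z.ex, z.eK, z.eP, z.eW, z.h3]

theorem li9 (C : CoreK α n R F) :
    0 ≤ dot (f [(13, 1), (22, -2)]) (pt C) := by
  have z := C.zz
  refine lin_q (1 * (2 ^ 28 * MM R C.W) + ((-2) * (2 ^ 27 * QQ R C.W.x) + (0)) : ℤ) rfl rfl ?_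
  linarith only [z.ex, z.eK, z.eP, z.eW, C.kW'.L0, MM_eq R C.W]

theorem li12 (C : CoreK α n R F) :
    0 ≤ dot (f [(23, 2), (31, -1)]) (pt C) := by
  have z := C.zz
  refine lin_q (2 * (2 ^ 27 * QQ R C.P.x) + ((-1) * (16 * YY R C.P.x) + (0)) : ℤ) rfl rfl ?_
  linarith only [z.ex, z.eK, z.eP, z.eW, YY_le' R C.P.x]

theorem li15 (C : CoreK α n R F) :
    0 ≤ dot (f [(17, 1), (26, -2)]) (pt C) := by
  have z := C.zz
  refine lin_q (1 * (2 ^ 28 * MM R C.A2) + ((-2) * (2 ^ 27 * QQ R C.A2.x) + (0)) : ℤ) rfl rfl ?_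
  linarith only [z.ex, z.eK, z.eP, z.eW, C.kA2.L0, MM_eq R C.A2]

theorem li18 (C : CoreK α n R F) :
    0 ≤ dot (f [(19, 1), (28, -2)]) (pt C) := by
  have z := C.zz
  refine lin_q (1 * (2 ^ 28 * MM R C.W2) + ((-2) * (2 ^ 27 * QQ R C.W2.x) + (0)) : ℤ) rfl rfl ?_
  linarith only [z.ex, z.eK, z.eP, z.eW, C.kW2b.L0, MM_eq R C.W2]

theorem li21 (C : CoreK α n R F) :
    0 ≤ dot (f [(6, 1), (11, -1), (20, 2), (37, 2), (56, -1)]) (pt C) := by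
  have z := C.zz
  refine lin_q (1 * (2 ^ 28 * (C.f : ℤ)) + ((-1) * (2 ^ 28 * MM R F) + (2 * (2 ^ 27 * QQ R F.x) + (2 * (2 ^ 26 * (C.K.d 1 F.x : ℤ)) + ((-1) * (2 ^ 27) + (0))))) : ℤ) rfl rfl ?_
  linarith only [z.ex, z.eK, z.eP, z.eW, C.neg, C.mF.prK 0 F.x, MM_eq R F]

theorem li24 (C : CoreK α n R F) :
    0 ≤ dot (f [(7, 1), (36, -1), (40, 2)]) (pt C) := by
  have z := C.zz
  refine lin_q (1 * (2 ^ 28 * (C.fK : ℤ)) + ((-1) * (2 ^ 27 * (C.K.d 0 F.x : ℤ)) + (2 * (2 ^ 26 * (C.P.d 1 F.x : ℤ)) + (0))) : ℤ) rfl rfl ?_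
  linarith only [z.ex, z.eK, z.eP, z.eW, C.mK.prK 0 F.x]

theorem li27 (C : CoreK α n R F) :
    0 ≤ dot (f [(7, 1), (37, -1), (41, 2)]) (pt C) := by
  have z := C.zz
  refine lin_q (1 * (2 ^ 28 * (C.fK : ℤ)) + ((-1) * (2 ^ 26 * (C.K.d 1 F.x : ℤ)) + (2 * (2 ^ 25 * (C.P.d 2 F.x : ℤ)) + (0))) : ℤ) rfl rfl ?_
  linarith only [z.ex, z.eK, z.eP, z.eW, C.mK.prK 1 F.x]

theorem li30 (C : CoreK α n R F) :
    0 ≤ dot (f [(4, 1), (39, -1), (44, 1)]) (pt C) := by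
  have z := C.zz
  refine lin_q (1 * (2 ^ 28 * (C.A2.x : ℤ)) + ((-1) * (2 ^ 27 * (C.P.d 0 F.x : ℤ)) + (1 * (2 ^ 27 * (C.P2.d 0 F.x : ℤ)) + (0))) : ℤ) rfl rfl ?_
  linarith only [z.ex, z.eK, z.eP, z.eW, C.mP.delK 0 F.x]

theorem li33 (C : CoreK α n R F) :
    0 ≤ dot (f [(4, 1), (40, -1), (45, 1)]) (pt C) := by
  have z := C.zz
  refine lin_q (1 * (2 ^ 28 * (C.A2.x : ℤ)) + ((-1) * (2 ^ 26 * (C.P.d 1 F.x : ℤ)) + (1 * (2 ^ 26 * (C.P2.d 1 F.x : ℤ)) + (0))) : ℤ) rfl rfl ?_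
  linarith only [z.ex, z.eK, z.eP, z.eW, C.mP.delK 1 F.x]

theorem li36 (C : CoreK α n R F) :
    0 ≤ dot (f [(4, 1), (41, -1), (46, 1)]) (pt C) := by
  have z := C.zz
  refine lin_q (1 * (2 ^ 28 * (C.A2.x : ℤ)) + ((-1) * (2 ^ 25 * (C.P.d 2 F.x : ℤ)) + (1 * (2 ^ 25 * (C.P2.d 2 F.x : ℤ)) + (0))) : ℤ) rfl rfl ?_
  linarith only [z.ex, z.eK, z.eP, z.eW, C.mP.delK 2 F.x]

theorem li39 (C : CoreK α n R F) :
    0 ≤ dot (f [(5, 1), (38, -1), (51, 1)]) (pt C) := by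
  have z := C.zz
  refine lin_q (1 * (2 ^ 28 * (C.W2.x : ℤ)) + ((-1) * (2 ^ 26 * (C.W.d 1 F.x : ℤ)) + (1 * (2 ^ 26 * (C.W1.d 1 F.x : ℤ)) + (0))) : ℤ) rfl rfl ?_
  linarith only [z.ex, z.eK, z.eP, z.eW, C.mW.delK 1 F.x]

theorem li42 (C : CoreK α n R F) :
    0 ≤ dot (f [(1, -1), (2, 1), (3, 1), (4, 1), (12, 2), (21, -4), (37, -2)]) (pt C) := by
  have z := C.zz
  refine lin_q ((-1) * (2 ^ 28 * (C.W.x : ℤ)) + (1 * (2 ^ 28 * (C.A.x : ℤ)) + (1 * (2 ^ 28 * (C.P2.x : ℤ)) + (1 * (2 ^ 28 * (C.A2.x : ℤ)) + (2 * (2 ^ 28 * MM R C.K) + ((-4) * (2 ^ 27 * QQ R C.K.x) + ((-2) * (2 ^ 26 * (C.K.d 1 F.x : ℤ)) + (0))))))) : ℤ) rfl rfl ?_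
  linarith only [z.ex, z.eK, z.eP, z.eW, nDKh C, MM_eq R C.K]

theorem li45 (C : CoreK α n R F) :
    0 ≤ dot (f [(1, -1), (2, -1), (3, 3), (4, 3), (14, 4), (23, -8), (41, -4)]) (pt C) := by
  have z := C.zz
  refine lin_q ((-1) * (2 ^ 28 * (C.W.x : ℤ)) + ((-1) * (2 ^ 28 * (C.A.x : ℤ)) + (3 * (2 ^ 28 * (C.P2.x : ℤ)) + (3 * (2 ^ 28 * (C.A2.x : ℤ)) + (4 * (2 ^ 28 * MM R C.P) + ((-8) * (2 ^ 27 * QQ R C.P.x) + ((-4) * (2 ^ 25 * (C.P.d 2 F.x : ℤ)) + (0))))))) : ℤ) rfl rfl ?_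
  linarith only [z.ex, z.eK, z.eP, z.eW, nDPq C, MM_eq R C.P]

theorem li48 (C : CoreK α n R F) :
    0 ≤ dot (f [(17, 1), (26, -2), (48, -1)]) (pt C) := by
  have z := C.zz
  refine lin_q (1 * (2 ^ 28 * MM R C.A2) + ((-2) * (2 ^ 27 * QQ R C.A2.x) + ((-1) * (2 ^ 26 * (C.A2.d 1 F.x : ℤ)) + (0))) : ℤ) rfl rfl ?_
  linarith only [z.ex, z.eK, z.eP, z.eW, nDA2h C, MM_eq R C.A2]

theorem li51 (C : CoreK α n R F) :
    0 ≤ dot (f [(2, -2), (3, 1), (4, 1), (7, 1), (53, 1)]) (pt C) := by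
  have z := C.zz
  refine lin_q ((-2) * (2 ^ 28 * (C.A.x : ℤ)) + (1 * (2 ^ 28 * (C.P2.x : ℤ)) + (1 * (2 ^ 28 * (C.A2.x : ℤ)) + (1 * (2 ^ 28 * (C.fK : ℤ)) + (1 * (2 ^ 28 * max 0 (2 * (C.A.x : ℤ) - C.P.x - C.fK)) + (0))))) : ℤ) rfl rfl ?_
  linarith only [z.ex, z.eK, z.eP, z.eW, le_max_right (0 : ℤ) (2 * (C.A.x : ℤ) - C.P.x - C.fK)]

theorem li54 (C : CoreK α n R F) :
    0 ≤ dot (f [(0, 1), (1, -1)]) (pt C) := by
  have z := C.zz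
  refine lin_q (1 * (2 ^ 28 * 2 ^ R) + ((-1) * (2 ^ 28 * (C.W.x : ℤ)) + (0)) : ℤ) rfl rfl ?_
  linarith only [z.ex, z.eK, z.eP, z.eW, z.le1, z.hi]

theorem li57 (C : CoreK α n R F) :
    0 ≤ dot (f [(0, 1), (4, -1)]) (pt C) := by
  have z := C.zz
  refine lin_q (1 * (2 ^ 28 * 2 ^ R) + ((-1) * (2 ^ 28 * (C.A2.x : ℤ)) + (0)) : ℤ) rfl rfl ?_
  linarith only [z.ex, z.eK, z.eP, z.eW, z.le3, z.hi, z.f1, z.h1, z.q0]

theorem li60 (C : CoreK α n R F) :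
    0 ≤ dot (f [(0, 1), (9, -1)]) (pt C) := by
  have z := C.zz
  refine lin_q (1 * (2 ^ 28 * 2 ^ R) + ((-1) * (2 ^ 28 * (C.fW : ℤ)) + (0)) : ℤ) rfl rfl ?_
  linarith only [z.ex, z.eK, z.eP, z.eW, z.U1, z.f4, z.le1, z.hi, z.le4]

theorem li63 (C : CoreK α n R F) :
    0 ≤ dot (f [(0, 8), (12, -1)]) (pt C) := by
  have z := C.zz
  refine lin_q (8 * (2 ^ 28 * 2 ^ R) + ((-1) * (2 ^ 28 * MM R C.K) + (0)) : ℤ) rfl rfl ?_
  linarith only [z.ex, z.eK, z.eP, z.eW, (ku C).K, z.U1]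

theorem li66 (C : CoreK α n R F) :
    0 ≤ dot (f [(0, 8), (15, -1)]) (pt C) := by
  have z := C.zz
  refine lin_q (8 * (2 ^ 28 * 2 ^ R) + ((-1) * (2 ^ 28 * MM R C.A) + (0)) : ℤ) rfl rfl ?_
  linarith only [z.ex, z.eK, z.eP, z.eW, (ku C).A, z.U1]

theorem li69 (C : CoreK α n R F) :
    0 ≤ dot (f [(0, 8), (19, -1)]) (pt C) := by
  have z := C.zz
  refine lin_q (8 * (2 ^ 28 * 2 ^ R) + ((-1) * (2 ^ 28 * MM R C.W2) + (0)) : ℤ) rfl rfl ?_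
  linarith only [z.ex, z.eK, z.eP, z.eW, (ku C).W2, z.U1]

theorem li72 (C : CoreK α n R F) :
    0 ≤ dot (f [(0, 1), (22, -1)]) (pt C) := by
  have z := C.zz
  refine lin_q (1 * (2 ^ 28 * 2 ^ R) + ((-1) * (2 ^ 27 * QQ R C.W.x) + (0)) : ℤ) rfl rfl ?_
  linarith only [z.ex, z.eK, z.eP, z.eW, QQ_le (xsW C), z.U1]

theorem li75 (C : CoreK α n R F) :
    0 ≤ dot (f [(0, 1), (25, -1)]) (pt C) := by
  have z := C.zz
  refine lin_q (1 * (2 ^ 28 * 2 ^ R) + ((-1) * (2 ^ 27 * QQ R C.P2.x) + (0)) : ℤ) rfl rfl ?_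
  linarith only [z.ex, z.eK, z.eP, z.eW, QQ_le (xsP2 C), z.U1]

theorem li78 (C : CoreK α n R F) :
    0 ≤ dot (f [(0, 1), (28, -1)]) (pt C) := by
  have z := C.zz
  refine lin_q (1 * (2 ^ 28 * 2 ^ R) + ((-1) * (2 ^ 27 * QQ R C.W2.x) + (0)) : ℤ) rfl rfl ?_
  linarith only [z.ex, z.eK, z.eP, z.eW, QQ_le (xsW2 C), z.U1]

theorem li81 (C : CoreK α n R F) :
    0 ≤ dot (f [(0, 2), (31, -1)]) (pt C) := by
  have z := C.zz
  refine lin_q (2 * (2 ^ 28 * 2 ^ R) + ((-1) * (16 * YY R C.P.x) + (0)) : ℤ) rfl rfl ?_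
  linarith only [z.ex, z.eK, z.eP, z.eW, YY_le' R C.P.x, QQ_le (xsP C), z.U1]

theorem li84 (C : CoreK α n R F) :
    0 ≤ dot (f [(0, 2), (34, -1)]) (pt C) := by
  have z := C.zz
  refine lin_q (2 * (2 ^ 28 * 2 ^ R) + ((-1) * (16 * YY R C.W1.x) + (0)) : ℤ) rfl rfl ?_
  linarith only [z.ex, z.eK, z.eP, z.eW, YY_le' R C.W1.x, QQ_le (xsW1 C), z.U1]

theorem li87 (C : CoreK α n R F) :
    0 ≤ dot (f [(0, 2), (37, -1)]) (pt C) := by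
  have z := C.zz
  refine lin_q (2 * (2 ^ 28 * 2 ^ R) + ((-1) * (2 ^ 26 * (C.K.d 1 F.x : ℤ)) + (0)) : ℤ) rfl rfl ?_
  linarith only [z.ex, z.eK, z.eP, z.eW, C.kK'.triv 1 F.x, z.hi, z.q0]

theorem li90 (C : CoreK α n R F) :
    0 ≤ dot (f [(0, 2), (40, -1)]) (pt C) := by
  have z := C.zz
  refine lin_q (2 * (2 ^ 28 * 2 ^ R) + ((-1) * (2 ^ 26 * (C.P.d 1 F.x : ℤ)) + (0)) : ℤ) rfl rfl ?_
  linarith only [z.ex, z.eK, z.eP, z.eW, C.kP'.triv 1 F.x, z.hi, z.f1, z.h1, z.q0]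

theorem li93 (C : CoreK α n R F) :
    0 ≤ dot (f [(0, 1), (43, -1)]) (pt C) := by
  have z := C.zz
  refine lin_q (1 * (2 ^ 28 * 2 ^ R) + ((-1) * (2 ^ 25 * (C.A.d 2 F.x : ℤ)) + (0)) : ℤ) rfl rfl ?_
  linarith only [z.ex, z.eK, z.eP, z.eW, C.kA.triv 2 F.x, z.le2, z.hi, z.q0]

theorem li96 (C : CoreK α n R F) :
    0 ≤ dot (f [(0, 2), (46, -1)]) (pt C) := by
  have z := C.zz
  refine lin_q (2 * (2 ^ 28 * 2 ^ R) + ((-1) * (2 ^ 25 * (C.P2.d 2 F.x : ℤ)) + (0)) : ℤ) rfl rfl ?_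
  linarith only [z.ex, z.eK, z.eP, z.eW, C.kP2.triv 2 F.x, z.f2, z.h1, z.h2, z.hi, z.f1, z.q0]

theorem li99 (C : CoreK α n R F) :
    0 ≤ dot (f [(0, 1), (49, -1)]) (pt C) := by
  have z := C.zz
  refine lin_q (1 * (2 ^ 28 * 2 ^ R) + ((-1) * (2 ^ 25 * (C.A2.d 2 F.x : ℤ)) + (0)) : ℤ) rfl rfl ?_
  linarith only [z.ex, z.eK, z.eP, z.eW, C.kA2.triv 2 F.x, z.le3, z.hi, z.f1, z.h1, z.q0]

theorem li102 (C : CoreK α n R F) :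
    0 ≤ dot (f [(0, 1), (52, -1)]) (pt C) := by
  have z := C.zz
  refine lin_q (1 * (2 ^ 28 * 2 ^ R) + ((-1) * (2 ^ 25 * (C.W2.d 2 F.x : ℤ)) + (0)) : ℤ) rfl rfl ?_
  linarith only [z.ex, z.eK, z.eP, z.eW, C.kW2b.triv 2 F.x, z.U1, z.le1, z.hi, z.le4]

theorem it0 (C : CoreK α n R F) (hT : ∀ i j, (dgt GT0 i j : ℤ) ≤ dg i j) :
    (ItemL.dt 2 1 0 (f [(1, -1), (20, -1), (21, 1), (22, 1)])).Sem sys (pt C) := by
  have z := C.zz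
  refine dt_at (R := R) (p := C.K.x) (q := C.W.x) (r := F.x) rfl rfl hT (fv2 C) (fv1 C) (fv0 C) C.mF.sz C.mF.le ?_
  refine (fe_q ((-1) * (2 ^ 28 * (C.W.x : ℤ)) + ((-1) * (2 ^ 27 * QQ R F.x) + (1 * (2 ^ 27 * QQ R C.K.x) + (1 * (2 ^ 27 * QQ R C.W.x) + (0)))) : ℤ) rfl rfl).trans ?_
  linarith only [z.ex, z.eK, z.eP, z.eW]

theorem it3 (C : CoreK α n R F) (hT : ∀ i j, (dgt GT0 i j : ℤ) ≤ dg i j) :
    (ItemL.dt 8 7 1 (f [(5, -1), (22, -1), (27, 1), (28, 1)])).Sem sys (pt C) := by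
  have z := C.zz
  refine dt_at (R := R) (p := C.W1.x) (q := C.W2.x) (r := C.W.x) rfl rfl hT (fv8 C) (fv7 C) (fv1 C) C.mW.sz C.mW.le ?_
  refine (fe_q ((-1) * (2 ^ 28 * (C.W2.x : ℤ)) + ((-1) * (2 ^ 27 * QQ R C.W.x) + (1 * (2 ^ 27 * QQ R C.W1.x) + (1 * (2 ^ 27 * QQ R C.W2.x) + (0)))) : ℤ) rfl rfl).trans ?_
  linarith only [z.ex, z.eK, z.eP, z.eW]

theorem it8 (C : CoreK α n R F) :
    (ItemL.tl 2 19 1 2 (f [(29, 7)]) 4096 4096 8 tbsU 1025).Sem sys (pt C) := by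
  refine sU_at (R := R) (X := C.K.x) rfl rfl (fv2 C) (xsK C) ?_ (by norm_num)
  rw [fe_q (7 * (16 * YY R C.K.x) + (0) : ℤ) rfl rfl]
  push_cast
  ring

theorem it11 (C : CoreK α n R F) :
    (ItemL.tl 1 19 1 2 (f [(30, 7)]) 4096 4096 8 tbsU 1025).Sem sys (pt C) := by
  refine sU_at (R := R) (X := C.W.x) rfl rfl (fv1 C) (xsW C) ?_ (by norm_num)
  rw [fe_q (7 * (16 * YY R C.W.x) + (0) : ℤ) rfl rfl]
  push_cast
  ring

theorem it14 (C : CoreK α n R F) :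
    (ItemL.tl 4 19 1 2 (f [(31, 7)]) 4096 4096 8 tbsU 1025).Sem sys (pt C) := by
  refine sU_at (R := R) (X := C.P.x) rfl rfl (fv4 C) (xsP C) ?_ (by norm_num)
  rw [fe_q (7 * (16 * YY R C.P.x) + (0) : ℤ) rfl rfl]
  push_cast
  ring

theorem it17 (C : CoreK α n R F) :
    (ItemL.tl 6 19 1 2 (f [(25, 2)]) 4096 4096 8 tbgU 1025).Sem sys (pt C) := by
  refine gU_at (R := R) (X := C.P2.x) rfl rfl (fv6 C) (xsP2 C) ?_ (by norm_num)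
  rw [fe_q (2 * (2 ^ 27 * QQ R C.P2.x) + (0) : ℤ) rfl rfl]
  push_cast
  ring

theorem it20 (C : CoreK α n R F) :
    (ItemL.tl 5 19 1 2 (f [(26, 2)]) 4096 4096 8 tbgU 1025).Sem sys (pt C) := by
  refine gU_at (R := R) (X := C.A2.x) rfl rfl (fv5 C) (xsA2 C) ?_ (by norm_num)
  rw [fe_q (2 * (2 ^ 27 * QQ R C.A2.x) + (0) : ℤ) rfl rfl]
  push_cast
  ring

theorem it23 (C : CoreK α n R F) :
    (ItemL.tl 8 19 1 2 (f [(34, 7)]) 4096 4096 8 tbsU 1025).Sem sys (pt C) := by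
  refine sU_at (R := R) (X := C.W1.x) rfl rfl (fv8 C) (xsW1 C) ?_ (by norm_num)
  rw [fe_q (7 * (16 * YY R C.W1.x) + (0) : ℤ) rfl rfl]
  push_cast
  ring

theorem it26 (C : CoreK α n R F) (hR : R + 1 ≤ n) :
    (ItemL.gate 2 512 1024 (.tt 2 9 8 16 (f [(0, -2), (2, 1), (3, 1), (4, 1), (12, 1)]) (f [(2, 2)]) 3584 3584 128 2 56 tbH3_0 129)).Sem sys (pt C) := by
  have z := C.zz
  have hr := hR
  refine octt_at (R := R) (rc := 28) (k0 := 3) (j := 0) small_tbH3_0 rows_tbH3_0 rfl rfl (atK C) (by norm_num) (fv2 C) (le_of_eq (fv9 C).symm) (by omega) (by norm_num)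
    (by norm_num) (by norm_num) (by norm_num) ?_ ?_ (by norm_num) (by norm_num)
  · rw [fe_q ((-2) * (2 ^ 28 * 2 ^ R) + (1 * (2 ^ 28 * (C.A.x : ℤ)) + (1 * (2 ^ 28 * (C.P2.x : ℤ)) + (1 * (2 ^ 28 * (C.A2.x : ℤ)) + (1 * (2 ^ 28 * MM R C.K) + (0))))) : ℤ) rfl rfl]
    norm_num1
    linarith only [z.ex, z.eK, z.eP, z.eW]
  · rw [fe_q (2 * (2 ^ 28 * (C.A.x : ℤ)) + (0) : ℤ) rfl rfl]
    norm_num1
    linarith only [z.ex, z.eK, z.eP, z.eW]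

theorem it29 (C : CoreK α n R F) (hR : R + 1 ≤ n) :
    (ItemL.gate 2 256 512 (.tl 2 9 4 8 (f [(0, -1), (12, 1)]) 7168 256 2 tbH4_0 129)).Sem sys (pt C) := by
  have z := C.zz
  have hr := hR
  refine octl_at (R := R) (rc := 28) (k0 := 4) (j := 1) small_tbH4_0 rows_tbH4_0 rfl rfl (atK C) (by norm_num) (fv2 C) (le_of_eq (fv9 C)) (by omega) (by norm_num)
    (by norm_num) (by norm_num) (by norm_num) ?_ (by norm_num)
  · rw [fe_q ((-1) * (2 ^ 28 * 2 ^ R) + (1 * (2 ^ 28 * MM R C.K) + (0)) : ℤ) rfl rfl]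
    norm_num1
    linarith only [z.ex, z.eK, z.eP, z.eW]

theorem it32 (C : CoreK α n R F) (hR : R + 1 ≤ n) :
    (ItemL.gate 2 256 512 (.tt 2 9 4 8 (f [(0, -1), (12, 1)]) (f [(2, 2)]) 7168 28672 256 2 224 tbH4_2 129)).Sem sys (pt C) := by
  have z := C.zz
  have hr := hR
  refine octt_at (R := R) (rc := 112) (k0 := 4) (j := 1) small_tbH4_2 rows_tbH4_2 rfl rfl (atK C) (by norm_num) (fv2 C) (le_of_eq (fv9 C).symm) (by omega) (by norm_num)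
    (by norm_num) (by norm_num) (by norm_num) ?_ ?_ (by norm_num) (by norm_num)
  · rw [fe_q ((-1) * (2 ^ 28 * 2 ^ R) + (1 * (2 ^ 28 * MM R C.K) + (0)) : ℤ) rfl rfl]
    norm_num1
    linarith only [z.ex, z.eK, z.eP, z.eW]
  · rw [fe_q (2 * (2 ^ 28 * (C.A.x : ℤ)) + (0) : ℤ) rfl rfl]
    norm_num1
    linarith only [z.ex, z.eK, z.eP, z.eW]

theorem it35 (C : CoreK α n R F) (hR : R + 1 ≤ n) :
    (ItemL.gate 1 128 256 (.tt 1 10 2 4 (f [(0, -1), (1, -2), (13, 2)]) (f [(5, 2)]) 7168 14336 512 2 56 tbG5_0 129)).Sem sys (pt C) := by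
  have z := C.zz
  have hr := hR
  refine octt_at (R := R) (rc := 28) (k0 := 5) (j := 2) small_tbG5_0 rows_tbG5_0 rfl rfl (atW C) (by norm_num) (fv1 C) (le_of_eq (fv10 C).symm) (by omega) (by norm_num)
    (by norm_num) (by norm_num) (by norm_num) ?_ ?_ (by norm_num) (by norm_num)
  · rw [fe_q ((-1) * (2 ^ 28 * 2 ^ R) + ((-2) * (2 ^ 28 * (C.W.x : ℤ)) + (2 * (2 ^ 28 * MM R C.W) + (0))) : ℤ) rfl rfl]
    norm_num1
    linarith only [z.ex, z.eK, z.eP, z.eW]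
  · rw [fe_q (2 * (2 ^ 28 * (C.W2.x : ℤ)) + (0) : ℤ) rfl rfl]
    norm_num1
    linarith only [z.ex, z.eK, z.eP, z.eW]

theorem it38 (C : CoreK α n R F) (hR : R + 1 ≤ n) :
    (ItemL.gate 1 64 128 (.tt 1 10 1 2 (f [(0, -1), (1, -8), (13, 4)]) (f [(5, 2)]) 7168 28672 1024 2 56 tbG5_0 129)).Sem sys (pt C) := by
  have z := C.zz
  have hr := hR
  refine octt_at (R := R) (rc := 28) (k0 := 5) (j := 3) small_tbG5_0 rows_tbG5_0 rfl rfl (atW C) (by norm_num) (fv1 C) (le_of_eq (fv10 C).symm) (by omega) (by norm_num)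
    (by norm_num) (by norm_num) (by norm_num) ?_ ?_ (by norm_num) (by norm_num)
  · rw [fe_q ((-1) * (2 ^ 28 * 2 ^ R) + ((-8) * (2 ^ 28 * (C.W.x : ℤ)) + (4 * (2 ^ 28 * MM R C.W) + (0))) : ℤ) rfl rfl]
    norm_num1
    linarith only [z.ex, z.eK, z.eP, z.eW]
  · rw [fe_q (2 * (2 ^ 28 * (C.W2.x : ℤ)) + (0) : ℤ) rfl rfl]
    norm_num1
    linarith only [z.ex, z.eK, z.eP, z.eW]

theorem it41 (C : CoreK α n R F) (hR : R + 1 ≤ n) :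
    (ItemL.gate 4 256 512 (.tt 4 11 4 8 (f [(0, -1), (14, 1)]) (f [(4, 2)]) 7168 7168 256 2 56 tbH3_0 129)).Sem sys (pt C) := by
  have z := C.zz
  have hr := hR
  refine octt_at (R := R) (rc := 28) (k0 := 3) (j := 1) small_tbH3_0 rows_tbH3_0 rfl rfl (atP C) (by norm_num) (fv4 C) (le_of_eq (fv11 C).symm) (by omega) (by norm_num)
    (by norm_num) (by norm_num) (by norm_num) ?_ ?_ (by norm_num) (by norm_num)
  · rw [fe_q ((-1) * (2 ^ 28 * 2 ^ R) + (1 * (2 ^ 28 * MM R C.P) + (0)) : ℤ) rfl rfl]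
    norm_num1
    linarith only [z.ex, z.eK, z.eP, z.eW]
  · rw [fe_q (2 * (2 ^ 28 * (C.A2.x : ℤ)) + (0) : ℤ) rfl rfl]
    norm_num1
    linarith only [z.ex, z.eK, z.eP, z.eW]

theorem it44 (C : CoreK α n R F) (hR : R + 1 ≤ n) :
    (ItemL.gate 4 256 512 (.tl 4 11 4 8 (f [(0, -1), (14, 1)]) 7168 256 2 tbH3_1 129)).Sem sys (pt C) := by
  have z := C.zz
  have hr := hR
  refine octl_at (R := R) (rc := 56) (k0 := 3) (j := 1) small_tbH3_1 rows_tbH3_1 rfl rfl (atP C) (by norm_num) (fv4 C) (le_of_eq (fv11 C)) (by omega) (by norm_num)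
    (by norm_num) (by norm_num) (by norm_num) ?_ (by norm_num)
  · rw [fe_q ((-1) * (2 ^ 28 * 2 ^ R) + (1 * (2 ^ 28 * MM R C.P) + (0)) : ℤ) rfl rfl]
    norm_num1
    linarith only [z.ex, z.eK, z.eP, z.eW]

theorem it47 (C : CoreK α n R F) (hR : R + 1 ≤ n) :
    (ItemL.gate 4 128 256 (.tt 4 11 2 4 (f [(0, -1), (3, -2), (4, -2), (14, 2)]) (f [(4, 2)]) 7168 14336 512 2 56 tbH4_0 129)).Sem sys (pt C) := by
  have z := C.zz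
  have hr := hR
  refine octt_at (R := R) (rc := 28) (k0 := 4) (j := 2) small_tbH4_0 rows_tbH4_0 rfl rfl (atP C) (by norm_num) (fv4 C) (le_of_eq (fv11 C).symm) (by omega) (by norm_num)
    (by norm_num) (by norm_num) (by norm_num) ?_ ?_ (by norm_num) (by norm_num)
  · rw [fe_q ((-1) * (2 ^ 28 * 2 ^ R) + ((-2) * (2 ^ 28 * (C.P2.x : ℤ)) + ((-2) * (2 ^ 28 * (C.A2.x : ℤ)) + (2 * (2 ^ 28 * MM R C.P) + (0)))) : ℤ) rfl rfl]
    norm_num1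
    linarith only [z.ex, z.eK, z.eP, z.eW]
  · rw [fe_q (2 * (2 ^ 28 * (C.A2.x : ℤ)) + (0) : ℤ) rfl rfl]
    norm_num1
    linarith only [z.ex, z.eK, z.eP, z.eW]

theorem it50 (C : CoreK α n R F) (hR : R + 1 ≤ n) :
    (ItemL.gate 4 128 256 (.tl 4 11 2 4 (f [(0, -1), (3, -2), (4, -2), (14, 2)]) 7168 512 2 tbH4_1 129)).Sem sys (pt C) := by
  have z := C.zz
  have hr := hR
  refine octl_at (R := R) (rc := 56) (k0 := 4) (j := 2) small_tbH4_1 rows_tbH4_1 rfl rfl (atP C) (by norm_num) (fv4 C) (le_of_eq (fv11 C)) (by omega) (by norm_num)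
    (by norm_num) (by norm_num) (by norm_num) ?_ (by norm_num)
  · rw [fe_q ((-1) * (2 ^ 28 * 2 ^ R) + ((-2) * (2 ^ 28 * (C.P2.x : ℤ)) + ((-2) * (2 ^ 28 * (C.A2.x : ℤ)) + (2 * (2 ^ 28 * MM R C.P) + (0)))) : ℤ) rfl rfl]
    norm_num1
    linarith only [z.ex, z.eK, z.eP, z.eW]

theorem it53 (C : CoreK α n R F) (hR : R + 1 ≤ n) :
    (ItemL.gate 3 128 256 (.tt 3 12 2 4 (f [(0, -1), (2, -2), (15, 2)]) (f [(53, 1)]) 7168 14336 512 2 56 tbH4_0 129)).Sem sys (pt C) := by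
  have z := C.zz
  have hr := hR
  refine octt_at (R := R) (rc := 28) (k0 := 4) (j := 2) small_tbH4_0 rows_tbH4_0 rfl rfl (atA C) (by norm_num) (fv3 C) (le_of_eq (fv12 C).symm) (by omega) (by norm_num)
    (by norm_num) (by norm_num) (by norm_num) ?_ ?_ (by norm_num) (by norm_num)
  · rw [fe_q ((-1) * (2 ^ 28 * 2 ^ R) + ((-2) * (2 ^ 28 * (C.A.x : ℤ)) + (2 * (2 ^ 28 * MM R C.A) + (0))) : ℤ) rfl rfl]
    norm_num1
    linarith only [z.ex, z.eK, z.eP, z.eW]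
  · rw [fe_q (1 * (2 ^ 28 * max 0 (2 * (C.A.x : ℤ) - C.P.x - C.fK)) + (0) : ℤ) rfl rfl]
    norm_num1
    linarith only [z.ex, z.eK, z.eP, z.eW]

theorem it56 (C : CoreK α n R F) (hR : R + 1 ≤ n) :
    (ItemL.gate 8 128 256 (.tt 8 15 2 4 (f [(0, -1), (1, -2), (5, 2), (18, 2)]) (f [(9, -1), (10, 1)]) 7168 28672 512 2 112 tbH4_1 129)).Sem sys (pt C) := by
  have z := C.zz
  have hr := hR
  refine octt_at (R := R) (rc := 56) (k0 := 4) (j := 2) small_tbH4_1 rows_tbH4_1 rfl rfl (atW1 C) (by norm_num) (fv8 C) (le_of_eq (fv15 C).symm) (by omega) (by norm_num)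
    (by norm_num) (by norm_num) (by norm_num) ?_ ?_ (by norm_num) (by norm_num)
  · rw [fe_q ((-1) * (2 ^ 28 * 2 ^ R) + ((-2) * (2 ^ 28 * (C.W.x : ℤ)) + (2 * (2 ^ 28 * (C.W2.x : ℤ)) + (2 * (2 ^ 28 * MM R C.W1) + (0)))) : ℤ) rfl rfl]
    norm_num1
    linarith only [z.ex, z.eK, z.eP, z.eW]
  · rw [fe_q ((-1) * (2 ^ 28 * (C.fW : ℤ)) + (1 * (2 ^ 28 * (C.w2 : ℤ)) + (0)) : ℤ) rfl rfl]
    norm_num1
    linarith only [z.ex, z.eK, z.eP, z.eW]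

theorem it59 (C : CoreK α n R F) (hR : R + 1 ≤ n) :
    (ItemL.gate 8 128 256 (.tl 8 15 2 4 (f [(0, -1), (1, -2), (5, 2), (18, 2)]) 7168 512 2 tbH4_2 129)).Sem sys (pt C) := by
  have z := C.zz
  have hr := hR
  refine octl_at (R := R) (rc := 112) (k0 := 4) (j := 2) small_tbH4_2 rows_tbH4_2 rfl rfl (atW1 C) (by norm_num) (fv8 C) (le_of_eq (fv15 C)) (by omega) (by norm_num)
    (by norm_num) (by norm_num) (by norm_num) ?_ (by norm_num)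
  · rw [fe_q ((-1) * (2 ^ 28 * 2 ^ R) + ((-2) * (2 ^ 28 * (C.W.x : ℤ)) + (2 * (2 ^ 28 * (C.W2.x : ℤ)) + (2 * (2 ^ 28 * MM R C.W1) + (0)))) : ℤ) rfl rfl]
    norm_num1
    linarith only [z.ex, z.eK, z.eP, z.eW]

theorem it62 (C : CoreK α n R F) (hR : R + 1 ≤ n) (hn : 1 ≤ n) :
    (ItemL.gate 6 256 512 (.tt 6 13 4 8 (f [(0, -1), (16, 1)]) (f [(4, 1), (8, -1)]) 7168 14336 256 2 112 tbH2_1 129)).Sem sys (pt C) := by
  have z := C.zz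
  have hr := hR
  refine octt_at (R := R) (rc := 56) (k0 := 2) (j := 1) small_tbH2_1 rows_tbH2_1 rfl rfl (atP2 C hn) (by norm_num) (fv6 C) (le_of_eq (fv13 C).symm) (by omega) (by norm_num)
    (by norm_num) (by norm_num) (by norm_num) ?_ ?_ (by norm_num) (by norm_num)
  · rw [fe_q ((-1) * (2 ^ 28 * 2 ^ R) + (1 * (2 ^ 28 * MM R C.P2) + (0)) : ℤ) rfl rfl]
    norm_num1
    linarith only [z.ex, z.eK, z.eP, z.eW]
  · rw [fe_q (1 * (2 ^ 28 * (C.A2.x : ℤ)) + ((-1) * (2 ^ 28 * (C.fP : ℤ)) + (0)) : ℤ) rfl rfl]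
    norm_num1
    linarith only [z.ex, z.eK, z.eP, z.eW]

theorem it65 (C : CoreK α n R F) (hR : R + 1 ≤ n) (hn : 1 ≤ n) :
    (ItemL.gate 6 128 256 (.tt 6 13 2 4 (f [(0, -1), (3, -2), (16, 2)]) (f [(4, 1), (8, -1)]) 7168 28672 512 2 112 tbH3_1 129)).Sem sys (pt C) := by
  have z := C.zz
  have hr := hR
  refine octt_at (R := R) (rc := 56) (k0 := 3) (j := 2) small_tbH3_1 rows_tbH3_1 rfl rfl (atP2 C hn) (by norm_num) (fv6 C) (le_of_eq (fv13 C).symm) (by omega) (by norm_num)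
    (by norm_num) (by norm_num) (by norm_num) ?_ ?_ (by norm_num) (by norm_num)
  · rw [fe_q ((-1) * (2 ^ 28 * 2 ^ R) + ((-2) * (2 ^ 28 * (C.P2.x : ℤ)) + (2 * (2 ^ 28 * MM R C.P2) + (0))) : ℤ) rfl rfl]
    norm_num1
    linarith only [z.ex, z.eK, z.eP, z.eW]
  · rw [fe_q (1 * (2 ^ 28 * (C.A2.x : ℤ)) + ((-1) * (2 ^ 28 * (C.fP : ℤ)) + (0)) : ℤ) rfl rfl]
    norm_num1
    linarith only [z.ex, z.eK, z.eP, z.eW]

theorem it68 (C : CoreK α n R F) (hR : R + 1 ≤ n) (hn : 1 ≤ n) :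
    (ItemL.gate 6 128 256 (.tl 6 13 2 4 (f [(0, -1), (3, -2), (16, 2)]) 7168 512 2 tbH3_2 129)).Sem sys (pt C) := by
  have z := C.zz
  have hr := hR
  refine octl_at (R := R) (rc := 112) (k0 := 3) (j := 2) small_tbH3_2 rows_tbH3_2 rfl rfl (atP2 C hn) (by norm_num) (fv6 C) (le_of_eq (fv13 C)) (by omega) (by norm_num)
    (by norm_num) (by norm_num) (by norm_num) ?_ (by norm_num)
  · rw [fe_q ((-1) * (2 ^ 28 * 2 ^ R) + ((-2) * (2 ^ 28 * (C.P2.x : ℤ)) + (2 * (2 ^ 28 * MM R C.P2) + (0))) : ℤ) rfl rfl]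
    norm_num1
    linarith only [z.ex, z.eK, z.eP, z.eW]

theorem it71 (C : CoreK α n R F) (hR : R + 1 ≤ n) (SI : SIN α (n + 3)) :
    (ItemL.ts 1 32 (f [(1, 13), (5, -6), (13, 10), (30, -10), (38, -10)]) 8192 1024 64 tbTF0_3 33 8 64 [(0, 1, 4, 1), (0, 1, 4, 1), (0, 1, 4, 1), (10, 1, 16, 1), (10, 1, 16, 1)] tbTA0 10).Sem sys (pt C) := by
  have z := C.zz
  have hr := hR
  refine tsf_at (R := R) (n := n + 2) (mt := 3) (m := 2) (j := 1) (t := F.x) (s := 10) (c0 := SFC) (e := FE) (ah := AH0) (kl := KL) (lev := 3) (j0 := 0) (shapes := famG0) rfl rfl (atW C) (fun s X h1 h2 => C.ih s X (by omega) h2) (fv1 C) (fv0 C) (fv10 C) (by rw [pow_zero, Nat.one_mul]; exact xsW C) (by norm_num)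
    (by omega) (by norm_num) (by norm_num) (by norm_num) (by norm_num) (by norm_num) (by norm_num) (by norm_num) ?_ (fun s hs => SI _ (by omega) _ _ (atW C).fam s (mem_famG0 hs)) chkL_tbTF0_3 chkT_tbTF0_3_0
  rw [fe_q (13 * (2 ^ 28 * (C.W.x : ℤ)) + ((-6) * (2 ^ 28 * (C.W2.x : ℤ)) + (10 * (2 ^ 28 * MM R C.W) + ((-10) * (16 * YY R C.W.x) + ((-10) * (2 ^ 26 * (C.W.d 1 F.x : ℤ)) + (0))))) : ℤ) rfl rfl]
  norm_num1
  linarith only [z.ex, z.eK, z.eP, z.eW]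

theorem it74 (C : CoreK α n R F) (hR : R + 1 ≤ n) (SI : SIN α (n + 3)) :
    (ItemL.ts 4 32 (f [(3, 13), (4, 7), (14, 10), (31, -10), (40, -10)]) 8192 1024 64 tbTF0_2 33 8 64 [(0, 1, 4, 1), (0, 1, 4, 1), (0, 1, 4, 1), (11, 1, 16, 1), (11, 1, 16, 1)] tbTA0 10).Sem sys (pt C) := by
  have z := C.zz
  have hr := hR
  refine tsf_at (R := R) (n := n + 1) (mt := 3) (m := 2) (j := 1) (t := F.x) (s := 10) (c0 := SFC) (e := FE) (ah := AH0) (kl := KL) (lev := 2) (j0 := 0) (shapes := famG0) rfl rfl (atP C) (fun s X h1 h2 => C.ih s X (by omega) h2) (fv4 C) (fv0 C) (fv11 C) (by rw [pow_zero, Nat.one_mul]; exact xsP C) (by norm_num)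
    (by omega) (by norm_num) (by norm_num) (by norm_num) (by norm_num) (by norm_num) (by norm_num) (by norm_num) ?_ (fun s hs => SI _ (by omega) _ _ (atP C).fam s (mem_famG0 hs)) chkL_tbTF0_2 chkT_tbTF0_2_0
  rw [fe_q (13 * (2 ^ 28 * (C.P2.x : ℤ)) + (7 * (2 ^ 28 * (C.A2.x : ℤ)) + (10 * (2 ^ 28 * MM R C.P) + ((-10) * (16 * YY R C.P.x) + ((-10) * (2 ^ 26 * (C.P.d 1 F.x : ℤ)) + (0))))) : ℤ) rfl rfl]
  norm_num1
  linarith only [z.ex, z.eK, z.eP, z.eW]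

theorem it77 (C : CoreK α n R F) (hR : R + 1 ≤ n) (SI : SIN α (n + 3)) :
    (ItemL.ts 3 32 (f [(2, 13), (15, 10), (32, -10), (43, -10), (53, -3)]) 8192 1024 64 tbTF0_2 33 8 64 [(0, 1, 2, 1), (0, 1, 2, 1), (0, 1, 2, 1), (12, 1, 16, 1), (12, 1, 16, 1)] tbTA0 10).Sem sys (pt C) := by
  have z := C.zz
  have hr := hR
  refine tsf_at (R := R) (n := n + 1) (mt := 3) (m := 2) (j := 2) (t := F.x) (s := 10) (c0 := SFC) (e := FE) (ah := AH0) (kl := KL) (lev := 2) (j0 := 0) (shapes := famG0) rfl rfl (atA C) (fun s X h1 h2 => C.ih s X (by omega) h2) (fv3 C) (fv0 C) (fv12 C) (by rw [pow_zero, Nat.one_mul]; exact xsA C) (by norm_num)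
    (by omega) (by norm_num) (by norm_num) (by norm_num) (by norm_num) (by norm_num) (by norm_num) (by norm_num) ?_ (fun s hs => SI _ (by omega) _ _ (atA C).fam s (mem_famG0 hs)) chkL_tbTF0_2 chkT_tbTF0_2_0
  rw [fe_q (13 * (2 ^ 28 * (C.A.x : ℤ)) + (10 * (2 ^ 28 * MM R C.A) + ((-10) * (16 * YY R C.A.x) + ((-10) * (2 ^ 25 * (C.A.d 2 F.x : ℤ)) + ((-3) * (2 ^ 28 * max 0 (2 * (C.A.x : ℤ) - C.P.x - C.fK)) + (0))))) : ℤ) rfl rfl]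
  norm_num1
  linarith only [z.ex, z.eK, z.eP, z.eW]

theorem it82 (C : CoreK α n R F) (hn : 1 ≤ n) :
    (ItemL.ts 5 32 (f [(4, 1), (17, 1), (26, -2), (49, -1)]) 20480 256 16 tbTTc 33 8 64 [(0, 1, 1, 80)] tbTAc 2).Sem sys (pt C) := by
  have z := C.zz
  refine tsc_at (R := R) (j := 2) (t := F.x) rfl rfl (atA2 C hn) (fun s X h1 h2 => C.ih s X (by omega) h2) (fv5 C) (fv0 C) (xsA2 C) (by norm_num) (by norm_num) (by norm_num) ?_ chkTc1 chkTc2 chkTc3 chkTc4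
  refine (fe_q (1 * (2 ^ 28 * (C.A2.x : ℤ)) + (1 * (2 ^ 28 * MM R C.A2) + ((-2) * (2 ^ 27 * QQ R C.A2.x) + ((-1) * (2 ^ 25 * (C.A2.d 2 F.x : ℤ)) + (0)))) : ℤ) rfl rfl).trans ?_
  norm_num1
  linarith only [z.ex, z.eK, z.eP, z.eW]

theorem it83 (C : CoreK α n R F) (hn : 1 ≤ n) :
    (ItemL.ts 5 32 (f [(4, 1), (17, 1), (26, -2), (50, -1)]) 20480 256 16 tbTTc 33 8 64 [(0, 2, 1, 40)] tbTAc 2).Sem sys (pt C) := by
  have z := C.zz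
  refine tsc_at (R := R) (j := 3) (t := F.x) rfl rfl (atA2 C hn) (fun s X h1 h2 => C.ih s X (by omega) h2) (fv5 C) (fv0 C) (xsA2 C) (by norm_num) (by norm_num) (by norm_num) ?_ chkTc1 chkTc2 chkTc3 chkTc4
  refine (fe_q (1 * (2 ^ 28 * (C.A2.x : ℤ)) + (1 * (2 ^ 28 * MM R C.A2) + ((-2) * (2 ^ 27 * QQ R C.A2.x) + ((-1) * (2 ^ 24 * (C.A2.d 3 F.x : ℤ)) + (0)))) : ℤ) rfl rfl).trans ?_
  norm_num1
  linarith only [z.ex, z.eK, z.eP, z.eW]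

end Pool.Agent.EdgeIso.Chk.CoreK4
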