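import Pool.Agent.Lib.MP_48c8f3_co.Bas
import Pool.Agent.Lib.MP_48c8f3_co.K4H
import Pool.Agent.Lib.MP_48c8f3_co.K4T

set_option autoImplicit false
set_option linter.unusedSectionVars false
set_option linter.unusedVariables false

/-!
MP_48c8f3_co: the numbers of the root satisfy the system, part 3 (machine made).
-/

namespace Pool.Agent.EdgeIso.Chk.CoreK4

open Finset Pool.Agent.EdgeIso.Frame Pool.Agent.EdgeIso.Cell Pool.Agent.EdgeIso.Walsh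
  Pool.Agent.EdgeIso.Smooth

variable {α : Type*} [DecidableEq α] {n R : ℕ} {F : Frame.Num}

theorem li2 (C : CoreK α n R F) :
    0 ≤ dot (f [(4, 2), (8, -2), (14, 1), (16, -1), (17, -1)]) (pt C) := by
  have z := C.zz
  refine lin_q (2 * (2 ^ 28 * (C.A2.x : ℤ)) + ((-2) * (2 ^ 28 * (C.fP : ℤ)) + (1 * (2 ^ 28 * MM R C.P) + ((-1) * (2 ^ 28 * MM R C.P2) + ((-1) * (2 ^ 28 * MM R C.A2) + (0))))) : ℤ) rfl rfl ?_
  linarith only [z.ex, z.eK, z.eP, z.eW, C.mP.M_le R]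

theorem li5 (C : CoreK α n R F) :
    0 ≤ dot (f [(2, -1), (4, 2), (7, 1)]) (pt C) := by
  have z := C.zz
  refine lin_q ((-1) * (2 ^ 28 * (C.A.x : ℤ)) + (2 * (2 ^ 28 * (C.A2.x : ℤ)) + (1 * (2 ^ 28 * (C.fK : ℤ)) + (0))) : ℤ) rfl rfl ?_
  linarith only [z.ex, z.eK, z.eP, z.eW, z.h2]

theorem li8 (C : CoreK α n R F) :
    0 ≤ dot (f [(1, -10), (2, 4), (3, 4), (4, 4), (5, 8), (6, 6), (10, 6), (12, 1), (21, -2)]) (pt C) := by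
  have z := C.zz
  refine lin_q ((-10) * (2 ^ 28 * (C.W.x : ℤ)) + (4 * (2 ^ 28 * (C.A.x : ℤ)) + (4 * (2 ^ 28 * (C.P2.x : ℤ)) + (4 * (2 ^ 28 * (C.A2.x : ℤ)) + (8 * (2 ^ 28 * (C.W2.x : ℤ)) + (6 * (2 ^ 28 * (C.f : ℤ)) + (6 * (2 ^ 28 * (C.w2 : ℤ)) + (1 * (2 ^ 28 * MM R C.K) + ((-2) * (2 ^ 27 * QQ R C.K.x) + (0))))))))) : ℤ) rfl rfl ?_
  linarith only [z.ex, z.eK, z.eP, z.eW, C.pair, MM_eq R C.K]

theorem li11 (C : CoreK α n R F) :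
    0 ≤ dot (f [(14, 1), (23, -2)]) (pt C) := by
  have z := C.zz
  refine lin_q (1 * (2 ^ 28 * MM R C.P) + ((-2) * (2 ^ 27 * QQ R C.P.x) + (0)) : ℤ) rfl rfl ?_
  linarith only [z.ex, z.eK, z.eP, z.eW, C.kP'.L0, MM_eq R C.P]

theorem li14 (C : CoreK α n R F) :
    0 ≤ dot (f [(24, 2), (32, -1)]) (pt C) := by
  have z := C.zz
  refine lin_q (2 * (2 ^ 27 * QQ R C.A.x) + ((-1) * (16 * YY R C.A.x) + (0)) : ℤ) rfl rfl ?_
  linarith only [z.ex, z.eK, z.eP, z.eW, YY_le' R C.A.x]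

theorem li17 (C : CoreK α n R F) :
    0 ≤ dot (f [(27, 2), (34, -1)]) (pt C) := by
  have z := C.zz
  refine lin_q (2 * (2 ^ 27 * QQ R C.W1.x) + ((-1) * (16 * YY R C.W1.x) + (0)) : ℤ) rfl rfl ?_
  linarith only [z.ex, z.eK, z.eP, z.eW, YY_le' R C.W1.x]

theorem li20 (C : CoreK α n R F) :
    0 ≤ dot (f [(1, 1), (11, -1), (20, 2), (36, 1), (56, -1)]) (pt C) := by
  have z := C.zz
  refine lin_q (1 * (2 ^ 28 * (C.W.x : ℤ)) + ((-1) * (2 ^ 28 * MM R F) + (2 * (2 ^ 27 * QQ R F.x) + (1 * (2 ^ 27 * (C.K.d 0 F.x : ℤ)) + ((-1) * (2 ^ 27) + (0))))) : ℤ) rfl rfl ?_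
  linarith only [z.ex, z.eK, z.eP, z.eW, C.neg, C.mF.delK 0 F.x, MM_eq R F]

theorem li23 (C : CoreK α n R F) :
    0 ≤ dot (f [(2, 1), (36, -1), (39, 1)]) (pt C) := by
  have z := C.zz
  refine lin_q (1 * (2 ^ 28 * (C.A.x : ℤ)) + ((-1) * (2 ^ 27 * (C.K.d 0 F.x : ℤ)) + (1 * (2 ^ 27 * (C.P.d 0 F.x : ℤ)) + (0))) : ℤ) rfl rfl ?_
  linarith only [z.ex, z.eK, z.eP, z.eW, C.mK.delK 0 F.x]

theorem li26 (C : CoreK α n R F) :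
    0 ≤ dot (f [(2, 1), (37, -1), (40, 1)]) (pt C) := by
  have z := C.zz
  refine lin_q (1 * (2 ^ 28 * (C.A.x : ℤ)) + ((-1) * (2 ^ 26 * (C.K.d 1 F.x : ℤ)) + (1 * (2 ^ 26 * (C.P.d 1 F.x : ℤ)) + (0))) : ℤ) rfl rfl ?_
  linarith only [z.ex, z.eK, z.eP, z.eW, C.mK.delK 1 F.x]

theorem li29 (C : CoreK α n R F) :
    0 ≤ dot (f [(3, 1), (4, 1), (37, -1), (42, 1)]) (pt C) := by
  have z := C.zz
  refine lin_q (1 * (2 ^ 28 * (C.P2.x : ℤ)) + (1 * (2 ^ 28 * (C.A2.x : ℤ)) + ((-1) * (2 ^ 26 * (C.K.d 1 F.x : ℤ)) + (1 * (2 ^ 26 * (C.A.d 1 F.x : ℤ)) + (0)))) : ℤ) rfl rfl ?_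
  linarith only [z.ex, z.eK, z.eP, z.eW, C.mK.delW 1 F.x]

theorem li32 (C : CoreK α n R F) :
    0 ≤ dot (f [(3, 1), (4, -1), (8, 1), (39, -1), (48, 2)]) (pt C) := by
  have z := C.zz
  refine lin_q (1 * (2 ^ 28 * (C.P2.x : ℤ)) + ((-1) * (2 ^ 28 * (C.A2.x : ℤ)) + (1 * (2 ^ 28 * (C.fP : ℤ)) + ((-1) * (2 ^ 27 * (C.P.d 0 F.x : ℤ)) + (2 * (2 ^ 26 * (C.A2.d 1 F.x : ℤ)) + (0))))) : ℤ) rfl rfl ?_
  linarith only [z.ex, z.eK, z.eP, z.eW, C.mP.prW 0 F.x]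

theorem li35 (C : CoreK α n R F) :
    0 ≤ dot (f [(3, 1), (4, -1), (8, 1), (40, -1), (49, 2)]) (pt C) := by
  have z := C.zz
  refine lin_q (1 * (2 ^ 28 * (C.P2.x : ℤ)) + ((-1) * (2 ^ 28 * (C.A2.x : ℤ)) + (1 * (2 ^ 28 * (C.fP : ℤ)) + ((-1) * (2 ^ 26 * (C.P.d 1 F.x : ℤ)) + (2 * (2 ^ 25 * (C.A2.d 2 F.x : ℤ)) + (0))))) : ℤ) rfl rfl ?_
  linarith only [z.ex, z.eK, z.eP, z.eW, C.mP.prW 1 F.x]

theorem li38 (C : CoreK α n R F) :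
    0 ≤ dot (f [(3, 1), (4, -1), (8, 1), (41, -1), (50, 2)]) (pt C) := by
  have z := C.zz
  refine lin_q (1 * (2 ^ 28 * (C.P2.x : ℤ)) + ((-1) * (2 ^ 28 * (C.A2.x : ℤ)) + (1 * (2 ^ 28 * (C.fP : ℤ)) + ((-1) * (2 ^ 25 * (C.P.d 2 F.x : ℤ)) + (2 * (2 ^ 24 * (C.A2.d 3 F.x : ℤ)) + (0))))) : ℤ) rfl rfl ?_
  linarith only [z.ex, z.eK, z.eP, z.eW, C.mP.prW 2 F.x]

theorem li41 (C : CoreK α n R F) :
    0 ≤ dot (f [(12, 1), (21, -2), (36, -1)]) (pt C) := by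
  have z := C.zz
  refine lin_q (1 * (2 ^ 28 * MM R C.K) + ((-2) * (2 ^ 27 * QQ R C.K.x) + ((-1) * (2 ^ 27 * (C.K.d 0 F.x : ℤ)) + (0))) : ℤ) rfl rfl ?_
  linarith only [z.ex, z.eK, z.eP, z.eW, nDKx C, MM_eq R C.K]

theorem li44 (C : CoreK α n R F) :
    0 ≤ dot (f [(14, 1), (23, -2), (39, -1)]) (pt C) := by
  have z := C.zz
  refine lin_q (1 * (2 ^ 28 * MM R C.P) + ((-2) * (2 ^ 27 * QQ R C.P.x) + ((-1) * (2 ^ 27 * (C.P.d 0 F.x : ℤ)) + (0))) : ℤ) rfl rfl ?_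
  linarith only [z.ex, z.eK, z.eP, z.eW, nDPx C, MM_eq R C.P]

theorem li47 (C : CoreK α n R F) :
    0 ≤ dot (f [(16, 1), (25, -2), (44, -1)]) (pt C) := by
  have z := C.zz
  refine lin_q (1 * (2 ^ 28 * MM R C.P2) + ((-2) * (2 ^ 27 * QQ R C.P2.x) + ((-1) * (2 ^ 27 * (C.P2.d 0 F.x : ℤ)) + (0))) : ℤ) rfl rfl ?_
  linarith only [z.ex, z.eK, z.eP, z.eW, nDP2x C, MM_eq R C.P2]

theorem li50 (C : CoreK α n R F) :
    0 ≤ dot (f [(19, 1), (28, -2), (52, -1)]) (pt C) := by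
  have z := C.zz
  refine lin_q (1 * (2 ^ 28 * MM R C.W2) + ((-2) * (2 ^ 27 * QQ R C.W2.x) + ((-1) * (2 ^ 25 * (C.W2.d 2 F.x : ℤ)) + (0))) : ℤ) rfl rfl ?_
  linarith only [z.ex, z.eK, z.eP, z.eW, nDW2q C, MM_eq R C.W2]

theorem li53 (C : CoreK α n R F) :
    0 ≤ dot (f [(1, 1), (5, -2), (9, 1), (10, -1), (55, 1)]) (pt C) := by
  have z := C.zz
  refine lin_q (1 * (2 ^ 28 * (C.W.x : ℤ)) + ((-2) * (2 ^ 28 * (C.W2.x : ℤ)) + (1 * (2 ^ 28 * (C.fW : ℤ)) + ((-1) * (2 ^ 28 * (C.w2 : ℤ)) + (1 * (2 ^ 28 * max 0 ((C.w2 : ℤ) + C.W2.x - C.W1.x - C.fW)) + (0))))) : ℤ) rfl rfl ?_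
  linarith only [z.ex, z.eK, z.eP, z.eW, le_max_right (0 : ℤ) ((C.w2 : ℤ) + C.W2.x - C.W1.x - C.fW)]

theorem li56 (C : CoreK α n R F) :
    0 ≤ dot (f [(0, 2), (3, -1)]) (pt C) := by
  have z := C.zz
  refine lin_q (2 * (2 ^ 28 * 2 ^ R) + ((-1) * (2 ^ 28 * (C.P2.x : ℤ)) + (0)) : ℤ) rfl rfl ?_
  linarith only [z.ex, z.eK, z.eP, z.eW, z.f2, z.h1, z.h2, z.hi, z.f1, z.q0]

theorem li59 (C : CoreK α n R F) :
    0 ≤ dot (f [(0, 1), (8, -1)]) (pt C) := by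
  have z := C.zz
  refine lin_q (1 * (2 ^ 28 * 2 ^ R) + ((-1) * (2 ^ 28 * (C.fP : ℤ)) + (0)) : ℤ) rfl rfl ?_
  linarith only [z.ex, z.eK, z.eP, z.eW, z.b0, z.le3, z.f1, z.f3, z.hi, z.h1, z.le4]

theorem li62 (C : CoreK α n R F) :
    0 ≤ dot (f [(0, 4), (11, -1)]) (pt C) := by
  have z := C.zz
  refine lin_q (4 * (2 ^ 28 * 2 ^ R) + ((-1) * (2 ^ 28 * MM R F) + (0)) : ℤ) rfl rfl ?_
  linarith only [z.ex, z.eK, z.eP, z.eW, (ku C).F, z.U1]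

theorem li65 (C : CoreK α n R F) :
    0 ≤ dot (f [(0, 8), (14, -1)]) (pt C) := by
  have z := C.zz
  refine lin_q (8 * (2 ^ 28 * 2 ^ R) + ((-1) * (2 ^ 28 * MM R C.P) + (0)) : ℤ) rfl rfl ?_
  linarith only [z.ex, z.eK, z.eP, z.eW, (ku C).P, z.U1]

theorem li68 (C : CoreK α n R F) :
    0 ≤ dot (f [(0, 8), (18, -1)]) (pt C) := by
  have z := C.zz
  refine lin_q (8 * (2 ^ 28 * 2 ^ R) + ((-1) * (2 ^ 28 * MM R C.W1) + (0)) : ℤ) rfl rfl ?_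
  linarith only [z.ex, z.eK, z.eP, z.eW, (ku C).W1, z.U1]

theorem li71 (C : CoreK α n R F) :
    0 ≤ dot (f [(0, 1), (21, -1)]) (pt C) := by
  have z := C.zz
  refine lin_q (1 * (2 ^ 28 * 2 ^ R) + ((-1) * (2 ^ 27 * QQ R C.K.x) + (0)) : ℤ) rfl rfl ?_
  linarith only [z.ex, z.eK, z.eP, z.eW, QQ_le (xsK C), z.U1]

theorem li74 (C : CoreK α n R F) :
    0 ≤ dot (f [(0, 1), (24, -1)]) (pt C) := by
  have z := C.zz
  refine lin_q (1 * (2 ^ 28 * 2 ^ R) + ((-1) * (2 ^ 27 * QQ R C.A.x) + (0)) : ℤ) rfl rfl ?_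
  linarith only [z.ex, z.eK, z.eP, z.eW, QQ_le (xsA C), z.U1]

theorem li77 (C : CoreK α n R F) :
    0 ≤ dot (f [(0, 1), (27, -1)]) (pt C) := by
  have z := C.zz
  refine lin_q (1 * (2 ^ 28 * 2 ^ R) + ((-1) * (2 ^ 27 * QQ R C.W1.x) + (0)) : ℤ) rfl rfl ?_
  linarith only [z.ex, z.eK, z.eP, z.eW, QQ_le (xsW1 C), z.U1]

theorem li80 (C : CoreK α n R F) :
    0 ≤ dot (f [(0, 2), (30, -1)]) (pt C) := by
  have z := C.zz
  refine lin_q (2 * (2 ^ 28 * 2 ^ R) + ((-1) * (16 * YY R C.W.x) + (0)) : ℤ) rfl rfl ?_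
  linarith only [z.ex, z.eK, z.eP, z.eW, YY_le' R C.W.x, QQ_le (xsW C), z.U1]

theorem li83 (C : CoreK α n R F) :
    0 ≤ dot (f [(0, 2), (33, -1)]) (pt C) := by
  have z := C.zz
  refine lin_q (2 * (2 ^ 28 * 2 ^ R) + ((-1) * (16 * YY R C.P2.x) + (0)) : ℤ) rfl rfl ?_
  linarith only [z.ex, z.eK, z.eP, z.eW, YY_le' R C.P2.x, QQ_le (xsP2 C), z.U1]

theorem li86 (C : CoreK α n R F) :
    0 ≤ dot (f [(0, 2), (36, -1)]) (pt C) := by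
  have z := C.zz
  refine lin_q (2 * (2 ^ 28 * 2 ^ R) + ((-1) * (2 ^ 27 * (C.K.d 0 F.x : ℤ)) + (0)) : ℤ) rfl rfl ?_
  linarith only [z.ex, z.eK, z.eP, z.eW, C.kK'.triv 0 F.x, z.hi, z.q0]

theorem li89 (C : CoreK α n R F) :
    0 ≤ dot (f [(0, 2), (39, -1)]) (pt C) := by
  have z := C.zz
  refine lin_q (2 * (2 ^ 28 * 2 ^ R) + ((-1) * (2 ^ 27 * (C.P.d 0 F.x : ℤ)) + (0)) : ℤ) rfl rfl ?_
  linarith only [z.ex, z.eK, z.eP, z.eW, C.kP'.triv 0 F.x, z.hi, z.f1, z.h1, z.q0]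

theorem li92 (C : CoreK α n R F) :
    0 ≤ dot (f [(0, 1), (42, -1)]) (pt C) := by
  have z := C.zz
  refine lin_q (1 * (2 ^ 28 * 2 ^ R) + ((-1) * (2 ^ 26 * (C.A.d 1 F.x : ℤ)) + (0)) : ℤ) rfl rfl ?_
  linarith only [z.ex, z.eK, z.eP, z.eW, C.kA.triv 1 F.x, z.le2, z.hi, z.q0]

theorem li95 (C : CoreK α n R F) :
    0 ≤ dot (f [(0, 2), (45, -1)]) (pt C) := by
  have z := C.zz
  refine lin_q (2 * (2 ^ 28 * 2 ^ R) + ((-1) * (2 ^ 26 * (C.P2.d 1 F.x : ℤ)) + (0)) : ℤ) rfl rfl ?_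
  linarith only [z.ex, z.eK, z.eP, z.eW, C.kP2.triv 1 F.x, z.f2, z.h1, z.h2, z.hi, z.f1, z.q0]

theorem li98 (C : CoreK α n R F) :
    0 ≤ dot (f [(0, 1), (48, -1)]) (pt C) := by
  have z := C.zz
  refine lin_q (1 * (2 ^ 28 * 2 ^ R) + ((-1) * (2 ^ 26 * (C.A2.d 1 F.x : ℤ)) + (0)) : ℤ) rfl rfl ?_
  linarith only [z.ex, z.eK, z.eP, z.eW, C.kA2.triv 1 F.x, z.le3, z.hi, z.f1, z.h1, z.q0]

theorem li101 (C : CoreK α n R F) :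
    0 ≤ dot (f [(0, 1), (51, -1)]) (pt C) := by
  have z := C.zz
  refine lin_q (1 * (2 ^ 28 * 2 ^ R) + ((-1) * (2 ^ 26 * (C.W1.d 1 F.x : ℤ)) + (0)) : ℤ) rfl rfl ?_
  linarith only [z.ex, z.eK, z.eP, z.eW, C.kW1b.triv 1 F.x, z.h3, z.f1, z.hi]

theorem li104 (C : CoreK α n R F) :
    0 ≤ dot (f [(0, 1), (55, -1)]) (pt C) := by
  have z := C.zz
  refine lin_q (1 * (2 ^ 28 * 2 ^ R) + ((-1) * (2 ^ 28 * max 0 ((C.w2 : ℤ) + C.W2.x - C.W1.x - C.fW)) + (0)) : ℤ) rfl rfl ?_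
  linarith only [z.ex, z.eK, z.eP, z.eW, zW2_le C, z.U1, z.le1, z.hi, z.le4]

theorem it2 (C : CoreK α n R F) (hT : ∀ i j, (dgt GT0 i j : ℤ) ≤ dg i j) :
    (ItemL.dt 6 5 4 (f [(4, -1), (23, -1), (25, 1), (26, 1)])).Sem sys (pt C) := by
  have z := C.zz
  refine dt_at (R := R) (p := C.P2.x) (q := C.A2.x) (r := C.P.x) rfl rfl hT (fv6 C) (fv5 C) (fv4 C) C.mP.sz C.mP.le ?_
  refine (fe_q ((-1) * (2 ^ 28 * (C.A2.x : ℤ)) + ((-1) * (2 ^ 27 * QQ R C.P.x) + (1 * (2 ^ 27 * QQ R C.P2.x) + (1 * (2 ^ 27 * QQ R C.A2.x) + (0)))) : ℤ) rfl rfl).trans ?_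
  linarith only [z.ex, z.eK, z.eP, z.eW]

theorem it5 (C : CoreK α n R F) :
    (ItemL.tl 0 19 1 2 (f [(0, 5), (20, -6)]) 4096 4096 8 tbgL 1025).Sem sys (pt C) := by
  refine gL_at (R := R) (X := F.x) rfl rfl (fv0 C) (xsF C) ?_ (by norm_num)
  rw [fe_q (5 * (2 ^ 28 * 2 ^ R) + ((-6) * (2 ^ 27 * QQ R F.x) + (0)) : ℤ) rfl rfl]
  push_cast
  ring

theorem it7 (C : CoreK α n R F) :
    (ItemL.tl 2 19 1 2 (f [(0, 5), (21, -6)]) 4096 4096 8 tbgL 1025).Sem sys (pt C) := by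
  refine gL_at (R := R) (X := C.K.x) rfl rfl (fv2 C) (xsK C) ?_ (by norm_num)
  rw [fe_q (5 * (2 ^ 28 * 2 ^ R) + ((-6) * (2 ^ 27 * QQ R C.K.x) + (0)) : ℤ) rfl rfl]
  push_cast
  ring

theorem it10 (C : CoreK α n R F) :
    (ItemL.tl 1 19 1 2 (f [(0, 5), (22, -6)]) 4096 4096 8 tbgL 1025).Sem sys (pt C) := by
  refine gL_at (R := R) (X := C.W.x) rfl rfl (fv1 C) (xsW C) ?_ (by norm_num)
  rw [fe_q (5 * (2 ^ 28 * 2 ^ R) + ((-6) * (2 ^ 27 * QQ R C.W.x) + (0)) : ℤ) rfl rfl]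
  push_cast
  ring

theorem it13 (C : CoreK α n R F) :
    (ItemL.tl 4 19 1 2 (f [(0, 5), (23, -6)]) 4096 4096 8 tbgL 1025).Sem sys (pt C) := by
  refine gL_at (R := R) (X := C.P.x) rfl rfl (fv4 C) (xsP C) ?_ (by norm_num)
  rw [fe_q (5 * (2 ^ 28 * 2 ^ R) + ((-6) * (2 ^ 27 * QQ R C.P.x) + (0)) : ℤ) rfl rfl]
  push_cast
  ring

theorem it16 (C : CoreK α n R F) :
    (ItemL.tl 3 19 1 2 (f [(32, 7)]) 4096 4096 8 tbsU 1025).Sem sys (pt C) := by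
  refine sU_at (R := R) (X := C.A.x) rfl rfl (fv3 C) (xsA C) ?_ (by norm_num)
  rw [fe_q (7 * (16 * YY R C.A.x) + (0) : ℤ) rfl rfl]
  push_cast
  ring

theorem it19 (C : CoreK α n R F) :
    (ItemL.tl 6 19 1 2 (f [(33, 7)]) 4096 4096 8 tbsU 1025).Sem sys (pt C) := by
  refine sU_at (R := R) (X := C.P2.x) rfl rfl (fv6 C) (xsP2 C) ?_ (by norm_num)
  rw [fe_q (7 * (16 * YY R C.P2.x) + (0) : ℤ) rfl rfl]
  push_cast
  ring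

theorem it22 (C : CoreK α n R F) :
    (ItemL.tl 8 19 1 2 (f [(0, 5), (27, -6)]) 4096 4096 8 tbgL 1025).Sem sys (pt C) := by
  refine gL_at (R := R) (X := C.W1.x) rfl rfl (fv8 C) (xsW1 C) ?_ (by norm_num)
  rw [fe_q (5 * (2 ^ 28 * 2 ^ R) + ((-6) * (2 ^ 27 * QQ R C.W1.x) + (0)) : ℤ) rfl rfl]
  push_cast
  ring

theorem it25 (C : CoreK α n R F) :
    (ItemL.tl 7 19 1 2 (f [(35, 7)]) 4096 4096 8 tbsU 1025).Sem sys (pt C) := by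
  refine sU_at (R := R) (X := C.W2.x) rfl rfl (fv7 C) (xsW2 C) ?_ (by norm_num)
  rw [fe_q (7 * (16 * YY R C.W2.x) + (0) : ℤ) rfl rfl]
  push_cast
  ring

theorem it28 (C : CoreK α n R F) (hR : R + 1 ≤ n) :
    (ItemL.gate 2 256 512 (.tt 2 9 4 8 (f [(0, -1), (12, 1)]) (f [(2, 2)]) 7168 7168 256 2 56 tbH4_0 129)).Sem sys (pt C) := by
  have z := C.zz
  have hr := hR
  refine octt_at (R := R) (rc := 28) (k0 := 4) (j := 1) small_tbH4_0 rows_tbH4_0 rfl rfl (atK C) (by norm_num) (fv2 C) (le_of_eq (fv9 C).symm) (by omega) (by norm_num)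
    (by norm_num) (by norm_num) (by norm_num) ?_ ?_ (by norm_num) (by norm_num)
  · rw [fe_q ((-1) * (2 ^ 28 * 2 ^ R) + (1 * (2 ^ 28 * MM R C.K) + (0)) : ℤ) rfl rfl]
    norm_num1
    linarith only [z.ex, z.eK, z.eP, z.eW]
  · rw [fe_q (2 * (2 ^ 28 * (C.A.x : ℤ)) + (0) : ℤ) rfl rfl]
    norm_num1
    linarith only [z.ex, z.eK, z.eP, z.eW]

theorem it31 (C : CoreK α n R F) (hR : R + 1 ≤ n) :
    (ItemL.gate 2 256 512 (.tl 2 9 4 8 (f [(0, -1), (12, 1)]) 7168 256 2 tbH4_1 129)).Sem sys (pt C) := by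
  have z := C.zz
  have hr := hR
  refine octl_at (R := R) (rc := 56) (k0 := 4) (j := 1) small_tbH4_1 rows_tbH4_1 rfl rfl (atK C) (by norm_num) (fv2 C) (le_of_eq (fv9 C)) (by omega) (by norm_num)
    (by norm_num) (by norm_num) (by norm_num) ?_ (by norm_num)
  · rw [fe_q ((-1) * (2 ^ 28 * 2 ^ R) + (1 * (2 ^ 28 * MM R C.K) + (0)) : ℤ) rfl rfl]
    norm_num1
    linarith only [z.ex, z.eK, z.eP, z.eW]

theorem it34 (C : CoreK α n R F) (hR : R + 1 ≤ n) :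
    (ItemL.gate 1 256 512 (.tl 1 10 4 8 (f [(0, -1), (13, 1)]) 7168 256 2 tbH4_1 129)).Sem sys (pt C) := by
  have z := C.zz
  have hr := hR
  refine octl_at (R := R) (rc := 56) (k0 := 4) (j := 1) small_tbH4_1 rows_tbH4_1 rfl rfl (atW C) (by norm_num) (fv1 C) (le_of_eq (fv10 C)) (by omega) (by norm_num)
    (by norm_num) (by norm_num) (by norm_num) ?_ (by norm_num)
  · rw [fe_q ((-1) * (2 ^ 28 * 2 ^ R) + (1 * (2 ^ 28 * MM R C.W) + (0)) : ℤ) rfl rfl]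
    norm_num1
    linarith only [z.ex, z.eK, z.eP, z.eW]

theorem it37 (C : CoreK α n R F) (hR : R + 1 ≤ n) :
    (ItemL.gate 1 128 256 (.tl 1 10 2 4 (f [(0, -1), (1, -2), (13, 2)]) 7168 512 2 tbG5_1 129)).Sem sys (pt C) := by
  have z := C.zz
  have hr := hR
  refine octl_at (R := R) (rc := 56) (k0 := 5) (j := 2) small_tbG5_1 rows_tbG5_1 rfl rfl (atW C) (by norm_num) (fv1 C) (le_of_eq (fv10 C)) (by omega) (by norm_num)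
    (by norm_num) (by norm_num) (by norm_num) ?_ (by norm_num)
  · rw [fe_q ((-1) * (2 ^ 28 * 2 ^ R) + ((-2) * (2 ^ 28 * (C.W.x : ℤ)) + (2 * (2 ^ 28 * MM R C.W) + (0))) : ℤ) rfl rfl]
    norm_num1
    linarith only [z.ex, z.eK, z.eP, z.eW]

theorem it40 (C : CoreK α n R F) (hR : R + 1 ≤ n) :
    (ItemL.gate 1 64 128 (.tl 1 10 1 2 (f [(0, -1), (1, -8), (13, 4)]) 7168 1024 2 tbG5_1 129)).Sem sys (pt C) := by
  have z := C.zz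
  have hr := hR
  refine octl_at (R := R) (rc := 56) (k0 := 5) (j := 3) small_tbG5_1 rows_tbG5_1 rfl rfl (atW C) (by norm_num) (fv1 C) (le_of_eq (fv10 C)) (by omega) (by norm_num)
    (by norm_num) (by norm_num) (by norm_num) ?_ (by norm_num)
  · rw [fe_q ((-1) * (2 ^ 28 * 2 ^ R) + ((-8) * (2 ^ 28 * (C.W.x : ℤ)) + (4 * (2 ^ 28 * MM R C.W) + (0))) : ℤ) rfl rfl]
    norm_num1
    linarith only [z.ex, z.eK, z.eP, z.eW]

theorem it43 (C : CoreK α n R F) (hR : R + 1 ≤ n) :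
    (ItemL.gate 4 256 512 (.tt 4 11 4 8 (f [(0, -1), (14, 1)]) (f [(4, 2)]) 7168 14336 256 2 112 tbH3_1 129)).Sem sys (pt C) := by
  have z := C.zz
  have hr := hR
  refine octt_at (R := R) (rc := 56) (k0 := 3) (j := 1) small_tbH3_1 rows_tbH3_1 rfl rfl (atP C) (by norm_num) (fv4 C) (le_of_eq (fv11 C).symm) (by omega) (by norm_num)
    (by norm_num) (by norm_num) (by norm_num) ?_ ?_ (by norm_num) (by norm_num)
  · rw [fe_q ((-1) * (2 ^ 28 * 2 ^ R) + (1 * (2 ^ 28 * MM R C.P) + (0)) : ℤ) rfl rfl]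
    norm_num1
    linarith only [z.ex, z.eK, z.eP, z.eW]
  · rw [fe_q (2 * (2 ^ 28 * (C.A2.x : ℤ)) + (0) : ℤ) rfl rfl]
    norm_num1
    linarith only [z.ex, z.eK, z.eP, z.eW]

theorem it46 (C : CoreK α n R F) (hR : R + 1 ≤ n) :
    (ItemL.gate 4 256 512 (.tl 4 11 4 8 (f [(0, -1), (14, 1)]) 7168 256 2 tbH3_2 129)).Sem sys (pt C) := by
  have z := C.zz
  have hr := hR
  refine octl_at (R := R) (rc := 112) (k0 := 3) (j := 1) small_tbH3_2 rows_tbH3_2 rfl rfl (atP C) (by norm_num) (fv4 C) (le_of_eq (fv11 C)) (by omega) (by norm_num)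
    (by norm_num) (by norm_num) (by norm_num) ?_ (by norm_num)
  · rw [fe_q ((-1) * (2 ^ 28 * 2 ^ R) + (1 * (2 ^ 28 * MM R C.P) + (0)) : ℤ) rfl rfl]
    norm_num1
    linarith only [z.ex, z.eK, z.eP, z.eW]

theorem it49 (C : CoreK α n R F) (hR : R + 1 ≤ n) :
    (ItemL.gate 4 128 256 (.tt 4 11 2 4 (f [(0, -1), (3, -2), (4, -2), (14, 2)]) (f [(4, 2)]) 7168 28672 512 2 112 tbH4_1 129)).Sem sys (pt C) := by
  have z := C.zz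
  have hr := hR
  refine octt_at (R := R) (rc := 56) (k0 := 4) (j := 2) small_tbH4_1 rows_tbH4_1 rfl rfl (atP C) (by norm_num) (fv4 C) (le_of_eq (fv11 C).symm) (by omega) (by norm_num)
    (by norm_num) (by norm_num) (by norm_num) ?_ ?_ (by norm_num) (by norm_num)
  · rw [fe_q ((-1) * (2 ^ 28 * 2 ^ R) + ((-2) * (2 ^ 28 * (C.P2.x : ℤ)) + ((-2) * (2 ^ 28 * (C.A2.x : ℤ)) + (2 * (2 ^ 28 * MM R C.P) + (0)))) : ℤ) rfl rfl]
    norm_num1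
    linarith only [z.ex, z.eK, z.eP, z.eW]
  · rw [fe_q (2 * (2 ^ 28 * (C.A2.x : ℤ)) + (0) : ℤ) rfl rfl]
    norm_num1
    linarith only [z.ex, z.eK, z.eP, z.eW]

theorem it52 (C : CoreK α n R F) (hR : R + 1 ≤ n) :
    (ItemL.gate 4 128 256 (.tl 4 11 2 4 (f [(0, -1), (3, -2), (4, -2), (14, 2)]) 7168 512 2 tbH4_2 129)).Sem sys (pt C) := by
  have z := C.zz
  have hr := hR
  refine octl_at (R := R) (rc := 112) (k0 := 4) (j := 2) small_tbH4_2 rows_tbH4_2 rfl rfl (atP C) (by norm_num) (fv4 C) (le_of_eq (fv11 C)) (by omega) (by norm_num)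
    (by norm_num) (by norm_num) (by norm_num) ?_ (by norm_num)
  · rw [fe_q ((-1) * (2 ^ 28 * 2 ^ R) + ((-2) * (2 ^ 28 * (C.P2.x : ℤ)) + ((-2) * (2 ^ 28 * (C.A2.x : ℤ)) + (2 * (2 ^ 28 * MM R C.P) + (0)))) : ℤ) rfl rfl]
    norm_num1
    linarith only [z.ex, z.eK, z.eP, z.eW]

theorem it55 (C : CoreK α n R F) (hR : R + 1 ≤ n) :
    (ItemL.gate 3 64 128 (.tl 3 12 1 2 (f [(0, -1), (2, -8), (15, 4)]) 7168 1024 2 tbG5_0 129)).Sem sys (pt C) := by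
  have z := C.zz
  have hr := hR
  refine octl_at (R := R) (rc := 28) (k0 := 5) (j := 3) small_tbG5_0 rows_tbG5_0 rfl rfl (atA C) (by norm_num) (fv3 C) (le_of_eq (fv12 C)) (by omega) (by norm_num)
    (by norm_num) (by norm_num) (by norm_num) ?_ (by norm_num)
  · rw [fe_q ((-1) * (2 ^ 28 * 2 ^ R) + ((-8) * (2 ^ 28 * (C.A.x : ℤ)) + (4 * (2 ^ 28 * MM R C.A) + (0))) : ℤ) rfl rfl]
    norm_num1
    linarith only [z.ex, z.eK, z.eP, z.eW]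

theorem it58 (C : CoreK α n R F) (hR : R + 1 ≤ n) :
    (ItemL.gate 8 128 256 (.tt 8 15 2 4 (f [(0, -1), (1, -2), (5, 2), (18, 2)]) (f [(9, -1), (10, 1)]) 7168 57344 512 2 224 tbH4_2 129)).Sem sys (pt C) := by
  have z := C.zz
  have hr := hR
  refine octt_at (R := R) (rc := 112) (k0 := 4) (j := 2) small_tbH4_2 rows_tbH4_2 rfl rfl (atW1 C) (by norm_num) (fv8 C) (le_of_eq (fv15 C).symm) (by omega) (by norm_num)
    (by norm_num) (by norm_num) (by norm_num) ?_ ?_ (by norm_num) (by norm_num)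
  · rw [fe_q ((-1) * (2 ^ 28 * 2 ^ R) + ((-2) * (2 ^ 28 * (C.W.x : ℤ)) + (2 * (2 ^ 28 * (C.W2.x : ℤ)) + (2 * (2 ^ 28 * MM R C.W1) + (0)))) : ℤ) rfl rfl]
    norm_num1
    linarith only [z.ex, z.eK, z.eP, z.eW]
  · rw [fe_q ((-1) * (2 ^ 28 * (C.fW : ℤ)) + (1 * (2 ^ 28 * (C.w2 : ℤ)) + (0)) : ℤ) rfl rfl]
    norm_num1
    linarith only [z.ex, z.eK, z.eP, z.eW]

theorem it61 (C : CoreK α n R F) (hR : R + 1 ≤ n) :
    (ItemL.gate 8 128 256 (.tl 8 16 2 4 (f [(0, -1), (1, -2), (5, 2), (18, 2)]) 7168 512 2 tbH4_2 129)).Sem sys (pt C) := by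
  have z := C.zz
  have hr := hR
  refine octl_at (R := R) (rc := 112) (k0 := 4) (j := 2) small_tbH4_2 rows_tbH4_2 rfl rfl (atW1' C) (by norm_num) (fv8 C) (le_of_eq (fv16 C)) (by omega) (by norm_num)
    (by norm_num) (by norm_num) (by norm_num) ?_ (by norm_num)
  · rw [fe_q ((-1) * (2 ^ 28 * 2 ^ R) + ((-2) * (2 ^ 28 * (C.W.x : ℤ)) + (2 * (2 ^ 28 * (C.W2.x : ℤ)) + (2 * (2 ^ 28 * MM R C.W1) + (0)))) : ℤ) rfl rfl]
    norm_num1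
    linarith only [z.ex, z.eK, z.eP, z.eW]

theorem it64 (C : CoreK α n R F) (hR : R + 1 ≤ n) (hn : 1 ≤ n) :
    (ItemL.gate 6 256 512 (.tl 6 13 4 8 (f [(0, -1), (16, 1)]) 7168 256 2 tbH2_2 129)).Sem sys (pt C) := by
  have z := C.zz
  have hr := hR
  refine octl_at (R := R) (rc := 112) (k0 := 2) (j := 1) small_tbH2_2 rows_tbH2_2 rfl rfl (atP2 C hn) (by norm_num) (fv6 C) (le_of_eq (fv13 C)) (by omega) (by norm_num)
    (by norm_num) (by norm_num) (by norm_num) ?_ (by norm_num)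
  · rw [fe_q ((-1) * (2 ^ 28 * 2 ^ R) + (1 * (2 ^ 28 * MM R C.P2) + (0)) : ℤ) rfl rfl]
    norm_num1
    linarith only [z.ex, z.eK, z.eP, z.eW]

theorem it67 (C : CoreK α n R F) (hR : R + 1 ≤ n) (hn : 1 ≤ n) :
    (ItemL.gate 6 128 256 (.tt 6 13 2 4 (f [(0, -1), (3, -2), (16, 2)]) (f [(4, 1), (8, -1)]) 7168 57344 512 2 224 tbH3_2 129)).Sem sys (pt C) := by
  have z := C.zz
  have hr := hR
  refine octt_at (R := R) (rc := 112) (k0 := 3) (j := 2) small_tbH3_2 rows_tbH3_2 rfl rfl (atP2 C hn) (by norm_num) (fv6 C) (le_of_eq (fv13 C).symm) (by omega) (by norm_num)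
    (by norm_num) (by norm_num) (by norm_num) ?_ ?_ (by norm_num) (by norm_num)
  · rw [fe_q ((-1) * (2 ^ 28 * 2 ^ R) + ((-2) * (2 ^ 28 * (C.P2.x : ℤ)) + (2 * (2 ^ 28 * MM R C.P2) + (0))) : ℤ) rfl rfl]
    norm_num1
    linarith only [z.ex, z.eK, z.eP, z.eW]
  · rw [fe_q (1 * (2 ^ 28 * (C.A2.x : ℤ)) + ((-1) * (2 ^ 28 * (C.fP : ℤ)) + (0)) : ℤ) rfl rfl]
    norm_num1
    linarith only [z.ex, z.eK, z.eP, z.eW]

theorem it70 (C : CoreK α n R F) (hR : R + 1 ≤ n) (SI : SIN α (n + 3)) :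
    (ItemL.ts 2 32 (f [(2, 7), (3, 13), (4, 13), (12, 10), (29, -10), (37, -10)]) 8192 1024 64 tbTF0_3 33 8 64 [(0, 1, 4, 1), (0, 1, 4, 1), (0, 1, 4, 1), (9, 1, 16, 1), (9, 1, 16, 1)] tbTA0 10).Sem sys (pt C) := by
  have z := C.zz
  have hr := hR
  refine tsf_at (R := R) (n := n + 2) (mt := 3) (m := 2) (j := 1) (t := F.x) (s := 10) (c0 := SFC) (e := FE) (ah := AH0) (kl := KL) (lev := 3) (j0 := 0) (shapes := famG0) rfl rfl (atK C) (fun s X h1 h2 => C.ih s X (by omega) h2) (fv2 C) (fv0 C) (fv9 C) (by rw [pow_zero, Nat.one_mul]; exact xsK C) (by norm_num)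
    (by omega) (by norm_num) (by norm_num) (by norm_num) (by norm_num) (by norm_num) (by norm_num) (by norm_num) ?_ (fun s hs => SI _ (by omega) _ _ (atK C).fam s (mem_famG0 hs)) chkL_tbTF0_3 chkT_tbTF0_3_0
  rw [fe_q (7 * (2 ^ 28 * (C.A.x : ℤ)) + (13 * (2 ^ 28 * (C.P2.x : ℤ)) + (13 * (2 ^ 28 * (C.A2.x : ℤ)) + (10 * (2 ^ 28 * MM R C.K) + ((-10) * (16 * YY R C.K.x) + ((-10) * (2 ^ 26 * (C.K.d 1 F.x : ℤ)) + (0)))))) : ℤ) rfl rfl]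
  norm_num1
  linarith only [z.ex, z.eK, z.eP, z.eW]

theorem it73 (C : CoreK α n R F) :
    (ItemL.ts 4 32 (f [(3, 1), (4, 1), (14, 1), (23, -2), (40, -1)]) 20480 256 16 tbTTc 33 8 64 [(0, 1, 2, 80)] tbTAc 2).Sem sys (pt C) := by
  have z := C.zz
  refine tsc_at (R := R) (j := 1) (t := F.x) rfl rfl (atP C) (fun s X h1 h2 => C.ih s X (by omega) h2) (fv4 C) (fv0 C) (xsP C) (by norm_num) (by norm_num) (by norm_num) ?_ chkTc1 chkTc2 chkTc3 chkTc4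
  refine (fe_q (1 * (2 ^ 28 * (C.P2.x : ℤ)) + (1 * (2 ^ 28 * (C.A2.x : ℤ)) + (1 * (2 ^ 28 * MM R C.P) + ((-2) * (2 ^ 27 * QQ R C.P.x) + ((-1) * (2 ^ 26 * (C.P.d 1 F.x : ℤ)) + (0))))) : ℤ) rfl rfl).trans ?_
  norm_num1
  linarith only [z.ex, z.eK, z.eP, z.eW]

theorem it75 (C : CoreK α n R F) (hR : R + 1 ≤ n) (SI : SIN α (n + 3)) :
    (ItemL.ts 4 32 (f [(3, 13), (4, 7), (14, 10), (31, -10), (41, -10)]) 8192 1024 64 tbTF0_2 33 8 64 [(0, 1, 2, 1), (0, 1, 2, 1), (0, 1, 2, 1), (11, 1, 16, 1), (11, 1, 16, 1)] tbTA0 10).Sem sys (pt C) := by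
  have z := C.zz
  have hr := hR
  refine tsf_at (R := R) (n := n + 1) (mt := 3) (m := 2) (j := 2) (t := F.x) (s := 10) (c0 := SFC) (e := FE) (ah := AH0) (kl := KL) (lev := 2) (j0 := 0) (shapes := famG0) rfl rfl (atP C) (fun s X h1 h2 => C.ih s X (by omega) h2) (fv4 C) (fv0 C) (fv11 C) (by rw [pow_zero, Nat.one_mul]; exact xsP C) (by norm_num)
    (by omega) (by norm_num) (by norm_num) (by norm_num) (by norm_num) (by norm_num) (by norm_num) (by norm_num) ?_ (fun s hs => SI _ (by omega) _ _ (atP C).fam s (mem_famG0 hs)) chkL_tbTF0_2 chkT_tbTF0_2_0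
  rw [fe_q (13 * (2 ^ 28 * (C.P2.x : ℤ)) + (7 * (2 ^ 28 * (C.A2.x : ℤ)) + (10 * (2 ^ 28 * MM R C.P) + ((-10) * (16 * YY R C.P.x) + ((-10) * (2 ^ 25 * (C.P.d 2 F.x : ℤ)) + (0))))) : ℤ) rfl rfl]
  norm_num1
  linarith only [z.ex, z.eK, z.eP, z.eW]

theorem it79 (C : CoreK α n R F) (hn : 1 ≤ n) :
    (ItemL.ts 6 32 (f [(3, 1), (16, 1), (25, -2), (46, -1)]) 20480 256 16 tbTTc 33 8 64 [(0, 1, 1, 80)] tbTAc 2).Sem sys (pt C) := by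
  have z := C.zz
  refine tsc_at (R := R) (j := 2) (t := F.x) rfl rfl (atP2 C hn) (fun s X h1 h2 => C.ih s X (by omega) h2) (fv6 C) (fv0 C) (xsP2 C) (by norm_num) (by norm_num) (by norm_num) ?_ chkTc1 chkTc2 chkTc3 chkTc4
  refine (fe_q (1 * (2 ^ 28 * (C.P2.x : ℤ)) + (1 * (2 ^ 28 * MM R C.P2) + ((-2) * (2 ^ 27 * QQ R C.P2.x) + ((-1) * (2 ^ 25 * (C.P2.d 2 F.x : ℤ)) + (0)))) : ℤ) rfl rfl).trans ?_
  norm_num1
  linarith only [z.ex, z.eK, z.eP, z.eW]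

theorem it81 (C : CoreK α n R F) (hR : R + 1 ≤ n) (hn : 1 ≤ n) (SI : SIN α (n + 3)) :
    (ItemL.gate 6 0 512 (.ts 6 32 (f [(3, 13), (4, -3), (8, 3), (16, 10), (33, -10), (47, -10)]) 8192 1024 64 tbTF0_1 33 8 64 [(0, 1, 1, 1), (0, 1, 1, 1), (0, 1, 1, 1), (13, 1, 16, 1), (13, 1, 16, 1)] tbTA0 10)).Sem sys (pt C) := by
  have z := C.zz
  have hr := hR
  refine gate_top (R := R) (j0 := 1) rfl rfl (fv6 C) (by norm_num) ?_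
  intro h0
  refine tsf_at (R := R) (n := n) (mt := 3) (m := 2) (j := 3) (t := F.x) (s := 10) (c0 := SFC) (e := FE) (ah := AH0) (kl := KL) (lev := 1) (j0 := 1) (shapes := famG0) rfl rfl (atP2 C hn) (fun s X h1 h2 => C.ih s X (by omega) h2) (fv6 C) (fv0 C) (fv13 C) h0 (by norm_num)
    (by omega) (by norm_num) (by norm_num) (by norm_num) (by norm_num) (by norm_num) (by norm_num) (by norm_num) ?_ (fun s hs => SI _ (by omega) _ _ (atP2 C hn).fam s (mem_famG0 hs)) chkL_tbTF0_1 chkT_tbTF0_1_1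
  rw [fe_q (13 * (2 ^ 28 * (C.P2.x : ℤ)) + ((-3) * (2 ^ 28 * (C.A2.x : ℤ)) + (3 * (2 ^ 28 * (C.fP : ℤ)) + (10 * (2 ^ 28 * MM R C.P2) + ((-10) * (16 * YY R C.P2.x) + ((-10) * (2 ^ 24 * (C.P2.d 3 F.x : ℤ)) + (0)))))) : ℤ) rfl rfl]
  norm_num1
  linarith only [z.ex, z.eK, z.eP, z.eW]

end Pool.Agent.EdgeIso.Chk.CoreK4
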