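import Pool.Agent.Lib.MP_48c8f3_co.Bas
import Pool.Agent.Lib.MP_48c8f3_co.K4H

set_option autoImplicit false
set_option linter.unusedSectionVars false
set_option linter.unusedVariables false

/-!
MP_48c8f3_co: the propagation rules hold at the point (machine made).
-/

namespace Pool.Agent.EdgeIso.Chk.CoreK4

open Finset Pool.Agent.EdgeIso.Frame Pool.Agent.EdgeIso.Cell Pool.Agent.EdgeIso.Walsh
  Pool.Agent.EdgeIso.Smooth

variable {α : Type*} [DecidableEq α] {n R : ℕ} {F : Frame.Num}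

theorem ru0 (C : CoreK α n R F) :
    RuleL.Sem sys (pt C) ⟨false, 0, 1, [(1, 1), (1, 2)], 0, [], 0⟩ := by
  have z := C.zz
  apply rule_lo_q
  simp only [fsum, List.map_cons, List.map_nil, List.sum_cons, List.sum_nil, sysGG]
  rw [fv0 C, fv1 C, fv2 C]
  push_cast
  linarith only [z.ex, z.eK, z.eP, z.eW]

theorem ru1 (C : CoreK α n R F) :
    RuleL.Sem sys (pt C) ⟨true, 1, 1, [(1, 0)], 0, [(1, 2)], 0⟩ := by
  have z := C.zz
  apply rule_hi_q
  simp only [fsum, List.map_cons, List.map_nil, List.sum_cons, List.sum_nil, sysGG]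
  rw [fv0 C, fv1 C, fv2 C]
  push_cast
  exact le_max_of_le_right (by linarith only [z.ex, z.eK, z.eP, z.eW])

theorem ru2 (C : CoreK α n R F) :
    RuleL.Sem sys (pt C) ⟨true, 2, 1, [(1, 0)], 0, [(1, 1)], 0⟩ := by
  have z := C.zz
  apply rule_hi_q
  simp only [fsum, List.map_cons, List.map_nil, List.sum_cons, List.sum_nil, sysGG]
  rw [fv0 C, fv1 C, fv2 C]
  push_cast
  exact le_max_of_le_right (by linarith only [z.ex, z.eK, z.eP, z.eW])

theorem ru3 (C : CoreK α n R F) :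
    RuleL.Sem sys (pt C) ⟨true, 0, 1, [(1, 1), (1, 2)], 0, [], 0⟩ := by
  have z := C.zz
  apply rule_hi_q
  simp only [fsum, List.map_cons, List.map_nil, List.sum_cons, List.sum_nil, sysGG]
  rw [fv0 C, fv1 C, fv2 C]
  push_cast
  exact le_max_of_le_right (by linarith only [z.ex, z.eK, z.eP, z.eW])

theorem ru4 (C : CoreK α n R F) :
    RuleL.Sem sys (pt C) ⟨false, 1, 1, [(1, 0)], 0, [(1, 2)], 0⟩ := by
  have z := C.zz
  apply rule_lo_q
  simp only [fsum, List.map_cons, List.map_nil, List.sum_cons, List.sum_nil, sysGG]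
  rw [fv0 C, fv1 C, fv2 C]
  push_cast
  linarith only [z.ex, z.eK, z.eP, z.eW]

theorem ru5 (C : CoreK α n R F) :
    RuleL.Sem sys (pt C) ⟨false, 2, 1, [(1, 0)], 0, [(1, 1)], 0⟩ := by
  have z := C.zz
  apply rule_lo_q
  simp only [fsum, List.map_cons, List.map_nil, List.sum_cons, List.sum_nil, sysGG]
  rw [fv0 C, fv1 C, fv2 C]
  push_cast
  linarith only [z.ex, z.eK, z.eP, z.eW]

theorem ru6 (C : CoreK α n R F) :
    RuleL.Sem sys (pt C) ⟨false, 2, 1, [(1, 3), (1, 4)], 0, [], 0⟩ := by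
  have z := C.zz
  apply rule_lo_q
  simp only [fsum, List.map_cons, List.map_nil, List.sum_cons, List.sum_nil, sysGG]
  rw [fv2 C, fv3 C, fv4 C]
  push_cast
  linarith only [z.ex, z.eK, z.eP, z.eW]

theorem ru7 (C : CoreK α n R F) :
    RuleL.Sem sys (pt C) ⟨true, 3, 1, [(1, 2)], 0, [(1, 4)], 0⟩ := by
  have z := C.zz
  apply rule_hi_q
  simp only [fsum, List.map_cons, List.map_nil, List.sum_cons, List.sum_nil, sysGG]
  rw [fv2 C, fv3 C, fv4 C]
  push_cast
  exact le_max_of_le_right (by linarith only [z.ex, z.eK, z.eP, z.eW])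

theorem ru8 (C : CoreK α n R F) :
    RuleL.Sem sys (pt C) ⟨true, 4, 1, [(1, 2)], 0, [(1, 3)], 0⟩ := by
  have z := C.zz
  apply rule_hi_q
  simp only [fsum, List.map_cons, List.map_nil, List.sum_cons, List.sum_nil, sysGG]
  rw [fv2 C, fv3 C, fv4 C]
  push_cast
  exact le_max_of_le_right (by linarith only [z.ex, z.eK, z.eP, z.eW])

theorem ru9 (C : CoreK α n R F) :
    RuleL.Sem sys (pt C) ⟨true, 2, 1, [(1, 3), (1, 4)], 0, [], 0⟩ := by
  have z := C.zz
  apply rule_hi_q
  simp only [fsum, List.map_cons, List.map_nil, List.sum_cons, List.sum_nil, sysGG]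
  rw [fv2 C, fv3 C, fv4 C]
  push_cast
  exact le_max_of_le_right (by linarith only [z.ex, z.eK, z.eP, z.eW])

theorem ru10 (C : CoreK α n R F) :
    RuleL.Sem sys (pt C) ⟨false, 3, 1, [(1, 2)], 0, [(1, 4)], 0⟩ := by
  have z := C.zz
  apply rule_lo_q
  simp only [fsum, List.map_cons, List.map_nil, List.sum_cons, List.sum_nil, sysGG]
  rw [fv2 C, fv3 C, fv4 C]
  push_cast
  linarith only [z.ex, z.eK, z.eP, z.eW]

theorem ru11 (C : CoreK α n R F) :
    RuleL.Sem sys (pt C) ⟨false, 4, 1, [(1, 2)], 0, [(1, 3)], 0⟩ := by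
  have z := C.zz
  apply rule_lo_q
  simp only [fsum, List.map_cons, List.map_nil, List.sum_cons, List.sum_nil, sysGG]
  rw [fv2 C, fv3 C, fv4 C]
  push_cast
  linarith only [z.ex, z.eK, z.eP, z.eW]

theorem ru12 (C : CoreK α n R F) :
    RuleL.Sem sys (pt C) ⟨false, 4, 1, [(1, 5), (1, 6)], 0, [], 0⟩ := by
  have z := C.zz
  apply rule_lo_q
  simp only [fsum, List.map_cons, List.map_nil, List.sum_cons, List.sum_nil, sysGG]
  rw [fv4 C, fv5 C, fv6 C]
  push_cast
  linarith only [z.ex, z.eK, z.eP, z.eW]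

theorem ru13 (C : CoreK α n R F) :
    RuleL.Sem sys (pt C) ⟨true, 5, 1, [(1, 4)], 0, [(1, 6)], 0⟩ := by
  have z := C.zz
  apply rule_hi_q
  simp only [fsum, List.map_cons, List.map_nil, List.sum_cons, List.sum_nil, sysGG]
  rw [fv4 C, fv5 C, fv6 C]
  push_cast
  exact le_max_of_le_right (by linarith only [z.ex, z.eK, z.eP, z.eW])

theorem ru14 (C : CoreK α n R F) :
    RuleL.Sem sys (pt C) ⟨true, 6, 1, [(1, 4)], 0, [(1, 5)], 0⟩ := by
  have z := C.zz
  apply rule_hi_q
  simp only [fsum, List.map_cons, List.map_nil, List.sum_cons, List.sum_nil, sysGG]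
  rw [fv4 C, fv5 C, fv6 C]
  push_cast
  exact le_max_of_le_right (by linarith only [z.ex, z.eK, z.eP, z.eW])

theorem ru15 (C : CoreK α n R F) :
    RuleL.Sem sys (pt C) ⟨true, 4, 1, [(1, 5), (1, 6)], 0, [], 0⟩ := by
  have z := C.zz
  apply rule_hi_q
  simp only [fsum, List.map_cons, List.map_nil, List.sum_cons, List.sum_nil, sysGG]
  rw [fv4 C, fv5 C, fv6 C]
  push_cast
  exact le_max_of_le_right (by linarith only [z.ex, z.eK, z.eP, z.eW])

theorem ru16 (C : CoreK α n R F) :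
    RuleL.Sem sys (pt C) ⟨false, 5, 1, [(1, 4)], 0, [(1, 6)], 0⟩ := by
  have z := C.zz
  apply rule_lo_q
  simp only [fsum, List.map_cons, List.map_nil, List.sum_cons, List.sum_nil, sysGG]
  rw [fv4 C, fv5 C, fv6 C]
  push_cast
  linarith only [z.ex, z.eK, z.eP, z.eW]

theorem ru17 (C : CoreK α n R F) :
    RuleL.Sem sys (pt C) ⟨false, 6, 1, [(1, 4)], 0, [(1, 5)], 0⟩ := by
  have z := C.zz
  apply rule_lo_q
  simp only [fsum, List.map_cons, List.map_nil, List.sum_cons, List.sum_nil, sysGG]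
  rw [fv4 C, fv5 C, fv6 C]
  push_cast
  linarith only [z.ex, z.eK, z.eP, z.eW]

theorem ru18 (C : CoreK α n R F) :
    RuleL.Sem sys (pt C) ⟨false, 1, 1, [(1, 7), (1, 8)], 0, [], 0⟩ := by
  have z := C.zz
  apply rule_lo_q
  simp only [fsum, List.map_cons, List.map_nil, List.sum_cons, List.sum_nil, sysGG]
  rw [fv1 C, fv7 C, fv8 C]
  push_cast
  linarith only [z.ex, z.eK, z.eP, z.eW]

theorem ru19 (C : CoreK α n R F) :
    RuleL.Sem sys (pt C) ⟨true, 7, 1, [(1, 1)], 0, [(1, 8)], 0⟩ := by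
  have z := C.zz
  apply rule_hi_q
  simp only [fsum, List.map_cons, List.map_nil, List.sum_cons, List.sum_nil, sysGG]
  rw [fv1 C, fv7 C, fv8 C]
  push_cast
  exact le_max_of_le_right (by linarith only [z.ex, z.eK, z.eP, z.eW])

theorem ru20 (C : CoreK α n R F) :
    RuleL.Sem sys (pt C) ⟨true, 8, 1, [(1, 1)], 0, [(1, 7)], 0⟩ := by
  have z := C.zz
  apply rule_hi_q
  simp only [fsum, List.map_cons, List.map_nil, List.sum_cons, List.sum_nil, sysGG]
  rw [fv1 C, fv7 C, fv8 C]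
  push_cast
  exact le_max_of_le_right (by linarith only [z.ex, z.eK, z.eP, z.eW])

theorem ru21 (C : CoreK α n R F) :
    RuleL.Sem sys (pt C) ⟨true, 1, 1, [(1, 7), (1, 8)], 0, [], 0⟩ := by
  have z := C.zz
  apply rule_hi_q
  simp only [fsum, List.map_cons, List.map_nil, List.sum_cons, List.sum_nil, sysGG]
  rw [fv1 C, fv7 C, fv8 C]
  push_cast
  exact le_max_of_le_right (by linarith only [z.ex, z.eK, z.eP, z.eW])

theorem ru22 (C : CoreK α n R F) :
    RuleL.Sem sys (pt C) ⟨false, 7, 1, [(1, 1)], 0, [(1, 8)], 0⟩ := by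
  have z := C.zz
  apply rule_lo_q
  simp only [fsum, List.map_cons, List.map_nil, List.sum_cons, List.sum_nil, sysGG]
  rw [fv1 C, fv7 C, fv8 C]
  push_cast
  linarith only [z.ex, z.eK, z.eP, z.eW]

theorem ru23 (C : CoreK α n R F) :
    RuleL.Sem sys (pt C) ⟨false, 8, 1, [(1, 1)], 0, [(1, 7)], 0⟩ := by
  have z := C.zz
  apply rule_lo_q
  simp only [fsum, List.map_cons, List.map_nil, List.sum_cons, List.sum_nil, sysGG]
  rw [fv1 C, fv7 C, fv8 C]
  push_cast
  linarith only [z.ex, z.eK, z.eP, z.eW]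

theorem ru24 (C : CoreK α n R F) :
    RuleL.Sem sys (pt C) ⟨true, 3, 2, [(1, 9)], 0, [], 0⟩ := by
  have z := C.zz
  apply rule_hi_q
  simp only [fsum, List.map_cons, List.map_nil, List.sum_cons, List.sum_nil, sysGG]
  rw [fv3 C, fv9 C]
  push_cast
  exact le_max_of_le_right (by linarith only [z.ex, z.eK, z.eP, z.eW])

theorem ru25 (C : CoreK α n R F) :
    RuleL.Sem sys (pt C) ⟨false, 9, 1, [(2, 3)], 0, [], 0⟩ := by
  have z := C.zz
  apply rule_lo_q
  simp only [fsum, List.map_cons, List.map_nil, List.sum_cons, List.sum_nil, sysGG]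
  rw [fv3 C, fv9 C]
  push_cast
  linarith only [z.ex, z.eK, z.eP, z.eW]

theorem ru26 (C : CoreK α n R F) :
    RuleL.Sem sys (pt C) ⟨false, 3, 2, [(1, 9)], 0, [], 0⟩ := by
  have z := C.zz
  apply rule_lo_q
  simp only [fsum, List.map_cons, List.map_nil, List.sum_cons, List.sum_nil, sysGG]
  rw [fv3 C, fv9 C]
  push_cast
  linarith only [z.ex, z.eK, z.eP, z.eW]

theorem ru27 (C : CoreK α n R F) :
    RuleL.Sem sys (pt C) ⟨true, 9, 1, [(2, 3)], 0, [], 0⟩ := by
  have z := C.zz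
  apply rule_hi_q
  simp only [fsum, List.map_cons, List.map_nil, List.sum_cons, List.sum_nil, sysGG]
  rw [fv3 C, fv9 C]
  push_cast
  exact le_max_of_le_right (by linarith only [z.ex, z.eK, z.eP, z.eW])

theorem ru28 (C : CoreK α n R F) :
    RuleL.Sem sys (pt C) ⟨true, 7, 2, [(1, 10)], 0, [], 0⟩ := by
  have z := C.zz
  apply rule_hi_q
  simp only [fsum, List.map_cons, List.map_nil, List.sum_cons, List.sum_nil, sysGG]
  rw [fv7 C, fv10 C]
  push_cast
  exact le_max_of_le_right (by linarith only [z.ex, z.eK, z.eP, z.eW])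

theorem ru29 (C : CoreK α n R F) :
    RuleL.Sem sys (pt C) ⟨false, 10, 1, [(2, 7)], 0, [], 0⟩ := by
  have z := C.zz
  apply rule_lo_q
  simp only [fsum, List.map_cons, List.map_nil, List.sum_cons, List.sum_nil, sysGG]
  rw [fv7 C, fv10 C]
  push_cast
  linarith only [z.ex, z.eK, z.eP, z.eW]

theorem ru30 (C : CoreK α n R F) :
    RuleL.Sem sys (pt C) ⟨false, 7, 2, [(1, 10)], 0, [], 0⟩ := by
  have z := C.zz
  apply rule_lo_q
  simp only [fsum, List.map_cons, List.map_nil, List.sum_cons, List.sum_nil, sysGG]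
  rw [fv7 C, fv10 C]
  push_cast
  linarith only [z.ex, z.eK, z.eP, z.eW]

theorem ru31 (C : CoreK α n R F) :
    RuleL.Sem sys (pt C) ⟨true, 10, 1, [(2, 7)], 0, [], 0⟩ := by
  have z := C.zz
  apply rule_hi_q
  simp only [fsum, List.map_cons, List.map_nil, List.sum_cons, List.sum_nil, sysGG]
  rw [fv7 C, fv10 C]
  push_cast
  exact le_max_of_le_right (by linarith only [z.ex, z.eK, z.eP, z.eW])

theorem ru32 (C : CoreK α n R F) :
    RuleL.Sem sys (pt C) ⟨true, 5, 2, [(1, 11)], 0, [], 0⟩ := by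
  have z := C.zz
  apply rule_hi_q
  simp only [fsum, List.map_cons, List.map_nil, List.sum_cons, List.sum_nil, sysGG]
  rw [fv5 C, fv11 C]
  push_cast
  exact le_max_of_le_right (by linarith only [z.ex, z.eK, z.eP, z.eW])

theorem ru33 (C : CoreK α n R F) :
    RuleL.Sem sys (pt C) ⟨false, 11, 1, [(2, 5)], 0, [], 0⟩ := by
  have z := C.zz
  apply rule_lo_q
  simp only [fsum, List.map_cons, List.map_nil, List.sum_cons, List.sum_nil, sysGG]
  rw [fv5 C, fv11 C]
  push_cast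
  linarith only [z.ex, z.eK, z.eP, z.eW]

theorem ru34 (C : CoreK α n R F) :
    RuleL.Sem sys (pt C) ⟨false, 5, 2, [(1, 11)], 0, [], 0⟩ := by
  have z := C.zz
  apply rule_lo_q
  simp only [fsum, List.map_cons, List.map_nil, List.sum_cons, List.sum_nil, sysGG]
  rw [fv5 C, fv11 C]
  push_cast
  linarith only [z.ex, z.eK, z.eP, z.eW]

theorem ru35 (C : CoreK α n R F) :
    RuleL.Sem sys (pt C) ⟨true, 11, 1, [(2, 5)], 0, [], 0⟩ := by
  have z := C.zz
  apply rule_hi_q
  simp only [fsum, List.map_cons, List.map_nil, List.sum_cons, List.sum_nil, sysGG]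
  rw [fv5 C, fv11 C]
  push_cast
  exact le_max_of_le_right (by linarith only [z.ex, z.eK, z.eP, z.eW])

theorem ru36 (C : CoreK α n R F) :
    RuleL.Sem sys (pt C) ⟨false, 13, 1, [(1, 5)], 0, [(1, 22)], 0⟩ := by
  have z := C.zz
  apply rule_lo_q
  simp only [fsum, List.map_cons, List.map_nil, List.sum_cons, List.sum_nil, sysGG]
  rw [fv5 C, fv13 C, fv22 C]
  push_cast
  linarith only [z.ex, z.eK, z.eP, z.eW]

theorem ru37 (C : CoreK α n R F) :
    RuleL.Sem sys (pt C) ⟨false, 22, 1, [(1, 5)], 0, [(1, 13)], 0⟩ := by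
  have z := C.zz
  apply rule_lo_q
  simp only [fsum, List.map_cons, List.map_nil, List.sum_cons, List.sum_nil, sysGG]
  rw [fv5 C, fv13 C, fv22 C]
  push_cast
  linarith only [z.ex, z.eK, z.eP, z.eW]

theorem ru38 (C : CoreK α n R F) :
    RuleL.Sem sys (pt C) ⟨false, 5, 1, [(1, 13), (1, 22)], 0, [], 0⟩ := by
  have z := C.zz
  apply rule_lo_q
  simp only [fsum, List.map_cons, List.map_nil, List.sum_cons, List.sum_nil, sysGG]
  rw [fv5 C, fv13 C, fv22 C]
  push_cast
  linarith only [z.ex, z.eK, z.eP, z.eW]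

theorem ru39 (C : CoreK α n R F) :
    RuleL.Sem sys (pt C) ⟨true, 13, 1, [(1, 5)], 0, [(1, 22)], 0⟩ := by
  have z := C.zz
  apply rule_hi_q
  simp only [fsum, List.map_cons, List.map_nil, List.sum_cons, List.sum_nil, sysGG]
  rw [fv5 C, fv13 C, fv22 C]
  push_cast
  exact le_max_of_le_right (by linarith only [z.ex, z.eK, z.eP, z.eW])

theorem ru40 (C : CoreK α n R F) :
    RuleL.Sem sys (pt C) ⟨true, 22, 1, [(1, 5)], 0, [(1, 13)], 0⟩ := by
  have z := C.zz
  apply rule_hi_q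
  simp only [fsum, List.map_cons, List.map_nil, List.sum_cons, List.sum_nil, sysGG]
  rw [fv5 C, fv13 C, fv22 C]
  push_cast
  exact le_max_of_le_right (by linarith only [z.ex, z.eK, z.eP, z.eW])

theorem ru41 (C : CoreK α n R F) :
    RuleL.Sem sys (pt C) ⟨true, 18, 1, [(1, 15), (1, 23)], 0, [], 0⟩ := by
  have z := C.zz
  apply rule_hi_q
  simp only [fsum, List.map_cons, List.map_nil, List.sum_cons, List.sum_nil, sysGG]
  rw [fv15 C, fv18 C, fv23 C]
  push_cast
  exact le_max_of_le_right (by linarith only [z.ex, z.eK, z.eP, z.eW])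

theorem ru42 (C : CoreK α n R F) :
    RuleL.Sem sys (pt C) ⟨true, 15, 1, [(1, 18)], 0, [(1, 23)], 0⟩ := by
  have z := C.zz
  apply rule_hi_q
  simp only [fsum, List.map_cons, List.map_nil, List.sum_cons, List.sum_nil, sysGG]
  rw [fv15 C, fv18 C, fv23 C]
  push_cast
  exact le_max_of_le_right (by linarith only [z.ex, z.eK, z.eP, z.eW])

theorem ru43 (C : CoreK α n R F) :
    RuleL.Sem sys (pt C) ⟨true, 18, 2, [(2, 7), (1, 16)], 0, [], 0⟩ := by
  have z := C.zz
  apply rule_hi_q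
  simp only [fsum, List.map_cons, List.map_nil, List.sum_cons, List.sum_nil, sysGG]
  rw [fv7 C, fv16 C, fv18 C]
  push_cast
  exact le_max_of_le_right (by linarith only [z.ex, z.eK, z.eP, z.eW])

theorem ru44 (C : CoreK α n R F) :
    RuleL.Sem sys (pt C) ⟨true, 16, 1, [(2, 18)], 0, [(2, 7)], 0⟩ := by
  have z := C.zz
  apply rule_hi_q
  simp only [fsum, List.map_cons, List.map_nil, List.sum_cons, List.sum_nil, sysGG]
  rw [fv7 C, fv16 C, fv18 C]
  push_cast
  exact le_max_of_le_right (by linarith only [z.ex, z.eK, z.eP, z.eW])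

theorem ru45 (C : CoreK α n R F) :
    RuleL.Sem sys (pt C) ⟨false, 18, 2, [(2, 7), (1, 16)], 0, [], 0⟩ := by
  have z := C.zz
  apply rule_lo_q
  simp only [fsum, List.map_cons, List.map_nil, List.sum_cons, List.sum_nil, sysGG]
  rw [fv7 C, fv16 C, fv18 C]
  push_cast
  linarith only [z.ex, z.eK, z.eP, z.eW]

theorem ru46 (C : CoreK α n R F) :
    RuleL.Sem sys (pt C) ⟨false, 12, 1, [(2, 3)], 0, [(1, 4), (1, 21)], 0⟩ := by
  have z := C.zz
  apply rule_lo_q
  simp only [fsum, List.map_cons, List.map_nil, List.sum_cons, List.sum_nil, sysGG]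
  rw [fv3 C, fv4 C, fv12 C, fv21 C]
  push_cast
  rcases le_total (2 * (C.A.x : ℤ) - C.P.x - C.fK) 0 with hzA | hzA
  · rw [max_eq_left hzA]
    linarith only [z.ex, z.eK, z.eP, z.eW, hzA]
  · rw [max_eq_right hzA]
    linarith only [z.ex, z.eK, z.eP, z.eW]

theorem ru47 (C : CoreK α n R F) :
    RuleL.Sem sys (pt C) ⟨false, 21, 1, [(2, 3)], 0, [(1, 4), (1, 12)], 0⟩ := by
  have z := C.zz
  apply rule_lo_q
  simp only [fsum, List.map_cons, List.map_nil, List.sum_cons, List.sum_nil, sysGG]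
  rw [fv3 C, fv4 C, fv12 C, fv21 C]
  push_cast
  rcases le_total (2 * (C.A.x : ℤ) - C.P.x - C.fK) 0 with hzA | hzA
  · rw [max_eq_left hzA]
    linarith only [z.ex, z.eK, z.eP, z.eW, hzA]
  · rw [max_eq_right hzA]
    linarith only [z.ex, z.eK, z.eP, z.eW]

theorem ru48 (C : CoreK α n R F) :
    RuleL.Sem sys (pt C) ⟨true, 12, 1, [(2, 3)], 0, [(1, 4), (1, 21)], 0⟩ := by
  have z := C.zz
  apply rule_hi_q
  simp only [fsum, List.map_cons, List.map_nil, List.sum_cons, List.sum_nil, sysGG]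
  rw [fv3 C, fv4 C, fv12 C, fv21 C]
  push_cast
  rcases le_total (2 * (C.A.x : ℤ) - C.P.x - C.fK) 0 with hzA | hzA
  · rw [max_eq_left hzA]
    exact le_max_of_le_left (by norm_num)
  · rw [max_eq_right hzA]
    exact le_max_of_le_right (by linarith only [z.ex, z.eK, z.eP, z.eW])

theorem ru49 (C : CoreK α n R F) :
    RuleL.Sem sys (pt C) ⟨true, 14, 1, [(2, 5)], 0, [(1, 6), (1, 22)], 0⟩ := by
  have z := C.zz
  apply rule_hi_q
  simp only [fsum, List.map_cons, List.map_nil, List.sum_cons, List.sum_nil, sysGG]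
  rw [fv5 C, fv6 C, fv14 C, fv22 C]
  push_cast
  rcases le_total (2 * (C.A2.x : ℤ) - C.P2.x - C.fP) 0 with hzA2 | hzA2
  · rw [max_eq_left hzA2]
    exact le_max_of_le_left (by norm_num)
  · rw [max_eq_right hzA2]
    exact le_max_of_le_right (by linarith only [z.ex, z.eK, z.eP, z.eW])

theorem ru50 (C : CoreK α n R F) :
    RuleL.Sem sys (pt C) ⟨true, 17, 1, [(1, 7), (1, 18)], 0, [(1, 8), (1, 23)], 0⟩ := by
  have z := C.zz
  apply rule_hi_q
  simp only [fsum, List.map_cons, List.map_nil, List.sum_cons, List.sum_nil, sysGG]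
  rw [fv7 C, fv8 C, fv17 C, fv18 C, fv23 C]
  push_cast
  rcases le_total ((C.w2 : ℤ) + C.W2.x - C.W1.x - C.fW) 0 with hzW2 | hzW2
  · rw [max_eq_left hzW2]
    exact le_max_of_le_left (by norm_num)
  · rw [max_eq_right hzW2]
    exact le_max_of_le_right (by linarith only [z.ex, z.eK, z.eP, z.eW])

theorem ru51 (C : CoreK α n R F) :
    RuleL.Sem sys (pt C) ⟨true, 3, 1, [(1, 4)], 0, [], 0⟩ := by
  have z := C.zz
  apply rule_hi_q
  simp only [fsum, List.map_cons, List.map_nil, List.sum_cons, List.sum_nil, sysGG]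
  rw [fv3 C, fv4 C]
  push_cast
  exact le_max_of_le_right (by linarith only [z.ex, z.eK, z.eP, z.eW, z.le2])

theorem ru52 (C : CoreK α n R F) :
    RuleL.Sem sys (pt C) ⟨false, 4, 1, [(1, 3)], 0, [], 0⟩ := by
  have z := C.zz
  apply rule_lo_q
  simp only [fsum, List.map_cons, List.map_nil, List.sum_cons, List.sum_nil, sysGG]
  rw [fv3 C, fv4 C]
  push_cast
  linarith only [z.ex, z.eK, z.eP, z.eW, z.le2]

theorem ru53 (C : CoreK α n R F) :
    RuleL.Sem sys (pt C) ⟨true, 5, 1, [(1, 6)], 0, [], 0⟩ := by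
  have z := C.zz
  apply rule_hi_q
  simp only [fsum, List.map_cons, List.map_nil, List.sum_cons, List.sum_nil, sysGG]
  rw [fv5 C, fv6 C]
  push_cast
  exact le_max_of_le_right (by linarith only [z.ex, z.eK, z.eP, z.eW, z.le3])

theorem ru54 (C : CoreK α n R F) :
    RuleL.Sem sys (pt C) ⟨false, 6, 1, [(1, 5)], 0, [], 0⟩ := by
  have z := C.zz
  apply rule_lo_q
  simp only [fsum, List.map_cons, List.map_nil, List.sum_cons, List.sum_nil, sysGG]
  rw [fv5 C, fv6 C]
  push_cast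
  linarith only [z.ex, z.eK, z.eP, z.eW, z.le3]

theorem ru55 (C : CoreK α n R F) :
    RuleL.Sem sys (pt C) ⟨true, 20, 1, [(1, 1)], 0, [], 0⟩ := by
  have z := C.zz
  apply rule_hi_q
  simp only [fsum, List.map_cons, List.map_nil, List.sum_cons, List.sum_nil, sysGG]
  rw [fv1 C, fv20 C]
  push_cast
  exact le_max_of_le_right (by linarith only [z.ex, z.eK, z.eP, z.eW, z.f1])

theorem ru56 (C : CoreK α n R F) :
    RuleL.Sem sys (pt C) ⟨true, 23, 1, [(1, 7)], 0, [], 0⟩ := by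
  have z := C.zz
  apply rule_hi_q
  simp only [fsum, List.map_cons, List.map_nil, List.sum_cons, List.sum_nil, sysGG]
  rw [fv7 C, fv23 C]
  push_cast
  exact le_max_of_le_right (by linarith only [z.ex, z.eK, z.eP, z.eW, z.f4])

theorem ru57 (C : CoreK α n R F) :
    RuleL.Sem sys (pt C) ⟨false, 1, 1, [(2, 18)], 0, [], 0⟩ := by
  have z := C.zz
  apply rule_lo_q
  simp only [fsum, List.map_cons, List.map_nil, List.sum_cons, List.sum_nil, sysGG]
  rw [fv1 C, fv18 C]
  push_cast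
  linarith only [z.ex, z.eK, z.eP, z.eW, z.w2q]

theorem ru58 (C : CoreK α n R F) :
    RuleL.Sem sys (pt C) ⟨true, 18, 2, [(1, 1)], 0, [], 0⟩ := by
  have z := C.zz
  apply rule_hi_q
  simp only [fsum, List.map_cons, List.map_nil, List.sum_cons, List.sum_nil, sysGG]
  rw [fv1 C, fv18 C]
  push_cast
  exact le_max_of_le_right (by linarith only [z.ex, z.eK, z.eP, z.eW, z.w2q])

theorem ru59 (C : CoreK α n R F) :
    RuleL.Sem sys (pt C) ⟨false, 20, 1, [(1, 1)], 0, [(2, 3)], 0⟩ := by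
  have z := C.zz
  apply rule_lo_q
  simp only [fsum, List.map_cons, List.map_nil, List.sum_cons, List.sum_nil, sysGG]
  rw [fv1 C, fv3 C, fv20 C]
  push_cast
  linarith only [z.ex, z.eK, z.eP, z.eW, z.h1]

theorem ru60 (C : CoreK α n R F) :
    RuleL.Sem sys (pt C) ⟨false, 5, 2, [(1, 3)], 0, [(1, 21)], 0⟩ := by
  have z := C.zz
  apply rule_lo_q
  simp only [fsum, List.map_cons, List.map_nil, List.sum_cons, List.sum_nil, sysGG]
  rw [fv3 C, fv5 C, fv21 C]
  push_cast
  linarith only [z.ex, z.eK, z.eP, z.eW, z.h2]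

theorem ru61 (C : CoreK α n R F) :
    RuleL.Sem sys (pt C) ⟨false, 21, 1, [(1, 3)], 0, [(2, 5)], 0⟩ := by
  have z := C.zz
  apply rule_lo_q
  simp only [fsum, List.map_cons, List.map_nil, List.sum_cons, List.sum_nil, sysGG]
  rw [fv3 C, fv5 C, fv21 C]
  push_cast
  linarith only [z.ex, z.eK, z.eP, z.eW, z.h2]

theorem ru62 (C : CoreK α n R F) :
    RuleL.Sem sys (pt C) ⟨false, 7, 2, [(2, 1)], 0, [(1, 2), (1, 20)], 0⟩ := by
  have z := C.zz
  apply rule_lo_q
  simp only [fsum, List.map_cons, List.map_nil, List.sum_cons, List.sum_nil, sysGG]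
  rw [fv1 C, fv2 C, fv7 C, fv20 C]
  push_cast
  linarith only [z.ex, z.eK, z.eP, z.eW, z.h3]

theorem ru63 (C : CoreK α n R F) :
    RuleL.Sem sys (pt C) ⟨false, 20, 1, [(2, 1)], 0, [(1, 2), (2, 7)], 0⟩ := by
  have z := C.zz
  apply rule_lo_q
  simp only [fsum, List.map_cons, List.map_nil, List.sum_cons, List.sum_nil, sysGG]
  rw [fv1 C, fv2 C, fv7 C, fv20 C]
  push_cast
  linarith only [z.ex, z.eK, z.eP, z.eW, z.h3]

theorem ru64 (C : CoreK α n R F) :
    RuleL.Sem sys (pt C) ⟨false, 0, 1, [(2, 1)], 0, [], 0⟩ := by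
  have z := C.zz
  apply rule_lo_q
  simp only [fsum, List.map_cons, List.map_nil, List.sum_cons, List.sum_nil, sysGG]
  rw [fv0 C, fv1 C]
  push_cast
  linarith only [z.ex, z.eK, z.eP, z.eW, z.le1]

theorem ru65 (C : CoreK α n R F) :
    RuleL.Sem sys (pt C) ⟨true, 1, 2, [(1, 0)], 0, [], 0⟩ := by
  have z := C.zz
  apply rule_hi_q
  simp only [fsum, List.map_cons, List.map_nil, List.sum_cons, List.sum_nil, sysGG]
  rw [fv0 C, fv1 C]
  push_cast
  exact le_max_of_le_right (by linarith only [z.ex, z.eK, z.eP, z.eW, z.le1])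

theorem ru66 (C : CoreK α n R F) :
    RuleL.Sem sys (pt C) ⟨false, 2, 1, [(2, 3)], 0, [], 0⟩ := by
  have z := C.zz
  apply rule_lo_q
  simp only [fsum, List.map_cons, List.map_nil, List.sum_cons, List.sum_nil, sysGG]
  rw [fv2 C, fv3 C]
  push_cast
  linarith only [z.ex, z.eK, z.eP, z.eW, z.le2]

theorem ru67 (C : CoreK α n R F) :
    RuleL.Sem sys (pt C) ⟨true, 3, 2, [(1, 2)], 0, [], 0⟩ := by
  have z := C.zz
  apply rule_hi_q
  simp only [fsum, List.map_cons, List.map_nil, List.sum_cons, List.sum_nil, sysGG]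
  rw [fv2 C, fv3 C]
  push_cast
  exact le_max_of_le_right (by linarith only [z.ex, z.eK, z.eP, z.eW, z.le2])

theorem ru68 (C : CoreK α n R F) :
    RuleL.Sem sys (pt C) ⟨false, 4, 1, [(2, 5)], 0, [], 0⟩ := by
  have z := C.zz
  apply rule_lo_q
  simp only [fsum, List.map_cons, List.map_nil, List.sum_cons, List.sum_nil, sysGG]
  rw [fv4 C, fv5 C]
  push_cast
  linarith only [z.ex, z.eK, z.eP, z.eW, z.le3]

theorem ru69 (C : CoreK α n R F) :
    RuleL.Sem sys (pt C) ⟨true, 5, 2, [(1, 4)], 0, [], 0⟩ := by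
  have z := C.zz
  apply rule_hi_q
  simp only [fsum, List.map_cons, List.map_nil, List.sum_cons, List.sum_nil, sysGG]
  rw [fv4 C, fv5 C]
  push_cast
  exact le_max_of_le_right (by linarith only [z.ex, z.eK, z.eP, z.eW, z.le3])

theorem ru70 (C : CoreK α n R F) :
    RuleL.Sem sys (pt C) ⟨true, 7, 2, [(1, 1)], 0, [], 0⟩ := by
  have z := C.zz
  apply rule_hi_q
  simp only [fsum, List.map_cons, List.map_nil, List.sum_cons, List.sum_nil, sysGG]
  rw [fv1 C, fv7 C]
  push_cast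
  exact le_max_of_le_right (by linarith only [z.ex, z.eK, z.eP, z.eW, z.le4])

theorem rall_nil {P : RuleL → Prop} : ∀ r ∈ ([] : List RuleL), P r := by simp

theorem rall_cons {P : RuleL → Prop} {a : RuleL} {l : List RuleL} (h1 : P a) (h2 : ∀ r ∈ l, P r) :
    ∀ r ∈ (a :: l), P r := List.forall_mem_cons.mpr ⟨h1, h2⟩

/-- all rules hold -/
theorem rls_sem (C : CoreK α n R F) :
    ∀ r ∈ rls, RuleL.Sem sys (pt C) r := by
  unfold rls
  exact rall_cons (ru0 C) <|
    rall_cons (ru1 C) <|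
    rall_cons (ru2 C) <|
    rall_cons (ru3 C) <|
    rall_cons (ru4 C) <|
    rall_cons (ru5 C) <|
    rall_cons (ru6 C) <|
    rall_cons (ru7 C) <|
    rall_cons (ru8 C) <|
    rall_cons (ru9 C) <|
    rall_cons (ru10 C) <|
    rall_cons (ru11 C) <|
    rall_cons (ru12 C) <|
    rall_cons (ru13 C) <|
    rall_cons (ru14 C) <|
    rall_cons (ru15 C) <|
    rall_cons (ru16 C) <|
    rall_cons (ru17 C) <|
    rall_cons (ru18 C) <|
    rall_cons (ru19 C) <|
    rall_cons (ru20 C) <|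
    rall_cons (ru21 C) <|
    rall_cons (ru22 C) <|
    rall_cons (ru23 C) <|
    rall_cons (ru24 C) <|
    rall_cons (ru25 C) <|
    rall_cons (ru26 C) <|
    rall_cons (ru27 C) <|
    rall_cons (ru28 C) <|
    rall_cons (ru29 C) <|
    rall_cons (ru30 C) <|
    rall_cons (ru31 C) <|
    rall_cons (ru32 C) <|
    rall_cons (ru33 C) <|
    rall_cons (ru34 C) <|
    rall_cons (ru35 C) <|
    rall_cons (ru36 C) <|
    rall_cons (ru37 C) <|
    rall_cons (ru38 C) <|
    rall_cons (ru39 C) <|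
    rall_cons (ru40 C) <|
    rall_cons (ru41 C) <|
    rall_cons (ru42 C) <|
    rall_cons (ru43 C) <|
    rall_cons (ru44 C) <|
    rall_cons (ru45 C) <|
    rall_cons (ru46 C) <|
    rall_cons (ru47 C) <|
    rall_cons (ru48 C) <|
    rall_cons (ru49 C) <|
    rall_cons (ru50 C) <|
    rall_cons (ru51 C) <|
    rall_cons (ru52 C) <|
    rall_cons (ru53 C) <|
    rall_cons (ru54 C) <|
    rall_cons (ru55 C) <|
    rall_cons (ru56 C) <|
    rall_cons (ru57 C) <|
    rall_cons (ru58 C) <|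
    rall_cons (ru59 C) <|
    rall_cons (ru60 C) <|
    rall_cons (ru61 C) <|
    rall_cons (ru62 C) <|
    rall_cons (ru63 C) <|
    rall_cons (ru64 C) <|
    rall_cons (ru65 C) <|
    rall_cons (ru66 C) <|
    rall_cons (ru67 C) <|
    rall_cons (ru68 C) <|
    rall_cons (ru69 C) <|
    rall_cons (ru70 C) <|
    rall_nil

end Pool.Agent.EdgeIso.Chk.CoreK4
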