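import Pool.Agent.Lib.MP_48c8f3_co.Bas
import Pool.Agent.Lib.MP_48c8f3_co.K4G1
import Pool.Agent.Lib.MP_48c8f3_co.K4G2
import Pool.Agent.Lib.MP_48c8f3_co.K4G3
import Pool.Agent.Lib.MP_48c8f3_co.K4R
import Pool.Agent.Lib.MP_48c8f3_co.K4E

set_option autoImplicit false
set_option linter.unusedSectionVars false
set_option linter.unusedVariables false

/-!
MP_48c8f3_co: the numbers of the root satisfy the system (machine made).
-/

namespace Pool.Agent.EdgeIso.Chk.CoreK4

open Finset Pool.Agent.EdgeIso.Frame Pool.Agent.EdgeIso.Cell Pool.Agent.EdgeIso.Walsh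
  Pool.Agent.EdgeIso.Smooth

variable {α : Type*} [DecidableEq α] {n R : ℕ} {F : Frame.Num}

set_option maxRecDepth 100000

theorem all_nil {P : ItemL → Prop} : ∀ it ∈ ([] : List ItemL), P it := by simp

theorem all_cons {P : ItemL → Prop} {a : ItemL} {l : List ItemL} (h1 : P a) (h2 : ∀ it ∈ l, P it) :
    ∀ it ∈ (a :: l), P it := List.forall_mem_cons.mpr ⟨h1, h2⟩

theorem lall_nil {P : List ℤ → Prop} : ∀ L ∈ ([] : List (List ℤ)), P L := by simp

theorem lall_cons {P : List ℤ → Prop} {a : List ℤ} {l : List (List ℤ)} (h1 : P a) (h2 : ∀ L ∈ l, P L) :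
    ∀ L ∈ (a :: l), P L := List.forall_mem_cons.mpr ⟨h1, h2⟩

/-- all linear items hold -/
theorem lin_sem (C : CoreK α n R F) :
    ∀ L ∈ sys.lin, 0 ≤ dot L (pt C) := by
  show ∀ L ∈ ([f [(1, 2), (6, -2), (11, 1), (12, -1), (13, -1)],
    f [(2, 2), (7, -2), (12, 1), (14, -1), (15, -1)],
    f [(4, 2), (8, -2), (14, 1), (16, -1), (17, -1)],
    f [(5, 2), (9, -2), (13, 1), (18, -1), (19, -1)],
    f [(1, -1), (2, 2), (6, 1)],
    f [(2, -1), (4, 2), (7, 1)],
    f [(1, -2), (2, 1), (3, 1), (4, 1), (5, 2), (6, 1)],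
    f [(5, -1), (10, 1)],
    f [(1, -10), (2, 4), (3, 4), (4, 4), (5, 8), (6, 6), (10, 6), (12, 1), (21, -2)],
    f [(13, 1), (22, -2)],
    f [(22, 2), (30, -1)],
    f [(14, 1), (23, -2)],
    f [(23, 2), (31, -1)],
    f [(15, 1), (24, -2)],
    f [(24, 2), (32, -1)],
    f [(17, 1), (26, -2)],
    f [(18, 1), (27, -2)],
    f [(27, 2), (34, -1)],
    f [(19, 1), (28, -2)],
    f [(28, 2), (35, -1)],
    f [(1, 1), (11, -1), (20, 2), (36, 1), (56, -1)],
    f [(6, 1), (11, -1), (20, 2), (37, 2), (56, -1)],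
    f [(1, -1), (2, 1), (3, 1), (4, 1), (6, 1), (11, -1), (20, 2), (38, 2), (56, -1)],
    f [(2, 1), (36, -1), (39, 1)],
    f [(7, 1), (36, -1), (40, 2)],
    f [(2, -1), (3, 1), (4, 1), (7, 1), (36, -1), (42, 2)],
    f [(2, 1), (37, -1), (40, 1)],
    f [(7, 1), (37, -1), (41, 2)],
    f [(2, -1), (3, 1), (4, 1), (7, 1), (37, -1), (43, 2)],
    f [(3, 1), (4, 1), (37, -1), (42, 1)],
    f [(4, 1), (39, -1), (44, 1)],
    f [(8, 1), (39, -1), (45, 2)],
    f [(3, 1), (4, -1), (8, 1), (39, -1), (48, 2)],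
    f [(4, 1), (40, -1), (45, 1)],
    f [(8, 1), (40, -1), (46, 2)],
    f [(3, 1), (4, -1), (8, 1), (40, -1), (49, 2)],
    f [(4, 1), (41, -1), (46, 1)],
    f [(8, 1), (41, -1), (47, 2)],
    f [(3, 1), (4, -1), (8, 1), (41, -1), (50, 2)],
    f [(5, 1), (38, -1), (51, 1)],
    f [(1, 1), (5, -2), (9, 1), (38, -1), (52, 2)],
    f [(12, 1), (21, -2), (36, -1)],
    f [(1, -1), (2, 1), (3, 1), (4, 1), (12, 2), (21, -4), (37, -2)],
    f [(13, 1), (22, -2), (38, -1)],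
    f [(14, 1), (23, -2), (39, -1)],
    f [(1, -1), (2, -1), (3, 3), (4, 3), (14, 4), (23, -8), (41, -4)],
    f [(15, 1), (24, -2), (42, -1)],
    f [(16, 1), (25, -2), (44, -1)],
    f [(17, 1), (26, -2), (48, -1)],
    f [(18, 1), (27, -2), (51, -1)],
    f [(19, 1), (28, -2), (52, -1)],
    f [(2, -2), (3, 1), (4, 1), (7, 1), (53, 1)],
    f [(3, 1), (4, -2), (8, 1), (54, 1)],
    f [(1, 1), (5, -2), (9, 1), (10, -1), (55, 1)],
    f [(0, 1), (1, -1)],
    f [(0, 1), (2, -1)],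
    f [(0, 2), (3, -1)],
    f [(0, 1), (4, -1)],
    f [(0, 1), (5, -1)],
    f [(0, 1), (8, -1)],
    f [(0, 1), (9, -1)],
    f [(0, 1), (10, -1)],
    f [(0, 4), (11, -1)],
    f [(0, 8), (12, -1)],
    f [(0, 8), (13, -1)],
    f [(0, 8), (14, -1)],
    f [(0, 8), (15, -1)],
    f [(0, 10), (16, -1)],
    f [(0, 8), (18, -1)],
    f [(0, 8), (19, -1)],
    f [(0, 1), (20, -1)],
    f [(0, 1), (21, -1)],
    f [(0, 1), (22, -1)],
    f [(0, 1), (23, -1)],
    f [(0, 1), (24, -1)],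
    f [(0, 1), (25, -1)],
    f [(0, 1), (26, -1)],
    f [(0, 1), (27, -1)],
    f [(0, 1), (28, -1)],
    f [(0, 2), (29, -1)],
    f [(0, 2), (30, -1)],
    f [(0, 2), (31, -1)],
    f [(0, 2), (32, -1)],
    f [(0, 2), (33, -1)],
    f [(0, 2), (34, -1)],
    f [(0, 2), (35, -1)],
    f [(0, 2), (36, -1)],
    f [(0, 2), (37, -1)],
    f [(0, 1), (38, -1)],
    f [(0, 2), (39, -1)],
    f [(0, 2), (40, -1)],
    f [(0, 2), (41, -1)],
    f [(0, 1), (42, -1)],
    f [(0, 1), (43, -1)],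
    f [(0, 2), (44, -1)],
    f [(0, 2), (45, -1)],
    f [(0, 2), (46, -1)],
    f [(0, 2), (47, -1)],
    f [(0, 1), (48, -1)],
    f [(0, 1), (49, -1)],
    f [(0, 1), (50, -1)],
    f [(0, 1), (51, -1)],
    f [(0, 1), (52, -1)],
    f [(0, 1), (53, -1)],
    f [(0, 1), (55, -1)]] : List (List ℤ)), 0 ≤ dot L (pt C)
  exact lall_cons (li0 C) <|
    lall_cons (li1 C) <|
    lall_cons (li2 C) <|
    lall_cons (li3 C) <|
    lall_cons (li4 C) <|
    lall_cons (li5 C) <|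
    lall_cons (li6 C) <|
    lall_cons (li7 C) <|
    lall_cons (li8 C) <|
    lall_cons (li9 C) <|
    lall_cons (li10 C) <|
    lall_cons (li11 C) <|
    lall_cons (li12 C) <|
    lall_cons (li13 C) <|
    lall_cons (li14 C) <|
    lall_cons (li15 C) <|
    lall_cons (li16 C) <|
    lall_cons (li17 C) <|
    lall_cons (li18 C) <|
    lall_cons (li19 C) <|
    lall_cons (li20 C) <|
    lall_cons (li21 C) <|
    lall_cons (li22 C) <|
    lall_cons (li23 C) <|
    lall_cons (li24 C) <|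
    lall_cons (li25 C) <|
    lall_cons (li26 C) <|
    lall_cons (li27 C) <|
    lall_cons (li28 C) <|
    lall_cons (li29 C) <|
    lall_cons (li30 C) <|
    lall_cons (li31 C) <|
    lall_cons (li32 C) <|
    lall_cons (li33 C) <|
    lall_cons (li34 C) <|
    lall_cons (li35 C) <|
    lall_cons (li36 C) <|
    lall_cons (li37 C) <|
    lall_cons (li38 C) <|
    lall_cons (li39 C) <|
    lall_cons (li40 C) <|
    lall_cons (li41 C) <|
    lall_cons (li42 C) <|
    lall_cons (li43 C) <|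
    lall_cons (li44 C) <|
    lall_cons (li45 C) <|
    lall_cons (li46 C) <|
    lall_cons (li47 C) <|
    lall_cons (li48 C) <|
    lall_cons (li49 C) <|
    lall_cons (li50 C) <|
    lall_cons (li51 C) <|
    lall_cons (li52 C) <|
    lall_cons (li53 C) <|
    lall_cons (li54 C) <|
    lall_cons (li55 C) <|
    lall_cons (li56 C) <|
    lall_cons (li57 C) <|
    lall_cons (li58 C) <|
    lall_cons (li59 C) <|
    lall_cons (li60 C) <|
    lall_cons (li61 C) <|
    lall_cons (li62 C) <|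
    lall_cons (li63 C) <|
    lall_cons (li64 C) <|
    lall_cons (li65 C) <|
    lall_cons (li66 C) <|
    lall_cons (li67 C) <|
    lall_cons (li68 C) <|
    lall_cons (li69 C) <|
    lall_cons (li70 C) <|
    lall_cons (li71 C) <|
    lall_cons (li72 C) <|
    lall_cons (li73 C) <|
    lall_cons (li74 C) <|
    lall_cons (li75 C) <|
    lall_cons (li76 C) <|
    lall_cons (li77 C) <|
    lall_cons (li78 C) <|
    lall_cons (li79 C) <|
    lall_cons (li80 C) <|
    lall_cons (li81 C) <|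
    lall_cons (li82 C) <|
    lall_cons (li83 C) <|
    lall_cons (li84 C) <|
    lall_cons (li85 C) <|
    lall_cons (li86 C) <|
    lall_cons (li87 C) <|
    lall_cons (li88 C) <|
    lall_cons (li89 C) <|
    lall_cons (li90 C) <|
    lall_cons (li91 C) <|
    lall_cons (li92 C) <|
    lall_cons (li93 C) <|
    lall_cons (li94 C) <|
    lall_cons (li95 C) <|
    lall_cons (li96 C) <|
    lall_cons (li97 C) <|
    lall_cons (li98 C) <|
    lall_cons (li99 C) <|
    lall_cons (li100 C) <|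
    lall_cons (li101 C) <|
    lall_cons (li102 C) <|
    lall_cons (li103 C) <|
    lall_cons (li104 C) <|
    lall_nil

/-- all items hold -/
theorem its_sem (C : CoreK α n R F) (hR : R + 1 ≤ n) (hn : 1 ≤ n) (SI : SIN α (n + 3))
    (hT : ∀ i j, (dgt GT0 i j : ℤ) ≤ dg i j) :
    ∀ it ∈ its, it.Sem sys (pt C) := by
  unfold its
  exact all_cons (it0 C hT) <|
    all_cons (it1 C hT) <|
    all_cons (it2 C hT) <|
    all_cons (it3 C hT) <|
    all_cons (it4 C) <|
    all_cons (it5 C) <|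
    all_cons (it6 C) <|
    all_cons (it7 C) <|
    all_cons (it8 C) <|
    all_cons (it9 C) <|
    all_cons (it10 C) <|
    all_cons (it11 C) <|
    all_cons (it12 C) <|
    all_cons (it13 C) <|
    all_cons (it14 C) <|
    all_cons (it15 C) <|
    all_cons (it16 C) <|
    all_cons (it17 C) <|
    all_cons (it18 C) <|
    all_cons (it19 C) <|
    all_cons (it20 C) <|
    all_cons (it21 C) <|
    all_cons (it22 C) <|
    all_cons (it23 C) <|
    all_cons (it24 C) <|
    all_cons (it25 C) <|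
    all_cons (it26 C hR) <|
    all_cons (it27 C hR) <|
    all_cons (it28 C hR) <|
    all_cons (it29 C hR) <|
    all_cons (it30 C hR) <|
    all_cons (it31 C hR) <|
    all_cons (it32 C hR) <|
    all_cons (it33 C hR) <|
    all_cons (it34 C hR) <|
    all_cons (it35 C hR) <|
    all_cons (it36 C hR) <|
    all_cons (it37 C hR) <|
    all_cons (it38 C hR) <|
    all_cons (it39 C hR) <|
    all_cons (it40 C hR) <|
    all_cons (it41 C hR) <|
    all_cons (it42 C hR) <|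
    all_cons (it43 C hR) <|
    all_cons (it44 C hR) <|
    all_cons (it45 C hR) <|
    all_cons (it46 C hR) <|
    all_cons (it47 C hR) <|
    all_cons (it48 C hR) <|
    all_cons (it49 C hR) <|
    all_cons (it50 C hR) <|
    all_cons (it51 C hR) <|
    all_cons (it52 C hR) <|
    all_cons (it53 C hR) <|
    all_cons (it54 C hR) <|
    all_cons (it55 C hR) <|
    all_cons (it56 C hR) <|
    all_cons (it57 C hR) <|
    all_cons (it58 C hR) <|
    all_cons (it59 C hR) <|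
    all_cons (it60 C hR) <|
    all_cons (it61 C hR) <|
    all_cons (it62 C hR hn) <|
    all_cons (it63 C hR hn) <|
    all_cons (it64 C hR hn) <|
    all_cons (it65 C hR hn) <|
    all_cons (it66 C hR hn) <|
    all_cons (it67 C hR hn) <|
    all_cons (it68 C hR hn) <|
    all_cons (it69 C hR SI) <|
    all_cons (it70 C hR SI) <|
    all_cons (it71 C hR SI) <|
    all_cons (it72 C hR SI) <|
    all_cons (it73 C) <|
    all_cons (it74 C hR SI) <|
    all_cons (it75 C hR SI) <|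
    all_cons (it76 C) <|
    all_cons (it77 C hR SI) <|
    all_cons (it78 C hn) <|
    all_cons (it79 C hn) <|
    all_cons (it80 C hR hn SI) <|
    all_cons (it81 C hR hn SI) <|
    all_cons (it82 C hn) <|
    all_cons (it83 C hn) <|
    all_cons (it84 C hR SI) <|
    all_nil

theorem nonneg_vt (C : CoreK α n R F) : ∀ v ∈ (2 ^ 28 * 2 ^ R :: vt C), (0 : ℤ) ≤ v := by
  have z := C.zz
  have hmF := C.fF.MM_nonneg (xsF C)
  have hqF := QQ_nonneg (xsF C)
  have hmK := C.kK'.MM_nonneg (xsK C)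
  have hqK := QQ_nonneg (xsK C)
  have hyK := YY_nonneg (xsK C)
  have hmW := C.kW'.MM_nonneg (xsW C)
  have hqW := QQ_nonneg (xsW C)
  have hyW := YY_nonneg (xsW C)
  have hmP := C.kP'.MM_nonneg (xsP C)
  have hqP := QQ_nonneg (xsP C)
  have hyP := YY_nonneg (xsP C)
  have hmA := C.kA.MM_nonneg (xsA C)
  have hqA := QQ_nonneg (xsA C)
  have hyA := YY_nonneg (xsA C)
  have hmP2 := C.kP2.MM_nonneg (xsP2 C)
  have hqP2 := QQ_nonneg (xsP2 C)
  have hyP2 := YY_nonneg (xsP2 C)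
  have hmA2 := C.kA2.MM_nonneg (xsA2 C)
  have hqA2 := QQ_nonneg (xsA2 C)
  have hmW1 := C.kW1b.MM_nonneg (xsW1 C)
  have hqW1 := QQ_nonneg (xsW1 C)
  have hyW1 := YY_nonneg (xsW1 C)
  have hmW2 := C.kW2b.MM_nonneg (xsW2 C)
  have hqW2 := QQ_nonneg (xsW2 C)
  have hyW2 := YY_nonneg (xsW2 C)
  have hzA := le_max_left (0 : ℤ) (2 * (C.A.x : ℤ) - C.P.x - C.fK)
  have hzA2 := le_max_left (0 : ℤ) (2 * (C.A2.x : ℤ) - C.P2.x - C.fP)
  have hzW2 := le_max_left (0 : ℤ) ((C.w2 : ℤ) + C.W2.x - C.W1.x - C.fW)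
  simp only [List.mem_cons, forall_eq_or_imp, List.not_mem_nil, IsEmpty.forall_iff, implies_true,
    and_true]
  refine ⟨?_, ?_, ?_, ?_, ?_, ?_, ?_, ?_, ?_, ?_, ?_, ?_, ?_, ?_, ?_, ?_, ?_, ?_, ?_, ?_, ?_, ?_, ?_, ?_, ?_, ?_, ?_, ?_, ?_, ?_, ?_, ?_, ?_, ?_, ?_, ?_, ?_, ?_, ?_, ?_, ?_, ?_, ?_, ?_, ?_, ?_, ?_, ?_, ?_, ?_, ?_, ?_, ?_, ?_, ?_, ?_, ?_⟩ <;> positivity

/-- the point is admissible -/
theorem core_cst (C : CoreK α n R F) :
    (∀ i, 0 ≤ pt C i) ∧ 0 < pt C 0 ∧ 0 < dot sys.fin (pt C) := by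
  refine ⟨ptV_nonneg (nonneg_vt C), ?_, ?_⟩
  · show (0 : ℤ) < 2 ^ 28 * 2 ^ R
    positivity
  · have hU : (0 : ℤ) < 2 ^ R := by positivity
    have h0 : dot sys.fin (pt C) = (1 * (2 ^ 27) + (0) : ℤ) := fe_q (m := 57) (l := [(56, 1)]) _ rfl rfl
    rw [h0]
    linarith only [hU]

/-- the certificate of the region 1 -/
theorem core_sound1 {Cc : Cst} (hC : Cc = sys.cst) {tr : IT} {Tt : FT}
    (hTr : Tt = tr.run (its.map (ItemL.run sys Cc))) {grps : List (List ℕ)} {trr : IT} {Rr : RT}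
    (hRr : Rr = trr.runR (grps.map (grp (rls.map RuleL.run)))) {st : ℕ} (hst : st = mkst bds1)
    (ht : Cl Cc Tt Rr st) (C : CoreK α n R F) (hR : R + 1 ≤ n) (hn : 1 ≤ n) (SI : SIN α (n + 3))
    (hT : ∀ i j, (dgt GT0 i j : ℤ) ≤ dg i j) (hq : (2 : ℤ) ^ R ≤ 4 * C.W.x) : False :=
  sys_sound (S := sys) (by decide) hex (by decide) hfin
    hlin (its := its) hwf hC hTr (rls := rls) (by decide +kernel)
    (grps := grps) hRr (bds := bds1) (by decide +kernel) hst ht (core_cst C).1 (core_cst C).2.1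
    (core_cst C).2.2 (lin_sem C) (its_sem C hR hn SI hT) (rls_sem C) (bds1_ok C hn hq)

/-- the certificate of the region 2 -/
theorem core_sound2 {Cc : Cst} (hC : Cc = sys.cst) {tr : IT} {Tt : FT}
    (hTr : Tt = tr.run (its.map (ItemL.run sys Cc))) {grps : List (List ℕ)} {trr : IT} {Rr : RT}
    (hRr : Rr = trr.runR (grps.map (grp (rls.map RuleL.run)))) {st : ℕ} (hst : st = mkst bds2)
    (ht : Cl Cc Tt Rr st) (C : CoreK α n R F) (hR : R + 1 ≤ n) (hn : 1 ≤ n) (SI : SIN α (n + 3))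
    (hT : ∀ i j, (dgt GT0 i j : ℤ) ≤ dg i j) (hq : 4 * (C.W.x : ℤ) ≤ 2 ^ R) (ha : (2 : ℤ) ^ R ≤ 4 * C.A.x) : False :=
  sys_sound (S := sys) (by decide) hex (by decide) hfin
    hlin (its := its) hwf hC hTr (rls := rls) (by decide +kernel)
    (grps := grps) hRr (bds := bds2) (by decide +kernel) hst ht (core_cst C).1 (core_cst C).2.1
    (core_cst C).2.2 (lin_sem C) (its_sem C hR hn SI hT) (rls_sem C) (bds2_ok C hn hq ha)

/-- the certificate of the region 3 -/
theorem core_sound3 {Cc : Cst} (hC : Cc = sys.cst) {tr : IT} {Tt : FT}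
    (hTr : Tt = tr.run (its.map (ItemL.run sys Cc))) {grps : List (List ℕ)} {trr : IT} {Rr : RT}
    (hRr : Rr = trr.runR (grps.map (grp (rls.map RuleL.run)))) {st : ℕ} (hst : st = mkst bds3)
    (ht : Cl Cc Tt Rr st) (C : CoreK α n R F) (hR : R + 1 ≤ n) (hn : 1 ≤ n) (SI : SIN α (n + 3))
    (hT : ∀ i j, (dgt GT0 i j : ℤ) ≤ dg i j) (hq : 4 * (C.W.x : ℤ) ≤ 2 ^ R) (ha : 4 * (C.A.x : ℤ) ≤ 2 ^ R) (ha2 : (2 : ℤ) ^ R ≤ 4 * C.A2.x) : False :=
  sys_sound (S := sys) (by decide) hex (by decide) hfin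
    hlin (its := its) hwf hC hTr (rls := rls) (by decide +kernel)
    (grps := grps) hRr (bds := bds3) (by decide +kernel) hst ht (core_cst C).1 (core_cst C).2.1
    (core_cst C).2.2 (lin_sem C) (its_sem C hR hn SI hT) (rls_sem C) (bds3_ok C hn hq ha ha2)

end Pool.Agent.EdgeIso.Chk.CoreK4
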