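import Pool.Agent.Lib.MP_48c8f3_co.BasR
import Pool.Agent.Lib.MP_48c8f3_co.KNe

set_option autoImplicit false
set_option linter.unusedSectionVars false

/-!
MP_48c8f3_co: items of a system at a point in a general unit, for copies of a general size.
-/

namespace Pool.Agent.EdgeIso.Chk

open Finset Pool.Agent.EdgeIso.Frame Pool.Agent.EdgeIso.Cell Pool.Agent.EdgeIso.Walsh
  Pool.Agent.EdgeIso.Smooth

variable {α : Type*} [DecidableEq α] {n : ℕ} {w : ℤ} {N : Frame.Num}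

/-- the value of the hinges in the size of the copies, in an item -/
theorem hsum_etG {S : SysL} {x : ℕ → ℤ} {s8 TA WA b et X St Dt Ht : ℕ} {κ : ℤ} {τ : ℝ} (hκ : 0 < κ)
    (hEt : (Dt : ℝ) * dot (S.fe et) x ≤ 8 * St * κ * τ) : ∀ (d : ℕ) (l : List (ℕ × ℕ)),
      digOK (4 * (Ht * St)) TA WA b d l = true →
    (16 * s8 * κ : ℝ) * tR l X τ ≤
      (Chk.hsum S x (κ * X) s8 TA WA b d (List.replicate l.length (et, St, Dt, Ht)) : ℤ)
  | _, [], _ => by simp [tR, Chk.hsum]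
  | d, h :: l, hd => by
    unfold digOK at hd
    simp only [Bool.and_eq_true] at hd
    obtain ⟨⟨h1, h2⟩, h3⟩ := hd
    have h1 := Nat.eq_of_beq_eq_true h1
    have h2 := Nat.eq_of_beq_eq_true h2
    have ih := hsum_etG (s8 := s8) (X := X) hκ hEt (d + 2) l h3
    rw [List.length_cons, List.replicate_succ]
    unfold Chk.hsum
    rw [h2]
    have e1 : tR (h :: l) X τ = h.1 * max 0 (h.2 * (X : ℝ) / 8 - τ) +
        tR l X τ := by
      unfold tR
      rw [List.map_cons, List.sum_cons]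
    rw [e1]
    have hκr : (0 : ℝ) < κ := by exact_mod_cast hκ
    have h4 : (8 * St * κ : ℝ) * max 0 (h.2 * (X : ℝ) / 8 - τ) ≤
        ((max 0 (((St * h.2 : ℕ) : ℤ) * (κ * X) - (Dt : ℕ) * dot (S.fe et) x) : ℤ) : ℝ) := by
      rw [mul_max_of_nonneg _ _ (by positivity : (0 : ℝ) ≤ 8 * St * κ), mul_zero]
      push_cast
      apply max_le_max le_rfl
      have e7 : (8 * St * κ : ℝ) * (h.2 * X / 8 - τ) =
          St * h.2 * (κ * X) - 8 * St * κ * τ := by ring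
      rw [e7]
      linarith
    have h5 := mul_le_mul_of_nonneg_left h4
      (by positivity : (0 : ℝ) ≤ 8 * s8 * (Ht * (tab TA WA b d : ℕ)))
    have e8 : (h.1 : ℝ) = 4 * (Ht * St) * (tab TA WA b d : ℕ) := by exact_mod_cast h1.symm
    push_cast at h5 ih ⊢
    rw [e8]
    have e9 : (16 * s8 * κ : ℝ) * (4 * (Ht * St) * (tab TA WA b d : ℕ) *
        max 0 (h.2 * (X : ℝ) / 8 - τ) + tR l X τ) =
        8 * s8 * (Ht * (tab TA WA b d : ℕ)) * (8 * St * κ * max 0 (h.2 * (X : ℝ) / 8 - τ)) +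
        16 * s8 * κ * tR l X τ := by ring
    rw [e9]
    have e10 : (8 : ℝ) * (s8 * (Ht * (tab TA WA b d : ℕ))) = 8 * s8 * (Ht * (tab TA WA b d : ℕ)) := by
      ring
    rw [e10]
    linarith

/-- the value of the form of a facet item for the distance `D` -/
noncomputable def ellG (c0 e ah : ℕ) (N : Frame.Num) (w : ℤ) (D : ℝ) : ℝ :=
  e / c0 * (N.E / Sc) + N.x + ah * (N.x - w) / (2 * c0) - D

/-- the facet item -/
theorem ts_facetsG {S : SysL} {x : ℕ → ℤ}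
    {ex et eg hx FT C g' FL Fx T W TA WA s8 RN St Dt Ht mt m c0 e ah : ℕ}
    {L : List ℤ} {shapes : List Shp} {δ j0 R : ℕ} {κ : ℤ} {τ D : ℝ}
    (hcap : N.x ≤ 2 ^ n) (hn : n = R + δ)
    (hhx : 0 < hx) (hGG : S.GG = hx * g') (hg8 : ∀ s ∈ shapes, 2 ^ s.kl ∣ 2 * g') (hg0 : 0 < g')
    (hFx : Fx = FT * g') (hcc : FT * (C * g') = 8 * s8 * (2 * c0))
    (hc0 : 0 < c0)
    (hκ : 0 < κ) (h0 : x 0 = κ * 2 ^ R)
    (hX : dot (S.fe ex) x = κ * N.x) (hEt : (Dt : ℝ) * dot (S.fe et) x ≤ 8 * St * κ * τ)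
    (hG : dot (S.fe eg) x ≤ κ * w) (hxR : 2 ^ j0 * N.x ≤ 2 * 2 ^ R)
    (hrow : ∀ s ∈ shapes, ∀ k, 1 ≤ k → s.k0 ≤ k → k ≤ s.kl → ∀ p ∈ s.B k,
      Cond (condP k p) (2 ^ n) N.x →
      D ≤ s.e / s.c * (N.E / Sc) + ((p.2.2.1 : ℝ) / 32 * 2 ^ n + p.2.2.2 * N.x + s.ah * (N.x - w) +
        hinR s.hs N.x w) / (2 * s.c) + tR s.th N.x τ / s.c)
    (hL0 : 0 ≤ dot L x)
    (hFL : (FL : ℝ) * dot L x = FT * (C * g') * (κ * ellG c0 e ah N w D))
    (hT : Nat.log2 T < 24 * (shapes.length * W))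
    (htab : allShp c0 e ah (4 * (Ht * St)) mt m g' C δ j0 T W TA WA shapes 0 = true) :
    (ItemL.ts ex hx L FL Fx FT T W s8 RN
      (List.replicate mt (et, St, Dt, Ht) ++ List.replicate m (eg, 1, 16, 1)) TA WA).Sem S x := by
  intro i b hi hb h1 h2
  rcases Nat.lt_or_ge b shapes.length with hbl | hbl
  swap
  · -- no shape
    rw [tab_high hT hbl, tab_high hT hbl]
    have h3 := hsum_nonneg' S x (dot (S.fe ex) x) s8 TA WA b 0
      (List.replicate mt (et, St, Dt, Ht) ++ List.replicate m (eg, 1, 16, 1))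
    have h4 : (0 : ℤ) ≤ FL * dot L x := mul_nonneg (by positivity) hL0
    simp only [Nat.cast_zero, sub_zero, zero_mul, mul_zero, add_zero]
    exact add_nonneg h4 h3
  obtain ⟨s, hs, c1, c2⟩ := allShp_get shapes 0 htab b hbl
  rw [Nat.zero_add] at c1 c2
  unfold shpOK at c1
  simp only [Bool.and_eq_true] at c1
  obtain ⟨⟨⟨⟨⟨⟨c3, c4⟩, c5⟩, c11⟩, c6⟩, c7⟩, c10⟩ := c1
  have c3 := Nat.eq_of_beq_eq_true c3
  have c4 := Nat.eq_of_beq_eq_true c4
  have c5 := Nat.eq_of_beq_eq_true c5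
  have c6 := Nat.eq_of_beq_eq_true c6
  have c11 := Nat.eq_of_beq_eq_true c11
  -- the mesh
  have hx0 : (0 : ℤ) < hx := by exact_mod_cast hhx
  rw [hGG, hX, h0] at h1 h2
  push_cast at h1 h2
  have k1 : (2 : ℤ) ^ R * i ≤ g' * N.x := by
    apply le_of_mul_le_mul_left _ (mul_pos hx0 hκ)
    linarith
  have k2 : (g' : ℤ) * N.x ≤ 2 ^ R * (i + 1) := by
    apply le_of_mul_le_mul_left _ (mul_pos hx0 hκ)
    linarith
  have k1n : 2 ^ R * i ≤ g' * N.x := by exact_mod_cast k1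
  have k2n : g' * N.x ≤ 2 ^ R * (i + 1) := by exact_mod_cast k2
  have hκr : (0 : ℝ) < κ := by exact_mod_cast hκ
  -- the smooth inequality
  have hS : (0 : ℝ) < Sc := by exact_mod_cast Sc_pos
  have hsc : 0 < s.c := by rw [c3]; exact hc0
  have hcr : (0 : ℝ) < c0 := by exact_mod_cast hc0
  -- the hinges of the item
  have q1 := hsum_eg (S := S) (x := x) (s8 := s8) (TA := TA) (WA := WA) (b := b) (X := N.x) hκ hG
    (2 * mt) s.hs c10
  rw [c6] at q1
  have q2 := hsum_etG (S := S) (x := x) (s8 := s8) (TA := TA) (WA := WA) (b := b) (X := N.x)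
    hκ hEt 0 s.th c7
  rw [c11] at q2
  have e11 := hsum_app S x (dot (S.fe ex) x) s8 TA WA b (List.replicate mt (et, St, Dt, Ht))
    (List.replicate m (eg, 1, 16, 1)) 0
  rw [List.length_replicate, Nat.zero_add, hX] at e11
  rw [hX, e11, h0, hFx]
  generalize Chk.hsum S x (κ * N.x) s8 TA WA b 0 (List.replicate mt (et, St, Dt, Ht)) = h1z at *
  generalize Chk.hsum S x (κ * N.x) s8 TA WA b (2 * mt) (List.replicate m (eg, 1, 16, 1)) = h2z at *
  have hmx := tR_nonneg s.th N.x τ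
  have hh1 : (0 : ℝ) ≤ h1z := (mul_nonneg (by positivity) hmx).trans q2
  have hh2 : (0 : ℝ) ≤ h2z := (mul_nonneg (by positivity) (hinR_nonneg _ _ _)).trans q1
  have hFLr : (0 : ℝ) ≤ (FL : ℝ) * dot L x := by
    have : (0 : ℝ) ≤ dot L x := by exact_mod_cast hL0
    positivity
  have goal_real : (FT : ℝ) * κ * (((2 : ℝ) ^ R * (i + 1) - g' * N.x) * tab T W b i +
      (g' * N.x - 2 ^ R * i) * tab T W b (i + 1)) ≤ FL * dot L x + h1z + h2z := by
    rcases Nat.eq_zero_or_pos N.x with hX0 | hX0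
    · -- the empty family
      have z : ((2 : ℝ) ^ R * (i + 1) - g' * N.x) * tab T W b i +
          (g' * N.x - 2 ^ R * i) * tab T W b (i + 1) = 0 := by
        rw [hX0, Nat.mul_zero] at k1n
        have hi0 : i = 0 := by
          have hR : (0 : ℕ) < 2 ^ R := by positivity
          rcases Nat.eq_zero_or_pos i with h3 | h3
          · exact h3
          · exact absurd k1n (by have := Nat.mul_pos hR h3; omega)
        rw [hi0, tOK_zero hsc c2, hX0]
        push_cast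
        ring
      rw [z, mul_zero]
      linarith
    · rcases tOK_le (s := s) hsc c2 (hg8 s hs) hg0 hn hX0 hxR hcap k1n k2n with
        z | ⟨k, l1, l2, l3, p, hp, l4, l5⟩
      · rw [z, mul_zero]
        linarith
      · have h3 := hrow s hs k l1 l2 l3 p hp l4
        rw [c3, c4, c5] at h3
        rw [c3] at l5
        have h6 : (N.x : ℝ) - ((p.2.2.1 : ℝ) / 32 * 2 ^ n + p.2.2.2 * N.x) / (2 * c0) ≤
            ellG c0 e ah N w D + (hinR s.hs N.x w / (2 * c0) +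
              tR s.th N.x τ / c0) := by
          unfold ellG
          have e12 : ((p.2.2.1 : ℝ) / 32 * 2 ^ n + p.2.2.2 * N.x + ah * (N.x - w) +
              hinR s.hs N.x w) / (2 * c0) = ((p.2.2.1 : ℝ) / 32 * 2 ^ n + p.2.2.2 * N.x) / (2 * c0) +
              ah * (N.x - w) / (2 * c0) + hinR s.hs N.x w / (2 * c0) := by ring
          rw [e12] at h3
          linarith
        have hccr : (FT : ℝ) * (C * g') = 8 * s8 * (2 * c0) := by exact_mod_cast hcc
        have h7 := mul_le_mul_of_nonneg_left (l5.trans (mul_le_mul_of_nonneg_left h6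
          (by positivity : (0 : ℝ) ≤ C * g'))) (by positivity : (0 : ℝ) ≤ (FT : ℝ) * κ)
        refine h7.trans ?_
        rw [hFL]
        have e13 : (FT : ℝ) * κ * (C * g' * (ellG c0 e ah N w D + (hinR s.hs N.x w / (2 * c0) +
            tR s.th N.x τ / c0))) =
            FT * (C * g') * (κ * ellG c0 e ah N w D) +
            (16 * s8 * κ) * tR s.th N.x τ +
            (8 * s8 * κ) * hinR s.hs N.x w := by
          have e14 : (FT : ℝ) * κ * (C * g' * (ellG c0 e ah N w D + (hinR s.hs N.x w / (2 * c0) +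
            tR s.th N.x τ / c0))) =
            FT * (C * g') * (κ * ellG c0 e ah N w D) +
            (FT * (C * g')) * (κ * (hinR s.hs N.x w / (2 * c0) +
              tR s.th N.x τ / c0)) := by ring
          rw [e14, hccr]
          field_simp
          ring
        rw [e13]
        linarith
  have hfin : ((FT * κ * ((2 ^ R * (i + 1) - g' * N.x) * tab T W b i +
      (g' * N.x - 2 ^ R * i) * tab T W b (i + 1)) : ℤ) : ℝ) ≤
      ((FL * dot L x + h1z + h2z : ℤ) : ℝ) := by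
    push_cast
    exact goal_real
  have hfin' : FT * κ * ((2 ^ R * (i + 1) - g' * N.x) * tab T W b i +
      (g' * N.x - 2 ^ R * i) * tab T W b (i + 1)) ≤
      FL * dot L x + h1z + h2z := by exact_mod_cast hfin
  rw [← sub_nonneg] at hfin'
  refine hfin'.trans (le_of_eq ?_)
  push_cast
  ring

/-- the statement with the constant 2 as an item -/
theorem ts_tcG {S : SysL} {x : ℕ → ℤ} {ex et hx FT C g' FL Fx T W TA WA s8 RN St Dt Ht a0 v0 : ℕ}
    {L : List ℤ} {R : ℕ} {κ : ℤ} {τ D : ℝ}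
    (h0L : 0 ≤ N.L) (hτ : 0 ≤ τ) (hdr : D ≤ N.L + max 0 ((N.x : ℝ) - τ))
    (hhx : 0 < hx) (hGG : S.GG = hx * g')
    (hFx : Fx = FT * g') (hcc : FT * (C * g') = 8 * s8 * (Ht * a0 * (St * v0)))
    (hκ : 0 < κ) (h0 : x 0 = κ * 2 ^ R)
    (hX : dot (S.fe ex) x = κ * N.x) (hEt : (Dt : ℝ) * dot (S.fe et) x ≤ St * v0 * κ * τ) (hxR : N.x ≤ 2 * 2 ^ R)
    (hFL : (FL : ℝ) * dot L x = FT * (C * g') * (κ * (N.L + N.x - D)))
    (hT : Nat.log2 T < 24 * W) (hTT : allB (2 * g' + 1) (fun i => Nat.ble (tab T W 0 i) (C * i)) = true)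
    (hTA : tab TA WA 0 0 = a0) (hTA' : tab TA WA 0 1 = v0) :
    (ItemL.ts ex hx L FL Fx FT T W s8 RN [(et, St, Dt, Ht)] TA WA).Sem S x := by
  intro i b hi hb h1 h2
  have hκr : (0 : ℝ) < κ := by exact_mod_cast hκ
  have hFL0 : (0 : ℝ) ≤ FL * dot L x := by
    rw [hFL]
    have h2 : max 0 ((N.x : ℝ) - τ) ≤ N.x :=
      max_le (by positivity) (by linarith)
    have : (0 : ℝ) ≤ N.L + N.x - D := by linarith
    positivity
  have hsn := hsum_nonneg' S x (dot (S.fe ex) x) s8 TA WA b 0 [(et, St, Dt, Ht)]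
  rcases Nat.eq_zero_or_pos b with hb0 | hb0
  swap
  · have hT1 : Nat.log2 T < 24 * (1 * W) := by rwa [one_mul]
    rw [tab_high hT1 hb0, tab_high hT1 hb0]
    have h4 : (0 : ℤ) ≤ FL * dot L x := by exact_mod_cast hFL0
    simp only [Nat.cast_zero, sub_zero, zero_mul, mul_zero, add_zero]
    exact add_nonneg h4 hsn
  subst hb0
  have hx0 : (0 : ℤ) < hx := by exact_mod_cast hhx
  rw [hGG, hX, h0] at h1 h2
  push_cast at h1 h2
  have k1 : (2 : ℤ) ^ R * i ≤ g' * N.x := by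
    apply le_of_mul_le_mul_left _ (mul_pos hx0 hκ)
    linarith
  have k2 : (g' : ℤ) * N.x ≤ 2 ^ R * (i + 1) := by
    apply le_of_mul_le_mul_left _ (mul_pos hx0 hκ)
    linarith
  have k1n : 2 ^ R * i ≤ g' * N.x := by exact_mod_cast k1
  have k2n : g' * N.x ≤ 2 ^ R * (i + 1) := by exact_mod_cast k2
  have hlin := tab_lin (T := T) (W := W) (C := C) (g' := g')
    (fun i' hi' => Nat.le_of_ble_eq_true (allB_spec _ _ hTT i' (by omega))) hxR k1n k2n
  have e11 : Chk.hsum S x (dot (S.fe ex) x) s8 TA WA 0 0 [(et, St, Dt, Ht)] =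
      8 * (s8 * (Ht * a0)) * max 0 ((St * v0 : ℕ) * (κ * N.x) - Dt * dot (S.fe et) x) := by
    unfold Chk.hsum Chk.hsum
    rw [hTA, hTA', hX, add_zero]
  rw [e11, hX, h0, hFx]
  have q2 : (8 * s8 * (Ht * a0 * (St * v0)) * κ : ℝ) * max 0 ((N.x : ℝ) - τ) ≤
      ((8 * (s8 * (Ht * a0)) *
      max 0 ((St * v0 : ℕ) * (κ * N.x) - Dt * dot (S.fe et) x) : ℤ) : ℝ) := by
    have e1 : ((St * v0) * κ : ℝ) * max 0 ((N.x : ℝ) - τ) ≤
        max 0 ((St : ℝ) * v0 * (κ * N.x) - Dt * dot (S.fe et) x) := by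
      rw [mul_max_of_nonneg _ _ (by positivity : (0 : ℝ) ≤ (St * v0) * κ), mul_zero]
      apply max_le_max le_rfl
      have e9 : (St * v0 * κ : ℝ) * (N.x - τ) =
          St * v0 * (κ * N.x) - St * v0 * κ * τ := by ring
      rw [e9]
      linarith
    have e10 := mul_le_mul_of_nonneg_left e1 (by positivity : (0 : ℝ) ≤ 8 * s8 * (Ht * a0))
    push_cast
    calc (8 * s8 * (Ht * a0 * (St * v0)) * κ : ℝ) * max 0 ((N.x : ℝ) - τ)
        = 8 * s8 * (Ht * a0) * ((St * v0) * κ * max 0 ((N.x : ℝ) - τ)) := by ring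
      _ ≤ _ := e10
      _ = _ := by ring
  generalize (8 * (s8 * (Ht * a0)) *
      max 0 ((St * v0 : ℕ) * (κ * (N.x : ℤ)) - Dt * dot (S.fe et) x) : ℤ) = h1z at *
  have goal_real : (FT : ℝ) * κ * (((2 : ℝ) ^ R * (i + 1) - g' * N.x) * tab T W 0 i +
      (g' * N.x - 2 ^ R * i) * tab T W 0 (i + 1)) ≤ FL * dot L x + h1z := by
    have h7 := mul_le_mul_of_nonneg_left hlin (by positivity : (0 : ℝ) ≤ (FT : ℝ) * κ)
    refine h7.trans ?_
    rw [hFL]
    have hccr : (FT : ℝ) * (C * g') = 8 * s8 * (Ht * a0 * (St * v0)) := by exact_mod_cast hcc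
    refine le_trans ?_ (add_le_add_right q2 _)
    have e13 : (FT : ℝ) * κ * (C * g' * N.x) = (FT * (C * g')) * (κ * N.x) := by ring
    rw [e13]
    have e14 : (8 * s8 * (Ht * a0 * (St * v0)) * κ : ℝ) * max 0 ((N.x : ℝ) - τ) =
        (FT * (C * g')) * (κ * max 0 ((N.x : ℝ) - τ)) := by
      rw [hccr]; ring
    rw [e14, ← mul_add, ← mul_add]
    apply mul_le_mul_of_nonneg_left _ (by positivity)
    apply mul_le_mul_of_nonneg_left _ hκr.le
    linarith
  have hfin : ((FT * κ * ((2 ^ R * (i + 1) - g' * N.x) * tab T W 0 i +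
      (g' * N.x - 2 ^ R * i) * tab T W 0 (i + 1)) : ℤ) : ℝ) ≤
      ((FL * dot L x + h1z : ℤ) : ℝ) := by
    push_cast
    exact goal_real
  have hfin' : FT * κ * ((2 ^ R * (i + 1) - g' * N.x) * tab T W 0 i +
      (g' * N.x - 2 ^ R * i) * tab T W 0 (i + 1)) ≤ FL * dot L x + h1z := by exact_mod_cast hfin
  rw [← sub_nonneg] at hfin'
  refine hfin'.trans (le_of_eq ?_)
  push_cast
  ring

/-! ### items in a general unit -/

/-- rows of an octave table for a family, in the unit `2 ^ R` of the root -/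
theorem oct_rowsP {T rc : ℕ} {Pk : ℕ → Prop} (hs : smallOK T rc = true)
    (hT : LBnd α (fun N x v L => ∀ R k, N = R + k → Pk k → 0 ≤ v → 2 ^ R ≤ x → x ≤ 2 * 2 ^ R →
      Rows 28 rc 6 T 129 R x v (gamL R x L)))
    {R j : ℕ} (h : Fam α n w N) (hv0 : 0 ≤ w) (hvx : w ≤ N.x)
    (hn : 1 ≤ n) (hk : R ≤ n + j) (hP : Pk (n + j - R)) (h1 : 2 ^ R ≤ 2 ^ j * N.x) (h2 : 2 ^ j * N.x ≤ 2 * 2 ^ R) :
    Rows 28 rc 6 T 129 R (2 ^ j * N.x) (2 ^ j * w)
      (2 ^ j * (MM R N + (1 - (j : ℤ)) * N.x) - 2 * 2 ^ R) := by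
  rcases Nat.lt_or_ge R j with hj | hj
  · -- one member
    have hx0 : 0 < N.x := by
      rcases Nat.eq_zero_or_pos N.x with h3 | h3
      · rw [h3, Nat.mul_zero] at h1
        exact absurd h1 (by have : 0 < 2 ^ R := by positivity
                            omega)
      · exact h3
    have hx2 : 2 ^ (R + 1) * N.x ≤ 2 ^ (R + 1) := by
      calc 2 ^ (R + 1) * N.x ≤ 2 ^ j * N.x :=
            Nat.mul_le_mul_right _ (Nat.pow_le_pow_right (by norm_num) hj)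
        _ ≤ 2 * 2 ^ R := h2
        _ = 2 ^ (R + 1) := by ring
    have hx1 : N.x = 1 := by
      have h3 : 2 ^ (R + 1) * N.x ≤ 2 ^ (R + 1) * 1 := by rw [Nat.mul_one]; exact hx2
      have := Nat.le_of_mul_le_mul_left h3 (by positivity)
      omega
    have hj2 : 2 ^ j ≤ 2 ^ (R + 1) := by
      rw [hx1, Nat.mul_one] at h2
      calc 2 ^ j ≤ 2 * 2 ^ R := h2
        _ = 2 ^ (R + 1) := by ring
    have hjR : j = R + 1 := by
      have := (Nat.pow_le_pow_iff_right (by norm_num : 1 < 2)).mp hj2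
      omega
    have hL := Fam.single_L h hx1
    have hv : w = 0 := le_antisymm (Fam.single_v h hn hx1) hv0
    have el : 2 ^ j * (MM R N + (1 - (j : ℤ)) * N.x) - 2 * 2 ^ R = 0 := by
      unfold MM QQ
      rw [hL, hx1, hjR, g_one, pow_succ]
      push_cast
      ring
    rw [el, hv, mul_zero]
    intro b i g1 g2
    have hM : (0 : ℤ) < 2 ^ R := by positivity
    have hP : 0 < 2 ^ R := by positivity
    have e128 : 2 ^ 6 * (2 ^ j * N.x) = 2 ^ R * 128 := by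
      rw [hx1, hjR, pow_succ]
      ring
    rw [e128] at g1 g2
    have i1 : i ≤ 128 := Nat.le_of_mul_le_mul_left g1 hP
    have i2 : 128 ≤ i + 1 := Nat.le_of_mul_le_mul_left g2 hP
    have e128z : (2 : ℤ) ^ 6 * ((2 ^ j * N.x : ℕ) : ℤ) = 2 ^ R * 128 := by exact_mod_cast e128
    rw [e128z]
    have hc := smallOK_spec hs b
    have hcz : (tab T 129 b 128 : ℤ) ≤ rc * (2 * b) := by exact_mod_cast hc
    have hm : max (0 : ℤ) (2 ^ R * (2 * b) - 2 ^ 6 * 0) = 2 ^ R * (2 * b) := by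
      rw [mul_zero, sub_zero]
      exact max_eq_right (by positivity)
    rw [hm]
    have hf := mul_le_mul_of_nonneg_left hcz hM.le
    rcases Nat.lt_or_ge i 128 with h3 | h3
    · have hi : i = 127 := by omega
      subst hi
      push_cast
      linarith
    · have hi : i = 128 := by omega
      subst hi
      push_cast
      linarith
  · obtain ⟨R', rfl⟩ : ∃ R', R = R' + j := ⟨R - j, by omega⟩
    have eP : n + j - (R' + j) = n - R' := by omega
    rw [eP] at hP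
    have hj0 : 0 < 2 ^ j := by positivity
    have a1 : 2 ^ R' ≤ N.x := by
      apply Nat.le_of_mul_le_mul_left _ hj0
      calc 2 ^ j * 2 ^ R' = 2 ^ (R' + j) := by ring
        _ ≤ _ := h1
    have a2 : N.x ≤ 2 * 2 ^ R' := by
      apply Nat.le_of_mul_le_mul_left _ hj0
      calc 2 ^ j * N.x ≤ 2 * 2 ^ (R' + j) := h2
        _ = 2 ^ j * (2 * 2 ^ R') := by ring
    have h3 := h.lb hT hvx R' (n - R') (by omega) hP hv0 a1 a2
    have h4 := h3.scale j
    rw [gamL_MM rfl] at h4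
    exact h4

/-- a table for an exact level -/
theorem LBnd.exact {T rc k0 : ℕ}
    (hT : LBnd α (fun N x v L => ∀ R, N = R + k0 → 0 ≤ v → 2 ^ R ≤ x → x ≤ 2 * 2 ^ R →
      Rows 28 rc 6 T 129 R x v (gamL R x L))) :
    LBnd α (fun N x v L => ∀ R k, N = R + k → k = k0 → 0 ≤ v → 2 ^ R ≤ x → x ≤ 2 * 2 ^ R →
      Rows 28 rc 6 T 129 R x v (gamL R x L)) := by
  intro s X hX v hv hvx R k hN hk
  subst hk
  exact hT s X hX v hv hvx R hN

section unit

variable {S : SysL} {x : ℕ → ℤ} {R : ℕ} {κ : ℤ} {v : ℤ}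

/-- an octave item, penalty form -/
theorem octt_k {T rc i c ex eg hx cg FL FU Fx FT cb ga gb : ℕ} {L U : List ℤ}
    {Pk : ℕ → Prop} {mm : ℤ} (hm : 0 < mm) (hκ : κ = mm * 2 ^ c) (hs : smallOK T rc = true)
    (hT : LBnd α (fun N x v L => ∀ R k, N = R + k → Pk k → 0 ≤ v → 2 ^ R ≤ x → x ≤ 2 * 2 ^ R →
      Rows 28 rc 6 T 129 R x v (gamL R x L)))
    (hG : S.GG = 512) (h0 : x 0 = κ * 2 ^ R) (H : At α R n v N) (hi : i ≤ c)
    (hX : dot (S.fe ex) x = κ * N.x) (hg : κ * v ≤ dot (S.fe eg) x)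
    (hk : R ≤ n + i) (hP : Pk (n + i - R)) (ha : ga * 2 ^ i = 512) (hb : gb = 2 * ga) (hhx : hx * (64 * 2 ^ i) = 512)
    (hcg : cg = 2 * hx)
    (hFL : (FL : ℤ) * dot L x = FT * (28 * 64) *
      (κ * (2 ^ i * (MM R N + (1 - (i : ℤ)) * N.x) - 2 * 2 ^ R)))
    (hFU : (FU : ℤ) * dot U x = FT * (rc * (64 * 2 ^ i)) * (κ * v))
    (hFx : Fx = FT * (64 * 2 ^ i)) (hcb : cb = 2 * rc) :
    (ItemL.gate ex ga gb (ItemL.tt ex eg hx cg L U FL FU Fx FT cb T 129)).Sem S x := by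
  have hκ0 : 0 < κ := by rw [hκ]; positivity
  refine gate_row (κ := κ) (R := R) (X := N.x) (j := i) hX h0 hκ0
    (by rw [hG]; norm_num) (by rw [hG]; exact ha) hb ?_
  intro h1 h2
  have e28 : κ = mm * 2 ^ (c - i) * 2 ^ i := by
    rw [hκ, mul_assoc, ← pow_add, Nat.sub_add_cancel hi]
  refine tt_row (g' := 64 * 2 ^ i) (c := 28) (rc := rc) (N := R) (R := R + i) (γ := 6)
    (X := 2 ^ i * N.x) (v := 2 ^ i * v) (κ := mm * 2 ^ (c - i))
    (l := 2 ^ i * (MM R N + (1 - (i : ℤ)) * N.x) - 2 * 2 ^ R) ?_ ?_ hcg ?_ ?_ hFx hcb ?_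
    (by positivity) ?_ ?_ ?_ ?_
  · exact hx_pos hhx
  · rw [hG, hhx]
  · rw [hFL, e28]
    push_cast
    ring
  · rw [hFU, e28]
    push_cast
    ring
  · rw [pow_add]
    ring
  · rw [h0, e28, pow_add]
    ring
  · refine le_trans (le_of_eq ?_) hg
    rw [e28]
    ring
  · rw [hX, e28]
    push_cast
    ring
  · intro b _
    exact oct_rowsP hs hT H.fam H.v0 H.vx H.n1 hk hP h1 h2 b

/-- an octave item, plain form -/
theorem octl_k {T rc i c ex eg hx cg FL Fx FT ga gb : ℕ} {L : List ℤ}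
    {Pk : ℕ → Prop} {mm : ℤ} (hm : 0 < mm) (hκ : κ = mm * 2 ^ c) (hs : smallOK T rc = true)
    (hT : LBnd α (fun N x v L => ∀ R k, N = R + k → Pk k → 0 ≤ v → 2 ^ R ≤ x → x ≤ 2 * 2 ^ R →
      Rows 28 rc 6 T 129 R x v (gamL R x L)))
    (hG : S.GG = 512) (h0 : x 0 = κ * 2 ^ R) (H : At α R n v N) (hi : i ≤ c)
    (hX : dot (S.fe ex) x = κ * N.x) (hg : dot (S.fe eg) x ≤ κ * v)
    (hk : R ≤ n + i) (hP : Pk (n + i - R)) (ha : ga * 2 ^ i = 512) (hb : gb = 2 * ga) (hhx : hx * (64 * 2 ^ i) = 512)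
    (hcg : cg = 2 * hx)
    (hFL : (FL : ℤ) * dot L x = FT * (28 * 64) *
      (κ * (2 ^ i * (MM R N + (1 - (i : ℤ)) * N.x) - 2 * 2 ^ R)))
    (hFx : Fx = FT * (64 * 2 ^ i)) :
    (ItemL.gate ex ga gb (ItemL.tl ex eg hx cg L FL Fx FT T 129)).Sem S x := by
  have hκ0 : 0 < κ := by rw [hκ]; positivity
  refine gate_row (κ := κ) (R := R) (X := N.x) (j := i) hX h0 hκ0
    (by rw [hG]; norm_num) (by rw [hG]; exact ha) hb ?_
  intro h1 h2
  have e28 : κ = mm * 2 ^ (c - i) * 2 ^ i := by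
    rw [hκ, mul_assoc, ← pow_add, Nat.sub_add_cancel hi]
  refine tl_row (g' := 64 * 2 ^ i) (c := 28) (rc := rc) (N := R) (R := R + i) (γ := 6)
    (X := 2 ^ i * N.x) (v := 2 ^ i * v) (κ := mm * 2 ^ (c - i))
    (l := 2 ^ i * (MM R N + (1 - (i : ℤ)) * N.x) - 2 * 2 ^ R) ?_ ?_ hcg ?_ hFx ?_
    (by positivity) ?_ ?_ ?_ ?_
  · exact hx_pos hhx
  · rw [hG, hhx]
  · rw [hFL, e28]
    push_cast
    ring
  · rw [pow_add]
    ring
  · rw [h0, e28, pow_add]
    ring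
  · refine hg.trans (le_of_eq ?_)
    rw [e28]
    ring
  · rw [hX, e28]
    push_cast
    ring
  · intro b _
    exact oct_rowsP hs hT H.fam H.v0 H.vx H.n1 hk hP h1 h2 b

/-- the table of `2 g`, upper bound -/
theorem gU_k {ex eg FL Fx FT X : ℕ} {L : List ℤ} (hκ : 0 < κ) (hG : S.GG = 512)
    (h0 : x 0 = κ * 2 ^ R)
    (hX : dot (S.fe ex) x = κ * (X : ℤ)) (hXR : X ≤ 2 * 2 ^ R)
    (hFL : (FL : ℤ) * dot L x = FT * 512 * (κ * QQ R X)) (hFx : Fx = FT * 512) :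
    (ItemL.tl ex eg 1 2 L FL Fx FT TSgU9 1025).Sem S x := by
  refine tl_row (g' := 512) (c := 1) (rc := 1) (N := R) (R := R) (γ := 9) (X := X)
    (v := max 0 (dot (S.fe eg) x)) (κ := κ) (l := QQ R X) (by norm_num) (by rw [hG]) (by norm_num)
    ?_ hFx (by norm_num) hκ h0 ?_ hX ?_
  · rw [hFL]
    push_cast
    ring
  · have h1 := le_max_left 0 (dot (S.fe eg) x)
    have h2 := le_max_right 0 (dot (S.fe eg) x)
    have h3 : (1 : ℤ) ≤ κ := hκ
    nlinarith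
  · intro b _
    exact rows_of_row0 (rc := 1) TSgU9_lt (TSgU9_row hXR) b

/-- the table of `x log x`, upper bound; `Sc y = κ Y` -/
theorem sU_k {ex eg FL Fx FT X c : ℕ} {y mm : ℤ} {L : List ℤ} (hm : 0 < mm) (hκ : κ = mm * 2 ^ c) (hc : 24 ≤ c)
    (hG : S.GG = 512) (h0 : x 0 = κ * 2 ^ R)
    (hX : dot (S.fe ex) x = κ * (X : ℤ)) (hXR : X ≤ 2 * 2 ^ R) (hy : 2 ^ 24 * y = κ * YY R X)
    (hFL : (FL : ℤ) * dot L x = FT * 512 * (7 * y))
    (hFx : Fx = FT * 512) :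
    (ItemL.tl ex eg 1 2 L FL Fx FT TSsU9 1025).Sem S x := by
  have e24 : κ = 2 ^ 24 * (mm * 2 ^ (c - 24)) := by
    rw [hκ]
    have h1 : (2 : ℤ) ^ c = 2 ^ 24 * 2 ^ (c - 24) := by rw [← pow_add, Nat.add_sub_cancel' hc]
    rw [h1]
    ring
  have hmp : (0 : ℤ) < mm * 2 ^ (c - 24) := mul_pos hm (by positivity)
  have hy' : y = mm * 2 ^ (c - 24) * YY R X := by
    rw [e24, mul_assoc] at hy
    exact mul_left_cancel₀ (by norm_num) hy
  refine tl_row (g' := 512) (c := 1) (rc := 1) (N := R + 24) (R := R + 24) (γ := 9) (X := 2 ^ 24 * X)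
    (v := max 0 (dot (S.fe eg) x)) (κ := mm * 2 ^ (c - 24)) (l := 7 * YY R X) (by norm_num)
    (by rw [hG]) (by norm_num)
    ?_ hFx (by norm_num) (by positivity) ?_ ?_ ?_ ?_
  · rw [hFL, hy']
    push_cast
    ring
  · rw [h0, e24, pow_add]
    ring
  · have h1 := le_max_left 0 (dot (S.fe eg) x)
    have h2 := le_max_right 0 (dot (S.fe eg) x)
    have h3 : (1 : ℤ) ≤ mm * 2 ^ (c - 24) := hmp
    nlinarith
  · rw [hX, e24]
    push_cast
    ring
  · intro b _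
    have e : (7 : ℤ) * YY R X = (7 : ℕ) * (2 ^ 24 * ((R + 1) * X) - lam (2 ^ 24) X) := by
      unfold YY Sc
      push_cast
      norm_num
    rw [e]
    exact rows_of_row0 (rc := 1) TSsU9_lt (TSsU9_row 24 hXR) b

/-- the table of `x log x`, lower bound -/
theorem sL_k {ex eg FL Fx FT X c : ℕ} {y mm : ℤ} {L : List ℤ} (hm : 0 < mm) (hκ : κ = mm * 2 ^ c) (hc : 24 ≤ c)
    (hG : S.GG = 512) (h0 : x 0 = κ * 2 ^ R)
    (hX : dot (S.fe ex) x = κ * (X : ℤ)) (hXR : X ≤ 2 * 2 ^ R) (hy : 2 ^ 24 * y = κ * YY R X)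
    (hFL : (FL : ℤ) * dot L x = FT * 512 * (8 * (κ * 2 ^ R) - 7 * y))
    (hFx : Fx = FT * 512) :
    (ItemL.tl ex eg 1 2 L FL Fx FT TSsL9 1025).Sem S x := by
  have e24 : κ = 2 ^ 24 * (mm * 2 ^ (c - 24)) := by
    rw [hκ]
    have h1 : (2 : ℤ) ^ c = 2 ^ 24 * 2 ^ (c - 24) := by rw [← pow_add, Nat.add_sub_cancel' hc]
    rw [h1]
    ring
  have hmp : (0 : ℤ) < mm * 2 ^ (c - 24) := mul_pos hm (by positivity)
  have hy' : y = mm * 2 ^ (c - 24) * YY R X := by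
    rw [e24, mul_assoc] at hy
    exact mul_left_cancel₀ (by norm_num) hy
  refine tl_row (g' := 512) (c := 1) (rc := 1) (N := R + 24) (R := R + 24) (γ := 9) (X := 2 ^ 24 * X)
    (v := max 0 (dot (S.fe eg) x)) (κ := mm * 2 ^ (c - 24)) (l := 8 * 2 ^ (R + 24) - 7 * YY R X)
    (by norm_num) (by rw [hG]) (by norm_num)
    ?_ hFx (by norm_num) (by positivity) ?_ ?_ ?_ ?_
  · rw [hFL, hy', e24]
    push_cast
    ring
  · rw [h0, e24, pow_add]
    ring
  · have h1 := le_max_left 0 (dot (S.fe eg) x)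
    have h2 := le_max_right 0 (dot (S.fe eg) x)
    have h3 : (1 : ℤ) ≤ mm * 2 ^ (c - 24) := hmp
    nlinarith
  · rw [hX, e24]
    push_cast
    ring
  · intro b _
    have e : (8 : ℤ) * 2 ^ (R + 24) - 7 * YY R X =
        (8 : ℕ) * 2 ^ (R + 24) - (7 : ℕ) * (2 ^ 24 * ((R + 1) * X) - lam (2 ^ 24) X) := by
      unfold YY Sc
      push_cast
      norm_num
    rw [e]
    exact rows_of_row0 (rc := 1) TSsL9_lt (TSsL9_row (e := 24) (by norm_num) hXR) b

/-- the average over all directions -/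
theorem mc_k {e1 e2 J i V t : ℕ} {Z : List ℤ} {κ' e d : ℤ} (hf : Fam α n v N) (hκ : 0 < κ)
    (h0 : x 0 = κ * 2 ^ R) (hX : dot (S.fe e1) x = κ * N.x)
    (hV : 2 ^ n = V * 2 ^ R) (he0 : 0 ≤ e) (he : κ' * (2 ^ J * 2 ^ n - t) ≤ e)
    (hE : dot (S.fe e2) x = e) (hZ : dot Z x = V * 2 ^ i * d)
    (hd : 2 * 2 ^ i * d = κ' * N.d J t) (hκ' : 0 < κ') :
    (ItemL.mc e1 e2 Z).Sem S x := by
  show x 0 * dot Z x ≤ dot (S.fe e1) x * dot (S.fe e2) x
  rw [h0, hX, hE, hZ]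
  have hVz : (2 : ℤ) ^ n = V * 2 ^ R := by exact_mod_cast hV
  have key : (2 : ℤ) ^ n * (2 ^ i * d) ≤ N.x * e := by
    rcases Nat.lt_or_ge (2 ^ J * 2 ^ n) t with h | h
    · have h1 := hf.cube J h.le
      have h2 : 2 * 2 ^ i * d ≤ 0 := by
        rw [hd]
        exact mul_nonpos_of_nonneg_of_nonpos hκ'.le h1
      have h3 : (2 : ℤ) ^ i * d ≤ 0 := by linarith
      have h4 : (2 : ℤ) ^ n * (2 ^ i * d) ≤ 0 :=
        mul_nonpos_of_nonneg_of_nonpos (by positivity) h3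
      have h5 : (0 : ℤ) ≤ N.x * e := by positivity
      linarith
    · have h1 := hf.avg J h
      have h2 := mul_le_mul_of_nonneg_left h1 hκ'.le
      have h3 : κ' * (2 ^ n * (N.d J t : ℤ)) = 2 ^ n * (2 * 2 ^ i * d) := by
        rw [hd]; ring
      rw [h3] at h2
      have h4 := mul_le_mul_of_nonneg_left he (by positivity : (0 : ℤ) ≤ N.x)
      nlinarith
  have h6 := mul_le_mul_of_nonneg_left key hκ.le
  calc κ * 2 ^ R * (V * 2 ^ i * d) = κ * (2 ^ n * (2 ^ i * d)) := by rw [hVz]; ring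
    _ ≤ κ * (N.x * e) := h6
    _ = κ * N.x * e := by ring

/-- the item for the statement with the constant 2 -/
theorem tsc_k {ex et T TA St Dt Ht J t : ℕ} {a0 v0 : ℕ} {dv : ℤ} {L : List ℤ}
    (hκ : 0 < κ) (hG : S.GG = 512) (h0 : x 0 = κ * 2 ^ R) (H : Fam α n v N)
    (Tc : ∀ (s : Finset α) (X : Finset (Finset α)), s.card = n → Sub s X → TC 2 s X)
    (hX : dot (S.fe ex) x = κ * N.x)
    (hEt : (Dt : ℤ) * 2 ^ J * dot (S.fe et) x ≤ St * v0 * κ * t)
    (hxR : N.x ≤ 2 * 2 ^ R) (hHS : Ht * a0 * (St * v0) = 320)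
    (hdv : 2 * 2 ^ J * dv = κ * N.d J t)
    (hL : dot L x = κ * MM R N - κ * QQ R N.x + κ * N.x - dv)
    (hT : Nat.log2 T < 24 * 33)
    (hTT : allB (2 * 16 + 1) (fun i => Nat.ble (tab T 33 0 i) (80 * i)) = true)
    (hTA : tab TA 2 0 0 = a0) (hTA' : tab TA 2 0 1 = v0) :
    (ItemL.ts ex 32 L 20480 256 16 T 33 8 64 [(et, St, Dt, Ht)] TA 2).Sem S x := by
  have hJ : (0 : ℝ) < 2 ^ J := by positivity
  have hκr : (0 : ℝ) < κ := by exact_mod_cast hκ
  refine ts_tcG (C := 80) (g' := 16) (R := R) (τ := t / 2 ^ J) (D := N.d J t / (2 * 2 ^ J))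
    (a0 := a0) (v0 := v0) H.L0 (by positivity) ?_ (by norm_num)
    (by rw [hG]) (by norm_num) ?_ hκ h0 hX ?_ hxR ?_ hT hTT hTA hTA'
  · have h1' := H.tc Tc J t
    have h1r : (N.d J t : ℝ) ≤ 2 ^ J * (2 * N.L) + 2 * max 0 (2 ^ J * (N.x : ℝ) - t) := by
      exact_mod_cast h1'
    rw [div_le_iff₀ (by positivity)]
    have e1 : max 0 (2 ^ J * (N.x : ℝ) - t) = 2 ^ J * max 0 ((N.x : ℝ) - t / 2 ^ J) := by
      rw [mul_max_of_nonneg _ _ hJ.le, mul_zero]
      congr 1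
      field_simp
    rw [e1] at h1r
    linarith
  · have : 16 * (80 * 16) = 8 * 8 * (Ht * a0 * (St * v0)) := by rw [hHS]
    exact this
  · have h1 : ((Dt : ℝ) * 2 ^ J) * dot (S.fe et) x ≤ St * v0 * κ * t := by exact_mod_cast hEt
    have h2 : (St : ℝ) * v0 * κ * (t / 2 ^ J) = (St * v0 * κ * t) / 2 ^ J := by ring
    rw [h2, le_div_iff₀ hJ]
    linarith
  · rw [hL]
    have hM : (MM R N : ℝ) = N.L + QQ R N.x := by
      unfold MM
      push_cast
      ring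
    have h3 : (2 * 2 ^ J * dv : ℝ) = κ * N.d J t := by exact_mod_cast hdv
    push_cast
    rw [hM]
    have e : (κ : ℝ) * ((N.d J t : ℝ) / (2 * 2 ^ J)) = dv := by
      field_simp
      linarith
    linear_combination 20480 * e

/-- the general facet item -/
theorem ts_k {ex et eg T TA WA St Dt Ht mt m s FL Fx FT c0 e ah δ j0 : ℕ} {L : List ℤ}
    {shapes : List Shp} {τ D : ℝ} {yv dz : ℤ}
    (hκ : 0 < κ) (hG : S.GG = 512) (h0 : x 0 = κ * 2 ^ R) (H : Fam α n v N)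
    (hX : dot (S.fe ex) x = κ * N.x)
    (hEt : (Dt : ℝ) * dot (S.fe et) x ≤ 8 * St * κ * τ)
    (hg : dot (S.fe eg) x = κ * v)
    (hxR : 2 ^ j0 * N.x ≤ 2 * 2 ^ R)
    (hn : n = R + δ) (hg8 : ∀ s ∈ shapes, 2 ^ s.kl ∣ 2 * 16) (hs : s * FL = 128 * c0)
    (hFT : 10 * FT = c0) (hFx : Fx = FT * 16) (hc0 : 0 < c0)
    (hy : 2 ^ 24 * yv = κ * YY R N.x) (hdz : (dz : ℝ) = c0 * (κ * D))
    (hL : 2 * c0 * dot L x = s * (2 * e * (κ * MM R N - yv) + 2 * c0 * (κ * N.x) +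
      ah * (κ * N.x - κ * v) - 2 * dz))
    (hrow : ∀ s ∈ shapes, ∀ k, 1 ≤ k → s.k0 ≤ k → k ≤ s.kl → ∀ p ∈ s.B k,
      Cond (condP k p) (2 ^ n) N.x →
      D ≤ s.e / s.c * (N.E / Sc) + ((p.2.2.1 : ℝ) / 32 * 2 ^ n + p.2.2.2 * N.x + s.ah * (N.x - v) +
        hinR s.hs N.x v) / (2 * s.c) + tR s.th N.x τ / s.c)
    (hpos : 0 ≤ ellG c0 e ah N v D)
    (hT : Nat.log2 T < 24 * (shapes.length * 33))
    (htab : allShp c0 e ah (4 * (Ht * St)) mt m 16 80 δ j0 T 33 TA WA shapes 0 = true) :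
    (ItemL.ts ex 32 L FL Fx FT T 33 8 64
      (List.replicate mt (et, St, Dt, Ht) ++ List.replicate m (eg, 1, 16, 1)) TA WA).Sem S x := by
  have hκr : (0 : ℝ) < κ := by exact_mod_cast hκ
  have key : (dot L x : ℝ) = s * (κ * ellG c0 e ah N v D) := by
    have h1 : ((2 * c0 * dot L x : ℤ) : ℝ) = ((s * (2 * e * (κ * MM R N - yv) +
      2 * c0 * (κ * N.x) + ah * (κ * N.x - κ * v) - 2 * dz) : ℤ) :
        ℝ) := by exact_mod_cast hL
    push_cast at h1
    rw [hdz] at h1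
    have hS : (Sc : ℝ) ≠ 0 := by
      have := Sc_pos
      exact_mod_cast this.ne'
    have e2 : (N.E : ℝ) / Sc = MM R N - YY R N.x / Sc := by
      rw [H.E_MY R]
      push_cast
      field_simp
    have e3 : (κ : ℝ) * (YY R N.x / Sc) = yv := by
      have h3 : ((2 : ℝ) ^ 24 * yv) = κ * YY R N.x := by exact_mod_cast hy
      have h4 : (Sc : ℝ) = 2 ^ 24 := by unfold Sc; push_cast; norm_num
      rw [h4]
      field_simp
      linarith
    unfold ellG
    rw [e2]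
    have e4 : (κ : ℝ) * ((e : ℝ) / c0 * (MM R N - YY R N.x / Sc) + N.x +
        ah * (N.x - v) / (2 * c0) - D) =
        (e : ℝ) / c0 * (κ * MM R N - κ * (YY R N.x / Sc)) + κ * N.x +
        ah * (κ * N.x - κ * v) / (2 * c0) - κ * D := by
      field_simp
    rw [e4, e3]
    have hcr : (0 : ℝ) < c0 := by exact_mod_cast hc0
    have h5 : (2 * (c0 : ℝ)) * dot L x = (2 * c0) * (s * ((e : ℝ) / c0 * (κ * MM R N - yv) +
        κ * N.x + ah * (κ * N.x - κ * v) / (2 * c0) - κ * D)) := by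
      rw [h1]
      field_simp
    exact mul_left_cancel₀ (by positivity) h5
  refine ts_facetsG (C := 80) (g' := 16) (c0 := c0) (e := e) (ah := ah) (mt := mt) (m := m) (R := R)
    (κ := κ) (δ := δ) (j0 := j0) (shapes := shapes) (τ := τ) (D := D) H.cap hn (by norm_num)
    (by rw [hG]) hg8 (by norm_num) hFx (by rw [← hFT]; ring) hc0
    hκ h0 hX hEt hg.le hxR hrow ?_ ?_ hT htab
  · have h2 : (0 : ℝ) ≤ dot L x := by
      rw [key]
      positivity
    exact_mod_cast h2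
  · rw [key]
    have hsr : (s : ℝ) * FL = 128 * c0 := by exact_mod_cast hs
    have hFr : (10 : ℝ) * FT = c0 := by exact_mod_cast hFT
    have e5 : (FL : ℝ) * (s * (κ * ellG c0 e ah N v D)) =
        (s * FL) * (κ * ellG c0 e ah N v D) := by ring
    rw [e5, hsr, ← hFr]
    push_cast
    ring

/-- a check for a group of shapes -/
def okG (l : List Shp) : Bool := l.all fun s => Nat.blt 0 s.c && Nat.beq (32 % 2 ^ s.kl) 0

theorem okG_c {l : List Shp} (h : okG l = true) : ∀ s ∈ l, 0 < s.c := by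
  intro s hs
  have h1 := List.all_eq_true.mp h s hs
  rw [Bool.and_eq_true] at h1
  exact Nat.le_of_ble_eq_true h1.1

theorem okG_8 {l : List Shp} (h : okG l = true) : ∀ s ∈ l, 2 ^ s.kl ∣ 2 * 16 := by
  intro s hs
  have h1 := List.all_eq_true.mp h s hs
  rw [Bool.and_eq_true] at h1
  exact Nat.dvd_of_mod_eq_zero (Nat.eq_of_beq_eq_true h1.2)

/-- the facet item -/
theorem tsf_k {ex et eg T TA WA St Dt Ht mt m J t s FL Fx FT c0 e ah δ j0 : ℕ} {L : List ℤ}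
    {shapes : List Shp} {yv dv : ℤ}
    (hκ : 0 < κ) (hG : S.GG = 512) (h0 : x 0 = κ * 2 ^ R) (H : Fam α n v N) (hvx : v ≤ N.x)
    (Tc : ∀ (s : Finset α) (X : Finset (Finset α)), s.card = n → Sub s X → TC 2 s X)
    (hX : dot (S.fe ex) x = κ * N.x)
    (hEt : (Dt : ℤ) * 2 ^ J * dot (S.fe et) x ≤ 8 * St * κ * t)
    (hg : dot (S.fe eg) x = κ * v)
    (hxR : 2 ^ j0 * N.x ≤ 2 * 2 ^ R) (hn : n = R + δ) (he : c0 ≤ e) (hs : s * FL = 128 * c0)
    (hFT : 10 * FT = c0) (hFx : Fx = FT * 16) (hc0 : 0 < c0)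
    (hy : 2 ^ 24 * yv = κ * YY R N.x) (hdv : 2 * 2 ^ J * dv = κ * N.d J t)
    (hL : 2 * c0 * dot L x = s * (2 * e * (κ * MM R N - yv) + 2 * c0 * (κ * N.x) +
      ah * (κ * N.x - κ * v) - 2 * c0 * dv))
    (hrow : ∀ s ∈ shapes, s.HoldAll n v N) (hok : okG shapes = true)
    (hT : Nat.log2 T < 24 * (shapes.length * 33))
    (htab : allShp c0 e ah (4 * (Ht * St)) mt m 16 80 δ j0 T 33 TA WA shapes 0 = true) :
    (ItemL.ts ex 32 L FL Fx FT T 33 8 64
      (List.replicate mt (et, St, Dt, Ht) ++ List.replicate m (eg, 1, 16, 1)) TA WA).Sem S x := by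
  have hJ : (0 : ℝ) < 2 ^ J := by positivity
  refine ts_k (R := R) (κ := κ) (τ := t / 2 ^ J) (D := N.d J t / (2 * 2 ^ J)) (yv := yv)
    (dz := c0 * dv) (δ := δ) (c0 := c0) hκ hG h0 H hX ?_ hg hxR hn (okG_8 hok) hs hFT hFx hc0 hy ?_ ?_ ?_
    ?_ hT htab
  · have h1 : ((Dt : ℝ) * 2 ^ J) * dot (S.fe et) x ≤ 8 * St * κ * t := by exact_mod_cast hEt
    have h2 : (8 : ℝ) * St * κ * (t / 2 ^ J) = (8 * St * κ * t) / 2 ^ J := by ring
    rw [h2, le_div_iff₀ hJ]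
    linarith
  · have h3 : (2 * 2 ^ J * dv : ℝ) = κ * N.d J t := by exact_mod_cast hdv
    have e : (κ : ℝ) * ((N.d J t : ℝ) / (2 * 2 ^ J)) = dv := by
      field_simp
      linarith
    rw [e]
    push_cast
    ring
  · rw [hL]
    ring
  · intro s hs k l1 l2 l3 p hp l4
    exact Shp.real hvx (hrow s hs k l1 l2 l3 p hp) l4 (okG_c hok s hs) J t
  · exact ellF_nonneg hc0 he hvx H Tc J t

end unit

end Pool.Agent.EdgeIso.Chk
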