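import Pool.Agent.Lib.MP_48c8f3_co.Bas
import Pool.Agent.Lib.MP_48c8f3_co.KNs
import Pool.Agent.Lib.MP_48c8f3_co.KNf
import Pool.Agent.Lib.MP_48c8f3_co.KNr

set_option autoImplicit false
set_option linter.unusedSectionVars false

/-!
MP_48c8f3_co: facts for the step of the smooth inequality, multiplied by `2 ^ j`.
-/

namespace Pool.Agent.EdgeIso.Chk

open Finset Pool.Agent.EdgeIso.Frame Pool.Agent.EdgeIso.Cell Pool.Agent.EdgeIso.Walsh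
  Pool.Agent.EdgeIso.Smooth

variable {α : Type*} [DecidableEq α] {rows : List SRow} {er : List ERow} {r : SRow}
  {τ0 τ1 n R k : ℕ} {F : Frame.Num} {j t : ℕ}

/-- the linear facts of a configuration -/
structure SIZ (C : SIC α rows er r τ0 τ1 n R k F j t) : Prop where
  U1 : (1 : ℤ) ≤ 2 ^ j * 2 ^ R
  lo : (2 : ℤ) ^ j * 2 ^ R ≤ 2 ^ j * (F.x : ℤ)
  hi : (2 : ℤ) ^ j * (F.x : ℤ) ≤ 2 * (2 ^ j * 2 ^ R)
  ex : (2 : ℤ) ^ j * (F.x : ℤ) = 2 ^ j * (C.K.x : ℤ) + 2 ^ j * (C.W.x : ℤ)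
  eK : (2 : ℤ) ^ j * (C.K.x : ℤ) = 2 ^ j * (C.P.x : ℤ) + 2 ^ j * (C.A.x : ℤ)
  eW : (2 : ℤ) ^ j * (C.W.x : ℤ) = 2 ^ j * (C.W1.x : ℤ) + 2 ^ j * (C.W2.x : ℤ)
  le1 : (2 : ℤ) ^ j * (C.W.x : ℤ) ≤ 2 ^ j * (C.K.x : ℤ)
  le2 : (2 : ℤ) ^ j * (C.A.x : ℤ) ≤ 2 ^ j * (C.P.x : ℤ)
  le3 : (2 : ℤ) ^ j * (C.W2.x : ℤ) ≤ 2 ^ j * (C.W1.x : ℤ)
  f1 : (2 : ℤ) ^ j * (C.f : ℤ) ≤ 2 ^ j * (C.W.x : ℤ)
  f2 : (2 : ℤ) ^ j * (C.fK : ℤ) ≤ 2 ^ j * (C.A.x : ℤ)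
  f3 : (2 : ℤ) ^ j * (C.fW : ℤ) ≤ 2 ^ j * (C.W2.x : ℤ)
  h1 : (2 : ℤ) ^ j * (C.W.x : ℤ) ≤ 2 * (2 ^ j * (C.A.x : ℤ)) + 2 ^ j * (C.f : ℤ)
  h2 : 2 * ((2 : ℤ) ^ j * (C.W.x : ℤ)) ≤ 2 ^ j * (C.K.x : ℤ) + 2 * (2 ^ j * (C.W2.x : ℤ)) +
    2 ^ j * (C.f : ℤ)
  q0 : (0 : ℤ) ≤ 2 ^ j * (C.W.x : ℤ)
  p0 : (0 : ℤ) ≤ 2 ^ j * (C.K.x : ℤ)
  P0 : (0 : ℤ) ≤ 2 ^ j * (C.P.x : ℤ)
  a0 : (0 : ℤ) ≤ 2 ^ j * (C.A.x : ℤ)
  W10 : (0 : ℤ) ≤ 2 ^ j * (C.W1.x : ℤ)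
  b0 : (0 : ℤ) ≤ 2 ^ j * (C.W2.x : ℤ)
  f0 : (0 : ℤ) ≤ 2 ^ j * (C.f : ℤ)
  fK0 : (0 : ℤ) ≤ 2 ^ j * (C.fK : ℤ)
  fW0 : (0 : ℤ) ≤ 2 ^ j * (C.fW : ℤ)
  tl : (τ0 : ℤ) * (2 ^ j * (F.x : ℤ)) ≤ 8 * (t : ℤ)
  tu : 8 * (t : ℤ) ≤ τ1 * (2 ^ j * (F.x : ℤ))
  t0 : (0 : ℤ) ≤ (t : ℤ)

theorem mul2 {a b : ℤ} (j : ℕ) (h : a ≤ b) : (2 : ℤ) ^ j * a ≤ 2 ^ j * b :=
  mul_le_mul_of_nonneg_left h (by positivity)

theorem siz (C : SIC α rows er r τ0 τ1 n R k F j t) : SIZ C where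
  U1 := by
    have : (0 : ℤ) < 2 ^ j * 2 ^ R := by positivity
    linarith
  lo := mul2 j (by exact_mod_cast C.lo)
  hi := by
    have := mul2 j (show (F.x : ℤ) ≤ 2 * 2 ^ R by exact_mod_cast C.hi)
    linarith
  ex := by
    have h : (C.K.x : ℤ) + C.W.x = F.x := by exact_mod_cast C.mF.sz
    rw [← h]; ring
  eK := by
    have h : (C.P.x : ℤ) + C.A.x = C.K.x := by exact_mod_cast C.mK.sz
    rw [← h]; ring
  eW := by
    have h : (C.W1.x : ℤ) + C.W2.x = C.W.x := by exact_mod_cast C.mW.sz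
    rw [← h]; ring
  le1 := mul2 j (by exact_mod_cast C.mF.le)
  le2 := mul2 j (by exact_mod_cast C.mK.le)
  le3 := mul2 j (by exact_mod_cast C.mW.le)
  f1 := mul2 j (by exact_mod_cast C.mF.fle)
  f2 := mul2 j (by exact_mod_cast C.mK.fle)
  f3 := mul2 j (by exact_mod_cast C.mW.fle)
  h1 := by
    have := mul2 j C.h1
    linarith
  h2 := by
    have := mul2 j C.h2
    linarith
  q0 := by positivity
  p0 := by positivity
  P0 := by positivity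
  a0 := by positivity
  W10 := by positivity
  b0 := by positivity
  f0 := by positivity
  fK0 := by positivity
  fW0 := by positivity
  tl := by
    have h : ((2 ^ j * (τ0 * F.x) : ℕ) : ℤ) ≤ ((8 * t : ℕ) : ℤ) := by exact_mod_cast C.tlo
    push_cast at h
    linarith
  tu := by
    have h : ((8 * t : ℕ) : ℤ) ≤ ((2 ^ j * (τ1 * F.x) : ℕ) : ℤ) := by exact_mod_cast C.thi
    push_cast at h
    linarith
  t0 := by positivity

/-- the volume of the cube -/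
theorem capZ {N : ℕ} {K W G : Frame.Num} {f : ℕ} (h : Mv N G K W f) {m : ℕ} (hm : N = R + m) :
    (2 : ℤ) ^ j * (K.x : ℤ) + 2 ^ j * (f : ℤ) ≤ 2 ^ m * (2 ^ j * 2 ^ R) := by
  have h1 : ((K.x + f : ℕ) : ℤ) ≤ ((2 ^ N : ℕ) : ℤ) := by exact_mod_cast h.cap
  rw [hm, pow_add] at h1
  push_cast at h1
  have h2 := mul2 j h1
  linarith

/-! ### distances -/

section dist

variable {N : ℕ} {G K W : Frame.Num} {f : ℕ} (h : Mv N G K W f)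

include h

theorem d1Z (i : ℕ) : (G.d (j + i) t : ℤ) ≤ K.d (j + i) t + 2 * (2 ^ i * (2 ^ j * (W.x : ℤ))) := by
  have := h.delK (j + i) t
  rw [pow_add] at this
  linarith

theorem d2Z (i : ℕ) : (G.d (j + i) t : ℤ) ≤ W.d (j + i) t + 2 * (2 ^ i * (2 ^ j * (K.x : ℤ))) := by
  have := h.delW (j + i) t
  rw [pow_add] at this
  linarith

theorem d3Z (i : ℕ) : (G.d (j + i) t : ℤ) ≤ K.d (j + (i + 1)) t +
    2 * (2 ^ i * (2 ^ j * (f : ℤ))) := by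
  have := h.prK (j + i) t
  rw [pow_add] at this
  have e : j + i + 1 = j + (i + 1) := by ring
  rw [e] at this
  linarith

theorem d4Z (i : ℕ) : (G.d (j + i) t : ℤ) ≤ W.d (j + (i + 1)) t +
    2 * (2 ^ i * (2 ^ j * (K.x : ℤ) - 2 ^ j * (W.x : ℤ) + 2 ^ j * (f : ℤ))) := by
  have := h.prW (j + i) t
  rw [pow_add] at this
  have e : j + i + 1 = j + (i + 1) := by ring
  rw [e] at this
  linarith

/-- the relation between the numbers of edges -/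
theorem MlZ (R : ℕ) : (2 : ℤ) ^ j * MM R K + 2 ^ j * MM R W - 2 * (2 ^ j * (W.x : ℤ)) +
    2 * (2 ^ j * (f : ℤ)) ≤ 2 ^ j * MM R G := by
  have := mul2 j (h.M_le R)
  linarith

end dist

section fam

variable {N : ℕ} {v : ℤ} {G : Frame.Num} (h : Fam α N v G)

include h

theorem trivZ (i : ℕ) : (G.d (j + i) t : ℤ) ≤ 2 * (2 ^ i * (2 ^ j * (G.x : ℤ))) := by
  have := h.triv (j + i) t
  rw [pow_add] at this
  linarith

theorem L0Z (R : ℕ) : (2 : ℤ) ^ j * QQ R G.x ≤ 2 ^ j * MM R G := by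
  have := mul2 j h.L0
  rw [MM_eq]
  linarith

theorem EMZ (R : ℕ) : (2 : ℤ) ^ j * G.E = 2 ^ 24 * (2 ^ j * MM R G) - 2 ^ j * YY R G.x := by
  rw [h.E_MY R]
  unfold Sc
  push_cast
  ring

end fam

theorem YYZ (j R x : ℕ) : (2 : ℤ) ^ j * YY R x ≤ 2 ^ 24 * (2 ^ j * QQ R x) := by
  have := mul2 j (YY_le' R x)
  linarith

theorem QQZ (j : ℕ) {R x : ℕ} (hx : x ≤ 2 * 2 ^ R) : 3 * ((2 : ℤ) ^ j * QQ R x) ≤ 5 * (2 ^ j * 2 ^ R) := by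
  have := mul2 j (QQ_le hx)
  linarith

/-! ### the families with their guards -/

section at_

variable (C : SIC α rows er r τ0 τ1 n R k F j t)

include C

theorem z_xs : F.x ≤ 2 * 2 ^ R := C.hi

theorem z_xsK : C.K.x ≤ 2 * 2 ^ R := by
  have := C.mF.sz
  have := C.hi
  omega

theorem z_xsW : C.W.x ≤ 2 * 2 ^ R := by
  have := C.mF.sz
  have := C.hi
  omega

theorem z_xsP : C.P.x ≤ 2 * 2 ^ R := by
  have := C.mF.sz
  have := C.mK.sz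
  have := C.hi
  omega

theorem z_xsA : C.A.x ≤ 2 * 2 ^ R := by
  have := C.mF.sz
  have := C.mK.sz
  have := C.hi
  omega

theorem z_xsW1 : C.W1.x ≤ 2 * 2 ^ R := by
  have := C.mF.sz
  have := C.mW.sz
  have := C.hi
  omega

theorem z_xsW2 : C.W2.x ≤ 2 * 2 ^ R := by
  have := C.mF.sz
  have := C.mW.sz
  have := C.hi
  omega

theorem z_atF : At α R (n + 2) (2 * (C.W.x : ℤ)) F where
  fam := C.fF
  v0 := by positivity
  vx := by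
    have h1 := C.mF.sz
    have h2 := C.mF.le
    omega
  n1 := by omega

theorem z_atK : At α R (n + 1) (2 * (C.A.x : ℤ)) C.K where
  fam := C.kK'
  v0 := by positivity
  vx := by
    have h1 := C.mK.sz
    have h2 := C.mK.le
    omega
  n1 := by omega

theorem z_atW : At α R (n + 1) (2 * (C.W2.x : ℤ)) C.W where
  fam := C.kW'
  v0 := by positivity
  vx := by
    have h1 := C.mW.sz
    have h2 := C.mW.le
    omega
  n1 := by omega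

theorem z_atP (hn : 1 ≤ n) : At α R n ((C.A.x : ℤ) - C.fK) C.P where
  fam := C.kP
  v0 := by
    have h1 := C.mK.fle
    omega
  vx := by
    have h1 := C.mK.le
    omega
  n1 := hn

theorem z_atW1 (hn : 1 ≤ n) : At α R n ((C.W2.x : ℤ) - C.fW) C.W1 where
  fam := C.kW1
  v0 := by
    have h1 := C.mW.fle
    omega
  vx := by
    have h1 := C.mW.le
    omega
  n1 := hn

theorem z_row {l : List Shp} {N : ℕ} {v : ℤ} {G : Frame.Num} (hrows : rows = rowsOf l)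
    (hN : N < n + 2) (h : Fam α N v G) : ∀ s ∈ l, s.HoldAll N v G := by
  have h1 := C.sib
  rw [hrows] at h1
  exact fun s hs => sin_of_sib h1 N hN v G h s hs

end at_

end Pool.Agent.EdgeIso.Chk
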