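import Pool.Agent.Lib.MP_48c8f3_co.BasR
import Pool.Agent.Lib.MP_48c8f3_co.KNa
import Pool.Agent.Lib.MP_48c8f3_co.ESf

set_option autoImplicit false
set_option linter.unusedSectionVars false

/-!
MP_48c8f3_co: the near rows and the small-q rows of the smooth inequality, in terms of `YY`.
-/

namespace Pool.Agent.EdgeIso.Smooth

open Finset Pool.Agent.EdgeIso.Frame Pool.Agent.EdgeIso.Walsh Pool.Agent.EdgeIso.Chk

end Pool.Agent.EdgeIso.Smooth

namespace Pool.Agent.EdgeIso.Chk

open Finset Pool.Agent.EdgeIso.Frame Pool.Agent.EdgeIso.Smooth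

/-- change of the constants of a near row -/
theorem near_YY {p q R a A : ℕ} (hqp : q ≤ p) (hA : A * 10000 ≤ 256 * a)
    (h : (a : ℤ) * (Sc * ((p : ℤ) - q)) ≤ 10000 * (elam Sc p q - 2 * (Sc * q))) :
    (Sc : ℤ) * (512 * q + A * ((p : ℤ) - q)) ≤ 256 * (YY R p + YY R q - YY R (p + q)) := by
  rw [← elam_YY]
  have h1 : (0 : ℤ) ≤ Sc * ((p : ℤ) - q) := by
    have : (q : ℤ) ≤ p := by exact_mod_cast hqp
    exact mul_nonneg (by positivity) (by linarith)
  have h2 : ((A * 10000 : ℕ) : ℤ) ≤ ((256 * a : ℕ) : ℤ) := by exact_mod_cast hA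
  push_cast at h2
  have h3 := mul_le_mul_of_nonneg_right h2 h1
  linarith only [h, h3]

section near

variable {p q : ℕ} (R : ℕ) (hqp : q ≤ p)
include hqp

theorem YY_near16 (h : 16 * ((p : ℤ) - q) ≤ p + q) :
    (Sc : ℤ) * (512 * q + 244 * ((p : ℤ) - q)) ≤ 256 * (YY R p + YY R q - YY R (p + q)) :=
  near_YY (a := 9548) (A := 244) hqp (by norm_num)
    (by have := near16 (S := Sc) (by unfold Sc; norm_num) hqp h; exact_mod_cast this)

end near

section small

variable {p q : ℕ} (R : ℕ)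

end small

end Pool.Agent.EdgeIso.Chk
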