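import Pool.Agent.Lib.MP_48c8f3_co.Bas
import Pool.Agent.Lib.MP_48c8f3_co.KNv
import Pool.Agent.Lib.MP_48c8f3_co.KNw

set_option autoImplicit false
set_option linter.unusedSectionVars false

/-!
MP_48c8f3_co: small facts for the glue files of the step of the smooth inequality.
-/

namespace Pool.Agent.EdgeIso.Chk

open Finset Pool.Agent.EdgeIso.Frame Pool.Agent.EdgeIso.Cell Pool.Agent.EdgeIso.Walsh
  Pool.Agent.EdgeIso.Smooth

theorem mx2Z (j : ℕ) (a x t : ℤ) : max 0 ((2 : ℤ) ^ (j + 1) * (a * x) - 8 * t) =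
    2 * max 0 (2 ^ j * (a * x) - 4 * t) := by
  have h : (2 : ℤ) * max 0 (2 ^ j * (a * x) - 4 * t) = max 0 (2 * (2 ^ j * (a * x) - 4 * t)) := by
    rw [mul_max_of_nonneg _ _ (by norm_num : (0 : ℤ) ≤ 2), mul_zero]
  rw [h]
  congr 1
  rw [pow_succ]
  ring

section hub

variable {α : Type*} [DecidableEq α] {rows : List SRow} {er : List ERow} {r : SRow}
  {τ0 τ1 n R k : ℕ} {F : Frame.Num} {j t : ℕ}

theorem hub (C : SIC α rows er r τ0 τ1 n R k F j t) {v : ℤ} (hv : 0 ≤ v) :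
    (2 : ℤ) ^ j * max 0 (v * (F.x : ℤ) - 16 * (2 * (C.W.x : ℤ))) ≤ v * (2 ^ j * (F.x : ℤ)) := by
  have h1 : max 0 (v * (F.x : ℤ) - 16 * (2 * (C.W.x : ℤ))) ≤ v * (F.x : ℤ) := by
    apply max_le (by positivity)
    have : (0 : ℤ) ≤ C.W.x := by positivity
    linarith
  have h2 := mul2 j h1
  linarith

end hub

section gate

variable {S : SysL} {x : ℕ → ℤ} {R : ℕ} {κ : ℤ}

end gate

/-! ### the splitting of the logarithm -/

section near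

variable {N j R : ℕ} {G K W : Frame.Num} {f : ℕ} (h : Mv N G K W f)

include h

theorem YY_sz (R : ℕ) : YY R G.x = YY R (K.x + W.x) := by rw [h.sz]

theorem nearZ {K0 A : ℤ}
    (hnear : ∀ p q : ℕ, q ≤ p → K0 * ((p : ℤ) - q) ≤ p + q →
      (Sc : ℤ) * (512 * q + A * ((p : ℤ) - q)) ≤ 256 * (YY R p + YY R q - YY R (p + q)))
    (hu : K0 * (2 ^ j * (K.x : ℤ) - 2 ^ j * (W.x : ℤ)) ≤ 2 ^ j * (G.x : ℤ)) :
    2 ^ 24 * (512 * (2 ^ j * (W.x : ℤ)) + A * (2 ^ j * (K.x : ℤ) - 2 ^ j * (W.x : ℤ))) ≤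
      256 * (2 ^ j * YY R K.x + 2 ^ j * YY R W.x - 2 ^ j * YY R G.x) := by
  have hs : (G.x : ℤ) = K.x + W.x := by exact_mod_cast h.sz.symm
  have h1 : K0 * ((K.x : ℤ) - W.x) ≤ K.x + W.x := by
    have h2 : (2 : ℤ) ^ j * (K0 * ((K.x : ℤ) - W.x)) ≤ 2 ^ j * (K.x + W.x) := by
      rw [← hs]; linarith
    exact le_of_mul_le_mul_left h2 (by positivity)
  have h3 := mul2 j (hnear K.x W.x h.le h1)
  rw [YY_sz h R]
  unfold Sc at h3
  push_cast at h3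
  linarith

theorem nearZ16 (hu : 16 * (2 ^ j * (K.x : ℤ) - 2 ^ j * (W.x : ℤ)) ≤ 2 ^ j * (G.x : ℤ)) :
    2 ^ 24 * (512 * (2 ^ j * (W.x : ℤ)) + 244 * (2 ^ j * (K.x : ℤ) - 2 ^ j * (W.x : ℤ))) ≤
      256 * (2 ^ j * YY R K.x + 2 ^ j * YY R W.x - 2 ^ j * YY R G.x) :=
  nearZ h (fun _ _ hqp hh => YY_near16 R hqp hh) hu

end near

end Pool.Agent.EdgeIso.Chk
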