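import Pool.Agent.Lib.MP_48c8f3_co.BasR
import Pool.Agent.Lib.MP_48c8f3_co.KNx

set_option autoImplicit false
set_option linter.unusedSectionVars false

/-!
MP_48c8f3_co: the exact value of the piecewise linear part of a shape as a variable of a system.
-/

namespace Pool.Agent.EdgeIso.Chk

open Finset Pool.Agent.EdgeIso.Frame Pool.Agent.EdgeIso.Cell Pool.Agent.EdgeIso.Walsh
  Pool.Agent.EdgeIso.Smooth

variable {α : Type*} [DecidableEq α] {n : ℕ} {w : ℤ} {N : Frame.Num}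

/-- the value of a piece, times 32 -/
def pv (n : ℕ) (x : ℤ) (p : ℕ × ℕ × ℤ × ℤ) : ℤ := p.2.2.1 * 2 ^ n + 32 * p.2.2.2 * x

/-- `b / 32` is below all pieces of the shape which apply, and the inequality holds with it -/
structure BOK (s : Shp) (n : ℕ) (w : ℤ) (N : Frame.Num) (b : ℤ) : Prop where
  lo : -(64 * s.c * (N.x : ℤ)) ≤ b
  hi : b ≤ 64 * s.c * (N.x : ℤ)
  pc : ∀ k, 1 ≤ k → s.k0 ≤ k → k ≤ s.kl → ∀ p ∈ s.B k, Cond (condP k p) (2 ^ n) N.x →
    -(64 * s.c * (N.x : ℤ)) ≤ pv n N.x p → b ≤ pv n N.x p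
  row : ∀ j t : ℕ, (N.d j t : ℝ) / (2 * 2 ^ j) ≤ s.e / s.c * (N.E / Sc) +
    ((b : ℝ) / 32 + s.ah * (N.x - w) + hinR s.hs N.x w) / (2 * s.c) +
    tR s.th N.x (t / 2 ^ j) / s.c

theorem exmin {A : Type*} (l : List A) (f : A → ℤ) (b0 : ℤ) (P : ℤ → Prop) (h0 : P b0)
    (h : ∀ a ∈ l, P (f a)) : ∃ b, P b ∧ b ≤ b0 ∧ ∀ a ∈ l, b ≤ f a := by
  induction l with
  | nil => exact ⟨b0, h0, le_rfl, by simp⟩
  | cons a t ih =>
    obtain ⟨b, h1, h2, h3⟩ := ih fun a' ha => h a' (List.mem_cons_of_mem _ ha)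
    have h4 := h a (List.mem_cons_self ..)
    rcases le_total b (f a) with h5 | h5
    · refine ⟨b, h1, h2, ?_⟩
      intro a' ha
      rcases List.mem_cons.mp ha with rfl | ha
      · exact h5
      · exact h3 a' ha
    · refine ⟨f a, h4, h5.trans h2, ?_⟩
      intro a' ha
      rcases List.mem_cons.mp ha with rfl | ha
      · exact le_rfl
      · exact h5.trans (h3 a' ha)

/-- the value exists -/
theorem Shp.exB {s : Shp} (hc0 : 0 < s.c) (he : s.c ≤ s.e) (hvx : w ≤ N.x) (H : Fam α n w N)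
    (Tc : ∀ (s : Finset α) (X : Finset (Finset α)), s.card = n → Sub s X → TC 2 s X)
    (hr : s.HoldAll n w N) : ∃ b : ℤ, BOK s n w N b := by
  classical
  have hcr : (0 : ℝ) < s.c := by exact_mod_cast hc0
  let P : ℤ → Prop := fun b => ∀ j t : ℕ, (N.d j t : ℝ) / (2 * 2 ^ j) ≤ s.e / s.c * (N.E / Sc) +
    ((b : ℝ) / 32 + s.ah * (N.x - w) + hinR s.hs N.x w) / (2 * s.c) +
    tR s.th N.x (t / 2 ^ j) / s.c
  have mono : ∀ a b : ℤ, a ≤ b → P a → P b := by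
    intro a b hab ha j t
    refine (ha j t).trans ?_
    have h1 : (a : ℝ) ≤ b := by exact_mod_cast hab
    have h2 : ((a : ℝ) / 32 + s.ah * (N.x - w) + hinR s.hs N.x w) / (2 * s.c) ≤
        ((b : ℝ) / 32 + s.ah * (N.x - w) + hinR s.hs N.x w) / (2 * s.c) := by
      apply div_le_div_of_nonneg_right _ (by positivity)
      linarith
    linarith
  have hP0 : P (64 * s.c * (N.x : ℤ)) := by
    intro j t
    have h1 := ellF_nonneg (e := s.e) (ah := s.ah) hc0 he hvx H Tc j t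
    unfold ellF at h1
    have h2 := hinR_nonneg s.hs N.x w
    have h3 := tR_nonneg s.th N.x (t / 2 ^ j)
    have h4 : (0 : ℝ) ≤ tR s.th N.x (t / 2 ^ j) / s.c := by positivity
    have h5 : (0 : ℝ) ≤ hinR s.hs N.x w / (2 * s.c) := by positivity
    have e1 : (((64 * s.c * (N.x : ℤ) : ℤ) : ℝ) / 32 + s.ah * (N.x - w) + hinR s.hs N.x w) /
        (2 * s.c) = N.x + s.ah * (N.x - w) / (2 * s.c) + hinR s.hs N.x w / (2 * s.c) := by
      push_cast
      field_simp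
      ring
    rw [e1]
    linarith
  let l : List (ℕ × (ℕ × ℕ × ℤ × ℤ)) :=
    (List.range (s.kl + 1)).flatMap fun k => (s.B k).map fun p => (k, p)
  let Q : ℕ × (ℕ × ℕ × ℤ × ℤ) → Prop := fun a => 1 ≤ a.1 ∧ s.k0 ≤ a.1 ∧ a.1 ≤ s.kl ∧
    a.2 ∈ s.B a.1 ∧ Cond (condP a.1 a.2) (2 ^ n) N.x
  let f : ℕ × (ℕ × ℕ × ℤ × ℤ) → ℤ := fun a =>
    if Q a then pv n N.x a.2 else 64 * s.c * (N.x : ℤ)
  have hf : ∀ a ∈ l, P (f a) := by
    intro a _
    show P (if Q a then pv n N.x a.2 else 64 * s.c * (N.x : ℤ))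
    split_ifs with hQ
    · obtain ⟨q1, q2, q3, q4, q5⟩ := hQ
      intro j t
      have h1 := Shp.real hvx (hr a.1 q1 q2 q3 a.2 q4) q5 hc0 j t
      have e1 : ((pv n N.x a.2 : ℤ) : ℝ) / 32 = (a.2.2.2.1 : ℝ) / 32 * 2 ^ n + a.2.2.2.2 * N.x := by
        unfold pv
        push_cast
        ring
      rw [e1]
      exact h1
    · exact hP0
  obtain ⟨b, h1, h2, h3⟩ := exmin l f (64 * s.c * (N.x : ℤ)) P hP0 hf
  refine ⟨max (-(64 * s.c * (N.x : ℤ))) b, le_max_left _ _, max_le ?_ h2, ?_,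
    mono b _ (le_max_right _ _) h1⟩
  · have : (0 : ℤ) ≤ 64 * s.c * (N.x : ℤ) := by positivity
    linarith
  · intro k k1 k2 k3 p hp hcd hlo
    apply max_le hlo
    have hm : (k, p) ∈ l := by
      rw [List.mem_flatMap]
      exact ⟨k, List.mem_range.mpr (by omega), List.mem_map.mpr ⟨p, hp, rfl⟩⟩
    have h4 := h3 (k, p) hm
    have hQ : Q (k, p) := ⟨k1, k2, k3, hp, hcd⟩
    have e : f (k, p) = pv n N.x p := if_pos hQ
    rw [e] at h4
    exact h4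

section pieces

variable {s : Shp} {b : ℤ} (hB : BOK s n w N b)

include hB

/-- a piece for an exact level -/
theorem BOK.pcZ {R lev i k J lo hi : ℕ} {bV bx : ℤ} (hn : n = R + lev) (hk : k = lev + i)
    (k1 : 1 ≤ k) (k2 : s.k0 ≤ k) (k3 : k ≤ s.kl) (hp : (lo, hi, bV, bx) ∈ s.B k)
    (h1 : (lo : ℤ) * (2 ^ J * 2 ^ R) ≤ 8 * 2 ^ i * (2 ^ J * (N.x : ℤ)))
    (h2 : 8 * 2 ^ i * (2 ^ J * (N.x : ℤ)) ≤ (hi : ℤ) * (2 ^ J * 2 ^ R))
    (h3 : -(64 * s.c * (2 ^ J * (N.x : ℤ))) ≤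
      bV * 2 ^ lev * (2 ^ J * 2 ^ R) + 32 * bx * (2 ^ J * (N.x : ℤ))) :
    2 ^ J * b ≤ bV * 2 ^ lev * (2 ^ J * 2 ^ R) + 32 * bx * (2 ^ J * (N.x : ℤ)) := by
  have hJ : (0 : ℤ) < 2 ^ J := by positivity
  have hL : (0 : ℤ) < 2 ^ lev := by positivity
  have g1 : (lo : ℤ) * 2 ^ R ≤ 8 * 2 ^ i * (N.x : ℤ) := by
    apply le_of_mul_le_mul_left _ hJ
    linarith
  have g2 : 8 * 2 ^ i * (N.x : ℤ) ≤ (hi : ℤ) * 2 ^ R := by
    apply le_of_mul_le_mul_left _ hJ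
    linarith
  have g3 : -(64 * s.c * (N.x : ℤ)) ≤ pv n N.x (lo, hi, bV, bx) := by
    apply le_of_mul_le_mul_left _ hJ
    unfold pv
    rw [hn, pow_add]
    show (2 : ℤ) ^ J * -(64 * s.c * (N.x : ℤ)) ≤
      2 ^ J * (bV * (2 ^ R * 2 ^ lev) + 32 * bx * (N.x : ℤ))
    linarith
  have hc : Cond (condP k (lo, hi, bV, bx)) (2 ^ n) N.x := by
    have g1' := mul_le_mul_of_nonneg_left g1 hL.le
    have g2' := mul_le_mul_of_nonneg_left g2 hL.le
    unfold Cond condP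
    rw [hk, hn, pow_add, pow_add]
    simp only [List.mem_cons, List.not_mem_nil, or_false, forall_eq_or_imp, forall_eq]
    push_cast
    constructor
    · linarith
    · linarith
  have h4 := mul_le_mul_of_nonneg_left (hB.pc k k1 k2 k3 _ hp hc g3) hJ.le
  refine h4.trans (le_of_eq ?_)
  unfold pv
  rw [hn, pow_add]
  show (2 : ℤ) ^ J * (bV * (2 ^ R * 2 ^ lev) + 32 * bx * (N.x : ℤ)) = _
  ring

/-- the last class -/
theorem BOK.plZ {R δ lev i J : ℕ} {bx : ℤ} (hn : n = R + δ) (hδ : lev ≤ δ) (hk : s.kl = lev + i)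
    (k1 : 1 ≤ s.kl) (k2 : s.k0 ≤ s.kl) (hp : (0, 16, 0, bx) ∈ s.B s.kl)
    (h2 : 2 ^ i * (2 ^ J * (N.x : ℤ)) ≤ 2 * (2 ^ J * 2 ^ R)) (h3 : -(2 * (s.c : ℤ)) ≤ bx) :
    2 ^ J * b ≤ 32 * bx * (2 ^ J * (N.x : ℤ)) := by
  have hJ : (0 : ℤ) < 2 ^ J := by positivity
  have hL : (0 : ℤ) < 2 ^ lev := by positivity
  have g2 : 2 ^ i * (N.x : ℤ) ≤ 2 * 2 ^ R := by
    apply le_of_mul_le_mul_left _ hJ
    linarith
  have g3 : -(64 * s.c * (N.x : ℤ)) ≤ pv n N.x (0, 16, 0, bx) := by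
    unfold pv
    show -(64 * s.c * (N.x : ℤ)) ≤ 0 * 2 ^ n + 32 * bx * (N.x : ℤ)
    have hx : (0 : ℤ) ≤ N.x := by positivity
    nlinarith
  have hpow : (2 : ℤ) ^ lev ≤ 2 ^ δ := by
    exact_mod_cast Nat.pow_le_pow_right (by norm_num) hδ
  have hc : Cond (condP s.kl (0, 16, 0, bx)) (2 ^ n) N.x := by
    have g2' := mul_le_mul_of_nonneg_left g2 hL.le
    have g4 : (2 : ℤ) ^ lev * 2 ^ R ≤ 2 ^ δ * 2 ^ R :=
      mul_le_mul_of_nonneg_right hpow (by positivity)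
    unfold Cond condP
    rw [hk, hn, pow_add, pow_add]
    simp only [List.mem_cons, List.not_mem_nil, or_false, forall_eq_or_imp, forall_eq]
    push_cast
    constructor
    · have : (0 : ℤ) ≤ 8 * (2 ^ lev * 2 ^ i) * (N.x : ℤ) := by positivity
      linarith
    · linarith
  have h4 := mul_le_mul_of_nonneg_left (hB.pc s.kl k1 k2 le_rfl _ hp hc g3) hJ.le
  refine h4.trans (le_of_eq ?_)
  unfold pv
  show (2 : ℤ) ^ J * (0 * 2 ^ n + 32 * bx * (N.x : ℤ)) = _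
  ring

end pieces

theorem digOK_zero {f TA b : ℕ} : ∀ (d : ℕ) (l : List (ℕ × ℕ)), digOK f TA 0 0 d l = true →
    digOK f TA 0 b d l = true
  | _, [], _ => rfl
  | d, h :: l, hd => by
    unfold digOK at hd ⊢
    simp only [Bool.and_eq_true] at hd ⊢
    have e : ∀ i, tab TA 0 b i = tab TA 0 0 i := by
      intro i
      unfold tab
      simp
    rw [e, e]
    exact ⟨hd.1, digOK_zero (d + 2) l hd.2⟩

section unit

variable {S : SysL} {x : ℕ → ℤ} {R : ℕ} {κ : ℤ} {v : ℤ}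

/-- the item of one shape with the piecewise linear part and the hinges in the size of the copies in
the form -/
theorem tsb_k {ex eg T TA m J t s FL Fx FT c0 e ah : ℕ} {L : List ℤ}
    {sh : Shp} {yv dv z bkv b : ℤ} (hT : T = 0)
    (hκ : 0 < κ) (H : Fam α n v N)
    (hX : dot (S.fe ex) x = κ * N.x) (hg : dot (S.fe eg) x = κ * v)
    (hs : s * FL = 128 * c0) (hc0 : 0 < c0)
    (hy : 2 ^ 24 * yv = κ * YY R N.x) (hdv : 2 * 2 ^ J * dv = κ * N.d J t)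
    (hz : 8 * 2 ^ J * z = κ * Frame.thsum sh.th J t N.x)
    (hb : 64 * c0 * bkv = κ * (64 * c0 * N.x + b))
    (hL : 2 * c0 * dot L x = s * (2 * e * (κ * MM R N - yv) + 2 * c0 * (bkv - κ * N.x) +
      ah * (κ * N.x - κ * v) - 2 * c0 * dv + 2 * z))
    (hB : BOK sh n v N b) (hc : sh.c = c0) (he : sh.e = e) (ha : sh.ah = ah)
    (hm : sh.hs.length = m) (hd : digOK 1 TA 0 0 0 sh.hs = true) :
    (ItemL.ts ex 32 L FL Fx FT T 33 8 64 (List.replicate m (eg, 1, 16, 1)) TA 0).Sem S x := by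
  have hκr : (0 : ℝ) < κ := by exact_mod_cast hκ
  have hJ : (0 : ℝ) < 2 ^ J := by positivity
  have hcr : (0 : ℝ) < c0 := by exact_mod_cast hc0
  intro i b' hi hb' h1 h2
  have hz0 : ∀ a c : ℕ, tab T 33 a c = 0 := by
    intro a c
    rw [hT]
    unfold tab
    simp
  rw [hz0, hz0, hX]
  have q1 := hsum_eg (S := S) (x := x) (s8 := 8) (TA := TA) (WA := 0) (b := b') (X := N.x) hκ
    hg.le 0 sh.hs (digOK_zero 0 _ hd)
  rw [hm] at q1
  have hth := tR_cast sh.th J t N.x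
  rw [Int.cast_natCast] at hth
  have hzr : (z : ℝ) = κ * tR sh.th N.x (t / 2 ^ J) := by
    have h1 : (8 * 2 ^ J * z : ℝ) = κ * (Frame.thsum sh.th J t N.x : ℤ) := by exact_mod_cast hz
    rw [hth] at h1
    have h2 : (8 * 2 ^ J : ℝ) * z = (8 * 2 ^ J) * (κ * tR sh.th N.x (t / 2 ^ J)) := by
      rw [h1]; ring
    exact mul_left_cancel₀ (by positivity) h2
  have hr := hB.row J t
  rw [hc, he, ha] at hr
  -- the form
  have hdvr : (dv : ℝ) = κ * ((N.d J t : ℝ) / (2 * 2 ^ J)) := by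
    have h3 : (2 * 2 ^ J * dv : ℝ) = κ * N.d J t := by exact_mod_cast hdv
    field_simp
    linarith
  have hbr : (bkv : ℝ) - κ * N.x = κ * ((b : ℝ) / (64 * c0)) := by
    have h3 : (64 * c0 * bkv : ℝ) = κ * (64 * c0 * N.x + b) := by exact_mod_cast hb
    field_simp
    linarith
  have hyr : (κ : ℝ) * MM R N - yv = κ * (N.E / Sc) := by
    have e2 : (N.E : ℝ) / Sc = MM R N - YY R N.x / Sc := by
      rw [H.E_MY R]
      have := Sc_pos
      have hS : (Sc : ℝ) ≠ 0 := by exact_mod_cast this.ne'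
      push_cast
      field_simp
    have e3 : (κ : ℝ) * (YY R N.x / Sc) = yv := by
      have h3 : ((2 : ℝ) ^ 24 * yv) = κ * YY R N.x := by exact_mod_cast hy
      have h4 : (Sc : ℝ) = 2 ^ 24 := by unfold Sc; push_cast; norm_num
      rw [h4]
      field_simp
      linarith
    rw [e2, mul_sub, e3]
  have hLr : (2 * c0 * dot L x : ℝ) = s * (2 * e * (κ * MM R N - yv) + 2 * c0 * (bkv - κ * N.x) +
      ah * (κ * N.x - κ * v) - 2 * c0 * dv + 2 * z) := by exact_mod_cast hL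
  have key : (dot L x : ℝ) = s * (κ * (e / c0 * (N.E / Sc) +
      ((b : ℝ) / 32 + ah * (N.x - v)) / (2 * c0) + tR sh.th N.x (t / 2 ^ J) / c0 -
      (N.d J t : ℝ) / (2 * 2 ^ J))) := by
    rw [hyr, hbr, hdvr, hzr] at hLr
    have h5 : (2 * c0 : ℝ) * dot L x = (2 * c0) * (s * (κ * (e / c0 * (N.E / Sc) +
      ((b : ℝ) / 32 + ah * (N.x - v)) / (2 * c0) + tR sh.th N.x (t / 2 ^ J) / c0 -
      (N.d J t : ℝ) / (2 * 2 ^ J)))) := by
      rw [hLr]
      field_simp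
      ring
    exact mul_left_cancel₀ (by positivity) h5
  have hsr : (s : ℝ) * FL = 128 * c0 := by exact_mod_cast hs
  have key2 : (FL : ℝ) * dot L x = 128 * c0 * (κ * (e / c0 * (N.E / Sc) +
      ((b : ℝ) / 32 + ah * (N.x - v)) / (2 * c0) + tR sh.th N.x (t / 2 ^ J) / c0 -
      (N.d J t : ℝ) / (2 * 2 ^ J))) := by
    rw [key, ← hsr]
    ring
  have key3 : (0 : ℝ) ≤ FL * dot L x + 64 * κ * hinR sh.hs N.x v := by
    have h6 : (0 : ℝ) ≤ 128 * c0 * κ * (e / c0 * (N.E / Sc) +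
      ((b : ℝ) / 32 + ah * (N.x - v) + hinR sh.hs N.x v) / (2 * c0) +
      tR sh.th N.x (t / 2 ^ J) / c0 - (N.d J t : ℝ) / (2 * 2 ^ J)) :=
      mul_nonneg (by positivity) (by linarith)
    rw [key2]
    refine h6.trans (le_of_eq ?_)
    field_simp
    ring
  have key4 : (0 : ℝ) ≤ ((FL * dot L x +
      Chk.hsum S x (κ * N.x) 8 TA 0 b' 0 (List.replicate m (eg, 1, 16, 1)) : ℤ) : ℝ) := by
    push_cast at q1 ⊢
    have e8 : (8 * 8 * κ : ℝ) * hinR sh.hs N.x v = 64 * κ * hinR sh.hs N.x v := by ring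
    rw [e8] at q1
    linarith
  have key5 : (0 : ℤ) ≤ FL * dot L x +
      Chk.hsum S x (κ * N.x) 8 TA 0 b' 0 (List.replicate m (eg, 1, 16, 1)) := by
    exact_mod_cast key4
  refine key5.trans (le_of_eq ?_)
  push_cast
  ring

end unit

end Pool.Agent.EdgeIso.Chk
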