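import Pool.Agent.Lib.MP_48c8f3_co.Bas
import Pool.Agent.Lib.MP_48c8f3_co.SNb
import Pool.Agent.Lib.MP_48c8f3_co.FC

set_option autoImplicit false
set_option linter.unusedSectionVars false

/-!
MP_48c8f3_co, assembly: the statement with the constant 2 for all families follows from the
emptiness of the structures `Core2` (level two) and `CoreK` (roomy levels).
-/

namespace Pool.Agent.EdgeIso.Frame

open Finset

variable {α : Type*} [DecidableEq α]

/-! ### families with at most two members -/

theorem copy_single (s : Finset α) : ∀ x ⊆ s, Copy s 1 {x} := by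
  induction s using Finset.induction_on with
  | empty =>
    intro x hx
    have h1 : x = ∅ := subset_empty.mp hx
    subst h1
    have h2 := Copy.full (∅ : Finset α)
    simpa using h2
  | insert a s ha ih =>
    intro x hx
    by_cases hax : a ∈ x
    · have h1 : x.erase a ⊆ s := by
        intro y hy
        rw [mem_erase] at hy
        rcases mem_insert.mp (hx hy.2) with h | h
        · exact absurd h hy.1
        · exact h
      have h2 := Copy.low s a true 1 _ ha (ih _ h1)
      have h3 : joinb a true ({x.erase a} : Finset (Finset α)) ∅ = {x} := by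
        simp [joinb, join, insert_erase hax]
      rwa [h3] at h2
    · have h1 : x ⊆ s := by
        intro y hy
        rcases mem_insert.mp (hx hy) with h | h
        · subst h
          exact absurd hy hax
        · exact h
      have h2 := Copy.low s a false 1 _ ha (ih _ h1)
      have h3 : joinb a false ({x} : Finset (Finset α)) ∅ = {x} := by
        simp [joinb, join]
      rwa [h3] at h2

theorem copy_pair {s x : Finset α} (hx : x ⊆ s) {i : α} (hi : i ∈ s) :
    Copy s 2 {x, symmDiff x {i}} := by
  have h1 : x.erase i ⊆ s.erase i := erase_subset_erase i hx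
  have h2 := (copy_single (s.erase i) _ h1).double i (notMem_erase i s)
  rw [insert_erase hi] at h2
  have h3 : join i ({x.erase i} : Finset (Finset α)) {x.erase i} = {x, symmDiff x {i}} := by
    by_cases h : i ∈ x
    · rw [symmDiff_singleton_of_mem h]
      simp only [join, image_singleton, insert_erase h]
      ext y
      simp only [mem_union, mem_singleton, mem_insert]
      tauto
    · rw [symmDiff_singleton_of_notMem h, erase_eq_of_notMem h]
      simp only [join, image_singleton]
      ext y
      simp only [mem_union, mem_singleton, mem_insert]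
  rw [h3] at h2
  exact h2

theorem L2_two {s : Finset α} {F : Finset (Finset α)} (h : F.card = 2) :
    L2 s F = 2 - e2 s F := by
  unfold L2
  rw [h]
  have : g 2 = 1 := by
    have := g_even 1
    rw [g_one] at this
    simpa using this
  rw [this]
  norm_num

/-- families with at most two members -/
theorem TC_small {s : Finset α} {F : Finset (Finset α)} (hF : Sub s F) (hne : F.Nonempty)
    (h : F.card ≤ 2) : TC 2 s F := by
  have hpos := card_pos.mpr hne
  rcases (by omega : F.card = 1 ∨ F.card = 2) with h1 | h2
  · obtain ⟨x, hx⟩ := card_eq_one.mp h1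
    have hxs : x ⊆ s := by
      have : x ∈ F := by rw [hx]; exact mem_singleton_self x
      exact mem_powerset.mp (hF this)
    refine ⟨0, ⟨F, ?_, by simp⟩, ?_⟩
    · rw [h1, hx]
      exact copy_single s x hxs
    · have := L2_nonneg hF
      push_cast
      linarith
  · by_cases he : e2 s F = 0
    · refine ⟨2, near_triv _ _ _ ?_ |>.mono (by omega), ?_⟩
      · exact hF.card_le
      · rw [L2_two h2, he]
        norm_num
    · have h3 : ∃ x ∈ F, ∃ i ∈ s, symmDiff x {i} ∈ F := by
        by_contra hcon
        push Not at hcon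
        apply he
        rw [e2_eq_sum]
        apply sum_eq_zero
        intro i hi
        rw [card_eq_zero]
        unfold fl
        rw [filter_eq_empty_iff]
        intro x hx
        exact hcon x hx i hi
      obtain ⟨x, hx, i, hi, hxi⟩ := h3
      have hxs : x ⊆ s := mem_powerset.mp (hF hx)
      have hne' : x ≠ symmDiff x {i} := by
        intro h
        have h4 : i ∈ x ↔ i ∈ symmDiff x {i} := by rw [← h]
        rw [mem_symmDiff, mem_singleton] at h4
        tauto
      have h5 : ({x, symmDiff x {i}} : Finset (Finset α)) = F := by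
        apply eq_of_subset_of_card_le
        · intro y hy
          rcases mem_insert.mp hy with h | h
          · rw [h]; exact hx
          · rw [mem_singleton.mp h]; exact hxi
        · rw [h2, card_pair hne']
      refine ⟨0, ⟨F, ?_, by simp⟩, ?_⟩
      · rw [h2, ← h5]
        exact copy_pair hxs hi
      · have := L2_nonneg hF
        push_cast
        linarith

/-! ### the assembly -/

/-- the scale of a size -/
theorem exists_scale {n x : ℕ} (h1 : 3 ≤ x) (h2 : 2 * x ≤ 2 ^ n) :
    ∃ R, 1 ≤ R ∧ R + 2 ≤ n ∧ 2 ^ R ≤ x ∧ x ≤ 2 * 2 ^ R := by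
  have h3 : Nat.log 2 x < n := by
    apply Nat.log_lt_of_lt_pow (by omega)
    omega
  have h4 : 2 ^ Nat.log 2 x ≤ x := Nat.pow_log_le_self 2 (by omega)
  have h5 : x < 2 ^ (Nat.log 2 x + 1) := Nat.lt_pow_succ_log_self (by norm_num) x
  have h6 : 1 ≤ Nat.log 2 x := by
    by_contra hcon
    have : Nat.log 2 x = 0 := by omega
    rw [this] at h5
    omega
  rcases (by omega : Nat.log 2 x + 2 ≤ n ∨ Nat.log 2 x + 1 = n) with h | h
  · refine ⟨Nat.log 2 x, h6, h, h4, ?_⟩
    rw [pow_succ] at h5
    omega
  · rw [← h, pow_succ] at h2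
    obtain ⟨r, hr⟩ := Nat.exists_eq_add_of_le h6
    refine ⟨r, ?_, by omega, ?_, ?_⟩
    · by_contra hcon
      have hr0 : r = 0 := by omega
      rw [hr, hr0] at h4 h2
      omega
    · have : 2 ^ (1 + r) = 2 * 2 ^ r := by rw [pow_add]; ring
      rw [hr, this] at h4
      omega
    · have : 2 ^ (1 + r) = 2 * 2 ^ r := by rw [pow_add]; ring
      rw [hr, this] at h2
      omega

/-- The statement with the constant 2 from the emptiness of the two core structures. -/
theorem TC_of_cores
    (h2 : ∀ (R m : ℕ) (LF : ℤ), 1 ≤ R → Core2 α R m LF → False)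
    (hK : ∀ (n R : ℕ) (F : Num), 1 ≤ R → R ≤ n → CoreK α n R F → False) :
    ∀ (s : Finset α) (F : Finset (Finset α)), Sub s F → TC 2 s F := by
  apply TC_induction (by norm_num)
  intro s F hF hne hle IH
  by_cases hc : F.card ≤ 2
  · exact TC_small hF hne hc
  by_contra hneg
  obtain ⟨R, r1, r2, r3, r4⟩ := exists_scale (by omega) hle
  rcases (by omega : s.card = R + 2 ∨ R + 3 ≤ s.card) with h | h
  · obtain ⟨C⟩ := core2_exists r1 h hF r3 r4 IH hneg
    exact h2 _ _ _ r1 C
  · obtain ⟨n, hn⟩ := Nat.exists_eq_add_of_le h
    obtain ⟨C⟩ := coreK_exists (n := R + n) (R := R) (by omega) (by omega) hF r3 r4 IH hneg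
    exact hK _ _ _ r1 (by omega) C

/-- The question from the emptiness of the two core structures. -/
theorem main_of_cores
    (h2 : ∀ (n R m : ℕ) (LF : ℤ), 1 ≤ R → Core2 (Fin n) R m LF → False)
    (hK : ∀ (N n R : ℕ) (F : Num), 1 ≤ R → R ≤ n → CoreK (Fin N) n R F → False) :
    ∀ n : ℕ, ∀ F L : Finset (Finset (Fin n)),
      L.card = F.card →
      (∀ x ∈ L, ∀ y ∉ L, ∃ i ∈ x, i ∉ y ∧ ∀ j < i, (j ∈ x ↔ j ∈ y)) →
      ∃ σ : Equiv.Perm (Fin n), ∃ S : Finset (Fin n),
        (((symmDiff F (L.image (fun x => symmDiff (x.map σ.toEmbedding) S))).card : ℤ) ≤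
          2 * ((((F ×ˢ (Finset.univ : Finset (Fin n))).filter
                  (fun p => symmDiff p.1 {p.2} ∉ F)).card : ℤ) -
               (((L ×ˢ (Finset.univ : Finset (Fin n))).filter
                  (fun p => symmDiff p.1 {p.2} ∉ L)).card : ℤ))) := by
  refine conclusion 2 ?_
  intro n F
  have h1 := TC_of_cores (α := Fin n) (fun R m LF hR C => h2 n R m LF hR C)
    (fun n' R F' hR hn C => hK n n' R F' hR hn C) univ F (fun x _ => mem_powerset.mpr (subset_univ x))
  exact h1

end Pool.Agent.EdgeIso.Frame
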