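import Pool.Agent.Lib.MP_48c8f3_co.Bas
import Pool.Agent.Lib.MP_48c8f3_co.KNy
import Pool.Agent.Lib.MP_48c8f3_co.KGc
import Pool.Agent.Lib.MP_48c8f3_co.SFam
import Pool.Agent.Lib.MP_48c8f3_co.S20D

set_option autoImplicit false
set_option linter.unusedSectionVars false
set_option linter.unusedVariables false

/-!
MP_48c8f3_co: the point of the system (machine made).
-/

namespace Pool.Agent.EdgeIso.Chk.S20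

open Finset Pool.Agent.EdgeIso.Frame Pool.Agent.EdgeIso.Cell Pool.Agent.EdgeIso.Walsh
  Pool.Agent.EdgeIso.Smooth

variable {α : Type*} [DecidableEq α] {r : SRow} {n R : ℕ} {F : Frame.Num} {j t : ℕ}

theorem ztl (C : SIC α (rowsOf fam) [] r 4 8 n R 2 F j t) : 4 * (2 ^ j * (F.x : ℤ)) ≤ 8 * (t : ℤ) := by
  have h := (siz C).tl
  push_cast at h
  exact h

theorem ztu (C : SIC α (rowsOf fam) [] r 4 8 n R 2 F j t) : 8 * (t : ℤ) ≤ 8 * (2 ^ j * (F.x : ℤ)) := by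
  have h := (siz C).tu
  push_cast at h
  exact h

theorem fmF (C : SIC α (rowsOf fam) [] r 4 8 n R 2 F j t) :
    (2 : ℤ) ^ j * MM R C.K + 2 ^ j * MM R C.W - 2 * (2 ^ j * (C.W.x : ℤ)) + 2 * (2 ^ j * (C.f : ℤ)) ≤ 2 ^ j * MM R F := MlZ C.mF R

theorem fyF (C : SIC α (rowsOf fam) [] r 4 8 n R 2 F j t) :
    (2 : ℤ) ^ j * YY R F.x ≤ 2 ^ 24 * (2 ^ j * QQ R F.x) := YYZ j R F.x

theorem fqF (C : SIC α (rowsOf fam) [] r 4 8 n R 2 F j t) :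
    3 * ((2 : ℤ) ^ j * QQ R F.x) ≤ 5 * (2 ^ j * 2 ^ R) := QQZ j (z_xs C)

theorem gqF (C : SIC α (rowsOf fam) [] r 4 8 n R 2 F j t) :
    (0 : ℤ) ≤ 2 ^ j * QQ R F.x := mul_nonneg (by positivity) (QQ_nonneg (z_xs C))

theorem gyF (C : SIC α (rowsOf fam) [] r 4 8 n R 2 F j t) :
    (0 : ℤ) ≤ 2 ^ j * YY R F.x := mul_nonneg (by positivity) (YY_nonneg (z_xs C))

theorem gmF (C : SIC α (rowsOf fam) [] r 4 8 n R 2 F j t) :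
    (0 : ℤ) ≤ 2 ^ j * MM R F := mul_nonneg (by positivity) (C.fF.MM_nonneg (z_xs C))

theorem fqK (C : SIC α (rowsOf fam) [] r 4 8 n R 2 F j t) :
    3 * ((2 : ℤ) ^ j * QQ R C.K.x) ≤ 5 * (2 ^ j * 2 ^ R) := QQZ j (z_xsK C)

theorem gqK (C : SIC α (rowsOf fam) [] r 4 8 n R 2 F j t) :
    (0 : ℤ) ≤ 2 ^ j * QQ R C.K.x := mul_nonneg (by positivity) (QQ_nonneg (z_xsK C))

theorem gyK (C : SIC α (rowsOf fam) [] r 4 8 n R 2 F j t) :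
    (0 : ℤ) ≤ 2 ^ j * YY R C.K.x := mul_nonneg (by positivity) (YY_nonneg (z_xsK C))

theorem gmK (C : SIC α (rowsOf fam) [] r 4 8 n R 2 F j t) :
    (0 : ℤ) ≤ 2 ^ j * MM R C.K := mul_nonneg (by positivity) (C.kK'.MM_nonneg (z_xsK C))

theorem fqW (C : SIC α (rowsOf fam) [] r 4 8 n R 2 F j t) :
    3 * ((2 : ℤ) ^ j * QQ R C.W.x) ≤ 5 * (2 ^ j * 2 ^ R) := QQZ j (z_xsW C)

theorem gqW (C : SIC α (rowsOf fam) [] r 4 8 n R 2 F j t) :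
    (0 : ℤ) ≤ 2 ^ j * QQ R C.W.x := mul_nonneg (by positivity) (QQ_nonneg (z_xsW C))

theorem gyW (C : SIC α (rowsOf fam) [] r 4 8 n R 2 F j t) :
    (0 : ℤ) ≤ 2 ^ j * YY R C.W.x := mul_nonneg (by positivity) (YY_nonneg (z_xsW C))

theorem gmW (C : SIC α (rowsOf fam) [] r 4 8 n R 2 F j t) :
    (0 : ℤ) ≤ 2 ^ j * MM R C.W := mul_nonneg (by positivity) (C.kW'.MM_nonneg (z_xsW C))

theorem gqP (C : SIC α (rowsOf fam) [] r 4 8 n R 2 F j t) :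
    (0 : ℤ) ≤ 2 ^ j * QQ R C.P.x := mul_nonneg (by positivity) (QQ_nonneg (z_xsP C))

theorem gyP (C : SIC α (rowsOf fam) [] r 4 8 n R 2 F j t) :
    (0 : ℤ) ≤ 2 ^ j * YY R C.P.x := mul_nonneg (by positivity) (YY_nonneg (z_xsP C))

theorem gmP (C : SIC α (rowsOf fam) [] r 4 8 n R 2 F j t) :
    (0 : ℤ) ≤ 2 ^ j * MM R C.P := mul_nonneg (by positivity) (C.kP.MM_nonneg (z_xsP C))

theorem gqA (C : SIC α (rowsOf fam) [] r 4 8 n R 2 F j t) :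
    (0 : ℤ) ≤ 2 ^ j * QQ R C.A.x := mul_nonneg (by positivity) (QQ_nonneg (z_xsA C))

theorem gyA (C : SIC α (rowsOf fam) [] r 4 8 n R 2 F j t) :
    (0 : ℤ) ≤ 2 ^ j * YY R C.A.x := mul_nonneg (by positivity) (YY_nonneg (z_xsA C))

theorem gmA (C : SIC α (rowsOf fam) [] r 4 8 n R 2 F j t) :
    (0 : ℤ) ≤ 2 ^ j * MM R C.A := mul_nonneg (by positivity) (C.kA.MM_nonneg (z_xsA C))

theorem gqW1 (C : SIC α (rowsOf fam) [] r 4 8 n R 2 F j t) :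
    (0 : ℤ) ≤ 2 ^ j * QQ R C.W1.x := mul_nonneg (by positivity) (QQ_nonneg (z_xsW1 C))

theorem gyW1 (C : SIC α (rowsOf fam) [] r 4 8 n R 2 F j t) :
    (0 : ℤ) ≤ 2 ^ j * YY R C.W1.x := mul_nonneg (by positivity) (YY_nonneg (z_xsW1 C))

theorem gmW1 (C : SIC α (rowsOf fam) [] r 4 8 n R 2 F j t) :
    (0 : ℤ) ≤ 2 ^ j * MM R C.W1 := mul_nonneg (by positivity) (C.kW1.MM_nonneg (z_xsW1 C))

theorem gqW2 (C : SIC α (rowsOf fam) [] r 4 8 n R 2 F j t) :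
    (0 : ℤ) ≤ 2 ^ j * QQ R C.W2.x := mul_nonneg (by positivity) (QQ_nonneg (z_xsW2 C))

theorem gyW2 (C : SIC α (rowsOf fam) [] r 4 8 n R 2 F j t) :
    (0 : ℤ) ≤ 2 ^ j * YY R C.W2.x := mul_nonneg (by positivity) (YY_nonneg (z_xsW2 C))

theorem gmW2 (C : SIC α (rowsOf fam) [] r 4 8 n R 2 F j t) :
    (0 : ℤ) ≤ 2 ^ j * MM R C.W2 := mul_nonneg (by positivity) (C.kW2.MM_nonneg (z_xsW2 C))

theorem ftDKt (C : SIC α (rowsOf fam) [] r 4 8 n R 2 F j t) :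
    (C.K.d j t : ℤ) ≤ 2 * (2 ^ 0 * (2 ^ j * (C.K.x : ℤ))) := trivZ C.kK' 0

theorem ftDWh (C : SIC α (rowsOf fam) [] r 4 8 n R 2 F j t) :
    (C.W.d (j + 1) t : ℤ) ≤ 2 * (2 ^ 1 * (2 ^ j * (C.W.x : ℤ))) := trivZ C.kW' 1

theorem ftDF (C : SIC α (rowsOf fam) [] r 4 8 n R 2 F j t) :
    (F.d j t : ℤ) ≤ 2 * (2 ^ 0 * (2 ^ j * (F.x : ℤ))) := trivZ C.fF 0

theorem f1DF (C : SIC α (rowsOf fam) [] r 4 8 n R 2 F j t) :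
    (F.d j t : ℤ) ≤ C.K.d j t + 2 * (2 ^ 0 * (2 ^ j * (C.W.x : ℤ))) := d1Z C.mF 0

theorem f4DF (C : SIC α (rowsOf fam) [] r 4 8 n R 2 F j t) :
    (F.d j t : ℤ) ≤ C.W.d (j + 1) t + 2 * (2 ^ 0 * (2 ^ j * (C.K.x : ℤ) - 2 ^ j * (C.W.x : ℤ) + 2 ^ j * (C.f : ℤ))) := d4Z C.mF 0

theorem frv2_0 (C : SIC α (rowsOf fam) [] r 4 8 n R 2 F j t) :
    2 * (2 ^ j * 2 ^ R) - (t : ℤ) ≤ max 0 (2 * (2 ^ j * 2 ^ R) - (t : ℤ)) := le_max_right _ _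

theorem fzv2_0 (C : SIC α (rowsOf fam) [] r 4 8 n R 2 F j t) :
    (0 : ℤ) ≤ max 0 (2 * (2 ^ j * 2 ^ R) - (t : ℤ)) := le_max_left _ _

theorem frh1 (C : SIC α (rowsOf fam) [] r 4 8 n R 2 F j t) :
    (2 : ℤ) ^ j * (10 * (F.x : ℤ) - 16 * (2 * (C.W.x : ℤ))) ≤ 2 ^ j * max 0 (10 * (F.x : ℤ) - 16 * (2 * (C.W.x : ℤ))) := mul2 j (le_max_right _ _)

theorem fzh1 (C : SIC α (rowsOf fam) [] r 4 8 n R 2 F j t) :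
    (0 : ℤ) ≤ 2 ^ j * max 0 (10 * (F.x : ℤ) - 16 * (2 * (C.W.x : ℤ))) := mul_nonneg (by positivity) (le_max_left _ _)

theorem frh2 (C : SIC α (rowsOf fam) [] r 4 8 n R 2 F j t) :
    (2 : ℤ) ^ j * (6 * (F.x : ℤ) - 16 * (2 * (C.W.x : ℤ))) ≤ 2 ^ j * max 0 (6 * (F.x : ℤ) - 16 * (2 * (C.W.x : ℤ))) := mul2 j (le_max_right _ _)

theorem fzh2 (C : SIC α (rowsOf fam) [] r 4 8 n R 2 F j t) :
    (0 : ℤ) ≤ 2 ^ j * max 0 (6 * (F.x : ℤ) - 16 * (2 * (C.W.x : ℤ))) := mul_nonneg (by positivity) (le_max_left _ _)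

theorem frZF1 (C : SIC α (rowsOf fam) [] r 4 8 n R 2 F j t) :
    2 ^ j * (6 * (F.x : ℤ)) - 8 * (t : ℤ) ≤ max 0 (2 ^ j * (6 * (F.x : ℤ)) - 8 * (t : ℤ)) := le_max_right _ _

theorem fzZF1 (C : SIC α (rowsOf fam) [] r 4 8 n R 2 F j t) :
    (0 : ℤ) ≤ max 0 (2 ^ j * (6 * (F.x : ℤ)) - 8 * (t : ℤ)) := le_max_left _ _

theorem frZF2 (C : SIC α (rowsOf fam) [] r 4 8 n R 2 F j t) :
    2 ^ j * (8 * (F.x : ℤ)) - 8 * (t : ℤ) ≤ max 0 (2 ^ j * (8 * (F.x : ℤ)) - 8 * (t : ℤ)) := le_max_right _ _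

theorem fzZF2 (C : SIC α (rowsOf fam) [] r 4 8 n R 2 F j t) :
    (0 : ℤ) ≤ max 0 (2 ^ j * (8 * (F.x : ℤ)) - 8 * (t : ℤ)) := le_max_left _ _

theorem fbv2_0 (C : SIC α (rowsOf fam) [] r 4 8 n R 2 F j t) :
    8 * max 0 (2 * (2 ^ j * 2 ^ R) - (t : ℤ)) ≤ 12 * (2 ^ j * 2 ^ R) := by
  have z := siz C
  have hd0 := C.dim
  have hd1 : n + 1 = R + 1 := by omega
  have hd2 : n = R + 0 := by omega
  rcases le_total (2 * (2 ^ j * 2 ^ R) - (t : ℤ)) 0 with h | h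
  · rw [max_eq_left h]
    linarith only [z.ex, z.eK, z.eW, (ztu C), z.hi, (ztl C)]
  · rw [max_eq_right h]
    linarith only [z.ex, z.eK, z.eW, z.lo, (ztl C)]

theorem fbZF2 (C : SIC α (rowsOf fam) [] r 4 8 n R 2 F j t) :
    max 0 (2 ^ j * (8 * (F.x : ℤ)) - 8 * (t : ℤ)) ≤ 8 * (2 ^ j * 2 ^ R) := by
  have z := siz C
  have hd0 := C.dim
  have hd1 : n + 1 = R + 1 := by omega
  have hd2 : n = R + 0 := by omega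
  exact max_le (by linarith only [z.ex, z.eK, z.eW, (ztu C), z.hi, (ztl C)]) (by linarith only [z.ex, z.eK, z.eW, z.hi, (ztl C)])

/-- the conditions for the bound -/
structure GOK (C : SIC α (rowsOf fam) [] r 4 8 n R 2 F j t) (g bK bW : ℤ) : Prop where
  goal : 0 ≤ (95 * (5 * 2 ^ 43 * 2 ^ j * 2 ^ R) + ((-40) * (5 * 2 ^ 41 * 2 ^ j * (C.W.x : ℤ)) + ((-424) * (5 * 2 ^ 41 * 2 ^ j * (C.A.x : ℤ)) + ((-424) * (5 * 2 ^ 41 * 2 ^ j * (C.P.x : ℤ)) + ((-160) * (5 * 2 ^ 43 * 2 ^ j * MM R F) + (160 * (5 * 2 ^ 19 * 2 ^ j * YY R F.x) + (160 * (5 * 2 ^ 42 * (F.d j t : ℤ)) + ((-256) * (5 * 2 ^ 38 * 2 ^ j * max 0 (10 * (F.x : ℤ) - 16 * (2 * (C.W.x : ℤ)))) + ((-64) * (5 * 2 ^ 38 * 2 ^ j * max 0 (6 * (F.x : ℤ) - 16 * (2 * (C.W.x : ℤ)))) + ((-160) * (1) + ((-48) * (5 * 2 ^ 40 * max 0 (2 ^ j * (6 * (F.x : ℤ)) - 8 * (t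 : ℤ))) + ((-31) * (5 * 2 ^ 40 * max 0 (2 ^ j * (8 * (F.x : ℤ)) - 8 * (t : ℤ))) + (0)))))))))))) : ℤ)
  K : BOK shp0 (n + 1) (2 * (C.A.x : ℤ)) C.K bK
  W : BOK shp0 (n + 1) (2 * (C.W2.x : ℤ)) C.W bW

/-- the coordinates but the first one -/
noncomputable abbrev vt (C : SIC α (rowsOf fam) [] r 4 8 n R 2 F j t) (g bK bW : ℤ) : List ℤ := [
    5 * 2 ^ 41 * 2 ^ j * (C.W.x : ℤ),
    5 * 2 ^ 41 * 2 ^ j * (C.A.x : ℤ),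
    5 * 2 ^ 41 * 2 ^ j * (C.P.x : ℤ),
    5 * 2 ^ 43 * 2 ^ j * (C.f : ℤ),
    5 * 2 ^ 43 * (t : ℤ),
    5 * 2 ^ 43 * 2 ^ j * MM R F,
    5 * 2 ^ 43 * 2 ^ j * MM R C.K,
    5 * 2 ^ 43 * 2 ^ j * MM R C.W,
    5 * 2 ^ 42 * 2 ^ j * QQ R C.K.x,
    5 * 2 ^ 42 * 2 ^ j * QQ R C.W.x,
    5 * 2 ^ 19 * 2 ^ j * YY R F.x,
    5 * 2 ^ 42 * (C.K.d j t : ℤ),
    5 * 2 ^ 41 * (C.W.d (j + 1) t : ℤ),
    5 * 2 ^ 42 * (F.d j t : ℤ),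
    5 * 2 ^ 38 * 2 ^ j * max 0 (10 * (F.x : ℤ) - 16 * (2 * (C.W.x : ℤ))),
    5 * 2 ^ 38 * 2 ^ j * max 0 (6 * (F.x : ℤ) - 16 * (2 * (C.W.x : ℤ))),
    1,
    5 * 2 ^ 40 * max 0 (2 ^ j * (6 * (F.x : ℤ)) - 8 * (t : ℤ)),
    5 * 2 ^ 40 * max 0 (2 ^ j * (8 * (F.x : ℤ)) - 8 * (t : ℤ)),
    5 * 2 ^ 43 * max 0 (2 * (2 ^ j * 2 ^ R) - (t : ℤ))]

/-- the point -/
noncomputable abbrev pt (C : SIC α (rowsOf fam) [] r 4 8 n R 2 F j t) (g bK bW : ℤ) : ℕ → ℤ := ptV (5 * 2 ^ 43 * 2 ^ j * 2 ^ R :: vt C g bK bW)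

theorem sysGG : (sys.GG : ℤ) = 512 := rfl

theorem pt0 (C : SIC α (rowsOf fam) [] r 4 8 n R 2 F j t) (g bK bW : ℤ) : pt C g bK bW 0 = 5 * 2 ^ 43 * 2 ^ j * 2 ^ R := rfl

theorem kp (j : ℕ) : (5 : ℤ) * 2 ^ 43 * 2 ^ j = 5 * 2 ^ (43 + j) := by rw [pow_add, mul_assoc]

theorem kpos (j : ℕ) : (0 : ℤ) < 5 * 2 ^ 43 * 2 ^ j := by positivity

theorem fv0 (C : SIC α (rowsOf fam) [] r 4 8 n R 2 F j t) (g bK bW : ℤ) : dot (sys.fe 0) (pt C g bK bW) =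
    5 * 2 ^ 43 * 2 ^ j * (F.x : ℤ) := by
  have z := siz C
  refine (fe_q (m := 21) (l := [(1, 4), (2, 4), (3, 4)]) (4 * (5 * 2 ^ 41 * 2 ^ j * (C.W.x : ℤ)) + (4 * (5 * 2 ^ 41 * 2 ^ j * (C.A.x : ℤ)) + (4 * (5 * 2 ^ 41 * 2 ^ j * (C.P.x : ℤ)) + (0))) : ℤ) rfl rfl).trans ?_
  linarith only [z.ex, z.eK, z.eW]

theorem fv1 (C : SIC α (rowsOf fam) [] r 4 8 n R 2 F j t) (g bK bW : ℤ) : dot (sys.fe 1) (pt C g bK bW) =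
    5 * 2 ^ 43 * 2 ^ j * (C.W.x : ℤ) := by
  have z := siz C
  refine (fe_q (m := 21) (l := [(1, 4)]) (4 * (5 * 2 ^ 41 * 2 ^ j * (C.W.x : ℤ)) + (0) : ℤ) rfl rfl).trans ?_
  linarith only [z.ex, z.eK, z.eW]

theorem fv2 (C : SIC α (rowsOf fam) [] r 4 8 n R 2 F j t) (g bK bW : ℤ) : dot (sys.fe 2) (pt C g bK bW) =
    5 * 2 ^ 43 * 2 ^ j * (C.K.x : ℤ) := by
  have z := siz C
  refine (fe_q (m := 21) (l := [(2, 4), (3, 4)]) (4 * (5 * 2 ^ 41 * 2 ^ j * (C.A.x : ℤ)) + (4 * (5 * 2 ^ 41 * 2 ^ j * (C.P.x : ℤ)) + (0)) : ℤ) rfl rfl).trans ?_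
  linarith only [z.ex, z.eK, z.eW]

theorem fv3 (C : SIC α (rowsOf fam) [] r 4 8 n R 2 F j t) (g bK bW : ℤ) : dot (sys.fe 3) (pt C g bK bW) =
    5 * 2 ^ 43 * (t : ℤ) := by
  have z := siz C
  refine (fe_q (m := 21) (l := [(5, 1)]) (1 * (5 * 2 ^ 43 * (t : ℤ)) + (0) : ℤ) rfl rfl).trans ?_
  linarith only [z.ex, z.eK, z.eW]

theorem fv4 (C : SIC α (rowsOf fam) [] r 4 8 n R 2 F j t) (g bK bW : ℤ) : dot (sys.fe 4) (pt C g bK bW) =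
    5 * 2 ^ 43 * ((-1) * (2 ^ j * (C.W.x : ℤ)) + 1 * (2 ^ j * (C.A.x : ℤ)) + 1 * (2 ^ j * (C.P.x : ℤ))) := by
  have z := siz C
  refine (fe_q (m := 21) (l := [(1, -4), (2, 4), (3, 4)]) ((-4) * (5 * 2 ^ 41 * 2 ^ j * (C.W.x : ℤ)) + (4 * (5 * 2 ^ 41 * 2 ^ j * (C.A.x : ℤ)) + (4 * (5 * 2 ^ 41 * 2 ^ j * (C.P.x : ℤ)) + (0))) : ℤ) rfl rfl).trans ?_
  linarith only [z.ex, z.eK, z.eW]

theorem fv5 (C : SIC α (rowsOf fam) [] r 4 8 n R 2 F j t) (g bK bW : ℤ) : dot (sys.fe 5) (pt C g bK bW) =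
    0 := by
  have z := siz C
  refine (fe_q (m := 21) (l := []) (0 : ℤ) rfl rfl).trans ?_
  linarith only [z.ex, z.eK, z.eW]

theorem fv6 (C : SIC α (rowsOf fam) [] r 4 8 n R 2 F j t) (g bK bW : ℤ) : dot (sys.fe 6) (pt C g bK bW) =
    5 * 2 ^ 43 * 2 ^ j * (2 * (C.W.x : ℤ)) := by
  have z := siz C
  refine (fe_q (m := 21) (l := [(1, 8)]) (8 * (5 * 2 ^ 41 * 2 ^ j * (C.W.x : ℤ)) + (0) : ℤ) rfl rfl).trans ?_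
  linarith only [z.ex, z.eK, z.eW]

theorem fv7 (C : SIC α (rowsOf fam) [] r 4 8 n R 2 F j t) (g bK bW : ℤ) : dot (sys.fe 7) (pt C g bK bW) =
    5 * 2 ^ 43 * max 0 (2 * (2 ^ j * 2 ^ R) - (t : ℤ)) := by
  have z := siz C
  refine (fe_q (m := 21) (l := [(20, 1)]) (1 * (5 * 2 ^ 43 * max 0 (2 * (2 ^ j * 2 ^ R) - (t : ℤ))) + (0) : ℤ) rfl rfl).trans ?_
  linarith only [z.ex, z.eK, z.eW]

end Pool.Agent.EdgeIso.Chk.S20
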