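import Pool.Agent.Lib.MP_48c8f3_co.Bas
import Pool.Agent.Lib.MP_48c8f3_co.S20H

set_option autoImplicit false
set_option linter.unusedSectionVars false
set_option linter.unusedVariables false

/-!
MP_48c8f3_co: the bounds of the expressions (machine made).
-/

namespace Pool.Agent.EdgeIso.Chk.S20

open Finset Pool.Agent.EdgeIso.Frame Pool.Agent.EdgeIso.Cell Pool.Agent.EdgeIso.Walsh
  Pool.Agent.EdgeIso.Smooth

variable {α : Type*} [DecidableEq α] {r : SRow} {n R : ℕ} {F : Frame.Num} {j t : ℕ}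

theorem bd0 (C : SIC α (rowsOf fam) [] r 4 8 n R 2 F j t) (g bK bW : ℤ) :
    ((512 : ℕ) : ℤ) * pt C g bK bW 0 ≤ sys.GG * dot (sys.fe 0) (pt C g bK bW) ∧
    sys.GG * dot (sys.fe 0) (pt C g bK bW) ≤ ((1024 : ℕ) : ℤ) * pt C g bK bW 0 := by
  have z := siz C
  have hd0 := C.dim
  rw [fv0 C g bK bW, sysGG, pt0]
  constructor
  · push_cast
    linarith only [z.ex, z.eK, z.eW, z.lo]
  · push_cast
    linarith only [z.ex, z.eK, z.eW, z.hi]

theorem bd1 (C : SIC α (rowsOf fam) [] r 4 8 n R 2 F j t) (g bK bW : ℤ) :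
    ((0 : ℕ) : ℤ) * pt C g bK bW 0 ≤ sys.GG * dot (sys.fe 1) (pt C g bK bW) ∧
    sys.GG * dot (sys.fe 1) (pt C g bK bW) ≤ ((512 : ℕ) : ℤ) * pt C g bK bW 0 := by
  have z := siz C
  have hd0 := C.dim
  rw [fv1 C g bK bW, sysGG, pt0]
  constructor
  · push_cast
    linarith only [z.ex, z.eK, z.eW, z.q0]
  · push_cast
    linarith only [z.ex, z.eK, z.eW, z.le1, z.hi]

theorem bd2 (C : SIC α (rowsOf fam) [] r 4 8 n R 2 F j t) (g bK bW : ℤ) :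
    ((256 : ℕ) : ℤ) * pt C g bK bW 0 ≤ sys.GG * dot (sys.fe 2) (pt C g bK bW) ∧
    sys.GG * dot (sys.fe 2) (pt C g bK bW) ≤ ((1024 : ℕ) : ℤ) * pt C g bK bW 0 := by
  have z := siz C
  have hd0 := C.dim
  rw [fv2 C g bK bW, sysGG, pt0]
  constructor
  · push_cast
    linarith only [z.ex, z.eK, z.eW, z.le1, z.lo]
  · push_cast
    linarith only [z.ex, z.eK, z.eW, z.hi, z.q0]

theorem bd3 (C : SIC α (rowsOf fam) [] r 4 8 n R 2 F j t) (g bK bW : ℤ) :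
    ((0 : ℕ) : ℤ) * pt C g bK bW 0 ≤ sys.GG * dot (sys.fe 3) (pt C g bK bW) ∧
    sys.GG * dot (sys.fe 3) (pt C g bK bW) ≤ ((2048 : ℕ) : ℤ) * pt C g bK bW 0 := by
  have z := siz C
  have hd0 := C.dim
  rw [fv3 C g bK bW, sysGG, pt0]
  constructor
  · push_cast
    linarith only [z.ex, z.eK, z.eW, (ztu C), (ztl C)]
  · push_cast
    linarith only [z.ex, z.eK, z.eW, (ztu C), (ztl C), z.hi]

theorem bd4 (C : SIC α (rowsOf fam) [] r 4 8 n R 2 F j t) (g bK bW : ℤ) :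
    ((0 : ℕ) : ℤ) * pt C g bK bW 0 ≤ sys.GG * dot (sys.fe 4) (pt C g bK bW) ∧
    sys.GG * dot (sys.fe 4) (pt C g bK bW) ≤ ((1024 : ℕ) : ℤ) * pt C g bK bW 0 := by
  have z := siz C
  have hd0 := C.dim
  rw [fv4 C g bK bW, sysGG, pt0]
  constructor
  · push_cast
    linarith only [z.ex, z.eK, z.eW, z.le1]
  · push_cast
    linarith only [z.ex, z.eK, z.eW, z.hi, z.q0]

theorem bd5 (C : SIC α (rowsOf fam) [] r 4 8 n R 2 F j t) (g bK bW : ℤ) :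
    ((0 : ℕ) : ℤ) * pt C g bK bW 0 ≤ sys.GG * dot (sys.fe 5) (pt C g bK bW) ∧
    sys.GG * dot (sys.fe 5) (pt C g bK bW) ≤ ((0 : ℕ) : ℤ) * pt C g bK bW 0 := by
  have z := siz C
  have hd0 := C.dim
  rw [fv5 C g bK bW, sysGG, pt0]
  constructor
  · push_cast
    linarith only [z.ex, z.eK, z.eW]
  · push_cast
    linarith only [z.ex, z.eK, z.eW]

theorem bd6 (C : SIC α (rowsOf fam) [] r 4 8 n R 2 F j t) (g bK bW : ℤ) :
    ((0 : ℕ) : ℤ) * pt C g bK bW 0 ≤ sys.GG * dot (sys.fe 6) (pt C g bK bW) ∧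
    sys.GG * dot (sys.fe 6) (pt C g bK bW) ≤ ((1024 : ℕ) : ℤ) * pt C g bK bW 0 := by
  have z := siz C
  have hd0 := C.dim
  rw [fv6 C g bK bW, sysGG, pt0]
  constructor
  · push_cast
    linarith only [z.ex, z.eK, z.eW, z.q0]
  · push_cast
    linarith only [z.ex, z.eK, z.eW, z.le1, z.hi]

theorem bd7 (C : SIC α (rowsOf fam) [] r 4 8 n R 2 F j t) (g bK bW : ℤ) :
    ((0 : ℕ) : ℤ) * pt C g bK bW 0 ≤ sys.GG * dot (sys.fe 7) (pt C g bK bW) ∧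
    sys.GG * dot (sys.fe 7) (pt C g bK bW) ≤ ((1024 : ℕ) : ℤ) * pt C g bK bW 0 := by
  have z := siz C
  have hd0 := C.dim
  rw [fv7 C g bK bW, sysGG, pt0]
  constructor
  · push_cast
    linarith only [z.ex, z.eK, z.eW, (ztu C), z.hi, frv2_0 C]
  · push_cast
    linarith only [z.ex, z.eK, z.eW, (ztu C), z.hi, (ztl C), fbv2_0 C]

theorem bdz (C : SIC α (rowsOf fam) [] r 4 8 n R 2 F j t) (g bK bW : ℤ) (l : List (ℕ × ℕ)) (e : ℕ) (h1 : 8 ≤ e) (h2 : e < 64)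
    (hl : l.getD e (0, 0) = (0, 0)) :
    (((l.getD e (0, 0)).1 : ℕ) : ℤ) * pt C g bK bW 0 ≤ sys.GG * dot (sys.fe e) (pt C g bK bW) ∧
    sys.GG * dot (sys.fe e) (pt C g bK bW) ≤ (((l.getD e (0, 0)).2 : ℕ) : ℤ) * pt C g bK bW 0 := by
  have hfe : sys.fe e = List.replicate 21 0 := by
    interval_cases e <;> rfl
  rw [hfe, hl, dot_replicate_zero]
  simp

/-- the bounds -/
def bds0 : List (ℕ × ℕ) := [(512, 1024), (0, 512), (256, 1024), (0, 2048), (0, 1024), (0, 0), (0, 1024), (0, 1024), (0, 0), (0, 0), (0, 0), (0, 0), (0, 0), (0, 0), (0, 0), (0, 0), (0, 0), (0, 0), (0, 0), (0, 0), (0, 0), (0, 0), (0, 0), (0, 0), (0, 0), (0, 0), (0, 0), (0, 0), (0, 0), (0, 0), (0, 0), (0, 0), (0, 0), (0, 0), (0, 0), (0, 0), (0, 0), (0, 0), (0, 0), (0, 0), (0, 0), (0, 0), (0, 0), (0, 0), (0, 0), (0, 0), (0, 0), (0, 0), (0, 0), (0, 0), (0, 0), (0, 0), (0, 0), (0, 0), (0, 0), (0, 0), (0, 0), (0,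 0), (0, 0), (0, 0), (0, 0), (0, 0), (0, 0), (0, 0)]

/-- all bounds hold -/
theorem bds_ok (C : SIC α (rowsOf fam) [] r 4 8 n R 2 F j t) (g bK bW : ℤ) : ∀ e, e < 64 →
    (((bds0.getD e (0, 0)).1 : ℕ) : ℤ) * pt C g bK bW 0 ≤ sys.GG * dot (sys.fe e) (pt C g bK bW) ∧
    sys.GG * dot (sys.fe e) (pt C g bK bW) ≤ (((bds0.getD e (0, 0)).2 : ℕ) : ℤ) * pt C g bK bW 0 := by
  intro e he
  rcases Nat.lt_or_ge e 8 with h | h
  · interval_cases e
    · exact bd0 C g bK bW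
    · exact bd1 C g bK bW
    · exact bd2 C g bK bW
    · exact bd3 C g bK bW
    · exact bd4 C g bK bW
    · exact bd5 C g bK bW
    · exact bd6 C g bK bW
    · exact bd7 C g bK bW
  · exact bdz C g bK bW bds0 e h he (by interval_cases e <;> rfl)

end Pool.Agent.EdgeIso.Chk.S20
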