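import Pool.Agent.Lib.MP_48c8f3_co.Bas
import Pool.Agent.Lib.MP_48c8f3_co.S20H
import Pool.Agent.Lib.MP_48c8f3_co.TEgt
import Pool.Agent.Lib.MP_48c8f3_co.SFam

set_option autoImplicit false
set_option linter.unusedSectionVars false
set_option linter.unusedVariables false

/-!
MP_48c8f3_co: the tables of the system (machine made).
-/

namespace Pool.Agent.EdgeIso.Chk.S20

open Finset Pool.Agent.EdgeIso.Frame Pool.Agent.EdgeIso.Cell Pool.Agent.EdgeIso.Walsh
  Pool.Agent.EdgeIso.Smooth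

variable {α : Type*} [DecidableEq α] {r : SRow} {n R : ℕ} {F : Frame.Num} {j t : ℕ}

theorem eq_tbG2_2 : tbG2_2 = TEgG22 := by decide +kernel

theorem small_tbG2_2 : smallOK tbG2_2 112 = true := by decide +kernel

theorem rows_tbG2_2 : LBnd α (fun N x v L => ∀ R k, N = R + k → k = 2 → 0 ≤ v → 2 ^ R ≤ x → x ≤ 2 * 2 ^ R →
    Rows 28 112 6 tbG2_2 129 R x v (gamL R x L)) := by
  rw [eq_tbG2_2]
  exact LBnd.exact TEgG22_rows

theorem chkTc1 : Nat.log2 tbTTc < 24 * 33 := by decide +kernel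

theorem chkTc2 : allB (2 * 16 + 1) (fun i => Nat.ble (tab tbTTc 33 0 i) (80 * i)) = true := by decide +kernel

theorem chkTc3 : tab tbTAc 2 0 0 = 40 := by decide +kernel

theorem chkTc4 : tab tbTAc 2 0 1 = 8 := by decide +kernel

end Pool.Agent.EdgeIso.Chk.S20
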