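import Pool.Agent.Lib.MP_48c8f3_co.Bas
import Pool.Agent.Lib.MP_48c8f3_co.S20H
import Pool.Agent.Lib.MP_48c8f3_co.S20T

set_option autoImplicit false
set_option linter.unusedSectionVars false
set_option linter.unusedVariables false

/-!
MP_48c8f3_co: the point satisfies the system, part 1 (machine made).
-/

namespace Pool.Agent.EdgeIso.Chk.S20

open Finset Pool.Agent.EdgeIso.Frame Pool.Agent.EdgeIso.Cell Pool.Agent.EdgeIso.Walsh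
  Pool.Agent.EdgeIso.Smooth

variable {α : Type*} [DecidableEq α] {r : SRow} {n R : ℕ} {F : Frame.Num} {j t : ℕ}

theorem li0 (C : SIC α (rowsOf fam) [] r 4 8 n R 2 F j t) (g bK bW : ℤ) (hG : GOK C g bK bW) :
    0 ≤ dot (f [(1, 8), (4, -2), (6, 1), (7, -1), (8, -1)]) (pt C g bK bW) := by
  have z := siz C
  have hd0 := C.dim
  refine lin_q (8 * (5 * 2 ^ 41 * 2 ^ j * (C.W.x : ℤ)) + ((-2) * (5 * 2 ^ 43 * 2 ^ j * (C.f : ℤ)) + (1 * (5 * 2 ^ 43 * 2 ^ j * MM R F) + ((-1) * (5 * 2 ^ 43 * 2 ^ j * MM R C.K) + ((-1) * (5 * 2 ^ 43 * 2 ^ j * MM R C.W) + (0))))) : ℤ) rfl rfl ?_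
  linarith only [z.ex, z.eK, z.eW, fmF C]

theorem li1 (C : SIC α (rowsOf fam) [] r 4 8 n R 2 F j t) (g bK bW : ℤ) (hG : GOK C g bK bW) :
    0 ≤ dot (f [(1, -1), (2, 1), (3, 1)]) (pt C g bK bW) := by
  have z := siz C
  have hd0 := C.dim
  refine lin_q ((-1) * (5 * 2 ^ 41 * 2 ^ j * (C.W.x : ℤ)) + (1 * (5 * 2 ^ 41 * 2 ^ j * (C.A.x : ℤ)) + (1 * (5 * 2 ^ 41 * 2 ^ j * (C.P.x : ℤ)) + (0))) : ℤ) rfl rfl ?_
  linarith only [z.ex, z.eK, z.eW, z.le1]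

theorem li2 (C : SIC α (rowsOf fam) [] r 4 8 n R 2 F j t) (g bK bW : ℤ) (hG : GOK C g bK bW) :
    0 ≤ dot (f [(1, -3), (2, -3), (3, -3), (5, 1), (18, 1)]) (pt C g bK bW) := by
  have z := siz C
  have hd0 := C.dim
  refine lin_q ((-3) * (5 * 2 ^ 41 * 2 ^ j * (C.W.x : ℤ)) + ((-3) * (5 * 2 ^ 41 * 2 ^ j * (C.A.x : ℤ)) + ((-3) * (5 * 2 ^ 41 * 2 ^ j * (C.P.x : ℤ)) + (1 * (5 * 2 ^ 43 * (t : ℤ)) + (1 * (5 * 2 ^ 40 * max 0 (2 ^ j * (6 * (F.x : ℤ)) - 8 * (t : ℤ))) + (0))))) : ℤ) rfl rfl ?_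
  linarith only [z.ex, z.eK, z.eW, frZF1 C]

theorem li3 (C : SIC α (rowsOf fam) [] r 4 8 n R 2 F j t) (g bK bW : ℤ) (hG : GOK C g bK bW) :
    0 ≤ dot (f [(1, -4), (2, -4), (3, -4), (5, 1), (19, 1)]) (pt C g bK bW) := by
  have z := siz C
  have hd0 := C.dim
  refine lin_q ((-4) * (5 * 2 ^ 41 * 2 ^ j * (C.W.x : ℤ)) + ((-4) * (5 * 2 ^ 41 * 2 ^ j * (C.A.x : ℤ)) + ((-4) * (5 * 2 ^ 41 * 2 ^ j * (C.P.x : ℤ)) + (1 * (5 * 2 ^ 43 * (t : ℤ)) + (1 * (5 * 2 ^ 40 * max 0 (2 ^ j * (8 * (F.x : ℤ)) - 8 * (t : ℤ))) + (0))))) : ℤ) rfl rfl ?_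
  linarith only [z.ex, z.eK, z.eW, frZF2 C]

theorem li4 (C : SIC α (rowsOf fam) [] r 4 8 n R 2 F j t) (g bK bW : ℤ) (hG : GOK C g bK bW) :
    0 ≤ dot (f [(1, 11), (2, -5), (3, -5), (15, 4)]) (pt C g bK bW) := by
  have z := siz C
  have hd0 := C.dim
  refine lin_q (11 * (5 * 2 ^ 41 * 2 ^ j * (C.W.x : ℤ)) + ((-5) * (5 * 2 ^ 41 * 2 ^ j * (C.A.x : ℤ)) + ((-5) * (5 * 2 ^ 41 * 2 ^ j * (C.P.x : ℤ)) + (4 * (5 * 2 ^ 38 * 2 ^ j * max 0 (10 * (F.x : ℤ) - 16 * (2 * (C.W.x : ℤ)))) + (0)))) : ℤ) rfl rfl ?_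
  linarith only [z.ex, z.eK, z.eW, frh1 C]

theorem li5 (C : SIC α (rowsOf fam) [] r 4 8 n R 2 F j t) (g bK bW : ℤ) (hG : GOK C g bK bW) :
    0 ≤ dot (f [(0, 95), (1, -40), (2, -424), (3, -424), (6, -160), (11, 160), (14, 160), (15, -256), (16, -64), (17, -160), (18, -48), (19, -31)]) (pt C g bK bW) := by
  have z := siz C
  have hd0 := C.dim
  refine lin_q (95 * (5 * 2 ^ 43 * 2 ^ j * 2 ^ R) + ((-40) * (5 * 2 ^ 41 * 2 ^ j * (C.W.x : ℤ)) + ((-424) * (5 * 2 ^ 41 * 2 ^ j * (C.A.x : ℤ)) + ((-424) * (5 * 2 ^ 41 * 2 ^ j * (C.P.x : ℤ)) + ((-160) * (5 * 2 ^ 43 * 2 ^ j * MM R F) + (160 * (5 * 2 ^ 19 * 2 ^ j * YY R F.x) + (160 * (5 * 2 ^ 42 * (F.d j t : ℤ)) + ((-256) * (5 * 2 ^ 38 * 2 ^ j * max 0 (10 * (F.x : ℤ) - 16 * (2 * (C.W.x : ℤ)))) + ((-64) * (5 * 2 ^ 38 * 2 ^ j * max 0 (6 * (F.x : ℤ) - 16 * (2 * (C.W.x : ℤ))))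 + ((-160) * (1) + ((-48) * (5 * 2 ^ 40 * max 0 (2 ^ j * (6 * (F.x : ℤ)) - 8 * (t : ℤ))) + ((-31) * (5 * 2 ^ 40 * max 0 (2 ^ j * (8 * (F.x : ℤ)) - 8 * (t : ℤ))) + (0)))))))))))) : ℤ) rfl rfl ?_
  linarith only [z.ex, z.eK, z.eW, hG.goal]

theorem li6 (C : SIC α (rowsOf fam) [] r 4 8 n R 2 F j t) (g bK bW : ℤ) (hG : GOK C g bK bW) :
    0 ≤ dot (f [(1, 4), (12, 1), (14, -1)]) (pt C g bK bW) := by
  have z := siz C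
  have hd0 := C.dim
  refine lin_q (4 * (5 * 2 ^ 41 * 2 ^ j * (C.W.x : ℤ)) + (1 * (5 * 2 ^ 42 * (C.K.d j t : ℤ)) + ((-1) * (5 * 2 ^ 42 * (F.d j t : ℤ)) + (0))) : ℤ) rfl rfl ?_
  linarith only [z.ex, z.eK, z.eW, f1DF C]

theorem li7 (C : SIC α (rowsOf fam) [] r 4 8 n R 2 F j t) (g bK bW : ℤ) (hG : GOK C g bK bW) :
    0 ≤ dot (f [(1, -4), (2, 4), (3, 4), (4, 1), (13, 2), (14, -1)]) (pt C g bK bW) := by
  have z := siz C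
  have hd0 := C.dim
  refine lin_q ((-4) * (5 * 2 ^ 41 * 2 ^ j * (C.W.x : ℤ)) + (4 * (5 * 2 ^ 41 * 2 ^ j * (C.A.x : ℤ)) + (4 * (5 * 2 ^ 41 * 2 ^ j * (C.P.x : ℤ)) + (1 * (5 * 2 ^ 43 * 2 ^ j * (C.f : ℤ)) + (2 * (5 * 2 ^ 41 * (C.W.d (j + 1) t : ℤ)) + ((-1) * (5 * 2 ^ 42 * (F.d j t : ℤ)) + (0)))))) : ℤ) rfl rfl ?_
  linarith only [z.ex, z.eK, z.eW, f4DF C]

theorem li8 (C : SIC α (rowsOf fam) [] r 4 8 n R 2 F j t) (g bK bW : ℤ) (hG : GOK C g bK bW) :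
    0 ≤ dot (f [(0, 1), (4, -1)]) (pt C g bK bW) := by
  have z := siz C
  have hd0 := C.dim
  have hd1 : n + 1 = R + 1 := by omega
  refine lin_q (1 * (5 * 2 ^ 43 * 2 ^ j * 2 ^ R) + ((-1) * (5 * 2 ^ 43 * 2 ^ j * (C.f : ℤ)) + (0)) : ℤ) rfl rfl ?_
  linarith only [z.ex, z.eK, z.eW, z.f1, z.le1, capZ (j := j) (R := R) C.mF (m := 1) hd1]

theorem li9 (C : SIC α (rowsOf fam) [] r 4 8 n R 2 F j t) (g bK bW : ℤ) (hG : GOK C g bK bW) :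
    0 ≤ dot (f [(0, 4), (5, -1)]) (pt C g bK bW) := by
  have z := siz C
  have hd0 := C.dim
  refine lin_q (4 * (5 * 2 ^ 43 * 2 ^ j * 2 ^ R) + ((-1) * (5 * 2 ^ 43 * (t : ℤ)) + (0)) : ℤ) rfl rfl ?_
  linarith only [z.ex, z.eK, z.eW, (ztu C), (ztl C), z.hi]

theorem li10 (C : SIC α (rowsOf fam) [] r 4 8 n R 2 F j t) (g bK bW : ℤ) (hG : GOK C g bK bW) :
    0 ≤ dot (f [(0, 8), (6, -1)]) (pt C g bK bW) := by
  have z := siz C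
  have hd0 := C.dim
  refine lin_q (8 * (5 * 2 ^ 43 * 2 ^ j * 2 ^ R) + ((-1) * (5 * 2 ^ 43 * 2 ^ j * MM R F) + (0)) : ℤ) rfl rfl ?_
  linarith only [z.ex, z.eK, z.eW, hG.goal, ftDF C, (ztu C), frh2 C, (ztl C), frh1 C, frZF1 C, frZF2 C, z.hi, fyF C, z.le1, (zero_le_one : (0 : ℤ) ≤ 1), fqF C]

theorem li11 (C : SIC α (rowsOf fam) [] r 4 8 n R 2 F j t) (g bK bW : ℤ) (hG : GOK C g bK bW) :
    0 ≤ dot (f [(0, 1), (9, -1)]) (pt C g bK bW) := by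
  have z := siz C
  have hd0 := C.dim
  refine lin_q (1 * (5 * 2 ^ 43 * 2 ^ j * 2 ^ R) + ((-1) * (5 * 2 ^ 42 * 2 ^ j * QQ R C.K.x) + (0)) : ℤ) rfl rfl ?_
  linarith only [z.ex, z.eK, z.eW, (ztu C), fqK C, z.hi, (ztl C)]

theorem li12 (C : SIC α (rowsOf fam) [] r 4 8 n R 2 F j t) (g bK bW : ℤ) (hG : GOK C g bK bW) :
    0 ≤ dot (f [(0, 1), (10, -1)]) (pt C g bK bW) := by
  have z := siz C
  have hd0 := C.dim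
  refine lin_q (1 * (5 * 2 ^ 43 * 2 ^ j * 2 ^ R) + ((-1) * (5 * 2 ^ 42 * 2 ^ j * QQ R C.W.x) + (0)) : ℤ) rfl rfl ?_
  linarith only [z.ex, z.eK, z.eW, (ztu C), fqW C, z.hi, (ztl C)]

theorem li13 (C : SIC α (rowsOf fam) [] r 4 8 n R 2 F j t) (g bK bW : ℤ) (hG : GOK C g bK bW) :
    0 ≤ dot (f [(0, 2), (11, -1)]) (pt C g bK bW) := by
  have z := siz C
  have hd0 := C.dim
  refine lin_q (2 * (5 * 2 ^ 43 * 2 ^ j * 2 ^ R) + ((-1) * (5 * 2 ^ 19 * 2 ^ j * YY R F.x) + (0)) : ℤ) rfl rfl ?_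
  linarith only [z.ex, z.eK, z.eW, (ztu C), fyF C, z.hi, fqF C, (ztl C)]

theorem li14 (C : SIC α (rowsOf fam) [] r 4 8 n R 2 F j t) (g bK bW : ℤ) (hG : GOK C g bK bW) :
    0 ≤ dot (f [(0, 2), (12, -1)]) (pt C g bK bW) := by
  have z := siz C
  have hd0 := C.dim
  refine lin_q (2 * (5 * 2 ^ 43 * 2 ^ j * 2 ^ R) + ((-1) * (5 * 2 ^ 42 * (C.K.d j t : ℤ)) + (0)) : ℤ) rfl rfl ?_
  linarith only [z.ex, z.eK, z.eW, z.hi, z.q0, ftDKt C]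

theorem li15 (C : SIC α (rowsOf fam) [] r 4 8 n R 2 F j t) (g bK bW : ℤ) (hG : GOK C g bK bW) :
    0 ≤ dot (f [(0, 1), (13, -1)]) (pt C g bK bW) := by
  have z := siz C
  have hd0 := C.dim
  refine lin_q (1 * (5 * 2 ^ 43 * 2 ^ j * 2 ^ R) + ((-1) * (5 * 2 ^ 41 * (C.W.d (j + 1) t : ℤ)) + (0)) : ℤ) rfl rfl ?_
  linarith only [z.ex, z.eK, z.eW, z.le1, z.hi, ftDWh C]

theorem li16 (C : SIC α (rowsOf fam) [] r 4 8 n R 2 F j t) (g bK bW : ℤ) (hG : GOK C g bK bW) :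
    0 ≤ dot (f [(0, 2), (14, -1)]) (pt C g bK bW) := by
  have z := siz C
  have hd0 := C.dim
  refine lin_q (2 * (5 * 2 ^ 43 * 2 ^ j * 2 ^ R) + ((-1) * (5 * 2 ^ 42 * (F.d j t : ℤ)) + (0)) : ℤ) rfl rfl ?_
  linarith only [z.ex, z.eK, z.eW, z.hi, ftDF C]

theorem li17 (C : SIC α (rowsOf fam) [] r 4 8 n R 2 F j t) (g bK bW : ℤ) (hG : GOK C g bK bW) :
    0 ≤ dot (f [(0, 1), (19, -1)]) (pt C g bK bW) := by
  have z := siz C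
  have hd0 := C.dim
  refine lin_q (1 * (5 * 2 ^ 43 * 2 ^ j * 2 ^ R) + ((-1) * (5 * 2 ^ 40 * max 0 (2 ^ j * (8 * (F.x : ℤ)) - 8 * (t : ℤ))) + (0)) : ℤ) rfl rfl ?_
  linarith only [z.ex, z.eK, z.eW, fbZF2 C]

theorem li18 (C : SIC α (rowsOf fam) [] r 4 8 n R 2 F j t) (g bK bW : ℤ) (hG : GOK C g bK bW) :
    0 ≤ dot (f [(0, 2), (20, -1)]) (pt C g bK bW) := by
  have z := siz C
  have hd0 := C.dim
  refine lin_q (2 * (5 * 2 ^ 43 * 2 ^ j * 2 ^ R) + ((-1) * (5 * 2 ^ 43 * max 0 (2 * (2 ^ j * 2 ^ R) - (t : ℤ))) + (0)) : ℤ) rfl rfl ?_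
  linarith only [z.ex, z.eK, z.eW, (ztu C), z.hi, (ztl C), fbv2_0 C]

theorem it0 (C : SIC α (rowsOf fam) [] r 4 8 n R 2 F j t) (g bK bW : ℤ) :
    (ItemL.cle 3 1024 (f [(0, 2), (5, -1), (20, -1)])).Sem sys (pt C g bK bW) := by
  have z := siz C
  have hd0 := C.dim
  intro hc
  rw [fv3, sysGG, pt0] at hc
  push_cast at hc
  have hu : 0 ≤ 2 * (2 ^ j * 2 ^ R) - (t : ℤ) := by linarith only [z.ex, z.eK, z.eW, hc]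
  have hf : max 0 (2 * (2 ^ j * 2 ^ R) - (t : ℤ)) ≤ 2 * (2 ^ j * 2 ^ R) - (t : ℤ) := max_le hu (le_refl _)
  refine lin_q (2 * (5 * 2 ^ 43 * 2 ^ j * 2 ^ R) + ((-1) * (5 * 2 ^ 43 * (t : ℤ)) + ((-1) * (5 * 2 ^ 43 * max 0 (2 * (2 ^ j * 2 ^ R) - (t : ℤ))) + (0))) : ℤ) rfl rfl ?_
  linarith only [z.ex, z.eK, z.eW, hf]

theorem it1 (C : SIC α (rowsOf fam) [] r 4 8 n R 2 F j t) (g bK bW : ℤ) :
    (ItemL.tl 2 5 1 2 (f [(9, 2)]) 4096 4096 8 tbgU 1025).Sem sys (pt C g bK bW) := by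
  have z := siz C
  have hd0 := C.dim
  refine gU_k (κ := 5 * 2 ^ 43 * 2 ^ j) (R := R) (X := C.K.x) (kpos j) rfl rfl (fv2 C g bK bW) (z_xsK C) ?_ (by norm_num)
  rw [fe_q (2 * (5 * 2 ^ 42 * 2 ^ j * QQ R C.K.x) + (0) : ℤ) rfl rfl]
  push_cast
  ring

theorem it2 (C : SIC α (rowsOf fam) [] r 4 8 n R 2 F j t) (g bK bW : ℤ) :
    (ItemL.tl 1 5 1 2 (f [(10, 2)]) 4096 4096 8 tbgU 1025).Sem sys (pt C g bK bW) := by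
  have z := siz C
  have hd0 := C.dim
  refine gU_k (κ := 5 * 2 ^ 43 * 2 ^ j) (R := R) (X := C.W.x) (kpos j) rfl rfl (fv1 C g bK bW) (z_xsW C) ?_ (by norm_num)
  rw [fe_q (2 * (5 * 2 ^ 42 * 2 ^ j * QQ R C.W.x) + (0) : ℤ) rfl rfl]
  push_cast
  ring

theorem it3 (C : SIC α (rowsOf fam) [] r 4 8 n R 2 F j t) (g bK bW : ℤ) :
    (ItemL.tl 0 5 1 2 (f [(0, 8), (11, -7)]) 4096 4096 8 tbsL 1025).Sem sys (pt C g bK bW) := by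
  have z := siz C
  have hd0 := C.dim
  refine sL_k (κ := 5 * 2 ^ 43 * 2 ^ j) (c := 43 + j) (y := 5 * 2 ^ 19 * 2 ^ j * YY R F.x) (R := R) (X := F.x) (mm := 5) (by norm_num) (kp j) (by omega) rfl rfl (fv0 C g bK bW) (z_xs C) (by ring) ?_ (by norm_num)
  rw [fe_q (8 * (5 * 2 ^ 43 * 2 ^ j * 2 ^ R) + ((-7) * (5 * 2 ^ 19 * 2 ^ j * YY R F.x) + (0)) : ℤ) rfl rfl]
  push_cast
  ring

theorem it4 (C : SIC α (rowsOf fam) [] r 4 8 n R 2 F j t) (g bK bW : ℤ) (hn : 1 ≤ n) :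
    (ItemL.tt 0 6 8 16 (f [(0, -2), (1, 4), (2, 4), (3, 4), (6, 1)]) (f [(1, 8)]) 3584 14336 128 2 224 tbG2_2 129).Sem sys (pt C g bK bW) := by
  have z := siz C
  have hd0 := C.dim
  have hlv : R ≤ n + 2 + 0 := by omega
  have key := octt_k (S := sys) (x := pt C g bK bW) (κ := 5 * 2 ^ 43 * 2 ^ j) (c := 43 + j) (R := R) (rc := 112) (i := 0) (ga := 512) (gb := 1024) (ex := 0) (eg := 6) (hx := 8) (cg := 16) (L := f [(0, -2), (1, 4), (2, 4), (3, 4), (6, 1)]) (U := f [(1, 8)]) (FL := 3584) (Fx := 128) (FT := 2) (FU := 14336) (cb := 224) (mm := 5) (by norm_num) (kp j) small_tbG2_2 rows_tbG2_2 rfl rfl (z_atF C) (by omega) (fv0 C g bK bW) (le_of_eq (fv6 C g bK bW).symm) hlv (by show _; omega) (by norm_num) (by norm_num) (by norm_num) (by norm_num) ?_ ?_ (by norm_num) (by norm_num)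
  · refine key ?_ ?_
    · rw [fv0, sysGG, pt0]; push_cast; linarith only [z.lo]
    · rw [fv0, sysGG, pt0]; push_cast; linarith only [z.hi]
  · rw [fe_q ((-2) * (5 * 2 ^ 43 * 2 ^ j * 2 ^ R) + (4 * (5 * 2 ^ 41 * 2 ^ j * (C.W.x : ℤ)) + (4 * (5 * 2 ^ 41 * 2 ^ j * (C.A.x : ℤ)) + (4 * (5 * 2 ^ 41 * 2 ^ j * (C.P.x : ℤ)) + (1 * (5 * 2 ^ 43 * 2 ^ j * MM R F) + (0))))) : ℤ) rfl rfl]
    norm_num1
    linarith only [z.ex, z.eK, z.eW]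
  · rw [fe_q (8 * (5 * 2 ^ 41 * 2 ^ j * (C.W.x : ℤ)) + (0) : ℤ) rfl rfl]
    norm_num1
    linarith only [z.ex, z.eK, z.eW]

theorem it5 (C : SIC α (rowsOf fam) [] r 4 8 n R 2 F j t) (g bK bW : ℤ) (hn : 1 ≤ n) :
    (ItemL.tl 0 6 8 16 (f [(0, -2), (1, 4), (2, 4), (3, 4), (6, 1)]) 3584 128 2 tbG2_2 129).Sem sys (pt C g bK bW) := by
  have z := siz C
  have hd0 := C.dim
  have hlv : R ≤ n + 2 + 0 := by omega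
  have key := octl_k (S := sys) (x := pt C g bK bW) (κ := 5 * 2 ^ 43 * 2 ^ j) (c := 43 + j) (R := R) (rc := 112) (i := 0) (ga := 512) (gb := 1024) (ex := 0) (eg := 6) (hx := 8) (cg := 16) (L := f [(0, -2), (1, 4), (2, 4), (3, 4), (6, 1)]) (FL := 3584) (Fx := 128) (FT := 2) (mm := 5) (by norm_num) (kp j) small_tbG2_2 rows_tbG2_2 rfl rfl (z_atF C) (by omega) (fv0 C g bK bW) (le_of_eq (fv6 C g bK bW)) hlv (by show _; omega) (by norm_num) (by norm_num) (by norm_num) (by norm_num) ?_ (by norm_num)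
  · refine key ?_ ?_
    · rw [fv0, sysGG, pt0]; push_cast; linarith only [z.lo]
    · rw [fv0, sysGG, pt0]; push_cast; linarith only [z.hi]
  · rw [fe_q ((-2) * (5 * 2 ^ 43 * 2 ^ j * 2 ^ R) + (4 * (5 * 2 ^ 41 * 2 ^ j * (C.W.x : ℤ)) + (4 * (5 * 2 ^ 41 * 2 ^ j * (C.A.x : ℤ)) + (4 * (5 * 2 ^ 41 * 2 ^ j * (C.P.x : ℤ)) + (1 * (5 * 2 ^ 43 * 2 ^ j * MM R F) + (0))))) : ℤ) rfl rfl]
    norm_num1
    linarith only [z.ex, z.eK, z.eW]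

theorem it6 (C : SIC α (rowsOf fam) [] r 4 8 n R 2 F j t) (g bK bW : ℤ) :
    (ItemL.mc 2 7 (f [(12, 2)])).Sem sys (pt C g bK bW) := by
  have z := siz C
  have hd0 := C.dim
  have hV : 2 ^ (n + 1) = 2 * 2 ^ R := by rw [show n + 1 = R + 1 by omega, pow_add]; ring
  have hVz : (2 : ℤ) ^ (n + 1) = 2 * 2 ^ R := by exact_mod_cast hV
  have key := mc_k (S := sys) (x := pt C g bK bW) (e1 := 2) (e2 := 7) (J := j) (i := 0) (V := 2) (t := t) (Z := f [(12, 2)]) (κ := 5 * 2 ^ 43 * 2 ^ j) (κ' := 5 * 2 ^ 43) (e := 5 * 2 ^ 43 * max 0 (2 * (2 ^ j * 2 ^ R) - (t : ℤ))) (d := 5 * 2 ^ 42 * (C.K.d j t : ℤ)) (R := R) C.kK' (kpos j) rfl (fv2 C g bK bW) hV (by positivity) ?_ (fv7 C g bK bW) ?_ ?_ (by positivity)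
  · exact key
  · have h1 := le_max_right (0 : ℤ) (2 * (2 ^ j * 2 ^ R) - (t : ℤ))
    rw [hVz]
    linarith only [h1]
  · rw [fe_q (2 * (5 * 2 ^ 42 * (C.K.d j t : ℤ)) + (0) : ℤ) rfl rfl]
    push_cast
    ring
  · push_cast
    ring

theorem it7 (C : SIC α (rowsOf fam) [] r 4 8 n R 2 F j t) (g bK bW : ℤ) :
    (ItemL.ts 2 32 (f [(2, 4), (3, 4), (7, 1), (9, -2), (12, -1)]) 20480 256 16 tbTTc 33 8 64 [(3, 1, 8, 1)] tbTAc 2).Sem sys (pt C g bK bW) := by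
  have z := siz C
  have hd0 := C.dim
  refine tsc_k (κ := 5 * 2 ^ 43 * 2 ^ j) (R := R) (J := j) (t := t) (a0 := 40) (v0 := 8) (dv := 5 * 2 ^ 42 * (C.K.d j t : ℤ)) (kpos j) rfl rfl C.kK' (fun s X h1 h2 => C.ih s X (by omega) h2) (fv2 C g bK bW) (by rw [fv3]; exact le_of_eq (by ring)) (z_xsK C) (by norm_num) (by ring) ?_ chkTc1 chkTc2 chkTc3 chkTc4
  refine (fe_q (4 * (5 * 2 ^ 41 * 2 ^ j * (C.A.x : ℤ)) + (4 * (5 * 2 ^ 41 * 2 ^ j * (C.P.x : ℤ)) + (1 * (5 * 2 ^ 43 * 2 ^ j * MM R C.K) + ((-2) * (5 * 2 ^ 42 * 2 ^ j * QQ R C.K.x) + ((-1) * (5 * 2 ^ 42 * (C.K.d j t : ℤ)) + (0))))) : ℤ) rfl rfl).trans ?_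
  linarith only [z.ex, z.eK, z.eW]

theorem it8 (C : SIC α (rowsOf fam) [] r 4 8 n R 2 F j t) (g bK bW : ℤ) :
    (ItemL.ts 1 32 (f [(1, 4), (8, 1), (10, -2), (13, -1)]) 20480 256 16 tbTTc 33 8 64 [(3, 1, 4, 1)] tbTAc 2).Sem sys (pt C g bK bW) := by
  have z := siz C
  have hd0 := C.dim
  refine tsc_k (κ := 5 * 2 ^ 43 * 2 ^ j) (R := R) (J := (j + 1)) (t := t) (a0 := 40) (v0 := 8) (dv := 5 * 2 ^ 41 * (C.W.d (j + 1) t : ℤ)) (kpos j) rfl rfl C.kW' (fun s X h1 h2 => C.ih s X (by omega) h2) (fv1 C g bK bW) (by rw [fv3]; exact le_of_eq (by rw [pow_add]; ring)) (z_xsW C) (by norm_num) (by rw [pow_add]; ring) ?_ chkTc1 chkTc2 chkTc3 chkTc4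
  refine (fe_q (4 * (5 * 2 ^ 41 * 2 ^ j * (C.W.x : ℤ)) + (1 * (5 * 2 ^ 43 * 2 ^ j * MM R C.W) + ((-2) * (5 * 2 ^ 42 * 2 ^ j * QQ R C.W.x) + ((-1) * (5 * 2 ^ 41 * (C.W.d (j + 1) t : ℤ)) + (0)))) : ℤ) rfl rfl).trans ?_
  linarith only [z.ex, z.eK, z.eW]

end Pool.Agent.EdgeIso.Chk.S20
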