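import Pool.Agent.Lib.MP_48c8f3_co.Bas
import Pool.Agent.Lib.MP_48c8f3_co.S20H

set_option autoImplicit false
set_option linter.unusedSectionVars false
set_option linter.unusedVariables false

/-!
MP_48c8f3_co: the propagation rules hold at the point (machine made).
-/

namespace Pool.Agent.EdgeIso.Chk.S20

open Finset Pool.Agent.EdgeIso.Frame Pool.Agent.EdgeIso.Cell Pool.Agent.EdgeIso.Walsh
  Pool.Agent.EdgeIso.Smooth

variable {α : Type*} [DecidableEq α] {r : SRow} {n R : ℕ} {F : Frame.Num} {j t : ℕ}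

theorem ru0 (C : SIC α (rowsOf fam) [] r 4 8 n R 2 F j t) (g bK bW : ℤ) :
    RuleL.Sem sys (pt C g bK bW) ⟨false, 0, 1, [(1, 1), (1, 2)], 0, [], 0⟩ := by
  have z := siz C
  have hd0 := C.dim
  apply rule_lo_q
  simp only [fsum, List.map_cons, List.map_nil, List.sum_cons, List.sum_nil, sysGG]
  rw [fv0 C g bK bW, fv1 C g bK bW, fv2 C g bK bW]
  push_cast
  linarith only [z.ex, z.eK, z.eW]

theorem ru1 (C : SIC α (rowsOf fam) [] r 4 8 n R 2 F j t) (g bK bW : ℤ) :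
    RuleL.Sem sys (pt C g bK bW) ⟨true, 2, 1, [(1, 0)], 0, [(1, 1)], 0⟩ := by
  have z := siz C
  have hd0 := C.dim
  apply rule_hi_q
  simp only [fsum, List.map_cons, List.map_nil, List.sum_cons, List.sum_nil, sysGG]
  rw [fv0 C g bK bW, fv1 C g bK bW, fv2 C g bK bW]
  push_cast
  exact le_max_of_le_right (by linarith only [z.ex, z.eK, z.eW])

theorem ru2 (C : SIC α (rowsOf fam) [] r 4 8 n R 2 F j t) (g bK bW : ℤ) :
    RuleL.Sem sys (pt C g bK bW) ⟨true, 0, 1, [(1, 1), (1, 2)], 0, [], 0⟩ := by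
  have z := siz C
  have hd0 := C.dim
  apply rule_hi_q
  simp only [fsum, List.map_cons, List.map_nil, List.sum_cons, List.sum_nil, sysGG]
  rw [fv0 C g bK bW, fv1 C g bK bW, fv2 C g bK bW]
  push_cast
  exact le_max_of_le_right (by linarith only [z.ex, z.eK, z.eW])

theorem ru3 (C : SIC α (rowsOf fam) [] r 4 8 n R 2 F j t) (g bK bW : ℤ) :
    RuleL.Sem sys (pt C g bK bW) ⟨false, 1, 1, [(1, 0)], 0, [(1, 2)], 0⟩ := by
  have z := siz C
  have hd0 := C.dim
  apply rule_lo_q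
  simp only [fsum, List.map_cons, List.map_nil, List.sum_cons, List.sum_nil, sysGG]
  rw [fv0 C g bK bW, fv1 C g bK bW, fv2 C g bK bW]
  push_cast
  linarith only [z.ex, z.eK, z.eW]

theorem ru4 (C : SIC α (rowsOf fam) [] r 4 8 n R 2 F j t) (g bK bW : ℤ) :
    RuleL.Sem sys (pt C g bK bW) ⟨false, 2, 1, [(1, 0)], 0, [(1, 1)], 0⟩ := by
  have z := siz C
  have hd0 := C.dim
  apply rule_lo_q
  simp only [fsum, List.map_cons, List.map_nil, List.sum_cons, List.sum_nil, sysGG]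
  rw [fv0 C g bK bW, fv1 C g bK bW, fv2 C g bK bW]
  push_cast
  linarith only [z.ex, z.eK, z.eW]

theorem ru5 (C : SIC α (rowsOf fam) [] r 4 8 n R 2 F j t) (g bK bW : ℤ) :
    RuleL.Sem sys (pt C g bK bW) ⟨false, 4, 1, [(1, 0)], 0, [(2, 1)], 0⟩ := by
  have z := siz C
  have hd0 := C.dim
  apply rule_lo_q
  simp only [fsum, List.map_cons, List.map_nil, List.sum_cons, List.sum_nil, sysGG]
  rw [fv0 C g bK bW, fv1 C g bK bW, fv4 C g bK bW]
  push_cast
  linarith only [z.ex, z.eK, z.eW]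

theorem ru6 (C : SIC α (rowsOf fam) [] r 4 8 n R 2 F j t) (g bK bW : ℤ) :
    RuleL.Sem sys (pt C g bK bW) ⟨true, 1, 2, [(1, 0)], 0, [(1, 4)], 0⟩ := by
  have z := siz C
  have hd0 := C.dim
  apply rule_hi_q
  simp only [fsum, List.map_cons, List.map_nil, List.sum_cons, List.sum_nil, sysGG]
  rw [fv0 C g bK bW, fv1 C g bK bW, fv4 C g bK bW]
  push_cast
  exact le_max_of_le_right (by linarith only [z.ex, z.eK, z.eW])

theorem ru7 (C : SIC α (rowsOf fam) [] r 4 8 n R 2 F j t) (g bK bW : ℤ) :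
    RuleL.Sem sys (pt C g bK bW) ⟨true, 1, 2, [(1, 6)], 0, [], 0⟩ := by
  have z := siz C
  have hd0 := C.dim
  apply rule_hi_q
  simp only [fsum, List.map_cons, List.map_nil, List.sum_cons, List.sum_nil, sysGG]
  rw [fv1 C g bK bW, fv6 C g bK bW]
  push_cast
  exact le_max_of_le_right (by linarith only [z.ex, z.eK, z.eW])

theorem ru8 (C : SIC α (rowsOf fam) [] r 4 8 n R 2 F j t) (g bK bW : ℤ) :
    RuleL.Sem sys (pt C g bK bW) ⟨false, 6, 1, [(2, 1)], 0, [], 0⟩ := by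
  have z := siz C
  have hd0 := C.dim
  apply rule_lo_q
  simp only [fsum, List.map_cons, List.map_nil, List.sum_cons, List.sum_nil, sysGG]
  rw [fv1 C g bK bW, fv6 C g bK bW]
  push_cast
  linarith only [z.ex, z.eK, z.eW]

theorem ru9 (C : SIC α (rowsOf fam) [] r 4 8 n R 2 F j t) (g bK bW : ℤ) :
    RuleL.Sem sys (pt C g bK bW) ⟨false, 1, 2, [(1, 6)], 0, [], 0⟩ := by
  have z := siz C
  have hd0 := C.dim
  apply rule_lo_q
  simp only [fsum, List.map_cons, List.map_nil, List.sum_cons, List.sum_nil, sysGG]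
  rw [fv1 C g bK bW, fv6 C g bK bW]
  push_cast
  linarith only [z.ex, z.eK, z.eW]

theorem ru10 (C : SIC α (rowsOf fam) [] r 4 8 n R 2 F j t) (g bK bW : ℤ) :
    RuleL.Sem sys (pt C g bK bW) ⟨false, 3, 2, [(1, 0)], 0, [], 0⟩ := by
  have z := siz C
  have hd0 := C.dim
  apply rule_lo_q
  simp only [fsum, List.map_cons, List.map_nil, List.sum_cons, List.sum_nil, sysGG]
  rw [fv0 C g bK bW, fv3 C g bK bW]
  push_cast
  linarith only [z.ex, z.eK, z.eW, (ztl C)]

theorem ru11 (C : SIC α (rowsOf fam) [] r 4 8 n R 2 F j t) (g bK bW : ℤ) :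
    RuleL.Sem sys (pt C g bK bW) ⟨true, 3, 1, [(1, 0)], 0, [], 0⟩ := by
  have z := siz C
  have hd0 := C.dim
  apply rule_hi_q
  simp only [fsum, List.map_cons, List.map_nil, List.sum_cons, List.sum_nil, sysGG]
  rw [fv0 C g bK bW, fv3 C g bK bW]
  push_cast
  exact le_max_of_le_right (by linarith only [z.ex, z.eK, z.eW, (ztu C)])

theorem rall_nil {P : RuleL → Prop} : ∀ r ∈ ([] : List RuleL), P r := by simp

theorem rall_cons {P : RuleL → Prop} {a : RuleL} {l : List RuleL} (h1 : P a) (h2 : ∀ r ∈ l, P r) :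
    ∀ r ∈ (a :: l), P r := List.forall_mem_cons.mpr ⟨h1, h2⟩

/-- all rules hold -/
theorem rls_sem (C : SIC α (rowsOf fam) [] r 4 8 n R 2 F j t) (g bK bW : ℤ) :
    ∀ r ∈ rls, RuleL.Sem sys (pt C g bK bW) r := by
  unfold rls
  exact rall_cons (ru0 C g bK bW) <|
    rall_cons (ru1 C g bK bW) <|
    rall_cons (ru2 C g bK bW) <|
    rall_cons (ru3 C g bK bW) <|
    rall_cons (ru4 C g bK bW) <|
    rall_cons (ru5 C g bK bW) <|
    rall_cons (ru6 C g bK bW) <|
    rall_cons (ru7 C g bK bW) <|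
    rall_cons (ru8 C g bK bW) <|
    rall_cons (ru9 C g bK bW) <|
    rall_cons (ru10 C g bK bW) <|
    rall_cons (ru11 C g bK bW) <|
    rall_nil

end Pool.Agent.EdgeIso.Chk.S20
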