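import Pool.Agent.Lib.MP_48c8f3_co.Bas
import Pool.Agent.Lib.MP_48c8f3_co.S20G1
import Pool.Agent.Lib.MP_48c8f3_co.S20R
import Pool.Agent.Lib.MP_48c8f3_co.S20E

set_option autoImplicit false
set_option linter.unusedSectionVars false
set_option linter.unusedVariables false

/-!
MP_48c8f3_co: the point satisfies the system (machine made).
-/

namespace Pool.Agent.EdgeIso.Chk.S20

open Finset Pool.Agent.EdgeIso.Frame Pool.Agent.EdgeIso.Cell Pool.Agent.EdgeIso.Walsh
  Pool.Agent.EdgeIso.Smooth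

variable {α : Type*} [DecidableEq α] {r : SRow} {n R : ℕ} {F : Frame.Num} {j t : ℕ}

set_option maxRecDepth 100000

theorem all_nil {P : ItemL → Prop} : ∀ it ∈ ([] : List ItemL), P it := by simp

theorem all_cons {P : ItemL → Prop} {a : ItemL} {l : List ItemL} (h1 : P a) (h2 : ∀ it ∈ l, P it) :
    ∀ it ∈ (a :: l), P it := List.forall_mem_cons.mpr ⟨h1, h2⟩

theorem lall_nil {P : List ℤ → Prop} : ∀ L ∈ ([] : List (List ℤ)), P L := by simp

theorem lall_cons {P : List ℤ → Prop} {a : List ℤ} {l : List (List ℤ)} (h1 : P a) (h2 : ∀ L ∈ l, P L) :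
    ∀ L ∈ (a :: l), P L := List.forall_mem_cons.mpr ⟨h1, h2⟩

/-- all linear items hold -/
theorem lin_sem (C : SIC α (rowsOf fam) [] r 4 8 n R 2 F j t) (g bK bW : ℤ) (hG : GOK C g bK bW) :
    ∀ L ∈ sys.lin, 0 ≤ dot L (pt C g bK bW) := by
  show ∀ L ∈ ([f [(1, 8), (4, -2), (6, 1), (7, -1), (8, -1)],
    f [(1, -1), (2, 1), (3, 1)],
    f [(1, -3), (2, -3), (3, -3), (5, 1), (18, 1)],
    f [(1, -4), (2, -4), (3, -4), (5, 1), (19, 1)],
    f [(1, 11), (2, -5), (3, -5), (15, 4)],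
    f [(0, 95), (1, -40), (2, -424), (3, -424), (6, -160), (11, 160), (14, 160), (15, -256), (16, -64), (17, -160), (18, -48), (19, -31)],
    f [(1, 4), (12, 1), (14, -1)],
    f [(1, -4), (2, 4), (3, 4), (4, 1), (13, 2), (14, -1)],
    f [(0, 1), (4, -1)],
    f [(0, 4), (5, -1)],
    f [(0, 8), (6, -1)],
    f [(0, 1), (9, -1)],
    f [(0, 1), (10, -1)],
    f [(0, 2), (11, -1)],
    f [(0, 2), (12, -1)],
    f [(0, 1), (13, -1)],
    f [(0, 2), (14, -1)],
    f [(0, 1), (19, -1)],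
    f [(0, 2), (20, -1)]] : List (List ℤ)), 0 ≤ dot L (pt C g bK bW)
  exact lall_cons (li0 C g bK bW hG) <|
    lall_cons (li1 C g bK bW hG) <|
    lall_cons (li2 C g bK bW hG) <|
    lall_cons (li3 C g bK bW hG) <|
    lall_cons (li4 C g bK bW hG) <|
    lall_cons (li5 C g bK bW hG) <|
    lall_cons (li6 C g bK bW hG) <|
    lall_cons (li7 C g bK bW hG) <|
    lall_cons (li8 C g bK bW hG) <|
    lall_cons (li9 C g bK bW hG) <|
    lall_cons (li10 C g bK bW hG) <|
    lall_cons (li11 C g bK bW hG) <|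
    lall_cons (li12 C g bK bW hG) <|
    lall_cons (li13 C g bK bW hG) <|
    lall_cons (li14 C g bK bW hG) <|
    lall_cons (li15 C g bK bW hG) <|
    lall_cons (li16 C g bK bW hG) <|
    lall_cons (li17 C g bK bW hG) <|
    lall_cons (li18 C g bK bW hG) <|
    lall_nil

/-- all items hold -/
theorem its_sem (C : SIC α (rowsOf fam) [] r 4 8 n R 2 F j t) (g bK bW : ℤ) (hG : GOK C g bK bW) (hn : 1 ≤ n) :
    ∀ it ∈ its, it.Sem sys (pt C g bK bW) := by
  unfold its
  exact all_cons (it0 C g bK bW) <|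
    all_cons (it1 C g bK bW) <|
    all_cons (it2 C g bK bW) <|
    all_cons (it3 C g bK bW) <|
    all_cons (it4 C g bK bW hn) <|
    all_cons (it5 C g bK bW hn) <|
    all_cons (it6 C g bK bW) <|
    all_cons (it7 C g bK bW) <|
    all_cons (it8 C g bK bW) <|
    all_nil

theorem nonneg_vt (C : SIC α (rowsOf fam) [] r 4 8 n R 2 F j t) (g bK bW : ℤ) (hG : GOK C g bK bW) : ∀ v ∈ (5 * 2 ^ 43 * 2 ^ j * 2 ^ R :: vt C g bK bW), (0 : ℤ) ≤ v := by
  have z := siz C
  have hhmF := gmF C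
  have hhqF := gqF C
  have hhyF := gyF C
  have hhmK := gmK C
  have hhqK := gqK C
  have hhyK := gyK C
  have hhmW := gmW C
  have hhqW := gqW C
  have hhyW := gyW C
  have hhmP := gmP C
  have hhqP := gqP C
  have hhyP := gyP C
  have hhmA := gmA C
  have hhqA := gqA C
  have hhyA := gyA C
  have hhmW1 := gmW1 C
  have hhqW1 := gqW1 C
  have hhyW1 := gyW1 C
  have hhmW2 := gmW2 C
  have hhqW2 := gqW2 C
  have hhyW2 := gyW2 C
  have hv2_0 := fzv2_0 C
  have hh1 := fzh1 C
  have hh2 := fzh2 C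
  have hZF1 := fzZF1 C
  have hZF2 := fzZF2 C
  simp only [List.mem_cons, forall_eq_or_imp, List.not_mem_nil, IsEmpty.forall_iff, implies_true,
    and_true]
  refine ⟨?_, ?_, ?_, ?_, ?_, ?_, ?_, ?_, ?_, ?_, ?_, ?_, ?_, ?_, ?_, ?_, ?_, ?_, ?_, ?_, ?_⟩
  · positivity
  · positivity
  · positivity
  · positivity
  · positivity
  · positivity
  · linarith only [hhmF]
  · linarith only [hhmK]
  · linarith only [hhmW]
  · linarith only [hhqK]
  · linarith only [hhqW]
  · linarith only [hhyF]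
  · positivity
  · positivity
  · positivity
  · linarith only [hh1]
  · linarith only [hh2]
  · positivity
  · linarith only [hZF1]
  · linarith only [hZF2]
  · linarith only [hv2_0]

/-- the point is admissible -/
theorem core_cst (C : SIC α (rowsOf fam) [] r 4 8 n R 2 F j t) (g bK bW : ℤ) (hG : GOK C g bK bW) :
    (∀ i, 0 ≤ pt C g bK bW i) ∧ 0 < pt C g bK bW 0 ∧ 0 < dot sys.fin (pt C g bK bW) := by
  refine ⟨ptV_nonneg (nonneg_vt C g bK bW hG), ?_, ?_⟩
  · rw [pt0]
    positivity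
  · have h0 : dot sys.fin (pt C g bK bW) = (1 * (1) + (0) : ℤ) := fe_q (m := 21) (l := [(17, 1)]) _ rfl rfl
    rw [h0]
    norm_num

/-- the certificate -/
theorem core_sound {Cc : Cst} (hC : Cc = sys.cst) {tr : IT} {Tt : FT}
    (hTr : Tt = tr.run (its.map (ItemL.run sys Cc))) {grps : List (List ℕ)} {trr : IT} {Rr : RT}
    (hRr : Rr = trr.runR (grps.map (grp (rls.map RuleL.run)))) {st : ℕ} (hst : st = mkst bds0)
    (ht : Cl Cc Tt Rr st) (C : SIC α (rowsOf fam) [] r 4 8 n R 2 F j t) (g bK bW : ℤ) (hG : GOK C g bK bW) (hn : 1 ≤ n) : False :=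
  sys_sound (S := sys) (by decide) hex (by decide) hfin
    hlin (its := its) hwf hC hTr (rls := rls) (by decide +kernel)
    (grps := grps) hRr (bds := bds0) (by decide +kernel) hst ht (core_cst C g bK bW hG).1
    (core_cst C g bK bW hG).2.1 (core_cst C g bK bW hG).2.2 (lin_sem C g bK bW hG) (its_sem C g bK bW hG hn) (rls_sem C g bK bW) (bds_ok C g bK bW)

end Pool.Agent.EdgeIso.Chk.S20
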