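import Pool.Agent.Lib.MP_48c8f3_co.Bas
import Pool.Agent.Lib.MP_48c8f3_co.SNd
import Pool.Agent.Lib.MP_48c8f3_co.KNc

set_option autoImplicit false
set_option linter.unusedSectionVars false

/-!
MP_48c8f3_co: the step of the induction for the smooth inequality, reduced to the dimensions which
are at least `3`.
-/

namespace Pool.Agent.EdgeIso.Frame

open Finset Pool.Agent.EdgeIso.Smooth

variable {α : Type*} [DecidableEq α]

/-- the row for two points of a square -/
def SRow.two (r : SRow) : Bool :=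
  decide (Cond r.cond 4 2 → -(2 * (r.c : ℤ)) ≤ 4 * r.bV + 2 * r.bx) &&
    r.th.all (fun h => Nat.ble 4 h.2) && r.at 4 2 (hsum r.hs 2 0)

theorem thsum_two {th : List (ℕ × ℕ)} (h : ∀ a ∈ th, 4 ≤ a.2) (j : ℕ) (t : ℤ) :
    (((th.map fun h => h.1).sum : ℕ) : ℤ) * (8 * max 0 (2 ^ j - t)) ≤ thsum th j t 2 := by
  induction th with
  | nil => simp [thsum]
  | cons a l ih =>
    have h1 := ih (fun b hb => h b (List.mem_cons_of_mem _ hb))
    have h2 := h a List.mem_cons_self
    have hj : (0 : ℤ) < 2 ^ j := by positivity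
    unfold thsum at h1 ⊢
    rw [List.map_cons, List.map_cons, List.sum_cons, List.sum_cons, Nat.cast_add]
    have h3 : 8 * max 0 ((2 : ℤ) ^ j - t) ≤ max 0 (2 ^ j * ((a.2 : ℤ) * 2) - 8 * t) := by
      have h4 : (4 : ℤ) ≤ a.2 := by exact_mod_cast h2
      have h5 := mul_le_mul_of_nonneg_left h4 hj.le
      rcases le_total (0 : ℤ) ((2 : ℤ) ^ j - t) with h6 | h6
      · rw [max_eq_right h6]
        exact le_trans (by linarith) (le_max_right _ _)
      · rw [max_eq_left h6, mul_zero]
        exact le_max_left _ _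
    have h4 := mul_le_mul_of_nonneg_left h3 (by positivity : (0 : ℤ) ≤ a.1)
    linarith

theorem SRow.hold_two {r : SRow} (hb : r.two = true)
    (he : 2 * r.c ≤ r.e ∧ (r.th.map fun h => h.1).sum = r.c) {F : Num} (C : SI2 α 0 F)
    (T : ∀ (s : Finset α) (X : Finset (Finset α)), s.card < 2 → Sub s X → TC 2 s X)
    (T' : ∀ (s : Finset α) (X : Finset (Finset α)), s.card = 2 → Sub s X → TC 2 s X)
    (hx : F.x = 2) : r.Hold 2 (2 * (C.W.x : ℤ)) F := by
  unfold SRow.two at hb
  simp only [Bool.and_eq_true] at hb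
  obtain ⟨⟨b1, b2⟩, b3⟩ := hb
  have m1 := C.mF.sz
  have m2 := C.mF.le
  have m3 := C.mK.sz
  have m4 := C.mK.le
  have m5 := C.mF.fle
  have m6 := C.h1
  rcases Nat.eq_zero_or_pos C.W.x with hW | hW
  · refine SRow.hold_of_at he C.fF T' (hv := hsum r.hs 2 0) ?_ ?_
    · rw [hx]
      exact b3
    · rw [hx, hW]
      simp
  · have hW1 : C.W.x = 1 := by omega
    have hK1 : C.K.x = 1 := by omega
    have hA : C.A.x = 0 := by omega
    rw [hW1, hA] at m6
    intro hc j t
    have hc' : Cond r.cond 4 2 := by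
      have e : ((F.x : ℕ) : ℤ) = 2 := by rw [hx]; rfl
      rw [e] at hc
      exact hc
    have c1 := of_decide_eq_true b1 hc'
    have hf : C.f = 1 := by omega
    have l1 := C.mF.Lr
    have l2 := C.kK.L0
    have l3 := C.kW.L0
    have l4 := dg_nonneg C.K.x C.W.x
    rw [hf] at l1
    have l5 := C.fF.E_ge
    have l6 := Pool.Agent.EdgeIso.Chk.Fam.single_L C.kK hK1
    have d1 := C.mF.delK j t
    have d2 := C.kK.tc (fun s X h => T s X (by omega)) j t
    rw [l6, mul_zero, mul_zero, zero_add, hK1] at d2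
    rw [hW1] at d1
    have hS := Sc_pos
    have hj : (0 : ℤ) < 2 ^ j := by positivity
    have hc0 : (0 : ℤ) ≤ r.c := by positivity
    have t1 := thsum_two (th := r.th) (fun a ha => Nat.le_of_ble_eq_true (List.all_eq_true.mp b2 a ha)) j t
    rw [he.2] at t1
    have k1 : (F.d j t : ℤ) ≤ 2 * max 0 (2 ^ j - (t : ℤ)) + 2 * 2 ^ j := by
      push_cast at d1 d2
      rw [mul_one] at d1 d2
      linarith
    have k2 : Sc * 2 ≤ F.E := by
      have : (2 : ℤ) ≤ F.L := by push_cast at l1; linarith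
      have := mul_le_mul_of_nonneg_left this hS.le
      linarith
    have k3 := hsum_nonneg r.hs F.x (2 * (C.W.x : ℤ))
    have he' : (2 * r.c : ℤ) ≤ r.e := by exact_mod_cast he.1
    have k4 : (2 * r.c : ℤ) * (Sc * 2) ≤ r.e * F.E :=
      (mul_le_mul_of_nonneg_left k2 (by positivity)).trans
        (mul_le_mul_of_nonneg_right he' C.fF.E0)
    have e : ((F.x : ℕ) : ℤ) = 2 := by rw [hx]; rfl
    rw [e] at k3 ⊢
    have k5 : Sc * (-(2 * (r.c : ℤ))) ≤
        Sc * (r.bV * 2 ^ (0 + 2) + r.bx * 2 + hsum r.hs 2 (2 * (C.W.x : ℤ))) := by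
      apply mul_le_mul_of_nonneg_left _ hS.le
      norm_num
      linarith
    have k6 := mul_le_mul_of_nonneg_left (add_le_add k4 k5) (by positivity : (0 : ℤ) ≤ 2 ^ j * 8)
    have k7 := mul_le_mul_of_nonneg_left k1 (mul_nonneg (mul_nonneg (by norm_num : (0 : ℤ) ≤ 8) hc0) hS.le)
    have k8 := mul_le_mul_of_nonneg_left t1 (by positivity : (0 : ℤ) ≤ 2 * Sc)
    have e2 : (2 : ℤ) ^ (0 + 2) = 2 ^ 2 := by norm_num
    rw [e2] at k6
    linarith

theorem SRow.one_ce {r : SRow} (h : r.one = true) : 2 * r.c ≤ r.e := by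
  unfold SRow.one at h
  simp only [Bool.and_eq_true] at h
  exact (of_decide_eq_true h.1.1.1.1.1.1).1

/-- rows of an exact level, for the dimensions at least `3` -/
theorem SStepR.exact' {rows : List SRow} {erows : List ERow} {r : SRow} {k τ0 τ1 : ℕ} (hk : 2 ≤ k)
    (h1 : ∀ V x : ℤ, Cond r.cond V x → V ≤ 2 ^ k * x)
    (h2 : ∀ V x : ℤ, Cond r.cond V x → 2 ^ (k - 1) * x ≤ V) (ho : r.one = true)
    (ht : r.two = true) (he : r.ends τ0 τ1 = true)
    (hfalse : ∀ n R F j t, 1 ≤ n → SIC α rows erows r τ0 τ1 n R k F j t → False) :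
    SStepR α rows erows r := by
  intro n F C hx T T' S hc
  have i1 := h1 _ _ hc
  have i2 := h2 _ _ hc
  rcases oct_exact (m := n + 2) (by omega : 1 ≤ k) hx (by exact_mod_cast i1) (by exact_mod_cast i2) with h3 | h3
  · exact SRow.hold_one (n := n + 1) ho C.fF T' h3 hc
  · obtain ⟨R, e1, e2, e3⟩ := h3
    obtain ⟨e4, e5⟩ := SRow.ends_spec he
    rcases Nat.eq_zero_or_pos n with hn | hn
    · subst hn
      have hR : R = 0 := by omega
      subst hR
      rcases Nat.lt_or_ge F.x 2 with h4 | h4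
      · exact SRow.hold_one (n := 1) ho C.fF T' (by omega) hc
      · exact SRow.hold_two ht ⟨(SRow.one_ce ho), SRow.one_sum ho⟩ C T T' (by omega) hc
    · exact SRow.mid C.fF (SRow.one_sum ho) e5 e4 (fun j t j3 t0 t1 => by
        by_contra h
        unfold SRow.In at h
        push Not at h
        exact hfalse n R F j t hn { C with
          dim := e1, lo := e2, hi := e3, ih := T, ihF := T', sib := S, j3 := j3,
          tlo := t0, thi := t1, cond := hc, neg := h })

/-- rows of a level at least `k`, for the dimensions at least `3` -/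
theorem SStepR.ge' {rows : List SRow} {erows : List ERow} {r : SRow} {k τ0 τ1 : ℕ} (hk : 2 ≤ k)
    (h2 : ∀ V x : ℤ, Cond r.cond V x → 2 ^ (k - 1) * x ≤ V) (ho : r.one = true)
    (ht : r.two = true) (he : r.ends τ0 τ1 = true)
    (hfalse : ∀ n R k' F j t, 1 ≤ n → k ≤ k' → SIC α rows erows r τ0 τ1 n R k' F j t → False) :
    SStepR α rows erows r := by
  intro n F C hx T T' S hc
  have i2 := h2 _ _ hc
  rcases oct_ge (m := n + 2) (by omega : 1 ≤ k) hx (by exact_mod_cast i2) with h3 | h3
  · exact SRow.hold_one (n := n + 1) ho C.fF T' h3 hc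
  · obtain ⟨R, k', e1, e0, e2, e3⟩ := h3
    obtain ⟨e4, e5⟩ := SRow.ends_spec he
    rcases Nat.eq_zero_or_pos n with hn | hn
    · subst hn
      have hR : R = 0 := by omega
      subst hR
      rcases Nat.lt_or_ge F.x 2 with h4 | h4
      · exact SRow.hold_one (n := 1) ho C.fF T' (by omega) hc
      · exact SRow.hold_two ht ⟨(SRow.one_ce ho), SRow.one_sum ho⟩ C T T' (by omega) hc
    · exact SRow.mid C.fF (SRow.one_sum ho) e5 e4 (fun j t j3 t0 t1 => by
        by_contra h
        unfold SRow.In at h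
        push Not at h
        exact hfalse n R k' F j t hn e0 { C with
          dim := e1, lo := e2, hi := e3, ih := T, ihF := T', sib := S, j3 := j3,
          tlo := t0, thi := t1, cond := hc, neg := h })

end Pool.Agent.EdgeIso.Frame
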