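import Pool.Agent.Lib.MP_48c8f3_co.Bas
import Pool.Agent.Lib.MP_48c8f3_co.S30H
import Pool.Agent.Lib.MP_48c8f3_co.TEgt
import Pool.Agent.Lib.MP_48c8f3_co.SFam

set_option autoImplicit false
set_option linter.unusedSectionVars false
set_option linter.unusedVariables false

/-!
MP_48c8f3_co: the tables of the system (machine made).
-/

namespace Pool.Agent.EdgeIso.Chk.S30

open Finset Pool.Agent.EdgeIso.Frame Pool.Agent.EdgeIso.Cell Pool.Agent.EdgeIso.Walsh
  Pool.Agent.EdgeIso.Smooth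

variable {α : Type*} [DecidableEq α] {r : SRow} {n R : ℕ} {F : Frame.Num} {j t : ℕ}

theorem eq_tbG2_1 : tbG2_1 = TEgG21 := by decide +kernel

theorem small_tbG2_1 : smallOK tbG2_1 56 = true := by decide +kernel

theorem rows_tbG2_1 : LBnd α (fun N x v L => ∀ R k, N = R + k → k = 2 → 0 ≤ v → 2 ^ R ≤ x → x ≤ 2 * 2 ^ R →
    Rows 28 56 6 tbG2_1 129 R x v (gamL R x L)) := by
  rw [eq_tbG2_1]
  exact LBnd.exact TEgG21_rows

theorem eq_tbG3_0 : tbG3_0 = TEgG30 := by decide +kernel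

theorem small_tbG3_0 : smallOK tbG3_0 28 = true := by decide +kernel

theorem rows_tbG3_0 : LBnd α (fun N x v L => ∀ R k, N = R + k → k = 3 → 0 ≤ v → 2 ^ R ≤ x → x ≤ 2 * 2 ^ R →
    Rows 28 28 6 tbG3_0 129 R x v (gamL R x L)) := by
  rw [eq_tbG3_0]
  exact LBnd.exact TEgG30_rows

theorem eq_tbG3_1 : tbG3_1 = TEgG31 := by decide +kernel

theorem small_tbG3_1 : smallOK tbG3_1 56 = true := by decide +kernel

theorem rows_tbG3_1 : LBnd α (fun N x v L => ∀ R k, N = R + k → k = 3 → 0 ≤ v → 2 ^ R ≤ x → x ≤ 2 * 2 ^ R →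
    Rows 28 56 6 tbG3_1 129 R x v (gamL R x L)) := by
  rw [eq_tbG3_1]
  exact LBnd.exact TEgG31_rows

theorem chkTc1 : Nat.log2 tbTTc < 24 * 33 := by decide +kernel

theorem chkTc2 : allB (2 * 16 + 1) (fun i => Nat.ble (tab tbTTc 33 0 i) (80 * i)) = true := by decide +kernel

theorem chkTc3 : tab tbTAc 2 0 0 = 40 := by decide +kernel

theorem chkTc4 : tab tbTAc 2 0 1 = 8 := by decide +kernel

theorem chkL_tbTF0_2 : Nat.log2 tbTF0_2 < 24 * (famG0.length * 33) := by decide +kernel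

theorem chkT_tbTF0_2_0 : allShp SFC FE AH0 (4 * (1 * 1)) 3 2 16 80 2 0 tbTF0_2 33 tbTA0 10 famG0 0 = true := by decide +kernel

theorem okG0 : okG famG0 = true := by decide +kernel

theorem eqTX : tbTX = 0 := by decide +kernel

theorem okTY : digOK 1 tbTY 0 0 0 shp0.hs = true := by decide +kernel

end Pool.Agent.EdgeIso.Chk.S30
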