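import Pool.Agent.Lib.MP_48c8f3_co.Bas
import Pool.Agent.Lib.MP_48c8f3_co.S30H

set_option autoImplicit false
set_option linter.unusedSectionVars false
set_option linter.unusedVariables false

/-!
MP_48c8f3_co: the propagation rules hold at the point (machine made).
-/

namespace Pool.Agent.EdgeIso.Chk.S30

open Finset Pool.Agent.EdgeIso.Frame Pool.Agent.EdgeIso.Cell Pool.Agent.EdgeIso.Walsh
  Pool.Agent.EdgeIso.Smooth

variable {α : Type*} [DecidableEq α] {r : SRow} {n R : ℕ} {F : Frame.Num} {j t : ℕ}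

theorem ru0 (C : SIC α (rowsOf fam) [] r 4 8 n R 3 F j t) (g bK bW : ℤ) :
    RuleL.Sem sys (pt C g bK bW) ⟨true, 7, 1, [(1, 2), (1, 12)], 0, [], 512⟩ := by
  have z := siz C
  have hd0 := C.dim
  apply rule_hi_q
  simp only [fsum, List.map_cons, List.map_nil, List.sum_cons, List.sum_nil, sysGG]
  rw [fv2 C g bK bW, fv7 C g bK bW, fv12 C g bK bW]
  push_cast
  exact le_max_of_le_right (by linarith only [z.ex, z.eK, z.eW])

theorem ru1 (C : SIC α (rowsOf fam) [] r 4 8 n R 3 F j t) (g bK bW : ℤ) :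
    RuleL.Sem sys (pt C g bK bW) ⟨false, 12, 1, [(1, 7)], 512, [(1, 2)], 0⟩ := by
  have z := siz C
  have hd0 := C.dim
  apply rule_lo_q
  simp only [fsum, List.map_cons, List.map_nil, List.sum_cons, List.sum_nil, sysGG]
  rw [fv2 C g bK bW, fv7 C g bK bW, fv12 C g bK bW]
  push_cast
  linarith only [z.ex, z.eK, z.eW]

theorem ru2 (C : SIC α (rowsOf fam) [] r 4 8 n R 3 F j t) (g bK bW : ℤ) :
    RuleL.Sem sys (pt C g bK bW) ⟨false, 7, 1, [(1, 2), (1, 12)], 0, [], 512⟩ := by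
  have z := siz C
  have hd0 := C.dim
  apply rule_lo_q
  simp only [fsum, List.map_cons, List.map_nil, List.sum_cons, List.sum_nil, sysGG]
  rw [fv2 C g bK bW, fv7 C g bK bW, fv12 C g bK bW]
  push_cast
  linarith only [z.ex, z.eK, z.eW]

theorem ru3 (C : SIC α (rowsOf fam) [] r 4 8 n R 3 F j t) (g bK bW : ℤ) :
    RuleL.Sem sys (pt C g bK bW) ⟨true, 12, 1, [(1, 7)], 512, [(1, 2)], 0⟩ := by
  have z := siz C
  have hd0 := C.dim
  apply rule_hi_q
  simp only [fsum, List.map_cons, List.map_nil, List.sum_cons, List.sum_nil, sysGG]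
  rw [fv2 C g bK bW, fv7 C g bK bW, fv12 C g bK bW]
  push_cast
  exact le_max_of_le_right (by linarith only [z.ex, z.eK, z.eW])

theorem ru4 (C : SIC α (rowsOf fam) [] r 4 8 n R 3 F j t) (g bK bW : ℤ) :
    RuleL.Sem sys (pt C g bK bW) ⟨false, 2, 3, [(2, 7)], 2048, [(2, 13)], 0⟩ := by
  have z := siz C
  have hd0 := C.dim
  apply rule_lo_q
  simp only [fsum, List.map_cons, List.map_nil, List.sum_cons, List.sum_nil, sysGG]
  rw [fv2 C g bK bW, fv7 C g bK bW, fv13 C g bK bW]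
  push_cast
  linarith only [z.ex, z.eK, z.eW]

theorem ru5 (C : SIC α (rowsOf fam) [] r 4 8 n R 3 F j t) (g bK bW : ℤ) :
    RuleL.Sem sys (pt C g bK bW) ⟨true, 7, 2, [(3, 2), (2, 13)], 0, [], 2048⟩ := by
  have z := siz C
  have hd0 := C.dim
  apply rule_hi_q
  simp only [fsum, List.map_cons, List.map_nil, List.sum_cons, List.sum_nil, sysGG]
  rw [fv2 C g bK bW, fv7 C g bK bW, fv13 C g bK bW]
  push_cast
  exact le_max_of_le_right (by linarith only [z.ex, z.eK, z.eW])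

theorem ru6 (C : SIC α (rowsOf fam) [] r 4 8 n R 3 F j t) (g bK bW : ℤ) :
    RuleL.Sem sys (pt C g bK bW) ⟨false, 13, 2, [(2, 7)], 2048, [(3, 2)], 0⟩ := by
  have z := siz C
  have hd0 := C.dim
  apply rule_lo_q
  simp only [fsum, List.map_cons, List.map_nil, List.sum_cons, List.sum_nil, sysGG]
  rw [fv2 C g bK bW, fv7 C g bK bW, fv13 C g bK bW]
  push_cast
  linarith only [z.ex, z.eK, z.eW]

theorem ru7 (C : SIC α (rowsOf fam) [] r 4 8 n R 3 F j t) (g bK bW : ℤ) :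
    RuleL.Sem sys (pt C g bK bW) ⟨true, 2, 3, [(2, 7)], 2048, [(2, 13)], 0⟩ := by
  have z := siz C
  have hd0 := C.dim
  apply rule_hi_q
  simp only [fsum, List.map_cons, List.map_nil, List.sum_cons, List.sum_nil, sysGG]
  rw [fv2 C g bK bW, fv7 C g bK bW, fv13 C g bK bW]
  push_cast
  exact le_max_of_le_right (by linarith only [z.ex, z.eK, z.eW])

theorem ru8 (C : SIC α (rowsOf fam) [] r 4 8 n R 3 F j t) (g bK bW : ℤ) :
    RuleL.Sem sys (pt C g bK bW) ⟨false, 7, 2, [(3, 2), (2, 13)], 0, [], 2048⟩ := by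
  have z := siz C
  have hd0 := C.dim
  apply rule_lo_q
  simp only [fsum, List.map_cons, List.map_nil, List.sum_cons, List.sum_nil, sysGG]
  rw [fv2 C g bK bW, fv7 C g bK bW, fv13 C g bK bW]
  push_cast
  linarith only [z.ex, z.eK, z.eW]

theorem ru9 (C : SIC α (rowsOf fam) [] r 4 8 n R 3 F j t) (g bK bW : ℤ) :
    RuleL.Sem sys (pt C g bK bW) ⟨true, 13, 2, [(2, 7)], 2048, [(3, 2)], 0⟩ := by
  have z := siz C
  have hd0 := C.dim
  apply rule_hi_q
  simp only [fsum, List.map_cons, List.map_nil, List.sum_cons, List.sum_nil, sysGG]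
  rw [fv2 C g bK bW, fv7 C g bK bW, fv13 C g bK bW]
  push_cast
  exact le_max_of_le_right (by linarith only [z.ex, z.eK, z.eW])

theorem ru10 (C : SIC α (rowsOf fam) [] r 4 8 n R 3 F j t) (g bK bW : ℤ) :
    RuleL.Sem sys (pt C g bK bW) ⟨false, 2, 2, [(1, 7)], 1536, [(1, 14)], 0⟩ := by
  have z := siz C
  have hd0 := C.dim
  apply rule_lo_q
  simp only [fsum, List.map_cons, List.map_nil, List.sum_cons, List.sum_nil, sysGG]
  rw [fv2 C g bK bW, fv7 C g bK bW, fv14 C g bK bW]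
  push_cast
  linarith only [z.ex, z.eK, z.eW]

theorem ru11 (C : SIC α (rowsOf fam) [] r 4 8 n R 3 F j t) (g bK bW : ℤ) :
    RuleL.Sem sys (pt C g bK bW) ⟨true, 7, 1, [(2, 2), (1, 14)], 0, [], 1536⟩ := by
  have z := siz C
  have hd0 := C.dim
  apply rule_hi_q
  simp only [fsum, List.map_cons, List.map_nil, List.sum_cons, List.sum_nil, sysGG]
  rw [fv2 C g bK bW, fv7 C g bK bW, fv14 C g bK bW]
  push_cast
  exact le_max_of_le_right (by linarith only [z.ex, z.eK, z.eW])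

theorem ru12 (C : SIC α (rowsOf fam) [] r 4 8 n R 3 F j t) (g bK bW : ℤ) :
    RuleL.Sem sys (pt C g bK bW) ⟨false, 14, 1, [(1, 7)], 1536, [(2, 2)], 0⟩ := by
  have z := siz C
  have hd0 := C.dim
  apply rule_lo_q
  simp only [fsum, List.map_cons, List.map_nil, List.sum_cons, List.sum_nil, sysGG]
  rw [fv2 C g bK bW, fv7 C g bK bW, fv14 C g bK bW]
  push_cast
  linarith only [z.ex, z.eK, z.eW]

theorem ru13 (C : SIC α (rowsOf fam) [] r 4 8 n R 3 F j t) (g bK bW : ℤ) :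
    RuleL.Sem sys (pt C g bK bW) ⟨true, 14, 1, [(1, 7)], 1536, [(2, 2)], 0⟩ := by
  have z := siz C
  have hd0 := C.dim
  apply rule_hi_q
  simp only [fsum, List.map_cons, List.map_nil, List.sum_cons, List.sum_nil, sysGG]
  rw [fv2 C g bK bW, fv7 C g bK bW, fv14 C g bK bW]
  push_cast
  exact le_max_of_le_right (by linarith only [z.ex, z.eK, z.eW])

theorem ru14 (C : SIC α (rowsOf fam) [] r 4 8 n R 3 F j t) (g bK bW : ℤ) :
    RuleL.Sem sys (pt C g bK bW) ⟨false, 1, 1, [(1, 7)], 0, [(1, 15)], 0⟩ := by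
  have z := siz C
  have hd0 := C.dim
  apply rule_lo_q
  simp only [fsum, List.map_cons, List.map_nil, List.sum_cons, List.sum_nil, sysGG]
  rw [fv1 C g bK bW, fv7 C g bK bW, fv15 C g bK bW]
  push_cast
  linarith only [z.ex, z.eK, z.eW]

theorem ru15 (C : SIC α (rowsOf fam) [] r 4 8 n R 3 F j t) (g bK bW : ℤ) :
    RuleL.Sem sys (pt C g bK bW) ⟨true, 7, 1, [(1, 1), (1, 15)], 0, [], 0⟩ := by
  have z := siz C
  have hd0 := C.dim
  apply rule_hi_q
  simp only [fsum, List.map_cons, List.map_nil, List.sum_cons, List.sum_nil, sysGG]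
  rw [fv1 C g bK bW, fv7 C g bK bW, fv15 C g bK bW]
  push_cast
  exact le_max_of_le_right (by linarith only [z.ex, z.eK, z.eW])

theorem ru16 (C : SIC α (rowsOf fam) [] r 4 8 n R 3 F j t) (g bK bW : ℤ) :
    RuleL.Sem sys (pt C g bK bW) ⟨false, 15, 1, [(1, 7)], 0, [(1, 1)], 0⟩ := by
  have z := siz C
  have hd0 := C.dim
  apply rule_lo_q
  simp only [fsum, List.map_cons, List.map_nil, List.sum_cons, List.sum_nil, sysGG]
  rw [fv1 C g bK bW, fv7 C g bK bW, fv15 C g bK bW]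
  push_cast
  linarith only [z.ex, z.eK, z.eW]

theorem ru17 (C : SIC α (rowsOf fam) [] r 4 8 n R 3 F j t) (g bK bW : ℤ) :
    RuleL.Sem sys (pt C g bK bW) ⟨false, 7, 1, [(1, 1), (1, 15)], 0, [], 0⟩ := by
  have z := siz C
  have hd0 := C.dim
  apply rule_lo_q
  simp only [fsum, List.map_cons, List.map_nil, List.sum_cons, List.sum_nil, sysGG]
  rw [fv1 C g bK bW, fv7 C g bK bW, fv15 C g bK bW]
  push_cast
  linarith only [z.ex, z.eK, z.eW]

theorem ru18 (C : SIC α (rowsOf fam) [] r 4 8 n R 3 F j t) (g bK bW : ℤ) :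
    RuleL.Sem sys (pt C g bK bW) ⟨true, 15, 1, [(1, 7)], 0, [(1, 1)], 0⟩ := by
  have z := siz C
  have hd0 := C.dim
  apply rule_hi_q
  simp only [fsum, List.map_cons, List.map_nil, List.sum_cons, List.sum_nil, sysGG]
  rw [fv1 C g bK bW, fv7 C g bK bW, fv15 C g bK bW]
  push_cast
  exact le_max_of_le_right (by linarith only [z.ex, z.eK, z.eW])

theorem ru19 (C : SIC α (rowsOf fam) [] r 4 8 n R 3 F j t) (g bK bW : ℤ) :
    RuleL.Sem sys (pt C g bK bW) ⟨false, 1, 3, [(2, 7)], 1024, [(2, 16)], 0⟩ := by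
  have z := siz C
  have hd0 := C.dim
  apply rule_lo_q
  simp only [fsum, List.map_cons, List.map_nil, List.sum_cons, List.sum_nil, sysGG]
  rw [fv1 C g bK bW, fv7 C g bK bW, fv16 C g bK bW]
  push_cast
  linarith only [z.ex, z.eK, z.eW]

theorem ru20 (C : SIC α (rowsOf fam) [] r 4 8 n R 3 F j t) (g bK bW : ℤ) :
    RuleL.Sem sys (pt C g bK bW) ⟨true, 7, 2, [(3, 1), (2, 16)], 0, [], 1024⟩ := by
  have z := siz C
  have hd0 := C.dim
  apply rule_hi_q
  simp only [fsum, List.map_cons, List.map_nil, List.sum_cons, List.sum_nil, sysGG]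
  rw [fv1 C g bK bW, fv7 C g bK bW, fv16 C g bK bW]
  push_cast
  exact le_max_of_le_right (by linarith only [z.ex, z.eK, z.eW])

theorem ru21 (C : SIC α (rowsOf fam) [] r 4 8 n R 3 F j t) (g bK bW : ℤ) :
    RuleL.Sem sys (pt C g bK bW) ⟨false, 16, 2, [(2, 7)], 1024, [(3, 1)], 0⟩ := by
  have z := siz C
  have hd0 := C.dim
  apply rule_lo_q
  simp only [fsum, List.map_cons, List.map_nil, List.sum_cons, List.sum_nil, sysGG]
  rw [fv1 C g bK bW, fv7 C g bK bW, fv16 C g bK bW]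
  push_cast
  linarith only [z.ex, z.eK, z.eW]

theorem ru22 (C : SIC α (rowsOf fam) [] r 4 8 n R 3 F j t) (g bK bW : ℤ) :
    RuleL.Sem sys (pt C g bK bW) ⟨true, 1, 3, [(2, 7)], 1024, [(2, 16)], 0⟩ := by
  have z := siz C
  have hd0 := C.dim
  apply rule_hi_q
  simp only [fsum, List.map_cons, List.map_nil, List.sum_cons, List.sum_nil, sysGG]
  rw [fv1 C g bK bW, fv7 C g bK bW, fv16 C g bK bW]
  push_cast
  exact le_max_of_le_right (by linarith only [z.ex, z.eK, z.eW])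

theorem ru23 (C : SIC α (rowsOf fam) [] r 4 8 n R 3 F j t) (g bK bW : ℤ) :
    RuleL.Sem sys (pt C g bK bW) ⟨false, 7, 2, [(3, 1), (2, 16)], 0, [], 1024⟩ := by
  have z := siz C
  have hd0 := C.dim
  apply rule_lo_q
  simp only [fsum, List.map_cons, List.map_nil, List.sum_cons, List.sum_nil, sysGG]
  rw [fv1 C g bK bW, fv7 C g bK bW, fv16 C g bK bW]
  push_cast
  linarith only [z.ex, z.eK, z.eW]

theorem ru24 (C : SIC α (rowsOf fam) [] r 4 8 n R 3 F j t) (g bK bW : ℤ) :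
    RuleL.Sem sys (pt C g bK bW) ⟨true, 16, 2, [(2, 7)], 1024, [(3, 1)], 0⟩ := by
  have z := siz C
  have hd0 := C.dim
  apply rule_hi_q
  simp only [fsum, List.map_cons, List.map_nil, List.sum_cons, List.sum_nil, sysGG]
  rw [fv1 C g bK bW, fv7 C g bK bW, fv16 C g bK bW]
  push_cast
  exact le_max_of_le_right (by linarith only [z.ex, z.eK, z.eW])

theorem ru25 (C : SIC α (rowsOf fam) [] r 4 8 n R 3 F j t) (g bK bW : ℤ) :
    RuleL.Sem sys (pt C g bK bW) ⟨false, 1, 2, [(1, 7)], 512, [(1, 17)], 0⟩ := by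
  have z := siz C
  have hd0 := C.dim
  apply rule_lo_q
  simp only [fsum, List.map_cons, List.map_nil, List.sum_cons, List.sum_nil, sysGG]
  rw [fv1 C g bK bW, fv7 C g bK bW, fv17 C g bK bW]
  push_cast
  linarith only [z.ex, z.eK, z.eW]

theorem ru26 (C : SIC α (rowsOf fam) [] r 4 8 n R 3 F j t) (g bK bW : ℤ) :
    RuleL.Sem sys (pt C g bK bW) ⟨true, 7, 1, [(2, 1), (1, 17)], 0, [], 512⟩ := by
  have z := siz C
  have hd0 := C.dim
  apply rule_hi_q
  simp only [fsum, List.map_cons, List.map_nil, List.sum_cons, List.sum_nil, sysGG]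
  rw [fv1 C g bK bW, fv7 C g bK bW, fv17 C g bK bW]
  push_cast
  exact le_max_of_le_right (by linarith only [z.ex, z.eK, z.eW])

theorem ru27 (C : SIC α (rowsOf fam) [] r 4 8 n R 3 F j t) (g bK bW : ℤ) :
    RuleL.Sem sys (pt C g bK bW) ⟨false, 17, 1, [(1, 7)], 512, [(2, 1)], 0⟩ := by
  have z := siz C
  have hd0 := C.dim
  apply rule_lo_q
  simp only [fsum, List.map_cons, List.map_nil, List.sum_cons, List.sum_nil, sysGG]
  rw [fv1 C g bK bW, fv7 C g bK bW, fv17 C g bK bW]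
  push_cast
  linarith only [z.ex, z.eK, z.eW]

theorem ru28 (C : SIC α (rowsOf fam) [] r 4 8 n R 3 F j t) (g bK bW : ℤ) :
    RuleL.Sem sys (pt C g bK bW) ⟨true, 1, 2, [(1, 7)], 512, [(1, 17)], 0⟩ := by
  have z := siz C
  have hd0 := C.dim
  apply rule_hi_q
  simp only [fsum, List.map_cons, List.map_nil, List.sum_cons, List.sum_nil, sysGG]
  rw [fv1 C g bK bW, fv7 C g bK bW, fv17 C g bK bW]
  push_cast
  exact le_max_of_le_right (by linarith only [z.ex, z.eK, z.eW])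

theorem ru29 (C : SIC α (rowsOf fam) [] r 4 8 n R 3 F j t) (g bK bW : ℤ) :
    RuleL.Sem sys (pt C g bK bW) ⟨false, 7, 1, [(2, 1), (1, 17)], 0, [], 512⟩ := by
  have z := siz C
  have hd0 := C.dim
  apply rule_lo_q
  simp only [fsum, List.map_cons, List.map_nil, List.sum_cons, List.sum_nil, sysGG]
  rw [fv1 C g bK bW, fv7 C g bK bW, fv17 C g bK bW]
  push_cast
  linarith only [z.ex, z.eK, z.eW]

theorem ru30 (C : SIC α (rowsOf fam) [] r 4 8 n R 3 F j t) (g bK bW : ℤ) :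
    RuleL.Sem sys (pt C g bK bW) ⟨true, 17, 1, [(1, 7)], 512, [(2, 1)], 0⟩ := by
  have z := siz C
  have hd0 := C.dim
  apply rule_hi_q
  simp only [fsum, List.map_cons, List.map_nil, List.sum_cons, List.sum_nil, sysGG]
  rw [fv1 C g bK bW, fv7 C g bK bW, fv17 C g bK bW]
  push_cast
  exact le_max_of_le_right (by linarith only [z.ex, z.eK, z.eW])

theorem ru31 (C : SIC α (rowsOf fam) [] r 4 8 n R 3 F j t) (g bK bW : ℤ) :
    RuleL.Sem sys (pt C g bK bW) ⟨true, 20, 1, [], 1024, [(1, 7)], 0⟩ := by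
  have z := siz C
  have hd0 := C.dim
  apply rule_hi_q
  simp only [fsum, List.map_cons, List.map_nil, List.sum_cons, List.sum_nil, sysGG]
  rw [fv7 C g bK bW, fv20 C g bK bW]
  push_cast
  rcases le_total (2 * (2 ^ j * 2 ^ R) - (t : ℤ)) 0 with hv2_0 | hv2_0
  · rw [max_eq_left hv2_0]
    exact le_max_of_le_left (by norm_num)
  · rw [max_eq_right hv2_0]
    exact le_max_of_le_right (by linarith only [z.ex, z.eK, z.eW])

theorem ru32 (C : SIC α (rowsOf fam) [] r 4 8 n R 3 F j t) (g bK bW : ℤ) :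
    RuleL.Sem sys (pt C g bK bW) ⟨false, 0, 1, [(1, 1), (1, 2)], 0, [], 0⟩ := by
  have z := siz C
  have hd0 := C.dim
  apply rule_lo_q
  simp only [fsum, List.map_cons, List.map_nil, List.sum_cons, List.sum_nil, sysGG]
  rw [fv0 C g bK bW, fv1 C g bK bW, fv2 C g bK bW]
  push_cast
  linarith only [z.ex, z.eK, z.eW]

theorem ru33 (C : SIC α (rowsOf fam) [] r 4 8 n R 3 F j t) (g bK bW : ℤ) :
    RuleL.Sem sys (pt C g bK bW) ⟨true, 1, 1, [(1, 0)], 0, [(1, 2)], 0⟩ := by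
  have z := siz C
  have hd0 := C.dim
  apply rule_hi_q
  simp only [fsum, List.map_cons, List.map_nil, List.sum_cons, List.sum_nil, sysGG]
  rw [fv0 C g bK bW, fv1 C g bK bW, fv2 C g bK bW]
  push_cast
  exact le_max_of_le_right (by linarith only [z.ex, z.eK, z.eW])

theorem ru34 (C : SIC α (rowsOf fam) [] r 4 8 n R 3 F j t) (g bK bW : ℤ) :
    RuleL.Sem sys (pt C g bK bW) ⟨true, 2, 1, [(1, 0)], 0, [(1, 1)], 0⟩ := by
  have z := siz C
  have hd0 := C.dim
  apply rule_hi_q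
  simp only [fsum, List.map_cons, List.map_nil, List.sum_cons, List.sum_nil, sysGG]
  rw [fv0 C g bK bW, fv1 C g bK bW, fv2 C g bK bW]
  push_cast
  exact le_max_of_le_right (by linarith only [z.ex, z.eK, z.eW])

theorem ru35 (C : SIC α (rowsOf fam) [] r 4 8 n R 3 F j t) (g bK bW : ℤ) :
    RuleL.Sem sys (pt C g bK bW) ⟨true, 0, 1, [(1, 1), (1, 2)], 0, [], 0⟩ := by
  have z := siz C
  have hd0 := C.dim
  apply rule_hi_q
  simp only [fsum, List.map_cons, List.map_nil, List.sum_cons, List.sum_nil, sysGG]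
  rw [fv0 C g bK bW, fv1 C g bK bW, fv2 C g bK bW]
  push_cast
  exact le_max_of_le_right (by linarith only [z.ex, z.eK, z.eW])

theorem ru36 (C : SIC α (rowsOf fam) [] r 4 8 n R 3 F j t) (g bK bW : ℤ) :
    RuleL.Sem sys (pt C g bK bW) ⟨false, 1, 1, [(1, 0)], 0, [(1, 2)], 0⟩ := by
  have z := siz C
  have hd0 := C.dim
  apply rule_lo_q
  simp only [fsum, List.map_cons, List.map_nil, List.sum_cons, List.sum_nil, sysGG]
  rw [fv0 C g bK bW, fv1 C g bK bW, fv2 C g bK bW]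
  push_cast
  linarith only [z.ex, z.eK, z.eW]

theorem ru37 (C : SIC α (rowsOf fam) [] r 4 8 n R 3 F j t) (g bK bW : ℤ) :
    RuleL.Sem sys (pt C g bK bW) ⟨false, 2, 1, [(1, 0)], 0, [(1, 1)], 0⟩ := by
  have z := siz C
  have hd0 := C.dim
  apply rule_lo_q
  simp only [fsum, List.map_cons, List.map_nil, List.sum_cons, List.sum_nil, sysGG]
  rw [fv0 C g bK bW, fv1 C g bK bW, fv2 C g bK bW]
  push_cast
  linarith only [z.ex, z.eK, z.eW]

theorem ru38 (C : SIC α (rowsOf fam) [] r 4 8 n R 3 F j t) (g bK bW : ℤ) :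
    RuleL.Sem sys (pt C g bK bW) ⟨false, 2, 1, [(1, 3), (1, 4)], 0, [], 0⟩ := by
  have z := siz C
  have hd0 := C.dim
  apply rule_lo_q
  simp only [fsum, List.map_cons, List.map_nil, List.sum_cons, List.sum_nil, sysGG]
  rw [fv2 C g bK bW, fv3 C g bK bW, fv4 C g bK bW]
  push_cast
  linarith only [z.ex, z.eK, z.eW]

theorem ru39 (C : SIC α (rowsOf fam) [] r 4 8 n R 3 F j t) (g bK bW : ℤ) :
    RuleL.Sem sys (pt C g bK bW) ⟨true, 3, 1, [(1, 2)], 0, [(1, 4)], 0⟩ := by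
  have z := siz C
  have hd0 := C.dim
  apply rule_hi_q
  simp only [fsum, List.map_cons, List.map_nil, List.sum_cons, List.sum_nil, sysGG]
  rw [fv2 C g bK bW, fv3 C g bK bW, fv4 C g bK bW]
  push_cast
  exact le_max_of_le_right (by linarith only [z.ex, z.eK, z.eW])

theorem ru40 (C : SIC α (rowsOf fam) [] r 4 8 n R 3 F j t) (g bK bW : ℤ) :
    RuleL.Sem sys (pt C g bK bW) ⟨true, 4, 1, [(1, 2)], 0, [(1, 3)], 0⟩ := by
  have z := siz C
  have hd0 := C.dim
  apply rule_hi_q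
  simp only [fsum, List.map_cons, List.map_nil, List.sum_cons, List.sum_nil, sysGG]
  rw [fv2 C g bK bW, fv3 C g bK bW, fv4 C g bK bW]
  push_cast
  exact le_max_of_le_right (by linarith only [z.ex, z.eK, z.eW])

theorem ru41 (C : SIC α (rowsOf fam) [] r 4 8 n R 3 F j t) (g bK bW : ℤ) :
    RuleL.Sem sys (pt C g bK bW) ⟨true, 2, 1, [(1, 3), (1, 4)], 0, [], 0⟩ := by
  have z := siz C
  have hd0 := C.dim
  apply rule_hi_q
  simp only [fsum, List.map_cons, List.map_nil, List.sum_cons, List.sum_nil, sysGG]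
  rw [fv2 C g bK bW, fv3 C g bK bW, fv4 C g bK bW]
  push_cast
  exact le_max_of_le_right (by linarith only [z.ex, z.eK, z.eW])

theorem ru42 (C : SIC α (rowsOf fam) [] r 4 8 n R 3 F j t) (g bK bW : ℤ) :
    RuleL.Sem sys (pt C g bK bW) ⟨false, 3, 1, [(1, 2)], 0, [(1, 4)], 0⟩ := by
  have z := siz C
  have hd0 := C.dim
  apply rule_lo_q
  simp only [fsum, List.map_cons, List.map_nil, List.sum_cons, List.sum_nil, sysGG]
  rw [fv2 C g bK bW, fv3 C g bK bW, fv4 C g bK bW]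
  push_cast
  linarith only [z.ex, z.eK, z.eW]

theorem ru43 (C : SIC α (rowsOf fam) [] r 4 8 n R 3 F j t) (g bK bW : ℤ) :
    RuleL.Sem sys (pt C g bK bW) ⟨false, 4, 1, [(1, 2)], 0, [(1, 3)], 0⟩ := by
  have z := siz C
  have hd0 := C.dim
  apply rule_lo_q
  simp only [fsum, List.map_cons, List.map_nil, List.sum_cons, List.sum_nil, sysGG]
  rw [fv2 C g bK bW, fv3 C g bK bW, fv4 C g bK bW]
  push_cast
  linarith only [z.ex, z.eK, z.eW]

theorem ru44 (C : SIC α (rowsOf fam) [] r 4 8 n R 3 F j t) (g bK bW : ℤ) :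
    RuleL.Sem sys (pt C g bK bW) ⟨false, 1, 1, [(1, 5), (1, 6)], 0, [], 0⟩ := by
  have z := siz C
  have hd0 := C.dim
  apply rule_lo_q
  simp only [fsum, List.map_cons, List.map_nil, List.sum_cons, List.sum_nil, sysGG]
  rw [fv1 C g bK bW, fv5 C g bK bW, fv6 C g bK bW]
  push_cast
  linarith only [z.ex, z.eK, z.eW]

theorem ru45 (C : SIC α (rowsOf fam) [] r 4 8 n R 3 F j t) (g bK bW : ℤ) :
    RuleL.Sem sys (pt C g bK bW) ⟨true, 5, 1, [(1, 1)], 0, [(1, 6)], 0⟩ := by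
  have z := siz C
  have hd0 := C.dim
  apply rule_hi_q
  simp only [fsum, List.map_cons, List.map_nil, List.sum_cons, List.sum_nil, sysGG]
  rw [fv1 C g bK bW, fv5 C g bK bW, fv6 C g bK bW]
  push_cast
  exact le_max_of_le_right (by linarith only [z.ex, z.eK, z.eW])

theorem ru46 (C : SIC α (rowsOf fam) [] r 4 8 n R 3 F j t) (g bK bW : ℤ) :
    RuleL.Sem sys (pt C g bK bW) ⟨true, 6, 1, [(1, 1)], 0, [(1, 5)], 0⟩ := by
  have z := siz C
  have hd0 := C.dim
  apply rule_hi_q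
  simp only [fsum, List.map_cons, List.map_nil, List.sum_cons, List.sum_nil, sysGG]
  rw [fv1 C g bK bW, fv5 C g bK bW, fv6 C g bK bW]
  push_cast
  exact le_max_of_le_right (by linarith only [z.ex, z.eK, z.eW])

theorem ru47 (C : SIC α (rowsOf fam) [] r 4 8 n R 3 F j t) (g bK bW : ℤ) :
    RuleL.Sem sys (pt C g bK bW) ⟨true, 1, 1, [(1, 5), (1, 6)], 0, [], 0⟩ := by
  have z := siz C
  have hd0 := C.dim
  apply rule_hi_q
  simp only [fsum, List.map_cons, List.map_nil, List.sum_cons, List.sum_nil, sysGG]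
  rw [fv1 C g bK bW, fv5 C g bK bW, fv6 C g bK bW]
  push_cast
  exact le_max_of_le_right (by linarith only [z.ex, z.eK, z.eW])

theorem ru48 (C : SIC α (rowsOf fam) [] r 4 8 n R 3 F j t) (g bK bW : ℤ) :
    RuleL.Sem sys (pt C g bK bW) ⟨false, 5, 1, [(1, 1)], 0, [(1, 6)], 0⟩ := by
  have z := siz C
  have hd0 := C.dim
  apply rule_lo_q
  simp only [fsum, List.map_cons, List.map_nil, List.sum_cons, List.sum_nil, sysGG]
  rw [fv1 C g bK bW, fv5 C g bK bW, fv6 C g bK bW]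
  push_cast
  linarith only [z.ex, z.eK, z.eW]

theorem ru49 (C : SIC α (rowsOf fam) [] r 4 8 n R 3 F j t) (g bK bW : ℤ) :
    RuleL.Sem sys (pt C g bK bW) ⟨false, 6, 1, [(1, 1)], 0, [(1, 5)], 0⟩ := by
  have z := siz C
  have hd0 := C.dim
  apply rule_lo_q
  simp only [fsum, List.map_cons, List.map_nil, List.sum_cons, List.sum_nil, sysGG]
  rw [fv1 C g bK bW, fv5 C g bK bW, fv6 C g bK bW]
  push_cast
  linarith only [z.ex, z.eK, z.eW]

theorem ru50 (C : SIC α (rowsOf fam) [] r 4 8 n R 3 F j t) (g bK bW : ℤ) :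
    RuleL.Sem sys (pt C g bK bW) ⟨false, 1, 1, [(1, 2)], 0, [(1, 8)], 0⟩ := by
  have z := siz C
  have hd0 := C.dim
  apply rule_lo_q
  simp only [fsum, List.map_cons, List.map_nil, List.sum_cons, List.sum_nil, sysGG]
  rw [fv1 C g bK bW, fv2 C g bK bW, fv8 C g bK bW]
  push_cast
  linarith only [z.ex, z.eK, z.eW]

theorem ru51 (C : SIC α (rowsOf fam) [] r 4 8 n R 3 F j t) (g bK bW : ℤ) :
    RuleL.Sem sys (pt C g bK bW) ⟨true, 2, 1, [(1, 1), (1, 8)], 0, [], 0⟩ := by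
  have z := siz C
  have hd0 := C.dim
  apply rule_hi_q
  simp only [fsum, List.map_cons, List.map_nil, List.sum_cons, List.sum_nil, sysGG]
  rw [fv1 C g bK bW, fv2 C g bK bW, fv8 C g bK bW]
  push_cast
  exact le_max_of_le_right (by linarith only [z.ex, z.eK, z.eW])

theorem ru52 (C : SIC α (rowsOf fam) [] r 4 8 n R 3 F j t) (g bK bW : ℤ) :
    RuleL.Sem sys (pt C g bK bW) ⟨false, 8, 1, [(1, 2)], 0, [(1, 1)], 0⟩ := by
  have z := siz C
  have hd0 := C.dim
  apply rule_lo_q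
  simp only [fsum, List.map_cons, List.map_nil, List.sum_cons, List.sum_nil, sysGG]
  rw [fv1 C g bK bW, fv2 C g bK bW, fv8 C g bK bW]
  push_cast
  linarith only [z.ex, z.eK, z.eW]

theorem ru53 (C : SIC α (rowsOf fam) [] r 4 8 n R 3 F j t) (g bK bW : ℤ) :
    RuleL.Sem sys (pt C g bK bW) ⟨true, 1, 1, [(1, 2)], 0, [(1, 8)], 0⟩ := by
  have z := siz C
  have hd0 := C.dim
  apply rule_hi_q
  simp only [fsum, List.map_cons, List.map_nil, List.sum_cons, List.sum_nil, sysGG]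
  rw [fv1 C g bK bW, fv2 C g bK bW, fv8 C g bK bW]
  push_cast
  exact le_max_of_le_right (by linarith only [z.ex, z.eK, z.eW])

theorem ru54 (C : SIC α (rowsOf fam) [] r 4 8 n R 3 F j t) (g bK bW : ℤ) :
    RuleL.Sem sys (pt C g bK bW) ⟨false, 2, 1, [(1, 1), (1, 8)], 0, [], 0⟩ := by
  have z := siz C
  have hd0 := C.dim
  apply rule_lo_q
  simp only [fsum, List.map_cons, List.map_nil, List.sum_cons, List.sum_nil, sysGG]
  rw [fv1 C g bK bW, fv2 C g bK bW, fv8 C g bK bW]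
  push_cast
  linarith only [z.ex, z.eK, z.eW]

theorem ru55 (C : SIC α (rowsOf fam) [] r 4 8 n R 3 F j t) (g bK bW : ℤ) :
    RuleL.Sem sys (pt C g bK bW) ⟨true, 8, 1, [(1, 2)], 0, [(1, 1)], 0⟩ := by
  have z := siz C
  have hd0 := C.dim
  apply rule_hi_q
  simp only [fsum, List.map_cons, List.map_nil, List.sum_cons, List.sum_nil, sysGG]
  rw [fv1 C g bK bW, fv2 C g bK bW, fv8 C g bK bW]
  push_cast
  exact le_max_of_le_right (by linarith only [z.ex, z.eK, z.eW])

theorem ru56 (C : SIC α (rowsOf fam) [] r 4 8 n R 3 F j t) (g bK bW : ℤ) :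
    RuleL.Sem sys (pt C g bK bW) ⟨false, 9, 1, [(1, 6)], 0, [(1, 5)], 0⟩ := by
  have z := siz C
  have hd0 := C.dim
  apply rule_lo_q
  simp only [fsum, List.map_cons, List.map_nil, List.sum_cons, List.sum_nil, sysGG]
  rw [fv5 C g bK bW, fv6 C g bK bW, fv9 C g bK bW]
  push_cast
  linarith only [z.ex, z.eK, z.eW]

theorem ru57 (C : SIC α (rowsOf fam) [] r 4 8 n R 3 F j t) (g bK bW : ℤ) :
    RuleL.Sem sys (pt C g bK bW) ⟨true, 5, 1, [(1, 6)], 0, [(1, 9)], 0⟩ := by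
  have z := siz C
  have hd0 := C.dim
  apply rule_hi_q
  simp only [fsum, List.map_cons, List.map_nil, List.sum_cons, List.sum_nil, sysGG]
  rw [fv5 C g bK bW, fv6 C g bK bW, fv9 C g bK bW]
  push_cast
  exact le_max_of_le_right (by linarith only [z.ex, z.eK, z.eW])

theorem ru58 (C : SIC α (rowsOf fam) [] r 4 8 n R 3 F j t) (g bK bW : ℤ) :
    RuleL.Sem sys (pt C g bK bW) ⟨false, 6, 1, [(1, 5), (1, 9)], 0, [], 0⟩ := by
  have z := siz C
  have hd0 := C.dim
  apply rule_lo_q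
  simp only [fsum, List.map_cons, List.map_nil, List.sum_cons, List.sum_nil, sysGG]
  rw [fv5 C g bK bW, fv6 C g bK bW, fv9 C g bK bW]
  push_cast
  linarith only [z.ex, z.eK, z.eW]

theorem ru59 (C : SIC α (rowsOf fam) [] r 4 8 n R 3 F j t) (g bK bW : ℤ) :
    RuleL.Sem sys (pt C g bK bW) ⟨true, 9, 1, [(1, 6)], 0, [(1, 5)], 0⟩ := by
  have z := siz C
  have hd0 := C.dim
  apply rule_hi_q
  simp only [fsum, List.map_cons, List.map_nil, List.sum_cons, List.sum_nil, sysGG]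
  rw [fv5 C g bK bW, fv6 C g bK bW, fv9 C g bK bW]
  push_cast
  exact le_max_of_le_right (by linarith only [z.ex, z.eK, z.eW])

theorem ru60 (C : SIC α (rowsOf fam) [] r 4 8 n R 3 F j t) (g bK bW : ℤ) :
    RuleL.Sem sys (pt C g bK bW) ⟨true, 5, 2, [(1, 1)], 0, [(1, 9)], 0⟩ := by
  have z := siz C
  have hd0 := C.dim
  apply rule_hi_q
  simp only [fsum, List.map_cons, List.map_nil, List.sum_cons, List.sum_nil, sysGG]
  rw [fv1 C g bK bW, fv5 C g bK bW, fv9 C g bK bW]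
  push_cast
  exact le_max_of_le_right (by linarith only [z.ex, z.eK, z.eW])

theorem ru61 (C : SIC α (rowsOf fam) [] r 4 8 n R 3 F j t) (g bK bW : ℤ) :
    RuleL.Sem sys (pt C g bK bW) ⟨true, 9, 1, [(1, 1)], 0, [(2, 5)], 0⟩ := by
  have z := siz C
  have hd0 := C.dim
  apply rule_hi_q
  simp only [fsum, List.map_cons, List.map_nil, List.sum_cons, List.sum_nil, sysGG]
  rw [fv1 C g bK bW, fv5 C g bK bW, fv9 C g bK bW]
  push_cast
  exact le_max_of_le_right (by linarith only [z.ex, z.eK, z.eW])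

theorem ru62 (C : SIC α (rowsOf fam) [] r 4 8 n R 3 F j t) (g bK bW : ℤ) :
    RuleL.Sem sys (pt C g bK bW) ⟨true, 3, 2, [(1, 10)], 0, [], 0⟩ := by
  have z := siz C
  have hd0 := C.dim
  apply rule_hi_q
  simp only [fsum, List.map_cons, List.map_nil, List.sum_cons, List.sum_nil, sysGG]
  rw [fv3 C g bK bW, fv10 C g bK bW]
  push_cast
  exact le_max_of_le_right (by linarith only [z.ex, z.eK, z.eW])

theorem ru63 (C : SIC α (rowsOf fam) [] r 4 8 n R 3 F j t) (g bK bW : ℤ) :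
    RuleL.Sem sys (pt C g bK bW) ⟨false, 10, 1, [(2, 3)], 0, [], 0⟩ := by
  have z := siz C
  have hd0 := C.dim
  apply rule_lo_q
  simp only [fsum, List.map_cons, List.map_nil, List.sum_cons, List.sum_nil, sysGG]
  rw [fv3 C g bK bW, fv10 C g bK bW]
  push_cast
  linarith only [z.ex, z.eK, z.eW]

theorem ru64 (C : SIC α (rowsOf fam) [] r 4 8 n R 3 F j t) (g bK bW : ℤ) :
    RuleL.Sem sys (pt C g bK bW) ⟨false, 3, 2, [(1, 10)], 0, [], 0⟩ := by
  have z := siz C
  have hd0 := C.dim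
  apply rule_lo_q
  simp only [fsum, List.map_cons, List.map_nil, List.sum_cons, List.sum_nil, sysGG]
  rw [fv3 C g bK bW, fv10 C g bK bW]
  push_cast
  linarith only [z.ex, z.eK, z.eW]

theorem ru65 (C : SIC α (rowsOf fam) [] r 4 8 n R 3 F j t) (g bK bW : ℤ) :
    RuleL.Sem sys (pt C g bK bW) ⟨true, 10, 1, [(2, 3)], 0, [], 0⟩ := by
  have z := siz C
  have hd0 := C.dim
  apply rule_hi_q
  simp only [fsum, List.map_cons, List.map_nil, List.sum_cons, List.sum_nil, sysGG]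
  rw [fv3 C g bK bW, fv10 C g bK bW]
  push_cast
  exact le_max_of_le_right (by linarith only [z.ex, z.eK, z.eW])

theorem ru66 (C : SIC α (rowsOf fam) [] r 4 8 n R 3 F j t) (g bK bW : ℤ) :
    RuleL.Sem sys (pt C g bK bW) ⟨true, 5, 2, [(1, 11)], 0, [], 0⟩ := by
  have z := siz C
  have hd0 := C.dim
  apply rule_hi_q
  simp only [fsum, List.map_cons, List.map_nil, List.sum_cons, List.sum_nil, sysGG]
  rw [fv5 C g bK bW, fv11 C g bK bW]
  push_cast
  exact le_max_of_le_right (by linarith only [z.ex, z.eK, z.eW])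

theorem ru67 (C : SIC α (rowsOf fam) [] r 4 8 n R 3 F j t) (g bK bW : ℤ) :
    RuleL.Sem sys (pt C g bK bW) ⟨false, 11, 1, [(2, 5)], 0, [], 0⟩ := by
  have z := siz C
  have hd0 := C.dim
  apply rule_lo_q
  simp only [fsum, List.map_cons, List.map_nil, List.sum_cons, List.sum_nil, sysGG]
  rw [fv5 C g bK bW, fv11 C g bK bW]
  push_cast
  linarith only [z.ex, z.eK, z.eW]

theorem ru68 (C : SIC α (rowsOf fam) [] r 4 8 n R 3 F j t) (g bK bW : ℤ) :
    RuleL.Sem sys (pt C g bK bW) ⟨false, 5, 2, [(1, 11)], 0, [], 0⟩ := by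
  have z := siz C
  have hd0 := C.dim
  apply rule_lo_q
  simp only [fsum, List.map_cons, List.map_nil, List.sum_cons, List.sum_nil, sysGG]
  rw [fv5 C g bK bW, fv11 C g bK bW]
  push_cast
  linarith only [z.ex, z.eK, z.eW]

theorem ru69 (C : SIC α (rowsOf fam) [] r 4 8 n R 3 F j t) (g bK bW : ℤ) :
    RuleL.Sem sys (pt C g bK bW) ⟨true, 11, 1, [(2, 5)], 0, [], 0⟩ := by
  have z := siz C
  have hd0 := C.dim
  apply rule_hi_q
  simp only [fsum, List.map_cons, List.map_nil, List.sum_cons, List.sum_nil, sysGG]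
  rw [fv5 C g bK bW, fv11 C g bK bW]
  push_cast
  exact le_max_of_le_right (by linarith only [z.ex, z.eK, z.eW])

theorem ru70 (C : SIC α (rowsOf fam) [] r 4 8 n R 3 F j t) (g bK bW : ℤ) :
    RuleL.Sem sys (pt C g bK bW) ⟨true, 1, 2, [(1, 19)], 0, [], 0⟩ := by
  have z := siz C
  have hd0 := C.dim
  apply rule_hi_q
  simp only [fsum, List.map_cons, List.map_nil, List.sum_cons, List.sum_nil, sysGG]
  rw [fv1 C g bK bW, fv19 C g bK bW]
  push_cast
  exact le_max_of_le_right (by linarith only [z.ex, z.eK, z.eW])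

theorem ru71 (C : SIC α (rowsOf fam) [] r 4 8 n R 3 F j t) (g bK bW : ℤ) :
    RuleL.Sem sys (pt C g bK bW) ⟨false, 19, 1, [(2, 1)], 0, [], 0⟩ := by
  have z := siz C
  have hd0 := C.dim
  apply rule_lo_q
  simp only [fsum, List.map_cons, List.map_nil, List.sum_cons, List.sum_nil, sysGG]
  rw [fv1 C g bK bW, fv19 C g bK bW]
  push_cast
  linarith only [z.ex, z.eK, z.eW]

theorem ru72 (C : SIC α (rowsOf fam) [] r 4 8 n R 3 F j t) (g bK bW : ℤ) :
    RuleL.Sem sys (pt C g bK bW) ⟨false, 1, 2, [(1, 19)], 0, [], 0⟩ := by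
  have z := siz C
  have hd0 := C.dim
  apply rule_lo_q
  simp only [fsum, List.map_cons, List.map_nil, List.sum_cons, List.sum_nil, sysGG]
  rw [fv1 C g bK bW, fv19 C g bK bW]
  push_cast
  linarith only [z.ex, z.eK, z.eW]

theorem ru73 (C : SIC α (rowsOf fam) [] r 4 8 n R 3 F j t) (g bK bW : ℤ) :
    RuleL.Sem sys (pt C g bK bW) ⟨true, 19, 1, [(2, 1)], 0, [], 0⟩ := by
  have z := siz C
  have hd0 := C.dim
  apply rule_hi_q
  simp only [fsum, List.map_cons, List.map_nil, List.sum_cons, List.sum_nil, sysGG]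
  rw [fv1 C g bK bW, fv19 C g bK bW]
  push_cast
  exact le_max_of_le_right (by linarith only [z.ex, z.eK, z.eW])

theorem ru74 (C : SIC α (rowsOf fam) [] r 4 8 n R 3 F j t) (g bK bW : ℤ) :
    RuleL.Sem sys (pt C g bK bW) ⟨true, 3, 1, [(1, 4)], 0, [], 0⟩ := by
  have z := siz C
  have hd0 := C.dim
  apply rule_hi_q
  simp only [fsum, List.map_cons, List.map_nil, List.sum_cons, List.sum_nil, sysGG]
  rw [fv3 C g bK bW, fv4 C g bK bW]
  push_cast
  exact le_max_of_le_right (by linarith only [z.ex, z.eK, z.eW, z.le2])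

theorem ru75 (C : SIC α (rowsOf fam) [] r 4 8 n R 3 F j t) (g bK bW : ℤ) :
    RuleL.Sem sys (pt C g bK bW) ⟨false, 4, 1, [(1, 3)], 0, [], 0⟩ := by
  have z := siz C
  have hd0 := C.dim
  apply rule_lo_q
  simp only [fsum, List.map_cons, List.map_nil, List.sum_cons, List.sum_nil, sysGG]
  rw [fv3 C g bK bW, fv4 C g bK bW]
  push_cast
  linarith only [z.ex, z.eK, z.eW, z.le2]

theorem ru76 (C : SIC α (rowsOf fam) [] r 4 8 n R 3 F j t) (g bK bW : ℤ) :
    RuleL.Sem sys (pt C g bK bW) ⟨false, 7, 2, [(1, 0)], 0, [], 0⟩ := by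
  have z := siz C
  have hd0 := C.dim
  apply rule_lo_q
  simp only [fsum, List.map_cons, List.map_nil, List.sum_cons, List.sum_nil, sysGG]
  rw [fv0 C g bK bW, fv7 C g bK bW]
  push_cast
  linarith only [z.ex, z.eK, z.eW, (ztl C)]

theorem rall_nil {P : RuleL → Prop} : ∀ r ∈ ([] : List RuleL), P r := by simp

theorem rall_cons {P : RuleL → Prop} {a : RuleL} {l : List RuleL} (h1 : P a) (h2 : ∀ r ∈ l, P r) :
    ∀ r ∈ (a :: l), P r := List.forall_mem_cons.mpr ⟨h1, h2⟩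

/-- all rules hold -/
theorem rls_sem (C : SIC α (rowsOf fam) [] r 4 8 n R 3 F j t) (g bK bW : ℤ) :
    ∀ r ∈ rls, RuleL.Sem sys (pt C g bK bW) r := by
  unfold rls
  exact rall_cons (ru0 C g bK bW) <|
    rall_cons (ru1 C g bK bW) <|
    rall_cons (ru2 C g bK bW) <|
    rall_cons (ru3 C g bK bW) <|
    rall_cons (ru4 C g bK bW) <|
    rall_cons (ru5 C g bK bW) <|
    rall_cons (ru6 C g bK bW) <|
    rall_cons (ru7 C g bK bW) <|
    rall_cons (ru8 C g bK bW) <|
    rall_cons (ru9 C g bK bW) <|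
    rall_cons (ru10 C g bK bW) <|
    rall_cons (ru11 C g bK bW) <|
    rall_cons (ru12 C g bK bW) <|
    rall_cons (ru13 C g bK bW) <|
    rall_cons (ru14 C g bK bW) <|
    rall_cons (ru15 C g bK bW) <|
    rall_cons (ru16 C g bK bW) <|
    rall_cons (ru17 C g bK bW) <|
    rall_cons (ru18 C g bK bW) <|
    rall_cons (ru19 C g bK bW) <|
    rall_cons (ru20 C g bK bW) <|
    rall_cons (ru21 C g bK bW) <|
    rall_cons (ru22 C g bK bW) <|
    rall_cons (ru23 C g bK bW) <|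
    rall_cons (ru24 C g bK bW) <|
    rall_cons (ru25 C g bK bW) <|
    rall_cons (ru26 C g bK bW) <|
    rall_cons (ru27 C g bK bW) <|
    rall_cons (ru28 C g bK bW) <|
    rall_cons (ru29 C g bK bW) <|
    rall_cons (ru30 C g bK bW) <|
    rall_cons (ru31 C g bK bW) <|
    rall_cons (ru32 C g bK bW) <|
    rall_cons (ru33 C g bK bW) <|
    rall_cons (ru34 C g bK bW) <|
    rall_cons (ru35 C g bK bW) <|
    rall_cons (ru36 C g bK bW) <|
    rall_cons (ru37 C g bK bW) <|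
    rall_cons (ru38 C g bK bW) <|
    rall_cons (ru39 C g bK bW) <|
    rall_cons (ru40 C g bK bW) <|
    rall_cons (ru41 C g bK bW) <|
    rall_cons (ru42 C g bK bW) <|
    rall_cons (ru43 C g bK bW) <|
    rall_cons (ru44 C g bK bW) <|
    rall_cons (ru45 C g bK bW) <|
    rall_cons (ru46 C g bK bW) <|
    rall_cons (ru47 C g bK bW) <|
    rall_cons (ru48 C g bK bW) <|
    rall_cons (ru49 C g bK bW) <|
    rall_cons (ru50 C g bK bW) <|
    rall_cons (ru51 C g bK bW) <|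
    rall_cons (ru52 C g bK bW) <|
    rall_cons (ru53 C g bK bW) <|
    rall_cons (ru54 C g bK bW) <|
    rall_cons (ru55 C g bK bW) <|
    rall_cons (ru56 C g bK bW) <|
    rall_cons (ru57 C g bK bW) <|
    rall_cons (ru58 C g bK bW) <|
    rall_cons (ru59 C g bK bW) <|
    rall_cons (ru60 C g bK bW) <|
    rall_cons (ru61 C g bK bW) <|
    rall_cons (ru62 C g bK bW) <|
    rall_cons (ru63 C g bK bW) <|
    rall_cons (ru64 C g bK bW) <|
    rall_cons (ru65 C g bK bW) <|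
    rall_cons (ru66 C g bK bW) <|
    rall_cons (ru67 C g bK bW) <|
    rall_cons (ru68 C g bK bW) <|
    rall_cons (ru69 C g bK bW) <|
    rall_cons (ru70 C g bK bW) <|
    rall_cons (ru71 C g bK bW) <|
    rall_cons (ru72 C g bK bW) <|
    rall_cons (ru73 C g bK bW) <|
    rall_cons (ru74 C g bK bW) <|
    rall_cons (ru75 C g bK bW) <|
    rall_cons (ru76 C g bK bW) <|
    rall_nil

end Pool.Agent.EdgeIso.Chk.S30
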