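import Pool.Agent.Lib.MP_48c8f3_co.Bas
import Pool.Agent.Lib.MP_48c8f3_co.S30G1
import Pool.Agent.Lib.MP_48c8f3_co.S30G2
import Pool.Agent.Lib.MP_48c8f3_co.S30R
import Pool.Agent.Lib.MP_48c8f3_co.S30E

set_option autoImplicit false
set_option linter.unusedSectionVars false
set_option linter.unusedVariables false

/-!
MP_48c8f3_co: the point satisfies the system (machine made).
-/

namespace Pool.Agent.EdgeIso.Chk.S30

open Finset Pool.Agent.EdgeIso.Frame Pool.Agent.EdgeIso.Cell Pool.Agent.EdgeIso.Walsh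
  Pool.Agent.EdgeIso.Smooth

variable {α : Type*} [DecidableEq α] {r : SRow} {n R : ℕ} {F : Frame.Num} {j t : ℕ}

set_option maxRecDepth 100000

theorem all_nil {P : ItemL → Prop} : ∀ it ∈ ([] : List ItemL), P it := by simp

theorem all_cons {P : ItemL → Prop} {a : ItemL} {l : List ItemL} (h1 : P a) (h2 : ∀ it ∈ l, P it) :
    ∀ it ∈ (a :: l), P it := List.forall_mem_cons.mpr ⟨h1, h2⟩

theorem lall_nil {P : List ℤ → Prop} : ∀ L ∈ ([] : List (List ℤ)), P L := by simp

theorem lall_cons {P : List ℤ → Prop} {a : List ℤ} {l : List (List ℤ)} (h1 : P a) (h2 : ∀ L ∈ l, P L) :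
    ∀ L ∈ (a :: l), P L := List.forall_mem_cons.mpr ⟨h1, h2⟩

/-- all linear items hold -/
theorem lin_sem (C : SIC α (rowsOf fam) [] r 4 8 n R 3 F j t) (g bK bW : ℤ) (hG : GOK C g bK bW) :
    ∀ L ∈ sys.lin, 0 ≤ dot L (pt C g bK bW) := by
  show ∀ L ∈ ([f [(1, 8), (5, -2), (8, 1), (9, -1), (10, -1)],
    f [(4, 8), (6, -2), (10, 1), (11, -1), (12, -1)],
    f [(1, -4), (2, 8), (5, 1)],
    f [(1, -8), (2, 4), (3, 4), (4, 8), (5, 1)],
    f [(1, -2), (2, -2), (3, -2), (7, 1)],
    f [(0, 41), (1, -944), (2, -944), (3, -944), (28, 320)],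
    f [(0, 7), (1, -124), (2, -124), (3, -124), (28, 40)],
    f [(0, 43), (1, -536), (2, -536), (3, -536), (28, 160)],
    f [(0, 95), (1, -436), (2, -436), (3, -436), (28, 80)],
    f [(1, -3), (2, -3), (3, -3), (7, 1), (32, 1)],
    f [(1, -4), (2, -4), (3, -4), (7, 1), (33, 1)],
    f [(1, 11), (2, -5), (3, -5), (29, 4)],
    f [(1, 832), (2, 448), (3, 448), (8, -160), (17, 160), (27, 160), (28, -160), (29, -256), (30, -64), (31, -160), (32, -48), (33, -31)],
    f [(1, 4), (20, 1), (27, -1)],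
    f [(5, 1), (21, 2), (27, -1)],
    f [(1, -4), (2, 4), (3, 4), (5, 1), (23, 2), (27, -1)],
    f [(2, 4), (3, 4), (22, 1), (27, -1)],
    f [(2, 4), (20, -1), (24, 1)],
    f [(4, 4), (23, -1), (25, 1)],
    f [(1, 4), (4, -8), (6, 1), (23, -1), (26, 2)],
    f [(0, 1), (1, -1)],
    f [(0, 1), (2, -1)],
    f [(0, 1), (3, -1)],
    f [(0, 1), (4, -1)],
    f [(0, 1), (5, -1)],
    f [(0, 1), (6, -1)],
    f [(0, 4), (7, -1)],
    f [(0, 8), (8, -1)],
    f [(0, 8), (9, -1)],
    f [(0, 8), (10, -1)],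
    f [(0, 10), (11, -1)],
    f [(0, 10), (12, -1)],
    f [(0, 1), (13, -1)],
    f [(0, 1), (14, -1)],
    f [(0, 1), (15, -1)],
    f [(0, 1), (16, -1)],
    f [(0, 2), (17, -1)],
    f [(0, 2), (18, -1)],
    f [(0, 2), (19, -1)],
    f [(0, 2), (20, -1)],
    f [(0, 2), (21, -1)],
    f [(0, 1), (22, -1)],
    f [(0, 1), (23, -1)],
    f [(0, 2), (24, -1)],
    f [(0, 1), (25, -1)],
    f [(0, 1), (26, -1)],
    f [(0, 2), (27, -1)],
    f [(0, 4), (28, -1)],
    f [(0, 1), (29, -1)],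
    f [(0, 1), (31, -1)],
    f [(0, 1), (32, -1)],
    f [(0, 1), (33, -1)],
    f [(0, 1), (34, -1)],
    f [(0, 1), (35, -1)],
    f [(0, 2), (36, -1)],
    f [(0, 1), (37, -1)],
    f [(0, 1), (38, -1)],
    f [(0, 1), (39, -1)],
    f [(0, 2), (40, -1)],
    f [(0, 4), (41, -1)],
    f [(0, 4), (42, -1)]] : List (List ℤ)), 0 ≤ dot L (pt C g bK bW)
  exact lall_cons (li0 C g bK bW hG) <|
    lall_cons (li1 C g bK bW hG) <|
    lall_cons (li2 C g bK bW hG) <|
    lall_cons (li3 C g bK bW hG) <|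
    lall_cons (li4 C g bK bW hG) <|
    lall_cons (li5 C g bK bW hG) <|
    lall_cons (li6 C g bK bW hG) <|
    lall_cons (li7 C g bK bW hG) <|
    lall_cons (li8 C g bK bW hG) <|
    lall_cons (li9 C g bK bW hG) <|
    lall_cons (li10 C g bK bW hG) <|
    lall_cons (li11 C g bK bW hG) <|
    lall_cons (li12 C g bK bW hG) <|
    lall_cons (li13 C g bK bW hG) <|
    lall_cons (li14 C g bK bW hG) <|
    lall_cons (li15 C g bK bW hG) <|
    lall_cons (li16 C g bK bW hG) <|
    lall_cons (li17 C g bK bW hG) <|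
    lall_cons (li18 C g bK bW hG) <|
    lall_cons (li19 C g bK bW hG) <|
    lall_cons (li20 C g bK bW hG) <|
    lall_cons (li21 C g bK bW hG) <|
    lall_cons (li22 C g bK bW hG) <|
    lall_cons (li23 C g bK bW hG) <|
    lall_cons (li24 C g bK bW hG) <|
    lall_cons (li25 C g bK bW hG) <|
    lall_cons (li26 C g bK bW hG) <|
    lall_cons (li27 C g bK bW hG) <|
    lall_cons (li28 C g bK bW hG) <|
    lall_cons (li29 C g bK bW hG) <|
    lall_cons (li30 C g bK bW hG) <|
    lall_cons (li31 C g bK bW hG) <|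
    lall_cons (li32 C g bK bW hG) <|
    lall_cons (li33 C g bK bW hG) <|
    lall_cons (li34 C g bK bW hG) <|
    lall_cons (li35 C g bK bW hG) <|
    lall_cons (li36 C g bK bW hG) <|
    lall_cons (li37 C g bK bW hG) <|
    lall_cons (li38 C g bK bW hG) <|
    lall_cons (li39 C g bK bW hG) <|
    lall_cons (li40 C g bK bW hG) <|
    lall_cons (li41 C g bK bW hG) <|
    lall_cons (li42 C g bK bW hG) <|
    lall_cons (li43 C g bK bW hG) <|
    lall_cons (li44 C g bK bW hG) <|
    lall_cons (li45 C g bK bW hG) <|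
    lall_cons (li46 C g bK bW hG) <|
    lall_cons (li47 C g bK bW hG) <|
    lall_cons (li48 C g bK bW hG) <|
    lall_cons (li49 C g bK bW hG) <|
    lall_cons (li50 C g bK bW hG) <|
    lall_cons (li51 C g bK bW hG) <|
    lall_cons (li52 C g bK bW hG) <|
    lall_cons (li53 C g bK bW hG) <|
    lall_cons (li54 C g bK bW hG) <|
    lall_cons (li55 C g bK bW hG) <|
    lall_cons (li56 C g bK bW hG) <|
    lall_cons (li57 C g bK bW hG) <|
    lall_cons (li58 C g bK bW hG) <|
    lall_cons (li59 C g bK bW hG) <|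
    lall_cons (li60 C g bK bW hG) <|
    lall_nil

/-- all items hold -/
theorem its_sem (C : SIC α (rowsOf fam) [] r 4 8 n R 3 F j t) (g bK bW : ℤ) (hG : GOK C g bK bW) (hn : 1 ≤ n) :
    ∀ it ∈ its, it.Sem sys (pt C g bK bW) := by
  unfold its
  exact all_cons (it0 C g bK bW) <|
    all_cons (it1 C g bK bW) <|
    all_cons (it2 C g bK bW) <|
    all_cons (it3 C g bK bW) <|
    all_cons (it4 C g bK bW) <|
    all_cons (it5 C g bK bW) <|
    all_cons (it6 C g bK bW) <|
    all_cons (it7 C g bK bW) <|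
    all_cons (it8 C g bK bW) <|
    all_cons (it9 C g bK bW) <|
    all_cons (it10 C g bK bW) <|
    all_cons (it11 C g bK bW) <|
    all_cons (it12 C g bK bW hG) <|
    all_cons (it13 C g bK bW hG) <|
    all_cons (it14 C g bK bW hG) <|
    all_cons (it15 C g bK bW hG) <|
    all_cons (it16 C g bK bW hG) <|
    all_cons (it17 C g bK bW hG) <|
    all_cons (it18 C g bK bW hG) <|
    all_cons (it19 C g bK bW) <|
    all_cons (it20 C g bK bW) <|
    all_cons (it21 C g bK bW) <|
    all_cons (it22 C g bK bW) <|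
    all_cons (it23 C g bK bW) <|
    all_cons (it24 C g bK bW) <|
    all_cons (it25 C g bK bW) <|
    all_cons (it26 C g bK bW hn) <|
    all_cons (it27 C g bK bW hn) <|
    all_cons (it28 C g bK bW hn) <|
    all_cons (it29 C g bK bW hn) <|
    all_cons (it30 C g bK bW hn) <|
    all_cons (it31 C g bK bW hn) <|
    all_cons (it32 C g bK bW hn) <|
    all_cons (it33 C g bK bW hn) <|
    all_cons (it34 C g bK bW hn) <|
    all_cons (it35 C g bK bW hn) <|
    all_cons (it36 C g bK bW) <|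
    all_cons (it37 C g bK bW) <|
    all_cons (it38 C g bK bW) <|
    all_cons (it39 C g bK bW) <|
    all_cons (it40 C g bK bW) <|
    all_cons (it41 C g bK bW) <|
    all_cons (it42 C g bK bW) <|
    all_cons (it43 C g bK bW) <|
    all_cons (it44 C g bK bW hG) <|
    all_cons (it45 C g bK bW hG) <|
    all_nil

theorem nonneg_vt (C : SIC α (rowsOf fam) [] r 4 8 n R 3 F j t) (g bK bW : ℤ) (hG : GOK C g bK bW) : ∀ v ∈ (5 * 2 ^ 43 * 2 ^ j * 2 ^ R :: vt C g bK bW), (0 : ℤ) ≤ v := by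
  have z := siz C
  have hhmF := gmF C
  have hhqF := gqF C
  have hhyF := gyF C
  have hhmK := gmK C
  have hhqK := gqK C
  have hhyK := gyK C
  have hhmW := gmW C
  have hhqW := gqW C
  have hhyW := gyW C
  have hhmP := gmP C
  have hhqP := gqP C
  have hhyP := gyP C
  have hhmA := gmA C
  have hhqA := gqA C
  have hhyA := gyA C
  have hhmW1 := gmW1 C
  have hhqW1 := gqW1 C
  have hhyW1 := gyW1 C
  have hhmW2 := gmW2 C
  have hhqW2 := gqW2 C
  have hhyW2 := gyW2 C
  have hv2_0 := fzv2_0 C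
  have hh1 := fzh1 C
  have hh2 := fzh2 C
  have hZK0 := fzZK0 C
  have hZW0 := fzZW0 C
  have hZF1 := fzZF1 C
  have hZK1 := fzZK1 C
  have hZW1 := fzZW1 C
  have hZF2 := fzZF2 C
  have hZK2 := fzZK2 C
  have hZW2 := fzZW2 C
  have hgn := hG.nn
  have hbloK := bloK hG
  have hbloW := bloW hG
  simp only [List.mem_cons, forall_eq_or_imp, List.not_mem_nil, IsEmpty.forall_iff, implies_true,
    and_true]
  refine ⟨?_, ?_, ?_, ?_, ?_, ?_, ?_, ?_, ?_, ?_, ?_, ?_, ?_, ?_, ?_, ?_, ?_, ?_, ?_, ?_, ?_, ?_, ?_, ?_, ?_, ?_, ?_, ?_, ?_, ?_, ?_, ?_, ?_, ?_, ?_, ?_, ?_, ?_, ?_, ?_, ?_, ?_, ?_⟩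
  · positivity
  · positivity
  · positivity
  · positivity
  · positivity
  · positivity
  · positivity
  · positivity
  · linarith only [hhmF]
  · linarith only [hhmK]
  · linarith only [hhmW]
  · linarith only [hhmW1]
  · linarith only [hhmW2]
  · linarith only [hhqK]
  · linarith only [hhqW]
  · linarith only [hhqW1]
  · linarith only [hhqW2]
  · linarith only [hhyF]
  · linarith only [hhyK]
  · linarith only [hhyW]
  · positivity
  · positivity
  · positivity
  · positivity
  · positivity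
  · positivity
  · positivity
  · positivity
  · exact hgn
  · linarith only [hh1]
  · linarith only [hh2]
  · positivity
  · linarith only [hZF1]
  · linarith only [hZF2]
  · linarith only [hZK0]
  · linarith only [hZK1]
  · linarith only [hZK2]
  · linarith only [hZW0]
  · linarith only [hZW1]
  · linarith only [hZW2]
  · linarith only [hv2_0]
  · linarith only [hbloK]
  · linarith only [hbloW]

/-- the point is admissible -/
theorem core_cst (C : SIC α (rowsOf fam) [] r 4 8 n R 3 F j t) (g bK bW : ℤ) (hG : GOK C g bK bW) :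
    (∀ i, 0 ≤ pt C g bK bW i) ∧ 0 < pt C g bK bW 0 ∧ 0 < dot sys.fin (pt C g bK bW) := by
  refine ⟨ptV_nonneg (nonneg_vt C g bK bW hG), ?_, ?_⟩
  · rw [pt0]
    positivity
  · have h0 : dot sys.fin (pt C g bK bW) = (1 * (1) + (0) : ℤ) := fe_q (m := 43) (l := [(31, 1)]) _ rfl rfl
    rw [h0]
    norm_num

/-- the certificate -/
theorem core_sound {Cc : Cst} (hC : Cc = sys.cst) {tr : IT} {Tt : FT}
    (hTr : Tt = tr.run (its.map (ItemL.run sys Cc))) {grps : List (List ℕ)} {trr : IT} {Rr : RT}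
    (hRr : Rr = trr.runR (grps.map (grp (rls.map RuleL.run)))) {st : ℕ} (hst : st = mkst bds0)
    (ht : Cl Cc Tt Rr st) (C : SIC α (rowsOf fam) [] r 4 8 n R 3 F j t) (g bK bW : ℤ) (hG : GOK C g bK bW) (hn : 1 ≤ n) : False :=
  sys_sound (S := sys) (by decide) hex (by decide) hfin
    hlin (its := its) hwf hC hTr (rls := rls) (by decide +kernel)
    (grps := grps) hRr (bds := bds0) (by decide +kernel) hst ht (core_cst C g bK bW hG).1
    (core_cst C g bK bW hG).2.1 (core_cst C g bK bW hG).2.2 (lin_sem C g bK bW hG) (its_sem C g bK bW hG hn) (rls_sem C g bK bW) (bds_ok C g bK bW)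

end Pool.Agent.EdgeIso.Chk.S30
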