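import Pool.Agent.Lib.MP_48c8f3_co.Bas
import Pool.Agent.Lib.MP_48c8f3_co.S30G
import Pool.Agent.Lib.MP_48c8f3_co.S30C
import Pool.Agent.Lib.MP_48c8f3_co.SNe

set_option autoImplicit false
set_option linter.unusedSectionVars false
set_option linter.unusedVariables false

/-!
MP_48c8f3_co: the step of the smooth inequality (machine made).
-/

namespace Pool.Agent.EdgeIso.Chk.S30

open Finset Pool.Agent.EdgeIso.Frame Pool.Agent.EdgeIso.Cell Pool.Agent.EdgeIso.Walsh
  Pool.Agent.EdgeIso.Smooth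

variable {α : Type*} [DecidableEq α] {r : SRow} {n R : ℕ} {F : Frame.Num} {j t : ℕ}

set_option maxRecDepth 100000

theorem gok0 (C : SIC α (rowsOf fam) [] (shp0.row 3 (8, 10, -656, -336)) 4 8 n R 3 F j t) {bK bW : ℤ}
    (hK : BOK shp0 (n + 1) (2 * (C.A.x : ℤ)) C.K bK) (hW : BOK shp0 (n + 1) (2 * (C.W2.x : ℤ)) C.W bW) :
    GOK C (32435593019392 * (2 ^ j * (F.x : ℤ)) + (-5634997092352) * (2 ^ j * 2 ^ R)) bK bW := by
  have z := siz C
  have hd0 := C.dim
  have hd1 : n + 1 = R + 2 := by omega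
  have hd2 : n = R + 1 := by omega
  have hcd := C.cond
  have hc1 := hcd _ (List.mem_cons_self ..)
  have hc2 := hcd _ (List.mem_cons_of_mem _ (List.mem_cons_self ..))
  have hg := C.neg
  have he := EMZ (j := j) C.fF R
  simp only [Shp.row, condP, shp0, Frame.hsum, Frame.thsum, List.map_cons, List.map_nil, List.sum_cons, List.sum_nil] at hg hc1 hc2
  push_cast at hg hc1 hc2
  rw [C.dim, pow_add] at hg hc1 hc2
  have hd1 := mul2 j hc1
  have hd2 := mul2 j hc2
  have ht0 := le_max_left (0 : ℤ) (2 ^ j * (4 * (F.x : ℤ)) - 8 * (t : ℤ))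
  have hm1 : max (0 : ℤ) (1 * (F.x : ℤ) - 1 * (2 * (C.W.x : ℤ))) = F.x - 2 * C.W.x := by
    have := C.mF.sz
    have := C.mF.le
    rw [max_eq_right] <;> omega
  rw [hm1] at hg
  unfold Sc at hg
  push_cast at hg
  refine ⟨?_, ?_, ?_, ?_, ?_, ?_, ?_, hK, hW⟩
  · linarith only [z.ex, z.eK, z.eW, hg, he, ht0]
  · linarith only [z.ex, z.eK, z.eW]
  · linarith only [z.ex, z.eK, z.eW, hd1, hd2, z.lo, z.hi]
  · linarith only [z.ex, z.eK, z.eW, hd1, hd2, z.lo, z.hi]
  · linarith only [z.ex, z.eK, z.eW, hd1, hd2, z.lo, z.hi]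
  · linarith only [z.ex, z.eK, z.eW, hd1, hd2, z.lo, z.hi, z.U1]
  · linarith only [z.ex, z.eK, z.eW, hd1, hd2, z.lo, z.hi, z.U1]

theorem step0 : SStepR α (rowsOf fam) [] (shp0.row 3 (8, 10, -656, -336)) := by
  refine SStepR.exact' (k := 3) (τ0 := 4) (τ1 := 8) (by norm_num) ?_ ?_ (by decide +kernel) (by decide +kernel) (by decide +kernel) ?_
  · intro V x h
    have h1 := h _ (List.mem_cons_self ..)
    have h2 := h _ (List.mem_cons_of_mem _ (List.mem_cons_self ..))
    simp only at h1 h2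
    push_cast at h1 h2
    norm_num at h1 h2 ⊢
    linarith
  · intro V x h
    have h1 := h _ (List.mem_cons_self ..)
    have h2 := h _ (List.mem_cons_of_mem _ (List.mem_cons_self ..))
    simp only at h1 h2
    push_cast at h1 h2
    norm_num at h1 h2 ⊢
    linarith
  · intro n R F j t hn C
    obtain ⟨bK, hbK⟩ := Shp.exB (s := shp0) (by decide) (by decide) (z_atK C).vx (z_atK C).fam
      (fun s X h1 h2 => C.ih s X (by omega) h2)
      (z_row C rfl (by omega) (z_atK C).fam _ (mem_famG0 (by unfold famG0; simp)))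
    obtain ⟨bW, hbW⟩ := Shp.exB (s := shp0) (by decide) (by decide) (z_atW C).vx (z_atW C).fam
      (fun s X h1 h2 => C.ih s X (by omega) h2)
      (z_row C rfl (by omega) (z_atW C).fam _ (mem_famG0 (by unfold famG0; simp)))
    exact core_sound Cert.hC Cert.hT Cert.hR (Cert.hst.trans rfl) Cert.hcl C _ _ _ (gok0 C hbK hbW) hn

theorem gok1 (C : SIC α (rowsOf fam) [] (shp0.row 3 (10, 12, -896, -288)) 4 8 n R 3 F j t) {bK bW : ℤ}
    (hK : BOK shp0 (n + 1) (2 * (C.A.x : ℤ)) C.K bK) (hW : BOK shp0 (n + 1) (2 * (C.W2.x : ℤ)) C.W bW) :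
    GOK C (34084860461056 * (2 ^ j * (F.x : ℤ)) + (-7696581394432) * (2 ^ j * 2 ^ R)) bK bW := by
  have z := siz C
  have hd0 := C.dim
  have hd1 : n + 1 = R + 2 := by omega
  have hd2 : n = R + 1 := by omega
  have hcd := C.cond
  have hc1 := hcd _ (List.mem_cons_self ..)
  have hc2 := hcd _ (List.mem_cons_of_mem _ (List.mem_cons_self ..))
  have hg := C.neg
  have he := EMZ (j := j) C.fF R
  simp only [Shp.row, condP, shp0, Frame.hsum, Frame.thsum, List.map_cons, List.map_nil, List.sum_cons, List.sum_nil] at hg hc1 hc2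
  push_cast at hg hc1 hc2
  rw [C.dim, pow_add] at hg hc1 hc2
  have hd1 := mul2 j hc1
  have hd2 := mul2 j hc2
  have ht0 := le_max_left (0 : ℤ) (2 ^ j * (4 * (F.x : ℤ)) - 8 * (t : ℤ))
  have hm1 : max (0 : ℤ) (1 * (F.x : ℤ) - 1 * (2 * (C.W.x : ℤ))) = F.x - 2 * C.W.x := by
    have := C.mF.sz
    have := C.mF.le
    rw [max_eq_right] <;> omega
  rw [hm1] at hg
  unfold Sc at hg
  push_cast at hg
  refine ⟨?_, ?_, ?_, ?_, ?_, ?_, ?_, hK, hW⟩
  · linarith only [z.ex, z.eK, z.eW, hg, he, ht0]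
  · linarith only [z.ex, z.eK, z.eW, hd1, hd2, z.lo, z.hi]
  · linarith only [z.ex, z.eK, z.eW]
  · linarith only [z.ex, z.eK, z.eW, hd1, hd2, z.lo, z.hi]
  · linarith only [z.ex, z.eK, z.eW, hd1, hd2, z.lo, z.hi]
  · linarith only [z.ex, z.eK, z.eW, hd1, hd2, z.lo, z.hi, z.U1]
  · linarith only [z.ex, z.eK, z.eW, hd1, hd2, z.lo, z.hi, z.U1]

theorem step1 : SStepR α (rowsOf fam) [] (shp0.row 3 (10, 12, -896, -288)) := by
  refine SStepR.exact' (k := 3) (τ0 := 4) (τ1 := 8) (by norm_num) ?_ ?_ (by decide +kernel) (by decide +kernel) (by decide +kernel) ?_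
  · intro V x h
    have h1 := h _ (List.mem_cons_self ..)
    have h2 := h _ (List.mem_cons_of_mem _ (List.mem_cons_self ..))
    simp only at h1 h2
    push_cast at h1 h2
    norm_num at h1 h2 ⊢
    linarith
  · intro V x h
    have h1 := h _ (List.mem_cons_self ..)
    have h2 := h _ (List.mem_cons_of_mem _ (List.mem_cons_self ..))
    simp only at h1 h2
    push_cast at h1 h2
    norm_num at h1 h2 ⊢
    linarith
  · intro n R F j t hn C
    obtain ⟨bK, hbK⟩ := Shp.exB (s := shp0) (by decide) (by decide) (z_atK C).vx (z_atK C).fam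
      (fun s X h1 h2 => C.ih s X (by omega) h2)
      (z_row C rfl (by omega) (z_atK C).fam _ (mem_famG0 (by unfold famG0; simp)))
    obtain ⟨bW, hbW⟩ := Shp.exB (s := shp0) (by decide) (by decide) (z_atW C).vx (z_atW C).fam
      (fun s X h1 h2 => C.ih s X (by omega) h2)
      (z_row C rfl (by omega) (z_atW C).fam _ (mem_famG0 (by unfold famG0; simp)))
    exact core_sound Cert.hC Cert.hT Cert.hR (Cert.hst.trans rfl) Cert.hcl C _ _ _ (gok1 C hbK hbW) hn

theorem gok2 (C : SIC α (rowsOf fam) [] (shp0.row 3 (12, 14, -1376, -208)) 4 8 n R 3 F j t) {bK bW : ℤ}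
    (hK : BOK shp0 (n + 1) (2 * (C.A.x : ℤ)) C.K bK) (hW : BOK shp0 (n + 1) (2 * (C.W2.x : ℤ)) C.W bW) :
    GOK C (36833639530496 * (2 ^ j * (F.x : ℤ)) + (-11819749998592) * (2 ^ j * 2 ^ R)) bK bW := by
  have z := siz C
  have hd0 := C.dim
  have hd1 : n + 1 = R + 2 := by omega
  have hd2 : n = R + 1 := by omega
  have hcd := C.cond
  have hc1 := hcd _ (List.mem_cons_self ..)
  have hc2 := hcd _ (List.mem_cons_of_mem _ (List.mem_cons_self ..))
  have hg := C.neg
  have he := EMZ (j := j) C.fF R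
  simp only [Shp.row, condP, shp0, Frame.hsum, Frame.thsum, List.map_cons, List.map_nil, List.sum_cons, List.sum_nil] at hg hc1 hc2
  push_cast at hg hc1 hc2
  rw [C.dim, pow_add] at hg hc1 hc2
  have hd1 := mul2 j hc1
  have hd2 := mul2 j hc2
  have ht0 := le_max_left (0 : ℤ) (2 ^ j * (4 * (F.x : ℤ)) - 8 * (t : ℤ))
  have hm1 : max (0 : ℤ) (1 * (F.x : ℤ) - 1 * (2 * (C.W.x : ℤ))) = F.x - 2 * C.W.x := by
    have := C.mF.sz
    have := C.mF.le
    rw [max_eq_right] <;> omega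
  rw [hm1] at hg
  unfold Sc at hg
  push_cast at hg
  refine ⟨?_, ?_, ?_, ?_, ?_, ?_, ?_, hK, hW⟩
  · linarith only [z.ex, z.eK, z.eW, hg, he, ht0]
  · linarith only [z.ex, z.eK, z.eW, hd1, hd2, z.lo, z.hi]
  · linarith only [z.ex, z.eK, z.eW, hd1, hd2, z.lo, z.hi]
  · linarith only [z.ex, z.eK, z.eW]
  · linarith only [z.ex, z.eK, z.eW, hd1, hd2, z.lo, z.hi]
  · linarith only [z.ex, z.eK, z.eW, hd1, hd2, z.lo, z.hi, z.U1]
  · linarith only [z.ex, z.eK, z.eW, hd1, hd2, z.lo, z.hi, z.U1]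

theorem step2 : SStepR α (rowsOf fam) [] (shp0.row 3 (12, 14, -1376, -208)) := by
  refine SStepR.exact' (k := 3) (τ0 := 4) (τ1 := 8) (by norm_num) ?_ ?_ (by decide +kernel) (by decide +kernel) (by decide +kernel) ?_
  · intro V x h
    have h1 := h _ (List.mem_cons_self ..)
    have h2 := h _ (List.mem_cons_of_mem _ (List.mem_cons_self ..))
    simp only at h1 h2
    push_cast at h1 h2
    norm_num at h1 h2 ⊢
    linarith
  · intro V x h
    have h1 := h _ (List.mem_cons_self ..)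
    have h2 := h _ (List.mem_cons_of_mem _ (List.mem_cons_self ..))
    simp only at h1 h2
    push_cast at h1 h2
    norm_num at h1 h2 ⊢
    linarith
  · intro n R F j t hn C
    obtain ⟨bK, hbK⟩ := Shp.exB (s := shp0) (by decide) (by decide) (z_atK C).vx (z_atK C).fam
      (fun s X h1 h2 => C.ih s X (by omega) h2)
      (z_row C rfl (by omega) (z_atK C).fam _ (mem_famG0 (by unfold famG0; simp)))
    obtain ⟨bW, hbW⟩ := Shp.exB (s := shp0) (by decide) (by decide) (z_atW C).vx (z_atW C).fam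
      (fun s X h1 h2 => C.ih s X (by omega) h2)
      (z_row C rfl (by omega) (z_atW C).fam _ (mem_famG0 (by unfold famG0; simp)))
    exact core_sound Cert.hC Cert.hT Cert.hR (Cert.hst.trans rfl) Cert.hcl C _ _ _ (gok2 C hbK hbW) hn

theorem gok3 (C : SIC α (rowsOf fam) [] (shp0.row 3 (14, 16, -6080, 464)) 4 8 n R 3 F j t) {bK bW : ℤ}
    (hK : BOK shp0 (n + 1) (2 * (C.A.x : ℤ)) C.K bK) (hW : BOK shp0 (n + 1) (2 * (C.W2.x : ℤ)) C.W bW) :
    GOK C (59923383713792 * (2 ^ j * (F.x : ℤ)) + (-52226802319360) * (2 ^ j * 2 ^ R)) bK bW := by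
  have z := siz C
  have hd0 := C.dim
  have hd1 : n + 1 = R + 2 := by omega
  have hd2 : n = R + 1 := by omega
  have hcd := C.cond
  have hc1 := hcd _ (List.mem_cons_self ..)
  have hc2 := hcd _ (List.mem_cons_of_mem _ (List.mem_cons_self ..))
  have hg := C.neg
  have he := EMZ (j := j) C.fF R
  simp only [Shp.row, condP, shp0, Frame.hsum, Frame.thsum, List.map_cons, List.map_nil, List.sum_cons, List.sum_nil] at hg hc1 hc2
  push_cast at hg hc1 hc2
  rw [C.dim, pow_add] at hg hc1 hc2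
  have hd1 := mul2 j hc1
  have hd2 := mul2 j hc2
  have ht0 := le_max_left (0 : ℤ) (2 ^ j * (4 * (F.x : ℤ)) - 8 * (t : ℤ))
  have hm1 : max (0 : ℤ) (1 * (F.x : ℤ) - 1 * (2 * (C.W.x : ℤ))) = F.x - 2 * C.W.x := by
    have := C.mF.sz
    have := C.mF.le
    rw [max_eq_right] <;> omega
  rw [hm1] at hg
  unfold Sc at hg
  push_cast at hg
  refine ⟨?_, ?_, ?_, ?_, ?_, ?_, ?_, hK, hW⟩
  · linarith only [z.ex, z.eK, z.eW, hg, he, ht0]
  · linarith only [z.ex, z.eK, z.eW, hd1, hd2, z.lo, z.hi]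
  · linarith only [z.ex, z.eK, z.eW, hd1, hd2, z.lo, z.hi]
  · linarith only [z.ex, z.eK, z.eW, hd1, hd2, z.lo, z.hi]
  · linarith only [z.ex, z.eK, z.eW]
  · linarith only [z.ex, z.eK, z.eW, hd1, hd2, z.lo, z.hi, z.U1]
  · linarith only [z.ex, z.eK, z.eW, hd1, hd2, z.lo, z.hi, z.U1]

theorem step3 : SStepR α (rowsOf fam) [] (shp0.row 3 (14, 16, -6080, 464)) := by
  refine SStepR.exact' (k := 3) (τ0 := 4) (τ1 := 8) (by norm_num) ?_ ?_ (by decide +kernel) (by decide +kernel) (by decide +kernel) ?_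
  · intro V x h
    have h1 := h _ (List.mem_cons_self ..)
    have h2 := h _ (List.mem_cons_of_mem _ (List.mem_cons_self ..))
    simp only at h1 h2
    push_cast at h1 h2
    norm_num at h1 h2 ⊢
    linarith
  · intro V x h
    have h1 := h _ (List.mem_cons_self ..)
    have h2 := h _ (List.mem_cons_of_mem _ (List.mem_cons_self ..))
    simp only at h1 h2
    push_cast at h1 h2
    norm_num at h1 h2 ⊢
    linarith
  · intro n R F j t hn C
    obtain ⟨bK, hbK⟩ := Shp.exB (s := shp0) (by decide) (by decide) (z_atK C).vx (z_atK C).fam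
      (fun s X h1 h2 => C.ih s X (by omega) h2)
      (z_row C rfl (by omega) (z_atK C).fam _ (mem_famG0 (by unfold famG0; simp)))
    obtain ⟨bW, hbW⟩ := Shp.exB (s := shp0) (by decide) (by decide) (z_atW C).vx (z_atW C).fam
      (fun s X h1 h2 => C.ih s X (by omega) h2)
      (z_row C rfl (by omega) (z_atW C).fam _ (mem_famG0 (by unfold famG0; simp)))
    exact core_sound Cert.hC Cert.hT Cert.hR (Cert.hst.trans rfl) Cert.hcl C _ _ _ (gok3 C hbK hbW) hn

/-- the steps for all pieces -/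
theorem steps : ∀ p ∈ shp0.B 3, SStepR α (rowsOf fam) [] (shp0.row 3 p) := by
  intro p hp
  have e : shp0.B 3 = [(8, 10, -656, -336), (10, 12, -896, -288), (12, 14, -1376, -208), (14, 16, -6080, 464)] := rfl
  rw [e] at hp
  simp only [List.mem_cons, List.not_mem_nil, or_false] at hp
  rcases hp with rfl | rfl | rfl | rfl
  · exact step0
  · exact step1
  · exact step2
  · exact step3

end Pool.Agent.EdgeIso.Chk.S30
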