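import Pool.Agent.Lib.MP_48c8f3_co.Bas
import Pool.Agent.Lib.MP_48c8f3_co.S40H
import Pool.Agent.Lib.MP_48c8f3_co.S40T

set_option autoImplicit false
set_option linter.unusedSectionVars false
set_option linter.unusedVariables false

/-!
MP_48c8f3_co: the point satisfies the system, part 1 (machine made).
-/

namespace Pool.Agent.EdgeIso.Chk.S40

open Finset Pool.Agent.EdgeIso.Frame Pool.Agent.EdgeIso.Cell Pool.Agent.EdgeIso.Walsh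
  Pool.Agent.EdgeIso.Smooth

variable {α : Type*} [DecidableEq α] {r : SRow} {n R : ℕ} {F : Frame.Num} {j t : ℕ}

theorem li0 (C : SIC α (rowsOf fam) [] r 4 8 n R 4 F j t) (g bK bW : ℤ) (hG : GOK C g bK bW) :
    0 ≤ dot (f [(1, 8), (5, -2), (9, 1), (10, -1), (11, -1)]) (pt C g bK bW) := by
  have z := siz C
  have hd0 := C.dim
  refine lin_q (8 * (5 * 2 ^ 41 * 2 ^ j * (C.W.x : ℤ)) + ((-2) * (5 * 2 ^ 43 * 2 ^ j * (C.f : ℤ)) + (1 * (5 * 2 ^ 43 * 2 ^ j * MM R F) + ((-1) * (5 * 2 ^ 43 * 2 ^ j * MM R C.K) + ((-1) * (5 * 2 ^ 43 * 2 ^ j * MM R C.W) + (0))))) : ℤ) rfl rfl ?_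
  linarith only [z.ex, z.eK, z.eW, fmF C]

theorem li2 (C : SIC α (rowsOf fam) [] r 4 8 n R 4 F j t) (g bK bW : ℤ) (hG : GOK C g bK bW) :
    0 ≤ dot (f [(4, 8), (7, -2), (11, 1), (14, -1), (15, -1)]) (pt C g bK bW) := by
  have z := siz C
  have hd0 := C.dim
  refine lin_q (8 * (5 * 2 ^ 41 * 2 ^ j * (C.W2.x : ℤ)) + ((-2) * (5 * 2 ^ 43 * 2 ^ j * (C.fW : ℤ)) + (1 * (5 * 2 ^ 43 * 2 ^ j * MM R C.W) + ((-1) * (5 * 2 ^ 43 * 2 ^ j * MM R C.W1) + ((-1) * (5 * 2 ^ 43 * 2 ^ j * MM R C.W2) + (0))))) : ℤ) rfl rfl ?_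
  linarith only [z.ex, z.eK, z.eW, fmW C]

theorem li4 (C : SIC α (rowsOf fam) [] r 4 8 n R 4 F j t) (g bK bW : ℤ) (hG : GOK C g bK bW) :
    0 ≤ dot (f [(1, -8), (2, 4), (3, 4), (4, 8), (5, 1)]) (pt C g bK bW) := by
  have z := siz C
  have hd0 := C.dim
  refine lin_q ((-8) * (5 * 2 ^ 41 * 2 ^ j * (C.W.x : ℤ)) + (4 * (5 * 2 ^ 41 * 2 ^ j * (C.A.x : ℤ)) + (4 * (5 * 2 ^ 41 * 2 ^ j * (C.P.x : ℤ)) + (8 * (5 * 2 ^ 41 * 2 ^ j * (C.W2.x : ℤ)) + (1 * (5 * 2 ^ 43 * 2 ^ j * (C.f : ℤ)) + (0))))) : ℤ) rfl rfl ?_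
  linarith only [z.ex, z.eK, z.eW, z.h2]

theorem li6 (C : SIC α (rowsOf fam) [] r 4 8 n R 4 F j t) (g bK bW : ℤ) (hG : GOK C g bK bW) :
    0 ≤ dot (f [(15, 1), (20, -2)]) (pt C g bK bW) := by
  have z := siz C
  have hd0 := C.dim
  refine lin_q (1 * (5 * 2 ^ 43 * 2 ^ j * MM R C.W2) + ((-2) * (5 * 2 ^ 42 * 2 ^ j * QQ R C.W2.x) + (0)) : ℤ) rfl rfl ?_
  linarith only [z.ex, z.eK, z.eW, flW2 C]

theorem li8 (C : SIC α (rowsOf fam) [] r 4 8 n R 4 F j t) (g bK bW : ℤ) (hG : GOK C g bK bW) :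
    0 ≤ dot (f [(0, 9), (1, -400), (2, -400), (3, -400), (31, 160)]) (pt C g bK bW) := by
  have z := siz C
  have hd0 := C.dim
  refine lin_q (9 * (5 * 2 ^ 43 * 2 ^ j * 2 ^ R) + ((-400) * (5 * 2 ^ 41 * 2 ^ j * (C.W.x : ℤ)) + ((-400) * (5 * 2 ^ 41 * 2 ^ j * (C.A.x : ℤ)) + ((-400) * (5 * 2 ^ 41 * 2 ^ j * (C.P.x : ℤ)) + (160 * (g) + (0))))) : ℤ) rfl rfl ?_
  linarith only [z.ex, z.eK, z.eW, hG.bTB1]

theorem li10 (C : SIC α (rowsOf fam) [] r 4 8 n R 4 F j t) (g bK bW : ℤ) (hG : GOK C g bK bW) :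
    0 ≤ dot (f [(0, 5), (1, -88), (2, -88), (3, -88), (31, 32)]) (pt C g bK bW) := by
  have z := siz C
  have hd0 := C.dim
  refine lin_q (5 * (5 * 2 ^ 43 * 2 ^ j * 2 ^ R) + ((-88) * (5 * 2 ^ 41 * 2 ^ j * (C.W.x : ℤ)) + ((-88) * (5 * 2 ^ 41 * 2 ^ j * (C.A.x : ℤ)) + ((-88) * (5 * 2 ^ 41 * 2 ^ j * (C.P.x : ℤ)) + (32 * (g) + (0))))) : ℤ) rfl rfl ?_
  linarith only [z.ex, z.eK, z.eW, hG.bTB3]

theorem li12 (C : SIC α (rowsOf fam) [] r 4 8 n R 4 F j t) (g bK bW : ℤ) (hG : GOK C g bK bW) :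
    0 ≤ dot (f [(1, -4), (2, -4), (3, -4), (8, 1), (36, 1)]) (pt C g bK bW) := by
  have z := siz C
  have hd0 := C.dim
  refine lin_q ((-4) * (5 * 2 ^ 41 * 2 ^ j * (C.W.x : ℤ)) + ((-4) * (5 * 2 ^ 41 * 2 ^ j * (C.A.x : ℤ)) + ((-4) * (5 * 2 ^ 41 * 2 ^ j * (C.P.x : ℤ)) + (1 * (5 * 2 ^ 43 * (t : ℤ)) + (1 * (5 * 2 ^ 40 * max 0 (2 ^ j * (8 * (F.x : ℤ)) - 8 * (t : ℤ))) + (0))))) : ℤ) rfl rfl ?_
  linarith only [z.ex, z.eK, z.eW, frZF2 C]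

theorem li14 (C : SIC α (rowsOf fam) [] r 4 8 n R 4 F j t) (g bK bW : ℤ) (hG : GOK C g bK bW) :
    0 ≤ dot (f [(1, 832), (2, 448), (3, 448), (9, -160), (21, 160), (30, 160), (31, -160), (32, -256), (33, -64), (34, -160), (35, -48), (36, -31)]) (pt C g bK bW) := by
  have z := siz C
  have hd0 := C.dim
  refine lin_q (832 * (5 * 2 ^ 41 * 2 ^ j * (C.W.x : ℤ)) + (448 * (5 * 2 ^ 41 * 2 ^ j * (C.A.x : ℤ)) + (448 * (5 * 2 ^ 41 * 2 ^ j * (C.P.x : ℤ)) + ((-160) * (5 * 2 ^ 43 * 2 ^ j * MM R F) + (160 * (5 * 2 ^ 19 * 2 ^ j * YY R F.x) + (160 * (5 * 2 ^ 42 * (F.d j t : ℤ)) + ((-160) * (g) + ((-256) * (5 * 2 ^ 38 * 2 ^ j * max 0 (10 * (F.x : ℤ) - 16 * (2 * (C.W.x : ℤ)))) + ((-64) * (5 * 2 ^ 38 * 2 ^ j * max 0 (6 * (F.x : ℤ) - 16 * (2 * (C.W.x : ℤ)))) + ((-160) * (1) + ((-48) * (5 * 2 ^ 40 * max 0 (2 ^ j * (6 * (F.x : ℤ)) - 8 *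 (t : ℤ))) + ((-31) * (5 * 2 ^ 40 * max 0 (2 ^ j * (8 * (F.x : ℤ)) - 8 * (t : ℤ))) + (0)))))))))))) : ℤ) rfl rfl ?_
  linarith only [z.ex, z.eK, z.eW, hG.goal]

theorem li16 (C : SIC α (rowsOf fam) [] r 4 8 n R 4 F j t) (g bK bW : ℤ) (hG : GOK C g bK bW) :
    0 ≤ dot (f [(5, 1), (25, 2), (30, -1)]) (pt C g bK bW) := by
  have z := siz C
  have hd0 := C.dim
  refine lin_q (1 * (5 * 2 ^ 43 * 2 ^ j * (C.f : ℤ)) + (2 * (5 * 2 ^ 41 * (C.K.d (j + 1) t : ℤ)) + ((-1) * (5 * 2 ^ 42 * (F.d j t : ℤ)) + (0))) : ℤ) rfl rfl ?_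
  linarith only [z.ex, z.eK, z.eW, f3DF C]

theorem li18 (C : SIC α (rowsOf fam) [] r 4 8 n R 4 F j t) (g bK bW : ℤ) (hG : GOK C g bK bW) :
    0 ≤ dot (f [(2, -4), (3, 4), (6, 1), (24, -1), (27, 2)]) (pt C g bK bW) := by
  have z := siz C
  have hd0 := C.dim
  refine lin_q ((-4) * (5 * 2 ^ 41 * 2 ^ j * (C.A.x : ℤ)) + (4 * (5 * 2 ^ 41 * 2 ^ j * (C.P.x : ℤ)) + (1 * (5 * 2 ^ 43 * 2 ^ j * (C.fK : ℤ)) + ((-1) * (5 * 2 ^ 42 * (C.K.d j t : ℤ)) + (2 * (5 * 2 ^ 41 * (C.A.d (j + 1) t : ℤ)) + (0))))) : ℤ) rfl rfl ?_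
  linarith only [z.ex, z.eK, z.eW, f4DKt C]

theorem li20 (C : SIC α (rowsOf fam) [] r 4 8 n R 4 F j t) (g bK bW : ℤ) (hG : GOK C g bK bW) :
    0 ≤ dot (f [(1, 4), (4, -8), (7, 1), (26, -1), (29, 2)]) (pt C g bK bW) := by
  have z := siz C
  have hd0 := C.dim
  refine lin_q (4 * (5 * 2 ^ 41 * 2 ^ j * (C.W.x : ℤ)) + ((-8) * (5 * 2 ^ 41 * 2 ^ j * (C.W2.x : ℤ)) + (1 * (5 * 2 ^ 43 * 2 ^ j * (C.fW : ℤ)) + ((-1) * (5 * 2 ^ 41 * (C.W.d (j + 1) t : ℤ)) + (2 * (5 * 2 ^ 40 * (C.W2.d (j + 2) t : ℤ)) + (0))))) : ℤ) rfl rfl ?_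
  linarith only [z.ex, z.eK, z.eW, f4DWh C]

theorem li22 (C : SIC α (rowsOf fam) [] r 4 8 n R 4 F j t) (g bK bW : ℤ) (hG : GOK C g bK bW) :
    0 ≤ dot (f [(0, 1), (2, -1)]) (pt C g bK bW) := by
  have z := siz C
  have hd0 := C.dim
  have hd1 : n + 1 = R + 3 := by omega
  refine lin_q (1 * (5 * 2 ^ 43 * 2 ^ j * 2 ^ R) + ((-1) * (5 * 2 ^ 41 * 2 ^ j * (C.A.x : ℤ)) + (0)) : ℤ) rfl rfl ?_
  linarith only [z.ex, z.eK, z.eW, z.le2, capZ (j := j) (R := R) C.mF (m := 3) hd1, frZK2 C, z.hi, z.h2, fbZK2 C, z.le3, (ztu C)]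

theorem li24 (C : SIC α (rowsOf fam) [] r 4 8 n R 4 F j t) (g bK bW : ℤ) (hG : GOK C g bK bW) :
    0 ≤ dot (f [(0, 1), (4, -1)]) (pt C g bK bW) := by
  have z := siz C
  have hd0 := C.dim
  have hd1 : n + 1 = R + 3 := by omega
  refine lin_q (1 * (5 * 2 ^ 43 * 2 ^ j * 2 ^ R) + ((-1) * (5 * 2 ^ 41 * 2 ^ j * (C.W2.x : ℤ)) + (0)) : ℤ) rfl rfl ?_
  linarith only [z.ex, z.eK, z.eW, z.le2, z.h1, capZ (j := j) (R := R) C.mF (m := 3) hd1, z.le3]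

theorem li26 (C : SIC α (rowsOf fam) [] r 4 8 n R 4 F j t) (g bK bW : ℤ) (hG : GOK C g bK bW) :
    0 ≤ dot (f [(0, 1), (6, -1)]) (pt C g bK bW) := by
  have z := siz C
  have hd0 := C.dim
  refine lin_q (1 * (5 * 2 ^ 43 * 2 ^ j * 2 ^ R) + ((-1) * (5 * 2 ^ 43 * 2 ^ j * (C.fK : ℤ)) + (0)) : ℤ) rfl rfl ?_
  linarith only [z.ex, z.eK, z.eW, z.le3, z.f2, z.b0, z.le2, z.hi]

theorem li28 (C : SIC α (rowsOf fam) [] r 4 8 n R 4 F j t) (g bK bW : ℤ) (hG : GOK C g bK bW) :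
    0 ≤ dot (f [(0, 4), (8, -1)]) (pt C g bK bW) := by
  have z := siz C
  have hd0 := C.dim
  have hd1 : n + 1 = R + 3 := by omega
  refine lin_q (4 * (5 * 2 ^ 43 * 2 ^ j * 2 ^ R) + ((-1) * (5 * 2 ^ 43 * (t : ℤ)) + (0)) : ℤ) rfl rfl ?_
  linarith only [z.ex, z.eK, z.eW, (ztu C), z.le3, frZK2 C, z.h2, fbZK2 C, capZ (j := j) (R := R) C.mF (m := 3) hd1, z.hi]

theorem li30 (C : SIC α (rowsOf fam) [] r 4 8 n R 4 F j t) (g bK bW : ℤ) (hG : GOK C g bK bW) :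
    0 ≤ dot (f [(0, 8), (10, -1)]) (pt C g bK bW) := by
  have z := siz C
  have hd0 := C.dim
  have hd1 : n + 1 = R + 3 := by omega
  refine lin_q (8 * (5 * 2 ^ 43 * 2 ^ j * 2 ^ R) + ((-1) * (5 * 2 ^ 43 * 2 ^ j * MM R C.K) + (0)) : ℤ) rfl rfl ?_
  linarith only [z.ex, z.eK, z.eW, hG.goal, fmF C, fbZW2 C, flW C, (ztu C), fyF C, fyW C, hG.bTB2, z.le3, frh1 C, gyW C, frZF1 C, frZF2 C, z.hi, frZW2 C, z.h2, fqF C, frh2 C, (zero_le_one : (0 : ℤ) ≤ 1), capZ (j := j) (R := R) C.mF (m := 3) hd1, ftDF C]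

theorem li32 (C : SIC α (rowsOf fam) [] r 4 8 n R 4 F j t) (g bK bW : ℤ) (hG : GOK C g bK bW) :
    0 ≤ dot (f [(0, 10), (12, -1)]) (pt C g bK bW) := by
  have z := siz C
  have hd0 := C.dim
  have hd1 : n + 1 = R + 3 := by omega
  refine lin_q (10 * (5 * 2 ^ 43 * 2 ^ j * 2 ^ R) + ((-1) * (5 * 2 ^ 43 * 2 ^ j * MM R C.P) + (0)) : ℤ) rfl rfl ?_
  linarith only [z.ex, z.eK, z.eW, hG.goal, flA C, fmF C, z.le2, z.hi, flW C, (ztu C), fyA C, fyF C, fyW C, hG.bTB2, z.le3, gyA C, frh1 C, gyW C, frZF1 C, frZF2 C, frZK2 C, fmK C, z.h2, fbZK2 C, z.fK0, fqF C, frh2 C, (zero_le_one : (0 : ℤ) ≤ 1), capZ (j := j) (R := R) C.mF (m := 3) hd1, ftDF C]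

theorem li34 (C : SIC α (rowsOf fam) [] r 4 8 n R 4 F j t) (g bK bW : ℤ) (hG : GOK C g bK bW) :
    0 ≤ dot (f [(0, 10), (14, -1)]) (pt C g bK bW) := by
  have z := siz C
  have hd0 := C.dim
  have hd1 : n + 1 = R + 3 := by omega
  refine lin_q (10 * (5 * 2 ^ 43 * 2 ^ j * 2 ^ R) + ((-1) * (5 * 2 ^ 43 * 2 ^ j * MM R C.W1) + (0)) : ℤ) rfl rfl ?_
  linarith only [z.ex, z.eK, z.eW, hG.goal, fmF C, flK C, fmW C, fbZW2 C, flW2 C, (ztu C), fyF C, fyK C, fyW2 C, hG.bTB2, z.le3, frh1 C, gyK C, gyW2 C, frZF1 C, frZF2 C, z.hi, frZW2 C, z.h2, z.fW0, fqF C, frh2 C, (zero_le_one : (0 : ℤ) ≤ 1), capZ (j := j) (R := R) C.mF (m := 3) hd1, ftDF C]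

theorem li36 (C : SIC α (rowsOf fam) [] r 4 8 n R 4 F j t) (g bK bW : ℤ) (hG : GOK C g bK bW) :
    0 ≤ dot (f [(0, 1), (16, -1)]) (pt C g bK bW) := by
  have z := siz C
  have hd0 := C.dim
  have hd1 : n + 1 = R + 3 := by omega
  refine lin_q (1 * (5 * 2 ^ 43 * 2 ^ j * 2 ^ R) + ((-1) * (5 * 2 ^ 42 * 2 ^ j * QQ R C.K.x) + (0)) : ℤ) rfl rfl ?_
  linarith only [z.ex, z.eK, z.eW, (ztu C), fqK C, z.le3, frZK2 C, z.h2, fbZK2 C, capZ (j := j) (R := R) C.mF (m := 3) hd1, (ztl C)]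

theorem li38 (C : SIC α (rowsOf fam) [] r 4 8 n R 4 F j t) (g bK bW : ℤ) (hG : GOK C g bK bW) :
    0 ≤ dot (f [(0, 1), (18, -1)]) (pt C g bK bW) := by
  have z := siz C
  have hd0 := C.dim
  have hd1 : n + 1 = R + 3 := by omega
  refine lin_q (1 * (5 * 2 ^ 43 * 2 ^ j * 2 ^ R) + ((-1) * (5 * 2 ^ 42 * 2 ^ j * QQ R C.A.x) + (0)) : ℤ) rfl rfl ?_
  linarith only [z.ex, z.eK, z.eW, (ztu C), fqA C, z.le3, frZK2 C, z.h2, fbZK2 C, capZ (j := j) (R := R) C.mF (m := 3) hd1, (ztl C)]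

theorem li40 (C : SIC α (rowsOf fam) [] r 4 8 n R 4 F j t) (g bK bW : ℤ) (hG : GOK C g bK bW) :
    0 ≤ dot (f [(0, 1), (20, -1)]) (pt C g bK bW) := by
  have z := siz C
  have hd0 := C.dim
  have hd1 : n + 1 = R + 3 := by omega
  refine lin_q (1 * (5 * 2 ^ 43 * 2 ^ j * 2 ^ R) + ((-1) * (5 * 2 ^ 42 * 2 ^ j * QQ R C.W2.x) + (0)) : ℤ) rfl rfl ?_
  linarith only [z.ex, z.eK, z.eW, (ztu C), fqW2 C, z.le3, frZK2 C, z.h2, fbZK2 C, capZ (j := j) (R := R) C.mF (m := 3) hd1, (ztl C)]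

theorem li42 (C : SIC α (rowsOf fam) [] r 4 8 n R 4 F j t) (g bK bW : ℤ) (hG : GOK C g bK bW) :
    0 ≤ dot (f [(0, 2), (22, -1)]) (pt C g bK bW) := by
  have z := siz C
  have hd0 := C.dim
  have hd1 : n + 1 = R + 3 := by omega
  refine lin_q (2 * (5 * 2 ^ 43 * 2 ^ j * 2 ^ R) + ((-1) * (5 * 2 ^ 19 * 2 ^ j * YY R C.K.x) + (0)) : ℤ) rfl rfl ?_
  linarith only [z.ex, z.eK, z.eW, (ztu C), fyK C, z.le3, fqK C, frZK2 C, z.h2, fbZK2 C, capZ (j := j) (R := R) C.mF (m := 3) hd1, (ztl C)]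

theorem li44 (C : SIC α (rowsOf fam) [] r 4 8 n R 4 F j t) (g bK bW : ℤ) (hG : GOK C g bK bW) :
    0 ≤ dot (f [(0, 2), (24, -1)]) (pt C g bK bW) := by
  have z := siz C
  have hd0 := C.dim
  refine lin_q (2 * (5 * 2 ^ 43 * 2 ^ j * 2 ^ R) + ((-1) * (5 * 2 ^ 42 * (C.K.d j t : ℤ)) + (0)) : ℤ) rfl rfl ?_
  linarith only [z.ex, z.eK, z.eW, z.f0, z.f1, z.hi, ftDKt C]

theorem li46 (C : SIC α (rowsOf fam) [] r 4 8 n R 4 F j t) (g bK bW : ℤ) (hG : GOK C g bK bW) :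
    0 ≤ dot (f [(0, 1), (26, -1)]) (pt C g bK bW) := by
  have z := siz C
  have hd0 := C.dim
  refine lin_q (1 * (5 * 2 ^ 43 * 2 ^ j * 2 ^ R) + ((-1) * (5 * 2 ^ 41 * (C.W.d (j + 1) t : ℤ)) + (0)) : ℤ) rfl rfl ?_
  linarith only [z.ex, z.eK, z.eW, z.le1, z.hi, ftDWh C]

theorem li48 (C : SIC α (rowsOf fam) [] r 4 8 n R 4 F j t) (g bK bW : ℤ) (hG : GOK C g bK bW) :
    0 ≤ dot (f [(0, 1), (28, -1)]) (pt C g bK bW) := by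
  have z := siz C
  have hd0 := C.dim
  refine lin_q (1 * (5 * 2 ^ 43 * 2 ^ j * 2 ^ R) + ((-1) * (5 * 2 ^ 41 * (C.W1.d (j + 1) t : ℤ)) + (0)) : ℤ) rfl rfl ?_
  linarith only [z.ex, z.eK, z.eW, z.hi, ftDW1h C, z.h2, z.f1]

theorem li50 (C : SIC α (rowsOf fam) [] r 4 8 n R 4 F j t) (g bK bW : ℤ) (hG : GOK C g bK bW) :
    0 ≤ dot (f [(0, 2), (30, -1)]) (pt C g bK bW) := by
  have z := siz C
  have hd0 := C.dim
  refine lin_q (2 * (5 * 2 ^ 43 * 2 ^ j * 2 ^ R) + ((-1) * (5 * 2 ^ 42 * (F.d j t : ℤ)) + (0)) : ℤ) rfl rfl ?_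
  linarith only [z.ex, z.eK, z.eW, z.hi, ftDF C]

theorem li52 (C : SIC α (rowsOf fam) [] r 4 8 n R 4 F j t) (g bK bW : ℤ) (hG : GOK C g bK bW) :
    0 ≤ dot (f [(0, 1), (32, -1)]) (pt C g bK bW) := by
  have z := siz C
  have hd0 := C.dim
  have hd1 : n + 1 = R + 3 := by omega
  refine lin_q (1 * (5 * 2 ^ 43 * 2 ^ j * 2 ^ R) + ((-1) * (5 * 2 ^ 38 * 2 ^ j * max 0 (10 * (F.x : ℤ) - 16 * (2 * (C.W.x : ℤ)))) + (0)) : ℤ) rfl rfl ?_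
  linarith only [z.ex, z.eK, z.eW, (ztu C), z.le3, frZK2 C, z.h2, fbZK2 C, z.hi, capZ (j := j) (R := R) C.mF (m := 3) hd1, fuh1 C]

theorem li54 (C : SIC α (rowsOf fam) [] r 4 8 n R 4 F j t) (g bK bW : ℤ) (hG : GOK C g bK bW) :
    0 ≤ dot (f [(0, 1), (35, -1)]) (pt C g bK bW) := by
  have z := siz C
  have hd0 := C.dim
  have hd1 : n + 1 = R + 3 := by omega
  refine lin_q (1 * (5 * 2 ^ 43 * 2 ^ j * 2 ^ R) + ((-1) * (5 * 2 ^ 40 * max 0 (2 ^ j * (6 * (F.x : ℤ)) - 8 * (t : ℤ))) + (0)) : ℤ) rfl rfl ?_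
  linarith only [z.ex, z.eK, z.eW, (ztu C), z.le3, fbZF1 C, frZK2 C, z.h2, fbZK2 C, capZ (j := j) (R := R) C.mF (m := 3) hd1, (ztl C)]

theorem li56 (C : SIC α (rowsOf fam) [] r 4 8 n R 4 F j t) (g bK bW : ℤ) (hG : GOK C g bK bW) :
    0 ≤ dot (f [(0, 1), (37, -1)]) (pt C g bK bW) := by
  have z := siz C
  have hd0 := C.dim
  have hd1 : n + 1 = R + 3 := by omega
  refine lin_q (1 * (5 * 2 ^ 43 * 2 ^ j * 2 ^ R) + ((-1) * (5 * 2 ^ 40 * max 0 (2 ^ j * (4 * (C.K.x : ℤ)) - 4 * (t : ℤ))) + (0)) : ℤ) rfl rfl ?_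
  linarith only [z.ex, z.eK, z.eW, (ztu C), z.le3, fbZK0 C, frZK2 C, z.h2, fbZK2 C, capZ (j := j) (R := R) C.mF (m := 3) hd1, (ztl C)]

theorem li58 (C : SIC α (rowsOf fam) [] r 4 8 n R 4 F j t) (g bK bW : ℤ) (hG : GOK C g bK bW) :
    0 ≤ dot (f [(0, 2), (39, -1)]) (pt C g bK bW) := by
  have z := siz C
  have hd0 := C.dim
  have hd1 : n + 1 = R + 3 := by omega
  refine lin_q (2 * (5 * 2 ^ 43 * 2 ^ j * 2 ^ R) + ((-1) * (5 * 2 ^ 40 * max 0 (2 ^ j * (8 * (C.K.x : ℤ)) - 4 * (t : ℤ))) + (0)) : ℤ) rfl rfl ?_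
  linarith only [z.ex, z.eK, z.eW, (ztu C), z.le3, frZK1 C, fbZK2 C, z.h2, fbZK1 C, capZ (j := j) (R := R) C.mF (m := 3) hd1, (ztl C)]

theorem li60 (C : SIC α (rowsOf fam) [] r 4 8 n R 4 F j t) (g bK bW : ℤ) (hG : GOK C g bK bW) :
    0 ≤ dot (f [(0, 1), (41, -1)]) (pt C g bK bW) := by
  have z := siz C
  have hd0 := C.dim
  have hd1 : n + 1 = R + 3 := by omega
  refine lin_q (1 * (5 * 2 ^ 43 * 2 ^ j * 2 ^ R) + ((-1) * (5 * 2 ^ 40 * max 0 (2 ^ j * (6 * (C.W.x : ℤ)) - 4 * (t : ℤ))) + (0)) : ℤ) rfl rfl ?_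
  linarith only [z.ex, z.eK, z.eW, (ztu C), z.le3, frZK2 C, fbZW1 C, z.h2, fbZK2 C, capZ (j := j) (R := R) C.mF (m := 3) hd1, (ztl C)]

theorem li62 (C : SIC α (rowsOf fam) [] r 4 8 n R 4 F j t) (g bK bW : ℤ) (hG : GOK C g bK bW) :
    0 ≤ dot (f [(0, 4), (43, -1)]) (pt C g bK bW) := by
  have z := siz C
  have hd0 := C.dim
  refine lin_q (4 * (5 * 2 ^ 43 * 2 ^ j * 2 ^ R) + ((-1) * (2 ^ 30 * (40960 * (2 ^ j * (C.K.x : ℤ)) + 2 ^ j * bK)) + (0)) : ℤ) rfl rfl ?_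
  linarith only [z.ex, z.eK, z.eW, bloW hG, bhiW hG, bhiK hG, z.hi]

theorem it0 (C : SIC α (rowsOf fam) [] r 4 8 n R 4 F j t) (g bK bW : ℤ) :
    (ItemL.cge 15 512 (f [(37, -1)])).Sem sys (pt C g bK bW) := by
  have z := siz C
  have hd0 := C.dim
  intro hc
  rw [fv15, sysGG, pt0] at hc
  push_cast at hc
  have hu : 2 ^ j * (4 * (C.K.x : ℤ)) - 4 * (t : ℤ) ≤ 0 := by linarith only [z.ex, z.eK, z.eW, hc]
  have hf : max 0 (2 ^ j * (4 * (C.K.x : ℤ)) - 4 * (t : ℤ)) ≤ 0 := max_le (le_refl 0) hu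
  refine lin_q ((-1) * (5 * 2 ^ 40 * max 0 (2 ^ j * (4 * (C.K.x : ℤ)) - 4 * (t : ℤ))) + (0) : ℤ) rfl rfl ?_
  linarith only [z.ex, z.eK, z.eW, hf]

theorem it2 (C : SIC α (rowsOf fam) [] r 4 8 n R 4 F j t) (g bK bW : ℤ) :
    (ItemL.cge 16 1024 (f [(38, -1)])).Sem sys (pt C g bK bW) := by
  have z := siz C
  have hd0 := C.dim
  intro hc
  rw [fv16, sysGG, pt0] at hc
  push_cast at hc
  have hu : 2 ^ j * (6 * (C.K.x : ℤ)) - 4 * (t : ℤ) ≤ 0 := by linarith only [z.ex, z.eK, z.eW, hc]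
  have hf : max 0 (2 ^ j * (6 * (C.K.x : ℤ)) - 4 * (t : ℤ)) ≤ 0 := max_le (le_refl 0) hu
  refine lin_q ((-1) * (5 * 2 ^ 40 * max 0 (2 ^ j * (6 * (C.K.x : ℤ)) - 4 * (t : ℤ))) + (0) : ℤ) rfl rfl ?_
  linarith only [z.ex, z.eK, z.eW, hf]

theorem it4 (C : SIC α (rowsOf fam) [] r 4 8 n R 4 F j t) (g bK bW : ℤ) :
    (ItemL.cle 17 1536 (f [(2, 8), (3, 8), (8, -1), (39, -2)])).Sem sys (pt C g bK bW) := by
  have z := siz C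
  have hd0 := C.dim
  intro hc
  rw [fv17, sysGG, pt0] at hc
  push_cast at hc
  have hu : 0 ≤ 2 ^ j * (8 * (C.K.x : ℤ)) - 4 * (t : ℤ) := by linarith only [z.ex, z.eK, z.eW, hc]
  have hf : max 0 (2 ^ j * (8 * (C.K.x : ℤ)) - 4 * (t : ℤ)) ≤ 2 ^ j * (8 * (C.K.x : ℤ)) - 4 * (t : ℤ) := max_le hu (le_refl _)
  refine lin_q (8 * (5 * 2 ^ 41 * 2 ^ j * (C.A.x : ℤ)) + (8 * (5 * 2 ^ 41 * 2 ^ j * (C.P.x : ℤ)) + ((-1) * (5 * 2 ^ 43 * (t : ℤ)) + ((-2) * (5 * 2 ^ 40 * max 0 (2 ^ j * (8 * (C.K.x : ℤ)) - 4 * (t : ℤ))) + (0)))) : ℤ) rfl rfl ?_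
  linarith only [z.ex, z.eK, z.eW, hf]

theorem it6 (C : SIC α (rowsOf fam) [] r 4 8 n R 4 F j t) (g bK bW : ℤ) :
    (ItemL.cge 19 512 (f [(41, -1)])).Sem sys (pt C g bK bW) := by
  have z := siz C
  have hd0 := C.dim
  intro hc
  rw [fv19, sysGG, pt0] at hc
  push_cast at hc
  have hu : 2 ^ j * (6 * (C.W.x : ℤ)) - 4 * (t : ℤ) ≤ 0 := by linarith only [z.ex, z.eK, z.eW, hc]
  have hf : max 0 (2 ^ j * (6 * (C.W.x : ℤ)) - 4 * (t : ℤ)) ≤ 0 := max_le (le_refl 0) hu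
  refine lin_q ((-1) * (5 * 2 ^ 40 * max 0 (2 ^ j * (6 * (C.W.x : ℤ)) - 4 * (t : ℤ))) + (0) : ℤ) rfl rfl ?_
  linarith only [z.ex, z.eK, z.eW, hf]

theorem it8 (C : SIC α (rowsOf fam) [] r 4 8 n R 4 F j t) (g bK bW : ℤ) :
    (ItemL.cge 20 512 (f [(42, -1)])).Sem sys (pt C g bK bW) := by
  have z := siz C
  have hd0 := C.dim
  intro hc
  rw [fv20, sysGG, pt0] at hc
  push_cast at hc
  have hu : 2 ^ j * (8 * (C.W.x : ℤ)) - 4 * (t : ℤ) ≤ 0 := by linarith only [z.ex, z.eK, z.eW, hc]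
  have hf : max 0 (2 ^ j * (8 * (C.W.x : ℤ)) - 4 * (t : ℤ)) ≤ 0 := max_le (le_refl 0) hu
  refine lin_q ((-1) * (5 * 2 ^ 40 * max 0 (2 ^ j * (8 * (C.W.x : ℤ)) - 4 * (t : ℤ))) + (0) : ℤ) rfl rfl ?_
  linarith only [z.ex, z.eK, z.eW, hf]

theorem it10 (C : SIC α (rowsOf fam) [] r 4 8 n R 4 F j t) (g bK bW : ℤ) :
    (ItemL.cle 8 32 (f [(1, -67), (2, -61), (3, -61), (21, -16), (22, 16), (23, 16)])).Sem sys (pt C g bK bW) := by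
  have z := siz C
  have hd0 := C.dim
  intro hc
  rw [fv8, sysGG, pt0] at hc
  push_cast at hc
  have hu : 16 * (2 ^ j * (C.K.x : ℤ) - 2 ^ j * (C.W.x : ℤ)) ≤ 2 ^ j * (F.x : ℤ) := by linarith only [z.ex, z.eK, z.eW, z.lo, hc]
  have hf : 2 ^ 24 * (512 * (2 ^ j * (C.W.x : ℤ)) + 244 * (2 ^ j * (C.K.x : ℤ) - 2 ^ j * (C.W.x : ℤ))) ≤
    256 * (2 ^ j * YY R C.K.x + 2 ^ j * YY R C.W.x - 2 ^ j * YY R F.x) := nearZ16 C.mF hu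
  refine lin_q ((-67) * (5 * 2 ^ 41 * 2 ^ j * (C.W.x : ℤ)) + ((-61) * (5 * 2 ^ 41 * 2 ^ j * (C.A.x : ℤ)) + ((-61) * (5 * 2 ^ 41 * 2 ^ j * (C.P.x : ℤ)) + ((-16) * (5 * 2 ^ 19 * 2 ^ j * YY R F.x) + (16 * (5 * 2 ^ 19 * 2 ^ j * YY R C.K.x) + (16 * (5 * 2 ^ 19 * 2 ^ j * YY R C.W.x) + (0)))))) : ℤ) rfl rfl ?_
  linarith only [z.ex, z.eK, z.eW, hf]

theorem it12 (C : SIC α (rowsOf fam) [] r 4 8 n R 4 F j t) (g bK bW : ℤ) (hG : GOK C g bK bW) :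
    (ItemL.gate 2 256 320 (.cge 2 256 (f [(0, -1), (2, 192), (3, 192), (43, -80)]))).Sem sys (pt C g bK bW) := by
  have z := siz C
  have hd0 := C.dim
  intro hg1 hg2
  rw [fv2, sysGG, pt0] at hg1 hg2
  push_cast at hg1 hg2
  intro hc
  rw [fv2, sysGG, pt0] at hc
  push_cast at hc
  have h1 : 8 * (2 ^ j * 2 ^ R) ≤ 8 * 2 ^ 1 * (2 ^ j * (C.K.x : ℤ)) := by linarith only [z.ex, z.eK, z.eW, hg1]
  have h2 : 8 * 2 ^ 1 * (2 ^ j * (C.K.x : ℤ)) ≤ 10 * (2 ^ j * 2 ^ R) := by linarith only [z.ex, z.eK, z.eW, hg2]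
  have h3 : -(40960 * (2 ^ j * (C.K.x : ℤ))) ≤ (-64) * 2 ^ 3 * (2 ^ j * 2 ^ R) + 32 * (-512) * (2 ^ j * (C.K.x : ℤ)) := by linarith only [z.ex, z.eK, z.eW, hg2, hg1]
  have hf : 2 ^ j * bK ≤ (-64) * 2 ^ 3 * (2 ^ j * 2 ^ R) + 32 * (-512) * (2 ^ j * (C.K.x : ℤ)) := hG.K.pcZ (lev := 3) (i := 1) (k := 4) (lo := 8) (hi := 10) (bV := -64) (bx := -512) (show n + 1 = R + 3 by omega) (by norm_num) (by norm_num) (by decide) (by decide) (by decide) (by push_cast; linarith only [h1]) (by push_cast; linarith only [h2]) (by rw [shc]; linarith only [h3])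
  refine lin_q ((-1) * (5 * 2 ^ 43 * 2 ^ j * 2 ^ R) + (192 * (5 * 2 ^ 41 * 2 ^ j * (C.A.x : ℤ)) + (192 * (5 * 2 ^ 41 * 2 ^ j * (C.P.x : ℤ)) + ((-80) * (2 ^ 30 * (40960 * (2 ^ j * (C.K.x : ℤ)) + 2 ^ j * bK)) + (0)))) : ℤ) rfl rfl ?_
  linarith only [z.ex, z.eK, z.eW, hf]

theorem it14 (C : SIC α (rowsOf fam) [] r 4 8 n R 4 F j t) (g bK bW : ℤ) (hG : GOK C g bK bW) :
    (ItemL.gate 2 384 448 (.cge 2 256 (f [(0, -9), (2, 424), (3, 424), (43, -160)]))).Sem sys (pt C g bK bW) := by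
  have z := siz C
  have hd0 := C.dim
  intro hg1 hg2
  rw [fv2, sysGG, pt0] at hg1 hg2
  push_cast at hg1 hg2
  intro hc
  rw [fv2, sysGG, pt0] at hc
  push_cast at hc
  have h1 : 12 * (2 ^ j * 2 ^ R) ≤ 8 * 2 ^ 1 * (2 ^ j * (C.K.x : ℤ)) := by linarith only [z.ex, z.eK, z.eW, hg1]
  have h2 : 8 * 2 ^ 1 * (2 ^ j * (C.K.x : ℤ)) ≤ 14 * (2 ^ j * 2 ^ R) := by linarith only [z.ex, z.eK, z.eW, hg2]
  have h3 : -(40960 * (2 ^ j * (C.K.x : ℤ))) ≤ (-288) * 2 ^ 3 * (2 ^ j * 2 ^ R) + 32 * (-432) * (2 ^ j * (C.K.x : ℤ)) := by linarith only [z.ex, z.eK, z.eW, hg2, hg1]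
  have hf : 2 ^ j * bK ≤ (-288) * 2 ^ 3 * (2 ^ j * 2 ^ R) + 32 * (-432) * (2 ^ j * (C.K.x : ℤ)) := hG.K.pcZ (lev := 3) (i := 1) (k := 4) (lo := 12) (hi := 14) (bV := -288) (bx := -432) (show n + 1 = R + 3 by omega) (by norm_num) (by norm_num) (by decide) (by decide) (by decide) (by push_cast; linarith only [h1]) (by push_cast; linarith only [h2]) (by rw [shc]; linarith only [h3])
  refine lin_q ((-9) * (5 * 2 ^ 43 * 2 ^ j * 2 ^ R) + (424 * (5 * 2 ^ 41 * 2 ^ j * (C.A.x : ℤ)) + (424 * (5 * 2 ^ 41 * 2 ^ j * (C.P.x : ℤ)) + ((-160) * (2 ^ 30 * (40960 * (2 ^ j * (C.K.x : ℤ)) + 2 ^ j * bK)) + (0)))) : ℤ) rfl rfl ?_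
  linarith only [z.ex, z.eK, z.eW, hf]

theorem it16 (C : SIC α (rowsOf fam) [] r 4 8 n R 4 F j t) (g bK bW : ℤ) (hG : GOK C g bK bW) :
    (ItemL.gate 1 256 320 (.cge 1 0 (f [(0, -1), (1, 192), (44, -80)]))).Sem sys (pt C g bK bW) := by
  have z := siz C
  have hd0 := C.dim
  intro hg1 hg2
  rw [fv1, sysGG, pt0] at hg1 hg2
  push_cast at hg1 hg2
  intro hc
  rw [fv1, sysGG, pt0] at hc
  push_cast at hc
  have h1 : 8 * (2 ^ j * 2 ^ R) ≤ 8 * 2 ^ 1 * (2 ^ j * (C.W.x : ℤ)) := by linarith only [z.ex, z.eK, z.eW, hg1]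
  have h2 : 8 * 2 ^ 1 * (2 ^ j * (C.W.x : ℤ)) ≤ 10 * (2 ^ j * 2 ^ R) := by linarith only [z.ex, z.eK, z.eW, hg2]
  have h3 : -(40960 * (2 ^ j * (C.W.x : ℤ))) ≤ (-64) * 2 ^ 3 * (2 ^ j * 2 ^ R) + 32 * (-512) * (2 ^ j * (C.W.x : ℤ)) := by linarith only [z.ex, z.eK, z.eW, hg1, hg2]
  have hf : 2 ^ j * bW ≤ (-64) * 2 ^ 3 * (2 ^ j * 2 ^ R) + 32 * (-512) * (2 ^ j * (C.W.x : ℤ)) := hG.W.pcZ (lev := 3) (i := 1) (k := 4) (lo := 8) (hi := 10) (bV := -64) (bx := -512) (show n + 1 = R + 3 by omega) (by norm_num) (by norm_num) (by decide) (by decide) (by decide) (by push_cast; linarith only [h1]) (by push_cast; linarith only [h2]) (by rw [shc]; linarith only [h3])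
  refine lin_q ((-1) * (5 * 2 ^ 43 * 2 ^ j * 2 ^ R) + (192 * (5 * 2 ^ 41 * 2 ^ j * (C.W.x : ℤ)) + ((-80) * (2 ^ 30 * (40960 * (2 ^ j * (C.W.x : ℤ)) + 2 ^ j * bW)) + (0))) : ℤ) rfl rfl ?_
  linarith only [z.ex, z.eK, z.eW, hf]

theorem it18 (C : SIC α (rowsOf fam) [] r 4 8 n R 4 F j t) (g bK bW : ℤ) (hG : GOK C g bK bW) :
    (ItemL.gate 1 384 448 (.cge 1 0 (f [(0, -9), (1, 424), (44, -160)]))).Sem sys (pt C g bK bW) := by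
  have z := siz C
  have hd0 := C.dim
  intro hg1 hg2
  rw [fv1, sysGG, pt0] at hg1 hg2
  push_cast at hg1 hg2
  intro hc
  rw [fv1, sysGG, pt0] at hc
  push_cast at hc
  have h1 : 12 * (2 ^ j * 2 ^ R) ≤ 8 * 2 ^ 1 * (2 ^ j * (C.W.x : ℤ)) := by linarith only [z.ex, z.eK, z.eW, hg1]
  have h2 : 8 * 2 ^ 1 * (2 ^ j * (C.W.x : ℤ)) ≤ 14 * (2 ^ j * 2 ^ R) := by linarith only [z.ex, z.eK, z.eW, hg2]
  have h3 : -(40960 * (2 ^ j * (C.W.x : ℤ))) ≤ (-288) * 2 ^ 3 * (2 ^ j * 2 ^ R) + 32 * (-432) * (2 ^ j * (C.W.x : ℤ)) := by linarith only [z.ex, z.eK, z.eW, hg1, hg2]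
  have hf : 2 ^ j * bW ≤ (-288) * 2 ^ 3 * (2 ^ j * 2 ^ R) + 32 * (-432) * (2 ^ j * (C.W.x : ℤ)) := hG.W.pcZ (lev := 3) (i := 1) (k := 4) (lo := 12) (hi := 14) (bV := -288) (bx := -432) (show n + 1 = R + 3 by omega) (by norm_num) (by norm_num) (by decide) (by decide) (by decide) (by push_cast; linarith only [h1]) (by push_cast; linarith only [h2]) (by rw [shc]; linarith only [h3])
  refine lin_q ((-9) * (5 * 2 ^ 43 * 2 ^ j * 2 ^ R) + (424 * (5 * 2 ^ 41 * 2 ^ j * (C.W.x : ℤ)) + ((-160) * (2 ^ 30 * (40960 * (2 ^ j * (C.W.x : ℤ)) + 2 ^ j * bW)) + (0))) : ℤ) rfl rfl ?_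
  linarith only [z.ex, z.eK, z.eW, hf]

theorem it20 (C : SIC α (rowsOf fam) [] r 4 8 n R 4 F j t) (g bK bW : ℤ) (hG : GOK C g bK bW) :
    (ItemL.gate 1 0 256 (.cge 1 0 (f [(1, 23), (44, -10)]))).Sem sys (pt C g bK bW) := by
  have z := siz C
  have hd0 := C.dim
  intro hg1 hg2
  rw [fv1, sysGG, pt0] at hg1 hg2
  push_cast at hg1 hg2
  intro hc
  rw [fv1, sysGG, pt0] at hc
  push_cast at hc
  have h2 : 2 ^ 2 * (2 ^ j * (C.W.x : ℤ)) ≤ 2 * (2 ^ j * 2 ^ R) := by linarith only [z.ex, z.eK, z.eW, hg2]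
  have hf : 2 ^ j * bW ≤ 32 * (-544) * (2 ^ j * (C.W.x : ℤ)) := hG.W.plZ (lev := 3) (i := 2) (show n + 1 = R + 3 by omega) (by omega) (by decide) (by decide) (by decide) (by decide) (by linarith only [h2]) (by rw [shc]; norm_num)
  refine lin_q (23 * (5 * 2 ^ 41 * 2 ^ j * (C.W.x : ℤ)) + ((-10) * (2 ^ 30 * (40960 * (2 ^ j * (C.W.x : ℤ)) + 2 ^ j * bW)) + (0)) : ℤ) rfl rfl ?_
  linarith only [z.ex, z.eK, z.eW, hf]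

theorem it22 (C : SIC α (rowsOf fam) [] r 4 8 n R 4 F j t) (g bK bW : ℤ) :
    (ItemL.tl 2 21 1 2 (f [(22, 7)]) 4096 4096 8 tbsU 1025).Sem sys (pt C g bK bW) := by
  have z := siz C
  have hd0 := C.dim
  refine sU_k (κ := 5 * 2 ^ 43 * 2 ^ j) (c := 43 + j) (y := 5 * 2 ^ 19 * 2 ^ j * YY R C.K.x) (R := R) (X := C.K.x) (mm := 5) (by norm_num) (kp j) (by omega) rfl rfl (fv2 C g bK bW) (z_xsK C) (by ring) ?_ (by norm_num)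
  rw [fe_q (7 * (5 * 2 ^ 19 * 2 ^ j * YY R C.K.x) + (0) : ℤ) rfl rfl]
  push_cast
  ring

theorem it24 (C : SIC α (rowsOf fam) [] r 4 8 n R 4 F j t) (g bK bW : ℤ) :
    (ItemL.tl 1 21 1 2 (f [(23, 7)]) 4096 4096 8 tbsU 1025).Sem sys (pt C g bK bW) := by
  have z := siz C
  have hd0 := C.dim
  refine sU_k (κ := 5 * 2 ^ 43 * 2 ^ j) (c := 43 + j) (y := 5 * 2 ^ 19 * 2 ^ j * YY R C.W.x) (R := R) (X := C.W.x) (mm := 5) (by norm_num) (kp j) (by omega) rfl rfl (fv1 C g bK bW) (z_xsW C) (by ring) ?_ (by norm_num)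
  rw [fe_q (7 * (5 * 2 ^ 19 * 2 ^ j * YY R C.W.x) + (0) : ℤ) rfl rfl]
  push_cast
  ring

theorem it26 (C : SIC α (rowsOf fam) [] r 4 8 n R 4 F j t) (g bK bW : ℤ) :
    (ItemL.tl 6 21 1 2 (f [(19, 2)]) 4096 4096 8 tbgU 1025).Sem sys (pt C g bK bW) := by
  have z := siz C
  have hd0 := C.dim
  refine gU_k (κ := 5 * 2 ^ 43 * 2 ^ j) (R := R) (X := C.W1.x) (kpos j) rfl rfl (fv6 C g bK bW) (z_xsW1 C) ?_ (by norm_num)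
  rw [fe_q (2 * (5 * 2 ^ 42 * 2 ^ j * QQ R C.W1.x) + (0) : ℤ) rfl rfl]
  push_cast
  ring

theorem it28 (C : SIC α (rowsOf fam) [] r 4 8 n R 4 F j t) (g bK bW : ℤ) :
    (ItemL.tl 0 21 1 2 (f [(0, 8), (21, -7)]) 4096 4096 8 tbsL 1025).Sem sys (pt C g bK bW) := by
  have z := siz C
  have hd0 := C.dim
  refine sL_k (κ := 5 * 2 ^ 43 * 2 ^ j) (c := 43 + j) (y := 5 * 2 ^ 19 * 2 ^ j * YY R F.x) (R := R) (X := F.x) (mm := 5) (by norm_num) (kp j) (by omega) rfl rfl (fv0 C g bK bW) (z_xs C) (by ring) ?_ (by norm_num)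
  rw [fe_q (8 * (5 * 2 ^ 43 * 2 ^ j * 2 ^ R) + ((-7) * (5 * 2 ^ 19 * 2 ^ j * YY R F.x) + (0)) : ℤ) rfl rfl]
  push_cast
  ring

theorem it30 (C : SIC α (rowsOf fam) [] r 4 8 n R 4 F j t) (g bK bW : ℤ) (hn : 1 ≤ n) :
    (ItemL.gate 2 512 1024 (.tl 2 11 8 16 (f [(0, -2), (2, 4), (3, 4), (10, 1)]) 3584 128 2 tbG3_1 129)).Sem sys (pt C g bK bW) := by
  have z := siz C
  have hd0 := C.dim
  have hlv : R ≤ n + 1 + 0 := by omega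
  refine octl_k (κ := 5 * 2 ^ 43 * 2 ^ j) (c := 43 + j) (R := R) (rc := 56) (i := 0) (mm := 5) (by norm_num) (kp j) small_tbG3_1 rows_tbG3_1 rfl rfl (z_atK C) (by omega) (fv2 C g bK bW) (le_of_eq (fv11 C g bK bW)) hlv (by show _; omega) (by norm_num)
    (by norm_num) (by norm_num) (by norm_num) ?_ (by norm_num)
  · rw [fe_q ((-2) * (5 * 2 ^ 43 * 2 ^ j * 2 ^ R) + (4 * (5 * 2 ^ 41 * 2 ^ j * (C.A.x : ℤ)) + (4 * (5 * 2 ^ 41 * 2 ^ j * (C.P.x : ℤ)) + (1 * (5 * 2 ^ 43 * 2 ^ j * MM R C.K) + (0)))) : ℤ) rfl rfl]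
    norm_num1
    linarith only [z.ex, z.eK, z.eW]

theorem it32 (C : SIC α (rowsOf fam) [] r 4 8 n R 4 F j t) (g bK bW : ℤ) (hn : 1 ≤ n) :
    (ItemL.gate 2 256 512 (.tl 2 11 4 8 (f [(0, -1), (10, 1)]) 7168 256 2 tbG4_1 129)).Sem sys (pt C g bK bW) := by
  have z := siz C
  have hd0 := C.dim
  have hlv : R ≤ n + 1 + 1 := by omega
  refine octl_k (κ := 5 * 2 ^ 43 * 2 ^ j) (c := 43 + j) (R := R) (rc := 56) (i := 1) (mm := 5) (by norm_num) (kp j) small_tbG4_1 rows_tbG4_1 rfl rfl (z_atK C) (by omega) (fv2 C g bK bW) (le_of_eq (fv11 C g bK bW)) hlv (by show _; omega) (by norm_num)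
    (by norm_num) (by norm_num) (by norm_num) ?_ (by norm_num)
  · rw [fe_q ((-1) * (5 * 2 ^ 43 * 2 ^ j * 2 ^ R) + (1 * (5 * 2 ^ 43 * 2 ^ j * MM R C.K) + (0)) : ℤ) rfl rfl]
    norm_num1
    linarith only [z.ex, z.eK, z.eW]

theorem it34 (C : SIC α (rowsOf fam) [] r 4 8 n R 4 F j t) (g bK bW : ℤ) (hn : 1 ≤ n) :
    (ItemL.gate 1 256 512 (.tl 1 12 4 8 (f [(0, -1), (11, 1)]) 7168 256 2 tbG4_1 129)).Sem sys (pt C g bK bW) := by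
  have z := siz C
  have hd0 := C.dim
  have hlv : R ≤ n + 1 + 1 := by omega
  refine octl_k (κ := 5 * 2 ^ 43 * 2 ^ j) (c := 43 + j) (R := R) (rc := 56) (i := 1) (mm := 5) (by norm_num) (kp j) small_tbG4_1 rows_tbG4_1 rfl rfl (z_atW C) (by omega) (fv1 C g bK bW) (le_of_eq (fv12 C g bK bW)) hlv (by show _; omega) (by norm_num)
    (by norm_num) (by norm_num) (by norm_num) ?_ (by norm_num)
  · rw [fe_q ((-1) * (5 * 2 ^ 43 * 2 ^ j * 2 ^ R) + (1 * (5 * 2 ^ 43 * 2 ^ j * MM R C.W) + (0)) : ℤ) rfl rfl]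
    norm_num1
    linarith only [z.ex, z.eK, z.eW]

theorem it36 (C : SIC α (rowsOf fam) [] r 4 8 n R 4 F j t) (g bK bW : ℤ) (hn : 1 ≤ n) :
    (ItemL.gate 4 256 512 (.tl 4 13 4 8 (f [(0, -1), (12, 1)]) 7168 256 2 tbG3_1 129)).Sem sys (pt C g bK bW) := by
  have z := siz C
  have hd0 := C.dim
  have hlv : R ≤ n + 1 := by omega
  refine octl_k (κ := 5 * 2 ^ 43 * 2 ^ j) (c := 43 + j) (R := R) (rc := 56) (i := 1) (mm := 5) (by norm_num) (kp j) small_tbG3_1 rows_tbG3_1 rfl rfl (z_atP C hn) (by omega) (fv4 C g bK bW) (le_of_eq (fv13 C g bK bW)) hlv (by show _; omega) (by norm_num)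
    (by norm_num) (by norm_num) (by norm_num) ?_ (by norm_num)
  · rw [fe_q ((-1) * (5 * 2 ^ 43 * 2 ^ j * 2 ^ R) + (1 * (5 * 2 ^ 43 * 2 ^ j * MM R C.P) + (0)) : ℤ) rfl rfl]
    norm_num1
    linarith only [z.ex, z.eK, z.eW]

theorem it38 (C : SIC α (rowsOf fam) [] r 4 8 n R 4 F j t) (g bK bW : ℤ) (hn : 1 ≤ n) :
    (ItemL.gate 6 128 256 (.tl 6 14 2 4 (f [(0, -1), (1, -8), (4, 8), (14, 2)]) 7168 512 2 tbG4_1 129)).Sem sys (pt C g bK bW) := by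
  have z := siz C
  have hd0 := C.dim
  have hlv : R ≤ n + 2 := by omega
  refine octl_k (κ := 5 * 2 ^ 43 * 2 ^ j) (c := 43 + j) (R := R) (rc := 56) (i := 2) (mm := 5) (by norm_num) (kp j) small_tbG4_1 rows_tbG4_1 rfl rfl (z_atW1 C hn) (by omega) (fv6 C g bK bW) (le_of_eq (fv14 C g bK bW)) hlv (by show _; omega) (by norm_num)
    (by norm_num) (by norm_num) (by norm_num) ?_ (by norm_num)
  · rw [fe_q ((-1) * (5 * 2 ^ 43 * 2 ^ j * 2 ^ R) + ((-8) * (5 * 2 ^ 41 * 2 ^ j * (C.W.x : ℤ)) + (8 * (5 * 2 ^ 41 * 2 ^ j * (C.W2.x : ℤ)) + (2 * (5 * 2 ^ 43 * 2 ^ j * MM R C.W1) + (0)))) : ℤ) rfl rfl]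
    norm_num1
    linarith only [z.ex, z.eK, z.eW]

theorem it40 (C : SIC α (rowsOf fam) [] r 4 8 n R 4 F j t) (g bK bW : ℤ) (hn : 1 ≤ n) :
    (ItemL.tl 0 22 8 16 (f [(0, -2), (1, 4), (2, 4), (3, 4), (9, 1)]) 3584 128 2 tbG4_1 129).Sem sys (pt C g bK bW) := by
  have z := siz C
  have hd0 := C.dim
  have hlv : R ≤ n + 2 + 0 := by omega
  have key := octl_k (S := sys) (x := pt C g bK bW) (κ := 5 * 2 ^ 43 * 2 ^ j) (c := 43 + j) (R := R) (rc := 56) (i := 0) (ga := 512) (gb := 1024) (ex := 0) (eg := 22) (hx := 8) (cg := 16) (L := f [(0, -2), (1, 4), (2, 4), (3, 4), (9, 1)]) (FL := 3584) (Fx := 128) (FT := 2) (mm := 5) (by norm_num) (kp j) small_tbG4_1 rows_tbG4_1 rfl rfl (z_atF C) (by omega) (fv0 C g bK bW) (le_of_eq (fv22 C g bK bW)) hlv (by show _; omega) (by norm_num) (by norm_num) (by norm_num) (by norm_num) ?_ (by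 norm_num)
  · refine key ?_ ?_
    · rw [fv0, sysGG, pt0]; push_cast; linarith only [z.lo]
    · rw [fv0, sysGG, pt0]; push_cast; linarith only [z.hi]
  · rw [fe_q ((-2) * (5 * 2 ^ 43 * 2 ^ j * 2 ^ R) + (4 * (5 * 2 ^ 41 * 2 ^ j * (C.W.x : ℤ)) + (4 * (5 * 2 ^ 41 * 2 ^ j * (C.A.x : ℤ)) + (4 * (5 * 2 ^ 41 * 2 ^ j * (C.P.x : ℤ)) + (1 * (5 * 2 ^ 43 * 2 ^ j * MM R F) + (0))))) : ℤ) rfl rfl]
    norm_num1
    linarith only [z.ex, z.eK, z.eW]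

theorem it42 (C : SIC α (rowsOf fam) [] r 4 8 n R 4 F j t) (g bK bW : ℤ) (hn : 1 ≤ n) :
    (ItemL.tl 0 22 8 16 (f [(0, -2), (1, 4), (2, 4), (3, 4), (9, 1)]) 3584 128 2 tbG4_2 129).Sem sys (pt C g bK bW) := by
  have z := siz C
  have hd0 := C.dim
  have hlv : R ≤ n + 2 + 0 := by omega
  have key := octl_k (S := sys) (x := pt C g bK bW) (κ := 5 * 2 ^ 43 * 2 ^ j) (c := 43 + j) (R := R) (rc := 112) (i := 0) (ga := 512) (gb := 1024) (ex := 0) (eg := 22) (hx := 8) (cg := 16) (L := f [(0, -2), (1, 4), (2, 4), (3, 4), (9, 1)]) (FL := 3584) (Fx := 128) (FT := 2) (mm := 5) (by norm_num) (kp j) small_tbG4_2 rows_tbG4_2 rfl rfl (z_atF C) (by omega) (fv0 C g bK bW) (le_of_eq (fv22 C g bK bW)) hlv (by show _; omega) (by norm_num) (by norm_num) (by norm_num) (by norm_num) ?_ (by norm_num)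
  · refine key ?_ ?_
    · rw [fv0, sysGG, pt0]; push_cast; linarith only [z.lo]
    · rw [fv0, sysGG, pt0]; push_cast; linarith only [z.hi]
  · rw [fe_q ((-2) * (5 * 2 ^ 43 * 2 ^ j * 2 ^ R) + (4 * (5 * 2 ^ 41 * 2 ^ j * (C.W.x : ℤ)) + (4 * (5 * 2 ^ 41 * 2 ^ j * (C.A.x : ℤ)) + (4 * (5 * 2 ^ 41 * 2 ^ j * (C.P.x : ℤ)) + (1 * (5 * 2 ^ 43 * 2 ^ j * MM R F) + (0))))) : ℤ) rfl rfl]
    norm_num1
    linarith only [z.ex, z.eK, z.eW]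

theorem it44 (C : SIC α (rowsOf fam) [] r 4 8 n R 4 F j t) (g bK bW : ℤ) :
    (ItemL.ts 2 32 (f [(2, 14), (3, 26), (10, 5), (22, -5), (24, -5)]) 16384 1024 64 tbTF0_3 33 8 64 [(7, 1, 8, 1), (7, 1, 8, 1), (7, 1, 8, 1), (11, 1, 16, 1), (11, 1, 16, 1)] tbTA0 10).Sem sys (pt C g bK bW) := by
  have z := siz C
  have hd0 := C.dim
  refine tsf_k (κ := 5 * 2 ^ 43 * 2 ^ j) (R := R) (mt := 3) (m := 2) (J := j) (t := t) (s := 5) (c0 := SFC) (e := FE) (ah := AH0) (j0 := 0) (δ := 3) (shapes := famG0) (yv := 5 * 2 ^ 19 * 2 ^ j * YY R C.K.x) (dv := 5 * 2 ^ 42 * (C.K.d j t : ℤ)) (kpos j) rfl rfl (z_atK C).fam (z_atK C).vx (fun s X h1 h2 => C.ih s X (by omega) h2) (fv2 C g bK bW) (by rw [fv7]; exact le_of_eq (by push_cast; ring)) (fv11 C g bK bW) (by rw [pow_zero, Nat.one_mul]; exact z_xsK C)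
    (show n + 1 = R + 3 by omega) (by norm_num) (by norm_num) (by norm_num) (by norm_num) (by norm_num) (by ring) (by ring) ?_ (fun s hs => z_row C rfl (by omega) (z_atK C).fam s (mem_famG0 hs)) okG0 chkL_tbTF0_3 chkT_tbTF0_3_0
  rw [fe_q (14 * (5 * 2 ^ 41 * 2 ^ j * (C.A.x : ℤ)) + (26 * (5 * 2 ^ 41 * 2 ^ j * (C.P.x : ℤ)) + (5 * (5 * 2 ^ 43 * 2 ^ j * MM R C.K) + ((-5) * (5 * 2 ^ 19 * 2 ^ j * YY R C.K.x) + ((-5) * (5 * 2 ^ 42 * (C.K.d j t : ℤ)) + (0))))) : ℤ) rfl rfl]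
  norm_num1
  linarith only [z.ex, z.eK, z.eW]

theorem it46 (C : SIC α (rowsOf fam) [] r 4 8 n R 4 F j t) (g bK bW : ℤ) :
    (ItemL.ts 1 32 (f [(1, 4), (11, 1), (17, -2), (26, -1)]) 20480 256 16 tbTTc 33 8 64 [(7, 1, 4, 1)] tbTAc 2).Sem sys (pt C g bK bW) := by
  have z := siz C
  have hd0 := C.dim
  refine tsc_k (κ := 5 * 2 ^ 43 * 2 ^ j) (R := R) (J := (j + 1)) (t := t) (a0 := 40) (v0 := 8) (dv := 5 * 2 ^ 41 * (C.W.d (j + 1) t : ℤ)) (kpos j) rfl rfl C.kW' (fun s X h1 h2 => C.ih s X (by omega) h2) (fv1 C g bK bW) (by rw [fv7]; exact le_of_eq (by rw [pow_add]; ring)) (z_xsW C) (by norm_num) (by rw [pow_add]; ring) ?_ chkTc1 chkTc2 chkTc3 chkTc4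
  refine (fe_q (4 * (5 * 2 ^ 41 * 2 ^ j * (C.W.x : ℤ)) + (1 * (5 * 2 ^ 43 * 2 ^ j * MM R C.W) + ((-2) * (5 * 2 ^ 42 * 2 ^ j * QQ R C.W.x) + ((-1) * (5 * 2 ^ 41 * (C.W.d (j + 1) t : ℤ)) + (0)))) : ℤ) rfl rfl).trans ?_
  linarith only [z.ex, z.eK, z.eW]

theorem it48 (C : SIC α (rowsOf fam) [] r 4 8 n R 4 F j t) (g bK bW : ℤ) :
    (ItemL.ts 3 32 (f [(2, 4), (13, 1), (18, -2), (27, -1)]) 20480 256 16 tbTTc 33 8 64 [(7, 1, 4, 1)] tbTAc 2).Sem sys (pt C g bK bW) := by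
  have z := siz C
  have hd0 := C.dim
  refine tsc_k (κ := 5 * 2 ^ 43 * 2 ^ j) (R := R) (J := (j + 1)) (t := t) (a0 := 40) (v0 := 8) (dv := 5 * 2 ^ 41 * (C.A.d (j + 1) t : ℤ)) (kpos j) rfl rfl C.kA (fun s X h1 h2 => C.ih s X (by omega) h2) (fv3 C g bK bW) (by rw [fv7]; exact le_of_eq (by rw [pow_add]; ring)) (z_xsA C) (by norm_num) (by rw [pow_add]; ring) ?_ chkTc1 chkTc2 chkTc3 chkTc4
  refine (fe_q (4 * (5 * 2 ^ 41 * 2 ^ j * (C.A.x : ℤ)) + (1 * (5 * 2 ^ 43 * 2 ^ j * MM R C.A) + ((-2) * (5 * 2 ^ 42 * 2 ^ j * QQ R C.A.x) + ((-1) * (5 * 2 ^ 41 * (C.A.d (j + 1) t : ℤ)) + (0)))) : ℤ) rfl rfl).trans ?_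
  linarith only [z.ex, z.eK, z.eW]

theorem it49 (C : SIC α (rowsOf fam) [] r 4 8 n R 4 F j t) (g bK bW : ℤ) :
    (ItemL.ts 6 32 (f [(1, 4), (4, -4), (14, 1), (19, -2), (28, -1)]) 20480 256 16 tbTTc 33 8 64 [(7, 1, 4, 1)] tbTAc 2).Sem sys (pt C g bK bW) := by
  have z := siz C
  have hd0 := C.dim
  refine tsc_k (κ := 5 * 2 ^ 43 * 2 ^ j) (R := R) (J := (j + 1)) (t := t) (a0 := 40) (v0 := 8) (dv := 5 * 2 ^ 41 * (C.W1.d (j + 1) t : ℤ)) (kpos j) rfl rfl C.kW1 (fun s X h1 h2 => C.ih s X (by omega) h2) (fv6 C g bK bW) (by rw [fv7]; exact le_of_eq (by rw [pow_add]; ring)) (z_xsW1 C) (by norm_num) (by rw [pow_add]; ring) ?_ chkTc1 chkTc2 chkTc3 chkTc4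
  refine (fe_q (4 * (5 * 2 ^ 41 * 2 ^ j * (C.W.x : ℤ)) + ((-4) * (5 * 2 ^ 41 * 2 ^ j * (C.W2.x : ℤ)) + (1 * (5 * 2 ^ 43 * 2 ^ j * MM R C.W1) + ((-2) * (5 * 2 ^ 42 * 2 ^ j * QQ R C.W1.x) + ((-1) * (5 * 2 ^ 41 * (C.W1.d (j + 1) t : ℤ)) + (0))))) : ℤ) rfl rfl).trans ?_
  linarith only [z.ex, z.eK, z.eW]

theorem it51 (C : SIC α (rowsOf fam) [] r 4 8 n R 4 F j t) (g bK bW : ℤ) (hG : GOK C g bK bW) :
    (ItemL.ts 2 32 (f [(2, -832), (3, -448), (10, 160), (22, -160), (25, -160), (37, 81), (38, 48), (39, 31), (43, 160)]) 512 1024 64 tbTX 33 8 64 [(11, 1, 16, 1), (11, 1, 16, 1)] tbTY 0).Sem sys (pt C g bK bW) := by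
  have z := siz C
  have hd0 := C.dim
  refine tsb_k (κ := 5 * 2 ^ 43 * 2 ^ j) (R := R) (m := 2) (J := j + 1) (t := t) (s := 160) (c0 := SFC) (e := FE) (ah := AH0) (sh := shp0) (yv := 5 * 2 ^ 19 * 2 ^ j * YY R C.K.x) (dv := 5 * 2 ^ 41 * (C.K.d (j + 1) t : ℤ)) (z := 324 * (5 * 2 ^ 40 * max 0 (2 ^ j * (4 * (C.K.x : ℤ)) - 4 * (t : ℤ))) + 192 * (5 * 2 ^ 40 * max 0 (2 ^ j * (6 * (C.K.x : ℤ)) - 4 * (t : ℤ))) + 124 * (5 * 2 ^ 40 * max 0 (2 ^ j * (8 * (C.K.x : ℤ)) - 4 * (t : ℤ)))) (bkv := 2 ^ 30 * (40960 * (2 ^ j * (C.K.x : ℤ)) + 2 ^ j * bK)) (b := bK) eqTX (kpos j) (z_atK C).fam (fv2 C g bK bW) (fv11 C g bK bW)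
    (by norm_num) (by norm_num) (by ring) (by rw [pow_add]; ring) ?_ ?_ ?_ hG.K rfl rfl rfl rfl okTY
  · have hth : Frame.thsum (Shp.th shp0) (j + 1) t (C.K.x : ℤ) = 2 * (324 * max 0 (2 ^ j * (4 * (C.K.x : ℤ)) - 4 * (t : ℤ))) + 2 * (192 * max 0 (2 ^ j * (6 * (C.K.x : ℤ)) - 4 * (t : ℤ))) + 2 * (124 * max 0 (2 ^ j * (8 * (C.K.x : ℤ)) - 4 * (t : ℤ))) := by
      unfold Frame.thsum shp0
      simp only [List.map_cons, List.map_nil, List.sum_cons, List.sum_nil, mx2Z]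
      push_cast
      ring
    rw [hth, pow_add]
    ring
  · show 64 * ((640 : ℕ) : ℤ) * _ = _ * (64 * ((640 : ℕ) : ℤ) * _ + _)
    push_cast
    ring
  · rw [fe_q ((-832) * (5 * 2 ^ 41 * 2 ^ j * (C.A.x : ℤ)) + ((-448) * (5 * 2 ^ 41 * 2 ^ j * (C.P.x : ℤ)) + (160 * (5 * 2 ^ 43 * 2 ^ j * MM R C.K) + ((-160) * (5 * 2 ^ 19 * 2 ^ j * YY R C.K.x) + ((-160) * (5 * 2 ^ 41 * (C.K.d (j + 1) t : ℤ)) + (81 * (5 * 2 ^ 40 * max 0 (2 ^ j * (4 * (C.K.x : ℤ)) - 4 * (t : ℤ))) + (48 * (5 * 2 ^ 40 * max 0 (2 ^ j * (6 * (C.K.x : ℤ)) - 4 * (t : ℤ))) + (31 * (5 * 2 ^ 40 * max 0 (2 ^ j * (8 * (C.K.x : ℤ)) - 4 * (t : ℤ))) + (160 * (2 ^ 30 * (40960 * (2 ^ j * (C.K.x : ℤ)) + 2 ^ j * bK)) + (0))))))))) : ℤ) rfl rfl]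
    norm_num1
    linarith only [z.ex, z.eK, z.eW]

end Pool.Agent.EdgeIso.Chk.S40
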