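import Pool.Agent.Lib.MP_48c8f3_co.Bas
import Pool.Agent.Lib.MP_48c8f3_co.S40H
import Pool.Agent.Lib.MP_48c8f3_co.S40T

set_option autoImplicit false
set_option linter.unusedSectionVars false
set_option linter.unusedVariables false

/-!
MP_48c8f3_co: the point satisfies the system, part 2 (machine made).
-/

namespace Pool.Agent.EdgeIso.Chk.S40

open Finset Pool.Agent.EdgeIso.Frame Pool.Agent.EdgeIso.Cell Pool.Agent.EdgeIso.Walsh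
  Pool.Agent.EdgeIso.Smooth

variable {α : Type*} [DecidableEq α] {r : SRow} {n R : ℕ} {F : Frame.Num} {j t : ℕ}

theorem li1 (C : SIC α (rowsOf fam) [] r 4 8 n R 4 F j t) (g bK bW : ℤ) (hG : GOK C g bK bW) :
    0 ≤ dot (f [(2, 8), (6, -2), (10, 1), (12, -1), (13, -1)]) (pt C g bK bW) := by
  have z := siz C
  have hd0 := C.dim
  refine lin_q (8 * (5 * 2 ^ 41 * 2 ^ j * (C.A.x : ℤ)) + ((-2) * (5 * 2 ^ 43 * 2 ^ j * (C.fK : ℤ)) + (1 * (5 * 2 ^ 43 * 2 ^ j * MM R C.K) + ((-1) * (5 * 2 ^ 43 * 2 ^ j * MM R C.P) + ((-1) * (5 * 2 ^ 43 * 2 ^ j * MM R C.A) + (0))))) : ℤ) rfl rfl ?_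
  linarith only [z.ex, z.eK, z.eW, fmK C]

theorem li3 (C : SIC α (rowsOf fam) [] r 4 8 n R 4 F j t) (g bK bW : ℤ) (hG : GOK C g bK bW) :
    0 ≤ dot (f [(1, -4), (2, 8), (5, 1)]) (pt C g bK bW) := by
  have z := siz C
  have hd0 := C.dim
  refine lin_q ((-4) * (5 * 2 ^ 41 * 2 ^ j * (C.W.x : ℤ)) + (8 * (5 * 2 ^ 41 * 2 ^ j * (C.A.x : ℤ)) + (1 * (5 * 2 ^ 43 * 2 ^ j * (C.f : ℤ)) + (0))) : ℤ) rfl rfl ?_
  linarith only [z.ex, z.eK, z.eW, z.h1]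

theorem li5 (C : SIC α (rowsOf fam) [] r 4 8 n R 4 F j t) (g bK bW : ℤ) (hG : GOK C g bK bW) :
    0 ≤ dot (f [(1, -2), (2, -2), (3, -2), (8, 1)]) (pt C g bK bW) := by
  have z := siz C
  have hd0 := C.dim
  refine lin_q ((-2) * (5 * 2 ^ 41 * 2 ^ j * (C.W.x : ℤ)) + ((-2) * (5 * 2 ^ 41 * 2 ^ j * (C.A.x : ℤ)) + ((-2) * (5 * 2 ^ 41 * 2 ^ j * (C.P.x : ℤ)) + (1 * (5 * 2 ^ 43 * (t : ℤ)) + (0)))) : ℤ) rfl rfl ?_
  linarith only [z.ex, z.eK, z.eW, (ztl C)]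

theorem li7 (C : SIC α (rowsOf fam) [] r 4 8 n R 4 F j t) (g bK bW : ℤ) (hG : GOK C g bK bW) :
    0 ≤ dot (f [(0, 1), (1, -96), (2, -96), (3, -96), (31, 40)]) (pt C g bK bW) := by
  have z := siz C
  have hd0 := C.dim
  refine lin_q (1 * (5 * 2 ^ 43 * 2 ^ j * 2 ^ R) + ((-96) * (5 * 2 ^ 41 * 2 ^ j * (C.W.x : ℤ)) + ((-96) * (5 * 2 ^ 41 * 2 ^ j * (C.A.x : ℤ)) + ((-96) * (5 * 2 ^ 41 * 2 ^ j * (C.P.x : ℤ)) + (40 * (g) + (0))))) : ℤ) rfl rfl ?_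
  linarith only [z.ex, z.eK, z.eW, hG.bTB0]

theorem li9 (C : SIC α (rowsOf fam) [] r 4 8 n R 4 F j t) (g bK bW : ℤ) (hG : GOK C g bK bW) :
    0 ≤ dot (f [(0, 9), (1, -212), (2, -212), (3, -212), (31, 80)]) (pt C g bK bW) := by
  have z := siz C
  have hd0 := C.dim
  refine lin_q (9 * (5 * 2 ^ 43 * 2 ^ j * 2 ^ R) + ((-212) * (5 * 2 ^ 41 * 2 ^ j * (C.W.x : ℤ)) + ((-212) * (5 * 2 ^ 41 * 2 ^ j * (C.A.x : ℤ)) + ((-212) * (5 * 2 ^ 41 * 2 ^ j * (C.P.x : ℤ)) + (80 * (g) + (0))))) : ℤ) rfl rfl ?_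
  linarith only [z.ex, z.eK, z.eW, hG.bTB2]

theorem li11 (C : SIC α (rowsOf fam) [] r 4 8 n R 4 F j t) (g bK bW : ℤ) (hG : GOK C g bK bW) :
    0 ≤ dot (f [(1, -3), (2, -3), (3, -3), (8, 1), (35, 1)]) (pt C g bK bW) := by
  have z := siz C
  have hd0 := C.dim
  refine lin_q ((-3) * (5 * 2 ^ 41 * 2 ^ j * (C.W.x : ℤ)) + ((-3) * (5 * 2 ^ 41 * 2 ^ j * (C.A.x : ℤ)) + ((-3) * (5 * 2 ^ 41 * 2 ^ j * (C.P.x : ℤ)) + (1 * (5 * 2 ^ 43 * (t : ℤ)) + (1 * (5 * 2 ^ 40 * max 0 (2 ^ j * (6 * (F.x : ℤ)) - 8 * (t : ℤ))) + (0))))) : ℤ) rfl rfl ?_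
  linarith only [z.ex, z.eK, z.eW, frZF1 C]

theorem li13 (C : SIC α (rowsOf fam) [] r 4 8 n R 4 F j t) (g bK bW : ℤ) (hG : GOK C g bK bW) :
    0 ≤ dot (f [(1, 11), (2, -5), (3, -5), (32, 4)]) (pt C g bK bW) := by
  have z := siz C
  have hd0 := C.dim
  refine lin_q (11 * (5 * 2 ^ 41 * 2 ^ j * (C.W.x : ℤ)) + ((-5) * (5 * 2 ^ 41 * 2 ^ j * (C.A.x : ℤ)) + ((-5) * (5 * 2 ^ 41 * 2 ^ j * (C.P.x : ℤ)) + (4 * (5 * 2 ^ 38 * 2 ^ j * max 0 (10 * (F.x : ℤ) - 16 * (2 * (C.W.x : ℤ)))) + (0)))) : ℤ) rfl rfl ?_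
  linarith only [z.ex, z.eK, z.eW, frh1 C]

theorem li15 (C : SIC α (rowsOf fam) [] r 4 8 n R 4 F j t) (g bK bW : ℤ) (hG : GOK C g bK bW) :
    0 ≤ dot (f [(1, 4), (24, 1), (30, -1)]) (pt C g bK bW) := by
  have z := siz C
  have hd0 := C.dim
  refine lin_q (4 * (5 * 2 ^ 41 * 2 ^ j * (C.W.x : ℤ)) + (1 * (5 * 2 ^ 42 * (C.K.d j t : ℤ)) + ((-1) * (5 * 2 ^ 42 * (F.d j t : ℤ)) + (0))) : ℤ) rfl rfl ?_
  linarith only [z.ex, z.eK, z.eW, f1DF C]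

theorem li17 (C : SIC α (rowsOf fam) [] r 4 8 n R 4 F j t) (g bK bW : ℤ) (hG : GOK C g bK bW) :
    0 ≤ dot (f [(1, -4), (2, 4), (3, 4), (5, 1), (26, 2), (30, -1)]) (pt C g bK bW) := by
  have z := siz C
  have hd0 := C.dim
  refine lin_q ((-4) * (5 * 2 ^ 41 * 2 ^ j * (C.W.x : ℤ)) + (4 * (5 * 2 ^ 41 * 2 ^ j * (C.A.x : ℤ)) + (4 * (5 * 2 ^ 41 * 2 ^ j * (C.P.x : ℤ)) + (1 * (5 * 2 ^ 43 * 2 ^ j * (C.f : ℤ)) + (2 * (5 * 2 ^ 41 * (C.W.d (j + 1) t : ℤ)) + ((-1) * (5 * 2 ^ 42 * (F.d j t : ℤ)) + (0)))))) : ℤ) rfl rfl ?_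
  linarith only [z.ex, z.eK, z.eW, f4DF C]

theorem li19 (C : SIC α (rowsOf fam) [] r 4 8 n R 4 F j t) (g bK bW : ℤ) (hG : GOK C g bK bW) :
    0 ≤ dot (f [(4, 4), (26, -1), (28, 1)]) (pt C g bK bW) := by
  have z := siz C
  have hd0 := C.dim
  refine lin_q (4 * (5 * 2 ^ 41 * 2 ^ j * (C.W2.x : ℤ)) + ((-1) * (5 * 2 ^ 41 * (C.W.d (j + 1) t : ℤ)) + (1 * (5 * 2 ^ 41 * (C.W1.d (j + 1) t : ℤ)) + (0))) : ℤ) rfl rfl ?_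
  linarith only [z.ex, z.eK, z.eW, f1DWh C]

theorem li21 (C : SIC α (rowsOf fam) [] r 4 8 n R 4 F j t) (g bK bW : ℤ) (hG : GOK C g bK bW) :
    0 ≤ dot (f [(0, 1), (1, -1)]) (pt C g bK bW) := by
  have z := siz C
  have hd0 := C.dim
  have hd1 : n + 1 = R + 3 := by omega
  refine lin_q (1 * (5 * 2 ^ 43 * 2 ^ j * 2 ^ R) + ((-1) * (5 * 2 ^ 41 * 2 ^ j * (C.W.x : ℤ)) + (0)) : ℤ) rfl rfl ?_
  linarith only [z.ex, z.eK, z.eW, capZ (j := j) (R := R) C.mF (m := 3) hd1, frZW2 C, z.h1, z.le2, z.hi, fbZW2 C, (ztu C)]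

theorem li23 (C : SIC α (rowsOf fam) [] r 4 8 n R 4 F j t) (g bK bW : ℤ) (hG : GOK C g bK bW) :
    0 ≤ dot (f [(0, 1), (3, -1)]) (pt C g bK bW) := by
  have z := siz C
  have hd0 := C.dim
  have hd1 : n + 1 = R + 3 := by omega
  refine lin_q (1 * (5 * 2 ^ 43 * 2 ^ j * 2 ^ R) + ((-1) * (5 * 2 ^ 41 * 2 ^ j * (C.P.x : ℤ)) + (0)) : ℤ) rfl rfl ?_
  linarith only [z.ex, z.eK, z.eW, z.f1, capZ (j := j) (R := R) C.mF (m := 3) hd1, frZK2 C, z.h1, z.hi, (ztu C), fbZK2 C]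

theorem li25 (C : SIC α (rowsOf fam) [] r 4 8 n R 4 F j t) (g bK bW : ℤ) (hG : GOK C g bK bW) :
    0 ≤ dot (f [(0, 1), (5, -1)]) (pt C g bK bW) := by
  have z := siz C
  have hd0 := C.dim
  refine lin_q (1 * (5 * 2 ^ 43 * 2 ^ j * 2 ^ R) + ((-1) * (5 * 2 ^ 43 * 2 ^ j * (C.f : ℤ)) + (0)) : ℤ) rfl rfl ?_
  linarith only [z.ex, z.eK, z.eW, z.le1, z.hi, z.f1]

theorem li27 (C : SIC α (rowsOf fam) [] r 4 8 n R 4 F j t) (g bK bW : ℤ) (hG : GOK C g bK bW) :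
    0 ≤ dot (f [(0, 1), (7, -1)]) (pt C g bK bW) := by
  have z := siz C
  have hd0 := C.dim
  have hd1 : n + 1 = R + 3 := by omega
  refine lin_q (1 * (5 * 2 ^ 43 * 2 ^ j * 2 ^ R) + ((-1) * (5 * 2 ^ 43 * 2 ^ j * (C.fW : ℤ)) + (0)) : ℤ) rfl rfl ?_
  linarith only [z.ex, z.eK, z.eW, z.hi, z.le3, z.h2, z.le1, capZ (j := j) (R := R) C.mF (m := 3) hd1, z.f3]

theorem li29 (C : SIC α (rowsOf fam) [] r 4 8 n R 4 F j t) (g bK bW : ℤ) (hG : GOK C g bK bW) :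
    0 ≤ dot (f [(0, 8), (9, -1)]) (pt C g bK bW) := by
  have z := siz C
  have hd0 := C.dim
  have hd1 : n + 1 = R + 3 := by omega
  refine lin_q (8 * (5 * 2 ^ 43 * 2 ^ j * 2 ^ R) + ((-1) * (5 * 2 ^ 43 * 2 ^ j * MM R F) + (0)) : ℤ) rfl rfl ?_
  linarith only [z.ex, z.eK, z.eW, hG.goal, f1DF C, fbZW1 C, (ztu C), fyF C, hG.bTB2, z.le3, ftDKt C, frZF1 C, frZF2 C, z.hi, frZW1 C, z.h2, frh1 C, frh2 C, (zero_le_one : (0 : ℤ) ≤ 1), capZ (j := j) (R := R) C.mF (m := 3) hd1, fqF C]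

theorem li31 (C : SIC α (rowsOf fam) [] r 4 8 n R 4 F j t) (g bK bW : ℤ) (hG : GOK C g bK bW) :
    0 ≤ dot (f [(0, 8), (11, -1)]) (pt C g bK bW) := by
  have z := siz C
  have hd0 := C.dim
  have hd1 : n + 1 = R + 3 := by omega
  refine lin_q (8 * (5 * 2 ^ 43 * 2 ^ j * 2 ^ R) + ((-1) * (5 * 2 ^ 43 * 2 ^ j * MM R C.W) + (0)) : ℤ) rfl rfl ?_
  linarith only [z.ex, z.eK, z.eW, hG.goal, fmF C, flK C, fbZW2 C, (ztu C), fyF C, fyK C, hG.bTB2, z.le3, frh1 C, gyK C, frZF1 C, frZF2 C, z.hi, frZW2 C, z.h2, fqF C, frh2 C, (zero_le_one : (0 : ℤ) ≤ 1), capZ (j := j) (R := R) C.mF (m := 3) hd1, ftDF C]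

theorem li33 (C : SIC α (rowsOf fam) [] r 4 8 n R 4 F j t) (g bK bW : ℤ) (hG : GOK C g bK bW) :
    0 ≤ dot (f [(0, 10), (13, -1)]) (pt C g bK bW) := by
  have z := siz C
  have hd0 := C.dim
  have hd1 : n + 1 = R + 3 := by omega
  refine lin_q (10 * (5 * 2 ^ 43 * 2 ^ j * 2 ^ R) + ((-1) * (5 * 2 ^ 43 * 2 ^ j * MM R C.A) + (0)) : ℤ) rfl rfl ?_
  linarith only [z.ex, z.eK, z.eW, hG.goal, z.hi, fmF C, z.le2, flP C, flW C, (ztu C), fyF C, fyP C, fyW C, hG.bTB2, z.le3, frh1 C, gyP C, gyW C, frZF1 C, frZF2 C, frZK2 C, fmK C, z.h2, fbZK2 C, z.fK0, fqF C, frh2 C, (zero_le_one : (0 : ℤ) ≤ 1), capZ (j := j) (R := R) C.mF (m := 3) hd1, ftDF C]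

theorem li35 (C : SIC α (rowsOf fam) [] r 4 8 n R 4 F j t) (g bK bW : ℤ) (hG : GOK C g bK bW) :
    0 ≤ dot (f [(0, 10), (15, -1)]) (pt C g bK bW) := by
  have z := siz C
  have hd0 := C.dim
  have hd1 : n + 1 = R + 3 := by omega
  refine lin_q (10 * (5 * 2 ^ 43 * 2 ^ j * 2 ^ R) + ((-1) * (5 * 2 ^ 43 * 2 ^ j * MM R C.W2) + (0)) : ℤ) rfl rfl ?_
  linarith only [z.ex, z.eK, z.eW, hG.goal, fmF C, flK C, fmW C, flW1 C, fbZW2 C, (ztu C), fyF C, fyK C, fyW1 C, hG.bTB2, z.le3, frh1 C, gyK C, gyW1 C, frZF1 C, frZF2 C, z.hi, frZW2 C, z.h2, z.fW0, fqF C, frh2 C, (zero_le_one : (0 : ℤ) ≤ 1), capZ (j := j) (R := R) C.mF (m := 3) hd1, ftDF C]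

theorem li37 (C : SIC α (rowsOf fam) [] r 4 8 n R 4 F j t) (g bK bW : ℤ) (hG : GOK C g bK bW) :
    0 ≤ dot (f [(0, 1), (17, -1)]) (pt C g bK bW) := by
  have z := siz C
  have hd0 := C.dim
  have hd1 : n + 1 = R + 3 := by omega
  refine lin_q (1 * (5 * 2 ^ 43 * 2 ^ j * 2 ^ R) + ((-1) * (5 * 2 ^ 42 * 2 ^ j * QQ R C.W.x) + (0)) : ℤ) rfl rfl ?_
  linarith only [z.ex, z.eK, z.eW, (ztu C), fqW C, z.le3, frZK2 C, z.h2, fbZK2 C, capZ (j := j) (R := R) C.mF (m := 3) hd1, (ztl C)]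

theorem li39 (C : SIC α (rowsOf fam) [] r 4 8 n R 4 F j t) (g bK bW : ℤ) (hG : GOK C g bK bW) :
    0 ≤ dot (f [(0, 1), (19, -1)]) (pt C g bK bW) := by
  have z := siz C
  have hd0 := C.dim
  have hd1 : n + 1 = R + 3 := by omega
  refine lin_q (1 * (5 * 2 ^ 43 * 2 ^ j * 2 ^ R) + ((-1) * (5 * 2 ^ 42 * 2 ^ j * QQ R C.W1.x) + (0)) : ℤ) rfl rfl ?_
  linarith only [z.ex, z.eK, z.eW, (ztu C), fqW1 C, z.le3, frZK2 C, z.h2, fbZK2 C, capZ (j := j) (R := R) C.mF (m := 3) hd1, (ztl C)]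

theorem li41 (C : SIC α (rowsOf fam) [] r 4 8 n R 4 F j t) (g bK bW : ℤ) (hG : GOK C g bK bW) :
    0 ≤ dot (f [(0, 2), (21, -1)]) (pt C g bK bW) := by
  have z := siz C
  have hd0 := C.dim
  have hd1 : n + 1 = R + 3 := by omega
  refine lin_q (2 * (5 * 2 ^ 43 * 2 ^ j * 2 ^ R) + ((-1) * (5 * 2 ^ 19 * 2 ^ j * YY R F.x) + (0)) : ℤ) rfl rfl ?_
  linarith only [z.ex, z.eK, z.eW, (ztu C), fyF C, z.le3, fqF C, frZK2 C, z.h2, fbZK2 C, capZ (j := j) (R := R) C.mF (m := 3) hd1, (ztl C)]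

theorem li43 (C : SIC α (rowsOf fam) [] r 4 8 n R 4 F j t) (g bK bW : ℤ) (hG : GOK C g bK bW) :
    0 ≤ dot (f [(0, 2), (23, -1)]) (pt C g bK bW) := by
  have z := siz C
  have hd0 := C.dim
  have hd1 : n + 1 = R + 3 := by omega
  refine lin_q (2 * (5 * 2 ^ 43 * 2 ^ j * 2 ^ R) + ((-1) * (5 * 2 ^ 19 * 2 ^ j * YY R C.W.x) + (0)) : ℤ) rfl rfl ?_
  linarith only [z.ex, z.eK, z.eW, (ztu C), fyW C, z.le3, fqW C, frZK2 C, z.h2, fbZK2 C, capZ (j := j) (R := R) C.mF (m := 3) hd1, (ztl C)]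

theorem li45 (C : SIC α (rowsOf fam) [] r 4 8 n R 4 F j t) (g bK bW : ℤ) (hG : GOK C g bK bW) :
    0 ≤ dot (f [(0, 2), (25, -1)]) (pt C g bK bW) := by
  have z := siz C
  have hd0 := C.dim
  refine lin_q (2 * (5 * 2 ^ 43 * 2 ^ j * 2 ^ R) + ((-1) * (5 * 2 ^ 41 * (C.K.d (j + 1) t : ℤ)) + (0)) : ℤ) rfl rfl ?_
  linarith only [z.ex, z.eK, z.eW, z.f0, z.f1, z.hi, ftDKh C]

theorem li47 (C : SIC α (rowsOf fam) [] r 4 8 n R 4 F j t) (g bK bW : ℤ) (hG : GOK C g bK bW) :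
    0 ≤ dot (f [(0, 1), (27, -1)]) (pt C g bK bW) := by
  have z := siz C
  have hd0 := C.dim
  refine lin_q (1 * (5 * 2 ^ 43 * 2 ^ j * 2 ^ R) + ((-1) * (5 * 2 ^ 41 * (C.A.d (j + 1) t : ℤ)) + (0)) : ℤ) rfl rfl ?_
  linarith only [z.ex, z.eK, z.eW, z.f0, z.f1, z.hi, ftDAh C, z.le2]

theorem li49 (C : SIC α (rowsOf fam) [] r 4 8 n R 4 F j t) (g bK bW : ℤ) (hG : GOK C g bK bW) :
    0 ≤ dot (f [(0, 1), (29, -1)]) (pt C g bK bW) := by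
  have z := siz C
  have hd0 := C.dim
  have hd1 : n + 1 = R + 3 := by omega
  refine lin_q (1 * (5 * 2 ^ 43 * 2 ^ j * 2 ^ R) + ((-1) * (5 * 2 ^ 40 * (C.W2.d (j + 2) t : ℤ)) + (0)) : ℤ) rfl rfl ?_
  linarith only [z.ex, z.eK, z.eW, z.le1, z.hi, z.le3, z.h2, capZ (j := j) (R := R) C.mF (m := 3) hd1, ftDW2q C]

theorem li51 (C : SIC α (rowsOf fam) [] r 4 8 n R 4 F j t) (g bK bW : ℤ) (hG : GOK C g bK bW) :
    0 ≤ dot (f [(0, 4), (31, -1)]) (pt C g bK bW) := by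
  have z := siz C
  have hd0 := C.dim
  refine lin_q (4 * (5 * 2 ^ 43 * 2 ^ j * 2 ^ R) + ((-1) * (g) + (0)) : ℤ) rfl rfl ?_
  linarith only [z.ex, z.eK, z.eW, hG.ub]

theorem li53 (C : SIC α (rowsOf fam) [] r 4 8 n R 4 F j t) (g bK bW : ℤ) (hG : GOK C g bK bW) :
    0 ≤ dot (f [(0, 1), (34, -1)]) (pt C g bK bW) := by
  have z := siz C
  have hd0 := C.dim
  have hone : (1 : ℤ) ≤ 5 * 2 ^ 43 * 2 ^ j * 2 ^ R := by linarith only [z.U1]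
  refine lin_q (1 * (5 * 2 ^ 43 * 2 ^ j * 2 ^ R) + ((-1) * (1) + (0)) : ℤ) rfl rfl ?_
  linarith only [z.ex, z.eK, z.eW, hone]

theorem li55 (C : SIC α (rowsOf fam) [] r 4 8 n R 4 F j t) (g bK bW : ℤ) (hG : GOK C g bK bW) :
    0 ≤ dot (f [(0, 1), (36, -1)]) (pt C g bK bW) := by
  have z := siz C
  have hd0 := C.dim
  refine lin_q (1 * (5 * 2 ^ 43 * 2 ^ j * 2 ^ R) + ((-1) * (5 * 2 ^ 40 * max 0 (2 ^ j * (8 * (F.x : ℤ)) - 8 * (t : ℤ))) + (0)) : ℤ) rfl rfl ?_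
  linarith only [z.ex, z.eK, z.eW, fbZF2 C]

theorem li57 (C : SIC α (rowsOf fam) [] r 4 8 n R 4 F j t) (g bK bW : ℤ) (hG : GOK C g bK bW) :
    0 ≤ dot (f [(0, 1), (38, -1)]) (pt C g bK bW) := by
  have z := siz C
  have hd0 := C.dim
  refine lin_q (1 * (5 * 2 ^ 43 * 2 ^ j * 2 ^ R) + ((-1) * (5 * 2 ^ 40 * max 0 (2 ^ j * (6 * (C.K.x : ℤ)) - 4 * (t : ℤ))) + (0)) : ℤ) rfl rfl ?_
  linarith only [z.ex, z.eK, z.eW, fbZK1 C]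

theorem li59 (C : SIC α (rowsOf fam) [] r 4 8 n R 4 F j t) (g bK bW : ℤ) (hG : GOK C g bK bW) :
    0 ≤ dot (f [(0, 1), (40, -1)]) (pt C g bK bW) := by
  have z := siz C
  have hd0 := C.dim
  have hd1 : n + 1 = R + 3 := by omega
  refine lin_q (1 * (5 * 2 ^ 43 * 2 ^ j * 2 ^ R) + ((-1) * (5 * 2 ^ 40 * max 0 (2 ^ j * (4 * (C.W.x : ℤ)) - 4 * (t : ℤ))) + (0)) : ℤ) rfl rfl ?_
  linarith only [z.ex, z.eK, z.eW, (ztu C), z.le3, frZK2 C, fbZW0 C, z.h2, fbZK2 C, capZ (j := j) (R := R) C.mF (m := 3) hd1, (ztl C)]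

theorem li61 (C : SIC α (rowsOf fam) [] r 4 8 n R 4 F j t) (g bK bW : ℤ) (hG : GOK C g bK bW) :
    0 ≤ dot (f [(0, 1), (42, -1)]) (pt C g bK bW) := by
  have z := siz C
  have hd0 := C.dim
  have hd1 : n + 1 = R + 3 := by omega
  refine lin_q (1 * (5 * 2 ^ 43 * 2 ^ j * 2 ^ R) + ((-1) * (5 * 2 ^ 40 * max 0 (2 ^ j * (8 * (C.W.x : ℤ)) - 4 * (t : ℤ))) + (0)) : ℤ) rfl rfl ?_
  linarith only [z.ex, z.eK, z.eW, (ztu C), z.le3, frZK2 C, fbZW2 C, z.h2, fbZK2 C, capZ (j := j) (R := R) C.mF (m := 3) hd1, (ztl C)]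

theorem li63 (C : SIC α (rowsOf fam) [] r 4 8 n R 4 F j t) (g bK bW : ℤ) (hG : GOK C g bK bW) :
    0 ≤ dot (f [(0, 4), (44, -1)]) (pt C g bK bW) := by
  have z := siz C
  have hd0 := C.dim
  have hd1 : n + 1 = R + 3 := by omega
  refine lin_q (4 * (5 * 2 ^ 43 * 2 ^ j * 2 ^ R) + ((-1) * (2 ^ 30 * (40960 * (2 ^ j * (C.W.x : ℤ)) + 2 ^ j * bW)) + (0)) : ℤ) rfl rfl ?_
  linarith only [z.ex, z.eK, z.eW, fbZW2 C, (ztu C), z.le3, frZW2 C, z.h2, z.hi, capZ (j := j) (R := R) C.mF (m := 3) hd1, bhiW hG]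

theorem it1 (C : SIC α (rowsOf fam) [] r 4 8 n R 4 F j t) (g bK bW : ℤ) :
    (ItemL.cle 15 512 (f [(2, 4), (3, 4), (8, -1), (37, -2)])).Sem sys (pt C g bK bW) := by
  have z := siz C
  have hd0 := C.dim
  intro hc
  rw [fv15, sysGG, pt0] at hc
  push_cast at hc
  have hu : 0 ≤ 2 ^ j * (4 * (C.K.x : ℤ)) - 4 * (t : ℤ) := by linarith only [z.ex, z.eK, z.eW, hc]
  have hf : max 0 (2 ^ j * (4 * (C.K.x : ℤ)) - 4 * (t : ℤ)) ≤ 2 ^ j * (4 * (C.K.x : ℤ)) - 4 * (t : ℤ) := max_le hu (le_refl _)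
  refine lin_q (4 * (5 * 2 ^ 41 * 2 ^ j * (C.A.x : ℤ)) + (4 * (5 * 2 ^ 41 * 2 ^ j * (C.P.x : ℤ)) + ((-1) * (5 * 2 ^ 43 * (t : ℤ)) + ((-2) * (5 * 2 ^ 40 * max 0 (2 ^ j * (4 * (C.K.x : ℤ)) - 4 * (t : ℤ))) + (0)))) : ℤ) rfl rfl ?_
  linarith only [z.ex, z.eK, z.eW, hf]

theorem it3 (C : SIC α (rowsOf fam) [] r 4 8 n R 4 F j t) (g bK bW : ℤ) :
    (ItemL.cle 16 1024 (f [(2, 6), (3, 6), (8, -1), (38, -2)])).Sem sys (pt C g bK bW) := by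
  have z := siz C
  have hd0 := C.dim
  intro hc
  rw [fv16, sysGG, pt0] at hc
  push_cast at hc
  have hu : 0 ≤ 2 ^ j * (6 * (C.K.x : ℤ)) - 4 * (t : ℤ) := by linarith only [z.ex, z.eK, z.eW, hc]
  have hf : max 0 (2 ^ j * (6 * (C.K.x : ℤ)) - 4 * (t : ℤ)) ≤ 2 ^ j * (6 * (C.K.x : ℤ)) - 4 * (t : ℤ) := max_le hu (le_refl _)
  refine lin_q (6 * (5 * 2 ^ 41 * 2 ^ j * (C.A.x : ℤ)) + (6 * (5 * 2 ^ 41 * 2 ^ j * (C.P.x : ℤ)) + ((-1) * (5 * 2 ^ 43 * (t : ℤ)) + ((-2) * (5 * 2 ^ 40 * max 0 (2 ^ j * (6 * (C.K.x : ℤ)) - 4 * (t : ℤ))) + (0)))) : ℤ) rfl rfl ?_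
  linarith only [z.ex, z.eK, z.eW, hf]

theorem it5 (C : SIC α (rowsOf fam) [] r 4 8 n R 4 F j t) (g bK bW : ℤ) :
    (ItemL.cge 18 0 (f [(40, -1)])).Sem sys (pt C g bK bW) := by
  have z := siz C
  have hd0 := C.dim
  intro hc
  rw [fv18, sysGG, pt0] at hc
  push_cast at hc
  have hu : 2 ^ j * (4 * (C.W.x : ℤ)) - 4 * (t : ℤ) ≤ 0 := by linarith only [z.ex, z.eK, z.eW, hc]
  have hf : max 0 (2 ^ j * (4 * (C.W.x : ℤ)) - 4 * (t : ℤ)) ≤ 0 := max_le (le_refl 0) hu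
  refine lin_q ((-1) * (5 * 2 ^ 40 * max 0 (2 ^ j * (4 * (C.W.x : ℤ)) - 4 * (t : ℤ))) + (0) : ℤ) rfl rfl ?_
  linarith only [z.ex, z.eK, z.eW, hf]

theorem it7 (C : SIC α (rowsOf fam) [] r 4 8 n R 4 F j t) (g bK bW : ℤ) :
    (ItemL.cle 19 512 (f [(1, 6), (8, -1), (41, -2)])).Sem sys (pt C g bK bW) := by
  have z := siz C
  have hd0 := C.dim
  intro hc
  rw [fv19, sysGG, pt0] at hc
  push_cast at hc
  have hu : 0 ≤ 2 ^ j * (6 * (C.W.x : ℤ)) - 4 * (t : ℤ) := by linarith only [z.ex, z.eK, z.eW, hc]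
  have hf : max 0 (2 ^ j * (6 * (C.W.x : ℤ)) - 4 * (t : ℤ)) ≤ 2 ^ j * (6 * (C.W.x : ℤ)) - 4 * (t : ℤ) := max_le hu (le_refl _)
  refine lin_q (6 * (5 * 2 ^ 41 * 2 ^ j * (C.W.x : ℤ)) + ((-1) * (5 * 2 ^ 43 * (t : ℤ)) + ((-2) * (5 * 2 ^ 40 * max 0 (2 ^ j * (6 * (C.W.x : ℤ)) - 4 * (t : ℤ))) + (0))) : ℤ) rfl rfl ?_
  linarith only [z.ex, z.eK, z.eW, hf]

theorem it9 (C : SIC α (rowsOf fam) [] r 4 8 n R 4 F j t) (g bK bW : ℤ) :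
    (ItemL.cle 20 512 (f [(1, 8), (8, -1), (42, -2)])).Sem sys (pt C g bK bW) := by
  have z := siz C
  have hd0 := C.dim
  intro hc
  rw [fv20, sysGG, pt0] at hc
  push_cast at hc
  have hu : 0 ≤ 2 ^ j * (8 * (C.W.x : ℤ)) - 4 * (t : ℤ) := by linarith only [z.ex, z.eK, z.eW, hc]
  have hf : max 0 (2 ^ j * (8 * (C.W.x : ℤ)) - 4 * (t : ℤ)) ≤ 2 ^ j * (8 * (C.W.x : ℤ)) - 4 * (t : ℤ) := max_le hu (le_refl _)
  refine lin_q (8 * (5 * 2 ^ 41 * 2 ^ j * (C.W.x : ℤ)) + ((-1) * (5 * 2 ^ 43 * (t : ℤ)) + ((-2) * (5 * 2 ^ 40 * max 0 (2 ^ j * (8 * (C.W.x : ℤ)) - 4 * (t : ℤ))) + (0))) : ℤ) rfl rfl ?_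
  linarith only [z.ex, z.eK, z.eW, hf]

theorem it11 (C : SIC α (rowsOf fam) [] r 4 8 n R 4 F j t) (g bK bW : ℤ) (hG : GOK C g bK bW) :
    (ItemL.gate 2 512 640 (.cge 2 256 (f [(0, -41), (2, 944), (3, 944), (43, -320)]))).Sem sys (pt C g bK bW) := by
  have z := siz C
  have hd0 := C.dim
  intro hg1 hg2
  rw [fv2, sysGG, pt0] at hg1 hg2
  push_cast at hg1 hg2
  intro hc
  rw [fv2, sysGG, pt0] at hc
  push_cast at hc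
  have h1 : 8 * (2 ^ j * 2 ^ R) ≤ 8 * 2 ^ 0 * (2 ^ j * (C.K.x : ℤ)) := by linarith only [z.ex, z.eK, z.eW, hg1]
  have h2 : 8 * 2 ^ 0 * (2 ^ j * (C.K.x : ℤ)) ≤ 10 * (2 ^ j * 2 ^ R) := by linarith only [z.ex, z.eK, z.eW, hg2]
  have h3 : -(40960 * (2 ^ j * (C.K.x : ℤ))) ≤ (-656) * 2 ^ 3 * (2 ^ j * 2 ^ R) + 32 * (-336) * (2 ^ j * (C.K.x : ℤ)) := by linarith only [z.ex, z.eK, z.eW, hg2, hg1]
  have hf : 2 ^ j * bK ≤ (-656) * 2 ^ 3 * (2 ^ j * 2 ^ R) + 32 * (-336) * (2 ^ j * (C.K.x : ℤ)) := hG.K.pcZ (lev := 3) (i := 0) (k := 3) (lo := 8) (hi := 10) (bV := -656) (bx := -336) (show n + 1 = R + 3 by omega) (by norm_num) (by norm_num) (by decide) (by decide) (by decide) (by push_cast; linarith only [h1]) (by push_cast; linarith only [h2]) (by rw [shc]; linarith only [h3])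
  refine lin_q ((-41) * (5 * 2 ^ 43 * 2 ^ j * 2 ^ R) + (944 * (5 * 2 ^ 41 * 2 ^ j * (C.A.x : ℤ)) + (944 * (5 * 2 ^ 41 * 2 ^ j * (C.P.x : ℤ)) + ((-320) * (2 ^ 30 * (40960 * (2 ^ j * (C.K.x : ℤ)) + 2 ^ j * bK)) + (0)))) : ℤ) rfl rfl ?_
  linarith only [z.ex, z.eK, z.eW, hf]

theorem it13 (C : SIC α (rowsOf fam) [] r 4 8 n R 4 F j t) (g bK bW : ℤ) (hG : GOK C g bK bW) :
    (ItemL.gate 2 320 384 (.cge 2 256 (f [(0, -9), (2, 800), (3, 800), (43, -320)]))).Sem sys (pt C g bK bW) := by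
  have z := siz C
  have hd0 := C.dim
  intro hg1 hg2
  rw [fv2, sysGG, pt0] at hg1 hg2
  push_cast at hg1 hg2
  intro hc
  rw [fv2, sysGG, pt0] at hc
  push_cast at hc
  have h1 : 10 * (2 ^ j * 2 ^ R) ≤ 8 * 2 ^ 1 * (2 ^ j * (C.K.x : ℤ)) := by linarith only [z.ex, z.eK, z.eW, hg1]
  have h2 : 8 * 2 ^ 1 * (2 ^ j * (C.K.x : ℤ)) ≤ 12 * (2 ^ j * 2 ^ R) := by linarith only [z.ex, z.eK, z.eW, hg2]
  have h3 : -(40960 * (2 ^ j * (C.K.x : ℤ))) ≤ (-144) * 2 ^ 3 * (2 ^ j * 2 ^ R) + 32 * (-480) * (2 ^ j * (C.K.x : ℤ)) := by linarith only [z.ex, z.eK, z.eW, hg2, hg1]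
  have hf : 2 ^ j * bK ≤ (-144) * 2 ^ 3 * (2 ^ j * 2 ^ R) + 32 * (-480) * (2 ^ j * (C.K.x : ℤ)) := hG.K.pcZ (lev := 3) (i := 1) (k := 4) (lo := 10) (hi := 12) (bV := -144) (bx := -480) (show n + 1 = R + 3 by omega) (by norm_num) (by norm_num) (by decide) (by decide) (by decide) (by push_cast; linarith only [h1]) (by push_cast; linarith only [h2]) (by rw [shc]; linarith only [h3])
  refine lin_q ((-9) * (5 * 2 ^ 43 * 2 ^ j * 2 ^ R) + (800 * (5 * 2 ^ 41 * 2 ^ j * (C.A.x : ℤ)) + (800 * (5 * 2 ^ 41 * 2 ^ j * (C.P.x : ℤ)) + ((-320) * (2 ^ 30 * (40960 * (2 ^ j * (C.K.x : ℤ)) + 2 ^ j * bK)) + (0)))) : ℤ) rfl rfl ?_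
  linarith only [z.ex, z.eK, z.eW, hf]

theorem it15 (C : SIC α (rowsOf fam) [] r 4 8 n R 4 F j t) (g bK bW : ℤ) (hG : GOK C g bK bW) :
    (ItemL.gate 2 448 512 (.cge 2 256 (f [(0, -5), (2, 176), (3, 176), (43, -64)]))).Sem sys (pt C g bK bW) := by
  have z := siz C
  have hd0 := C.dim
  intro hg1 hg2
  rw [fv2, sysGG, pt0] at hg1 hg2
  push_cast at hg1 hg2
  intro hc
  rw [fv2, sysGG, pt0] at hc
  push_cast at hc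
  have h1 : 14 * (2 ^ j * 2 ^ R) ≤ 8 * 2 ^ 1 * (2 ^ j * (C.K.x : ℤ)) := by linarith only [z.ex, z.eK, z.eW, hg1]
  have h2 : 8 * 2 ^ 1 * (2 ^ j * (C.K.x : ℤ)) ≤ 16 * (2 ^ j * 2 ^ R) := by linarith only [z.ex, z.eK, z.eW, hg2]
  have h3 : -(40960 * (2 ^ j * (C.K.x : ℤ))) ≤ (-400) * 2 ^ 3 * (2 ^ j * 2 ^ R) + 32 * (-400) * (2 ^ j * (C.K.x : ℤ)) := by linarith only [z.ex, z.eK, z.eW, hg2, hg1]
  have hf : 2 ^ j * bK ≤ (-400) * 2 ^ 3 * (2 ^ j * 2 ^ R) + 32 * (-400) * (2 ^ j * (C.K.x : ℤ)) := hG.K.pcZ (lev := 3) (i := 1) (k := 4) (lo := 14) (hi := 16) (bV := -400) (bx := -400) (show n + 1 = R + 3 by omega) (by norm_num) (by norm_num) (by decide) (by decide) (by decide) (by push_cast; linarith only [h1]) (by push_cast; linarith only [h2]) (by rw [shc]; linarith only [h3])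
  refine lin_q ((-5) * (5 * 2 ^ 43 * 2 ^ j * 2 ^ R) + (176 * (5 * 2 ^ 41 * 2 ^ j * (C.A.x : ℤ)) + (176 * (5 * 2 ^ 41 * 2 ^ j * (C.P.x : ℤ)) + ((-64) * (2 ^ 30 * (40960 * (2 ^ j * (C.K.x : ℤ)) + 2 ^ j * bK)) + (0)))) : ℤ) rfl rfl ?_
  linarith only [z.ex, z.eK, z.eW, hf]

theorem it17 (C : SIC α (rowsOf fam) [] r 4 8 n R 4 F j t) (g bK bW : ℤ) (hG : GOK C g bK bW) :
    (ItemL.gate 1 320 384 (.cge 1 0 (f [(0, -9), (1, 800), (44, -320)]))).Sem sys (pt C g bK bW) := by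
  have z := siz C
  have hd0 := C.dim
  intro hg1 hg2
  rw [fv1, sysGG, pt0] at hg1 hg2
  push_cast at hg1 hg2
  intro hc
  rw [fv1, sysGG, pt0] at hc
  push_cast at hc
  have h1 : 10 * (2 ^ j * 2 ^ R) ≤ 8 * 2 ^ 1 * (2 ^ j * (C.W.x : ℤ)) := by linarith only [z.ex, z.eK, z.eW, hg1]
  have h2 : 8 * 2 ^ 1 * (2 ^ j * (C.W.x : ℤ)) ≤ 12 * (2 ^ j * 2 ^ R) := by linarith only [z.ex, z.eK, z.eW, hg2]
  have h3 : -(40960 * (2 ^ j * (C.W.x : ℤ))) ≤ (-144) * 2 ^ 3 * (2 ^ j * 2 ^ R) + 32 * (-480) * (2 ^ j * (C.W.x : ℤ)) := by linarith only [z.ex, z.eK, z.eW, hg1, hg2]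
  have hf : 2 ^ j * bW ≤ (-144) * 2 ^ 3 * (2 ^ j * 2 ^ R) + 32 * (-480) * (2 ^ j * (C.W.x : ℤ)) := hG.W.pcZ (lev := 3) (i := 1) (k := 4) (lo := 10) (hi := 12) (bV := -144) (bx := -480) (show n + 1 = R + 3 by omega) (by norm_num) (by norm_num) (by decide) (by decide) (by decide) (by push_cast; linarith only [h1]) (by push_cast; linarith only [h2]) (by rw [shc]; linarith only [h3])
  refine lin_q ((-9) * (5 * 2 ^ 43 * 2 ^ j * 2 ^ R) + (800 * (5 * 2 ^ 41 * 2 ^ j * (C.W.x : ℤ)) + ((-320) * (2 ^ 30 * (40960 * (2 ^ j * (C.W.x : ℤ)) + 2 ^ j * bW)) + (0))) : ℤ) rfl rfl ?_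
  linarith only [z.ex, z.eK, z.eW, hf]

theorem it19 (C : SIC α (rowsOf fam) [] r 4 8 n R 4 F j t) (g bK bW : ℤ) (hG : GOK C g bK bW) :
    (ItemL.gate 1 448 512 (.cge 1 0 (f [(0, -5), (1, 176), (44, -64)]))).Sem sys (pt C g bK bW) := by
  have z := siz C
  have hd0 := C.dim
  intro hg1 hg2
  rw [fv1, sysGG, pt0] at hg1 hg2
  push_cast at hg1 hg2
  intro hc
  rw [fv1, sysGG, pt0] at hc
  push_cast at hc
  have h1 : 14 * (2 ^ j * 2 ^ R) ≤ 8 * 2 ^ 1 * (2 ^ j * (C.W.x : ℤ)) := by linarith only [z.ex, z.eK, z.eW, hg1]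
  have h2 : 8 * 2 ^ 1 * (2 ^ j * (C.W.x : ℤ)) ≤ 16 * (2 ^ j * 2 ^ R) := by linarith only [z.ex, z.eK, z.eW, hg2]
  have h3 : -(40960 * (2 ^ j * (C.W.x : ℤ))) ≤ (-400) * 2 ^ 3 * (2 ^ j * 2 ^ R) + 32 * (-400) * (2 ^ j * (C.W.x : ℤ)) := by linarith only [z.ex, z.eK, z.eW, hg1, hg2]
  have hf : 2 ^ j * bW ≤ (-400) * 2 ^ 3 * (2 ^ j * 2 ^ R) + 32 * (-400) * (2 ^ j * (C.W.x : ℤ)) := hG.W.pcZ (lev := 3) (i := 1) (k := 4) (lo := 14) (hi := 16) (bV := -400) (bx := -400) (show n + 1 = R + 3 by omega) (by norm_num) (by norm_num) (by decide) (by decide) (by decide) (by push_cast; linarith only [h1]) (by push_cast; linarith only [h2]) (by rw [shc]; linarith only [h3])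
  refine lin_q ((-5) * (5 * 2 ^ 43 * 2 ^ j * 2 ^ R) + (176 * (5 * 2 ^ 41 * 2 ^ j * (C.W.x : ℤ)) + ((-64) * (2 ^ 30 * (40960 * (2 ^ j * (C.W.x : ℤ)) + 2 ^ j * bW)) + (0))) : ℤ) rfl rfl ?_
  linarith only [z.ex, z.eK, z.eW, hf]

theorem it21 (C : SIC α (rowsOf fam) [] r 4 8 n R 4 F j t) (g bK bW : ℤ) :
    (ItemL.tl 2 21 1 2 (f [(16, 2)]) 4096 4096 8 tbgU 1025).Sem sys (pt C g bK bW) := by
  have z := siz C
  have hd0 := C.dim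
  refine gU_k (κ := 5 * 2 ^ 43 * 2 ^ j) (R := R) (X := C.K.x) (kpos j) rfl rfl (fv2 C g bK bW) (z_xsK C) ?_ (by norm_num)
  rw [fe_q (2 * (5 * 2 ^ 42 * 2 ^ j * QQ R C.K.x) + (0) : ℤ) rfl rfl]
  push_cast
  ring

theorem it23 (C : SIC α (rowsOf fam) [] r 4 8 n R 4 F j t) (g bK bW : ℤ) :
    (ItemL.tl 1 21 1 2 (f [(17, 2)]) 4096 4096 8 tbgU 1025).Sem sys (pt C g bK bW) := by
  have z := siz C
  have hd0 := C.dim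
  refine gU_k (κ := 5 * 2 ^ 43 * 2 ^ j) (R := R) (X := C.W.x) (kpos j) rfl rfl (fv1 C g bK bW) (z_xsW C) ?_ (by norm_num)
  rw [fe_q (2 * (5 * 2 ^ 42 * 2 ^ j * QQ R C.W.x) + (0) : ℤ) rfl rfl]
  push_cast
  ring

theorem it25 (C : SIC α (rowsOf fam) [] r 4 8 n R 4 F j t) (g bK bW : ℤ) :
    (ItemL.tl 3 21 1 2 (f [(18, 2)]) 4096 4096 8 tbgU 1025).Sem sys (pt C g bK bW) := by
  have z := siz C
  have hd0 := C.dim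
  refine gU_k (κ := 5 * 2 ^ 43 * 2 ^ j) (R := R) (X := C.A.x) (kpos j) rfl rfl (fv3 C g bK bW) (z_xsA C) ?_ (by norm_num)
  rw [fe_q (2 * (5 * 2 ^ 42 * 2 ^ j * QQ R C.A.x) + (0) : ℤ) rfl rfl]
  push_cast
  ring

theorem it27 (C : SIC α (rowsOf fam) [] r 4 8 n R 4 F j t) (g bK bW : ℤ) :
    (ItemL.tl 5 21 1 2 (f [(20, 2)]) 4096 4096 8 tbgU 1025).Sem sys (pt C g bK bW) := by
  have z := siz C
  have hd0 := C.dim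
  refine gU_k (κ := 5 * 2 ^ 43 * 2 ^ j) (R := R) (X := C.W2.x) (kpos j) rfl rfl (fv5 C g bK bW) (z_xsW2 C) ?_ (by norm_num)
  rw [fe_q (2 * (5 * 2 ^ 42 * 2 ^ j * QQ R C.W2.x) + (0) : ℤ) rfl rfl]
  push_cast
  ring

theorem it29 (C : SIC α (rowsOf fam) [] r 4 8 n R 4 F j t) (g bK bW : ℤ) (hn : 1 ≤ n) :
    (ItemL.gate 2 512 1024 (.tt 2 11 8 16 (f [(0, -2), (2, 4), (3, 4), (10, 1)]) (f [(2, 8)]) 3584 7168 128 2 112 tbG3_1 129)).Sem sys (pt C g bK bW) := by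
  have z := siz C
  have hd0 := C.dim
  have hlv : R ≤ n + 1 + 0 := by omega
  refine octt_k (κ := 5 * 2 ^ 43 * 2 ^ j) (c := 43 + j) (R := R) (rc := 56) (i := 0) (mm := 5) (by norm_num) (kp j) small_tbG3_1 rows_tbG3_1 rfl rfl (z_atK C) (by omega) (fv2 C g bK bW) (le_of_eq (fv11 C g bK bW).symm) hlv (by show _; omega) (by norm_num)
    (by norm_num) (by norm_num) (by norm_num) ?_ ?_ (by norm_num) (by norm_num)
  · rw [fe_q ((-2) * (5 * 2 ^ 43 * 2 ^ j * 2 ^ R) + (4 * (5 * 2 ^ 41 * 2 ^ j * (C.A.x : ℤ)) + (4 * (5 * 2 ^ 41 * 2 ^ j * (C.P.x : ℤ)) + (1 * (5 * 2 ^ 43 * 2 ^ j * MM R C.K) + (0)))) : ℤ) rfl rfl]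
    norm_num1
    linarith only [z.ex, z.eK, z.eW]
  · rw [fe_q (8 * (5 * 2 ^ 41 * 2 ^ j * (C.A.x : ℤ)) + (0) : ℤ) rfl rfl]
    norm_num1
    linarith only [z.ex, z.eK, z.eW]

theorem it31 (C : SIC α (rowsOf fam) [] r 4 8 n R 4 F j t) (g bK bW : ℤ) (hn : 1 ≤ n) :
    (ItemL.gate 2 256 512 (.tt 2 11 4 8 (f [(0, -1), (10, 1)]) (f [(2, 8)]) 7168 14336 256 2 112 tbG4_1 129)).Sem sys (pt C g bK bW) := by
  have z := siz C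
  have hd0 := C.dim
  have hlv : R ≤ n + 1 + 1 := by omega
  refine octt_k (κ := 5 * 2 ^ 43 * 2 ^ j) (c := 43 + j) (R := R) (rc := 56) (i := 1) (mm := 5) (by norm_num) (kp j) small_tbG4_1 rows_tbG4_1 rfl rfl (z_atK C) (by omega) (fv2 C g bK bW) (le_of_eq (fv11 C g bK bW).symm) hlv (by show _; omega) (by norm_num)
    (by norm_num) (by norm_num) (by norm_num) ?_ ?_ (by norm_num) (by norm_num)
  · rw [fe_q ((-1) * (5 * 2 ^ 43 * 2 ^ j * 2 ^ R) + (1 * (5 * 2 ^ 43 * 2 ^ j * MM R C.K) + (0)) : ℤ) rfl rfl]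
    norm_num1
    linarith only [z.ex, z.eK, z.eW]
  · rw [fe_q (8 * (5 * 2 ^ 41 * 2 ^ j * (C.A.x : ℤ)) + (0) : ℤ) rfl rfl]
    norm_num1
    linarith only [z.ex, z.eK, z.eW]

theorem it33 (C : SIC α (rowsOf fam) [] r 4 8 n R 4 F j t) (g bK bW : ℤ) (hn : 1 ≤ n) :
    (ItemL.gate 1 256 512 (.tt 1 12 4 8 (f [(0, -1), (11, 1)]) (f [(4, 8)]) 7168 14336 256 2 112 tbG4_1 129)).Sem sys (pt C g bK bW) := by
  have z := siz C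
  have hd0 := C.dim
  have hlv : R ≤ n + 1 + 1 := by omega
  refine octt_k (κ := 5 * 2 ^ 43 * 2 ^ j) (c := 43 + j) (R := R) (rc := 56) (i := 1) (mm := 5) (by norm_num) (kp j) small_tbG4_1 rows_tbG4_1 rfl rfl (z_atW C) (by omega) (fv1 C g bK bW) (le_of_eq (fv12 C g bK bW).symm) hlv (by show _; omega) (by norm_num)
    (by norm_num) (by norm_num) (by norm_num) ?_ ?_ (by norm_num) (by norm_num)
  · rw [fe_q ((-1) * (5 * 2 ^ 43 * 2 ^ j * 2 ^ R) + (1 * (5 * 2 ^ 43 * 2 ^ j * MM R C.W) + (0)) : ℤ) rfl rfl]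
    norm_num1
    linarith only [z.ex, z.eK, z.eW]
  · rw [fe_q (8 * (5 * 2 ^ 41 * 2 ^ j * (C.W2.x : ℤ)) + (0) : ℤ) rfl rfl]
    norm_num1
    linarith only [z.ex, z.eK, z.eW]

theorem it35 (C : SIC α (rowsOf fam) [] r 4 8 n R 4 F j t) (g bK bW : ℤ) (hn : 1 ≤ n) :
    (ItemL.gate 4 256 512 (.tt 4 13 4 8 (f [(0, -1), (12, 1)]) (f [(2, 4), (6, -1)]) 7168 14336 256 2 112 tbG3_1 129)).Sem sys (pt C g bK bW) := by
  have z := siz C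
  have hd0 := C.dim
  have hlv : R ≤ n + 1 := by omega
  refine octt_k (κ := 5 * 2 ^ 43 * 2 ^ j) (c := 43 + j) (R := R) (rc := 56) (i := 1) (mm := 5) (by norm_num) (kp j) small_tbG3_1 rows_tbG3_1 rfl rfl (z_atP C hn) (by omega) (fv4 C g bK bW) (le_of_eq (fv13 C g bK bW).symm) hlv (by show _; omega) (by norm_num)
    (by norm_num) (by norm_num) (by norm_num) ?_ ?_ (by norm_num) (by norm_num)
  · rw [fe_q ((-1) * (5 * 2 ^ 43 * 2 ^ j * 2 ^ R) + (1 * (5 * 2 ^ 43 * 2 ^ j * MM R C.P) + (0)) : ℤ) rfl rfl]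
    norm_num1
    linarith only [z.ex, z.eK, z.eW]
  · rw [fe_q (4 * (5 * 2 ^ 41 * 2 ^ j * (C.A.x : ℤ)) + ((-1) * (5 * 2 ^ 43 * 2 ^ j * (C.fK : ℤ)) + (0)) : ℤ) rfl rfl]
    norm_num1
    linarith only [z.ex, z.eK, z.eW]

theorem it37 (C : SIC α (rowsOf fam) [] r 4 8 n R 4 F j t) (g bK bW : ℤ) (hn : 1 ≤ n) :
    (ItemL.gate 6 128 256 (.tt 6 14 2 4 (f [(0, -1), (1, -8), (4, 8), (14, 2)]) (f [(4, 4), (7, -1)]) 7168 28672 512 2 112 tbG4_1 129)).Sem sys (pt C g bK bW) := by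
  have z := siz C
  have hd0 := C.dim
  have hlv : R ≤ n + 2 := by omega
  refine octt_k (κ := 5 * 2 ^ 43 * 2 ^ j) (c := 43 + j) (R := R) (rc := 56) (i := 2) (mm := 5) (by norm_num) (kp j) small_tbG4_1 rows_tbG4_1 rfl rfl (z_atW1 C hn) (by omega) (fv6 C g bK bW) (le_of_eq (fv14 C g bK bW).symm) hlv (by show _; omega) (by norm_num)
    (by norm_num) (by norm_num) (by norm_num) ?_ ?_ (by norm_num) (by norm_num)
  · rw [fe_q ((-1) * (5 * 2 ^ 43 * 2 ^ j * 2 ^ R) + ((-8) * (5 * 2 ^ 41 * 2 ^ j * (C.W.x : ℤ)) + (8 * (5 * 2 ^ 41 * 2 ^ j * (C.W2.x : ℤ)) + (2 * (5 * 2 ^ 43 * 2 ^ j * MM R C.W1) + (0)))) : ℤ) rfl rfl]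
    norm_num1
    linarith only [z.ex, z.eK, z.eW]
  · rw [fe_q (4 * (5 * 2 ^ 41 * 2 ^ j * (C.W2.x : ℤ)) + ((-1) * (5 * 2 ^ 43 * 2 ^ j * (C.fW : ℤ)) + (0)) : ℤ) rfl rfl]
    norm_num1
    linarith only [z.ex, z.eK, z.eW]

theorem it39 (C : SIC α (rowsOf fam) [] r 4 8 n R 4 F j t) (g bK bW : ℤ) (hn : 1 ≤ n) :
    (ItemL.tt 0 22 8 16 (f [(0, -2), (1, 4), (2, 4), (3, 4), (9, 1)]) (f [(1, 8)]) 3584 7168 128 2 112 tbG4_1 129).Sem sys (pt C g bK bW) := by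
  have z := siz C
  have hd0 := C.dim
  have hlv : R ≤ n + 2 + 0 := by omega
  have key := octt_k (S := sys) (x := pt C g bK bW) (κ := 5 * 2 ^ 43 * 2 ^ j) (c := 43 + j) (R := R) (rc := 56) (i := 0) (ga := 512) (gb := 1024) (ex := 0) (eg := 22) (hx := 8) (cg := 16) (L := f [(0, -2), (1, 4), (2, 4), (3, 4), (9, 1)]) (U := f [(1, 8)]) (FL := 3584) (Fx := 128) (FT := 2) (FU := 7168) (cb := 112) (mm := 5) (by norm_num) (kp j) small_tbG4_1 rows_tbG4_1 rfl rfl (z_atF C) (by omega) (fv0 C g bK bW) (le_of_eq (fv22 C g bK bW).symm) hlv (by show _; omega) (by norm_num) (by norm_num) (by norm_num) (by norm_num) ?_ ?_ (by norm_num) (by norm_num)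
  · refine key ?_ ?_
    · rw [fv0, sysGG, pt0]; push_cast; linarith only [z.lo]
    · rw [fv0, sysGG, pt0]; push_cast; linarith only [z.hi]
  · rw [fe_q ((-2) * (5 * 2 ^ 43 * 2 ^ j * 2 ^ R) + (4 * (5 * 2 ^ 41 * 2 ^ j * (C.W.x : ℤ)) + (4 * (5 * 2 ^ 41 * 2 ^ j * (C.A.x : ℤ)) + (4 * (5 * 2 ^ 41 * 2 ^ j * (C.P.x : ℤ)) + (1 * (5 * 2 ^ 43 * 2 ^ j * MM R F) + (0))))) : ℤ) rfl rfl]
    norm_num1
    linarith only [z.ex, z.eK, z.eW]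
  · rw [fe_q (8 * (5 * 2 ^ 41 * 2 ^ j * (C.W.x : ℤ)) + (0) : ℤ) rfl rfl]
    norm_num1
    linarith only [z.ex, z.eK, z.eW]

theorem it41 (C : SIC α (rowsOf fam) [] r 4 8 n R 4 F j t) (g bK bW : ℤ) (hn : 1 ≤ n) :
    (ItemL.tt 0 22 8 16 (f [(0, -2), (1, 4), (2, 4), (3, 4), (9, 1)]) (f [(1, 8)]) 3584 14336 128 2 224 tbG4_2 129).Sem sys (pt C g bK bW) := by
  have z := siz C
  have hd0 := C.dim
  have hlv : R ≤ n + 2 + 0 := by omega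
  have key := octt_k (S := sys) (x := pt C g bK bW) (κ := 5 * 2 ^ 43 * 2 ^ j) (c := 43 + j) (R := R) (rc := 112) (i := 0) (ga := 512) (gb := 1024) (ex := 0) (eg := 22) (hx := 8) (cg := 16) (L := f [(0, -2), (1, 4), (2, 4), (3, 4), (9, 1)]) (U := f [(1, 8)]) (FL := 3584) (Fx := 128) (FT := 2) (FU := 14336) (cb := 224) (mm := 5) (by norm_num) (kp j) small_tbG4_2 rows_tbG4_2 rfl rfl (z_atF C) (by omega) (fv0 C g bK bW) (le_of_eq (fv22 C g bK bW).symm) hlv (by show _; omega) (by norm_num) (by norm_num) (by norm_num) (by norm_num) ?_ ?_ (by norm_num) (by norm_num)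
  · refine key ?_ ?_
    · rw [fv0, sysGG, pt0]; push_cast; linarith only [z.lo]
    · rw [fv0, sysGG, pt0]; push_cast; linarith only [z.hi]
  · rw [fe_q ((-2) * (5 * 2 ^ 43 * 2 ^ j * 2 ^ R) + (4 * (5 * 2 ^ 41 * 2 ^ j * (C.W.x : ℤ)) + (4 * (5 * 2 ^ 41 * 2 ^ j * (C.A.x : ℤ)) + (4 * (5 * 2 ^ 41 * 2 ^ j * (C.P.x : ℤ)) + (1 * (5 * 2 ^ 43 * 2 ^ j * MM R F) + (0))))) : ℤ) rfl rfl]
    norm_num1
    linarith only [z.ex, z.eK, z.eW]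
  · rw [fe_q (8 * (5 * 2 ^ 41 * 2 ^ j * (C.W.x : ℤ)) + (0) : ℤ) rfl rfl]
    norm_num1
    linarith only [z.ex, z.eK, z.eW]

theorem it43 (C : SIC α (rowsOf fam) [] r 4 8 n R 4 F j t) (g bK bW : ℤ) :
    (ItemL.ts 2 32 (f [(2, 4), (3, 4), (10, 1), (16, -2), (24, -1)]) 20480 256 16 tbTTc 33 8 64 [(7, 1, 8, 1)] tbTAc 2).Sem sys (pt C g bK bW) := by
  have z := siz C
  have hd0 := C.dim
  refine tsc_k (κ := 5 * 2 ^ 43 * 2 ^ j) (R := R) (J := j) (t := t) (a0 := 40) (v0 := 8) (dv := 5 * 2 ^ 42 * (C.K.d j t : ℤ)) (kpos j) rfl rfl C.kK' (fun s X h1 h2 => C.ih s X (by omega) h2) (fv2 C g bK bW) (by rw [fv7]; exact le_of_eq (by ring)) (z_xsK C) (by norm_num) (by ring) ?_ chkTc1 chkTc2 chkTc3 chkTc4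
  refine (fe_q (4 * (5 * 2 ^ 41 * 2 ^ j * (C.A.x : ℤ)) + (4 * (5 * 2 ^ 41 * 2 ^ j * (C.P.x : ℤ)) + (1 * (5 * 2 ^ 43 * 2 ^ j * MM R C.K) + ((-2) * (5 * 2 ^ 42 * 2 ^ j * QQ R C.K.x) + ((-1) * (5 * 2 ^ 42 * (C.K.d j t : ℤ)) + (0))))) : ℤ) rfl rfl).trans ?_
  linarith only [z.ex, z.eK, z.eW]

theorem it45 (C : SIC α (rowsOf fam) [] r 4 8 n R 4 F j t) (g bK bW : ℤ) :
    (ItemL.ts 2 32 (f [(2, 14), (3, 26), (10, 5), (22, -5), (25, -5)]) 16384 1024 64 tbTF0_3 33 8 64 [(7, 1, 4, 1), (7, 1, 4, 1), (7, 1, 4, 1), (11, 1, 16, 1), (11, 1, 16, 1)] tbTA0 10).Sem sys (pt C g bK bW) := by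
  have z := siz C
  have hd0 := C.dim
  refine tsf_k (κ := 5 * 2 ^ 43 * 2 ^ j) (R := R) (mt := 3) (m := 2) (J := (j + 1)) (t := t) (s := 5) (c0 := SFC) (e := FE) (ah := AH0) (j0 := 0) (δ := 3) (shapes := famG0) (yv := 5 * 2 ^ 19 * 2 ^ j * YY R C.K.x) (dv := 5 * 2 ^ 41 * (C.K.d (j + 1) t : ℤ)) (kpos j) rfl rfl (z_atK C).fam (z_atK C).vx (fun s X h1 h2 => C.ih s X (by omega) h2) (fv2 C g bK bW) (by rw [fv7]; exact le_of_eq (by rw [pow_add]; push_cast; ring)) (fv11 C g bK bW) (by rw [pow_zero, Nat.one_mul]; exact z_xsK C)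
    (show n + 1 = R + 3 by omega) (by norm_num) (by norm_num) (by norm_num) (by norm_num) (by norm_num) (by ring) (by rw [pow_add]; ring) ?_ (fun s hs => z_row C rfl (by omega) (z_atK C).fam s (mem_famG0 hs)) okG0 chkL_tbTF0_3 chkT_tbTF0_3_0
  rw [fe_q (14 * (5 * 2 ^ 41 * 2 ^ j * (C.A.x : ℤ)) + (26 * (5 * 2 ^ 41 * 2 ^ j * (C.P.x : ℤ)) + (5 * (5 * 2 ^ 43 * 2 ^ j * MM R C.K) + ((-5) * (5 * 2 ^ 19 * 2 ^ j * YY R C.K.x) + ((-5) * (5 * 2 ^ 41 * (C.K.d (j + 1) t : ℤ)) + (0))))) : ℤ) rfl rfl]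
  norm_num1
  linarith only [z.ex, z.eK, z.eW]

theorem it47 (C : SIC α (rowsOf fam) [] r 4 8 n R 4 F j t) (g bK bW : ℤ) :
    (ItemL.ts 1 32 (f [(1, 26), (4, -12), (11, 5), (23, -5), (26, -5)]) 16384 1024 64 tbTF0_3 33 8 64 [(7, 1, 4, 1), (7, 1, 4, 1), (7, 1, 4, 1), (12, 1, 16, 1), (12, 1, 16, 1)] tbTA0 10).Sem sys (pt C g bK bW) := by
  have z := siz C
  have hd0 := C.dim
  refine tsf_k (κ := 5 * 2 ^ 43 * 2 ^ j) (R := R) (mt := 3) (m := 2) (J := (j + 1)) (t := t) (s := 5) (c0 := SFC) (e := FE) (ah := AH0) (j0 := 0) (δ := 3) (shapes := famG0) (yv := 5 * 2 ^ 19 * 2 ^ j * YY R C.W.x) (dv := 5 * 2 ^ 41 * (C.W.d (j + 1) t : ℤ)) (kpos j) rfl rfl (z_atW C).fam (z_atW C).vx (fun s X h1 h2 => C.ih s X (by omega) h2) (fv1 C g bK bW) (by rw [fv7]; exact le_of_eq (by rw [pow_add]; push_cast; ring)) (fv12 C g bK bW) (by rw [pow_zero,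 Nat.one_mul]; exact z_xsW C)
    (show n + 1 = R + 3 by omega) (by norm_num) (by norm_num) (by norm_num) (by norm_num) (by norm_num) (by ring) (by rw [pow_add]; ring) ?_ (fun s hs => z_row C rfl (by omega) (z_atW C).fam s (mem_famG0 hs)) okG0 chkL_tbTF0_3 chkT_tbTF0_3_0
  rw [fe_q (26 * (5 * 2 ^ 41 * 2 ^ j * (C.W.x : ℤ)) + ((-12) * (5 * 2 ^ 41 * 2 ^ j * (C.W2.x : ℤ)) + (5 * (5 * 2 ^ 43 * 2 ^ j * MM R C.W) + ((-5) * (5 * 2 ^ 19 * 2 ^ j * YY R C.W.x) + ((-5) * (5 * 2 ^ 41 * (C.W.d (j + 1) t : ℤ)) + (0))))) : ℤ) rfl rfl]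
  norm_num1
  linarith only [z.ex, z.eK, z.eW]

theorem it50 (C : SIC α (rowsOf fam) [] r 4 8 n R 4 F j t) (g bK bW : ℤ) :
    (ItemL.ts 5 32 (f [(4, 4), (15, 1), (20, -2), (29, -1)]) 20480 256 16 tbTTc 33 8 64 [(7, 1, 2, 1)] tbTAc 2).Sem sys (pt C g bK bW) := by
  have z := siz C
  have hd0 := C.dim
  refine tsc_k (κ := 5 * 2 ^ 43 * 2 ^ j) (R := R) (J := (j + 2)) (t := t) (a0 := 40) (v0 := 8) (dv := 5 * 2 ^ 40 * (C.W2.d (j + 2) t : ℤ)) (kpos j) rfl rfl C.kW2 (fun s X h1 h2 => C.ih s X (by omega) h2) (fv5 C g bK bW) (by rw [fv7]; exact le_of_eq (by rw [pow_add]; ring)) (z_xsW2 C) (by norm_num) (by rw [pow_add]; ring) ?_ chkTc1 chkTc2 chkTc3 chkTc4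
  refine (fe_q (4 * (5 * 2 ^ 41 * 2 ^ j * (C.W2.x : ℤ)) + (1 * (5 * 2 ^ 43 * 2 ^ j * MM R C.W2) + ((-2) * (5 * 2 ^ 42 * 2 ^ j * QQ R C.W2.x) + ((-1) * (5 * 2 ^ 40 * (C.W2.d (j + 2) t : ℤ)) + (0)))) : ℤ) rfl rfl).trans ?_
  linarith only [z.ex, z.eK, z.eW]

theorem it52 (C : SIC α (rowsOf fam) [] r 4 8 n R 4 F j t) (g bK bW : ℤ) (hG : GOK C g bK bW) :
    (ItemL.ts 1 32 (f [(1, -448), (4, -384), (11, 160), (23, -160), (26, -160), (40, 81), (41, 48), (42, 31), (44, 160)]) 512 1024 64 tbTX 33 8 64 [(12, 1, 16, 1), (12, 1, 16, 1)] tbTY 0).Sem sys (pt C g bK bW) := by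
  have z := siz C
  have hd0 := C.dim
  refine tsb_k (κ := 5 * 2 ^ 43 * 2 ^ j) (R := R) (m := 2) (J := j + 1) (t := t) (s := 160) (c0 := SFC) (e := FE) (ah := AH0) (sh := shp0) (yv := 5 * 2 ^ 19 * 2 ^ j * YY R C.W.x) (dv := 5 * 2 ^ 41 * (C.W.d (j + 1) t : ℤ)) (z := 324 * (5 * 2 ^ 40 * max 0 (2 ^ j * (4 * (C.W.x : ℤ)) - 4 * (t : ℤ))) + 192 * (5 * 2 ^ 40 * max 0 (2 ^ j * (6 * (C.W.x : ℤ)) - 4 * (t : ℤ))) + 124 * (5 * 2 ^ 40 * max 0 (2 ^ j * (8 * (C.W.x : ℤ)) - 4 * (t : ℤ)))) (bkv := 2 ^ 30 * (40960 * (2 ^ j * (C.W.x : ℤ)) + 2 ^ j * bW)) (b := bW) eqTX (kpos j) (z_atW C).fam (fv1 C g bK bW) (fv12 C g bK bW)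
    (by norm_num) (by norm_num) (by ring) (by rw [pow_add]; ring) ?_ ?_ ?_ hG.W rfl rfl rfl rfl okTY
  · have hth : Frame.thsum (Shp.th shp0) (j + 1) t (C.W.x : ℤ) = 2 * (324 * max 0 (2 ^ j * (4 * (C.W.x : ℤ)) - 4 * (t : ℤ))) + 2 * (192 * max 0 (2 ^ j * (6 * (C.W.x : ℤ)) - 4 * (t : ℤ))) + 2 * (124 * max 0 (2 ^ j * (8 * (C.W.x : ℤ)) - 4 * (t : ℤ))) := by
      unfold Frame.thsum shp0
      simp only [List.map_cons, List.map_nil, List.sum_cons, List.sum_nil, mx2Z]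
      push_cast
      ring
    rw [hth, pow_add]
    ring
  · show 64 * ((640 : ℕ) : ℤ) * _ = _ * (64 * ((640 : ℕ) : ℤ) * _ + _)
    push_cast
    ring
  · rw [fe_q ((-448) * (5 * 2 ^ 41 * 2 ^ j * (C.W.x : ℤ)) + ((-384) * (5 * 2 ^ 41 * 2 ^ j * (C.W2.x : ℤ)) + (160 * (5 * 2 ^ 43 * 2 ^ j * MM R C.W) + ((-160) * (5 * 2 ^ 19 * 2 ^ j * YY R C.W.x) + ((-160) * (5 * 2 ^ 41 * (C.W.d (j + 1) t : ℤ)) + (81 * (5 * 2 ^ 40 * max 0 (2 ^ j * (4 * (C.W.x : ℤ)) - 4 * (t : ℤ))) + (48 * (5 * 2 ^ 40 * max 0 (2 ^ j * (6 * (C.W.x : ℤ)) - 4 * (t : ℤ))) + (31 * (5 * 2 ^ 40 * max 0 (2 ^ j * (8 * (C.W.x : ℤ)) - 4 * (t : ℤ))) + (160 * (2 ^ 30 * (40960 * (2 ^ j * (C.W.x : ℤ)) + 2 ^ j * bW)) + (0))))))))) : ℤ) rfl rfl]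
    norm_num1
    linarith only [z.ex, z.eK, z.eW]

end Pool.Agent.EdgeIso.Chk.S40
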