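import Pool.Agent.Lib.MP_48c8f3_co.Bas
import Pool.Agent.Lib.MP_48c8f3_co.KNy
import Pool.Agent.Lib.MP_48c8f3_co.KGc
import Pool.Agent.Lib.MP_48c8f3_co.SFam
import Pool.Agent.Lib.MP_48c8f3_co.S50D

set_option autoImplicit false
set_option linter.unusedSectionVars false
set_option linter.unusedVariables false

/-!
MP_48c8f3_co: the point of the system (machine made).
-/

namespace Pool.Agent.EdgeIso.Chk.S50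

open Finset Pool.Agent.EdgeIso.Frame Pool.Agent.EdgeIso.Cell Pool.Agent.EdgeIso.Walsh
  Pool.Agent.EdgeIso.Smooth

variable {α : Type*} [DecidableEq α] {r : SRow} {n R k : ℕ} {F : Frame.Num} {j t : ℕ}

theorem ztl (C : SIC α (rowsOf fam) [] r 4 8 n R k F j t) : 4 * (2 ^ j * (F.x : ℤ)) ≤ 8 * (t : ℤ) := by
  have h := (siz C).tl
  push_cast at h
  exact h

theorem ztu (C : SIC α (rowsOf fam) [] r 4 8 n R k F j t) : 8 * (t : ℤ) ≤ 8 * (2 ^ j * (F.x : ℤ)) := by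
  have h := (siz C).tu
  push_cast at h
  exact h

theorem fmF (C : SIC α (rowsOf fam) [] r 4 8 n R k F j t) :
    (2 : ℤ) ^ j * MM R C.K + 2 ^ j * MM R C.W - 2 * (2 ^ j * (C.W.x : ℤ)) + 2 * (2 ^ j * (C.f : ℤ)) ≤ 2 ^ j * MM R F := MlZ C.mF R

theorem fmK (C : SIC α (rowsOf fam) [] r 4 8 n R k F j t) :
    (2 : ℤ) ^ j * MM R C.P + 2 ^ j * MM R C.A - 2 * (2 ^ j * (C.A.x : ℤ)) + 2 * (2 ^ j * (C.fK : ℤ)) ≤ 2 ^ j * MM R C.K := MlZ C.mK R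

theorem fmW (C : SIC α (rowsOf fam) [] r 4 8 n R k F j t) :
    (2 : ℤ) ^ j * MM R C.W1 + 2 ^ j * MM R C.W2 - 2 * (2 ^ j * (C.W2.x : ℤ)) + 2 * (2 ^ j * (C.fW : ℤ)) ≤ 2 ^ j * MM R C.W := MlZ C.mW R

theorem fyF (C : SIC α (rowsOf fam) [] r 4 8 n R k F j t) :
    (2 : ℤ) ^ j * YY R F.x ≤ 2 ^ 24 * (2 ^ j * QQ R F.x) := YYZ j R F.x

theorem fqF (C : SIC α (rowsOf fam) [] r 4 8 n R k F j t) :
    3 * ((2 : ℤ) ^ j * QQ R F.x) ≤ 5 * (2 ^ j * 2 ^ R) := QQZ j (z_xs C)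

theorem gqF (C : SIC α (rowsOf fam) [] r 4 8 n R k F j t) :
    (0 : ℤ) ≤ 2 ^ j * QQ R F.x := mul_nonneg (by positivity) (QQ_nonneg (z_xs C))

theorem gyF (C : SIC α (rowsOf fam) [] r 4 8 n R k F j t) :
    (0 : ℤ) ≤ 2 ^ j * YY R F.x := mul_nonneg (by positivity) (YY_nonneg (z_xs C))

theorem gmF (C : SIC α (rowsOf fam) [] r 4 8 n R k F j t) :
    (0 : ℤ) ≤ 2 ^ j * MM R F := mul_nonneg (by positivity) (C.fF.MM_nonneg (z_xs C))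

theorem flK (C : SIC α (rowsOf fam) [] r 4 8 n R k F j t) :
    (2 : ℤ) ^ j * QQ R C.K.x ≤ 2 ^ j * MM R C.K := L0Z C.kK' R

theorem fyK (C : SIC α (rowsOf fam) [] r 4 8 n R k F j t) :
    (2 : ℤ) ^ j * YY R C.K.x ≤ 2 ^ 24 * (2 ^ j * QQ R C.K.x) := YYZ j R C.K.x

theorem fqK (C : SIC α (rowsOf fam) [] r 4 8 n R k F j t) :
    3 * ((2 : ℤ) ^ j * QQ R C.K.x) ≤ 5 * (2 ^ j * 2 ^ R) := QQZ j (z_xsK C)

theorem gqK (C : SIC α (rowsOf fam) [] r 4 8 n R k F j t) :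
    (0 : ℤ) ≤ 2 ^ j * QQ R C.K.x := mul_nonneg (by positivity) (QQ_nonneg (z_xsK C))

theorem gyK (C : SIC α (rowsOf fam) [] r 4 8 n R k F j t) :
    (0 : ℤ) ≤ 2 ^ j * YY R C.K.x := mul_nonneg (by positivity) (YY_nonneg (z_xsK C))

theorem gmK (C : SIC α (rowsOf fam) [] r 4 8 n R k F j t) :
    (0 : ℤ) ≤ 2 ^ j * MM R C.K := mul_nonneg (by positivity) (C.kK'.MM_nonneg (z_xsK C))

theorem flW (C : SIC α (rowsOf fam) [] r 4 8 n R k F j t) :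
    (2 : ℤ) ^ j * QQ R C.W.x ≤ 2 ^ j * MM R C.W := L0Z C.kW' R

theorem fyW (C : SIC α (rowsOf fam) [] r 4 8 n R k F j t) :
    (2 : ℤ) ^ j * YY R C.W.x ≤ 2 ^ 24 * (2 ^ j * QQ R C.W.x) := YYZ j R C.W.x

theorem fqW (C : SIC α (rowsOf fam) [] r 4 8 n R k F j t) :
    3 * ((2 : ℤ) ^ j * QQ R C.W.x) ≤ 5 * (2 ^ j * 2 ^ R) := QQZ j (z_xsW C)

theorem gqW (C : SIC α (rowsOf fam) [] r 4 8 n R k F j t) :
    (0 : ℤ) ≤ 2 ^ j * QQ R C.W.x := mul_nonneg (by positivity) (QQ_nonneg (z_xsW C))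

theorem gyW (C : SIC α (rowsOf fam) [] r 4 8 n R k F j t) :
    (0 : ℤ) ≤ 2 ^ j * YY R C.W.x := mul_nonneg (by positivity) (YY_nonneg (z_xsW C))

theorem gmW (C : SIC α (rowsOf fam) [] r 4 8 n R k F j t) :
    (0 : ℤ) ≤ 2 ^ j * MM R C.W := mul_nonneg (by positivity) (C.kW'.MM_nonneg (z_xsW C))

theorem flP (C : SIC α (rowsOf fam) [] r 4 8 n R k F j t) :
    (2 : ℤ) ^ j * QQ R C.P.x ≤ 2 ^ j * MM R C.P := L0Z C.kP R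

theorem fyP (C : SIC α (rowsOf fam) [] r 4 8 n R k F j t) :
    (2 : ℤ) ^ j * YY R C.P.x ≤ 2 ^ 24 * (2 ^ j * QQ R C.P.x) := YYZ j R C.P.x

theorem gqP (C : SIC α (rowsOf fam) [] r 4 8 n R k F j t) :
    (0 : ℤ) ≤ 2 ^ j * QQ R C.P.x := mul_nonneg (by positivity) (QQ_nonneg (z_xsP C))

theorem gyP (C : SIC α (rowsOf fam) [] r 4 8 n R k F j t) :
    (0 : ℤ) ≤ 2 ^ j * YY R C.P.x := mul_nonneg (by positivity) (YY_nonneg (z_xsP C))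

theorem gmP (C : SIC α (rowsOf fam) [] r 4 8 n R k F j t) :
    (0 : ℤ) ≤ 2 ^ j * MM R C.P := mul_nonneg (by positivity) (C.kP.MM_nonneg (z_xsP C))

theorem flA (C : SIC α (rowsOf fam) [] r 4 8 n R k F j t) :
    (2 : ℤ) ^ j * QQ R C.A.x ≤ 2 ^ j * MM R C.A := L0Z C.kA R

theorem fyA (C : SIC α (rowsOf fam) [] r 4 8 n R k F j t) :
    (2 : ℤ) ^ j * YY R C.A.x ≤ 2 ^ 24 * (2 ^ j * QQ R C.A.x) := YYZ j R C.A.x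

theorem fqA (C : SIC α (rowsOf fam) [] r 4 8 n R k F j t) :
    3 * ((2 : ℤ) ^ j * QQ R C.A.x) ≤ 5 * (2 ^ j * 2 ^ R) := QQZ j (z_xsA C)

theorem gqA (C : SIC α (rowsOf fam) [] r 4 8 n R k F j t) :
    (0 : ℤ) ≤ 2 ^ j * QQ R C.A.x := mul_nonneg (by positivity) (QQ_nonneg (z_xsA C))

theorem gyA (C : SIC α (rowsOf fam) [] r 4 8 n R k F j t) :
    (0 : ℤ) ≤ 2 ^ j * YY R C.A.x := mul_nonneg (by positivity) (YY_nonneg (z_xsA C))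

theorem gmA (C : SIC α (rowsOf fam) [] r 4 8 n R k F j t) :
    (0 : ℤ) ≤ 2 ^ j * MM R C.A := mul_nonneg (by positivity) (C.kA.MM_nonneg (z_xsA C))

theorem flW1 (C : SIC α (rowsOf fam) [] r 4 8 n R k F j t) :
    (2 : ℤ) ^ j * QQ R C.W1.x ≤ 2 ^ j * MM R C.W1 := L0Z C.kW1 R

theorem fyW1 (C : SIC α (rowsOf fam) [] r 4 8 n R k F j t) :
    (2 : ℤ) ^ j * YY R C.W1.x ≤ 2 ^ 24 * (2 ^ j * QQ R C.W1.x) := YYZ j R C.W1.x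

theorem fqW1 (C : SIC α (rowsOf fam) [] r 4 8 n R k F j t) :
    3 * ((2 : ℤ) ^ j * QQ R C.W1.x) ≤ 5 * (2 ^ j * 2 ^ R) := QQZ j (z_xsW1 C)

theorem gqW1 (C : SIC α (rowsOf fam) [] r 4 8 n R k F j t) :
    (0 : ℤ) ≤ 2 ^ j * QQ R C.W1.x := mul_nonneg (by positivity) (QQ_nonneg (z_xsW1 C))

theorem gyW1 (C : SIC α (rowsOf fam) [] r 4 8 n R k F j t) :
    (0 : ℤ) ≤ 2 ^ j * YY R C.W1.x := mul_nonneg (by positivity) (YY_nonneg (z_xsW1 C))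

theorem gmW1 (C : SIC α (rowsOf fam) [] r 4 8 n R k F j t) :
    (0 : ℤ) ≤ 2 ^ j * MM R C.W1 := mul_nonneg (by positivity) (C.kW1.MM_nonneg (z_xsW1 C))

theorem flW2 (C : SIC α (rowsOf fam) [] r 4 8 n R k F j t) :
    (2 : ℤ) ^ j * QQ R C.W2.x ≤ 2 ^ j * MM R C.W2 := L0Z C.kW2 R

theorem fyW2 (C : SIC α (rowsOf fam) [] r 4 8 n R k F j t) :
    (2 : ℤ) ^ j * YY R C.W2.x ≤ 2 ^ 24 * (2 ^ j * QQ R C.W2.x) := YYZ j R C.W2.x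

theorem fqW2 (C : SIC α (rowsOf fam) [] r 4 8 n R k F j t) :
    3 * ((2 : ℤ) ^ j * QQ R C.W2.x) ≤ 5 * (2 ^ j * 2 ^ R) := QQZ j (z_xsW2 C)

theorem gqW2 (C : SIC α (rowsOf fam) [] r 4 8 n R k F j t) :
    (0 : ℤ) ≤ 2 ^ j * QQ R C.W2.x := mul_nonneg (by positivity) (QQ_nonneg (z_xsW2 C))

theorem gyW2 (C : SIC α (rowsOf fam) [] r 4 8 n R k F j t) :
    (0 : ℤ) ≤ 2 ^ j * YY R C.W2.x := mul_nonneg (by positivity) (YY_nonneg (z_xsW2 C))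

theorem gmW2 (C : SIC α (rowsOf fam) [] r 4 8 n R k F j t) :
    (0 : ℤ) ≤ 2 ^ j * MM R C.W2 := mul_nonneg (by positivity) (C.kW2.MM_nonneg (z_xsW2 C))

theorem ftDKt (C : SIC α (rowsOf fam) [] r 4 8 n R k F j t) :
    (C.K.d j t : ℤ) ≤ 2 * (2 ^ 0 * (2 ^ j * (C.K.x : ℤ))) := trivZ C.kK' 0

theorem f4DKt (C : SIC α (rowsOf fam) [] r 4 8 n R k F j t) :
    (C.K.d j t : ℤ) ≤ C.A.d (j + 1) t + 2 * (2 ^ 0 * (2 ^ j * (C.P.x : ℤ) - 2 ^ j * (C.A.x : ℤ) + 2 ^ j * (C.fK : ℤ))) := d4Z C.mK 0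

theorem ftDKh (C : SIC α (rowsOf fam) [] r 4 8 n R k F j t) :
    (C.K.d (j + 1) t : ℤ) ≤ 2 * (2 ^ 1 * (2 ^ j * (C.K.x : ℤ))) := trivZ C.kK' 1

theorem ftDWh (C : SIC α (rowsOf fam) [] r 4 8 n R k F j t) :
    (C.W.d (j + 1) t : ℤ) ≤ 2 * (2 ^ 1 * (2 ^ j * (C.W.x : ℤ))) := trivZ C.kW' 1

theorem f1DWh (C : SIC α (rowsOf fam) [] r 4 8 n R k F j t) :
    (C.W.d (j + 1) t : ℤ) ≤ C.W1.d (j + 1) t + 2 * (2 ^ 1 * (2 ^ j * (C.W2.x : ℤ))) := d1Z C.mW 1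

theorem f4DWh (C : SIC α (rowsOf fam) [] r 4 8 n R k F j t) :
    (C.W.d (j + 1) t : ℤ) ≤ C.W2.d (j + 2) t + 2 * (2 ^ 1 * (2 ^ j * (C.W1.x : ℤ) - 2 ^ j * (C.W2.x : ℤ) + 2 ^ j * (C.fW : ℤ))) := d4Z C.mW 1

theorem ftDAh (C : SIC α (rowsOf fam) [] r 4 8 n R k F j t) :
    (C.A.d (j + 1) t : ℤ) ≤ 2 * (2 ^ 1 * (2 ^ j * (C.A.x : ℤ))) := trivZ C.kA 1

theorem ftDW1h (C : SIC α (rowsOf fam) [] r 4 8 n R k F j t) :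
    (C.W1.d (j + 1) t : ℤ) ≤ 2 * (2 ^ 1 * (2 ^ j * (C.W1.x : ℤ))) := trivZ C.kW1 1

theorem ftDW2q (C : SIC α (rowsOf fam) [] r 4 8 n R k F j t) :
    (C.W2.d (j + 2) t : ℤ) ≤ 2 * (2 ^ 2 * (2 ^ j * (C.W2.x : ℤ))) := trivZ C.kW2 2

theorem ftDF (C : SIC α (rowsOf fam) [] r 4 8 n R k F j t) :
    (F.d j t : ℤ) ≤ 2 * (2 ^ 0 * (2 ^ j * (F.x : ℤ))) := trivZ C.fF 0

theorem f1DF (C : SIC α (rowsOf fam) [] r 4 8 n R k F j t) :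
    (F.d j t : ℤ) ≤ C.K.d j t + 2 * (2 ^ 0 * (2 ^ j * (C.W.x : ℤ))) := d1Z C.mF 0

theorem f3DF (C : SIC α (rowsOf fam) [] r 4 8 n R k F j t) :
    (F.d j t : ℤ) ≤ C.K.d (j + 1) t + 2 * (2 ^ 0 * (2 ^ j * (C.f : ℤ))) := d3Z C.mF 0

theorem f4DF (C : SIC α (rowsOf fam) [] r 4 8 n R k F j t) :
    (F.d j t : ℤ) ≤ C.W.d (j + 1) t + 2 * (2 ^ 0 * (2 ^ j * (C.K.x : ℤ) - 2 ^ j * (C.W.x : ℤ) + 2 ^ j * (C.f : ℤ))) := d4Z C.mF 0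

theorem frh1 (C : SIC α (rowsOf fam) [] r 4 8 n R k F j t) :
    (2 : ℤ) ^ j * (10 * (F.x : ℤ) - 16 * (2 * (C.W.x : ℤ))) ≤ 2 ^ j * max 0 (10 * (F.x : ℤ) - 16 * (2 * (C.W.x : ℤ))) := mul2 j (le_max_right _ _)

theorem fzh1 (C : SIC α (rowsOf fam) [] r 4 8 n R k F j t) :
    (0 : ℤ) ≤ 2 ^ j * max 0 (10 * (F.x : ℤ) - 16 * (2 * (C.W.x : ℤ))) := mul_nonneg (by positivity) (le_max_left _ _)

theorem fuh1 (C : SIC α (rowsOf fam) [] r 4 8 n R k F j t) :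
    (2 : ℤ) ^ j * max 0 (10 * (F.x : ℤ) - 16 * (2 * (C.W.x : ℤ))) ≤ 10 * (2 ^ j * (F.x : ℤ)) := hub C (by norm_num)

theorem frh2 (C : SIC α (rowsOf fam) [] r 4 8 n R k F j t) :
    (2 : ℤ) ^ j * (6 * (F.x : ℤ) - 16 * (2 * (C.W.x : ℤ))) ≤ 2 ^ j * max 0 (6 * (F.x : ℤ) - 16 * (2 * (C.W.x : ℤ))) := mul2 j (le_max_right _ _)

theorem fzh2 (C : SIC α (rowsOf fam) [] r 4 8 n R k F j t) :
    (0 : ℤ) ≤ 2 ^ j * max 0 (6 * (F.x : ℤ) - 16 * (2 * (C.W.x : ℤ))) := mul_nonneg (by positivity) (le_max_left _ _)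

theorem fzZK0 (C : SIC α (rowsOf fam) [] r 4 8 n R k F j t) :
    (0 : ℤ) ≤ max 0 (2 ^ j * (4 * (C.K.x : ℤ)) - 4 * (t : ℤ)) := le_max_left _ _

theorem fzZW0 (C : SIC α (rowsOf fam) [] r 4 8 n R k F j t) :
    (0 : ℤ) ≤ max 0 (2 ^ j * (4 * (C.W.x : ℤ)) - 4 * (t : ℤ)) := le_max_left _ _

theorem frZF1 (C : SIC α (rowsOf fam) [] r 4 8 n R k F j t) :
    2 ^ j * (6 * (F.x : ℤ)) - 8 * (t : ℤ) ≤ max 0 (2 ^ j * (6 * (F.x : ℤ)) - 8 * (t : ℤ)) := le_max_right _ _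

theorem fzZF1 (C : SIC α (rowsOf fam) [] r 4 8 n R k F j t) :
    (0 : ℤ) ≤ max 0 (2 ^ j * (6 * (F.x : ℤ)) - 8 * (t : ℤ)) := le_max_left _ _

theorem frZK1 (C : SIC α (rowsOf fam) [] r 4 8 n R k F j t) :
    2 ^ j * (6 * (C.K.x : ℤ)) - 4 * (t : ℤ) ≤ max 0 (2 ^ j * (6 * (C.K.x : ℤ)) - 4 * (t : ℤ)) := le_max_right _ _

theorem fzZK1 (C : SIC α (rowsOf fam) [] r 4 8 n R k F j t) :
    (0 : ℤ) ≤ max 0 (2 ^ j * (6 * (C.K.x : ℤ)) - 4 * (t : ℤ)) := le_max_left _ _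

theorem fzZW1 (C : SIC α (rowsOf fam) [] r 4 8 n R k F j t) :
    (0 : ℤ) ≤ max 0 (2 ^ j * (6 * (C.W.x : ℤ)) - 4 * (t : ℤ)) := le_max_left _ _

theorem frZF2 (C : SIC α (rowsOf fam) [] r 4 8 n R k F j t) :
    2 ^ j * (8 * (F.x : ℤ)) - 8 * (t : ℤ) ≤ max 0 (2 ^ j * (8 * (F.x : ℤ)) - 8 * (t : ℤ)) := le_max_right _ _

theorem fzZF2 (C : SIC α (rowsOf fam) [] r 4 8 n R k F j t) :
    (0 : ℤ) ≤ max 0 (2 ^ j * (8 * (F.x : ℤ)) - 8 * (t : ℤ)) := le_max_left _ _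

theorem frZK2 (C : SIC α (rowsOf fam) [] r 4 8 n R k F j t) :
    2 ^ j * (8 * (C.K.x : ℤ)) - 4 * (t : ℤ) ≤ max 0 (2 ^ j * (8 * (C.K.x : ℤ)) - 4 * (t : ℤ)) := le_max_right _ _

theorem fzZK2 (C : SIC α (rowsOf fam) [] r 4 8 n R k F j t) :
    (0 : ℤ) ≤ max 0 (2 ^ j * (8 * (C.K.x : ℤ)) - 4 * (t : ℤ)) := le_max_left _ _

theorem frZW2 (C : SIC α (rowsOf fam) [] r 4 8 n R k F j t) :
    2 ^ j * (8 * (C.W.x : ℤ)) - 4 * (t : ℤ) ≤ max 0 (2 ^ j * (8 * (C.W.x : ℤ)) - 4 * (t : ℤ)) := le_max_right _ _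

theorem fzZW2 (C : SIC α (rowsOf fam) [] r 4 8 n R k F j t) :
    (0 : ℤ) ≤ max 0 (2 ^ j * (8 * (C.W.x : ℤ)) - 4 * (t : ℤ)) := le_max_left _ _

theorem fbZK0 (C : SIC α (rowsOf fam) [] r 4 8 n R k F j t) :
    max 0 (2 ^ j * (4 * (C.K.x : ℤ)) - 4 * (t : ℤ)) ≤ 4 * (2 ^ j * 2 ^ R) := by
  have z := siz C
  have hd0 := C.dim
  exact max_le (by linarith only [z.ex, z.eK, z.eW, (ztu C), z.hi, (ztl C)]) (by linarith only [z.ex, z.eK, z.eW, z.hi, z.q0, (ztl C)])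

theorem fbZW0 (C : SIC α (rowsOf fam) [] r 4 8 n R k F j t) :
    max 0 (2 ^ j * (4 * (C.W.x : ℤ)) - 4 * (t : ℤ)) ≤ 0 * (2 ^ j * 2 ^ R) := by
  have z := siz C
  have hd0 := C.dim
  exact max_le (by linarith only [z.ex, z.eK, z.eW]) (by linarith only [z.ex, z.eK, z.eW, (ztl C), z.le1])

theorem fbZF1 (C : SIC α (rowsOf fam) [] r 4 8 n R k F j t) :
    max 0 (2 ^ j * (6 * (F.x : ℤ)) - 8 * (t : ℤ)) ≤ 4 * (2 ^ j * 2 ^ R) := by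
  have z := siz C
  have hd0 := C.dim
  exact max_le (by linarith only [z.ex, z.eK, z.eW, (ztu C), z.hi, (ztl C)]) (by linarith only [z.ex, z.eK, z.eW, z.hi, (ztl C)])

theorem fbZK1 (C : SIC α (rowsOf fam) [] r 4 8 n R k F j t) :
    max 0 (2 ^ j * (6 * (C.K.x : ℤ)) - 4 * (t : ℤ)) ≤ 8 * (2 ^ j * 2 ^ R) := by
  have z := siz C
  have hd0 := C.dim
  exact max_le (by linarith only [z.ex, z.eK, z.eW, (ztu C), z.hi, (ztl C)]) (by linarith only [z.ex, z.eK, z.eW, z.hi, z.q0, (ztl C)])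

theorem fbZW1 (C : SIC α (rowsOf fam) [] r 4 8 n R k F j t) :
    max 0 (2 ^ j * (6 * (C.W.x : ℤ)) - 4 * (t : ℤ)) ≤ 2 * (2 ^ j * 2 ^ R) := by
  have z := siz C
  have hd0 := C.dim
  exact max_le (by linarith only [z.ex, z.eK, z.eW, (ztu C), z.hi, (ztl C)]) (by linarith only [z.ex, z.eK, z.eW, z.hi, (ztl C), z.le1])

theorem fbZF2 (C : SIC α (rowsOf fam) [] r 4 8 n R k F j t) :
    max 0 (2 ^ j * (8 * (F.x : ℤ)) - 8 * (t : ℤ)) ≤ 8 * (2 ^ j * 2 ^ R) := by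
  have z := siz C
  have hd0 := C.dim
  exact max_le (by linarith only [z.ex, z.eK, z.eW, (ztu C), z.hi, (ztl C)]) (by linarith only [z.ex, z.eK, z.eW, z.hi, (ztl C)])

theorem fbZK2 (C : SIC α (rowsOf fam) [] r 4 8 n R k F j t) :
    max 0 (2 ^ j * (8 * (C.K.x : ℤ)) - 4 * (t : ℤ)) ≤ 12 * (2 ^ j * 2 ^ R) := by
  have z := siz C
  have hd0 := C.dim
  exact max_le (by linarith only [z.ex, z.eK, z.eW, (ztu C), z.hi, (ztl C)]) (by linarith only [z.ex, z.eK, z.eW, z.hi, z.q0, (ztl C)])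

theorem fbZW2 (C : SIC α (rowsOf fam) [] r 4 8 n R k F j t) :
    max 0 (2 ^ j * (8 * (C.W.x : ℤ)) - 4 * (t : ℤ)) ≤ 4 * (2 ^ j * 2 ^ R) := by
  have z := siz C
  have hd0 := C.dim
  exact max_le (by linarith only [z.ex, z.eK, z.eW, (ztu C), z.hi, (ztl C)]) (by linarith only [z.ex, z.eK, z.eW, z.hi, (ztl C), z.le1])

/-- the conditions for the bound -/
structure GOK (C : SIC α (rowsOf fam) [] r 4 8 n R k F j t) (g bK bW : ℤ) : Prop where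
  goal : 0 ≤ (464 * (5 * 2 ^ 41 * 2 ^ j * (C.W.x : ℤ)) + (80 * (5 * 2 ^ 41 * 2 ^ j * (C.A.x : ℤ)) + (80 * (5 * 2 ^ 41 * 2 ^ j * (C.P.x : ℤ)) + ((-160) * (5 * 2 ^ 43 * 2 ^ j * MM R F) + (160 * (5 * 2 ^ 19 * 2 ^ j * YY R F.x) + (160 * (5 * 2 ^ 42 * (F.d j t : ℤ)) + ((-256) * (5 * 2 ^ 38 * 2 ^ j * max 0 (10 * (F.x : ℤ) - 16 * (2 * (C.W.x : ℤ)))) + ((-64) * (5 * 2 ^ 38 * 2 ^ j * max 0 (6 * (F.x : ℤ) - 16 * (2 * (C.W.x : ℤ)))) + ((-160) * (1) + ((-48) * (5 * 2 ^ 40 * max 0 (2 ^ j * (6 * (F.x : ℤ)) - 8 * (t : ℤ))) + ((-31) * (5 * 2 ^ 40 * max 0 (2 ^ j * (8 * (F.x : ℤ)) - 8 * (t : ℤ))) + (0))))))))))) : ℤ)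
  K : BOK shp0 (n + 1) (2 * (C.A.x : ℤ)) C.K bK
  W : BOK shp0 (n + 1) (2 * (C.W2.x : ℤ)) C.W bW

theorem shc : ((shp0.c : ℕ) : ℤ) = 640 := rfl

theorem bhiK {C : SIC α (rowsOf fam) [] r 4 8 n R k F j t} {g bK bW : ℤ} (hG : GOK C g bK bW) :
    2 ^ j * bK ≤ 40960 * (2 ^ j * (C.K.x : ℤ)) := by
  have h := mul2 j hG.K.hi
  rw [shc] at h
  linarith only [h]

theorem bloK {C : SIC α (rowsOf fam) [] r 4 8 n R k F j t} {g bK bW : ℤ} (hG : GOK C g bK bW) :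
    -(40960 * (2 ^ j * (C.K.x : ℤ))) ≤ 2 ^ j * bK := by
  have h := mul2 j hG.K.lo
  rw [shc] at h
  linarith only [h]

theorem bhiW {C : SIC α (rowsOf fam) [] r 4 8 n R k F j t} {g bK bW : ℤ} (hG : GOK C g bK bW) :
    2 ^ j * bW ≤ 40960 * (2 ^ j * (C.W.x : ℤ)) := by
  have h := mul2 j hG.W.hi
  rw [shc] at h
  linarith only [h]

theorem bloW {C : SIC α (rowsOf fam) [] r 4 8 n R k F j t} {g bK bW : ℤ} (hG : GOK C g bK bW) :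
    -(40960 * (2 ^ j * (C.W.x : ℤ))) ≤ 2 ^ j * bW := by
  have h := mul2 j hG.W.lo
  rw [shc] at h
  linarith only [h]

/-- the coordinates but the first one -/
noncomputable abbrev vt (C : SIC α (rowsOf fam) [] r 4 8 n R k F j t) (g bK bW : ℤ) : List ℤ := [
    5 * 2 ^ 41 * 2 ^ j * (C.W.x : ℤ),
    5 * 2 ^ 41 * 2 ^ j * (C.A.x : ℤ),
    5 * 2 ^ 41 * 2 ^ j * (C.P.x : ℤ),
    5 * 2 ^ 41 * 2 ^ j * (C.W2.x : ℤ),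
    5 * 2 ^ 43 * 2 ^ j * (C.f : ℤ),
    5 * 2 ^ 43 * 2 ^ j * (C.fK : ℤ),
    5 * 2 ^ 43 * 2 ^ j * (C.fW : ℤ),
    5 * 2 ^ 43 * (t : ℤ),
    5 * 2 ^ 43 * 2 ^ j * MM R F,
    5 * 2 ^ 43 * 2 ^ j * MM R C.K,
    5 * 2 ^ 43 * 2 ^ j * MM R C.W,
    5 * 2 ^ 43 * 2 ^ j * MM R C.P,
    5 * 2 ^ 43 * 2 ^ j * MM R C.A,
    5 * 2 ^ 43 * 2 ^ j * MM R C.W1,
    5 * 2 ^ 43 * 2 ^ j * MM R C.W2,
    5 * 2 ^ 42 * 2 ^ j * QQ R C.K.x,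
    5 * 2 ^ 42 * 2 ^ j * QQ R C.W.x,
    5 * 2 ^ 42 * 2 ^ j * QQ R C.A.x,
    5 * 2 ^ 42 * 2 ^ j * QQ R C.W1.x,
    5 * 2 ^ 42 * 2 ^ j * QQ R C.W2.x,
    5 * 2 ^ 19 * 2 ^ j * YY R F.x,
    5 * 2 ^ 19 * 2 ^ j * YY R C.K.x,
    5 * 2 ^ 19 * 2 ^ j * YY R C.W.x,
    5 * 2 ^ 42 * (C.K.d j t : ℤ),
    5 * 2 ^ 41 * (C.K.d (j + 1) t : ℤ),
    5 * 2 ^ 41 * (C.W.d (j + 1) t : ℤ),
    5 * 2 ^ 41 * (C.A.d (j + 1) t : ℤ),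
    5 * 2 ^ 41 * (C.W1.d (j + 1) t : ℤ),
    5 * 2 ^ 40 * (C.W2.d (j + 2) t : ℤ),
    5 * 2 ^ 42 * (F.d j t : ℤ),
    5 * 2 ^ 38 * 2 ^ j * max 0 (10 * (F.x : ℤ) - 16 * (2 * (C.W.x : ℤ))),
    5 * 2 ^ 38 * 2 ^ j * max 0 (6 * (F.x : ℤ) - 16 * (2 * (C.W.x : ℤ))),
    1,
    5 * 2 ^ 40 * max 0 (2 ^ j * (6 * (F.x : ℤ)) - 8 * (t : ℤ)),
    5 * 2 ^ 40 * max 0 (2 ^ j * (8 * (F.x : ℤ)) - 8 * (t : ℤ)),
    5 * 2 ^ 40 * max 0 (2 ^ j * (4 * (C.K.x : ℤ)) - 4 * (t : ℤ)),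
    5 * 2 ^ 40 * max 0 (2 ^ j * (6 * (C.K.x : ℤ)) - 4 * (t : ℤ)),
    5 * 2 ^ 40 * max 0 (2 ^ j * (8 * (C.K.x : ℤ)) - 4 * (t : ℤ)),
    5 * 2 ^ 40 * max 0 (2 ^ j * (4 * (C.W.x : ℤ)) - 4 * (t : ℤ)),
    5 * 2 ^ 40 * max 0 (2 ^ j * (6 * (C.W.x : ℤ)) - 4 * (t : ℤ)),
    5 * 2 ^ 40 * max 0 (2 ^ j * (8 * (C.W.x : ℤ)) - 4 * (t : ℤ)),
    2 ^ 30 * (40960 * (2 ^ j * (C.K.x : ℤ)) + 2 ^ j * bK),
    2 ^ 30 * (40960 * (2 ^ j * (C.W.x : ℤ)) + 2 ^ j * bW)]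

/-- the point -/
noncomputable abbrev pt (C : SIC α (rowsOf fam) [] r 4 8 n R k F j t) (g bK bW : ℤ) : ℕ → ℤ := ptV (5 * 2 ^ 43 * 2 ^ j * 2 ^ R :: vt C g bK bW)

theorem sysGG : (sys.GG : ℤ) = 512 := rfl

theorem pt0 (C : SIC α (rowsOf fam) [] r 4 8 n R k F j t) (g bK bW : ℤ) : pt C g bK bW 0 = 5 * 2 ^ 43 * 2 ^ j * 2 ^ R := rfl

theorem kp (j : ℕ) : (5 : ℤ) * 2 ^ 43 * 2 ^ j = 5 * 2 ^ (43 + j) := by rw [pow_add, mul_assoc]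

theorem kpos (j : ℕ) : (0 : ℤ) < 5 * 2 ^ 43 * 2 ^ j := by positivity

theorem fv0 (C : SIC α (rowsOf fam) [] r 4 8 n R k F j t) (g bK bW : ℤ) : dot (sys.fe 0) (pt C g bK bW) =
    5 * 2 ^ 43 * 2 ^ j * (F.x : ℤ) := by
  have z := siz C
  refine (fe_q (m := 44) (l := [(1, 4), (2, 4), (3, 4)]) (4 * (5 * 2 ^ 41 * 2 ^ j * (C.W.x : ℤ)) + (4 * (5 * 2 ^ 41 * 2 ^ j * (C.A.x : ℤ)) + (4 * (5 * 2 ^ 41 * 2 ^ j * (C.P.x : ℤ)) + (0))) : ℤ) rfl rfl).trans ?_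
  linarith only [z.ex, z.eK, z.eW]

theorem fv1 (C : SIC α (rowsOf fam) [] r 4 8 n R k F j t) (g bK bW : ℤ) : dot (sys.fe 1) (pt C g bK bW) =
    5 * 2 ^ 43 * 2 ^ j * (C.W.x : ℤ) := by
  have z := siz C
  refine (fe_q (m := 44) (l := [(1, 4)]) (4 * (5 * 2 ^ 41 * 2 ^ j * (C.W.x : ℤ)) + (0) : ℤ) rfl rfl).trans ?_
  linarith only [z.ex, z.eK, z.eW]

theorem fv2 (C : SIC α (rowsOf fam) [] r 4 8 n R k F j t) (g bK bW : ℤ) : dot (sys.fe 2) (pt C g bK bW) =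
    5 * 2 ^ 43 * 2 ^ j * (C.K.x : ℤ) := by
  have z := siz C
  refine (fe_q (m := 44) (l := [(2, 4), (3, 4)]) (4 * (5 * 2 ^ 41 * 2 ^ j * (C.A.x : ℤ)) + (4 * (5 * 2 ^ 41 * 2 ^ j * (C.P.x : ℤ)) + (0)) : ℤ) rfl rfl).trans ?_
  linarith only [z.ex, z.eK, z.eW]

theorem fv3 (C : SIC α (rowsOf fam) [] r 4 8 n R k F j t) (g bK bW : ℤ) : dot (sys.fe 3) (pt C g bK bW) =
    5 * 2 ^ 43 * 2 ^ j * (C.A.x : ℤ) := by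
  have z := siz C
  refine (fe_q (m := 44) (l := [(2, 4)]) (4 * (5 * 2 ^ 41 * 2 ^ j * (C.A.x : ℤ)) + (0) : ℤ) rfl rfl).trans ?_
  linarith only [z.ex, z.eK, z.eW]

theorem fv4 (C : SIC α (rowsOf fam) [] r 4 8 n R k F j t) (g bK bW : ℤ) : dot (sys.fe 4) (pt C g bK bW) =
    5 * 2 ^ 43 * 2 ^ j * (C.P.x : ℤ) := by
  have z := siz C
  refine (fe_q (m := 44) (l := [(3, 4)]) (4 * (5 * 2 ^ 41 * 2 ^ j * (C.P.x : ℤ)) + (0) : ℤ) rfl rfl).trans ?_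
  linarith only [z.ex, z.eK, z.eW]

theorem fv5 (C : SIC α (rowsOf fam) [] r 4 8 n R k F j t) (g bK bW : ℤ) : dot (sys.fe 5) (pt C g bK bW) =
    5 * 2 ^ 43 * 2 ^ j * (C.W2.x : ℤ) := by
  have z := siz C
  refine (fe_q (m := 44) (l := [(4, 4)]) (4 * (5 * 2 ^ 41 * 2 ^ j * (C.W2.x : ℤ)) + (0) : ℤ) rfl rfl).trans ?_
  linarith only [z.ex, z.eK, z.eW]

theorem fv6 (C : SIC α (rowsOf fam) [] r 4 8 n R k F j t) (g bK bW : ℤ) : dot (sys.fe 6) (pt C g bK bW) =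
    5 * 2 ^ 43 * 2 ^ j * (C.W1.x : ℤ) := by
  have z := siz C
  refine (fe_q (m := 44) (l := [(1, 4), (4, -4)]) (4 * (5 * 2 ^ 41 * 2 ^ j * (C.W.x : ℤ)) + ((-4) * (5 * 2 ^ 41 * 2 ^ j * (C.W2.x : ℤ)) + (0)) : ℤ) rfl rfl).trans ?_
  linarith only [z.ex, z.eK, z.eW]

theorem fv7 (C : SIC α (rowsOf fam) [] r 4 8 n R k F j t) (g bK bW : ℤ) : dot (sys.fe 7) (pt C g bK bW) =
    5 * 2 ^ 43 * (t : ℤ) := by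
  have z := siz C
  refine (fe_q (m := 44) (l := [(8, 1)]) (1 * (5 * 2 ^ 43 * (t : ℤ)) + (0) : ℤ) rfl rfl).trans ?_
  linarith only [z.ex, z.eK, z.eW]

theorem fv8 (C : SIC α (rowsOf fam) [] r 4 8 n R k F j t) (g bK bW : ℤ) : dot (sys.fe 8) (pt C g bK bW) =
    5 * 2 ^ 43 * ((-1) * (2 ^ j * (C.W.x : ℤ)) + 1 * (2 ^ j * (C.A.x : ℤ)) + 1 * (2 ^ j * (C.P.x : ℤ))) := by
  have z := siz C
  refine (fe_q (m := 44) (l := [(1, -4), (2, 4), (3, 4)]) ((-4) * (5 * 2 ^ 41 * 2 ^ j * (C.W.x : ℤ)) + (4 * (5 * 2 ^ 41 * 2 ^ j * (C.A.x : ℤ)) + (4 * (5 * 2 ^ 41 * 2 ^ j * (C.P.x : ℤ)) + (0))) : ℤ) rfl rfl).trans ?_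
  linarith only [z.ex, z.eK, z.eW]

theorem fv9 (C : SIC α (rowsOf fam) [] r 4 8 n R k F j t) (g bK bW : ℤ) : dot (sys.fe 9) (pt C g bK bW) =
    5 * 2 ^ 43 * 2 ^ j * (2 * (C.A.x : ℤ)) := by
  have z := siz C
  refine (fe_q (m := 44) (l := [(2, 8)]) (8 * (5 * 2 ^ 41 * 2 ^ j * (C.A.x : ℤ)) + (0) : ℤ) rfl rfl).trans ?_
  linarith only [z.ex, z.eK, z.eW]

theorem fv10 (C : SIC α (rowsOf fam) [] r 4 8 n R k F j t) (g bK bW : ℤ) : dot (sys.fe 10) (pt C g bK bW) =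
    5 * 2 ^ 43 * 2 ^ j * (2 * (C.W2.x : ℤ)) := by
  have z := siz C
  refine (fe_q (m := 44) (l := [(4, 8)]) (8 * (5 * 2 ^ 41 * 2 ^ j * (C.W2.x : ℤ)) + (0) : ℤ) rfl rfl).trans ?_
  linarith only [z.ex, z.eK, z.eW]

theorem fv11 (C : SIC α (rowsOf fam) [] r 4 8 n R k F j t) (g bK bW : ℤ) : dot (sys.fe 11) (pt C g bK bW) =
    5 * 2 ^ 43 * 2 ^ j * ((C.A.x : ℤ) - C.fK) := by
  have z := siz C
  refine (fe_q (m := 44) (l := [(2, 4), (6, -1)]) (4 * (5 * 2 ^ 41 * 2 ^ j * (C.A.x : ℤ)) + ((-1) * (5 * 2 ^ 43 * 2 ^ j * (C.fK : ℤ)) + (0)) : ℤ) rfl rfl).trans ?_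
  linarith only [z.ex, z.eK, z.eW]

theorem fv12 (C : SIC α (rowsOf fam) [] r 4 8 n R k F j t) (g bK bW : ℤ) : dot (sys.fe 12) (pt C g bK bW) =
    5 * 2 ^ 43 * (1 * (2 ^ j * 2 ^ R) + (-1) * (2 ^ j * (C.A.x : ℤ)) + (-1) * (2 ^ j * (C.P.x : ℤ)) + 1 * ((t : ℤ))) := by
  have z := siz C
  refine (fe_q (m := 44) (l := [(0, 1), (2, -4), (3, -4), (8, 1)]) (1 * (5 * 2 ^ 43 * 2 ^ j * 2 ^ R) + ((-4) * (5 * 2 ^ 41 * 2 ^ j * (C.A.x : ℤ)) + ((-4) * (5 * 2 ^ 41 * 2 ^ j * (C.P.x : ℤ)) + (1 * (5 * 2 ^ 43 * (t : ℤ)) + (0)))) : ℤ) rfl rfl).trans ?_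
  linarith only [z.ex, z.eK, z.eW]

theorem fv13 (C : SIC α (rowsOf fam) [] r 4 8 n R k F j t) (g bK bW : ℤ) : dot (sys.fe 13) (pt C g bK bW) =
    5 * 2 ^ 42 * (4 * (2 ^ j * 2 ^ R) + (-3) * (2 ^ j * (C.A.x : ℤ)) + (-3) * (2 ^ j * (C.P.x : ℤ)) + 2 * ((t : ℤ))) := by
  have z := siz C
  refine (fe_q (m := 44) (l := [(0, 2), (2, -6), (3, -6), (8, 1)]) (2 * (5 * 2 ^ 43 * 2 ^ j * 2 ^ R) + ((-6) * (5 * 2 ^ 41 * 2 ^ j * (C.A.x : ℤ)) + ((-6) * (5 * 2 ^ 41 * 2 ^ j * (C.P.x : ℤ)) + (1 * (5 * 2 ^ 43 * (t : ℤ)) + (0)))) : ℤ) rfl rfl).trans ?_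
  linarith only [z.ex, z.eK, z.eW]

theorem fv14 (C : SIC α (rowsOf fam) [] r 4 8 n R k F j t) (g bK bW : ℤ) : dot (sys.fe 14) (pt C g bK bW) =
    5 * 2 ^ 43 * (3 * (2 ^ j * 2 ^ R) + (-2) * (2 ^ j * (C.A.x : ℤ)) + (-2) * (2 ^ j * (C.P.x : ℤ)) + 1 * ((t : ℤ))) := by
  have z := siz C
  refine (fe_q (m := 44) (l := [(0, 3), (2, -8), (3, -8), (8, 1)]) (3 * (5 * 2 ^ 43 * 2 ^ j * 2 ^ R) + ((-8) * (5 * 2 ^ 41 * 2 ^ j * (C.A.x : ℤ)) + ((-8) * (5 * 2 ^ 41 * 2 ^ j * (C.P.x : ℤ)) + (1 * (5 * 2 ^ 43 * (t : ℤ)) + (0)))) : ℤ) rfl rfl).trans ?_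
  linarith only [z.ex, z.eK, z.eW]

theorem fv15 (C : SIC α (rowsOf fam) [] r 4 8 n R k F j t) (g bK bW : ℤ) : dot (sys.fe 15) (pt C g bK bW) =
    5 * 2 ^ 43 * ((-1) * (2 ^ j * (C.W.x : ℤ)) + 1 * ((t : ℤ))) := by
  have z := siz C
  refine (fe_q (m := 44) (l := [(1, -4), (8, 1)]) ((-4) * (5 * 2 ^ 41 * 2 ^ j * (C.W.x : ℤ)) + (1 * (5 * 2 ^ 43 * (t : ℤ)) + (0)) : ℤ) rfl rfl).trans ?_
  linarith only [z.ex, z.eK, z.eW]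

theorem fv16 (C : SIC α (rowsOf fam) [] r 4 8 n R k F j t) (g bK bW : ℤ) : dot (sys.fe 16) (pt C g bK bW) =
    5 * 2 ^ 42 * (2 * (2 ^ j * 2 ^ R) + (-3) * (2 ^ j * (C.W.x : ℤ)) + 2 * ((t : ℤ))) := by
  have z := siz C
  refine (fe_q (m := 44) (l := [(0, 1), (1, -6), (8, 1)]) (1 * (5 * 2 ^ 43 * 2 ^ j * 2 ^ R) + ((-6) * (5 * 2 ^ 41 * 2 ^ j * (C.W.x : ℤ)) + (1 * (5 * 2 ^ 43 * (t : ℤ)) + (0))) : ℤ) rfl rfl).trans ?_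
  linarith only [z.ex, z.eK, z.eW]

theorem fv17 (C : SIC α (rowsOf fam) [] r 4 8 n R k F j t) (g bK bW : ℤ) : dot (sys.fe 17) (pt C g bK bW) =
    5 * 2 ^ 43 * (1 * (2 ^ j * 2 ^ R) + (-2) * (2 ^ j * (C.W.x : ℤ)) + 1 * ((t : ℤ))) := by
  have z := siz C
  refine (fe_q (m := 44) (l := [(0, 1), (1, -8), (8, 1)]) (1 * (5 * 2 ^ 43 * 2 ^ j * 2 ^ R) + ((-8) * (5 * 2 ^ 41 * 2 ^ j * (C.W.x : ℤ)) + (1 * (5 * 2 ^ 43 * (t : ℤ)) + (0))) : ℤ) rfl rfl).trans ?_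
  linarith only [z.ex, z.eK, z.eW]

theorem fv18 (C : SIC α (rowsOf fam) [] r 4 8 n R k F j t) (g bK bW : ℤ) : dot (sys.fe 18) (pt C g bK bW) =
    0 := by
  have z := siz C
  refine (fe_q (m := 44) (l := []) (0 : ℤ) rfl rfl).trans ?_
  linarith only [z.ex, z.eK, z.eW]

theorem fv19 (C : SIC α (rowsOf fam) [] r 4 8 n R k F j t) (g bK bW : ℤ) : dot (sys.fe 19) (pt C g bK bW) =
    5 * 2 ^ 43 * 2 ^ j * (2 * (C.W.x : ℤ)) := by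
  have z := siz C
  refine (fe_q (m := 44) (l := [(1, 8)]) (8 * (5 * 2 ^ 41 * 2 ^ j * (C.W.x : ℤ)) + (0) : ℤ) rfl rfl).trans ?_
  linarith only [z.ex, z.eK, z.eW]

end Pool.Agent.EdgeIso.Chk.S50
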