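import Pool.Agent.Lib.MP_48c8f3_co.Bas
import Pool.Agent.Lib.MP_48c8f3_co.S50H
import Pool.Agent.Lib.MP_48c8f3_co.TEgt
import Pool.Agent.Lib.MP_48c8f3_co.SFam

set_option autoImplicit false
set_option linter.unusedSectionVars false
set_option linter.unusedVariables false

/-!
MP_48c8f3_co: the tables of the system (machine made).
-/

namespace Pool.Agent.EdgeIso.Chk.S50

open Finset Pool.Agent.EdgeIso.Frame Pool.Agent.EdgeIso.Cell Pool.Agent.EdgeIso.Walsh
  Pool.Agent.EdgeIso.Smooth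

variable {α : Type*} [DecidableEq α] {r : SRow} {n R k : ℕ} {F : Frame.Num} {j t : ℕ}

theorem eq_tbG5_0 : tbG5_0 = TEgG50 := by decide +kernel

theorem small_tbG5_0 : smallOK tbG5_0 28 = true := by decide +kernel

theorem rows_tbG5_0 : LBnd α (fun N x v L => ∀ R k, N = R + k → 5 ≤ k → 0 ≤ v → 2 ^ R ≤ x → x ≤ 2 * 2 ^ R →
    Rows 28 28 6 tbG5_0 129 R x v (gamL R x L)) := by
  rw [eq_tbG5_0]
  exact TEgG50_rows

theorem eq_tbG5_1 : tbG5_1 = TEgG51 := by decide +kernel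

theorem small_tbG5_1 : smallOK tbG5_1 56 = true := by decide +kernel

theorem rows_tbG5_1 : LBnd α (fun N x v L => ∀ R k, N = R + k → 5 ≤ k → 0 ≤ v → 2 ^ R ≤ x → x ≤ 2 * 2 ^ R →
    Rows 28 56 6 tbG5_1 129 R x v (gamL R x L)) := by
  rw [eq_tbG5_1]
  exact TEgG51_rows

theorem eq_tbH4_1 : tbH4_1 = TEgH41 := by decide +kernel

theorem small_tbH4_1 : smallOK tbH4_1 56 = true := by decide +kernel

theorem rows_tbH4_1 : LBnd α (fun N x v L => ∀ R k, N = R + k → 4 ≤ k → 0 ≤ v → 2 ^ R ≤ x → x ≤ 2 * 2 ^ R →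
    Rows 28 56 6 tbH4_1 129 R x v (gamL R x L)) := by
  rw [eq_tbH4_1]
  exact TEgH41_rows

theorem chkTc1 : Nat.log2 tbTTc < 24 * 33 := by decide +kernel

theorem chkTc2 : allB (2 * 16 + 1) (fun i => Nat.ble (tab tbTTc 33 0 i) (80 * i)) = true := by decide +kernel

theorem chkTc3 : tab tbTAc 2 0 0 = 40 := by decide +kernel

theorem chkTc4 : tab tbTAc 2 0 1 = 8 := by decide +kernel

theorem chkL_tbTF0_4 : Nat.log2 tbTF0_4 < 24 * (famG0.length * 33) := by decide +kernel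

theorem chkT_tbTF0_4_0 : allShpU KL SFC FE AH0 (4 * (1 * 1)) 3 2 16 80 4 0 tbTF0_4 33 tbTA0 10 famG0 = true := by decide +kernel

theorem okG0 : okG famG0 = true := by decide +kernel

theorem eqTX : tbTX = 0 := by decide +kernel

theorem okTY : digOK 1 tbTY 0 0 0 shp0.hs = true := by decide +kernel

end Pool.Agent.EdgeIso.Chk.S50
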