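import Pool.Agent.Lib.MP_48c8f3_co.Bas
import Pool.Agent.Lib.MP_48c8f3_co.S50H
import Pool.Agent.Lib.MP_48c8f3_co.S50T

set_option autoImplicit false
set_option linter.unusedSectionVars false
set_option linter.unusedVariables false

/-!
MP_48c8f3_co: the point satisfies the system, part 1 (machine made).
-/

namespace Pool.Agent.EdgeIso.Chk.S50

open Finset Pool.Agent.EdgeIso.Frame Pool.Agent.EdgeIso.Cell Pool.Agent.EdgeIso.Walsh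
  Pool.Agent.EdgeIso.Smooth

variable {α : Type*} [DecidableEq α] {r : SRow} {n R k : ℕ} {F : Frame.Num} {j t : ℕ}

theorem li0 (C : SIC α (rowsOf fam) [] r 4 8 n R k F j t) (g bK bW : ℤ) (hG : GOK C g bK bW) :
    0 ≤ dot (f [(1, 8), (5, -2), (9, 1), (10, -1), (11, -1)]) (pt C g bK bW) := by
  have z := siz C
  have hd0 := C.dim
  refine lin_q (8 * (5 * 2 ^ 41 * 2 ^ j * (C.W.x : ℤ)) + ((-2) * (5 * 2 ^ 43 * 2 ^ j * (C.f : ℤ)) + (1 * (5 * 2 ^ 43 * 2 ^ j * MM R F) + ((-1) * (5 * 2 ^ 43 * 2 ^ j * MM R C.K) + ((-1) * (5 * 2 ^ 43 * 2 ^ j * MM R C.W) + (0))))) : ℤ) rfl rfl ?_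
  linarith only [z.ex, z.eK, z.eW, fmF C]

theorem li2 (C : SIC α (rowsOf fam) [] r 4 8 n R k F j t) (g bK bW : ℤ) (hG : GOK C g bK bW) :
    0 ≤ dot (f [(4, 8), (7, -2), (11, 1), (14, -1), (15, -1)]) (pt C g bK bW) := by
  have z := siz C
  have hd0 := C.dim
  refine lin_q (8 * (5 * 2 ^ 41 * 2 ^ j * (C.W2.x : ℤ)) + ((-2) * (5 * 2 ^ 43 * 2 ^ j * (C.fW : ℤ)) + (1 * (5 * 2 ^ 43 * 2 ^ j * MM R C.W) + ((-1) * (5 * 2 ^ 43 * 2 ^ j * MM R C.W1) + ((-1) * (5 * 2 ^ 43 * 2 ^ j * MM R C.W2) + (0))))) : ℤ) rfl rfl ?_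
  linarith only [z.ex, z.eK, z.eW, fmW C]

theorem li4 (C : SIC α (rowsOf fam) [] r 4 8 n R k F j t) (g bK bW : ℤ) (hG : GOK C g bK bW) :
    0 ≤ dot (f [(1, -8), (2, 4), (3, 4), (4, 8), (5, 1)]) (pt C g bK bW) := by
  have z := siz C
  have hd0 := C.dim
  refine lin_q ((-8) * (5 * 2 ^ 41 * 2 ^ j * (C.W.x : ℤ)) + (4 * (5 * 2 ^ 41 * 2 ^ j * (C.A.x : ℤ)) + (4 * (5 * 2 ^ 41 * 2 ^ j * (C.P.x : ℤ)) + (8 * (5 * 2 ^ 41 * 2 ^ j * (C.W2.x : ℤ)) + (1 * (5 * 2 ^ 43 * 2 ^ j * (C.f : ℤ)) + (0))))) : ℤ) rfl rfl ?_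
  linarith only [z.ex, z.eK, z.eW, z.h2]

theorem li6 (C : SIC α (rowsOf fam) [] r 4 8 n R k F j t) (g bK bW : ℤ) (hG : GOK C g bK bW) :
    0 ≤ dot (f [(1, -2), (2, -2), (3, -2), (8, 1)]) (pt C g bK bW) := by
  have z := siz C
  have hd0 := C.dim
  refine lin_q ((-2) * (5 * 2 ^ 41 * 2 ^ j * (C.W.x : ℤ)) + ((-2) * (5 * 2 ^ 41 * 2 ^ j * (C.A.x : ℤ)) + ((-2) * (5 * 2 ^ 41 * 2 ^ j * (C.P.x : ℤ)) + (1 * (5 * 2 ^ 43 * (t : ℤ)) + (0)))) : ℤ) rfl rfl ?_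
  linarith only [z.ex, z.eK, z.eW, (ztl C)]

theorem li8 (C : SIC α (rowsOf fam) [] r 4 8 n R k F j t) (g bK bW : ℤ) (hG : GOK C g bK bW) :
    0 ≤ dot (f [(1, -4), (2, -4), (3, -4), (8, 1), (35, 1)]) (pt C g bK bW) := by
  have z := siz C
  have hd0 := C.dim
  refine lin_q ((-4) * (5 * 2 ^ 41 * 2 ^ j * (C.W.x : ℤ)) + ((-4) * (5 * 2 ^ 41 * 2 ^ j * (C.A.x : ℤ)) + ((-4) * (5 * 2 ^ 41 * 2 ^ j * (C.P.x : ℤ)) + (1 * (5 * 2 ^ 43 * (t : ℤ)) + (1 * (5 * 2 ^ 40 * max 0 (2 ^ j * (8 * (F.x : ℤ)) - 8 * (t : ℤ))) + (0))))) : ℤ) rfl rfl ?_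
  linarith only [z.ex, z.eK, z.eW, frZF2 C]

theorem li10 (C : SIC α (rowsOf fam) [] r 4 8 n R k F j t) (g bK bW : ℤ) (hG : GOK C g bK bW) :
    0 ≤ dot (f [(1, 464), (2, 80), (3, 80), (9, -160), (21, 160), (30, 160), (31, -256), (32, -64), (33, -160), (34, -48), (35, -31)]) (pt C g bK bW) := by
  have z := siz C
  have hd0 := C.dim
  refine lin_q (464 * (5 * 2 ^ 41 * 2 ^ j * (C.W.x : ℤ)) + (80 * (5 * 2 ^ 41 * 2 ^ j * (C.A.x : ℤ)) + (80 * (5 * 2 ^ 41 * 2 ^ j * (C.P.x : ℤ)) + ((-160) * (5 * 2 ^ 43 * 2 ^ j * MM R F) + (160 * (5 * 2 ^ 19 * 2 ^ j * YY R F.x) + (160 * (5 * 2 ^ 42 * (F.d j t : ℤ)) + ((-256) * (5 * 2 ^ 38 * 2 ^ j * max 0 (10 * (F.x : ℤ) - 16 * (2 * (C.W.x : ℤ)))) + ((-64) * (5 * 2 ^ 38 * 2 ^ j * max 0 (6 * (F.x : ℤ) - 16 * (2 * (C.W.x : ℤ)))) + ((-160) * (1) + ((-48) * (5 * 2 ^ 40 * max 0 (2 ^ j * (6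 * (F.x : ℤ)) - 8 * (t : ℤ))) + ((-31) * (5 * 2 ^ 40 * max 0 (2 ^ j * (8 * (F.x : ℤ)) - 8 * (t : ℤ))) + (0))))))))))) : ℤ) rfl rfl ?_
  linarith only [z.ex, z.eK, z.eW, hG.goal]

theorem li12 (C : SIC α (rowsOf fam) [] r 4 8 n R k F j t) (g bK bW : ℤ) (hG : GOK C g bK bW) :
    0 ≤ dot (f [(5, 1), (25, 2), (30, -1)]) (pt C g bK bW) := by
  have z := siz C
  have hd0 := C.dim
  refine lin_q (1 * (5 * 2 ^ 43 * 2 ^ j * (C.f : ℤ)) + (2 * (5 * 2 ^ 41 * (C.K.d (j + 1) t : ℤ)) + ((-1) * (5 * 2 ^ 42 * (F.d j t : ℤ)) + (0))) : ℤ) rfl rfl ?_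
  linarith only [z.ex, z.eK, z.eW, f3DF C]

theorem li14 (C : SIC α (rowsOf fam) [] r 4 8 n R k F j t) (g bK bW : ℤ) (hG : GOK C g bK bW) :
    0 ≤ dot (f [(2, -4), (3, 4), (6, 1), (24, -1), (27, 2)]) (pt C g bK bW) := by
  have z := siz C
  have hd0 := C.dim
  refine lin_q ((-4) * (5 * 2 ^ 41 * 2 ^ j * (C.A.x : ℤ)) + (4 * (5 * 2 ^ 41 * 2 ^ j * (C.P.x : ℤ)) + (1 * (5 * 2 ^ 43 * 2 ^ j * (C.fK : ℤ)) + ((-1) * (5 * 2 ^ 42 * (C.K.d j t : ℤ)) + (2 * (5 * 2 ^ 41 * (C.A.d (j + 1) t : ℤ)) + (0))))) : ℤ) rfl rfl ?_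
  linarith only [z.ex, z.eK, z.eW, f4DKt C]

theorem li16 (C : SIC α (rowsOf fam) [] r 4 8 n R k F j t) (g bK bW : ℤ) (hG : GOK C g bK bW) :
    0 ≤ dot (f [(1, 4), (4, -8), (7, 1), (26, -1), (29, 2)]) (pt C g bK bW) := by
  have z := siz C
  have hd0 := C.dim
  refine lin_q (4 * (5 * 2 ^ 41 * 2 ^ j * (C.W.x : ℤ)) + ((-8) * (5 * 2 ^ 41 * 2 ^ j * (C.W2.x : ℤ)) + (1 * (5 * 2 ^ 43 * 2 ^ j * (C.fW : ℤ)) + ((-1) * (5 * 2 ^ 41 * (C.W.d (j + 1) t : ℤ)) + (2 * (5 * 2 ^ 40 * (C.W2.d (j + 2) t : ℤ)) + (0))))) : ℤ) rfl rfl ?_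
  linarith only [z.ex, z.eK, z.eW, f4DWh C]

theorem li18 (C : SIC α (rowsOf fam) [] r 4 8 n R k F j t) (g bK bW : ℤ) (hG : GOK C g bK bW) :
    0 ≤ dot (f [(0, 1), (2, -1)]) (pt C g bK bW) := by
  have z := siz C
  have hd0 := C.dim
  refine lin_q (1 * (5 * 2 ^ 43 * 2 ^ j * 2 ^ R) + ((-1) * (5 * 2 ^ 41 * 2 ^ j * (C.A.x : ℤ)) + (0)) : ℤ) rfl rfl ?_
  linarith only [z.ex, z.eK, z.eW, (ztu C), fbZK2 C, (ztl C), z.hi, frZK2 C, z.le2]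

theorem li20 (C : SIC α (rowsOf fam) [] r 4 8 n R k F j t) (g bK bW : ℤ) (hG : GOK C g bK bW) :
    0 ≤ dot (f [(0, 1), (4, -1)]) (pt C g bK bW) := by
  have z := siz C
  have hd0 := C.dim
  refine lin_q (1 * (5 * 2 ^ 43 * 2 ^ j * 2 ^ R) + ((-1) * (5 * 2 ^ 41 * 2 ^ j * (C.W2.x : ℤ)) + (0)) : ℤ) rfl rfl ?_
  linarith only [z.ex, z.eK, z.eW, (ztu C), (ztl C), z.le1, z.hi, z.le3]

theorem li22 (C : SIC α (rowsOf fam) [] r 4 8 n R k F j t) (g bK bW : ℤ) (hG : GOK C g bK bW) :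
    0 ≤ dot (f [(0, 1), (6, -1)]) (pt C g bK bW) := by
  have z := siz C
  have hd0 := C.dim
  refine lin_q (1 * (5 * 2 ^ 43 * 2 ^ j * 2 ^ R) + ((-1) * (5 * 2 ^ 43 * 2 ^ j * (C.fK : ℤ)) + (0)) : ℤ) rfl rfl ?_
  linarith only [z.ex, z.eK, z.eW, z.le3, z.hi, z.f2, z.b0, z.le2]

theorem li24 (C : SIC α (rowsOf fam) [] r 4 8 n R k F j t) (g bK bW : ℤ) (hG : GOK C g bK bW) :
    0 ≤ dot (f [(0, 4), (8, -1)]) (pt C g bK bW) := by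
  have z := siz C
  have hd0 := C.dim
  refine lin_q (4 * (5 * 2 ^ 43 * 2 ^ j * 2 ^ R) + ((-1) * (5 * 2 ^ 43 * (t : ℤ)) + (0)) : ℤ) rfl rfl ?_
  linarith only [z.ex, z.eK, z.eW, (ztu C), (ztl C), z.hi]

theorem li26 (C : SIC α (rowsOf fam) [] r 4 8 n R k F j t) (g bK bW : ℤ) (hG : GOK C g bK bW) :
    0 ≤ dot (f [(0, 8), (10, -1)]) (pt C g bK bW) := by
  have z := siz C
  have hd0 := C.dim
  refine lin_q (8 * (5 * 2 ^ 43 * 2 ^ j * 2 ^ R) + ((-1) * (5 * 2 ^ 43 * 2 ^ j * MM R C.K) + (0)) : ℤ) rfl rfl ?_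
  linarith only [z.ex, z.eK, z.eW, z.hi, hG.goal, fmF C, fbZW2 C, flW C, (ztu C), fyF C, fyW C, (ztl C), frh1 C, gyW C, frZF1 C, frZF2 C, ftDF C, frZW2 C, z.h1, z.le2, fqF C, frh2 C, (zero_le_one : (0 : ℤ) ≤ 1)]

theorem li28 (C : SIC α (rowsOf fam) [] r 4 8 n R k F j t) (g bK bW : ℤ) (hG : GOK C g bK bW) :
    0 ≤ dot (f [(0, 10), (12, -1)]) (pt C g bK bW) := by
  have z := siz C
  have hd0 := C.dim
  refine lin_q (10 * (5 * 2 ^ 43 * 2 ^ j * 2 ^ R) + ((-1) * (5 * 2 ^ 43 * 2 ^ j * MM R C.P) + (0)) : ℤ) rfl rfl ?_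
  linarith only [z.ex, z.eK, z.eW, z.hi, hG.goal, flA C, fmF C, fmK C, ftDF C, flW C, (ztu C), fyA C, fyF C, fyW C, (ztl C), gyA C, frh1 C, gyW C, frZF1 C, frZF2 C, frZK1 C, fbZK1 C, z.h1, z.le2, z.fK0, fqF C, frh2 C, (zero_le_one : (0 : ℤ) ≤ 1)]

theorem li30 (C : SIC α (rowsOf fam) [] r 4 8 n R k F j t) (g bK bW : ℤ) (hG : GOK C g bK bW) :
    0 ≤ dot (f [(0, 10), (14, -1)]) (pt C g bK bW) := by
  have z := siz C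
  have hd0 := C.dim
  refine lin_q (10 * (5 * 2 ^ 43 * 2 ^ j * 2 ^ R) + ((-1) * (5 * 2 ^ 43 * 2 ^ j * MM R C.W1) + (0)) : ℤ) rfl rfl ?_
  linarith only [z.ex, z.eK, z.eW, z.hi, hG.goal, ftDF C, flK C, fmF C, fbZW2 C, flW2 C, (ztu C), fyF C, fyK C, fyW2 C, (ztl C), frh1 C, gyK C, gyW2 C, frZF1 C, frZF2 C, z.le3, frZW2 C, z.h1, fmW C, z.le2, z.fW0, fqF C, frh2 C, (zero_le_one : (0 : ℤ) ≤ 1)]

theorem li32 (C : SIC α (rowsOf fam) [] r 4 8 n R k F j t) (g bK bW : ℤ) (hG : GOK C g bK bW) :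
    0 ≤ dot (f [(0, 1), (16, -1)]) (pt C g bK bW) := by
  have z := siz C
  have hd0 := C.dim
  refine lin_q (1 * (5 * 2 ^ 43 * 2 ^ j * 2 ^ R) + ((-1) * (5 * 2 ^ 42 * 2 ^ j * QQ R C.K.x) + (0)) : ℤ) rfl rfl ?_
  linarith only [z.ex, z.eK, z.eW, (ztu C), fqK C, fbZK2 C, z.le1, frZK2 C]

theorem li34 (C : SIC α (rowsOf fam) [] r 4 8 n R k F j t) (g bK bW : ℤ) (hG : GOK C g bK bW) :
    0 ≤ dot (f [(0, 1), (18, -1)]) (pt C g bK bW) := by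
  have z := siz C
  have hd0 := C.dim
  refine lin_q (1 * (5 * 2 ^ 43 * 2 ^ j * 2 ^ R) + ((-1) * (5 * 2 ^ 42 * 2 ^ j * QQ R C.A.x) + (0)) : ℤ) rfl rfl ?_
  linarith only [z.ex, z.eK, z.eW, (ztu C), fqA C, fbZK2 C, z.le1, frZK2 C]

theorem li36 (C : SIC α (rowsOf fam) [] r 4 8 n R k F j t) (g bK bW : ℤ) (hG : GOK C g bK bW) :
    0 ≤ dot (f [(0, 1), (20, -1)]) (pt C g bK bW) := by
  have z := siz C
  have hd0 := C.dim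
  refine lin_q (1 * (5 * 2 ^ 43 * 2 ^ j * 2 ^ R) + ((-1) * (5 * 2 ^ 42 * 2 ^ j * QQ R C.W2.x) + (0)) : ℤ) rfl rfl ?_
  linarith only [z.ex, z.eK, z.eW, (ztu C), fqW2 C, fbZK2 C, z.le1, frZK2 C]

theorem li38 (C : SIC α (rowsOf fam) [] r 4 8 n R k F j t) (g bK bW : ℤ) (hG : GOK C g bK bW) :
    0 ≤ dot (f [(0, 2), (22, -1)]) (pt C g bK bW) := by
  have z := siz C
  have hd0 := C.dim
  refine lin_q (2 * (5 * 2 ^ 43 * 2 ^ j * 2 ^ R) + ((-1) * (5 * 2 ^ 19 * 2 ^ j * YY R C.K.x) + (0)) : ℤ) rfl rfl ?_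
  linarith only [z.ex, z.eK, z.eW, (ztu C), fyK C, fbZK2 C, fqK C, z.le1, frZK2 C]

theorem li40 (C : SIC α (rowsOf fam) [] r 4 8 n R k F j t) (g bK bW : ℤ) (hG : GOK C g bK bW) :
    0 ≤ dot (f [(0, 2), (24, -1)]) (pt C g bK bW) := by
  have z := siz C
  have hd0 := C.dim
  refine lin_q (2 * (5 * 2 ^ 43 * 2 ^ j * 2 ^ R) + ((-1) * (5 * 2 ^ 42 * (C.K.d j t : ℤ)) + (0)) : ℤ) rfl rfl ?_
  linarith only [z.ex, z.eK, z.eW, z.f1, z.hi, z.f0, ftDKt C]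

theorem li42 (C : SIC α (rowsOf fam) [] r 4 8 n R k F j t) (g bK bW : ℤ) (hG : GOK C g bK bW) :
    0 ≤ dot (f [(0, 1), (26, -1)]) (pt C g bK bW) := by
  have z := siz C
  have hd0 := C.dim
  refine lin_q (1 * (5 * 2 ^ 43 * 2 ^ j * 2 ^ R) + ((-1) * (5 * 2 ^ 41 * (C.W.d (j + 1) t : ℤ)) + (0)) : ℤ) rfl rfl ?_
  linarith only [z.ex, z.eK, z.eW, z.le1, z.hi, ftDWh C]

theorem li44 (C : SIC α (rowsOf fam) [] r 4 8 n R k F j t) (g bK bW : ℤ) (hG : GOK C g bK bW) :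
    0 ≤ dot (f [(0, 1), (28, -1)]) (pt C g bK bW) := by
  have z := siz C
  have hd0 := C.dim
  refine lin_q (1 * (5 * 2 ^ 43 * 2 ^ j * 2 ^ R) + ((-1) * (5 * 2 ^ 41 * (C.W1.d (j + 1) t : ℤ)) + (0)) : ℤ) rfl rfl ?_
  linarith only [z.ex, z.eK, z.eW, z.hi, z.f1, z.h2, ftDW1h C]

theorem li46 (C : SIC α (rowsOf fam) [] r 4 8 n R k F j t) (g bK bW : ℤ) (hG : GOK C g bK bW) :
    0 ≤ dot (f [(0, 2), (30, -1)]) (pt C g bK bW) := by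
  have z := siz C
  have hd0 := C.dim
  refine lin_q (2 * (5 * 2 ^ 43 * 2 ^ j * 2 ^ R) + ((-1) * (5 * 2 ^ 42 * (F.d j t : ℤ)) + (0)) : ℤ) rfl rfl ?_
  linarith only [z.ex, z.eK, z.eW, z.hi, ftDF C]

theorem li48 (C : SIC α (rowsOf fam) [] r 4 8 n R k F j t) (g bK bW : ℤ) (hG : GOK C g bK bW) :
    0 ≤ dot (f [(0, 1), (33, -1)]) (pt C g bK bW) := by
  have z := siz C
  have hd0 := C.dim
  have hone : (1 : ℤ) ≤ 5 * 2 ^ 43 * 2 ^ j * 2 ^ R := by linarith only [z.U1]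
  refine lin_q (1 * (5 * 2 ^ 43 * 2 ^ j * 2 ^ R) + ((-1) * (1) + (0)) : ℤ) rfl rfl ?_
  linarith only [z.ex, z.eK, z.eW, hone]

theorem li50 (C : SIC α (rowsOf fam) [] r 4 8 n R k F j t) (g bK bW : ℤ) (hG : GOK C g bK bW) :
    0 ≤ dot (f [(0, 1), (35, -1)]) (pt C g bK bW) := by
  have z := siz C
  have hd0 := C.dim
  refine lin_q (1 * (5 * 2 ^ 43 * 2 ^ j * 2 ^ R) + ((-1) * (5 * 2 ^ 40 * max 0 (2 ^ j * (8 * (F.x : ℤ)) - 8 * (t : ℤ))) + (0)) : ℤ) rfl rfl ?_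
  linarith only [z.ex, z.eK, z.eW, fbZF2 C]

theorem li52 (C : SIC α (rowsOf fam) [] r 4 8 n R k F j t) (g bK bW : ℤ) (hG : GOK C g bK bW) :
    0 ≤ dot (f [(0, 1), (37, -1)]) (pt C g bK bW) := by
  have z := siz C
  have hd0 := C.dim
  refine lin_q (1 * (5 * 2 ^ 43 * 2 ^ j * 2 ^ R) + ((-1) * (5 * 2 ^ 40 * max 0 (2 ^ j * (6 * (C.K.x : ℤ)) - 4 * (t : ℤ))) + (0)) : ℤ) rfl rfl ?_
  linarith only [z.ex, z.eK, z.eW, fbZK1 C]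

theorem li54 (C : SIC α (rowsOf fam) [] r 4 8 n R k F j t) (g bK bW : ℤ) (hG : GOK C g bK bW) :
    0 ≤ dot (f [(0, 1), (39, -1)]) (pt C g bK bW) := by
  have z := siz C
  have hd0 := C.dim
  refine lin_q (1 * (5 * 2 ^ 43 * 2 ^ j * 2 ^ R) + ((-1) * (5 * 2 ^ 40 * max 0 (2 ^ j * (4 * (C.W.x : ℤ)) - 4 * (t : ℤ))) + (0)) : ℤ) rfl rfl ?_
  linarith only [z.ex, z.eK, z.eW, (ztu C), fbZK2 C, z.le1, fbZW0 C, frZK2 C]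

theorem li56 (C : SIC α (rowsOf fam) [] r 4 8 n R k F j t) (g bK bW : ℤ) (hG : GOK C g bK bW) :
    0 ≤ dot (f [(0, 1), (41, -1)]) (pt C g bK bW) := by
  have z := siz C
  have hd0 := C.dim
  refine lin_q (1 * (5 * 2 ^ 43 * 2 ^ j * 2 ^ R) + ((-1) * (5 * 2 ^ 40 * max 0 (2 ^ j * (8 * (C.W.x : ℤ)) - 4 * (t : ℤ))) + (0)) : ℤ) rfl rfl ?_
  linarith only [z.ex, z.eK, z.eW, (ztu C), fbZK2 C, z.le1, fbZW2 C, frZK2 C]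

theorem li58 (C : SIC α (rowsOf fam) [] r 4 8 n R k F j t) (g bK bW : ℤ) (hG : GOK C g bK bW) :
    0 ≤ dot (f [(0, 4), (43, -1)]) (pt C g bK bW) := by
  have z := siz C
  have hd0 := C.dim
  refine lin_q (4 * (5 * 2 ^ 43 * 2 ^ j * 2 ^ R) + ((-1) * (2 ^ 30 * (40960 * (2 ^ j * (C.W.x : ℤ)) + 2 ^ j * bW)) + (0)) : ℤ) rfl rfl ?_
  linarith only [z.ex, z.eK, z.eW, fbZW2 C, (ztu C), (ztl C), frZW2 C, z.hi, bhiW hG]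

theorem it1 (C : SIC α (rowsOf fam) [] r 4 8 n R k F j t) (g bK bW : ℤ) :
    (ItemL.cle 12 512 (f [(2, 4), (3, 4), (8, -1), (36, -2)])).Sem sys (pt C g bK bW) := by
  have z := siz C
  have hd0 := C.dim
  intro hc
  rw [fv12, sysGG, pt0] at hc
  push_cast at hc
  have hu : 0 ≤ 2 ^ j * (4 * (C.K.x : ℤ)) - 4 * (t : ℤ) := by linarith only [z.ex, z.eK, z.eW, hc]
  have hf : max 0 (2 ^ j * (4 * (C.K.x : ℤ)) - 4 * (t : ℤ)) ≤ 2 ^ j * (4 * (C.K.x : ℤ)) - 4 * (t : ℤ) := max_le hu (le_refl _)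
  refine lin_q (4 * (5 * 2 ^ 41 * 2 ^ j * (C.A.x : ℤ)) + (4 * (5 * 2 ^ 41 * 2 ^ j * (C.P.x : ℤ)) + ((-1) * (5 * 2 ^ 43 * (t : ℤ)) + ((-2) * (5 * 2 ^ 40 * max 0 (2 ^ j * (4 * (C.K.x : ℤ)) - 4 * (t : ℤ))) + (0)))) : ℤ) rfl rfl ?_
  linarith only [z.ex, z.eK, z.eW, hf]

theorem it3 (C : SIC α (rowsOf fam) [] r 4 8 n R k F j t) (g bK bW : ℤ) :
    (ItemL.cle 13 1024 (f [(2, 6), (3, 6), (8, -1), (37, -2)])).Sem sys (pt C g bK bW) := by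
  have z := siz C
  have hd0 := C.dim
  intro hc
  rw [fv13, sysGG, pt0] at hc
  push_cast at hc
  have hu : 0 ≤ 2 ^ j * (6 * (C.K.x : ℤ)) - 4 * (t : ℤ) := by linarith only [z.ex, z.eK, z.eW, hc]
  have hf : max 0 (2 ^ j * (6 * (C.K.x : ℤ)) - 4 * (t : ℤ)) ≤ 2 ^ j * (6 * (C.K.x : ℤ)) - 4 * (t : ℤ) := max_le hu (le_refl _)
  refine lin_q (6 * (5 * 2 ^ 41 * 2 ^ j * (C.A.x : ℤ)) + (6 * (5 * 2 ^ 41 * 2 ^ j * (C.P.x : ℤ)) + ((-1) * (5 * 2 ^ 43 * (t : ℤ)) + ((-2) * (5 * 2 ^ 40 * max 0 (2 ^ j * (6 * (C.K.x : ℤ)) - 4 * (t : ℤ))) + (0)))) : ℤ) rfl rfl ?_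
  linarith only [z.ex, z.eK, z.eW, hf]

theorem it5 (C : SIC α (rowsOf fam) [] r 4 8 n R k F j t) (g bK bW : ℤ) :
    (ItemL.cge 15 0 (f [(39, -1)])).Sem sys (pt C g bK bW) := by
  have z := siz C
  have hd0 := C.dim
  intro hc
  rw [fv15, sysGG, pt0] at hc
  push_cast at hc
  have hu : 2 ^ j * (4 * (C.W.x : ℤ)) - 4 * (t : ℤ) ≤ 0 := by linarith only [z.ex, z.eK, z.eW, hc]
  have hf : max 0 (2 ^ j * (4 * (C.W.x : ℤ)) - 4 * (t : ℤ)) ≤ 0 := max_le (le_refl 0) hu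
  refine lin_q ((-1) * (5 * 2 ^ 40 * max 0 (2 ^ j * (4 * (C.W.x : ℤ)) - 4 * (t : ℤ))) + (0) : ℤ) rfl rfl ?_
  linarith only [z.ex, z.eK, z.eW, hf]

theorem it7 (C : SIC α (rowsOf fam) [] r 4 8 n R k F j t) (g bK bW : ℤ) :
    (ItemL.cle 16 512 (f [(1, 6), (8, -1), (40, -2)])).Sem sys (pt C g bK bW) := by
  have z := siz C
  have hd0 := C.dim
  intro hc
  rw [fv16, sysGG, pt0] at hc
  push_cast at hc
  have hu : 0 ≤ 2 ^ j * (6 * (C.W.x : ℤ)) - 4 * (t : ℤ) := by linarith only [z.ex, z.eK, z.eW, hc]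
  have hf : max 0 (2 ^ j * (6 * (C.W.x : ℤ)) - 4 * (t : ℤ)) ≤ 2 ^ j * (6 * (C.W.x : ℤ)) - 4 * (t : ℤ) := max_le hu (le_refl _)
  refine lin_q (6 * (5 * 2 ^ 41 * 2 ^ j * (C.W.x : ℤ)) + ((-1) * (5 * 2 ^ 43 * (t : ℤ)) + ((-2) * (5 * 2 ^ 40 * max 0 (2 ^ j * (6 * (C.W.x : ℤ)) - 4 * (t : ℤ))) + (0))) : ℤ) rfl rfl ?_
  linarith only [z.ex, z.eK, z.eW, hf]

theorem it9 (C : SIC α (rowsOf fam) [] r 4 8 n R k F j t) (g bK bW : ℤ) :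
    (ItemL.cle 17 512 (f [(1, 8), (8, -1), (41, -2)])).Sem sys (pt C g bK bW) := by
  have z := siz C
  have hd0 := C.dim
  intro hc
  rw [fv17, sysGG, pt0] at hc
  push_cast at hc
  have hu : 0 ≤ 2 ^ j * (8 * (C.W.x : ℤ)) - 4 * (t : ℤ) := by linarith only [z.ex, z.eK, z.eW, hc]
  have hf : max 0 (2 ^ j * (8 * (C.W.x : ℤ)) - 4 * (t : ℤ)) ≤ 2 ^ j * (8 * (C.W.x : ℤ)) - 4 * (t : ℤ) := max_le hu (le_refl _)
  refine lin_q (8 * (5 * 2 ^ 41 * 2 ^ j * (C.W.x : ℤ)) + ((-1) * (5 * 2 ^ 43 * (t : ℤ)) + ((-2) * (5 * 2 ^ 40 * max 0 (2 ^ j * (8 * (C.W.x : ℤ)) - 4 * (t : ℤ))) + (0))) : ℤ) rfl rfl ?_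
  linarith only [z.ex, z.eK, z.eW, hf]

theorem it11 (C : SIC α (rowsOf fam) [] r 4 8 n R k F j t) (g bK bW : ℤ) :
    (ItemL.gate 0 768 1024 (.cle 8 48 (f [(1, -67), (2, -61), (3, -61), (21, -16), (22, 16), (23, 16)]))).Sem sys (pt C g bK bW) := by
  have z := siz C
  have hd0 := C.dim
  intro hg1 hg2
  rw [fv0, sysGG, pt0] at hg1 hg2
  push_cast at hg1 hg2
  intro hc
  rw [fv8, sysGG, pt0] at hc
  push_cast at hc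
  have hu : 16 * (2 ^ j * (C.K.x : ℤ) - 2 ^ j * (C.W.x : ℤ)) ≤ 2 ^ j * (F.x : ℤ) := by linarith only [z.ex, z.eK, z.eW, hg1, hc]
  have hf : 2 ^ 24 * (512 * (2 ^ j * (C.W.x : ℤ)) + 244 * (2 ^ j * (C.K.x : ℤ) - 2 ^ j * (C.W.x : ℤ))) ≤
    256 * (2 ^ j * YY R C.K.x + 2 ^ j * YY R C.W.x - 2 ^ j * YY R F.x) := nearZ16 C.mF hu
  refine lin_q ((-67) * (5 * 2 ^ 41 * 2 ^ j * (C.W.x : ℤ)) + ((-61) * (5 * 2 ^ 41 * 2 ^ j * (C.A.x : ℤ)) + ((-61) * (5 * 2 ^ 41 * 2 ^ j * (C.P.x : ℤ)) + ((-16) * (5 * 2 ^ 19 * 2 ^ j * YY R F.x) + (16 * (5 * 2 ^ 19 * 2 ^ j * YY R C.K.x) + (16 * (5 * 2 ^ 19 * 2 ^ j * YY R C.W.x) + (0)))))) : ℤ) rfl rfl ?_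
  linarith only [z.ex, z.eK, z.eW, hf]

theorem it13 (C : SIC α (rowsOf fam) [] r 4 8 n R k F j t) (g bK bW : ℤ) (hk : 5 ≤ k) (hG : GOK C g bK bW) :
    (ItemL.gate 2 0 512 (.cge 2 256 (f [(2, 23), (3, 23), (42, -10)]))).Sem sys (pt C g bK bW) := by
  have z := siz C
  have hd0 := C.dim
  intro hg1 hg2
  rw [fv2, sysGG, pt0] at hg1 hg2
  push_cast at hg1 hg2
  intro hc
  rw [fv2, sysGG, pt0] at hc
  push_cast at hc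
  have h2 : 2 ^ 1 * (2 ^ j * (C.K.x : ℤ)) ≤ 2 * (2 ^ j * 2 ^ R) := by linarith only [z.ex, z.eK, z.eW, hg2]
  have hf : 2 ^ j * bK ≤ 32 * (-544) * (2 ^ j * (C.K.x : ℤ)) := hG.K.plZ (lev := 4) (i := 1) (show n + 1 = R + (n + 1 - R) by omega) (by omega) (by decide) (by decide) (by decide) (by decide) (by linarith only [h2]) (by rw [shc]; norm_num)
  refine lin_q (23 * (5 * 2 ^ 41 * 2 ^ j * (C.A.x : ℤ)) + (23 * (5 * 2 ^ 41 * 2 ^ j * (C.P.x : ℤ)) + ((-10) * (2 ^ 30 * (40960 * (2 ^ j * (C.K.x : ℤ)) + 2 ^ j * bK)) + (0))) : ℤ) rfl rfl ?_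
  linarith only [z.ex, z.eK, z.eW, hf]

theorem it15 (C : SIC α (rowsOf fam) [] r 4 8 n R k F j t) (g bK bW : ℤ) :
    (ItemL.tl 2 18 1 2 (f [(16, 2)]) 4096 4096 8 tbgU 1025).Sem sys (pt C g bK bW) := by
  have z := siz C
  have hd0 := C.dim
  refine gU_k (κ := 5 * 2 ^ 43 * 2 ^ j) (R := R) (X := C.K.x) (kpos j) rfl rfl (fv2 C g bK bW) (z_xsK C) ?_ (by norm_num)
  rw [fe_q (2 * (5 * 2 ^ 42 * 2 ^ j * QQ R C.K.x) + (0) : ℤ) rfl rfl]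
  push_cast
  ring

theorem it17 (C : SIC α (rowsOf fam) [] r 4 8 n R k F j t) (g bK bW : ℤ) :
    (ItemL.tl 1 18 1 2 (f [(17, 2)]) 4096 4096 8 tbgU 1025).Sem sys (pt C g bK bW) := by
  have z := siz C
  have hd0 := C.dim
  refine gU_k (κ := 5 * 2 ^ 43 * 2 ^ j) (R := R) (X := C.W.x) (kpos j) rfl rfl (fv1 C g bK bW) (z_xsW C) ?_ (by norm_num)
  rw [fe_q (2 * (5 * 2 ^ 42 * 2 ^ j * QQ R C.W.x) + (0) : ℤ) rfl rfl]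
  push_cast
  ring

theorem it19 (C : SIC α (rowsOf fam) [] r 4 8 n R k F j t) (g bK bW : ℤ) :
    (ItemL.tl 3 18 1 2 (f [(18, 2)]) 4096 4096 8 tbgU 1025).Sem sys (pt C g bK bW) := by
  have z := siz C
  have hd0 := C.dim
  refine gU_k (κ := 5 * 2 ^ 43 * 2 ^ j) (R := R) (X := C.A.x) (kpos j) rfl rfl (fv3 C g bK bW) (z_xsA C) ?_ (by norm_num)
  rw [fe_q (2 * (5 * 2 ^ 42 * 2 ^ j * QQ R C.A.x) + (0) : ℤ) rfl rfl]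
  push_cast
  ring

theorem it21 (C : SIC α (rowsOf fam) [] r 4 8 n R k F j t) (g bK bW : ℤ) :
    (ItemL.tl 5 18 1 2 (f [(20, 2)]) 4096 4096 8 tbgU 1025).Sem sys (pt C g bK bW) := by
  have z := siz C
  have hd0 := C.dim
  refine gU_k (κ := 5 * 2 ^ 43 * 2 ^ j) (R := R) (X := C.W2.x) (kpos j) rfl rfl (fv5 C g bK bW) (z_xsW2 C) ?_ (by norm_num)
  rw [fe_q (2 * (5 * 2 ^ 42 * 2 ^ j * QQ R C.W2.x) + (0) : ℤ) rfl rfl]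
  push_cast
  ring

theorem it23 (C : SIC α (rowsOf fam) [] r 4 8 n R k F j t) (g bK bW : ℤ) (hk : 5 ≤ k) (hn : 1 ≤ n) :
    (ItemL.gate 2 512 1024 (.tt 2 9 8 16 (f [(0, -2), (2, 4), (3, 4), (10, 1)]) (f [(2, 8)]) 3584 7168 128 2 112 tbH4_1 129)).Sem sys (pt C g bK bW) := by
  have z := siz C
  have hd0 := C.dim
  have hlv : R ≤ n + 1 + 0 := by omega
  refine octt_k (κ := 5 * 2 ^ 43 * 2 ^ j) (c := 43 + j) (R := R) (rc := 56) (i := 0) (mm := 5) (by norm_num) (kp j) small_tbH4_1 rows_tbH4_1 rfl rfl (z_atK C) (by omega) (fv2 C g bK bW) (le_of_eq (fv9 C g bK bW).symm) hlv (by show _; omega) (by norm_num)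
    (by norm_num) (by norm_num) (by norm_num) ?_ ?_ (by norm_num) (by norm_num)
  · rw [fe_q ((-2) * (5 * 2 ^ 43 * 2 ^ j * 2 ^ R) + (4 * (5 * 2 ^ 41 * 2 ^ j * (C.A.x : ℤ)) + (4 * (5 * 2 ^ 41 * 2 ^ j * (C.P.x : ℤ)) + (1 * (5 * 2 ^ 43 * 2 ^ j * MM R C.K) + (0)))) : ℤ) rfl rfl]
    norm_num1
    linarith only [z.ex, z.eK, z.eW]
  · rw [fe_q (8 * (5 * 2 ^ 41 * 2 ^ j * (C.A.x : ℤ)) + (0) : ℤ) rfl rfl]
    norm_num1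
    linarith only [z.ex, z.eK, z.eW]

theorem it25 (C : SIC α (rowsOf fam) [] r 4 8 n R k F j t) (g bK bW : ℤ) (hk : 5 ≤ k) (hn : 1 ≤ n) :
    (ItemL.gate 2 256 512 (.tt 2 9 4 8 (f [(0, -1), (10, 1)]) (f [(2, 8)]) 7168 14336 256 2 112 tbG5_1 129)).Sem sys (pt C g bK bW) := by
  have z := siz C
  have hd0 := C.dim
  have hlv : R ≤ n + 1 + 1 := by omega
  refine octt_k (κ := 5 * 2 ^ 43 * 2 ^ j) (c := 43 + j) (R := R) (rc := 56) (i := 1) (mm := 5) (by norm_num) (kp j) small_tbG5_1 rows_tbG5_1 rfl rfl (z_atK C) (by omega) (fv2 C g bK bW) (le_of_eq (fv9 C g bK bW).symm) hlv (by show _; omega) (by norm_num)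
    (by norm_num) (by norm_num) (by norm_num) ?_ ?_ (by norm_num) (by norm_num)
  · rw [fe_q ((-1) * (5 * 2 ^ 43 * 2 ^ j * 2 ^ R) + (1 * (5 * 2 ^ 43 * 2 ^ j * MM R C.K) + (0)) : ℤ) rfl rfl]
    norm_num1
    linarith only [z.ex, z.eK, z.eW]
  · rw [fe_q (8 * (5 * 2 ^ 41 * 2 ^ j * (C.A.x : ℤ)) + (0) : ℤ) rfl rfl]
    norm_num1
    linarith only [z.ex, z.eK, z.eW]

theorem it27 (C : SIC α (rowsOf fam) [] r 4 8 n R k F j t) (g bK bW : ℤ) (hk : 5 ≤ k) (hn : 1 ≤ n) :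
    (ItemL.gate 1 256 512 (.tt 1 10 4 8 (f [(0, -1), (11, 1)]) (f [(4, 8)]) 7168 7168 256 2 56 tbG5_0 129)).Sem sys (pt C g bK bW) := by
  have z := siz C
  have hd0 := C.dim
  have hlv : R ≤ n + 1 + 1 := by omega
  refine octt_k (κ := 5 * 2 ^ 43 * 2 ^ j) (c := 43 + j) (R := R) (rc := 28) (i := 1) (mm := 5) (by norm_num) (kp j) small_tbG5_0 rows_tbG5_0 rfl rfl (z_atW C) (by omega) (fv1 C g bK bW) (le_of_eq (fv10 C g bK bW).symm) hlv (by show _; omega) (by norm_num)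
    (by norm_num) (by norm_num) (by norm_num) ?_ ?_ (by norm_num) (by norm_num)
  · rw [fe_q ((-1) * (5 * 2 ^ 43 * 2 ^ j * 2 ^ R) + (1 * (5 * 2 ^ 43 * 2 ^ j * MM R C.W) + (0)) : ℤ) rfl rfl]
    norm_num1
    linarith only [z.ex, z.eK, z.eW]
  · rw [fe_q (8 * (5 * 2 ^ 41 * 2 ^ j * (C.W2.x : ℤ)) + (0) : ℤ) rfl rfl]
    norm_num1
    linarith only [z.ex, z.eK, z.eW]

theorem it29 (C : SIC α (rowsOf fam) [] r 4 8 n R k F j t) (g bK bW : ℤ) (hk : 5 ≤ k) (hn : 1 ≤ n) :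
    (ItemL.gate 4 256 512 (.tt 4 11 4 8 (f [(0, -1), (12, 1)]) (f [(2, 4), (6, -1)]) 7168 14336 256 2 112 tbH4_1 129)).Sem sys (pt C g bK bW) := by
  have z := siz C
  have hd0 := C.dim
  have hlv : R ≤ n + 1 := by omega
  refine octt_k (κ := 5 * 2 ^ 43 * 2 ^ j) (c := 43 + j) (R := R) (rc := 56) (i := 1) (mm := 5) (by norm_num) (kp j) small_tbH4_1 rows_tbH4_1 rfl rfl (z_atP C hn) (by omega) (fv4 C g bK bW) (le_of_eq (fv11 C g bK bW).symm) hlv (by show _; omega) (by norm_num)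
    (by norm_num) (by norm_num) (by norm_num) ?_ ?_ (by norm_num) (by norm_num)
  · rw [fe_q ((-1) * (5 * 2 ^ 43 * 2 ^ j * 2 ^ R) + (1 * (5 * 2 ^ 43 * 2 ^ j * MM R C.P) + (0)) : ℤ) rfl rfl]
    norm_num1
    linarith only [z.ex, z.eK, z.eW]
  · rw [fe_q (4 * (5 * 2 ^ 41 * 2 ^ j * (C.A.x : ℤ)) + ((-1) * (5 * 2 ^ 43 * 2 ^ j * (C.fK : ℤ)) + (0)) : ℤ) rfl rfl]
    norm_num1
    linarith only [z.ex, z.eK, z.eW]

theorem it31 (C : SIC α (rowsOf fam) [] r 4 8 n R k F j t) (g bK bW : ℤ) (hk : 5 ≤ k) (hn : 1 ≤ n) :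
    (ItemL.tt 0 19 8 16 (f [(0, -2), (1, 4), (2, 4), (3, 4), (9, 1)]) (f [(1, 8)]) 3584 7168 128 2 112 tbG5_1 129).Sem sys (pt C g bK bW) := by
  have z := siz C
  have hd0 := C.dim
  have hlv : R ≤ n + 2 + 0 := by omega
  have key := octt_k (S := sys) (x := pt C g bK bW) (κ := 5 * 2 ^ 43 * 2 ^ j) (c := 43 + j) (R := R) (rc := 56) (i := 0) (ga := 512) (gb := 1024) (ex := 0) (eg := 19) (hx := 8) (cg := 16) (L := f [(0, -2), (1, 4), (2, 4), (3, 4), (9, 1)]) (U := f [(1, 8)]) (FL := 3584) (Fx := 128) (FT := 2) (FU := 7168) (cb := 112) (mm := 5) (by norm_num) (kp j) small_tbG5_1 rows_tbG5_1 rfl rfl (z_atF C) (by omega) (fv0 C g bK bW) (le_of_eq (fv19 C g bK bW).symm) hlv (by show _; omega) (by norm_num) (by norm_num) (by norm_num) (by norm_num) ?_ ?_ (by norm_num) (by norm_num)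
  · refine key ?_ ?_
    · rw [fv0, sysGG, pt0]; push_cast; linarith only [z.lo]
    · rw [fv0, sysGG, pt0]; push_cast; linarith only [z.hi]
  · rw [fe_q ((-2) * (5 * 2 ^ 43 * 2 ^ j * 2 ^ R) + (4 * (5 * 2 ^ 41 * 2 ^ j * (C.W.x : ℤ)) + (4 * (5 * 2 ^ 41 * 2 ^ j * (C.A.x : ℤ)) + (4 * (5 * 2 ^ 41 * 2 ^ j * (C.P.x : ℤ)) + (1 * (5 * 2 ^ 43 * 2 ^ j * MM R F) + (0))))) : ℤ) rfl rfl]
    norm_num1
    linarith only [z.ex, z.eK, z.eW]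
  · rw [fe_q (8 * (5 * 2 ^ 41 * 2 ^ j * (C.W.x : ℤ)) + (0) : ℤ) rfl rfl]
    norm_num1
    linarith only [z.ex, z.eK, z.eW]

theorem it33 (C : SIC α (rowsOf fam) [] r 4 8 n R k F j t) (g bK bW : ℤ) :
    (ItemL.ts 2 32 (f [(2, 4), (3, 4), (10, 1), (16, -2), (24, -1)]) 20480 256 16 tbTTc 33 8 64 [(7, 1, 8, 1)] tbTAc 2).Sem sys (pt C g bK bW) := by
  have z := siz C
  have hd0 := C.dim
  refine tsc_k (κ := 5 * 2 ^ 43 * 2 ^ j) (R := R) (J := j) (t := t) (a0 := 40) (v0 := 8) (dv := 5 * 2 ^ 42 * (C.K.d j t : ℤ)) (kpos j) rfl rfl C.kK' (fun s X h1 h2 => C.ih s X (by omega) h2) (fv2 C g bK bW) (by rw [fv7]; exact le_of_eq (by ring)) (z_xsK C) (by norm_num) (by ring) ?_ chkTc1 chkTc2 chkTc3 chkTc4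
  refine (fe_q (4 * (5 * 2 ^ 41 * 2 ^ j * (C.A.x : ℤ)) + (4 * (5 * 2 ^ 41 * 2 ^ j * (C.P.x : ℤ)) + (1 * (5 * 2 ^ 43 * 2 ^ j * MM R C.K) + ((-2) * (5 * 2 ^ 42 * 2 ^ j * QQ R C.K.x) + ((-1) * (5 * 2 ^ 42 * (C.K.d j t : ℤ)) + (0))))) : ℤ) rfl rfl).trans ?_
  linarith only [z.ex, z.eK, z.eW]

theorem it35 (C : SIC α (rowsOf fam) [] r 4 8 n R k F j t) (g bK bW : ℤ) (hk : 5 ≤ k) :
    (ItemL.ts 2 32 (f [(2, 14), (3, 26), (10, 5), (22, -5), (25, -5)]) 16384 1024 64 tbTF0_4 33 8 64 [(7, 1, 4, 1), (7, 1, 4, 1), (7, 1, 4, 1), (9, 1, 16, 1), (9, 1, 16, 1)] tbTA0 10).Sem sys (pt C g bK bW) := by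
  have z := siz C
  have hd0 := C.dim
  refine tsf_k (κ := 5 * 2 ^ 43 * 2 ^ j) (R := R) (mt := 3) (m := 2) (J := (j + 1)) (t := t) (s := 5) (c0 := SFC) (e := FE) (ah := AH0) (j0 := 0) (δ := (n + 1 - R)) (shapes := famG0) (yv := 5 * 2 ^ 19 * 2 ^ j * YY R C.K.x) (dv := 5 * 2 ^ 41 * (C.K.d (j + 1) t : ℤ)) (kpos j) rfl rfl (z_atK C).fam (z_atK C).vx (fun s X h1 h2 => C.ih s X (by omega) h2) (fv2 C g bK bW) (by rw [fv7]; exact le_of_eq (by rw [pow_add]; push_cast; ring)) (fv9 C g bK bW) (by rw [pow_zero, Nat.one_mul]; exact z_xsK C)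
    (show n + 1 = R + (n + 1 - R) by omega) (by norm_num) (by norm_num) (by norm_num) (by norm_num) (by norm_num) (by ring) (by rw [pow_add]; ring) ?_ (fun s hs => z_row C rfl (by omega) (z_atK C).fam s (mem_famG0 hs)) okG0 chkL_tbTF0_4 (allShpU_spec chkT_tbTF0_4_0 (by norm_num) (by omega))
  rw [fe_q (14 * (5 * 2 ^ 41 * 2 ^ j * (C.A.x : ℤ)) + (26 * (5 * 2 ^ 41 * 2 ^ j * (C.P.x : ℤ)) + (5 * (5 * 2 ^ 43 * 2 ^ j * MM R C.K) + ((-5) * (5 * 2 ^ 19 * 2 ^ j * YY R C.K.x) + ((-5) * (5 * 2 ^ 41 * (C.K.d (j + 1) t : ℤ)) + (0))))) : ℤ) rfl rfl]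
  norm_num1
  linarith only [z.ex, z.eK, z.eW]

theorem it37 (C : SIC α (rowsOf fam) [] r 4 8 n R k F j t) (g bK bW : ℤ) (hk : 5 ≤ k) :
    (ItemL.ts 1 32 (f [(1, 26), (4, -12), (11, 5), (23, -5), (26, -5)]) 16384 1024 64 tbTF0_4 33 8 64 [(7, 1, 4, 1), (7, 1, 4, 1), (7, 1, 4, 1), (10, 1, 16, 1), (10, 1, 16, 1)] tbTA0 10).Sem sys (pt C g bK bW) := by
  have z := siz C
  have hd0 := C.dim
  refine tsf_k (κ := 5 * 2 ^ 43 * 2 ^ j) (R := R) (mt := 3) (m := 2) (J := (j + 1)) (t := t) (s := 5) (c0 := SFC) (e := FE) (ah := AH0) (j0 := 0) (δ := (n + 1 - R)) (shapes := famG0) (yv := 5 * 2 ^ 19 * 2 ^ j * YY R C.W.x) (dv := 5 * 2 ^ 41 * (C.W.d (j + 1) t : ℤ)) (kpos j) rfl rfl (z_atW C).fam (z_atW C).vx (fun s X h1 h2 => C.ih s X (by omega) h2) (fv1 C g bK bW) (by rw [fv7]; exact le_of_eq (by rw [pow_add]; push_cast; ring))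 (fv10 C g bK bW) (by rw [pow_zero, Nat.one_mul]; exact z_xsW C)
    (show n + 1 = R + (n + 1 - R) by omega) (by norm_num) (by norm_num) (by norm_num) (by norm_num) (by norm_num) (by ring) (by rw [pow_add]; ring) ?_ (fun s hs => z_row C rfl (by omega) (z_atW C).fam s (mem_famG0 hs)) okG0 chkL_tbTF0_4 (allShpU_spec chkT_tbTF0_4_0 (by norm_num) (by omega))
  rw [fe_q (26 * (5 * 2 ^ 41 * 2 ^ j * (C.W.x : ℤ)) + ((-12) * (5 * 2 ^ 41 * 2 ^ j * (C.W2.x : ℤ)) + (5 * (5 * 2 ^ 43 * 2 ^ j * MM R C.W) + ((-5) * (5 * 2 ^ 19 * 2 ^ j * YY R C.W.x) + ((-5) * (5 * 2 ^ 41 * (C.W.d (j + 1) t : ℤ)) + (0))))) : ℤ) rfl rfl]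
  norm_num1
  linarith only [z.ex, z.eK, z.eW]

theorem it40 (C : SIC α (rowsOf fam) [] r 4 8 n R k F j t) (g bK bW : ℤ) :
    (ItemL.ts 5 32 (f [(4, 4), (15, 1), (20, -2), (29, -1)]) 20480 256 16 tbTTc 33 8 64 [(7, 1, 2, 1)] tbTAc 2).Sem sys (pt C g bK bW) := by
  have z := siz C
  have hd0 := C.dim
  refine tsc_k (κ := 5 * 2 ^ 43 * 2 ^ j) (R := R) (J := (j + 2)) (t := t) (a0 := 40) (v0 := 8) (dv := 5 * 2 ^ 40 * (C.W2.d (j + 2) t : ℤ)) (kpos j) rfl rfl C.kW2 (fun s X h1 h2 => C.ih s X (by omega) h2) (fv5 C g bK bW) (by rw [fv7]; exact le_of_eq (by rw [pow_add]; ring)) (z_xsW2 C) (by norm_num) (by rw [pow_add]; ring) ?_ chkTc1 chkTc2 chkTc3 chkTc4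
  refine (fe_q (4 * (5 * 2 ^ 41 * 2 ^ j * (C.W2.x : ℤ)) + (1 * (5 * 2 ^ 43 * 2 ^ j * MM R C.W2) + ((-2) * (5 * 2 ^ 42 * 2 ^ j * QQ R C.W2.x) + ((-1) * (5 * 2 ^ 40 * (C.W2.d (j + 2) t : ℤ)) + (0)))) : ℤ) rfl rfl).trans ?_
  linarith only [z.ex, z.eK, z.eW]

theorem it42 (C : SIC α (rowsOf fam) [] r 4 8 n R k F j t) (g bK bW : ℤ) (hG : GOK C g bK bW) :
    (ItemL.ts 1 32 (f [(1, -448), (4, -384), (11, 160), (23, -160), (26, -160), (39, 81), (40, 48), (41, 31), (43, 160)]) 512 1024 64 tbTX 33 8 64 [(10, 1, 16, 1), (10, 1, 16, 1)] tbTY 0).Sem sys (pt C g bK bW) := by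
  have z := siz C
  have hd0 := C.dim
  refine tsb_k (κ := 5 * 2 ^ 43 * 2 ^ j) (R := R) (m := 2) (J := j + 1) (t := t) (s := 160) (c0 := SFC) (e := FE) (ah := AH0) (sh := shp0) (yv := 5 * 2 ^ 19 * 2 ^ j * YY R C.W.x) (dv := 5 * 2 ^ 41 * (C.W.d (j + 1) t : ℤ)) (z := 324 * (5 * 2 ^ 40 * max 0 (2 ^ j * (4 * (C.W.x : ℤ)) - 4 * (t : ℤ))) + 192 * (5 * 2 ^ 40 * max 0 (2 ^ j * (6 * (C.W.x : ℤ)) - 4 * (t : ℤ))) + 124 * (5 * 2 ^ 40 * max 0 (2 ^ j * (8 * (C.W.x : ℤ)) - 4 * (t : ℤ)))) (bkv := 2 ^ 30 * (40960 * (2 ^ j * (C.W.x : ℤ)) + 2 ^ j * bW)) (b := bW) eqTX (kpos j) (z_atW C).fam (fv1 C g bK bW) (fv10 C g bK bW)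
    (by norm_num) (by norm_num) (by ring) (by rw [pow_add]; ring) ?_ ?_ ?_ hG.W rfl rfl rfl rfl okTY
  · have hth : Frame.thsum (Shp.th shp0) (j + 1) t (C.W.x : ℤ) = 2 * (324 * max 0 (2 ^ j * (4 * (C.W.x : ℤ)) - 4 * (t : ℤ))) + 2 * (192 * max 0 (2 ^ j * (6 * (C.W.x : ℤ)) - 4 * (t : ℤ))) + 2 * (124 * max 0 (2 ^ j * (8 * (C.W.x : ℤ)) - 4 * (t : ℤ))) := by
      unfold Frame.thsum shp0
      simp only [List.map_cons, List.map_nil, List.sum_cons, List.sum_nil, mx2Z]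
      push_cast
      ring
    rw [hth, pow_add]
    ring
  · show 64 * ((640 : ℕ) : ℤ) * _ = _ * (64 * ((640 : ℕ) : ℤ) * _ + _)
    push_cast
    ring
  · rw [fe_q ((-448) * (5 * 2 ^ 41 * 2 ^ j * (C.W.x : ℤ)) + ((-384) * (5 * 2 ^ 41 * 2 ^ j * (C.W2.x : ℤ)) + (160 * (5 * 2 ^ 43 * 2 ^ j * MM R C.W) + ((-160) * (5 * 2 ^ 19 * 2 ^ j * YY R C.W.x) + ((-160) * (5 * 2 ^ 41 * (C.W.d (j + 1) t : ℤ)) + (81 * (5 * 2 ^ 40 * max 0 (2 ^ j * (4 * (C.W.x : ℤ)) - 4 * (t : ℤ))) + (48 * (5 * 2 ^ 40 * max 0 (2 ^ j * (6 * (C.W.x : ℤ)) - 4 * (t : ℤ))) + (31 * (5 * 2 ^ 40 * max 0 (2 ^ j * (8 * (C.W.x : ℤ)) - 4 * (t : ℤ))) + (160 * (2 ^ 30 * (40960 * (2 ^ j * (C.W.x : ℤ)) + 2 ^ j * bW)) + (0))))))))) : ℤ) rfl rfl]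
    norm_num1
    linarith only [z.ex, z.eK, z.eW]

end Pool.Agent.EdgeIso.Chk.S50
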