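import Pool.Agent.Lib.MP_48c8f3_co.Bas
import Pool.Agent.Lib.MP_48c8f3_co.S50H
import Pool.Agent.Lib.MP_48c8f3_co.S50T

set_option autoImplicit false
set_option linter.unusedSectionVars false
set_option linter.unusedVariables false

/-!
MP_48c8f3_co: the point satisfies the system, part 2 (machine made).
-/

namespace Pool.Agent.EdgeIso.Chk.S50

open Finset Pool.Agent.EdgeIso.Frame Pool.Agent.EdgeIso.Cell Pool.Agent.EdgeIso.Walsh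
  Pool.Agent.EdgeIso.Smooth

variable {α : Type*} [DecidableEq α] {r : SRow} {n R k : ℕ} {F : Frame.Num} {j t : ℕ}

theorem li1 (C : SIC α (rowsOf fam) [] r 4 8 n R k F j t) (g bK bW : ℤ) (hG : GOK C g bK bW) :
    0 ≤ dot (f [(2, 8), (6, -2), (10, 1), (12, -1), (13, -1)]) (pt C g bK bW) := by
  have z := siz C
  have hd0 := C.dim
  refine lin_q (8 * (5 * 2 ^ 41 * 2 ^ j * (C.A.x : ℤ)) + ((-2) * (5 * 2 ^ 43 * 2 ^ j * (C.fK : ℤ)) + (1 * (5 * 2 ^ 43 * 2 ^ j * MM R C.K) + ((-1) * (5 * 2 ^ 43 * 2 ^ j * MM R C.P) + ((-1) * (5 * 2 ^ 43 * 2 ^ j * MM R C.A) + (0))))) : ℤ) rfl rfl ?_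
  linarith only [z.ex, z.eK, z.eW, fmK C]

theorem li3 (C : SIC α (rowsOf fam) [] r 4 8 n R k F j t) (g bK bW : ℤ) (hG : GOK C g bK bW) :
    0 ≤ dot (f [(1, -4), (2, 8), (5, 1)]) (pt C g bK bW) := by
  have z := siz C
  have hd0 := C.dim
  refine lin_q ((-4) * (5 * 2 ^ 41 * 2 ^ j * (C.W.x : ℤ)) + (8 * (5 * 2 ^ 41 * 2 ^ j * (C.A.x : ℤ)) + (1 * (5 * 2 ^ 43 * 2 ^ j * (C.f : ℤ)) + (0))) : ℤ) rfl rfl ?_
  linarith only [z.ex, z.eK, z.eW, z.h1]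

theorem li5 (C : SIC α (rowsOf fam) [] r 4 8 n R k F j t) (g bK bW : ℤ) (hG : GOK C g bK bW) :
    0 ≤ dot (f [(0, -1), (1, 4), (2, 4), (3, 4)]) (pt C g bK bW) := by
  have z := siz C
  have hd0 := C.dim
  refine lin_q ((-1) * (5 * 2 ^ 43 * 2 ^ j * 2 ^ R) + (4 * (5 * 2 ^ 41 * 2 ^ j * (C.W.x : ℤ)) + (4 * (5 * 2 ^ 41 * 2 ^ j * (C.A.x : ℤ)) + (4 * (5 * 2 ^ 41 * 2 ^ j * (C.P.x : ℤ)) + (0)))) : ℤ) rfl rfl ?_
  linarith only [z.ex, z.eK, z.eW, z.lo]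

theorem li7 (C : SIC α (rowsOf fam) [] r 4 8 n R k F j t) (g bK bW : ℤ) (hG : GOK C g bK bW) :
    0 ≤ dot (f [(1, -3), (2, -3), (3, -3), (8, 1), (34, 1)]) (pt C g bK bW) := by
  have z := siz C
  have hd0 := C.dim
  refine lin_q ((-3) * (5 * 2 ^ 41 * 2 ^ j * (C.W.x : ℤ)) + ((-3) * (5 * 2 ^ 41 * 2 ^ j * (C.A.x : ℤ)) + ((-3) * (5 * 2 ^ 41 * 2 ^ j * (C.P.x : ℤ)) + (1 * (5 * 2 ^ 43 * (t : ℤ)) + (1 * (5 * 2 ^ 40 * max 0 (2 ^ j * (6 * (F.x : ℤ)) - 8 * (t : ℤ))) + (0))))) : ℤ) rfl rfl ?_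
  linarith only [z.ex, z.eK, z.eW, frZF1 C]

theorem li9 (C : SIC α (rowsOf fam) [] r 4 8 n R k F j t) (g bK bW : ℤ) (hG : GOK C g bK bW) :
    0 ≤ dot (f [(1, 11), (2, -5), (3, -5), (31, 4)]) (pt C g bK bW) := by
  have z := siz C
  have hd0 := C.dim
  refine lin_q (11 * (5 * 2 ^ 41 * 2 ^ j * (C.W.x : ℤ)) + ((-5) * (5 * 2 ^ 41 * 2 ^ j * (C.A.x : ℤ)) + ((-5) * (5 * 2 ^ 41 * 2 ^ j * (C.P.x : ℤ)) + (4 * (5 * 2 ^ 38 * 2 ^ j * max 0 (10 * (F.x : ℤ) - 16 * (2 * (C.W.x : ℤ)))) + (0)))) : ℤ) rfl rfl ?_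
  linarith only [z.ex, z.eK, z.eW, frh1 C]

theorem li11 (C : SIC α (rowsOf fam) [] r 4 8 n R k F j t) (g bK bW : ℤ) (hG : GOK C g bK bW) :
    0 ≤ dot (f [(1, 4), (24, 1), (30, -1)]) (pt C g bK bW) := by
  have z := siz C
  have hd0 := C.dim
  refine lin_q (4 * (5 * 2 ^ 41 * 2 ^ j * (C.W.x : ℤ)) + (1 * (5 * 2 ^ 42 * (C.K.d j t : ℤ)) + ((-1) * (5 * 2 ^ 42 * (F.d j t : ℤ)) + (0))) : ℤ) rfl rfl ?_
  linarith only [z.ex, z.eK, z.eW, f1DF C]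

theorem li13 (C : SIC α (rowsOf fam) [] r 4 8 n R k F j t) (g bK bW : ℤ) (hG : GOK C g bK bW) :
    0 ≤ dot (f [(1, -4), (2, 4), (3, 4), (5, 1), (26, 2), (30, -1)]) (pt C g bK bW) := by
  have z := siz C
  have hd0 := C.dim
  refine lin_q ((-4) * (5 * 2 ^ 41 * 2 ^ j * (C.W.x : ℤ)) + (4 * (5 * 2 ^ 41 * 2 ^ j * (C.A.x : ℤ)) + (4 * (5 * 2 ^ 41 * 2 ^ j * (C.P.x : ℤ)) + (1 * (5 * 2 ^ 43 * 2 ^ j * (C.f : ℤ)) + (2 * (5 * 2 ^ 41 * (C.W.d (j + 1) t : ℤ)) + ((-1) * (5 * 2 ^ 42 * (F.d j t : ℤ)) + (0)))))) : ℤ) rfl rfl ?_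
  linarith only [z.ex, z.eK, z.eW, f4DF C]

theorem li15 (C : SIC α (rowsOf fam) [] r 4 8 n R k F j t) (g bK bW : ℤ) (hG : GOK C g bK bW) :
    0 ≤ dot (f [(4, 4), (26, -1), (28, 1)]) (pt C g bK bW) := by
  have z := siz C
  have hd0 := C.dim
  refine lin_q (4 * (5 * 2 ^ 41 * 2 ^ j * (C.W2.x : ℤ)) + ((-1) * (5 * 2 ^ 41 * (C.W.d (j + 1) t : ℤ)) + (1 * (5 * 2 ^ 41 * (C.W1.d (j + 1) t : ℤ)) + (0))) : ℤ) rfl rfl ?_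
  linarith only [z.ex, z.eK, z.eW, f1DWh C]

theorem li17 (C : SIC α (rowsOf fam) [] r 4 8 n R k F j t) (g bK bW : ℤ) (hG : GOK C g bK bW) :
    0 ≤ dot (f [(0, 1), (1, -1)]) (pt C g bK bW) := by
  have z := siz C
  have hd0 := C.dim
  refine lin_q (1 * (5 * 2 ^ 43 * 2 ^ j * 2 ^ R) + ((-1) * (5 * 2 ^ 41 * 2 ^ j * (C.W.x : ℤ)) + (0)) : ℤ) rfl rfl ?_
  linarith only [z.ex, z.eK, z.eW, (ztl C), z.hi, z.le1, (ztu C)]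

theorem li19 (C : SIC α (rowsOf fam) [] r 4 8 n R k F j t) (g bK bW : ℤ) (hG : GOK C g bK bW) :
    0 ≤ dot (f [(0, 1), (3, -1)]) (pt C g bK bW) := by
  have z := siz C
  have hd0 := C.dim
  refine lin_q (1 * (5 * 2 ^ 43 * 2 ^ j * 2 ^ R) + ((-1) * (5 * 2 ^ 41 * 2 ^ j * (C.P.x : ℤ)) + (0)) : ℤ) rfl rfl ?_
  linarith only [z.ex, z.eK, z.eW, z.f1, fbZK2 C, (ztl C), (ztu C), z.hi, frZK2 C, z.h1]

theorem li21 (C : SIC α (rowsOf fam) [] r 4 8 n R k F j t) (g bK bW : ℤ) (hG : GOK C g bK bW) :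
    0 ≤ dot (f [(0, 1), (5, -1)]) (pt C g bK bW) := by
  have z := siz C
  have hd0 := C.dim
  refine lin_q (1 * (5 * 2 ^ 43 * 2 ^ j * 2 ^ R) + ((-1) * (5 * 2 ^ 43 * 2 ^ j * (C.f : ℤ)) + (0)) : ℤ) rfl rfl ?_
  linarith only [z.ex, z.eK, z.eW, z.le1, z.hi, z.f1]

theorem li23 (C : SIC α (rowsOf fam) [] r 4 8 n R k F j t) (g bK bW : ℤ) (hG : GOK C g bK bW) :
    0 ≤ dot (f [(0, 1), (7, -1)]) (pt C g bK bW) := by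
  have z := siz C
  have hd0 := C.dim
  refine lin_q (1 * (5 * 2 ^ 43 * 2 ^ j * 2 ^ R) + ((-1) * (5 * 2 ^ 43 * 2 ^ j * (C.fW : ℤ)) + (0)) : ℤ) rfl rfl ?_
  linarith only [z.ex, z.eK, z.eW, (ztu C), (ztl C), z.f3, z.hi, z.le1, z.le3]

theorem li25 (C : SIC α (rowsOf fam) [] r 4 8 n R k F j t) (g bK bW : ℤ) (hG : GOK C g bK bW) :
    0 ≤ dot (f [(0, 8), (9, -1)]) (pt C g bK bW) := by
  have z := siz C
  have hd0 := C.dim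
  refine lin_q (8 * (5 * 2 ^ 43 * 2 ^ j * 2 ^ R) + ((-1) * (5 * 2 ^ 43 * 2 ^ j * MM R F) + (0)) : ℤ) rfl rfl ?_
  linarith only [z.ex, z.eK, z.eW, hG.goal, z.hi, fbZW2 C, (ztu C), frh2 C, (ztl C), frh1 C, frZF1 C, frZF2 C, ftDF C, fyF C, frZW2 C, (zero_le_one : (0 : ℤ) ≤ 1), fqF C]

theorem li27 (C : SIC α (rowsOf fam) [] r 4 8 n R k F j t) (g bK bW : ℤ) (hG : GOK C g bK bW) :
    0 ≤ dot (f [(0, 8), (11, -1)]) (pt C g bK bW) := by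
  have z := siz C
  have hd0 := C.dim
  refine lin_q (8 * (5 * 2 ^ 43 * 2 ^ j * 2 ^ R) + ((-1) * (5 * 2 ^ 43 * 2 ^ j * MM R C.W) + (0)) : ℤ) rfl rfl ?_
  linarith only [z.ex, z.eK, z.eW, z.hi, hG.goal, fmF C, flK C, fbZW2 C, (ztu C), fyF C, fyK C, (ztl C), frh1 C, gyK C, frZF1 C, frZF2 C, ftDF C, frZW2 C, z.h1, z.le2, fqF C, frh2 C, (zero_le_one : (0 : ℤ) ≤ 1)]

theorem li29 (C : SIC α (rowsOf fam) [] r 4 8 n R k F j t) (g bK bW : ℤ) (hG : GOK C g bK bW) :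
    0 ≤ dot (f [(0, 10), (13, -1)]) (pt C g bK bW) := by
  have z := siz C
  have hd0 := C.dim
  refine lin_q (10 * (5 * 2 ^ 43 * 2 ^ j * 2 ^ R) + ((-1) * (5 * 2 ^ 43 * 2 ^ j * MM R C.A) + (0)) : ℤ) rfl rfl ?_
  linarith only [z.ex, z.eK, z.eW, z.hi, hG.goal, ftDF C, fmF C, fmK C, flP C, flW C, (ztu C), fyF C, fyP C, fyW C, (ztl C), frh1 C, gyP C, gyW C, frZF1 C, frZF2 C, frZK1 C, fbZK1 C, z.h1, z.le2, z.fK0, fqF C, frh2 C, (zero_le_one : (0 : ℤ) ≤ 1)]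

theorem li31 (C : SIC α (rowsOf fam) [] r 4 8 n R k F j t) (g bK bW : ℤ) (hG : GOK C g bK bW) :
    0 ≤ dot (f [(0, 10), (15, -1)]) (pt C g bK bW) := by
  have z := siz C
  have hd0 := C.dim
  refine lin_q (10 * (5 * 2 ^ 43 * 2 ^ j * 2 ^ R) + ((-1) * (5 * 2 ^ 43 * 2 ^ j * MM R C.W2) + (0)) : ℤ) rfl rfl ?_
  linarith only [z.ex, z.eK, z.eW, z.hi, hG.goal, ftDF C, flK C, fmF C, flW1 C, fbZW2 C, (ztu C), fyF C, fyK C, fyW1 C, (ztl C), frh1 C, gyK C, gyW1 C, frZF1 C, frZF2 C, z.le3, frZW2 C, z.h1, fmW C, z.le2, z.fW0, fqF C, frh2 C, (zero_le_one : (0 : ℤ) ≤ 1)]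

theorem li33 (C : SIC α (rowsOf fam) [] r 4 8 n R k F j t) (g bK bW : ℤ) (hG : GOK C g bK bW) :
    0 ≤ dot (f [(0, 1), (17, -1)]) (pt C g bK bW) := by
  have z := siz C
  have hd0 := C.dim
  refine lin_q (1 * (5 * 2 ^ 43 * 2 ^ j * 2 ^ R) + ((-1) * (5 * 2 ^ 42 * 2 ^ j * QQ R C.W.x) + (0)) : ℤ) rfl rfl ?_
  linarith only [z.ex, z.eK, z.eW, (ztu C), fqW C, fbZK2 C, z.le1, frZK2 C]

theorem li35 (C : SIC α (rowsOf fam) [] r 4 8 n R k F j t) (g bK bW : ℤ) (hG : GOK C g bK bW) :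
    0 ≤ dot (f [(0, 1), (19, -1)]) (pt C g bK bW) := by
  have z := siz C
  have hd0 := C.dim
  refine lin_q (1 * (5 * 2 ^ 43 * 2 ^ j * 2 ^ R) + ((-1) * (5 * 2 ^ 42 * 2 ^ j * QQ R C.W1.x) + (0)) : ℤ) rfl rfl ?_
  linarith only [z.ex, z.eK, z.eW, (ztu C), fqW1 C, fbZK2 C, z.le1, frZK2 C]

theorem li37 (C : SIC α (rowsOf fam) [] r 4 8 n R k F j t) (g bK bW : ℤ) (hG : GOK C g bK bW) :
    0 ≤ dot (f [(0, 2), (21, -1)]) (pt C g bK bW) := by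
  have z := siz C
  have hd0 := C.dim
  refine lin_q (2 * (5 * 2 ^ 43 * 2 ^ j * 2 ^ R) + ((-1) * (5 * 2 ^ 19 * 2 ^ j * YY R F.x) + (0)) : ℤ) rfl rfl ?_
  linarith only [z.ex, z.eK, z.eW, (ztu C), fyF C, fbZK2 C, fqF C, z.le1, frZK2 C]

theorem li39 (C : SIC α (rowsOf fam) [] r 4 8 n R k F j t) (g bK bW : ℤ) (hG : GOK C g bK bW) :
    0 ≤ dot (f [(0, 2), (23, -1)]) (pt C g bK bW) := by
  have z := siz C
  have hd0 := C.dim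
  refine lin_q (2 * (5 * 2 ^ 43 * 2 ^ j * 2 ^ R) + ((-1) * (5 * 2 ^ 19 * 2 ^ j * YY R C.W.x) + (0)) : ℤ) rfl rfl ?_
  linarith only [z.ex, z.eK, z.eW, (ztu C), fyW C, fbZK2 C, fqW C, z.le1, frZK2 C]

theorem li41 (C : SIC α (rowsOf fam) [] r 4 8 n R k F j t) (g bK bW : ℤ) (hG : GOK C g bK bW) :
    0 ≤ dot (f [(0, 2), (25, -1)]) (pt C g bK bW) := by
  have z := siz C
  have hd0 := C.dim
  refine lin_q (2 * (5 * 2 ^ 43 * 2 ^ j * 2 ^ R) + ((-1) * (5 * 2 ^ 41 * (C.K.d (j + 1) t : ℤ)) + (0)) : ℤ) rfl rfl ?_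
  linarith only [z.ex, z.eK, z.eW, z.f1, z.hi, z.f0, ftDKh C]

theorem li43 (C : SIC α (rowsOf fam) [] r 4 8 n R k F j t) (g bK bW : ℤ) (hG : GOK C g bK bW) :
    0 ≤ dot (f [(0, 1), (27, -1)]) (pt C g bK bW) := by
  have z := siz C
  have hd0 := C.dim
  refine lin_q (1 * (5 * 2 ^ 43 * 2 ^ j * 2 ^ R) + ((-1) * (5 * 2 ^ 41 * (C.A.d (j + 1) t : ℤ)) + (0)) : ℤ) rfl rfl ?_
  linarith only [z.ex, z.eK, z.eW, z.f1, z.hi, z.f0, z.le2, ftDAh C]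

theorem li45 (C : SIC α (rowsOf fam) [] r 4 8 n R k F j t) (g bK bW : ℤ) (hG : GOK C g bK bW) :
    0 ≤ dot (f [(0, 1), (29, -1)]) (pt C g bK bW) := by
  have z := siz C
  have hd0 := C.dim
  refine lin_q (1 * (5 * 2 ^ 43 * 2 ^ j * 2 ^ R) + ((-1) * (5 * 2 ^ 40 * (C.W2.d (j + 2) t : ℤ)) + (0)) : ℤ) rfl rfl ?_
  linarith only [z.ex, z.eK, z.eW, z.le1, (ztu C), (ztl C), ftDW2q C, z.hi, z.le3]

theorem li47 (C : SIC α (rowsOf fam) [] r 4 8 n R k F j t) (g bK bW : ℤ) (hG : GOK C g bK bW) :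
    0 ≤ dot (f [(0, 1), (31, -1)]) (pt C g bK bW) := by
  have z := siz C
  have hd0 := C.dim
  refine lin_q (1 * (5 * 2 ^ 43 * 2 ^ j * 2 ^ R) + ((-1) * (5 * 2 ^ 38 * 2 ^ j * max 0 (10 * (F.x : ℤ) - 16 * (2 * (C.W.x : ℤ)))) + (0)) : ℤ) rfl rfl ?_
  linarith only [z.ex, z.eK, z.eW, (ztu C), fbZK2 C, z.le1, z.hi, frZK2 C, fuh1 C]

theorem li49 (C : SIC α (rowsOf fam) [] r 4 8 n R k F j t) (g bK bW : ℤ) (hG : GOK C g bK bW) :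
    0 ≤ dot (f [(0, 1), (34, -1)]) (pt C g bK bW) := by
  have z := siz C
  have hd0 := C.dim
  refine lin_q (1 * (5 * 2 ^ 43 * 2 ^ j * 2 ^ R) + ((-1) * (5 * 2 ^ 40 * max 0 (2 ^ j * (6 * (F.x : ℤ)) - 8 * (t : ℤ))) + (0)) : ℤ) rfl rfl ?_
  linarith only [z.ex, z.eK, z.eW, (ztu C), fbZK2 C, fbZF1 C, z.le1, frZK2 C]

theorem li51 (C : SIC α (rowsOf fam) [] r 4 8 n R k F j t) (g bK bW : ℤ) (hG : GOK C g bK bW) :
    0 ≤ dot (f [(0, 1), (36, -1)]) (pt C g bK bW) := by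
  have z := siz C
  have hd0 := C.dim
  refine lin_q (1 * (5 * 2 ^ 43 * 2 ^ j * 2 ^ R) + ((-1) * (5 * 2 ^ 40 * max 0 (2 ^ j * (4 * (C.K.x : ℤ)) - 4 * (t : ℤ))) + (0)) : ℤ) rfl rfl ?_
  linarith only [z.ex, z.eK, z.eW, (ztu C), fbZK2 C, fbZK0 C, z.le1, frZK2 C]

theorem li53 (C : SIC α (rowsOf fam) [] r 4 8 n R k F j t) (g bK bW : ℤ) (hG : GOK C g bK bW) :
    0 ≤ dot (f [(0, 2), (38, -1)]) (pt C g bK bW) := by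
  have z := siz C
  have hd0 := C.dim
  refine lin_q (2 * (5 * 2 ^ 43 * 2 ^ j * 2 ^ R) + ((-1) * (5 * 2 ^ 40 * max 0 (2 ^ j * (8 * (C.K.x : ℤ)) - 4 * (t : ℤ))) + (0)) : ℤ) rfl rfl ?_
  linarith only [z.ex, z.eK, z.eW, (ztu C), z.le1, fbZK2 C, frZK2 C]

theorem li55 (C : SIC α (rowsOf fam) [] r 4 8 n R k F j t) (g bK bW : ℤ) (hG : GOK C g bK bW) :
    0 ≤ dot (f [(0, 1), (40, -1)]) (pt C g bK bW) := by
  have z := siz C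
  have hd0 := C.dim
  refine lin_q (1 * (5 * 2 ^ 43 * 2 ^ j * 2 ^ R) + ((-1) * (5 * 2 ^ 40 * max 0 (2 ^ j * (6 * (C.W.x : ℤ)) - 4 * (t : ℤ))) + (0)) : ℤ) rfl rfl ?_
  linarith only [z.ex, z.eK, z.eW, (ztu C), fbZK2 C, z.le1, fbZW1 C, frZK2 C]

theorem li57 (C : SIC α (rowsOf fam) [] r 4 8 n R k F j t) (g bK bW : ℤ) (hG : GOK C g bK bW) :
    0 ≤ dot (f [(0, 4), (42, -1)]) (pt C g bK bW) := by
  have z := siz C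
  have hd0 := C.dim
  refine lin_q (4 * (5 * 2 ^ 43 * 2 ^ j * 2 ^ R) + ((-1) * (2 ^ 30 * (40960 * (2 ^ j * (C.K.x : ℤ)) + 2 ^ j * bK)) + (0)) : ℤ) rfl rfl ?_
  linarith only [z.ex, z.eK, z.eW, bloW hG, bhiW hG, z.hi, bhiK hG]

theorem it0 (C : SIC α (rowsOf fam) [] r 4 8 n R k F j t) (g bK bW : ℤ) :
    (ItemL.cge 12 512 (f [(36, -1)])).Sem sys (pt C g bK bW) := by
  have z := siz C
  have hd0 := C.dim
  intro hc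
  rw [fv12, sysGG, pt0] at hc
  push_cast at hc
  have hu : 2 ^ j * (4 * (C.K.x : ℤ)) - 4 * (t : ℤ) ≤ 0 := by linarith only [z.ex, z.eK, z.eW, hc]
  have hf : max 0 (2 ^ j * (4 * (C.K.x : ℤ)) - 4 * (t : ℤ)) ≤ 0 := max_le (le_refl 0) hu
  refine lin_q ((-1) * (5 * 2 ^ 40 * max 0 (2 ^ j * (4 * (C.K.x : ℤ)) - 4 * (t : ℤ))) + (0) : ℤ) rfl rfl ?_
  linarith only [z.ex, z.eK, z.eW, hf]

theorem it2 (C : SIC α (rowsOf fam) [] r 4 8 n R k F j t) (g bK bW : ℤ) :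
    (ItemL.cge 13 1024 (f [(37, -1)])).Sem sys (pt C g bK bW) := by
  have z := siz C
  have hd0 := C.dim
  intro hc
  rw [fv13, sysGG, pt0] at hc
  push_cast at hc
  have hu : 2 ^ j * (6 * (C.K.x : ℤ)) - 4 * (t : ℤ) ≤ 0 := by linarith only [z.ex, z.eK, z.eW, hc]
  have hf : max 0 (2 ^ j * (6 * (C.K.x : ℤ)) - 4 * (t : ℤ)) ≤ 0 := max_le (le_refl 0) hu
  refine lin_q ((-1) * (5 * 2 ^ 40 * max 0 (2 ^ j * (6 * (C.K.x : ℤ)) - 4 * (t : ℤ))) + (0) : ℤ) rfl rfl ?_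
  linarith only [z.ex, z.eK, z.eW, hf]

theorem it4 (C : SIC α (rowsOf fam) [] r 4 8 n R k F j t) (g bK bW : ℤ) :
    (ItemL.cle 14 1536 (f [(2, 8), (3, 8), (8, -1), (38, -2)])).Sem sys (pt C g bK bW) := by
  have z := siz C
  have hd0 := C.dim
  intro hc
  rw [fv14, sysGG, pt0] at hc
  push_cast at hc
  have hu : 0 ≤ 2 ^ j * (8 * (C.K.x : ℤ)) - 4 * (t : ℤ) := by linarith only [z.ex, z.eK, z.eW, hc]
  have hf : max 0 (2 ^ j * (8 * (C.K.x : ℤ)) - 4 * (t : ℤ)) ≤ 2 ^ j * (8 * (C.K.x : ℤ)) - 4 * (t : ℤ) := max_le hu (le_refl _)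
  refine lin_q (8 * (5 * 2 ^ 41 * 2 ^ j * (C.A.x : ℤ)) + (8 * (5 * 2 ^ 41 * 2 ^ j * (C.P.x : ℤ)) + ((-1) * (5 * 2 ^ 43 * (t : ℤ)) + ((-2) * (5 * 2 ^ 40 * max 0 (2 ^ j * (8 * (C.K.x : ℤ)) - 4 * (t : ℤ))) + (0)))) : ℤ) rfl rfl ?_
  linarith only [z.ex, z.eK, z.eW, hf]

theorem it6 (C : SIC α (rowsOf fam) [] r 4 8 n R k F j t) (g bK bW : ℤ) :
    (ItemL.cge 16 512 (f [(40, -1)])).Sem sys (pt C g bK bW) := by
  have z := siz C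
  have hd0 := C.dim
  intro hc
  rw [fv16, sysGG, pt0] at hc
  push_cast at hc
  have hu : 2 ^ j * (6 * (C.W.x : ℤ)) - 4 * (t : ℤ) ≤ 0 := by linarith only [z.ex, z.eK, z.eW, hc]
  have hf : max 0 (2 ^ j * (6 * (C.W.x : ℤ)) - 4 * (t : ℤ)) ≤ 0 := max_le (le_refl 0) hu
  refine lin_q ((-1) * (5 * 2 ^ 40 * max 0 (2 ^ j * (6 * (C.W.x : ℤ)) - 4 * (t : ℤ))) + (0) : ℤ) rfl rfl ?_
  linarith only [z.ex, z.eK, z.eW, hf]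

theorem it8 (C : SIC α (rowsOf fam) [] r 4 8 n R k F j t) (g bK bW : ℤ) :
    (ItemL.cge 17 512 (f [(41, -1)])).Sem sys (pt C g bK bW) := by
  have z := siz C
  have hd0 := C.dim
  intro hc
  rw [fv17, sysGG, pt0] at hc
  push_cast at hc
  have hu : 2 ^ j * (8 * (C.W.x : ℤ)) - 4 * (t : ℤ) ≤ 0 := by linarith only [z.ex, z.eK, z.eW, hc]
  have hf : max 0 (2 ^ j * (8 * (C.W.x : ℤ)) - 4 * (t : ℤ)) ≤ 0 := max_le (le_refl 0) hu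
  refine lin_q ((-1) * (5 * 2 ^ 40 * max 0 (2 ^ j * (8 * (C.W.x : ℤ)) - 4 * (t : ℤ))) + (0) : ℤ) rfl rfl ?_
  linarith only [z.ex, z.eK, z.eW, hf]

theorem it10 (C : SIC α (rowsOf fam) [] r 4 8 n R k F j t) (g bK bW : ℤ) :
    (ItemL.cle 8 32 (f [(1, -67), (2, -61), (3, -61), (21, -16), (22, 16), (23, 16)])).Sem sys (pt C g bK bW) := by
  have z := siz C
  have hd0 := C.dim
  intro hc
  rw [fv8, sysGG, pt0] at hc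
  push_cast at hc
  have hu : 16 * (2 ^ j * (C.K.x : ℤ) - 2 ^ j * (C.W.x : ℤ)) ≤ 2 ^ j * (F.x : ℤ) := by linarith only [z.ex, z.eK, z.eW, z.lo, hc]
  have hf : 2 ^ 24 * (512 * (2 ^ j * (C.W.x : ℤ)) + 244 * (2 ^ j * (C.K.x : ℤ) - 2 ^ j * (C.W.x : ℤ))) ≤
    256 * (2 ^ j * YY R C.K.x + 2 ^ j * YY R C.W.x - 2 ^ j * YY R F.x) := nearZ16 C.mF hu
  refine lin_q ((-67) * (5 * 2 ^ 41 * 2 ^ j * (C.W.x : ℤ)) + ((-61) * (5 * 2 ^ 41 * 2 ^ j * (C.A.x : ℤ)) + ((-61) * (5 * 2 ^ 41 * 2 ^ j * (C.P.x : ℤ)) + ((-16) * (5 * 2 ^ 19 * 2 ^ j * YY R F.x) + (16 * (5 * 2 ^ 19 * 2 ^ j * YY R C.K.x) + (16 * (5 * 2 ^ 19 * 2 ^ j * YY R C.W.x) + (0)))))) : ℤ) rfl rfl ?_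
  linarith only [z.ex, z.eK, z.eW, hf]

theorem it12 (C : SIC α (rowsOf fam) [] r 4 8 n R k F j t) (g bK bW : ℤ) (hk : 5 ≤ k) (hG : GOK C g bK bW) :
    (ItemL.gate 2 512 640 (.cge 2 256 (f [(0, -1), (2, 96), (3, 96), (42, -40)]))).Sem sys (pt C g bK bW) := by
  have z := siz C
  have hd0 := C.dim
  intro hg1 hg2
  rw [fv2, sysGG, pt0] at hg1 hg2
  push_cast at hg1 hg2
  intro hc
  rw [fv2, sysGG, pt0] at hc
  push_cast at hc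
  have h1 : 8 * (2 ^ j * 2 ^ R) ≤ 8 * 2 ^ 0 * (2 ^ j * (C.K.x : ℤ)) := by linarith only [z.ex, z.eK, z.eW, hg1]
  have h2 : 8 * 2 ^ 0 * (2 ^ j * (C.K.x : ℤ)) ≤ 10 * (2 ^ j * 2 ^ R) := by linarith only [z.ex, z.eK, z.eW, hg2]
  have h3 : -(40960 * (2 ^ j * (C.K.x : ℤ))) ≤ (-64) * 2 ^ 4 * (2 ^ j * 2 ^ R) + 32 * (-512) * (2 ^ j * (C.K.x : ℤ)) := by linarith only [z.ex, z.eK, z.eW, hg2, hg1]
  have hf : 2 ^ j * bK ≤ (-64) * 2 ^ 4 * (2 ^ j * 2 ^ R) + 32 * (-512) * (2 ^ j * (C.K.x : ℤ)) := by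
    rcases Nat.lt_or_ge k 6 with hk5 | hk5
    · exact hG.K.pcZ (lev := 4) (i := 0) (k := 4) (lo := 8) (hi := 10) (bV := -64) (bx := -512) (show n + 1 = R + 4 by omega) (by norm_num) (by norm_num) (by decide) (by decide) (by decide) (by push_cast; linarith only [h1]) (by push_cast; linarith only [h2]) (by rw [shc]; linarith only [h3])
    · have h5 : 2 ^ j * bK ≤ 32 * (-544) * (2 ^ j * (C.K.x : ℤ)) := hG.K.plZ (lev := 5) (i := 0) (show n + 1 = R + (n + 1 - R) by omega) (by omega) (by decide) (by decide) (by decide) (by decide) (by linarith only [z.ex, z.eK, z.eW, z.hi, z.q0, z.p0]) (by rw [shc]; norm_num)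
      linarith only [h5, z.ex, z.eK, z.eW, hg1]
  refine lin_q ((-1) * (5 * 2 ^ 43 * 2 ^ j * 2 ^ R) + (96 * (5 * 2 ^ 41 * 2 ^ j * (C.A.x : ℤ)) + (96 * (5 * 2 ^ 41 * 2 ^ j * (C.P.x : ℤ)) + ((-40) * (2 ^ 30 * (40960 * (2 ^ j * (C.K.x : ℤ)) + 2 ^ j * bK)) + (0)))) : ℤ) rfl rfl ?_
  linarith only [z.ex, z.eK, z.eW, hf]

theorem it14 (C : SIC α (rowsOf fam) [] r 4 8 n R k F j t) (g bK bW : ℤ) (hk : 5 ≤ k) (hG : GOK C g bK bW) :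
    (ItemL.gate 1 0 512 (.cge 1 0 (f [(1, 23), (43, -10)]))).Sem sys (pt C g bK bW) := by
  have z := siz C
  have hd0 := C.dim
  intro hg1 hg2
  rw [fv1, sysGG, pt0] at hg1 hg2
  push_cast at hg1 hg2
  intro hc
  rw [fv1, sysGG, pt0] at hc
  push_cast at hc
  have h2 : 2 ^ 1 * (2 ^ j * (C.W.x : ℤ)) ≤ 2 * (2 ^ j * 2 ^ R) := by linarith only [z.ex, z.eK, z.eW, hg2]
  have hf : 2 ^ j * bW ≤ 32 * (-544) * (2 ^ j * (C.W.x : ℤ)) := hG.W.plZ (lev := 4) (i := 1) (show n + 1 = R + (n + 1 - R) by omega) (by omega) (by decide) (by decide) (by decide) (by decide) (by linarith only [h2]) (by rw [shc]; norm_num)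
  refine lin_q (23 * (5 * 2 ^ 41 * 2 ^ j * (C.W.x : ℤ)) + ((-10) * (2 ^ 30 * (40960 * (2 ^ j * (C.W.x : ℤ)) + 2 ^ j * bW)) + (0)) : ℤ) rfl rfl ?_
  linarith only [z.ex, z.eK, z.eW, hf]

theorem it16 (C : SIC α (rowsOf fam) [] r 4 8 n R k F j t) (g bK bW : ℤ) :
    (ItemL.tl 2 18 1 2 (f [(22, 7)]) 4096 4096 8 tbsU 1025).Sem sys (pt C g bK bW) := by
  have z := siz C
  have hd0 := C.dim
  refine sU_k (κ := 5 * 2 ^ 43 * 2 ^ j) (c := 43 + j) (y := 5 * 2 ^ 19 * 2 ^ j * YY R C.K.x) (R := R) (X := C.K.x) (mm := 5) (by norm_num) (kp j) (by omega) rfl rfl (fv2 C g bK bW) (z_xsK C) (by ring) ?_ (by norm_num)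
  rw [fe_q (7 * (5 * 2 ^ 19 * 2 ^ j * YY R C.K.x) + (0) : ℤ) rfl rfl]
  push_cast
  ring

theorem it18 (C : SIC α (rowsOf fam) [] r 4 8 n R k F j t) (g bK bW : ℤ) :
    (ItemL.tl 1 18 1 2 (f [(23, 7)]) 4096 4096 8 tbsU 1025).Sem sys (pt C g bK bW) := by
  have z := siz C
  have hd0 := C.dim
  refine sU_k (κ := 5 * 2 ^ 43 * 2 ^ j) (c := 43 + j) (y := 5 * 2 ^ 19 * 2 ^ j * YY R C.W.x) (R := R) (X := C.W.x) (mm := 5) (by norm_num) (kp j) (by omega) rfl rfl (fv1 C g bK bW) (z_xsW C) (by ring) ?_ (by norm_num)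
  rw [fe_q (7 * (5 * 2 ^ 19 * 2 ^ j * YY R C.W.x) + (0) : ℤ) rfl rfl]
  push_cast
  ring

theorem it20 (C : SIC α (rowsOf fam) [] r 4 8 n R k F j t) (g bK bW : ℤ) :
    (ItemL.tl 6 18 1 2 (f [(19, 2)]) 4096 4096 8 tbgU 1025).Sem sys (pt C g bK bW) := by
  have z := siz C
  have hd0 := C.dim
  refine gU_k (κ := 5 * 2 ^ 43 * 2 ^ j) (R := R) (X := C.W1.x) (kpos j) rfl rfl (fv6 C g bK bW) (z_xsW1 C) ?_ (by norm_num)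
  rw [fe_q (2 * (5 * 2 ^ 42 * 2 ^ j * QQ R C.W1.x) + (0) : ℤ) rfl rfl]
  push_cast
  ring

theorem it22 (C : SIC α (rowsOf fam) [] r 4 8 n R k F j t) (g bK bW : ℤ) :
    (ItemL.tl 0 18 1 2 (f [(0, 8), (21, -7)]) 4096 4096 8 tbsL 1025).Sem sys (pt C g bK bW) := by
  have z := siz C
  have hd0 := C.dim
  refine sL_k (κ := 5 * 2 ^ 43 * 2 ^ j) (c := 43 + j) (y := 5 * 2 ^ 19 * 2 ^ j * YY R F.x) (R := R) (X := F.x) (mm := 5) (by norm_num) (kp j) (by omega) rfl rfl (fv0 C g bK bW) (z_xs C) (by ring) ?_ (by norm_num)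
  rw [fe_q (8 * (5 * 2 ^ 43 * 2 ^ j * 2 ^ R) + ((-7) * (5 * 2 ^ 19 * 2 ^ j * YY R F.x) + (0)) : ℤ) rfl rfl]
  push_cast
  ring

theorem it24 (C : SIC α (rowsOf fam) [] r 4 8 n R k F j t) (g bK bW : ℤ) (hk : 5 ≤ k) (hn : 1 ≤ n) :
    (ItemL.gate 2 512 1024 (.tl 2 9 8 16 (f [(0, -2), (2, 4), (3, 4), (10, 1)]) 3584 128 2 tbH4_1 129)).Sem sys (pt C g bK bW) := by
  have z := siz C
  have hd0 := C.dim
  have hlv : R ≤ n + 1 + 0 := by omega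
  refine octl_k (κ := 5 * 2 ^ 43 * 2 ^ j) (c := 43 + j) (R := R) (rc := 56) (i := 0) (mm := 5) (by norm_num) (kp j) small_tbH4_1 rows_tbH4_1 rfl rfl (z_atK C) (by omega) (fv2 C g bK bW) (le_of_eq (fv9 C g bK bW)) hlv (by show _; omega) (by norm_num)
    (by norm_num) (by norm_num) (by norm_num) ?_ (by norm_num)
  · rw [fe_q ((-2) * (5 * 2 ^ 43 * 2 ^ j * 2 ^ R) + (4 * (5 * 2 ^ 41 * 2 ^ j * (C.A.x : ℤ)) + (4 * (5 * 2 ^ 41 * 2 ^ j * (C.P.x : ℤ)) + (1 * (5 * 2 ^ 43 * 2 ^ j * MM R C.K) + (0)))) : ℤ) rfl rfl]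
    norm_num1
    linarith only [z.ex, z.eK, z.eW]

theorem it26 (C : SIC α (rowsOf fam) [] r 4 8 n R k F j t) (g bK bW : ℤ) (hk : 5 ≤ k) (hn : 1 ≤ n) :
    (ItemL.gate 2 256 512 (.tl 2 9 4 8 (f [(0, -1), (10, 1)]) 7168 256 2 tbG5_1 129)).Sem sys (pt C g bK bW) := by
  have z := siz C
  have hd0 := C.dim
  have hlv : R ≤ n + 1 + 1 := by omega
  refine octl_k (κ := 5 * 2 ^ 43 * 2 ^ j) (c := 43 + j) (R := R) (rc := 56) (i := 1) (mm := 5) (by norm_num) (kp j) small_tbG5_1 rows_tbG5_1 rfl rfl (z_atK C) (by omega) (fv2 C g bK bW) (le_of_eq (fv9 C g bK bW)) hlv (by show _; omega) (by norm_num)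
    (by norm_num) (by norm_num) (by norm_num) ?_ (by norm_num)
  · rw [fe_q ((-1) * (5 * 2 ^ 43 * 2 ^ j * 2 ^ R) + (1 * (5 * 2 ^ 43 * 2 ^ j * MM R C.K) + (0)) : ℤ) rfl rfl]
    norm_num1
    linarith only [z.ex, z.eK, z.eW]

theorem it28 (C : SIC α (rowsOf fam) [] r 4 8 n R k F j t) (g bK bW : ℤ) (hk : 5 ≤ k) (hn : 1 ≤ n) :
    (ItemL.gate 1 256 512 (.tl 1 10 4 8 (f [(0, -1), (11, 1)]) 7168 256 2 tbG5_0 129)).Sem sys (pt C g bK bW) := by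
  have z := siz C
  have hd0 := C.dim
  have hlv : R ≤ n + 1 + 1 := by omega
  refine octl_k (κ := 5 * 2 ^ 43 * 2 ^ j) (c := 43 + j) (R := R) (rc := 28) (i := 1) (mm := 5) (by norm_num) (kp j) small_tbG5_0 rows_tbG5_0 rfl rfl (z_atW C) (by omega) (fv1 C g bK bW) (le_of_eq (fv10 C g bK bW)) hlv (by show _; omega) (by norm_num)
    (by norm_num) (by norm_num) (by norm_num) ?_ (by norm_num)
  · rw [fe_q ((-1) * (5 * 2 ^ 43 * 2 ^ j * 2 ^ R) + (1 * (5 * 2 ^ 43 * 2 ^ j * MM R C.W) + (0)) : ℤ) rfl rfl]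
    norm_num1
    linarith only [z.ex, z.eK, z.eW]

theorem it30 (C : SIC α (rowsOf fam) [] r 4 8 n R k F j t) (g bK bW : ℤ) (hk : 5 ≤ k) (hn : 1 ≤ n) :
    (ItemL.gate 4 256 512 (.tl 4 11 4 8 (f [(0, -1), (12, 1)]) 7168 256 2 tbH4_1 129)).Sem sys (pt C g bK bW) := by
  have z := siz C
  have hd0 := C.dim
  have hlv : R ≤ n + 1 := by omega
  refine octl_k (κ := 5 * 2 ^ 43 * 2 ^ j) (c := 43 + j) (R := R) (rc := 56) (i := 1) (mm := 5) (by norm_num) (kp j) small_tbH4_1 rows_tbH4_1 rfl rfl (z_atP C hn) (by omega) (fv4 C g bK bW) (le_of_eq (fv11 C g bK bW)) hlv (by show _; omega) (by norm_num)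
    (by norm_num) (by norm_num) (by norm_num) ?_ (by norm_num)
  · rw [fe_q ((-1) * (5 * 2 ^ 43 * 2 ^ j * 2 ^ R) + (1 * (5 * 2 ^ 43 * 2 ^ j * MM R C.P) + (0)) : ℤ) rfl rfl]
    norm_num1
    linarith only [z.ex, z.eK, z.eW]

theorem it32 (C : SIC α (rowsOf fam) [] r 4 8 n R k F j t) (g bK bW : ℤ) (hk : 5 ≤ k) (hn : 1 ≤ n) :
    (ItemL.tl 0 19 8 16 (f [(0, -2), (1, 4), (2, 4), (3, 4), (9, 1)]) 3584 128 2 tbG5_1 129).Sem sys (pt C g bK bW) := by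
  have z := siz C
  have hd0 := C.dim
  have hlv : R ≤ n + 2 + 0 := by omega
  have key := octl_k (S := sys) (x := pt C g bK bW) (κ := 5 * 2 ^ 43 * 2 ^ j) (c := 43 + j) (R := R) (rc := 56) (i := 0) (ga := 512) (gb := 1024) (ex := 0) (eg := 19) (hx := 8) (cg := 16) (L := f [(0, -2), (1, 4), (2, 4), (3, 4), (9, 1)]) (FL := 3584) (Fx := 128) (FT := 2) (mm := 5) (by norm_num) (kp j) small_tbG5_1 rows_tbG5_1 rfl rfl (z_atF C) (by omega) (fv0 C g bK bW) (le_of_eq (fv19 C g bK bW)) hlv (by show _; omega) (by norm_num) (by norm_num) (by norm_num) (by norm_num) ?_ (by norm_num)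
  · refine key ?_ ?_
    · rw [fv0, sysGG, pt0]; push_cast; linarith only [z.lo]
    · rw [fv0, sysGG, pt0]; push_cast; linarith only [z.hi]
  · rw [fe_q ((-2) * (5 * 2 ^ 43 * 2 ^ j * 2 ^ R) + (4 * (5 * 2 ^ 41 * 2 ^ j * (C.W.x : ℤ)) + (4 * (5 * 2 ^ 41 * 2 ^ j * (C.A.x : ℤ)) + (4 * (5 * 2 ^ 41 * 2 ^ j * (C.P.x : ℤ)) + (1 * (5 * 2 ^ 43 * 2 ^ j * MM R F) + (0))))) : ℤ) rfl rfl]
    norm_num1
    linarith only [z.ex, z.eK, z.eW]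

theorem it34 (C : SIC α (rowsOf fam) [] r 4 8 n R k F j t) (g bK bW : ℤ) (hk : 5 ≤ k) :
    (ItemL.ts 2 32 (f [(2, 14), (3, 26), (10, 5), (22, -5), (24, -5)]) 16384 1024 64 tbTF0_4 33 8 64 [(7, 1, 8, 1), (7, 1, 8, 1), (7, 1, 8, 1), (9, 1, 16, 1), (9, 1, 16, 1)] tbTA0 10).Sem sys (pt C g bK bW) := by
  have z := siz C
  have hd0 := C.dim
  refine tsf_k (κ := 5 * 2 ^ 43 * 2 ^ j) (R := R) (mt := 3) (m := 2) (J := j) (t := t) (s := 5) (c0 := SFC) (e := FE) (ah := AH0) (j0 := 0) (δ := (n + 1 - R)) (shapes := famG0) (yv := 5 * 2 ^ 19 * 2 ^ j * YY R C.K.x) (dv := 5 * 2 ^ 42 * (C.K.d j t : ℤ)) (kpos j) rfl rfl (z_atK C).fam (z_atK C).vx (fun s X h1 h2 => C.ih s X (by omega) h2) (fv2 C g bK bW) (by rw [fv7]; exact le_of_eq (by push_cast; ring)) (fv9 C g bK bW) (by rw [pow_zero, Nat.one_mul]; exact z_xsK C)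
    (show n + 1 = R + (n + 1 - R) by omega) (by norm_num) (by norm_num) (by norm_num) (by norm_num) (by norm_num) (by ring) (by ring) ?_ (fun s hs => z_row C rfl (by omega) (z_atK C).fam s (mem_famG0 hs)) okG0 chkL_tbTF0_4 (allShpU_spec chkT_tbTF0_4_0 (by norm_num) (by omega))
  rw [fe_q (14 * (5 * 2 ^ 41 * 2 ^ j * (C.A.x : ℤ)) + (26 * (5 * 2 ^ 41 * 2 ^ j * (C.P.x : ℤ)) + (5 * (5 * 2 ^ 43 * 2 ^ j * MM R C.K) + ((-5) * (5 * 2 ^ 19 * 2 ^ j * YY R C.K.x) + ((-5) * (5 * 2 ^ 42 * (C.K.d j t : ℤ)) + (0))))) : ℤ) rfl rfl]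
  norm_num1
  linarith only [z.ex, z.eK, z.eW]

theorem it36 (C : SIC α (rowsOf fam) [] r 4 8 n R k F j t) (g bK bW : ℤ) :
    (ItemL.ts 1 32 (f [(1, 4), (11, 1), (17, -2), (26, -1)]) 20480 256 16 tbTTc 33 8 64 [(7, 1, 4, 1)] tbTAc 2).Sem sys (pt C g bK bW) := by
  have z := siz C
  have hd0 := C.dim
  refine tsc_k (κ := 5 * 2 ^ 43 * 2 ^ j) (R := R) (J := (j + 1)) (t := t) (a0 := 40) (v0 := 8) (dv := 5 * 2 ^ 41 * (C.W.d (j + 1) t : ℤ)) (kpos j) rfl rfl C.kW' (fun s X h1 h2 => C.ih s X (by omega) h2) (fv1 C g bK bW) (by rw [fv7]; exact le_of_eq (by rw [pow_add]; ring)) (z_xsW C) (by norm_num) (by rw [pow_add]; ring) ?_ chkTc1 chkTc2 chkTc3 chkTc4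
  refine (fe_q (4 * (5 * 2 ^ 41 * 2 ^ j * (C.W.x : ℤ)) + (1 * (5 * 2 ^ 43 * 2 ^ j * MM R C.W) + ((-2) * (5 * 2 ^ 42 * 2 ^ j * QQ R C.W.x) + ((-1) * (5 * 2 ^ 41 * (C.W.d (j + 1) t : ℤ)) + (0)))) : ℤ) rfl rfl).trans ?_
  linarith only [z.ex, z.eK, z.eW]

theorem it38 (C : SIC α (rowsOf fam) [] r 4 8 n R k F j t) (g bK bW : ℤ) :
    (ItemL.ts 3 32 (f [(2, 4), (13, 1), (18, -2), (27, -1)]) 20480 256 16 tbTTc 33 8 64 [(7, 1, 4, 1)] tbTAc 2).Sem sys (pt C g bK bW) := by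
  have z := siz C
  have hd0 := C.dim
  refine tsc_k (κ := 5 * 2 ^ 43 * 2 ^ j) (R := R) (J := (j + 1)) (t := t) (a0 := 40) (v0 := 8) (dv := 5 * 2 ^ 41 * (C.A.d (j + 1) t : ℤ)) (kpos j) rfl rfl C.kA (fun s X h1 h2 => C.ih s X (by omega) h2) (fv3 C g bK bW) (by rw [fv7]; exact le_of_eq (by rw [pow_add]; ring)) (z_xsA C) (by norm_num) (by rw [pow_add]; ring) ?_ chkTc1 chkTc2 chkTc3 chkTc4
  refine (fe_q (4 * (5 * 2 ^ 41 * 2 ^ j * (C.A.x : ℤ)) + (1 * (5 * 2 ^ 43 * 2 ^ j * MM R C.A) + ((-2) * (5 * 2 ^ 42 * 2 ^ j * QQ R C.A.x) + ((-1) * (5 * 2 ^ 41 * (C.A.d (j + 1) t : ℤ)) + (0)))) : ℤ) rfl rfl).trans ?_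
  linarith only [z.ex, z.eK, z.eW]

theorem it39 (C : SIC α (rowsOf fam) [] r 4 8 n R k F j t) (g bK bW : ℤ) :
    (ItemL.ts 6 32 (f [(1, 4), (4, -4), (14, 1), (19, -2), (28, -1)]) 20480 256 16 tbTTc 33 8 64 [(7, 1, 4, 1)] tbTAc 2).Sem sys (pt C g bK bW) := by
  have z := siz C
  have hd0 := C.dim
  refine tsc_k (κ := 5 * 2 ^ 43 * 2 ^ j) (R := R) (J := (j + 1)) (t := t) (a0 := 40) (v0 := 8) (dv := 5 * 2 ^ 41 * (C.W1.d (j + 1) t : ℤ)) (kpos j) rfl rfl C.kW1 (fun s X h1 h2 => C.ih s X (by omega) h2) (fv6 C g bK bW) (by rw [fv7]; exact le_of_eq (by rw [pow_add]; ring)) (z_xsW1 C) (by norm_num) (by rw [pow_add]; ring) ?_ chkTc1 chkTc2 chkTc3 chkTc4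
  refine (fe_q (4 * (5 * 2 ^ 41 * 2 ^ j * (C.W.x : ℤ)) + ((-4) * (5 * 2 ^ 41 * 2 ^ j * (C.W2.x : ℤ)) + (1 * (5 * 2 ^ 43 * 2 ^ j * MM R C.W1) + ((-2) * (5 * 2 ^ 42 * 2 ^ j * QQ R C.W1.x) + ((-1) * (5 * 2 ^ 41 * (C.W1.d (j + 1) t : ℤ)) + (0))))) : ℤ) rfl rfl).trans ?_
  linarith only [z.ex, z.eK, z.eW]

theorem it41 (C : SIC α (rowsOf fam) [] r 4 8 n R k F j t) (g bK bW : ℤ) (hG : GOK C g bK bW) :
    (ItemL.ts 2 32 (f [(2, -832), (3, -448), (10, 160), (22, -160), (25, -160), (36, 81), (37, 48), (38, 31), (42, 160)]) 512 1024 64 tbTX 33 8 64 [(9, 1, 16, 1), (9, 1, 16, 1)] tbTY 0).Sem sys (pt C g bK bW) := by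
  have z := siz C
  have hd0 := C.dim
  refine tsb_k (κ := 5 * 2 ^ 43 * 2 ^ j) (R := R) (m := 2) (J := j + 1) (t := t) (s := 160) (c0 := SFC) (e := FE) (ah := AH0) (sh := shp0) (yv := 5 * 2 ^ 19 * 2 ^ j * YY R C.K.x) (dv := 5 * 2 ^ 41 * (C.K.d (j + 1) t : ℤ)) (z := 324 * (5 * 2 ^ 40 * max 0 (2 ^ j * (4 * (C.K.x : ℤ)) - 4 * (t : ℤ))) + 192 * (5 * 2 ^ 40 * max 0 (2 ^ j * (6 * (C.K.x : ℤ)) - 4 * (t : ℤ))) + 124 * (5 * 2 ^ 40 * max 0 (2 ^ j * (8 * (C.K.x : ℤ)) - 4 * (t : ℤ)))) (bkv := 2 ^ 30 * (40960 * (2 ^ j * (C.K.x : ℤ)) + 2 ^ j * bK)) (b := bK) eqTX (kpos j) (z_atK C).fam (fv2 C g bK bW) (fv9 C g bK bW)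
    (by norm_num) (by norm_num) (by ring) (by rw [pow_add]; ring) ?_ ?_ ?_ hG.K rfl rfl rfl rfl okTY
  · have hth : Frame.thsum (Shp.th shp0) (j + 1) t (C.K.x : ℤ) = 2 * (324 * max 0 (2 ^ j * (4 * (C.K.x : ℤ)) - 4 * (t : ℤ))) + 2 * (192 * max 0 (2 ^ j * (6 * (C.K.x : ℤ)) - 4 * (t : ℤ))) + 2 * (124 * max 0 (2 ^ j * (8 * (C.K.x : ℤ)) - 4 * (t : ℤ))) := by
      unfold Frame.thsum shp0
      simp only [List.map_cons, List.map_nil, List.sum_cons, List.sum_nil, mx2Z]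
      push_cast
      ring
    rw [hth, pow_add]
    ring
  · show 64 * ((640 : ℕ) : ℤ) * _ = _ * (64 * ((640 : ℕ) : ℤ) * _ + _)
    push_cast
    ring
  · rw [fe_q ((-832) * (5 * 2 ^ 41 * 2 ^ j * (C.A.x : ℤ)) + ((-448) * (5 * 2 ^ 41 * 2 ^ j * (C.P.x : ℤ)) + (160 * (5 * 2 ^ 43 * 2 ^ j * MM R C.K) + ((-160) * (5 * 2 ^ 19 * 2 ^ j * YY R C.K.x) + ((-160) * (5 * 2 ^ 41 * (C.K.d (j + 1) t : ℤ)) + (81 * (5 * 2 ^ 40 * max 0 (2 ^ j * (4 * (C.K.x : ℤ)) - 4 * (t : ℤ))) + (48 * (5 * 2 ^ 40 * max 0 (2 ^ j * (6 * (C.K.x : ℤ)) - 4 * (t : ℤ))) + (31 * (5 * 2 ^ 40 * max 0 (2 ^ j * (8 * (C.K.x : ℤ)) - 4 * (t : ℤ))) + (160 * (2 ^ 30 * (40960 * (2 ^ j * (C.K.x : ℤ)) + 2 ^ j * bK)) + (0))))))))) : ℤ) rfl rfl]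
    norm_num1
    linarith only [z.ex, z.eK, z.eW]

end Pool.Agent.EdgeIso.Chk.S50
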