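import Pool.Agent.Lib.MP_48c8f3_co.Bas
import Pool.Agent.Lib.MP_48c8f3_co.SFam
import Pool.Agent.Lib.MP_48c8f3_co.SNe
import Pool.Agent.Lib.MP_48c8f3_co.S20Z
import Pool.Agent.Lib.MP_48c8f3_co.S30Z
import Pool.Agent.Lib.MP_48c8f3_co.S40Z
import Pool.Agent.Lib.MP_48c8f3_co.S50Z

set_option autoImplicit false

/-!
MP_48c8f3_co: the smooth inequality holds in all dimensions in which the statement with the
constant 2 is known.
-/

namespace Pool.Agent.EdgeIso.Chk

open Finset Pool.Agent.EdgeIso.Frame Pool.Agent.EdgeIso.Smooth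

theorem fam_base : ∀ r ∈ rowsOf fam, r.base = true := by decide +kernel

theorem fam_steps {α : Type*} [DecidableEq α] :
    ∀ r ∈ rowsOf fam, SStepR α (rowsOf fam) [] r := by
  apply forall_rowsOf (P := fun r => SStepR α (rowsOf fam) [] r)
  have k0 : ∀ k, 2 ≤ k → k ≤ 5 → k = 2 ∨ k = 3 ∨ k = 4 ∨ k = 5 := by omega
  intro s hs
  have hs' : s = shp0 := by
    have e : fam = [shp0] := rfl
    rw [e] at hs
    exact List.mem_singleton.mp hs
  subst hs'
  intro k h1 h2 h3 p hp
  rcases k0 k h2 h3 with rfl | rfl | rfl | rfl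
  · exact S20.steps p hp
  · exact S30.steps p hp
  · exact S40.steps p hp
  · exact S50.steps p hp

/-- the smooth inequality -/
theorem SIN_all {α : Type*} [DecidableEq α] {N : ℕ}
    (T : ∀ (s : Finset α) (X : Finset (Finset α)), s.card < N → Sub s X → TC 2 s X) :
    SIN α N :=
  sin_of_sib (sib_rows fam_base fam_steps N T)

end Pool.Agent.EdgeIso.Chk
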