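import Pool.Agent.Lib.MP_48c8f3_co.Bas
import Pool.Agent.Lib.MP_48c8f3_co.KTa
import Pool.Agent.Lib.MP_48c8f3_co.C6Z
import Pool.Agent.Lib.MP_48c8f3_co.K3Z
import Pool.Agent.Lib.MP_48c8f3_co.K4Z
import Pool.Agent.Lib.MP_48c8f3_co.SINall

set_option autoImplicit false

/-!
MP_48c8f3_co: the main theorem.
-/

namespace Pool.Agent.EdgeIso.Chk

open Finset Pool.Agent.EdgeIso.Frame

/-- there is no counterexample in the core of the roomy levels -/
theorem coreK_all {α : Type*} [DecidableEq α] {n R : ℕ} {F : Frame.Num} (hR1 : 1 ≤ R) (hR : R ≤ n)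
    (C : CoreK α n R F) : False := by
  rcases Nat.lt_or_ge R n with h | h
  · exact CoreK4.coreK_false hR1 h (SIN_all C.ih) C
  · exact CoreK3.coreK_false hR1 (le_antisymm h hR) C

/-- the question -/
theorem main_all : ∀ n : ℕ, ∀ F L : Finset (Finset (Fin n)),
      L.card = F.card →
      (∀ x ∈ L, ∀ y ∉ L, ∃ i ∈ x, i ∉ y ∧ ∀ j < i, (j ∈ x ↔ j ∈ y)) →
      ∃ σ : Equiv.Perm (Fin n), ∃ S : Finset (Fin n),
        (((symmDiff F (L.image (fun x => symmDiff (x.map σ.toEmbedding) S))).card : ℤ) ≤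
          2 * ((((F ×ˢ (Finset.univ : Finset (Fin n))).filter
                  (fun p => symmDiff p.1 {p.2} ∉ F)).card : ℤ) -
               (((L ×ˢ (Finset.univ : Finset (Fin n))).filter
                  (fun p => symmDiff p.1 {p.2} ∉ L)).card : ℤ))) :=
  main_of_cores (fun _ _ _ _ _ C => Core2K.core2_false C)
    (fun _ _ _ _ hR1 hR C => coreK_all hR1 hR C)

end Pool.Agent.EdgeIso.Chk
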