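import Mathlib

/-!
MP_48c8f3_co, strong dominance for compressed families, part A: binary tails.
`T x t` is the number of binary digits `1` of `x` at positions `≥ t`.
-/

set_option autoImplicit false

namespace Pool.Agent.EdgeIso.SD

open Finset

/-- number of binary digits `1` of `x` at positions `≥ t` -/
def T (x t : ℕ) : ℕ :=
  if _h : x = 0 then 0 else (if t ≤ Nat.log 2 x then 1 else 0) + T (x - 2 ^ Nat.log 2 x) t
termination_by x
decreasing_by
  have h1 : 0 < 2 ^ Nat.log 2 x := by positivity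
  omega

theorem T_zero (t : ℕ) : T 0 t = 0 := by
  rw [T]; simp

theorem T_top {M x : ℕ} (t : ℕ) (hx : x < 2 ^ M) :
    T (x + 2 ^ M) t = (if t ≤ M then 1 else 0) + T x t := by
  have h1 : Nat.log 2 (x + 2 ^ M) = M := by
    rw [Nat.log_eq_iff (Or.inr ⟨by norm_num, by positivity⟩)]
    constructor
    · omega
    · rw [pow_succ]; omega
  have h0 : x + 2 ^ M ≠ 0 := by positivity
  rw [T, dif_neg h0, h1, Nat.add_sub_cancel]

theorem T_of_le : ∀ (M x t : ℕ), x < 2 ^ M → M ≤ t → T x t = 0 := by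
  intro M
  induction M with
  | zero =>
    intro x t hx _
    have : x = 0 := by simpa using hx
    rw [this, T_zero]
  | succ M ih =>
    intro x t hx ht
    by_cases h : x < 2 ^ M
    · exact ih x t h (by omega)
    · have hx' : x - 2 ^ M < 2 ^ M := by rw [pow_succ] at hx; omega
      have e : x = (x - 2 ^ M) + 2 ^ M := by omega
      rw [e, T_top t hx', if_neg (by omega), ih _ t hx' (by omega)]

theorem T_top' {M x t : ℕ} (hx : x < 2 ^ M) (ht : t ≤ M) : T (x + 2 ^ M) t = T x t + 1 := by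
  rw [T_top t hx, if_pos ht, add_comm]

theorem T_comp : ∀ (M x t : ℕ), x < 2 ^ M → t ≤ M → T (2 ^ M - 1 - x) t + T x t = M - t := by
  intro M
  induction M with
  | zero =>
    intro x t hx ht
    have : x = 0 := by simpa using hx
    simp [this, T_zero]
  | succ M ih =>
    intro x t hx ht
    have hx2 : x < 2 ^ M + 2 ^ M := by rw [pow_succ] at hx; omega
    have key : ∀ y, y < 2 ^ M → T ((2 ^ M - 1 - y) + 2 ^ M) t + T y t = M + 1 - t := by
      intro y hy
      by_cases htM : t ≤ M
      · have := ih y t hy htM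
        rw [T_top' (by omega) htM]
        omega
      · have e : t = M + 1 := by omega
        rw [T_top t (by omega), if_neg htM, T_of_le M _ t (by omega) (by omega),
          T_of_le M _ t hy (by omega)]
        omega
    by_cases h : x < 2 ^ M
    · have e : 2 ^ (M + 1) - 1 - x = (2 ^ M - 1 - x) + 2 ^ M := by rw [pow_succ]; omega
      rw [e]
      exact key x h
    · have hy : 2 ^ (M + 1) - 1 - x < 2 ^ M := by rw [pow_succ]; omega
      have e : x = (2 ^ M - 1 - (2 ^ (M + 1) - 1 - x)) + 2 ^ M := by rw [pow_succ]; omega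
      have := key _ hy
      rw [← e] at this
      rw [add_comm]
      exact this

theorem le_of_T : ∀ (M x y : ℕ), x < 2 ^ M → y < 2 ^ M → (∀ t, T y t ≤ T x t) → y ≤ x := by
  intro M
  induction M with
  | zero =>
    intro x y hx hy _
    have : y = 0 := by simpa using hy
    omega
  | succ M ih =>
    intro x y hx hy h
    have hx2 : x < 2 ^ M + 2 ^ M := by rw [pow_succ] at hx; omega
    have hy2 : y < 2 ^ M + 2 ^ M := by rw [pow_succ] at hy; omega
    by_cases h1 : x < 2 ^ M
    · by_cases h2 : y < 2 ^ M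
      · exact ih x y h1 h2 h
      · exfalso
        have e : y = (y - 2 ^ M) + 2 ^ M := by omega
        have h3 := h M
        rw [e, T_top' (by omega) (le_refl M), T_of_le M x M h1 (le_refl M)] at h3
        omega
    · by_cases h2 : y < 2 ^ M
      · omega
      · have h3 : y - 2 ^ M ≤ x - 2 ^ M := by
          refine ih _ _ (by omega) (by omega) fun t => ?_
          have h4 := h t
          have e : y = (y - 2 ^ M) + 2 ^ M := by omega
          have e' : x = (x - 2 ^ M) + 2 ^ M := by omega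
          rw [e, e', T_top t (by omega), T_top t (by omega)] at h4
          omega
        omega

/-- closed downwards for the order of the shifted sets -/
def Idl (S : Finset ℕ) : Prop := ∀ x ∈ S, ∀ y, (∀ t, T y t ≤ T x t) → y ∈ S

theorem lt_two_pow' (x : ℕ) : x < 2 ^ x := Nat.lt_two_pow_self

theorem le_of_T' {x y : ℕ} (h : ∀ t, T y t ≤ T x t) : y ≤ x := by
  refine le_of_T (max x y) x y ?_ ?_ h
  · exact lt_of_lt_of_le (lt_two_pow' x) (Nat.pow_le_pow_right (by norm_num) (le_max_left _ _))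
  · exact lt_of_lt_of_le (lt_two_pow' y) (Nat.pow_le_pow_right (by norm_num) (le_max_right _ _))

theorem Idl.range (θ : ℕ) : Idl (range θ) := by
  intro x hx y h
  rw [mem_range] at hx ⊢
  exact lt_of_le_of_lt (le_of_T' h) hx

theorem Idl.union {A B : Finset ℕ} (hA : Idl A) (hB : Idl B) : Idl (A ∪ B) := by
  intro x hx y h
  rw [mem_union] at hx ⊢
  rcases hx with hx | hx
  · exact Or.inl (hA x hx y h)
  · exact Or.inr (hB x hx y h)

theorem Idl.inter {A B : Finset ℕ} (hA : Idl A) (hB : Idl B) : Idl (A ∩ B) := by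
  intro x hx y h
  rw [mem_inter] at hx ⊢
  exact ⟨hA x hx.1 y h, hB x hx.2 y h⟩

/-- lower half -/
def lo (h : ℕ) (S : Finset ℕ) : Finset ℕ := S.filter (· < h)

/-- upper half -/
def hi (h : ℕ) (S : Finset ℕ) : Finset ℕ := (Finset.range h).filter (fun x => x + h ∈ S)

theorem mem_lo {h x : ℕ} {S : Finset ℕ} : x ∈ lo h S ↔ x ∈ S ∧ x < h := by
  simp [lo]

theorem mem_hi {h x : ℕ} {S : Finset ℕ} : x ∈ hi h S ↔ x < h ∧ x + h ∈ S := by
  simp [hi]

theorem lo_sub (h : ℕ) (S : Finset ℕ) : lo h S ⊆ Finset.range h := by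
  intro x hx
  rw [mem_lo] at hx
  exact mem_range.2 hx.2

theorem hi_sub (h : ℕ) (S : Finset ℕ) : hi h S ⊆ Finset.range h := Finset.filter_subset _ _

theorem Idl.lo {S : Finset ℕ} (h : ℕ) (hS : Idl S) : Idl (lo h S) := by
  intro x hx y hy
  rw [mem_lo] at hx ⊢
  exact ⟨hS x hx.1 y hy, lt_of_le_of_lt (le_of_T' hy) hx.2⟩

theorem Idl.hi {S : Finset ℕ} (M : ℕ) (hS : Idl S) : Idl (hi (2 ^ M) S) := by
  intro x hx y hy
  rw [mem_hi] at hx ⊢
  have hyx := le_of_T' hy
  refine ⟨by omega, hS _ hx.2 _ fun t => ?_⟩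
  rw [T_top t hx.1, T_top t (by omega)]
  have := hy t
  omega

/-- counting with a predicate: splitting in the two halves -/
theorem card_split (p : ℕ → Prop) [DecidablePred p] (h : ℕ) (S : Finset ℕ)
    (hS : S ⊆ Finset.range (h + h)) :
    (S.filter p).card = ((lo h S).filter p).card + ((hi h S).filter (fun x => p (x + h))).card := by
  have h1 : S.filter p = ((lo h S).filter p) ∪
      (((hi h S).filter (fun x => p (x + h))).image (· + h)) := by
    ext x
    simp only [mem_filter, mem_union, mem_image, mem_lo, mem_hi]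
    constructor
    · rintro ⟨hx, hp⟩
      by_cases hxh : x < h
      · exact Or.inl ⟨⟨hx, hxh⟩, hp⟩
      · have := mem_range.1 (hS hx)
        refine Or.inr ⟨x - h, ⟨⟨by omega, ?_⟩, ?_⟩, by omega⟩
        · rwa [Nat.sub_add_cancel (by omega)]
        · rwa [Nat.sub_add_cancel (by omega)]
    · rintro (⟨⟨hx, _⟩, hp⟩ | ⟨y, ⟨⟨_, hy⟩, hp⟩, rfl⟩)
      · exact ⟨hx, hp⟩
      · exact ⟨hy, hp⟩
  rw [h1, card_union_of_disjoint, card_image_of_injective]
  · exact add_left_injective h
  · rw [Finset.disjoint_left]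
    intro x hx hx'
    simp only [mem_filter, mem_image, mem_lo, mem_hi] at hx hx'
    obtain ⟨y, _, rfl⟩ := hx'
    omega

theorem card_split' (h : ℕ) (S : Finset ℕ) (hS : S ⊆ Finset.range (h + h)) :
    S.card = (lo h S).card + (hi h S).card := by
  have := card_split (fun _ => True) h S hS
  simpa using this

/-- number of elements with at most `w` digits `1` -/
def cnt (S : Finset ℕ) (w : ℤ) : ℕ := (S.filter (fun x => (T x 0 : ℤ) ≤ w)).card

theorem cnt_split (M : ℕ) (S : Finset ℕ) (hS : S ⊆ Finset.range (2 ^ (M + 1))) (w : ℤ) :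
    cnt S w = cnt (lo (2 ^ M) S) w + cnt (hi (2 ^ M) S) (w - 1) := by
  have e : 2 ^ (M + 1) = 2 ^ M + 2 ^ M := by rw [pow_succ]; omega
  rw [e] at hS
  unfold cnt
  rw [card_split (fun x => (T x 0 : ℤ) ≤ w) (2 ^ M) S hS]
  congr 2
  refine Finset.filter_congr fun x hx => ?_
  rw [mem_hi] at hx
  rw [T_top' hx.1 (Nat.zero_le M)]
  push_cast
  constructor <;> intro h <;> linarith

theorem cnt_mono {S : Finset ℕ} {w w' : ℤ} (h : w ≤ w') : cnt S w ≤ cnt S w' :=
  card_le_card fun x hx => by
    rw [mem_filter] at hx ⊢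
    exact ⟨hx.1, hx.2.trans h⟩

theorem cnt_empty (w : ℤ) : cnt ∅ w = 0 := rfl

/-- thresholds -/
theorem exists_theta (K : Finset ℕ) : ∀ (θ j : ℕ), j ≤ (Finset.range θ \ K).card →
    ∃ θ₀ ≤ θ, (Finset.range θ₀ \ K).card = j := by
  intro θ
  induction θ with
  | zero =>
    intro j hj
    refine ⟨0, le_refl _, ?_⟩
    simp at hj ⊢
    omega
  | succ θ ih =>
    intro j hj
    by_cases h : j ≤ (Finset.range θ \ K).card
    · obtain ⟨θ₀, h1, h2⟩ := ih j h
      exact ⟨θ₀, by omega, h2⟩
    · refine ⟨θ + 1, le_refl _, ?_⟩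
      have h3 : (Finset.range (θ + 1) \ K).card ≤ (Finset.range θ \ K).card + 1 := by
        have : Finset.range (θ + 1) \ K ⊆ insert θ (Finset.range θ \ K) := by
          intro x hx
          simp only [mem_sdiff, mem_range, mem_insert] at hx ⊢
          by_cases hxθ : x = θ
          · exact Or.inl hxθ
          · exact Or.inr ⟨by omega, hx.2⟩
        exact (card_le_card this).trans (card_insert_le _ _)
      omega

theorem sdiff_split (p : ℕ → Prop) [DecidablePred p] (K : Finset ℕ) {θ₀ θ : ℕ} (h : θ₀ ≤ θ) :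
    ((Finset.range θ \ K).filter p).card = ((Finset.range θ₀ \ K).filter p).card +
      ((Finset.range θ \ (K ∪ Finset.range θ₀)).filter p).card := by
  rw [← card_union_of_disjoint]
  · congr 1
    ext x
    simp only [mem_filter, mem_union, mem_sdiff, mem_range]
    constructor
    · rintro ⟨⟨h1, h2⟩, h3⟩
      by_cases hx : x < θ₀
      · exact Or.inl ⟨⟨hx, h2⟩, h3⟩
      · exact Or.inr ⟨⟨h1, by tauto⟩, h3⟩
    · rintro (⟨⟨h1, h2⟩, h3⟩ | ⟨⟨h1, h2⟩, h3⟩)
      · exact ⟨⟨by omega, h2⟩, h3⟩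
      · exact ⟨⟨h1, by tauto⟩, h3⟩
  · rw [Finset.disjoint_left]
    intro x hx hx'
    simp only [mem_filter, mem_sdiff, mem_range, mem_union] at hx hx'
    tauto

theorem sdiff_split' (K : Finset ℕ) {θ₀ θ : ℕ} (h : θ₀ ≤ θ) :
    (Finset.range θ \ K).card = (Finset.range θ₀ \ K).card +
      (Finset.range θ \ (K ∪ Finset.range θ₀)).card := by
  have := sdiff_split (fun _ => True) K h
  simpa using this

theorem cnt_sdiff_split (K : Finset ℕ) {θ₀ θ : ℕ} (h : θ₀ ≤ θ) (w : ℤ) :
    cnt (Finset.range θ \ K) w = cnt (Finset.range θ₀ \ K) w +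
      cnt (Finset.range θ \ (K ∪ Finset.range θ₀)) w :=
  sdiff_split _ K h

end Pool.Agent.EdgeIso.SD
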