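import Pool.Agent.Lib.MP_48c8f3_co.SDA

/-!
MP_48c8f3_co, strong dominance for compressed families, part B: the statement `P M c` and its proof.
-/

set_option autoImplicit false

namespace Pool.Agent.EdgeIso.SD

open Finset

/-- `K` contains the closed neighbourhood of radius `c - 1` of `J` (no condition for `c = 0`) -/
def Nb (c M : ℕ) (J K : Finset ℕ) : Prop :=
  ∀ x ∈ J, ∀ z, z < 2 ^ M → (∀ t, T z t + 1 ≤ T x t + c) → z ∈ K

/-- the main statement: the first `|J|` holes of `K` are larger than the elements of `J` -/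
def P (M c : ℕ) : Prop :=
  ∀ J K : Finset ℕ, J ⊆ Finset.range (2 ^ M) → K ⊆ Finset.range (2 ^ M) → Idl J → Idl K →
    Nb c M J K → ∀ θ, θ ≤ 2 ^ M → (Finset.range θ \ K).card = J.card →
    ∀ w : ℤ, cnt (Finset.range θ \ K) w ≤ cnt J (w - c)

theorem Nb.mono {c M : ℕ} {J K J' K' : Finset ℕ} (h : Nb c M J K) (hJ : J' ⊆ J) (hK : K ⊆ K') :
    Nb c M J' K' := fun x hx z hz ht => hK (h x (hJ hx) z hz ht)

/-! ### reflection -/

theorem card_reflect (h : ℕ) (S : Finset ℕ) (hS : S ⊆ Finset.range h) (p : ℕ → Prop)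
    [DecidablePred p] :
    (S.filter p).card =
      (((Finset.range h).filter (fun x => h - 1 - x ∈ S)).filter (fun x => p (h - 1 - x))).card := by
  refine card_bij' (fun x _ => h - 1 - x) (fun x _ => h - 1 - x) ?_ ?_ ?_ ?_
  · intro x hx
    rw [mem_filter] at hx
    have := mem_range.1 (hS hx.1)
    have e : h - 1 - (h - 1 - x) = x := by omega
    simp only [mem_filter, mem_range, e]
    exact ⟨⟨by omega, hx.1⟩, hx.2⟩
  · intro x hx
    simp only [mem_filter, mem_range] at hx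
    rw [mem_filter]
    exact ⟨hx.1.2, hx.2⟩
  · intro x hx
    rw [mem_filter] at hx
    have := mem_range.1 (hS hx.1)
    show h - 1 - (h - 1 - x) = x
    omega
  · intro x hx
    simp only [mem_filter, mem_range] at hx
    show h - 1 - (h - 1 - x) = x
    omega

theorem cnt_reflect (M : ℕ) (S : Finset ℕ) (hS : S ⊆ Finset.range (2 ^ M)) (w : ℤ) :
    cnt S w + cnt ((Finset.range (2 ^ M)).filter (fun x => 2 ^ M - 1 - x ∈ S)) (M - w - 1) = S.card := by
  have h1 : cnt S w = (((Finset.range (2 ^ M)).filter (fun x => 2 ^ M - 1 - x ∈ S)).filter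
      (fun x => ¬ ((T x 0 : ℤ) ≤ M - w - 1))).card := by
    unfold cnt
    rw [card_reflect (2 ^ M) S hS (fun x => (T x 0 : ℤ) ≤ w)]
    congr 1
    refine Finset.filter_congr fun x hx => ?_
    simp only [mem_filter, mem_range] at hx
    have h2 := T_comp M x 0 hx.1 (Nat.zero_le M)
    have h3 : (T (2 ^ M - 1 - x) 0 : ℤ) + T x 0 = M := by
      have : ((T (2 ^ M - 1 - x) 0 + T x 0 : ℕ) : ℤ) = ((M - 0 : ℕ) : ℤ) := by rw [h2]
      push_cast at this
      simpa using this
    constructor <;> intro h <;> omega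
  have h4 : ((Finset.range (2 ^ M)).filter (fun x => 2 ^ M - 1 - x ∈ S)).card = S.card := by
    have := card_reflect (2 ^ M) S hS (fun _ => True)
    simpa using this.symm
  rw [h1, ← h4]
  unfold cnt
  rw [add_comm]
  exact Finset.card_filter_add_card_filter_not _

/-- the dual of an ideal -/
def du (M : ℕ) (A : Finset ℕ) : Finset ℕ := (Finset.range (2 ^ M)).filter (fun x => 2 ^ M - 1 - x ∉ A)

theorem mem_du {M x : ℕ} {A : Finset ℕ} : x ∈ du M A ↔ x < 2 ^ M ∧ 2 ^ M - 1 - x ∉ A := by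
  simp [du]

theorem du_sub (M : ℕ) (A : Finset ℕ) : du M A ⊆ Finset.range (2 ^ M) := filter_subset _ _

theorem T_comp_le {M x y : ℕ} (hx : x < 2 ^ M) (hy : y < 2 ^ M) (c : ℕ)
    (h : ∀ t, T y t ≤ T x t + c) (t : ℕ) : T (2 ^ M - 1 - x) t ≤ T (2 ^ M - 1 - y) t + c := by
  by_cases ht : t ≤ M
  · have h1 := T_comp M x t hx ht
    have h2 := T_comp M y t hy ht
    have h3 := h t
    omega
  · rw [T_of_le M (2 ^ M - 1 - x) t (by omega) (by omega)]
    omega

theorem T_comp_lt {M x y : ℕ} (hx : x < 2 ^ M) (hy : y < 2 ^ M) (c : ℕ)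
    (h : ∀ t, T y t + 1 ≤ T x t + c) (t : ℕ) : T (2 ^ M - 1 - x) t + 1 ≤ T (2 ^ M - 1 - y) t + c := by
  have hc : 1 ≤ c := by
    have := h M
    rw [T_of_le M y M hy (le_refl _), T_of_le M x M hx (le_refl _)] at this
    omega
  by_cases ht : t ≤ M
  · have h1 := T_comp M x t hx ht
    have h2 := T_comp M y t hy ht
    have h3 := h t
    omega
  · rw [T_of_le M (2 ^ M - 1 - x) t (by omega) (by omega)]
    omega

theorem Idl.du {A : Finset ℕ} (M : ℕ) (hA : Idl A) : Idl (du M A) := by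
  intro x hx y hy
  rw [mem_du] at hx ⊢
  have hyx := le_of_T' hy
  refine ⟨by omega, fun hmem => hx.2 (hA _ hmem _ fun t => ?_)⟩
  have := T_comp_le (x := x) (y := y) hx.1 (by omega) 0 (fun t => by simpa using hy t) t
  simpa using this

theorem du_card (M : ℕ) (A : Finset ℕ) (hA : A ⊆ Finset.range (2 ^ M)) :
    (du M A).card = (Finset.range (2 ^ M) \ A).card := by
  have h1 := card_reflect (2 ^ M) (Finset.range (2 ^ M) \ A) sdiff_subset (fun _ => True)
  have h2 : (Finset.range (2 ^ M)).filter (fun x => 2 ^ M - 1 - x ∈ Finset.range (2 ^ M) \ A) = du M A := by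
    ext x
    simp only [mem_filter, mem_sdiff, mem_range, mem_du]
    constructor
    · rintro ⟨h1, h2, h3⟩; exact ⟨h1, h3⟩
    · rintro ⟨h1, h2⟩; exact ⟨h1, by omega, h2⟩
  rw [h2] at h1
  simpa using h1.symm

/-- consequence of `P M c` by duality -/
theorem dual_P {M c : ℕ} (hP : P M c) {J K : Finset ℕ} (hJs : J ⊆ Finset.range (2 ^ M))
    (hJ : Idl J) (hK : Idl K) (hKs : K ⊆ Finset.range (2 ^ M)) (hN : Nb c M J K)
    (ha : (Finset.range (2 ^ M) \ K).card ≤ J.card) :
    ∃ ρ, (J \ Finset.range ρ).card = (Finset.range (2 ^ M) \ K).card ∧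
      ∀ w : ℤ, cnt (Finset.range (2 ^ M) \ K) w ≤ cnt (J \ Finset.range ρ) (w - c) := by
  have hZ : (Finset.range (2 ^ M) \ du M J).card = J.card := by
    have h1 := card_reflect (2 ^ M) J hJs (fun _ => True)
    have h2 : (Finset.range (2 ^ M)).filter (fun x => 2 ^ M - 1 - x ∈ J) =
        Finset.range (2 ^ M) \ du M J := by
      ext x
      simp only [mem_filter, mem_sdiff, mem_range, mem_du]
      tauto
    rw [h2] at h1
    simpa using h1.symm
  have hXc : (du M K).card = (Finset.range (2 ^ M) \ K).card := du_card M K hKs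
  obtain ⟨τ, hτ, hτc⟩ := exists_theta (du M J) (2 ^ M) (du M K).card (by rw [hZ, hXc]; exact ha)
  have hN' : Nb c M (du M K) (du M J) := by
    intro x hx z hz ht
    rw [mem_du] at hx ⊢
    refine ⟨hz, fun hmem => hx.2 (hN _ hmem _ (by omega) fun t => ?_)⟩
    exact T_comp_lt hx.1 hz c ht t
  have key := hP (du M K) (du M J) (du_sub M K) (du_sub M J) (hK.du M) (hJ.du M) hN' τ hτ hτc
  refine ⟨2 ^ M - τ, ?_, ?_⟩
  · rw [← hXc, ← hτc]
    have h1 := card_reflect (2 ^ M) (J \ Finset.range (2 ^ M - τ)) (sdiff_subset.trans hJs) (fun _ => True)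
    have h2 : (Finset.range (2 ^ M)).filter (fun x => 2 ^ M - 1 - x ∈ J \ Finset.range (2 ^ M - τ)) =
        Finset.range τ \ du M J := by
      ext x
      simp only [mem_filter, mem_sdiff, mem_range, mem_du]
      constructor
      · rintro ⟨h1, h2, h3⟩
        exact ⟨by omega, by tauto⟩
      · rintro ⟨h1, h2⟩
        have h3 : x < 2 ^ M := by omega
        refine ⟨h3, ?_, by omega⟩
        by_contra h4
        exact h2 ⟨h3, h4⟩
    rw [h2] at h1
    simpa using h1
  · intro w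
    have h1 := cnt_reflect M (Finset.range (2 ^ M) \ K) sdiff_subset w
    have h1' : (Finset.range (2 ^ M)).filter (fun x => 2 ^ M - 1 - x ∈ Finset.range (2 ^ M) \ K) =
        du M K := by
      ext x
      simp only [mem_filter, mem_sdiff, mem_range, mem_du]
      constructor
      · rintro ⟨h1, h2, h3⟩; exact ⟨h1, h3⟩
      · rintro ⟨h1, h2⟩; exact ⟨h1, by omega, h2⟩
    rw [h1'] at h1
    have h2 := cnt_reflect M (J \ Finset.range (2 ^ M - τ)) (sdiff_subset.trans hJs) (w - c)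
    have h2' : (Finset.range (2 ^ M)).filter (fun x => 2 ^ M - 1 - x ∈ J \ Finset.range (2 ^ M - τ)) =
        Finset.range τ \ du M J := by
      ext x
      simp only [mem_filter, mem_sdiff, mem_range, mem_du]
      constructor
      · rintro ⟨h1, h2, h3⟩
        exact ⟨by omega, by tauto⟩
      · rintro ⟨h1, h2⟩
        have h3 : x < 2 ^ M := by omega
        refine ⟨h3, ?_, by omega⟩
        by_contra h4
        exact h2 ⟨h3, h4⟩
    rw [h2'] at h2
    have h3 := key (M - (w - c) - 1)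
    have e : (M : ℤ) - (w - c) - 1 - c = M - w - 1 := by ring
    rw [e] at h3
    have h4 : (J \ Finset.range (2 ^ M - τ)).card = (Finset.range (2 ^ M) \ K).card := by
      rw [← hXc, ← hτc, ← h2']
      have h5 := card_reflect (2 ^ M) (J \ Finset.range (2 ^ M - τ)) (sdiff_subset.trans hJs)
        (fun _ => True)
      simpa using h5
    omega

/-! ### the halves -/

theorem two_pow_succ' (M : ℕ) : 2 ^ (M + 1) = 2 ^ M + 2 ^ M := by rw [pow_succ]; omega

theorem lo_range_sdiff {h θ : ℕ} (K : Finset ℕ) (hθ : h ≤ θ) :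
    lo h (Finset.range θ \ K) = Finset.range h \ lo h K := by
  ext x
  simp only [mem_lo, mem_sdiff, mem_range]
  constructor
  · rintro ⟨⟨h1, h2⟩, h3⟩; exact ⟨h3, by tauto⟩
  · rintro ⟨h1, h2⟩; exact ⟨⟨by omega, by tauto⟩, h1⟩

theorem hi_range_sdiff {h θ : ℕ} (K : Finset ℕ) (hθ : θ ≤ h + h) :
    hi h (Finset.range θ \ K) = Finset.range (θ - h) \ hi h K := by
  ext x
  simp only [mem_hi, mem_sdiff, mem_range]
  constructor
  · rintro ⟨h1, h2, h3⟩; exact ⟨by omega, by tauto⟩
  · rintro ⟨h1, h2⟩; exact ⟨by omega, by omega, fun h3 => h2 ⟨by omega, h3⟩⟩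

theorem range_sdiff_lo {h θ : ℕ} (K : Finset ℕ) (hθ : θ ≤ h) :
    Finset.range θ \ K = Finset.range θ \ lo h K := by
  ext x
  simp only [mem_lo, mem_sdiff, mem_range]
  constructor
  · rintro ⟨h1, h2⟩; exact ⟨h1, by tauto⟩
  · rintro ⟨h1, h2⟩; exact ⟨h1, fun h3 => h2 ⟨h3, by omega⟩⟩

theorem cnt_range_split {M θ : ℕ} (K : Finset ℕ) (h1 : 2 ^ M ≤ θ) (h2 : θ ≤ 2 ^ (M + 1)) (w : ℤ) :
    cnt (Finset.range θ \ K) w = cnt (Finset.range (2 ^ M) \ lo (2 ^ M) K) w +
      cnt (Finset.range (θ - 2 ^ M) \ hi (2 ^ M) K) (w - 1) := by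
  rw [cnt_split M _ (sdiff_subset.trans (range_subset_range.2 h2)) w, lo_range_sdiff K h1,
    hi_range_sdiff K (by rw [two_pow_succ'] at h2; exact h2)]

theorem card_range_split {M θ : ℕ} (K : Finset ℕ) (h1 : 2 ^ M ≤ θ) (h2 : θ ≤ 2 ^ (M + 1)) :
    (Finset.range θ \ K).card = (Finset.range (2 ^ M) \ lo (2 ^ M) K).card +
      (Finset.range (θ - 2 ^ M) \ hi (2 ^ M) K).card := by
  rw [two_pow_succ'] at h2
  rw [card_split' (2 ^ M) _ (sdiff_subset.trans (range_subset_range.2 h2)), lo_range_sdiff K h1,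
    hi_range_sdiff K h2]

end Pool.Agent.EdgeIso.SD
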