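import Pool.Agent.Lib.MP_48c8f3_co.SDB

/-!
MP_48c8f3_co, strong dominance for compressed families, part C: proof of `P M c` for all `M`, `c`.
-/

set_option autoImplicit false

namespace Pool.Agent.EdgeIso.SD

open Finset

theorem Nb_lo_lo {c M : ℕ} {J K : Finset ℕ} (hN : Nb c (M + 1) J K) :
    Nb c M (lo (2 ^ M) J) (lo (2 ^ M) K) := by
  intro x hx z hz ht
  rw [mem_lo] at hx ⊢
  exact ⟨hN x hx.1 z (by rw [two_pow_succ']; omega) ht, hz⟩

theorem Nb_hi_lo' {c M : ℕ} (hc : 1 ≤ c) {J K : Finset ℕ} (hN : Nb c (M + 1) J K) :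
    Nb (c + 1) (M + 1) (hi (2 ^ M) J) K := by
  intro x hx z hz ht
  rw [mem_hi] at hx
  refine hN _ hx.2 z hz fun t => ?_
  rw [T_top t hx.1]
  by_cases htM : t ≤ M
  · rw [if_pos htM]
    have := ht t
    omega
  · rw [if_neg htM, T_of_le (M + 1) z t hz (by omega)]
    omega

theorem Nb_hi_lo {c M : ℕ} (hc : 1 ≤ c) {J K : Finset ℕ} (hN : Nb c (M + 1) J K) :
    Nb (c + 1) M (hi (2 ^ M) J) (lo (2 ^ M) K) := by
  intro x hx z hz ht
  rw [mem_lo]
  exact ⟨Nb_hi_lo' hc hN x hx z (by rw [two_pow_succ']; omega) ht, hz⟩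

theorem Nb_hi_hi {c M : ℕ} {J K : Finset ℕ} (hN : Nb c (M + 1) J K) :
    Nb c M (hi (2 ^ M) J) (hi (2 ^ M) K) := by
  intro x hx z hz ht
  rw [mem_hi] at hx ⊢
  refine ⟨hz, hN _ hx.2 _ (by rw [two_pow_succ']; omega) fun t => ?_⟩
  rw [T_top t hx.1, T_top t hz]
  have := ht t
  omega

theorem Nb_lo_hi {c M : ℕ} {J K : Finset ℕ} (hN : Nb (c + 1) (M + 1) J K) :
    Nb c M (lo (2 ^ M) J) (hi (2 ^ M) K) := by
  intro x hx z hz ht
  rw [mem_lo] at hx
  rw [mem_hi]
  refine ⟨hz, hN _ hx.1 _ (by rw [two_pow_succ']; omega) fun t => ?_⟩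
  rw [T_top t hz]
  have := ht t
  split_ifs <;> omega

theorem zero_mem_of_nonempty {J : Finset ℕ} (hJ : Idl J) (hne : J.Nonempty) : 0 ∈ J := by
  obtain ⟨x, hx⟩ := hne
  exact hJ x hx 0 fun t => by rw [T_zero]; exact Nat.zero_le _

theorem cnt_le_card (S : Finset ℕ) (w : ℤ) : cnt S w ≤ S.card := card_filter_le _ _

theorem cnt_inter_split (S R : Finset ℕ) (w : ℤ) : cnt S w = cnt (S \ R) w + cnt (S ∩ R) w := by
  unfold cnt
  rw [← card_union_of_disjoint]
  · congr 1
    ext x
    simp only [mem_filter, mem_union, mem_sdiff, mem_inter]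
    tauto
  · rw [Finset.disjoint_left]
    intro x hx hx'
    simp only [mem_filter, mem_sdiff, mem_inter] at hx hx'
    tauto

theorem card_inter_split (S R : Finset ℕ) : S.card = (S \ R).card + (S ∩ R).card :=
  (card_sdiff_add_card_inter S R).symm

theorem step_pos {M : ℕ} (ih : ∀ c, P M c) : ∀ (s : ℕ) (J K : Finset ℕ), J.card ≤ s →
    J ⊆ Finset.range (2 ^ (M + 1)) → K ⊆ Finset.range (2 ^ (M + 1)) → Idl J → Idl K →
    ∀ c, 1 ≤ c → Nb c (M + 1) J K → ∀ θ, θ ≤ 2 ^ (M + 1) → (Finset.range θ \ K).card = J.card →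
    ∀ w : ℤ, cnt (Finset.range θ \ K) w ≤ cnt J (w - c) := by
  intro s
  induction s with
  | zero =>
    intro J K hs _ _ _ _ c _ _ θ _ hc w
    have h1 : (Finset.range θ \ K) = ∅ := card_eq_zero.1 (by omega)
    rw [h1, cnt_empty]
    exact Nat.zero_le _
  | succ s IH =>
    intro J K hs hJs hKs hJ hK c hc1 hN θ hθ hcard w
    rcases J.eq_empty_or_nonempty with hJe | hJne
    · have h1 : (Finset.range θ \ K) = ∅ := card_eq_zero.1 (by rw [hcard, hJe, card_empty])
      rw [h1, cnt_empty]
      exact Nat.zero_le _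
    have h2M := two_pow_succ' M
    have hJsplit := card_split' (2 ^ M) J (by rw [← h2M]; exact hJs)
    have hJcnt := fun v => cnt_split M J hJs v
    have hJ0ne : 0 < (lo (2 ^ M) J).card := by
      refine card_pos.2 ⟨0, ?_⟩
      rw [mem_lo]
      exact ⟨zero_mem_of_nonempty hJ hJne, by positivity⟩
    have e1 : w - c - 1 = w - ((c + 1 : ℕ) : ℤ) := by push_cast; ring
    rcases le_or_gt θ (2 ^ M) with hθM | hθM
    · -- all holes in the lower half
      have hr : Finset.range θ \ K = Finset.range θ \ lo (2 ^ M) K := range_sdiff_lo K hθM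
      rw [hr] at hcard ⊢
      obtain ⟨θ₀, hθ₀, hc₀⟩ := exists_theta (lo (2 ^ M) K) θ (lo (2 ^ M) J).card (by omega)
      have h1 := ih c _ _ (lo_sub _ J) (lo_sub _ K) (hJ.lo _) (hK.lo _) (Nb_lo_lo hN) θ₀ (by omega) hc₀ w
      have h2 := ih (c + 1) (hi (2 ^ M) J) (lo (2 ^ M) K ∪ Finset.range θ₀) (hi_sub _ J)
        (union_subset (lo_sub _ K) (range_subset_range.2 (by omega))) (hJ.hi M)
        ((hK.lo _).union (Idl.range θ₀))
        ((Nb_hi_lo hc1 hN).mono (Finset.Subset.refl _) subset_union_left) θ hθM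
        (by have := sdiff_split' (lo (2 ^ M) K) hθ₀; omega) w
      rw [cnt_sdiff_split (lo (2 ^ M) K) hθ₀ w, hJcnt, e1]
      omega
    · have hcs := card_range_split K hθM.le hθ
      rcases le_or_gt (lo (2 ^ M) J).card (Finset.range (2 ^ M) \ lo (2 ^ M) K).card with hja | hja
      · obtain ⟨θ₀, hθ₀, hc₀⟩ := exists_theta (lo (2 ^ M) K) (2 ^ M) (lo (2 ^ M) J).card hja
        have hr : Finset.range θ₀ \ K = Finset.range θ₀ \ lo (2 ^ M) K := range_sdiff_lo K hθ₀
        have h1 := ih c _ _ (lo_sub _ J) (lo_sub _ K) (hJ.lo _) (hK.lo _) (Nb_lo_lo hN) θ₀ hθ₀ hc₀ w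
        have hle : θ₀ ≤ θ := by omega
        have h2 := IH (hi (2 ^ M) J) (K ∪ Finset.range θ₀) (by omega)
          ((hi_sub _ J).trans (range_subset_range.2 (by omega)))
          (union_subset hKs (range_subset_range.2 (by omega))) (hJ.hi M)
          (hK.union (Idl.range θ₀)) (c + 1) (by omega)
          ((Nb_hi_lo' hc1 hN).mono (Finset.Subset.refl _) subset_union_left) θ hθ
          (by have := sdiff_split' K hle; rw [hr, hc₀] at this; omega) w
        rw [cnt_sdiff_split K hle w, hJcnt, e1, hr]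
        omega
      · rcases (hi (2 ^ M) J).eq_empty_or_nonempty with hJ1 | hJ1
        · -- J in the lower half
          have hJ1c : (hi (2 ^ M) J).card = 0 := by rw [hJ1, card_empty]
          obtain ⟨ρ, hρ1, hρ2⟩ := dual_P (ih c) (lo_sub _ J) (hJ.lo _) (hK.lo _) (lo_sub _ K)
            (Nb_lo_lo hN) hja.le
          have hinter := card_inter_split (lo (2 ^ M) J) (Finset.range ρ)
          obtain ⟨c', rfl⟩ : ∃ c', c = c' + 1 := ⟨c - 1, by omega⟩
          have h2 := ih c' (lo (2 ^ M) J ∩ Finset.range ρ) (hi (2 ^ M) K)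
            (inter_subset_left.trans (lo_sub _ J)) (hi_sub _ K) ((hJ.lo _).inter (Idl.range ρ))
            (hK.hi M) ((Nb_lo_hi hN).mono inter_subset_left (Finset.Subset.refl _)) (θ - 2 ^ M)
            (by omega) (by omega) (w - 1)
          have h3 := hρ2 w
          have e2 : w - 1 - (c' : ℤ) = w - ((c' + 1 : ℕ) : ℤ) := by push_cast; ring
          rw [e2] at h2
          rw [cnt_range_split K hθM.le hθ, hJcnt, hJ1, cnt_empty,
            cnt_inter_split (lo (2 ^ M) J) (Finset.range ρ)]
          omega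
        · have hJ1c := card_pos.2 hJ1
          obtain ⟨θ₀, hθ₀, hc₀⟩ := exists_theta K θ (lo (2 ^ M) J).card (by omega)
          have hθ₀M : 2 ^ M < θ₀ := by
            by_contra hcon
            push Not at hcon
            have h3 : Finset.range θ₀ \ K ⊆ Finset.range (2 ^ M) \ lo (2 ^ M) K := by
              rw [range_sdiff_lo K hcon]
              exact sdiff_subset_sdiff (range_subset_range.2 hcon) (Finset.Subset.refl _)
            have := card_le_card h3
            omega
          have h1 := IH (lo (2 ^ M) J) K (by omega)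
            ((lo_sub _ J).trans (range_subset_range.2 (by omega))) hKs (hJ.lo _) hK c hc1
            (hN.mono (fun x hx => (mem_lo.1 hx).1) (Finset.Subset.refl _)) θ₀ (by omega) hc₀ w
          have hcs₀ := card_range_split K hθ₀M.le (hθ₀.trans hθ)
          have hle : θ₀ - 2 ^ M ≤ θ - 2 ^ M := by omega
          have hsp := sdiff_split' (hi (2 ^ M) K) hle
          have h2 := ih c (hi (2 ^ M) J) (hi (2 ^ M) K ∪ Finset.range (θ₀ - 2 ^ M)) (hi_sub _ J)
            (union_subset (hi_sub _ K) (range_subset_range.2 (by omega))) (hJ.hi M)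
            ((hK.hi M).union (Idl.range _))
            ((Nb_hi_hi hN).mono (Finset.Subset.refl _) subset_union_left) (θ - 2 ^ M) (by omega)
            (by omega) (w - 1)
          have h3 := cnt_range_split K hθ₀M.le (hθ₀.trans hθ) w
          have h4 := cnt_sdiff_split (hi (2 ^ M) K) hle (w - 1)
          have e2 : w - 1 - (c : ℤ) = w - c - 1 := by ring
          rw [e2] at h2
          rw [cnt_range_split K hθM.le hθ, hJcnt]
          omega

/-- initial segments have the fewest small elements -/
def F1 (M : ℕ) : Prop := ∀ J : Finset ℕ, J ⊆ Finset.range (2 ^ M) → Idl J →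
  ∀ w : ℤ, cnt (Finset.range J.card) w ≤ cnt J w

theorem Idl_empty : Idl ∅ := by
  intro x hx
  simp at hx

theorem card_le_two_pow {M : ℕ} {J : Finset ℕ} (hJ : J ⊆ Finset.range (2 ^ M)) : J.card ≤ 2 ^ M := by
  simpa using card_le_card hJ

theorem F1_of_P {M : ℕ} (h : P M 0) : F1 M := by
  intro J hJs hJ w
  have h1 := h J ∅ hJs (empty_subset _) hJ Idl_empty (by
    intro x _ z _ ht
    have h2 := ht (x + z + 1)
    rw [T_of_le (x + z + 1) x _ (lt_of_lt_of_le (lt_two_pow' x)
      (Nat.pow_le_pow_right (by norm_num) (by omega))) (le_refl _)] at h2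
    omega) J.card (card_le_two_pow hJs) (by simp) w
  simpa using h1

theorem F1_succ {M : ℕ} (h1 : F1 M) (hP : ∀ (J K : Finset ℕ),
    J ⊆ Finset.range (2 ^ (M + 1)) → K ⊆ Finset.range (2 ^ (M + 1)) → Idl J → Idl K →
    Nb 1 (M + 1) J K → ∀ θ, θ ≤ 2 ^ (M + 1) → (Finset.range θ \ K).card = J.card →
    ∀ w : ℤ, cnt (Finset.range θ \ K) w ≤ cnt J (w - 1)) : F1 (M + 1) := by
  intro J hJs hJ w
  have h2M := two_pow_succ' M
  have hJsplit := card_split' (2 ^ M) J (by rw [← h2M]; exact hJs)
  have hle : (hi (2 ^ M) J).card ≤ (lo (2 ^ M) J).card := by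
    refine card_le_card fun x hx => ?_
    rw [mem_hi] at hx
    rw [mem_lo]
    refine ⟨hJ _ hx.2 x fun t => ?_, hx.1⟩
    rw [T_top t hx.1]
    omega
  have hc := card_le_two_pow hJs
  have h3 := hP (Finset.range (hi (2 ^ M) J).card) (Finset.range (lo (2 ^ M) J).card)
    (range_subset_range.2 (by omega)) (range_subset_range.2 (by omega)) (Idl.range _) (Idl.range _)
    (by
      intro x hx z _ ht
      rw [mem_range] at hx ⊢
      have : z ≤ x := le_of_T' fun t => by have := ht t; omega
      omega) J.card hc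
    (by rw [card_sdiff_of_subset (range_subset_range.2 (by omega)), card_range, card_range,
          card_range]; omega) w
  have h4 : cnt (Finset.range J.card) w = cnt (Finset.range (lo (2 ^ M) J).card) w +
      cnt (Finset.range J.card \ Finset.range (lo (2 ^ M) J).card) w := by
    rw [cnt_inter_split (Finset.range J.card) (Finset.range (lo (2 ^ M) J).card), add_comm]
    congr 2
    exact inter_eq_right.2 (range_subset_range.2 (by omega))
  have h5 := h1 (lo (2 ^ M) J) (lo_sub _ J) (hJ.lo _) w
  have h6 := h1 (hi (2 ^ M) J) (hi_sub _ J) (hJ.hi M) (w - 1)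
  have h7 := cnt_split M J hJs w
  have h8 : cnt (Finset.range (hi (2 ^ M) J).card) (w - 1) ≤ cnt (hi (2 ^ M) J) (w - 1) := h6
  omega

theorem range_sdiff_card {a b : ℕ} (h : a ≤ b) : (Finset.range b \ Finset.range a).card = b - a := by
  rw [card_sdiff_of_subset (range_subset_range.2 h), card_range, card_range]

/-- `F3`: comparison of the holes with an initial segment -/
theorem F3_succ {M : ℕ} (ih : P M 0) (K : Finset ℕ) (hKs : K ⊆ Finset.range (2 ^ (M + 1)))
    (hK : Idl K) (θ : ℕ) (hθ : θ ≤ 2 ^ (M + 1)) (w : ℤ) :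
    cnt (Finset.range θ \ K) w ≤ cnt (Finset.range (Finset.range θ \ K).card) w := by
  have h2M := two_pow_succ' M
  have Nb0 : ∀ (J K : Finset ℕ), Nb 0 M J K := by
    intro J K x _ z _ ht
    have h2 := ht (x + z + 1)
    rw [T_of_le (x + z + 1) x _ (lt_of_lt_of_le (lt_two_pow' x)
      (Nat.pow_le_pow_right (by norm_num) (by omega))) (le_refl _)] at h2
    omega
  rcases le_or_gt θ (2 ^ M) with hθM | hθM
  · rw [range_sdiff_lo K hθM]
    have hcard : (Finset.range θ \ lo (2 ^ M) K).card ≤ 2 ^ M := by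
      have := card_le_card (sdiff_subset (s := Finset.range θ) (t := lo (2 ^ M) K))
      rw [card_range] at this
      omega
    have := ih (Finset.range (Finset.range θ \ lo (2 ^ M) K).card) (lo (2 ^ M) K)
      (range_subset_range.2 hcard) (lo_sub _ K) (Idl.range _) (hK.lo _) (Nb0 _ _) θ hθM
      (by rw [card_range]) w
    simpa using this
  · have hcs := card_range_split K hθM.le hθ
    have hcnt := cnt_range_split K hθM.le hθ w
    set j := (Finset.range θ \ K).card with hj
    set a := (Finset.range (2 ^ M) \ lo (2 ^ M) K).card with ha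
    have haM : a ≤ 2 ^ M := by
      have := card_le_card (sdiff_subset (s := Finset.range (2 ^ M)) (t := lo (2 ^ M) K))
      rw [card_range] at this
      exact this
    rcases le_or_gt j (2 ^ M) with hjM | hjM
    · obtain ⟨ρ, hρ1, hρ2⟩ := dual_P ih (J := Finset.range j) (range_subset_range.2 hjM)
        (Idl.range _) (hK.lo (2 ^ M)) (lo_sub _ K) (Nb0 _ _) (by rw [card_range]; omega)
      rw [← ha] at hρ1
      have hρ3 : min ρ j = j - a := by
        have h3 := card_inter_split (Finset.range j) (Finset.range ρ)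
        have h4 : Finset.range j ∩ Finset.range ρ = Finset.range (min ρ j) := by
          ext x; simp only [mem_inter, mem_range, lt_min_iff]; tauto
        rw [h4, card_range, card_range, hρ1] at h3
        omega
      have h2 := ih (Finset.range (j - a)) (hi (2 ^ M) K) (range_subset_range.2 (by omega))
        (hi_sub _ K) (Idl.range _) (hK.hi M) (Nb0 _ _) (θ - 2 ^ M) (by omega)
        (by rw [card_range]; omega) (w - 1)
      have h3 := hρ2 w
      have h4 := cnt_inter_split (Finset.range j) (Finset.range ρ) w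
      have h5 : Finset.range j ∩ Finset.range ρ = Finset.range (j - a) := by
        rw [← hρ3]
        ext x; simp only [mem_inter, mem_range, lt_min_iff]; tauto
      rw [h5] at h4
      have h6 : cnt (Finset.range (j - a)) (w - 1 - ((0 : ℕ) : ℤ)) ≤ cnt (Finset.range (j - a)) w :=
        cnt_mono (by push_cast; linarith)
      have h7 : w - ((0 : ℕ) : ℤ) = w := by push_cast; ring
      rw [h7] at h3
      omega
    · -- `j > 2^M`
      have hjr : (Finset.range (θ - 2 ^ M) \ hi (2 ^ M) K).card ≤ θ - 2 ^ M := by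
        have := card_le_card (sdiff_subset (s := Finset.range (θ - 2 ^ M)) (t := hi (2 ^ M) K))
        rwa [card_range] at this
      have hj2 : j ≤ 2 ^ M + 2 ^ M := by omega
      have hk0 : (lo (2 ^ M) K).card + a = 2 ^ M := by
        have h3 := card_sdiff_add_card_inter (Finset.range (2 ^ M)) (lo (2 ^ M) K)
        rw [inter_eq_right.2 (lo_sub _ K), card_range] at h3
        omega
      obtain ⟨θ₁, hθ₁, hc₁⟩ := exists_theta (hi (2 ^ M) K) (θ - 2 ^ M) (lo (2 ^ M) K).card (by omega)
      have h1 := ih (lo (2 ^ M) K) (hi (2 ^ M) K) (lo_sub _ K) (hi_sub _ K) (hK.lo _) (hK.hi M)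
        (Nb0 _ _) θ₁ (by omega) hc₁ (w - 1)
      have h2 := ih (Finset.range (j - 2 ^ M)) (hi (2 ^ M) K ∪ Finset.range θ₁)
        (range_subset_range.2 (by omega)) (union_subset (hi_sub _ K) (range_subset_range.2 (by omega)))
        (Idl.range _) ((hK.hi M).union (Idl.range _)) (Nb0 _ _) (θ - 2 ^ M) (by omega)
        (by rw [card_range]; have := sdiff_split' (hi (2 ^ M) K) hθ₁; omega) (w - 1)
      have h3 := cnt_sdiff_split (hi (2 ^ M) K) hθ₁ (w - 1)
      have h4 := cnt_split M (Finset.range j) (range_subset_range.2 (by omega)) w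
      have h5 : lo (2 ^ M) (Finset.range j) = Finset.range (2 ^ M) := by
        clear_value j a
        ext x; simp only [mem_lo, mem_range]; omega
      have h6 : hi (2 ^ M) (Finset.range j) = Finset.range (j - 2 ^ M) := by
        clear_value j a
        ext x; simp only [mem_hi, mem_range]
        constructor
        · rintro ⟨h61, h62⟩; omega
        · intro h61; exact ⟨by omega, by omega⟩
      rw [h5, h6] at h4
      have h7 := cnt_inter_split (Finset.range (2 ^ M)) (lo (2 ^ M) K) w
      rw [inter_eq_right.2 (lo_sub _ K)] at h7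
      have h8 : cnt (lo (2 ^ M) K) (w - 1 - ((0 : ℕ) : ℤ)) ≤ cnt (lo (2 ^ M) K) w :=
        cnt_mono (by push_cast; linarith)
      have h9 : w - 1 - ((0 : ℕ) : ℤ) = w - 1 := by push_cast; ring
      rw [h9] at h2
      omega

theorem P_zero_dim (c : ℕ) : P 0 c := by
  intro J K hJs hKs hJ hK hN θ hθ hcard w
  rcases J.eq_empty_or_nonempty with hJe | hJne
  · have h1 : (Finset.range θ \ K) = ∅ := card_eq_zero.1 (by rw [hcard, hJe, card_empty])
    rw [h1, cnt_empty]
    exact Nat.zero_le _
  · have h0 : J = {0} := by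
      refine Finset.Subset.antisymm (by simpa using hJs) ?_
      rw [singleton_subset_iff]
      exact zero_mem_of_nonempty hJ hJne
    have hθ1 : (Finset.range θ \ K) ⊆ {0} := by
      intro x hx
      simp only [mem_sdiff, mem_range] at hx
      rw [mem_singleton]
      simp at hθ
      omega
    have hKe : 0 ∉ K := by
      have h1 : (Finset.range θ \ K).Nonempty := by
        rw [← card_pos, hcard, h0]; simp
      obtain ⟨x, hx⟩ := h1
      have hx0 := mem_singleton.1 (hθ1 hx)
      rw [hx0] at hx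
      exact (mem_sdiff.1 hx).2
    have hc : c = 0 := by
      by_contra hc
      refine hKe (hN 0 (by rw [h0]; simp) 0 (by norm_num) fun t => ?_)
      omega
    rw [h0, hc]
    have := card_le_card (filter_subset_filter (fun x => (T x 0 : ℤ) ≤ w) hθ1)
    have e : w - ((0 : ℕ) : ℤ) = w := by push_cast; ring
    rw [e]
    exact this

/-- **main theorem of this part** -/
theorem P_all : ∀ M c : ℕ, P M c := by
  intro M
  induction M with
  | zero => exact P_zero_dim
  | succ M ih =>
    have hpos : ∀ c, 1 ≤ c → P (M + 1) c := by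
      intro c hc J K hJs hKs hJ hK hN θ hθ hcard w
      exact step_pos ih J.card J K (le_refl _) hJs hKs hJ hK c hc hN θ hθ hcard w
    intro c
    rcases Nat.eq_zero_or_pos c with rfl | hc
    · have hF1 : F1 (M + 1) := F1_succ (F1_of_P (ih 0)) (by
        intro J K hJs hKs hJ hK hN θ hθ hcard w
        have := hpos 1 (le_refl _) J K hJs hKs hJ hK hN θ hθ hcard w
        simpa using this)
      intro J K hJs hKs hJ hK hN θ hθ hcard w
      have h1 := F3_succ (ih 0) K hKs hK θ hθ w
      rw [hcard] at h1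
      have h2 := hF1 J hJs hJ w
      have e : w - ((0 : ℕ) : ℤ) = w := by push_cast; ring
      rw [e]
      exact h1.trans h2
    · exact hpos c hc

end Pool.Agent.EdgeIso.SD
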