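import Pool.Agent.Lib.MP_48c8f3_co.SDC

/-!
MP_48c8f3_co, strong dominance for compressed families, part D: the ideal `A` dominates the initial
segment `range |A|`, and the consequence for the weights.
-/

set_option autoImplicit false

namespace Pool.Agent.EdgeIso.SD

open Finset

/-- number of elements with exactly `w` digits `1` -/
def eqc (S : Finset ℕ) (w : ℤ) : ℕ := (S.filter (fun x => (T x 0 : ℤ) = w)).card

theorem cnt_succ (S : Finset ℕ) (w : ℤ) : cnt S w = cnt S (w - 1) + eqc S w := by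
  unfold cnt eqc
  rw [← card_union_of_disjoint]
  · congr 1
    ext x
    simp only [mem_filter, mem_union]
    constructor
    · rintro ⟨h1, h2⟩
      rcases h2.lt_or_eq with h | h
      · exact Or.inl ⟨h1, by omega⟩
      · exact Or.inr ⟨h1, h⟩
    · rintro (⟨h1, h2⟩ | ⟨h1, h2⟩)
      · exact ⟨h1, by omega⟩
      · exact ⟨h1, by omega⟩
  · rw [Finset.disjoint_left]
    intro x hx hx'
    simp only [mem_filter] at hx hx'
    omega

/-- the domination relation -/
def Dom (A C : Finset ℕ) : Prop := ∀ w : ℤ, cnt (C \ A) w ≤ cnt (A \ C) (w - 1)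

theorem dom_iff (A C : Finset ℕ) : Dom A C ↔ ∀ w : ℤ, cnt C w ≤ cnt A (w - 1) + eqc (A ∩ C) w := by
  refine forall_congr' fun w => ?_
  have h1 := cnt_inter_split C A w
  have h2 := cnt_inter_split A C (w - 1)
  have h3 := cnt_succ (A ∩ C) w
  rw [inter_comm C A] at h1
  omega

theorem Dom.trans {A B C : Finset ℕ} (h1 : Dom A B) (h2 : Dom B C) : Dom A C := by
  rw [dom_iff] at h1 h2 ⊢
  intro w
  have h3 := h1 w
  have h4 := h2 w
  have h5 := cnt_succ B w
  have h6 : eqc (A ∩ B) w + eqc (B ∩ C) w ≤ eqc B w + eqc (A ∩ C) w := by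
    unfold eqc
    rw [← card_union_add_card_inter]
    refine add_le_add (card_le_card ?_) (card_le_card ?_)
    · intro x hx
      simp only [mem_filter, mem_union, mem_inter] at hx ⊢
      tauto
    · intro x hx
      simp only [mem_filter, mem_inter] at hx ⊢
      tauto
  omega

theorem dom_small {M : ℕ} (ih : ∀ A : Finset ℕ, A ⊆ Finset.range (2 ^ M) → Idl A →
    Dom A (Finset.range A.card)) (A : Finset ℕ) (hAs : A ⊆ Finset.range (2 ^ (M + 1))) (hA : Idl A)
    (hc : A.card ≤ 2 ^ M) : Dom A (Finset.range A.card) := by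
  have h2M := two_pow_succ' M
  have hsplit := card_split' (2 ^ M) A (by rw [← h2M]; exact hAs)
  have h0 : (Finset.range (2 ^ M) \ lo (2 ^ M) A).card + (lo (2 ^ M) A).card = 2 ^ M := by
    have h3 := card_sdiff_add_card_inter (Finset.range (2 ^ M)) (lo (2 ^ M) A)
    rw [inter_eq_right.2 (lo_sub _ A), card_range] at h3
    exact h3
  obtain ⟨θ, hθ, hcθ⟩ := exists_theta (lo (2 ^ M) A) (2 ^ M) (hi (2 ^ M) A).card (by omega)
  have hN : Nb 2 M (hi (2 ^ M) A) (lo (2 ^ M) A) := by
    intro x hx z hz ht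
    rw [mem_hi] at hx
    rw [mem_lo]
    refine ⟨hA _ hx.2 z fun t => ?_, hz⟩
    rw [T_top t hx.1]
    by_cases htM : t ≤ M
    · rw [if_pos htM]
      have := ht t
      omega
    · rw [T_of_le M z t hz (by omega)]
      exact Nat.zero_le _
  have hP := P_all M 2 (hi (2 ^ M) A) (lo (2 ^ M) A) (hi_sub _ A) (lo_sub _ A) (hA.hi M) (hA.lo _) hN
    θ hθ hcθ
  have hBs : lo (2 ^ M) A ∪ Finset.range θ ⊆ Finset.range (2 ^ M) :=
    union_subset (lo_sub _ A) (range_subset_range.2 hθ)
  have hBc : (lo (2 ^ M) A ∪ Finset.range θ).card = A.card := by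
    have h3 : (lo (2 ^ M) A ∪ Finset.range θ) = lo (2 ^ M) A ∪ (Finset.range θ \ lo (2 ^ M) A) := by
      rw [union_sdiff_self_eq_union]
    rw [h3, card_union_of_disjoint disjoint_sdiff]
    omega
  have hB := ih (lo (2 ^ M) A ∪ Finset.range θ) hBs ((hA.lo _).union (Idl.range θ))
  rw [hBc] at hB
  refine Dom.trans ?_ hB
  intro w
  have h4 : (lo (2 ^ M) A ∪ Finset.range θ) \ A = Finset.range θ \ lo (2 ^ M) A := by
    ext x
    simp only [mem_sdiff, mem_union, mem_lo, mem_range]
    constructor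
    · rintro ⟨h5 | h5, h6⟩
      · exact absurd h5.1 h6
      · exact ⟨h5, fun h7 => h6 h7.1⟩
    · rintro ⟨h5, h6⟩
      exact ⟨Or.inr h5, fun h7 => h6 ⟨h7, by omega⟩⟩
  have h5 := cnt_split M (A \ (lo (2 ^ M) A ∪ Finset.range θ)) (sdiff_subset.trans hAs) (w - 1)
  have h6 : lo (2 ^ M) (A \ (lo (2 ^ M) A ∪ Finset.range θ)) = ∅ := by
    ext x
    simp only [mem_sdiff, mem_union, mem_lo, mem_range, notMem_empty, iff_false]
    tauto
  have h7 : hi (2 ^ M) (A \ (lo (2 ^ M) A ∪ Finset.range θ)) = hi (2 ^ M) A := by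
    ext x
    simp only [mem_sdiff, mem_union, mem_lo, mem_hi, mem_range]
    constructor
    · rintro ⟨h8, h9, _⟩; exact ⟨h8, h9⟩
    · rintro ⟨h8, h9⟩
      refine ⟨h8, h9, ?_⟩
      rintro (h10 | h10)
      · omega
      · omega
  rw [h6, h7, cnt_empty] at h5
  rw [h4, h5]
  have h8 := hP w
  have e : w - ((2 : ℕ) : ℤ) = w - 1 - 1 := by push_cast; ring
  rw [e] at h8
  omega

/-- **strong dominance** -/
theorem dom_range : ∀ (M : ℕ) (A : Finset ℕ), A ⊆ Finset.range (2 ^ M) → Idl A →
    Dom A (Finset.range A.card) := by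
  intro M
  induction M with
  | zero =>
    intro A hAs hA w
    have : Finset.range A.card \ A = ∅ := by
      rcases A.eq_empty_or_nonempty with h | h
      · rw [h]; simp
      · have h0 := zero_mem_of_nonempty hA h
        have hc : A.card ≤ 1 := by
          have := card_le_card hAs
          simpa using this
        rw [sdiff_eq_empty_iff_subset]
        intro x hx
        rw [mem_range] at hx
        have : x = 0 := by omega
        rw [this]; exact h0
    rw [this, cnt_empty]
    exact Nat.zero_le _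
  | succ M ih =>
    intro A hAs hA
    rcases le_or_gt A.card (2 ^ M) with hc | hc
    · exact dom_small ih A hAs hA hc
    · have h2M := two_pow_succ' M
      have hcA := card_le_two_pow hAs
      have hDc : (du (M + 1) A).card = 2 ^ (M + 1) - A.card := by
        rw [du_card (M + 1) A hAs, card_sdiff_of_subset hAs, card_range]
      have hD := dom_small ih (du (M + 1) A) (du_sub _ A) (hA.du _) (by omega)
      rw [hDc] at hD
      intro w
      have h1 := cnt_reflect (M + 1) (Finset.range A.card \ A)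
        (sdiff_subset.trans (range_subset_range.2 hcA)) w
      have h2 := cnt_reflect (M + 1) (A \ Finset.range A.card) (sdiff_subset.trans hAs) (w - 1)
      have h3 : (Finset.range (2 ^ (M + 1))).filter
          (fun x => 2 ^ (M + 1) - 1 - x ∈ Finset.range A.card \ A) =
          du (M + 1) A \ Finset.range (2 ^ (M + 1) - A.card) := by
        ext x
        simp only [mem_filter, mem_sdiff, mem_range, mem_du]
        constructor
        · rintro ⟨h4, h5, h6⟩; exact ⟨⟨h4, h6⟩, by omega⟩
        · rintro ⟨⟨h4, h5⟩, h6⟩; exact ⟨h4, by omega, h5⟩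
      have h4 : (Finset.range (2 ^ (M + 1))).filter
          (fun x => 2 ^ (M + 1) - 1 - x ∈ A \ Finset.range A.card) =
          Finset.range (2 ^ (M + 1) - A.card) \ du (M + 1) A := by
        ext x
        simp only [mem_filter, mem_sdiff, mem_range, mem_du]
        constructor
        · rintro ⟨h4, h5, h6⟩; exact ⟨by omega, fun h7 => h7.2 h5⟩
        · rintro ⟨h4, h5⟩
          have h6 : x < 2 ^ (M + 1) := by omega
          refine ⟨h6, ?_, by omega⟩
          by_contra h7
          exact h5 ⟨h6, h7⟩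
      rw [h3] at h1
      rw [h4] at h2
      have h5 := hD (((M + 1 : ℕ) : ℤ) - (w - 1) - 1)
      have e : ((M + 1 : ℕ) : ℤ) - (w - 1) - 1 - 1 = ((M + 1 : ℕ) : ℤ) - w - 1 := by ring
      rw [e] at h5
      have h6 : (Finset.range A.card \ A).card = (A \ Finset.range A.card).card := by
        have h7 := card_inter_split (Finset.range A.card) A
        have h8 := card_inter_split A (Finset.range A.card)
        rw [inter_comm] at h7
        rw [card_range] at h7
        omega
      omega

/-- weights from counts -/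
theorem sum_T (S : Finset ℕ) (B : ℕ) (hB : ∀ x ∈ S, T x 0 ≤ B) :
    (∑ x ∈ S, (T x 0 : ℤ)) = ∑ w ∈ Finset.range (B + 1), ((S.card : ℤ) - cnt S w) := by
  have h1 : ∀ w : ℕ, ((S.card : ℤ) - cnt S w) = ∑ x ∈ S, (if w < T x 0 then (1 : ℤ) else 0) := by
    intro w
    have h2 : (S.card : ℤ) = ∑ x ∈ S, (1 : ℤ) := by simp
    have h3 : (cnt S (w : ℤ) : ℤ) = ∑ x ∈ S, (if T x 0 ≤ w then (1 : ℤ) else 0) := by
      unfold cnt
      rw [← Finset.sum_filter]
      simp
    rw [h2, h3, ← Finset.sum_sub_distrib]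
    refine Finset.sum_congr rfl fun x _ => ?_
    split_ifs <;> omega
  rw [Finset.sum_congr rfl fun w _ => h1 w, Finset.sum_comm]
  refine Finset.sum_congr rfl fun x hx => ?_
  rw [← Finset.sum_filter]
  have h4 : (Finset.range (B + 1)).filter (fun w => w < T x 0) = Finset.range (T x 0) := by
    have := hB x hx
    ext w
    simp only [mem_filter, mem_range]
    omega
  rw [h4]
  simp

theorem sum_of_dom {X Y : Finset ℕ} (hc : X.card = Y.card) (h : ∀ w : ℤ, cnt X w ≤ cnt Y (w - 1)) :
    (∑ y ∈ Y, (T y 0 : ℤ)) + Y.card ≤ ∑ x ∈ X, (T x 0 : ℤ) := by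
  obtain ⟨B, hB⟩ : ∃ B, ∀ x ∈ X ∪ Y, T x 0 ≤ B :=
    ⟨(X ∪ Y).sup (fun x => T x 0), fun x hx => Finset.le_sup (f := fun x => T x 0) hx⟩
  rw [sum_T X B fun x hx => hB x (mem_union_left _ hx),
    sum_T Y B fun x hx => hB x (mem_union_right _ hx), hc]
  have h1 : ∑ w ∈ Finset.range (B + 1), ((cnt Y w : ℤ) - cnt Y ((w : ℤ) - 1)) = Y.card := by
    have h2 : ∀ n : ℕ, ∑ w ∈ Finset.range n, ((cnt Y w : ℤ) - cnt Y ((w : ℤ) - 1)) =
        cnt Y ((n : ℤ) - 1) - cnt Y (-1) := by
      intro n
      induction n with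
      | zero => simp
      | succ n ihn =>
        rw [Finset.sum_range_succ, ihn]
        push_cast
        rw [add_sub_cancel_right]
        ring
    rw [h2]
    have h3 : cnt Y (-1) = 0 := by
      unfold cnt
      rw [card_eq_zero, filter_eq_empty_iff]
      intro x _
      omega
    have h4 : cnt Y (((B + 1 : ℕ) : ℤ) - 1) = Y.card := by
      unfold cnt
      rw [filter_true_of_mem]
      intro x hx
      have := hB x (mem_union_right _ hx)
      push_cast
      omega
    rw [h3, h4]
    simp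
  have h5 : ∑ w ∈ Finset.range (B + 1), ((Y.card : ℤ) - cnt Y w) +
      ∑ w ∈ Finset.range (B + 1), ((cnt Y w : ℤ) - cnt Y ((w : ℤ) - 1)) ≤
      ∑ w ∈ Finset.range (B + 1), ((Y.card : ℤ) - cnt X w) := by
    rw [← Finset.sum_add_distrib]
    refine Finset.sum_le_sum fun w _ => ?_
    have := h w
    have h6 : (cnt X (w : ℤ) : ℤ) ≤ cnt Y ((w : ℤ) - 1) := by exact_mod_cast this
    linarith
  rw [h1] at h5
  exact h5

/-- the consequence for an ideal `A` -/
theorem ideal_weight (M : ℕ) (A : Finset ℕ) (hAs : A ⊆ Finset.range (2 ^ M)) (hA : Idl A) :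
    (∑ x ∈ A, (T x 0 : ℤ)) + (A \ Finset.range A.card).card ≤ ∑ x ∈ Finset.range A.card, (T x 0 : ℤ) := by
  have h6 : (Finset.range A.card \ A).card = (A \ Finset.range A.card).card := by
    have h7 := card_inter_split (Finset.range A.card) A
    have h8 := card_inter_split A (Finset.range A.card)
    rw [inter_comm] at h7
    rw [card_range] at h7
    omega
  have h1 := sum_of_dom h6 (dom_range M A hAs hA)
  have h2 : ∑ x ∈ A, (T x 0 : ℤ) = ∑ x ∈ A \ Finset.range A.card, (T x 0 : ℤ) +
      ∑ x ∈ A ∩ Finset.range A.card, (T x 0 : ℤ) := by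
    rw [← Finset.sum_union (Finset.disjoint_sdiff_inter _ _), sdiff_union_inter]
  have h3 : ∑ x ∈ Finset.range A.card, (T x 0 : ℤ) = ∑ x ∈ Finset.range A.card \ A, (T x 0 : ℤ) +
      ∑ x ∈ A ∩ Finset.range A.card, (T x 0 : ℤ) := by
    rw [inter_comm, ← Finset.sum_union (Finset.disjoint_sdiff_inter _ _), sdiff_union_inter]
  rw [h2, h3]
  linarith

end Pool.Agent.EdgeIso.SD
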