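import Pool.Agent.Lib.MP_48c8f3_co.SDD

/-!
MP_48c8f3_co, strong dominance for compressed families, part E: compressions.
-/

set_option autoImplicit false

namespace Pool.Agent.EdgeIso.SD

open Finset

section abs

variable {α : Type*} [DecidableEq α]

/-- number of ordered adjacent pairs in `X` -/
def ed (adj : α → α → Prop) [DecidableRel adj] (X : Finset α) : ℕ :=
  ∑ x ∈ X, ∑ y ∈ X, if adj x y then 1 else 0

/-- the elements which are moved by the compression -/
def mv (σ : α → α) (neg : α → Prop) [DecidablePred neg] (X : Finset α) : Finset α :=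
  X.filter (fun x => neg x ∧ σ x ∉ X)

/-- the compression -/
def cps (σ : α → α) (neg : α → Prop) [DecidablePred neg] (X : Finset α) : Finset α :=
  (X \ mv σ neg X) ∪ (mv σ neg X).image σ

variable (adj : α → α → Prop) [DecidableRel adj] (σ : α → α) (neg : α → Prop) [DecidablePred neg]
  (X : Finset α)

theorem cps_disj : Disjoint (X \ mv σ neg X) ((mv σ neg X).image σ) := by
  rw [Finset.disjoint_left]
  intro x hx hx'
  rw [mem_image] at hx'
  obtain ⟨y, hy, rfl⟩ := hx'
  rw [mv, mem_filter] at hy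
  exact hy.2.2 (mem_sdiff.1 hx).1

theorem mv_sub : mv σ neg X ⊆ X := filter_subset _ _

theorem sum_cps {M : Type*} [AddCommMonoid M] (hσ : ∀ x, σ (σ x) = x) (w : α → M) :
    ∑ x ∈ cps σ neg X, w x = ∑ x ∈ X \ mv σ neg X, w x + ∑ x ∈ mv σ neg X, w (σ x) := by
  rw [cps, sum_union (cps_disj σ neg X), sum_image]
  intro x _ y _ h
  have := congrArg σ h
  rwa [hσ, hσ] at this

theorem sum_mv {M : Type*} [AddCommMonoid M] (w : α → M) :
    ∑ x ∈ X, w x = ∑ x ∈ X \ mv σ neg X, w x + ∑ x ∈ mv σ neg X, w x := by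
  rw [← sum_union sdiff_disjoint, sdiff_union_of_subset (mv_sub σ neg X)]

theorem card_cps (hσ : ∀ x, σ (σ x) = x) : (cps σ neg X).card = X.card := by
  have h1 := sum_cps σ neg X hσ (fun _ => 1)
  have h2 := sum_mv σ neg X (fun _ => 1)
  simp only [sum_const, smul_eq_mul, mul_one] at h1 h2
  omega

theorem cps_inter (hσ : ∀ x, σ (σ x) = x) (A : Finset α) (hA : ∀ x ∈ A, neg x → σ x ∈ A) :
    (X ∩ A).card ≤ (cps σ neg X ∩ A).card := by
  have h1 := sum_cps σ neg X hσ (fun x => if x ∈ A then 1 else 0)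
  have h2 := sum_mv σ neg X (fun x => if x ∈ A then 1 else 0)
  have h3 : ∀ Y : Finset α, (Y ∩ A).card = ∑ x ∈ Y, (if x ∈ A then 1 else 0) := by
    intro Y
    rw [← Finset.sum_filter, Finset.filter_mem_eq_inter]
    simp
  rw [h3, h3, h1, h2]
  refine add_le_add (le_refl _) (sum_le_sum fun x hx => ?_)
  rw [mv, mem_filter] at hx
  by_cases hxA : x ∈ A
  · rw [if_pos hxA, if_pos (hA x hxA hx.2.1)]
  · rw [if_neg hxA]
    exact Nat.zero_le _

theorem sum_cps_lt (hσ : ∀ x, σ (σ x) = x) (w : α → ℕ) (hw : ∀ x, neg x → w (σ x) < w x)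
    (hne : (mv σ neg X).Nonempty) : ∑ x ∈ cps σ neg X, w x < ∑ x ∈ X, w x := by
  rw [sum_cps σ neg X hσ w, sum_mv σ neg X w]
  refine add_lt_add_of_le_of_lt (le_refl _) (sum_lt_sum_of_nonempty hne fun x hx => ?_)
  rw [mv, mem_filter] at hx
  exact hw x hx.2.1

/-- compressions do not decrease the number of edges -/
theorem ed_cps (hσ : ∀ x, σ (σ x) = x) (hsym : ∀ x y, adj x y → adj y x)
    (hadj : ∀ x y, adj x y → adj (σ x) (σ y)) (hneg : ∀ x, neg x → ¬ neg (σ x))
    (hfix : ∀ x, ¬ neg x → ¬ neg (σ x) → σ x = x)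
    (hcross : ∀ x y, neg x → neg (σ y) → adj x y → y = σ x) :
    ed adj X ≤ ed adj (cps σ neg X) := by
  have hadj' : ∀ x y, adj (σ x) (σ y) ↔ adj x y := by
    intro x y
    refine ⟨fun h => ?_, hadj x y⟩
    have := hadj _ _ h
    rwa [hσ, hσ] at this
  set B := mv σ neg X with hB
  set R := X \ B with hR
  have hinner : ∀ x, ∑ y ∈ cps σ neg X, (if adj x y then 1 else 0) =
      ∑ y ∈ R, (if adj x y then 1 else 0) + ∑ y ∈ B, (if adj x (σ y) then 1 else 0) :=
    fun x => sum_cps σ neg X hσ (fun y => if adj x y then 1 else 0)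
  have hinner2 : ∀ x, ∑ y ∈ X, (if adj x y then 1 else 0) =
      ∑ y ∈ R, (if adj x y then 1 else 0) + ∑ y ∈ B, (if adj x y then 1 else 0) :=
    fun x => sum_mv σ neg X (fun y => if adj x y then 1 else 0)
  have e1 : ed adj (cps σ neg X) = (∑ x ∈ R, ∑ y ∈ R, (if adj x y then 1 else 0)) +
      (∑ x ∈ R, ∑ y ∈ B, (if adj x (σ y) then 1 else 0)) +
      (∑ x ∈ B, ∑ y ∈ R, (if adj (σ x) y then 1 else 0)) +
      (∑ x ∈ B, ∑ y ∈ B, (if adj (σ x) (σ y) then 1 else 0)) := by
    unfold ed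
    rw [sum_congr rfl fun x _ => hinner x, sum_cps σ neg X hσ, sum_add_distrib, sum_add_distrib]
    ring
  have e2 : ed adj X = (∑ x ∈ R, ∑ y ∈ R, (if adj x y then 1 else 0)) +
      (∑ x ∈ R, ∑ y ∈ B, (if adj x y then 1 else 0)) +
      (∑ x ∈ B, ∑ y ∈ R, (if adj x y then 1 else 0)) +
      (∑ x ∈ B, ∑ y ∈ B, (if adj x y then 1 else 0)) := by
    unfold ed
    rw [sum_congr rfl fun x _ => hinner2 x, sum_mv σ neg X, sum_add_distrib, sum_add_distrib]
    ring
  have key : ∀ b ∈ B, ∑ y ∈ R, (if adj b y then 1 else 0) ≤ ∑ y ∈ R, (if adj (σ b) y then 1 else 0) := by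
    intro b hb
    have hb' := hb
    rw [hB, mv, mem_filter] at hb'
    obtain ⟨hbX, hbn, hbs⟩ := hb'
    rw [← Finset.card_filter, ← Finset.card_filter]
    refine card_le_card_of_injOn σ ?_ ?_
    · intro y hy
      rw [mem_coe, mem_filter, hR, mem_sdiff] at hy ⊢
      obtain ⟨⟨hyX, hyB⟩, hya⟩ := hy
      refine ⟨?_, (hadj' b y).2 hya⟩
      by_cases hyn : neg y
      · have hσy : σ y ∈ X := by
          by_contra hcon
          exact hyB (by rw [hB, mv, mem_filter]; exact ⟨hyX, hyn, hcon⟩)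
        refine ⟨hσy, fun hcon => ?_⟩
        rw [hB, mv, mem_filter] at hcon
        exact hneg y hyn hcon.2.1
      · by_cases hyn' : neg (σ y)
        · exfalso
          have := hcross b y hbn hyn' hya
          rw [this] at hyX
          exact hbs hyX
        · rw [hfix y hyn hyn']
          exact ⟨hyX, hyB⟩
    · intro x _ y _ h
      have := congrArg σ h
      rwa [hσ, hσ] at this
  have h1 : (∑ x ∈ B, ∑ y ∈ R, (if adj x y then 1 else 0)) ≤
      (∑ x ∈ B, ∑ y ∈ R, (if adj (σ x) y then 1 else 0)) := sum_le_sum key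
  have hs1 : (∑ x ∈ R, ∑ y ∈ B, (if adj x y then 1 else 0)) =
      (∑ x ∈ B, ∑ y ∈ R, (if adj x y then 1 else 0)) := by
    rw [sum_comm]
    refine sum_congr rfl fun x _ => sum_congr rfl fun y _ => ?_
    have : adj y x ↔ adj x y := ⟨hsym _ _, hsym _ _⟩
    simp only [this]
  have hs2 : (∑ x ∈ R, ∑ y ∈ B, (if adj x (σ y) then 1 else 0)) =
      (∑ x ∈ B, ∑ y ∈ R, (if adj (σ x) y then 1 else 0)) := by
    rw [sum_comm]
    refine sum_congr rfl fun x _ => sum_congr rfl fun y _ => ?_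
    have : adj y (σ x) ↔ adj (σ x) y := ⟨hsym _ _, hsym _ _⟩
    simp only [this]
  have h2 : (∑ x ∈ B, ∑ y ∈ B, (if adj (σ x) (σ y) then 1 else 0)) =
      (∑ x ∈ B, ∑ y ∈ B, (if adj x y then 1 else 0)) := by
    refine sum_congr rfl fun x _ => sum_congr rfl fun y _ => ?_
    simp only [hadj' x y]
  rw [e1, e2, hs1, hs2, h2]
  omega

end abs

end Pool.Agent.EdgeIso.SD
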