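import Pool.Agent.Lib.MP_48c8f3_co.SDE

/-!
MP_48c8f3_co, strong dominance for compressed families, part F: families of subsets of `[n]`.
-/

set_option autoImplicit false

namespace Pool.Agent.EdgeIso.SD

open Finset

theorem T_geom (S : Finset ℕ) : ∀ t, T (∑ j ∈ S, 2 ^ j) t = (S.filter (fun j => t ≤ j)).card := by
  induction S using Finset.induction_on_max with
  | empty => intro t; simp [T_zero]
  | insert a S ha ih =>
    intro t
    have hnot : a ∉ S := fun h => lt_irrefl a (ha a h)
    rw [sum_insert hnot, add_comm, T_top t (Nat.geomSum_lt (le_refl 2) ha), ih t, filter_insert]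
    split_ifs with h
    · rw [card_insert_of_notMem (fun h' => hnot (mem_filter.1 h').1), add_comm]
    · rw [zero_add]

section fam

variable {n : ℕ}

/-- positions of the digits `1` -/
def pos (x : Finset (Fin n)) : Finset ℕ := (xᶜ).image (fun i => n - 1 - i.val)

/-- the number of a set -/
def num (x : Finset (Fin n)) : ℕ := ∑ j ∈ pos x, 2 ^ j

theorem mem_pos {x : Finset (Fin n)} {i : Fin n} : n - 1 - i.val ∈ pos x ↔ i ∉ x := by
  unfold pos
  rw [mem_image]
  constructor
  · rintro ⟨k, hk, hki⟩
    have h1 := i.isLt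
    have h2 := k.isLt
    have : k = i := Fin.ext (by omega)
    rw [this, mem_compl] at hk
    exact hk
  · intro h
    exact ⟨i, mem_compl.2 h, rfl⟩

theorem pos_lt {x : Finset (Fin n)} {j : ℕ} (hj : j ∈ pos x) : j < n := by
  unfold pos at hj
  rw [mem_image] at hj
  obtain ⟨k, _, rfl⟩ := hj
  have := k.isLt
  omega

theorem T_num (x : Finset (Fin n)) (t : ℕ) :
    T (num x) t = ((xᶜ).filter (fun i => i.val + t < n)).card := by
  unfold num
  rw [T_geom]
  unfold pos
  rw [filter_image, card_image_of_injective]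
  · congr 1
    refine filter_congr fun i _ => ?_
    have := i.isLt
    omega
  · intro i k h
    have h1 := i.isLt
    have h2 := k.isLt
    have h3 : n - 1 - i.val = n - 1 - k.val := h
    exact Fin.ext (by omega)

theorem T_num_zero (x : Finset (Fin n)) : T (num x) 0 = (xᶜ).card := by
  rw [T_num, filter_true_of_mem]
  intro i _
  exact i.isLt

theorem num_lt (x : Finset (Fin n)) : num x < 2 ^ n :=
  Nat.geomSum_lt (le_refl 2) fun _ hj => pos_lt hj

theorem num_inj : Function.Injective (num : Finset (Fin n) → ℕ) := by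
  intro x y h
  have h1 : pos x = pos y := Finset.geomSum_injective (le_refl 2) h
  ext i
  have h2 : n - 1 - i.val ∈ pos x ↔ n - 1 - i.val ∈ pos y := by rw [h1]
  rw [mem_pos, mem_pos] at h2
  tauto

theorem num_surj {y : ℕ} (hy : y < 2 ^ n) : ∃ x : Finset (Fin n), num x = y := by
  have h1 : (univ : Finset (Finset (Fin n))).image num = Finset.range (2 ^ n) := by
    refine eq_of_subset_of_card_le ?_ ?_
    · intro z hz
      rw [mem_image] at hz
      obtain ⟨x, _, rfl⟩ := hz
      exact mem_range.2 (num_lt x)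
    · rw [card_image_of_injective _ num_inj, card_range, card_univ, Fintype.card_finset, Fintype.card_fin]
  have h2 : y ∈ (univ : Finset (Finset (Fin n))).image num := by rw [h1]; exact mem_range.2 hy
  obtain ⟨x, _, hx⟩ := mem_image.1 h2
  exact ⟨x, hx⟩

theorem num_lt_num {x y : Finset (Fin n)} (h : ∃ i ∈ x, i ∉ y ∧ ∀ j < i, (j ∈ x ↔ j ∈ y)) :
    num x < num y := by
  obtain ⟨i, hix, hiy, hij⟩ := h
  unfold num
  rw [Finset.geomSum_lt_geomSum_iff_toColex_lt_toColex (le_refl 2),
    Finset.Colex.toColex_lt_toColex_iff_exists_forall_lt]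
  refine ⟨n - 1 - i.val, mem_pos.2 hiy, fun h => (mem_pos.1 h) hix, ?_⟩
  intro b hb hb'
  unfold pos at hb
  rw [mem_image] at hb
  obtain ⟨k, hk, rfl⟩ := hb
  rw [mem_compl] at hk
  rw [mem_pos, not_not] at hb'
  have h1 : ¬ k < i := fun hlt => hk ((hij k hlt).2 hb')
  have h2 : k ≠ i := by rintro rfl; exact hiy hb'
  have h3 : i < k := lt_of_le_of_ne (not_lt.1 h1) (Ne.symm h2)
  have h4 : i.val < k.val := h3
  have := k.isLt
  omega

/-- increasing families -/
def Inc (F : Finset (Finset (Fin n))) : Prop := ∀ x ∈ F, ∀ y, x ⊆ y → y ∈ F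

/-- left-compressed families -/
def Lc (F : Finset (Finset (Fin n))) : Prop :=
  ∀ x ∈ F, ∀ i j : Fin n, i < j → j ∈ x → i ∉ x → insert i (x.erase j) ∈ F

theorem reach {F : Finset (Finset (Fin n))} (h1 : Inc F) (h2 : Lc F) : ∀ (s : ℕ) (x z : Finset (Fin n)),
    (x \ z).card ≤ s → x ∈ F →
    (∀ k : ℕ, (x.filter (fun i => i.val < k)).card ≤ (z.filter (fun i => i.val < k)).card) → z ∈ F := by
  intro s
  induction s with
  | zero =>
    intro x z hs hx _
    have : x ⊆ z := by
      rw [← sdiff_eq_empty_iff_subset]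
      exact card_eq_zero.1 (by omega)
    exact h1 x hx z this
  | succ s ih =>
    intro x z hs hx hk
    rcases (x \ z).eq_empty_or_nonempty with he | hne
    · exact h1 x hx z (sdiff_eq_empty_iff_subset.1 he)
    · obtain ⟨j, hj, hjmin⟩ : ∃ j ∈ x \ z, ∀ j' ∈ x \ z, j ≤ j' :=
        ⟨(x \ z).min' hne, min'_mem _ hne, fun j' hj' => min'_le _ _ hj'⟩
      rw [mem_sdiff] at hj
      have hsub : ∀ i ∈ x, i < j → i ∈ z := by
        intro i hi hij
        by_contra hiz
        exact absurd (hjmin i (mem_sdiff.2 ⟨hi, hiz⟩)) (not_le.2 hij)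
      have hex : ∃ i, i < j ∧ i ∈ z ∧ i ∉ x := by
        by_contra hcon
        push Not at hcon
        have h3 := hk (j.val + 1)
        have h4 : (z.filter (fun i => i.val < j.val + 1)) ⊆ (x.filter (fun i => i.val < j.val + 1)).erase j := by
          intro i hi
          rw [mem_filter] at hi
          rw [mem_erase, mem_filter]
          have hij : i ≠ j := by rintro rfl; exact hj.2 hi.1
          have hlt : i < j := lt_of_le_of_ne (by rw [Fin.le_def]; omega) hij
          exact ⟨hij, hcon i hlt hi.1, hi.2⟩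
        have h5 := card_le_card h4
        have h6 : j ∈ x.filter (fun i => i.val < j.val + 1) := by
          rw [mem_filter]; exact ⟨hj.1, by omega⟩
        rw [card_erase_of_mem h6] at h5
        have h7 : 0 < (x.filter (fun i => i.val < j.val + 1)).card := card_pos.2 ⟨j, h6⟩
        omega
      obtain ⟨i, hij, hiz, hix⟩ := hex
      have hne' : i ≠ j := ne_of_lt hij
      refine ih (insert i (x.erase j)) z ?_ (h2 x hx i j hij hj.1 hix) ?_
      · have h3 : insert i (x.erase j) \ z = (x \ z).erase j := by
          ext k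
          simp only [mem_sdiff, mem_insert, mem_erase]
          constructor
          · rintro ⟨rfl | ⟨h4, h5⟩, h6⟩
            · exact absurd hiz h6
            · exact ⟨h4, h5, h6⟩
          · rintro ⟨h4, h5, h6⟩
            exact ⟨Or.inr ⟨h4, h5⟩, h6⟩
        rw [h3, card_erase_of_mem (mem_sdiff.2 hj)]
        omega
      · intro k
        by_cases hkj : k ≤ j.val
        · refine card_le_card fun l hl => ?_
          rw [mem_filter, mem_insert, mem_erase] at hl
          rw [mem_filter]
          refine ⟨?_, hl.2⟩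
          rcases hl.1 with rfl | ⟨_, hlx⟩
          · exact hiz
          · exact hsub l hlx (by rw [Fin.lt_def]; omega)
        · refine le_trans (le_of_eq ?_) (hk k)
          have hil : i.val < j.val := hij
          have h3 : (insert i (x.erase j)).filter (fun l => l.val < k) =
              insert i ((x.filter (fun l => l.val < k)).erase j) := by
            ext l
            simp only [mem_filter, mem_insert, mem_erase]
            constructor
            · rintro ⟨rfl | ⟨h4, h5⟩, h6⟩
              · exact Or.inl rfl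
              · exact Or.inr ⟨h4, h5, h6⟩
            · rintro (rfl | ⟨h4, h5, h6⟩)
              · exact ⟨Or.inl rfl, by omega⟩
              · exact ⟨Or.inr ⟨h4, h5⟩, h6⟩
          rw [h3, card_insert_of_notMem, card_erase_of_mem]
          · have h7 : 0 < (x.filter (fun l => l.val < k)).card :=
              card_pos.2 ⟨j, mem_filter.2 ⟨hj.1, by omega⟩⟩
            omega
          · exact mem_filter.2 ⟨hj.1, by omega⟩
          · intro hcon
            rw [mem_erase, mem_filter] at hcon
            exact hix hcon.2.1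

theorem card_filter_compl (x : Finset (Fin n)) (k : ℕ) :
    (x.filter (fun i => i.val < k)).card + ((xᶜ).filter (fun i => i.val < k)).card =
      ((univ : Finset (Fin n)).filter (fun i => i.val < k)).card := by
  rw [← card_union_of_disjoint]
  · congr 1
    ext i
    simp only [mem_filter, mem_union, mem_compl, mem_univ, true_and]
    tauto
  · rw [Finset.disjoint_left]
    intro i hi hi'
    simp only [mem_filter, mem_compl] at hi hi'
    tauto

/-- the numbers of a compressed family form an ideal -/
theorem idl_image {F : Finset (Finset (Fin n))} (h1 : Inc F) (h2 : Lc F) : Idl (F.image num) := by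
  intro a ha y hy
  rw [mem_image] at ha
  obtain ⟨x, hx, rfl⟩ := ha
  have hyx := le_of_T' hy
  obtain ⟨z, rfl⟩ := num_surj (lt_of_le_of_lt hyx (num_lt x))
  rw [mem_image]
  refine ⟨z, reach h1 h2 (x \ z).card x z (le_refl _) hx fun k => ?_, rfl⟩
  have hk : ∀ w : Finset (Fin n), (w.filter (fun i => i.val < k)) =
      (w.filter (fun i => i.val + (n - k) < n)) := by
    intro w
    refine filter_congr fun i _ => ?_
    have := i.isLt
    omega
  have h3 := hy (n - k)
  rw [T_num, T_num, ← hk, ← hk] at h3
  have h4 := card_filter_compl x k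
  have h5 := card_filter_compl z k
  omega

/-- the lexicographic initial segment -/
theorem lex_image {L : Finset (Finset (Fin n))}
    (hL : ∀ x ∈ L, ∀ y ∉ L, ∃ i ∈ x, i ∉ y ∧ ∀ j < i, (j ∈ x ↔ j ∈ y)) :
    L.image num = Finset.range L.card := by
  have hlt : ∀ x ∈ L, ∀ y ∉ L, num x < num y := fun x hx y hy => num_lt_num (hL x hx y hy)
  have hc : (L.image num).card = L.card := card_image_of_injective _ num_inj
  refine eq_of_subset_of_card_le ?_ (by rw [card_range, hc])
  intro a ha
  rw [mem_image] at ha
  obtain ⟨x, hx, rfl⟩ := ha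
  rw [mem_range]
  -- all numbers up to `num x` belong to the image
  have h1 : Finset.range (num x + 1) ⊆ L.image num := by
    intro b hb
    rw [mem_range] at hb
    obtain ⟨z, rfl⟩ := num_surj (show b < 2 ^ n by have := num_lt x; omega)
    rw [mem_image]
    refine ⟨z, ?_, rfl⟩
    by_contra hz
    have := hlt x hx z hz
    omega
  have h2 := card_le_card h1
  rw [card_range, hc] at h2
  omega

theorem lex_inc {L : Finset (Finset (Fin n))}
    (hL : ∀ x ∈ L, ∀ y ∉ L, ∃ i ∈ x, i ∉ y ∧ ∀ j < i, (j ∈ x ↔ j ∈ y)) : Inc L := by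
  intro x hx y hxy
  by_contra hy
  obtain ⟨i, hix, hiy, _⟩ := hL x hx y hy
  exact hiy (hxy hix)

/-- adjacency -/
def adj (x y : Finset (Fin n)) : Prop := (symmDiff x y).card = 1

instance : DecidableRel (adj : Finset (Fin n) → Finset (Fin n) → Prop) :=
  fun x y => inferInstanceAs (Decidable ((symmDiff x y).card = 1))

/-- the pairs `(x, i)` with `x ∈ F` and `x Δ {i} ∉ F` -/
def bd (F : Finset (Finset (Fin n))) : Finset (Finset (Fin n) × Fin n) :=
  (F ×ˢ (univ : Finset (Fin n))).filter (fun p => symmDiff p.1 {p.2} ∉ F)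

theorem ed_eq (F : Finset (Finset (Fin n))) : ed adj F =
    ∑ x ∈ F, ((univ : Finset (Fin n)).filter (fun i => symmDiff x {i} ∈ F)).card := by
  unfold ed
  refine sum_congr rfl fun x _ => ?_
  rw [← card_filter]
  symm
  refine card_bij (fun i _ => symmDiff x {i}) ?_ ?_ ?_
  · intro i hi
    rw [mem_filter] at hi ⊢
    refine ⟨hi.2, ?_⟩
    show (symmDiff x (symmDiff x {i})).card = 1
    rw [symmDiff_symmDiff_cancel_left, card_singleton]
  · intro i _ j _ h
    have := symmDiff_right_injective x h
    exact singleton_injective this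
  · intro y hy
    rw [mem_filter] at hy
    obtain ⟨hyF, hya⟩ := hy
    obtain ⟨i, hi⟩ := card_eq_one.1 (show (symmDiff x y).card = 1 from hya)
    refine ⟨i, ?_, ?_⟩
    · rw [mem_filter, ← hi, symmDiff_symmDiff_cancel_left]
      exact ⟨mem_univ _, hyF⟩
    · rw [← hi, symmDiff_symmDiff_cancel_left]

theorem bd_add_ed (F : Finset (Finset (Fin n))) : (bd F).card + ed adj F = n * F.card := by
  have h1 : ed adj F = ((F ×ˢ (univ : Finset (Fin n))).filter
      (fun p => symmDiff p.1 {p.2} ∈ F)).card := by
    rw [ed_eq, card_filter, sum_product]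
    refine sum_congr rfl fun x _ => ?_
    rw [card_filter]
  rw [h1, bd, Nat.add_comm, card_filter_add_card_filter_not, card_product]
  simp [Nat.mul_comm]

/-- the number of edges of an increasing family -/
theorem ed_inc {F : Finset (Finset (Fin n))} (h : Inc F) : ed adj F = 2 * ∑ x ∈ F, (xᶜ).card := by
  have h1 : ed adj F = ((F ×ˢ (univ : Finset (Fin n))).filter
      (fun p => symmDiff p.1 {p.2} ∈ F)).card := by
    rw [ed_eq, card_filter, sum_product]
    refine sum_congr rfl fun x _ => ?_
    rw [card_filter]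
  have h2 : ∑ x ∈ F, (xᶜ).card = ((F ×ˢ (univ : Finset (Fin n))).filter (fun p => p.2 ∉ p.1)).card := by
    rw [card_filter, sum_product]
    refine sum_congr rfl fun x _ => ?_
    rw [← card_filter]
    congr 1
    ext i
    simp
  have hadd : ∀ (x : Finset (Fin n)) (i : Fin n), i ∉ x → x ⊆ symmDiff x {i} := by
    intro x i hi k hk
    rw [mem_symmDiff, mem_singleton]
    left
    exact ⟨hk, fun hki => hi (hki ▸ hk)⟩
  have h3 : ((F ×ˢ (univ : Finset (Fin n))).filter (fun p => symmDiff p.1 {p.2} ∈ F)).card =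
      ((F ×ˢ (univ : Finset (Fin n))).filter (fun p => p.2 ∉ p.1)).card +
      ((F ×ˢ (univ : Finset (Fin n))).filter (fun p => p.2 ∈ p.1 ∧ symmDiff p.1 {p.2} ∈ F)).card := by
    rw [← card_union_of_disjoint]
    · congr 1
      ext ⟨x, i⟩
      simp only [mem_filter, mem_union, mem_product, mem_univ, and_true]
      constructor
      · rintro ⟨h4, h5⟩
        by_cases hi : i ∈ x
        · exact Or.inr ⟨h4, hi, h5⟩
        · exact Or.inl ⟨h4, hi⟩
      · rintro (⟨h4, h5⟩ | ⟨h4, _, h5⟩)
        · exact ⟨h4, h x h4 _ (hadd x i h5)⟩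
        · exact ⟨h4, h5⟩
    · rw [Finset.disjoint_left]
      rintro ⟨x, i⟩ hi hi'
      simp only [mem_filter] at hi hi'
      tauto
  have h4 : ((F ×ˢ (univ : Finset (Fin n))).filter (fun p => p.2 ∈ p.1 ∧ symmDiff p.1 {p.2} ∈ F)).card =
      ((F ×ˢ (univ : Finset (Fin n))).filter (fun p => p.2 ∉ p.1)).card := by
    refine card_bij' (fun p _ => (symmDiff p.1 {p.2}, p.2)) (fun p _ => (symmDiff p.1 {p.2}, p.2))
      ?_ ?_ ?_ ?_
    · rintro ⟨x, i⟩ hp
      simp only [mem_filter, mem_product, mem_univ, and_true] at hp ⊢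
      refine ⟨hp.2.2, ?_⟩
      rw [mem_symmDiff, mem_singleton]
      tauto
    · rintro ⟨x, i⟩ hp
      simp only [mem_filter, mem_product, mem_univ, and_true] at hp ⊢
      refine ⟨h x hp.1 _ (hadd x i hp.2), ?_, ?_⟩
      · rw [mem_symmDiff, mem_singleton]
        tauto
      · rw [symmDiff_symmDiff_cancel_right]
        exact hp.1
    · rintro ⟨x, i⟩ _
      simp
    · rintro ⟨x, i⟩ _
      simp
  rw [h1, h3, h4, h2]
  ring

/-- **strong dominance for compressed families** in terms of ordered edges -/
theorem ed_compressed {F L : Finset (Finset (Fin n))} (h1 : Inc F) (h2 : Lc F) (hc : L.card = F.card)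
    (hL : ∀ x ∈ L, ∀ y ∉ L, ∃ i ∈ x, i ∉ y ∧ ∀ j < i, (j ∈ x ↔ j ∈ y)) :
    ed adj F + 2 * (F \ L).card ≤ ed adj L := by
  have hFc : (F.image num).card = F.card := card_image_of_injective _ num_inj
  have hs : F.image num ⊆ Finset.range (2 ^ n) := by
    intro a ha
    rw [mem_image] at ha
    obtain ⟨x, _, rfl⟩ := ha
    exact mem_range.2 (num_lt x)
  have h3 := ideal_weight n (F.image num) hs (idl_image h1 h2)
  rw [hFc, ← hc, ← lex_image hL] at h3
  have h4 : ∀ G : Finset (Finset (Fin n)), ∑ x ∈ G.image num, (T x 0 : ℤ) = ((∑ x ∈ G, (xᶜ).card : ℕ) : ℤ) := by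
    intro G
    rw [sum_image (fun x _ y _ h => num_inj h)]
    push_cast
    exact sum_congr rfl fun x _ => by rw [T_num_zero]
  have h5 : (F.image num \ L.image num).card = (F \ L).card := by
    rw [← image_sdiff _ _ num_inj, card_image_of_injective _ num_inj]
  rw [h4, h4, h5] at h3
  rw [ed_inc h1, ed_inc (lex_inc hL)]
  have h6 : ∑ x ∈ F, (xᶜ).card + (F \ L).card ≤ ∑ x ∈ L, (xᶜ).card := by exact_mod_cast h3
  omega

end fam

end Pool.Agent.EdgeIso.SD
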