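import Pool.Agent.Lib.MP_48c8f3_co.SDF

/-!
MP_48c8f3_co, strong dominance for compressed families, part G: arbitrary families.
-/

set_option autoImplicit false

namespace Pool.Agent.EdgeIso.SD

open Finset

section fam

variable {n : ℕ}

theorem adj_symm (x y : Finset (Fin n)) (h : adj x y) : adj y x := by
  show (symmDiff y x).card = 1
  rw [symmDiff_comm]
  exact h

/-! ### adding an element -/

theorem up_invol (i : Fin n) (x : Finset (Fin n)) : symmDiff (symmDiff x {i}) {i} = x :=
  symmDiff_symmDiff_cancel_right _ _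

theorem up_adj (i : Fin n) (x y : Finset (Fin n)) (h : adj x y) : adj (symmDiff x {i}) (symmDiff y {i}) := by
  show (symmDiff (symmDiff x {i}) (symmDiff y {i})).card = 1
  have e : symmDiff (symmDiff x {i}) (symmDiff y {i}) = symmDiff x y := by
    rw [symmDiff_symmDiff_symmDiff_comm, symmDiff_self, symmDiff_bot]
  rw [e]
  exact h

theorem mem_up (i k : Fin n) (x : Finset (Fin n)) : k ∈ symmDiff x {i} ↔ (k ∈ x ∧ k ≠ i) ∨ (k = i ∧ i ∉ x) := by
  rw [mem_symmDiff, mem_singleton]
  constructor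
  · rintro (⟨h1, h2⟩ | ⟨h1, h2⟩)
    · exact Or.inl ⟨h1, h2⟩
    · exact Or.inr ⟨h1, h1 ▸ h2⟩
  · rintro (⟨h1, h2⟩ | ⟨h1, h2⟩)
    · exact Or.inl ⟨h1, h2⟩
    · exact Or.inr ⟨h1, h1.symm ▸ h2⟩

theorem up_cross (i : Fin n) (x y : Finset (Fin n)) (hx : i ∉ x) (hy : i ∉ symmDiff y {i})
    (h : adj x y) : y = symmDiff x {i} := by
  have hiy : i ∈ y := by
    by_contra hc
    exact hy ((mem_up i i y).2 (Or.inr ⟨rfl, hc⟩))
  obtain ⟨k, hk⟩ := card_eq_one.1 (show (symmDiff x y).card = 1 from h)
  have h1 : i ∈ symmDiff x y := by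
    rw [mem_symmDiff]
    exact Or.inr ⟨hiy, hx⟩
  rw [hk, mem_singleton] at h1
  rw [← symmDiff_symmDiff_cancel_left x y, hk, h1]

theorem up_num (i : Fin n) (x : Finset (Fin n)) (hx : i ∉ x) : num (symmDiff x {i}) < num x := by
  refine num_lt_num ⟨i, (mem_up i i x).2 (Or.inr ⟨rfl, hx⟩), hx, fun j hj => ?_⟩
  rw [mem_up]
  constructor
  · rintro (⟨h1, _⟩ | ⟨h1, _⟩)
    · exact h1
    · exact absurd h1 (ne_of_lt hj)
  · intro h1
    exact Or.inl ⟨h1, ne_of_lt hj⟩

/-! ### shifting -/

/-- exchange of `i` and `j` -/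
def sw (i j : Fin n) (x : Finset (Fin n)) : Finset (Fin n) := x.map (Equiv.swap i j).toEmbedding

theorem mem_sw (i j k : Fin n) (x : Finset (Fin n)) : k ∈ sw i j x ↔ Equiv.swap i j k ∈ x := by
  unfold sw
  rw [mem_map_equiv, Equiv.symm_swap]

theorem sw_invol (i j : Fin n) (x : Finset (Fin n)) : sw i j (sw i j x) = x := by
  ext k
  rw [mem_sw, mem_sw, Equiv.swap_apply_self]

theorem map_adj (e : Equiv.Perm (Fin n)) (x y : Finset (Fin n)) :
    adj (x.map e.toEmbedding) (y.map e.toEmbedding) ↔ adj x y := by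
  show (symmDiff (x.map e.toEmbedding) (y.map e.toEmbedding)).card = 1 ↔ (symmDiff x y).card = 1
  have h1 : symmDiff (x.map e.toEmbedding) (y.map e.toEmbedding) = (symmDiff x y).map e.toEmbedding := by
    ext k
    simp only [mem_symmDiff, mem_map_equiv]
  rw [h1, card_map]

theorem sw_fix (i j : Fin n) (x : Finset (Fin n)) (h1 : ¬ (j ∈ x ∧ i ∉ x))
    (h2 : ¬ (j ∈ sw i j x ∧ i ∉ sw i j x)) : sw i j x = x := by
  have h3 : i ∈ x ↔ j ∈ x := by
    rw [mem_sw, mem_sw, Equiv.swap_apply_left, Equiv.swap_apply_right] at h2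
    tauto
  ext k
  rw [mem_sw]
  by_cases hki : k = i
  · rw [hki, Equiv.swap_apply_left]; exact h3.symm
  · by_cases hkj : k = j
    · rw [hkj, Equiv.swap_apply_right]; exact h3
    · rw [Equiv.swap_apply_of_ne_of_ne hki hkj]

theorem sw_cross (i j : Fin n) (hij : i ≠ j) (x y : Finset (Fin n)) (hx : j ∈ x ∧ i ∉ x)
    (hy : j ∈ sw i j y ∧ i ∉ sw i j y) (h : adj x y) : y = sw i j x := by
  exfalso
  rw [mem_sw, mem_sw, Equiv.swap_apply_left, Equiv.swap_apply_right] at hy
  have h1 : i ∈ symmDiff x y := by rw [mem_symmDiff]; exact Or.inr ⟨hy.1, hx.2⟩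
  have h2 : j ∈ symmDiff x y := by rw [mem_symmDiff]; exact Or.inl ⟨hx.1, hy.2⟩
  obtain ⟨k, hk⟩ := card_eq_one.1 (show (symmDiff x y).card = 1 from h)
  rw [hk, mem_singleton] at h1 h2
  exact hij (h1.trans h2.symm)

theorem sw_eq (i j : Fin n) (x : Finset (Fin n)) (hx : j ∈ x ∧ i ∉ x) :
    sw i j x = insert i (x.erase j) := by
  have hij : i ≠ j := by rintro rfl; exact hx.2 hx.1
  ext k
  rw [mem_sw, mem_insert, mem_erase]
  by_cases hki : k = i
  · rw [hki, Equiv.swap_apply_left]; simp [hx.1]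
  · by_cases hkj : k = j
    · rw [hkj, Equiv.swap_apply_right]; simp [hx.2, hij.symm]
    · rw [Equiv.swap_apply_of_ne_of_ne hki hkj]; simp [hki, hkj]

theorem sw_num (i j : Fin n) (hij : i < j) (x : Finset (Fin n)) (hx : j ∈ x ∧ i ∉ x) :
    num (sw i j x) < num x := by
  refine num_lt_num ⟨i, ?_, hx.2, fun k hk => ?_⟩
  · rw [mem_sw, Equiv.swap_apply_left]; exact hx.1
  · rw [mem_sw, Equiv.swap_apply_of_ne_of_ne (ne_of_lt hk) (ne_of_lt (hk.trans hij))]

/-! ### the process -/

theorem inc_of_step {X : Finset (Finset (Fin n))} (h : ∀ (i : Fin n), ∀ x ∈ X, i ∉ x → symmDiff x {i} ∈ X) :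
    Inc X := by
  have key : ∀ (s : ℕ) (x y : Finset (Fin n)), (y \ x).card ≤ s → x ∈ X → x ⊆ y → y ∈ X := by
    intro s
    induction s with
    | zero =>
      intro x y hs hx hxy
      have h1 : y \ x = ∅ := card_eq_zero.1 (by omega)
      rw [sdiff_eq_empty_iff_subset] at h1
      rwa [Subset.antisymm h1 hxy]
    | succ s ih =>
      intro x y hs hx hxy
      rcases (y \ x).eq_empty_or_nonempty with he | ⟨i, hi⟩
      · rw [sdiff_eq_empty_iff_subset] at he
        rwa [Subset.antisymm he hxy]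
      · rw [mem_sdiff] at hi
        have h2 : y \ symmDiff x {i} = (y \ x).erase i := by
          ext k
          rw [mem_sdiff, mem_up, mem_erase, mem_sdiff]
          have hi2 := hi.2
          constructor
          · rintro ⟨h3, h4⟩
            refine ⟨fun h5 => h4 (Or.inr ⟨h5, hi2⟩), h3, fun h5 => ?_⟩
            by_cases h6 : k = i
            · exact h4 (Or.inr ⟨h6, hi2⟩)
            · exact h4 (Or.inl ⟨h5, h6⟩)
          · rintro ⟨h3, h4, h5⟩
            refine ⟨h4, ?_⟩
            rintro (⟨h6, _⟩ | ⟨h6, _⟩)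
            · exact h5 h6
            · exact h3 h6
        refine ih (symmDiff x {i}) y ?_ (h i x hx hi.2) ?_
        · rw [h2, card_erase_of_mem (mem_sdiff.2 hi)]
          omega
        · intro k hk
          rw [mem_up] at hk
          rcases hk with ⟨h3, _⟩ | ⟨h3, _⟩
          · exact hxy h3
          · rw [h3]; exact hi.1
  intro x hx y hxy
  exact key _ x y (le_refl _) hx hxy

theorem exists_compressed {A : Finset (Finset (Fin n))} (hA1 : Inc A) (hA2 : Lc A) :
    ∀ (N : ℕ) (X : Finset (Finset (Fin n))), ∑ x ∈ X, num x ≤ N →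
    ∃ Y : Finset (Finset (Fin n)), Inc Y ∧ Lc Y ∧ Y.card = X.card ∧ ed adj X ≤ ed adj Y ∧
      (X ∩ A).card ≤ (Y ∩ A).card := by
  intro N
  induction N with
  | zero =>
    intro X hX
    refine ⟨X, ?_, ?_, rfl, le_refl _, le_refl _⟩
    · refine inc_of_step fun i x hx hi => ?_
      exfalso
      have h1 := up_num i x hi
      have h2 : num x ≤ ∑ x ∈ X, num x := single_le_sum (fun _ _ => Nat.zero_le _) hx
      omega
    · intro x hx i j hij hj hi
      exfalso
      have h1 := sw_num i j hij x ⟨hj, hi⟩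
      have h2 : num x ≤ ∑ x ∈ X, num x := single_le_sum (fun _ _ => Nat.zero_le _) hx
      omega
  | succ N ih =>
    intro X hX
    by_cases h1 : ∃ i : Fin n, (mv (fun x => symmDiff x {i}) (fun x => i ∉ x) X).Nonempty
    · obtain ⟨i, hi⟩ := h1
      have hlt := sum_cps_lt (fun x : Finset (Fin n) => symmDiff x {i}) (fun x => i ∉ x) X
        (up_invol i) num (up_num i) hi
      obtain ⟨Y, hY1, hY2, hY3, hY4, hY5⟩ := ih (cps (fun x => symmDiff x {i}) (fun x => i ∉ x) X) (by omega)
      have hed := ed_cps adj (fun x : Finset (Fin n) => symmDiff x {i}) (fun x => i ∉ x) X (up_invol i)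
        adj_symm (up_adj i)
        (by intro x hx; rw [not_not, mem_up]; exact Or.inr ⟨rfl, hx⟩)
        (by
          intro x hx hx'
          exfalso
          rw [not_not] at hx hx'
          rw [mem_up] at hx'
          rcases hx' with ⟨_, h⟩ | ⟨_, h⟩
          · exact h rfl
          · exact h hx)
        (up_cross i)
      have hin := cps_inter (fun x : Finset (Fin n) => symmDiff x {i}) (fun x => i ∉ x) X (up_invol i) A
        (by
          intro x hx hix
          refine hA1 x hx _ fun k hk => ?_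
          rw [mem_up]
          exact Or.inl ⟨hk, fun h => hix (h ▸ hk)⟩)
      have hcd := card_cps (fun x : Finset (Fin n) => symmDiff x {i}) (fun x => i ∉ x) X (up_invol i)
      exact ⟨Y, hY1, hY2, hY3.trans hcd, hed.trans hY4, hin.trans hY5⟩
    · by_cases h2 : ∃ i j : Fin n, i < j ∧ (mv (sw i j) (fun x => j ∈ x ∧ i ∉ x) X).Nonempty
      · obtain ⟨i, j, hij, hm⟩ := h2
        have hlt := sum_cps_lt (sw i j) (fun x => j ∈ x ∧ i ∉ x) X
          (sw_invol i j) num (sw_num i j hij) hm
        obtain ⟨Y, hY1, hY2, hY3, hY4, hY5⟩ := ih (cps (sw i j) (fun x => j ∈ x ∧ i ∉ x) X) (by omega)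
        have hed := ed_cps adj (sw i j) (fun x => j ∈ x ∧ i ∉ x) X (sw_invol i j)
          adj_symm (fun x y h => (map_adj _ x y).2 h)
          (by
            intro x hx hx'
            rw [mem_sw, mem_sw, Equiv.swap_apply_left, Equiv.swap_apply_right] at hx'
            exact hx.2 hx'.1)
          (sw_fix i j) (sw_cross i j (ne_of_lt hij))
        have hin := cps_inter (sw i j) (fun x => j ∈ x ∧ i ∉ x) X (sw_invol i j) A
          (by
            intro x hx hn
            rw [sw_eq i j x hn]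
            exact hA2 x hx i j hij hn.1 hn.2)
        have hcd := card_cps (sw i j) (fun x => j ∈ x ∧ i ∉ x) X (sw_invol i j)
        exact ⟨Y, hY1, hY2, hY3.trans hcd, hed.trans hY4, hin.trans hY5⟩
      · refine ⟨X, ?_, ?_, rfl, le_refl _, le_refl _⟩
        · refine inc_of_step fun i x hx hi => ?_
          by_contra hcon
          exact h1 ⟨i, x, by rw [mv, mem_filter]; exact ⟨hx, hi, hcon⟩⟩
        · intro x hx i j hij hj hi
          by_contra hcon
          refine h2 ⟨i, j, hij, x, ?_⟩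
          rw [mv, mem_filter]
          refine ⟨hx, ⟨hj, hi⟩, ?_⟩
          rw [sw_eq i j x ⟨hj, hi⟩]
          exact hcon

/-- the functional inequality -/
theorem ed_inter {F L A : Finset (Finset (Fin n))} (hA1 : Inc A) (hA2 : Lc A) (hc : L.card = F.card)
    (hL : ∀ x ∈ L, ∀ y ∉ L, ∃ i ∈ x, i ∉ y ∧ ∀ j < i, (j ∈ x ↔ j ∈ y)) :
    ed adj F + 2 * (F ∩ A).card ≤ ed adj L + 2 * (L ∩ A).card := by
  obtain ⟨Y, hY1, hY2, hY3, hY4, hY5⟩ := exists_compressed hA1 hA2 (∑ x ∈ F, num x) F (le_refl _)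
  have h1 := ed_compressed hY1 hY2 (hc.trans hY3.symm) hL
  have h2 : (Y ∩ A).card ≤ (Y \ L).card + (L ∩ A).card := by
    rw [add_comm]
    refine le_trans (card_le_card ?_) (card_union_le _ _)
    intro x hx
    rw [mem_inter] at hx
    rw [mem_union, mem_inter, mem_sdiff]
    by_cases hxL : x ∈ L
    · exact Or.inl ⟨hxL, hx.2⟩
    · exact Or.inr ⟨hx.1, hxL⟩
  omega

/-! ### automorphisms -/

/-- the automorphism given by `σ` and `S` -/
def au (σ : Equiv.Perm (Fin n)) (S : Finset (Fin n)) (x : Finset (Fin n)) : Finset (Fin n) :=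
  symmDiff (x.map σ.toEmbedding) S

theorem au_inj (σ : Equiv.Perm (Fin n)) (S : Finset (Fin n)) : Function.Injective (au σ S) := by
  intro x y h
  unfold au at h
  rw [symmDiff_left_inj] at h
  exact map_injective _ h

theorem au_adj (σ : Equiv.Perm (Fin n)) (S : Finset (Fin n)) (x y : Finset (Fin n)) :
    adj (au σ S x) (au σ S y) ↔ adj x y := by
  rw [← map_adj σ x y]
  show (symmDiff (au σ S x) (au σ S y)).card = 1 ↔
    (symmDiff (x.map σ.toEmbedding) (y.map σ.toEmbedding)).card = 1
  unfold au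
  rw [symmDiff_symmDiff_symmDiff_comm, symmDiff_self, symmDiff_bot]

theorem ed_au (σ : Equiv.Perm (Fin n)) (S : Finset (Fin n)) (F : Finset (Finset (Fin n))) :
    ed adj (F.image (au σ S)) = ed adj F := by
  unfold ed
  rw [sum_image (fun x _ y _ h => au_inj σ S h)]
  refine sum_congr rfl fun x _ => ?_
  rw [sum_image (fun x _ y _ h => au_inj σ S h)]
  refine sum_congr rfl fun y _ => ?_
  simp only [au_adj]

theorem au_surj (σ : Equiv.Perm (Fin n)) (S : Finset (Fin n)) : Function.Surjective (au σ S) :=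
  Finite.injective_iff_surjective.1 (au_inj σ S)

theorem exists_preimage (σ : Equiv.Perm (Fin n)) (S : Finset (Fin n)) (F : Finset (Finset (Fin n))) :
    ∃ F' : Finset (Finset (Fin n)), F'.image (au σ S) = F := by
  refine ⟨univ.filter (fun x => au σ S x ∈ F), ?_⟩
  ext y
  rw [mem_image]
  constructor
  · rintro ⟨x, hx, rfl⟩
    exact (mem_filter.1 hx).2
  · intro hy
    obtain ⟨x, rfl⟩ := au_surj σ S y
    exact ⟨x, mem_filter.2 ⟨mem_univ _, hy⟩, rfl⟩

theorem bd_int (F : Finset (Finset (Fin n))) : ((bd F).card : ℤ) = n * F.card - ed adj F := by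
  have := bd_add_ed F
  have h2 : ((bd F).card : ℤ) + ed adj F = n * F.card := by exact_mod_cast this
  linarith

/-- **final statement** -/
theorem final {F L A : Finset (Finset (Fin n))} (hA1 : Inc A) (hA2 : Lc A) (hc : L.card = F.card)
    (hL : ∀ x ∈ L, ∀ y ∉ L, ∃ i ∈ x, i ∉ y ∧ ∀ j < i, (j ∈ x ↔ j ∈ y))
    (σ : Equiv.Perm (Fin n)) (S : Finset (Fin n)) :
    2 * (((F ∩ A.image (au σ S)).card : ℤ) - ((L.image (au σ S) ∩ A.image (au σ S)).card : ℤ)) ≤
        ((bd F).card : ℤ) - (bd L).card ∧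
    ((symmDiff F (L.image (au σ S))).card : ℤ) ≤
        ((bd F).card : ℤ) - (bd L).card + 2 * ((symmDiff F (A.image (au σ S))).card : ℤ) := by
  obtain ⟨F', hF'⟩ := exists_preimage σ S F
  have hFc : F'.card = F.card := by rw [← hF', card_image_of_injective _ (au_inj σ S)]
  have h1 := ed_inter hA1 hA2 (hc.trans hFc.symm) hL
  have h2 : ed adj F = ed adj F' := by rw [← hF', ed_au]
  have h3 : (F ∩ A.image (au σ S)).card = (F' ∩ A).card := by
    rw [← hF', ← image_inter _ _ (au_inj σ S), card_image_of_injective _ (au_inj σ S)]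
  have h4 : (L.image (au σ S) ∩ A.image (au σ S)).card = (L ∩ A).card := by
    rw [← image_inter _ _ (au_inj σ S), card_image_of_injective _ (au_inj σ S)]
  have h5 : ((bd F).card : ℤ) - (bd L).card = ed adj L - ed adj F := by
    rw [bd_int, bd_int, hc]
    ring
  have h6 : ((ed adj F : ℤ)) + 2 * (F' ∩ A).card ≤ ed adj L + 2 * (L ∩ A).card := by
    rw [h2]; exact_mod_cast h1
  have hGc : (L.image (au σ S)).card = L.card := card_image_of_injective _ (au_inj σ S)
  refine ⟨by rw [h3, h4, h5]; linarith, ?_⟩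
  set G := L.image (au σ S) with hG
  set B := A.image (au σ S) with hB
  have h7 : (symmDiff F G).card + 2 * (F ∩ G).card = F.card + G.card := by
    have e1 := card_inter_split' F G
    have e2 := card_inter_split' G F
    rw [inter_comm G F] at e2
    have e3 : (symmDiff F G).card = (F \ G).card + (G \ F).card := by
      rw [symmDiff_def, sup_eq_union, card_union_of_disjoint disjoint_sdiff_sdiff]
    omega
  have h8 : (symmDiff F B).card = (F \ B).card + (B \ F).card := by
    rw [symmDiff_def, sup_eq_union, card_union_of_disjoint disjoint_sdiff_sdiff]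
  have h9 : (G ∩ B).card ≤ (F ∩ G).card + (B \ F).card := by
    refine le_trans (card_le_card ?_) (card_union_le _ _)
    intro x hx
    rw [mem_inter] at hx
    rw [mem_union, mem_inter, mem_sdiff]
    by_cases hxF : x ∈ F
    · exact Or.inl ⟨hxF, hx.1⟩
    · exact Or.inr ⟨hx.2, hxF⟩
  have h10 := card_inter_split' F B
  rw [h3] at h10
  rw [h4] at h9
  have h11 : ((symmDiff F G).card : ℤ) + 2 * (F ∩ G).card = 2 * F.card := by
    have : (symmDiff F G).card + 2 * (F ∩ G).card = 2 * F.card := by omega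
    exact_mod_cast this
  have h12 : ((L ∩ A).card : ℤ) ≤ (F ∩ G).card + (B \ F).card := by exact_mod_cast h9
  have h13 : (F.card : ℤ) = (F \ B).card + (F' ∩ A).card := by exact_mod_cast h10
  have h14 : ((symmDiff F B).card : ℤ) = (F \ B).card + (B \ F).card := by exact_mod_cast h8
  rw [h5]
  linarith
where
  card_inter_split' (S R : Finset (Finset (Fin n))) : S.card = (S \ R).card + (S ∩ R).card :=
    (card_sdiff_add_card_inter S R).symm

end fam

end Pool.Agent.EdgeIso.SD
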